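import Pool.Agent.P.MP_5c499f_an.Defs

/-! Anosov maps and asymptotic orbits. -/

set_option autoImplicit false

namespace Pool.Agent.P.MP_5c499f_an

open Bundle Filter Topology
open scoped Manifold

/-- `f` is Anosov. The continuous invariant splitting `TM = Eˢ ⊕ Eᵘ` is encoded by the family `P`
of projections onto `Eᵘ` along `Eˢ`: the stable space is the kernel of `P x`, the unstable space
is the set of vectors fixed by `P x`. Norms are those of the Riemannian metric. -/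
def IsAnosov (E : Type*) [NormedAddCommGroup E] [NormedSpace ℝ E] {M : Type*}
    [TopologicalSpace M] [ChartedSpace E M] [IsManifold 𝓘(ℝ, E) 1 M]
    [RiemannianBundle fun x : M => TangentSpace 𝓘(ℝ, E) x] (f : M → M) : Prop :=
  ∃ (P : ∀ x : M, TangentSpace 𝓘(ℝ, E) x →L[ℝ] TangentSpace 𝓘(ℝ, E) x) (C lam : ℝ),
    0 < C ∧ 0 < lam ∧ lam < 1 ∧
    Continuous (fun p : TangentBundle 𝓘(ℝ, E) M => (⟨p.1, P p.1 p.2⟩ : TangentBundle 𝓘(ℝ, E) M)) ∧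
    (∀ x v, P x (P x v) = P x v) ∧
    (∀ x v, mfderiv 𝓘(ℝ, E) 𝓘(ℝ, E) f x (P x v) = P (f x) (mfderiv 𝓘(ℝ, E) 𝓘(ℝ, E) f x v)) ∧
    ∀ (x : M) (n : ℕ) (v : TangentSpace 𝓘(ℝ, E) x),
      (P x v = 0 → ‖mfderiv 𝓘(ℝ, E) 𝓘(ℝ, E) f^[n] x v‖ ≤ C * lam ^ n * ‖v‖) ∧
      (P x v = v → ‖v‖ ≤ C * lam ^ n * ‖mfderiv 𝓘(ℝ, E) 𝓘(ℝ, E) f^[n] x v‖)

/-- `x` and `y` are forward asymptotic under `F`. -/
def Asym {Y : Type*} [MetricSpace Y] (F : Y → Y) (x y : Y) : Prop :=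
  Tendsto (fun n : ℕ => dist (F^[n] x) (F^[n] y)) atTop (𝓝 0)

end Pool.Agent.P.MP_5c499f_an
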