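import Mathlib

/-! Two lemmas on sequences in a normed space. -/

set_option autoImplicit false

namespace Pool.Agent.P.MP_5c499f_an

open Filter Topology

variable {E : Type*} [NormedAddCommGroup E] [NormedSpace ℝ E]

omit [NormedSpace ℝ E] in
lemma exists_fixed [CompleteSpace E] {ι : Type*} (Φ : (ι → E) → ι → E) {r : ℝ} (hr : 0 ≤ r)
    (h0 : ∀ k, ‖Φ 0 k‖ ≤ r / 2)
    (hΦ : ∀ v w D, (∀ k, ‖v k‖ ≤ r) → (∀ k, ‖w k‖ ≤ r) → (∀ k, ‖v k - w k‖ ≤ D) →
      ∀ k, ‖Φ v k - Φ w k‖ ≤ D / 2) : ∃ v, (∀ k, ‖v k‖ ≤ r) ∧ Φ v = v := by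
  have hmap : ∀ v, (∀ k, ‖v k‖ ≤ r) → ∀ k, ‖Φ v k‖ ≤ r := fun v hv k => by
    have := hΦ v 0 r hv (fun _ => by simpa) (by simpa) k
    linarith [norm_le_norm_add_norm_sub' (Φ v k) (Φ 0 k), h0 k]
  have h1 : ∀ n k, ‖Φ^[n] 0 k‖ ≤ r := fun n => by
    induction n with
    | zero => exact fun _ => by simpa
    | succ n ih => rw [Function.iterate_succ_apply']; exact hmap _ ih
  have h2 : ∀ n k, dist (Φ^[n] 0 k) (Φ^[n + 1] 0 k) ≤ r / 2 / 2 ^ n := fun n => by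
    induction n with
    | zero => simpa
    | succ n ih =>
      intro k
      have := hΦ _ _ _ (h1 n) (h1 (n + 1)) (by simpa only [dist_eq_norm] using ih) k
      rw [← Function.iterate_succ_apply' Φ n, ← Function.iterate_succ_apply' Φ (n + 1)] at this
      rw [dist_eq_norm, pow_succ, ← div_div]
      exact this
  choose v hv using fun k => cauchySeq_tendsto_of_complete
    (cauchySeq_of_le_geometric_two fun n => h2 n k)
  have h3 : ∀ k, ‖v k‖ ≤ r := fun k => le_of_tendsto' (hv k).norm fun n => h1 n k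
  refine ⟨v, h3, funext fun k => ?_⟩
  have h4 : ∀ n, dist (Φ^[n + 1] 0 k) (Φ v k) ≤ r / 2 ^ n / 2 := fun n => by
    rw [Function.iterate_succ_apply', dist_eq_norm]
    refine hΦ _ _ _ (h1 n) h3 (fun k => ?_) k
    rw [← dist_eq_norm]
    exact dist_le_of_le_geometric_two_of_tendsto (fun n => h2 n k) (hv k) n
  have h5 : Tendsto (fun n : ℕ => r / 2 ^ n / 2) atTop (𝓝 0) := by
    simpa using (tendsto_const_nhds (x := r)).div_atTop
      (tendsto_pow_atTop_atTop_of_one_lt one_lt_two) |>.div_const 2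
  exact tendsto_nhds_unique (tendsto_iff_dist_tendsto_zero.2
    (squeeze_zero (fun _ => dist_nonneg) h4 h5)) ((hv k).comp (tendsto_add_atTop_nat 1))

theorem perron [CompleteSpace E] (Q H B : ℤ → E →L[ℝ] E) (g : ℤ → E → E) {r θ C₀ : ℝ}
    (hr : 0 ≤ r) (hθ : 0 ≤ θ) (hQ : ∀ k v, Q k (Q k v) = Q k v) (hH : ∀ k v, Q k (H k v) = H k v)
    (h1 : ∀ k v, ‖B k v - Q (k + 1) (B k v)‖ ≤ 1 / 10 * ‖v‖)
    (h2 : ∀ k v, ‖H k (Q (k + 1) v)‖ ≤ 1 / 10 * ‖v‖)
    (h3 : ∀ k v, ‖Q k v - H k (Q (k + 1) (B k v))‖ ≤ 1 / 10 * ‖v‖)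
    (h4 : ∀ k v, H k (Q (k + 1) v) = 0 → Q (k + 1) v = 0)
    (h5 : ∀ k v, ‖v - Q k v‖ ≤ C₀ * ‖v‖) (hC : 0 ≤ C₀)
    (hg : ∀ k v w, ‖v‖ ≤ r → ‖w‖ ≤ r → ‖g k v - g k w - B k (v - w)‖ ≤ θ * ‖v - w‖)
    (e1 : (C₀ + 1) * θ ≤ 1 / 10) (e2 : ∀ k, (C₀ + 1) * ‖g k 0‖ ≤ r / 2) :
    ∃ v : ℤ → E, (∀ k, ‖v k‖ ≤ r) ∧ ∀ k, v (k + 1) = g k (v k) := by
  have key := exists_fixed (fun (v : ℤ → E) k =>
    (g (k - 1) (v (k - 1)) - Q k (g (k - 1) (v (k - 1)))) +
      H k (Q (k + 1) (v (k + 1) - g k (v k))) + Q k (v k)) hr (fun k => ?_) ?_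
  · obtain ⟨v, v1, v2⟩ := key
    refine ⟨v, v1, fun k => ?_⟩
    have f1 := congrFun v2 (k + 1)
    have f2 := congrArg (Q k) (congrFun v2 k)
    simp only [map_add, map_sub (Q k), hQ, hH, sub_self, zero_add, add_eq_right] at f2
    have f3 := h4 _ _ f2
    have f4 := congrArg (Q (k + 1)) f1
    simp only [map_add, map_sub (Q (k + 1)), hQ, hH, sub_self, zero_add, add_eq_right] at f4
    simp only [add_sub_cancel_right, f4, add_zero] at f1
    rw [map_sub, sub_eq_zero] at f3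
    rw [← f1, f3, sub_add_cancel]
  · simp only [Pi.zero_apply, map_zero, add_zero, zero_sub]
    have f1 := h5 k (g (k - 1) 0)
    have f2 := h2 k (-g k 0)
    rw [norm_neg] at f2
    refine (norm_add_le _ _).trans ?_
    have f3 := e2 (k - 1)
    have f4 := e2 k
    have f5 : (C₀ + 1) * (C₀ * ‖g (k - 1) 0‖ + 1 / 10 * ‖g k 0‖) ≤ (C₀ + 1) * (r / 2) := by
      nlinarith [mul_le_mul_of_nonneg_left f3 hC]
    linarith [le_of_mul_le_mul_left f5 (by linarith)]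
  · intro v w D hv hw hD k
    have f0 : ∀ k, ‖g k (v k) - g k (w k) - B k (v k - w k)‖ ≤ θ * D := fun k =>
      (hg k _ _ (hv k) (hw k)).trans (mul_le_mul_of_nonneg_left (hD k) hθ)
    set e : ℤ → E := fun k => g k (v k) - g k (w k) - B k (v k - w k) with he
    have f1 := h1 (k - 1) (v (k - 1) - w (k - 1))
    rw [sub_add_cancel] at f1
    have f2 := (h5 k (e (k - 1))).trans (mul_le_mul_of_nonneg_left (f0 (k - 1)) hC)
    have f3 := h2 k (v (k + 1) - w (k + 1))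
    have f4 := h3 k (v k - w k)
    have f5 := h2 k (e k)
    have f6 : (g (k - 1) (v (k - 1)) - Q k (g (k - 1) (v (k - 1)))) +
        H k (Q (k + 1) (v (k + 1) - g k (v k))) + Q k (v k) -
        ((g (k - 1) (w (k - 1)) - Q k (g (k - 1) (w (k - 1)))) +
        H k (Q (k + 1) (w (k + 1) - g k (w k))) + Q k (w k)) =
        (B (k - 1) (v (k - 1) - w (k - 1)) - Q k (B (k - 1) (v (k - 1) - w (k - 1)))) +
        (e (k - 1) - Q k (e (k - 1))) + H k (Q (k + 1) (v (k + 1) - w (k + 1))) +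
        (Q k (v k - w k) - H k (Q (k + 1) (B k (v k - w k)))) - H k (Q (k + 1) (e k)) := by
      simp only [he, map_sub]; abel
    rw [f6]
    have f7 : 0 ≤ D := (norm_nonneg _).trans (hD k)
    refine (norm_sub_le _ _).trans ((add_le_add_left ((norm_add_le _ _).trans
      (add_le_add_left (norm_add₃_le) _)) _).trans ?_)
    nlinarith [hD (k - 1), hD k, hD (k + 1), f0 k, mul_le_mul_of_nonneg_right e1 f7,
      mul_nonneg hθ f7]

theorem cone (Q B : ℕ → E →L[ℝ] E) (v : ℕ → E) {R θ C₀ a₀ b₀ : ℝ} (hθ : 0 ≤ θ) (hC : 0 ≤ C₀)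
    (ha : 0 ≤ a₀) (hb : 0 ≤ b₀) (hQ : ∀ k w, Q k (Q k w) = Q k w)
    (hB : ∀ k w, Q (k + 1) (B k w) = B k (Q k w))
    (h1 : ∀ k w, Q k w = 0 → ‖B k w‖ ≤ a₀ * ‖w‖) (h2 : ∀ k w, Q k w = w → ‖w‖ ≤ b₀ * ‖B k w‖)
    (h3 : ∀ k w, ‖Q k w‖ ≤ C₀ * ‖w‖) (h4 : ∀ k w, ‖w - Q k w‖ ≤ C₀ * ‖w‖)
    (hv : ∀ k, ‖v (k + 1) - B k (v k)‖ ≤ θ * ‖v k‖) (hR : ∀ k, ‖v k‖ ≤ R)
    (e1 : a₀ + 2 * (C₀ * θ) ≤ 1) (e2 : b₀ * (2 + 2 * (C₀ * θ)) ≤ 1) (k : ℕ) :
    ‖v k‖ ≤ 2 * C₀ * R * (a₀ + 2 * (C₀ * θ)) ^ k := by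
  set p : ℕ → ℝ := fun k => ‖v k - Q k (v k)‖ with hp
  set q : ℕ → ℝ := fun k => ‖Q k (v k)‖ with hq
  have hη : 0 ≤ C₀ * θ := mul_nonneg hC hθ
  have hpq : ∀ k, ‖v k‖ ≤ p k + q k := fun k => by
    simpa [hp, hq] using norm_add_le (v k - Q k (v k)) (Q k (v k))
  have he : ∀ k, C₀ * ‖v (k + 1) - B k (v k)‖ ≤ C₀ * θ * (p k + q k) := fun k => by
    rw [mul_assoc]
    exact mul_le_mul_of_nonneg_left ((hv k).trans (mul_le_mul_of_nonneg_left (hpq k) hθ)) hC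
  have f1 : ∀ k, p (k + 1) ≤ a₀ * p k + C₀ * θ * (p k + q k) := fun k => by
    have g1 := h1 k (v k - Q k (v k)) (by simp [hQ])
    have g2 := (h4 (k + 1) _).trans (he k)
    have g3 : v (k + 1) - Q (k + 1) (v (k + 1)) = B k (v k - Q k (v k)) +
        (v (k + 1) - B k (v k) - Q (k + 1) (v (k + 1) - B k (v k))) := by
      simp only [map_sub, hB]; abel
    simp only [hp]
    rw [g3]
    exact (norm_add_le _ _).trans (add_le_add g1 g2)
  have f2 : ∀ k, q k ≤ b₀ * (q (k + 1) + C₀ * θ * (p k + q k)) := fun k => by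
    refine (h2 k _ (hQ _ _)).trans (mul_le_mul_of_nonneg_left ?_ hb)
    have g2 := (h3 (k + 1) _).trans (he k)
    have g3 : B k (Q k (v k)) = Q (k + 1) (v (k + 1)) - Q (k + 1) (v (k + 1) - B k (v k)) := by
      simp only [map_sub, hB]; abel
    rw [g3]
    exact (norm_sub_le _ _).trans (add_le_add le_rfl g2)
  have p0 : ∀ k, 0 ≤ p k := fun k => norm_nonneg _
  have f3 : ∀ k, q k ≤ p k := by
    intro k
    by_contra hk
    have g1 : ∀ j, p (k + j) < q (k + j) ∧ 2 ^ j * q k ≤ q (k + j) := by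
      intro j
      induction j with
      | zero => simpa using hk
      | succ j ih =>
        have g2 := f1 (k + j)
        have g3 := f2 (k + j)
        have g4 := p0 (k + j)
        have g5 : 2 * q (k + j) ≤ q (k + j + 1) := by
          by_contra g6
          have g7 : q (k + j + 1) + C₀ * θ * (p (k + j) + q (k + j)) <
              (2 + 2 * (C₀ * θ)) * q (k + j) := by nlinarith [ih.1]
          rcases hb.eq_or_lt with rfl | hb'
          · linarith [ih.1]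
          · nlinarith [mul_lt_mul_of_pos_left g7 hb', ih.1]
        refine ⟨?_, by rw [pow_succ, ← add_assoc]; linarith [ih.2]⟩
        change p (k + j + 1) < q (k + j + 1)
        nlinarith [ih.1]
    have g2 : 0 < q k := (p0 k).trans_lt (not_le.1 hk)
    obtain ⟨j, hj⟩ := pow_unbounded_of_one_lt (C₀ * R / q k) one_lt_two
    rw [div_lt_iff₀ g2] at hj
    linarith [(g1 j).2, (h3 (k + j) _).trans (mul_le_mul_of_nonneg_left (hR (k + j)) hC)]
  have f4 : ∀ k, p k ≤ C₀ * R * (a₀ + 2 * (C₀ * θ)) ^ k := fun k => by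
    induction k with
    | zero => simpa using (h4 0 _).trans (mul_le_mul_of_nonneg_left (hR 0) hC)
    | succ k ih =>
      rw [pow_succ, ← mul_assoc]
      nlinarith [f1 k, f3 k, mul_le_mul_of_nonneg_right ih
        (show 0 ≤ a₀ + 2 * (C₀ * θ) by positivity)]
  linarith [hpq k, f3 k, f4 k]

omit [NormedSpace ℝ E] in
lemma exists_cover [NormedSpace ℝ E] [FiniteDimensional ℝ E] : ∃ N : ℕ, ∀ (k : ℕ) (c : E) (R : ℝ),
    0 < R → ∃ T : Finset E, T.card ≤ N ^ k ∧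
      ∀ z, ‖z - c‖ ≤ R → ∃ τ ∈ T, ‖z - τ‖ ≤ R * (1 / 2) ^ k := by
  classical
  obtain ⟨T₀, -, T1, T2⟩ := finite_cover_balls_of_compact (isCompact_closedBall (0 : E) 1)
    (show (0 : ℝ) < 1 / 2 by norm_num)
  refine ⟨T1.toFinset.card, fun k => ?_⟩
  induction k with
  | zero => exact fun c R _ => ⟨{c}, by simp, by simp⟩
  | succ k ih =>
    intro c R hR
    choose T h1 h2 using fun τ : E => ih (c + R • τ) (R / 2) (by linarith)
    refine ⟨T1.toFinset.biUnion T, ?_, fun z hz => ?_⟩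
    · rw [pow_succ']
      exact Finset.card_biUnion_le_card_mul _ _ _ fun τ _ => h1 τ
    · have e1 : R⁻¹ • (z - c) ∈ Metric.closedBall (0 : E) 1 := by
        rw [mem_closedBall_zero_iff, norm_smul, norm_inv, Real.norm_of_nonneg hR.le,
          inv_mul_le_iff₀ hR, mul_one]
        exact hz
      obtain ⟨τ, t1, t2⟩ := Set.mem_iUnion₂.1 (T2 e1)
      obtain ⟨τ', t3, t4⟩ := h2 τ z (by
        have : z - (c + R • τ) = R • (R⁻¹ • (z - c) - τ) := by
          rw [smul_sub, smul_inv_smul₀ hR.ne']; abel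
        rw [this, norm_smul, Real.norm_of_nonneg hR.le]
        rw [mem_ball_iff_norm] at t2
        nlinarith)
      exact ⟨τ', Finset.mem_biUnion.2 ⟨τ, by simpa, t3⟩, t4.trans (le_of_eq (by ring))⟩

end Pool.Agent.P.MP_5c499f_an
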