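import Pool.Agent.P.MP_5c499f_an.Cover
import Pool.Agent.P.MP_5c499f_an.Perron

/-! Uniform bi-Lipschitz chart systems. -/

set_option autoImplicit false

namespace Pool.Agent.P.MP_5c499f_an

variable {M E ι : Type*} [MetricSpace M] [NormedAddCommGroup E]

/-- A uniform system of bi-Lipschitz charts. -/
structure CS (A : ι → Set M) (φ : ι → M → E) (ψ : ι → E → M) (r C : ℝ) : Prop where
  pos : 0 < r
  one_le : 1 ≤ C
  leb : ∀ x, ∃ i, ∀ y, dist y x ≤ r → y ∈ A i
  up : ∀ i x y, x ∈ A i → y ∈ A i → ‖φ i x - φ i y‖ ≤ C * dist x y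
  lo : ∀ i x y, x ∈ A i → y ∈ A i → dist x y ≤ C * ‖φ i x - φ i y‖
  inv : ∀ i x v, x ∈ A i → ‖v - φ i x‖ ≤ r → φ i (ψ i v) = v ∧ dist (ψ i v) x ≤ C * ‖v - φ i x‖

variable {A : ι → Set M} {φ : ι → M → E} {ψ : ι → E → M} {r C : ℝ}

namespace CS

variable (S : CS A φ ψ r C)
include S

lemma left_inv {i : ι} {x : M} (hx : x ∈ A i) : ψ i (φ i x) = x := by
  have := (S.inv i x (φ i x) hx (by simpa using S.pos.le)).2
  simpa using this

lemma lip {i : ι} {y : M} (hy : ∀ z, dist z y ≤ r → z ∈ A i) {v w : E}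
    (hv : C * ‖v - φ i y‖ ≤ r) (hw : C * ‖w - φ i y‖ ≤ r) :
    dist (ψ i v) (ψ i w) ≤ C * ‖v - w‖ := by
  have h0 := hy y (by simpa using S.pos.le)
  obtain ⟨a1, a2⟩ := S.inv i y v h0 ((le_mul_of_one_le_left (norm_nonneg _) S.one_le).trans hv)
  obtain ⟨b1, b2⟩ := S.inv i y w h0 ((le_mul_of_one_le_left (norm_nonneg _) S.one_le).trans hw)
  have := S.lo i _ _ (hy _ (a2.trans hv)) (hy _ (b2.trans hw))
  rwa [a1, b1] at this

lemma continuousOn_ψ {i : ι} {y : M} (hy : ∀ z, dist z y ≤ r → z ∈ A i) :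
    ContinuousOn (ψ i) {v | C * ‖v - φ i y‖ ≤ r} :=
  (LipschitzOnWith.of_dist_le_mul (K := ⟨C, by linarith [S.one_le]⟩) fun v hv w hw => by
    rw [dist_eq_norm]; exact S.lip hy hv hw).continuousOn

lemma continuousOn_φ (i : ι) : ContinuousOn (φ i) (A i) :=
  (LipschitzOnWith.of_dist_le_mul (K := ⟨C, by linarith [S.one_le]⟩) fun v hv w hw => by
    rw [dist_eq_norm]; exact S.up i _ _ hv hw).continuousOn

variable [NormedSpace ℝ E]

theorem loc : Loc M (r / C ^ 2) (C ^ 2) := by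
  have h1 := S.one_le
  have h2 := S.pos
  have h3 : r / C ^ 2 ≤ r := div_le_self h2.le (one_le_pow₀ h1)
  have key : ∀ (i : ι) (y z z' : M) (s : unitInterval), (∀ z, dist z y ≤ r → z ∈ A i) →
      dist z y ≤ r / C ^ 2 → dist z' y ≤ r / C ^ 2 →
      C * ‖(φ i z + (s : ℝ) • (φ i z' - φ i z)) - φ i y‖ ≤ r := by
    intro i y z z' s hy hz hz'
    have h0 := hy y (by simpa using h2.le)
    have a1 := S.up i _ _ (hy z (hz.trans h3)) h0
    have a2 := S.up i _ _ (hy z' (hz'.trans h3)) h0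
    have a3 : φ i z + (s : ℝ) • (φ i z' - φ i z) - φ i y =
        (1 - (s : ℝ)) • (φ i z - φ i y) + (s : ℝ) • (φ i z' - φ i y) := by module
    have a4 := s.2.1
    have a5 : 0 ≤ 1 - (s : ℝ) := by linarith [s.2.2]
    rw [le_div_iff₀ (by positivity)] at hz hz'
    have a6 := norm_add_le ((1 - (s : ℝ)) • (φ i z - φ i y)) ((s : ℝ) • (φ i z' - φ i y))
    rw [norm_smul, norm_smul, Real.norm_of_nonneg a4, Real.norm_of_nonneg a5, ← a3] at a6
    have a7 : C * ‖φ i z - φ i y‖ ≤ r := by nlinarith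
    have a8 : C * ‖φ i z' - φ i y‖ ≤ r := by nlinarith
    nlinarith [mul_le_mul_of_nonneg_left a7 a5, mul_le_mul_of_nonneg_left a8 a4]
  refine ⟨by positivity, one_le_pow₀ h1, fun y y' p q hp hq => ?_, fun y y' hy' => ?_⟩
  · obtain ⟨i, hy⟩ := S.leb y
    have c1 : Continuous fun t => φ i (p t) :=
      (S.continuousOn_φ i).comp_continuous p.continuous fun t => hy _ ((hp t).trans h3)
    have c2 : Continuous fun t => φ i (q t) :=
      (S.continuousOn_φ i).comp_continuous q.continuous fun t => hy _ ((hq t).trans h3)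
    refine ⟨⟨⟨⟨fun st => ψ i (φ i (p st.2) + (st.1 : ℝ) • (φ i (q st.2) - φ i (p st.2))),
      (S.continuousOn_ψ hy).comp_continuous ((c1.comp continuous_snd).add
        ((continuous_subtype_val.comp continuous_fst).smul ((c2.comp continuous_snd).sub
        (c1.comp continuous_snd)))) fun st => key i y _ _ _ hy (hp _) (hq _)⟩,
      fun t => ?_, fun t => ?_⟩, fun s t ht => ?_⟩⟩
    · simpa using S.left_inv (hy _ ((hp t).trans h3))
    · simpa using S.left_inv (hy _ ((hq t).trans h3))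
    · have : q t = p t := by rcases ht with rfl | rfl <;> simp
      simpa [this] using S.left_inv (hy _ ((hp t).trans h3))
  · obtain ⟨i, hy⟩ := S.leb y
    rw [dist_comm] at hy'
    have h0 : dist y y ≤ r / C ^ 2 := by rw [dist_self]; positivity
    refine ⟨⟨⟨fun s => ψ i (φ i y + (s : ℝ) • (φ i y' - φ i y)),
      (S.continuousOn_ψ hy).comp_continuous (by fun_prop) fun s => key i y _ _ _ hy h0 hy'⟩,
      by simpa using S.left_inv (hy _ (h0.trans h3)),
      by simpa using S.left_inv (hy _ (hy'.trans h3))⟩, fun t t' => ?_⟩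
    refine (S.lip hy (key i y _ _ t hy h0 hy') (key i y _ _ t' hy h0 hy')).trans ?_
    rw [add_sub_add_left_eq_sub, ← sub_smul, norm_smul, Subtype.dist_eq, dist_eq_norm, dist_comm y]
    have a1 := S.up i _ _ (hy y' (hy'.trans h3)) (hy _ (h0.trans h3))
    nlinarith [mul_le_mul_of_nonneg_left a1 (mul_nonneg (show 0 ≤ C by linarith)
      (norm_nonneg ((t : ℝ) - t')))]

theorem box [CompactSpace M] [FiniteDimensional ℝ E] : ∃ N, ∀ r', Box M r' N := by
  classical
  have h1 := S.one_le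
  have h2 := S.pos
  obtain ⟨N₀, hN⟩ := exists_cover (E := E)
  set s := min 1 r / C ^ 2 with hs
  have s0 : 0 < s := by positivity
  have s1 : C ^ 2 * s = min 1 r := by rw [hs]; field_simp
  have s2 : s ≤ C * s := le_mul_of_one_le_left s0.le h1
  have s3 : C * s ≤ C * (C * s) := by gcongr
  have s4 : C * (C * s) ≤ 1 := by nlinarith [min_le_left 1 r]
  have s5 : C * (C * s) ≤ r := by nlinarith [min_le_right 1 r]
  obtain ⟨T₀, -, T1, T2⟩ := finite_cover_balls_of_compact (isCompact_univ (X := M)) s0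
  choose i hi using S.leb
  refine ⟨T1.toFinset.card + N₀, fun r' p k => ?_⟩
  choose T t1 t2 using fun c => hN k (φ (i c) c) (C * s) (by positivity)
  refine ⟨T1.toFinset.biUnion fun c => (T c).image (ψ (i c)), ?_, fun z _ => ?_⟩
  · refine (Finset.card_biUnion_le_card_mul _ _ _ fun c _ =>
      Finset.card_image_le.trans (t1 c)).trans ?_
    rw [pow_succ']
    gcongr <;> omega
  · obtain ⟨c, c1, c2⟩ := Set.mem_iUnion₂.1 (T2 (Set.mem_univ z))
    have c3 : dist z c ≤ s := le_of_lt c2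
    have c4 := hi c z (by linarith)
    obtain ⟨τ, a1, a2⟩ := t2 c (φ (i c) z) ((S.up _ _ _ c4 (hi c c (by simpa using h2.le))).trans
      (by gcongr))
    refine ⟨ψ (i c) τ, Finset.mem_biUnion.2 ⟨c, by simpa, Finset.mem_image_of_mem _ a1⟩, ?_⟩
    rw [norm_sub_rev] at a2
    have a3 : (1 / 2 : ℝ) ^ k ≤ 1 := pow_le_one₀ (by norm_num) (by norm_num)
    have a4 : (0 : ℝ) < (1 / 2) ^ k := by positivity
    rw [dist_comm]
    refine (S.inv _ _ _ c4 (by nlinarith)).2.trans ?_
    nlinarith [mul_le_mul_of_nonneg_left a2 (show 0 ≤ C by linarith)]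

end CS

end Pool.Agent.P.MP_5c499f_an
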