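import Pool.Agent.P.MP_5c499f_an.Uniq
import Pool.Agent.P.MP_5c499f_an.Charts

/-! The coarse dynamical data on the universal cover. -/

set_option autoImplicit false

namespace Pool.Agent.P.MP_5c499f_an

open Filter Topology Pool.Agent.Lib.Gromov

theorem CS.conv {M E ι : Type*} [MetricSpace M] [NormedAddCommGroup E] [NormedSpace ℝ E]
    {A : ι → Set M} {φ : ι → M → E} {ψ : ι → E → M} {r C : ℝ} (S : CS A φ ψ r C) :
    Conv M (r / C ^ 2) (C ^ 2) := by
  have h1 := S.one_le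
  have h2 := S.pos
  have h3 : r / C ^ 2 ≤ r := div_le_self h2.le (one_le_pow₀ h1)
  choose i hi using S.leb
  have key : ∀ (y z z' : M) (s : unitInterval), dist z y ≤ r / C ^ 2 → dist z' y ≤ r / C ^ 2 →
      C * ‖(φ (i y) z + (s : ℝ) • (φ (i y) z' - φ (i y) z)) - φ (i y) y‖ ≤ r := by
    intro y z z' s hz hz'
    have h0 := hi y y (by simpa using h2.le)
    have a1 := S.up _ _ _ (hi y z (hz.trans h3)) h0
    have a2 := S.up _ _ _ (hi y z' (hz'.trans h3)) h0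
    have a3 : φ (i y) z + (s : ℝ) • (φ (i y) z' - φ (i y) z) - φ (i y) y =
        (1 - (s : ℝ)) • (φ (i y) z - φ (i y) y) + (s : ℝ) • (φ (i y) z' - φ (i y) y) := by module
    have a4 := s.2.1
    have a5 : 0 ≤ 1 - (s : ℝ) := by linarith [s.2.2]
    rw [le_div_iff₀ (by positivity)] at hz hz'
    have a6 := norm_add_le ((1 - (s : ℝ)) • (φ (i y) z - φ (i y) y))
      ((s : ℝ) • (φ (i y) z' - φ (i y) y))
    rw [norm_smul, norm_smul, Real.norm_of_nonneg a4, Real.norm_of_nonneg a5, ← a3] at a6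
    have a7 : C * ‖φ (i y) z - φ (i y) y‖ ≤ r := by nlinarith
    have a8 : C * ‖φ (i y) z' - φ (i y) y‖ ≤ r := by nlinarith
    nlinarith [mul_le_mul_of_nonneg_left a7 a5, mul_le_mul_of_nonneg_left a8 a4]
  refine ⟨fun c p q s => ψ (i c) (φ (i c) p + (s : ℝ) • (φ (i c) q - φ (i c) p)),
    fun c p q hp hq => ⟨by simpa using S.left_inv (hi c _ (hp.trans h3)),
      by simpa using S.left_inv (hi c _ (hq.trans h3)), fun p' q' s s' hp' hq' => ?_⟩⟩
  refine (S.lip (hi c) (key c _ _ s hp hq) (key c _ _ s' hp' hq')).trans ?_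
  have a1 := S.up _ _ _ (hi c p (hp.trans h3)) (hi c p' (hp'.trans h3))
  have a2 := S.up _ _ _ (hi c q (hq.trans h3)) (hi c q' (hq'.trans h3))
  have a3 := S.up _ _ _ (hi c q (hq.trans h3)) (hi c p (hp.trans h3))
  have a4 : φ (i c) p + (s : ℝ) • (φ (i c) q - φ (i c) p) -
      (φ (i c) p' + (s' : ℝ) • (φ (i c) q' - φ (i c) p')) =
      (1 - (s' : ℝ)) • (φ (i c) p - φ (i c) p') + (s' : ℝ) • (φ (i c) q - φ (i c) q') +
        ((s : ℝ) - s') • (φ (i c) q - φ (i c) p) := by module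
  have a5 := s'.2.1
  have a6 := s'.2.2
  rw [a4, pow_two, mul_assoc]
  gcongr
  refine norm_add₃_le.trans ?_
  rw [norm_smul, norm_smul, norm_smul, Real.norm_of_nonneg a5, Real.norm_of_nonneg (by linarith),
    Subtype.dist_eq, dist_eq_norm, dist_comm p q]
  nlinarith [norm_nonneg (φ (i c) p - φ (i c) p'), norm_nonneg (φ (i c) q - φ (i c) q'),
    mul_le_mul_of_nonneg_left a3 (norm_nonneg ((s : ℝ) - s'))]

variable {M Y : Type*} [MetricSpace M] [MetricSpace Y] {π : Y → M} {ρ₀ : ℝ}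

lemma IsCov.conv (hc : IsCov π ρ₀) {σ K σ' : ℝ} (h : Conv M σ K) (hK : 1 ≤ K) (e1 : σ' ≤ σ)
    (e2 : 2 * (K * (σ' + σ') + σ') < ρ₀) : Conv Y σ' K := by
  obtain ⟨κ, hκ⟩ := h
  have : ∀ a y, ∃ b, dist y (π a) < ρ₀ → π b = y ∧ dist b a = dist y (π a) := fun a y => by
    by_cases h : dist y (π a) < ρ₀
    · exact (hc.lift a y h).imp fun _ e _ => e
    · exact ⟨a, fun h' => absurd h' h⟩
  choose l hl using this
  have key : ∀ c p q s, dist p c ≤ σ' → dist q c ≤ σ' → dist (π p) (π c) ≤ σ ∧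
      dist (π q) (π c) ≤ σ ∧ π (l c (κ (π c) (π p) (π q) s)) = κ (π c) (π p) (π q) s ∧
      dist (l c (κ (π c) (π p) (π q) s)) c ≤ K * (σ' + σ') + σ' := fun c p q s hp hq => by
    have a0 : 0 ≤ σ' := dist_nonneg.trans hp
    have a1 := hc.dist_eq p c (by nlinarith)
    have a2 := hc.dist_eq q c (by nlinarith)
    obtain ⟨k0, -, k2⟩ := hκ (π c) (π p) (π q) (by linarith) (by linarith)
    have a3 := k2 (π p) (π q) s 0 (by linarith) (by linarith)
    rw [k0, dist_self, dist_self, zero_add, zero_add] at a3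
    have a4 : dist (π p) (π q) * dist s 0 ≤ σ' + σ' :=
      (mul_le_of_le_one_right dist_nonneg (dist_le_one _ _)).trans
        (by linarith [dist_triangle_right (π p) (π q) (π c)])
    have a5 : dist (κ (π c) (π p) (π q) s) (π c) ≤ K * (σ' + σ') + σ' := by
      nlinarith [dist_triangle (κ (π c) (π p) (π q) s) (π p) (π c)]
    obtain ⟨b1, b2⟩ := hl c (κ (π c) (π p) (π q) s) (by nlinarith)
    exact ⟨by linarith, by linarith, b1, b2 ▸ a5⟩
  refine ⟨fun c p q s => l c (κ (π c) (π p) (π q) s), fun c p q hp hq => ?_⟩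
  have a0 : 0 ≤ σ' := dist_nonneg.trans hp
  obtain ⟨k0, k1, k2⟩ := hκ (π c) (π p) (π q) (key c p q 0 hp hq).1 (key c p q 0 hp hq).2.1
  refine ⟨hc.eq ?_ ((key c p q 0 hp hq).2.2.1.trans k0),
    hc.eq ?_ ((key c p q 1 hp hq).2.2.1.trans k1), fun p' q' s s' hp' hq' => ?_⟩
  · nlinarith [(key c p q 0 hp hq).2.2.2, dist_triangle_right (l c (κ (π c) (π p) (π q) 0)) p c]
  · nlinarith [(key c p q 1 hp hq).2.2.2, dist_triangle_right (l c (κ (π c) (π p) (π q) 1)) q c]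
  obtain ⟨-, -, b1, b2⟩ := key c p q s hp hq
  obtain ⟨b3, b4, b5, b6⟩ := key c p' q' s' hp' hq'
  rw [← hc.dist_eq _ _ ((dist_triangle_right _ _ c).trans_lt (by linarith)), b1, b5,
    ← hc.dist_eq p p' ((dist_triangle_right _ _ c).trans_lt (by nlinarith)),
    ← hc.dist_eq q q' ((dist_triangle_right _ _ c).trans_lt (by nlinarith)),
    ← hc.dist_eq p q ((dist_triangle_right _ _ c).trans_lt (by nlinarith))]
  exact k2 _ _ s s' b3 b4

lemma IsCov.continuous (hc : IsCov π ρ₀) : Continuous π :=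
  Metric.continuous_iff.2 fun b ε hε => ⟨min ε ρ₀, lt_min hε hc.pos, fun a h => by
    rw [hc.dist_eq _ _ (h.trans_le (min_le_right _ _))]; exact h.trans_le (min_le_left _ _)⟩

lemma IsCov.isOpenMap (hc : IsCov π ρ₀) : IsOpenMap π := fun U hU => by
  refine Metric.isOpen_iff.2 ?_
  rintro _ ⟨a, ha, rfl⟩
  obtain ⟨r, r0, r1⟩ := Metric.isOpen_iff.1 hU a ha
  refine ⟨min r ρ₀, lt_min r0 hc.pos, fun y hy => ?_⟩
  obtain ⟨b, b1, b2⟩ := hc.lift a y (hy.trans_le (min_le_right _ _))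
  exact ⟨b, r1 (b2.trans_lt (hy.trans_le (min_le_left _ _))), b1⟩

lemma IsCov.uc (hc : IsCov π ρ₀) {F : M → M} {G : Y → Y} (hG : ∀ p, π (G p) = F (π p))
    (hF : UniformContinuous F) {ρ₁ : ℝ} (h0 : 0 < ρ₁)
    (h1 : ∀ p q, dist p q ≤ ρ₁ → dist (G p) (G q) < ρ₀) : UniformContinuous G := by
  refine Metric.uniformContinuous_iff.2 fun ε hε => ?_
  obtain ⟨η, e1, e2⟩ := Metric.uniformContinuous_iff.1 hF ε hε
  refine ⟨min (min η ρ₀) ρ₁, by have := hc.pos; positivity, fun {p q} h => ?_⟩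
  simp only [lt_min_iff] at h
  rw [← hc.dist_eq _ _ (h1 p q h.2.le), hG, hG]
  exact e2 (by rw [hc.dist_eq _ _ h.1.2]; exact h.1.1)

variable {Γ : Type*} [Group Γ] [MulAction Γ Y]

lemma IsCov.quot (hc : IsCov π ρ₀) (hiso : ∀ (g : Γ) (a b : Y), dist (g • a) (g • b) = dist a b)
    (hπ : ∀ (g : Γ) (a : Y), π (g • a) = π a) (hfree : ∀ (g : Γ) (a : Y), g • a = a → g = 1)
    (htr : ∀ a b : Y, π a = π b → ∃ g : Γ, g • a = b) (hsurj : Function.Surjective π) :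
    IsQuotientCoveringMap π Γ where
  toIsQuotientMap := hc.isOpenMap.isQuotientMap hc.continuous hsurj
  continuous_const_smul g := (Isometry.of_dist_eq (hiso g)).continuous
  apply_eq_iff_mem_orbit := ⟨fun h => htr _ _ h.symm, by rintro ⟨g, rfl⟩; exact hπ g _⟩
  disjoint e := ⟨Metric.ball e (ρ₀ / 2), Metric.ball_mem_nhds _ (half_pos hc.pos), by
    rintro g ⟨_, ⟨a, h1, rfl⟩, h2⟩
    exact hfree g a (hc.eq (by
      linarith [dist_triangle_right (g • a) a e, Metric.mem_ball.1 h1, Metric.mem_ball.1 h2])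
      (hπ g a))⟩

/-- The coarse dynamical data. -/
structure Dyn (G : Equiv.Perm Y) (Φ : MulAut Γ) (ρ : ℝ) (o : Y) : Prop where
  pos : 0 < ρ
  iso : ∀ (g : Γ) (a b : Y), dist (g • a) (g • b) = dist a b
  free : ∀ (g : Γ) (a : Y), g • a = a → g = 1
  conn : ∀ a, ∃ R, Reach ρ R o a
  cocpt : ∃ R, ∀ a, ∃ g : Γ, Reach ρ R o (g⁻¹ • a)
  proper : ∀ R, {g : Γ | Reach ρ R o (g • o)}.Finite
  equiv : ∀ (g : Γ) a, G (g • a) = Φ g • G a
  cont : ∀ k : ℤ, Continuous (G ^ k)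
  lip : ∃ L, ∀ a b, dist a b ≤ ρ → Reach ρ L (G a) (G b)
  br : ∃ c : ℕ, ∀ (j : ℕ) p p', Reach ρ (2 ^ j) p p' → ∃ w,
    St G (c * (j + 1) : ℕ) ρ w p' ∧ Un G (-(c * (j + 1) : ℕ)) ρ w p
  glob : ∀ R p q, (∀ k : ℤ, Reach ρ R ((G ^ k) p) ((G ^ k) q)) → p = q

lemma uc_zpow {G : Equiv.Perm Y} (h1 : UniformContinuous G)
    (h2 : UniformContinuous (G⁻¹ : Equiv.Perm Y)) (k : ℤ) : UniformContinuous (G ^ k) := by
  induction k using Int.induction_on with
  | zero => exact uniformContinuous_id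
  | succ k ih => rw [zpow_add_one]; exact ih.comp h1
  | pred k ih => rw [zpow_sub_one]; exact ih.comp h2

theorem IsCov.dyn [CompactSpace M] (hc : IsCov π ρ₀)
    (hiso : ∀ (g : Γ) (a b : Y), dist (g • a) (g • b) = dist a b)
    (hπ : ∀ (g : Γ) (a : Y), π (g • a) = π a) (hfree : ∀ (g : Γ) (a : Y), g • a = a → g = 1)
    (htr : ∀ a b : Y, π a = π b → ∃ g : Γ, g • a = b) (hsurj : Function.Surjective π) (o : Y)
    (hconn : ∀ r, 0 < r → ∀ a, ∃ R, Reach r R o a) (hsc : ∀ (p q : Y) (α β : Path p q), α.Homotopic β)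
    {F : Equiv.Perm M} {G : Equiv.Perm Y} (hG : ∀ p, π (G p) = F (π p)) (h1 : UniformContinuous G)
    (h2 : UniformContinuous (G⁻¹ : Equiv.Perm Y)) {Φ : MulAut Γ}
    (hΦ : ∀ (g : Γ) a, G (g • a) = Φ g • G a) {K : ℕ} (hK : 0 < K) {a b Λ Λ' σ C₁ : ℝ}
    (h : Hyp (F ^ K) a b Λ Λ') (hσ : 0 < σ) (hC : 1 ≤ C₁) (hI : Interp M σ C₁) (hI' : Conv M σ C₁)
    {N : ℕ} (hN : ∀ r, Box M r N) {x y : ℕ} (hx : 0 < x) (hy : 0 < y)
    (hs : Λ' ^ x * a ^ (x + y) < 1) (hu : Λ ^ y * b ^ (x + y) < 1) :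
    ∃ ρ, Dyn G Φ ρ o ∧ ∃ D, WGd Γ D := by
  have hρ₀ := hc.pos
  have uc := uc_zpow h1 h2
  have hGK : ∀ p, π ((G ^ K) p) = (F ^ K) (π p) := fun p => by
    simpa using semiconj_zpow hG K p
  obtain ⟨ρ₁, a1, a2⟩ := Metric.uniformContinuous_iff.1 (uc K) ρ₀ hρ₀
  obtain ⟨ρ₂, a3, a4⟩ := Metric.uniformContinuous_iff.1 (uc (-K)) ρ₀ hρ₀
  simp only [zpow_neg, zpow_natCast] at a2 a4
  obtain ⟨ρ', r0, r1, r2⟩ := h.lip
  obtain ⟨ρ, p0, p1, p2, p3, p3', p4⟩ : ∃ ρ, 0 < ρ ∧ ρ ≤ ρ' ∧ ρ ≤ σ ∧ ρ < ρ₁ ∧ ρ < ρ₂ ∧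
      2 * (C₁ * (ρ + ρ) + ρ) < ρ₀ := by
    have : ∀ᶠ ρ in 𝓝[>] (0 : ℝ), 0 < ρ ∧ ρ ≤ ρ' ∧ ρ ≤ σ ∧ ρ < ρ₁ ∧ ρ < ρ₂ ∧
        2 * (C₁ * (ρ + ρ) + ρ) < ρ₀ := by
      refine .and self_mem_nhdsWithin (Eventually.filter_mono nhdsWithin_le_nhds ?_)
      refine (eventually_le_nhds r0).and ((eventually_le_nhds hσ).and
        ((eventually_lt_nhds a1).and ((eventually_lt_nhds a3).and ?_)))
      exact ContinuousAt.eventually_lt (by fun_prop) continuousAt_const (by simpa)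
    exact this.exists
  have p5 : ρ ≤ C₁ * ρ := le_mul_of_one_le_left p0.le hC
  obtain ⟨η, e0, e2⟩ : ∃ η, 0 < η ∧ ∀ s : Fin K, ∀ p q, dist p q ≤ η →
      dist ((G ^ (s : ℤ)) p) ((G ^ (s : ℤ)) q) ≤ ρ := by
    choose η e1 e2 using fun s : Fin K => Metric.uniformContinuous_iff_le.1 (uc s) ρ p0
    obtain ⟨R, hR⟩ := Finite.exists_le fun s => (η s)⁻¹
    exact ⟨(max R 1)⁻¹, by positivity, fun s p q e => e2 s (e.trans
      (inv_le_of_inv_le₀ (e1 s) ((hR s).trans (le_max_left _ _))))⟩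
  obtain ⟨ε, δ, C, e1, hl⟩ := h.lh (min (ρ / 6) η) (by positivity)
  rw [le_min_iff] at e1
  have hδ := hl.δ_le
  have hδ0 := hl.δ_pos
  have hl' : LH (G ^ K) ε δ C a b := hc.lh hGK (ρ₁ := ρ) (fun p q e => a2 (e.trans_lt p3))
    (fun p q e => a4 (e.trans_lt p3')) hl (by linarith) (by nlinarith)
  have hG' : ∀ p, π ((G ^ K)⁻¹ p) = (F ^ K)⁻¹ (π p) := fun p => by
    simpa using semiconj_zpow hGK (-1) p
  have hg : Geo (G ^ K) ρ Λ Λ' (C₁ * ρ) := (hc.interp hI hC p2 (by nlinarith)).geo (by linarith)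
    p0.le le_rfl h.one_le h.one_le' (fun p q hpq => by
      rw [← hc.dist_eq _ _ (a2 (by linarith)), hGK, hGK, ← hc.dist_eq p q (by nlinarith)]
      exact r1 _ _ (by rw [hc.dist_eq p q (by nlinarith)]; linarith)) (fun p q hpq => by
      rw [← hc.dist_eq _ _ (a4 (by linarith)), hG', hG', ← hc.dist_eq p q (by nlinarith)]
      exact r2 _ _ (by rw [hc.dist_eq p q (by nlinarith)]; linarith))
  obtain ⟨D, hD⟩ := hl'.poly hg (by linarith) hs hu (hc.box (r := 2 * δ) (by nlinarith) (hN _))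
  have hinj : Function.Injective fun g : Γ => g • o := fun g g' e => by
    have := hfree (g'⁻¹ * g) o (by rw [mul_smul, show g • o = g' • o from e, inv_smul_smul])
    exact (inv_mul_eq_one.1 this).symm
  have hsep : ∀ S : Set Γ, ∀ z ∈ (fun g : Γ => g • o) '' S, ∀ z' ∈ (fun g : Γ => g • o) '' S,
      dist z z' ≤ δ → z = z' := by
    rintro S _ ⟨g, -, rfl⟩ _ ⟨g', -, rfl⟩ e
    exact hc.eq (by nlinarith) (by rw [hπ, hπ])
  have pw : ∀ k : ℤ, (G ^ K) ^ k = G ^ (K * k) := fun k => by rw [zpow_mul, zpow_natCast]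
  refine ⟨ρ, ⟨p0, hiso, hfree, hconn ρ p0, ?_, fun R => ?_, hΦ, fun k => (uc k).continuous, ?_, ?_,
    fun R p q e => hl'.global hg (by linarith) hs hu (fun _ _ _ _ => hl'.uniq hg (by linarith)
      (hc.conv hI' hC p2 p4) hC p0 (fun k => pw k ▸ (uc _).continuous) hsc hx hy hs hu)
      (R := R) fun k => pw k ▸ e _⟩, D, fun S hS => ?_⟩
  · obtain ⟨T, -, T1, T2⟩ := finite_cover_balls_of_compact (isCompact_univ (X := M)) p0
    choose R hR using fun τ => hconn ρ p0 (Function.surjInv hsurj τ)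
    obtain ⟨L, hL⟩ := (T1.image R).bddAbove
    refine ⟨L + 1, fun a => ?_⟩
    obtain ⟨τ, t1, t2⟩ := Set.mem_iUnion₂.1 (T2 (Set.mem_univ (π a)))
    rw [Metric.mem_ball, dist_comm] at t2
    obtain ⟨b, b1, b2⟩ := hc.lift a τ (by nlinarith)
    obtain ⟨g, rfl⟩ := htr (Function.surjInv hsurj τ) b (by rw [Function.surjInv_eq hsurj, b1])
    refine ⟨g, ((hR τ).mono p0.le (hL ⟨τ, t1, rfl⟩)).trans (Reach.single ?_)⟩
    rw [← hiso g, smul_inv_smul, dist_comm]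
    linarith
  · obtain ⟨K', hK'⟩ := hD R
    refine Set.Finite.of_finite_image (hK' 0 o _ (hsep _) ?_).1 hinj.injOn
    rintro _ ⟨g, hg, rfl⟩
    simpa using hg
  · obtain ⟨η', b1, b2⟩ := Metric.uniformContinuous_iff_le.1 h1 ρ p0
    obtain ⟨L, hL⟩ := exists_nat_gt (C₁ * ρ / η')
    have b3 : (0 : ℝ) < L := lt_of_le_of_lt (by positivity) hL
    refine ⟨L, fun p q e => ?_⟩
    obtain ⟨c, c0, c1, c2⟩ := hg.interp p q e L (by exact_mod_cast b3)
    refine ⟨fun i => G (c i), by simp [c0], by simp [c1], fun i hi => b2 ((c2 i hi).trans ?_)⟩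
    rw [div_lt_iff₀ b1] at hL
    rw [div_le_iff₀ b3]
    linarith
  · set q := max (Λ' ^ x * a ^ (x + y)) (Λ ^ y * b ^ (x + y))
    have hq : q < 1 := max_lt hs hu
    have hq0 : 0 ≤ q := le_max_of_le_left (mul_nonneg (pow_nonneg (by linarith [h.one_le']) _)
      (pow_nonneg hl.a_nonneg _))
    obtain ⟨c, c1, c2⟩ := ((exists_small 2 hq0 hq one_pos).and
      (exists_small (2 * (C₁ * ρ / δ + 2) * C) hq0 hq hδ0)).exists
    refine ⟨K * (x + y) * c + K, fun j p p' e => ?_⟩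
    obtain ⟨w, w1, w2⟩ := hl'.rect hg (by linarith) (le_max_left _ _) (le_max_right _ _)
      (t := c * (j + 1)) (by
        have b1 : (2 : ℝ) ^ j * (q ^ c) ^ j ≤ 1 := by
          rw [← mul_pow]; exact pow_le_one₀ (by positivity) c1.le
        have b2 : ((2 ^ j : ℕ) : ℝ) + 1 ≤ 2 * 2 ^ j := by
          push_cast; linarith [one_le_pow₀ (show (1 : ℝ) ≤ 2 by norm_num) (n := j)]
        have := hl.C_nonneg
        calc _ ≤ 2 * 2 ^ j * (C₁ * ρ / δ + 2) * C * q ^ (c * (j + 1)) := by gcongr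
          _ = 2 * (C₁ * ρ / δ + 2) * C * q ^ c * (2 ^ j * (q ^ c) ^ j) := by
            rw [pow_mul, pow_succ]; ring
          _ ≤ 2 * (C₁ * ρ / δ + 2) * C * q ^ c * 1 := by gcongr
          _ ≤ δ := by linarith) e
    have hK' : (0 : ℤ) < K := by exact_mod_cast hK
    have key : ∀ (k : ℤ) u v, dist (((G ^ K) ^ (k / K)) u) (((G ^ K) ^ (k / K)) v) ≤ δ →
        dist ((G ^ k) u) ((G ^ k) v) ≤ ρ := fun k u v e => by
      have := e2 ⟨(k % K).toNat, by have := Int.emod_lt_of_pos k hK'; omega⟩ _ _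
        (e.trans (hδ.trans e1.2))
      rwa [pw, zpow_apply_zpow, zpow_apply_zpow, Int.toNat_of_nonneg (Int.emod_nonneg k hK'.ne'),
        Int.emod_add_mul_ediv] at this
    refine ⟨w, fun k hk => key k _ _ (w1 _ ?_), fun k hk => key k _ _ (w2 _ ?_)⟩
    · refine Int.le_ediv_of_mul_le hK' (le_trans ?_ hk)
      push_cast
      nlinarith [show (0 : ℤ) ≤ K * x * c * (j + 1) by positivity]
    · refine Int.ediv_le_of_le_mul hK' (hk.trans ?_)
      push_cast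
      nlinarith [show (0 : ℤ) ≤ K * y * c * (j + 1) by positivity]
  · choose R hR using fun g : Γ => hconn ρ p0 (g • o)
    obtain ⟨L, hL⟩ := (hS.image R).bddAbove
    obtain ⟨K', hK'⟩ := hD L
    have key : ∀ n, ∀ w ∈ W S n, Reach ρ (L * n) o (w • o) := by
      intro n
      induction n with
      | zero => intro w hw; rw [W_zero hw, one_smul]; exact Reach.refl _ _
      | succ n ih =>
        intro w hw
        rcases W_succ hw with e | ⟨s, s1, w, w1, rfl⟩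
        · exact (ih w e).mono p0.le (Nat.mul_le_mul_left _ (Nat.le_succ n))
        · rw [mul_smul, mul_add, mul_one, add_comm]
          exact ((hR s).mono p0.le (hL ⟨s, s1, rfl⟩)).trans ((ih w w1).smul hiso s)
    refine ⟨K', fun j => ⟨2 ^ j, Nat.lt_two_pow_self.le, ?_⟩⟩
    have := (hK' j o ((fun g : Γ => g • o) '' W S (2 ^ j)) (hsep _) ?_).2
    · rw [Set.ncard_image_of_injective _ hinj] at this
      exact this.trans (by gcongr; omega)
    · rintro _ ⟨g, hg, rfl⟩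
      exact key _ g hg

omit [MetricSpace Y] in
lemma exists_aut {G : Equiv.Perm Y} (hfree : ∀ (g : Γ) (a : Y), g • a = a → g = 1) (o : Y)
    (h1 : ∀ g : Γ, ∃ g' : Γ, ∀ a, G (g • a) = g' • G a)
    (h2 : ∀ g' : Γ, ∃ g : Γ, ∀ a, G (g • a) = g' • G a) :
    ∃ Φ : MulAut Γ, ∀ (g : Γ) a, G (g • a) = Φ g • G a := by
  have hinj : ∀ (g g' : Γ) (a : Y), g • a = g' • a → g = g' := fun g g' a e =>
    (inv_mul_eq_one.1 (hfree (g'⁻¹ * g) a (by rw [mul_smul, e, inv_smul_smul]))).symm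
  choose φ hφ using h1
  refine ⟨MulEquiv.ofBijective (MonoidHom.mk' φ fun g g' => hinj _ _ (G o) ?_)
    ⟨fun g g' e => hinj _ _ o (G.injective ?_), fun g' => ?_⟩, hφ⟩
  · rw [← hφ, mul_smul, mul_smul, hφ, hφ]
  · rw [hφ, hφ]; exact congrArg (· • G o) e
  · obtain ⟨g, hg⟩ := h2 g'
    exact ⟨g, hinj _ _ (G o) ((hφ g o).symm.trans (hg o))⟩

namespace Cov

variable {σ C₁ : ℝ} {h : Loc M σ C₁} {x₀ : M}

open Path.Homotopic.Quotient (mk_trans trans_refl trans_assoc mk_map)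

lemma quot [PathConnectedSpace M] :
    IsQuotientCoveringMap (Cov.pt : Cov h x₀ → M) (FundamentalGroup M x₀) :=
  isCov.quot dist_smul smul_pt free transitive
    fun y => ⟨⟨y, .mk (PathConnectedSpace.somePath _ _)⟩, rfl⟩

lemma continuous_lift {x y : M} (p : Path x y) (γ : Path.Homotopic.Quotient x₀ (p 0)) :
    Continuous fun t => (⟨p t, γ.trans (.mk (p.subpath 0 t))⟩ : Cov h x₀) := by
  refine Metric.continuous_iff.2 fun s ε hε => ?_
  obtain ⟨η, h1, h2⟩ := Metric.continuous_iff.1 p.continuous s (min ε σ) (lt_min hε h.pos)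
  refine ⟨η, h1, fun t ht => ?_⟩
  rw [dist_comm, dist_def]
  refine (d_le_of_nr ⟨p.subpath s t, fun u => ?_, ?_⟩).trans_lt ?_
  · obtain ⟨u', s1, s2⟩ : p.subpath s t u ∈ p '' Set.uIcc s t :=
      p.range_subpath _ _ ▸ Set.mem_range_self u
    rw [← s2]
    refine ((h2 _ (lt_of_le_of_lt ?_ ht)).trans_le (min_le_right _ _)).le
    rw [dist_comm, dist_comm t]
    exact Real.dist_left_le_of_mem_uIcc (x := (s : ℝ)) (y := u') (z := (t : ℝ)) s1
  · have := Path.Homotopic.Quotient.eq.2 ⟨Path.Homotopy.subpathTransSubpath p 0 s t⟩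
    rw [mk_trans] at this
    exact (congrArg γ.trans this.symm).trans (trans_assoc _ _ _).symm
  · rw [dist_comm]
    exact (h2 _ ht).trans_le (min_le_left _ _)

lemma cls_eq [PathConnectedSpace M] {a b : Cov h x₀} (α : Path a b) :
    b.cls = a.cls.trans ((Path.Homotopic.Quotient.mk α).map ⟨Cov.pt, isCov.continuous⟩) := by
  obtain ⟨f, rfl, rfl⟩ := α
  set α : Path (f 0) (f 1) := ⟨f, rfl, rfl⟩
  set p := α.map (isCov (h := h)).continuous
  have := (quot (h := h) (x₀ := x₀)).isCoveringMap.eq_of_comp_eq α.continuous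
    (continuous_lift (h := h) p (f 0).cls) rfl 0 (by
    simp only [Path.subpath_self]
    exact (congrArg (fun γ => (⟨(f 0).pt, γ⟩ : Cov h x₀)) (trans_refl (f 0).cls)).symm)
  have e := congrFun this 1
  have e' : p.subpath 0 1 = p := by rw [Path.subpath_zero_one]; rfl
  simp only [e'] at e
  exact eq_of_heq (Cov.ext_iff.1 e).2

lemma homotopic [PathConnectedSpace M] (a b : Cov h x₀) (α β : Path a b) : α.Homotopic β := by
  refine Path.Homotopic.Quotient.eq.1 (quot.isCoveringMap.injective_path_homotopic_map a b ?_)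
  have := congrArg (fun γ => a.cls.symm.trans γ) ((cls_eq α).symm.trans (cls_eq β))
  simpa only [← trans_assoc, Path.Homotopic.Quotient.symm_trans,
    Path.Homotopic.Quotient.refl_trans] using this

lemma reach' {r : ℝ} (hr : 0 < r) (a : Cov h x₀) : ∃ R, Reach r R (⟨x₀, .refl _⟩ : Cov h x₀) a := by
  obtain ⟨p, hp⟩ := Path.Homotopic.Quotient.mk_surjective a.cls
  simpa [hp] using Cov.reach (h := h) hr p (.refl _)

end Cov

lemma preconnected_of_reach {o : Y} (h : ∀ r, 0 < r → ∀ a, ∃ R, Reach r R o a) {Z : Type*}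
    [MetricSpace Z] {π : Z → M} (hc : IsCov π ρ₀) {A B : Y → Z} (hA : UniformContinuous A)
    (hB : UniformContinuous B) (e : ∀ a, π (A a) = π (B a)) (e' : A o = B o) (a : Y) :
    A a = B a := by
  obtain ⟨η, a1, a2⟩ := Metric.uniformContinuous_iff.1 hA _ (half_pos hc.pos)
  obtain ⟨η', a3, a4⟩ := Metric.uniformContinuous_iff.1 hB _ (half_pos hc.pos)
  obtain ⟨R, hR⟩ := h (min η η' / 2) (by positivity) a
  induction R generalizing a with
  | zero => rwa [← hR.zero]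
  | succ R ih =>
    obtain ⟨w, w1, w2⟩ := hR.succ
    have := min_le_left η η'
    have := min_le_right η η'
    refine hc.eq ?_ (e a)
    have b1 := a4 (show dist a w < η' by linarith)
    rw [← ih w w1] at b1
    linarith [a2 (show dist a w < η by linarith), dist_triangle_right (A a) (B a) (A w)]

theorem Loc.dyn [CompactSpace M] [PathConnectedSpace M] {σ C₁ : ℝ} (h : Loc M σ C₁)
    (h' : Conv M σ C₁) (g : M ≃ₜ M) {K : ℕ} (hK : 0 < K) {a b Λ Λ' : ℝ}
    (hg : Hyp ((g.toEquiv : Equiv.Perm M) ^ K) a b Λ Λ') {N : ℕ} (hN : ∀ r, Box M r N)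
    {x y : ℕ} (hx : 0 < x) (hy : 0 < y) (hs : Λ' ^ x * a ^ (x + y) < 1)
    (hu : Λ ^ y * b ^ (x + y) < 1) (x₀ : M) :
    ∃ (G : Equiv.Perm (Cov h x₀)) (Φ : MulAut (FundamentalGroup M x₀)) (ρ : ℝ) (o : Cov h x₀),
      (∀ p, (G p).pt = g p.pt) ∧ Dyn G Φ ρ o ∧ (∃ D, WGd (FundamentalGroup M x₀) D) ∧
      ∃ S : Set (FundamentalGroup M x₀), S.Finite ∧ Subgroup.closure S = ⊤ := by
  set τ : Path.Homotopic.Quotient x₀ (g x₀) := .mk (PathConnectedSpace.somePath _ _)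
  obtain ⟨ρ₁, e1, e2, e3⟩ := Cov.lift_near (h := h) g τ
  set G : Equiv.Perm (Cov h x₀) := Equiv.ofBijective _ (Cov.liftFun_bijective g τ)
  have hG : ∀ p, (G p).pt = g p.pt := fun p => rfl
  have hG' : ∀ p, (G⁻¹ p).pt = g.symm p.pt := fun p => by
    rw [Homeomorph.eq_symm_apply, ← hG]; simp
  have u1 : UniformContinuous G := Cov.isCov.uc hG
    (CompactSpace.uniformContinuous_of_continuous g.continuous) e1 e2
  have u2 : UniformContinuous (G⁻¹ : Equiv.Perm _) := Cov.isCov.uc hG'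
    (CompactSpace.uniformContinuous_of_continuous g.symm.continuous) e1 fun p q hpq => e3 _ _ (by
      have : ∀ p, Cov.liftFun g τ (G⁻¹ p) = p := G.apply_symm_apply
      rwa [this, this])
  have u3 := fun γ : FundamentalGroup M x₀ =>
    (Isometry.of_dist_eq (Cov.dist_smul (h := h) γ)).uniformContinuous
  have key : ∀ γ γ' : FundamentalGroup M x₀, G (γ • ⟨x₀, .refl _⟩) = γ' • G ⟨x₀, .refl _⟩ →
      ∀ a, G (γ • a) = γ' • G a := fun γ γ' e =>
    preconnected_of_reach (fun _ => Cov.reach') Cov.isCov (u1.comp (u3 γ)) ((u3 γ').comp u1)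
      (fun _ => rfl) e
  obtain ⟨Φ, hΦ⟩ := exists_aut (G := G) Cov.free ⟨x₀, .refl _⟩
    (fun γ => (Cov.transitive (G ⟨x₀, .refl _⟩) (G (γ • ⟨x₀, .refl _⟩)) rfl).imp
      fun γ' e => key _ _ e.symm) fun γ' => by
    obtain ⟨γ, e⟩ := Cov.transitive (h := h) ⟨x₀, .refl _⟩ (G⁻¹ (γ' • G ⟨x₀, .refl _⟩)) (by
      rw [hG', Cov.smul_pt, hG]; simp)
    exact ⟨γ, key _ _ (by simp [e])⟩
  have hsurj : Function.Surjective (Cov.pt : Cov h x₀ → M) := Cov.quot.surjective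
  obtain ⟨ρ, d1, d2⟩ := Cov.isCov.dyn Cov.dist_smul Cov.smul_pt Cov.free Cov.transitive hsurj _
    (fun _ => Cov.reach') Cov.homotopic (F := g.toEquiv) hG u1 u2 hΦ hK hg h.pos h.one_le h.interp
    h' hN hx hy hs hu
  exact ⟨G, Φ, ρ, _, hG, d1, d2, Cov.isCov.fg Cov.dist_smul Cov.smul_pt Cov.free Cov.transitive
    hsurj _ fun _ => Cov.reach'⟩

end Pool.Agent.P.MP_5c499f_an
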