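import Pool.Agent.P.MP_5c499f_an.Manifold
import Pool.Agent.P.MP_5c499f_an.GDefs

/-! From an Anosov diffeomorphism to the local hyperbolic structure. -/

set_option autoImplicit false

namespace Pool.Agent.P.MP_5c499f_an

open Bundle Filter Topology
open scoped Manifold ContDiff

variable {E : Type*} [NormedAddCommGroup E] [NormedSpace ℝ E] {M : Type*}

lemma exists_deriv_bound [TopologicalSpace M] [ChartedSpace E M] [IsManifold 𝓘(ℝ, E) 1 M]
    [CompactSpace M] [RiemannianBundle fun x : M => TangentSpace 𝓘(ℝ, E) x]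
    [IsContinuousRiemannianBundle E fun x : M => TangentSpace 𝓘(ℝ, E) x] {F : M → M}
    (hF : ContMDiff 𝓘(ℝ, E) 𝓘(ℝ, E) 1 F) :
    ∃ L, 1 ≤ L ∧ ∀ x v, ‖mfderiv 𝓘(ℝ, E) 𝓘(ℝ, E) F x v‖ ≤ L * ‖v‖ := by
  have key : ∀ c : M, ∃ L, ∀ᶠ x in 𝓝 c, ∀ v, ‖mfderiv 𝓘(ℝ, E) 𝓘(ℝ, E) F x v‖ ≤ L * ‖v‖ := by
    intro c
    obtain ⟨C₁, a1, a2⟩ := eventually_norm_trivializationAt_lt E
      (fun x : M => TangentSpace 𝓘(ℝ, E) x) c
    obtain ⟨C₂, a3, a4⟩ := eventually_norm_symmL_trivializationAt_lt E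
      (fun x : M => TangentSpace 𝓘(ℝ, E) x) (F c)
    have h1 : ContinuousAt (Bd E F c (F c)) c :=
      ((contDiffAt_chart (mem_chart_source E c) ((contMDiffAt_extChartAt'
        (mem_chart_source E (F c))).comp c (hF c))).continuousAt_fderiv one_ne_zero).comp
        (continuousAt_extChartAt c)
    refine ⟨C₂ * ((‖Bd E F c (F c) c‖ + 1) * C₁), ?_⟩
    filter_upwards [a2, (hF.continuous.tendsto c).eventually a4, chart_source_mem_nhds E c,
      (hF.continuous.tendsto c).eventually (chart_source_mem_nhds E (F c)),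
      h1.norm.eventually_lt_const (lt_add_one _)] with x b1 b2 b3 b4 b5 v
    have e := Bd_apply b3 b4 ((hF x).mdifferentiableAt one_ne_zero) (J E c x v)
    rw [J'_J b3] at e
    rw [← J'_J b4 (mfderiv 𝓘(ℝ, E) 𝓘(ℝ, E) F x v), ← e, mul_assoc, mul_assoc]
    refine (ContinuousLinearMap.le_of_opNorm_le _ b2.le _).trans ?_
    gcongr
    refine (ContinuousLinearMap.le_of_opNorm_le _ b5.le _).trans ?_
    gcongr
    exact ContinuousLinearMap.le_of_opNorm_le _ b1.le _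
  choose L hL using key
  obtain ⟨t, -, ht⟩ := (isCompact_univ (X := M)).elim_nhds_subcover _ fun c _ => hL c
  obtain ⟨R, hR⟩ := Finite.exists_le fun i : t => L i
  refine ⟨max R 1, le_max_right _ _, fun x v => ?_⟩
  obtain ⟨i, hi, hx⟩ := Set.mem_iUnion₂.1 (ht (Set.mem_univ x))
  exact (hx v).trans (by gcongr; exact (hR ⟨i, hi⟩).trans (le_max_left _ _))

theorem core' [FiniteDimensional ℝ E] {V : Type*} [NormedAddCommGroup V] [NormedSpace ℝ V]
    [MetricSpace M] [ChartedSpace E M] [IsManifold 𝓘(ℝ, E) 1 M] [CompactSpace M]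
    [RiemannianBundle fun x : M => TangentSpace 𝓘(ℝ, E) x]
    [IsContinuousRiemannianBundle E fun x : M => TangentSpace 𝓘(ℝ, E) x]
    {e : M → V} (he : ∀ x y, dist x y = ‖e x - e y‖) (h1 : ContMDiff 𝓘(ℝ, E) 𝓘(ℝ, V) 1 e)
    (h2 : ∀ x, Function.Injective (mfderiv 𝓘(ℝ, E) 𝓘(ℝ, V) e x))
    (f : Diffeomorph 𝓘(ℝ, E) 𝓘(ℝ, E) M M 1) (hf : IsAnosov E f) :
    ∃ (K : ℕ) (a b Λ Λ' : ℝ), 0 < K ∧ Hyp ((f.toEquiv : Equiv.Perm M) ^ K) a b Λ Λ' := by
  obtain ⟨P, D, q, hD, q0, q1, hP, p1, p2, p3⟩ := hf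
  obtain ⟨t, A, r, C, S, a1, a2⟩ := exists_CS he h1 h2 (Q := Qd E P)
    fun c => Qd_continuousAt hP (mem_chart_source E c)
  have hC := S.one_le
  obtain ⟨K, k0, k1⟩ := ((eventually_gt_atTop 0).and (((tendsto_pow_atTop_nhds_zero_of_lt_one q0.le
    q1).const_mul (20 * C ^ 2 * (C ^ 2 * D))).eventually_lt_const
      (show _ < (1 : ℝ) by simp))).exists
  have c1 : ⇑((f.toEquiv : Equiv.Perm M) ^ K) = f^[K] := Equiv.Perm.coe_pow _ _
  have c2 : ⇑((f.toEquiv : Equiv.Perm M) ^ K)⁻¹ = f.symm^[K] := by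
    rw [← inv_pow]; exact Equiv.Perm.coe_pow _ _
  have c3 : ∀ n x v, mfderiv 𝓘(ℝ, E) 𝓘(ℝ, E) f^[n] x (P x v) =
      P (f^[n] x) (mfderiv 𝓘(ℝ, E) 𝓘(ℝ, E) f^[n] x v) := fun n => by
    induction n with
    | zero => intro x v; simp only [Function.iterate_zero, mfderiv_id]; rfl
    | succ n ih =>
      intro x v
      have d1 := (f.contMDiff.iterate n).mdifferentiable one_ne_zero
      have d2 := f.contMDiff.mdifferentiable one_ne_zero
      rw [Function.iterate_succ, mfderiv_comp_apply x (d1 _) (d2 _),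
        mfderiv_comp_apply x (d1 _) (d2 _), p2, ih]
      rfl
  obtain ⟨Λ, l1, l2⟩ := exists_deriv_bound (f.contMDiff.iterate K)
  obtain ⟨Λ', l3, l4⟩ := exists_deriv_bound (f.symm.contMDiff.iterate K)
  have l5 : ∀ x v, ‖v‖ ≤ Λ' * ‖mfderiv 𝓘(ℝ, E) 𝓘(ℝ, E) f^[K] x v‖ := fun x v => by
    have d1 := (f.contMDiff.iterate K).mdifferentiable one_ne_zero
    have d2 := (f.symm.contMDiff.iterate K).mdifferentiable one_ne_zero
    have e1 := l4 _ (mfderiv 𝓘(ℝ, E) 𝓘(ℝ, E) f^[K] x v)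
    rw [← mfderiv_comp_apply x (d2 _) (d1 _)] at e1
    have e2 : ∀ g : M → M, g = id → ‖mfderiv 𝓘(ℝ, E) 𝓘(ℝ, E) g x v‖ = ‖v‖ := by
      rintro _ rfl
      rw [mfderiv_id]; rfl
    rwa [e2 (f.symm^[K] ∘ f^[K])
      (funext (Function.LeftInverse.iterate f.symm_apply_apply K))] at e1
  have H := hy_chart hC a1 hP a2 (F := (f.toEquiv : Equiv.Perm M) ^ K)
    (c1 ▸ f.contMDiff.iterate K) (c2 ▸ f.symm.contMDiff.iterate K) p1 (c1 ▸ c3 K)
    (a := D * q ^ K) (b := D * q ^ K) (by positivity) (by positivity) l1 l3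
    (by linarith) (by linarith) (c1 ▸ fun x v e => ⟨(p3 x K v).1 e, l5 x v⟩)
    (c1 ▸ fun x v e => ⟨(p3 x K v).2 e, l2 x v⟩)
  exact ⟨K, _, _, _, _, k0, H.hyp S⟩

end Pool.Agent.P.MP_5c499f_an
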