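import Pool.Agent.P.MP_5c499f_an.GDefs

/-! Differential forms, angle forms and the two hypotheses. -/

set_option autoImplicit false

namespace Pool.Agent.P.MP_5c499f_an

open Bundle Filter Topology
open scoped Manifold ContDiff

/-- A finite sum of terms `c · da₁ ∧ … ∧ da_k` with real functions `c, a₁, …, a_k` on `M`. On a
compact manifold every smooth `k`-form can be written in this way with smooth functions. -/
structure Form (M : Type*) (k : ℕ) where
  /-- the number of terms -/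
  n : ℕ
  /-- the coefficients -/
  c : Fin n → M → ℝ
  /-- the functions whose differentials are multiplied -/
  a : Fin n → Fin k → M → ℝ

/-- The exterior derivative `∑ dc ∧ da₁ ∧ … ∧ da_k`. -/
def Form.d {M : Type*} {k : ℕ} (α : Form M k) : Form M (k + 1) :=
  ⟨α.n, fun _ _ => 1, fun t => Fin.cons (α.c t) (α.a t)⟩

variable (E : Type*) [NormedAddCommGroup E] [NormedSpace ℝ E] {M : Type*} [TopologicalSpace M]
  [ChartedSpace E M] {k : ℕ}

/-- All functions occurring in the form are smooth. -/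
def Form.Smooth (α : Form M k) : Prop :=
  ∀ t, ContMDiff 𝓘(ℝ, E) 𝓘(ℝ, ℝ) ∞ (α.c t) ∧ ∀ i, ContMDiff 𝓘(ℝ, E) 𝓘(ℝ, ℝ) ∞ (α.a t i)

/-- The value of the form on `k` tangent vectors at `x`. -/
noncomputable def Form.ev (α : Form M k) (x : M) (v : Fin k → TangentSpace 𝓘(ℝ, E) x) : ℝ :=
  ∑ t, α.c t x * (Matrix.of fun i j => mvfderiv 𝓘(ℝ, E) (α.a t i) x (v j)).det

/-- The angle form `Im (dθ / θ)` of a map `θ` to the punctured plane. -/
noncomputable def ang (θ : M → ℂ) (x : M) (v : TangentSpace 𝓘(ℝ, E) x) : ℝ :=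
  (mvfderiv 𝓘(ℝ, E) θ x v / θ x).im

variable (M k) in
/-- Every closed smooth `k`-form is a real linear combination of wedge products of `k` angle forms
of smooth maps to the punctured plane. -/
def CupGen : Prop :=
  ∀ α : Form M k, α.Smooth E → (∀ x v, α.d.ev E x v = 0) →
    ∃ (m : ℕ) (c : Fin m → ℝ) (θ : Fin m → Fin k → M → ℂ),
      (∀ t i, ContMDiff 𝓘(ℝ, E) 𝓘(ℝ, ℂ) ∞ (θ t i) ∧ ∀ x, θ t i x ≠ 0) ∧
      ∀ x v, α.ev E x v = ∑ t, c t * (Matrix.of fun i j => ang E (θ t i) x (v j)).det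

variable [RiemannianBundle fun x : M => TangentSpace 𝓘(ℝ, E) x]

/-- The derivatives of the iterates of `g` contract the tangent vector `w` to zero. -/
def Decays (g : M → M) (x : M) (w : TangentSpace 𝓘(ℝ, E) x) : Prop :=
  Tendsto (fun n : ℕ => ‖mfderiv 𝓘(ℝ, E) 𝓘(ℝ, E) g^[n] x w‖) atTop (𝓝 0)

/-- The vectors contracted by `g` form at every point a space of dimension `k`, on which a fixed
smooth `k`-form does not vanish. -/
def Oriented (g : M → M) (k : ℕ) : Prop :=
  ∃ α : Form M k, α.Smooth E ∧ ∀ x, ∃ v : Fin k → TangentSpace 𝓘(ℝ, E) x, α.ev E x v ≠ 0 ∧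
    ∀ w, Decays E g x w ↔ w ∈ Submodule.span ℝ (Set.range v)

end Pool.Agent.P.MP_5c499f_an
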