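import Mathlib

open Set Filter Topology
open scoped ContDiff InnerProductSpace

namespace Pool.Agent.P.MP_5c499f_an.Wn

/-- The velocity vectors at z of curves through z that stay in S. For a submanifold S this is the
tangent space of S at z. -/
def Tan {V : Type*} [NormedAddCommGroup V] [NormedSpace ℝ V] (S : Set V) (z : V) : Set V :=
  {v | ∃ γ : ℝ → V, γ 0 = z ∧ (∀ᶠ t in 𝓝 (0 : ℝ), γ t ∈ S) ∧ HasDerivAt γ v 0}

variable {E : Type} [NormedAddCommGroup E] [InnerProductSpace ℝ E]

/-- N is an embedded smooth submanifold without boundary: near each of its points it is the zero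
set of a smooth submersion. -/
def IsSubmanifold (N : Set E) : Prop :=
  ∀ x ∈ N, ∃ (k : ℕ) (f : E → EuclideanSpace ℝ (Fin k)) (W : Set E), IsOpen W ∧ x ∈ W ∧
    ContDiffOn ℝ ∞ f W ∧ (∀ y ∈ W, Function.Surjective (fderiv ℝ f y)) ∧
    ∀ y ∈ W, (y ∈ N ↔ f y = 0)

/-- The cotangent bundle of N, a covector at x being written as the inner product with a tangent
vector at x. The Liouville form at z is v ↦ ⟪z.2, v.1⟫. -/
def Cot (N : Set E) : Set (E × E) := {z | z.1 ∈ N ∧ z.2 ∈ Tan N z.1}

/-- The differential of the Liouville form. -/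
def omega (u v : E × E) : ℝ := ⟪u.2, v.1⟫_ℝ - ⟪v.2, u.1⟫_ℝ

/-- z is an integral curve of the Hamiltonian vector field of H on the cotangent bundle of N. -/
def IsOrbit (N : Set E) (H : E × E → ℝ) (z : ℝ → E × E) : Prop :=
  ∀ t, z t ∈ Cot N ∧ ∃ v, HasDerivAt z v t ∧
    ∀ u ∈ Tan (Cot N) (z t), omega v u = -fderiv ℝ H (z t) u

end Pool.Agent.P.MP_5c499f_an.Wn
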