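import Pool.Agent.P.MP_5c499f_an.GWin

/-! Finitely many traces. TASK ANOS-A2. -/

set_option autoImplicit false

namespace Pool.Agent.P.MP_5c499f_an

open Polynomial

namespace GTraceX

/-- the closed unit ball of an ultrametric field -/
def ball (k : Type*) [NormedField k] [IsUltrametricDist k] : Subring k where
  carrier := {z | ‖z‖ ≤ 1}
  mul_mem' := fun {a b} ha hb => by
    show ‖a * b‖ ≤ 1
    rw [norm_mul]
    exact mul_le_one₀ ha (norm_nonneg _) hb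
  one_mem' := norm_one.le
  add_mem' := fun {a b} ha hb => (IsUltrametricDist.norm_add_le_max a b).trans (max_le ha hb)
  zero_mem' := by
    show ‖(0 : k)‖ ≤ 1
    simp
  neg_mem' := fun {a} ha => by
    show ‖-a‖ ≤ 1
    rwa [norm_neg]

theorem root_map {Γ : Type*} [Group Γ] {Φ : MulAut Γ} (hW : Win Φ) {R k : Type*} [CommRing R]
    [NormedField k] [IsAlgClosed k] {d : ℕ} (ρ : Γ →* Matrix (Fin d) (Fin d) R)
    {A : Matrix (Fin d) (Fin d) R} (hA : IsUnit A) (h : ∀ γ, A * ρ γ = ρ (Φ γ) * A)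
    (s : R →+* k) (γ : Γ) : ∃ M : Multiset k, s (ρ γ).trace = M.sum ∧ M.card ≤ d ∧
      ∀ z ∈ M, ‖z‖ ≤ 1 := by
  refine ⟨((ρ γ).map s).charpoly.roots, ?_, ?_, fun z hz => ?_⟩
  · rw [AddMonoidHom.map_trace, Matrix.trace_eq_sum_roots_charpoly]
  · refine (card_roots' _).trans ?_
    rw [Matrix.charpoly_natDegree_eq_dim, Fintype.card_fin]
  · refine hW.root_le (s.mapMatrix.toMonoidHom.comp ρ) (hA.map s.mapMatrix) (fun g => ?_) γ
      (isRoot_of_mem_roots hz)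
    show s.mapMatrix A * s.mapMatrix (ρ g) = s.mapMatrix (ρ (Φ g)) * s.mapMatrix A
    rw [← map_mul, ← map_mul, h]

theorem norm_sum_le {k : Type*} [NormedField k] (M : Multiset k) (h : ∀ z ∈ M, ‖z‖ ≤ 1) :
    ‖M.sum‖ ≤ M.card := by
  refine (norm_multiset_sum_le M).trans ?_
  have h1 := Multiset.sum_le_card_nsmul (M.map fun x => ‖x‖) 1 (fun r hr => by
    obtain ⟨z, hz, rfl⟩ := Multiset.mem_map.1 hr
    exact h z hz)
  simpa using h1

theorem exists_ext {P S M : Type*} [CommRing P] [IsDomain P] [CommRing S] [IsDomain S]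
    [Algebra P S] [FaithfulSMul P S] [Algebra.IsAlgebraic P S] [Field M] [IsAlgClosed M]
    (j : P →+* M) (hj : Function.Injective j) :
    ∃ σ : S →+* M, ∀ x, σ (algebraMap P S x) = j x := by
  letI := j.toAlgebra
  haveI : FaithfulSMul P M := (faithfulSMul_iff_algebraMap_injective P M).2 hj
  exact ⟨(IsAlgClosed.lift (R := P) (S := S) (M := M)).toRingHom,
    fun x => (IsAlgClosed.lift (R := P) (S := S) (M := M)).commutes x⟩

theorem exists_shift {t : ℂ} (ht : Transcendental ℚ t) (N : ℚ) :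
    ∃ σ : ℂ →+* ℂ, σ t = t + N := by
  classical
  have h0 : AlgebraicIndepOn ℚ id ({t} : Set ℂ) := algebraicIndependent_unique_type_iff.2 ht
  obtain ⟨B, hB, hb⟩ := exists_isTranscendenceBasis_superset h0
  have htB : t ∈ B := hB rfl
  let τ : ℚ → MvPolynomial B ℚ →ₐ[ℚ] MvPolynomial B ℚ := fun c =>
    MvPolynomial.aeval fun b => MvPolynomial.X b + if b = ⟨t, htB⟩ then MvPolynomial.C c else 0
  have hτ : (τ (-N)).comp (τ N) = AlgHom.id ℚ _ := by
    ext1 b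
    by_cases h : b = ⟨t, htB⟩ <;> simp [τ, h]
  have hinj : Function.Injective (τ N) :=
    Function.LeftInverse.injective (g := τ (-N)) fun x => AlgHom.congr_fun hτ x
  haveI := hb.isAlgebraic
  obtain ⟨σ, hσ⟩ := exists_ext (S := ℂ)
    (((MvPolynomial.aeval ((↑) : B → ℂ)).comp ((τ N).comp hb.1.aevalEquiv.symm.toAlgHom)).toRingHom)
    ((algebraicIndependent_iff_injective_aeval.1 hb.1).comp (hinj.comp hb.1.aevalEquiv.symm.injective))
  refine ⟨σ, ?_⟩
  have h1 := hσ (hb.1.aevalEquiv (MvPolynomial.X ⟨t, htB⟩))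
  rw [AlgebraicIndependent.algebraMap_aevalEquiv, MvPolynomial.aeval_X] at h1
  rw [h1]
  simp [τ]

theorem isAlgebraic_of_bdd {t : ℂ} {C : ℝ} (h : ∀ σ : ℂ →+* ℂ, ‖σ t‖ ≤ C) : IsAlgebraic ℚ t := by
  by_contra ht
  obtain ⟨N, hN⟩ := exists_nat_gt (C + ‖t‖)
  obtain ⟨σ, hσ⟩ := exists_shift ht N
  have h1 := h σ
  have h2 := norm_sub_le (t + ((N : ℚ) : ℂ)) t
  rw [hσ] at h1
  rw [add_sub_cancel_left, Rat.cast_natCast, Complex.norm_natCast, ← Rat.cast_natCast] at h2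
  rw [Rat.cast_natCast] at h2 h1
  linarith

theorem int_of_padic {c : ℚ} (h : ∀ (p : ℕ) [Fact p.Prime], ‖(c : ℚ_[p])‖ ≤ 1) :
    ∃ n : ℤ, (n : ℚ) = c := by
  by_cases h1 : c.den = 1
  · exact ⟨c.num, (Rat.den_eq_one_iff c).1 h1⟩
  · obtain ⟨p, hp, hd⟩ := Nat.exists_prime_and_dvd h1
    haveI : Fact p.Prime := ⟨hp⟩
    have h2 := (Padic.norm_rat_le_one_iff_padicValuation_le_one p).1 (h p)
    rw [Rat.padicValuation_le_one_iff] at h2
    exact absurd hd h2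

theorem isIntegral_of_padic {L : Type*} [Field L] [NumberField L] {x : L}
    (h : ∀ (p : ℕ) [Fact p.Prime] (φ : L →+* PadicAlgCl p), ‖φ x‖ ≤ 1) : IsIntegral ℤ x := by
  have hx : IsIntegral ℚ x := Algebra.IsIntegral.isIntegral x
  have hm := minpoly.monic hx
  have hl : minpoly ℚ x ∈ lifts (algebraMap ℤ ℚ) := by
    rw [lifts_iff_coeff_lifts]
    intro n
    refine int_of_padic fun p _ => ?_
    have h1 := Splits.mem_lift_of_roots_mem_range
      (IsAlgClosed.splits ((minpoly ℚ x).map (algebraMap ℚ (PadicAlgCl p)))) (hm.map _)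
      (ball (PadicAlgCl p)).subtype (fun a ha => by
        have h2 : a ∈ (minpoly ℚ x).rootSet (PadicAlgCl p) := by
          classical
          rw [rootSet_def]
          exact Multiset.mem_toFinset.2 ha
        rw [← NumberField.Embeddings.range_eval_eq_rootSet_minpoly L] at h2
        obtain ⟨φ, rfl⟩ := h2
        exact ⟨⟨φ x, h p φ⟩, rfl⟩)
    obtain ⟨z, hz⟩ := (lifts_iff_coeff_lifts _).1 h1 n
    have h3 : ‖(z : PadicAlgCl p)‖ ≤ 1 := z.2
    rw [coeff_map, eq_ratCast] at hz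
    rw [← PadicAlgCl.norm_extends, map_ratCast, ← hz]
    exact h3
  obtain ⟨q, hq, -, hqm⟩ := lifts_and_natDegree_eq_and_monic hl hm
  refine ⟨q, hqm, ?_⟩
  rw [← aeval_def, ← aeval_map_algebraMap ℚ, hq]
  exact minpoly.aeval ℚ x

theorem finite_of_places {R : Type*} [CommRing R] [IsDomain R] [Algebra ℚ R]
    [Algebra.FiniteType ℚ R] (T : Set R) (C : ℝ) (h0 : ∀ t ∈ T, IsIntegral ℚ t)
    (h1 : ∀ t ∈ T, ∀ s : R →+* ℂ, ‖s t‖ ≤ C)
    (h2 : ∀ t ∈ T, ∀ (p : ℕ) [Fact p.Prime] (s : R →+* PadicAlgCl p), ‖s t‖ ≤ 1) : T.Finite := by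
  obtain ⟨m, hm⟩ := Ideal.exists_maximal R
  letI := Ideal.Quotient.field m
  have hfin : Module.Finite ℚ (R ⧸ m) := finite_of_finite_type_of_isJacobsonRing ℚ (R ⧸ m)
  have : NumberField (R ⧸ m) := NumberField.of_module_finite ℚ (R ⧸ m)
  refine Set.Finite.of_finite_image (f := Ideal.Quotient.mk m)
    ((NumberField.Embeddings.finite_of_norm_le (R ⧸ m) ℂ C).subset ?_) ?_
  · rintro _ ⟨t, ht, rfl⟩
    exact ⟨isIntegral_of_padic fun p _ φ => h2 t ht p (φ.comp (Ideal.Quotient.mk m)),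
      fun φ => h1 t ht (φ.comp (Ideal.Quotient.mk m))⟩
  · intro t ht t' ht' e
    by_contra hne
    exact hm.ne_top (Ideal.eq_top_of_isUnit_mem m (Ideal.Quotient.eq.1 e)
      (((h0 t ht).sub (h0 t' ht')).isUnit (sub_ne_zero.2 hne)))

end GTraceX

open GTraceX in
/-- Step 4 of the notes. -/
theorem Win.finite_trace {Γ : Type*} [Group Γ] {Φ : MulAut Γ} (hW : Win Φ) {S : Set Γ}
    (hS : S.Finite) (hgen : Subgroup.closure S = ⊤) {d : ℕ} (ρ : Γ →* Matrix (Fin d) (Fin d) ℂ)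
    {A : Matrix (Fin d) (Fin d) ℂ} (hA : IsUnit A) (h : ∀ γ, A * ρ γ = ρ (Φ γ) * A) :
    (Set.range fun γ => (ρ γ).trace).Finite := by
  obtain ⟨u, rfl⟩ := hA
  let F : Set (Matrix (Fin d) (Fin d) ℂ) := ρ '' S ∪ (fun γ => ρ γ⁻¹) '' S ∪ {↑u, ↑u⁻¹}
  have hF : F.Finite := ((hS.image _).union (hS.image _)).union (Set.toFinite _)
  let G : Set ℂ := ⋃ M ∈ F, Set.range fun q : Fin d × Fin d => M q.1 q.2
  have hG : G.Finite := hF.biUnion fun M _ => Set.finite_range _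
  let R : Subalgebra ℚ ℂ := Algebra.adjoin ℚ G
  haveI : Algebra.FiniteType ℚ R :=
    (Subalgebra.fg_iff_finiteType R).1 (Subalgebra.fg_def.2 ⟨G, hG, rfl⟩)
  have hFR : ∀ M ∈ F, ∀ i j, M i j ∈ R := fun M hM i j =>
    Algebra.subset_adjoin (Set.mem_biUnion hM ⟨(i, j), rfl⟩)
  have hone : ∀ i j, (1 : Matrix (Fin d) (Fin d) ℂ) i j ∈ R := by
    intro i j
    rw [Matrix.one_apply]
    split_ifs
    · exact one_mem R
    · exact zero_mem R
  have hmul : ∀ M M' : Matrix (Fin d) (Fin d) ℂ, (∀ i j, M i j ∈ R) → (∀ i j, M' i j ∈ R) →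
      ∀ i j, (M * M') i j ∈ R := by
    intro M M' hM hM' i j
    rw [Matrix.mul_apply]
    exact sum_mem fun l _ => mul_mem (hM i l) (hM' l j)
  have hρ : ∀ γ, (∀ i j, ρ γ i j ∈ R) ∧ ∀ i j, ρ γ⁻¹ i j ∈ R := by
    intro γ
    have hγ : γ ∈ Subgroup.closure S := hgen ▸ Subgroup.mem_top γ
    induction hγ using Subgroup.closure_induction with
    | mem x hx => exact ⟨hFR _ (Or.inl (Or.inl ⟨x, hx, rfl⟩)), hFR _ (Or.inl (Or.inr ⟨x, hx, rfl⟩))⟩
    | one => rw [inv_one, map_one]; exact ⟨hone, hone⟩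
    | mul x y _ _ hx hy =>
      rw [mul_inv_rev, map_mul, map_mul]
      exact ⟨hmul _ _ hx.1 hy.1, hmul _ _ hy.2 hx.2⟩
    | inv x _ hx => rw [inv_inv]; exact ⟨hx.2, hx.1⟩
  let ι : Matrix (Fin d) (Fin d) R →+* Matrix (Fin d) (Fin d) ℂ := R.val.toRingHom.mapMatrix
  have hι : Function.Injective ι := Matrix.map_injective Subtype.val_injective
  have hl : ∀ M : Matrix (Fin d) (Fin d) ℂ, (∀ i j, M i j ∈ R) → ∃ M', ι M' = M :=
    fun M hM => ⟨Matrix.of fun i j => ⟨M i j, hM i j⟩, rfl⟩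
  choose r hr using fun γ => hl _ (hρ γ).1
  obtain ⟨a, ha⟩ := hl _ (hFR ↑u (Or.inr (Or.inl rfl)))
  obtain ⟨b, hb⟩ := hl _ (hFR ↑u⁻¹ (Or.inr (Or.inr rfl)))
  let ρ' : Γ →* Matrix (Fin d) (Fin d) R :=
    { toFun := r
      map_one' := hι (by rw [hr, map_one, map_one])
      map_mul' := fun x y => hι (by rw [map_mul ι, hr, hr, hr, map_mul]) }
  have hA' : IsUnit a := ⟨⟨a, b, hι (by rw [map_mul, ha, hb, map_one, u.mul_inv]),
    hι (by rw [map_mul, ha, hb, map_one, u.inv_mul])⟩, rfl⟩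
  have h' : ∀ γ, a * ρ' γ = ρ' (Φ γ) * a := fun γ => hι (by
    show ι (a * r γ) = ι (r (Φ γ) * a)
    rw [map_mul, map_mul, ha, hr, hr, h])
  have hC : ∀ γ (s : R →+* ℂ), ‖s (ρ' γ).trace‖ ≤ d := by
    intro γ s
    obtain ⟨M, e, hc, hM⟩ := root_map hW ρ' hA' h' s γ
    rw [e]
    exact (norm_sum_le M hM).trans (by exact_mod_cast hc)
  have hfin := finite_of_places (Set.range fun γ => (ρ' γ).trace) d ?_ ?_ ?_
  · refine (hfin.image R.val).subset ?_
    rintro _ ⟨γ, rfl⟩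
    refine ⟨_, ⟨γ, rfl⟩, ?_⟩
    show R.val.toRingHom (r γ).trace = (ρ γ).trace
    rw [AddMonoidHom.map_trace, ← hr]
    rfl
  · rintro _ ⟨γ, rfl⟩
    have h1 : IsAlgebraic ℚ (R.val (ρ' γ).trace) :=
      isAlgebraic_of_bdd fun σ => hC γ (σ.comp R.val.toRingHom)
    exact (isIntegral_algHom_iff R.val Subtype.val_injective).1 h1.isIntegral
  · rintro _ ⟨γ, rfl⟩ s
    exact hC γ s
  · rintro _ ⟨γ, rfl⟩ p _ s
    obtain ⟨M, e, -, hM⟩ := root_map hW ρ' hA' h' s γ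
    show ‖s (ρ' γ).trace‖ ≤ 1
    rw [e]
    exact (ball (PadicAlgCl p)).multiset_sum_mem M hM

end Pool.Agent.P.MP_5c499f_an
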