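import Mathlib

/-! A matrix group with finitely many traces is virtually unipotent. TASK ANOS-A3. -/

set_option autoImplicit false

namespace Pool.Agent.P.MP_5c499f_an

namespace GUnipX

open Polynomial

/-- an element of a matrix algebra that is orthogonal to the algebra for the trace form is
nilpotent -/
theorem nil_of_trace {d : ℕ} (R : Subalgebra ℂ (Matrix (Fin d) (Fin d) ℂ))
    {x : Matrix (Fin d) (Fin d) ℂ} (hx : x ∈ R) (h : ∀ y ∈ R, (x * y).trace = 0) :
    IsNilpotent x := by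
  have hp : x.charpoly ≠ 0 := x.charpoly_monic.ne_zero
  obtain ⟨q, hq, hnd⟩ := exists_eq_pow_rootMultiplicity_mul_and_not_dvd x.charpoly hp 0
  generalize rootMultiplicity 0 x.charpoly = k at hq
  rw [map_zero, sub_zero] at hq hnd
  have hc : q.coeff 0 ≠ 0 := fun hc => hnd (X_dvd_iff.2 hc)
  have h0 : x ^ k * (x * aeval x q.divX + q.coeff 0 • (1 : Matrix (Fin d) (Fin d) ℂ)) = 0 := by
    have h1 := x.aeval_self_charpoly
    rw [hq, ← X_mul_divX_add q, map_mul, map_add, map_mul, map_pow, aeval_X, aeval_C,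
      Algebra.algebraMap_eq_smul_one] at h1
    exact h1
  set y : Matrix (Fin d) (Fin d) ℂ := (-(q.coeff 0)⁻¹) • aeval x q.divX with hy
  have hyR : y ∈ R := by
    refine R.smul_mem ?_ _
    have : Algebra.adjoin ℂ {x} ≤ R := Algebra.adjoin_le (Set.singleton_subset_iff.2 hx)
    exact this (aeval_mem_adjoin_singleton ℂ x)
  have hcomm : Commute x y := by
    refine Commute.smul_right ?_ _
    have := (Commute.all X q.divX).map (aeval x)
    rwa [aeval_X] at this
  have h1 : x ^ k * (x * y) = x ^ k := by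
    rw [mul_add, mul_smul_comm, mul_one] at h0
    have h2 : x ^ k * (x * aeval x q.divX) = -(q.coeff 0 • x ^ k) := eq_neg_of_add_eq_zero_left h0
    rw [hy, mul_smul_comm, mul_smul_comm, h2, smul_neg, neg_smul, neg_neg, smul_smul,
      inv_mul_cancel₀ hc, one_smul]
  have h2 : ∀ j : ℕ, x ^ k * (x * y) ^ j = x ^ k := by
    intro j
    induction j with
    | zero => rw [pow_zero, mul_one]
    | succ j ih => rw [pow_succ, ← mul_assoc, ih, h1]
  have h3 : x ^ (k + 1) * (x * y) ^ (k + 1) = x ^ (k + 1) := by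
    rw [pow_succ' x, mul_assoc, h2]
  have he : IsIdempotentElem ((x * y) ^ (k + 1)) := by
    have h4 : (x * y) ^ (k + 1) = y ^ (k + 1) * x ^ (k + 1) := by
      rw [hcomm.eq, hcomm.symm.mul_pow]
    unfold IsIdempotentElem
    calc (x * y) ^ (k + 1) * (x * y) ^ (k + 1)
        = y ^ (k + 1) * (x ^ (k + 1) * (x * y) ^ (k + 1)) := by rw [← mul_assoc, ← h4]
      _ = (x * y) ^ (k + 1) := by rw [h3, ← h4]
  have ht : ((x * y) ^ (k + 1)).trace = 0 := by
    rw [pow_succ', mul_assoc]
    exact h _ (R.mul_mem hyR (R.pow_mem (R.mul_mem hx hyR) k))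
  have he' : IsIdempotentElem (Matrix.toLin' ((x * y) ^ (k + 1))) :=
    he.map (Matrix.toLinAlgEquiv' (R := ℂ) (n := Fin d))
  have hz : Matrix.toLin' ((x * y) ^ (k + 1)) = 0 :=
    LinearMap.IsIdempotentElem.eq_zero_of_trace_eq_zero he' (by rw [Matrix.trace_toLin'_eq, ht])
  have hz' : (x * y) ^ (k + 1) = 0 := Matrix.toLin'.map_eq_zero_iff.1 hz
  exact ⟨k + 1, by rw [← h3, hz', mul_zero]⟩

/-- a group that embeds in `1 + I` for a nilpotent two-sided ideal `I` is nilpotent -/
theorem nilpotent_of_ideal {G R : Type*} [Group G] [Ring R] (I : Ideal R) [I.IsTwoSided]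
    (hI : IsNilpotent I) (r : G →* R) (hr : Function.Injective r) (h : ∀ g, r g - 1 ∈ I) :
    Group.IsNilpotent G := by
  obtain ⟨m, hm⟩ := hI
  let H : ℕ → Subgroup G := fun n =>
    { carrier := {g | r g - 1 ∈ I ^ (n + 1)}
      one_mem' := by
        show r 1 - 1 ∈ I ^ (n + 1)
        rw [map_one, sub_self]
        exact zero_mem _
      mul_mem' := by
        intro a b ha hb
        show r (a * b) - 1 ∈ I ^ (n + 1)
        have e : r (a * b) - 1 = r a * (r b - 1) + (r a - 1) := by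
          rw [map_mul]; noncomm_ring
        rw [e]
        exact add_mem (Ideal.mul_mem_left _ _ hb) ha
      inv_mem' := by
        intro a ha
        show r a⁻¹ - 1 ∈ I ^ (n + 1)
        have e : r a⁻¹ - 1 = -(r a⁻¹ * (r a - 1)) := by
          rw [mul_sub, ← map_mul, inv_mul_cancel, map_one, mul_one, neg_sub]
        rw [e]
        exact neg_mem (Ideal.mul_mem_left _ _ ha) }
  refine (Subgroup.nilpotent_iff_finite_descending_central_series G).2 ⟨m, H, ⟨?_, ?_⟩, ?_⟩
  · refine eq_top_iff.2 fun g _ => ?_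
    show r g - 1 ∈ I ^ (0 + 1)
    rw [zero_add, Submodule.pow_one]
    exact h g
  · intro x n hx g
    have hx' : r x - 1 ∈ I ^ (n + 1) := hx
    show r (x * g * x⁻¹ * g⁻¹) - 1 ∈ I ^ (n + 1 + 1)
    have e1 : r g * r x * r (x⁻¹ * g⁻¹) = 1 := by
      rw [← map_mul, ← map_mul, ← map_one r]
      congr 1
      group
    have e : r (x * g * x⁻¹ * g⁻¹) - 1 =
        ((r x - 1) * (r g - 1) - (r g - 1) * (r x - 1)) * r (x⁻¹ * g⁻¹) := by
      have e2 : r (x * g * x⁻¹ * g⁻¹) = r x * r g * r (x⁻¹ * g⁻¹) := by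
        rw [← map_mul, ← map_mul, mul_assoc]
      rw [e2]
      calc r x * r g * r (x⁻¹ * g⁻¹) - 1
          = r x * r g * r (x⁻¹ * g⁻¹) - r g * r x * r (x⁻¹ * g⁻¹) := by rw [e1]
        _ = _ := by noncomm_ring
    rw [e]
    refine Ideal.mul_mem_right _ _ (sub_mem ?_ ?_)
    · rw [Submodule.pow_succ]
      exact Ideal.mul_mem_mul hx' (h g)
    · rw [Ideal.IsTwoSided.pow_succ]
      exact Ideal.mul_mem_mul (h g) hx'
  · refine eq_bot_iff.2 fun g hg => ?_
    have hg' : r g - 1 ∈ I ^ (m + 1) := hg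
    have h0 : r g - 1 ∈ I ^ m := Ideal.pow_le_pow_right (Nat.le_succ m) hg'
    rw [hm] at h0
    have h1 : r g = r 1 := by
      rw [map_one]
      exact sub_eq_zero.1 h0
    exact hr h1

end GUnipX

/-- Step 5 of the notes. -/
theorem exists_unipotent {Γ : Type*} [Group Γ] {d : ℕ} (ρ : Γ →* Matrix (Fin d) (Fin d) ℂ)
    (h : (Set.range fun γ => (ρ γ).trace).Finite) :
    ∃ N : Subgroup Γ, N.FiniteIndex ∧ (∀ g ∈ N, IsNilpotent (ρ g - 1)) ∧
      (Function.Injective ρ → Group.IsNilpotent N) := by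
  classical
  let N : Subgroup Γ :=
    { carrier := {g | ∀ x, (ρ (g * x)).trace = (ρ x).trace}
      one_mem' := fun x => by rw [one_mul]
      mul_mem' := fun {a b} ha hb x => by rw [mul_assoc, ha, hb]
      inv_mem' := fun {a} ha x => by rw [← ha (a⁻¹ * x), mul_inv_cancel_left] }
  let R : Subalgebra ℂ (Matrix (Fin d) (Fin d) ℂ) := Algebra.adjoin ℂ (Set.range ρ)
  have hR : ∀ y, y ∈ R ↔ y ∈ Submodule.span ℂ (Set.range ρ) := by
    intro y
    have h1 : Submonoid.closure (Set.range ρ) = MonoidHom.mrange ρ :=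
      (MonoidHom.mrange ρ).closure_eq
    have h2 := Algebra.adjoin_eq_span ℂ (Set.range ρ)
    rw [h1] at h2
    exact SetLike.ext_iff.1 h2 y
  have hρ : ∀ g, ρ g ∈ R := fun g => Algebra.subset_adjoin ⟨g, rfl⟩
  have hlin : ∀ (s : Set (Matrix (Fin d) (Fin d) ℂ)) (a : Matrix (Fin d) (Fin d) ℂ),
      (∀ y ∈ s, (a * y).trace = 0) → ∀ y ∈ Submodule.span ℂ s, (a * y).trace = 0 := by
    intro s a hs y hy
    induction hy using Submodule.span_induction with
    | mem y hy => exact hs y hy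
    | zero => rw [mul_zero, Matrix.trace_zero]
    | add y z _ _ hy hz => rw [mul_add, Matrix.trace_add, hy, hz, add_zero]
    | smul c y _ hy => rw [mul_smul_comm, Matrix.trace_smul, hy, smul_zero]
  have hN : ∀ g ∈ N, ∀ y ∈ R, ((ρ g - 1) * y).trace = 0 := by
    intro g hg y hy
    refine hlin _ _ ?_ y ((hR y).1 hy)
    rintro _ ⟨x, rfl⟩
    rw [sub_mul, one_mul, Matrix.trace_sub, ← map_mul, hg x, sub_self]
  refine ⟨N, ?_, fun g hg => GUnipX.nil_of_trace R (R.sub_mem (hρ g) R.one_mem) (hN g hg), ?_⟩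
  · obtain ⟨t, ht, -, hsp, -⟩ :=
      Submodule.exists_finset_span_eq_linearIndepOn ℂ (Set.range ρ)
    have : Finite (Set.range fun γ => (ρ γ).trace) := h
    have hm : ∀ (g : Γ) (y : t), (ρ g * y).trace ∈ Set.range fun γ => (ρ γ).trace := by
      intro g y
      obtain ⟨x, hx⟩ := ht y.2
      exact ⟨g * x, by rw [← hx, ← map_mul]⟩
    let φ : Γ ⧸ N → t → Set.range fun γ => (ρ γ).trace := fun q y => ⟨_, hm q.out⁻¹ y⟩
    have hφ : Function.Injective φ := by
      intro q q' hq
      have h1 : ∀ y ∈ (t : Set (Matrix (Fin d) (Fin d) ℂ)),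
          ((ρ q.out⁻¹ - ρ q'.out⁻¹) * y).trace = 0 := by
        intro y hy
        have h2 : (ρ q.out⁻¹ * y).trace = (ρ q'.out⁻¹ * y).trace :=
          congrArg Subtype.val (congrFun hq ⟨y, hy⟩)
        rw [sub_mul, Matrix.trace_sub, h2, sub_self]
      have h3 : q.out⁻¹ * q'.out ∈ N := by
        intro x
        have h4 := hlin _ _ h1 (ρ (q'.out * x)) (by
          rw [hsp]; exact Submodule.subset_span ⟨_, rfl⟩)
        rw [sub_mul, Matrix.trace_sub, ← map_mul, ← map_mul, inv_mul_cancel_left,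
          sub_eq_zero] at h4
        rw [mul_assoc, h4]
      rw [← q.out_eq, ← q'.out_eq]
      exact QuotientGroup.eq.2 h3
    have : Finite (Γ ⧸ N) := Finite.of_injective φ hφ
    exact Subgroup.finiteIndex_of_finite_quotient
  · intro hinj
    have : IsArtinianRing R := IsArtinianRing.of_finite ℂ R
    let r : N →* R := (ρ.codRestrict R hρ).comp N.subtype
    refine GUnipX.nilpotent_of_ideal (Ring.jacobson R) IsSemiprimaryRing.isNilpotent r ?_ ?_
    · intro a b hab
      exact Subtype.ext (hinj (congrArg Subtype.val hab))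
    · intro g
      rw [← Ideal.jacobson_bot, Ideal.mem_jacobson_iff]
      intro y
      have hn : IsNilpotent (y * (r g - 1)) := by
        have h1 : IsNilpotent ((y : Matrix (Fin d) (Fin d) ℂ) * (ρ g - 1)) := by
          refine GUnipX.nil_of_trace R (R.mul_mem y.2 (R.sub_mem (hρ g) R.one_mem)) ?_
          intro z hz
          rw [mul_assoc, Matrix.trace_mul_comm, mul_assoc]
          exact hN g g.2 _ (R.mul_mem hz y.2)
        obtain ⟨n, hn⟩ := h1
        exact ⟨n, Subtype.ext hn⟩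
      obtain ⟨u, hu⟩ := hn.isUnit_add_one
      refine ⟨(u⁻¹ : Rˣ), ?_⟩
      rw [Ideal.mem_bot, mul_assoc, sub_eq_zero, ← mul_add_one, ← hu, Units.inv_mul]

end Pool.Agent.P.MP_5c499f_an
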