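import Pool.Agent.P.MP_5c499f_an.HDefs
import Pool.Agent.P.MP_5c499f_an.GTrace
import Pool.Agent.P.MP_5c499f_an.GUnip

/-! Additive characters of the invariant subgroup. TASK ANOS2-S4. -/

set_option autoImplicit false

namespace Pool.Agent.P.MP_5c499f_an

namespace HFinX

open Polynomial

theorem integral_shift {M : Type*} [AddCommGroup M] [Module ℂ M] (t : M ≃ₗ[ℂ] M)
    {E : Set M} (hE : E.Finite) (h1 : Submodule.span ℂ (⋃ k : ℤ, (t ^ k) '' E) = ⊤)
    (h2 : ∀ x, ∃ y, t y - y = x) : IsAlgebraic ℂ (t : Module.End ℂ M) := by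
  obtain ⟨T, hT⟩ : ∃ T : Module.End ℂ M, T = (t : Module.End ℂ M) := ⟨_, rfl⟩
  rw [← hT]
  let _ : Module ℂ[X] M := Module.compHom M (aeval T : ℂ[X] →ₐ[ℂ] _).toRingHom
  have hs : ∀ (p : ℂ[X]) (m : M), p • m = aeval T p m := fun _ _ => rfl
  have hpow : ∀ (n : ℕ) (m : M), (X ^ n : ℂ[X]) • m = (t ^ n) m := by
    intro n m
    rw [hs, map_pow, aeval_X, hT, Module.End.pow_apply, LinearEquiv.coe_pow]; rfl
  let M0 : Submodule ℂ[X] M := Submodule.span ℂ[X] E
  have hN : ∀ m : M, ∃ N : ℕ, (X ^ N : ℂ[X]) • m ∈ M0 := by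
    intro m
    have hm : m ∈ Submodule.span ℂ (⋃ k : ℤ, (t ^ k) '' E) := h1 ▸ Submodule.mem_top
    induction hm using Submodule.span_induction with
    | mem x hx =>
      obtain ⟨k, e, he, rfl⟩ := Set.mem_iUnion.1 hx
      refine ⟨k.natAbs, ?_⟩
      have : (X ^ k.natAbs : ℂ[X]) • (t ^ k) e = (X ^ (k.natAbs + k).toNat : ℂ[X]) • e := by
        rw [hpow, hpow, ← LinearEquiv.mul_apply, ← zpow_natCast, ← zpow_natCast, ← zpow_add,
          Int.toNat_of_nonneg (by omega)]
      rw [this]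
      exact M0.smul_mem _ (Submodule.subset_span he)
    | zero => exact ⟨0, by simp⟩
    | add x y _ _ hx hy =>
      obtain ⟨a, ha⟩ := hx
      obtain ⟨b, hb⟩ := hy
      refine ⟨a + b, ?_⟩
      rw [smul_add]
      refine M0.add_mem ?_ ?_
      · rw [add_comm, pow_add, mul_smul]; exact M0.smul_mem _ ha
      · rw [pow_add, mul_smul]; exact M0.smul_mem _ hb
    | smul c x _ hx =>
      obtain ⟨a, ha⟩ := hx
      refine ⟨a, ?_⟩
      have : c • x = (C c : ℂ[X]) • x := by rw [hs]; simp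
      rw [this, smul_comm]
      exact M0.smul_mem _ ha
  have hle : M0 ≤ (Ideal.span {(X - 1 : ℂ[X])}) • M0 := by
    refine Submodule.span_le.2 fun e he => ?_
    obtain ⟨y, hy⟩ := h2 e
    obtain ⟨N, hNy⟩ := hN y
    obtain ⟨q, hq⟩ := sub_one_dvd_pow_sub_one (X : ℂ[X]) N
    have he1 : e = (X - 1 : ℂ[X]) • y := by rw [hs]; simp [hT, hy]
    have : e = (X - 1 : ℂ[X]) • ((X ^ N : ℂ[X]) • y - q • e) := by
      rw [smul_sub, smul_comm, ← he1, ← mul_smul, ← hq, sub_smul, one_smul, sub_sub_cancel]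
    rw [SetLike.mem_coe, this]
    exact Submodule.smul_mem_smul (Ideal.subset_span rfl)
      (M0.sub_mem hNy (M0.smul_mem _ (Submodule.subset_span he)))
  obtain ⟨r, hr1, hr⟩ := Submodule.exists_sub_one_mem_and_smul_eq_zero_of_fg_of_le_smul _ M0
    (Submodule.fg_span hE) hle
  refine ⟨r, ?_, ?_⟩
  · rintro rfl
    obtain ⟨q, hq⟩ := Ideal.mem_span_singleton.1 hr1
    have := congrArg (eval 1) hq
    simp at this
  · ext m
    obtain ⟨N, hm⟩ := hN m
    have := hr _ hm
    rw [smul_comm, hpow] at this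
    exact (t ^ N).injective (this.trans (map_zero _).symm)

/-- The additivity relations. -/
noncomputable def rel (G : Type*) [Group G] : Submodule ℂ (G →₀ ℂ) :=
  Submodule.span ℂ (Set.range fun p : G × G =>
    Finsupp.single (p.1 * p.2) 1 - Finsupp.single p.1 1 - Finsupp.single p.2 1)

/-- The complexified abelianization. -/
abbrev MM (G : Type*) [Group G] := (G →₀ ℂ) ⧸ rel G

variable {G : Type*} [Group G] {V : Type*} [AddCommGroup V] [Module ℂ V]

/-- The class of a group element. -/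
noncomputable def cl (a : G) : MM G := (rel G).mkQ (Finsupp.single a 1)

theorem cl_mul (a b : G) : cl (a * b) = cl a + cl b := by
  rw [← sub_eq_zero, ← sub_sub, cl, cl, cl, ← map_sub, ← map_sub, Submodule.mkQ_apply,
    Submodule.Quotient.mk_eq_zero]
  exact Submodule.subset_span ⟨(a, b), rfl⟩

theorem cl_one : cl (1 : G) = 0 := by simpa using cl_mul (1 : G) 1

theorem cl_inv (a : G) : cl a⁻¹ = -cl a := by
  rw [eq_neg_iff_add_eq_zero, ← cl_mul, inv_mul_cancel, cl_one]

/-- The linear map induced by an additive map. -/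
noncomputable def lift (f : G → V) (hf : ∀ a b, f (a * b) = f a + f b) : MM G →ₗ[ℂ] V :=
  (rel G).liftQ (Finsupp.linearCombination ℂ f) (Submodule.span_le.2 (by
    rintro _ ⟨p, rfl⟩
    simp [hf]))

theorem lift_cl (f : G → V) (hf : ∀ a b, f (a * b) = f a + f b) (a : G) :
    lift f hf (cl a) = f a := by
  simp [lift, cl]

theorem ext_cl {f g : MM G →ₗ[ℂ] V} (h : ∀ a, f (cl a) = g (cl a)) : f = g := by
  ext a
  exact h a

/-- The action of automorphisms. -/
noncomputable def act : MulAut G →* Module.End ℂ (MM G) where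
  toFun φ := lift (fun a => cl (φ a)) fun a b => by rw [map_mul, cl_mul]
  map_one' := ext_cl fun a => by rw [lift_cl]; rfl
  map_mul' φ ψ := ext_cl fun a => by rw [Module.End.mul_apply, lift_cl, lift_cl, lift_cl]; rfl

theorem act_cl (φ : MulAut G) (a : G) : act φ (cl a) = cl (φ a) :=
  lift_cl (fun a => cl (φ a)) (fun a b => by rw [map_mul, cl_mul]) a

end HFinX

theorem finiteDimensional_of_shift {M : Type*} [AddCommGroup M] [Module ℂ M] (t : M ≃ₗ[ℂ] M)
    {E : Set M} (hE : E.Finite) (h1 : Submodule.span ℂ (⋃ k : ℤ, (t ^ k) '' E) = ⊤)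
    (h2 : ∀ x, ∃ y, t y - y = x) : FiniteDimensional ℂ M := by
  have hi := (HFinX.integral_shift t hE h1 h2).isIntegral
  let A := Algebra.adjoin ℂ {(t : Module.End ℂ M)}
  have hA : A.toSubmodule.FG := hi.fg_adjoin_singleton
  have ht : (t : Module.End ℂ M) ∈ A := Algebra.subset_adjoin rfl
  have : FiniteDimensional ℂ A := Module.Finite.iff_fg.2 hA
  have hti : ((t⁻¹ : M ≃ₗ[ℂ] M) : Module.End ℂ M) ∈ A := by
    have hinj : Function.Injective (LinearMap.mulLeft ℂ (⟨_, ht⟩ : A)) := by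
      intro a b hab
      ext m
      exact t.injective (congrArg (fun z : A => (z : Module.End ℂ M) m) hab)
    obtain ⟨a, ha⟩ := LinearMap.injective_iff_surjective.1 hinj 1
    convert a.2
    ext m
    apply t.injective
    have := congrArg (fun z : A => (z : Module.End ℂ M) m) ha
    simpa using this.symm
  let G : Subgroup (M ≃ₗ[ℂ] M) :=
    { carrier := {u | (u : Module.End ℂ M) ∈ A ∧ ((u⁻¹ : M ≃ₗ[ℂ] M) : Module.End ℂ M) ∈ A}
      one_mem' := ⟨A.one_mem, A.one_mem⟩
      mul_mem' := fun {a b} ha hb => ⟨A.mul_mem ha.1 hb.1, by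
        rw [mul_inv_rev]; exact A.mul_mem hb.2 ha.2⟩
      inv_mem' := fun {a} ha => ⟨ha.2, by rw [inv_inv]; exact ha.1⟩ }
  have hk : ∀ k : ℤ, ((t ^ k : M ≃ₗ[ℂ] M) : Module.End ℂ M) ∈ A :=
    fun k => (G.zpow_mem (⟨ht, hti⟩ : t ∈ G) k).1
  have := hE.to_subtype
  have hV : (⨆ e : E, A.toSubmodule.map (LinearMap.applyₗ (e : M))).FG :=
    Submodule.fg_iSup _ fun e => hA.map _
  suffices h : (⨆ e : E, A.toSubmodule.map (LinearMap.applyₗ (e : M))) = ⊤ from
    Module.finite_def.2 (h ▸ hV)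
  rw [← top_le_iff, ← h1, Submodule.span_le]
  intro x hx
  obtain ⟨k, e, he, rfl⟩ := Set.mem_iUnion.1 hx
  exact Submodule.mem_iSup_of_mem ⟨e, he⟩ ⟨_, hk k, rfl⟩

open HFinX in
theorem Win.unip_char {Γ : Type*} [Group Γ] {Φ : MulAut Γ} (hW : Win Φ) {S : Set Γ}
    (hS : S.Finite) (hgen : Subgroup.closure S = ⊤) (Δ : Subgroup Γ) [Δ.Characteristic]
    {E : Set Γ} (hE : E.Finite) (h1 : E ⊆ Δ)
    (h2 : Δ ≤ Subgroup.closure (⋃ k : ℤ, (Φ ^ k) '' E))
    (h3 : ∀ l, AddOn Δ l → (∀ a ∈ Δ, l (Φ a) = l a) → ∀ a ∈ Δ, l a = 0) :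
    ∃ N : Subgroup Γ, N.FiniteIndex ∧
      ∀ g ∈ N, ∃ k : ℕ, ∀ l, AddOn Δ l → ∀ a ∈ Δ, ((cj g - 1) ^ k) l a = 0 := by
  classical
  let r : MulAut Γ →* Module.End ℂ (MM Δ) := act.comp (MulAut.characteristic Δ)
  have hr : ∀ φ a, r φ (cl a) = cl (MulAut.characteristic Δ φ a) := fun φ a => act_cl _ _
  let r' : MulAut Γ →* (MM Δ ≃ₗ[ℂ] MM Δ) :=
    (LinearMap.GeneralLinearGroup.generalLinearEquiv ℂ (MM Δ)).toMonoidHom.comp r.toHomUnits
  have hr' : ∀ φ a, r' φ (cl a) = cl (MulAut.characteristic Δ φ a) := hr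
  have : FiniteDimensional ℂ (MM Δ) := by
    refine finiteDimensional_of_shift (r' Φ) (E := cl '' (Subtype.val ⁻¹' E))
      ((hE.preimage Subtype.val_injective.injOn).image _) ?_ ?_
    · set W := Submodule.span ℂ (⋃ k : ℤ, (r' Φ ^ k) '' (cl '' ((Subtype.val : Δ → Γ) ⁻¹' E)))
      let K : Subgroup Δ :=
        { carrier := {a | cl a ∈ W}
          one_mem' := by simp [cl_one]
          mul_mem' := fun {a b} ha hb => by
            rw [Set.mem_ofPred_eq, cl_mul]; exact W.add_mem ha hb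
          inv_mem' := fun {a} ha => by rw [Set.mem_ofPred_eq, cl_inv]; exact W.neg_mem ha }
      have hK : Δ ≤ K.map Δ.subtype := by
        refine h2.trans ((Subgroup.closure_le _).2 fun x hx => ?_)
        obtain ⟨k, e, he, rfl⟩ := Set.mem_iUnion.1 hx
        refine ⟨MulAut.characteristic Δ (Φ ^ k) ⟨e, h1 he⟩, ?_, rfl⟩
        refine Submodule.subset_span (Set.mem_iUnion.2 ⟨k, _, ⟨⟨e, h1 he⟩, he, rfl⟩, ?_⟩)
        rw [← map_zpow, hr']
      have : W.mkQ = 0 := ext_cl fun a => by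
        obtain ⟨b, hb, hab⟩ := hK a.2
        obtain rfl : b = a := Subtype.ext hab
        exact (Submodule.Quotient.mk_eq_zero W).2 hb
      rw [← W.ker_mkQ, this, LinearMap.ker_zero]
    · have : LinearMap.range (r Φ - 1) = ⊤ := by
        by_contra hne
        obtain ⟨f, hf0, hf⟩ := Submodule.exists_le_ker_of_lt_top _ (lt_top_iff_ne_top.2 hne)
        refine hf0 (ext_cl fun a => ?_)
        have := h3 (fun x => if h : x ∈ Δ then f (cl ⟨x, h⟩) else 0) ?_ ?_ a a.2
        · simpa using this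
        · intro a ha b hb
          simp only [dif_pos ha, dif_pos hb, dif_pos (Δ.mul_mem ha hb)]
          rw [← map_add, ← cl_mul]; rfl
        · intro a ha
          have h4 : Φ a ∈ Δ := (MulAut.characteristic Δ Φ ⟨a, ha⟩).2
          simp only [dif_pos ha, dif_pos h4]
          have := hf (LinearMap.mem_range_self _ (cl ⟨a, ha⟩))
          rw [LinearMap.mem_ker, LinearMap.sub_apply, map_sub, hr, sub_eq_zero] at this
          exact this
      exact fun x => LinearMap.range_eq_top.1 this x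
  let e := LinearMap.toMatrixAlgEquiv (Module.finBasis ℂ (MM Δ))
  let ψ := e.toMulEquiv.toMonoidHom.comp r
  obtain ⟨N, hN, hn, -⟩ := exists_unipotent (ψ.comp MulAut.conj)
    (hW.finite_trace hS hgen _ ((Group.isUnit Φ).map ψ) fun γ => by
      simp only [MonoidHom.comp_apply]
      rw [← map_mul, ← map_mul]
      congr 1
      ext x
      simp)
  refine ⟨N, hN, fun g hg => ?_⟩
  obtain ⟨k, hk⟩ := hn g hg
  have hk' : (r (MulAut.conj g) - 1) ^ k = 0 := by
    apply e.injective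
    rw [map_pow, map_sub, map_one, map_zero]
    exact hk
  have key : ∀ (k : ℕ) (L : MM Δ →ₗ[ℂ] ℂ) (l : Γ → ℂ), (∀ a : Δ, l a = L (cl a)) →
      ∀ a : Δ, ((cj g - 1) ^ k) l a = L (((r (MulAut.conj g) - 1) ^ k) (cl a)) := by
    intro k
    induction k with
    | zero => exact fun L l h => h
    | succ k ih =>
      intro L l h a
      rw [pow_succ, pow_succ', Module.End.mul_apply, Module.End.mul_apply,
        ih (L ∘ₗ (r (MulAut.conj g) - 1))]
      · rfl
      · intro b
        rw [LinearMap.comp_apply, LinearMap.sub_apply, LinearMap.sub_apply, map_sub, hr, ← h,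
          Module.End.one_apply, Module.End.one_apply, ← h]
        rfl
  refine ⟨k, fun l hl a ha => ?_⟩
  rw [key k (lift (fun a : Δ => l a) fun a b => hl a a.2 b b.2) l
    (fun a => by rw [lift_cl]) ⟨a, ha⟩, hk']
  simp

end Pool.Agent.P.MP_5c499f_an
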