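import Pool.Agent.P.MP_5c499f_an.HCore

/-! Irreducible representations. TASK ANOS2-T6. -/

set_option autoImplicit false

namespace Pool.Agent.P.MP_5c499f_an

theorem exists_periodic_prime {B : Type*} [CommRing B] [IsNoetherianRing B] (σ : B ≃+* B)
    (n : Ideal B) [n.IsPrime] : ∃ q : Ideal B, q.IsPrime ∧ q ≤ n ∧
      ∃ j : ℕ, 0 < j ∧ ∀ b ∈ q, (σ ^ j) b ∈ q := by
  obtain ⟨q, hq, hqn⟩ := Ideal.exists_minimalPrimes_le (I := (⊥ : Ideal B)) (J := n) bot_le
  refine ⟨q, hq.1.1, hqn, ?_⟩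
  have hfin : (⊥ : Ideal B).minimalPrimes.Finite := Ideal.finite_minimalPrimes_of_isNoetherianRing B ⊥
  have hmem : ∀ k : ℕ, q.comap ((σ ^ k : B ≃+* B) : B →+* B) ∈ (⊥ : Ideal B).minimalPrimes := by
    intro k
    have h1 := Ideal.comap_minimalPrimes_eq_of_surjective
      (f := ((σ ^ k : B ≃+* B) : B →+* B)) (σ ^ k).surjective (⊥ : Ideal B)
    have h2 : (⊥ : Ideal B).comap ((σ ^ k : B ≃+* B) : B →+* B) = ⊥ :=
      Ideal.comap_bot_of_injective _ (σ ^ k).injective
    rw [h2] at h1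
    rw [h1]
    exact ⟨q, hq, rfl⟩
  obtain ⟨i, j, hij, he⟩ := hfin.exists_lt_map_eq_of_forall_mem
    (f := fun k : ℕ => q.comap ((σ ^ k : B ≃+* B) : B →+* B)) hmem
  refine ⟨j - i, by omega, fun b hb => ?_⟩
  have h3 : (σ ^ i).symm b ∈ q.comap ((σ ^ i : B ≃+* B) : B →+* B) := by
    rw [Ideal.mem_comap]
    simpa using hb
  rw [he, Ideal.mem_comap] at h3
  have h4 : (σ ^ j) = (σ ^ (j - i)) * (σ ^ i) := by
    rw [← pow_add]; congr 1; omega
  rw [h4] at h3
  simpa [RingAut.mul_apply] using h3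

namespace HIrrX

variable {Γ : Type*} [Group Γ] (Φ : MulAut Γ) {d : ℕ} (ρ : Γ →* Matrix (Fin d) (Fin d) ℂ)

/-- the matrix coefficients along the orbit -/
def sq (x : Γ) : Matrix (Fin d) (Fin d) (ℤ → ℂ) := Matrix.of fun a b k => ρ ((Φ ^ k) x) a b

theorem sq_apply (x : Γ) (a b : Fin d) (k : ℤ) : sq Φ ρ x a b k = ρ ((Φ ^ k) x) a b := rfl

theorem sq_one : sq Φ ρ 1 = 1 := by
  ext a b k
  rw [sq_apply, map_one, map_one]
  by_cases h : a = b
  · subst h; simp
  · simp [Matrix.one_apply_ne h]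

theorem sq_mul (x y : Γ) : sq Φ ρ (x * y) = sq Φ ρ x * sq Φ ρ y := by
  ext a b k
  rw [sq_apply, map_mul, map_mul, Matrix.mul_apply, Matrix.mul_apply, Finset.sum_apply]
  rfl

/-- translation of sequences -/
def sh (c : ℤ) : (ℤ → ℂ) →+* (ℤ → ℂ) where
  toFun f := fun k => f (k + c)
  map_one' := rfl
  map_mul' _ _ := rfl
  map_zero' := rfl
  map_add' _ _ := rfl

theorem sh_sq (c : ℤ) (x : Γ) (a b : Fin d) :
    sh c (sq Φ ρ x a b) = sq Φ ρ ((Φ ^ c) x) a b := by
  funext k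
  change ρ ((Φ ^ (k + c)) x) a b = ρ ((Φ ^ k) ((Φ ^ c) x)) a b
  rw [zpow_add, MulAut.mul_apply]

/-- generators -/
def gens (S : Set Γ) : Set (ℤ → ℂ) :=
  {f | ∃ s, (s ∈ S ∨ s⁻¹ ∈ S) ∧ ∃ a b, f = sq Φ ρ s a b}

theorem gens_finite {S : Set Γ} (hS : S.Finite) : (gens Φ ρ S).Finite := by
  have h1 : ({s | s ∈ S ∨ s⁻¹ ∈ S} : Set Γ).Finite := hS.union hS.inv
  have h2 := (h1.prod (Set.finite_univ (α := Fin d × Fin d))).image
    (fun p : Γ × Fin d × Fin d => sq Φ ρ p.1 p.2.1 p.2.2)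
  refine h2.subset ?_
  rintro f ⟨s, hs, a, b, rfl⟩
  exact ⟨(s, a, b), ⟨hs, trivial⟩, rfl⟩

theorem sq_mem {S : Set Γ} (hgen : Subgroup.closure S = ⊤) (x : Γ) (a b : Fin d) :
    sq Φ ρ x a b ∈ Subring.closure (gens Φ ρ S) := by
  have hx : x ∈ Subgroup.closure S := hgen ▸ Subgroup.mem_top x
  induction hx using Subgroup.closure_induction'' generalizing a b with
  | mem s hs => exact Subring.subset_closure ⟨s, Or.inl hs, a, b, rfl⟩
  | inv_mem s hs => exact Subring.subset_closure ⟨s⁻¹, Or.inr (by simpa using hs), a, b, rfl⟩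
  | one =>
    rw [sq_one]
    by_cases h : a = b
    · subst h; rw [Matrix.one_apply_eq]; exact one_mem _
    · rw [Matrix.one_apply_ne h]; exact zero_mem _
  | mul x y _ _ hx hy =>
    rw [sq_mul, Matrix.mul_apply]
    exact sum_mem fun c _ => mul_mem (hx a c) (hy c b)

theorem sh_mem {S : Set Γ} (hgen : Subgroup.closure S = ⊤) (c : ℤ) {f : ℤ → ℂ}
    (hf : f ∈ Subring.closure (gens Φ ρ S)) : sh c f ∈ Subring.closure (gens Φ ρ S) := by
  have : Subring.closure (gens Φ ρ S) ≤ (Subring.closure (gens Φ ρ S)).comap (sh c) := by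
    rw [Subring.closure_le]
    rintro g ⟨s, -, a, b, rfl⟩
    change sh c (sq Φ ρ s a b) ∈ Subring.closure (gens Φ ρ S)
    rw [sh_sq]
    exact sq_mem Φ ρ hgen _ a b
  exact this hf

theorem finiteType_closure {R : Type*} [CommRing R] {G : Set R} (hG : G.Finite) :
    Algebra.FiniteType ℤ (Subring.closure G) := by
  classical
  have hpre : ((Subring.closure G).subtype ⁻¹' G).Finite :=
    hG.preimage (Subtype.val_injective.injOn)
  refine ⟨⟨hpre.toFinset, ?_⟩⟩
  rw [eq_top_iff]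
  rintro ⟨x, hx⟩ -
  rw [hpre.coe_toFinset]
  induction hx using Subring.closure_induction with
  | mem x hx => exact Algebra.subset_adjoin hx
  | zero => exact zero_mem _
  | one => exact one_mem _
  | add x y _ _ hx hy => exact add_mem hx hy
  | neg x _ hx => exact neg_mem hx
  | mul x y _ _ hx hy => exact mul_mem hx hy

theorem finiteType_of_surj {R D : Type*} [CommRing R] [CommRing D] (h : Algebra.FiniteType ℤ R)
    (π : R →+* D) (hπ : Function.Surjective π) : Algebra.FiniteType ℤ D :=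
  Algebra.FiniteType.of_surjective π.toIntAlgHom hπ

end HIrrX

open HIrrX in
theorem exists_orbit_ring {Γ : Type*} [Group Γ] (Φ : MulAut Γ) {S : Set Γ} (hS : S.Finite)
    (hgen : Subgroup.closure S = ⊤) {d : ℕ} (ρ : Γ →* Matrix (Fin d) (Fin d) ℂ) :
    ∃ (B : Subring (ℤ → ℂ)) (σ : B ≃+* B) (r : Γ →* Matrix (Fin d) (Fin d) B) (ev : B →+* ℂ),
      Algebra.FiniteType ℤ B ∧ (∀ x, r (Φ x) = (r x).map σ) ∧ ∀ x, (r x).map ev = ρ x := by
  let B : Subring (ℤ → ℂ) := Subring.closure (gens Φ ρ S)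
  let σ : B ≃+* B :=
    { toFun := fun f => ⟨sh 1 f.1, sh_mem Φ ρ hgen 1 f.2⟩
      invFun := fun f => ⟨sh (-1) f.1, sh_mem Φ ρ hgen (-1) f.2⟩
      left_inv := fun f => by
        apply Subtype.ext; funext k
        change f.1 (k + -1 + 1) = f.1 k
        simp
      right_inv := fun f => by
        apply Subtype.ext; funext k
        change f.1 (k + 1 + -1) = f.1 k
        simp
      map_mul' := fun _ _ => rfl
      map_add' := fun _ _ => rfl }
  let r0 : Γ → Matrix (Fin d) (Fin d) B := fun x =>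
    Matrix.of fun a b => ⟨sq Φ ρ x a b, sq_mem Φ ρ hgen x a b⟩
  have hr0 : ∀ x, (r0 x).map B.subtype = sq Φ ρ x := fun x => rfl
  have hinj : Function.Injective (fun M : Matrix (Fin d) (Fin d) B => M.map B.subtype) :=
    Matrix.map_injective Subtype.val_injective
  let r : Γ →* Matrix (Fin d) (Fin d) B :=
    { toFun := r0
      map_one' := by
        apply hinj
        change (r0 1).map B.subtype = (1 : Matrix (Fin d) (Fin d) B).map B.subtype
        rw [hr0, sq_one, Matrix.map_one _ (map_zero _) (map_one _)]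
      map_mul' := fun x y => by
        apply hinj
        change (r0 (x * y)).map B.subtype = (r0 x * r0 y).map B.subtype
        rw [Matrix.map_mul, hr0, hr0, hr0, sq_mul] }
  refine ⟨B, σ, r, (Pi.evalRingHom (fun _ : ℤ => ℂ) 0).comp B.subtype,
    finiteType_closure (gens_finite Φ ρ hS), fun x => ?_, fun x => ?_⟩
  · ext a b k
    have := congrFun (sh_sq Φ ρ 1 x a b) k
    rw [zpow_one] at this
    exact this.symm
  · ext a b
    change ρ ((Φ ^ (0 : ℤ)) x) a b = ρ x a b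
    rw [zpow_zero, MulAut.one_apply]

open HIrrX in
theorem Win.irr {Γ : Type*} [Group Γ] {Φ : MulAut Γ} (hW : Win Φ) {S : Set Γ} (hS : S.Finite)
    (hgen : Subgroup.closure S = ⊤) {d : ℕ} (ρ : Γ →* Matrix (Fin d) (Fin d) ℂ)
    (hρ : Submodule.span ℂ (Set.range ρ) = ⊤) {c : Γ}
    (hc : ∀ r : Γ →* Matrix (Fin (d * d)) (Fin (d * d)) ℂ, (Set.range r).Finite → r c = 1) :
    ρ c = 1 := by
  rcases Nat.eq_zero_or_pos d with rfl | hd
  · exact Subsingleton.elim _ _
  obtain ⟨B, σ, r, ev, hft, hσ, hev⟩ := exists_orbit_ring Φ hS hgen ρ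
  have : IsNoetherianRing B := Algebra.FiniteType.isNoetherianRing ℤ B
  have : (RingHom.ker ev).IsPrime := RingHom.ker_isPrime ev
  obtain ⟨q, hq, hqn, j, hj, hper⟩ := exists_periodic_prime σ (RingHom.ker ev)
  let π : B →+* B ⧸ q := Ideal.Quotient.mk q
  let ev' : B ⧸ q →+* ℂ := Ideal.Quotient.lift q ev fun b hb => hqn hb
  have hev' : ∀ b, ev' (π b) = ev b := fun b => rfl
  let σ' : B ⧸ q →+* B ⧸ q := Ideal.Quotient.lift q (π.comp ((σ ^ j : B ≃+* B) : B →+* B))
    fun b hb => Ideal.Quotient.eq_zero_iff_mem.2 (hper b hb)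
  have hσ' : ∀ b, σ' (π b) = π ((σ ^ j) b) := fun b => rfl
  have : CharZero (B ⧸ q) := RingHom.charZero ev'
  have := finiteType_of_surj hft π Ideal.Quotient.mk_surjective
  let r' : Γ →* Matrix (Fin d) (Fin d) (B ⧸ q) := π.mapMatrix.toMonoidHom.comp r
  have hr' : ∀ x, (r' x).trace = π (r x).trace := fun x => by
    change ((r x).map π).trace = _
    rw [AddMonoidHom.map_trace]
  have hτev : ∀ x, ev' (r' x).trace = (ρ x).trace := fun x => by
    rw [hr', hev', ← hev x, AddMonoidHom.map_trace]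
  have hpow : ∀ (k : ℕ) (x : Γ), (r ((Φ ^ k) x)).trace = (σ ^ k) (r x).trace := by
    intro k
    induction k with
    | zero => intro x; simp
    | succ k ih =>
      intro x
      rw [pow_succ', pow_succ', MulAut.mul_apply, hσ, RingAut.mul_apply, ← ih,
        AddMonoidHom.map_trace]
  have hτ : ∀ x, (r' ((Φ ^ j) x)).trace = σ' (r' x).trace := fun x => by
    rw [hr', hr', hσ', hpow]
  obtain ⟨g, hg⟩ := exists_gram ρ hρ
  have h0 : (gram (fun x => (r' x).trace) g 1).det ≠ 0 := by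
    intro h
    apply hg
    have h1 := det_gram_map ev' (fun x => (r' x).trace) g
    rw [h, map_zero] at h1
    simpa only [hτev] using h1
  have hchi := chi_of_rep r' h0
  apply eq_one_of_trace ρ hρ
  intro x
  have := (hW.pow hj).core_trace hS hgen σ' (fun x => (r' x).trace) hτ hchi h0 hd.ne' hc x
  rw [← hτev, ← hτev, this]

end Pool.Agent.P.MP_5c499f_an
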