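import Pool.Agent.P.MP_5c499f_an.HDefs
import Pool.Agent.Lib.Gromov.Unitary

/-! Jordan's theorem on finite linear groups. TASK ANOS2-T1. -/

set_option autoImplicit false

namespace Pool.Agent.P.MP_5c499f_an

universe u

theorem core_char (Γ : Type*) [Group Γ] (J : ℕ) : (kerAll Γ J).Characteristic :=
  Subgroup.characteristic_iff_le_comap.2 fun ϕ _ hg =>
    Subgroup.mem_iInf.2 fun θ => Subgroup.mem_iInf.1 hg (θ.comp ϕ.toMonoidHom)

theorem core_finiteIndex {Γ : Type*} [Group Γ] {S : Set Γ} (hS : S.Finite)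
    (hgen : Subgroup.closure S = ⊤) (J : ℕ) : (kerAll Γ J).FiniteIndex := by
  have := hS.to_subtype
  have : Finite (Γ →* Equiv.Perm (Fin J)) :=
    .of_injective (fun θ (s : S) => θ s) fun θ θ' e =>
      MonoidHom.eq_of_eqOn_dense hgen fun s hs => congrFun e ⟨s, hs⟩
  exact Subgroup.finiteIndex_iInf fun _ => inferInstance

namespace HJordanX

open Pool.Agent.Lib.Gromov

lemma le_of_card {G : Type*} [Group G] (H : Subgroup G) {J : ℕ} (ι : G ⧸ H ↪ Fin J) :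
    kerAll G J ≤ H := by
  intro a ha
  have h1 := Subgroup.mem_iInf.1 ha
    ((Equiv.Perm.viaEmbeddingHom ι).comp (MulAction.toPermHom G (G ⧸ H)))
  rw [MonoidHom.mem_ker, MonoidHom.comp_apply, ← map_one (Equiv.Perm.viaEmbeddingHom ι)] at h1
  have h2 := Equiv.Perm.viaEmbeddingHom_injective ι h1
  have h3 := congrArg (fun e : Equiv.Perm (G ⧸ H) => e ((1 : G) : G ⧸ H)) h2
  simp only [MulAction.toPermHom_apply, MulAction.toPerm_apply, Equiv.Perm.coe_one, id_eq,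
    MulAction.Quotient.smul_mk, smul_eq_mul, mul_one] at h3
  have h4 := QuotientGroup.eq.1 h3
  simpa using h4

lemma eq_one_of_close {A : Type*} [NormedRing A] [NormedAlgebra ℂ A] {c : A}
    (h : ∀ j : ℕ, ‖c ^ j - 1‖ ≤ 1 / 2) : c = 1 := by
  by_contra hc
  have hδ : 0 < ‖c - 1‖ := norm_pos_iff.2 (sub_ne_zero.2 hc)
  have h1 : ∀ i : ℕ, (3 / 2) ^ i * ‖c - 1‖ ≤ ‖c ^ (2 ^ i) - 1‖ := by
    intro i
    induction i with
    | zero => simp
    | succ i ih =>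
      obtain ⟨y, hy⟩ : ∃ y, y = c ^ (2 ^ i) - 1 := ⟨_, rfl⟩
      have e1 : c ^ (2 ^ (i + 1)) - 1 = (2 : ℂ) • y - (-(y * y)) := by
        rw [pow_succ, pow_mul, two_smul, hy]; noncomm_ring
      have e2 := norm_sub_norm_le ((2 : ℂ) • y) (-(y * y))
      rw [norm_neg, norm_smul, Complex.norm_two] at e2
      have e3 := norm_mul_le y y
      have e4 := h (2 ^ i)
      rw [← hy] at ih e4
      rw [e1, pow_succ]
      nlinarith [norm_nonneg y]
  obtain ⟨i, hi⟩ := pow_unbounded_of_one_lt (1 / ‖c - 1‖) (by norm_num : (1 : ℝ) < 3 / 2)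
  rw [div_lt_iff₀ hδ] at hi
  linarith [h1 i, h (2 ^ i)]

variable {E : Type*} [NormedAddCommGroup E] [InnerProductSpace ℂ E] {G : Type*} [Group G]

lemma small_comm {ρ : G →* (E →L[ℂ] E)} (hρ : ∀ g v, ‖ρ g v‖ = ‖v‖)
    (hfin : (Set.range ρ).Finite) {h s : G} (hh : D ρ h ≤ 1 / 4) (hs : D ρ s ≤ 1 / 4) :
    ρ s * ρ h = ρ h * ρ s := by
  by_contra hne
  let Bad : Set G := {h | D ρ h ≤ 1 / 4 ∧ ∃ s, D ρ s ≤ 1 / 4 ∧ ρ s * ρ h ≠ ρ h * ρ s}
  have hB : (ρ '' Bad).Finite := hfin.subset (Set.image_subset_range _ _)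
  obtain ⟨_, ⟨h, ⟨hh, s, hs, hne⟩, rfl⟩, hmin⟩ := Set.exists_min_image (ρ '' Bad)
    (fun x => ‖x - 1‖) hB ⟨ρ h, h, ⟨hh, s, hs, hne⟩, rfl⟩
  have hpos : 0 < D ρ h := by
    refine norm_pos_iff.2 (sub_ne_zero.2 fun e => hne ?_)
    rw [e, mul_one, one_mul]
  obtain ⟨c, hc⟩ : ∃ c, c = s * h * s⁻¹ * h⁻¹ := ⟨_, rfl⟩
  have h1 : D ρ c ≤ D ρ h / 2 := by
    have := D_comm hρ s h
    rw [hc]
    nlinarith
  have h2 : ρ s * ρ c = ρ c * ρ s := by
    by_contra h3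
    have h4 : D ρ h ≤ D ρ c := hmin (ρ c) ⟨c, ⟨by linarith, s, hs, h3⟩, rfl⟩
    linarith
  have h3 : ∀ j : ℕ, ρ (s ^ j * h * (s ^ j)⁻¹) = ρ c ^ j * ρ h := by
    intro j
    induction j with
    | zero => simp
    | succ j ih =>
      have e1 : ρ s * ρ c ^ j = ρ c ^ j * ρ s := (Commute.pow_right h2 j).eq
      have e2 : ρ s * ρ h * ρ s⁻¹ = ρ c * ρ h := by
        rw [← map_mul, ← map_mul, ← map_mul, hc]; congr 1; group
      rw [show s ^ (j + 1) * h * (s ^ (j + 1))⁻¹ = s * (s ^ j * h * (s ^ j)⁻¹) * s⁻¹ by group,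
        map_mul, map_mul, ih, ← mul_assoc, e1, mul_assoc (ρ c ^ j), mul_assoc (ρ c ^ j), e2,
        pow_succ, mul_assoc]
  have h4 : ρ c = 1 := by
    refine eq_one_of_close fun j => ?_
    have e1 : ρ c ^ j = ρ (s ^ j * h * (s ^ j)⁻¹ * h⁻¹) := by
      rw [map_mul, h3, mul_assoc, ← map_mul, mul_inv_cancel, map_one, mul_one]
    rw [e1]
    have e2 := D_mul hρ (s ^ j * h * (s ^ j)⁻¹) h⁻¹
    have e3 := D_conj hρ (s ^ j) h
    have e4 := D_inv hρ h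
    unfold D at *
    linarith
  refine hne ?_
  rw [← map_mul, ← map_mul, show s * h = c * (h * s) by rw [hc]; group, map_mul _ c, h4, one_mul]

lemma closure_comm {ρ : G →* (E →L[ℂ] E)} (hρ : ∀ g v, ‖ρ g v‖ = ‖v‖)
    (hfin : (Set.range ρ).Finite) {a b : G} (ha : a ∈ Subgroup.closure {g | D ρ g ≤ 1 / 4})
    (hb : b ∈ Subgroup.closure {g | D ρ g ≤ 1 / 4}) : ρ a * ρ b = ρ b * ρ a := by
  have key : ∀ x y : G, ρ x * ρ y = ρ y * ρ x → ρ x⁻¹ * ρ y = ρ y * ρ x⁻¹ := fun x y e => by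
    have e1 : ρ (x⁻¹ * y) = ρ x⁻¹ * (ρ y * ρ x) * ρ x⁻¹ := by
      rw [← map_mul, ← map_mul, ← map_mul]; congr 1; group
    have e2 : ρ (y * x⁻¹) = ρ x⁻¹ * (ρ x * ρ y) * ρ x⁻¹ := by
      rw [← map_mul, ← map_mul, ← map_mul]; congr 1; group
    rw [← map_mul, ← map_mul, e1, e2, e]
  have gen : ∀ y : G, (∀ x, D ρ x ≤ 1 / 4 → ρ x * ρ y = ρ y * ρ x) →
      ∀ x ∈ Subgroup.closure {g | D ρ g ≤ 1 / 4}, ρ x * ρ y = ρ y * ρ x := fun y hy x hx => by
    induction hx using Subgroup.closure_induction with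
    | mem x hx => exact hy x hx
    | one => simp
    | mul x z _ _ hx hz => rw [map_mul, mul_assoc, hz, ← mul_assoc, hx, mul_assoc]
    | inv x _ hx => exact key x y hx
  exact gen b (fun x hx => (gen x (fun z hz => small_comm hρ hfin hx hz) b hb).symm) a ha

lemma exists_net (E : Type) [NormedAddCommGroup E] [InnerProductSpace ℂ E]
    [FiniteDimensional ℂ E] : ∃ N : ℕ, ∀ J, N ≤ J → ∀ (G : Type u) [Group G]
      (ρ : G →* (E →L[ℂ] E)), (∀ g v, ‖ρ g v‖ = ‖v‖) →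
      kerAll G J ≤ Subgroup.closure {g | D ρ g ≤ 1 / 4} := by
  have : ProperSpace (E →L[ℂ] E) := FiniteDimensional.proper_rclike ℂ _
  obtain ⟨t, -, ht1, ht2⟩ := finite_cover_balls_of_compact
    (isCompact_closedBall (0 : E →L[ℂ] E) 1) (show (0 : ℝ) < 1 / 8 by norm_num)
  have := ht1.fintype
  refine ⟨Fintype.card t, fun J hJ G _ ρ hρ => ?_⟩
  have h1 : ∀ g : G, ∃ y : t, ‖ρ g - y‖ < 1 / 8 := fun g => by
    obtain ⟨y, hy, hy'⟩ := Set.mem_iUnion₂.1 (ht2 (show ρ g ∈ Metric.closedBall 0 1 by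
      simpa using norm_rep_le hρ g))
    exact ⟨⟨y, hy⟩, by simpa [dist_eq_norm] using hy'⟩
  choose f hf using h1
  let H := Subgroup.closure {g | D ρ g ≤ 1 / 4}
  have hinj : Function.Injective fun q : G ⧸ H => f q.out := by
    intro q q' e
    rw [← q.out_eq, ← q'.out_eq]
    refine QuotientGroup.eq.2 (Subgroup.subset_closure ((D_inv_mul hρ _ _).trans ?_))
    have e1 := hf q.out
    have e2 := hf q'.out
    simp only at e
    rw [← e] at e2
    have e3 := norm_sub_le_norm_sub_add_norm_sub (ρ q'.out) (f q.out : E →L[ℂ] E) (ρ q.out)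
    rw [norm_sub_rev (f q.out : E →L[ℂ] E)] at e3
    linarith
  exact le_of_card H ((⟨_, hinj⟩ : G ⧸ H ↪ t).trans
    ((Fintype.equivFin t).toEmbedding.trans (Fin.castLEEmb hJ)))

lemma exists_unitary [CompleteSpace E] (σ : G →* (E →L[ℂ] E)) (hfin : (Set.range σ).Finite) :
    ∃ (ρ : G →* (E →L[ℂ] E)) (B : (E →L[ℂ] E)ˣ), (∀ g v, ‖ρ g v‖ = ‖v‖) ∧
      ∀ g, ρ g = B * σ g * (B⁻¹ : (E →L[ℂ] E)ˣ) := by
  classical
  let F := hfin.toFinset
  have hF : ∀ x, x ∈ F ↔ ∃ g, σ g = x := fun x => by simp [F]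
  let P : E →L[ℂ] E := ∑ x ∈ F, star x * x
  have hP : IsStrictlyPositive P := by
    refine IsStrictlyPositive.of_le isStrictlyPositive_one ?_
    have := Finset.single_le_sum (f := fun x : E →L[ℂ] E => star x * x) (s := F)
      (fun x _ => star_mul_self_nonneg x) ((hF 1).2 ⟨1, map_one σ⟩)
    simpa using this
  obtain ⟨b, hb, hPb⟩ := CStarAlgebra.isStrictlyPositive_iff_eq_star_mul_self.1 hP
  obtain ⟨B, rfl⟩ := hb
  have hinv : ∀ g, star (σ g) * P * σ g = P := fun g => by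
    simp only [P, Finset.mul_sum, Finset.sum_mul]
    refine Finset.sum_nbij' (fun x => x * σ g) (fun x => x * σ g⁻¹) ?_ ?_ ?_ ?_ ?_
    · intro x hx
      obtain ⟨k, rfl⟩ := (hF x).1 hx
      exact (hF _).2 ⟨k * g, map_mul _ _ _⟩
    · intro x hx
      obtain ⟨k, rfl⟩ := (hF x).1 hx
      exact (hF _).2 ⟨k * g⁻¹, map_mul _ _ _⟩
    · intro x _
      simp only [mul_assoc, ← map_mul, mul_inv_cancel, map_one, mul_one]
    · intro x _
      simp only [mul_assoc, ← map_mul, inv_mul_cancel, map_one, mul_one]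
    · intro x _
      simp only [star_mul, mul_assoc]
  let ρ : G →* (E →L[ℂ] E) :=
    { toFun := fun g => B * σ g * (B⁻¹ : (E →L[ℂ] E)ˣ)
      map_one' := by simp
      map_mul' := fun g h => by simp [mul_assoc] }
  refine ⟨ρ, B, fun g => ?_, fun g => rfl⟩
  refine (ContinuousLinearMap.norm_map_iff_adjoint_comp_self (ρ g)).2 ?_
  change star (ρ g) * ρ g = 1
  have e1 : star (ρ g) * ρ g = star ((B⁻¹ : (E →L[ℂ] E)ˣ) : E →L[ℂ] E) *
      (star (σ g) * (star (B : E →L[ℂ] E) * B) * σ g) * (B⁻¹ : (E →L[ℂ] E)ˣ) := by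
    change star ((B : E →L[ℂ] E) * σ g * (B⁻¹ : (E →L[ℂ] E)ˣ)) *
      ((B : E →L[ℂ] E) * σ g * (B⁻¹ : (E →L[ℂ] E)ˣ)) = _
    simp only [star_mul, mul_assoc]
  rw [e1, ← hPb, hinv, hPb, ← mul_assoc, ← star_mul, mul_assoc]
  simp

end HJordanX

theorem jordan (m : ℕ) : ∃ J : ℕ, ∀ m' ≤ m, ∀ (G : Type u) [Group G]
    (r : G →* Matrix (Fin m') (Fin m') ℂ), (Set.range r).Finite →
    ∀ a ∈ kerAll G J, ∀ b ∈ kerAll G J, r a * r b = r b * r a := by
  choose N hN using fun k : ℕ => HJordanX.exists_net.{u} (EuclideanSpace ℂ (Fin k))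
  refine ⟨(Finset.range (m + 1)).sup N, fun k hk G _ r hr a ha b hb => ?_⟩
  let e := Matrix.toEuclideanCLM (n := Fin k) (𝕜 := ℂ)
  let σ : G →* (EuclideanSpace ℂ (Fin k) →L[ℂ] EuclideanSpace ℂ (Fin k)) :=
    { toFun := fun g => e (r g)
      map_one' := by simp
      map_mul' := fun g h => by simp }
  have hσ : (Set.range σ).Finite := (hr.image e).subset (by
    rintro _ ⟨g, rfl⟩; exact ⟨r g, ⟨g, rfl⟩, rfl⟩)
  obtain ⟨ρ, B, h1, h2⟩ := HJordanX.exists_unitary σ hσ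
  have hρ : (Set.range ρ).Finite := by
    refine (hσ.image fun x => B.val * x * (B⁻¹).val).subset ?_
    rintro _ ⟨g, rfl⟩
    exact ⟨σ g, ⟨g, rfl⟩, (h2 g).symm⟩
  have hle := hN k _ (Finset.le_sup (f := N) (Finset.mem_range.2 (Nat.lt_succ_of_le hk))) G ρ h1
  have h3 := HJordanX.closure_comm h1 hρ (hle ha) (hle hb)
  rw [← map_mul, ← map_mul, h2, h2] at h3
  have h4 : σ (a * b) = σ (b * a) := (Units.mul_right_inj B).1 ((Units.mul_left_inj B⁻¹).1 h3)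
  rw [← map_mul, ← map_mul]
  exact e.injective h4

end Pool.Agent.P.MP_5c499f_an
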