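import Pool.Agent.P.MP_5c499f_an.HDefs
import Pool.Agent.P.MP_5c499f_an.GUnip

/-! From a unipotent action on additive characters to nilpotency. TASK ANOS2-S5. -/

set_option autoImplicit false

namespace Pool.Agent.P.MP_5c499f_an

theorem nilpotent_of_trace {G : Type*} [Group G] {d : ℕ} (r : G →* Matrix (Fin d) (Fin d) ℂ)
    (hr : Function.Injective r) (h : ∀ g, (r g).trace = d) : Group.IsNilpotent G := by
  let R : Subalgebra ℂ (Matrix (Fin d) (Fin d) ℂ) := Algebra.adjoin ℂ (Set.range r)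
  have hR : ∀ y, y ∈ R ↔ y ∈ Submodule.span ℂ (Set.range r) := by
    intro y
    have h1 : Submonoid.closure (Set.range r) = MonoidHom.mrange r :=
      (MonoidHom.mrange r).closure_eq
    have h2 := Algebra.adjoin_eq_span ℂ (Set.range r)
    rw [h1] at h2
    exact SetLike.ext_iff.1 h2 y
  have hρ : ∀ g, r g ∈ R := fun g => Algebra.subset_adjoin ⟨g, rfl⟩
  have hN : ∀ g, ∀ y ∈ R, ((r g - 1) * y).trace = 0 := by
    intro g y hy
    rw [hR] at hy
    induction hy using Submodule.span_induction with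
    | mem y hy =>
      obtain ⟨x, rfl⟩ := hy
      rw [sub_mul, one_mul, Matrix.trace_sub, ← map_mul, h, h, sub_self]
    | zero => rw [mul_zero, Matrix.trace_zero]
    | add y z _ _ hy hz => rw [mul_add, Matrix.trace_add, hy, hz, add_zero]
    | smul c y _ hy => rw [mul_smul_comm, Matrix.trace_smul, hy, smul_zero]
  have : IsArtinianRing R := IsArtinianRing.of_finite ℂ R
  refine GUnipX.nilpotent_of_ideal (Ring.jacobson R) IsSemiprimaryRing.isNilpotent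
    (r.codRestrict R hρ) ?_ ?_
  · intro a b hab
    exact hr (congrArg Subtype.val hab)
  · intro g
    rw [← Ideal.jacobson_bot, Ideal.mem_jacobson_iff]
    intro y
    have hn : IsNilpotent (y * (r.codRestrict R hρ g - 1)) := by
      have h1 : IsNilpotent ((y : Matrix (Fin d) (Fin d) ℂ) * (r g - 1)) := by
        refine GUnipX.nil_of_trace R (R.mul_mem y.2 (R.sub_mem (hρ g) R.one_mem)) ?_
        intro z hz
        rw [mul_assoc, Matrix.trace_mul_comm, mul_assoc]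
        exact hN g _ (R.mul_mem hz y.2)
      obtain ⟨n, hn⟩ := h1
      exact ⟨n, Subtype.ext hn⟩
    obtain ⟨u, hu⟩ := hn.isUnit_add_one
    refine ⟨(u⁻¹ : Rˣ), ?_⟩
    rw [Ideal.mem_bot, mul_assoc, sub_eq_zero, ← mul_add_one, ← hu, Units.inv_mul]

namespace HNilX

/-- a unipotent representation kills a term of the lower central series -/
theorem lcs_kill {G V : Type*} [Group G] [AddCommGroup V] [Module ℂ V] [FiniteDimensional ℂ V]
    (r : G →* Module.End ℂ V) (h : ∀ g, IsNilpotent (r g - 1)) :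
    ∃ n, ∀ g ∈ (⊤ : Subgroup G).lowerCentralSeries n, r g = 1 := by
  let b := Module.finBasis ℂ V
  let e := LinearMap.toMatrixAlgEquiv b
  let r1 : G →* Matrix (Fin (Module.finrank ℂ V)) (Fin (Module.finrank ℂ V)) ℂ :=
    e.toAlgHom.toRingHom.toMonoidHom.comp r
  have h1 : ∀ g, (r1 g).trace = Module.finrank ℂ V := by
    intro g
    have h2 := (LinearMap.isNilpotent_trace_of_isNilpotent (h g)).eq_zero
    rw [map_sub, LinearMap.trace_one, sub_eq_zero, LinearMap.trace_eq_matrix_trace ℂ b] at h2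
    exact h2
  let u := r1.toHomUnits
  have hn : Group.IsNilpotent u.range :=
    nilpotent_of_trace ((Units.coeHom _).comp u.range.subtype)
      (Units.val_injective.comp Subtype.val_injective) (by
        rintro ⟨_, g, rfl⟩
        exact h1 g)
  obtain ⟨n, hn⟩ := (Subgroup.isNilpotent_iff_lowerCentralSeries _).1 hn
  refine ⟨n, fun g hg => e.injective ?_⟩
  have h2 : u g ∈ u.range.lowerCentralSeries n := by
    rw [MonoidHom.range_eq_map, ← Subgroup.map_lowerCentralSeries]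
    exact Subgroup.mem_map_of_mem _ hg
  rw [hn, Subgroup.mem_bot] at h2
  rw [map_one]
  exact congrArg Units.val h2

section gen

variable {R : Type*} [Ring R] [Algebra ℂ R]

theorem pow_mem {T : Module.End ℂ R} {W : Submodule ℂ R} (hW : ∀ Z ∈ W, T Z ∈ W) (n : ℕ)
    {Z : R} (hZ : Z ∈ W) : (T ^ n) Z ∈ W := by
  induction n with
  | zero => exact hZ
  | succ n ih => rw [pow_succ', Module.End.mul_apply]; exact hW _ ih

/-- the vectors that are eventually mapped into `W` -/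
def gen (T : Module.End ℂ R) (W : Submodule ℂ R) (hW : ∀ Z ∈ W, T Z ∈ W) : Submodule ℂ R where
  carrier := {Z | ∃ m : ℕ, (T ^ m) Z ∈ W}
  zero_mem' := ⟨0, W.zero_mem⟩
  add_mem' := by
    rintro a b ⟨i, hi⟩ ⟨j, hj⟩
    refine ⟨i + j, ?_⟩
    rw [map_add]
    refine W.add_mem ?_ ?_
    · rw [add_comm, pow_add, Module.End.mul_apply]
      exact pow_mem hW j hi
    · rw [pow_add, Module.End.mul_apply]
      exact pow_mem hW i hj
  smul_mem' := by
    rintro c a ⟨i, hi⟩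
    exact ⟨i, by rw [map_smul]; exact W.smul_mem c hi⟩

theorem sub_one_mem {t : Module.End ℂ R} {W : Submodule ℂ R} (hW : ∀ Z ∈ W, t Z ∈ W) :
    ∀ Z ∈ W, (t - 1) Z ∈ W := fun Z hZ => W.sub_mem (hW Z hZ) hZ

theorem step {t s : Module.End ℂ R} (hts : ∀ X Y, t (X * Y) = t X * s Y)
    {U U' V V' W : Submodule ℂ R} (hU : ∀ X ∈ U, t X ∈ U) (hV : ∀ Y ∈ V, s Y ∈ V)
    (hW : ∀ Z ∈ W, t Z ∈ W) (h1 : ∀ X ∈ U', ∀ Y ∈ V, X * Y ∈ W)
    (h2 : ∀ X ∈ U, ∀ Y ∈ V', X * Y ∈ W) (hu : ∀ X ∈ U, ∃ i : ℕ, ((t - 1) ^ i) X ∈ U')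
    (hv : ∀ Y ∈ V, ∃ j : ℕ, ((s - 1) ^ j) Y ∈ V') :
    ∀ Z ∈ U * V, ∃ m : ℕ, ((t - 1) ^ m) Z ∈ W := by
  let A := gen (t - 1) W (sub_one_mem hW)
  have key : ∀ i : ℕ, ∀ X ∈ U, ((t - 1) ^ i) X ∈ U' → ∀ Y ∈ V, X * Y ∈ A := by
    intro i
    induction i with
    | zero => exact fun X _ hX Y hY => ⟨0, h1 X hX Y hY⟩
    | succ i ih =>
      intro X hX hX'
      have inner : ∀ j : ℕ, ∀ Y ∈ V, ((s - 1) ^ j) Y ∈ V' → X * Y ∈ A := by
        intro j
        induction j with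
        | zero => exact fun Y _ hY => ⟨0, h2 X hX Y hY⟩
        | succ j ihj =>
          intro Y hY hY'
          rw [pow_succ, Module.End.mul_apply] at hX' hY'
          obtain ⟨m, hm⟩ := A.add_mem (ih _ (sub_one_mem hU X hX) hX' _ (hV Y hY))
            (ihj _ (sub_one_mem hV Y hY) hY')
          refine ⟨m + 1, ?_⟩
          have e : (t - 1) (X * Y) = (t - 1) X * s Y + X * (s - 1) Y := by
            simp only [LinearMap.sub_apply, Module.End.one_apply, hts]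
            noncomm_ring
          rw [pow_succ, Module.End.mul_apply, e]
          exact hm
      intro Y hY
      obtain ⟨j, hj⟩ := hv Y hY
      exact inner j Y hY hj
  intro Z hZ
  refine Submodule.mul_induction_on (C := fun Z => Z ∈ A) hZ (fun X hX Y hY => ?_)
    fun _ _ => A.add_mem
  obtain ⟨i, hi⟩ := hu X hX
  exact key i X hX hi Y hY

end gen

variable {Γ : Type*} [Group Γ] {d : ℕ}

/-- two sided multiplication -/
noncomputable def bi (ρ : Γ →* Matrix (Fin d) (Fin d) ℂ) (x y : Γ) :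
    Module.End ℂ (Matrix (Fin d) (Fin d) ℂ) := LinearMap.mulLeftRight ℂ (ρ x, ρ y⁻¹)

theorem bi_apply (ρ : Γ →* Matrix (Fin d) (Fin d) ℂ) (x y : Γ) (X : Matrix (Fin d) (Fin d) ℂ) :
    bi ρ x y X = ρ x * X * ρ y⁻¹ := LinearMap.mulLeftRight_apply _ _ _

theorem bi_mul (ρ : Γ →* Matrix (Fin d) (Fin d) ℂ) (x y : Γ) (X Y : Matrix (Fin d) (Fin d) ℂ) :
    bi ρ x y (X * Y) = bi ρ x y X * bi ρ y y Y := by
  have e : ρ y⁻¹ * ρ y = 1 := by rw [← map_mul, inv_mul_cancel, map_one]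
  simp only [bi_apply]
  calc ρ x * (X * Y) * ρ y⁻¹ = ρ x * X * (ρ y⁻¹ * ρ y) * Y * ρ y⁻¹ := by
        rw [e]; noncomm_ring
    _ = _ := by noncomm_ring

theorem bi_rho (ρ : Γ →* Matrix (Fin d) (Fin d) ℂ) (x y c : Γ) :
    bi ρ x y (ρ c) = ρ (x * c * y⁻¹) := by
  rw [bi_apply, map_mul, map_mul]

theorem ad_sub (ρ : Γ →* Matrix (Fin d) (Fin d) ℂ) (y c : Γ) :
    bi ρ y y (ρ c - 1) = ρ (y * c * y⁻¹) - 1 := by
  rw [map_sub, bi_rho, ← map_one ρ, bi_rho, mul_one, mul_inv_cancel]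

theorem ad_mem (ρ : Γ →* Matrix (Fin d) (Fin d) ℂ) (Δ : Subgroup Γ) [hΔ : Δ.Normal] (y : Γ) :
    ∀ Y ∈ aug ρ Δ, bi ρ y y Y ∈ aug ρ Δ := by
  intro Y hY
  refine (Submodule.span_le (p := (aug ρ Δ).comap (bi ρ y y))).2 ?_ hY
  rintro _ ⟨c, hc, rfl⟩
  change bi ρ y y (ρ c - 1) ∈ aug ρ Δ
  rw [ad_sub]
  exact Submodule.subset_span ⟨_, hΔ.conj_mem c hc y, rfl⟩

theorem cj_pow (ρ : Γ →* Matrix (Fin d) (Fin d) ℂ) (y : Γ) (k : ℕ)
    (f : Module.Dual ℂ (Matrix (Fin d) (Fin d) ℂ)) (c : Γ) :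
    ((cj y - 1) ^ k) (fun x => f (ρ x - 1)) c = f (((bi ρ y y - 1) ^ k) (ρ c - 1)) := by
  induction k generalizing f with
  | zero => rfl
  | succ k ih =>
    have e : (cj y - 1) (fun x => f (ρ x - 1)) = fun x => (f ∘ₗ (bi ρ y y - 1)) (ρ x - 1) := by
      funext x
      rw [LinearMap.comp_apply, LinearMap.sub_apply (bi ρ y y), ad_sub, map_sub f _ _]
      rfl
    rw [pow_succ, Module.End.mul_apply, e, ih, pow_succ', Module.End.mul_apply]
    rfl

theorem ad_unip (ρ : Γ →* Matrix (Fin d) (Fin d) ℂ) (Δ : Subgroup Γ) (y : Γ) {k : ℕ}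
    (h : ∀ l, AddOn Δ l → ∀ a ∈ Δ, ((cj y - 1) ^ k) l a = 0) :
    ∀ Y ∈ aug ρ Δ, ((bi ρ y y - 1) ^ k) Y ∈ aug ρ Δ * aug ρ Δ := by
  intro Y hY
  refine (Submodule.span_le (p := (aug ρ Δ * aug ρ Δ).comap ((bi ρ y y - 1) ^ k))).2 ?_ hY
  rintro _ ⟨c, hc, rfl⟩
  change ((bi ρ y y - 1) ^ k) (ρ c - 1) ∈ aug ρ Δ * aug ρ Δ
  rw [← Subspace.forall_mem_dualAnnihilator_apply_eq_zero_iff]
  intro f hf
  rw [Submodule.mem_dualAnnihilator] at hf
  rw [← cj_pow]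
  refine h _ (fun a ha b hb => ?_) c hc
  have e : ρ (a * b) - 1 = (ρ a - 1) * (ρ b - 1) + ((ρ a - 1) + (ρ b - 1)) := by
    rw [map_mul]; noncomm_ring
  have h0 := hf _ (Submodule.mul_mem_mul (Submodule.subset_span ⟨a, ha, rfl⟩)
    (Submodule.subset_span ⟨b, hb, rfl⟩))
  change f (ρ (a * b) - 1) = f (ρ a - 1) + f (ρ b - 1)
  rw [e, map_add, map_add]
  exact add_eq_right.2 h0

/-- the span of the image of `Δ` -/
def AA (ρ : Γ →* Matrix (Fin d) (Fin d) ℂ) (Δ : Subgroup Γ) :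
    Submodule ℂ (Matrix (Fin d) (Fin d) ℂ) := Submodule.span ℂ (ρ '' Δ)

theorem one_mem_AA (ρ : Γ →* Matrix (Fin d) (Fin d) ℂ) (Δ : Subgroup Γ) : 1 ∈ AA ρ Δ :=
  Submodule.subset_span ⟨1, Δ.one_mem, map_one ρ⟩

theorem mem_twist {Δ : Subgroup Γ} [hΔ : Δ.Normal] {x y c : Γ} (hxy : x * y⁻¹ ∈ Δ) (hc : c ∈ Δ) :
    x * c * y⁻¹ ∈ Δ := by
  have e : x * c * y⁻¹ = x * y⁻¹ * (y * c * y⁻¹) := by group
  rw [e]
  exact Δ.mul_mem hxy (hΔ.conj_mem c hc y)

theorem bi_mem (ρ : Γ →* Matrix (Fin d) (Fin d) ℂ) (Δ : Subgroup Γ) [Δ.Normal] {x y : Γ}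
    (hxy : x * y⁻¹ ∈ Δ) : ∀ X ∈ AA ρ Δ, bi ρ x y X ∈ AA ρ Δ := by
  intro X hX
  refine (Submodule.span_le (p := (AA ρ Δ).comap (bi ρ x y))).2 ?_ hX
  rintro _ ⟨c, hc, rfl⟩
  change bi ρ x y (ρ c) ∈ AA ρ Δ
  rw [bi_rho]
  exact Submodule.subset_span ⟨_, mem_twist hxy hc, rfl⟩

theorem bi_nil (ρ : Γ →* Matrix (Fin d) (Fin d) ℂ) (Δ : Subgroup Γ) [Δ.Normal] {x y : Γ}
    (hxy : x * y⁻¹ ∈ Δ) {k j : ℕ} (hk : aug ρ Δ ^ k = ⊥)
    (h : ∀ l, AddOn Δ l → ∀ a ∈ Δ, ((cj y - 1) ^ j) l a = 0) :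
    ∀ X ∈ AA ρ Δ, ∃ m : ℕ, ((bi ρ x y - 1) ^ m) X = 0 := by
  let F : ℕ → Submodule ℂ (Matrix (Fin d) (Fin d) ℂ) := fun n => AA ρ Δ * aug ρ Δ ^ n
  have F0 : F 0 = AA ρ Δ := by simp only [F, pow_zero, mul_one]
  have Fs : ∀ n, F (n + 1) = F n * aug ρ Δ := fun n => by simp only [F, pow_succ, mul_assoc]
  have Fk : F k = ⊥ := by simp only [F, hk, Submodule.mul_bot]
  have inv : ∀ n, ∀ X ∈ F n, bi ρ x y X ∈ F n := by
    intro n
    induction n with
    | zero => rw [F0]; exact bi_mem ρ Δ hxy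
    | succ n ih =>
      rw [Fs]
      intro Z hZ
      refine Submodule.mul_induction_on (C := fun Z => bi ρ x y Z ∈ F n * aug ρ Δ) hZ
        (fun X hX Y hY => ?_) fun a b ha hb => ?_
      · rw [bi_mul]
        exact Submodule.mul_mem_mul (ih X hX) (ad_mem ρ Δ y Y hY)
      · rw [map_add]
        exact Submodule.add_mem _ ha hb
  have down : ∀ n, ∀ X ∈ F n, ∃ m : ℕ, ((bi ρ x y - 1) ^ m) X ∈ F (n + 1) := by
    intro n
    induction n with
    | zero =>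
      intro X hX
      rw [F0] at hX
      refine ⟨1, ?_⟩
      rw [pow_one, Fs, F0, ← one_mul ((bi ρ x y - 1) X)]
      refine Submodule.mul_mem_mul (one_mem_AA ρ Δ) ?_
      refine (Submodule.span_le (p := (aug ρ Δ).comap (bi ρ x y - 1))).2 ?_ hX
      rintro _ ⟨c, hc, rfl⟩
      change bi ρ x y (ρ c) - ρ c ∈ aug ρ Δ
      rw [bi_rho, ← sub_sub_sub_cancel_right _ _ 1]
      exact Submodule.sub_mem _ (Submodule.subset_span ⟨_, mem_twist hxy hc, rfl⟩)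
        (Submodule.subset_span ⟨_, hc, rfl⟩)
    | succ n ih =>
      rw [Fs n]
      refine step (bi_mul ρ x y) (inv n) (ad_mem ρ Δ y) (inv (n + 1 + 1)) (U' := F (n + 1))
        (V' := aug ρ Δ * aug ρ Δ) (fun X hX Y hY => ?_) (fun X hX Y hY => ?_) ih
        fun Y hY => ⟨j, ad_unip ρ Δ y h Y hY⟩
      · rw [Fs]
        exact Submodule.mul_mem_mul hX hY
      · rw [Fs, Fs, mul_assoc]
        exact Submodule.mul_mem_mul hX hY
  have all : ∀ n, ∀ X ∈ F 0, ∃ m : ℕ, ((bi ρ x y - 1) ^ m) X ∈ F n := by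
    intro n X hX
    induction n with
    | zero => exact ⟨0, hX⟩
    | succ n ih =>
      obtain ⟨m, hm⟩ := ih
      obtain ⟨m', hm'⟩ := down n _ hm
      exact ⟨m' + m, by rw [pow_add, Module.End.mul_apply]; exact hm'⟩
  intro X hX
  obtain ⟨m, hm⟩ := all k X (F0 ▸ hX)
  rw [Fk, Submodule.mem_bot] at hm
  exact ⟨m, hm⟩

/-- the pairs that agree modulo `Δ` -/
def KK (Δ N : Subgroup Γ) [hΔ : Δ.Normal] : Subgroup (Γ × Γ) where
  carrier := {p | p.2 ∈ N ∧ p.1 * p.2⁻¹ ∈ Δ}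
  one_mem' := ⟨N.one_mem, by simp⟩
  mul_mem' := by
    rintro a b ⟨h1, h2⟩ ⟨h3, h4⟩
    refine ⟨N.mul_mem h1 h3, ?_⟩
    have := mem_twist h2 h4
    simpa [mul_assoc] using this
  inv_mem' := by
    rintro a ⟨h1, h2⟩
    refine ⟨N.inv_mem h1, ?_⟩
    have h3 := hΔ.conj_mem _ (Δ.inv_mem h2) a.1⁻¹
    simpa [mul_assoc] using h3

/-- the action of `KK` on `AA` -/
noncomputable def rr (ρ : Γ →* Matrix (Fin d) (Fin d) ℂ) (Δ N : Subgroup Γ) [Δ.Normal] :
    KK Δ N →* Module.End ℂ (AA ρ Δ) where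
  toFun p := (bi ρ p.1.1 p.1.2).restrict (bi_mem ρ Δ p.2.2)
  map_one' := by
    ext X : 2
    simp [bi_apply]
  map_mul' p q := by
    ext X : 2
    simp [bi_apply, mul_assoc]

theorem rr_pow (ρ : Γ →* Matrix (Fin d) (Fin d) ℂ) (Δ N : Subgroup Γ) [Δ.Normal] (p : KK Δ N)
    (m : ℕ) (X : AA ρ Δ) :
    (((rr ρ Δ N p - 1) ^ m) X : Matrix (Fin d) (Fin d) ℂ) = ((bi ρ p.1.1 p.1.2 - 1) ^ m) X := by
  induction m with
  | zero => rfl
  | succ m ih =>
    rw [pow_succ', pow_succ', Module.End.mul_apply, Module.End.mul_apply, ← ih]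
    rfl

end HNilX

open HNilX in
theorem nilpotent_of_unip {Γ : Type*} [Group Γ] (Δ N : Subgroup Γ) [Δ.Normal]
    (hc : commutator Γ ≤ Δ) {d : ℕ} (ρ : Γ →* Matrix (Fin d) (Fin d) ℂ)
    (hρ : Function.Injective ρ) {k : ℕ} (hk : aug ρ Δ ^ k = ⊥)
    (h : ∀ g ∈ N, ∃ k : ℕ, ∀ l, AddOn Δ l → ∀ a ∈ Δ, ((cj g - 1) ^ k) l a = 0) :
    Group.IsNilpotent N := by
  obtain ⟨n, hn⟩ := lcs_kill (rr ρ Δ N) fun p => by
    obtain ⟨j, hj⟩ := h _ p.2.1
    refine Module.End.isNilpotent_iff_of_finite.2 fun X => ?_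
    obtain ⟨m, hm⟩ := bi_nil ρ Δ p.2.2 hk hj X X.2
    exact ⟨m, Subtype.ext ((rr_pow ρ Δ N p m X).trans hm)⟩
  have key : ∀ n, N.lowerCentralSeries (n + 1) ≤
      ((KK Δ N).lowerCentralSeries n).comap (MonoidHom.inl Γ Γ) := by
    intro n
    induction n with
    | zero =>
      intro x hx
      have h1 : x ∈ Δ := hc (Subgroup.commutator_mono le_top le_top hx)
      exact ⟨N.one_mem, by simpa using h1⟩
    | succ n ih =>
      rw [Subgroup.lowerCentralSeries_succ, Subgroup.commutator_le]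
      intro x hx g hg
      have h1 : (g, g) ∈ KK Δ N := ⟨hg, by simp⟩
      have h2 := Subgroup.commutator_mem_commutator (Subgroup.mem_comap.1 (ih hx)) h1
      rw [Subgroup.mem_comap, Subgroup.lowerCentralSeries_succ]
      convert h2 using 1
      ext <;> simp [commutatorElement_def]
  refine (Subgroup.isNilpotent_iff_lowerCentralSeries _).2 ⟨n + 1, eq_bot_iff.2 fun x hx => ?_⟩
  have h1 := key n hx
  rw [Subgroup.mem_comap, ← Subgroup.top_subtype_lowerCentralSeries] at h1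
  obtain ⟨p, hp, e⟩ := h1
  have h2 := congrArg Subtype.val (LinearMap.congr_fun (hn p hp) ⟨1, one_mem_AA ρ Δ⟩)
  have h3 : bi ρ p.1.1 p.1.2 1 = 1 := h2
  have e' : p.1 = (x, 1) := e
  rw [e', bi_apply, inv_one, map_one, mul_one, mul_one] at h3
  exact Subgroup.mem_bot.2 (hρ (h3.trans (map_one ρ).symm))

end Pool.Agent.P.MP_5c499f_an
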