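import Pool.Agent.P.MP_5c499f_an.HDefs

/-! Reduction to irreducible representations. TASK ANOS2-T7. -/

set_option autoImplicit false

namespace Pool.Agent.P.MP_5c499f_an

namespace HRedX

variable {Γ R : Type*} [Group Γ] [Ring R] [Algebra ℂ R]

/-- `Δ` acts trivially on every simple module of small dimension. -/
theorem simple_triv (Δ : Subgroup Γ) {d : ℕ}
    (h : ∀ d' ≤ d, ∀ r : Γ →* Matrix (Fin d') (Fin d') ℂ,
      Submodule.span ℂ (Set.range r) = ⊤ → ∀ c ∈ Δ, r c = 1)
    (ι : Γ →* R) (hι : ∀ x, x ∈ Submodule.span ℂ (Set.range ι)) {W : Type*} [AddCommGroup W]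
    [Module ℂ W] [Module R W] [IsScalarTower ℂ R W] [IsSimpleModule R W] [FiniteDimensional ℂ W]
    (hd : Module.finrank ℂ W ≤ d) {c : Γ} (hc : c ∈ Δ) (w : W) : ι c • w = w := by
  classical
  let b := Module.finBasis ℂ W
  let L : R →ₐ[ℂ] Matrix (Fin (Module.finrank ℂ W)) (Fin (Module.finrank ℂ W)) ℂ :=
    (LinearMap.toMatrixAlgEquiv b).toAlgHom.comp (Algebra.lsmul ℂ ℂ W)
  have hL : ∀ x, L x = LinearMap.toMatrixAlgEquiv b (Algebra.lsmul ℂ ℂ W x) := fun _ => rfl
  let r : Γ →* Matrix (Fin (Module.finrank ℂ W)) (Fin (Module.finrank ℂ W)) ℂ :=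
    (L : R →* _).comp ι
  have hr : ∀ g, r g = L (ι g) := fun _ => rfl
  have h1 := h _ hd r (by
    rw [eq_top_iff]
    intro M _
    obtain ⟨x, hx⟩ := GWinX.burnside (R := R) ((LinearMap.toMatrixAlgEquiv b).symm M)
    have hM : M = L x := by rw [hL, hx, AlgEquiv.apply_symm_apply]
    rw [hM]
    have := Submodule.apply_mem_span_image_of_mem_span L.toLinearMap (hι x)
    rwa [← Set.range_comp] at this) c hc
  rw [hr, hL, ← map_one (LinearMap.toMatrixAlgEquiv b)] at h1
  have h2 := (LinearMap.toMatrixAlgEquiv b).injective h1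
  exact congrArg (fun f : Module.End ℂ W => f w) h2

universe u

theorem pow_kills (Δ : Subgroup Γ) {d : ℕ}
    (h : ∀ d' ≤ d, ∀ r : Γ →* Matrix (Fin d') (Fin d') ℂ,
      Submodule.span ℂ (Set.range r) = ⊤ → ∀ c ∈ Δ, r c = 1)
    (ι : Γ →* R) (hι : ∀ x, x ∈ Submodule.span ℂ (Set.range ι)) (n : ℕ) (hn : n ≤ d) :
    ∀ (V : Type u) [AddCommGroup V] [Module ℂ V] [Module R V] [IsScalarTower ℂ R V]
      [FiniteDimensional ℂ V], Module.finrank ℂ V ≤ n →
      ∀ x ∈ Submodule.span ℂ ((fun c => ι c - 1) '' Δ) ^ n, ∀ v : V, x • v = 0 := by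
  induction n with
  | zero =>
    intro V _ _ _ _ _ hV x _ v
    have : Subsingleton V := Module.finrank_zero_iff.1 (Nat.le_zero.1 hV)
    exact Subsingleton.elim _ _
  | succ n ih =>
    intro V _ _ _ _ _ hV x hx v
    rcases subsingleton_or_nontrivial V with hs | hs
    · exact Subsingleton.elim _ _
    have : IsArtinian R V := isArtinian_of_tower ℂ inferInstance
    obtain ⟨P, hPa, -⟩ := (eq_bot_or_exists_atom_le (⊤ : Submodule R V)).resolve_left top_ne_bot
    have : IsSimpleModule R P := isSimpleModule_iff_isAtom.2 hPa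
    have : FiniteDimensional ℂ P :=
      Module.Finite.of_injective (P.subtype.restrictScalars ℂ) Subtype.val_injective
    have hPd : Module.finrank ℂ P ≤ d :=
      (LinearMap.finrank_le_finrank_of_injective (f := P.subtype.restrictScalars ℂ)
        Subtype.val_injective).trans (hV.trans hn)
    let e := Submodule.Quotient.restrictScalarsEquiv ℂ P
    have : FiniteDimensional ℂ (V ⧸ P) := Module.Finite.equiv e
    have hrank : Module.finrank ℂ (V ⧸ P) ≤ n := by
      obtain ⟨y, hy, hy0⟩ := Submodule.exists_mem_ne_zero_of_ne_bot hPa.1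
      have h1 := Submodule.finrank_quotient_add_finrank (P.restrictScalars ℂ)
      have h2 : 0 < Module.finrank ℂ (P.restrictScalars ℂ) :=
        Module.finrank_pos_iff_exists_ne_zero.2
          ⟨⟨y, hy⟩, fun h0 => hy0 (congrArg Subtype.val h0)⟩
      rw [← e.finrank_eq]
      omega
    have hkill : ∀ a ∈ Submodule.span ℂ ((fun c => ι c - 1) '' Δ), ∀ w ∈ P, a • w = 0 := by
      intro a ha w hw
      induction ha using Submodule.span_induction with
      | mem a ha =>
        obtain ⟨c, hc, rfl⟩ := ha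
        have h1 := congrArg Subtype.val (simple_triv Δ h ι hι hPd hc (⟨w, hw⟩ : P))
        rw [sub_smul, one_smul, sub_eq_zero]
        exact h1
      | zero => simp
      | add a b _ _ ha hb => rw [add_smul, ha, hb, add_zero]
      | smul c a _ ha => rw [smul_assoc, ha, smul_zero]
    rw [pow_succ'] at hx
    refine Submodule.mul_induction_on hx (fun a ha b hb => ?_) fun a b ha hb => ?_
    · rw [mul_smul]
      refine hkill a ha _ ?_
      have h1 := ih (by omega) (V ⧸ P) hrank b hb (Submodule.Quotient.mk v)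
      rwa [← Submodule.Quotient.mk_smul, Submodule.Quotient.mk_eq_zero] at h1
    · rw [add_smul, ha, hb, add_zero]

end HRedX

theorem aug_nilpotent {Γ : Type*} [Group Γ] (Δ : Subgroup Γ) [Δ.Normal] {d : ℕ}
    (h : ∀ d' ≤ d, ∀ r : Γ →* Matrix (Fin d') (Fin d') ℂ,
      Submodule.span ℂ (Set.range r) = ⊤ → ∀ c ∈ Δ, r c = 1)
    (ρ : Γ →* Matrix (Fin d) (Fin d) ℂ) : ∃ k : ℕ, aug ρ Δ ^ k = ⊥ := by
  let ρ' : Representation ℂ Γ (Fin d → ℂ) :=
    ((Matrix.toLinAlgEquiv' : Matrix (Fin d) (Fin d) ℂ ≃ₐ[ℂ] _) : _ →* _).comp ρ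
  have hι : ∀ x, x ∈ Submodule.span ℂ (Set.range (MonoidAlgebra.of ℂ Γ)) := by
    intro x
    induction x using MonoidAlgebra.induction_on with
    | of g => exact Submodule.subset_span ⟨g, rfl⟩
    | add x y hx hy => exact Submodule.add_mem _ hx hy
    | smul c x hx => exact Submodule.smul_mem _ c hx
  let φ : MonoidAlgebra ℂ Γ →ₐ[ℂ] Matrix (Fin d) (Fin d) ℂ := MonoidAlgebra.lift ℂ _ Γ ρ
  have hφ : ∀ g, φ (MonoidAlgebra.of ℂ Γ g) = ρ g := fun g => MonoidAlgebra.lift_of ρ g
  have hcomp : ∀ x, ρ'.asAlgebraHom x = Matrix.toLinAlgEquiv' (φ x) := by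
    intro x
    induction x using MonoidAlgebra.induction_on with
    | of g => rw [hφ, Representation.asAlgebraHom_of]; rfl
    | add x y hx hy => rw [map_add, map_add, map_add, hx, hy]
    | smul c x hx => rw [map_smul, map_smul, map_smul, hx]
  have haug : aug ρ Δ = (Submodule.span ℂ
      ((fun c => MonoidAlgebra.of ℂ Γ c - 1) '' Δ)).map φ.toLinearMap := by
    rw [aug, Submodule.map_span, Set.image_image]
    congr 1
    refine Set.image_congr fun c _ => ?_
    rw [AlgHom.toLinearMap_apply, map_sub, map_one, hφ]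
  let e := ρ'.asModuleEquiv
  have hrank : Module.finrank ℂ ρ'.asModule ≤ d := by
    rw [e.finrank_eq]
    simp
  refine ⟨d, ?_⟩
  rw [haug, ← Submodule.map_pow, eq_bot_iff]
  rintro _ ⟨x, hx, rfl⟩
  rw [Submodule.mem_bot, AlgHom.toLinearMap_apply]
  apply (Matrix.toLinAlgEquiv' : Matrix (Fin d) (Fin d) ℂ ≃ₐ[ℂ] _).injective
  rw [map_zero, ← hcomp]
  refine LinearMap.ext fun v => ?_
  have h1 := HRedX.pow_kills Δ h (MonoidAlgebra.of ℂ Γ) hι d le_rfl ρ'.asModule hrank x hx
    (e.symm v)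
  have h2 := ρ'.asModuleEquiv_map_smul x (e.symm v)
  rw [h1, map_zero, e.apply_symm_apply] at h2
  exact h2.symm

end Pool.Agent.P.MP_5c499f_an
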