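import Mathlib

/-! Bounded solutions of hyperbolic linear recursions. -/

set_option autoImplicit false

namespace Pool.Agent.P.MP_5c499f_an

open scoped BoundedContinuousFunction Matrix
open Polynomial

lemma aeval_sub {A : Type*} [Ring A] [Algebra ℂ A] {s t : A} (h : Commute s t) (p : ℂ[X]) :
    ∃ q q', q * (s - t) = aeval s p - aeval t p ∧ (s - t) * q' = aeval s p - aeval t p := by
  induction p using Polynomial.induction_on' with
  | add p p' h1 h2 =>
    obtain ⟨a, b, a1, b1⟩ := h1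
    obtain ⟨c, d, c1, d1⟩ := h2
    exact ⟨a + c, b + d, by rw [add_mul, a1, c1, map_add, map_add]; abel,
      by rw [mul_add, b1, d1, map_add, map_add]; abel⟩
  | monomial n a =>
    refine ⟨a • _, a • _, (smul_mul_assoc _ _ _).trans ((congrArg _ (h.geom_sum₂_mul n)).trans ?_),
      (mul_smul_comm _ _ _).trans ((congrArg _ (h.mul_geom_sum₂ n)).trans ?_)⟩ <;>
    simp [Algebra.smul_def, mul_sub]

lemma unit_sub {A : Type*} [NormedRing A] [NormedAlgebra ℂ A] [CompleteSpace A] {s s' : A}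
    (h1 : s * s' = 1) (h2 : s' * s = 1) (n1 : ‖s‖ ≤ 1) (n2 : ‖s'‖ ≤ 1) {z : ℂ} (hz : ‖z‖ ≠ 1) :
    IsUnit (s - algebraMap ℂ A z) := by
  rcases hz.lt_or_gt with h | h
  · have : s - algebraMap ℂ A z = s * (1 - z • s') := by
      simp [mul_sub, h1, Algebra.algebraMap_eq_smul_one]
    rw [this]
    exact (Units.isUnit ⟨s, s', h1, h2⟩).mul (Units.oneSub _ (by
      rw [norm_smul]; nlinarith [norm_nonneg z, norm_nonneg s'])).isUnit
  · have z0 : z ≠ 0 := norm_pos_iff.1 (by linarith)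
    have : s - algebraMap ℂ A z = algebraMap ℂ A (-z) * (1 - z⁻¹ • s) := by
      simp [← Algebra.smul_def, smul_smul, z0, sub_eq_add_neg, add_comm, mul_add]
    rw [this]
    refine ((neg_ne_zero.2 z0).isUnit.map _).mul (Units.oneSub _ ?_).isUnit
    rw [norm_smul, norm_inv]
    nlinarith [inv_lt_one_of_one_lt₀ h, inv_pos.2 (show 0 < ‖z‖ by linarith)]

variable {m : ℕ}

/-- No left eigenvector with an eigenvalue of modulus one. -/
def NoUnit (M : Matrix (Fin m) (Fin m) ℝ) : Prop :=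
  ∀ (z : ℂ) (l : Fin m → ℂ), ‖z‖ = 1 → l ᵥ* M.map Complex.ofReal = z • l → l = 0

/-- Matrices acting on bounded sequences. -/
noncomputable def matOp : Matrix (Fin m) (Fin m) ℂ →ₐ[ℂ]
    ((ℤ →ᵇ Fin m → ℂ) →L[ℂ] (ℤ →ᵇ Fin m → ℂ)) where
  toFun M := (Matrix.toLin' M).toContinuousLinearMap.compLeftContinuousBounded ℤ
  map_one' := by ext; simp
  map_mul' _ _ := by ext; simp
  map_zero' := by ext; simp
  map_add' _ _ := by ext; simp
  commutes' _ := by ext; simp [Algebra.algebraMap_eq_smul_one]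

/-- The shifts. -/
noncomputable def shift (a : ℤ) : (ℤ →ᵇ Fin m → ℂ) →L[ℂ] (ℤ →ᵇ Fin m → ℂ) :=
  BoundedContinuousFunction.compContinuousCLM _ ℂ ⟨(· + a), by fun_prop⟩

lemma NoUnit.isUnit {M : Matrix (Fin m) (Fin m) ℝ} (h : NoUnit M) :
    IsUnit (shift 1 - matOp (M.map Complex.ofReal)) := by
  set P := M.map Complex.ofReal
  obtain ⟨q, q', h1, h2⟩ := aeval_sub (s := shift 1) (t := matOp P)
    (by ext; simp [shift, matOp]) P.charpoly
  rw [aeval_algHom_apply, Matrix.aeval_self_charpoly, map_zero] at h1 h2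
  replace h1 := h1.trans (sub_zero (aeval (shift 1) P.charpoly))
  replace h2 := h2.trans (sub_zero (aeval (shift 1) P.charpoly))
  have : IsUnit (aeval (shift (m := m) 1) P.charpoly) := by
    rw [(IsAlgClosed.splits P.charpoly).eq_prod_roots_of_monic P.charpoly_monic,
      ← Multiset.coe_toList P.charpoly.roots, Multiset.map_coe, Multiset.prod_coe, map_list_prod]
    refine List.prod_isUnit fun a ha => ?_
    simp only [List.mem_map, Multiset.mem_toList] at ha
    obtain ⟨_, ⟨z, hz, rfl⟩, rfl⟩ := ha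
    rw [map_sub, aeval_X, aeval_C]
    refine unit_sub (s' := shift (-1)) (by ext; simp [shift]) (by ext; simp [shift])
      (BoundedContinuousFunction.norm_compContinuousCLM_le_one _)
      (BoundedContinuousFunction.norm_compContinuousCLM_le_one _) fun e => ?_
    have := isRoot_of_mem_roots hz
    rw [IsRoot, Matrix.eval_charpoly, ← Matrix.exists_vecMul_eq_zero_iff] at this
    obtain ⟨l, l1, l2⟩ := this
    refine l1 (h z l e ?_)
    rw [Matrix.vecMul_sub, sub_eq_zero] at l2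
    rw [← l2]
    ext i
    simp [mul_comm]
  exact isUnit_iff_exists_and_exists.2 ⟨⟨q' * this.unit⁻¹, by rw [← mul_assoc, h2]; simp⟩,
    ⟨this.unit⁻¹ * q, by rw [mul_assoc, h1]; simp⟩⟩

theorem NoUnit.solve {M : Matrix (Fin m) (Fin m) ℝ} (h : NoUnit M) : ∃ C : ℝ,
    (∀ (e : ℤ → Fin m → ℝ) (R : ℝ), (∀ k, ‖e k‖ ≤ R) → ∃ x : ℤ → Fin m → ℝ,
      (∀ k, x (k + 1) = M *ᵥ x k + e k) ∧ ∀ k, ‖x k‖ ≤ C * R) ∧
    ∀ (x : ℤ → Fin m → ℝ) (R R' : ℝ), (∀ k, ‖x k‖ ≤ R') → (∀ k, ‖x (k + 1) - M *ᵥ x k‖ ≤ R) →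
      ∀ k, ‖x k‖ ≤ C * R := by
  obtain ⟨T, hT⟩ := h.isUnit
  have t1 : ∀ y k, T.1 y k = y (k + 1) - M.map Complex.ofReal *ᵥ y k := fun y k => by
    simp [hT, shift, matOp]
  have n1 : ∀ v : Fin m → ℝ, ‖fun i => (v i : ℂ)‖ = ‖v‖ := fun v => by simp [Pi.norm_def]
  have n2 : ∀ v : Fin m → ℂ, ‖fun i => (v i).re‖ ≤ ‖v‖ := fun v =>
    (pi_norm_le_iff_of_nonneg (norm_nonneg _)).2 fun i =>
      (Complex.abs_re_le_norm _).trans (norm_le_pi_norm v i)
  have n3 : ∀ y (R : ℝ), (∀ k, ‖T.1 y k‖ ≤ R) → ∀ k, ‖y k‖ ≤ ‖(T⁻¹).1‖ * R := fun y R hR k => by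
    have : y = (T⁻¹).1 (T.1 y) := (congrArg (fun f => f y) T.inv_mul).symm
    rw [this]
    exact (BoundedContinuousFunction.norm_coe_le_norm _ k).trans
      ((T⁻¹).1.le_of_opNorm_le_of_le le_rfl (BoundedContinuousFunction.norm_le_of_nonempty.2 hR))
  refine ⟨‖(T⁻¹).1‖, fun e R hR => ?_, fun x R R' h1 h2 k => ?_⟩
  · set e' := BoundedContinuousFunction.ofNormedAddCommGroupDiscrete (fun k i => (e k i : ℂ)) R
      fun k => (n1 _).trans_le (hR k)
    have e1 : T.1 ((T⁻¹).1 e') = e' := congrArg (fun f => f e') T.mul_inv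
    refine ⟨fun k i => ((T⁻¹).1 e' k i).re, fun k => funext fun i => ?_, fun k => (n2 _).trans
      (n3 _ R (fun k => by rw [e1]; exact (n1 _).trans_le (hR k)) k)⟩
    have := congrArg Complex.re (congrFun ((t1 _ k).symm.trans (congrArg (fun f => f k) e1)) i)
    simp only [Pi.sub_apply, Matrix.mulVec, dotProduct, Complex.sub_re, Complex.re_sum,
      Matrix.map_apply, Complex.re_ofReal_mul] at this
    exact sub_eq_iff_eq_add'.1 this
  · refine (n1 _).symm.trans_le (n3 (.ofNormedAddCommGroupDiscrete (fun k i => (x k i : ℂ)) R'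
      fun k => (n1 _).trans_le (h1 k)) R (fun k => ?_) k)
    refine le_trans (le_of_eq ?_) ((n1 _).trans_le (h2 k))
    rw [t1]
    congr 1
    ext i
    simp [Matrix.mulVec, dotProduct]

end Pool.Agent.P.MP_5c499f_an
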