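import Pool.Agent.P.MP_5c499f_an.HDefs
import Pool.Agent.P.MP_5c499f_an.Linear

/-! The window principle and the abelianisation. TASK ANOS2-S1. -/

set_option autoImplicit false

namespace Pool.Agent.P.MP_5c499f_an

open scoped Matrix

namespace HAbX

/-- Coordinates on a finitely generated abelian group modulo its torsion. -/
theorem coord_mod {A : Type*} [AddCommGroup A] [Module.Finite ℤ A] (ψ : A →ₗ[ℤ] A) :
    ∃ (r : ℕ) (q : A →ₗ[ℤ] (Fin r → ℤ)) (B : Matrix (Fin r) (Fin r) ℤ),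
      Function.Surjective q ∧ (∀ a, q (ψ a) = B *ᵥ q a) ∧ {a | q a = 0}.Finite := by
  classical
  have hψ : Submodule.torsion ℤ A ≤ (Submodule.torsion ℤ A).comap ψ := by
    rintro x ⟨c, hc⟩
    refine ⟨c, ?_⟩
    have h1 : (c : ℤ) • x = 0 := hc
    show (c : ℤ) • ψ x = 0
    rw [← map_smul, h1, map_zero]
  let b := Module.finBasis ℤ (A ⧸ Submodule.torsion ℤ A)
  refine ⟨_, b.equivFun.toLinearMap ∘ₗ (Submodule.torsion ℤ A).mkQ,
    LinearMap.toMatrix b b (Submodule.mapQ _ _ ψ hψ), ?_, fun a => ?_, ?_⟩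
  · exact b.equivFun.surjective.comp (Submodule.mkQ_surjective _)
  · have h1 := LinearMap.toMatrix_mulVec_repr b b (Submodule.mapQ _ _ ψ hψ)
      (Submodule.Quotient.mk a)
    rw [Submodule.mapQ_apply] at h1
    exact h1.symm
  · have h1 : Finite (Submodule.torsion ℤ A) :=
      Module.finite_of_fg_torsion _ (Submodule.torsion_isTorsion)
    refine (Set.toFinite (Submodule.torsion ℤ A : Set A)).subset fun a ha => ?_
    have h2 : b.equivFun ((Submodule.torsion ℤ A).mkQ a) = 0 := ha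
    rw [LinearEquiv.map_eq_zero_iff, Submodule.mkQ_apply, Submodule.Quotient.mk_eq_zero] at h2
    exact h2

theorem add_one {Γ M : Type*} [Group Γ] [AddCommGroup M] (q : Γ → M)
    (hq : ∀ a b, q (a * b) = q a + q b) : q 1 = 0 := by
  have h := hq 1 1
  rw [mul_one] at h
  exact left_eq_add.1 h

theorem add_inv {Γ M : Type*} [Group Γ] [AddCommGroup M] (q : Γ → M)
    (hq : ∀ a b, q (a * b) = q a + q b) (a : Γ) : q a⁻¹ = -q a := by
  have h := hq a a⁻¹
  rw [mul_inv_cancel, add_one q hq] at h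
  exact (neg_eq_of_add_eq_zero_right h.symm).symm

theorem add_comm_zero {Γ M : Type*} [Group Γ] [AddCommGroup M] (q : Γ → M)
    (hq : ∀ a b, q (a * b) = q a + q b) (a : Γ) (ha : a ∈ commutator Γ) : q a = 0 := by
  let f : Γ →* Multiplicative M := MonoidHom.mk' (fun a => Multiplicative.ofAdd (q a))
    fun a b => by rw [hq, ofAdd_add]
  have h : f a = 1 := Abelianization.commutator_subset_ker f ha
  exact h

end HAbX

variable {Γ : Type*} [Group Γ] {Φ : MulAut Γ}

theorem Win.pow (hW : Win Φ) {n : ℕ} (hn : 0 < n) : Win (Φ ^ n) := by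
  obtain ⟨E, D, hE, hD, hwin⟩ := hW
  refine ⟨E, fun k => D (n * k), hE, fun k => hD _, fun S hS => ?_⟩
  obtain ⟨T, hT⟩ := hwin S hS
  refine ⟨T, fun k hk => ?_⟩
  rw [← pow_mul]
  exact hT (n * k) (le_trans hk (Nat.le_mul_of_pos_left k hn))

theorem Win.no_char (hW : Win Φ) (l : Γ → ℂ) (hl : ∀ a b, l (a * b) = l a + l b) {z : ℂ}
    (hz : ‖z‖ = 1) (h : ∀ a, l (Φ a) = z * l a) (a : Γ) : l a = 0 := by
  obtain ⟨E, D, hE, hD, hwin⟩ := hW
  obtain ⟨C, hC⟩ := (hE.image fun e => ‖l e‖).bddAbove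
  have hCE : ∀ e ∈ E, ‖l e‖ ≤ C := fun e he => hC ⟨e, he, rfl⟩
  have hpow : ∀ (n : ℕ) (x : Γ), l ((Φ ^ n) x) = z ^ n * l x := by
    intro n
    induction n with
    | zero => intro x; simp
    | succ n ih =>
      intro x
      rw [pow_succ' Φ, MulAut.mul_apply, h, ih, pow_succ' z, mul_assoc]
  have hbd : ∀ g, ‖l g‖ ≤ max (2 * C) 0 := by
    intro g
    obtain ⟨T, hT⟩ := hwin {g} (Set.finite_singleton g)
    obtain ⟨y, hy⟩ : ∃ y, y = z ^ T := ⟨_, rfl⟩
    have hy1 : ‖y‖ = 1 := by rw [hy, norm_pow, hz, one_pow]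
    have hy0 : y ≠ 0 := by
      intro h0
      rw [h0, norm_zero] at hy1
      exact zero_ne_one hy1
    obtain ⟨w, hw⟩ : ∃ w, w = (starRingEnd ℂ) (l g) := ⟨_, rfl⟩
    have hw1 : ‖w‖ = ‖l g‖ := by rw [hw, Complex.norm_conj]
    obtain ⟨u, hu, hmu⟩ := Set.exists_max_image (D T) (fun u => (w * y⁻¹ * l u).re)
      (hD T).1 (hD T).2
    obtain ⟨v, hv, hmv⟩ := Set.exists_max_image (D T) (fun v => (w * l v).re) (hD T).1 (hD T).2
    obtain ⟨e, he, e', he', u', hu', v', hv', heq⟩ := hT T le_rfl u hu v hv g rfl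
    have h1 := congrArg l heq
    rw [hl, hl, hl, hpow, hpow, hl, hl, hpow, ← hy] at h1
    have h2 : w * y⁻¹ * l u + w * l g + w * l v =
        w * y⁻¹ * l e + w * y⁻¹ * l u' + w * l v' + w * y * l e' := by
      have h3 : w * y⁻¹ * (l u + y * (l g + l v)) =
          w * y⁻¹ * (l e + l u' + y * (l v' + y * l e')) := by rw [h1]
      have h4 : y⁻¹ * y = 1 := inv_mul_cancel₀ hy0
      linear_combination h3 + (w * (l v' + y * l e') - w * (l g + l v)) * h4
    have h3 := congrArg Complex.re h2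
    simp only [Complex.add_re] at h3
    have h4 : (w * l g).re = ‖l g‖ * ‖l g‖ := by
      rw [hw, mul_comm, Complex.mul_conj, Complex.ofReal_re, Complex.normSq_eq_norm_sq, sq]
    have h5 : (w * y⁻¹ * l e).re ≤ ‖l g‖ * C := by
      refine (Complex.re_le_norm _).trans ?_
      rw [norm_mul, norm_mul, norm_inv, hy1, inv_one, mul_one, hw1]
      exact mul_le_mul_of_nonneg_left (hCE e he) (norm_nonneg _)
    have h6 : (w * y * l e').re ≤ ‖l g‖ * C := by
      refine (Complex.re_le_norm _).trans ?_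
      rw [norm_mul, norm_mul, hy1, mul_one, hw1]
      exact mul_le_mul_of_nonneg_left (hCE e' he') (norm_nonneg _)
    have h7 := hmu u' hu'
    have h8 := hmv v' hv'
    have h9 : ‖l g‖ * ‖l g‖ ≤ ‖l g‖ * (2 * C) := by linarith
    rcases (norm_nonneg (l g)).eq_or_lt with h0 | h0
    · rw [← h0]; exact le_max_right _ _
    · exact (le_of_mul_le_mul_left h9 h0).trans (le_max_left _ _)
  have hn : ∀ k : ℕ, l (a ^ k) = k * l a := by
    intro k
    induction k with
    | zero => simpa using HAbX.add_one l hl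
    | succ k ih => rw [pow_succ, hl, ih]; push_cast; ring
  by_contra hne
  have hpos : 0 < ‖l a‖ := norm_pos_iff.2 hne
  obtain ⟨k, hk⟩ := exists_nat_gt (max (2 * C) 0 / ‖l a‖)
  have h1 := hbd (a ^ k)
  rw [hn, norm_mul, Complex.norm_natCast] at h1
  rw [div_lt_iff₀ hpos] at hk
  linarith

theorem exists_coord (Φ : MulAut Γ) {S : Set Γ} (hS : S.Finite) (hgen : Subgroup.closure S = ⊤) :
    ∃ (r : ℕ) (q : Γ → Fin r → ℤ) (B : Matrix (Fin r) (Fin r) ℤ),
      (∀ a b, q (a * b) = q a + q b) ∧ Function.Surjective q ∧ (∀ a, q (Φ a) = B *ᵥ q a) ∧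
      ∃ F : Set Γ, F.Finite ∧ ∀ a, q a = 0 → ∃ c ∈ F, a * c⁻¹ ∈ commutator Γ := by
  have hfg : Group.FG Γ := Group.fg_iff.2 ⟨S, hgen, hS⟩
  have hsurj : Function.Surjective (Abelianization.of : Γ →* Abelianization Γ) :=
    fun x => QuotientGroup.induction_on x fun a => ⟨a, rfl⟩
  have hfg2 : Group.FG (Abelianization Γ) := Group.fg_of_surjective hsurj
  have hfin : Module.Finite ℤ (Additive (Abelianization Γ)) :=
    Module.Finite.iff_addGroup_fg.2 inferInstance
  obtain ⟨r, q, B, h1, h2, h3⟩ := HAbX.coord_mod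
    (MonoidHom.toAdditive (Abelianization.map Φ.toMonoidHom)).toIntLinearMap
  obtain ⟨s, hs⟩ := hsurj.hasRightInverse
  refine ⟨r, fun a => q (Additive.ofMul (Abelianization.of a)), B, fun a b => ?_, fun x => ?_,
    fun a => h2 (Additive.ofMul (Abelianization.of a)),
    (fun x => s (Additive.toMul x)) '' {a | q a = 0}, h3.image _, fun a ha => ?_⟩
  · simp only [map_mul, ofMul_mul, map_add]
  · obtain ⟨y, hy⟩ := h1 x
    refine ⟨s (Additive.toMul y), ?_⟩
    simp only [hs (Additive.toMul y), ofMul_toMul, hy]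
  · refine ⟨_, ⟨_, ha, rfl⟩, ?_⟩
    rw [← Abelianization.ker_of, MonoidHom.mem_ker, map_mul, map_inv]
    simp only [toMul_ofMul]
    rw [hs, mul_inv_cancel]

theorem Win.coord (hW : Win Φ) {S : Set Γ} (hS : S.Finite) (hgen : Subgroup.closure S = ⊤) :
    ∃ (r : ℕ) (q : Γ → Fin r → ℝ) (B : Matrix (Fin r) (Fin r) ℝ),
      (∀ a b, q (a * b) = q a + q b) ∧ (∀ a ∈ commutator Γ, q a = 0) ∧
      (∀ a, q (Φ a) = B *ᵥ q a) ∧ NoUnit B ∧
      ∀ C : ℝ, ∃ F : Set Γ, F.Finite ∧ ∀ a, ‖q a‖ ≤ C → ∃ c ∈ F, a * c⁻¹ ∈ commutator Γ := by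
  classical
  obtain ⟨r, q, B, h1, h2, h3, F, hF, h4⟩ := exists_coord Φ hS hgen
  refine ⟨r, fun a i => (q a i : ℝ), B.map (Int.cast), fun a b => ?_, fun a ha => ?_,
    fun a => ?_, fun z l hz hl => ?_, fun C => ?_⟩
  · ext i
    simp [h1]
  · ext i
    simp [HAbX.add_comm_zero q h1 a ha]
  · ext i
    simp [h3, Matrix.mulVec, dotProduct]
  · have key := hW.no_char (fun a => l ⬝ᵥ fun i => (q a i : ℂ)) (fun a b => by
      simp [h1, dotProduct, mul_add, Finset.sum_add_distrib]) hz (fun a => by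
      have e1 : (fun i => (q (Φ a) i : ℂ)) =
          (B.map (Int.cast : ℤ → ℝ)).map Complex.ofReal *ᵥ fun i => (q a i : ℂ) := by
        ext i
        simp [h3, Matrix.mulVec, dotProduct]
      rw [e1, Matrix.dotProduct_mulVec, hl, smul_dotProduct, smul_eq_mul])
    ext i
    obtain ⟨a, ha⟩ := h2 (Pi.single i 1)
    have h5 := key a
    simp only [ha] at h5
    simpa [dotProduct, Pi.single_apply] using h5
  · obtain ⟨s, hs⟩ := h2.hasRightInverse
    have hX : {x : Fin r → ℤ | ∀ i, x i ∈ Set.Icc (-⌈C⌉) ⌈C⌉}.Finite :=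
      Set.Finite.pi' fun _ => Set.finite_Icc _ _
    refine ⟨_, (hF.image2 (fun c x => c * s x) hX), fun a ha => ?_⟩
    obtain ⟨c, hc, hc2⟩ := h4 (a * (s (q a))⁻¹) (by
      rw [h1, HAbX.add_inv q h1, hs, add_neg_cancel])
    refine ⟨c * s (q a), Set.mem_image2_of_mem hc fun i => ?_, ?_⟩
    · have h5 : |(q a i : ℝ)| ≤ (⌈C⌉ : ℝ) :=
        ((norm_le_pi_norm (fun i => (q a i : ℝ)) i).trans ha).trans (Int.le_ceil C)
      have h6 : |q a i| ≤ ⌈C⌉ := by exact_mod_cast h5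
      exact abs_le.1 h6
    · rw [mul_inv_rev, ← mul_assoc]
      exact hc2

end Pool.Agent.P.MP_5c499f_an
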