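import Pool.Agent.P.MP_5c499f_an.GDyn
import Pool.Agent.P.MP_5c499f_an.HAb

/-! The subsystem over the fixed point in the abelianisation. -/

set_option autoImplicit false

namespace Pool.Agent.P.MP_5c499f_an

open Filter Topology
open scoped Matrix

variable {Y Γ : Type*} [MetricSpace Y] [Group Γ] [MulAction Γ Y]
  {G : Equiv.Perm Y} {Φ : MulAut Γ} {ρ : ℝ} {o : Y}

lemma char_mem (Δ : Subgroup Γ) [h : Δ.Characteristic] (φ : MulAut Γ) {g : Γ} (hg : g ∈ Δ) :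
    φ g ∈ Δ := Subgroup.characteristic_iff_le_comap.1 h φ hg

lemma exists_restrict (Δ : Subgroup Γ) [Δ.Characteristic] (Φ : MulAut Γ) :
    ∃ Ψ : MulAut Δ, ∀ x, (Ψ x : Γ) = Φ x :=
  ⟨⟨⟨fun x => ⟨Φ x, char_mem Δ Φ x.2⟩, fun x => ⟨Φ⁻¹ x, char_mem Δ Φ⁻¹ x.2⟩,
    fun x => by simp, fun x => by simp⟩, fun x y => by simp⟩, fun _ => rfl⟩

lemma bdd_of_ends {E : Type*} [SeminormedAddCommGroup E] {x : ℤ → E} {T : ℕ} {C : ℝ}
    (h1 : ∀ k : ℤ, T ≤ k → ‖x k‖ ≤ C) (h2 : ∀ k : ℤ, k ≤ -T → ‖x k‖ ≤ C) :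
    ∃ C', ∀ k, ‖x k‖ ≤ C' := by
  obtain ⟨C', h⟩ := (((Set.finite_Icc (-T : ℤ) T).image x).isBounded).exists_norm_le
  refine ⟨max C C', fun k => ?_⟩
  by_cases e : k ≤ -T
  · exact le_max_of_le_left (h2 k e)
  by_cases e' : T ≤ k
  · exact le_max_of_le_left (h1 k e')
  · exact le_max_of_le_right (h _ ⟨k, ⟨by omega, by omega⟩, rfl⟩)

/-- An invariant set closed under brackets on which `Δ` acts cocompactly. -/
structure Subsys (G : Equiv.Perm Y) (ρ : ℝ) (o : Y) (Δ : Subgroup Γ) (W : Set Y) (R₀ : ℕ) :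
    Prop where
  ne : W.Nonempty
  inv : ∀ k : ℤ, ∀ y ∈ W, (G ^ k) y ∈ W
  smul : ∀ g ∈ Δ, ∀ y ∈ W, g • y ∈ W
  cocpt : ∀ y ∈ W, ∃ g ∈ Δ, Reach ρ R₀ o (g⁻¹ • y)
  br : ∀ T : ℕ, ∀ p ∈ W, ∀ q ∈ W, ∀ w, St G T ρ w q → Un G (-T) ρ w p → w ∈ W

namespace Gps

variable (D : Gps G Φ ρ o)
include D

theorem sub (H : Subgroup Γ) [H.FiniteIndex] [H.Characteristic] :
    ∃ Ψ : MulAut H, Gps G Ψ ρ o := by
  obtain ⟨Ψ, hΨ⟩ := exists_restrict H Φ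
  obtain ⟨R₀, h⟩ := D.cocpt
  obtain ⟨R, hR⟩ := D.bdd (Set.finite_range fun x : Γ ⧸ H => x.out⁻¹)
  refine ⟨Ψ, D.pos, fun g => D.iso g, fun g a e => Subtype.ext (D.free g a e), D.conn,
    ⟨R + R₀, fun a => ?_⟩, fun R => (D.proper R).preimage (f := Subtype.val)
      Subtype.val_injective.injOn, fun g a => (D.equiv g a).trans (by rw [← hΨ]; rfl), D.cont, D.lip, D.br, D.cpt, D.cs⟩
  obtain ⟨g, hg⟩ := h a
  refine ⟨⟨g * (g⁻¹ : Γ ⧸ H).out, ?_⟩, (hR _ ⟨(g⁻¹ : Γ), rfl⟩).trans ?_⟩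
  · simpa using QuotientGroup.eq.1 (g⁻¹ : Γ ⧸ H).out_eq.symm
  · simpa [Subgroup.smul_def, mul_smul] using hg.smul D.iso (g⁻¹ : Γ ⧸ H).out⁻¹

lemma pow_reach (R₀ n : ℕ) : ∃ L, ∀ y, Reach ρ R₀ o y → Reach ρ L o ((G ^ n) y) := by
  induction n with
  | zero => exact ⟨R₀, fun y hy => hy⟩
  | succ n ih =>
    obtain ⟨L, hL⟩ := ih
    obtain ⟨L', h'⟩ := D.step L
    obtain ⟨R, hR⟩ := D.conn (G o)
    exact ⟨_, fun y hy => by rw [pow_succ']; exact hR.trans (h' _ _ (hL y hy))⟩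

variable {Δ : Subgroup Γ} {W : Set Y} {R₀ : ℕ} (P : Subsys G ρ o Δ W R₀)
include P

theorem win' {Ψ : MulAut Δ} (hΨ : ∀ x, (Ψ x : Γ) = Φ x) : Win Ψ := by
  have e0 : ∀ (g : Δ) a, G (g • a) = Ψ g • G a := fun g a =>
    (D.equiv g a).trans (by rw [← hΨ]; rfl)
  have eqv : ∀ (n : ℕ) (g : Δ) a, (G ^ n) (g • a) = (Ψ ^ n) g • (G ^ n) a := fun n => by
    simpa using equiv_zpow (act := (· • ·)) e0 n
  have iso : ∀ (g : Δ) (a b : Y), dist (g • a) (g • b) = dist a b := fun g => D.iso g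
  have pr : ∀ R, {g : Δ | Reach ρ R o (g • o)}.Finite := fun R =>
    (D.proper R).preimage (f := Subtype.val) Subtype.val_injective.injOn
  have h : ∀ y ∈ W, ∃ g : Δ, Reach ρ R₀ o (g⁻¹ • y) := fun y hy =>
    (P.cocpt y hy).elim fun g hg => ⟨⟨g, hg.1⟩, hg.2⟩
  have sm : ∀ (g : Δ), ∀ y ∈ W, g • y ∈ W := fun g => P.smul g g.2
  have iv : ∀ n : ℕ, ∀ y ∈ W, (G ^ n) y ∈ W := fun n => by simpa using P.inv n
  refine ⟨_, fun n => {u | ∃ y ∈ W, Reach ρ R₀ o y ∧ Reach ρ R₀ o (u • (G ^ n) y)},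
    pr (R₀ + 1 + R₀), fun n => ⟨?_, ?_⟩, fun S hS => ?_⟩
  · obtain ⟨L, hL⟩ := D.pow_reach R₀ n
    exact (pr (R₀ + L)).subset fun u ⟨y, _, y1, y2⟩ => y2.trans ((hL y y1).smul iso u).symm
  · obtain ⟨y, hy⟩ := P.ne
    obtain ⟨g, hg⟩ := h y hy
    exact (h _ (iv n _ (sm g⁻¹ y hy))).elim fun g' hg' => ⟨g'⁻¹, _, sm g⁻¹ y hy, hg, hg'⟩
  obtain ⟨R, hR⟩ := D.bdd (hS.image Subtype.val)
  obtain ⟨T, hT⟩ := D.br (R₀ + R + R₀)
  refine ⟨T, fun n hn u ⟨y, y0, y1, y2⟩ v ⟨y', y5, y3, y4⟩ γ hγ => ?_⟩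
  obtain ⟨w, w1, w2⟩ := hT _ _ (((y4.smul iso γ).symm.trans (hR _ ⟨γ, hγ, rfl⟩).symm).trans y1)
  have w0 : w ∈ W := P.br T _ (sm _ _ (sm _ _ (iv n _ y5))) _ y0 w w1 w2
  obtain ⟨c, hc⟩ := h w w0
  obtain ⟨e, he⟩ := h (u • (G ^ n) w) (sm _ _ (iv n _ w0))
  obtain ⟨s, hs⟩ := (G ^ n).surjective ((γ * v)⁻¹ • w)
  have s0 : s ∈ W := by
    have := P.inv (-n) _ (hs ▸ sm (γ * v)⁻¹ w w0)
    simpa using this
  obtain ⟨e', he'⟩ := h s s0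
  have b1 : dist (u • (G ^ n) w) (u • (G ^ n) y) ≤ ρ := by
    simpa [iso] using w1 n (by omega)
  have b2 : dist s y' ≤ ρ := by
    have := w2 (-n) (by omega)
    rw [← mul_smul, ← smul_inv_smul (γ * v) w, ← hs, equiv_zpow (act := (· • ·)) e0,
      equiv_zpow (act := (· • ·)) e0, iso] at this
    simpa using this
  refine ⟨e, (y2.trans (.single b1)).trans (by simpa using (he.smul iso e).symm), e'⁻¹,
    (he'.trans ((y3.trans (.single b2)).smul iso e'⁻¹).symm).mono D.pos.le (by omega),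
    e⁻¹ * u * (Ψ ^ n) c, ⟨_, sm _ _ w0, hc, by simpa [mul_smul, eqv] using he⟩,
    c⁻¹ * (γ * v) * (Ψ ^ n) e', ⟨_, sm _ _ s0, he', by simpa [mul_smul, eqv, hs] using hc⟩, ?_⟩
  simp [mul_assoc]

theorem gen [Δ.Characteristic] : ∃ E : Set Γ, E.Finite ∧ E ⊆ Δ ∧
    Δ ≤ Subgroup.closure (⋃ k : ℤ, (Φ ^ k) '' E) := by
  obtain ⟨L, hL⟩ := D.pow_reach R₀ 1
  set E := {g | g ∈ Δ ∧ Reach ρ (R₀ + (R₀ + 1 + L)) o (g • o)}
  refine ⟨E, (D.proper _).subset fun _ h => h.2, fun _ h => h.1, ?_⟩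
  set U := Subgroup.closure (⋃ k : ℤ, (Φ ^ k) '' E)
  have u1 : ∀ (k : ℤ) g, g ∈ U → (Φ ^ k) g ∈ U := fun k g hg => by
    refine (Subgroup.closure_le (K := U.comap (Φ ^ k).toMonoidHom)).2 ?_ hg
    intro x hx
    obtain ⟨j, y, hy, rfl⟩ := Set.mem_iUnion.1 hx
    exact Subgroup.subset_closure (Set.mem_iUnion.2 ⟨k + j, y, hy, by rw [zpow_add]; rfl⟩)
  have u2 : ∀ (k : ℤ) g, (Φ ^ k) g ∈ U → g ∈ U := fun k g hg => by
    simpa [← MulAut.mul_apply] using u1 (-k) _ hg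
  have k1 : ∀ y, ∀ g ∈ Δ, ∀ g' ∈ Δ, Reach ρ R₀ o (g⁻¹ • y) →
      Reach ρ (R₀ + 1 + L) o (g'⁻¹ • y) → g⁻¹ * g' ∈ U := fun y g hg g' hg' e e' =>
    Subgroup.subset_closure (Set.mem_iUnion.2 ⟨0, _, ⟨mul_mem (inv_mem hg) hg',
      e.trans (by simpa [mul_smul] using (e'.smul D.iso (g⁻¹ * g')).symm)⟩, by simp⟩)
  choose! c c1 c2 using P.cocpt
  have k2 : ∀ y ∈ W, (c (G y))⁻¹ * Φ (c y) ∈ U := fun y hy => by
    have y1 : G y ∈ W := by simpa using P.inv 1 y hy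
    refine k1 (G y) _ (c1 _ y1) _ (char_mem Δ Φ (c1 _ hy)) (c2 _ y1) ?_
    rw [← map_inv, ← D.equiv]
    exact (hL _ (c2 y hy)).mono D.pos.le (by omega)
  have k3 : ∀ y ∈ W, ∀ k : ℤ, (c ((G ^ k) y))⁻¹ * (Φ ^ k) (c y) ∈ U := fun y hy k => by
    induction k using Int.induction_on with
    | zero => simp
    | succ k ih =>
      have := mul_mem (k2 _ (P.inv k y hy)) (u1 1 _ ih)
      rw [zpow_succ_apply, add_comm, zpow_one_add]
      simpa [mul_assoc] using this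
    | pred k ih =>
      have a1 := k2 _ (P.inv (-k - 1) y hy)
      rw [← zpow_succ_apply, sub_add_cancel] at a1
      have := mul_mem (inv_mem a1) ih
      refine u2 1 _ ?_
      rw [map_mul, ← MulAut.mul_apply, ← zpow_add, add_sub_cancel]
      simpa [mul_assoc] using this
  have k4 : ∀ y ∈ W, ∀ y' ∈ W, ∀ k : ℤ, dist ((G ^ k) y) ((G ^ k) y') ≤ ρ →
      (c y)⁻¹ * c y' ∈ U := fun y hy y' hy' k e => by
    have a1 := P.inv k y hy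
    have a2 := P.inv k y' hy'
    have := k1 _ _ (c1 _ a1) _ (c1 _ a2) (c2 _ a1) (((c2 _ a2).trans
      (.single (by rwa [D.iso]))).mono D.pos.le (by omega))
    refine u2 k _ ?_
    simpa [mul_assoc] using mul_mem (mul_mem (inv_mem (k3 y hy k)) this) (k3 y' hy' k)
  obtain ⟨y, hy⟩ := P.ne
  intro g hg
  have g1 : c y * g * (c y)⁻¹ ∈ Δ := mul_mem (mul_mem (c1 y hy) hg) (inv_mem (c1 y hy))
  have g2 := P.smul _ g1 y hy
  obtain ⟨R, hR⟩ := D.conn y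
  obtain ⟨R', hR'⟩ := D.conn ((c y * g * (c y)⁻¹) • y)
  obtain ⟨T, hT⟩ := D.br (R + R')
  obtain ⟨w, w1, w2⟩ := hT _ _ (hR.symm.trans hR')
  have w0 := P.br T _ hy _ g2 w w1 w2
  have := k1 _ _ (c1 _ g2) _ (mul_mem (c1 y hy) hg) (c2 _ g2) (by
    simpa [mul_smul] using (c2 y hy).mono D.pos.le (by omega))
  simpa [mul_assoc] using mul_mem (mul_mem (inv_mem (k4 _ w0 _ hy _ (w2 _ le_rfl)))
    (k4 _ w0 _ g2 _ (w1 _ le_rfl))) this

omit P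

theorem exists_subsys : ∃ W R₀, Subsys G ρ o (commutator Γ) W R₀ := by
  obtain ⟨S, s1, s2⟩ := D.fg
  obtain ⟨r, q, B, q1, q2, q3, q4, q5⟩ := D.win.coord s1 s2
  obtain ⟨C, -, hC⟩ := q4.solve
  obtain ⟨R₀, h⟩ := D.cocpt
  choose c hc using h
  obtain ⟨L, hL⟩ := D.pow_reach R₀ 1
  obtain ⟨C₁, h1⟩ := ((D.proper (R₀ + (R₀ + 1 + L))).image q).isBounded.exists_norm_le
  have near : ∀ a g, Reach ρ (R₀ + 1 + L) o (g⁻¹ • a) → ‖q g - q (c a)‖ ≤ C₁ := fun a g e => by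
    have := h1 _ ⟨(c a)⁻¹ * g, (hc a).trans
      (by simpa [mul_smul] using (e.smul D.iso ((c a)⁻¹ * g)).symm), rfl⟩
    rwa [← mul_inv_cancel_left (c a) g, q1, add_sub_cancel_left]
  have n1 : ∀ a b, dist a b ≤ ρ → ‖q (c a) - q (c b)‖ ≤ C₁ := fun a b e =>
    near _ _ (((hc a).trans (.single (by rwa [D.iso, dist_comm]))).mono D.pos.le (by omega))
  have n2 : ∀ a (k : ℤ), ‖q (c ((G ^ (k + 1)) a)) - B *ᵥ q (c ((G ^ k) a))‖ ≤ C₁ := fun a k => by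
    rw [norm_sub_rev, ← q3, zpow_succ_apply]
    refine near _ _ ?_
    rw [← map_inv, ← D.equiv]
    exact (hL _ (hc _)).mono D.pos.le (by omega)
  have n3 : ∀ g ∈ commutator Γ, ∀ a (k : ℤ),
      ‖q (c ((G ^ k) (g • a)))‖ ≤ ‖q (c ((G ^ k) a))‖ + C₁ := fun g hg a k => by
    have := near ((G ^ k) (g • a)) ((Φ ^ k) g * c ((G ^ k) a)) (by
      simpa [mul_smul, equiv_zpow (act := (· • ·)) D.equiv] using (hc _).mono D.pos.le (by omega))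
    rw [q1, q2 _ (char_mem _ _ hg), zero_add] at this
    linarith [norm_le_insert (q (c ((G ^ k) a))) (q (c ((G ^ k) (g • a))))]
  have n4 : ∀ C' : ℝ, ∃ R, ∀ a, ‖q (c a)‖ ≤ C' → ∃ g ∈ commutator Γ, Reach ρ R o (g⁻¹ • a) :=
    fun C' => by
    obtain ⟨F, f1, f2⟩ := q5 C'
    obtain ⟨R, hR⟩ := D.bdd f1
    refine ⟨R + R₀, fun a ha => ?_⟩
    obtain ⟨t, t1, t2⟩ := f2 _ ha
    exact ⟨_, t2, (hR t t1).trans (by simpa [mul_smul] using (hc a).smul D.iso t)⟩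
  obtain ⟨R₁, n5⟩ := n4 (C * C₁)
  refine ⟨{y | ∃ C', ∀ k : ℤ, ‖q (c ((G ^ k) y))‖ ≤ C'}, R₁, ?_, fun l y ⟨C', e⟩ => ⟨C', fun k => by
      simpa [zpow_add] using e (k + l)⟩,
    fun g hg y ⟨C', e⟩ => ⟨C' + C₁, fun k => (n3 g hg y k).trans (by linarith [e k])⟩,
    fun y ⟨C', e⟩ => n5 _ (by simpa using hC _ _ _ e (n2 y) 0),
    fun T p ⟨C', e⟩ p' ⟨C'', e'⟩ w w1 w2 => bdd_of_ends (T := T) (C := max C' C'' + C₁)
      (fun k hk => ?_) fun k hk => ?_⟩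
  rotate_left
  · linarith [norm_le_insert' (q (c ((G ^ k) w))) (q (c ((G ^ k) p'))), n1 _ _ (w1 k hk), e' k,
      le_max_right C' C'']
  · linarith [norm_le_insert' (q (c ((G ^ k) w))) (q (c ((G ^ k) p))), n1 _ _ (w2 k hk), e k,
      le_max_left C' C'']
  set C₂ := C₁ + ‖q (c o)‖ + ‖B *ᵥ q (c o)‖
  have c0 : 0 ≤ C₁ := (norm_nonneg _).trans (n2 o 0)
  have key : ∀ K : ℕ, ∃ w, ∀ k : ℤ, -(K + 1) < k → k < K + 1 →
      ‖q (c ((G ^ k) w))‖ ≤ C * (C₁ + C₂) := fun K => by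
    obtain ⟨R, hR⟩ := D.conn ((G ^ (K + 1 : ℤ)) o)
    obtain ⟨R', hR'⟩ := D.conn ((G ^ (-(K + 1) : ℤ)) o)
    obtain ⟨T, hT⟩ := D.br (R + R')
    obtain ⟨w, w1, w2⟩ := hT _ _ (hR.symm.trans hR')
    set z : ℤ → Fin r → ℝ := fun k => if K + 1 ≤ k then q (c ((G ^ k) ((G ^ (-(K + 1) : ℤ)) o)))
      else if k ≤ -(K + 1) then q (c ((G ^ k) ((G ^ (K + 1 : ℤ)) o))) else 0 with hz
    have z1 : ∀ k, ‖z (k + 1) - B *ᵥ z k‖ ≤ C₂ := fun k => by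
      have := norm_nonneg (q (c o))
      have := norm_nonneg (B *ᵥ q (c o))
      simp only [hz]
      split_ifs <;> try omega
      · linarith [n2 ((G ^ (-(K + 1) : ℤ)) o) k]
      · obtain rfl : k = K := by omega
        simp only [← Equiv.Perm.mul_apply, ← zpow_add, add_neg_cancel, zpow_zero,
          Equiv.Perm.one_apply, Matrix.mulVec_zero, sub_zero]
        linarith
      · linarith [n2 ((G ^ (K + 1 : ℤ)) o) k]
      · obtain rfl : k = -(K + 1) := by omega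
        simp only [← Equiv.Perm.mul_apply, ← zpow_add, neg_add_cancel, zpow_zero,
          Equiv.Perm.one_apply, zero_sub, norm_neg]
        linarith
      · simp only [Matrix.mulVec_zero, sub_zero, norm_zero]
        linarith
    obtain ⟨C', z2⟩ := bdd_of_ends (x := fun k => q (c ((G ^ k) w)) - z k) (T := T + K + 1)
      (C := C₁) (fun k hk => by
        simp only [hz, if_pos (show (K + 1 : ℤ) ≤ k by omega)]
        exact n1 _ _ (w1 k (by omega))) fun k hk => by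
        simp only [hz, if_neg (show ¬(K + 1 : ℤ) ≤ k by omega),
          if_pos (show k ≤ -(K + 1 : ℤ) by omega)]
        exact n1 _ _ (w2 k (by omega))
    refine ⟨w, fun k k1 k2 => ?_⟩
    have := hC _ (C₁ + C₂) _ z2 (fun k => by
      rw [Matrix.mulVec_sub, sub_sub_sub_comm]
      exact (norm_sub_le _ _).trans (add_le_add (n2 w k) (z1 k))) k
    simpa only [hz, if_neg k2.not_ge, if_neg k1.not_ge, sub_zero] using this
  choose w hw using key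
  obtain ⟨R₂, n6⟩ := n4 (C * (C₁ + C₂))
  choose g g1 g2 using fun K => n6 (w K) (by simpa using hw K 0 (by omega) (by omega))
  obtain ⟨K₀, k1, k2⟩ := D.cpt R₂
  obtain ⟨y, -, φ, f1, f2⟩ := k1.tendsto_subseq fun K => k2 _ (g2 K)
  refine ⟨y, C * (C₁ + C₂) + C₁ + C₁, fun k => ?_⟩
  obtain ⟨n, a1, a2⟩ := ((((D.cont k).tendsto y).comp f2).eventually
    (Metric.closedBall_mem_nhds _ D.pos) |>.and (eventually_ge_atTop k.natAbs)).exists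
  have := f1.le_apply (x := n)
  have a3 := n1 _ _ (Metric.mem_closedBall.1 a1)
  simp only [Function.comp_apply] at a3
  linarith [n3 _ (inv_mem (g1 (φ n))) (w (φ n)) k,
    hw (φ n) k (by omega) (by omega), norm_le_insert (q (c ((G ^ k) ((g (φ n))⁻¹ • w (φ n)))))
      (q (c ((G ^ k) y)))]

theorem subsys : ∃ E : Set Γ, E.Finite ∧ E ⊆ commutator Γ ∧
      commutator Γ ≤ Subgroup.closure (⋃ k : ℤ, (Φ ^ k) '' E) ∧
      ∀ l, AddOn (commutator Γ) l → (∀ a ∈ commutator Γ, l (Φ a) = l a) →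
        ∀ a ∈ commutator Γ, l a = 0 := by
  obtain ⟨W, R₀, P⟩ := D.exists_subsys
  obtain ⟨E, e1, e2, e3⟩ := D.gen P
  obtain ⟨Ψ, hΨ⟩ := exists_restrict (commutator Γ) Φ
  exact ⟨E, e1, e2, e3, fun l h1 h2 a ha => (D.win' P hΨ).no_char (fun x => l x)
    (fun x y => h1 _ x.2 _ y.2) norm_one (fun x => by rw [hΨ, h2 _ x.2, one_mul]) ⟨a, ha⟩⟩

end Gps

end Pool.Agent.P.MP_5c499f_an
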