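import Pool.Agent.P.MP_5c499f_an.GMain
import Pool.Agent.P.MP_5c499f_an.HFin
import Pool.Agent.P.MP_5c499f_an.HIrr
import Pool.Agent.P.MP_5c499f_an.HJordan
import Pool.Agent.P.MP_5c499f_an.HNil
import Pool.Agent.P.MP_5c499f_an.HRed
import Pool.Agent.P.MP_5c499f_an.HSub

/-! Assembly for a linear deck group. -/

set_option autoImplicit false

namespace Pool.Agent.P.MP_5c499f_an

theorem Win.solv {Γ : Type*} [Group Γ] {Φ : MulAut Γ} (hW : Win Φ) {S : Set Γ} (hS : S.Finite)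
    (hgen : Subgroup.closure S = ⊤) (d : ℕ) : ∃ H : Subgroup Γ, H.Characteristic ∧
      H.FiniteIndex ∧ ∀ ρ : Γ →* Matrix (Fin d) (Fin d) ℂ, ∃ k : ℕ, aug ρ ⁅H, H⁆ ^ k = ⊥ := by
  obtain ⟨J, hJ⟩ := jordan (d * d)
  have := core_char Γ J
  refine ⟨kerAll Γ J, this, core_finiteIndex hS hgen J, aug_nilpotent _ fun d' hd r hr c hc => ?_⟩
  refine (Subgroup.commutator_le (H₃ := r.toHomUnits.ker)).2 (fun a ha b hb => ?_) hc
    |> fun h => congrArg Units.val h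
  refine Units.ext (hW.irr hS hgen r hr fun r' h' => ?_)
  rw [commutatorElement_def, map_mul, map_mul, map_mul,
    hJ _ (Nat.mul_le_mul hd hd) Γ r' h' a ha b hb, ← map_mul, ← map_mul, ← map_mul]
  simp

lemma cj_pow_map {Γ Γ' : Type*} [Group Γ] [Group Γ'] (π : Γ →* Γ') (g : Γ) (k : ℕ) :
    ∀ (l : Γ' → ℂ) (a : Γ), ((cj (π g) - 1) ^ k) l (π a) = ((cj g - 1) ^ k) (l ∘ π) a := by
  induction k with
  | zero => exact fun _ _ => rfl
  | succ k ih =>
    intro l a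
    rw [pow_succ, pow_succ, Module.End.mul_apply, Module.End.mul_apply, ih]
    exact congrArg (fun u => ((cj g - 1) ^ k) u a) (funext fun x => by simp [cj])

theorem Gps.virt {Y Γ : Type*} [MetricSpace Y] [Group Γ] [MulAction Γ Y] {G : Equiv.Perm Y}
    {Φ : MulAut Γ} {r : ℝ} {o : Y} (D : Gps G Φ r o) {d : ℕ} (ρ : Γ →* GL (Fin d) ℂ) :
    Group.IsVirtuallyNilpotent ρ.range := by
  obtain ⟨S, s1, s2⟩ := D.fg
  obtain ⟨H, h1, h2, h3⟩ := D.win.solv s1 s2 d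
  obtain ⟨k, hk⟩ := h3 ((Units.coeHom _).comp ρ)
  obtain ⟨Ψ, D'⟩ := D.sub H
  obtain ⟨S', s3, s4⟩ := D'.fg
  obtain ⟨E, e1, e2, e3, e4⟩ := D'.subsys
  obtain ⟨N, n1, n2⟩ := D'.win.unip_char s3 s4 (commutator H) e1 e2 e3 e4
  set H' := H.map ρ.rangeRestrict
  set π := ρ.rangeRestrict.subgroupMap H
  have p1 : Function.Surjective π := ρ.rangeRestrict.subgroupMap_surjective H
  have p2 : commutator H' = (commutator H).map π := by
    rw [map_commutator_eq, MonoidHom.range_eq_top.2 p1, commutator_def]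
  have := nilpotent_of_unip (commutator H') (N.map π) le_rfl
    (((Units.coeHom _).comp ρ.range.subtype).comp H'.subtype)
    ((Units.val_injective.comp ρ.range.subtype_injective).comp H'.subtype_injective) (k := k) (by
      rw [← hk, ← H.map_subtype_commutator, p2, aug, aug, Subgroup.coe_map, Subgroup.coe_map,
        Set.image_image, Set.image_image]
      rfl) (by
      rintro _ ⟨g, hg, rfl⟩
      refine (n2 g hg).imp fun k h l hl => ?_
      rw [p2] at hl ⊢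
      rintro _ ⟨a, ha, rfl⟩
      rw [cj_pow_map]
      exact h _ (fun a ha b hb => by simpa using hl _ ⟨a, ha, rfl⟩ _ ⟨b, hb, rfl⟩) a ha)
  refine ⟨(N.map π).map H'.subtype, Group.nilpotent_of_mulEquiv
    ((N.map π).equivMapOfInjective _ H'.subtype_injective), ⟨?_⟩⟩
  rw [Subgroup.index_map_subtype]
  exact mul_ne_zero (ne_zero_of_dvd_ne_zero n1.1 (N.index_map_dvd p1))
    (ne_zero_of_dvd_ne_zero h2.1 (H.index_map_dvd ρ.rangeRestrict_surjective))

open Bundle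
open scoped Manifold ContDiff

variable {E : Type*} [NormedAddCommGroup E] [NormedSpace ℝ E] [FiniteDimensional ℝ E]
  {M : Type*} [TopologicalSpace M] [T2Space M] [CompactSpace M]
  [ChartedSpace E M] [IsManifold 𝓘(ℝ, E) ∞ M]
  [RiemannianBundle fun x : M => TangentSpace 𝓘(ℝ, E) x]
  [IsContinuousRiemannianBundle E fun x : M => TangentSpace 𝓘(ℝ, E) x]
  (f : Diffeomorph 𝓘(ℝ, E) 𝓘(ℝ, E) M M 1) (hf : IsAnosov E f)
  {Y Γ : Type*} [MetricSpace Y] [ConnectedSpace Y] [Group Γ] [MulAction Γ Y] [IsIsometricSMul Γ Y]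
  {p : Y → M} (hp : IsQuotientCoveringMap p Γ) (F : Y ≃ₜ Y) (hF : ∀ y, p (F y) = f (p y))
include hf hp hF

theorem gps_image (ex : ∀ x y, ∃ w, Asym F w x ∧ Asym F.symm w y) {d : ℕ}
    (ρ : Γ →* GL (Fin d) ℂ) : Group.IsVirtuallyNilpotent ρ.range := by
  obtain ⟨Φ, r, o, D, -⟩ := gps_of_anosov f hf hp F hF ex
  exact D.virt ρ

theorem gps_linear_deck (gps : ∀ x y, ∃! w, Asym F w x ∧ Asym F.symm w y) {d : ℕ}
    (ρ : Γ →* GL (Fin d) ℂ) (hρ : Function.Injective ρ) : InfranilConj f := by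
  obtain ⟨Φ, r, o, D, gl⟩ := gps_of_anosov f hf hp F hF fun x y => (gps x y).exists
  obtain ⟨N, h1, h2⟩ := D.virt ρ
  obtain ⟨S, s1, s2⟩ := D.fg
  have e := MonoidHom.ofInjective hρ
  obtain ⟨d, hd⟩ := wgd_of_virt ⟨N.map e.symm.toMonoidHom, Group.nilpotent_of_mulEquiv
    (N.equivMapOfInjective _ e.symm.injective),
    ⟨ne_zero_of_dvd_ne_zero h2.1 (N.index_map_dvd e.symm.surjective)⟩⟩ s1 s2
  obtain ⟨Λ, c1, c2, c3, c4, c5⟩ := exists_char s1 s2 hd
  obtain ⟨L, c, hL⟩ := exists_layers c3 c5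
  obtain ⟨m, μ, lv, β, A', α, B, Fa⟩ := exists_aff Φ Λ hL
  exact D.final Fa (gl fun x y _ _ => (gps x y).unique) hp hF

end Pool.Agent.P.MP_5c499f_an
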