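import Pool.Agent.P.MP_5c499f_an.Malcev

/-! Affine actions on the Malcev completion. -/

set_option autoImplicit false

namespace Pool.Agent.P.MP_5c499f_an

open scoped ContDiff

namespace Law

variable {m : ℕ} {μ : Law m} {lv : Fin m → ℕ} {c j : ℕ}

instance : IsTopologicalGroup μ.N where
  continuous_mul := μ.sm.continuous
  continuous_inv := μ.si.continuous

lemma one_apply (i : Fin m) : (1 : μ.N) i = 0 := rfl

lemma W_one : μ.W lv j 1 := fun _ _ => rfl

lemma W.mono {z : μ.N} {j' : ℕ} (h : μ.W lv j z) (e : j' ≤ j) : μ.W lv j' z :=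
  fun i hi => h i (by omega)

namespace Tri

variable (T : μ.Tri lv c)
include T

lemma eq_one {z : μ.N} (h : μ.W lv c z) : z = 1 := funext fun i => h i (T.lt i)

lemma inv {z : μ.N} (h : μ.W lv j z) {i : Fin m} (hi : lv i ≤ j) : z⁻¹ i = -z i := by
  have := T.add j z⁻¹ z h i hi
  rw [inv_mul_cancel, one_apply] at this
  linarith

lemma W_inv {z : μ.N} (h : μ.W lv j z) : μ.W lv j z⁻¹ := fun i hi => by
  rw [T.inv h hi.le, h i hi, neg_zero]

lemma W_mul {z z' : μ.N} (h : μ.W lv j z) (h' : μ.W lv j z') : μ.W lv j (z * z') := fun i hi => by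
  rw [T.add j z z' h' i hi.le, h i hi, h' i hi, add_zero]

lemma conj {z : μ.N} (h : μ.W lv j z) (q : μ.N) {i : Fin m} (hi : lv i ≤ j) :
    (q⁻¹ * z * q) i = z i := by
  have key : ∀ j, μ.W lv j z → ∀ i, lv i ≤ j → μ.W lv j (q⁻¹ * z * q) → (q⁻¹ * z * q) i = z i :=
    fun j h i hi h' => by
      have := T.add j q _ h' i hi
      rw [← mul_assoc, mul_inv_cancel_left, T.add' j q z h i hi] at this
      linarith
  have : ∀ j, μ.W lv j z → μ.W lv j (q⁻¹ * z * q) := fun j => by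
    induction j with
    | zero => exact fun _ i hi => absurd hi (by omega)
    | succ j ih => exact fun h i hi => (key j (h.mono (by omega)) i (by omega)
                    (ih (h.mono (by omega)))).trans (h i hi)
  exact key j h i hi (this j h)

lemma W_conj {z : μ.N} (h : μ.W lv j z) (q : μ.N) : μ.W lv j (q⁻¹ * z * q) := fun i hi => by
  rw [T.conj h q hi.le, h i hi]

lemma mid {z : μ.N} (h : μ.W lv j z) (p q : μ.N) {i : Fin m} (hi : lv i ≤ j) :
    (p * z * q) i = (p * q) i + z i := by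
  rw [← T.conj h q hi, ← T.add j _ _ (T.W_conj h q) i hi]
  simp [mul_assoc]

lemma W_iff {a b : μ.N} : μ.W lv j (a⁻¹ * b) ↔ ∀ i, lv i < j → a i = b i := by
  have key : ∀ j, μ.W lv j (a⁻¹ * b) → ∀ i, lv i ≤ j → b i = a i + (a⁻¹ * b) i := fun j h i hi => by
    rw [← T.add j _ _ h i hi, mul_inv_cancel_left]
  refine ⟨fun h i hi => by rw [key j h i hi.le, h i hi, add_zero], ?_⟩
  induction j with
  | zero => exact fun _ i hi => absurd hi (by omega)
  | succ j ih =>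
    intro h i hi
    have := key j (ih fun i hi => h i (by omega)) i (by omega)
    linarith [h i hi]

lemma good_conj (a : μ.N) : μ.Good lv (MulAut.conj a) :=
  ⟨(μ.sm.comp ((μ.sm.comp (contDiff_const.prodMk contDiff_id)).prodMk contDiff_const) :),
    fun j z h => by simpa using T.W_conj h a⁻¹⟩

lemma lin {A : MulAut μ.N} (hA : μ.Good lv A) {z : μ.N} (h : μ.W lv j z) {i : Fin m}
    (hi : lv i ≤ j) : A z i = fderiv ℝ A 0 z i := by
  have h1 : ∀ s : ℝ, μ.W lv j (s • z) := fun s i hi => by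
    change s * z i = 0
    rw [h i hi, mul_zero]
  let f : ℝ →+ ℝ := AddMonoidHom.mk' (fun s => A (s • z) i) fun s s' => by
    have e : μ.W lv (j + 1) (((s + s') • z)⁻¹ * (s • z * s' • z)) := T.W_iff.2 fun i hi => by
      rw [T.add j _ _ (h1 s') i (by omega)]
      exact add_mul s s' (z i)
    have := T.add _ (A ((s + s') • z)) _ (hA.mem _ _ e) i (by omega)
    rw [← map_mul, mul_inv_cancel_left, hA.mem _ _ e i (by omega), add_zero, map_mul,
      T.add j _ _ (hA.mem _ _ (h1 s')) i hi] at this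
    exact this.symm
  have h2 : HasFDerivAt A (fderiv ℝ A 0) ((0 : ℝ) • z) := by
    rw [zero_smul]; exact (hA.sm.differentiable (by simp) 0).hasFDerivAt
  have h3 : HasDerivAt f (fderiv ℝ A 0 z i) 0 := by
    have := hasDerivAt_pi.1 (h2.comp_hasDerivAt (0 : ℝ) ((hasDerivAt_id (0 : ℝ)).smul_const z)) i
    rw [one_smul] at this
    exact this
  have h4 : ⇑f = fun s => s * f 1 := funext fun s => by
    simpa using map_real_smul f ((continuous_apply i).comp (hA.sm.continuous.comp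
      (continuous_id.smul continuous_const))) s 1
  rw [h4] at h3
  have := h3.unique ((hasDerivAt_id (0 : ℝ)).mul_const (f 1))
  rw [this, one_mul]
  exact (congrArg (fun w => A w i) (one_smul ℝ z)).symm

end Tri

lemma Good.mul {A B : MulAut μ.N} (hA : μ.Good lv A) (hB : μ.Good lv B) : μ.Good lv (A * B) :=
  ⟨hA.sm.comp hB.sm, fun j z h => hA.mem j _ (hB.mem j z h)⟩

lemma sum_apply {ι : Type*} (s : Finset ι) (f : ι → μ.N) (r : ℝ) (i : Fin m) :
    (r • ∑ q ∈ s, f q) i = r * ∑ q ∈ s, f q i :=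
  congrArg (r * ·) (Finset.sum_apply i s f)

theorem Tri.fixed (T : μ.Tri lv c) (Q : Subgroup (Equiv.Perm μ.N)) [Finite Q]
    (h : ∀ q ∈ Q, ∃ A, μ.Good lv A ∧ ∀ n z, q (n * z) = q n * A z) : ∃ n, ∀ q ∈ Q, q n = n := by
  have := Fintype.ofFinite Q
  have key : ∀ j, ∃ n, ∀ q : Q, μ.W lv j (n⁻¹ * q.1 n) := fun j => by
    induction j with
    | zero => exact ⟨1, fun _ i hi => absurd hi (by omega)⟩
    | succ j ih =>
      obtain ⟨n, hn⟩ := ih
      set u := (Fintype.card Q : ℝ)⁻¹ • ∑ q : Q, n⁻¹ * q.1 n with hu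
      have h1 : μ.W lv j u := fun i hi => by simp [hu, sum_apply, hn _ i hi]
      refine ⟨n * u, fun q => ?_⟩
      obtain ⟨A, a1, a2⟩ := h q q.2
      rw [a2, mul_inv_rev, mul_assoc, ← mul_assoc n⁻¹]
      refine T.W_iff.2 fun i hi => ?_
      have hi' : lv i ≤ j := by omega
      have h2 : ∀ q' : Q, (n⁻¹ * (q * q').1 n) i =
          (n⁻¹ * q.1 n) i + fderiv ℝ A 0 (n⁻¹ * q'.1 n) i := fun q' => by
        rw [← T.lin a1 (hn q') hi', ← T.add j _ _ (a1.mem _ _ (hn q')) i hi', mul_assoc, ← a2,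
          mul_inv_cancel_left]
        rfl
      rw [T.add j _ _ (a1.mem _ _ h1) i hi', T.lin a1 h1 hi', hu, map_smul, map_sum, sum_apply,
        sum_apply, ← Equiv.sum_comp (Equiv.mulLeft q)]
      simp only [Equiv.coe_mulLeft, h2, Finset.sum_add_distrib, Finset.sum_const, Finset.card_univ,
        nsmul_eq_mul]
      field_simp
  obtain ⟨n, hn⟩ := key c
  exact ⟨n, fun q hq => (inv_mul_eq_one.1 (T.eq_one (hn ⟨q, hq⟩))).symm⟩

theorem Tri.crossed (T : μ.Tri lv c) {Γ : Type*} [Group Γ] (Λ : Subgroup Γ) [Λ.Normal]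
    [Λ.FiniteIndex] (ι : Λ →* μ.N) (κ : Γ →* MulAut μ.N) (h1 : ∀ γ, μ.Good lv (κ γ))
    (h2 : ∀ l : Λ, κ l = MulAut.conj (ι l))
    (h3 : ∀ γ (l : Λ), κ γ (ι l) = ι (MulAut.conjNormal γ l)) :
    ∃ a : Γ → μ.N, (∀ l : Λ, a l = ι l) ∧ ∀ γ γ', a (γ * γ') = κ γ (a γ') * a γ := by
  classical
  have := Fintype.ofFinite (Γ ⧸ Λ)
  have key : ∀ j, ∃ a : Γ → μ.N, a 1 = 1 ∧ (∀ (l : Λ) γ, a (l * γ) = ι l * a γ) ∧
      ∀ γ γ', μ.W lv j ((a (γ * γ'))⁻¹ * (κ γ (a γ') * a γ)) := fun j => by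
    induction j with
    | zero =>
      let r : Γ ⧸ Λ → Γ := fun q => if q = 1 then 1 else q.out
      have r1 : ∀ γ : Γ, γ * (r γ)⁻¹ ∈ Λ := fun γ => by
        rw [← QuotientGroup.eq_one_iff, QuotientGroup.mk_mul, QuotientGroup.mk_inv, mul_inv_eq_one]
        simp only [r]
        split_ifs with e <;> simp [e]
      refine ⟨fun γ => ι ⟨_, r1 γ⟩, ?_, fun l γ => ?_, fun _ _ i hi => absurd hi (by omega)⟩
      · rw [← map_one ι]; exact congrArg ι (Subtype.ext (by simp [r]))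
      · rw [← map_mul]
        exact congrArg ι (Subtype.ext (by simp [(QuotientGroup.eq_one_iff _).2 l.2, mul_assoc]))
    | succ j ih =>
      obtain ⟨a, a0, a1, a2⟩ := ih
      set d : Γ → Γ → μ.N := fun γ γ' => (a (γ * γ'))⁻¹ * (κ γ (a γ') * a γ) with hd
      have d1 : ∀ (l : Λ) γ γ', d (l * γ) γ' = d γ γ' := fun l γ γ' => by
        simp [hd, mul_assoc, a1, h2]
      have d2 : ∀ γ (γ' : Γ), d γ (γ' : Γ ⧸ Λ).out = d γ γ' := fun γ γ' => by
        obtain ⟨l, hl⟩ := QuotientGroup.mk_out_eq_mul Λ γ'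
        have e1 : γ' * l = MulAut.conjNormal γ' l * γ' := by simp
        have e2 : γ * (MulAut.conjNormal γ' l * γ') =
            MulAut.conjNormal γ (MulAut.conjNormal γ' l) * (γ * γ') := by simp [mul_assoc]
        simp only [hd, hl, e1, e2, a1, map_mul, h3]
        group
      set u : Γ → μ.N := fun γ => -(Fintype.card (Γ ⧸ Λ) : ℝ)⁻¹ • ∑ q : Γ ⧸ Λ, d γ q.out with hu
      have a3 : ∀ γ γ', μ.W lv j (d γ γ') := a2
      have u1 : ∀ γ, μ.W lv j (u γ) := fun γ i hi =>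
        (sum_apply _ _ _ i).trans (by simp [a3 _ _ i hi])
      refine ⟨fun γ => a γ * u γ, ?_, fun l γ => by simp only [hu, d1, a1, mul_assoc],
        fun γ γ' => T.W_iff.2 fun i hi => ?_⟩
      · simp only [hu, hd, a0, one_mul, map_one, MulAut.one_apply, mul_one, inv_mul_cancel]
        exact funext fun i => (sum_apply _ _ _ i).trans (by simp [one_apply])
      have hi' : lv i ≤ j := by omega
      have e1 : ∀ γ γ', κ γ (a γ') * a γ = a (γ * γ') * d γ γ' := fun γ γ' => by simp [hd]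
      have e2 : ∀ q : Γ ⧸ Λ, d (γ * γ') q.out i + d γ γ' i =
          d γ (γ' • q).out i + fderiv ℝ (κ γ) 0 (d γ' q.out) i := fun q => by
        have e3 : a (γ * γ' * q.out) * d (γ * γ') q.out * d γ γ' =
            κ γ (a (γ' * q.out)) * κ γ (d γ' q.out) * a γ := by
          rw [← e1, mul_assoc, ← e1, ← map_mul, ← e1]; simp [mul_assoc]
        have e4 := congrFun e3 i
        rw [T.add j _ _ (a3 _ _) i hi', T.add j _ _ (a3 _ _) i hi',
          T.mid ((h1 γ).mem _ _ (a3 _ _)) _ _ hi', e1, T.add j _ _ (a3 _ _) i hi',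
          T.lin (h1 γ) (a3 _ _) hi', mul_assoc] at e4
        rw [← MulAction.Quotient.mk_smul_out, d2, smul_eq_mul]
        linarith
      beta_reduce
      rw [T.add j _ _ (u1 _) i hi', map_mul, ← mul_assoc, T.add j _ _ (u1 _) i hi',
        T.mid ((h1 γ).mem _ _ (u1 _)) _ _ hi', e1, T.add j _ _ (a3 _ _) i hi',
        T.lin (h1 γ) (u1 _) hi']
      have e5 := Finset.sum_congr rfl fun q (_ : q ∈ Finset.univ) => e2 q
      have e6 : ∑ q : Γ ⧸ Λ, d γ (γ' • q).out i = ∑ q : Γ ⧸ Λ, d γ q.out i :=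
        Equiv.sum_comp (MulAction.toPerm γ') fun q : Γ ⧸ Λ => d γ q.out i
      rw [Finset.sum_add_distrib, Finset.sum_add_distrib, e6] at e5
      simp only [hu, map_smul, map_sum, sum_apply]
      simp only [Finset.sum_const, Finset.card_univ, nsmul_eq_mul] at e5
      field_simp
      linarith
  obtain ⟨a, a0, a1, a2⟩ := key c
  exact ⟨a, fun l => by simpa [a0] using a1 l 1, fun γ γ' => inv_mul_eq_one.1 (T.eq_one (a2 γ γ'))⟩

lemma bdd_image {X Y : Type*} [PseudoMetricSpace X] [ProperSpace X] [PseudoMetricSpace Y]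
    {f : X → Y} (hf : Continuous f) {s : Set X} (hs : Bornology.IsBounded s) :
    Bornology.IsBounded (f '' s) :=
  (hs.isCompact_closure.image hf).isBounded.subset (Set.image_mono subset_closure)

end Law

lemma finite_range {Γ K : Type*} [Group Γ] [Group K] (f : Γ →* K) (Λ : Subgroup Γ) [Λ.FiniteIndex]
    (h : ∀ l : Λ, f l = 1) : Finite f.range :=
  have : f.ker.FiniteIndex := Subgroup.finiteIndex_of_le (H := Λ) fun l hl => h ⟨l, hl⟩
  Finite.of_equiv _ (QuotientGroup.quotientKerEquivRange f).toEquiv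

/-- The affine model of a group with an automorphism. -/
structure Aff {m : ℕ} (μ : Law m) (lv : Fin m → ℕ) (c : ℕ) {Γ : Type*} [Group Γ] (Φ : MulAut Γ)
    (β : Γ →* Equiv.Perm μ.N) (A : Γ →* MulAut μ.N) (α : Equiv.Perm μ.N) (B : MulAut μ.N) :
    Prop where
  tri : μ.Tri lv c
  good : ∀ γ, μ.Good lv (A γ)
  fin : Finite A.range
  aff : ∀ γ n z, β γ (n * z) = β γ n * A γ z
  goodB : μ.Good lv B
  goodB' : μ.Good lv B⁻¹
  affB : ∀ n z, α (n * z) = α n * B z
  equiv : ∀ γ n, α (β γ n) = β (Φ γ) (α n)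
  lat : ∀ k : Fin m → ℤ, ∃ (γ : Γ) (g : μ.N), (∀ i, g i = k i) ∧ ∀ n, β γ n = g * n
  proper : ∀ s : Set μ.N, Bornology.IsBounded s → {γ | β γ 1 ∈ s}.Finite

theorem exists_aff {Γ : Type*} [Group Γ] (Φ : MulAut Γ) (Λ : Subgroup Γ) [Λ.Characteristic]
    [Λ.FiniteIndex] {L : ℕ → Subgroup Λ} {c : ℕ} (hL : Layers L c) :
    ∃ (m : ℕ) (μ : Law m) (lv : _) (β : _) (A : _) (α : _) (B : _), Aff μ lv c Φ β A α B := by
  obtain ⟨m, lv, μ, ι, κ₀, T, i1, i2, i3, k1, k2, k3⟩ := malcev hL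
  set κ₁ := κ₀.comp (MulAut.characteristic Λ)
  set κ := κ₁.comp MulAut.conj
  have k4 : ∀ l : Λ, κ l = MulAut.conj (ι l) := fun l => k3 l
  obtain ⟨a, a1, a2⟩ := T.crossed Λ ι κ (fun _ => k1 _) k4 fun γ l => k2 _ l
  let β : Γ →* Equiv.Perm μ.N := MonoidHom.mk' (fun γ => (κ γ).toEquiv.trans (Equiv.mulRight (a γ)))
    fun γ γ' => Equiv.ext fun n => by simp [a2, mul_assoc]
  have b1 : ∀ γ n, β γ n = κ γ n * a γ := fun _ _ => rfl
  have b2 : ∀ (l : Λ) n, β l n = ι l * n := fun l n => by simp [b1, k4, a1]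
  let A : Γ →* MulAut μ.N := MonoidHom.mk' (fun γ => MulAut.conj (a γ)⁻¹ * κ γ)
    fun γ γ' => MulEquiv.ext fun n => by simp [a2, mul_assoc]
  have b3 : ∀ γ n z, β γ (n * z) = β γ n * A γ z := fun γ n z => by simp [b1, A, mul_assoc]
  have b4 : ∀ γ, μ.Good lv (A γ) := fun γ => (T.good_conj _).mul (k1 _)
  have b5 : ∀ γ n, κ₁ Φ (κ γ n) = κ (Φ γ) (κ₁ Φ n) := fun γ n => by
    have : Φ * MulAut.conj γ = MulAut.conj (Φ γ) * Φ := MulEquiv.ext fun x => by simp
    simpa [κ] using congrArg (fun Ψ => κ₁ Ψ n) this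
  let q : Γ →* Equiv.Perm μ.N := MonoidHom.mk'
    (fun γ => Equiv.mulLeft (κ₁ Φ (a γ))⁻¹ * β (Φ γ)) fun γ γ' => Equiv.ext fun n => by
      simp only [Equiv.Perm.mul_apply, Equiv.coe_mulLeft, map_mul, a2 γ, b5, b1 (Φ γ), map_inv]
      group
  have := finite_range q Λ fun l => Equiv.ext fun n => by
    have := b2 (MulAut.characteristic Λ Φ l) n
    rw [← k2, ← a1] at this
    exact inv_mul_eq_iff_eq_mul.2 this
  obtain ⟨a₀, h₀⟩ := T.fixed q.range (by
    rintro _ ⟨γ, rfl⟩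
    exact ⟨_, b4 (Φ γ), fun n z => (congrArg _ (b3 _ n z)).trans (mul_assoc _ _ _).symm⟩)
  refine ⟨m, μ, lv, β, A, (κ₁ Φ).toEquiv.trans (Equiv.mulRight a₀), MulAut.conj a₀⁻¹ * κ₁ Φ, T, b4,
    finite_range A Λ fun l => MulEquiv.ext fun n => by simp [A, k4, a1], b3,
    (T.good_conj _).mul (k1 _), ?_, fun n z => by simp [mul_assoc], fun γ n => ?_, fun k => ?_,
    fun s hs => ?_⟩
  · rw [mul_inv_rev, ← map_inv, ← map_inv]
    exact (k1 _).mul (T.good_conj _)
  · have := inv_mul_eq_iff_eq_mul.1 (show _ * β (Φ γ) a₀ = a₀ from h₀ _ ⟨γ, rfl⟩)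
    rw [b1] at this
    simp [b1, b5, mul_assoc, this]
  · obtain ⟨g, hg⟩ := i3 k
    exact ⟨g, ι g, congrFun hg, b2 g⟩
  · have fin : ∀ s : Set μ.N, Bornology.IsBounded s → (ι ⁻¹' s).Finite := fun s hs => by
      obtain ⟨R, hR⟩ := hs.exists_norm_le
      refine Set.Finite.of_finite_image (f := ι) (((Set.Finite.pi' fun _ : Fin m =>
        Set.finite_Icc (-⌈R⌉) ⌈R⌉).image fun k i => (k i : ℝ)).subset ?_) i1.injOn
      rintro _ ⟨g, hg, rfl⟩
      choose k hk using i2 g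
      refine ⟨k, fun i => ?_, (funext hk).symm⟩
      have := abs_le.1 ((norm_le_pi_norm (ι g) i).trans ((hR _ hg).trans (Int.le_ceil R)))
      rw [hk] at this
      exact_mod_cast this
    refine (Set.finite_iUnion fun q : Γ ⧸ Λ => (fin _ (Law.bdd_image
      (continuous_mul_const (a q.out)⁻¹) hs)).image fun l : Λ => l * q.out).subset fun γ hγ => ?_
    have e : γ * (γ : Γ ⧸ Λ).out⁻¹ ∈ Λ := by
      rw [← QuotientGroup.eq_one_iff]; simp
    refine Set.mem_iUnion.2 ⟨γ, ⟨_, e⟩, ⟨_, hγ, ?_⟩, by simp⟩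
    have := b2 ⟨_, e⟩ (β (γ : Γ ⧸ Λ).out 1)
    rw [← Equiv.Perm.mul_apply, ← map_mul, inv_mul_cancel_right] at this
    simp [this, b1]

end Pool.Agent.P.MP_5c499f_an
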