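import Pool.Agent.P.MP_5c499f_an.XDefs

/-! Generation of closed forms by angle forms and bounded primitives on a covering space. -/

set_option autoImplicit false

namespace Pool.Agent.P.MP_5c499f_an

open Bundle Filter Topology
open scoped Manifold ContDiff

variable (E : Type*) [NormedAddCommGroup E] [NormedSpace ℝ E] {M : Type*} [TopologicalSpace M]
  [ChartedSpace E M] [RiemannianBundle fun x : M => TangentSpace 𝓘(ℝ, E) x]

/-- Every closed smooth `k`-form on `M`, pulled back by `q : Z → M`, is a real linear combination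
of wedge products of `k` one-forms `ang θ + d b`, where `θ` is a smooth map of `M` to the punctured
plane and `b` is a bounded `C¹` function on `Z` with bounded differential. Functions on `Z` are
differentiated through the continuous local sections `s` of `q`. -/
def CupBdd {Z : Type*} [TopologicalSpace Z] (q : Z → M) (k : ℕ) : Prop :=
  ∀ α : Form M k, α.Smooth E → (∀ x v, α.d.ev E x v = 0) →
    ∃ (m : ℕ) (c : Fin m → ℝ) (θ : Fin m → Fin k → M → ℂ) (b : Fin m → Fin k → Z → ℝ) (K : ℝ),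
      (∀ t i, ContMDiff 𝓘(ℝ, E) 𝓘(ℝ, ℂ) ∞ (θ t i) ∧ ∀ x, θ t i x ≠ 0) ∧
      (∀ t i z, |b t i z| ≤ K) ∧
      ∀ (x : M) (s : M → Z), ContinuousAt s x → (∀ᶠ y in 𝓝 x, q (s y) = y) →
        (∀ t i, ContMDiffAt 𝓘(ℝ, E) 𝓘(ℝ, ℝ) 1 (b t i ∘ s) x ∧
          ∀ v, |mvfderiv 𝓘(ℝ, E) (b t i ∘ s) x v| ≤ K * ‖v‖) ∧
        ∀ v, α.ev E x v = ∑ t, c t * (Matrix.of fun i j =>
          ang E (θ t i) x (v j) + mvfderiv 𝓘(ℝ, E) (b t i ∘ s) x (v j)).det

end Pool.Agent.P.MP_5c499f_an
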