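import Pool.Agent.P.MP_5c499f_an.NShadow
import Pool.Agent.P.MP_5c499f_an.Top

/-! The coarse correspondence between the universal cover and the nilpotent model. -/

set_option autoImplicit false

namespace Pool.Agent.P.MP_5c499f_an

open Filter Topology Law
open scoped Matrix

lemma equiv_zpow {Γ Y : Type*} [Group Γ] {act : Γ → Y → Y} {G : Equiv.Perm Y} {Φ : MulAut Γ}
    (h : ∀ g a, G (act g a) = act (Φ g) (G a)) (k : ℤ) :
    ∀ g a, (G ^ k) (act g a) = act ((Φ ^ k) g) ((G ^ k) a) := by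
  induction k using Int.induction_on with
  | zero => simp
  | succ k ih => intro g a; simp only [zpow_add_one, Equiv.Perm.mul_apply, MulAut.mul_apply, h, ih]
  | pred k ih =>
    intro g a
    have : G⁻¹ (act g a) = act (Φ⁻¹ g) (G⁻¹ a) := by rw [Equiv.Perm.inv_eq_iff_eq, h]; simp
    simp only [zpow_sub_one, Equiv.Perm.mul_apply, MulAut.mul_apply, this, ih]

lemma zpow_succ_apply {Y : Type*} (G : Equiv.Perm Y) (k : ℤ) (p : Y) :
    (G ^ (k + 1)) p = G ((G ^ k) p) := by rw [add_comm, zpow_one_add]; rfl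

variable {Y Γ ι : Type*} [MetricSpace Y] [Group Γ] [MulAction Γ Y] {ρ : ℝ}

lemma Reach.symm {R : ℕ} {p q : Y} (h : Reach ρ R p q) : Reach ρ R q p := by
  induction R generalizing q with
  | zero => exact h.zero ▸ Reach.refl _ _
  | succ R ih =>
    obtain ⟨w, w1, w2⟩ := h.succ
    exact add_comm 1 R ▸ (Reach.single (dist_comm q w ▸ w2)).trans (ih w1)

/-- Families of pairs of points at bounded chain distance. -/
def BY (ρ : ℝ) (p q : ι → Y) : Prop := ∃ R, ∀ i, Reach ρ R (p i) (q i)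

section BY

variable {p q w : ι → Y}

lemma BY.symm (h : BY ρ p q) : BY ρ q p := h.imp fun _ h i => (h i).symm

lemma BY.trans (h : BY ρ p q) (h' : BY ρ q w) : BY ρ p w :=
  let ⟨_, h⟩ := h
  let ⟨_, h'⟩ := h'
  ⟨_, fun i => (h i).trans (h' i)⟩

variable {G : Equiv.Perm Y} {Φ : MulAut Γ} {o : Y} (D : Dyn G Φ ρ o)
include D

lemma Dyn.smul (h : BY ρ p q) (g : ι → Γ) : BY ρ (fun i => g i • p i) fun i => g i • q i :=
  h.imp fun _ h i => (h i).smul D.iso _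

lemma Dyn.step (h : BY ρ p q) : BY ρ (fun i => G (p i)) fun i => G (q i) := by
  obtain ⟨L, hL⟩ := D.lip
  obtain ⟨R, hR⟩ := h
  have : ∀ R a b, Reach ρ R a b → Reach ρ (L * R) (G a) (G b) := fun R => by
    induction R with
    | zero => exact fun a b h => h.zero ▸ Reach.refl _ _
    | succ R ih =>
      intro a b h
      obtain ⟨w, w1, w2⟩ := h.succ
      exact (ih _ _ w1).trans (hL _ _ (dist_comm b w ▸ w2))
  exact ⟨_, fun i => this R _ _ (hR i)⟩

lemma Dyn.fin {s : Set Y} (hs : s.Finite) (h : ∀ i, p i ∈ s) : BY ρ (fun _ => o) p := by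
  choose R hR using D.conn
  obtain ⟨R', h'⟩ := (hs.image R).bddAbove
  exact ⟨R', fun i => (hR _).mono D.pos.le (h' ⟨_, h i, rfl⟩)⟩

end BY

variable {m c : ℕ} {μ : Law m} {lv : Fin m → ℕ} {Φ : MulAut Γ} {β : Γ →* Equiv.Perm μ.N}
  {A : Γ →* MulAut μ.N} {α : Equiv.Perm μ.N} {B : MulAut μ.N}

namespace Aff

variable (F : Aff μ lv c Φ β A α B)
include F

lemma bdA {n : ι → μ.N} (h : Bf n) (γ : ι → Γ) : Bf fun i => A (γ i) (n i) :=
  Bf.fin (s := Set.range A) (f := fun a i => a (n i)) F.fin (fun i => ⟨γ i, rfl⟩) <| by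
    rintro _ ⟨g, rfl⟩
    exact h.map (F.good g).sm.continuous

lemma diff (γ : Γ) (a b : μ.N) : (β γ a)⁻¹ * β γ b = A γ (a⁻¹ * b) := by
  rw [inv_mul_eq_iff_eq_mul, ← F.aff, mul_inv_cancel_left]

lemma diffB (a b : μ.N) : (α a)⁻¹ * α b = B (a⁻¹ * b) := by
  rw [inv_mul_eq_iff_eq_mul, ← F.affB, mul_inv_cancel_left]

lemma cont (γ : Γ) : Continuous (β γ) := by
  have : ⇑(β γ) = fun n => β γ 1 * A γ n := funext fun n => by rw [← F.aff, one_mul]
  exact this ▸ (F.good γ).sm.continuous.const_mul _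

lemma contB (k : ℤ) : Continuous (α ^ k) := by
  have h1 : ⇑α = fun n => α 1 * B n := funext fun n => by rw [← F.affB, one_mul]
  have h2 : ⇑α⁻¹ = fun n => α⁻¹ 1 * B⁻¹ n := funext fun n => by
    rw [Equiv.Perm.inv_eq_iff_eq, F.affB]; simp
  induction k using Int.induction_on with
  | zero => exact continuous_id
  | succ k ih => rw [zpow_add_one]; exact ih.comp (h1 ▸ F.goodB.sm.continuous.const_mul _)
  | pred k ih => rw [zpow_sub_one]; exact ih.comp (h2 ▸ F.goodB'.sm.continuous.const_mul _)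

lemma cocpt (x : μ.N) : ∃ γ, ‖β γ x‖ ≤ 1 := by
  have key : ∀ j, ∃ γ, ∀ i, lv i < j → |β γ x i| ≤ 1 := fun j => by
    induction j with
    | zero => exact ⟨1, fun i hi => absurd hi (by omega)⟩
    | succ j ih =>
      obtain ⟨γ, h⟩ := ih
      obtain ⟨γ', g, g1, g2⟩ := F.lat fun i => if lv i = j then -⌊β γ x i⌋ else 0
      refine ⟨γ' * γ, fun i hi => ?_⟩
      rw [map_mul, Equiv.Perm.mul_apply, g2,
        F.tri.add' j _ g (fun i hi => by simp [g1, hi.ne]) i (by omega), g1]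
      split_ifs with e
      · rw [Int.cast_neg, ← sub_eq_add_neg, Int.self_sub_floor, abs_of_nonneg (Int.fract_nonneg _)]
        exact (Int.fract_lt_one _).le
      · simpa using h i (by omega)
  exact (key c).imp fun γ h => (pi_norm_le_iff_of_nonneg one_pos.le).2 fun i => h i (F.tri.lt i)

lemma uq (H : ∀ j, NoUnit (blk lv j B)) {n n' : μ.N}
    (h : Bf fun k : ℤ => ((α ^ k) n)⁻¹ * (α ^ k) n') : n = n' := by
  simpa [inv_mul_eq_one] using F.tri.ge F.goodB H h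
    (fun k => by rw [zpow_succ_apply, zpow_succ_apply, F.diffB]) 0

end Aff

/-- The coarse correspondence. -/
def Nr (ρ : ℝ) (o : Y) (β : Γ →* Equiv.Perm μ.N) (p : ι → Y) (n : ι → μ.N) : Prop :=
  ∃ γ : ι → Γ, BY ρ (fun _ => o) (fun i => γ i • p i) ∧ Bf fun i => β (γ i) (n i)

variable {G : Equiv.Perm Y} {o : Y} {p q : ι → Y} {n n' : ι → μ.N}

lemma Nr.comp {ι' : Type*} (h : Nr ρ o β p n) (f : ι' → ι) :
    Nr ρ o β (fun i => p (f i)) fun i => n (f i) :=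
  let ⟨γ, ⟨R, h1⟩, h2⟩ := h
  ⟨fun i => γ (f i), ⟨R, fun i => h1 (f i)⟩, h2.comp f⟩

lemma Nr.smul (h : Nr ρ o β p n) (g : ι → Γ) :
    Nr ρ o β (fun i => g i • p i) fun i => β (g i) (n i) :=
  let ⟨γ, h1, h2⟩ := h
  ⟨fun i => γ i * (g i)⁻¹, by simpa [mul_smul] using h1, by simpa using h2⟩

lemma Aff.ex (F : Aff μ lv c Φ β A α B) (ρ : ℝ) (o : Y) (n : ι → μ.N) : ∃ p, Nr ρ o β p n := by
  choose γ h using F.cocpt
  exact ⟨fun i => (γ (n i))⁻¹ • o, fun i => γ (n i), ⟨0, fun i => by simpa using Reach.refl ρ o⟩,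
    1, fun i => h _⟩

lemma Nr.right (F : Aff μ lv c Φ β A α B) (h : Nr ρ o β p n) (h' : Bf fun i => (n i)⁻¹ * n' i) :
    Nr ρ o β p n' :=
  let ⟨γ, h1, h2⟩ := h
  ⟨γ, h1, by simpa only [← F.aff, mul_inv_cancel_left] using bd_mul h2 (F.bdA h' γ)⟩

variable (D : Dyn G Φ ρ o)
include D

lemma Dyn.ex (β : Γ →* Equiv.Perm μ.N) (p : ι → Y) : ∃ n, Nr ρ o β p n := by
  obtain ⟨R, h⟩ := D.cocpt
  choose γ h using h
  exact ⟨fun i => β (γ (p i)) 1, fun i => (γ (p i))⁻¹, ⟨R, fun i => h _⟩,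
    by simpa using Bf.const (1 : μ.N)⟩

lemma Nr.left (h : Nr ρ o β p n) (h' : BY ρ p q) : Nr ρ o β q n :=
  let ⟨γ, h1, h2⟩ := h
  ⟨γ, h1.trans (D.smul h' γ), h2⟩

variable (F : Aff μ lv c Φ β A α B)
include F

lemma Nr.bd (h : Nr ρ o β p n) (h' : Nr ρ o β p n') : Bf fun i => (n i)⁻¹ * n' i := by
  obtain ⟨γ, h1, h2⟩ := h
  obtain ⟨γ', h3, h4⟩ := h'
  obtain ⟨R, hR⟩ := h1.trans (show BY ρ (fun i => γ i • p i) _ by
    simpa [mul_smul] using (D.smul h3 fun i => γ i * (γ' i)⁻¹).symm)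
  have := Bf.fin (f := fun g i => β g (β (γ' i) (n' i))) (D.proper R)
    (k := fun i => γ i * (γ' i)⁻¹) (fun i => by simpa [mul_smul] using hR i)
    fun g _ => h4.map (F.cont g)
  simpa only [← F.diff, ← Equiv.Perm.mul_apply, ← map_mul β, inv_mul_cancel, mul_assoc, mul_one,
    inv_mul_cancel_left, map_one, Equiv.Perm.one_apply] using
    F.bdA (bd_mul (bd_inv h2) this) fun i => (γ i)⁻¹

lemma Nr.by (h : Nr ρ o β p n) (h' : Nr ρ o β q n) : BY ρ p q := by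
  obtain ⟨γ, h1, h2⟩ := h
  obtain ⟨γ', h3, h4⟩ := h'
  have h5 := bd_mul h4 (bd_inv (F.bdA h2 fun i => γ' i * (γ i)⁻¹))
  have h6 := D.fin (p := fun i => (γ' i * (γ i)⁻¹) • o) ((F.proper _ (Bf.iff.1 h5)).image (· • o))
    fun i => ⟨_, ⟨i, by rw [mul_inv_eq_iff_eq_mul, ← F.aff]; simp⟩, rfl⟩
  simpa [mul_smul] using D.smul (((D.smul h1 fun i => γ' i * (γ i)⁻¹).symm.trans h6.symm).trans h3)
    fun i => (γ' i)⁻¹

lemma Nr.step (h : Nr ρ o β p n) : Nr ρ o β (fun i => G (p i)) fun i => α (n i) :=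
  let ⟨γ, h1, h2⟩ := h
  ⟨fun i => Φ (γ i), (D.fin (Set.finite_singleton (G o)) fun _ => rfl).trans
    (by simpa only [D.equiv] using D.step h1),
    by simpa only [zpow_one, F.equiv] using h2.map (F.contB 1)⟩

lemma Nr.jump {x : ι → ℤ → μ.N}
    (h : Nr ρ o β (fun y : ι × ℤ => (G ^ y.2) (p y.1)) fun y => x y.1 y.2) :
    Bf fun y : ι × ℤ => (α (x y.1 y.2))⁻¹ * x y.1 (y.2 + 1) :=
  (h.step D F).bd D F (by simpa only [zpow_succ_apply] using h.comp fun y : ι × ℤ => (y.1, y.2 + 1))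

end Pool.Agent.P.MP_5c499f_an
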