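import Pool.Agent.P.MP_5c499f_an.Deck

/-! The universal cover as a metric space. -/

set_option autoImplicit false

namespace Pool.Agent.P.MP_5c499f_an

open Path.Homotopic.Quotient (mk_refl mk_symm mk_trans refl_trans trans_refl trans_symm symm_trans
  trans_assoc mk_map)

variable {M : Type*} [MetricSpace M]

/-- Uniform local simple connectivity, with Lipschitz short paths. -/
structure Loc (M : Type*) [MetricSpace M] (σ C₁ : ℝ) : Prop where
  pos : 0 < σ
  one_le : 1 ≤ C₁
  sc : ∀ (y y' : M) (p q : Path y y'), (∀ t, dist (p t) y ≤ σ) → (∀ t, dist (q t) y ≤ σ) →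
    p.Homotopic q
  pc : ∀ y y' : M, dist y y' ≤ σ →
    ∃ p : Path y y', ∀ t t', dist (p t) (p t') ≤ C₁ * dist y y' * dist t t'

variable {σ C₁ : ℝ}

lemma Loc.pc' (h : Loc M σ C₁) {y y' : M} (hy : dist y y' ≤ σ) :
    ∃ p : Path y y', ∀ t, dist (p t) y ≤ C₁ * dist y y' := by
  obtain ⟨p, hp⟩ := h.pc y y' hy
  refine ⟨p, fun t => ?_⟩
  have h1 := hp t 0
  have h2 : dist t 0 ≤ 1 := by
    rw [Subtype.dist_eq, Real.dist_eq]; simpa [abs_of_nonneg t.2.1] using t.2.2
  rw [p.source] at h1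
  exact h1.trans (mul_le_of_le_one_right (mul_nonneg (by linarith [h.one_le]) dist_nonneg) h2)

/-- The points of a uniform subdivision of the unit interval. -/
noncomputable def tick (n i : ℕ) : unitInterval := Set.projIcc 0 1 zero_le_one ((i : ℝ) / n)

lemma tick_zero (n : ℕ) : tick n 0 = 0 := by simp [tick]

lemma tick_self {n : ℕ} (hn : 1 ≤ n) : tick n n = 1 := by
  have : (n : ℝ) ≠ 0 := by positivity
  simp [tick, this]

lemma dist_tick (n i : ℕ) : dist (tick n (i + 1)) (tick n i) ≤ 1 / n := by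
  refine ((LipschitzWith.projIcc zero_le_one).dist_le_mul _ _).trans (le_of_eq ?_)
  rw [Real.dist_eq]
  push_cast
  rw [one_mul, ← sub_div, add_sub_cancel_left, abs_of_nonneg (by positivity)]

lemma Loc.interp (h : Loc M σ C₁) : Interp M σ C₁ := by
  intro y y' hy n hn
  obtain ⟨p, hp⟩ := h.pc y y' hy
  have h0 : 0 ≤ C₁ * dist y y' := mul_nonneg (by linarith [h.one_le]) dist_nonneg
  refine ⟨fun i => p (tick n i), by simp [tick_zero], by simp [tick_self hn], fun i => ?_,
    fun i => (hp _ _).trans ?_⟩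
  · have h1 := hp (tick n i) 0
    have h2 : dist (tick n i) 0 ≤ 1 := by
      rw [Subtype.dist_eq, Real.dist_eq]
      simpa [abs_of_nonneg (tick n i).2.1] using (tick n i).2.2
    rw [p.source] at h1
    exact h1.trans (mul_le_of_le_one_right h0 h2)
  · rw [div_eq_mul_one_div]
    exact mul_le_mul_of_nonneg_left (dist_tick n i) h0

/-- Homotopy classes of paths starting at `x₀`. -/
@[ext] structure Cov (_h : Loc M σ C₁) (x₀ : M) where
  /-- the end point -/
  pt : M
  /-- the homotopy class -/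
  cls : Path.Homotopic.Quotient x₀ pt

variable {h : Loc M σ C₁} {x₀ : M}

namespace Cov

/-- `b` is obtained from `a` by appending a path of radius at most `r`. -/
def Nr (r : ℝ) (a b : Cov h x₀) : Prop :=
  ∃ p : Path a.pt b.pt, (∀ t, dist (p t) a.pt ≤ r) ∧ b.cls = a.cls.trans (.mk p)

lemma Nr.mono {r r' : ℝ} {a b : Cov h x₀} (hn : Nr r a b) (hr : r ≤ r') : Nr r' a b := by
  obtain ⟨p, p1, p2⟩ := hn
  exact ⟨p, fun t => (p1 t).trans hr, p2⟩

lemma Nr.refl {r : ℝ} (hr : 0 ≤ r) (a : Cov h x₀) : Nr r a a :=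
  ⟨Path.refl _, fun t => by simpa, by simp [mk_refl]⟩

lemma Nr.dist_le {r : ℝ} {a b : Cov h x₀} (hn : Nr r a b) : dist b.pt a.pt ≤ r := by
  obtain ⟨p, p1, -⟩ := hn
  simpa using p1 1

lemma Nr.symm {r : ℝ} {a b : Cov h x₀} (hn : Nr r a b) : Nr (r + r) b a := by
  have := hn.dist_le
  obtain ⟨p, p1, p2⟩ := hn
  refine ⟨p.symm, fun t => ?_, by simp [p2, mk_symm]⟩
  change dist (p (unitInterval.symm t)) b.pt ≤ _
  linarith [dist_triangle_right (p (unitInterval.symm t)) b.pt a.pt, p1 (unitInterval.symm t)]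

lemma Nr.trans {r r' : ℝ} {a b c : Cov h x₀} (hn : Nr r a b) (hn' : Nr r' b c) :
    Nr (r + r') a c := by
  have h1 := hn.dist_le
  have h2 : 0 ≤ r' := dist_nonneg.trans hn'.dist_le
  obtain ⟨p, p1, p2⟩ := hn
  obtain ⟨q, q1, q2⟩ := hn'
  refine ⟨p.trans q, fun t => ?_, by simp [p2, q2, mk_trans]⟩
  have : p.trans q t ∈ Set.range p ∪ Set.range q := Path.trans_range p q ▸ Set.mem_range_self t
  rcases this with ⟨s, hs⟩ | ⟨s, hs⟩
  · rw [← hs]; linarith [p1 s]
  · rw [← hs]; linarith [dist_triangle (q s) b.pt a.pt, q1 s]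

lemma Nr.shrink {a b : Cov h x₀} (hn : Nr σ a b) (hd : C₁ * dist a.pt b.pt ≤ σ) :
    Nr (C₁ * dist a.pt b.pt) a b := by
  obtain ⟨p, p1, p2⟩ := hn
  obtain ⟨q, hq⟩ := h.pc' ((le_mul_of_one_le_left dist_nonneg h.one_le).trans hd)
  exact ⟨q, hq, by rw [p2, Path.Homotopic.Quotient.eq.2 (h.sc _ _ p q p1 fun t => (hq t).trans hd)]⟩

lemma Nr.half {a b : Cov h x₀} (hn : Nr σ a b) (hd : dist a.pt b.pt < σ / (2 * C₁)) :
    Nr (σ / 2) a b := by
  have := h.one_le
  have := h.pos
  rw [lt_div_iff₀ (by positivity)] at hd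
  exact (hn.shrink (by linarith)).mono (by linarith)

open Classical in
/-- The truncated distance. -/
noncomputable def d (a b : Cov h x₀) : ℝ :=
  if dist a.pt b.pt < σ / (2 * C₁) ∧ Nr σ a b then dist a.pt b.pt else σ / (2 * C₁)

lemma d_le (a b : Cov h x₀) : d a b ≤ σ / (2 * C₁) := by
  unfold d; split_ifs with e
  exacts [e.1.le, le_rfl]

lemma d_nonneg (a b : Cov h x₀) : 0 ≤ d a b := by
  have := h.one_le
  have := h.pos
  unfold d; split_ifs
  exacts [dist_nonneg, by positivity]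

lemma of_d_lt {a b : Cov h x₀} (e : d a b < σ / (2 * C₁)) :
    dist a.pt b.pt = d a b ∧ Nr σ a b := by
  unfold d at e ⊢; split_ifs at e ⊢ with e'
  exacts [⟨rfl, e'.2⟩, absurd e (lt_irrefl _)]

lemma d_le_of_nr {a b : Cov h x₀} (e : Nr σ a b) : d a b ≤ dist a.pt b.pt := by
  unfold d; split_ifs with e'
  exacts [le_rfl, not_lt.1 fun e'' => e' ⟨e'', e⟩]

noncomputable instance : MetricSpace (Cov h x₀) where
  dist := d
  dist_self a := le_antisymm (by simpa using d_le_of_nr (Nr.refl h.pos.le a)) (d_nonneg _ _)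
  dist_comm a b := by
    have key : ∀ a b : Cov h x₀, d b a ≤ d a b := fun a b => by
      rcases (d_le a b).eq_or_lt with e | e
      · rw [e]; exact d_le _ _
      · obtain ⟨e1, e2⟩ := of_d_lt e
        rw [← e1, dist_comm]
        exact d_le_of_nr ((e2.half (e1 ▸ e)).symm.mono (by linarith))
    exact le_antisymm (key _ _) (key _ _)
  dist_triangle a b c := by
    rcases (d_le a b).eq_or_lt with e | e
    · linarith [d_le a c, d_nonneg b c]
    rcases (d_le b c).eq_or_lt with e' | e'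
    · linarith [d_le a c, d_nonneg a b]
    obtain ⟨e1, e2⟩ := of_d_lt e
    obtain ⟨e3, e4⟩ := of_d_lt e'
    linarith [d_le_of_nr (((e2.half (e1 ▸ e)).trans (e4.half (e3 ▸ e'))).mono (by linarith)),
      dist_triangle a.pt b.pt c.pt]
  eq_of_dist_eq_zero {a b} e := by
    have := h.one_le
    have := h.pos
    obtain ⟨e1, p, p1, p2⟩ := of_d_lt (a := a) (b := b) (by rw [show d a b = 0 from e]; positivity)
    rw [show d a b = 0 from e, dist_eq_zero] at e1
    obtain ⟨x, γ⟩ := a
    obtain ⟨y, γ'⟩ := b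
    obtain rfl : x = y := e1
    have := Path.Homotopic.Quotient.eq.2 (h.sc _ _ p (Path.refl _) p1 fun t => by simpa using h.pos.le)
    simp only [this, mk_refl, trans_refl] at p2
    rw [p2]

lemma dist_def (a b : Cov h x₀) : dist a b = d a b := rfl

lemma isCov : IsCov (Cov.pt : Cov h x₀ → M) (σ / (2 * C₁)) := by
  have := h.one_le
  have := h.pos
  refine ⟨by positivity, fun a b e => (of_d_lt e).1, fun a y e => ?_⟩
  have e' := e
  rw [lt_div_iff₀ (by positivity), dist_comm] at e'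
  obtain ⟨p, hp⟩ := h.pc' (y := a.pt) (y' := y) (by nlinarith [dist_nonneg (x := a.pt) (y := y)])
  refine ⟨⟨y, a.cls.trans (.mk p)⟩, rfl, ?_⟩
  rw [dist_comm, dist_comm y, dist_def, d, if_pos]
  exact ⟨by rwa [dist_comm], p, fun t => (hp t).trans (by linarith), rfl⟩

noncomputable instance : MulAction (FundamentalGroup M x₀) (Cov h x₀) where
  smul g a := ⟨a.pt, Path.Homotopic.Quotient.trans (g⁻¹ : FundamentalGroup M x₀) a.cls⟩
  one_smul a := by
    change (⟨a.pt, Path.Homotopic.Quotient.trans (1⁻¹ : FundamentalGroup M x₀) a.cls⟩ :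
      Cov h x₀) = a
    rw [inv_one, FundamentalGroup.one_def, refl_trans]
  mul_smul g g' a := by
    change (⟨a.pt, Path.Homotopic.Quotient.trans ((g * g')⁻¹ : FundamentalGroup M x₀) a.cls⟩ :
      Cov h x₀) = ⟨a.pt, Path.Homotopic.Quotient.trans (g⁻¹ : FundamentalGroup M x₀)
        (Path.Homotopic.Quotient.trans (g'⁻¹ : FundamentalGroup M x₀) a.cls)⟩
    rw [mul_inv_rev, FundamentalGroup.mul_def, trans_assoc]

lemma smul_def (g : FundamentalGroup M x₀) (a : Cov h x₀) :
    g • a = ⟨a.pt, Path.Homotopic.Quotient.trans (g⁻¹ : FundamentalGroup M x₀) a.cls⟩ := rfl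

lemma smul_pt (g : FundamentalGroup M x₀) (a : Cov h x₀) : (g • a).pt = a.pt := rfl

lemma Nr.smul {r : ℝ} {a b : Cov h x₀} (hn : Nr r a b) (g : FundamentalGroup M x₀) :
    Nr r (g • a) (g • b) := by
  obtain ⟨p, p1, p2⟩ := hn
  exact ⟨p, p1, by simp only [smul_def, p2, trans_assoc]⟩

lemma dist_smul (g : FundamentalGroup M x₀) (a b : Cov h x₀) :
    dist (g • a) (g • b) = dist a b := by
  have : Nr σ (g • a) (g • b) ↔ Nr σ a b := ⟨fun e => by simpa using e.smul g⁻¹, fun e => e.smul g⟩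
  rw [dist_def, dist_def, d, d]
  classical
  exact if_congr (and_congr Iff.rfl this) rfl rfl

lemma free (g : FundamentalGroup M x₀) (a : Cov h x₀) (e : g • a = a) : g = 1 := by
  have e1 : Path.Homotopic.Quotient.trans (g⁻¹ : FundamentalGroup M x₀) a.cls = a.cls :=
    eq_of_heq (Cov.ext_iff.1 e).2
  have e2 := congrArg (fun γ => γ.trans a.cls.symm) e1
  simp only [trans_assoc, trans_symm, trans_refl] at e2
  exact inv_eq_one.1 e2

lemma transitive (a b : Cov h x₀) (e : a.pt = b.pt) : ∃ g : FundamentalGroup M x₀, g • a = b := by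
  obtain ⟨x, γ⟩ := a
  obtain ⟨y, γ'⟩ := b
  obtain rfl : x = y := e
  refine ⟨(show FundamentalGroup M x₀ from γ'.trans γ.symm)⁻¹, ?_⟩
  simp [smul_def]

lemma reach {r : ℝ} (hr : 0 < r) {x y : M} (p : Path x y) (γ : Path.Homotopic.Quotient x₀ x) :
    ∃ R, Reach r R (⟨x, γ⟩ : Cov h x₀) ⟨y, γ.trans (.mk p)⟩ := by
  obtain ⟨f, rfl, rfl⟩ := p
  set p : Path (f 0) (f 1) := ⟨f, rfl, rfl⟩
  obtain ⟨η, h1, h2⟩ := Metric.uniformContinuous_iff_le.1
    (CompactSpace.uniformContinuous_of_continuous p.continuous) (min r σ) (lt_min hr h.pos)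
  obtain ⟨n, hn⟩ := exists_nat_one_div_lt h1
  set c : unitInterval → Cov h x₀ := fun t => ⟨p t, γ.trans (.mk (p.subpath 0 t))⟩ with hc
  refine ⟨n + 1, fun i => c (tick (n + 1) i), ?_, ?_, fun i _ => ?_⟩
  · simp only [tick_zero, hc, Path.subpath_self]
    exact congrArg _ (trans_refl γ)
  · have : p.subpath 0 1 = p := by rw [Path.subpath_zero_one]; rfl
    simp only [tick_self (Nat.le_add_left 1 n), hc, this]
    rfl
  · have e1 : dist (tick (n + 1) (i + 1)) (tick (n + 1) i) ≤ η :=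
      (dist_tick _ _).trans (by push_cast; exact hn.le)
    rw [dist_comm, dist_def]
    refine (d_le_of_nr ⟨p.subpath _ _, fun t => ?_, ?_⟩).trans ?_
    · obtain ⟨s, s1, s2⟩ : p.subpath (tick (n + 1) i) (tick (n + 1) (i + 1)) t ∈
          p '' Set.uIcc (tick (n + 1) i) (tick (n + 1) (i + 1)) :=
        p.range_subpath _ _ ▸ Set.mem_range_self t
      rw [← s2]
      refine (h2 (le_trans ?_ e1)).trans (min_le_right _ _)
      rw [dist_comm, dist_comm (tick _ (i + 1))]
      exact Real.dist_left_le_of_mem_uIcc (x := (tick (n + 1) i : ℝ)) (y := s)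
        (z := (tick (n + 1) (i + 1) : ℝ)) s1
    · have := Path.Homotopic.Quotient.eq.2
        ⟨Path.Homotopy.subpathTransSubpath p 0 (tick (n + 1) i) (tick (n + 1) (i + 1))⟩
      rw [mk_trans] at this
      exact (congrArg γ.trans this.symm).trans (trans_assoc _ _ _).symm
    · rw [dist_comm]
      exact (h2 e1).trans (min_le_left _ _)

variable (g : M ≃ₜ M)

lemma map_trans {x y z : M} (f : C(M, M)) (p : Path.Homotopic.Quotient x y)
    (q : Path.Homotopic.Quotient y z) : (p.trans q).map f = (p.map f).trans (q.map f) :=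
  (FundamentalGroupoid.map f).map_comp (X := ⟨x⟩) (Y := ⟨y⟩) (Z := ⟨z⟩) p q

lemma map_bijective (x y : M) :
    Function.Bijective fun p : Path.Homotopic.Quotient x y => p.map (g : C(M, M)) := by
  constructor
  · intro p q e
    induction p using Path.Homotopic.Quotient.ind with | mk p => ?_
    induction q using Path.Homotopic.Quotient.ind with | mk q => ?_
    simp only [← mk_map, Path.Homotopic.Quotient.eq] at e ⊢
    have := (e.map (g.symm : C(M, M))).pathCast (g.symm_apply_apply x).symm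
      (g.symm_apply_apply y).symm
    convert this <;> ext t <;> simp
  · intro p
    induction p using Path.Homotopic.Quotient.ind with | mk p => ?_
    refine ⟨.mk ((p.map g.symm.continuous).cast (g.symm_apply_apply x).symm
      (g.symm_apply_apply y).symm), ?_⟩
    simp only [← mk_map]
    congr 1
    ext t
    simp

variable (τ : Path.Homotopic.Quotient x₀ (g x₀))

/-- The lift of a homeomorphism. -/
noncomputable def liftFun (a : Cov h x₀) : Cov h x₀ :=
  ⟨g a.pt, τ.trans (a.cls.map (g : C(M, M)))⟩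

lemma liftFun_bijective : Function.Bijective (liftFun g τ : Cov h x₀ → Cov h x₀) := by
  constructor
  · rintro ⟨x, γ⟩ ⟨y, γ'⟩ e
    obtain rfl : x = y := g.injective (congrArg Cov.pt e)
    have e1 : τ.trans (γ.map (g : C(M, M))) = τ.trans (γ'.map (g : C(M, M))) :=
      eq_of_heq (Cov.ext_iff.1 e).2
    have e2 := congrArg (fun γ => τ.symm.trans γ) e1
    simp only [← trans_assoc, symm_trans, refl_trans] at e2
    rw [(map_bijective g x₀ x).1 e2]
  · rintro ⟨y, γ⟩
    obtain ⟨x, rfl⟩ := g.surjective y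
    obtain ⟨γ', e⟩ := (map_bijective g x₀ x).2 (τ.symm.trans γ)
    refine ⟨⟨x, γ'⟩, ?_⟩
    simp only at e
    simp only [liftFun, e, ← trans_assoc, trans_symm, refl_trans]

lemma Nr.liftFun {r r' : ℝ} (hg : ∀ x y, dist x y ≤ r → dist (g x) (g y) ≤ r') {a b : Cov h x₀}
    (hn : Nr r a b) : Nr r' (liftFun g τ a) (liftFun g τ b) := by
  obtain ⟨p, p1, p2⟩ := hn
  refine ⟨p.map g.continuous, fun t => hg _ _ (p1 t), ?_⟩
  simp only [Cov.liftFun, p2, map_trans, trans_assoc]
  rfl

theorem lift_near [CompactSpace M] : ∃ ρ₁, 0 < ρ₁ ∧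
    (∀ a b : Cov h x₀, dist a b ≤ ρ₁ → dist (liftFun g τ a) (liftFun g τ b) < σ / (2 * C₁)) ∧
    ∀ a b : Cov h x₀, dist (liftFun g τ a) (liftFun g τ b) ≤ ρ₁ → dist a b < σ / (2 * C₁) := by
  have h1 := h.one_le
  have h2 := h.pos
  have h3 : σ / (3 * C₁) < σ / (2 * C₁) := by gcongr; norm_num
  have h4 : σ / (2 * C₁) ≤ σ := div_le_self h2.le (by linarith)
  obtain ⟨η, e1, e2⟩ := Metric.uniformContinuous_iff_le.1
    (CompactSpace.uniformContinuous_of_continuous g.continuous) (σ / (3 * C₁)) (by positivity)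
  obtain ⟨η', e3, e4⟩ := Metric.uniformContinuous_iff_le.1
    (CompactSpace.uniformContinuous_of_continuous g.symm.continuous)
    (min (η / C₁) (σ / (3 * C₁))) (by positivity)
  have key : ∀ a b : Cov h x₀, dist a b ≤ min (η / C₁) (σ / (3 * C₁)) →
      dist (liftFun g τ a) (liftFun g τ b) ≤ σ / (3 * C₁) := by
    intro a b hab
    obtain ⟨f1, f2⟩ := le_min_iff.1 hab
    obtain ⟨f3, f4⟩ := of_d_lt (f2.trans_lt h3)
    rw [le_div_iff₀ (by positivity), dist_def, ← f3] at f1 f2
    have f5 := (f4.shrink (by nlinarith [dist_nonneg (x := a.pt) (y := b.pt)])).mono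
      (show _ ≤ η by linarith)
    have f6 := f5.liftFun g τ fun x y => @e2 x y
    refine (d_le_of_nr (f6.mono (by linarith))).trans ?_
    rw [dist_comm]
    exact f6.dist_le
  refine ⟨min (min (η / C₁) (σ / (3 * C₁))) (min η' (σ / (7 * C₁))), by positivity,
    fun a b hab => (key a b (hab.trans (min_le_left _ _))).trans_lt h3, fun a b hab => ?_⟩
  obtain ⟨f1, f2⟩ := le_min_iff.1 (hab.trans (min_le_right _ _))
  have h5 : σ / (7 * C₁) + σ / (3 * C₁) < σ / (2 * C₁) := by
    rw [div_add_div _ _ (by positivity) (by positivity), div_lt_div_iff₀ (by positivity)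
      (by positivity)]
    nlinarith [mul_pos h2 (mul_pos (show 0 < C₁ by linarith) (show 0 < C₁ by linarith))]
  have h6 : 0 < σ / (3 * C₁) := by positivity
  have f3 := isCov.dist_eq _ _ (show dist (liftFun g τ a) (liftFun g τ b) < _ by linarith)
  have f4 : dist a.pt b.pt ≤ min (η / C₁) (σ / (3 * C₁)) := by
    simpa only [liftFun, g.symm_apply_apply] using e4 (f3.le.trans f1)
  obtain ⟨b', b1, b2⟩ := isCov.lift a b.pt (by
    rw [dist_comm]; exact (f4.trans (min_le_right _ _)).trans_lt h3)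
  have f5 := key b' a (by rw [b2, dist_comm]; exact f4)
  have f6 : liftFun g τ b' = liftFun g τ b := isCov.eq (by
    linarith [dist_triangle (liftFun g τ b') (liftFun g τ a) (liftFun g τ b)])
    (congrArg g b1)
  rw [← (liftFun_bijective g τ).1 f6, dist_comm, b2, dist_comm]
  exact (f4.trans (min_le_right _ _)).trans_lt h3

end Cov

theorem Loc.virtNilp [CompactSpace M] [PathConnectedSpace M] (h : Loc M σ C₁) (g : M ≃ₜ M)
    {a b Λ Λ' : ℝ} (hg : Hyp (g.toEquiv : Equiv.Perm M) a b Λ Λ') {N : ℕ} (hN : ∀ r, Box M r N)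
    {x y : ℕ} (hs : Λ' ^ x * a ^ (x + y) < 1) (hu : Λ ^ y * b ^ (x + y) < 1) (x₀ : M) :
    Group.IsVirtuallyNilpotent (FundamentalGroup M x₀) := by
  set τ : Path.Homotopic.Quotient x₀ (g x₀) := .mk (PathConnectedSpace.somePath _ _)
  obtain ⟨ρ₁, e1, e2, e3⟩ := Cov.lift_near (h := h) g τ
  refine Cov.isCov.virtNilp (G := Equiv.ofBijective _ (Cov.liftFun_bijective g τ)) Cov.dist_smul
    Cov.smul_pt Cov.free Cov.transitive
    (fun y => ⟨⟨y, .mk (PathConnectedSpace.somePath _ _)⟩, rfl⟩) ⟨x₀, .refl _⟩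
    (fun r hr a => ?_) (fun p => rfl) e1 e2 (fun p q hpq => e3 _ _ ?_) hg h.pos h.one_le
    h.interp hN hs hu
  · obtain ⟨p, hp⟩ := Path.Homotopic.Quotient.mk_surjective a.cls
    simpa [hp] using Cov.reach (h := h) hr p (.refl _)
  · have := (Equiv.ofBijective _ (Cov.liftFun_bijective (h := h) g τ)).apply_symm_apply
    simp only [Equiv.ofBijective_apply] at this
    rwa [Equiv.Perm.inv_def, this, this]

end Pool.Agent.P.MP_5c499f_an
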