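import Pool.Agent.P.MP_5c499f_an.Rect
import Pool.Agent.Lib.Gromov.Main

/-! Transfer of the local structure to a covering space, and growth of the deck group. -/

set_option autoImplicit false

namespace Pool.Agent.P.MP_5c499f_an

open Pool.Agent.Lib.Gromov

variable {M Y : Type*} [MetricSpace M] [MetricSpace Y]

/-- `π` is a local isometry with uniform lifting radius. -/
structure IsCov (π : Y → M) (ρ₀ : ℝ) : Prop where
  pos : 0 < ρ₀
  dist_eq : ∀ a b, dist a b < ρ₀ → dist (π a) (π b) = dist a b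
  lift : ∀ a y, dist y (π a) < ρ₀ → ∃ b, π b = y ∧ dist b a = dist y (π a)

/-- Hyperbolicity data with one-step constants. -/
structure Hyp (F : Equiv.Perm M) (a b Λ Λ' : ℝ) : Prop where
  one_le : 1 ≤ Λ
  one_le' : 1 ≤ Λ'
  lh : ∀ ε₁, 0 < ε₁ → ∃ ε δ C, ε ≤ ε₁ ∧ LH F ε δ C a b
  lip : ∃ ρ, 0 < ρ ∧ (∀ x y, dist x y ≤ ρ → dist (F x) (F y) ≤ Λ * dist x y) ∧
    ∀ x y, dist x y ≤ ρ → dist (F⁻¹ x) (F⁻¹ y) ≤ Λ' * dist x y

/-- Interpolation of short steps inside small balls. -/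
def Interp (M : Type*) [MetricSpace M] (σ C₁ : ℝ) : Prop :=
  ∀ p q : M, dist p q ≤ σ → ∀ n : ℕ, 1 ≤ n → ∃ c : ℕ → M, c 0 = p ∧ c n = q ∧
    (∀ i, dist (c i) p ≤ C₁ * dist p q) ∧ ∀ i, dist (c (i + 1)) (c i) ≤ C₁ * dist p q / n

variable {π : Y → M} {ρ₀ ρ₁ : ℝ} {F : Equiv.Perm M} {G : Equiv.Perm Y}

omit [MetricSpace M] [MetricSpace Y] in
lemma semiconj_zpow (hG : ∀ p, π (G p) = F (π p)) (k : ℤ) (p : Y) :
    π ((G ^ k) p) = (F ^ k) (π p) := by
  have hG' : ∀ p, π (G⁻¹ p) = F⁻¹ (π p) := fun p => by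
    rw [Equiv.Perm.eq_inv_iff_eq, ← hG]; simp
  induction k using Int.induction_on with
  | zero => simp
  | succ k ih => rw [add_comm, zpow_one_add, zpow_one_add, Equiv.Perm.mul_apply,
      Equiv.Perm.mul_apply, hG, ih]
  | pred k ih => rw [sub_eq_neg_add, zpow_add, zpow_add, Equiv.Perm.mul_apply,
      Equiv.Perm.mul_apply, zpow_neg_one, zpow_neg_one, hG', ih]

lemma IsCov.eq (hc : IsCov π ρ₀) {a b : Y} (h : dist a b < ρ₀) (h' : π a = π b) : a = b := by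
  rw [← dist_eq_zero, ← hc.dist_eq a b h, h', dist_self]

lemma IsCov.lh (hc : IsCov π ρ₀) (hG : ∀ p, π (G p) = F (π p))
    (h1 : ∀ p q, dist p q ≤ ρ₁ → dist (G p) (G q) < ρ₀)
    (h2 : ∀ p q, dist p q ≤ ρ₁ → dist (G⁻¹ p) (G⁻¹ q) < ρ₀) {ε δ C a b : ℝ}
    (h : LH F ε δ C a b) (e1 : ε ≤ ρ₁) (e2 : 4 * ε < ρ₀) : LH G ε δ C a b := by
  have hδ := h.δ_le
  have hδ0 := h.δ_pos
  refine ⟨h.δ_pos, h.δ_le, h.C_nonneg, h.a_nonneg, h.a_lt, h.b_nonneg, h.b_lt,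
    fun x y hxy => ?_, fun x y hxy k => ?_, fun x y hxy k => ?_⟩
  · obtain ⟨z, z1, z2⟩ := h.br (π x) (π y) (by rwa [hc.dist_eq _ _ (by linarith)])
    have z3 : dist z (π x) ≤ ε := by simpa using z1 0 le_rfl
    have z4 : dist z (π y) ≤ ε := by simpa using z2 0 le_rfl
    obtain ⟨w, rfl, w2⟩ := hc.lift x z (by linarith)
    refine ⟨w, fun k hk => ?_, fun k hk => ?_⟩
    · induction k, hk using Int.leInduction with
      | base => simpa [w2]
      | succ k hk ih =>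
        have := h1 _ _ (ih.trans e1)
        rw [← Equiv.Perm.mul_apply, ← Equiv.Perm.mul_apply, ← zpow_one_add, add_comm] at this
        rw [← hc.dist_eq _ _ this, semiconj_zpow hG, semiconj_zpow hG]
        exact z1 _ (by omega)
    · induction k, hk using Int.leInductionDown with
      | base =>
        have : dist w y < ρ₀ := by linarith [dist_triangle w x y]
        simpa [← hc.dist_eq _ _ this]
      | pred k hk ih =>
        have := h2 _ _ (ih.trans e1)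
        rw [← Equiv.Perm.mul_apply, ← Equiv.Perm.mul_apply, ← zpow_neg_one, ← zpow_add,
          neg_add_eq_sub] at this
        rw [← hc.dist_eq _ _ this, semiconj_zpow hG, semiconj_zpow hG]
        exact z2 _ (by omega)
  · have : ∀ k : ℤ, 0 ≤ k → dist ((F ^ k) (π x)) ((F ^ k) (π y)) = dist ((G ^ k) x) ((G ^ k) y) :=
      fun k hk => by
        rw [← semiconj_zpow hG, ← semiconj_zpow hG, hc.dist_eq _ _ ((hxy k hk).trans_lt e2)]
    rw [← this k (by omega)]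
    exact h.cs _ _ (fun k hk => by rw [this k hk]; exact hxy k hk) k
  · have : ∀ k : ℤ, k ≤ 0 → dist ((F ^ k) (π x)) ((F ^ k) (π y)) = dist ((G ^ k) x) ((G ^ k) y) :=
      fun k hk => by
        rw [← semiconj_zpow hG, ← semiconj_zpow hG, hc.dist_eq _ _ ((hxy k hk).trans_lt e2)]
    rw [← this (-k) (by omega)]
    exact h.cu _ _ (fun k hk => by rw [this k hk]; exact hxy k hk) k

lemma IsCov.interp (hc : IsCov π ρ₀) {σ C₁ ρ : ℝ} (h : Interp M σ C₁) (hC : 1 ≤ C₁)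
    (e1 : ρ ≤ σ) (e2 : 2 * (C₁ * ρ) < ρ₀) : Interp Y ρ C₁ := by
  intro p q hpq n hn
  have hρ : 0 ≤ ρ := dist_nonneg.trans hpq
  have e3 : ρ ≤ C₁ * ρ := le_mul_of_one_le_left hρ hC
  have e4 := hc.dist_eq p q (by linarith)
  obtain ⟨c, c0, c1, c2, c3⟩ := h (π p) (π q) (by linarith) n hn
  rw [e4] at c2 c3
  have e5 : C₁ * dist p q ≤ C₁ * ρ := by gcongr
  choose d d1 d2 using fun i => hc.lift p (c i) (by linarith [c2 i])
  refine ⟨d, ?_, hc.eq ?_ (by rw [d1, c1]), fun i => by rw [d2]; exact c2 i, fun i => ?_⟩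
  · rw [← dist_eq_zero, d2, c0, dist_self]
  · linarith [dist_triangle (d n) p q, d2 n, c2 n]
  · rw [← hc.dist_eq, d1, d1]
    · exact c3 i
    · linarith [dist_triangle_right (d (i + 1)) (d i) p, d2 i, d2 (i + 1), c2 i, c2 (i + 1)]

lemma Interp.geo {σ C₁ ρ Λ Λ' : ℝ} (h : Interp M σ C₁) (hC : 0 ≤ C₁) (hρ : 0 ≤ ρ) (e : ρ ≤ σ)
    (h1 : 1 ≤ Λ) (h2 : 1 ≤ Λ') (h3 : ∀ x y, dist x y ≤ ρ → dist (F x) (F y) ≤ Λ * dist x y)
    (h4 : ∀ x y, dist x y ≤ ρ → dist (F⁻¹ x) (F⁻¹ y) ≤ Λ' * dist x y) :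
    Geo F ρ Λ Λ' (C₁ * ρ) := by
  refine ⟨h1, h2, by positivity, h3, h4, fun p q hpq n hn => ?_⟩
  obtain ⟨c, c0, c1, -, c3⟩ := h p q (hpq.trans e) n hn
  exact ⟨c, c0, c1, fun i _ => (c3 i).trans (by gcongr)⟩

lemma IsCov.box (hc : IsCov π ρ₀) {N : ℕ} {r : ℝ} (hr : 3 * r ≤ ρ₀) (hN : Box M (2 * r) N) :
    Box Y r (N + 1) := by
  classical
  intro p k
  rcases le_or_gt r ((1 / 2) ^ k) with hk | hk
  · exact ⟨{p}, by simpa using Nat.one_le_pow _ _ (by omega),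
      fun z hz => ⟨p, by simp, hz.trans hk⟩⟩
  have hr0 : 0 < r := lt_trans (by positivity) hk
  obtain ⟨T, T1, T2⟩ := hN (π p) k
  have : ∀ τ, ∃ b, dist τ (π p) < ρ₀ → π b = τ ∧ dist b p = dist τ (π p) := fun τ => by
    by_cases h : dist τ (π p) < ρ₀
    · obtain ⟨b, hb⟩ := hc.lift p τ h
      exact ⟨b, fun _ => hb⟩
    · exact ⟨p, fun h' => absurd h' h⟩
  choose l hl using this
  refine ⟨T.image l, Finset.card_image_le.trans (T1.trans (by gcongr; omega)), fun z hz => ?_⟩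
  have e1 := hc.dist_eq z p (by linarith)
  obtain ⟨τ, t1, t2⟩ := T2 (π z) (by linarith)
  have e2 : dist τ (π p) < 2 * r := by linarith [dist_triangle_left τ (π p) (π z)]
  obtain ⟨l1, l2⟩ := hl τ (by linarith)
  refine ⟨l τ, Finset.mem_image_of_mem _ t1, ?_⟩
  rwa [← hc.dist_eq _ _ (by linarith [dist_triangle_right z (l τ) p]), l1]

variable {Γ : Type*} [Group Γ] [MulAction Γ Y]

lemma Reach.smul (hiso : ∀ (g : Γ) (a b : Y), dist (g • a) (g • b) = dist a b) {r : ℝ} {R : ℕ}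
    {p q : Y} (h : Reach r R p q) (g : Γ) : Reach r R (g • p) (g • q) := by
  obtain ⟨c, c0, c1, c2⟩ := h
  exact ⟨fun i => g • c i, by simp [c0], by simp [c1], fun i hi => by rw [hiso]; exact c2 i hi⟩

theorem IsCov.fg [CompactSpace M] (hc : IsCov π ρ₀)
    (hiso : ∀ (g : Γ) (a b : Y), dist (g • a) (g • b) = dist a b)
    (hπ : ∀ (g : Γ) (a : Y), π (g • a) = π a) (hfree : ∀ (g : Γ) (a : Y), g • a = a → g = 1)
    (htr : ∀ a b : Y, π a = π b → ∃ g : Γ, g • a = b) (hsurj : Function.Surjective π) (o : Y)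
    (hconn : ∀ r, 0 < r → ∀ a, ∃ R, Reach r R o a) :
    ∃ S : Set Γ, S.Finite ∧ Subgroup.closure S = ⊤ := by
  have hρ := hc.pos
  obtain ⟨T, -, T1, T2⟩ := finite_cover_balls_of_compact (isCompact_univ (X := M))
    (show 0 < ρ₀ / 7 by linarith)
  set T' : Set Y := insert o (Function.surjInv hsurj '' T)
  have hT' : T'.Finite := (T1.image _).insert o
  have hnet : ∀ a, ∃ g : Γ, ∃ τ ∈ T', dist a (g • τ) ≤ ρ₀ / 7 := fun a => by
    obtain ⟨τ, t1, t2⟩ := Set.mem_iUnion₂.1 (T2 (Set.mem_univ (π a)))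
    rw [Metric.mem_ball, dist_comm] at t2
    obtain ⟨b, b1, b2⟩ := hc.lift a τ (by linarith)
    obtain ⟨g, rfl⟩ := htr (Function.surjInv hsurj τ) b (by rw [Function.surjInv_eq hsurj, b1])
    exact ⟨g, _, Or.inr ⟨τ, t1, rfl⟩, by rw [dist_comm]; linarith⟩
  set S : Set Γ := ⋃ τ ∈ T', ⋃ τ' ∈ T', {g | dist τ (g • τ') ≤ 3 * (ρ₀ / 7)}
  refine ⟨S, hT'.biUnion fun τ _ => hT'.biUnion fun τ' _ => Set.Subsingleton.finite ?_, ?_⟩
  · intro g hg g' hg'
    have e1 : g • τ' = g' • τ' := hc.eq (by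
      linarith [dist_triangle_left (g • τ') (g' • τ') τ, show dist τ (g • τ') ≤ _ from hg,
        show dist τ (g' • τ') ≤ _ from hg']) (by rw [hπ, hπ])
    have := hfree (g'⁻¹ * g) τ' (by rw [mul_smul, e1, inv_smul_smul])
    exact (inv_mul_eq_one.1 this).symm
  have key : ∀ R a, Reach (ρ₀ / 7) R o a → ∀ g : Γ, ∀ τ ∈ T', dist a (g • τ) ≤ ρ₀ / 7 →
      g ∈ Subgroup.closure S := by
    intro R
    induction R with
    | zero =>
      intro a ha g τ hτ h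
      rw [← ha.zero] at h
      exact Subgroup.subset_closure (Set.mem_biUnion (Set.mem_insert _ _)
        (Set.mem_biUnion hτ (show dist o _ ≤ _ by linarith)))
    | succ R ih =>
      intro a ha g τ hτ h
      obtain ⟨w, w1, w2⟩ := ha.succ
      obtain ⟨g', τ', t1, t2⟩ := hnet w
      have e1 : g'⁻¹ * g ∈ Subgroup.closure S := by
        refine Subgroup.subset_closure (Set.mem_biUnion t1 (Set.mem_biUnion hτ ?_))
        show dist τ' _ ≤ _
        rw [← hiso g', mul_smul, smul_inv_smul]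
        linarith [dist_triangle4 (g' • τ') w a (g • τ), dist_comm w (g' • τ'), dist_comm w a]
      simpa using Subgroup.mul_mem _ (ih w w1 g' τ' t1 t2) e1
  refine eq_top_iff.2 fun g _ => ?_
  obtain ⟨R, hR⟩ := hconn (ρ₀ / 7) (by linarith) (g • o)
  exact key R _ hR g o (Set.mem_insert _ _) (by simp; linarith)

theorem IsCov.virtNilp [CompactSpace M] (hc : IsCov π ρ₀)
    (hiso : ∀ (g : Γ) (a b : Y), dist (g • a) (g • b) = dist a b)
    (hπ : ∀ (g : Γ) (a : Y), π (g • a) = π a) (hfree : ∀ (g : Γ) (a : Y), g • a = a → g = 1)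
    (htr : ∀ a b : Y, π a = π b → ∃ g : Γ, g • a = b) (hsurj : Function.Surjective π) (o : Y)
    (hconn : ∀ r, 0 < r → ∀ a, ∃ R, Reach r R o a) (hG : ∀ p, π (G p) = F (π p)) (hρ₁ : 0 < ρ₁)
    (h1 : ∀ p q, dist p q ≤ ρ₁ → dist (G p) (G q) < ρ₀)
    (h2 : ∀ p q, dist p q ≤ ρ₁ → dist (G⁻¹ p) (G⁻¹ q) < ρ₀) {a b Λ Λ' σ C₁ : ℝ}
    (h : Hyp F a b Λ Λ') (hσ : 0 < σ) (hC : 1 ≤ C₁) (hI : Interp M σ C₁) {N : ℕ}
    (hN : ∀ r, Box M r N) {x y : ℕ} (hs : Λ' ^ x * a ^ (x + y) < 1)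
    (hu : Λ ^ y * b ^ (x + y) < 1) : Group.IsVirtuallyNilpotent Γ := by
  have hρ₀ := hc.pos
  obtain ⟨S₀, S1, S2⟩ := hc.fg hiso hπ hfree htr hsurj o hconn
  obtain ⟨ρ', r0, r1, r2⟩ := h.lip
  obtain ⟨ρ, p0, p1, p2, p3, p4⟩ : ∃ ρ, 0 < ρ ∧ ρ ≤ ρ' ∧ ρ ≤ σ ∧ ρ ≤ ρ₁ ∧ 2 * (C₁ * ρ) < ρ₀ := by
    refine ⟨min (min ρ' σ) (min ρ₁ (ρ₀ / (3 * C₁))), by positivity, by simp, by simp, by simp, ?_⟩
    have : min (min ρ' σ) (min ρ₁ (ρ₀ / (3 * C₁))) ≤ ρ₀ / (3 * C₁) := by simp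
    rw [le_div_iff₀ (by positivity)] at this
    nlinarith [show 0 < min (min ρ' σ) (min ρ₁ (ρ₀ / (3 * C₁))) by positivity]
  have p5 : ρ ≤ C₁ * ρ := le_mul_of_one_le_left p0.le hC
  obtain ⟨ε, δ, C, e1, hl⟩ := h.lh (ρ / 6) (by linarith)
  have hδ := hl.δ_le
  have hδ0 := hl.δ_pos
  have hl' : LH G ε δ C a b := hc.lh hG h1 h2 hl (by linarith) (by linarith)
  have hG' : ∀ p, π (G⁻¹ p) = F⁻¹ (π p) := fun p => by simpa using semiconj_zpow hG (-1) p
  have hg : Geo G ρ Λ Λ' (C₁ * ρ) := (hc.interp hI hC p2 p4).geo (by linarith) p0.le le_rfl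
    h.one_le h.one_le' (fun p q hpq => by
      rw [← hc.dist_eq _ _ (h1 p q (by linarith)), hG, hG, ← hc.dist_eq p q (by linarith)]
      exact r1 _ _ (by rw [hc.dist_eq p q (by linarith)]; linarith)) (fun p q hpq => by
      rw [← hc.dist_eq _ _ (h2 p q (by linarith)), hG', hG', ← hc.dist_eq p q (by linarith)]
      exact r2 _ _ (by rw [hc.dist_eq p q (by linarith)]; linarith))
  obtain ⟨D, hD⟩ := hl'.poly hg (by linarith) hs hu (hc.box (r := 2 * δ) (by linarith) (hN _))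
  refine gromov (d := D) S1 S2 fun S hS => ?_
  choose R hR using fun g : Γ => hconn ρ p0 (g • o)
  obtain ⟨L, hL⟩ := (hS.image R).bddAbove
  obtain ⟨K, hK⟩ := hD L
  have key : ∀ n, ∀ w ∈ W S n, Reach ρ (L * n) o (w • o) := by
    intro n
    induction n with
    | zero => intro w hw; rw [W_zero hw, one_smul]; exact Reach.refl _ _
    | succ n ih =>
      intro w hw
      rcases W_succ hw with e | ⟨s, s1, w, w1, rfl⟩
      · exact (ih w e).mono p0.le (Nat.mul_le_mul_left _ (Nat.le_succ n))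
      · rw [mul_smul, mul_add, mul_one, add_comm]
        exact ((hR s).mono p0.le (hL ⟨s, s1, rfl⟩)).trans ((ih w w1).smul hiso s)
  refine ⟨K, fun j => ⟨2 ^ j, Nat.lt_two_pow_self.le, ?_⟩⟩
  have hinj : Function.Injective fun g : Γ => g • o := fun g g' e => by
    have := hfree (g'⁻¹ * g) o (by rw [mul_smul, show g • o = g' • o from e, inv_smul_smul])
    exact (inv_mul_eq_one.1 this).symm
  have := (hK j o ((fun g : Γ => g • o) '' W S (2 ^ j)) ?_ ?_).2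
  · rw [Set.ncard_image_of_injective _ hinj] at this
    exact this.trans (by gcongr; omega)
  · rintro _ ⟨g, -, rfl⟩ _ ⟨g', -, rfl⟩ e
    exact hc.eq (by linarith) (by rw [hπ, hπ])
  · rintro _ ⟨g, hg, rfl⟩
    exact key _ g hg

end Pool.Agent.P.MP_5c499f_an
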