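import Mathlib

/-! Anosov maps with prescribed growth rates. -/

set_option autoImplicit false

namespace Pool.Agent.P.MP_5c499f_an

open Bundle
open scoped Manifold ContDiff

/-- `f` is Anosov with rates `r₁, r₂` on the stable bundle and `r₃, r₄` on the unstable bundle.
The continuous invariant splitting `TM = Eˢ ⊕ Eᵘ` is encoded by the family `P` of projections
onto `Eᵘ` along `Eˢ`: the stable space is the kernel of `P x`, the unstable space is the set of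
vectors fixed by `P x`. Norms are those of the Riemannian metric. -/
def AnosovRates (E : Type*) [NormedAddCommGroup E] [NormedSpace ℝ E] {M : Type*}
    [TopologicalSpace M] [ChartedSpace E M] [IsManifold 𝓘(ℝ, E) 1 M]
    [RiemannianBundle fun x : M => TangentSpace 𝓘(ℝ, E) x] (f : M → M) (r₁ r₂ r₃ r₄ : ℝ) : Prop :=
  ∃ (P : ∀ x : M, TangentSpace 𝓘(ℝ, E) x →L[ℝ] TangentSpace 𝓘(ℝ, E) x) (C : ℝ), 0 < C ∧
    Continuous (fun p : TangentBundle 𝓘(ℝ, E) M => (⟨p.1, P p.1 p.2⟩ : TangentBundle 𝓘(ℝ, E) M)) ∧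
    (∀ x v, P x (P x v) = P x v) ∧
    (∀ x v, mfderiv 𝓘(ℝ, E) 𝓘(ℝ, E) f x (P x v) = P (f x) (mfderiv 𝓘(ℝ, E) 𝓘(ℝ, E) f x v)) ∧
    ∀ (x : M) (n : ℕ) (v : TangentSpace 𝓘(ℝ, E) x),
      (P x v = 0 → C⁻¹ * r₁ ^ n * ‖v‖ ≤ ‖mfderiv 𝓘(ℝ, E) 𝓘(ℝ, E) f^[n] x v‖ ∧
        ‖mfderiv 𝓘(ℝ, E) 𝓘(ℝ, E) f^[n] x v‖ ≤ C * r₂ ^ n * ‖v‖) ∧
      (P x v = v → C⁻¹ * r₃ ^ n * ‖v‖ ≤ ‖mfderiv 𝓘(ℝ, E) 𝓘(ℝ, E) f^[n] x v‖ ∧
        ‖mfderiv 𝓘(ℝ, E) 𝓘(ℝ, E) f^[n] x v‖ ≤ C * r₄ ^ n * ‖v‖)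

/-- The semidirect product `N ⋊ Aut(N)`; the element `(a, A)` acts on `N` by `n ↦ a * A n`.
Here `Aut(N)` consists of all group automorphisms, smoothness is imposed separately. -/
abbrev AffGp (N : Type) [Group N] : Type := N ⋊[MonoidHom.id (MulAut N)] MulAut N

/-- The orbit space of a group of affine maps of `N`, with the quotient topology. -/
abbrev OrbitSp {N : Type} [Group N] (Γ : Subgroup (AffGp N)) : Type :=
  Quot fun n n' : N => ∃ γ ∈ Γ, n = γ.left * γ.right n'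

section Infranil

variable (V : Type) [NormedAddCommGroup V] [NormedSpace ℝ V] (N : Type) [Group N]
  [TopologicalSpace N] [ChartedSpace V N]

/-- `N` is a connected, simply connected nilpotent Lie group modelled on `V`. -/
def NilLie : Prop :=
  LieGroup 𝓘(ℝ, V) ∞ N ∧ T2Space N ∧ SecondCountableTopology N ∧ ConnectedSpace N ∧
    SimplyConnectedSpace N ∧ Group.IsNilpotent N

variable {N}

/-- `Γ` is a torsion-free discrete subgroup of `N ⋊ C` with compact quotient, for a finite group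
`C` of smooth automorphisms of `N`. -/
def InfraLattice (Γ : Subgroup (AffGp N)) : Prop :=
  ∃ C : Subgroup (MulAut N), Finite C ∧ (∀ A ∈ C, ContMDiff 𝓘(ℝ, V) 𝓘(ℝ, V) ∞ A) ∧
    (∀ γ ∈ Γ, γ.right ∈ C) ∧ (∀ γ ∈ Γ, IsOfFinOrder γ → γ = 1) ∧
    (∀ K : Set N, IsCompact K → {γ | γ ∈ Γ ∧ γ.left ∈ K}.Finite) ∧ CompactSpace (OrbitSp Γ)

/-- The differential of an automorphism at the identity, read in the chart at the identity. -/
noncomputable def diffOne (A : MulAut N) : V →L[ℝ] V := mfderiv 𝓘(ℝ, V) 𝓘(ℝ, V) A 1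

variable [FiniteDimensional ℝ V]

/-- `A` is a smooth automorphism with smooth inverse whose differential at the identity has no
complex eigenvalue of modulus one. -/
def HypAut (A : MulAut N) : Prop :=
  ContMDiff 𝓘(ℝ, V) 𝓘(ℝ, V) ∞ A ∧ ContMDiff 𝓘(ℝ, V) 𝓘(ℝ, V) ∞ A.symm ∧
    ∀ z : ℂ, ‖z‖ = 1 → Polynomial.aeval z (diffOne V A).toLinearMap.charpoly ≠ 0

variable (N)

/-- `f` is topologically conjugate to the map induced on an infranilmanifold quotient of `N` by an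
affine map `α = (a, A)` normalizing `Γ`, with `A` hyperbolic. -/
def ConjOn {M : Type*} [TopologicalSpace M] (f : M → M) : Prop :=
  ∃ (Γ : Subgroup (AffGp N)) (α : AffGp N), InfraLattice V Γ ∧ HypAut V α.right ∧
    (∀ γ, γ ∈ Γ ↔ α * γ * α⁻¹ ∈ Γ) ∧
    ∃ h : M ≃ₜ OrbitSp Γ, ∀ x n, h x = Quot.mk _ n → h (f x) = Quot.mk _ (α.left * α.right n)

end Infranil

/-- `f` is topologically conjugate to a hyperbolic infranilmanifold automorphism. -/
def InfranilConj {M : Type*} [TopologicalSpace M] (f : M → M) : Prop :=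
  ∃ (m : ℕ) (N : Type) (_ : Group N) (_ : TopologicalSpace N) (_ : ChartedSpace (Fin m → ℝ) N),
    NilLie (Fin m → ℝ) N ∧ ConjOn (Fin m → ℝ) N f

end Pool.Agent.P.MP_5c499f_an
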