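import Pool.Agent.P.MP_5c499f_an.Cover

/-! Long brackets on the space itself give topological mixing. -/

set_option autoImplicit false

namespace Pool.Agent.P.MP_5c499f_an

open Filter Topology

variable {M : Type*} [MetricSpace M]

lemma reach_unif [CompactSpace M] [PreconnectedSpace M] {ρ : ℝ} (hρ : 0 < ρ) :
    ∃ R, ∀ p q : M, Reach ρ R p q := by
  have h1 : ∀ o p : M, ∃ R, Reach ρ R o p := fun o p => by
    have : IsClopen {p | ∃ R, Reach ρ R o p} := by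
      refine ⟨isOpen_compl_iff.1 (Metric.isOpen_iff.2 fun p hp => ⟨ρ, hρ, fun q hq ⟨R, hR⟩ =>
        hp ⟨_, hR.trans (Reach.single (Metric.mem_ball'.1 hq).le)⟩⟩),
        Metric.isOpen_iff.2 fun p ⟨R, hR⟩ => ⟨ρ, hρ, fun q hq =>
          ⟨_, hR.trans (Reach.single (Metric.mem_ball.1 hq).le)⟩⟩⟩
    exact (this.eq_univ ⟨o, 0, Reach.refl _ _⟩).ge (Set.mem_univ p)
  choose R hR using h1
  obtain ⟨T, -, T1, T2⟩ := finite_cover_balls_of_compact (isCompact_univ (X := M)) hρ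
  obtain ⟨L, hL⟩ := ((T1.prod T1).image fun p => R p.1 p.2).bddAbove
  refine ⟨1 + L + 1, fun p q => ?_⟩
  obtain ⟨τ, t1, t2⟩ := Set.mem_iUnion₂.1 (T2 (Set.mem_univ p))
  obtain ⟨τ', t3, t4⟩ := Set.mem_iUnion₂.1 (T2 (Set.mem_univ q))
  exact ((Reach.single (Metric.mem_ball'.1 t2).le).trans ((hR τ τ').mono hρ.le
    (hL ⟨(τ, τ'), ⟨t1, t3⟩, rfl⟩))).trans (Reach.single (Metric.mem_ball.1 t4).le)

theorem Loc.mixing [CompactSpace M] [PreconnectedSpace M] {σ C₁ a b Λ Λ' : ℝ} (h : Loc M σ C₁)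
    {F : Equiv.Perm M} (hg : Hyp F a b Λ Λ') {x y : ℕ} (hs : Λ' ^ x * a ^ (x + y) < 1)
    (hu : Λ ^ y * b ^ (x + y) < 1) {U V : Set M} (hU : IsOpen U) (hV : IsOpen V) {u v : M}
    (hu' : u ∈ U) (hv' : v ∈ V) : ∀ᶠ n : ℕ in atTop, ∃ z ∈ U, F^[n] z ∈ V := by
  obtain ⟨ρ', r0, r1, r2⟩ := hg.lip
  have p0 : 0 < min ρ' σ := lt_min r0 h.pos
  obtain ⟨ε, δ, C, e1, hl⟩ := hg.lh _ p0
  have hδ := hl.δ_le
  have hδ0 := hl.δ_pos
  have hG := h.interp.geo (F := F) (by linarith [h.one_le]) p0.le (min_le_right _ _) hg.one_le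
    hg.one_le' (fun p q e => r1 p q (e.trans (min_le_left _ _)))
    fun p q e => r2 p q (e.trans (min_le_left _ _))
  obtain ⟨R, hR⟩ := reach_unif (M := M) p0
  have lim : ∀ {q : ℝ} (D : ℝ) {η : ℝ}, 0 ≤ q → q < 1 → 0 < η → ∀ᶠ t : ℕ in atTop, D * q ^ t < η :=
    fun D η q0 q1 hη => ((tendsto_pow_atTop_nhds_zero_of_lt_one q0 q1).const_mul D).eventually_lt_const
      (by simpa)
  obtain ⟨t, ht⟩ := (lim ((R + 1) * (C₁ * min ρ' σ / δ + 2) * C) (le_max_of_le_left (mul_nonneg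
    (pow_nonneg (by linarith [hg.one_le']) x) (pow_nonneg hl.a_nonneg (x + y)))) (max_lt hs hu)
    hδ0).exists
  obtain ⟨η, a1, a2⟩ := Metric.isOpen_iff.1 hU u hu'
  obtain ⟨η', a3, a4⟩ := Metric.isOpen_iff.1 hV v hv'
  obtain ⟨j, j1, j2⟩ := ((lim C hl.a_nonneg hl.a_lt a3).and (lim C hl.b_nonneg hl.b_lt a1)).exists
  filter_upwards [eventually_ge_atTop (x * t + y * t + 2 * j)] with n hn
  obtain ⟨w, w1, w2⟩ := hl.rect hG (by linarith) (le_max_left _ _) (le_max_right _ _) ht.le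
    (hR ((F ^ ((x * t : ℕ) + j : ℤ)) u) ((F ^ ((x * t : ℕ) + j - n : ℤ)) v))
  have b1 := hl.cs' (w1.mono le_rfl (by linarith)) j (n - ((x * t : ℕ) + j)) (by omega)
  have b2 := hl.cu' (w2.mono le_rfl (by linarith)) j (-((x * t : ℕ) + j)) (by omega)
  rw [zpow_apply_zpow, sub_add_sub_cancel, sub_self] at b1
  rw [zpow_apply_zpow, neg_add_cancel] at b2
  refine ⟨_, a2 (b2.trans_lt j2), a4 ?_⟩
  rw [← Equiv.Perm.coe_pow, ← zpow_natCast, zpow_apply_zpow, ← sub_eq_add_neg]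
  exact b1.trans_lt j1

end Pool.Agent.P.MP_5c499f_an
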