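import Pool.Agent.P.MP_5c499f_an.Manifold
import Pool.Agent.P.MP_5c499f_an.Mixing
import Pool.Agent.P.MP_5c499f_an.Defs
import Pool.Agent.P.MP_5c499f_an.Top

/-! From the smooth data to the metric data. -/

set_option autoImplicit false

namespace Pool.Agent.P.MP_5c499f_an

open Bundle Filter Topology
open scoped Manifold ContDiff

lemma exists_exponents {r₁ r₂ r₃ r₄ : ℝ} (h₁ : 0 < r₁) (h₂ : r₁ ≤ r₂) (h₃ : r₂ < 1) (h₄ : 1 < r₃)
    (h₅ : r₃ ≤ r₄) (h : 1 < Real.log r₂ / Real.log r₁ + Real.log r₃ / Real.log r₄) :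
    ∃ x y : ℕ, 0 < x ∧ 0 < y ∧ r₁⁻¹ ^ x * r₂ ^ (x + y) < 1 ∧ r₄ ^ y * r₃⁻¹ ^ (x + y) < 1 := by
  have a1 : Real.log r₂ < 0 := Real.log_neg (by linarith) h₃
  have a2 : Real.log r₁ ≤ Real.log r₂ := Real.log_le_log h₁ h₂
  have a3 : 0 < Real.log r₃ := Real.log_pos h₄
  have a4 : Real.log r₃ ≤ Real.log r₄ := Real.log_le_log (by linarith) h₅
  set α := Real.log r₂ / Real.log r₁ with hα
  set β := Real.log r₃ / Real.log r₄ with hβ
  have b1 : α * Real.log r₁ = Real.log r₂ := div_mul_cancel₀ _ (by linarith)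
  have b2 : β * Real.log r₄ = Real.log r₃ := div_mul_cancel₀ _ (by linarith)
  have b3 : α ≤ 1 := by nlinarith
  have b4 : β ≤ 1 := by nlinarith
  obtain ⟨n, hn⟩ := exists_nat_gt (1 / (α + β - 1))
  rw [div_lt_iff₀ (by linarith)] at hn
  have c0 : (0 : ℝ) ≤ n := n.cast_nonneg
  have c1 := Nat.lt_floor_add_one (n * (1 - β))
  have c2 := Nat.floor_le (show (0 : ℝ) ≤ n * (1 - β) by nlinarith)
  obtain ⟨y, hy⟩ : ∃ y, n = ⌊n * (1 - β)⌋₊ + 1 + y := Nat.exists_eq_add_of_le (by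
    have : ((⌊n * (1 - β)⌋₊ + 1 : ℕ) : ℝ) ≤ n := by push_cast; nlinarith
    exact_mod_cast this)
  have c3 : (n : ℝ) = ⌊n * (1 - β)⌋₊ + 1 + y := by exact_mod_cast hy
  have r2 : 0 < r₂ := by linarith
  have r3 : 0 < r₃ := by linarith
  have r4 : 0 < r₄ := by linarith
  refine ⟨⌊n * (1 - β)⌋₊ + 1, y, by omega, Nat.cast_pos.1 (show (0 : ℝ) < y by nlinarith), ?_, ?_⟩
  · rw [← hy, ← Real.log_neg_iff (by positivity), Real.log_mul (by positivity) (by positivity),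
      Real.log_pow, Real.log_pow, Real.log_inv, ← b1]
    push_cast
    nlinarith
  · rw [← hy, ← Real.log_neg_iff (by positivity), Real.log_mul (by positivity) (by positivity),
      Real.log_pow, Real.log_pow, Real.log_inv, ← b2]
    nlinarith

variable {E : Type*} [NormedAddCommGroup E] [NormedSpace ℝ E] [FiniteDimensional ℝ E]

theorem core {V : Type*} [NormedAddCommGroup V] [NormedSpace ℝ V] {M : Type*} [MetricSpace M]
    [ChartedSpace E M] [IsManifold 𝓘(ℝ, E) 1 M] [CompactSpace M]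
    [RiemannianBundle fun x : M => TangentSpace 𝓘(ℝ, E) x]
    [IsContinuousRiemannianBundle E fun x : M => TangentSpace 𝓘(ℝ, E) x]
    {e : M → V} (he : ∀ x y, dist x y = ‖e x - e y‖) (h1 : ContMDiff 𝓘(ℝ, E) 𝓘(ℝ, V) 1 e)
    (h2 : ∀ x, Function.Injective (mfderiv 𝓘(ℝ, E) 𝓘(ℝ, V) e x))
    (f : Diffeomorph 𝓘(ℝ, E) 𝓘(ℝ, E) M M 1) {r₁ r₂ r₃ r₄ : ℝ} (h₁ : 0 < r₁) (h₂ : r₁ ≤ r₂)
    (h₃ : r₂ < 1) (h₄ : 1 < r₃) (h₅ : r₃ ≤ r₄) (hf : AnosovRates E f r₁ r₂ r₃ r₄)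
    (h : 1 < Real.log r₂ / Real.log r₁ + Real.log r₃ / Real.log r₄) :
    ∃ (K : ℕ) (σ C₁ a b Λ Λ' : ℝ) (N x y : ℕ), 0 < K ∧ Loc M σ C₁ ∧ (∀ r, Box M r N) ∧
      Hyp ((f.toEquiv : Equiv.Perm M) ^ K) a b Λ Λ' ∧ Λ' ^ x * a ^ (x + y) < 1 ∧
      Λ ^ y * b ^ (x + y) < 1 ∧ 0 < x ∧ 0 < y ∧ Conv M σ C₁ := by
  obtain ⟨P, D, hD, hP, p1, p2, p3⟩ := hf
  obtain ⟨x, y, x0, y0, hx, hy⟩ := exists_exponents h₁ h₂ h₃ h₄ h₅ h
  obtain ⟨t, A, r, C, S, a1, a2⟩ := exists_CS he h1 h2 (Q := Qd E P)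
    fun c => Qd_continuousAt hP (mem_chart_source E c)
  have hC := S.one_le
  have r2 : 0 < r₂ := by linarith
  have r3 : 0 < r₃ := by linarith
  have r4 : 0 < r₄ := by linarith
  have lim : ∀ {q : ℝ} (D : ℝ), 0 ≤ q → q < 1 → ∀ᶠ t : ℕ in atTop, D * q ^ t < 1 :=
    fun D q0 q1 => ((tendsto_pow_atTop_nhds_zero_of_lt_one q0 q1).const_mul D).eventually_lt_const
      (by simp)
  obtain ⟨K, k0, k1, k2, k3, k4⟩ := ((eventually_gt_atTop 0).and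
    ((lim (20 * C ^ 2 * (C ^ 2 * D)) r2.le h₃).and
    ((lim (20 * C ^ 2 * (C ^ 2 * D)) (inv_pos.2 r3).le (inv_lt_one_of_one_lt₀ h₄)).and
    ((lim ((3 * C ^ 2 * C * (C ^ 2 * (D + 1))) ^ x * (2 * (C ^ 2 * D)) ^ (x + y))
      (by positivity) hx).and
    (lim ((3 * C ^ 2 * C * (C ^ 2 * (D + 1))) ^ y * (2 * (C ^ 2 * D)) ^ (x + y))
      (by positivity) hy))))).exists
  have c1 : ⇑((f.toEquiv : Equiv.Perm M) ^ K) = f^[K] := Equiv.Perm.coe_pow _ _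
  have c2 : ⇑((f.toEquiv : Equiv.Perm M) ^ K)⁻¹ = f.symm^[K] := by
    rw [← inv_pow]; exact Equiv.Perm.coe_pow _ _
  have c3 : ∀ n x v, mfderiv 𝓘(ℝ, E) 𝓘(ℝ, E) f^[n] x (P x v) =
      P (f^[n] x) (mfderiv 𝓘(ℝ, E) 𝓘(ℝ, E) f^[n] x v) := fun n => by
    induction n with
    | zero => intro x v; simp only [Function.iterate_zero, mfderiv_id]; rfl
    | succ n ih =>
      intro x v
      have d1 := (f.contMDiff.iterate n).mdifferentiable one_ne_zero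
      have d2 := f.contMDiff.mdifferentiable one_ne_zero
      rw [Function.iterate_succ, mfderiv_comp_apply x (d1 _) (d2 _),
        mfderiv_comp_apply x (d1 _) (d2 _), p2, ih]
      rfl
  have c4 : ∀ {q s u : ℝ}, 0 < q → D⁻¹ * q ^ K * s ≤ u → s ≤ D * q⁻¹ ^ K * u := fun q0 e => by
    rwa [inv_pow, mul_comm D, ← inv_inv D, ← mul_inv, le_inv_mul_iff₀ (by positivity),
      mul_comm (_ ^ K)]
  have c5 : ∀ {q : ℝ}, 1 ≤ q → 1 ≤ (D + 1) * q ^ K := fun e =>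
    one_le_mul_of_one_le_of_one_le (by linarith) (one_le_pow₀ e)
  have H := hy_chart hC a1 hP a2 (F := (f.toEquiv : Equiv.Perm M) ^ K)
    (c1 ▸ f.contMDiff.iterate K) (c2 ▸ f.symm.contMDiff.iterate K) p1 (c1 ▸ c3 K)
    (a := D * r₂ ^ K) (b := D * r₃⁻¹ ^ K) (Λ := (D + 1) * r₄ ^ K) (Λ' := (D + 1) * r₁⁻¹ ^ K)
    (by positivity) (by positivity) (c5 (by linarith)) (c5 ((one_le_inv₀ h₁).2 (by linarith)))
    (by linarith) (by linarith)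
    (c1 ▸ fun x v e => ⟨((p3 x K v).1 e).2, (c4 h₁ ((p3 x K v).1 e).1).trans (by gcongr; linarith)⟩)
    (c1 ▸ fun x v e => ⟨c4 r3 ((p3 x K v).2 e).1, ((p3 x K v).2 e).2.trans (by gcongr; linarith)⟩)
  obtain ⟨N, hN⟩ := S.box
  refine ⟨K, _, _, _, _, _, _, N, x, y, k0, S.loc, hN, H.hyp S, lt_of_eq_of_lt ?_ k3,
    lt_of_eq_of_lt ?_ k4, x0, y0, S.conv⟩
  · simp only [mul_pow, ← pow_mul]; ring
  · simp only [mul_pow, ← pow_mul]; ring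

variable {M : Type*} [TopologicalSpace M] [T2Space M] [CompactSpace M] [ConnectedSpace M]
  [ChartedSpace E M] [IsManifold 𝓘(ℝ, E) ∞ M]
  [RiemannianBundle fun x : M => TangentSpace 𝓘(ℝ, E) x]
  [IsContinuousRiemannianBundle E fun x : M => TangentSpace 𝓘(ℝ, E) x]
  (f : Diffeomorph 𝓘(ℝ, E) 𝓘(ℝ, E) M M 1) {r₁ r₂ r₃ r₄ : ℝ} (h₁ : 0 < r₁) (h₂ : r₁ ≤ r₂)
  (h₃ : r₂ < 1) (h₄ : 1 < r₃) (h₅ : r₃ ≤ r₄) (hf : AnosovRates E f r₁ r₂ r₃ r₄)
  (h : 1 < Real.log r₂ / Real.log r₁ + Real.log r₃ / Real.log r₄)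
include h₁ h₂ h₃ h₄ h₅ hf h

theorem virtNilp (x₀ : M) : Group.IsVirtuallyNilpotent (FundamentalGroup M x₀) := by
  obtain ⟨n, e, e1, e2, e3⟩ := exists_embedding_euclidean_of_compact (I := 𝓘(ℝ, E)) (M := M)
  let _ := e2.isEmbedding.comapMetricSpace e
  obtain ⟨K, σ, C₁, a, b, Λ, Λ', N, x, y, -, a1, a2, a3, a4, a5, -⟩ := core (e := e)
    (fun x y => dist_eq_norm (e x) (e y)) (e1.of_le (by simp)) e3 f h₁ h₂ h₃ h₄ h₅ hf h
  have := ChartedSpace.locallyPathConnectedSpace E M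
  have := PathConnectedSpace.of_locallyPathConnectedSpace (X := M)
  have c : ∀ K : ℕ, ((f.toHomeomorph ^ K).toEquiv : Equiv.Perm M) =
      (f.toEquiv : Equiv.Perm M) ^ K := fun K => by
    induction K with
    | zero => rfl
    | succ K ih => rw [pow_succ, pow_succ, ← ih]; rfl
  exact a1.virtNilp (f.toHomeomorph ^ K) (c K ▸ a3) a2 a4 a5 x₀

theorem mixing {U V : Set M} (hU : IsOpen U) (hV : IsOpen V) (hU' : U.Nonempty)
    (hV' : V.Nonempty) : ∃ N : ℕ, ∀ n ≥ N, (f^[n] '' U ∩ V).Nonempty := by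
  obtain ⟨n, e, e1, e2, e3⟩ := exists_embedding_euclidean_of_compact (I := 𝓘(ℝ, E)) (M := M)
  let _ := e2.isEmbedding.comapMetricSpace e
  obtain ⟨K, σ, C₁, a, b, Λ, Λ', N, x, y, k0, a1, -, a3, a4, a5, -⟩ := core (e := e)
    (fun x y => dist_eq_norm (e x) (e y)) (e1.of_le (by simp)) e3 f h₁ h₂ h₃ h₄ h₅ hf h
  obtain ⟨u, hu⟩ := hU'
  obtain ⟨v, hv⟩ := hV'
  have key := (eventually_all_finset (Finset.range K)).2 fun s _ =>
    a1.mixing a3 a4 a5 hU (hV.preimage (f.continuous.iterate s)) hu (v := f.symm^[s] v) (by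
      rwa [Set.mem_preimage, (Function.RightInverse.iterate f.apply_symm_apply s v :)])
  obtain ⟨N, hN⟩ := eventually_atTop.1 key
  refine ⟨K * N, fun m hm => ?_⟩
  obtain ⟨z, z1, z2⟩ := hN (m / K) ((Nat.le_div_iff_mul_le k0).2 (by rwa [mul_comm])) (m % K)
    (Finset.mem_range.2 (Nat.mod_lt _ k0))
  refine ⟨_, ⟨z, z1, rfl⟩, ?_⟩
  rw [← Nat.mod_add_div m K, Function.iterate_add_apply, Function.iterate_mul]
  rw [Equiv.Perm.coe_pow] at z2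
  exact z2

end Pool.Agent.P.MP_5c499f_an
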