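import Pool.Agent.P.MP_5c499f_an.Semi
import Pool.Agent.P.MP_5c499f_an.Main

/-! The conjugacy with an infranilmanifold automorphism. -/

set_option autoImplicit false

namespace Pool.Agent.P.MP_5c499f_an

open Bundle Filter Topology Law
open scoped Manifold ContDiff

instance {m : ℕ} (μ : Law m) : ChartedSpace (Fin m → ℝ) μ.N :=
  inferInstanceAs (ChartedSpace (Fin m → ℝ) (Fin m → ℝ))

lemma Law.contMDiff {m : ℕ} {μ : Law m} {f : μ.N → μ.N} (h : ContDiff ℝ ∞ f) :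
    ContMDiff 𝓘(ℝ, Fin m → ℝ) 𝓘(ℝ, Fin m → ℝ) ∞ f :=
  ContDiff.contMDiff (E := Fin m → ℝ) (E' := Fin m → ℝ) h

theorem Dyn.final {Y Γ M : Type*} [MetricSpace Y] [Group Γ] [MulAction Γ Y] {ρ : ℝ} {m c : ℕ}
    {μ : Law m} {lv : Fin m → ℕ} {Φ : MulAut Γ} {β : Γ →* Equiv.Perm μ.N} {A : Γ →* MulAut μ.N}
    {α : Equiv.Perm μ.N} {B : MulAut μ.N} {G : Equiv.Perm Y} {o : Y} (D : Dyn G Φ ρ o)
    (F : Aff μ lv c Φ β A α B) [TopologicalSpace M] [CompactSpace M] {pt : Y → M}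
    (hπ : IsQuotientCoveringMap pt Γ) {f : M → M} (hf : ∀ p, pt (G p) = f (pt p)) :
    InfranilConj f := by
  obtain ⟨h, h1, h2, h3, h4, h5⟩ := D.conj F
  have a1 : ∀ γ n, β γ 1 * A γ n = β γ n := fun γ n => by rw [← F.aff, one_mul]
  have a2 : ∀ n, α 1 * B n = α n := fun n => by rw [← F.affB, one_mul]
  let β' : Γ →* AffGp μ.N := MonoidHom.mk' (fun γ => ⟨β γ 1, A γ⟩) fun γ γ' =>
    SemidirectProduct.ext (by simp [a1]) (map_mul A γ γ')
  have b1 : ∀ n n', (∃ γ ∈ β'.range, n = γ.left * γ.right n') ↔ ∃ γ, β γ n' = n := fun n n' =>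
    ⟨by rintro ⟨_, ⟨γ, rfl⟩, e⟩; exact ⟨γ, (e.trans (a1 _ _)).symm⟩,
      fun ⟨γ, e⟩ => ⟨_, ⟨γ, rfl⟩, e.symm.trans (a1 _ _).symm⟩⟩
  have b2 : (fun n n' => ∃ γ ∈ β'.range, n = γ.left * γ.right n') =
      ⇑(MulAction.orbitRel β.range μ.N) := funext₂ fun n n' => propext ((b1 n n').trans
    ⟨fun ⟨γ, e⟩ => ⟨⟨_, γ, rfl⟩, e⟩, by rintro ⟨⟨_, γ, rfl⟩, e⟩; exact ⟨γ, e⟩⟩)
  have b3 : ∀ n n', (Quot.mk _ n : OrbitSp β'.range) = Quot.mk _ n' ↔ ∃ γ, β γ n' = n :=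
    fun n n' => by
      rw [Equivalence.quot_mk_eq_iff (b2 ▸ (MulAction.orbitRel β.range μ.N).iseqv), b1]
  have : ContinuousConstSMul β.range μ.N := ⟨by rintro ⟨_, γ, rfl⟩; exact F.cont γ⟩
  have : ProperlyDiscontinuousSMul β.range μ.N := ⟨fun {K L} hK hL => by
    refine ((F.proper (⋃ a ∈ Set.range A, (fun p : μ.N × μ.N => p.1 * (a p.2)⁻¹) '' (L ×ˢ K))
      ((Bornology.isBounded_biUnion F.fin).2 ?_)).image β.rangeRestrict).subset ?_
    · rintro _ ⟨γ, rfl⟩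
      exact ((hL.prod hK).image (continuous_fst.mul
        ((F.good γ).sm.continuous.comp continuous_snd).inv)).isBounded
    · rintro ⟨_, γ, rfl⟩ ⟨_, ⟨n, hn, rfl⟩, hn'⟩
      exact ⟨γ, Set.mem_biUnion ⟨γ, rfl⟩ ⟨(β γ n, n), ⟨hn', hn⟩, by simp [← a1 γ n]⟩, rfl⟩⟩
  have : T2Space (OrbitSp β'.range) := by
    unfold OrbitSp
    rw [b2]
    exact inferInstanceAs (T2Space (Quotient _))
  let H : M → OrbitSp β'.range := fun x => Quot.mk _ (h (Function.surjInv hπ.surjective x))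
  have c1 : ∀ p, H (pt p) = Quot.mk _ (h p) := fun p => by
    obtain ⟨γ, e⟩ := hπ.apply_eq_iff_mem_orbit.1 (Function.surjInv_eq hπ.surjective (pt p))
    exact (b3 _ _).2 ⟨γ, (h4 γ p).symm.trans (congrArg h e)⟩
  have c2 : Continuous H := hπ.toIsQuotientMap.continuous_iff.2
    ((continuous_quot_mk.comp h1).congr fun p => (c1 p).symm)
  have c3 : Function.Surjective H := by
    have := Quot.mk_surjective.denseRange.comp h3 (continuous_quot_mk (r := fun n n' =>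
      ∃ γ ∈ β'.range, n = γ.left * γ.right n'))
    rw [show _ ∘ h = H ∘ pt from funext fun p => (c1 p).symm] at this
    rw [← Set.range_eq_univ, ← (isCompact_range c2).isClosed.closure_eq]
    exact this.of_comp.closure_range
  have c4 : Function.Injective H := fun x y e => by
    obtain ⟨p, rfl⟩ := hπ.surjective x
    obtain ⟨q, rfl⟩ := hπ.surjective y
    rw [c1, c1, b3] at e
    exact hπ.apply_eq_iff_mem_orbit.2 (e.imp fun γ e => h2 ((h4 γ q).trans e))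
  have c5 : ∀ γ, MulAut.conj (⟨α 1, B⟩ : AffGp μ.N) (β' γ) = β' (Φ γ) := fun γ => by
    have e : ∀ n, α 1 * B (β γ 1 * A γ n) = β (Φ γ) 1 * A (Φ γ) (α 1 * B n) := fun n => by
      rw [a1, a1, a2, a2, F.equiv]
    have e1 : α 1 * B (β γ 1) = β (Φ γ) 1 * A (Φ γ) (α 1) := by simpa using e 1
    refine mul_inv_eq_iff_eq_mul.2 (SemidirectProduct.ext e1 (MulEquiv.ext fun n => ?_))
    have := e n
    rwa [map_mul, map_mul, ← mul_assoc, ← mul_assoc, e1, mul_right_inj] at this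
  refine ⟨m, μ.N, inferInstance, inferInstance, inferInstance,
    ⟨{toIsManifold := inferInstanceAs (IsManifold _ _ (Fin m → ℝ))
      contMDiff_mul := μ.sm.contMDiff.comp (contMDiff_fst.prodMk_space contMDiff_snd)
      contMDiff_inv := contMDiff μ.si }, inferInstance, inferInstance, inferInstance,
    inferInstance, F.tri.nilp⟩, β'.range, ⟨α 1, B⟩,
    ⟨A.range, F.fin, ?_, ?_, ?_, fun K hK => ?_, c3.compactSpace c2⟩,
    ⟨contMDiff F.goodB.sm, contMDiff F.goodB'.sm, fun z hz => ?_⟩, ?_,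
    Continuous.homeoOfEquivCompactToT2 (f := .ofBijective H ⟨c4, c3⟩) c2, fun x n e => ?_⟩
  · rintro _ ⟨γ, rfl⟩
    exact contMDiff (F.good γ).sm
  · rintro _ ⟨γ, rfl⟩
    exact ⟨γ, rfl⟩
  · rintro _ ⟨γ, rfl⟩ e
    obtain ⟨k, k1, k2⟩ := e.exists_pow_eq_one
    rw [← map_pow] at k2
    have : Finite (Subgroup.zpowers (β γ)) := (isOfFinOrder_iff_pow_eq_one.2 ⟨k, k1, by
      rw [← map_pow]
      exact Equiv.ext fun n => (a1 _ n).symm.trans
        (congrArg (fun g : AffGp μ.N => g.left * g.right n) k2 |>.trans (one_mul n))⟩).finite_zpowers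
    obtain ⟨n, hn⟩ := F.tri.fixed (Subgroup.zpowers (β γ)) (by
      rintro _ ⟨j, rfl⟩
      exact ⟨_, F.good (γ ^ j), by simpa using F.aff (γ ^ j)⟩)
    obtain ⟨x, hx⟩ := c3 (Quot.mk _ n)
    obtain ⟨p, rfl⟩ := hπ.surjective x
    obtain ⟨g, hg⟩ := (b3 _ _).1 (hx.symm.trans (c1 p))
    rw [D.free γ (g • p) (h2 (by rw [h4, h4, hg, hn _ (Subgroup.mem_zpowers _)])), map_one]
  · refine ((F.proper K hK.isBounded).image β').subset ?_
    rintro _ ⟨⟨γ, rfl⟩, e⟩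
    exact ⟨γ, e, rfl⟩
  · have := F.tri.hyper F.goodB (D.noUnit F) z hz
    rw [dmat, ← mfderiv_eq_fderiv] at this
    rwa [← LinearMap.charpoly_toMatrix _ (Pi.basisFun ℝ _), LinearMap.toMatrix_eq_toMatrix']
  · refine fun g => ⟨?_, fun ⟨γ, e⟩ => ⟨Φ.symm γ, (MulAut.conj _).injective
      ((c5 _).trans ((congrArg β' (Φ.apply_symm_apply γ)).trans e))⟩⟩
    rintro ⟨γ, rfl⟩
    exact ⟨_, (c5 γ).symm⟩
  · obtain ⟨p, rfl⟩ := hπ.surjective x
    obtain ⟨g, hg⟩ := (b3 _ _).1 ((c1 p).symm.trans e)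
    rw [← hf]
    exact (c1 _).trans ((b3 _ _).2 ⟨Φ g, by rw [h5, ← hg, F.equiv]; exact congrArg _ (a2 n)⟩)

theorem infranil {E : Type*} [NormedAddCommGroup E] [NormedSpace ℝ E] [FiniteDimensional ℝ E]
    {M : Type*} [TopologicalSpace M] [T2Space M] [CompactSpace M] [ConnectedSpace M]
    [ChartedSpace E M] [IsManifold 𝓘(ℝ, E) ∞ M]
    [RiemannianBundle fun x : M => TangentSpace 𝓘(ℝ, E) x]
    [IsContinuousRiemannianBundle E fun x : M => TangentSpace 𝓘(ℝ, E) x]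
    (f : Diffeomorph 𝓘(ℝ, E) 𝓘(ℝ, E) M M 1) {r₁ r₂ r₃ r₄ : ℝ} (h₁ : 0 < r₁) (h₂ : r₁ ≤ r₂)
    (h₃ : r₂ < 1) (h₄ : 1 < r₃) (h₅ : r₃ ≤ r₄) (hf : AnosovRates E f r₁ r₂ r₃ r₄)
    (h : 1 < Real.log r₂ / Real.log r₁ + Real.log r₃ / Real.log r₄) : InfranilConj f := by
  obtain ⟨n, e, e1, e2, e3⟩ := exists_embedding_euclidean_of_compact (I := 𝓘(ℝ, E)) (M := M)
  let _ := e2.isEmbedding.comapMetricSpace e
  obtain ⟨K, σ, C₁, a, b, Λ, Λ', N, x, y, k0, a1, a2, a3, a4, a5, a6, a7, a8⟩ := core (e := e)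
    (fun x y => dist_eq_norm (e x) (e y)) (e1.of_le (by simp)) e3 f h₁ h₂ h₃ h₄ h₅ hf h
  have := ChartedSpace.locallyPathConnectedSpace E M
  have := PathConnectedSpace.of_locallyPathConnectedSpace (X := M)
  obtain ⟨G, Φ, ρ, o, b1, b2, ⟨d, b3⟩, S, b4, b5⟩ :=
    a1.dyn a8 f.toHomeomorph k0 a3 a2 a6 a7 a4 a5 (Classical.arbitrary M)
  obtain ⟨Λ, c1, c2, c3, c4, c5⟩ := exists_char b4 b5 b3
  obtain ⟨L, c, hL⟩ := exists_layers c3 c5
  obtain ⟨m, μ, lv, β, A, α, B, F⟩ := exists_aff Φ Λ hL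
  exact b2.final F Cov.quot b1

end Pool.Agent.P.MP_5c499f_an
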