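import Pool.Agent.P.MP_5c499f_an.GSemi
import Pool.Agent.P.MP_5c499f_an.Final

/-! The conjugacy with an infranilmanifold automorphism (adapted from `Semi` and `Final`). -/

set_option autoImplicit false

namespace Pool.Agent.P.MP_5c499f_an

open Bundle Filter Topology Law
open scoped Manifold ContDiff

variable {Y Γ ι : Type*} [MetricSpace Y] [Group Γ] [MulAction Γ Y] {ρ : ℝ} {m c : ℕ} {μ : Law m}
  {lv : Fin m → ℕ} {Φ : MulAut Γ} {β : Γ →* Equiv.Perm μ.N} {A : Γ →* MulAut μ.N}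
  {α : Equiv.Perm μ.N} {B : MulAut μ.N} {G : Equiv.Perm Y} {o : Y} (D : Gps G Φ ρ o)
  (F : Aff μ lv c Φ β A α B)
include D F

lemma Gps.lim (l : Filter ι) (f : ι → μ.N) (n : μ.N) (R : ℝ)
    (h : ∀ k : ℤ, ∀ᶠ i in l, ‖((α ^ k) n)⁻¹ * (α ^ k) (f i)‖ ≤ R) : Tendsto f l (𝓝 n) :=
  ((isCompact_closedBall 0 R).image (continuous_const_mul n)).tendsto_nhds_of_unique_mapClusterPt
    ((h 0).mono fun _ hi => ⟨_, mem_closedBall_zero_iff.2 hi, mul_inv_cancel_left _ _⟩)
    fun _ _ hu => (F.uq (D.noUnit F) ⟨R, fun k => (isClosed_le ((F.contB k).const_mul _).norm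
      continuous_const).mem_of_mapClusterPt hu (h k)⟩).symm

theorem Gps.conj (glob : ∀ R u v, (∀ k : ℤ, Reach ρ R ((G ^ k) u) ((G ^ k) v)) → u = v) :
    ∃ h : Y → μ.N, Continuous h ∧ Function.Injective h ∧ DenseRange h ∧
    (∀ (γ : Γ) p, h (γ • p) = β γ (h p)) ∧ ∀ p, h (G p) = α (h p) := by
  have H := D.noUnit F
  obtain ⟨x, hx⟩ := D.ex β fun y : Y × ℤ => (G ^ y.2) y.1
  obtain ⟨d, d1, d2⟩ := F.tri.us F.goodB H (a := fun p k => (α (x (p, k)))⁻¹ * x (p, k + 1))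
    (Nr.jump' (x := fun p k => x (p, k)) (p := id) D F hx)
  set h : Y → μ.N := fun p => x (p, 0) * d p 0
  have hN : Nr ρ o β (fun y : Y × ℤ => (G ^ y.2) y.1) fun y => (α ^ y.2) (h y.1) :=
    hx.right F (by
      have := fun p => orbit_eq (α := α) (y := fun k => x (p, k) * d p k) fun k => by
        rw [F.affB, ← d2, ← mul_assoc, mul_inv_cancel_left]
      simpa only [h, ← this, inv_mul_cancel_left] using d1)
  have ch : ∀ p n, (Nr ρ o β (fun k : ℤ => (G ^ k) p) fun k => (α ^ k) n) → h p = n :=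
    fun p n e => F.uq H ((hN.comp fun k => (p, k)).bd' D F e)
  obtain ⟨R₁, nb⟩ := ((hN.comp fun s : {s : Y × Y × ℤ //
    dist ((G ^ s.2.2) s.2.1) ((G ^ s.2.2) s.1) ≤ ρ} => (s.1.1, s.1.2.2)).left' D
    (q := fun s => (G ^ s.1.2.2) s.1.2.1) ⟨1, fun s => .single s.2⟩).bd' D F
    (hN.comp (Prod.snd ∘ Subtype.val))
  refine ⟨h, ?_, fun p q e => ?_, fun n => ?_, fun γ p => ch _ _ ?_, fun p => ch _ _ ?_⟩
  · exact continuous_iff_continuousAt.2 fun p => D.lim F _ _ _ R₁ fun k =>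
      (Metric.tendsto_nhds.1 ((D.cont k).tendsto p) ρ D.pos).mono fun q hq => nb ⟨(p, q, k), hq.le⟩
  · obtain ⟨R, hR⟩ := (hN.comp fun k => (p, k)).by' D F
      (by simpa only [e] using hN.comp fun k => (q, k))
    exact glob R p q hR
  · obtain ⟨p, hp⟩ := F.ex ρ o fun k : ℤ => (α ^ k) n
    have br : ∀ a b : Y, ∃ w T, St G T ρ w a ∧ Un G (-T) ρ w b := fun a b => by
      obtain ⟨R, hR⟩ := D.conn a
      obtain ⟨R', hR'⟩ := D.conn b
      obtain ⟨T, hT⟩ := D.br (R' + R)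
      exact (hT b a (hR'.symm.trans hR)).imp fun w hw => ⟨_, hw⟩
    set a : ℤ → Y := fun k => (G ^ (-k)) (p k)
    obtain ⟨R, hR⟩ := hp.bd' D F (show Nr ρ o β p fun k => (α ^ k) (h (a k)) by
      simpa [a] using hN.comp fun k => (a k, k))
    obtain ⟨R', hR'⟩ := bd_inv ⟨R, hR⟩
    choose w T w1 w2 using fun K : ℕ => br (a (K + 1)) (a (-K))
    set u : ℕ → ℤ → μ.N := fun K k =>
      (α ^ k) (if K < k then h (a (K + 1)) else if k < -K then h (a (-K)) else n) with hu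
    suffices Bf fun s : ℕ × ℤ => (u s.1 s.2)⁻¹ * (α ^ s.2) (h (w s.1)) by
      obtain ⟨R₀, h0⟩ := this
      refine mem_closure_of_tendsto (D.lim F atTop (fun K => h (w K)) n R₀ fun k => ?_)
        (.of_forall fun K => ⟨_, rfl⟩)
      filter_upwards [eventually_ge_atTop k.natAbs] with K hK
      have := h0 (K, k)
      simpa only [hu, if_neg (show ¬(K : ℤ) < k by omega), if_neg (show ¬k < -K by omega)] using this
    refine F.tri.bd (F.tri.sh F.goodB (fun j _ => H j)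
      (a := fun K k => (α (u K k))⁻¹ * u K (k + 1)) (b := fun _ _ => 1)
      (d := fun K k => (u K k)⁻¹ * (α ^ k) (h (w K))) ⟨max (max R R') 0, fun s => ?_⟩ (Bf.const _)
      (fun K k => by simp only [zpow_succ_apply, ← F.diffB]; group) fun K => bl_of_bd
        (Bf.int (min (-T K) (-K - 1)) (max (T K) (K + 1)) ?_ ?_))
    · obtain ⟨K, k⟩ := s
      simp only [hu, ← zpow_succ_apply]
      by_cases e : k = K
      · subst e
        rw [if_neg (by omega), if_neg (by omega), if_pos (by omega)]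
        exact le_max_of_le_left (le_max_of_le_left (hR _))
      by_cases e' : k + 1 = -K
      · rw [if_neg (by omega), if_pos (by omega), if_neg (by omega), if_neg (by omega), e']
        exact le_max_of_le_left (le_max_of_le_right (by
          simpa only [mul_inv_rev, inv_inv] using hR' (-K)))
      refine le_max_of_le_right (norm_le_zero_iff.2 (inv_mul_eq_one.2 (congrArg _ ?_)))
      split_ifs <;> first | rfl | omega
    · refine ⟨R₁, fun k => ?_⟩
      have := k.2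
      simp only [hu, if_neg (show ¬(K : ℤ) < k by omega), if_pos (show k.1 < -K by omega)]
      exact nb ⟨(a (-K), w K, k), w2 K k (by omega)⟩
    · refine ⟨R₁, fun k => ?_⟩
      have := k.2
      simp only [hu, if_pos (show (K : ℤ) < k by omega)]
      exact nb ⟨(a (K + 1), w K, k), w1 K k (by omega)⟩
  · simpa only [equiv_zpow (act := (· • ·)) D.equiv, equiv_zpow (act := fun g => β g) F.equiv] using
      (hN.comp fun k => (p, k)).smul fun k => (Φ ^ k) γ
  · simpa only [zpow_add_one, Equiv.Perm.mul_apply] using hN.comp fun k => (p, k + 1)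

theorem Gps.final (glob : ∀ R u v, (∀ k : ℤ, Reach ρ R ((G ^ k) u) ((G ^ k) v)) → u = v)
    {M : Type*} [TopologicalSpace M] [CompactSpace M] {pt : Y → M}
    (hπ : IsQuotientCoveringMap pt Γ) {f : M → M} (hf : ∀ p, pt (G p) = f (pt p)) :
    InfranilConj f := by
  obtain ⟨h, h1, h2, h3, h4, h5⟩ := D.conj F glob
  have a1 : ∀ γ n, β γ 1 * A γ n = β γ n := fun γ n => by rw [← F.aff, one_mul]
  have a2 : ∀ n, α 1 * B n = α n := fun n => by rw [← F.affB, one_mul]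
  let β' : Γ →* AffGp μ.N := MonoidHom.mk' (fun γ => ⟨β γ 1, A γ⟩) fun γ γ' =>
    SemidirectProduct.ext (by simp [a1]) (map_mul A γ γ')
  have b1 : ∀ n n', (∃ γ ∈ β'.range, n = γ.left * γ.right n') ↔ ∃ γ, β γ n' = n := fun n n' =>
    ⟨by rintro ⟨_, ⟨γ, rfl⟩, e⟩; exact ⟨γ, (e.trans (a1 _ _)).symm⟩,
      fun ⟨γ, e⟩ => ⟨_, ⟨γ, rfl⟩, e.symm.trans (a1 _ _).symm⟩⟩
  have b2 : (fun n n' => ∃ γ ∈ β'.range, n = γ.left * γ.right n') =
      ⇑(MulAction.orbitRel β.range μ.N) := funext₂ fun n n' => propext ((b1 n n').trans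
    ⟨fun ⟨γ, e⟩ => ⟨⟨_, γ, rfl⟩, e⟩, by rintro ⟨⟨_, γ, rfl⟩, e⟩; exact ⟨γ, e⟩⟩)
  have b3 : ∀ n n', (Quot.mk _ n : OrbitSp β'.range) = Quot.mk _ n' ↔ ∃ γ, β γ n' = n :=
    fun n n' => by
      rw [Equivalence.quot_mk_eq_iff (b2 ▸ (MulAction.orbitRel β.range μ.N).iseqv), b1]
  have : ContinuousConstSMul β.range μ.N := ⟨by rintro ⟨_, γ, rfl⟩; exact F.cont γ⟩
  have : ProperlyDiscontinuousSMul β.range μ.N := ⟨fun {K L} hK hL => by
    refine ((F.proper (⋃ a ∈ Set.range A, (fun p : μ.N × μ.N => p.1 * (a p.2)⁻¹) '' (L ×ˢ K))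
      ((Bornology.isBounded_biUnion F.fin).2 ?_)).image β.rangeRestrict).subset ?_
    · rintro _ ⟨γ, rfl⟩
      exact ((hL.prod hK).image (continuous_fst.mul
        ((F.good γ).sm.continuous.comp continuous_snd).inv)).isBounded
    · rintro ⟨_, γ, rfl⟩ ⟨_, ⟨n, hn, rfl⟩, hn'⟩
      exact ⟨γ, Set.mem_biUnion ⟨γ, rfl⟩ ⟨(β γ n, n), ⟨hn', hn⟩, by simp [← a1 γ n]⟩, rfl⟩⟩
  have : T2Space (OrbitSp β'.range) := by
    unfold OrbitSp
    rw [b2]
    exact inferInstanceAs (T2Space (Quotient _))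
  let H : M → OrbitSp β'.range := fun x => Quot.mk _ (h (Function.surjInv hπ.surjective x))
  have c1 : ∀ p, H (pt p) = Quot.mk _ (h p) := fun p => by
    obtain ⟨γ, e⟩ := hπ.apply_eq_iff_mem_orbit.1 (Function.surjInv_eq hπ.surjective (pt p))
    exact (b3 _ _).2 ⟨γ, (h4 γ p).symm.trans (congrArg h e)⟩
  have c2 : Continuous H := hπ.toIsQuotientMap.continuous_iff.2
    ((continuous_quot_mk.comp h1).congr fun p => (c1 p).symm)
  have c3 : Function.Surjective H := by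
    have := Quot.mk_surjective.denseRange.comp h3 (continuous_quot_mk (r := fun n n' =>
      ∃ γ ∈ β'.range, n = γ.left * γ.right n'))
    rw [show _ ∘ h = H ∘ pt from funext fun p => (c1 p).symm] at this
    rw [← Set.range_eq_univ, ← (isCompact_range c2).isClosed.closure_eq]
    exact this.of_comp.closure_range
  have c4 : Function.Injective H := fun x y e => by
    obtain ⟨p, rfl⟩ := hπ.surjective x
    obtain ⟨q, rfl⟩ := hπ.surjective y
    rw [c1, c1, b3] at e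
    exact hπ.apply_eq_iff_mem_orbit.2 (e.imp fun γ e => h2 ((h4 γ q).trans e))
  have c5 : ∀ γ, MulAut.conj (⟨α 1, B⟩ : AffGp μ.N) (β' γ) = β' (Φ γ) := fun γ => by
    have e : ∀ n, α 1 * B (β γ 1 * A γ n) = β (Φ γ) 1 * A (Φ γ) (α 1 * B n) := fun n => by
      rw [a1, a1, a2, a2, F.equiv]
    have e1 : α 1 * B (β γ 1) = β (Φ γ) 1 * A (Φ γ) (α 1) := by simpa using e 1
    refine mul_inv_eq_iff_eq_mul.2 (SemidirectProduct.ext e1 (MulEquiv.ext fun n => ?_))
    have := e n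
    rwa [map_mul, map_mul, ← mul_assoc, ← mul_assoc, e1, mul_right_inj] at this
  refine ⟨m, μ.N, inferInstance, inferInstance, inferInstance,
    ⟨{toIsManifold := inferInstanceAs (IsManifold _ _ (Fin m → ℝ))
      contMDiff_mul := μ.sm.contMDiff.comp (contMDiff_fst.prodMk_space contMDiff_snd)
      contMDiff_inv := contMDiff μ.si }, inferInstance, inferInstance, inferInstance,
    inferInstance, F.tri.nilp⟩, β'.range, ⟨α 1, B⟩,
    ⟨A.range, F.fin, ?_, ?_, ?_, fun K hK => ?_, c3.compactSpace c2⟩,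
    ⟨contMDiff F.goodB.sm, contMDiff F.goodB'.sm, fun z hz => ?_⟩, ?_,
    Continuous.homeoOfEquivCompactToT2 (f := .ofBijective H ⟨c4, c3⟩) c2, fun x n e => ?_⟩
  · rintro _ ⟨γ, rfl⟩
    exact contMDiff (F.good γ).sm
  · rintro _ ⟨γ, rfl⟩
    exact ⟨γ, rfl⟩
  · rintro _ ⟨γ, rfl⟩ e
    obtain ⟨k, k1, k2⟩ := e.exists_pow_eq_one
    rw [← map_pow] at k2
    have : Finite (Subgroup.zpowers (β γ)) := (isOfFinOrder_iff_pow_eq_one.2 ⟨k, k1, by
      rw [← map_pow]
      exact Equiv.ext fun n => (a1 _ n).symm.trans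
        (congrArg (fun g : AffGp μ.N => g.left * g.right n) k2 |>.trans (one_mul n))⟩).finite_zpowers
    obtain ⟨n, hn⟩ := F.tri.fixed (Subgroup.zpowers (β γ)) (by
      rintro _ ⟨j, rfl⟩
      exact ⟨_, F.good (γ ^ j), by simpa using F.aff (γ ^ j)⟩)
    obtain ⟨x, hx⟩ := c3 (Quot.mk _ n)
    obtain ⟨p, rfl⟩ := hπ.surjective x
    obtain ⟨g, hg⟩ := (b3 _ _).1 (hx.symm.trans (c1 p))
    rw [D.free γ (g • p) (h2 (by rw [h4, h4, hg, hn _ (Subgroup.mem_zpowers _)])), map_one]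
  · refine ((F.proper K hK.isBounded).image β').subset ?_
    rintro _ ⟨⟨γ, rfl⟩, e⟩
    exact ⟨γ, e, rfl⟩
  · have := F.tri.hyper F.goodB (D.noUnit F) z hz
    rw [dmat, ← mfderiv_eq_fderiv] at this
    rwa [← LinearMap.charpoly_toMatrix _ (Pi.basisFun ℝ _), LinearMap.toMatrix_eq_toMatrix']
  · refine fun g => ⟨?_, fun ⟨γ, e⟩ => ⟨Φ.symm γ, (MulAut.conj _).injective
      ((c5 _).trans ((congrArg β' (Φ.apply_symm_apply γ)).trans e))⟩⟩
    rintro ⟨γ, rfl⟩
    exact ⟨_, (c5 γ).symm⟩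
  · obtain ⟨p, rfl⟩ := hπ.surjective x
    obtain ⟨g, hg⟩ := (b3 _ _).1 ((c1 p).symm.trans e)
    rw [← hf]
    exact (c1 _).trans ((b3 _ _).2 ⟨Φ g, by rw [h5, ← hg, F.equiv]; exact congrArg _ (a2 n)⟩)

end Pool.Agent.P.MP_5c499f_an
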