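import Mathlib

/-! The window principle and bounded representations. TASK ANOS-A1. -/

set_option autoImplicit false

namespace Pool.Agent.P.MP_5c499f_an

/-- The window principle for an automorphism. Think of `u ∈ D n` as the element `u * t ^ n` of the
semidirect product, where `t` acts by `Φ`: then `u t^n γ v t^n = e (u' t^n) (v' t^n) e'`. -/
def Win {Γ : Type*} [Group Γ] (Φ : MulAut Γ) : Prop :=
  ∃ (E : Set Γ) (D : ℕ → Set Γ), E.Finite ∧ (∀ n, (D n).Finite ∧ (D n).Nonempty) ∧
    ∀ S : Set Γ, S.Finite → ∃ T, ∀ n ≥ T, ∀ u ∈ D n, ∀ v ∈ D n, ∀ γ ∈ S,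
      ∃ e ∈ E, ∃ e' ∈ E, ∃ u' ∈ D n, ∃ v' ∈ D n,
        u * (Φ ^ n) (γ * v) = e * u' * (Φ ^ n) (v' * (Φ ^ n) e')

namespace GWinX

section Mat

variable {k : Type*} [NormedField k] {ι : Type*} [Fintype ι] [DecidableEq ι]

/-- All entries are bounded by `a`. -/
def Bd (M : Matrix ι ι k) (a : ℝ) : Prop := ∀ i j, ‖M i j‖ ≤ a

theorem Bd.mul {X Y : Matrix ι ι k} {a b : ℝ} (hX : Bd X a) (hY : Bd Y b) :
    Bd (X * Y) (Fintype.card ι * (a * b)) := by
  intro i j
  rw [Matrix.mul_apply]
  calc ‖∑ l, X i l * Y l j‖ ≤ ∑ l, ‖X i l * Y l j‖ := norm_sum_le _ _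
    _ ≤ ∑ _l : ι, a * b := Finset.sum_le_sum fun l _ => by
        rw [norm_mul]
        exact mul_le_mul (hX i l) (hY l j) (norm_nonneg _) ((norm_nonneg _).trans (hX i l))
    _ = Fintype.card ι * (a * b) := by simp

theorem twist_pow {Γ : Type*} [Group Γ] {Ψ : MulAut Γ} {M : Type*} [Monoid M] (r : Γ →* M) {B : M}
    (h : ∀ g, B * r g = r (Ψ g) * B) (q : ℕ) (g : Γ) :
    B ^ q * r g = r ((Ψ ^ q) g) * B ^ q := by
  induction q with
  | zero => simp
  | succ q ih =>
    rw [pow_succ', mul_assoc, ih, ← mul_assoc, h, pow_succ' Ψ, mul_assoc]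
    rfl

theorem sandwich (X G : Matrix ι ι k) (i b p q : ι) :
    (X * (Matrix.single b p (1 : k) * G * Matrix.single q i (1 : k)) * X : Matrix ι ι k) i b =
      X i b * G p q * X i b := by
  rw [Matrix.single_mul_mul_single, mul_assoc, Matrix.mul_apply, Finset.sum_eq_single b]
  · rw [Matrix.single_mul_apply_same]; ring
  · intro l _ hl
    rw [Matrix.single_mul_apply_of_ne _ _ _ _ _ hl, mul_zero]
  · simp

/-- Step (a): a representation spanning the whole matrix algebra is bounded. -/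
theorem bounded [Nonempty ι] {Γ : Type*} [Group Γ] {Φ : MulAut Γ} (hW : Win Φ)
    (r : Γ →* Matrix ι ι k) {B : Matrix ι ι k} (hB : IsUnit B) {j : ℕ} (hj : 0 < j)
    (h : ∀ g, B * r g = r ((Φ ^ j) g) * B)
    (hs : ∀ M, M ∈ Submodule.span k (Set.range r)) : ∃ C, ∀ g, Bd (r g) C := by
  classical
  obtain ⟨E, D, hE, hD, hwin⟩ := hW
  have hc : ∀ bp : ι × ι, ∃ c : Γ →₀ k,
      (c.sum fun f a => a • r f) = Matrix.single bp.1 bp.2 1 := fun bp =>
    Finsupp.mem_span_range_iff_exists_finsupp.1 (hs _)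
  choose c hc using hc
  set K : ℝ := ∑ bp : ι × ι, ∑ f ∈ (c bp).support, ‖c bp f‖ with hK
  have hKle : ∀ bp, ∑ f ∈ (c bp).support, ‖c bp f‖ ≤ K := fun bp =>
    Finset.single_le_sum (f := fun bp => ∑ f ∈ (c bp).support, ‖c bp f‖)
      (fun _ _ => Finset.sum_nonneg fun _ _ => norm_nonneg _) (Finset.mem_univ bp)
  have hK0 : 0 ≤ K := Finset.sum_nonneg fun _ _ => Finset.sum_nonneg fun _ _ => norm_nonneg _
  obtain ⟨CE, hCE⟩ : ∃ CE, ∀ e ∈ E, Bd (r e) CE := by
    obtain ⟨C, hC⟩ := ((hE.prod (Set.finite_univ (α := ι × ι))).image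
      fun x => ‖r x.1 x.2.1 x.2.2‖).bddAbove
    exact ⟨C, fun e he i j => hC ⟨(e, i, j), ⟨he, trivial⟩, rfl⟩⟩
  set w : ℝ := (Fintype.card ι : ℝ) with hw
  set F : Finset Γ := Finset.univ.biUnion fun bp => (c bp).support with hF
  refine ⟨K * K * (w * (w * (w * (CE * CE)))), fun g p q => ?_⟩
  obtain ⟨T, hT⟩ := hwin ((fun x : Γ × Γ => x.1 * g * x.2) '' (↑F ×ˢ ↑F))
    ((F.finite_toSet.prod F.finite_toSet).image _)
  have hpow : ∀ x, B ^ T * r x = r ((Φ ^ (j * T)) x) * B ^ T := fun x => by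
    rw [twist_pow r h, pow_mul]
  obtain ⟨⟨u, i, b⟩, ⟨hu, -⟩, hmax⟩ := Set.exists_max_image (D (j * T) ×ˢ (Set.univ : Set (ι × ι)))
    (fun x => ‖(r x.1 * B ^ T) x.2.1 x.2.2‖) ((hD _).1.prod Set.finite_univ)
    ((hD _).2.prod Set.univ_nonempty)
  simp only at hu hmax
  set m : ℝ := ‖(r u * B ^ T) i b‖ with hm
  have hbd : ∀ v ∈ D (j * T), Bd (r v * B ^ T) m := fun v hv i' b' =>
    hmax (v, i', b') ⟨hv, trivial⟩
  have hm0 : 0 < m := by
    have hun : IsUnit (r u * B ^ T) := ((Group.isUnit u).map r).mul (hB.pow T)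
    by_contra hle
    apply hun.ne_zero
    ext i' b'
    exact norm_le_zero_iff.1 ((hbd u hu i' b').trans (not_lt.1 hle))
  have key : ∀ f ∈ F, ∀ f' ∈ F, ‖(r u * B ^ T * r (f * g * f') * (r u * B ^ T)) i b‖ ≤
      w * (w * (w * (CE * CE))) * (m * m) := by
    intro f hf f' hf'
    obtain ⟨e, he, e', he', u', hu', v', hv', heq⟩ := hT (j * T) (Nat.le_mul_of_pos_left T hj)
      u hu u hu _ ⟨(f, f'), ⟨hf, hf'⟩, rfl⟩
    have h1 : r u * B ^ T * r (f * g * f') * (r u * B ^ T) =
        r e * (r u' * B ^ T) * (r v' * B ^ T) * r e' := by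
      calc r u * B ^ T * r (f * g * f') * (r u * B ^ T)
          = r u * (B ^ T * r (f * g * f' * u)) * B ^ T := by
            simp only [map_mul, mul_assoc]
        _ = r (u * (Φ ^ (j * T)) (f * g * f' * u)) * B ^ T * B ^ T := by
            rw [hpow, map_mul r u]; simp only [mul_assoc]
        _ = r (e * u') * (r ((Φ ^ (j * T)) (v' * (Φ ^ (j * T)) e')) * B ^ T) * B ^ T := by
            rw [heq, map_mul r (e * u')]; simp only [mul_assoc]
        _ = r (e * u') * B ^ T * r v' * (r ((Φ ^ (j * T)) e') * B ^ T) := by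
            rw [← hpow, map_mul r v']; simp only [mul_assoc]
        _ = _ := by rw [← hpow, map_mul r e]; simp only [mul_assoc]
    rw [h1]
    have h2 := (((hCE e he).mul (hbd u' hu')).mul (hbd v' hv')).mul (hCE e' he') i b
    refine h2.trans (le_of_eq ?_)
    ring
  have hexp : (r u * B ^ T) i b * r g p q * (r u * B ^ T) i b =
      ∑ f ∈ (c (b, p)).support, ∑ f' ∈ (c (q, i)).support,
        c (b, p) f * c (q, i) f' * (r u * B ^ T * r (f * g * f') * (r u * B ^ T)) i b := by
    rw [← sandwich, ← hc (b, p), ← hc (q, i)]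
    simp only [Finsupp.sum, Finset.sum_mul, Finset.mul_sum, Matrix.sum_apply, map_mul,
      smul_mul_assoc, mul_smul_comm, Matrix.smul_apply, smul_eq_mul]
    rw [Finset.sum_comm]
    refine Finset.sum_congr rfl fun f _ => Finset.sum_congr rfl fun f' _ => ?_
    ring
  have hC0 : 0 ≤ w * (w * (w * (CE * CE))) := by
    have : 0 ≤ w := Nat.cast_nonneg _
    have := mul_self_nonneg CE
    positivity
  have hfin : ‖r g p q‖ * (m * m) ≤ K * K * (w * (w * (w * (CE * CE)))) * (m * m) := by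
    calc ‖r g p q‖ * (m * m) = ‖(r u * B ^ T) i b * r g p q * (r u * B ^ T) i b‖ := by
          rw [norm_mul, norm_mul]; ring
      _ ≤ ∑ f ∈ (c (b, p)).support, ∑ f' ∈ (c (q, i)).support,
          ‖c (b, p) f‖ * ‖c (q, i) f'‖ * (w * (w * (w * (CE * CE))) * (m * m)) := by
          rw [hexp]
          refine (norm_sum_le _ _).trans (Finset.sum_le_sum fun f hf => ?_)
          refine (norm_sum_le _ _).trans (Finset.sum_le_sum fun f' hf' => ?_)
          rw [norm_mul, norm_mul]
          refine mul_le_mul_of_nonneg_left (key f ?_ f' ?_) (by positivity)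
          · exact Finset.mem_biUnion.2 ⟨_, Finset.mem_univ _, hf⟩
          · exact Finset.mem_biUnion.2 ⟨_, Finset.mem_univ _, hf'⟩
      _ = (∑ f ∈ (c (b, p)).support, ‖c (b, p) f‖) * (∑ f' ∈ (c (q, i)).support, ‖c (q, i) f'‖) *
          (w * (w * (w * (CE * CE))) * (m * m)) := by
          rw [Finset.sum_mul_sum, Finset.sum_mul]
          exact Finset.sum_congr rfl fun f _ => (Finset.sum_mul _ _ _).symm
      _ ≤ K * K * (w * (w * (w * (CE * CE))) * (m * m)) := by
          refine mul_le_mul_of_nonneg_right ?_ (by positivity)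
          exact mul_le_mul (hKle _) (hKle _) (Finset.sum_nonneg fun _ _ => norm_nonneg _) hK0
      _ = _ := by ring
  exact le_of_mul_le_mul_right hfin (by positivity)

end Mat

section Modules

variable {k R : Type*} [NormedField k] [Ring R] [Algebra k R]

/-- Burnside: a simple module of finite dimension over an algebraically closed field. -/
theorem burnside [IsAlgClosed k] {W : Type*} [AddCommGroup W] [Module k W] [Module R W]
    [IsScalarTower k R W] [IsSimpleModule R W] [FiniteDimensional k W] (f : Module.End k W) :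
    ∃ x : R, Algebra.lsmul k k W x = f := by
  classical
  let f' : Module.End (Module.End R W) W :=
    { toFun := f
      map_add' := f.map_add
      map_smul' := fun φ w => by
        obtain ⟨c, rfl⟩ := (IsSimpleModule.algebraMap_end_bijective_of_isAlgClosed k).2 φ
        simp }
  let b := Module.finBasis k W
  obtain ⟨x, hx⟩ := jacobson_density f' (Finset.univ.image b)
  refine ⟨x, b.ext fun i => ?_⟩
  exact (hx (b i) (Finset.mem_image_of_mem _ (Finset.mem_univ i))).symm

variable {Γ : Type*} [Group Γ]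

/-- Step (a) for a simple module. -/
theorem bounded_simple [IsAlgClosed k] {Φ : MulAut Γ} (hW : Win Φ) (ι : Γ →* R)
    (hι : ∀ x, x ∈ Submodule.span k (Set.range ι)) {W : Type*} [AddCommGroup W] [Module k W]
    [Module R W] [IsScalarTower k R W] [IsSimpleModule R W] [FiniteDimensional k W]
    (B : W →ₗ[k] W) (hB : Function.Injective B) {j : ℕ} (hj : 0 < j)
    (h : ∀ g w, B (ι g • w) = ι ((Φ ^ j) g) • B w) :
    ∃ w : W, w ≠ 0 ∧ ∀ l : Module.Dual k W, ∃ C, ∀ g, ‖l (ι g • w)‖ ≤ C := by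
  classical
  have : Nontrivial W := IsSimpleModule.nontrivial R W
  let b := Module.finBasis k W
  have : Nonempty (Fin (Module.finrank k W)) := ⟨⟨0, Module.finrank_pos⟩⟩
  let L : R →ₐ[k] Matrix (Fin (Module.finrank k W)) (Fin (Module.finrank k W)) k :=
    (LinearMap.toMatrixAlgEquiv b).toAlgHom.comp (Algebra.lsmul k k W)
  have hL : ∀ x, L x = LinearMap.toMatrixAlgEquiv b (Algebra.lsmul k k W x) := fun _ => rfl
  let r : Γ →* Matrix (Fin (Module.finrank k W)) (Fin (Module.finrank k W)) k :=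
    (L : R →* _).comp ι
  have hr : ∀ g, r g = L (ι g) := fun _ => rfl
  have hBu : IsUnit (LinearMap.toMatrixAlgEquiv b B) :=
    ((LinearMap.isUnit_iff_ker_eq_bot B).2 (LinearMap.ker_eq_bot.2 hB)).map _
  obtain ⟨C, hC⟩ := bounded hW r hBu hj (fun g => by
      rw [hr, hr, hL, hL, ← map_mul, ← map_mul]
      congr 1
      ext w
      exact h g w) (fun M => by
      obtain ⟨x, hx⟩ := burnside (R := R) ((LinearMap.toMatrixAlgEquiv b).symm M)
      have hM : M = L x := by rw [hL, hx, AlgEquiv.apply_symm_apply]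
      rw [hM]
      have := Submodule.apply_mem_span_image_of_mem_span L.toLinearMap (hι x)
      rwa [← Set.range_comp] at this)
  obtain ⟨p⟩ : Nonempty (Fin (Module.finrank k W)) := inferInstance
  refine ⟨b p, b.ne_zero p, fun l => ⟨∑ i, C * ‖l (b i)‖, fun g => ?_⟩⟩
  rw [← b.sum_repr (ι g • b p), map_sum]
  refine (norm_sum_le _ _).trans (Finset.sum_le_sum fun i _ => ?_)
  rw [map_smul, norm_smul]
  refine mul_le_mul_of_nonneg_right ?_ (norm_nonneg _)
  have := hC g i p
  rwa [hr, hL, LinearMap.toMatrixAlgEquiv_apply] at this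

variable {V : Type*} [AddCommGroup V] [Module k V] [Module R V] [IsScalarTower k R V]

/-- The preimage of a submodule under a twisted linear map. -/
def pull (ι : Γ →* R) (hι : ∀ x, x ∈ Submodule.span k (Set.range ι)) (A : V →ₗ[k] V)
    (Ψ : Γ → Γ) (h : ∀ g v, A (ι g • v) = ι (Ψ g) • A v) (W : Submodule R V) : Submodule R V where
  carrier := {v | A v ∈ W}
  add_mem' := fun {a b} ha hb => by
    simp only [Set.mem_ofPred_eq, map_add] at ha hb ⊢
    exact W.add_mem ha hb
  zero_mem' := by simp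
  smul_mem' := fun x v hv => by
    simp only [Set.mem_ofPred_eq] at hv ⊢
    induction hι x using Submodule.span_induction with
    | mem x hx => obtain ⟨g, rfl⟩ := hx; rw [h]; exact W.smul_mem _ hv
    | zero => simp
    | add x y _ _ hx hy => rw [add_smul, map_add]; exact W.add_mem hx hy
    | smul c x _ hx => rw [smul_assoc, map_smul]; exact W.smul_of_tower_mem c hx

theorem symm_twist (ι : Γ →* R) (A : V ≃ₗ[k] V) (Ψ : MulAut Γ)
    (h : ∀ g v, A (ι g • v) = ι (Ψ g) • A v) (g : Γ) (v : V) :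
    A.symm (ι g • v) = ι (Ψ.symm g) • A.symm v := by
  apply A.injective
  rw [h]; simp

theorem isAtom_pull (ι : Γ →* R) (hι : ∀ x, x ∈ Submodule.span k (Set.range ι)) (A : V ≃ₗ[k] V)
    (Ψ : MulAut Γ) (h : ∀ g v, A (ι g • v) = ι (Ψ g) • A v) {W : Submodule R V} (hW : IsAtom W) :
    IsAtom (pull ι hι A.toLinearMap Ψ h W) := by
  let e : Submodule R V ≃o Submodule R V :=
    { toFun := pull ι hι A.toLinearMap Ψ h
      invFun := pull ι hι A.symm.toLinearMap Ψ.symm (symm_twist ι A Ψ h)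
      left_inv := fun U => by
        ext v
        change A (A.symm v) ∈ U ↔ _
        rw [A.apply_symm_apply]
      right_inv := fun U => by
        ext v
        change A.symm (A v) ∈ U ↔ _
        rw [A.symm_apply_apply]
      map_rel_iff' := fun {U U'} => by
        refine ⟨fun hle v hv => ?_, fun hle v hv => hle hv⟩
        have h1 : A (A.symm v) ∈ U := by rwa [A.apply_symm_apply]
        have h2 : A (A.symm v) ∈ U' := hle h1
        rwa [A.apply_symm_apply] at h2 }
  exact (e.isAtom_iff W).2 hW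

theorem pow_twist (ι : Γ →* R) (A : V ≃ₗ[k] V) (Φ : MulAut Γ)
    (h : ∀ g v, A (ι g • v) = ι (Φ g) • A v) (n : ℕ) (g : Γ) (v : V) :
    (A ^ n) (ι g • v) = ι ((Φ ^ n) g) • (A ^ n) v := by
  induction n with
  | zero => simp
  | succ n ih =>
    rw [pow_succ' A, pow_succ' Φ, LinearEquiv.mul_apply, LinearEquiv.mul_apply, ih, h]
    rfl

/-- Step (b): a nonzero vector with bounded orbit. -/
theorem exists_bounded [IsAlgClosed k] {Φ : MulAut Γ} (hW : Win Φ) (ι : Γ →* R)
    (hι : ∀ x, x ∈ Submodule.span k (Set.range ι)) [FiniteDimensional k V] [Nontrivial V]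
    (A : V ≃ₗ[k] V) (h : ∀ g v, A (ι g • v) = ι (Φ g) • A v) :
    ∃ v : V, v ≠ 0 ∧ ∀ l : Module.Dual k V, ∃ C, ∀ g, ‖l (ι g • v)‖ ≤ C := by
  have : IsArtinian R V := isArtinian_of_tower k inferInstance
  have : IsNoetherian R V := isNoetherian_of_tower k inferInstance
  obtain ⟨W, hWa, -⟩ := (eq_bot_or_exists_atom_le (⊤ : Submodule R V)).resolve_left top_ne_bot
  let Wn : ℕ → Submodule R V := fun n =>
    pull ι hι (A ^ n).toLinearMap (Φ ^ n : MulAut Γ) (pow_twist ι A Φ h n) W
  have hWn : ∀ n v, v ∈ Wn n ↔ (A ^ n) v ∈ W := fun _ _ => Iff.rfl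
  have hsim : ∀ n, IsSimpleModule R (Wn n) := fun n =>
    isSimpleModule_iff_isAtom.2 (isAtom_pull ι hι (A ^ n) (Φ ^ n) (pow_twist ι A Φ h n) hWa)
  let U : ℕ →o Submodule R V :=
    ⟨fun n => sSup (Wn '' Set.Iio n), fun a b hab =>
      sSup_le_sSup (Set.image_mono (Set.Iio_subset_Iio hab))⟩
  obtain ⟨N, hN⟩ := monotone_stabilizes_iff_noetherian.2 (inferInstance : IsNoetherian R V) U
  have hle : Wn N ≤ sSup (Wn '' Set.Iio N) := by
    have h1 : Wn N ≤ U (N + 1) := le_sSup ⟨N, Nat.lt_succ_self N, rfl⟩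
    rwa [← hN (N + 1) (Nat.le_succ N)] at h1
  have := hsim N
  have : ∀ m : (Wn '' Set.Iio N), IsSimpleModule R m := by
    rintro ⟨_, i, _, rfl⟩
    exact hsim i
  obtain ⟨_, ⟨i, hi, rfl⟩, ⟨θ⟩⟩ := (Wn N).linearEquiv_of_le_sSup _ hle
  obtain ⟨j, hj⟩ := Nat.exists_eq_add_of_lt (show i < N from hi)
  have hmem : ∀ w : Wn N, (A ^ (j + 1)) w ∈ Wn i := fun w => by
    rw [hWn, ← LinearEquiv.mul_apply, ← pow_add, ← add_assoc, ← hj]
    exact w.2
  let B : Wn N →ₗ[k] Wn N :=
    { toFun := fun w => θ.symm ⟨(A ^ (j + 1)) w, hmem w⟩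
      map_add' := fun a b => by
        rw [← map_add]
        congr 1
        exact Subtype.ext (map_add _ _ _)
      map_smul' := fun c a => by
        rw [RingHom.id_apply, ← LinearMapClass.map_smul_of_tower θ.symm]
        congr 1
        exact Subtype.ext (map_smul _ _ _) }
  have : FiniteDimensional k (Wn N) :=
    Module.Finite.of_injective ((Wn N).subtype.restrictScalars k) Subtype.val_injective
  obtain ⟨w, hw0, hw⟩ := bounded_simple hW ι hι B (fun a b hab => by
      have h1 := congrArg Subtype.val (θ.symm.injective hab)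
      exact Subtype.ext ((A ^ (j + 1)).injective h1)) (Nat.succ_pos j) (fun g w => by
      change θ.symm _ = _ • θ.symm _
      rw [← map_smul]
      congr 1
      exact Subtype.ext (pow_twist ι A Φ h (j + 1) g w))
  refine ⟨w, fun h0 => hw0 (Subtype.ext h0), fun l => ?_⟩
  exact hw (l.comp ((Wn N).subtype.restrictScalars k))

/-- Vectors with bounded orbit. -/
def bdd (ι : Γ →* R) (hι : ∀ x, x ∈ Submodule.span k (Set.range ι)) : Submodule R V where
  carrier := {v | ∀ l : Module.Dual k V, ∃ C, ∀ g, ‖l (ι g • v)‖ ≤ C}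
  add_mem' := fun {a b} ha hb l => by
    obtain ⟨C, hC⟩ := ha l
    obtain ⟨C', hC'⟩ := hb l
    refine ⟨C + C', fun g => ?_⟩
    rw [smul_add, map_add]
    exact (norm_add_le _ _).trans (add_le_add (hC g) (hC' g))
  zero_mem' := fun l => ⟨0, fun g => by simp⟩
  smul_mem' := fun x v hv l => by
    obtain ⟨C, hC⟩ := hv l
    induction hι x using Submodule.span_induction with
    | mem x hx =>
      obtain ⟨f, rfl⟩ := hx
      exact ⟨C, fun g => by rw [← mul_smul, ← map_mul]; exact hC _⟩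
    | zero => exact ⟨0, fun g => by simp⟩
    | add x y _ _ hx hy =>
      obtain ⟨C₁, h₁⟩ := hx
      obtain ⟨C₂, h₂⟩ := hy
      refine ⟨C₁ + C₂, fun g => ?_⟩
      rw [add_smul, smul_add, map_add]
      exact (norm_add_le _ _).trans (add_le_add (h₁ g) (h₂ g))
    | smul c x _ hx =>
      obtain ⟨C₁, h₁⟩ := hx
      refine ⟨‖c‖ * C₁, fun g => ?_⟩
      rw [smul_assoc, smul_comm, map_smul, norm_smul]
      exact mul_le_mul_of_nonneg_left (h₁ g) (norm_nonneg _)

end Modules

universe u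

/-- Step (c): eigenvalues, by induction on the dimension. -/
theorem eigen_le {k R : Type*} [NormedField k] [Ring R] [Algebra k R] [IsAlgClosed k]
    {Γ : Type*} [Group Γ] {Φ : MulAut Γ} (hW : Win Φ) (ι : Γ →* R)
    (hι : ∀ x, x ∈ Submodule.span k (Set.range ι)) (γ : Γ) (z : k) (n : ℕ) :
    ∀ (V : Type u) [AddCommGroup V] [Module k V] [Module R V] [IsScalarTower k R V]
      [FiniteDimensional k V], Module.finrank k V ≤ n → ∀ A : V ≃ₗ[k] V,
      (∀ g v, A (ι g • v) = ι (Φ g) • A v) → ∀ v : V, v ≠ 0 → ι γ • v = z • v → ‖z‖ ≤ 1 := by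
  induction n with
  | zero =>
    intro V _ _ _ _ _ hn A _ v hv _
    have : Nontrivial V := nontrivial_of_ne v 0 hv
    exact absurd Module.finrank_pos (not_lt.2 hn)
  | succ n ih =>
    intro V _ _ _ _ _ hn A h v hv hz
    have : Nontrivial V := nontrivial_of_ne v 0 hv
    let P : Submodule R V := bdd ι hι
    have hP : ∀ x, x ∈ P ↔ ∀ l : Module.Dual k V, ∃ C, ∀ g, ‖l (ι g • x)‖ ≤ C := fun _ => Iff.rfl
    by_cases hvP : v ∈ P
    · obtain ⟨l, hl⟩ : ∃ l : Module.Dual k V, l v ≠ 0 := by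
        by_contra hc
        push Not at hc
        exact hv ((Module.forall_dual_apply_eq_zero_iff k v).1 hc)
      obtain ⟨C, hC⟩ := (hP v).1 hvP l
      have hpow : ∀ m : ℕ, ι (γ ^ m) • v = z ^ m • v := by
        intro m
        induction m with
        | zero => simp
        | succ m ihm => rw [pow_succ', map_mul, mul_smul, ihm, smul_comm, hz, smul_smul, pow_succ]
      by_contra hgt
      have hl0 : 0 < ‖l v‖ := norm_pos_iff.2 hl
      obtain ⟨m, hm⟩ := pow_unbounded_of_one_lt (C / ‖l v‖) (not_le.1 hgt)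
      have h1 := hC (γ ^ m)
      rw [hpow, map_smul, norm_smul, norm_pow] at h1
      rw [div_lt_iff₀ hl0] at hm
      exact absurd h1 (not_le.2 hm)
    · have hAP : ∀ x, A x ∈ P ↔ x ∈ P := by
        intro x
        rw [hP, hP]
        constructor
        · intro hx l
          obtain ⟨C, hC⟩ := hx (l.comp A.symm.toLinearMap)
          refine ⟨C, fun g => ?_⟩
          have := hC (Φ g)
          rwa [← h, LinearMap.comp_apply, LinearEquiv.coe_coe, A.symm_apply_apply] at this
        · intro hx l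
          obtain ⟨C, hC⟩ := hx (l.comp A.toLinearMap)
          refine ⟨C, fun g => ?_⟩
          have := hC (Φ.symm g)
          rwa [LinearMap.comp_apply, LinearEquiv.coe_coe, h, MulEquiv.apply_symm_apply] at this
      let e := Submodule.Quotient.restrictScalarsEquiv k P
      have hmap : (P.restrictScalars k).map (A : V →ₗ[k] V) = P.restrictScalars k := by
        ext x
        constructor
        · rintro ⟨y, hy, rfl⟩
          exact (hAP y).2 hy
        · intro hx
          exact ⟨A.symm x, (hAP _).1 (by rwa [A.apply_symm_apply]), A.apply_symm_apply x⟩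
      let A' : (V ⧸ P) ≃ₗ[k] (V ⧸ P) :=
        e.symm ≪≫ₗ Submodule.Quotient.equiv _ _ A hmap ≪≫ₗ e
      have hA' : ∀ x, A' (Submodule.Quotient.mk x) = Submodule.Quotient.mk (A x) := fun _ => rfl
      have : FiniteDimensional k (V ⧸ P) := Module.Finite.equiv e
      have hrank : Module.finrank k (V ⧸ P) ≤ n := by
        obtain ⟨x, hx0, hx⟩ := exists_bounded hW ι hι A h
        have h1 := Submodule.finrank_quotient_add_finrank (P.restrictScalars k)
        have h2 : 0 < Module.finrank k (P.restrictScalars k) :=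
          Module.finrank_pos_iff_exists_ne_zero.2
            ⟨⟨x, (hP x).2 hx⟩, fun h0 => hx0 (congrArg Subtype.val h0)⟩
        rw [← e.finrank_eq]
        omega
      refine ih (V ⧸ P) hrank A' (fun g x => ?_) (Submodule.Quotient.mk v) ?_ ?_
      · obtain ⟨y, rfl⟩ := Submodule.Quotient.mk_surjective P x
        rw [← Submodule.Quotient.mk_smul, hA', hA', h, Submodule.Quotient.mk_smul]
      · rwa [Ne, Submodule.Quotient.mk_eq_zero]
      · rw [← Submodule.Quotient.mk_smul, hz, Submodule.Quotient.mk_smul]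

end GWinX

/-- Steps 2 and 3 of the notes: all eigenvalues have absolute value at most one. -/
theorem Win.root_le {Γ : Type*} [Group Γ] {Φ : MulAut Γ} (hW : Win Φ) {k : Type*} [NormedField k]
    [IsAlgClosed k] {d : ℕ} (ρ : Γ →* Matrix (Fin d) (Fin d) k) {A : Matrix (Fin d) (Fin d) k}
    (hA : IsUnit A) (h : ∀ γ, A * ρ γ = ρ (Φ γ) * A) (γ : Γ) {z : k}
    (hz : (ρ γ).charpoly.IsRoot z) : ‖z‖ ≤ 1 := by
  let ρ' : Representation k Γ (Fin d → k) :=
    ((Matrix.toLinAlgEquiv' : Matrix (Fin d) (Fin d) k ≃ₐ[k] _) : _ →* _).comp ρ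
  have hρ' : ∀ g, ρ' g = Matrix.toLinAlgEquiv' (ρ g) := fun _ => rfl
  have hι : ∀ x, x ∈ Submodule.span k (Set.range (MonoidAlgebra.of k Γ)) := by
    intro x
    induction x using MonoidAlgebra.induction_on with
    | of g => exact Submodule.subset_span ⟨g, rfl⟩
    | add x y hx hy => exact Submodule.add_mem _ hx hy
    | smul c x hx => exact Submodule.smul_mem _ c hx
  obtain ⟨A', hA'⟩ := hA.map (Matrix.toLinAlgEquiv' : Matrix (Fin d) (Fin d) k ≃ₐ[k] _)
  let A₁ : (Fin d → k) ≃ₗ[k] (Fin d → k) := LinearMap.GeneralLinearGroup.toLinearEquiv A'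
  have hA₁ : ∀ v, A₁ v = Matrix.toLinAlgEquiv' A v := fun v => by rw [← hA']; rfl
  have hev : Module.End.HasEigenvalue (ρ' γ) z := by
    rw [Module.End.hasEigenvalue_iff_isRoot_charpoly, hρ']
    exact (Matrix.charpoly_toLin' (ρ γ)).symm ▸ hz
  obtain ⟨v, hv⟩ := hev.exists_hasEigenvector
  let e := ρ'.asModuleEquiv
  refine GWinX.eigen_le hW (MonoidAlgebra.of k Γ) hι γ z _ ρ'.asModule le_rfl
    (e ≪≫ₗ A₁ ≪≫ₗ e.symm) (fun g x => ?_) (e.symm v) (by simpa using hv.2) ?_
  · obtain ⟨y, rfl⟩ := e.symm.surjective x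
    simp only [LinearEquiv.trans_apply]
    rw [← ρ'.asModuleEquiv_symm_map_rho, ← ρ'.asModuleEquiv_symm_map_rho, e.apply_symm_apply,
      e.apply_symm_apply, hA₁, hA₁, hρ', hρ', ← Module.End.mul_apply, ← Module.End.mul_apply,
      ← map_mul, ← map_mul, h]
  · rw [← ρ'.asModuleEquiv_symm_map_rho, hv.apply_eq_smul, map_smul]

end Pool.Agent.P.MP_5c499f_an
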