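import Pool.Agent.P.MP_5c499f_an.GLift
import Pool.Agent.P.MP_5c499f_an.GDefs
import Pool.Agent.P.MP_5c499f_an.GWin

/-! Uniform long brackets from global product structure, and the window principle. -/

set_option autoImplicit false

namespace Pool.Agent.P.MP_5c499f_an

open Filter Topology Metric

variable {Y M Γ : Type*} [MetricSpace Y] [MetricSpace M]

lemma reach_of_conn [PreconnectedSpace Y] {ρ : ℝ} (hρ : 0 < ρ) (o a : Y) : ∃ R, Reach ρ R o a := by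
  have : IsClopen {a | ∃ R, Reach ρ R o a} := by
    refine ⟨isOpen_compl_iff.1 (Metric.isOpen_iff.2 fun a ha => ⟨ρ, hρ, fun b hb ⟨R, hR⟩ => ha
      ⟨_, hR.trans (.single ?_)⟩⟩), Metric.isOpen_iff.2 fun a ⟨R, hR⟩ => ⟨ρ, hρ, fun b hb =>
      ⟨_, hR.trans (.single (mem_ball.1 hb).le)⟩⟩⟩
    exact dist_comm a b ▸ (mem_ball.1 hb).le
  exact (this.eq_univ ⟨o, 0, .refl _ _⟩ ▸ Set.mem_univ a : a ∈ {a | ∃ R, Reach ρ R o a})

lemma reach_of_cpt [PreconnectedSpace Y] {ρ : ℝ} (hρ : 0 < ρ) (o : Y) {K : Set Y}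
    (hK : IsCompact K) : ∃ R, ∀ a ∈ K, Reach ρ R o a :=
  (unifK (l := atTop) hK fun c _ => by
    obtain ⟨R, hR⟩ := reach_of_conn hρ o c
    exact ⟨_, Ici_mem_atTop (R + 1), mem_of_superset (closedBall_mem_nhds c hρ) fun a ha i hi =>
      (hR.trans (.single ha)).mono hρ.le hi⟩).exists

lemma cpt_reach {ρ : ℝ} (hρ : 0 < ρ) (h : ∀ a : Y, IsCompact (closedBall a (2 * ρ))) {K : Set Y}
    (hK : IsCompact K) (R : ℕ) : ∃ K', IsCompact K' ∧ ∀ a ∈ K, ∀ b, Reach ρ R a b → b ∈ K' := by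
  induction R with
  | zero => exact ⟨K, hK, fun a ha b e => e.zero ▸ ha⟩
  | succ R ih =>
    obtain ⟨K', h1, h2⟩ := ih
    obtain ⟨T, -, t1, t2⟩ := finite_cover_balls_of_compact h1 hρ
    refine ⟨_, t1.isCompact_biUnion fun c _ => h c, fun a ha b e => ?_⟩
    obtain ⟨w, w1, w2⟩ := e.succ
    obtain ⟨c, c1, c2⟩ := Set.mem_iUnion₂.1 (t2 (h2 a ha w w1))
    exact Set.mem_biUnion c1 (mem_closedBall.2 (by linarith [dist_triangle b w c, mem_ball.1 c2]))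

lemma asym_iff {G : Equiv.Perm Y} {x y : Y} :
    Asym G x y ↔ ∀ η, 0 < η → ∃ T : ℕ, St G T η x y := by
  simp only [Asym, ← Equiv.Perm.coe_pow, Metric.tendsto_atTop, dist_zero_right,
    Real.norm_of_nonneg dist_nonneg]
  refine ⟨fun h η hη => (h η hη).imp fun T hT k hk => ?_, fun h η hη =>
    (h _ (half_pos hη)).imp fun T hT k hk => ?_⟩
  · obtain ⟨k, rfl⟩ := Int.eq_ofNat_of_zero_le (show 0 ≤ k by omega)
    simpa using (hT k (by omega)).le
  · simpa using (hT k (by omega)).trans_lt (half_lt_self hη)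

lemma asym_iff' {G : Equiv.Perm Y} {x y : Y} :
    Asym (G⁻¹ : Equiv.Perm Y) x y ↔ ∀ η, 0 < η → ∃ T : ℕ, Un G (-T) η x y := by
  simp only [asym_iff, St, Un, inv_zpow']
  refine forall₂_congr fun η _ => exists_congr fun T => ⟨fun h k hk => ?_, fun h k hk =>
    h _ (by omega)⟩
  simpa using h (-k) (by omega)

variable [Group Γ] [MulAction Γ Y]

/-- The coarse dynamical data coming from global product structure. -/
structure Gps (G : Equiv.Perm Y) (Φ : MulAut Γ) (ρ : ℝ) (o : Y) : Prop where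
  pos : 0 < ρ
  iso : ∀ (g : Γ) (a b : Y), dist (g • a) (g • b) = dist a b
  free : ∀ (g : Γ) (a : Y), g • a = a → g = 1
  conn : ∀ a, ∃ R, Reach ρ R o a
  cocpt : ∃ R, ∀ a, ∃ g : Γ, Reach ρ R o (g⁻¹ • a)
  proper : ∀ R, {g : Γ | Reach ρ R o (g • o)}.Finite
  equiv : ∀ (g : Γ) a, G (g • a) = Φ g • G a
  cont : ∀ k : ℤ, Continuous (G ^ k)
  lip : ∃ L, ∀ a b, dist a b ≤ ρ → Reach ρ L (G a) (G b)
  br : ∀ R, ∃ T : ℕ, ∀ p q, Reach ρ R p q → ∃ w, St G T ρ w q ∧ Un G (-T) ρ w p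
  cpt : ∀ R, ∃ K, IsCompact K ∧ ∀ b, Reach ρ R o b → b ∈ K
  cs : ∃ c : ℕ, ∀ (k : ℤ) x y, (St G k (ρ + ρ) x y → St G (c + k) ρ x y) ∧
    (Un G k (ρ + ρ) x y → Un G (-c + k) ρ x y)

lemma UH.br_near {G : Equiv.Perm Y} (h : UH G) (hc : ∀ k : ℤ, Continuous (G ^ k)) {ρ : ℝ}
    (hρ : 0 < ρ) {w₀ p₀ q₀ : Y} (h1 : Asym G w₀ q₀) (h2 : Asym (G⁻¹ : Equiv.Perm Y) w₀ p₀) :
    ∃ T : ℕ, ∀ᶠ z : Y × Y in 𝓝 (p₀, q₀), ∃ w, St G T ρ w z.2 ∧ Un G (-T) ρ w z.1 := by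
  obtain ⟨ε, a1, a2⟩ := h.cs
  obtain ⟨δ, a3, a4⟩ := h.br (min ε (ρ / 2)) (by positivity)
  have a5 : ∀ (l : ℤ) x y, dist ((G ^ l) x) ((G ^ l) y) ≤ δ →
      ∃ z, St G l (min ε (ρ / 2)) z x ∧ Un G l (min ε (ρ / 2)) z y := fun l x y e => by
    obtain ⟨z, z1, z2⟩ := a4 _ _ e
    obtain ⟨z, rfl⟩ := (G ^ l).surjective z
    exact ⟨z, by simpa using St_shift.1 z1, by simpa using Un_shift.1 z2⟩
  have d3 : 0 < δ / 3 := by linarith
  obtain ⟨k, hk⟩ := a2 _ d3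
  obtain ⟨T, b1⟩ := asym_iff.1 h1 _ d3
  obtain ⟨T', b2⟩ := asym_iff'.1 h2 _ d3
  refine ⟨T + T' + k, ?_⟩
  filter_upwards [((hc (-T')).comp continuous_fst).continuousAt.preimage_mem_nhds
    (closedBall_mem_nhds _ d3), ((hc (T + k)).comp continuous_snd).continuousAt.preimage_mem_nhds
    (closedBall_mem_nhds _ d3)] with ⟨p, q⟩ c1 c2
  simp only [Set.mem_preimage, mem_closedBall, Function.comp_apply] at c1 c2
  obtain ⟨z, z1, z2⟩ := a5 (-T') w₀ p (by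
    linarith [b2 _ le_rfl, dist_triangle_right ((G ^ (-T' : ℤ)) w₀) ((G ^ (-T' : ℤ)) p)
      ((G ^ (-T' : ℤ)) p₀)])
  have z3 := St_shift.1 ((hk _ _).1 ((St_shift (l := -T')).2
    (z1.mono (by omega) (min_le_left _ _))))
  obtain ⟨w, w1, w2⟩ := a5 (T + k) q z (by
    linarith [b1 (T + k) (by omega), z3 (T + k) (by omega), dist_triangle4_right
      ((G ^ (T + k : ℤ)) q) ((G ^ (T + k : ℤ)) z) ((G ^ (T + k : ℤ)) q₀) ((G ^ (T + k : ℤ)) w₀),
      dist_comm ((G ^ (T + k : ℤ)) q₀) ((G ^ (T + k : ℤ)) w₀)])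
  have := min_le_right ε (ρ / 2)
  exact ⟨w, w1.mono (by push_cast; omega) (by linarith),
    ((w2.mono (by omega) le_rfl).trans z2).mono (by push_cast; omega) (by linarith)⟩

theorem exists_gps [CompactSpace M] [ConnectedSpace Y] [IsIsometricSMul Γ Y] {p : Y → M}
    (hp : IsQuotientCoveringMap p Γ) {F : Equiv.Perm M} (hF : Continuous F)
    (hF' : Continuous (F⁻¹ : Equiv.Perm M)) {K : ℕ} (hK : 0 < K) {a b Λ Λ' : ℝ}
    (h : Hyp (F ^ K) a b Λ Λ') {G : Equiv.Perm Y} (hG : ∀ a, p (G a) = F (p a))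
    (c1 : Continuous G) (c2 : Continuous (G⁻¹ : Equiv.Perm Y))
    (ex : ∀ x y, ∃ w, Asym G w x ∧ Asym (G⁻¹ : Equiv.Perm Y) w y) :
    ∃ (Φ : MulAut Γ) (ρ : ℝ) (o : Y), Gps G Φ ρ o ∧
      ((∀ x y w w', Asym G w x ∧ Asym (G⁻¹ : Equiv.Perm Y) w y →
        Asym G w' x ∧ Asym (G⁻¹ : Equiv.Perm Y) w' y → w = w') →
      ∀ R u v, (∀ k : ℤ, Reach ρ R ((G ^ k) u) ((G ^ k) v)) → u = v) := by
  obtain ⟨o⟩ : Nonempty Y := inferInstance
  obtain ⟨C, δ, k1, k2, k3, k4⟩ := exists_cpt hp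
  have free : ∀ (g : Γ) (a : Y), g • a = a → g = 1 := fun g a e =>
    hp.isCancelSMul.right_cancel' g 1 a (by rwa [one_smul])
  have key : ∀ γ γ' : Γ, G (γ • o) = γ' • G o → ∀ a, G (γ • a) = γ' • G a := fun γ γ' e =>
    congrFun (hp.isCoveringMap.eq_of_comp_eq (c1.comp (hp.continuous_const_smul γ))
      ((hp.continuous_const_smul γ').comp c1) (funext fun a => by simp [hG, hp.map_smul]) o e)
  obtain ⟨Φ, hΦ⟩ := exists_aut (G := G) free o (fun γ =>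
    (hp.apply_eq_iff_mem_orbit.1 (show p (G (γ • o)) = p (G o) by rw [hG, hG, hp.map_smul])).imp
      fun γ' e => key _ _ e.symm) fun γ' =>
    (hp.apply_eq_iff_mem_orbit.1 (show p (G⁻¹ (γ' • G o)) = p o from F.injective (by
      rw [← hG, ← hG]; simp [hp.map_smul]))).imp fun γ e => key _ _ (by simp [show γ • o = _ from e])
  have eqv := equiv_zpow (act := (· • ·)) hΦ
  have u1 : UniformContinuous G := uc_of_inv k1 k2 c1 fun g a b => by rw [hΦ, hΦ, dist_smul]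
  have u2 : UniformContinuous (G⁻¹ : Equiv.Perm Y) := uc_of_inv k1 k2 c2 fun g a b => by
    have := eqv (-1) g
    simp only [zpow_neg_one] at this
    rw [this, this, dist_smul]
  obtain ⟨η, e1, e2⟩ := unif_sep hp k1 k2
  have H : UH G := (h.uh hK (CompactSpace.uniformContinuous_of_continuous hF)
    (CompactSpace.uniformContinuous_of_continuous hF')).lift hG
    (uc_of_inv k1 k2 hp.continuous fun g a b => by rw [hp.map_smul, hp.map_smul])
    (fun _ => unif_open hp k1 k2) e1 e2 u1 u2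
  obtain ⟨ε, a1, a2⟩ := H.cs
  have r0 : 0 < min (ε / 2) (δ / 2) := by positivity
  set ρ := min (ε / 2) (δ / 2)
  have r3 : ρ + ρ ≤ ε := by linarith [min_le_left (ε / 2) (δ / 2)]
  have r1 : ρ ≤ ε := by linarith
  have r2 : ρ ≤ δ / 2 := min_le_right _ _
  have cb : ∀ a : Y, IsCompact (closedBall a (2 * ρ)) := fun a => by
    obtain ⟨g, hg⟩ := k2 a
    rw [← smul_inv_smul g a, ← Metric.smul_closedBall]
    exact (k4.of_isClosed_subset isClosed_closedBall fun b hb =>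
      mem_cthickening_of_dist_le b _ _ _ hg ((mem_closedBall.1 hb).trans (by linarith))).smul g
  have cont := fun k => (uc_zpow u1 u2 k).continuous
  have br : ∀ R, ∃ T : ℕ, ∀ p q, Reach ρ R p q → ∃ w, St G T ρ w q ∧ Un G (-T) ρ w p := by
    intro R
    obtain ⟨C', k5, k6⟩ := cpt_reach r0 cb k1 R
    obtain ⟨T, hT⟩ := (unifK (l := atTop) (P := fun (T : ℕ) (z : Y × Y) =>
      ∃ w, St G T ρ w z.2 ∧ Un G (-T) ρ w z.1) (k1.prod k5) fun c _ => by
        obtain ⟨w, w1, w2⟩ := ex c.2 c.1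
        obtain ⟨T, hT⟩ := H.br_near cont r0 w1 w2
        exact ⟨_, Ici_mem_atTop T, hT.mono fun z ⟨w, w1, w2⟩ i (hi : T ≤ i) =>
          ⟨w, w1.mono (by omega) le_rfl, w2.mono (by omega) le_rfl⟩⟩).exists
    refine ⟨T, fun u v e => ?_⟩
    obtain ⟨g, hg⟩ := k2 u
    obtain ⟨w, w1, w2⟩ := hT (g⁻¹ • u, g⁻¹ • v) ⟨hg, k6 _ hg _ (e.smul dist_smul _)⟩
    refine ⟨g • w, fun k hk => ?_, fun k hk => ?_⟩
    · rw [← smul_inv_smul g v, eqv, eqv, dist_smul]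
      exact w1 k hk
    · rw [← smul_inv_smul g u, eqv, eqv, dist_smul]
      exact w2 k hk
  refine ⟨Φ, ρ, o, ⟨r0, dist_smul, free, reach_of_conn r0 o, ?_, fun R => ?_, hΦ, cont, ?_, br,
    fun R => (cpt_reach r0 cb (isCompact_singleton (x := o)) R).imp fun _ h =>
      ⟨h.1, h.2 o rfl⟩, (a2 ρ r0).imp fun k hk l x y =>
      ⟨fun e => St_shift.1 ((hk _ _).1 (St_shift.2 (e.mono (by omega) r3))),
        fun e => Un_shift.1 ((hk _ _).2 (Un_shift.2 (e.mono (by omega) r3)))⟩⟩,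
    fun uq R u v e => ?_⟩
  · exact (reach_of_cpt r0 o k1).imp fun R hR a => (k2 a).imp fun g hg => hR _ hg
  · obtain ⟨C', k5, k6⟩ := cpt_reach r0 cb (isCompact_singleton (x := o)) R
    obtain ⟨T, -, t1, t2⟩ := finite_cover_balls_of_compact k5 e1
    refine (t1.biUnion (t := fun c => {g : Γ | g • o ∈ ball c η})
      fun c _ => Set.Subsingleton.finite fun g hg g' hg' => ?_).subset
      fun g hg => by simpa using t2 (k6 o rfl _ hg)
    refine hp.isCancelSMul.right_cancel' g g' o (e2 _ _ ?_ (by rw [hp.map_smul, hp.map_smul]))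
    linarith [dist_triangle_right (g • o) (g' • o) c, mem_ball.1 hg, mem_ball.1 hg']
  · obtain ⟨C', k5, k6⟩ := cpt_reach r0 cb k1 1
    obtain ⟨L, hL⟩ := reach_of_cpt r0 o (k5.image c1)
    refine ⟨L + L, fun u v e => ?_⟩
    obtain ⟨g, hg⟩ := k2 u
    have := ((hL _ ⟨_, k6 _ hg (g⁻¹ • u) (.single (by simpa using r0.le)), rfl⟩).symm.trans
      (hL _ ⟨_, k6 _ hg (g⁻¹ • v) (.single (by rwa [dist_smul, dist_comm])), rfl⟩)).smul
      dist_smul (Φ g)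
    rwa [← hΦ, ← hΦ, smul_inv_smul, smul_inv_smul] at this
  · obtain ⟨T, hT⟩ := br R
    have s1 : ∀ (l : ℤ) x y, St G l ρ x y → ∀ η, 0 < η → ∃ k : ℕ, St G (k + l) η x y :=
      fun l x y e η hη => (a2 η hη).imp fun k hk =>
        St_shift.1 ((hk _ _).1 (St_shift.2 (e.mono (by omega) r1)))
    have s2 : ∀ (l : ℤ) x y, Un G l ρ x y → ∀ η, 0 < η → ∃ k : ℕ, Un G (-k + l) η x y :=
      fun l x y e η hη => (a2 η hη).imp fun k hk =>
        Un_shift.1 ((hk _ _).2 (Un_shift.2 (e.mono (by omega) r1)))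
    have s3 : ∀ k : ℤ, ∃ w, St G (T + k) ρ w v ∧ Un G (-T + k) ρ w u := fun k => by
      obtain ⟨w, w1, w2⟩ := hT _ _ (e k)
      obtain ⟨w, rfl⟩ := (G ^ k).surjective w
      exact ⟨w, St_shift.1 w1, Un_shift.1 w2⟩
    choose w w1 w2 using s3
    have s4 : ∀ k, Asym G (w k) v ∧ Asym (G⁻¹ : Equiv.Perm Y) (w k) u := fun k =>
      ⟨asym_iff.2 fun η hη => (s1 _ _ _ (w1 k) η hη).elim fun j hj =>
        ⟨j + (T + k).toNat, hj.mono (by push_cast; omega) le_rfl⟩,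
      asym_iff'.2 fun η hη => (s2 _ _ _ (w2 k) η hη).elim fun j hj =>
        ⟨j + (T - k).toNat, hj.mono (by push_cast; omega) le_rfl⟩⟩
    have s5 : ∀ k, w k = w 0 := fun k => uq _ _ _ _ (s4 k) (s4 0)
    have s6 : w 0 = v := dist_le_zero.1 (le_of_forall_pos_le_add fun η hη => by
      obtain ⟨k, hk⟩ := a2 η hη
      simpa using St_shift.1 ((hk _ _).1 ((St_shift (l := -k)).2
        ((s5 _ ▸ w1 (-k - T)).mono (by omega) r1))) 0 (by omega))
    have s7 : w 0 = u := dist_le_zero.1 (le_of_forall_pos_le_add fun η hη => by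
      obtain ⟨k, hk⟩ := a2 η hη
      simpa using Un_shift.1 ((hk _ _).2 ((Un_shift (l := k)).2
        ((s5 _ ▸ w2 (k + T)).mono (by omega) r1))) 0 (by omega))
    rw [← s6, s7]

namespace Gps

variable {G : Equiv.Perm Y} {Φ : MulAut Γ} {ρ : ℝ} {o : Y} (D : Gps G Φ ρ o)
include D

lemma step (R : ℕ) : ∃ L, ∀ a b, Reach ρ R a b → Reach ρ L (G a) (G b) := by
  obtain ⟨L, hL⟩ := D.lip
  refine ⟨L * R, ?_⟩
  induction R with
  | zero => exact fun a b h => h.zero ▸ Reach.refl _ _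
  | succ R ih =>
    intro a b h
    obtain ⟨w, w1, w2⟩ := h.succ
    exact (ih _ _ w1).trans (hL _ _ (dist_comm b w ▸ w2))

lemma bdd {S : Set Γ} (hS : S.Finite) : ∃ R, ∀ g ∈ S, Reach ρ R o (g • o) := by
  choose R hR using D.conn
  obtain ⟨R', h'⟩ := (hS.image fun g => R (g • o)).bddAbove
  exact ⟨R', fun g hg => (hR _).mono D.pos.le (h' ⟨_, hg, rfl⟩)⟩

theorem fg : ∃ S : Set Γ, S.Finite ∧ Subgroup.closure S = ⊤ := by
  obtain ⟨R₀, h⟩ := D.cocpt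
  refine ⟨_, D.proper (R₀ + 1 + R₀), eq_top_iff.2 fun g _ => ?_⟩
  have key : ∀ R a, Reach ρ R o a → ∀ g : Γ, Reach ρ R₀ o (g⁻¹ • a) →
      g ∈ Subgroup.closure {g : Γ | Reach ρ (R₀ + 1 + R₀) o (g • o)} := fun R => by
    induction R with
    | zero =>
      intro a ha g hg
      rw [← ha.zero] at hg
      exact inv_mem_iff.1 (Subgroup.subset_closure (hg.mono D.pos.le (by omega)))
    | succ R ih =>
      intro a ha g hg
      obtain ⟨w, w1, w2⟩ := ha.succ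
      obtain ⟨u, hu⟩ := h w
      have := Subgroup.subset_closure (k := {g : Γ | Reach ρ (R₀ + 1 + R₀) o (g • o)})
        (show u⁻¹ * g ∈ _ from (hu.trans (.single (q := u⁻¹ • a) (by rwa [D.iso]))).trans
          (by simpa [mul_smul] using (hg.smul D.iso (u⁻¹ * g)).symm))
      simpa using mul_mem (ih w w1 u hu) this
  obtain ⟨R, hR⟩ := D.conn (g • o)
  exact key R _ hR g (by simpa using (Reach.refl ρ o).mono D.pos.le (Nat.zero_le _))

theorem win : Win Φ := by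
  obtain ⟨R₀, h⟩ := D.cocpt
  have eqv : ∀ (n : ℕ) (g : Γ) a, (G ^ n) (g • a) = (Φ ^ n) g • (G ^ n) a := fun n => by
    simpa using equiv_zpow (act := (· • ·)) D.equiv n
  refine ⟨_, fun n => {u | ∃ y, Reach ρ R₀ o y ∧ Reach ρ R₀ o (u • (G ^ n) y)},
    D.proper (R₀ + 1 + R₀), fun n => ⟨?_, ?_⟩, fun S hS => ?_⟩
  · have : ∃ L, ∀ y, Reach ρ R₀ o y → Reach ρ L o ((G ^ n) y) := by
      induction n with
      | zero => exact ⟨R₀, fun y hy => hy⟩
      | succ n ih =>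
        obtain ⟨L, hL⟩ := ih
        obtain ⟨L', h'⟩ := D.step L
        obtain ⟨R, hR⟩ := D.conn (G o)
        exact ⟨_, fun y hy => by rw [pow_succ']; exact hR.trans (h' _ _ (hL y hy))⟩
    obtain ⟨L, hL⟩ := this
    exact (D.proper (R₀ + L)).subset fun u ⟨y, y1, y2⟩ => y2.trans ((hL y y1).smul D.iso u).symm
  · exact (h ((G ^ n) o)).elim fun g hg =>
      ⟨g⁻¹, o, (Reach.refl ρ o).mono D.pos.le (Nat.zero_le _), hg⟩
  obtain ⟨R, hR⟩ := D.bdd hS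
  obtain ⟨T, hT⟩ := D.br (R₀ + R + R₀)
  refine ⟨T, fun n hn u ⟨y, y1, y2⟩ v ⟨y', y3, y4⟩ γ hγ => ?_⟩
  obtain ⟨w, w1, w2⟩ := hT _ _ (((y4.smul D.iso γ).symm.trans (hR γ hγ).symm).trans y1)
  obtain ⟨c, hc⟩ := h w
  obtain ⟨e, he⟩ := h (u • (G ^ n) w)
  obtain ⟨s, hs⟩ := (G ^ n).surjective ((γ * v)⁻¹ • w)
  obtain ⟨e', he'⟩ := h s
  have b1 : dist (u • (G ^ n) w) (u • (G ^ n) y) ≤ ρ := by
    simpa [D.iso] using w1 n (by omega)
  have b2 : dist s y' ≤ ρ := by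
    have := w2 (-n) (by omega)
    rw [← mul_smul, ← smul_inv_smul (γ * v) w, ← hs, equiv_zpow (act := (· • ·)) D.equiv,
      equiv_zpow (act := (· • ·)) D.equiv, D.iso] at this
    simpa using this
  refine ⟨e, (y2.trans (.single b1)).trans (by simpa using (he.smul D.iso e).symm), e'⁻¹,
    (he'.trans ((y3.trans (.single b2)).smul D.iso e'⁻¹).symm).mono D.pos.le (by omega),
    e⁻¹ * u * (Φ ^ n) c, ⟨_, hc, by simpa [mul_smul, eqv] using he⟩,
    c⁻¹ * (γ * v) * (Φ ^ n) e', ⟨_, he', by simpa [mul_smul, eqv, hs] using hc⟩, ?_⟩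
  simp [mul_assoc]

end Gps

end Pool.Agent.P.MP_5c499f_an
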