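import Pool.Agent.P.MP_5c499f_an.Coarse

/-! Local hyperbolic structure without rates, and its transfer to a regular cover. -/

set_option autoImplicit false

namespace Pool.Agent.P.MP_5c499f_an

open Filter Topology Metric

lemma unifK {ι X : Type*} [TopologicalSpace X] {l : Filter ι} {K : Set X} (hK : IsCompact K)
    {P : ι → X → Prop} (h : ∀ c ∈ K, ∃ s ∈ l, ∀ᶠ a in 𝓝 c, ∀ i ∈ s, P i a) :
    ∀ᶠ i in l, ∀ a ∈ K, P i a := by
  have := hK.mem_prod_nhdsSet_of_forall (l := l) (s := {z | P z.1 z.2}) fun c hc => by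
    obtain ⟨s, h1, h2⟩ := h c hc
    exact mem_of_superset (prod_mem_prod h1 h2) fun z hz => hz.2 _ hz.1
  obtain ⟨s, h1, t, h2, h3⟩ := mem_prod_iff.1 this
  exact mem_of_superset h1 fun i hi a ha => h3 (Set.mk_mem_prod hi (subset_of_mem_nhdsSet h2 ha))

lemma unifK' {X : Type*} [TopologicalSpace X] {K : Set X} (hK : IsCompact K)
    {P : ℝ → X → Prop} (h : ∀ c ∈ K, ∃ r, 0 < r ∧ ∀ᶠ a in 𝓝 c, ∀ r', r' ≤ r → P r' a) :
    ∃ r, 0 < r ∧ ∀ a ∈ K, P r a :=
  (Eventually.and (f := 𝓝[>] (0 : ℝ)) self_mem_nhdsWithin (unifK hK fun c hc => by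
    obtain ⟨r, h1, h2⟩ := h c hc
    exact ⟨_, nhdsWithin_le_nhds (Iic_mem_nhds h1), h2⟩)).exists

variable {Y M Γ : Type*} [MetricSpace Y] [MetricSpace M]

lemma St_shift {G : Equiv.Perm Y} {l m : ℤ} {r : ℝ} {x y : Y} :
    St G m r ((G ^ l) x) ((G ^ l) y) ↔ St G (m + l) r x y := by
  simp only [St, zpow_apply_zpow]
  exact ⟨fun h k hk => by simpa using h (k - l) (by omega), fun h k hk => h _ (by omega)⟩

lemma Un_shift {G : Equiv.Perm Y} {l m : ℤ} {r : ℝ} {x y : Y} :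
    Un G m r ((G ^ l) x) ((G ^ l) y) ↔ Un G (m + l) r x y := by
  simp only [Un, zpow_apply_zpow]
  exact ⟨fun h k hk => by simpa using h (k - l) (by omega), fun h k hk => h _ (by omega)⟩

/-- Uniform local hyperbolic structure without rates. -/
structure UH (G : Equiv.Perm Y) : Prop where
  br : ∀ ε, 0 < ε → ∃ δ, 0 < δ ∧ ∀ x y, dist x y ≤ δ → ∃ z, St G 0 ε z x ∧ Un G 0 ε z y
  cs : ∃ ε, 0 < ε ∧ ∀ η, 0 < η → ∃ k : ℕ, ∀ x y,
    (St G 0 ε x y → St G k η x y) ∧ (Un G 0 ε x y → Un G (-k) η x y)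

theorem Hyp.uh {F : Equiv.Perm M} {K : ℕ} {a b Λ Λ' : ℝ} (h : Hyp (F ^ K) a b Λ Λ') (hK : 0 < K)
    (h1 : UniformContinuous F) (h2 : UniformContinuous (F⁻¹ : Equiv.Perm M)) : UH F := by
  have hK' : (0 : ℤ) < K := by exact_mod_cast hK
  have pw : ∀ k : ℤ, (F ^ K) ^ k = F ^ (K * k) := fun k => by rw [zpow_mul, zpow_natCast]
  have key : ∀ ε, 0 < ε → ∃ η, 0 < η ∧ ∀ (k : ℤ) u v,
      dist (((F ^ K) ^ (k / K)) u) (((F ^ K) ^ (k / K)) v) ≤ η →
      dist ((F ^ k) u) ((F ^ k) v) ≤ ε := fun ε hε => by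
    choose η e1 e2 using fun s : Fin K => uniformContinuous_iff_le.1 (uc_zpow h1 h2 s) ε hε
    obtain ⟨R, hR⟩ := Finite.exists_le fun s => (η s)⁻¹
    refine ⟨(max R 1)⁻¹, by positivity, fun k u v e => ?_⟩
    have := e2 ⟨(k % K).toNat, by have := Int.emod_lt_of_pos k hK'; omega⟩ (e.trans
      (inv_le_of_inv_le₀ (e1 _) ((hR _).trans (le_max_left _ _))))
    rwa [pw, zpow_apply_zpow, zpow_apply_zpow, Int.toNat_of_nonneg (Int.emod_nonneg k hK'.ne'),
      Int.emod_add_mul_ediv] at this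
  refine ⟨fun ε hε => ?_, ?_⟩
  · obtain ⟨η, e1, e2⟩ := key ε hε
    obtain ⟨ε', δ, C, e3, hl⟩ := h.lh η e1
    refine ⟨δ, hl.δ_pos, fun x y hxy => ?_⟩
    obtain ⟨z, z1, z2⟩ := hl.br x y (by linarith [hl.δ_pos])
    exact ⟨z, fun k hk => e2 k _ _ ((z1 _ (Int.ediv_nonneg hk hK'.le)).trans e3),
      fun k hk => e2 k _ _ ((z2 _ (Int.ediv_le_of_le_mul hK' (by simpa))).trans e3)⟩
  · obtain ⟨ε, δ, C, -, hl⟩ := h.lh 1 one_pos
    refine ⟨4 * ε, by linarith [hl.ε_pos], fun η hη => ?_⟩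
    obtain ⟨η', e1, e2⟩ := key η hη
    obtain ⟨j, j1, j2⟩ := ((exists_small C hl.a_nonneg hl.a_lt e1).and
      (exists_small C hl.b_nonneg hl.b_lt e1)).exists
    refine ⟨K * j, fun x y => ⟨fun e k hk => e2 k _ _ ((hl.cs' (l := 0)
      (fun i hi => pw i ▸ e _ (by positivity)) j _ ?_).trans j1.le), fun e k hk => e2 k _ _
      ((hl.cu' (l := 0) (fun i hi => pw i ▸ e _ (by nlinarith)) j _ ?_).trans j2.le)⟩⟩
    · refine Int.le_ediv_of_mul_le hK' (le_trans ?_ hk)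
      push_cast; linarith
    · refine Int.ediv_le_of_le_mul hK' (hk.trans ?_)
      push_cast; linarith

theorem UH.lift {F : Equiv.Perm M} (h : UH F) {G : Equiv.Perm Y} {p : Y → M}
    (hG : ∀ a, p (G a) = F (p a)) (u1 : UniformContinuous p)
    (u2 : ∀ η, 0 < η → ∃ δ, 0 < δ ∧ ∀ a y, dist y (p a) ≤ δ → ∃ b, p b = y ∧ dist b a ≤ η)
    {η₀ : ℝ} (h0 : 0 < η₀) (u3 : ∀ a b, dist a b ≤ 2 * η₀ → p a = p b → a = b)
    (h1 : UniformContinuous G) (h2 : UniformContinuous (G⁻¹ : Equiv.Perm Y)) : UH G := by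
  have L : ∀ η, 0 < η → ∃ δ, 0 < δ ∧ ∀ a b, dist a b ≤ η₀ → dist (p a) (p b) ≤ δ →
      dist a b ≤ η := fun η hη => by
    obtain ⟨δ, d1, d2⟩ := u2 (min η η₀) (lt_min hη h0)
    refine ⟨δ, d1, fun a b e1 e2 => ?_⟩
    obtain ⟨c, c1, c2⟩ := d2 b (p a) e2
    rw [le_min_iff] at c2
    rw [← u3 c a (by linarith [dist_triangle_right c a b]) c1]
    exact c2.1
  have sc := semiconj_zpow hG
  refine ⟨fun ε hε => ?_, ?_⟩
  · obtain ⟨ε₁, a1, a2⟩ := uniformContinuous_iff_le.1 h1 η₀ h0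
    obtain ⟨ε₂, a3, a4⟩ := uniformContinuous_iff_le.1 h2 η₀ h0
    obtain ⟨ε', b0, b1, b2, b3, b4⟩ : ∃ ε', 0 < ε' ∧ ε' ≤ ε ∧ ε' ≤ ε₁ ∧ ε' ≤ ε₂ ∧ 2 * ε' ≤ η₀ :=
      ⟨min (min ε ε₁) (min ε₂ (η₀ / 2)), by positivity, by simp, by simp, by simp,
        by linarith [min_le_right (min ε ε₁) (min ε₂ (η₀ / 2)), min_le_right ε₂ (η₀ / 2)]⟩
    obtain ⟨δ₁, c1, c2⟩ := L ε' b0
    obtain ⟨δ₂, c3, c4⟩ := u2 ε' b0
    obtain ⟨δ₃, c5, c6⟩ := h.br (min δ₁ δ₂) (lt_min c1 c3)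
    obtain ⟨δ₄, c7, c8⟩ := uniformContinuous_iff_le.1 u1 δ₃ c5
    refine ⟨min δ₄ ε', lt_min c7 b0, fun x y hxy => ?_⟩
    rw [le_min_iff] at hxy
    obtain ⟨z, z1, z2⟩ := c6 _ _ (c8 hxy.1)
    obtain ⟨w, rfl, w2⟩ := c4 x z (by simpa using (z1 0 le_rfl).trans (min_le_right _ _))
    refine ⟨w, fun k hk => le_trans ?_ b1, fun k hk => le_trans ?_ b1⟩
    · induction k, hk using Int.leInduction with
      | base => simpa using w2
      | succ k hk ih =>
        refine c2 _ _ (by simpa only [zpow_succ_apply] using a2 (ih.trans b2)) ?_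
        rw [sc, sc]
        exact (z1 _ (by omega)).trans (min_le_left _ _)
    · induction k, hk using Int.leInductionDown with
      | base =>
        refine c2 _ _ ?_ ?_
        · simpa using (dist_triangle w x y).trans (by linarith)
        · rw [sc, sc]
          exact (z2 _ le_rfl).trans (min_le_left _ _)
      | pred k hk ih =>
        have := a4 (ih.trans b3)
        rw [← Equiv.Perm.mul_apply, ← Equiv.Perm.mul_apply, ← zpow_neg_one, ← zpow_add,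
          neg_add_eq_sub] at this
        refine c2 _ _ this ?_
        rw [sc, sc]
        exact (z2 _ (by omega)).trans (min_le_left _ _)
  · obtain ⟨ε, a1, a2⟩ := h.cs
    obtain ⟨δ, a3, a4⟩ := uniformContinuous_iff_le.1 u1 ε a1
    refine ⟨min δ η₀, lt_min a3 h0, fun η hη => ?_⟩
    obtain ⟨δ', b1, b2⟩ := L η hη
    obtain ⟨k, hk⟩ := a2 δ' b1
    refine ⟨k, fun x y => ⟨fun e i hi => b2 _ _ ((e i (by omega)).trans (min_le_right _ _)) ?_,
      fun e i hi => b2 _ _ ((e i (by omega)).trans (min_le_right _ _)) ?_⟩⟩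
    · rw [sc, sc]
      exact (hk _ _).1 (fun j hj => by
        rw [← sc, ← sc]; exact a4 ((e j hj).trans (min_le_left _ _))) i hi
    · rw [sc, sc]
      exact (hk _ _).2 (fun j hj => by
        rw [← sc, ← sc]; exact a4 ((e j hj).trans (min_le_left _ _))) i hi

variable [Group Γ] [MulAction Γ Y] [IsIsometricSMul Γ Y] {K : Set Y}

lemma uc_of_inv (hK : IsCompact K) (hc : ∀ a, ∃ g : Γ, g⁻¹ • a ∈ K) {e : Y → M}
    (he : Continuous e) (h : ∀ (g : Γ) a b, dist (e (g • a)) (e (g • b)) = dist (e a) (e b)) :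
    UniformContinuous e := by
  refine uniformContinuous_iff_le.2 fun ε hε => ?_
  obtain ⟨r, r0, hr⟩ := unifK' hK (P := fun r a => ∀ b, dist a b ≤ r → dist (e a) (e b) ≤ ε)
    fun c _ => by
      obtain ⟨δ, d1, d2⟩ := Metric.continuous_iff.1 he c (ε / 2) (half_pos hε)
      refine ⟨δ / 2, half_pos d1, ?_⟩
      filter_upwards [ball_mem_nhds c (half_pos d1)] with a ha r hr b hb
      rw [mem_ball] at ha
      linarith [d2 a (by linarith), d2 b (by linarith [dist_triangle_left b c a]),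
        dist_triangle_right (e a) (e b) (e c)]
  refine ⟨r, r0, fun {a b} hab => ?_⟩
  obtain ⟨g, hg⟩ := hc a
  rw [← h g⁻¹]
  exact hr _ hg _ (by rwa [dist_smul])

variable {p : Y → M} (hp : IsQuotientCoveringMap p Γ)
include hp

omit [IsIsometricSMul Γ Y] in
lemma exists_cpt [CompactSpace M] : ∃ (K : Set Y) (δ : ℝ), IsCompact K ∧
    (∀ a, ∃ g : Γ, g⁻¹ • a ∈ K) ∧ 0 < δ ∧ IsCompact (cthickening δ K) := by
  have : WeaklyLocallyCompactSpace Y := ⟨fun c => by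
    obtain ⟨e, e1, rfl⟩ := hp.isCoveringMap.isLocalHomeomorph c
    obtain ⟨N, n1, n2, n3⟩ := local_compact_nhds (e.open_target.mem_nhds (e.map_source e1))
    refine ⟨e.symm '' N, n3.image_of_continuousOn (e.continuousOn_symm.mono n2), ?_⟩
    filter_upwards [e.open_source.mem_nhds e1, (e.continuousAt e1).preimage_mem_nhds n1] with a a1 a2
    exact ⟨_, a2, e.left_inv a1⟩⟩
  choose N n1 n2 using fun c : Y => exists_compact_mem_nhds c
  obtain ⟨t, -, ht⟩ := (isCompact_univ (X := M)).elim_nhds_subcover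
    (fun x => p '' N (Function.surjInv hp.surjective x)) fun x _ => by
      simpa only [Function.surjInv_eq] using hp.isOpenQuotientMap.isOpenMap.image_mem_nhds
        (n2 (Function.surjInv hp.surjective x))
  have hK := t.isCompact_biUnion fun x _ => n1 (Function.surjInv hp.surjective x)
  obtain ⟨δ, d1, d2⟩ := hK.exists_isCompact_cthickening
  refine ⟨_, δ, hK, fun a => ?_, d1, d2⟩
  obtain ⟨x, hx, b, b1, b2⟩ := Set.mem_iUnion₂.1 (ht (Set.mem_univ (p a)))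
  obtain ⟨g, rfl⟩ := hp.apply_eq_iff_mem_orbit.1 b2.symm
  exact ⟨g, Set.mem_biUnion hx (by simpa using b1)⟩

variable (hK : IsCompact K) (hc : ∀ a, ∃ g : Γ, g⁻¹ • a ∈ K)
include hK hc

lemma unif_open {η : ℝ} (hη : 0 < η) :
    ∃ δ, 0 < δ ∧ ∀ a y, dist y (p a) ≤ δ → ∃ b, p b = y ∧ dist b a ≤ η := by
  obtain ⟨r, r0, hr⟩ := unifK' hK
    (P := fun r a => ∀ y, dist y (p a) ≤ r → ∃ b, p b = y ∧ dist b a ≤ η) fun c _ => by
      obtain ⟨δ, d1, d2⟩ := Metric.mem_nhds_iff.1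
        (hp.isOpenQuotientMap.isOpenMap.image_mem_nhds (ball_mem_nhds c (half_pos hη)))
      refine ⟨δ / 2, half_pos d1, ?_⟩
      filter_upwards [ball_mem_nhds c (half_pos hη), hp.continuous.continuousAt.preimage_mem_nhds
        (ball_mem_nhds (p c) (half_pos d1))] with a a1 a2 r hr y hy
      rw [Set.mem_preimage, mem_ball] at a2
      obtain ⟨b, b1, b2⟩ := d2 (show dist y (p c) < δ by linarith [dist_triangle y (p a) (p c)])
      exact ⟨b, b2, by linarith [dist_triangle_right b a c, mem_ball.1 a1, mem_ball.1 b1]⟩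
  refine ⟨r, r0, fun a y hy => ?_⟩
  obtain ⟨g, hg⟩ := hc a
  obtain ⟨b, b1, b2⟩ := hr _ hg y (by rwa [hp.map_smul])
  exact ⟨g • b, by rwa [hp.map_smul], by rwa [← dist_smul g, smul_inv_smul] at b2⟩

lemma unif_sep : ∃ η, 0 < η ∧ ∀ a b, dist a b ≤ 2 * η → p a = p b → a = b := by
  obtain ⟨r, r0, hr⟩ := unifK' hK
    (P := fun r a => ∀ g : Γ, dist (g • a) a ≤ 2 * r → g = 1) fun c _ => by
      obtain ⟨U, u1, u2⟩ := hp.disjoint c
      obtain ⟨δ, d1, d2⟩ := Metric.mem_nhds_iff.1 u1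
      refine ⟨δ / 4, by linarith, ?_⟩
      filter_upwards [ball_mem_nhds c (half_pos d1)] with a a1 r hr g hg
      rw [mem_ball] at a1
      exact u2 g ⟨_, ⟨a, d2 (show dist a c < δ by linarith), rfl⟩,
        d2 (show dist (g • a) c < δ by linarith [dist_triangle (g • a) a c])⟩
  refine ⟨r, r0, fun a b hab e => ?_⟩
  obtain ⟨g, rfl⟩ := hp.apply_eq_iff_mem_orbit.1 e
  obtain ⟨u, hu⟩ := hc b
  have := hr _ hu (u⁻¹ * g * u) (by
    rwa [← dist_smul u, smul_inv_smul, mul_smul, smul_inv_smul, mul_smul, smul_inv_smul])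
  rw [show g = 1 by simpa [mul_assoc, inv_mul_eq_iff_eq_mul] using this]
  exact one_smul _ _

end Pool.Agent.P.MP_5c499f_an
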