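import Pool.Agent.P.MP_5c499f_an.GConj
import Pool.Agent.P.MP_5c499f_an.GCore
import Pool.Agent.P.MP_5c499f_an.GTrace
import Pool.Agent.P.MP_5c499f_an.GUnip

/-! Assembly. -/

set_option autoImplicit false

namespace Pool.Agent.P.MP_5c499f_an

open Bundle Filter Topology Pool.Agent.Lib.Gromov
open scoped Manifold ContDiff

lemma wgd_of_virt {Γ : Type*} [Group Γ] (h : Group.IsVirtuallyNilpotent Γ) {S : Set Γ}
    (hS : S.Finite) (hgen : Subgroup.closure S = ⊤) : ∃ d, WGd Γ d := by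
  obtain ⟨C, d, hC⟩ := pl_of_virtuallyNilpotent h (hS.union hS.inv)
  refine ⟨d, fun T hT => ?_⟩
  choose k hk using fun g : Γ => exists_mem_W (S := S ∪ S⁻¹) (g := g)
    (fun a ha => ha.elim (fun h => .inr (by simpa)) fun h => .inl (by simpa))
    (Subgroup.closure_mono Set.subset_union_left (hgen ▸ trivial))
  obtain ⟨L, hL⟩ := (hT.image k).bddAbove
  refine Wk.scale ⟨C, fun N => ⟨N, le_rfl, hC N⟩⟩ (monotone_ncard_W (hS.union hS.inv)) 1 L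
    fun n => ?_
  rw [one_mul]
  exact Set.ncard_le_ncard (W_subset_W (fun g hg => W_mono subset_rfl (hL ⟨g, hg, rfl⟩) (hk g)) n)
    (finite_W (hS.union hS.inv) _)

theorem Gps.unip {Y Γ : Type*} [MetricSpace Y] [Group Γ] [MulAction Γ Y] {G : Equiv.Perm Y}
    {Φ : MulAut Γ} {r : ℝ} {o : Y} (D : Gps G Φ r o) {d : ℕ} (ρ : Γ →* GL (Fin d) ℂ)
    (A : GL (Fin d) ℂ) (hA : ∀ γ γ' : Γ, (∀ y, G (γ • y) = γ' • G y) → A * ρ γ = ρ γ' * A) :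
    ∃ N : Subgroup Γ, N.FiniteIndex ∧
      (∀ g ∈ N, IsNilpotent ((ρ g : Matrix (Fin d) (Fin d) ℂ) - 1)) ∧
      (Function.Injective ρ → Group.IsNilpotent N) := by
  obtain ⟨S, s1, s2⟩ := D.fg
  obtain ⟨N, h1, h2, h3⟩ := exists_unipotent ((Units.coeHom _).comp ρ)
    (D.win.finite_trace s1 s2 _ A.isUnit fun γ => congrArg Units.val (hA γ _ (D.equiv γ)))
  exact ⟨N, h1, h2, fun h => h3 (Units.val_injective.comp h)⟩

variable {E : Type*} [NormedAddCommGroup E] [NormedSpace ℝ E] [FiniteDimensional ℝ E]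
  {M : Type*} [TopologicalSpace M] [T2Space M] [CompactSpace M]
  [ChartedSpace E M] [IsManifold 𝓘(ℝ, E) ∞ M]
  [RiemannianBundle fun x : M => TangentSpace 𝓘(ℝ, E) x]
  [IsContinuousRiemannianBundle E fun x : M => TangentSpace 𝓘(ℝ, E) x]
  (f : Diffeomorph 𝓘(ℝ, E) 𝓘(ℝ, E) M M 1) (hf : IsAnosov E f)
  {Y Γ : Type*} [MetricSpace Y] [ConnectedSpace Y] [Group Γ] [MulAction Γ Y] [IsIsometricSMul Γ Y]
  {p : Y → M} (hp : IsQuotientCoveringMap p Γ) (F : Y ≃ₜ Y) (hF : ∀ y, p (F y) = f (p y))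
include hf hp hF

theorem gps_of_anosov (ex : ∀ x y, ∃ w, Asym F w x ∧ Asym F.symm w y) :
    ∃ (Φ : MulAut Γ) (ρ : ℝ) (o : Y), Gps F.toEquiv Φ ρ o ∧
      ((∀ x y w w', Asym F w x ∧ Asym F.symm w y → Asym F w' x ∧ Asym F.symm w' y → w = w') →
      ∀ R u v, (∀ k : ℤ, Reach ρ R (((F.toEquiv : Equiv.Perm Y) ^ k) u)
        (((F.toEquiv : Equiv.Perm Y) ^ k) v)) → u = v) := by
  obtain ⟨n, e, e1, e2, e3⟩ := exists_embedding_euclidean_of_compact (I := 𝓘(ℝ, E)) (M := M)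
  let _ := e2.isEmbedding.comapMetricSpace e
  obtain ⟨K, a, b, Λ, Λ', k0, h⟩ := core' (e := e) (fun x y => dist_eq_norm (e x) (e y))
    (e1.of_le (by simp)) e3 f hf
  exact exists_gps hp (F := f.toEquiv) f.continuous f.symm.continuous k0 h hF F.continuous
    F.symm.continuous ex

theorem gps_unipotent (ex : ∀ x y, ∃ w, Asym F w x ∧ Asym F.symm w y) {d : ℕ}
    (ρ : Γ →* GL (Fin d) ℂ) (A : GL (Fin d) ℂ)
    (hA : ∀ γ γ' : Γ, (∀ y, F (γ • y) = γ' • F y) → A * ρ γ = ρ γ' * A) :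
    ∃ N : Subgroup Γ, N.FiniteIndex ∧
      ∀ g ∈ N, IsNilpotent ((ρ g : Matrix (Fin d) (Fin d) ℂ) - 1) := by
  obtain ⟨Φ, r, o, D, -⟩ := gps_of_anosov f hf hp F hF ex
  exact (D.unip ρ A hA).imp fun N h => ⟨h.1, h.2.1⟩

theorem gps_linear (gps : ∀ x y, ∃! w, Asym F w x ∧ Asym F.symm w y) {d : ℕ}
    (ρ : Γ →* GL (Fin d) ℂ) (hρ : Function.Injective ρ) (A : GL (Fin d) ℂ)
    (hA : ∀ γ γ' : Γ, (∀ y, F (γ • y) = γ' • F y) → A * ρ γ = ρ γ' * A) : InfranilConj f := by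
  obtain ⟨Φ, r, o, D, gl⟩ := gps_of_anosov f hf hp F hF fun x y => (gps x y).exists
  obtain ⟨N, h1, -, h2⟩ := D.unip ρ A hA
  obtain ⟨S, s1, s2⟩ := D.fg
  obtain ⟨d, hd⟩ := wgd_of_virt ⟨N, h2 hρ, h1⟩ s1 s2
  obtain ⟨Λ, c1, c2, c3, c4, c5⟩ := exists_char s1 s2 hd
  obtain ⟨L, c, hL⟩ := exists_layers c3 c5
  obtain ⟨m, μ, lv, β, A', α, B, Fa⟩ := exists_aff Φ Λ hL
  exact D.final Fa (gl fun x y _ _ => (gps x y).unique) hp hF

end Pool.Agent.P.MP_5c499f_an
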