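import Pool.Agent.P.MP_5c499f_an.Semi
import Pool.Agent.P.MP_5c499f_an.GDyn

/-! Hyperbolicity of the nilpotent model, by a maximum principle. -/

set_option autoImplicit false

namespace Pool.Agent.P.MP_5c499f_an

open Filter Topology Law
open scoped Matrix

variable {Y Γ ι : Type*} [MetricSpace Y] [Group Γ] [MulAction Γ Y] {ρ : ℝ} {m c : ℕ} {μ : Law m}
  {lv : Fin m → ℕ} {Φ : MulAut Γ} {β : Γ →* Equiv.Perm μ.N} {A : Γ →* MulAut μ.N}
  {α : Equiv.Perm μ.N} {B : MulAut μ.N} {G : Equiv.Perm Y} {o : Y} {p q : ι → Y} {n n' : ι → μ.N}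

lemma Law.Tri.near {j : ℕ} (T : μ.Tri lv c) {d b : ι → μ.N} (hd : BL lv j d) (hb : Bf b) :
    ∃ e : ι → μ.N, Bf e ∧ ∀ s i, lv i ≤ j → (d s * b s) i = d s i + e s i := by
  obtain ⟨R, hR⟩ := hd
  let t : ι → μ.N := fun i x => if lv x < j then d i x else 0
  have t1 : Bf t := ⟨max R 0, fun i => (pi_norm_le_iff_of_nonneg (le_max_right _ _)).2 fun x => by
    simp only [t]
    split_ifs with e
    exacts [le_max_of_le_left (hR i x e), by simp]⟩
  have t2 : ∀ i, μ.W lv j ((t i)⁻¹ * d i) := fun i => T.W_iff.2 fun x hx => if_pos hx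
  refine ⟨fun s => t s * b s - t s, ((bd_mul t1 hb).prod t1).map (f := fun z => z.1 - z.2)
    (by fun_prop), fun s i hi => ?_⟩
  have e1 := T.mid (t2 s) (t s) (b s) hi
  have e2 := T.add j (t s) _ (t2 s) i hi
  rw [mul_inv_cancel_left] at e1 e2
  change _ = _ + ((t s * b s) i - t s i)
  linarith

variable (D : Gps G Φ ρ o)
include D

lemma Gps.smul (h : BY ρ p q) (g : ι → Γ) : BY ρ (fun i => g i • p i) fun i => g i • q i :=
  h.imp fun _ h i => (h i).smul D.iso _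

lemma Gps.step' (h : BY ρ p q) : BY ρ (fun i => G (p i)) fun i => G (q i) :=
  let ⟨R, hR⟩ := h
  (D.step R).imp fun _ h i => h _ _ (hR i)

lemma Gps.fin {s : Set Y} (hs : s.Finite) (h : ∀ i, p i ∈ s) : BY ρ (fun _ => o) p := by
  choose R hR using D.conn
  obtain ⟨R', h'⟩ := (hs.image R).bddAbove
  exact ⟨R', fun i => (hR _).mono D.pos.le (h' ⟨_, h i, rfl⟩)⟩

lemma Gps.ex (β : Γ →* Equiv.Perm μ.N) (p : ι → Y) : ∃ n, Nr ρ o β p n := by
  obtain ⟨R, h⟩ := D.cocpt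
  choose γ h using h
  exact ⟨fun i => β (γ (p i)) 1, fun i => (γ (p i))⁻¹, ⟨R, fun i => h _⟩,
    by simpa using Bf.const (1 : μ.N)⟩

lemma Nr.left' (h : Nr ρ o β p n) (h' : BY ρ p q) : Nr ρ o β q n :=
  let ⟨γ, h1, h2⟩ := h
  ⟨γ, h1.trans (D.smul h' γ), h2⟩

variable (F : Aff μ lv c Φ β A α B)
include F

lemma Nr.bd' (h : Nr ρ o β p n) (h' : Nr ρ o β p n') : Bf fun i => (n i)⁻¹ * n' i := by
  obtain ⟨γ, h1, h2⟩ := h
  obtain ⟨γ', h3, h4⟩ := h'
  obtain ⟨R, hR⟩ := h1.trans (show BY ρ (fun i => γ i • p i) _ by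
    simpa [mul_smul] using (D.smul h3 fun i => γ i * (γ' i)⁻¹).symm)
  have := Bf.fin (f := fun g i => β g (β (γ' i) (n' i))) (D.proper R)
    (k := fun i => γ i * (γ' i)⁻¹) (fun i => by simpa [mul_smul] using hR i)
    fun g _ => h4.map (F.cont g)
  simpa only [← F.diff, ← Equiv.Perm.mul_apply, ← map_mul β, inv_mul_cancel, mul_assoc, mul_one,
    inv_mul_cancel_left, map_one, Equiv.Perm.one_apply] using
    F.bdA (bd_mul (bd_inv h2) this) fun i => (γ i)⁻¹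

lemma Nr.by' (h : Nr ρ o β p n) (h' : Nr ρ o β q n) : BY ρ p q := by
  obtain ⟨γ, h1, h2⟩ := h
  obtain ⟨γ', h3, h4⟩ := h'
  have h5 := bd_mul h4 (bd_inv (F.bdA h2 fun i => γ' i * (γ i)⁻¹))
  have h6 := D.fin (p := fun i => (γ' i * (γ i)⁻¹) • o) ((F.proper _ (Bf.iff.1 h5)).image (· • o))
    fun i => ⟨_, ⟨i, by rw [mul_inv_eq_iff_eq_mul, ← F.aff]; simp⟩, rfl⟩
  simpa [mul_smul] using D.smul (((D.smul h1 fun i => γ' i * (γ i)⁻¹).symm.trans h6.symm).trans h3)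
    fun i => (γ' i)⁻¹

lemma Nr.step' (h : Nr ρ o β p n) : Nr ρ o β (fun i => G (p i)) fun i => α (n i) :=
  let ⟨γ, h1, h2⟩ := h
  ⟨fun i => Φ (γ i), (D.fin (Set.finite_singleton (G o)) fun _ => rfl).trans
    (by simpa only [D.equiv] using D.step' h1),
    by simpa only [zpow_one, F.equiv] using h2.map (F.contB 1)⟩

lemma Nr.jump' {x : ι → ℤ → μ.N}
    (h : Nr ρ o β (fun y : ι × ℤ => (G ^ y.2) (p y.1)) fun y => x y.1 y.2) :
    Bf fun y : ι × ℤ => (α (x y.1 y.2))⁻¹ * x y.1 (y.2 + 1) :=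
  (h.step' D F).bd' D F
    (by simpa only [zpow_succ_apply] using h.comp fun y : ι × ℤ => (y.1, y.2 + 1))

theorem Gps.noUnit (j : ℕ) : NoUnit (blk lv j B) := by
  induction j using Nat.strong_induction_on with
  | _ j ih =>
  intro z l hz hl
  have z0 : z ≠ 0 := norm_ne_zero_iff.1 (hz ▸ one_ne_zero)
  have l0 : ∀ i, lv i ≠ j → l i = 0 := fun i hi => by
    have := congrFun hl i
    simpa [Matrix.vecMul, dotProduct, blk, hi, z0] using this
  let L : μ.N →L[ℝ] ℂ := LinearMap.toContinuousLinearMap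
    (∑ i, (LinearMap.proj (φ := fun _ : Fin m => ℝ) i).smulRight (l i))
  have L0 : ∀ v : μ.N, L v = l ⬝ᵥ fun i => (v i : ℂ) := fun v =>
    (LinearMap.sum_apply (M := Fin m → ℝ) _ _ v).trans (Finset.sum_congr rfl fun i _ => mul_comm _ _)
  have L1 : ∀ v v' : μ.N, (∀ i, lv i = j → v i = v' i) → L v = L v' := fun v v' h => by
    rw [L0, L0]
    refine Finset.sum_congr rfl fun i _ => ?_
    by_cases e : lv i = j <;> simp [e, h, l0]
  have L2 : ∀ v : μ.N, L (blk lv j B *ᵥ v :) = z * L v := fun v => by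
    have : (fun i => ((blk lv j B *ᵥ v) i : ℂ)) =
        (blk lv j B).map Complex.ofReal *ᵥ fun i => (v i : ℂ) := by
      ext i; simp [Matrix.mulVec, dotProduct]
    rw [L0, L0, this, Matrix.dotProduct_mulVec, hl, smul_dotProduct, smul_eq_mul]
  refine funext fun i₀ => by_contra fun hne => ?_
  have hj : lv i₀ = j := by_contra fun e => hne (l0 _ e)
  have Q : ∀ (γ : Γ) (g : μ.N), μ.W lv j g → (∀ n, β γ n = g * n) → ∀ k : ℤ, 0 ≤ k → ∃ g',
      μ.W lv j g' ∧ (∀ n, β ((Φ ^ k) γ) n = g' * n) ∧ L g' = z ^ k * L g := fun γ g g1 g2 k hk => by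
    induction k, hk using Int.leInduction with
    | base => exact ⟨g, g1, by simpa using g2, by simp⟩
    | succ k hk ih =>
      obtain ⟨g', h1, h2, h3⟩ := ih
      have h4 := F.goodB.mem _ _ h1
      refine ⟨(α 1)⁻¹⁻¹ * B g' * (α 1)⁻¹, F.tri.W_conj h4 _, fun n => ?_, ?_⟩
      · obtain ⟨n, rfl⟩ := α.surjective n
        have : ∀ n, α n = α 1 * B n := fun n => by rw [← F.affB, one_mul]
        rw [add_comm, zpow_one_add, MulAut.mul_apply, ← F.equiv, h2, this, this n]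
        simp [mul_assoc]
      · rw [L1 _ _ fun i hi => (F.tri.conj h4 _ hi.le).trans (F.tri.blk_eq F.goodB h1 hi), L2, h3,
          zpow_add_one₀ z0]
        ring
  obtain ⟨y, hy⟩ := D.ex β fun s : Y × ℤ => (G ^ s.2) s.1
  set d : Y → ℤ → μ.N := fun w k => (y (o, k))⁻¹ * y (w, k) with hd
  let I := {w // BL lv j (d w)}
  have j1 := Nr.jump' (x := fun _ k => y (o, k)) (p := fun _ : I => o) D F
    (hy.comp fun s : I × ℤ => (o, s.2))
  have j2 := Nr.jump' (x := fun w k => y (w.1, k)) (p := fun w : I => w.1) D F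
    (hy.comp fun s : I × ℤ => (s.1.1, s.2))
  have j3 : ∀ (w : I) k, d w (k + 1) = ((α (y (o, k)))⁻¹ * y (o, k + 1))⁻¹ * B (d w k) *
      ((α (y (w, k)))⁻¹ * y (w, k + 1)) := fun n k => by simp only [hd, ← F.diffB]; group
  have j4 := F.tri.sh F.goodB ih j1 j2 j3 fun w => w.2
  obtain ⟨R, hR⟩ := F.tri.step F.goodB j1 j2 j4 fun s => j3 s.1 s.2
  set φ : Y → ℤ → ℂ := fun w k => z ^ (-k) * L (d w k) with hφ
  have e1 : ∀ (w : I) k, ‖φ w (k + 1) - φ w k‖ ≤ ‖L‖ * R := fun w k => by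
    have := (map_sub L _ _).symm ▸ L.le_of_opNorm_le_of_le le_rfl (hR (w, k))
    rw [blk_congr (d := pr lv j (d w k)) (d' := d w k) fun _ h => if_pos h,
      L1 (pr lv j (d w (k + 1))) (d w (k + 1)) fun _ h => if_pos h, L2] at this
    have e : φ w (k + 1) - φ w k = z ^ (-(k + 1)) * (L (d w (k + 1)) - z * L (d w k)) := by
      simp only [hφ, neg_add, zpow_add₀ z0, zpow_neg_one]
      field_simp
    rwa [e, norm_mul, norm_zpow, hz, one_zpow, one_mul]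
  have e2 : ∀ (w : I) k (t : ℕ), ‖φ w (k + t) - φ w k‖ ≤ t * (‖L‖ * R) := fun w k t => by
    induction t with
    | zero => simp
    | succ t ih =>
      push_cast
      rw [← add_assoc]
      linarith [e1 w (k + t), norm_sub_le_norm_sub_add_norm_sub (φ w (k + t + 1)) (φ w (k + t))
        (φ w k)]
  let J := {s : I × ℤ × Γ × Y // dist ((G ^ s.2.1) s.2.2.2) (s.2.2.1 • (G ^ s.2.1) s.1.1) ≤ ρ}
  obtain ⟨e, ⟨R₁, b1⟩, b2⟩ := F.tri.near (j4.imp fun _ h (s : J) => h (s.1.1, s.1.2.1))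
    ((((hy.comp fun s : J => (s.1.1.1, s.1.2.1)).smul fun s => s.1.2.2.1).left' D
      ⟨1, fun s => .single s.2⟩).bd' D F (hy.comp fun s : J => (s.1.2.2.2, s.1.2.1)))
  have b3 : ∀ (s : J) g, μ.W lv j g → (∀ n, β s.1.2.2.1 n = g * n) → ∀ i, lv i ≤ j →
      d s.1.2.2.2 s.1.2.1 i = d s.1.1 s.1.2.1 i + e s i + g i := fun s g g1 g2 i hi => by
    rw [← b2 s i hi, ← F.tri.conj g1 (y (o, s.1.2.1)) hi,
      ← F.tri.add' j _ _ (F.tri.W_conj g1 _) i hi, g2]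
    simp [hd, mul_assoc]
  obtain ⟨R₀, b4⟩ := j4
  have b5 : ∀ (s : J) g, μ.W lv j g → (∀ n, β s.1.2.2.1 n = g * n) →
      (∀ i, lv i < j → |d s.1.2.2.2 s.1.2.1 i| ≤ R₀ + R₁) ∧
      ‖φ s.1.2.2.2 s.1.2.1 - φ s.1.1 s.1.2.1 - z ^ (-s.1.2.1) * L g‖ ≤ ‖L‖ * R₁ :=
    fun s g g1 g2 => ⟨fun i hi => by
      rw [b3 s g g1 g2 i hi.le, g1 i hi, add_zero]
      exact (abs_add_le _ _).trans (add_le_add (b4 (s.1.1, s.1.2.1) i hi)
        ((norm_le_pi_norm (e s) i).trans (b1 s))), by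
      simp only [hφ]
      rw [L1 _ (d s.1.1 s.1.2.1 + e s + g) fun i hi => b3 s g g1 g2 i hi.le, map_add, map_add,
        mul_add, add_sub_right_comm, add_sub_cancel_right, mul_add, add_sub_cancel_left, norm_mul,
        norm_zpow, hz, one_zpow, one_mul]
      exact L.le_of_opNorm_le_of_le le_rfl (b1 s)⟩
  have n0 : 0 < ‖l i₀‖ := norm_pos_iff.2 hne
  obtain ⟨N, hN⟩ := exists_nat_ge ((‖L‖ * R₁ + ‖L‖ * R₁ + 1) / ‖l i₀‖)
  rw [div_le_iff₀ n0] at hN
  obtain ⟨γ, g, g1, g2⟩ := F.lat (Pi.single i₀ N)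
  have g3 : μ.W lv j g := fun i hi => by
    rw [g1, Pi.single_eq_of_ne (by rintro rfl; omega), Int.cast_zero]
  have g4 : L g = N * l i₀ := by
    rw [L0]
    simp [g1, Pi.single_apply, dotProduct, apply_ite, mul_comm]
  have : Finite (Set.range A) := F.fin
  obtain ⟨R₂, c1⟩ := D.bdd (Set.finite_range fun a : Set.range A =>
    (Set.rangeSplitting A a)⁻¹ * γ * Set.rangeSplitting A a)
  obtain ⟨R₃, c2⟩ := D.cocpt
  obtain ⟨T, hT⟩ := D.br (R₃ + R₂ + R₃)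
  obtain ⟨θ, t1, t2⟩ := Complex.exists_norm_eq_mul_self (l i₀)
  have t3 : ∀ {x : ℂ} {r : ℝ}, ‖x‖ ≤ r → |(θ * x).re| ≤ r := fun h =>
    (Complex.abs_re_le_norm _).trans (by rwa [norm_mul, t1, one_mul])
  have gain : ∀ w : I, ∃ w' : I, (θ * (φ w T - φ w (-T))).re + 1 ≤
      (θ * (φ w' T - φ w' (-T))).re := fun w => by
    obtain ⟨u, hu⟩ := c2 w
    set v := u * (Set.rangeSplitting A ⟨A u, u, rfl⟩)⁻¹ with hv
    have v1 : ∀ n, β v n = β v 1 * n := fun n => by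
      rw [← one_mul n, F.aff, hv, map_mul A, map_inv, Set.apply_rangeSplitting A]
      simp
    have v2 : ∀ n, β (v * γ * v⁻¹) n = (β v 1)⁻¹⁻¹ * g * (β v 1)⁻¹ * n := fun n => by
      obtain ⟨n, rfl⟩ := (β v).surjective n
      rw [← Equiv.Perm.mul_apply, ← map_mul, inv_mul_cancel_right, map_mul, Equiv.Perm.mul_apply,
        g2, v1, v1 n]
      simp [mul_assoc]
    choose g' q1 q2 q3 using Q _ _ (F.tri.W_conj g3 _) v2
    rw [L1 _ g fun i hi => F.tri.conj g3 _ hi.le, g4] at q3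
    obtain ⟨w', w1, w2⟩ := hT w ((v * γ * v⁻¹) • w.1) (by
      simpa [hv, mul_smul] using ((hu.symm.trans (c1 _ ⟨⟨A u, u, rfl⟩, rfl⟩)).trans
        (hu.smul D.iso _)).smul D.iso u)
    have f1 := fun (k : ℤ) (hk : T ≤ k) => b5 ⟨(w, k, (Φ ^ k) (v * γ * v⁻¹), w'), by
      rw [← equiv_zpow (act := (· • ·)) D.equiv]; exact w1 k hk⟩ _ (q1 k (by omega)) (q2 k _)
    have f2 := fun (k : ℤ) (hk : k ≤ -T) => b5 ⟨(w, k, 1, w'), by
      rw [one_smul]; exact w2 k hk⟩ 1 W_one (by simp)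
    refine ⟨⟨w', ?_⟩, ?_⟩
    · obtain ⟨R₄, b6⟩ := (((Set.finite_Icc (-T : ℤ) T).image (d w')).isBounded).exists_norm_le
      refine ⟨max (R₀ + R₁) R₄, fun k i hi => ?_⟩
      by_cases e : k ≤ -T
      · exact le_max_of_le_left ((f2 k e).1 i hi)
      by_cases e' : T ≤ k
      · exact le_max_of_le_left ((f1 k e').1 i hi)
      · exact le_max_of_le_right ((norm_le_pi_norm _ i).trans
          (b6 _ ⟨k, ⟨by omega, by omega⟩, rfl⟩))
    have f3 := (f1 T le_rfl).2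
    have f4 := (f2 (-T) le_rfl).2
    simp only [q3, ← mul_assoc, ← zpow_add₀ z0, neg_add_cancel, zpow_zero, one_mul] at f3
    simp only [show L 1 = 0 from map_zero L, mul_zero, sub_zero] at f4
    have f5 := (abs_le.1 (t3 f3)).1
    have f6 := (abs_le.1 (t3 f4)).2
    rw [mul_sub, mul_left_comm, ← t2, ← Complex.ofReal_natCast, ← Complex.ofReal_mul] at f5
    simp only [mul_sub, Complex.sub_re, Complex.ofReal_re] at f5 f6 ⊢
    linarith
  have unb : ∀ k : ℕ, ∃ w : I, k ≤ (θ * (φ w T - φ w (-T))).re := fun k => by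
    induction k with
    | zero => exact ⟨⟨o, 0, fun k i _ => by simp [hd, one_apply]⟩, by
        simp [hφ, hd, show L 1 = 0 from map_zero L]⟩
    | succ k ih =>
      obtain ⟨w, hw⟩ := ih
      exact (gain w).imp fun w' h => by push_cast; linarith
  obtain ⟨k, hk⟩ := exists_nat_gt ((2 * T : ℕ) * (‖L‖ * R))
  obtain ⟨w, hw⟩ := unb k
  have := e2 w (-T) (2 * T)
  rw [show (-T : ℤ) + (2 * T : ℕ) = T by omega] at this
  linarith [(abs_le.1 (t3 this)).2]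

end Pool.Agent.P.MP_5c499f_an
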