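import Mathlib

/-! The rectangle argument: local product structure plus pinching gives long brackets. -/

set_option autoImplicit false

namespace Pool.Agent.P.MP_5c499f_an

variable {X : Type*} [MetricSpace X]

/-- The orbits of `p` and `q` are `r`-close from time `k₀` on. -/
def St (F : Equiv.Perm X) (k₀ : ℤ) (r : ℝ) (p q : X) : Prop :=
  ∀ k, k₀ ≤ k → dist ((F ^ k) p) ((F ^ k) q) ≤ r

/-- The orbits of `p` and `q` are `r`-close up to time `k₀`. -/
def Un (F : Equiv.Perm X) (k₀ : ℤ) (r : ℝ) (p q : X) : Prop :=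
  ∀ k, k ≤ k₀ → dist ((F ^ k) p) ((F ^ k) q) ≤ r

/-- Uniform local hyperbolic structure. -/
structure LH (F : Equiv.Perm X) (ε δ C a b : ℝ) : Prop where
  δ_pos : 0 < δ
  δ_le : δ ≤ ε
  C_nonneg : 0 ≤ C
  a_nonneg : 0 ≤ a
  a_lt : a < 1
  b_nonneg : 0 ≤ b
  b_lt : b < 1
  br : ∀ x y, dist x y ≤ 2 * δ → ∃ z, St F 0 ε z x ∧ Un F 0 ε z y
  cs : ∀ x y, St F 0 (4 * ε) x y → ∀ k : ℕ, dist ((F ^ (k : ℤ)) x) ((F ^ (k : ℤ)) y) ≤ C * a ^ k
  cu : ∀ x y, Un F 0 (4 * ε) x y →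
    ∀ k : ℕ, dist ((F ^ (-k : ℤ)) x) ((F ^ (-k : ℤ)) y) ≤ C * b ^ k

variable {F : Equiv.Perm X} {ε δ C a b : ℝ}

omit [MetricSpace X] in
lemma zpow_apply_zpow (F : Equiv.Perm X) (k l : ℤ) (p : X) :
    (F ^ k) ((F ^ l) p) = (F ^ (k + l)) p := by
  rw [zpow_add, Equiv.Perm.mul_apply]

lemma St.refl (k₀ : ℤ) {r : ℝ} (hr : 0 ≤ r) (p : X) : St F k₀ r p p := fun k _ => by simpa

lemma Un.refl (k₀ : ℤ) {r : ℝ} (hr : 0 ≤ r) (p : X) : Un F k₀ r p p := fun k _ => by simpa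

lemma St.mono {k₀ k₁ : ℤ} {r r' : ℝ} {p q : X} (h : St F k₀ r p q) (hk : k₀ ≤ k₁) (hr : r ≤ r') :
    St F k₁ r' p q := fun k hk' => (h k (hk.trans hk')).trans hr

lemma Un.mono {k₀ k₁ : ℤ} {r r' : ℝ} {p q : X} (h : Un F k₀ r p q) (hk : k₁ ≤ k₀) (hr : r ≤ r') :
    Un F k₁ r' p q := fun k hk' => (h k (hk'.trans hk)).trans hr

lemma St.trans {k₀ : ℤ} {r r' : ℝ} {p q w : X} (h : St F k₀ r p q) (h' : St F k₀ r' q w) :
    St F k₀ (r + r') p w := fun k hk =>
  (dist_triangle _ _ _).trans (add_le_add (h k hk) (h' k hk))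

lemma Un.trans {k₀ : ℤ} {r r' : ℝ} {p q w : X} (h : Un F k₀ r p q) (h' : Un F k₀ r' q w) :
    Un F k₀ (r + r') p w := fun k hk =>
  (dist_triangle _ _ _).trans (add_le_add (h k hk) (h' k hk))

lemma St.symm {k₀ : ℤ} {r : ℝ} {p q : X} (h : St F k₀ r p q) : St F k₀ r q p :=
  fun k hk => by rw [dist_comm]; exact h k hk

lemma Un.symm {k₀ : ℤ} {r : ℝ} {p q : X} (h : Un F k₀ r p q) : Un F k₀ r q p :=
  fun k hk => by rw [dist_comm]; exact h k hk

namespace LH

variable (h : LH F ε δ C a b)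
include h

lemma ε_pos : 0 < ε := h.δ_pos.trans_le h.δ_le

lemma br' (l : ℤ) {x y : X} (hxy : dist ((F ^ l) x) ((F ^ l) y) ≤ 2 * δ) :
    ∃ z, St F l ε z x ∧ Un F l ε z y := by
  obtain ⟨z, h1, h2⟩ := h.br _ _ hxy
  refine ⟨(F ^ (-l)) z, fun k hk => ?_, fun k hk => ?_⟩
  · have := h1 (k - l) (by omega)
    rwa [zpow_apply_zpow, sub_add_cancel, sub_eq_add_neg, ← zpow_apply_zpow] at this
  · have := h2 (k - l) (by omega)
    rwa [zpow_apply_zpow, sub_add_cancel, sub_eq_add_neg, ← zpow_apply_zpow] at this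

lemma cs' {l : ℤ} {x y : X} (hxy : St F l (4 * ε) x y) (j : ℕ) : St F (l + j) (C * a ^ j) x y := by
  intro k hk
  obtain ⟨i, rfl⟩ : ∃ i : ℕ, k = (i : ℤ) + l := ⟨(k - l).toNat, by omega⟩
  have := h.cs ((F ^ l) x) ((F ^ l) y) (fun k hk => by
    rw [zpow_apply_zpow, zpow_apply_zpow]; exact hxy _ (by omega)) i
  rw [zpow_apply_zpow, zpow_apply_zpow] at this
  exact this.trans (mul_le_mul_of_nonneg_left
    (pow_le_pow_of_le_one h.a_nonneg h.a_lt.le (by omega)) h.C_nonneg)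

lemma cu' {l : ℤ} {x y : X} (hxy : Un F l (4 * ε) x y) (j : ℕ) : Un F (l - j) (C * b ^ j) x y := by
  intro k hk
  obtain ⟨i, rfl⟩ : ∃ i : ℕ, k = -(i : ℤ) + l := ⟨(l - k).toNat, by omega⟩
  have := h.cu ((F ^ l) x) ((F ^ l) y) (fun k hk => by
    rw [zpow_apply_zpow, zpow_apply_zpow]; exact hxy _ (by omega)) i
  rw [zpow_apply_zpow, zpow_apply_zpow] at this
  exact this.trans (mul_le_mul_of_nonneg_left
    (pow_le_pow_of_le_one h.b_nonneg h.b_lt.le (by omega)) h.C_nonneg)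

lemma expansive {x y : X} (hxy : ∀ k : ℤ, dist ((F ^ k) x) ((F ^ k) y) ≤ 4 * ε) : x = y := by
  have h1 : ∀ j : ℕ, dist x y ≤ C * a ^ j := fun j => by
    simpa using h.cs' (l := -j) (fun k _ => hxy k) j 0 (by omega)
  have h2 : Filter.Tendsto (fun j : ℕ => C * a ^ j) Filter.atTop (nhds (C * 0)) :=
    (tendsto_pow_atTop_nhds_zero_of_lt_one h.a_nonneg h.a_lt).const_mul C
  have h3 := ge_of_tendsto' h2 h1
  rw [mul_zero] at h3
  exact dist_le_zero.1 h3

lemma eq_of_St_Un {l : ℤ} {x y : X} (h1 : St F l (4 * ε) x y) (h2 : Un F l (4 * ε) x y) :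
    x = y :=
  h.expansive fun k => (le_total l k).elim (h1 k) (h2 k)

end LH

/-- Summing over blocks. -/
lemma blocks {R : ℕ → ℕ → ℝ → Prop} {B : ℕ} (hB : 1 ≤ B) {c : ℝ}
    (htr : ∀ i j k r r', R i j r → R j k r' → R i k (r + r'))
    (hmono : ∀ i j r r', r ≤ r' → R i j r → R i j r') (i : ℕ) :
    ∀ d j, j + d = i → (∀ j₁ j₂, j ≤ j₁ → j₁ ≤ j₂ → j₂ ≤ i → j₂ ≤ j₁ + B → R j₁ j₂ c) →
      R j i (((d / B : ℕ) + 1) * c) := by
  intro d
  induction d using Nat.strong_induction_on with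
  | _ d ih =>
    intro j hj hR
    rcases lt_or_ge d B with hd | hd
    · refine hmono _ _ _ _ ?_ (hR j i le_rfl (by omega) le_rfl (by omega))
      rw [Nat.div_eq_of_lt hd]; simp
    · have h1 := ih (d - B) (by omega) (j + B) (by omega) fun j₁ j₂ e1 => hR j₁ j₂ (by omega)
      have h2 := htr _ _ _ _ _ (hR j (j + B) le_rfl (by omega) (by omega) le_rfl) h1
      refine hmono _ _ _ _ (le_of_eq ?_) h2
      have : d / B = (d - B) / B + 1 := by
        rw [← Nat.add_div_right _ (by omega : 0 < B)]; congr 1; omega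
      rw [this]; push_cast; ring

open Classical in
/-- A chosen bracket at level `l`. -/
noncomputable def brk (F : Equiv.Perm X) (ε : ℝ) (l : ℤ) (x y : X) : X :=
  if h : ∃ z, St F l ε z x ∧ Un F l ε z y then h.choose else x

lemma brk_spec {l : ℤ} {x y : X} (h : ∃ z, St F l ε z x ∧ Un F l ε z y) :
    St F l ε (brk F ε l x y) x ∧ Un F l ε (brk F ε l x y) y := by
  unfold brk; rw [dif_pos h]; exact h.choose_spec

/-- The rows of the rectangle. -/
noncomputable def row (F : Equiv.Perm X) (ε : ℝ) (l : ℤ) (y : ℕ → X) (i : ℕ) : ℕ → X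
  | 0 => y i
  | d + 1 => brk F ε l (row F ε l y i d) (y (i - (d + 1)))

/-- `ω` is the continuation along the chain `y` of an intersection point, at level `n`. -/
def Lift (F : Equiv.Perm X) (n : ℤ) (ε δ : ℝ) (N : ℕ) (y ω : ℕ → X) : Prop :=
  ω 0 = y 0 ∧ (∀ i, i ≤ N → St F n δ (ω i) (y i)) ∧ ∀ i, i < N → Un F n ε (ω (i + 1)) (ω i)

theorem LH.grid (h : LH F ε δ C a b) {m n A B N : ℕ} (hA : 1 ≤ A) (hB : 1 ≤ B) (y : ℕ → X)
    (h0 : ∀ i, i < N → ∀ k : ℤ, -(m : ℤ) ≤ k → k ≤ n →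
      dist ((F ^ k) (y (i + 1))) ((F ^ k) (y i)) ≤ ε)
    (hs : ∀ i j, i ≤ j → j ≤ N → j ≤ i + B →
      dist ((F ^ (-m : ℤ)) (y j)) ((F ^ (-m : ℤ)) (y i)) ≤ δ)
    (hu : ∀ i j, i ≤ j → j ≤ N → j ≤ i + A →
      dist ((F ^ (n : ℤ)) (y j)) ((F ^ (n : ℤ)) (y i)) ≤ δ)
    (ns : (((N / B : ℕ) : ℝ) + 1) * (C * a ^ (m + n)) ≤ δ)
    (nu : (((N / A : ℕ) : ℝ) + 1) * (C * b ^ (m + n)) ≤ δ) :
    ∃ ω, Lift F n ε δ N y ω ∧ Un F (-m) δ (ω N) (y 0) := by
  have hε := h.ε_pos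
  have hδ := h.δ_le
  set w : ℕ → ℕ → X := fun i j => row F ε (-m) y i (i - j) with hw
  have hw0 : ∀ i, w i i = y i := fun i => by simp [hw, row]
  have hw1 : ∀ i j, j < i → w i j = brk F ε (-m) (w i (j + 1)) (y j) := fun i j hj => by
    have e1 : i - j = (i - (j + 1)) + 1 := by omega
    have e2 : i - (i - (j + 1) + 1) = j := by omega
    simp only [hw]
    rw [e1, row, e2]
  set S : ℕ → ℕ → Prop := fun i j =>
    ∀ j', j ≤ j' → j' ≤ i → j' ≤ j + B → St F (-m) ε (w i j) (w i j') with hS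
  set U : ℕ → ℕ → Prop := fun i j =>
    ∀ i', j ≤ i' → i' ≤ i → i ≤ i' + A → Un F n ε (w i j) (w i' j) with hU
  have ca : 0 ≤ C * a ^ (m + n) := mul_nonneg h.C_nonneg (pow_nonneg h.a_nonneg _)
  have cb : 0 ≤ C * b ^ (m + n) := mul_nonneg h.C_nonneg (pow_nonneg h.b_nonneg _)
  have hD : ∀ i j, j ≤ i → i ≤ N → (∀ j₁, j ≤ j₁ → j₁ ≤ i → S i j₁) → St F n δ (w i j) (y i) := by
    intro i j hj hi hSS
    have := blocks (R := fun j₁ j₂ r => St F n r (w i j₁) (w i j₂)) (c := C * a ^ (m + n)) hB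
      (fun _ _ _ _ _ e1 e2 => e1.trans e2) (fun _ _ _ _ e1 e2 => e2.mono le_rfl e1) i (i - j) j
      (by omega) fun j₁ j₂ e1 e2 e3 e4 =>
        (h.cs' ((hSS j₁ e1 (by omega) j₂ e2 e3 e4).mono le_rfl (by linarith)) (m + n)).mono
          (by push_cast; omega) le_rfl
    rw [hw0] at this
    refine this.mono le_rfl (le_trans ?_ ns)
    gcongr
    omega
  have hL : ∀ i j, j ≤ i → i ≤ N → (∀ i₁, j ≤ i₁ → i₁ ≤ i → U i₁ j) →
      Un F (-m) δ (w i j) (y j) := by
    intro i j hj hi hUU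
    have := blocks (R := fun i₁ i₂ r => Un F (-m) r (w i₁ j) (w i₂ j)) (c := C * b ^ (m + n)) hA
      (fun _ _ _ _ _ e1 e2 => e1.trans e2) (fun _ _ _ _ e1 e2 => e2.mono le_rfl e1) i (i - j) j
      (by omega) fun i₁ i₂ e1 e2 e3 e4 =>
        (h.cu' ((hUU i₂ (by omega) e3 i₁ e1 e2 e4).mono le_rfl (by linarith)) (m + n)).symm.mono
          (by push_cast; omega) le_rfl
    rw [hw0] at this
    refine this.symm.mono le_rfl (le_trans ?_ nu)
    gcongr
    omega
  have key : ∀ d i j, j + d = i → i ≤ N → S i j ∧ U i j := by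
    intro d
    induction d using Nat.strong_induction_on with
    | _ d ih =>
      intro i j hj hi
      rcases Nat.eq_zero_or_pos d with rfl | hd
      · obtain rfl : i = j := by omega
        refine ⟨fun j' e1 e2 _ => ?_, fun j' e1 e2 _ => ?_⟩
        · obtain rfl : j' = i := by omega
          exact St.refl _ hε.le _
        · obtain rfl : j' = i := by omega
          exact Un.refl _ hε.le _
      obtain ⟨i, rfl⟩ : ∃ i', i = i' + 1 := ⟨i - 1, by omega⟩
      have ih' : ∀ i₁ j₁, j ≤ j₁ → j₁ ≤ i₁ → i₁ ≤ i + 1 → (j < j₁ ∨ i₁ < i + 1) →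
          S i₁ j₁ ∧ U i₁ j₁ := fun i₁ j₁ e1 e2 e3 e4 =>
        ih (i₁ - j₁) (by omega) i₁ j₁ (by omega) (by omega)
      have hL' : ∀ i₁ j₁, j ≤ j₁ → j₁ ≤ i₁ → i₁ ≤ i + 1 → (j < j₁ ∨ i₁ < i + 1) →
          Un F (-m) δ (w i₁ j₁) (y j₁) := fun i₁ j₁ e1 e2 e3 e4 =>
        hL i₁ j₁ e2 (by omega) fun i₂ e5 e6 => (ih' i₂ j₁ e1 e5 (by omega) (by omega)).2
      have hD' : ∀ i₁ j₁, j ≤ j₁ → j₁ ≤ i₁ → i₁ ≤ i + 1 → (j < j₁ ∨ i₁ < i + 1) →
          St F n δ (w i₁ j₁) (y i₁) := fun i₁ j₁ e1 e2 e3 e4 =>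
        hD i₁ j₁ e2 (by omega) fun j₂ e5 e6 => (ih' i₁ j₂ (by omega) e6 e3 (by omega)).1
      have hbs : ∀ j', j < j' → j' ≤ i + 1 → j' ≤ j + B →
          ∃ z, St F (-m) ε z (w (i + 1) j') ∧ Un F (-m) ε z (y j) := fun j' e1 e2 e3 => by
        refine h.br' _ ((dist_triangle _ ((F ^ (-m : ℤ)) (y j')) _).trans ?_)
        have f1 := hL' (i + 1) j' e1.le e2 le_rfl (Or.inl e1) _ le_rfl
        have f2 := hs j j' e1.le (by omega) e3
        linarith
      have hbu : ∀ i', j ≤ i' → i' < i + 1 → i + 1 ≤ i' + A →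
          ∃ z, St F n ε z (y (i + 1)) ∧ Un F n ε z (w i' j) := fun i' e1 e2 e3 => by
        refine h.br' _ ((dist_triangle _ ((F ^ (n : ℤ)) (y i')) _).trans ?_)
        have f1 := (hD' i' j le_rfl e1 e2.le (Or.inr e2)).symm _ le_rfl
        have f2 := hu i' (i + 1) e2.le hi e3
        linarith
      obtain ⟨w1, w2⟩ := brk_spec (hbs (j + 1) (by omega) (by omega) (by omega))
      rw [← hw1 _ _ (by omega)] at w1 w2
      obtain ⟨z, z1, z2⟩ := hbu i (by omega) (by omega) (by omega)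
      have hwz : w (i + 1) j = z := by
        refine h.expansive fun k => ?_
        rcases le_total (n : ℤ) k with hk | hk
        · exact (((w1.mono (by omega) le_rfl).trans
            (hD' (i + 1) (j + 1) (by omega) (by omega) le_rfl (by omega))).trans z1.symm k hk).trans
            (by linarith)
        rcases le_total k (-m : ℤ) with hk' | hk'
        · exact ((w2.trans (hL' i j le_rfl (by omega) (by omega) (by omega)).symm).trans
            (z2.symm.mono (by omega) le_rfl) k hk').trans (by linarith)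
        have f1 := w1 k hk'
        have f4 := z2.symm k hk
        rcases Nat.lt_or_ge j i with hji | hji
        · have f2 := (ih' (i + 1) (j + 1) (by omega) (by omega) le_rfl (by omega)).2 i (by omega)
            (by omega) (by omega) k hk
          have f3 := ((ih' i j le_rfl (by omega) (by omega) (by omega)).1 (j + 1) (by omega)
            (by omega) (by omega)).symm k hk'
          linarith [dist_triangle4 ((F ^ k) (w (i + 1) j)) ((F ^ k) (w (i + 1) (j + 1)))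
            ((F ^ k) (w i (j + 1))) ((F ^ k) (w i j)),
            dist_triangle ((F ^ k) (w (i + 1) j)) ((F ^ k) (w i j)) ((F ^ k) z)]
        · obtain rfl : j = i := by omega
          rw [hw0] at f1 f4
          have f2 := h0 j (by omega) k hk' hk
          linarith [dist_triangle4 ((F ^ k) (w (j + 1) j)) ((F ^ k) (y (j + 1)))
            ((F ^ k) (y j)) ((F ^ k) z)]
      rw [← hwz] at z1 z2
      refine ⟨fun j' e1 e2 e3 => ?_, fun i' e1 e2 e3 => ?_⟩
      · rcases e1.eq_or_lt with rfl | e1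
        · exact St.refl _ hε.le _
        obtain ⟨z', f1, f2⟩ := hbs j' e1 e2 e3
        have f3 := (ih' (i + 1) (j + 1) (by omega) (by omega) le_rfl (by omega)).1 j' e1 e2
          (by omega)
        have : z' = w (i + 1) j := h.eq_of_St_Un
          (((f1.trans f3.symm).trans w1.symm).mono le_rfl (by linarith))
          ((f2.trans w2.symm).mono le_rfl (by linarith))
        rwa [this] at f1
      · rcases e2.eq_or_lt with rfl | e2
        · exact Un.refl _ hε.le _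
        obtain ⟨z', f1, f2⟩ := hbu i' e1 e2 e3
        have f3 := (ih' i j le_rfl (by omega) (by omega) (by omega)).2 i' e1 (by omega) (by omega)
        have : z' = w (i + 1) j := h.eq_of_St_Un
          ((f1.trans z1.symm).mono le_rfl (by linarith))
          (((f2.trans f3.symm).trans z2.symm).mono le_rfl (by linarith))
        rwa [this] at f2
  exact ⟨fun i => w i 0, ⟨hw0 0,
    fun i hi => hD i 0 (by omega) hi fun j _ e => (key (i - j) i j (by omega) hi).1,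
    fun i hi => (key (i + 1) (i + 1) 0 (by omega) hi).2 i (by omega) (by omega) (by omega)⟩,
    hL N 0 (by omega) le_rfl fun i _ e => (key i i 0 (by omega) e).2⟩

end Pool.Agent.P.MP_5c499f_an
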