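import Pool.Agent.P.MP_5c499f_an.GTrace

/-! Traces are algebraic over every subfield. TASK ANOS2-T2. -/

set_option autoImplicit false

namespace Pool.Agent.P.MP_5c499f_an

open Polynomial

namespace HAlgX

universe u

theorem exists_field (L : Type u) [Field L] : ∃ (k : Type u) (_ : NormedField k)
    (_ : IsAlgClosed k) (_ : IsUltrametricDist k) (ι : L[X] →+* k),
      Function.Injective ι ∧ ‖ι X‖ < 1 := by
  have hX : (Valued.v : Valuation (LaurentSeries L) (WithZero (Multiplicative ℤ)))
      (algebraMap L[X] (LaurentSeries L) X) = WithZero.exp (-1) := by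
    rw [← LaurentSeries.valuation_single_zpow L 1, ← RatFunc.coe_X, ← RatFunc.algebraMap_X,
      ← IsScalarTower.algebraMap_apply]
  have hX1 : (Valued.v : Valuation (LaurentSeries L) (WithZero (Multiplicative ℤ)))
      (algebraMap L[X] (LaurentSeries L) X) < 1 := by
    rw [hX, ← WithZero.exp_zero, WithZero.exp_lt_exp]
    norm_num
  haveI : (Valued.v : Valuation (LaurentSeries L) (WithZero (Multiplicative ℤ))).IsNontrivial :=
    ⟨_, by rw [hX]; exact WithZero.exp_ne_zero, hX1.ne⟩
  haveI : (Valued.v : Valuation (LaurentSeries L)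
    (WithZero (Multiplicative ℤ))).IsRankOneDiscrete := inferInstance
  letI : (Valued.v : Valuation (LaurentSeries L) (WithZero (Multiplicative ℤ))).RankOne :=
    Valuation.IsRankOneDiscrete.rankOne _ (e := 2) one_lt_two
  letI : NontriviallyNormedField (LaurentSeries L) :=
    Valued.toNontriviallyNormedField (LaurentSeries L) (WithZero (Multiplicative ℤ))
  haveI : IsUltrametricDist (LaurentSeries L) :=
    IsUltrametricDist.isUltrametricDist_of_forall_norm_add_le_max_norm
      (Valued.isNonarchimedean_norm (LaurentSeries L) (WithZero (Multiplicative ℤ)))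
  letI : NormedField (AlgebraicClosure (LaurentSeries L)) :=
    spectralNorm.normedField (LaurentSeries L) _
  refine ⟨AlgebraicClosure (LaurentSeries L), inferInstance, inferInstance,
    IsUltrametricDist.isUltrametricDist_of_forall_norm_add_le_max_norm
      (isNonarchimedean_spectralNorm (K := LaurentSeries L)),
    (algebraMap (LaurentSeries L) _).comp (algebraMap L[X] (LaurentSeries L)),
    (algebraMap (LaurentSeries L) _).injective.comp (FaithfulSMul.algebraMap_injective _ _), ?_⟩
  change spectralNorm (LaurentSeries L) _ (algebraMap (LaurentSeries L) _ _) < 1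
  rw [spectralNorm_extends]
  exact Valued.toNormedField.norm_lt_one_iff.2 hX1

theorem exists_hom {F L k : Type*} [Field F] [Field L] [Algebra F L] [Field k] [IsAlgClosed k]
    {x : L} (hx : Transcendental F x) (ι : L[X] →+* k) (hι : Function.Injective ι) :
    ∃ s : L →+* k, s x = ι X := by
  have h0 : AlgebraicIndepOn F id ({x} : Set L) := algebraicIndependent_unique_type_iff.2 hx
  obtain ⟨B, hB, hb⟩ := exists_isTranscendenceBasis_superset h0
  have hxB : x ∈ B := hB rfl
  let R : Subalgebra F L := Algebra.adjoin F (((↑) : B → L) '' {⟨x, hxB⟩}ᶜ)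
  have ht : Transcendental R x := hb.1.transcendental_adjoin (i := ⟨x, hxB⟩) (by simp)
  let P : Subalgebra R L := Algebra.adjoin R {x}
  have hle : Algebra.adjoin F (Set.range ((↑) : B → L)) ≤ P.restrictScalars F := by
    refine Algebra.adjoin_le ?_
    rintro _ ⟨b, rfl⟩
    by_cases hbx : b = ⟨x, hxB⟩
    · rw [hbx]
      exact Algebra.self_mem_adjoin_singleton R x
    · exact P.algebraMap_mem ⟨b, Algebra.subset_adjoin ⟨b, hbx, rfl⟩⟩
  haveI : Algebra.IsAlgebraic P L :=
    ⟨fun z => (hb.isAlgebraic.isAlgebraic z).tower_top_of_subalgebra_le hle⟩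
  obtain ⟨s, hs⟩ := GTraceX.exists_ext (P := P) (S := L)
    ((ι.comp (mapRingHom (algebraMap R L))).comp
      (algEquivOfTranscendental R x ht).symm.toRingEquiv.toRingHom)
    ((hι.comp (map_injective _ Subtype.val_injective)).comp
      (algEquivOfTranscendental R x ht).symm.injective)
  refine ⟨s, ?_⟩
  have h1 := hs (algEquivOfTranscendental R x ht X)
  change _ = ι (mapRingHom (algebraMap R L) ((algEquivOfTranscendental R x ht).symm _)) at h1
  rw [AlgEquiv.symm_apply_apply, coe_mapRingHom, map_X] at h1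
  simpa using h1

end HAlgX

open GTraceX HAlgX in
theorem Win.alg_trace {Γ : Type*} [Group Γ] {Φ : MulAut Γ} (hW : Win Φ) (F : Type*) {L : Type*}
    [Field F] [Field L] [Algebra F L] {d : ℕ} (r : Γ →* Matrix (Fin d) (Fin d) L)
    {A : Matrix (Fin d) (Fin d) L} (hA : IsUnit A) (h : ∀ γ, A * r γ = r (Φ γ) * A) (γ : Γ) :
    IsAlgebraic F (r γ).trace := by
  by_contra ht
  obtain ⟨k, _, _, _, ι, hι, h1⟩ := exists_field L
  obtain ⟨s, hs⟩ := exists_hom (F := F) (x := (r γ).trace⁻¹)
    (fun hh => ht (IsAlgebraic.inv_iff.1 hh)) ι hι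
  obtain ⟨M, e, -, hM⟩ := root_map hW r hA h s γ
  have h2 : ‖s (r γ).trace‖ ≤ 1 := by
    rw [e]
    exact (ball k).multiset_sum_mem M hM
  have h3 : 0 < ‖ι X‖ := norm_pos_iff.2 ((map_ne_zero_iff ι hι).2 X_ne_zero)
  rw [← hs, map_inv₀, norm_inv] at h1 h3
  exact absurd ((inv_lt_one₀ (inv_pos.1 h3)).1 h1) (not_lt.2 h2)

end Pool.Agent.P.MP_5c499f_an
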