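import Pool.Agent.P.MP_5c499f_an.HDefs

/-! Trace identities. TASK ANOS2-T4. -/

set_option autoImplicit false

namespace Pool.Agent.P.MP_5c499f_an

open Matrix

variable {Γ : Type*} [Group Γ] {R R' : Type*} [CommRing R] [CommRing R'] {m d : ℕ}
  {χ : Γ → R} {g : Fin m → Γ}

namespace HChiX

theorem gram_map (ψ : R →+* R') (χ : Γ → R) (g : Fin m → Γ) (x : Γ) :
    gram (fun x => ψ (χ x)) g x = ψ.mapMatrix (gram χ g x) := rfl

theorem adj_map (ψ : R →+* R') (χ : Γ → R) (g : Fin m → Γ) (i j : Fin m) :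
    (gram (fun x => ψ (χ x)) g 1).adjugate i j = ψ ((gram χ g 1).adjugate i j) := by
  rw [gram_map, ← RingHom.map_adjugate]
  rfl

theorem tr_map (ψ : R →+* R') (χ : Γ → R) (g : Fin m → Γ) (x : Γ) :
    ((gram (fun x => ψ (χ x)) g 1).adjugate * gram (fun x => ψ (χ x)) g x).trace
      = ψ ((gram χ g 1).adjugate * gram χ g x).trace := by
  rw [gram_map, gram_map, ← RingHom.map_adjugate, ← map_mul]
  simp only [Matrix.trace, map_sum]
  rfl

section Field

variable {K : Type*} [Field K]

/-- the matrix of the trace form -/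
def tf (a : Fin m → Matrix (Fin d) (Fin d) K) : Matrix (Fin m) (Fin m) K :=
  Matrix.of fun i j => (a i * a j).trace

theorem tf_mulVec (a : Fin m → Matrix (Fin d) (Fin d) K) (c : Fin m → K) (j : Fin m) :
    (tf a *ᵥ c) j = (a j * ∑ k, c k • a k).trace := by
  simp [tf, mulVec, dotProduct, Finset.mul_sum, mul_comm]

theorem span_top {a : Fin (d * d) → Matrix (Fin d) (Fin d) K} (h : (tf a).det ≠ 0) :
    Submodule.span K (Set.range a) = ⊤ := by
  refine LinearIndependent.span_eq_top_of_card_eq_finrank' ?_ (by simp [Module.finrank_matrix])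
  refine Fintype.linearIndependent_iff.2 fun c hc => congrFun ?_
  refine eq_zero_of_mulVec_eq_zero h (funext fun j => ?_)
  rw [tf_mulVec, hc, mul_zero, trace_zero, Pi.zero_apply]

theorem dual {a : Fin (d * d) → Matrix (Fin d) (Fin d) K} (h : (tf a).det ≠ 0)
    (U V : Matrix (Fin d) (Fin d) K) : (tf a).det * (U * V).trace =
      ∑ i, ∑ j, (U * a i).trace * (tf a).adjugate i j * (a j * V).trace := by
  obtain ⟨c, rfl⟩ := (Submodule.mem_span_range_iff_exists_fun K).1
    (span_top h ▸ Submodule.mem_top : V ∈ Submodule.span K (Set.range a))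
  have e : ∀ i, ∑ j, (tf a).adjugate i j * (a j * ∑ k, c k • a k).trace = (tf a).det * c i := by
    intro i
    have := congrFun (mulVec_mulVec c (tf a).adjugate (tf a)) i
    rw [adjugate_mul, smul_mulVec, one_mulVec] at this
    simp only [← tf_mulVec]
    exact this
  simp only [mul_assoc, ← Finset.mul_sum, e]
  simp only [Finset.mul_sum, trace_sum, mul_smul_comm, trace_smul, smul_eq_mul]
  exact Finset.sum_congr rfl fun i _ => by ring

theorem casimir {a : Fin (d * d) → Matrix (Fin d) (Fin d) K} (h : (tf a).det ≠ 0)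
    (X : Matrix (Fin d) (Fin d) K) :
    ∑ i, ∑ j, (tf a).adjugate i j * (a j * X * a i).trace = d * (tf a).det * X.trace := by
  have e1 : ∀ i j, (a j * X * a i).trace =
      ∑ s, ∑ q, (single s q 1 * a i).trace * (a j * (X * single q s 1)).trace := by
    intro i j
    simp only [← mul_assoc, trace_single_mul, trace_mul_single, one_smul, MulOpposite.op_one]
    simp only [Matrix.trace, diag_apply, mul_apply (M := a j * X), mul_comm]
  have e2 : ∀ s q : Fin d, (single s q (1 : K) * (X * single q s 1)).trace = X q q := by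
    intro s q
    rw [trace_single_mul, one_smul, mul_single_apply_same, mul_one]
  calc _ = ∑ s, ∑ q, ∑ i, ∑ j, (single s q 1 * a i).trace * (tf a).adjugate i j *
        (a j * (X * single q s 1)).trace := by
        simp only [e1, Finset.mul_sum]
        rw [Finset.sum_congr rfl fun i _ => Finset.sum_comm, Finset.sum_comm]
        refine Finset.sum_congr rfl fun s _ => ?_
        rw [Finset.sum_congr rfl fun i _ => Finset.sum_comm, Finset.sum_comm]
        exact Finset.sum_congr rfl fun q _ => Finset.sum_congr rfl fun i _ =>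
          Finset.sum_congr rfl fun j _ => by ring
    _ = _ := by
        simp only [← dual h, e2, ← Finset.mul_sum]
        simp [Matrix.trace, mul_assoc, mul_left_comm]

theorem eq_zero_of_span {ι : Type*} {v : ι → Matrix (Fin d) (Fin d) K}
    (hv : Submodule.span K (Set.range v) = ⊤) {Y : Matrix (Fin d) (Fin d) K}
    (h : ∀ i, (v i * Y).trace = 0) : Y = 0 := by
  refine ext_iff_trace_mul_left.2 fun X => ?_
  rw [mul_zero, trace_zero]
  have hX : X ∈ Submodule.span K (Set.range v) := hv ▸ Submodule.mem_top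
  induction hX using Submodule.span_induction with
  | mem x hx =>
    obtain ⟨i, rfl⟩ := hx
    exact h i
  | zero => simp
  | add x y _ _ hx hy => rw [add_mul, trace_add, hx, hy, add_zero]
  | smul c x _ hx => rw [smul_mul_assoc, trace_smul, hx, smul_zero]

theorem gram_rep (ρ : Γ →* Matrix (Fin d) (Fin d) K) (g : Fin m → Γ) :
    gram (fun x => (ρ x).trace) g 1 = tf fun i => ρ (g i) := by
  ext i j
  simp [gram, tf]

theorem chi_field (ρ : Γ →* Matrix (Fin d) (Fin d) K) {g : Fin (d * d) → Γ}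
    (h : (gram (fun x => (ρ x).trace) g 1).det ≠ 0) : Chi (fun x => (ρ x).trace) g d := by
  constructor
  · intro x y
    rw [gram_rep] at h ⊢
    simp only [map_mul]
    exact dual h _ _
  · intro x
    rw [gram_rep] at h ⊢
    rw [← casimir h]
    simp [Matrix.trace, mul_apply (M := adjugate _), gram]

end Field

/-- the matrix of values `χ (a i * b j)` -/
def W (χ : Γ → R) (a b : Fin m → Γ) : Matrix (Fin m) (Fin m) R := Matrix.of fun i j => χ (a i * b j)

theorem W_mul (h : Chi χ g d) (a b : Fin m → Γ) :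
    (gram χ g 1).det • W χ a b = W χ a g * (gram χ g 1).adjugate * W χ g b := by
  ext k l
  simp only [W, Matrix.smul_apply, of_apply, smul_eq_mul, h.mul, mul_apply, Finset.sum_mul]
  exact Finset.sum_comm

omit [CommRing R] in
theorem gram_left (χ : Γ → R) (g : Fin m → Γ) (x : Γ) :
    gram χ g x = W χ (fun i => g i * x) g := rfl

omit [CommRing R] in
theorem gram_right (χ : Γ → R) (g : Fin m → Γ) (x : Γ) :
    gram χ g x = W χ g fun i => x * g i := by
  ext i j
  simp [gram, W, mul_assoc]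

theorem gram_mul (h : Chi χ g d) (x y : Γ) :
    (gram χ g 1).det • gram χ g (x * y) = gram χ g x * (gram χ g 1).adjugate * gram χ g y := by
  rw [gram_left χ g x, gram_right χ g y, ← W_mul h]
  congr 1
  ext i j
  simp [gram, W, mul_assoc]

theorem det_mem (A : Subring R) {M : Matrix (Fin m) (Fin m) R} (h : ∀ i j, M i j ∈ A) :
    M.det ∈ A := by
  rw [det_apply']
  exact A.sum_mem fun σ _ => A.mul_mem (intCast_mem A _) (A.prod_mem fun i _ => h _ _)

theorem adj_mem (A : Subring R) {M : Matrix (Fin m) (Fin m) R} (h : ∀ i j, M i j ∈ A)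
    (i j : Fin m) : M.adjugate i j ∈ A := by
  rw [adjugate_apply]
  refine det_mem A fun k l => ?_
  rw [updateRow_apply, Pi.single_apply]
  split_ifs
  exacts [A.one_mem, A.zero_mem, h _ _]

theorem mul_mem (A : Subring R) {M N : Matrix (Fin m) (Fin m) R} (h : ∀ i j, M i j ∈ A)
    (h' : ∀ i j, N i j ∈ A) (i j : Fin m) : (M * N) i j ∈ A := by
  rw [mul_apply]
  exact A.sum_mem fun k _ => A.mul_mem (h _ _) (h' _ _)

end HChiX

open HChiX

theorem det_gram_map (ψ : R →+* R') (χ : Γ → R) (g : Fin m → Γ) :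
    (gram (fun x => ψ (χ x)) g 1).det = ψ (gram χ g 1).det := by
  rw [gram_map, RingHom.map_det]

theorem Chi.map (h : Chi χ g d) (ψ : R →+* R') : Chi (fun x => ψ (χ x)) g d := by
  constructor
  · intro x y
    have := congrArg ψ (h.mul x y)
    simpa only [det_gram_map, adj_map, map_mul, map_sum] using this
  · intro x
    rw [tr_map, det_gram_map, h.tr, map_mul, map_mul, map_natCast]

theorem Chi.of_map (ψ : R →+* R') (hψ : Function.Injective ψ)
    (h : Chi (fun x => ψ (χ x)) g d) : Chi χ g d := by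
  constructor
  · intro x y
    apply hψ
    have := h.mul x y
    simpa only [det_gram_map, adj_map, map_mul, map_sum] using this
  · intro x
    apply hψ
    rw [← tr_map, h.tr, det_gram_map, map_mul, map_mul, map_natCast]

theorem chi_of_rep [IsDomain R] (ρ : Γ →* Matrix (Fin d) (Fin d) R) {g : Fin (d * d) → Γ}
    (h : (gram (fun x => (ρ x).trace) g 1).det ≠ 0) : Chi (fun x => (ρ x).trace) g d := by
  have hi := IsFractionRing.injective R (FractionRing R)
  have e : (fun x => algebraMap R (FractionRing R) (ρ x).trace) = fun x =>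
      (((algebraMap R (FractionRing R)).mapMatrix.toMonoidHom.comp ρ) x).trace := by
    funext x
    simp [Matrix.trace]
  refine Chi.of_map (algebraMap R (FractionRing R)) hi ?_
  rw [e]
  refine chi_field _ ?_
  rw [← e, det_gram_map]
  exact (map_ne_zero_iff _ hi).2 h

theorem Chi.rep {L : Type*} [Field L] {χ : Γ → L} (h : Chi χ g d) (h0 : (gram χ g 1).det ≠ 0)
    (Ψ : MulAut Γ) (hΨ : ∀ x, χ (Ψ x) = χ x) :
    ∃ (r : Γ →* Matrix (Fin m) (Fin m) L) (A : Matrix (Fin m) (Fin m) L), IsUnit A ∧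
      (∀ x, A * r x = r (Ψ x) * A) ∧ (∀ x, (r x).trace = d * χ x) ∧
      ((Set.range χ).Finite → (Set.range r).Finite) := by
  set N : Matrix (Fin m) (Fin m) L := (gram χ g 1).det⁻¹ • (gram χ g 1).adjugate with hN
  have h1 : N * gram χ g 1 = 1 := by
    rw [hN, smul_mul_assoc, adjugate_mul, smul_smul, inv_mul_cancel₀ h0, one_smul]
  have h2 : ∀ a b, W χ a b = W χ a g * N * W χ g b := fun a b => by
    rw [hN, mul_smul_comm, smul_mul_assoc, ← W_mul h, smul_smul, inv_mul_cancel₀ h0, one_smul]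
  have h3 : ∀ x y, gram χ g (x * y) = gram χ g x * N * gram χ g y := fun x y => by
    rw [hN, mul_smul_comm, smul_mul_assoc, ← gram_mul h, smul_smul, inv_mul_cancel₀ h0, one_smul]
  set U := W χ g fun i => Ψ (g i) with hU
  set U' := W χ (fun i => Ψ (g i)) g with hU'
  have h4 : ∀ x, gram χ g x = U' * (N * gram χ g (Ψ x)) * (N * U) := fun x => by
    have e1 : gram χ g x = W χ (fun i => Ψ (g i)) fun i => Ψ x * Ψ (g i) := by
      ext i j
      simp only [gram, W, of_apply, ← map_mul, hΨ, mul_assoc]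
    have e2 : (W χ g fun i => Ψ x * Ψ (g i)) = W χ (fun i => g i * Ψ x) fun i => Ψ (g i) := by
      ext i j
      simp only [W, of_apply, mul_assoc]
    rw [e1, h2, e2, h2 (fun i => g i * Ψ x), ← gram_left]
    simp only [mul_assoc, hU, hU']
  have h5 : N * U * (N * U') = 1 := by
    rw [mul_eq_one_comm, ← h1, h4 1, map_one, h1, mul_one]
    simp only [mul_assoc]
  refine ⟨⟨⟨fun x => N * gram χ g x, h1⟩, fun x y => by simp only [h3, mul_assoc]⟩, N * U,
    ⟨⟨N * U, N * U', h5, mul_eq_one_comm.1 h5⟩, rfl⟩, fun x => ?_, fun x => ?_, fun hf => ?_⟩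
  · change N * U * (N * gram χ g x) = N * gram χ g (Ψ x) * (N * U)
    rw [h4 x, ← one_mul (N * gram χ g (Ψ x) * (N * U)), ← h5]
    simp only [mul_assoc]
  · change (N * gram χ g x).trace = _
    rw [hN, smul_mul_assoc, trace_smul, h.tr, smul_eq_mul]
    field_simp
  · have := (Set.Finite.pi' fun _ : Fin m => Set.Finite.pi' fun _ : Fin m => hf).image
      fun T : Fin m → Fin m → L => N * Matrix.of T
    refine this.subset ?_
    rintro _ ⟨x, rfl⟩
    exact ⟨fun i j => χ (g i * x * g j), fun i j => ⟨_, rfl⟩, rfl⟩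

theorem Chi.denom (h : Chi χ g d) {S : Set Γ} (hS : S.Finite) (hgen : Subgroup.closure S = ⊤)
    (hχ : Subring.closure (Set.range χ) = ⊤) : ∃ G : Set R, G.Finite ∧
      (d : R) * (gram χ g 1).det ∈ Subring.closure G ∧
      ∀ t, ∃ k : ℕ, ((d : R) * (gram χ g 1).det) ^ k * t ∈ Subring.closure G := by
  set G : Set R := ⋃ x ∈ insert 1 (S ∪ S⁻¹),
    Set.range fun p : Fin m × Fin m => gram χ g x p.1 p.2 with hG
  set A := Subring.closure G with hA
  set δ := (gram χ g 1).det with hδ
  have h1 : ∀ x ∈ insert 1 (S ∪ S⁻¹), ∀ i j, gram χ g x i j ∈ A := fun x hx i j =>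
    Subring.subset_closure (Set.mem_biUnion hx ⟨(i, j), rfl⟩)
  have h2 := h1 1 (Set.mem_insert _ _)
  have h3 : δ ∈ A := det_mem A h2
  have h4 : ∀ x, ∃ k : ℕ, ∀ i j, (δ ^ k • gram χ g x) i j ∈ A := by
    intro x
    have hx : x ∈ Subgroup.closure S := hgen ▸ Subgroup.mem_top x
    induction hx using Subgroup.closure_induction'' with
    | mem x hx => exact ⟨0, by simpa using h1 x (.inr (.inl hx))⟩
    | inv_mem x hx => exact ⟨0, by simpa using h1 x⁻¹ (.inr (.inr (Set.inv_mem_inv.2 hx)))⟩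
    | one => exact ⟨0, by simpa using h2⟩
    | mul x y _ _ hx hy =>
      obtain ⟨k, hk⟩ := hx
      obtain ⟨l, hl⟩ := hy
      refine ⟨k + l + 1, ?_⟩
      have := HChiX.mul_mem A (HChiX.mul_mem A hk (adj_mem A h2)) hl
      rwa [smul_mul_assoc, smul_mul_assoc, mul_smul_comm, ← gram_mul h, smul_smul, smul_smul,
        ← pow_add, ← pow_succ] at this
  have h5 : (d : R) * δ ∈ A := A.mul_mem (natCast_mem A d) h3
  refine ⟨G, (hS.union hS.inv).insert 1 |>.biUnion fun x _ => Set.finite_range _, h5, fun t => ?_⟩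
  have ht : t ∈ Subring.closure (Set.range χ) := hχ ▸ Subring.mem_top t
  induction ht using Subring.closure_induction with
  | mem t ht =>
    obtain ⟨x, rfl⟩ := ht
    obtain ⟨k, hk⟩ := h4 x
    have h6 : ((gram χ g 1).adjugate * δ ^ k • gram χ g x).trace ∈ A :=
      A.sum_mem fun i _ => HChiX.mul_mem A (adj_mem A h2) hk i i
    rw [mul_smul_comm, trace_smul, h.tr, smul_eq_mul] at h6
    refine ⟨k + 1, ?_⟩
    convert A.mul_mem (A.pow_mem (natCast_mem A d) k) h6 using 1
    ring
  | zero => exact ⟨0, by simp⟩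
  | one => exact ⟨0, by simp⟩
  | add s t _ _ hs ht =>
    obtain ⟨k, hk⟩ := hs
    obtain ⟨l, hl⟩ := ht
    refine ⟨k + l, ?_⟩
    convert A.add_mem (A.mul_mem (A.pow_mem h5 l) hk) (A.mul_mem (A.pow_mem h5 k) hl) using 1
    ring
  | neg t _ ht =>
    obtain ⟨k, hk⟩ := ht
    exact ⟨k, by simpa using A.neg_mem hk⟩
  | mul s t _ _ hs ht =>
    obtain ⟨k, hk⟩ := hs
    obtain ⟨l, hl⟩ := ht
    refine ⟨k + l, ?_⟩
    convert A.mul_mem hk hl using 1
    ring

theorem exists_gram (ρ : Γ →* Matrix (Fin d) (Fin d) ℂ)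
    (hρ : Submodule.span ℂ (Set.range ρ) = ⊤) :
    ∃ g : Fin (d * d) → Γ, (gram (fun x => (ρ x).trace) g 1).det ≠ 0 := by
  obtain ⟨κ, a, -, h1, h2⟩ := exists_linearIndependent' ℂ (ρ : Γ → Matrix (Fin d) (Fin d) ℂ)
  have := h2.finite
  have := Fintype.ofFinite κ
  have h3 := finrank_span_eq_card h2
  rw [h1, hρ, finrank_top, Module.finrank_matrix, Fintype.card_fin, Module.finrank_self,
    mul_one] at h3
  obtain ⟨e⟩ : Nonempty (Fin (d * d) ≃ κ) := ⟨(Fintype.equivFinOfCardEq h3.symm).symm⟩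
  refine ⟨fun i => a (e i), fun h0 => ?_⟩
  rw [gram_rep] at h0
  obtain ⟨c, hc, hc0⟩ := exists_mulVec_eq_zero_iff.2 h0
  have h4 : Submodule.span ℂ (Set.range fun i => ρ (a (e i))) = ⊤ := by
    rw [← e.surjective.range_comp] at h1
    exact h1.trans hρ
  have h5 := eq_zero_of_span h4 (Y := ∑ k, c k • ρ (a (e k))) fun j =>
    (tf_mulVec (fun i => ρ (a (e i))) c j).symm.trans (congrFun hc0 j)
  have h6 : LinearIndependent ℂ fun i => ρ (a (e i)) := h2.comp e e.injective
  exact hc (funext (Fintype.linearIndependent_iff.1 h6 c h5))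

theorem eq_one_of_trace (ρ : Γ →* Matrix (Fin d) (Fin d) ℂ)
    (hρ : Submodule.span ℂ (Set.range ρ) = ⊤) {c : Γ}
    (h : ∀ x, (ρ (x * c)).trace = (ρ x).trace) : ρ c = 1 := by
  refine sub_eq_zero.1 (eq_zero_of_span hρ fun x => ?_)
  rw [mul_sub, trace_sub, ← map_mul, h, mul_one, sub_self]

end Pool.Agent.P.MP_5c499f_an
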