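import Mathlib

/-! Fixed points over finite fields are not isolated. -/

set_option autoImplicit false

namespace Pool.Agent.P.MP_5c499f_an

namespace HLiftX

open Polynomial

theorem finite_comap {A B : Type*} [CommRing A] [CommRing B] (f : A →+* B) (m : Ideal B)
    [Finite (B ⧸ m)] : Finite (A ⧸ m.comap f) :=
  Finite.of_injective _ (Ideal.quotientMap_injective (I := m) (f := f))

theorem isMaximal_of_finite {A : Type*} [CommRing A] (m : Ideal A) [m.IsPrime]
    [Finite (A ⧸ m)] : m.IsMaximal :=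
  Ideal.Quotient.maximal_of_isField m (Finite.isField_of_domain (A ⧸ m))

theorem one_le_height {A : Type*} [CommRing A] [IsDomain A] [CharZero A] (m : Ideal A)
    [Finite (A ⧸ m)] : 1 ≤ m.height := by
  rw [Order.one_le_iff_ne_zero]
  intro h0
  rw [Ideal.height_eq_zero_iff_eq_bot] at h0
  subst h0
  have : Finite A := Finite.of_equiv _ (RingEquiv.quotientBot A).toEquiv
  exact not_finite A

/-- A prime strictly below `m` through few given elements. -/
theorem exists_lt {P T : Type*} [CommRing P] [IsNoetherianRing P] [IsIntegrallyClosed P]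
    [CommRing T] [IsDomain T] [Algebra P T] [FaithfulSMul P T] (R2 : Subalgebra P T)
    [Module.Finite P R2] (m : Ideal T) [hm : m.IsPrime]
    (hloc : ∀ t : T, ∃ u ∈ R2, u ∉ m ∧ u * t ∈ R2) (s : Finset T) (hs : ∀ x ∈ s, x ∈ m)
    (hh : ((s.card + 1 : ℕ) : ℕ∞) ≤ (m.under P).height) :
    ∃ p : Ideal T, p.IsPrime ∧ p < m ∧ ∀ x ∈ s, x ∈ p := by
  classical
  let O := Localization.AtPrime m
  let m2 : Ideal R2 := m.under R2
  have hm2 : m2.IsPrime := inferInstance
  have hal : ∀ x : R2, algebraMap R2 O x = algebraMap T O (x : T) := fun _ => rfl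
  have hinjT : Function.Injective (algebraMap T O) :=
    IsLocalization.injective O m.primeCompl_le_nonZeroDivisors
  have hL : IsLocalization.AtPrime O m2 := by
    rw [IsLocalization.AtPrime, isLocalization_iff]
    refine ⟨?_, ?_, ?_⟩
    · intro y
      rw [hal]
      exact IsLocalization.map_units O (⟨(y : R2), y.2⟩ : m.primeCompl)
    · intro z
      obtain ⟨⟨t, v⟩, hz⟩ := IsLocalization.surj m.primeCompl z
      obtain ⟨u1, hu1, hu1m, hu1t⟩ := hloc t
      obtain ⟨u2, hu2, hu2m, hu2v⟩ := hloc v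
      have hv : (v : T) ∉ m := v.2
      have hnot : u1 * (u2 * v) ∉ m := by
        intro h
        rcases hm.mem_or_mem h with h | h
        · exact hu1m h
        · rcases hm.mem_or_mem h with h | h
          · exact hu2m h
          · exact hv h
      refine ⟨⟨⟨u2 * (u1 * t), R2.mul_mem hu2 hu1t⟩,
        ⟨⟨u1 * (u2 * v), R2.mul_mem hu1 hu2v⟩, hnot⟩⟩, ?_⟩
      simp only [hal, map_mul] at hz ⊢
      linear_combination (algebraMap T O u1 * algebraMap T O u2) * hz
    · intro x y hxy
      rw [hal, hal] at hxy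
      exact ⟨1, by rw [Subtype.ext (hinjT hxy)]⟩
  have hN2 : IsNoetherianRing R2 := IsNoetherianRing.of_finite P R2
  have hNO : IsNoetherianRing O := IsLocalization.isNoetherianRing m2.primeCompl O hN2
  have hF : FaithfulSMul P R2 := by
    rw [faithfulSMul_iff_algebraMap_injective]
    intro a b hab
    apply FaithfulSMul.algebraMap_injective P T
    exact congrArg Subtype.val hab
  have hover : m2.LiesOver (m.under P) := ⟨(Ideal.under_under m).symm⟩
  have h1 : (m.under P).height ≤ m2.height := by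
    rw [Ideal.height_eq_height_add_of_liesOver_of_hasGoingDown (m.under P) m2]
    exact le_self_add
  have h2 : m2.height = m.height := by
    have e1 := IsLocalization.AtPrime.ringKrullDim_eq_height m2 O
    have e2 := IsLocalization.AtPrime.ringKrullDim_eq_height m O
    rw [e1] at e2
    exact_mod_cast e2
  have hle : Ideal.span ((s.image (algebraMap T O) : Finset O) : Set O) ≤
      IsLocalRing.maximalIdeal O := by
    rw [Ideal.span_le]
    intro z hz
    obtain ⟨x, hx, rfl⟩ := Finset.mem_image.1 (Finset.mem_coe.1 hz)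
    exact (IsLocalization.AtPrime.to_map_mem_maximal_iff O m x).2 (hs x hx)
  obtain ⟨p0, hp0, hp0le⟩ := Ideal.exists_minimalPrimes_le hle
  have hp0p : p0.IsPrime := hp0.isPrime
  have h3 : p0.height ≤ (s.card : ℕ∞) :=
    (Ideal.height_le_card_of_mem_minimalPrimes_span_finset hp0).trans
      (by exact_mod_cast Finset.card_image_le)
  have h4 : (p0.under T).height = p0.height := IsLocalization.height_under m.primeCompl p0
  refine ⟨p0.under T, inferInstance, lt_of_le_of_ne ?_ ?_, ?_⟩
  · intro x hx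
    exact (IsLocalization.AtPrime.to_map_mem_maximal_iff O m x).1 (hp0le hx)
  · intro he
    rw [he, ← h2] at h4
    have h5 : ((s.card + 1 : ℕ) : ℕ∞) ≤ (s.card : ℕ∞) := hh.trans (h1.trans (h4.le.trans h3))
    have h6 : s.card + 1 ≤ s.card := by exact_mod_cast h5
    omega
  · intro x hx
    exact hp0.le (Ideal.subset_span (Finset.mem_coe.2 (Finset.mem_image_of_mem _ hx)))

/-- An algebraic element is a simple root of some polynomial. -/
theorem exists_simple {P T : Type*} [CommRing P] [IsDomain P] [CharZero P] [CommRing T]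
    [Algebra P T] [FaithfulSMul P T] (g : T) (hg : IsAlgebraic P g) :
    ∃ Q : P[X], aeval g Q = 0 ∧ aeval g (derivative Q) ≠ 0 := by
  obtain ⟨Q, hQ0, hQ⟩ := hg
  induction hn : Q.natDegree using Nat.strong_induction_on generalizing Q with
  | _ n ih =>
    by_cases hd : aeval g (derivative Q) = 0
    · have hne : Q.natDegree ≠ 0 := by
        intro h0
        rw [eq_C_of_natDegree_eq_zero h0, aeval_C] at hQ
        apply hQ0
        rw [eq_C_of_natDegree_eq_zero h0,
          (FaithfulSMul.algebraMap_eq_zero_iff P T).1 hQ, C_0]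
      exact ih _ (hn ▸ natDegree_derivative_lt hne) (derivative Q)
        (derivative_ne_zero.2 hne) hd rfl
    · exact ⟨Q, hQ, hd⟩

theorem core {P T : Type*} [CommRing P] [IsDomain P] [CharZero P] [IsNoetherianRing P]
    [IsIntegrallyClosed P] [CommRing T] [IsDomain T] [Algebra P T] [FaithfulSMul P T]
    [Algebra.IsAlgebraic P T] {e : ℕ} (y : Fin e → P)
    (hext : ∀ (p : Ideal T) (f1 f2 : P →+* T ⧸ p), (∀ i, f1 (y i) = f2 (y i)) → f1 = f2)
    (hh : ∀ m : Ideal P, m.IsPrime → Finite (P ⧸ m) → ((e + 1 : ℕ) : ℕ∞) ≤ m.height)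
    {G : Set T} (hG : G.Finite) {δ : T} (h0 : δ ≠ 0) (h1 : δ ∈ Subring.closure G)
    (h2 : ∀ t, ∃ k : ℕ, δ ^ k * t ∈ Subring.closure G) :
    ∃ b : T, b ≠ 0 ∧ ∀ m : Ideal T, m.IsPrime → Finite (T ⧸ m) → b ∉ m →
      ∀ s : T →+* T, (∀ t, s t - t ∈ m) →
        ∃ p : Ideal T, p.IsPrime ∧ p < m ∧ ∀ t, s t - t ∈ p := by
  classical
  obtain ⟨a, ha0, ha⟩ := Algebra.IsAlgebraic.exists_integral_multiples P (A := T) hG.toFinset
  choose Q hQ hQ' using fun g : T => exists_simple (P := P) g (Algebra.IsAlgebraic.isAlgebraic g)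
  have haT : algebraMap P T a ≠ 0 := fun h =>
    ha0 ((FaithfulSMul.algebraMap_eq_zero_iff P T).1 h)
  refine ⟨δ * (algebraMap P T a * ∏ g ∈ hG.toFinset, aeval g (derivative (Q g))),
    mul_ne_zero h0 (mul_ne_zero haT (Finset.prod_ne_zero_iff.2 fun g _ => hQ' g)), ?_⟩
  intro m hm hfin hb s hs
  have hδm : δ ∉ m := fun h => hb (m.mul_mem_right _ h)
  have ham : algebraMap P T a ∉ m := fun h => hb (m.mul_mem_left _ (m.mul_mem_right _ h))
  have hQm : ∀ g ∈ G, aeval g (derivative (Q g)) ∉ m := by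
    intro g hg h
    refine hb (m.mul_mem_left _ (m.mul_mem_left _ ?_))
    rw [← Finset.mul_prod_erase _ _ (hG.mem_toFinset.2 hg)]
    exact m.mul_mem_right _ h
  have hmul : ∀ {u v : T}, u ∉ m → v ∉ m → u * v ∉ m := fun hu hv h =>
    (hm.mem_or_mem h).elim hu hv
  let R2 : Subalgebra P T := Algebra.adjoin P ((fun g => a • g) '' G)
  have hfin2 : Module.Finite P R2 := by
    refine Algebra.finite_adjoin_of_finite_of_isIntegral (hG.image _) ?_
    rintro _ ⟨g, hg, rfl⟩
    exact ha g (hG.mem_toFinset.2 hg)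
  have h1m : (1 : T) ∉ m := (Ideal.ne_top_iff_one m).1 hm.ne_top
  have hloc0 : ∀ t ∈ Subring.closure G, ∃ u ∈ R2, u ∉ m ∧ u * t ∈ R2 := by
    intro t ht
    induction ht using Subring.closure_induction with
    | mem g hg =>
      refine ⟨algebraMap P T a, R2.algebraMap_mem a, ham, ?_⟩
      rw [← Algebra.smul_def]
      exact Algebra.subset_adjoin ⟨g, hg, rfl⟩
    | zero => exact ⟨1, R2.one_mem, h1m, by simp⟩
    | one => exact ⟨1, R2.one_mem, h1m, by simp⟩
    | add x z _ _ hx hz =>
      obtain ⟨u, hu, hum, hux⟩ := hx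
      obtain ⟨v, hv, hvm, hvz⟩ := hz
      refine ⟨u * v, R2.mul_mem hu hv, hmul hum hvm, ?_⟩
      have : u * v * (x + z) = v * (u * x) + u * (v * z) := by ring
      rw [this]
      exact R2.add_mem (R2.mul_mem hv hux) (R2.mul_mem hu hvz)
    | neg x _ hx =>
      obtain ⟨u, hu, hum, hux⟩ := hx
      exact ⟨u, hu, hum, by rw [mul_neg]; exact R2.neg_mem hux⟩
    | mul x z _ _ hx hz =>
      obtain ⟨u, hu, hum, hux⟩ := hx
      obtain ⟨v, hv, hvm, hvz⟩ := hz
      refine ⟨u * v, R2.mul_mem hu hv, hmul hum hvm, ?_⟩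
      have : u * v * (x * z) = (u * x) * (v * z) := by ring
      rw [this]
      exact R2.mul_mem hux hvz
  have hloc : ∀ t : T, ∃ u ∈ R2, u ∉ m ∧ u * t ∈ R2 := by
    intro t
    obtain ⟨k, hk⟩ := h2 t
    obtain ⟨u0, hu0, hu0m, hu0d⟩ := hloc0 δ h1
    obtain ⟨u, hu, hum, hut⟩ := hloc0 _ hk
    refine ⟨(u0 * δ) ^ k * u, R2.mul_mem (R2.pow_mem hu0d k) hu,
      hmul (fun h => hmul hu0m hδm (hm.mem_of_pow_mem k h)) hum, ?_⟩
    have : (u0 * δ) ^ k * u * t = u0 ^ k * (u * (δ ^ k * t)) := by ring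
    rw [this]
    exact R2.mul_mem (R2.pow_mem hu0 k) hut
  let sf : Finset T :=
    Finset.univ.image fun i : Fin e => s (algebraMap P T (y i)) - algebraMap P T (y i)
  have hcard : sf.card ≤ e := Finset.card_image_le.trans (by simp)
  have hfinP : Finite (P ⧸ m.under P) := finite_comap (algebraMap P T) m
  obtain ⟨p, hp, hpm, hsp⟩ := exists_lt R2 m hloc sf (by
    intro x hx
    obtain ⟨i, _, rfl⟩ := Finset.mem_image.1 hx
    exact hs _) (le_trans (by exact_mod_cast Nat.succ_le_succ hcard)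
      (hh (m.under P) inferInstance hfinP))
  refine ⟨p, hp, hpm, ?_⟩
  let f1 : T →+* T ⧸ p := Ideal.Quotient.mk p
  let f2 : T →+* T ⧸ p := (Ideal.Quotient.mk p).comp s
  have hiff : ∀ t, f2 t = f1 t ↔ s t - t ∈ p := fun t => Ideal.Quotient.eq
  have hP : f2.comp (algebraMap P T) = f1.comp (algebraMap P T) := by
    refine hext p _ _ fun i => ?_
    exact (hiff _).2 (hsp _ (Finset.mem_image_of_mem _ (Finset.mem_univ i)))
  have hGeq : ∀ g ∈ G, f2 g = f1 g := by
    intro g hg
    rw [hiff]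
    obtain ⟨k, hk⟩ := ((Q g).map (algebraMap P T)).binomExpansion g (s g - g)
    have e1 : ((Q g).map (algebraMap P T)).eval g = 0 := by
      rw [eval_map_algebraMap]; exact hQ g
    have e2 : ((Q g).map (algebraMap P T)).derivative.eval g = aeval g (derivative (Q g)) := by
      rw [derivative_map, eval_map_algebraMap]
    have e3 : ((Q g).map (algebraMap P T)).eval (s g) ∈ p := by
      rw [← Ideal.Quotient.eq_zero_iff_mem, eval_map]
      change f1 _ = 0
      rw [hom_eval₂, ← hP]
      change eval₂ (f2.comp (algebraMap P T)) (f2 g) (Q g) = 0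
      rw [← hom_eval₂, ← aeval_def, hQ g, map_zero]
    rw [add_sub_cancel, e1, e2] at hk
    have e4 : (s g - g) * (aeval g (derivative (Q g)) + k * (s g - g)) ∈ p := by
      have : (s g - g) * (aeval g (derivative (Q g)) + k * (s g - g)) =
          ((Q g).map (algebraMap P T)).eval (s g) := by
        rw [hk]; ring
      rw [this]
      exact e3
    rcases hp.mem_or_mem e4 with h | h
    · exact h
    · exfalso
      apply hQm g hg
      have h5 := m.sub_mem (hpm.le h) (m.mul_mem_left k (hs g))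
      rwa [add_sub_cancel_right] at h5
  have hcl : ∀ t ∈ Subring.closure G, f2 t = f1 t := fun t ht =>
    RingHom.eqOn_set_closure (f := f2) (g := f1) hGeq ht
  intro t
  rw [← hiff]
  obtain ⟨k, hk⟩ := h2 t
  have h6 := hcl _ hk
  rw [map_mul, map_mul, map_pow, map_pow, hcl δ h1] at h6
  have h7 : f1 δ ≠ 0 := fun h => hδm (hpm.le (Ideal.Quotient.eq_zero_iff_mem.1 h))
  exact mul_left_cancel₀ (pow_ne_zero k h7) h6

end HLiftX

theorem height_ge (e : ℕ) (m : Ideal (MvPolynomial (Fin e) ℤ)) [m.IsPrime]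
    [Finite (MvPolynomial (Fin e) ℤ ⧸ m)] : ((e + 1 : ℕ) : ℕ∞) ≤ m.height := by
  induction e with
  | zero => simpa using HLiftX.one_le_height m
  | succ e ih =>
    let φ := (MvPolynomial.finSuccEquiv ℤ e).toRingEquiv.symm
    let M := m.comap φ
    have hM : M.height = m.height := RingEquiv.height_comap φ m
    have hMp : M.IsPrime := Ideal.comap_isPrime _ _
    have hMf : Finite (_ ⧸ M) := HLiftX.finite_comap φ.toRingHom m
    have hMm : M.IsMaximal := HLiftX.isMaximal_of_finite M
    have hf : Finite (_ ⧸ M.under (MvPolynomial (Fin e) ℤ)) :=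
      HLiftX.finite_comap (algebraMap _ _) M
    rw [← hM, Polynomial.height_eq_height_add_one (M.under (MvPolynomial (Fin e) ℤ)) M]
    have h1 := ih (M.under (MvPolynomial (Fin e) ℤ))
    rw [Nat.cast_add (e + 1) 1, Nat.cast_one]
    gcongr

theorem exists_lift {T : Type*} [CommRing T] [IsDomain T] [CharZero T] {G : Set T}
    (hG : G.Finite) {δ : T} (h0 : δ ≠ 0) (h1 : δ ∈ Subring.closure G)
    (h2 : ∀ t, ∃ k : ℕ, δ ^ k * t ∈ Subring.closure G) :
    ∃ b : T, b ≠ 0 ∧ ∀ m : Ideal T, m.IsPrime → Finite (T ⧸ m) → b ∉ m →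
      ∀ s : T →+* T, (∀ t, s t - t ∈ m) →
        ∃ p : Ideal T, p.IsPrime ∧ p < m ∧ ∀ t, s t - t ∈ p := by
  classical
  have hmem : ∀ t, t ∈ Subring.closure G → t ∈ Algebra.adjoin ℤ G := by
    intro t ht
    rw [Algebra.adjoin_int]
    exact ht
  have halg : Algebra.IsAlgebraic (Algebra.adjoin ℤ G) T := by
    constructor
    intro t
    obtain ⟨k, hk⟩ := h2 t
    have hδ : δ ^ k ∈ Algebra.adjoin ℤ G := Subalgebra.pow_mem _ (hmem δ h1) k
    refine IsAlgebraic.of_smul_isIntegral (y := (⟨δ ^ k, hδ⟩ : Algebra.adjoin ℤ G)) ?_ ?_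
    · rw [isNilpotent_iff_eq_zero]
      intro h
      exact pow_ne_zero k h0 (congrArg Subtype.val h)
    · exact isIntegral_algebraMap (x := (⟨δ ^ k * t, hmem _ hk⟩ : Algebra.adjoin ℤ G))
  obtain ⟨u, huG, hu⟩ := exists_isTranscendenceBasis_subset (R := ℤ) G
  have hfu : Finite u := (hG.subset huG).to_subtype
  obtain ⟨e, ⟨η⟩⟩ := Finite.exists_equiv_fin u
  have hy : IsTranscendenceBasis ℤ (((↑) : u → T) ∘ η.symm) := hu.comp_equiv η.symm
  set y : Fin e → T := ((↑) : u → T) ∘ η.symm with hydef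
  let _ : Algebra (MvPolynomial (Fin e) ℤ) T := (MvPolynomial.aeval y).toRingHom.toAlgebra
  have hF : FaithfulSMul (MvPolynomial (Fin e) ℤ) T := by
    rw [faithfulSMul_iff_algebraMap_injective]
    exact hy.1
  have hA : Algebra.IsAlgebraic (MvPolynomial (Fin e) ℤ) T := by
    constructor
    intro t
    have h3 := hy.isAlgebraic.isAlgebraic t
    refine IsAlgebraic.ringHom_of_comp_eq hy.1.aevalEquiv.symm.toRingEquiv.toRingHom
      (RingHom.id T) h3 hy.1.aevalEquiv.symm.injective ?_
    ext z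
    obtain ⟨q, rfl⟩ := hy.1.aevalEquiv.surjective z
    simp
    rfl
  refine HLiftX.core (P := MvPolynomial (Fin e) ℤ) (fun i => MvPolynomial.X i) ?_ ?_ hG h0 h1 h2
  · intro p f1 f2 h
    refine MvPolynomial.ringHom_ext (fun r => ?_) h
    simp
  · intro m hm hf
    exact height_ge e m

end Pool.Agent.P.MP_5c499f_an
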