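import Pool.Agent.P.MP_5c499f_an.HAb
import Pool.Agent.P.MP_5c499f_an.HAlg
import Pool.Agent.P.MP_5c499f_an.HChi
import Pool.Agent.P.MP_5c499f_an.HLift

/-! Reduction modulo maximal ideals. TASK ANOS2-T5. -/

set_option autoImplicit false

namespace Pool.Agent.P.MP_5c499f_an

namespace HCoreX

theorem jacobson_int : IsJacobsonRing ℤ := by
  rw [isJacobsonRing_iff_prime_eq]
  intro P hP
  by_cases h : P = ⊥
  · subst h
    refine le_antisymm (fun z hz => ?_) Ideal.le_jacobson
    obtain ⟨p, hp, hpp⟩ := Nat.exists_infinite_primes (z.natAbs + 1)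
    have hpz : Prime (p : ℤ) := Nat.prime_iff_prime_int.1 hpp
    have hmax : (Ideal.span {(p : ℤ)}).IsMaximal :=
      PrincipalIdealRing.isMaximal_of_irreducible hpz.irreducible
    have h1 : z ∈ Ideal.span {(p : ℤ)} := Ideal.mem_sInf.1 hz ⟨bot_le, hmax⟩
    rw [Ideal.mem_span_singleton] at h1
    rw [Ideal.mem_bot]
    refine Int.eq_zero_of_dvd_of_natAbs_lt_natAbs h1 ?_
    simp only [Int.natAbs_natCast]
    omega
  · have : P.IsMaximal := IsPrime.to_maximal_ideal h
    exact Ideal.jacobson_eq_self_of_isMaximal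

theorem finite_field {D K : Type*} [CommRing D] [Algebra.FiniteType ℤ D] [Field K]
    (f : D →+* K) (hs : Function.Surjective f) : Finite K := by
  have := jacobson_int
  have : Algebra.FiniteType ℤ K := Algebra.FiniteType.of_surjective f.toIntAlgHom hs
  have hf : Module.Finite ℤ K := finite_of_finite_type_of_isJacobsonRing ℤ K
  obtain ⟨q, hq⟩ := CharP.exists K
  rcases CharP.char_is_prime_or_zero K q with h | rfl
  · have : Fact q.Prime := ⟨h⟩
    let : Algebra (ZMod q) K := ZMod.algebra K q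
    have : Module.Finite (ZMod q) K := Module.Finite.of_restrictScalars_finite ℤ (ZMod q) K
    exact Module.finite_of_finite (ZMod q)
  · have := CharP.charP_to_charZero K
    exact absurd (isField_of_isIntegral_of_isField (R := ℤ) (S := K)
      (RingHom.injective_int _) (Field.toIsField K)) Int.not_isField

theorem alg_all {T L : Type*} (F : Type*) [CommRing T] [Field F] [Field L] [Algebra F L]
    (ψ : T →+* L) {G : Set T} (hG : Subring.closure G = ⊤)
    (h : ∀ t ∈ G, IsAlgebraic F (ψ t)) (t : T) : IsAlgebraic F (ψ t) := by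
  have h1 : Subring.closure G ≤ (integralClosure F L).toSubring.comap ψ :=
    Subring.closure_le.2 fun t ht => (h t ht).isIntegral
  have h2 : IsIntegral F (ψ t) := h1 (hG ▸ Subring.mem_top t)
  exact h2.isAlgebraic

end HCoreX

theorem exists_maximal_finite {D : Type*} [CommRing D] [IsDomain D] [Algebra.FiniteType ℤ D]
    {z : D} (hz : z ≠ 0) : ∃ M : Ideal D, M.IsMaximal ∧ Finite (D ⧸ M) ∧ z ∉ M := by
  have := HCoreX.jacobson_int
  have hJ : IsJacobsonRing D := isJacobsonRing_of_finiteType (A := ℤ)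
  have h1 : (⊥ : Ideal D).jacobson = ⊥ := isJacobsonRing_iff_prime_eq.1 hJ ⊥ Ideal.isPrime_bot
  by_contra hc
  push Not at hc
  apply hz
  rw [← Ideal.mem_bot, ← h1]
  refine Ideal.mem_sInf.2 fun {M} hM => hc M hM.2 ?_
  have := hM.2
  let := Ideal.Quotient.field M
  exact HCoreX.finite_field (Ideal.Quotient.mk M) Ideal.Quotient.mk_surjective

theorem Win.core_trace {Γ : Type*} [Group Γ] {Φ : MulAut Γ} (hW : Win Φ) {S : Set Γ}
    (hS : S.Finite) (hgen : Subgroup.closure S = ⊤) {D : Type*} [CommRing D] [IsDomain D]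
    [CharZero D] [Algebra.FiniteType ℤ D] (σ : D →+* D) (τ : Γ → D) (hτ : ∀ x, τ (Φ x) = σ (τ x))
    {m d : ℕ} {g : Fin m → Γ} (h : Chi τ g d) (h0 : (gram τ g 1).det ≠ 0) (hd : d ≠ 0) {c : Γ}
    (hc : ∀ r : Γ →* Matrix (Fin m) (Fin m) ℂ, (Set.range r).Finite → r c = 1) (x : Γ) :
    τ (x * c) = τ x := by
  classical
  let TT : Subring D := Subring.closure (Set.range τ)
  let χ : Γ → TT := fun y => ⟨τ y, Subring.subset_closure ⟨y, rfl⟩⟩
  have hχ : Chi χ g d := Chi.of_map TT.subtype Subtype.val_injective h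
  have htop : Subring.closure (Set.range χ) = ⊤ := by
    rw [eq_top_iff]
    rintro ⟨t, ht⟩ -
    induction ht using Subring.closure_induction with
    | mem y hy =>
      obtain ⟨y, rfl⟩ := hy
      exact Subring.subset_closure ⟨y, rfl⟩
    | zero => exact Subring.zero_mem _
    | one => exact Subring.one_mem _
    | add a b _ _ ha hb => exact Subring.add_mem _ ha hb
    | neg a _ ha => exact Subring.neg_mem _ ha
    | mul a b _ _ ha hb => exact Subring.mul_mem _ ha hb
  have hdet : (gram χ g 1).det ≠ 0 := by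
    intro h1
    apply h0
    have h2 := det_gram_map TT.subtype χ g
    rw [h1, map_zero] at h2
    exact h2
  have hδ : (d : TT) * (gram χ g 1).det ≠ 0 := mul_ne_zero (Nat.cast_ne_zero.2 hd) hdet
  obtain ⟨G, hG, hG1, hG2⟩ := hχ.denom hS hgen htop
  obtain ⟨b, hb, hlift⟩ := exists_lift hG hδ hG1 hG2
  by_contra hne
  have hz : χ (x * c) - χ x ≠ 0 := fun h1 => hne (congrArg Subtype.val (sub_eq_zero.1 h1))
  have hw : ((b * ((d : TT) * (gram χ g 1).det) * (χ (x * c) - χ x) : TT) : D) ≠ 0 := by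
    intro h1
    exact mul_ne_zero (mul_ne_zero hb hδ) hz (Subtype.ext h1)
  obtain ⟨M, hM, hMf, hwM⟩ := exists_maximal_finite hw
  -- a period
  have hpow : ∀ (k : ℕ) (y : Γ), τ ((Φ ^ k) y) = (σ ^ k) (τ y) := by
    intro k
    induction k with
    | zero => intro y; simp
    | succ k ih =>
      intro y
      rw [pow_succ', pow_succ', MulAut.mul_apply, hτ, ih]
      rfl
  have hper : ∃ n : ℕ, 0 < n ∧ ∀ y, Ideal.Quotient.mk M (τ ((Φ ^ n) y)) =
      Ideal.Quotient.mk M (τ y) := by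
    obtain ⟨s, hs⟩ := (Algebra.FiniteType.out : (⊤ : Subalgebra ℤ D).FG)
    have key : ∀ i j : ℕ, i < j →
        ((fun a : s => Ideal.Quotient.mk M ((σ ^ i) a.1)) =
          fun a : s => Ideal.Quotient.mk M ((σ ^ j) a.1)) →
        ∃ n : ℕ, 0 < n ∧ ∀ y, Ideal.Quotient.mk M (τ ((Φ ^ n) y)) =
          Ideal.Quotient.mk M (τ y) := by
      intro i j hij e
      have e2 : ((Ideal.Quotient.mk M).comp (σ ^ i)).toIntAlgHom =
          ((Ideal.Quotient.mk M).comp (σ ^ j)).toIntAlgHom :=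
        AlgHom.ext_of_adjoin_eq_top hs fun a ha => congrFun e ⟨a, ha⟩
      refine ⟨j - i, by omega, fun y => ?_⟩
      obtain ⟨y, rfl⟩ := (Φ ^ i).surjective y
      rw [← MulAut.mul_apply, ← pow_add, Nat.sub_add_cancel hij.le, hpow, hpow]
      exact (DFunLike.congr_fun e2 (τ y)).symm
    obtain ⟨i, j, hij, e⟩ := Finite.exists_ne_map_eq_of_infinite
      fun i : ℕ => fun a : s => Ideal.Quotient.mk M ((σ ^ i) a.1)
    rcases lt_or_gt_of_ne hij with h1 | h1
    · exact key i j h1 e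
    · exact key j i h1 e.symm
  obtain ⟨n, hn, hper⟩ := hper
  have hmaps : ∀ t ∈ TT, (σ ^ n) t ∈ TT := by
    have : TT ≤ TT.comap (σ ^ n) := Subring.closure_le.2 (by
      rintro _ ⟨y, rfl⟩
      show (σ ^ n) (τ y) ∈ TT
      rw [← hpow]
      exact Subring.subset_closure ⟨_, rfl⟩)
    exact this
  let s : TT →+* TT := (σ ^ n).restrict TT TT hmaps
  have hs : ∀ y, s (χ y) = χ ((Φ ^ n) y) := fun y => Subtype.ext (hpow n y).symm
  let mm : Ideal TT := M.comap TT.subtype
  have hmm : mm.IsPrime := Ideal.comap_isPrime _ _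
  have hmf : Finite (TT ⧸ mm) :=
    Finite.of_injective _ (Ideal.quotientMap_injective (I := M) (f := TT.subtype))
  have hwm : b * ((d : TT) * (gram χ g 1).det) * (χ (x * c) - χ x) ∉ mm := hwM
  have hsm : ∀ t, s t - t ∈ mm := by
    have e : ((Ideal.Quotient.mk M).comp TT.subtype).comp s =
        (Ideal.Quotient.mk M).comp TT.subtype :=
      RingHom.eq_of_eqOn_set_dense htop (by
        rintro _ ⟨y, rfl⟩
        show Ideal.Quotient.mk M (s (χ y) : D) = Ideal.Quotient.mk M (τ y)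
        rw [hs]
        exact hper y)
    intro t
    exact (Ideal.Quotient.eq (I := M)).1 (DFunLike.congr_fun e t)
  obtain ⟨p, hp, hpm, hsp⟩ := hlift mm hmm hmf
    (fun h1 => hwm (mm.mul_mem_right _ (mm.mul_mem_right _ h1))) s hsm
  let L := FractionRing (TT ⧸ p)
  let ψ : TT →+* L := (algebraMap (TT ⧸ p) L).comp (Ideal.Quotient.mk p)
  have hψ : ∀ t, ψ t = 0 ↔ t ∈ p := fun t => by
    rw [← Ideal.Quotient.eq_zero_iff_mem]
    exact map_eq_zero_iff _ (IsFractionRing.injective (TT ⧸ p) L)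
  have hψδ : ψ ((d : TT) * (gram χ g 1).det) ≠ 0 := fun h1 =>
    hwm (mm.mul_mem_right _ (mm.mul_mem_left _ (hpm.le ((hψ _).1 h1))))
  rw [map_mul, map_natCast] at hψδ
  have hdL : (d : L) ≠ 0 := left_ne_zero_of_mul hψδ
  have hinv : ∀ y, ψ (χ ((Φ ^ n) y)) = ψ (χ y) := fun y => by
    rw [← sub_eq_zero, ← map_sub, hψ, ← hs]
    exact hsp _
  obtain ⟨r, A, hA, hr1, hr2, -⟩ := (hχ.map ψ).rep
    (by rw [det_gram_map]; exact right_ne_zero_of_mul hψδ) (Φ ^ n) hinv
  have halg : ∀ (F : Type) [Field F] [Algebra F L] (t : TT), IsAlgebraic F (ψ t) := by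
    intro F _ _
    refine HCoreX.alg_all F ψ htop ?_
    rintro _ ⟨y, rfl⟩
    have h1 := (hW.pow hn).alg_trace F r hA hr1 y
    rw [hr2] at h1
    have h2 : IsAlgebraic F (d : L)⁻¹ := (isAlgebraic_natCast d).inv
    have h3 := h2.mul h1
    rwa [inv_mul_cancel_left₀ hdL] at h3
  obtain ⟨q, hq⟩ := CharP.exists L
  rcases CharP.char_is_prime_or_zero L q with hq' | rfl
  · have : Fact q.Prime := ⟨hq'⟩
    let : Algebra (ZMod q) L := ZMod.algebra L q
    let U : Subalgebra (ZMod q) L :=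
      { ψ.range with
        algebraMap_mem' := fun a => ⟨(a.val : TT), by
          rw [map_natCast, ← map_natCast (algebraMap (ZMod q) L), ZMod.natCast_zmod_val]⟩ }
    obtain ⟨t, htm, htp⟩ := SetLike.exists_of_lt hpm
    obtain ⟨t', ht'⟩ : (ψ t)⁻¹ ∈ U :=
      U.inv_mem_of_algebraic (x := ⟨ψ t, t, rfl⟩) (halg (ZMod q) t)
    have h1 : t * t' - 1 ∈ p := by
      rw [← hψ, map_sub, map_mul, map_one, ht', mul_inv_cancel₀ fun h2 => htp ((hψ t).1 h2),
        sub_self]
    apply hmm.ne_top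
    rw [Ideal.eq_top_iff_one]
    have h2 := mm.sub_mem (mm.mul_mem_right t' htm) (hpm.le h1)
    rwa [sub_sub_cancel] at h2
  · have := CharP.charP_to_charZero L
    have : Algebra.IsAlgebraic ℚ L := ⟨fun a => by
      obtain ⟨u, v, -, rfl⟩ := IsFractionRing.div_surjective (A := TT ⧸ p) a
      obtain ⟨u, rfl⟩ := Ideal.Quotient.mk_surjective u
      obtain ⟨v, rfl⟩ := Ideal.Quotient.mk_surjective v
      rw [div_eq_mul_inv]
      exact (halg ℚ u).mul (halg ℚ v).inv⟩
    let ι : L →+* ℂ := (IsAlgClosed.lift (R := ℚ) (S := L) (M := ℂ)).toRingHom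
    have hdC : (d : ℂ) ≠ 0 := Nat.cast_ne_zero.2 hd
    obtain ⟨r', A', hA', hr1', hr2', hr3'⟩ := ((hχ.map ψ).map ι).rep
      (by
        rw [det_gram_map, det_gram_map]
        exact (map_ne_zero ι).2 (right_ne_zero_of_mul hψδ)) (Φ ^ n)
      (fun y => congrArg ι (hinv y))
    have h1 := (hW.pow hn).finite_trace hS hgen r' hA' hr1'
    have h2 : r' c = 1 := hc r' (hr3' ((h1.image fun a => (d : ℂ)⁻¹ * a).subset (by
      rintro _ ⟨y, rfl⟩
      exact ⟨_, ⟨y, rfl⟩, by simp only [hr2', inv_mul_cancel_left₀ hdC]⟩)))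
    have h3 : (d : ℂ) * ι (ψ (χ (x * c))) = d * ι (ψ (χ x)) := by
      rw [← hr2', ← hr2', map_mul, h2, mul_one]
    have h4 : ψ (χ (x * c) - χ x) = 0 := by
      rw [map_sub, sub_eq_zero]
      exact ι.injective (mul_left_cancel₀ hdC h3)
    exact hwm (mm.mul_mem_left _ (hpm.le ((hψ _).1 h4)))

end Pool.Agent.P.MP_5c499f_an
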