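import Pool.Agent.P.MP_5c499f_an.GWin

/-! Auxiliary definitions for the case of a linear deck group. -/

set_option autoImplicit false

namespace Pool.Agent.P.MP_5c499f_an

variable {Γ : Type*} [Group Γ]

/-- The elements that act trivially in every action on `J` points. -/
def kerAll (Γ : Type*) [Group Γ] (J : ℕ) : Subgroup Γ :=
  ⨅ θ : Γ →* Equiv.Perm (Fin J), θ.ker

/-- The matrix of values `χ (g i * x * g j)`. -/
def gram {R : Type*} {m : ℕ} (χ : Γ → R) (g : Fin m → Γ) (x : Γ) : Matrix (Fin m) (Fin m) R :=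
  Matrix.of fun i j => χ (g i * x * g j)

/-- The identities satisfied by the character of a representation of degree `d` in which the
elements `g i` form a basis of the matrix algebra. -/
structure Chi {R : Type*} [CommRing R] {m : ℕ} (χ : Γ → R) (g : Fin m → Γ) (d : ℕ) : Prop where
  mul : ∀ x y, (gram χ g 1).det * χ (x * y) =
    ∑ i, ∑ j, χ (x * g i) * (gram χ g 1).adjugate i j * χ (g j * y)
  tr : ∀ x, ((gram χ g 1).adjugate * gram χ g x).trace = d * (gram χ g 1).det * χ x

/-- The span of the matrices `ρ c - 1` for `c` in `Δ`. -/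
def aug {d : ℕ} (ρ : Γ →* Matrix (Fin d) (Fin d) ℂ) (Δ : Subgroup Γ) :
    Submodule ℂ (Matrix (Fin d) (Fin d) ℂ) :=
  Submodule.span ℂ ((fun c => ρ c - 1) '' Δ)

/-- `l` is additive on `Δ`. -/
def AddOn (Δ : Subgroup Γ) (l : Γ → ℂ) : Prop := ∀ a ∈ Δ, ∀ b ∈ Δ, l (a * b) = l a + l b

/-- Precomposition with conjugation by `g`. -/
noncomputable def cj (g : Γ) : Module.End ℂ (Γ → ℂ) :=
  LinearMap.funLeft ℂ ℂ fun x => g * x * g⁻¹

end Pool.Agent.P.MP_5c499f_an
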