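import Pool.Agent.P.MP_5c499f_an.KDefs

/-! Basic properties of combinatorial product structures. -/

set_option autoImplicit false

namespace Pool.Agent.P.MP_5c499f_an

variable {Y Γ : Type*} {G : Equiv.Perm Y} {Cl : Y → Y → Prop}

lemma zp_apply (G : Equiv.Perm Y) (k l : ℤ) (p : Y) : (G ^ k) ((G ^ l) p) = (G ^ (k + l)) p := by
  rw [zpow_add, Equiv.Perm.mul_apply]

lemma Fw.mono {k k' : ℤ} {x y : Y} (h : Fw G Cl k x y) (hk : k ≤ k') : Fw G Cl k' x y :=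
  fun j hj => h j (hk.trans hj)

lemma Fw_shift {k l : ℤ} {x y : Y} : Fw G Cl k ((G ^ l) x) ((G ^ l) y) ↔ Fw G Cl (k + l) x y := by
  simp only [Fw, zp_apply]
  exact ⟨fun h j hj => by simpa using h (j - l) (by omega), fun h j hj => h _ (by omega)⟩

lemma Fw_shift' {k l : ℤ} {x y : Y} :
    Fw G⁻¹ Cl k ((G ^ l) x) ((G ^ l) y) ↔ Fw G⁻¹ Cl (k - l) x y := by
  rw [sub_eq_add_neg, ← Fw_shift, inv_zpow', neg_neg]

lemma Fw_inv {k : ℤ} {x y : Y} :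
    Fw G⁻¹ Cl k x y ↔ ∀ j : ℤ, j ≤ -k → Cl ((G ^ j) x) ((G ^ j) y) := by
  simp only [Fw, inv_zpow']
  exact ⟨fun h j hj => by simpa using h (-j) (by omega), fun h j hj => h _ (by omega)⟩

lemma Ch.map {r r' : Y → Y → Prop} {f : Y → Y} (h : ∀ x y, r x y → r' (f x) (f y)) :
    ∀ {n : ℕ} {x y : Y}, Ch r n x y → Ch r' n (f x) (f y)
  | 0, _, _, e => congrArg f e
  | _ + 1, _, _, ⟨y, e, e'⟩ => ⟨f y, e.map h, h _ _ e'⟩

lemma Ch.split {r : Y → Y → Prop} {m : ℕ} :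
    ∀ {n : ℕ} {x z : Y}, Ch r (m + n) x z → ∃ y, Ch r m x y ∧ Ch r n y z
  | 0, _, z, e => ⟨z, e, rfl⟩
  | _ + 1, _, _, ⟨w, e, e'⟩ => e.split.imp fun _ h => ⟨h.1, w, h.2, e'⟩

lemma Ch.comp {ρ : ℤ → Y → Y → Prop} {c : ℕ} (h0 : ∀ k x, ρ k x x)
    (h : ∀ k x y z, ρ k x y → ρ k y z → ρ (k + c) x z) (k : ℤ) (l : ℕ) :
    ∀ n ≤ 2 ^ l, ∀ x y, Ch (ρ k) n x y → ρ (k + c * l) x y := by
  induction l with
  | zero =>
    intro n hn x y e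
    obtain rfl | rfl : n = 0 ∨ n = 1 := by omega
    · exact e ▸ h0 _ _
    · obtain ⟨_, rfl, e⟩ := e
      simpa using e
  | succ l ih =>
    intro n hn x z e
    rw [← Nat.div_add_mod n 2, two_mul, add_assoc] at e
    obtain ⟨y, e1, e2⟩ := e.split
    have := h _ _ _ _ (ih _ (by omega) _ _ e1) (ih _ (by omega) _ _ e2)
    rwa [add_assoc, ← mul_add_one] at this

lemma ncard_image2_le {α β γ : Type*} (f : α → β → γ) {s : Set α} {t : Set β} (hs : s.Finite)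
    (ht : t.Finite) : (Set.image2 f s t).ncard ≤ s.ncard * t.ncard := by
  rw [← Set.image_prod, ← Set.ncard_prod]
  exact Set.ncard_image_le (hs.prod ht)

variable [Group Γ] {Φ : MulAut Γ}

lemma Rs.finite {B : Set Γ} (hB : B.Finite) : ∀ n, (Rs Φ B n).Finite ∧
    (Rs Φ B n).ncard ≤ B.ncard ^ (n + 1)
  | 0 => ⟨hB, by simp [Rs]⟩
  | n + 1 => by
    obtain ⟨h1, h2⟩ := Rs.finite hB n
    have : Rs Φ B (n + 1) = Set.image2 (fun r b => Φ⁻¹ r * b) (Rs Φ B n) B := by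
      ext; simp [Rs, eq_comm]
    rw [this, pow_succ]
    exact ⟨h1.image2 _ hB, (ncard_image2_le _ h1 hB).trans (Nat.mul_le_mul_right _ h2)⟩

variable [MulAction Γ Y] {c : ℕ} {K : Set Y} {o : Y}

lemma Sat.smul {y : Y} (h : Sat Γ K y) (g : Γ) : Sat Γ K (g • y) :=
  h.elim fun u hu => ⟨g * u, by simpa [mul_smul] using hu⟩

lemma Sat.of_mem {y : Y} (h : y ∈ K) : Sat Γ K y := ⟨1, by simpa⟩

namespace Pre

variable (h : Pre G Φ Cl c K)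
include h

lemma eqv (k : ℤ) (g : Γ) (a : Y) : (G ^ k) (g • a) = (Φ ^ k) g • (G ^ k) a :=
  equiv_zpow (act := (· • ·)) h.equiv k g a

lemma sat {y : Y} (hy : Sat Γ K y) (k : ℤ) : Sat Γ K ((G ^ k) y) := by
  obtain ⟨g, hg⟩ := hy
  rw [← smul_inv_smul g y, h.eqv]
  exact (h.cov k _ hg).smul _

lemma fw_refl (k : ℤ) (x : Y) : Fw G Cl k x x := fun _ _ => h.refl _

lemma fw_symm {k : ℤ} {x y : Y} (e : Fw G Cl k x y) : Fw G Cl k y x :=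
  fun j hj => h.symm _ _ (e j hj)

lemma fw_smul {k : ℤ} {x y : Y} (e : Fw G Cl k x y) (g : Γ) : Fw G Cl k (g • x) (g • y) :=
  fun j hj => by rw [h.eqv, h.eqv]; exact h.inv _ _ _ (e j hj)

theorem chain {k : ℤ} {l n : ℕ} (hn : n ≤ 2 ^ l) {x y : Y} (e : Ch (Fw G Cl k) n x y) :
    Fw G Cl (k + c * l) x y := Ch.comp h.fw_refl h.cs k l n hn x y e

theorem rev : Pre G⁻¹ Φ⁻¹ Cl c K := by
  have e : ∀ (g : Γ) a, G⁻¹ (g • a) = Φ⁻¹ g • G⁻¹ a := by simpa using h.eqv (-1)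
  refine ⟨h.refl, h.symm, h.inv, e, h.cu, by simpa using h.cs, fun i => ?_, fun i => ?_,
    fun S hS => ?_⟩
  · simpa using h.fin (-i)
  · simpa using h.cov (-i)
  obtain ⟨T, hT⟩ := h.br _ hS.inv
  refine ⟨T, fun a ha b hb σ hσ => ?_⟩
  obtain ⟨w, w1, w2, w3⟩ := hT b hb a ha σ⁻¹ (by simpa)
  refine ⟨σ • w, w1.smul σ, fun j hj => ?_, by simpa using h.fw_smul w2 σ⟩
  have := h.inv ((Φ⁻¹ ^ j) σ) _ _ (w3 j hj)
  rwa [← equiv_zpow (act := (· • ·)) e, ← equiv_zpow (act := (· • ·)) e, smul_inv_smul] at this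

theorem pos : ∃ B : Set Γ, B.Finite ∧ (∀ a ∈ K, ∀ b ∈ K, ∀ g : Γ, Cl (g • a) b → g ∈ B) ∧
    ∀ (n : ℕ) (y : Y) (g u : Γ), ∀ b ∈ K, Cl y (g • b) → u⁻¹ • (G ^ (-n : ℤ)) y ∈ K →
      (Φ ^ (-n : ℤ)) g⁻¹ * u ∈ Rs Φ B n := by
  refine ⟨_, (h.fin 0).union (h.fin (-1)).inv,
    fun a ha b hb g e => .inl ⟨a, ha, b, hb, by simpa using e⟩, fun n y g u b hb e => ?_⟩
  induction n generalizing u with
  | zero =>
    exact fun e' => .inl ⟨_, e', b, hb, by simpa [mul_smul] using h.inv g⁻¹ _ _ e⟩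
  | succ n ih =>
    intro e'
    obtain ⟨v, hv⟩ := h.sat ⟨u, e'⟩ 1
    rw [zp_apply, show (1 + -(n + 1 : ℕ) : ℤ) = -n by omega] at hv
    refine ⟨_, ih v hv, Φ⁻¹ v⁻¹ * u, .inr ⟨_, hv, _, e', ?_⟩, ?_⟩
    · rw [h.eqv, zp_apply, show (-1 + -n : ℤ) = -(n + 1 : ℕ) by omega]
      simpa [mul_smul] using h.refl _
    · rw [show (-(n + 1 : ℕ) : ℤ) = -1 + -n by omega, zpow_add]
      simp [mul_assoc]

lemma tw (γ : Γ) (n : ℕ) (k : ℤ) : ∃ u : Γ, ∀ x,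
    ((MulAction.toPerm γ * G ^ n) ^ k : Equiv.Perm Y) x = u • (G ^ (n * k)) x := by
  set G' := MulAction.toPerm γ * G ^ n
  have e0 : ∀ x, G' x = γ • (G ^ (n : ℤ)) x := fun x => by simp [G']
  induction k using Int.induction_on with
  | zero => exact ⟨1, by simp⟩
  | succ k ih =>
    obtain ⟨u, hu⟩ := ih
    exact ⟨γ * (Φ ^ (n : ℤ)) u, fun x => by
      rw [zpow_succ_apply, hu, e0, h.eqv, zp_apply, mul_smul, mul_add_one, add_comm]⟩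
  | pred k ih =>
    obtain ⟨u, hu⟩ := ih
    refine ⟨(Φ ^ (-n : ℤ)) (γ⁻¹ * u), fun x => G'.injective ?_⟩
    rw [← zpow_succ_apply, sub_add_cancel, hu, e0, h.eqv, zp_apply, ← MulAut.mul_apply,
      ← zpow_add, smul_smul]
    simp [mul_sub]

theorem pow' (γ : Γ) {n : ℕ} (hn : 0 < n) : ∃ Cl', Pre (MulAction.toPerm γ * G ^ n)
    (MulAut.conj γ * Φ ^ n) Cl' c K ∧ ∀ x y, Cl' x y → Cl x y := by
  have e1 := h.tw γ n
  set G' := MulAction.toPerm γ * G ^ n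
  have e0 : ∀ x, G' x = γ • (G ^ (n : ℤ)) x := fun x => by simp [G']
  set Cl' := fun x y => ∀ i : ℤ, 0 ≤ i → i < n → Cl ((G ^ i) x) ((G ^ i) y)
  have hn' : (0 : ℤ) < n := by omega
  have e2 : ∀ (k : ℤ) x y, Cl' ((G' ^ k) x) ((G' ^ k) y) ↔
      ∀ i : ℤ, n * k ≤ i → i < n * k + n → Cl ((G ^ i) x) ((G ^ i) y) := fun k x y => by
    obtain ⟨u, hu⟩ := e1 k
    simp only [Cl', hu, h.eqv, zp_apply]
    exact ⟨fun e i i1 i2 => by
      simpa using h.inv ((Φ ^ (i - n * k)) u)⁻¹ _ _ (e (i - n * k) (by omega) (by omega)),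
      fun e i i1 i2 => h.inv _ _ _ (e _ (by omega) (by omega))⟩
  have e3 : ∀ i : ℤ, n * (i / n) ≤ i ∧ i < n * (i / n) + n := fun i =>
    ⟨Int.mul_ediv_self_le hn'.ne', Int.lt_mul_ediv_self_add hn'⟩
  have f1 : ∀ k x y, Fw G' Cl' k x y ↔ Fw G Cl (n * k) x y := fun k x y => by
    simp only [Fw, e2]
    exact ⟨fun e i hi => e (i / n) (Int.le_ediv_of_mul_le hn' (by rwa [mul_comm])) i (e3 i).1
      (e3 i).2, fun e j hj i i1 _ => e i (by nlinarith)⟩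
  have f2 : ∀ k x y, Fw G'⁻¹ Cl' k x y ↔ Fw G⁻¹ Cl (n * k - n + 1) x y := fun k x y => by
    simp only [Fw_inv, e2]
    exact ⟨fun e i hi => e (i / n) (by nlinarith [e3 i]) i (e3 i).1 (e3 i).2,
      fun e j hj i _ i2 => e i (by nlinarith)⟩
  have c0 : (0 : ℤ) ≤ c := by omega
  refine ⟨Cl', ⟨fun _ _ _ _ => h.refl _, fun _ _ e i i1 i2 => h.symm _ _ (e i i1 i2),
    fun g x y e i i1 i2 => ?_, fun g a => ?_, fun k x y z => ?_, fun k x y z => ?_, fun i => ?_,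
    fun i a ha => ?_, fun S hS => ?_⟩, fun x y e => by simpa using e 0 le_rfl hn'⟩
  · rw [h.eqv, h.eqv]
    exact h.inv _ _ _ (e i i1 i2)
  · rw [e0, e0, h.eqv]
    simp [smul_smul]
  · simp only [f1]
    exact fun a b => (h.cs _ _ _ _ a b).mono (by nlinarith)
  · simp only [f2]
    exact fun a b => (h.cu _ _ _ _ a b).mono (by nlinarith)
  · obtain ⟨u, hu⟩ := e1 i
    refine ((h.fin (n * i)).image (· * u⁻¹)).subset fun β ⟨a, ha, b, hb, e⟩ =>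
      ⟨β * u, ⟨a, ha, b, hb, ?_⟩, by simp⟩
    simpa [hu, mul_smul] using e 0 le_rfl hn'
  · obtain ⟨u, hu⟩ := e1 i
    exact hu a ▸ (h.cov _ a ha).smul u
  · obtain ⟨T, hT⟩ := h.br S hS
    refine ⟨T + 1, fun a ha b hb σ hσ => (hT a ha b hb σ hσ).imp fun w hw =>
      ⟨hw.1, (f1 _ _ _).2 (hw.2.1.mono ?_), (f2 _ _ _).2 (hw.2.2.mono ?_)⟩⟩ <;>
    push_cast <;> nlinarith

theorem pow (γ : Γ) {n : ℕ} (hn : 0 < n) : ∃ Cl', Pre (MulAction.toPerm γ * G ^ n)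
    (MulAut.conj γ * Φ ^ n) Cl' c K := (h.pow' γ hn).imp fun _ e => e.1

end Pre

namespace Sys

variable (h : Sys G Φ Cl c K o)
include h

lemma mem : o ∈ K := by simpa using h.base 0

theorem rev : Sys G⁻¹ Φ⁻¹ Cl c K o := ⟨h.toPre.rev, fun k => by simpa using h.base (-k)⟩

theorem pow {n : ℕ} (hn : 0 < n) : ∃ Cl', Sys (G ^ n) (Φ ^ n) Cl' c K o := by
  obtain ⟨Cl', h'⟩ := h.toPre.pow 1 hn
  rw [map_one, one_mul, show MulAction.toPerm (1 : Γ) = (1 : Equiv.Perm Y) by ext; simp,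
    one_mul] at h'
  exact ⟨Cl', h', fun k => by simpa [zpow_mul] using h.base (n * k)⟩

theorem grow : ∃ κ, Grow Γ G Cl K o κ := by
  classical
  obtain ⟨B, b1, b2, b3⟩ := h.pos
  refine ⟨B.ncard, B.ncard ^ 2, fun n => ?_⟩
  obtain ⟨r1, r2⟩ := Rs.finite (Φ := Φ) b1 n
  refine ⟨(r1.image2 (fun r b => (Φ ^ (n : ℤ)) (b⁻¹ * r⁻¹)) b1).toFinset, ?_,
    fun g y y1 y2 y3 => ?_⟩
  · rw [← Set.ncard_eq_toFinset_card _ (r1.image2 _ b1)]
    refine (ncard_image2_le _ r1 b1).trans ((Nat.mul_le_mul_right _ r2).trans (le_of_eq ?_))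
    ring
  · obtain ⟨u, hu⟩ := h.sat y1 (-n)
    refine (Set.Finite.mem_toFinset _).2 ⟨_, b3 n y g u o h.mem y3 hu, u⁻¹,
      b2 _ (h.base (-n)) _ hu _ (h.inv _ _ _ (Fw_inv.1 y2 _ le_rfl)), ?_⟩
    simp

end Sys

end Pool.Agent.P.MP_5c499f_an
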