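import Pool.Agent.P.MP_5c499f_an.KBasic

/-! The branching lemma and the window principle. -/

set_option autoImplicit false

namespace Pool.Agent.P.MP_5c499f_an

variable {Y Γ : Type*} [Group Γ] [MulAction Γ Y] {G : Equiv.Perm Y} {Φ : MulAut Γ}
  {Cl : Y → Y → Prop} {c : ℕ} {K : Set Y} {o : Y}

theorem Sys.branch (h : Sys G Φ Cl c K o) {κ : ℕ} (hκ : Grow Γ G Cl K o κ) : Br Φ c κ := by
  classical
  obtain ⟨B, b1, -, b3⟩ := h.pos
  obtain ⟨C, hC⟩ := hκ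
  refine ⟨B, C, b1, fun S hS => ?_⟩
  obtain ⟨T, hT⟩ := h.rev.br S hS
  refine ⟨T, fun l nb J n A Tl hJ hn h1 hs hd => ?_⟩
  obtain ⟨F, F1, F2⟩ := hC (nb + T + c * l)
  have cl : ∀ j ≤ J, ∀ x y, Ch (Fw G Cl (-(c * l))) j x y → Cl y x := fun j hj x y e => by
    simpa using h.symm _ _ (h.chain (hj.trans hJ) e 0 (by omega))
  have key : ∀ d j : ℕ, j + d = J → ∀ (y : Y) (g : Γ), Sat Γ K y →
      Ch (Fw G⁻¹ Cl (nb + T)) j o y → Ch (Fw G Cl (-(c * l))) j (g • o) y →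
      ∃ Z : Finset Γ, ∏ i ∈ Finset.Ico j J, (A i).card ≤ Z.card ∧
        ∀ z ∈ Z, z ∈ F ∧ g⁻¹ * z ∈ Tl j := fun d => by
    induction d with
    | zero =>
      rintro j rfl y g y1 y2 y3
      refine ⟨{g}, by simp, fun z hz => ?_⟩
      rw [Finset.mem_singleton.1 hz, inv_mul_cancel]
      exact ⟨F2 g y y1 (by exact_mod_cast h.rev.chain hJ y2) (cl _ le_rfl _ _ y3), h1⟩
    | succ d ih =>
      intro j hj y g y1 y2 y3
      have hj' : j < J := by omega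
      obtain ⟨n1, n2, n3⟩ := hn j hj'
      obtain ⟨u, hu⟩ := h.sat y1 (-n j)
      have hr := b3 (n j) y g u o h.mem (cl _ hj'.le _ _ y3) hu
      set r := (Φ ^ (-n j : ℤ)) g⁻¹ * u with er
      have step : ∀ σ ∈ A j, ∃ Z : Finset Γ, ∏ i ∈ Finset.Ico (j + 1) J, (A i).card ≤ Z.card ∧
          ∀ z ∈ Z, z ∈ F ∧ ∃ t ∈ Tl (j + 1), g⁻¹ * z = (Φ ^ n j) (r * σ * r⁻¹) * t := by
        intro σ hσ
        obtain ⟨w, w1, w2, w3⟩ := hT _ hu _ hu σ (n3 σ hσ)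
        rw [inv_inv] at w3
        have e0 : (G ^ (n j : ℤ)) ((G ^ (-n j : ℤ)) y) = y := by rw [zp_apply]; simp
        obtain ⟨Z, z1, z2⟩ := ih (j + 1) (by omega) ((G ^ (n j : ℤ)) (u • w))
          ((Φ ^ (n j : ℤ)) (u * σ * u⁻¹) * g) (h.sat (w1.smul u) _) ⟨y, y2, by
            rw [← e0, Fw_shift']
            have := h.rev.fw_symm (h.rev.fw_smul w2 u)
            rw [smul_inv_smul] at this
            exact this.mono (by omega)⟩
          ⟨(Φ ^ (n j : ℤ)) (u * σ * u⁻¹) • y, by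
            rw [mul_smul]
            exact y3.map (f := (_ • ·)) fun _ _ e => h.fw_smul e _, by
            rw [← e0, ← h.eqv, Fw_shift, mul_smul, mul_smul]
            refine (h.fw_symm (h.fw_smul w3 u)).mono ?_
            have : ((T + c * l : ℕ) : ℤ) ≤ n j := by exact_mod_cast n1
            push_cast at this
            omega⟩
        refine ⟨Z, z1, fun z hz => ⟨(z2 z hz).1, _, (z2 z hz).2, ?_⟩⟩
        simp [er, mul_assoc]
      choose! Z z1 z2 using step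
      refine ⟨(A j).biUnion Z, ?_, fun z hz => ?_⟩
      · rw [Finset.prod_eq_prod_Ico_succ_bot hj', Finset.card_biUnion]
        · exact Finset.card_nsmul_le_sum _ _ _ z1
        · intro σ hσ σ' hσ' ne
          refine Finset.disjoint_left.2 fun z e e' => ne ?_
          obtain ⟨-, t, t1, t2⟩ := z2 σ hσ z e
          obtain ⟨-, t', t3, t4⟩ := z2 σ' hσ' z e'
          exact hd j hj' r hr σ hσ σ' hσ' t t1 t' t3 (t2.symm.trans t4)
      · obtain ⟨σ, hσ, e⟩ := Finset.mem_biUnion.1 hz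
        obtain ⟨f, t, t1, t2⟩ := z2 σ hσ z e
        exact ⟨f, t2 ▸ hs j hj' r hr σ hσ t t1⟩
  obtain ⟨Z, z1, z2⟩ := key J 0 (zero_add _) o 1 (.of_mem h.mem) rfl (one_smul _ _)
  rw [Finset.range_eq_Ico]
  exact z1.trans ((Finset.card_le_card fun z hz => (z2 z hz).1).trans F1)

theorem Sys.win (h : Sys G Φ Cl c K o) : Win Φ := by
  have eqv : ∀ (n : ℕ) (g : Γ) a, (G ^ n) (g • a) = (Φ ^ n) g • (G ^ n) a := fun n => by
    simpa using h.eqv n
  have sat : ∀ (n : ℕ) {y}, Sat Γ K y → Sat Γ K ((G ^ n) y) := fun n y e => by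
    simpa using h.sat e n
  refine ⟨_, fun n => {u | ∃ y ∈ K, u • (G ^ n) y ∈ K}, (h.fin 0).union (h.fin 0).inv,
    fun n => ⟨(h.fin n).subset fun u ⟨y, y1, y2⟩ => ⟨y, y1, _, y2, by simpa using h.refl _⟩,
      1, o, h.mem, by simpa using h.base n⟩, fun S hS => ?_⟩
  obtain ⟨T, hT⟩ := h.br S hS
  refine ⟨T, fun n hn u ⟨y, y1, y2⟩ v ⟨y', y3, y4⟩ γ hγ => ?_⟩
  obtain ⟨w, w0, w1, w2⟩ := hT _ y1 _ y4 γ hγ
  obtain ⟨e, he⟩ := (sat n w0).smul u
  obtain ⟨s, hs⟩ := (G ^ n).surjective ((γ * v)⁻¹ • w)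
  have s0 : s = (G ^ (-n : ℤ)) ((γ * v)⁻¹ • w) := by rw [← hs]; simp
  obtain ⟨e', he'⟩ := h.sat (w0.smul (γ * v)⁻¹) (-n)
  rw [← s0] at he'
  obtain ⟨d, hd⟩ := w0
  have b1 : Cl (u • (G ^ n) w) (u • (G ^ n) y) := h.inv _ _ _ (by simpa using w1 n (by omega))
  have b2 : Cl s y' := by
    have := Fw_inv.1 (h.rev.fw_smul w2 (γ * v)⁻¹) (-n) (by omega)
    rw [← s0, ← mul_smul γ, inv_smul_smul] at this
    simpa using this
  refine ⟨e, .inl ⟨_, he, _, y2, by simpa using b1⟩, e'⁻¹,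
    .inr ⟨_, he', _, y3, by simpa using b2⟩,
    e⁻¹ * u * (Φ ^ n) d, ⟨_, hd, by simpa [mul_smul, eqv] using he⟩,
    d⁻¹ * (γ * v) * (Φ ^ n) e', ⟨_, he', by simpa [mul_smul, eqv, hs] using hd⟩, ?_⟩
  simp [mul_assoc]

end Pool.Agent.P.MP_5c499f_an
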