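import Pool.Agent.P.MP_5c499f_an.KBasic

/-! Two consequences of the branching bound. TASK ANOS3-STRIP. -/

set_option autoImplicit false

namespace Pool.Agent.P.MP_5c499f_an

variable {Γ : Type*} [Group Γ] {Φ : MulAut Γ} {c κ : ℕ}

theorem Br.strip (h : Br Φ c κ) (N : Subgroup Γ) [N.Normal] (hN : ∀ g, Φ g ∈ N ↔ g ∈ N)
    (D : Γ → ℕ) (C₀ : ℕ) (d1 : ∀ a b, D (a * b) ≤ D a + D b) (d2 : ∀ a, D a⁻¹ ≤ 2 * D a)
    (d3 : ∀ a ∈ N, ∀ b ∈ N, D (a * b) ≤ max (D a) (D b)) (d4 : ∀ a ∈ N, D a⁻¹ = D a)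
    (d5 : ∀ a, 10 * D (Φ⁻¹ a) ≤ D a + C₀) (η r₁ : ℕ) :
    ∃ r, r₁ ≤ r ∧ ∀ a ∈ N, D a ≤ r + η → D a ≤ r := by
  classical
  obtain ⟨B, C, hB, h⟩ := h
  by_contra hn
  simp only [not_exists, not_and, not_forall, not_le] at hn
  choose! f f1 f2 f3 using hn
  obtain ⟨b, hb⟩ := (hB.image D).bddAbove
  have hR : ∀ n, ∀ r ∈ Rs Φ B n, D r ≤ C₀ + 2 * b := fun n => by
    induction n with
    | zero => exact fun r hr => (hb ⟨r, hr, rfl⟩).trans (by omega)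
    | succ n ih =>
      rintro _ ⟨r, hr, x, hx, rfl⟩
      have := ih r hr
      have := d1 (Φ⁻¹ r) x
      have := d5 r
      have : D x ≤ b := hb ⟨x, hx, rfl⟩
      omega
  have hP : ∀ n g, (Φ ^ n) g ∈ N ↔ g ∈ N := fun n => by
    induction n with
    | zero => simp
    | succ n ih => exact fun g => by rw [pow_succ, MulAut.mul_apply, ih, hN]
  have hP' : ∀ n g, g ∈ N → (Φ ^ n)⁻¹ g ∈ N := fun n g hg => (hP n _).1 (by simpa using hg)
  obtain ⟨R, hR1⟩ : ∃ R, R = (κ + 1) * η + r₁ + 10 * (C₀ + 2 * b) := ⟨_, rfl⟩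
  let a : ℕ → Γ := fun i => f (R + i * η)
  have a0 : ∀ i, r₁ ≤ R + i * η := fun i => by omega
  have a1 : ∀ i, a i ∈ N := fun i => f1 _ (a0 i)
  have a2 : ∀ i j, i < j → D (a i) < D (a j) := fun i j hij => by
    have := Nat.mul_le_mul_right η (Nat.succ_le_of_lt hij)
    rw [Nat.succ_mul] at this
    exact (f2 _ (a0 i)).trans_lt (lt_of_le_of_lt (by omega) (f3 _ (a0 j)))
  have a3 : ∀ i j, i < j → R < D ((a i)⁻¹ * a j) := fun i j hij => by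
    have e1 := d3 _ (a1 i) _ (N.mul_mem (N.inv_mem (a1 i)) (a1 j))
    rw [mul_inv_cancel_left] at e1
    have e2 := a2 i j hij
    have e3 : R + i * η < D (a i) := f3 _ (a0 i)
    omega
  let A := (Finset.range (κ + 1)).image a
  have hA : A.card = κ + 1 := by
    rw [Finset.card_image_of_injective _ (StrictMono.injective (f := fun i => D (a i)) a2).of_comp,
      Finset.card_range]
  have A1 : ∀ σ ∈ A, σ ∈ N ∧ D σ ≤ 2 * R := fun σ hσ => by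
    obtain ⟨i, hi, rfl⟩ := Finset.mem_image.1 hσ
    have := Nat.mul_le_mul_right η (Nat.succ_le_of_lt (Finset.mem_range.1 hi))
    rw [Nat.succ_mul] at this
    exact ⟨a1 i, (f2 _ (a0 i)).trans (by omega)⟩
  have A2 : ∀ σ ∈ A, ∀ σ' ∈ A, D (σ⁻¹ * σ') ≤ R → σ = σ' := fun σ hσ σ' hσ' e => by
    obtain ⟨i, -, rfl⟩ := Finset.mem_image.1 hσ
    obtain ⟨j, -, rfl⟩ := Finset.mem_image.1 hσ'
    rcases lt_trichotomy i j with h | rfl | h
    · exact absurd e (a3 i j h).not_ge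
    · rfl
    · rw [← d4 _ (N.mul_mem (N.inv_mem (a1 i)) (a1 j)), mul_inv_rev, inv_inv] at e
      exact absurd e (a3 j i h).not_ge
  obtain ⟨T, hT⟩ := h _ A.finite_toSet
  obtain ⟨l, hl⟩ := exp_beats κ.lt_succ_self (C * κ ^ (2 * T)) (κ ^ (2 * c))
  let n : ℕ → ℕ := fun j => T + c * l + 2 ^ l - j
  have hn : ∀ j < 2 ^ l, ∀ t, D ((Φ ^ n (j + 1))⁻¹ t) ≤ 2 * R + 3 * (C₀ + 2 * b) →
      10 * D ((Φ ^ n j)⁻¹ t) ≤ 2 * R + 4 * (C₀ + 2 * b) := fun j hj t ht => by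
    rw [show n j = n (j + 1) + 1 by simp only [n]; omega, pow_succ, mul_inv_rev, MulAut.mul_apply]
    exact (d5 _).trans (by omega)
  have := hT l (T + c * l + 2 ^ l) (2 ^ l) n (fun _ => A)
    (fun j => {x | x ∈ N ∧ D ((Φ ^ n j)⁻¹ x) ≤ 2 * R + 3 * (C₀ + 2 * b)}) le_rfl
    (fun j hj => ⟨by simp only [n]; omega, Nat.sub_le _ _, fun _ h => h⟩) ⟨N.one_mem, ?_⟩
    (fun j hj r hr σ hσ t ht => ?_) (fun j hj r hr σ hσ σ' hσ' t ht t' ht' e => ?_)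
  · rw [Finset.prod_const, Finset.card_range, hA] at this
    refine (this.trans_eq ?_).not_gt hl
    ring
  · have := d5 1
    rw [map_one] at this ⊢
    omega
  · have e1 : r * σ * r⁻¹ ∈ N := ‹N.Normal›.conj_mem _ (A1 σ hσ).1 r
    refine ⟨N.mul_mem ((hP _ _).2 e1) ht.1, ?_⟩
    rw [map_mul, MulAut.inv_apply_self]
    have := hn j hj t ht.2
    have := d1 (r * σ) r⁻¹
    have := d1 r σ
    have := d2 r
    have := hR _ r hr
    have := (A1 σ hσ).2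
    exact (d3 _ e1 _ (hP' _ _ ht.1)).trans (by omega)
  · have e1 := congrArg ((Φ ^ n j)⁻¹ : MulAut Γ) e
    rw [map_mul, map_mul (Φ ^ n j)⁻¹, MulAut.inv_apply_self, MulAut.inv_apply_self] at e1
    refine A2 σ hσ σ' hσ' ?_
    have e2 := hn j hj t ht.2
    have e3 := hn j hj t' ht'.2
    have e4 := hP' (n j) _ ht.1
    have e5 := hP' (n j) _ ht'.1
    generalize (Φ ^ n j)⁻¹ t = s at *
    generalize (Φ ^ n j)⁻¹ t' = s' at *
    have e6 : σ⁻¹ * σ' = r⁻¹ * (s * s'⁻¹) * r := by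
      rw [← inv_mul_eq_iff_eq_mul.2 e1.symm]
      group
    have := d3 _ e4 _ (N.inv_mem e5)
    have := d4 _ e5
    have := d1 (r⁻¹ * (s * s'⁻¹)) r
    have := d1 r⁻¹ (s * s'⁻¹)
    have := d2 r
    have := hR _ r hr
    rw [e6]
    omega

end Pool.Agent.P.MP_5c499f_an
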