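import Pool.Agent.P.MP_5c499f_an.KPath
import Pool.Agent.P.MP_5c499f_an.KStrip

/-! The kernel is connected inside a strip. -/

set_option autoImplicit false

namespace Pool.Agent.P.MP_5c499f_an

open scoped commutatorElement

variable {Γ : Type*} [Group Γ] {Φ : MulAut Γ} {c κ : ℕ}

theorem exists_normal_gens {S : Set Γ} (hS : S.Finite) (hg : Subgroup.closure S = ⊤)
    (N : Subgroup Γ) (hN : commutator Γ ≤ N) : ∃ F : Set Γ, F.Finite ∧ F ⊆ N ∧
      ∀ M : Subgroup Γ, M.Normal → F ⊆ M → N ≤ M := by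
  have : Group.FG Γ := Group.fg_iff.2 ⟨S, hg, hS⟩
  have : Group.FG (Abelianization Γ) := Group.fg_of_surjective (f := Abelianization.of)
    fun x => QuotientGroup.induction_on x fun a => ⟨a, rfl⟩
  have : Module.Finite ℤ (Additive (Abelianization Γ)) :=
    Module.Finite.iff_addGroup_fg.2 inferInstance
  obtain ⟨F, f1, f2⟩ := (Subgroup.fg_iff _).1 ((Subgroup.fg_iff_add_fg _).2
    ((Submodule.fg_iff_addSubgroup_fg _).1 (IsNoetherian.noetherian
      (N.map Abelianization.of).toAddSubgroup.toIntSubmodule)))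
  choose! t t1 t2 using fun x (hx : x ∈ F) =>
    (f1 ▸ Subgroup.subset_closure hx : x ∈ N.map Abelianization.of)
  refine ⟨t '' F ∪ Set.image2 (⁅·, ·⁆) S S, (f2.image _).union (hS.image2 _ hS), ?_,
    fun M _ hM n hn => ?_⟩
  · rintro _ (⟨x, hx, rfl⟩ | ⟨a, -, b, -, rfl⟩)
    exacts [t1 x hx, hN (Subgroup.commutator_mem_commutator trivial trivial)]
  have c1 : commutator Γ ≤ M := Subgroup.commutator_le.2 fun a _ b _ => by
    rw [← QuotientGroup.ker_mk' M, MonoidHom.mem_ker, map_commutatorElement,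
      commutatorElement_eq_one_iff_commute]
    induction (hg ▸ Subgroup.mem_top a : a ∈ Subgroup.closure S), (hg ▸ Subgroup.mem_top b :
      b ∈ Subgroup.closure S) using Subgroup.closure_induction₂ with
    | mem x y hx hy =>
      rw [← commutatorElement_eq_one_iff_commute, ← map_commutatorElement, ← MonoidHom.mem_ker,
        QuotientGroup.ker_mk']
      exact hM (.inr ⟨x, hx, y, hy, rfl⟩)
    | one_left => simp
    | one_right => simp
    | mul_left x y z _ _ _ h1 h2 =>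
      rw [map_mul]
      exact (h1 trivial trivial).mul_left (h2 trivial trivial)
    | mul_right x y z _ _ _ h1 h2 =>
      rw [map_mul]
      exact (h1 trivial trivial).mul_right (h2 trivial trivial)
    | inv_left x y _ _ h => exact map_inv (QuotientGroup.mk' M) x ▸ (h trivial trivial).inv_left
    | inv_right x y _ _ h => exact map_inv (QuotientGroup.mk' M) y ▸ (h trivial trivial).inv_right
  obtain ⟨m, m1, m2⟩ := (Subgroup.closure_le (K := M.map Abelianization.of)).2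
    (fun x hx => ⟨t x, hM (.inl ⟨x, hx, rfl⟩), t2 x hx⟩) (f1 ▸ Subgroup.mem_map_of_mem _ hn)
  have : m⁻¹ * n ∈ commutator Γ := by
    rw [← Abelianization.ker_of, MonoidHom.mem_ker, map_mul, map_inv, m2, inv_mul_cancel]
  simpa using mul_mem m1 (c1 this)

theorem Br.conn (h : Br Φ c κ) {S : Set Γ} (hS : S.Finite) (hi : ∀ s ∈ S, s⁻¹ ∈ S)
    (hg : Subgroup.closure S = ⊤) (N : Subgroup Γ) (hN : commutator Γ ≤ N)
    (hΦ : ∀ g, Φ g ∈ N ↔ g ∈ N) (u : Γ → ℝ) (u1 : ∀ a b, u (a * b) ≤ u a + u b)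
    (u2 : ∀ a, u a⁻¹ = u a) (u3 : ∀ a ∈ N, u a = 0) (u4 : ∀ a, 10 * u (Φ⁻¹ a) ≤ u a) :
    ∃ r : ℕ, ∀ a ∈ N, Conn S (fun x => u x ≤ r) 1 a := by
  classical
  have ex : ∀ g, ∃ n : ℕ, Conn S (fun x => u x ≤ n) 1 g := fun g =>
    ((Conn.of_gen hi hg g).bound u).imp fun _ e => e.mono fun _ e => e.2
  set D := fun g => Nat.find (ex g)
  have D1 : ∀ g, Conn S (fun x => u x ≤ D g) 1 g := fun g => Nat.find_spec (ex g)
  have D2 : ∀ g (n : ℕ), Conn S (fun x => u x ≤ n) 1 g → D g ≤ n := fun g n =>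
    Nat.find_min' (ex g)
  have D3 : ∀ g, u g ≤ D g := fun g => by
    rcases (D1 g).cases_tail with e | ⟨_, -, e⟩
    · rw [e, u3 1 (one_mem _)]
      positivity
    · exact e.2.1
  have D4 : ∀ a b (n : ℕ), D a ≤ n → u a + D b ≤ n → D (a * b) ≤ n := fun a b n e e' =>
    D2 _ _ (((D1 a).mono fun x hx => hx.trans (by exact_mod_cast e)).trans
      (by simpa using (D1 b).mul a fun x hx => by linarith [u1 a x]))
  have D5 : ∀ a (n : ℕ), u a + D a ≤ n → D a⁻¹ ≤ n := fun a n e => D2 _ _ (Conn.symm hi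
    (by simpa using (D1 a).mul a⁻¹ fun x hx => by linarith [u1 a⁻¹ x, u2 a]))
  have d1 : ∀ a b, D (a * b) ≤ D a + D b := fun a b =>
    D4 _ _ _ (by omega) (by push_cast; linarith [D3 a])
  have d4 : ∀ a ∈ N, D a⁻¹ ≤ D a := fun a ha => D5 _ _ (by simp [u3 a ha])
  have d3 : ∀ a ∈ N, ∀ b ∈ N, D (a * b) ≤ max (D a) (D b) := fun a ha b _ =>
    D4 _ _ _ (le_max_left _ _) (by simp [u3 a ha])
  have := Subgroup.Normal.of_commutator_le _ hN
  obtain ⟨C, hC⟩ := (hS.image fun s => D (Φ⁻¹ s)).bddAbove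
  obtain ⟨C', hC'⟩ := (hS.image D).bddAbove
  obtain ⟨F, f1, f2, f3⟩ := exists_normal_gens hS hg N hN
  obtain ⟨r₁, h1⟩ := (f1.image D).bddAbove
  obtain ⟨r, r1, r2⟩ := h.strip N hΦ D (10 + 10 * C) d1
    (fun a => D5 _ _ (by push_cast; linarith [D3 a])) d3
    (fun a ha => (d4 a ha).antisymm (by simpa using d4 _ (inv_mem ha))) (fun a => by
      have : ∀ b, Conn S (fun x => u x ≤ D a) 1 b → D (Φ⁻¹ b) ≤ D a / 10 + 1 + C := fun b e => by
        induction e with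
        | refl => exact (D2 _ 0 (by rw [map_one]; exact .refl)).trans (Nat.zero_le _)
        | @tail x y _ e ih =>
          have b1 : (D (Φ⁻¹ (x⁻¹ * y)) : ℝ) ≤ C := by exact_mod_cast hC ⟨_, e.2.2, rfl⟩
          have b2 : (D a : ℝ) ≤ 10 * (D a / 10 : ℕ) + 10 := by exact_mod_cast (by omega)
          rw [← mul_inv_cancel_left x y, map_mul]
          exact D4 _ _ _ ih (by push_cast; linarith [u4 x, e.1])
      have := this a (D1 a)
      omega) (2 * C') r₁
  set M : Subgroup Γ := ⟨⟨⟨{a | a ∈ N ∧ D a ≤ r}, fun a b => ⟨mul_mem a.1 b.1,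
    (d3 _ a.1 _ b.1).trans (max_le a.2 b.2)⟩⟩, one_mem _,
    (D2 _ 0 .refl).trans (Nat.zero_le _)⟩, fun a => ⟨inv_mem a.1, (d4 _ a.1).trans a.2⟩⟩
  have m1 : ∀ s ∈ S, ∀ a ∈ M, s * a * s⁻¹ ∈ M := fun s hs a ha =>
    ⟨this.conj_mem a ha.1 s, r2 _ (this.conj_mem a ha.1 s) (by
      linarith [d1 (s * a) s⁻¹, d1 s a, hC' ⟨s, hs, rfl⟩, hC' ⟨_, hi s hs, rfl⟩, ha.2])⟩
  have m2 : M.Normal := Subgroup.normalizer_eq_top_iff.1 (eq_top_iff.2 (hg ▸
    (Subgroup.closure_le _).2 fun s hs => Subgroup.mem_normalizer_iff.2 fun a =>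
      ⟨m1 s hs a, fun e => by simpa [mul_assoc] using m1 _ (hi s hs) _ e⟩))
  exact ⟨r, fun a ha => (D1 a).mono fun x hx => hx.trans (by
    exact_mod_cast (f3 M m2 (fun x hx => ⟨f2 hx, (h1 ⟨x, hx, rfl⟩).trans r1⟩) ha).2)⟩

end Pool.Agent.P.MP_5c499f_an
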