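import Pool.Agent.P.MP_5c499f_an.HSub

/-! Definitions for the layer machine. -/

set_option autoImplicit false

namespace Pool.Agent.P.MP_5c499f_an

variable {Y Γ : Type*}

/-- The orbits of `x` and `y` are close from time `k` on. -/
def Fw (G : Equiv.Perm Y) (Cl : Y → Y → Prop) (k : ℤ) (x y : Y) : Prop :=
  ∀ j : ℤ, k ≤ j → Cl ((G ^ j) x) ((G ^ j) y)

/-- Chains of `n` steps. -/
def Ch (r : Y → Y → Prop) : ℕ → Y → Y → Prop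
  | 0, x, y => x = y
  | n + 1, x, z => ∃ y, Ch r n x y ∧ r y z

variable [Group Γ]

/-- `y` lies in the saturation of `K`. -/
def Sat (Γ : Type*) [Group Γ] [MulAction Γ Y] (K : Set Y) (y : Y) : Prop := ∃ g : Γ, g⁻¹ • y ∈ K

/-- Combinatorial global product structure. -/
structure Pre [MulAction Γ Y] (G : Equiv.Perm Y) (Φ : MulAut Γ) (Cl : Y → Y → Prop) (c : ℕ)
    (K : Set Y) : Prop where
  refl : ∀ x, Cl x x
  symm : ∀ x y, Cl x y → Cl y x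
  inv : ∀ (g : Γ) x y, Cl x y → Cl (g • x) (g • y)
  equiv : ∀ (g : Γ) a, G (g • a) = Φ g • G a
  cs : ∀ k x y z, Fw G Cl k x y → Fw G Cl k y z → Fw G Cl (k + c) x z
  cu : ∀ k x y z, Fw G⁻¹ Cl k x y → Fw G⁻¹ Cl k y z → Fw G⁻¹ Cl (k + c) x z
  fin : ∀ i : ℤ, {β : Γ | ∃ a ∈ K, ∃ b ∈ K, Cl (β • (G ^ i) a) b}.Finite
  cov : ∀ i : ℤ, ∀ a ∈ K, Sat Γ K ((G ^ i) a)
  br : ∀ S : Set Γ, S.Finite → ∃ T : ℕ, ∀ a ∈ K, ∀ b ∈ K, ∀ σ ∈ S,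
    ∃ w, Sat Γ K w ∧ Fw G Cl T w a ∧ Fw G⁻¹ Cl T w (σ • b)

/-- The same with an orbit that stays in `K`. -/
structure Sys [MulAction Γ Y] (G : Equiv.Perm Y) (Φ : MulAut Γ) (Cl : Y → Y → Prop) (c : ℕ)
    (K : Set Y) (o : Y) : Prop extends Pre G Φ Cl c K where
  base : ∀ k : ℤ, (G ^ k) o ∈ K

/-- Twisted products of `n + 1` elements of `B`. -/
def Rs (Φ : MulAut Γ) (B : Set Γ) : ℕ → Set Γ
  | 0 => B
  | n + 1 => {g | ∃ r ∈ Rs Φ B n, ∃ b ∈ B, g = Φ⁻¹ r * b}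

/-- Growth rate at most `κ` along the unstable set of `o`. -/
def Grow (Γ : Type*) [Group Γ] [MulAction Γ Y] (G : Equiv.Perm Y) (Cl : Y → Y → Prop) (K : Set Y)
    (o : Y) (κ : ℕ) : Prop :=
  ∃ C : ℕ, ∀ n : ℕ, ∃ F : Finset Γ, F.card ≤ C * κ ^ n ∧
    ∀ (g : Γ) y, Sat Γ K y → Fw G⁻¹ Cl n o y → Cl y (g • o) → g ∈ F

/-- The branching bound. -/
def Br (Φ : MulAut Γ) (c κ : ℕ) : Prop :=
  ∃ (B : Set Γ) (C : ℕ), B.Finite ∧ ∀ S : Set Γ, S.Finite → ∃ T : ℕ,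
    ∀ (l nb J : ℕ) (n : ℕ → ℕ) (A : ℕ → Finset Γ) (Tl : ℕ → Set Γ), J ≤ 2 ^ l →
      (∀ j < J, T + c * l ≤ n j ∧ n j ≤ nb ∧ ∀ σ ∈ A j, σ ∈ S) → 1 ∈ Tl J →
      (∀ j < J, ∀ r ∈ Rs Φ B (n j), ∀ σ ∈ A j, ∀ t ∈ Tl (j + 1),
        (Φ ^ n j) (r * σ * r⁻¹) * t ∈ Tl j) →
      (∀ j < J, ∀ r ∈ Rs Φ B (n j), ∀ σ ∈ A j, ∀ σ' ∈ A j, ∀ t ∈ Tl (j + 1), ∀ t' ∈ Tl (j + 1),
        (Φ ^ n j) (r * σ * r⁻¹) * t = (Φ ^ n j) (r * σ' * r⁻¹) * t' → σ = σ') →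
      ∏ j ∈ Finset.range J, (A j).card ≤ C * κ ^ (nb + T + c * l)

/-- Paths with edges in `S` inside `Ω`. -/
def Conn (S : Set Γ) (Ω : Γ → Prop) : Γ → Γ → Prop :=
  Relation.ReflTransGen fun a b => Ω a ∧ Ω b ∧ a⁻¹ * b ∈ S

/-- `N` contains a term of the lower central series of a subgroup of finite index. -/
def Conil (N : Subgroup Γ) : Prop :=
  ∃ Λ : Subgroup Γ, Λ.FiniteIndex ∧ ∃ k, Λ.lowerCentralSeries k ≤ N

/-- All complex matrix representations have finite image, and all quasimorphisms of subgroups of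
finite index are bounded. -/
def Rigid (N : Type*) [Group N] : Prop :=
  (∀ (d : ℕ) (ρ : N →* GL (Fin d) ℂ), (Set.range ρ).Finite) ∧
    ∀ H : Subgroup N, H.FiniteIndex → ∀ (q : H → ℝ) (D : ℝ),
      (∀ a b, |q (a * b) - q a - q b| ≤ D) → ∃ C, ∀ a, |q a| ≤ C

theorem exp_beats {a b : ℕ} (h : a < b) (C E : ℕ) :
    ∃ l : ℕ, C * E ^ l * a ^ 2 ^ l < b ^ 2 ^ l := by
  rcases a.eq_zero_or_pos with rfl | h0
  · exact ⟨0, by simpa⟩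
  have h1 : (0 : ℝ) < a := by exact_mod_cast h0
  have h4 : (0 : ℝ) < b := by exact_mod_cast h0.trans h
  have h2 : (1 : ℝ) < b / a := (one_lt_div h1).2 (by exact_mod_cast h)
  obtain ⟨l, hl⟩ := ((((tendsto_pow_const_div_const_pow_of_one_lt E h2).const_mul (C : ℝ)).comp
    (tendsto_pow_atTop_atTop_of_one_lt (r := 2) (by norm_num))).eventually
    (gt_mem_nhds (show (C : ℝ) * 0 < 1 by simp))).exists
  refine ⟨l, ?_⟩
  have h3 : E ^ l ≤ (2 ^ l) ^ E := by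
    rw [← pow_mul, mul_comm, pow_mul]
    exact Nat.pow_le_pow_left Nat.lt_two_pow_self.le l
  refine (Nat.mul_le_mul_right _ (Nat.mul_le_mul_left C h3)).trans_lt ?_
  simp only [Function.comp_apply, div_pow] at hl
  rw [← mul_div_assoc, div_lt_one (by positivity), lt_div_iff₀ (by positivity)] at hl
  exact_mod_cast hl

end Pool.Agent.P.MP_5c499f_an
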