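import Pool.Agent.P.MP_5c499f_an.KPath

/-! Pushing paths towards a subspace. TASK ANOS3-PUSH. -/

set_option autoImplicit false

namespace Pool.Agent.P.MP_5c499f_an

variable {Γ : Type*} [Group Γ] {S : Set Γ} {b : ℕ}

namespace KPushX

lemma box_finite (R : ℝ) : {v : Fin b → ℤ | ‖fun i => (v i : ℝ)‖ ≤ R}.Finite := by
  refine (Set.finite_Icc (fun _ : Fin b => -⌈R⌉) (fun _ => ⌈R⌉)).subset fun v hv => ?_
  have h : ∀ i, |v i| ≤ ⌈R⌉ := fun i => by
    have h5 : |(v i : ℝ)| ≤ (⌈R⌉ : ℝ) :=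
      ((norm_le_pi_norm (fun i => (v i : ℝ)) i).trans hv).trans (Int.le_ceil R)
    exact_mod_cast h5
  exact ⟨fun i => (abs_le.1 (h i)).1, fun i => (abs_le.1 (h i)).2⟩

lemma fin_bound {Ω : Γ → Prop} {E : Set Γ} (hE : E.Finite) (h : ∀ e ∈ E, Conn S Ω 1 e)
    (w : Γ → ℝ) : ∃ n : ℝ, 0 ≤ n ∧ ∀ e ∈ E, Conn S (fun x => Ω x ∧ w x ≤ n) 1 e := by
  choose f hf using fun e : E => (h e e.2).bound w
  have := hE.to_subtype
  obtain ⟨M, hM⟩ := (Set.finite_range f).bddAbove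
  refine ⟨M, Nat.cast_nonneg _, fun e he => (hf ⟨e, he⟩).mono fun x hx => ⟨hx.1, hx.2.trans ?_⟩⟩
  exact_mod_cast hM ⟨⟨e, he⟩, rfl⟩

lemma exists_sec (q : Γ → Fin b → ℤ) (hq : ∀ g g', q (g * g') = q g + q g') :
    ∃ t : (Fin b → ℤ) → Γ, t 0 = 1 ∧ ∀ g, q (t (q g)) = q g := by
  classical
  refine ⟨fun v => if v = 0 then 1 else if h : ∃ g, q g = v then h.choose else 1, by simp,
    fun g => ?_⟩
  by_cases h0 : q g = 0
  · simp only [h0, if_true]
    exact HAbX.add_one q hq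
  · have h : ∃ g', q g' = q g := ⟨g, rfl⟩
    simp only [h0, if_false, dif_pos h]
    exact h.choose_spec

lemma norm_sub_floor (x : Fin b → ℝ) : ‖x - fun i => ((⌊x i⌋ : ℤ) : ℝ)‖ ≤ 1 := by
  refine (pi_norm_le_iff_of_nonneg zero_le_one).2 fun i => ?_
  have h1 := Int.floor_le (x i)
  have h2 := Int.lt_floor_add_one (x i)
  rw [Pi.sub_apply, Real.norm_eq_abs, abs_le]
  constructor <;> linarith

/-- Elements with small `u` are joined to the identity inside a fixed strip. -/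
lemma seg (hg : Subgroup.closure S = ⊤) (hi : ∀ s ∈ S, s⁻¹ ∈ S)
    (q : Γ → Fin b → ℤ) (hq : ∀ g g', q (g * g') = q g + q g') (hs : Function.Surjective q)
    (P : (Fin b → ℝ) →L[ℝ] (Fin b → ℝ)) (u : Γ → ℝ) (hu : ∀ g, u g = ‖P fun i => q g i‖)
    {r : ℝ} (hr : ∀ g, q g = 0 → Conn S (fun x => u x ≤ r) 1 g) (η : ℝ) :
    ∃ a, r ≤ a ∧ ∀ h, u h ≤ η → Conn S (fun x => u x ≤ a) 1 h := by
  obtain ⟨t, -, ht'⟩ := exists_sec q hq
  have ht : ∀ v, q (t v) = v := fun v => by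
    obtain ⟨g, rfl⟩ := hs v
    exact ht' g
  have hadd : ∀ x y, u (x * y) ≤ u x + u y := fun x y => by
    have e : (fun i => (q (x * y) i : ℝ)) = (fun i => (q x i : ℝ)) + fun i => (q y i : ℝ) := by
      funext i; simp [hq]
    rw [hu, hu, hu, e, map_add]
    exact norm_add_le _ _
  obtain ⟨n, -, hn⟩ := fin_bound (S := S) (Ω := fun _ => True) ((box_finite (b := b) 2).image t)
    (fun e _ => Conn.of_gen hi hg e) u
  have hA : ∀ h, ‖fun i => (q h i : ℝ)‖ ≤ 2 → Conn S (fun x => u x ≤ max r n) 1 h := by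
    intro h hh
    have hk : q (h * (t (q h))⁻¹) = 0 := by
      rw [hq, HAbX.add_inv q hq, ht, add_neg_cancel]
    have h1 := (hr _ hk).mono (Ω' := fun x => u x ≤ max r n) fun x hx => hx.trans (le_max_left _ _)
    have h2 := (hn (t (q h)) ⟨q h, hh, rfl⟩).mul (Ω' := fun x => u x ≤ max r n)
      (h * (t (q h))⁻¹) fun x hx => by
        have e : u (h * (t (q h))⁻¹ * x) = u x := by
          rw [hu, hu, hq, hk, zero_add]
        rw [e]
        exact hx.2.trans (le_max_right _ _)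
    rw [mul_one, inv_mul_cancel_right] at h2
    exact h1.trans h2
  have hP0 := norm_nonneg P
  refine ⟨|η| + ‖P‖ + max r n, by linarith [abs_nonneg η, le_max_left r n], fun h hh => ?_⟩
  have key : ∀ (m : ℕ) (x : Fin b → ℝ), ‖x‖ ≤ m → ‖P x‖ ≤ |η| → ∀ h, (q h = fun i => ⌊x i⌋) →
      Conn S (fun x => u x ≤ |η| + ‖P‖ + max r n) 1 h := by
    intro m
    induction m with
    | zero =>
      intro x hx _ h hh
      have h0 : x = 0 := norm_le_zero_iff.1 (by simpa using hx)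
      refine (hr h ?_).mono fun y hy => by linarith [abs_nonneg η, le_max_left r n]
      rw [hh, h0]
      funext i
      simp
    | succ m ih =>
      intro x hx hPx h hh
      have hm : (0 : ℝ) < m + 1 := by positivity
      have hc0 : (0 : ℝ) ≤ m / (m + 1) := by positivity
      have hc1 : (m : ℝ) / (m + 1) ≤ 1 := by rw [div_le_one hm]; linarith
      push_cast at hx
      obtain ⟨x', hx'⟩ : ∃ x' : Fin b → ℝ, x' = ((m : ℝ) / (m + 1)) • x := ⟨_, rfl⟩
      have a1 : ‖x'‖ ≤ m := by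
        rw [hx', norm_smul, Real.norm_of_nonneg hc0, div_mul_eq_mul_div, div_le_iff₀ hm]
        exact mul_le_mul_of_nonneg_left hx (Nat.cast_nonneg _)
      have a2 : ‖P x'‖ ≤ |η| := by
        rw [hx', map_smul, norm_smul, Real.norm_of_nonneg hc0]
        exact (mul_le_of_le_one_left (norm_nonneg _) hc1).trans hPx
      have a3 : ‖x - x'‖ ≤ 1 := by
        have e : x - x' = (1 / ((m : ℝ) + 1)) • x := by
          have e1 : 1 / ((m : ℝ) + 1) = 1 - m / (m + 1) := by field_simp; ring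
          rw [hx', e1, sub_smul, one_smul]
        rw [e, norm_smul, Real.norm_of_nonneg (by positivity), div_mul_eq_mul_div, one_mul,
          div_le_one hm]
        exact hx
      obtain ⟨h', hh'⟩ : ∃ h', q h' = fun i => ⌊x' i⌋ := hs _
      have b1 := ih x' a1 a2 h' hh'
      have b2 : ‖fun i => (q (h'⁻¹ * h) i : ℝ)‖ ≤ 2 := by
        refine (pi_norm_le_iff_of_nonneg zero_le_two).2 fun i => ?_
        have c1 := (norm_le_pi_norm (x - x') i).trans a3
        rw [Pi.sub_apply, Real.norm_eq_abs, abs_le] at c1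
        have h1 := Int.floor_le (x i)
        have h2 := Int.lt_floor_add_one (x i)
        have h3 := Int.floor_le (x' i)
        have h4 := Int.lt_floor_add_one (x' i)
        rw [hq, HAbX.add_inv q hq, hh, hh', Real.norm_eq_abs, abs_le]
        simp only [Pi.add_apply, Pi.neg_apply, Int.cast_add, Int.cast_neg]
        constructor <;> linarith
      have b3 : u h' ≤ |η| + ‖P‖ := by
        have e : (fun i => (q h' i : ℝ)) = x' - (x' - fun i => ((⌊x' i⌋ : ℤ) : ℝ)) := by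
          rw [hh']; funext i; simp
        rw [hu, e, map_sub]
        refine (norm_sub_le _ _).trans (add_le_add a2 ?_)
        exact (P.le_opNorm _).trans (mul_le_of_le_one_right hP0 (norm_sub_floor x'))
      have b4 := (hA _ b2).mul (Ω' := fun x => u x ≤ |η| + ‖P‖ + max r n) h' fun y hy =>
        (hadd h' y).trans (add_le_add b3 hy)
      rw [mul_one, mul_inv_cancel_left] at b4
      exact b1.trans b4
  obtain ⟨m, hm⟩ := exists_nat_ge ‖fun i => (q h i : ℝ)‖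
  refine key m _ hm ((hu h ▸ hh).trans (le_abs_self η)) h ?_
  funext i
  simp

end KPushX

open KPushX in
theorem push (hS : S.Finite) (hg : Subgroup.closure S = ⊤) (hi : ∀ s ∈ S, s⁻¹ ∈ S)
    (q : Γ → Fin b → ℤ) (hq : ∀ g g', q (g * g') = q g + q g') (hs : Function.Surjective q)
    (P : (Fin b → ℝ) →L[ℝ] (Fin b → ℝ)) (hP : ∀ v, P (P v) = P v) (u s : Γ → ℝ)
    (hu : ∀ g, u g = ‖P fun i => q g i‖)
    (hs' : ∀ g, s g = ‖(fun i => (q g i : ℝ)) - P fun i => q g i‖)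
    {r : ℝ} (hr : ∀ g, q g = 0 → Conn S (fun x => u x ≤ r) 1 g) :
    ∃ a, r ≤ a ∧ ∀ a' : ℝ, ∃ C : ℝ, ∀ (t : ℝ) g, q g = 0 →
      Conn S (fun x => u x ≤ a' ∧ s x ≤ t) 1 g → Conn S (fun x => u x ≤ a ∧ s x ≤ t + C) 1 g := by
  obtain ⟨a0, ha0, hseg⟩ := seg hg hi q hq hs P u hu hr (2 * ‖P‖)
  obtain ⟨T, T0, hT'⟩ := exists_sec q hq
  have hT : ∀ v, q (T v) = v := fun v => by
    obtain ⟨g, rfl⟩ := hs v
    exact hT' g
  have hP0 := norm_nonneg P
  obtain ⟨Q, hQ⟩ : ∃ Q : Γ → Fin b → ℝ, ∀ g, Q g = fun i => (q g i : ℝ) := ⟨_, fun _ => rfl⟩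
  have Qmul : ∀ x y, Q (x * y) = Q x + Q y := fun x y => by
    rw [hQ, hQ, hQ]; funext i; simp [hq]
  have hu' : ∀ g, u g = ‖P (Q g)‖ := fun g => by rw [hu, hQ]
  have hs2 : ∀ g, s g = ‖Q g - P (Q g)‖ := fun g => by rw [hs', hQ]
  have uadd : ∀ x y, u (x * y) ≤ u x + u y := fun x y => by
    rw [hu', hu', hu', Qmul, map_add]
    exact norm_add_le _ _
  have uinv : ∀ x, u x⁻¹ = u x := fun x => by
    rw [hu', hu', HAbX.add_inv Q Qmul, map_neg, norm_neg]
  have sadd : ∀ x y, s (x * y) ≤ s x + s y := fun x y => by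
    rw [hs2, hs2, hs2, Qmul, map_add, add_sub_add_comm]
    exact norm_add_le _ _
  obtain ⟨fl, hfl⟩ : ∃ fl : Γ → Fin b → ℤ, ∀ g, fl g = fun i => ⌊P (Q g) i⌋ := ⟨_, fun _ => rfl⟩
  have hfl1 : ∀ g, ‖P (Q g) - fun i => (fl g i : ℝ)‖ ≤ 1 := fun g => by
    rw [hfl]; exact norm_sub_floor _
  have hc : ∀ x, Q (x * T (-fl x)) =
      (Q x - P (Q x)) + (P (Q x) - fun i => (fl x i : ℝ)) := fun x => by
    rw [Qmul, hQ (T _), hT]
    funext i
    simp only [Pi.add_apply, Pi.sub_apply, Pi.neg_apply, Int.cast_neg]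
    ring
  have hcu : ∀ x, u (x * T (-fl x)) ≤ ‖P‖ := fun x => by
    rw [hu', hc, map_add, map_sub P (Q x), hP, sub_self, zero_add]
    exact (P.le_opNorm _).trans (mul_le_of_le_one_right hP0 (hfl1 x))
  have hcs : ∀ x, s (x * T (-fl x)) ≤ s x + (1 + ‖P‖) := fun x => by
    rw [hs2, hs2, hc, map_add, map_sub P (Q x), hP, sub_self, zero_add, add_sub_assoc]
    refine (norm_add_le _ _).trans (add_le_add le_rfl ((norm_sub_le _ _).trans ?_))
    exact add_le_add (hfl1 x) ((P.le_opNorm _).trans (mul_le_of_le_one_right hP0 (hfl1 x)))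
  refine ⟨‖P‖ + a0, by linarith, fun a' => ?_⟩
  have hbox : ∀ x, u x ≤ a' → ‖fun i => (fl x i : ℝ)‖ ≤ a' + 1 := fun x hx => by
    have e : (fun i => (fl x i : ℝ)) = P (Q x) - (P (Q x) - fun i => (fl x i : ℝ)) := by
      rw [sub_sub_cancel]
    rw [e]
    exact (norm_sub_le _ _).trans (add_le_add (hu' x ▸ hx) (hfl1 x))
  have hE : ({e | u e ≤ 2 * ‖P‖} ∩ (fun p : (Fin b → ℤ) × Γ × (Fin b → ℤ) =>
      (T (-p.1))⁻¹ * p.2.1 * T (-p.2.2)) '' ({v : Fin b → ℤ | ‖fun i => (v i : ℝ)‖ ≤ a' + 1} ×ˢ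
        S ×ˢ {v : Fin b → ℤ | ‖fun i => (v i : ℝ)‖ ≤ a' + 1})).Finite :=
    (((box_finite _).prod (hS.prod (box_finite _))).image _).inter_of_right _
  obtain ⟨n, -, hn⟩ := fin_bound hE (fun e he => hseg e he.1) s
  refine ⟨1 + ‖P‖ + n, fun t g hg0 h => ?_⟩
  have fl0 : ∀ x, q x = 0 → T (-fl x) = 1 := fun x hx => by
    have e : Q x = 0 := by rw [hQ, hx]; funext i; simp
    have e2 : fl x = 0 := by rw [hfl, e, map_zero]; funext i; simp
    rw [e2, neg_zero, T0]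
  have key : ∀ x, Conn S (fun x => u x ≤ a' ∧ s x ≤ t) 1 x →
      Conn S (fun x => u x ≤ ‖P‖ + a0 ∧ s x ≤ t + (1 + ‖P‖ + n)) 1 (x * T (-fl x)) := by
    intro x hx
    induction hx with
    | refl =>
      rw [fl0 1 (HAbX.add_one q hq), mul_one]
      exact .refl
    | @tail x y _ e ih =>
      have e1 : (T (-fl x))⁻¹ * (x⁻¹ * y) * T (-fl y) = (x * T (-fl x))⁻¹ * (y * T (-fl y)) := by
        group
      have h1 := hn ((T (-fl x))⁻¹ * (x⁻¹ * y) * T (-fl y)) ⟨by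
        show u _ ≤ _
        rw [e1]
        refine (uadd _ _).trans ?_
        rw [uinv]
        linarith [hcu x, hcu y],
        ⟨(fl x, x⁻¹ * y, fl y), ⟨hbox x e.1.1, e.2.2, hbox y e.2.1.1⟩, rfl⟩⟩
      have h2 := h1.mul (Ω' := fun x => u x ≤ ‖P‖ + a0 ∧ s x ≤ t + (1 + ‖P‖ + n))
        (x * T (-fl x)) fun z hz =>
          ⟨(uadd _ _).trans (add_le_add (hcu x) hz.1), by
            linarith [sadd (x * T (-fl x)) z, hcs x, e.1.2, hz.2]⟩
      rw [mul_one, e1, mul_inv_cancel_left] at h2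
      exact Conn.trans ih h2
  have := key g h
  rwa [fl0 g hg0, mul_one] at this

open KPushX in
theorem schreier (hS : S.Finite) (q : Γ → Fin b → ℤ) (hq : ∀ g g', q (g * g') = q g + q g')
    (R : ℝ) : ∃ F : Set Γ, F.Finite ∧ (∀ g ∈ F, q g = 0) ∧ ∀ g, q g = 0 →
      Conn S (fun x => ‖fun i => (q x i : ℝ)‖ ≤ R) 1 g → g ∈ Subgroup.closure F := by
  obtain ⟨t, t0, ht⟩ := exists_sec q hq
  refine ⟨{e | q e = 0} ∩ (fun p : (Fin b → ℤ) × Γ => t p.1 * p.2 * (t (p.1 + q p.2))⁻¹) ''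
    ({v : Fin b → ℤ | ‖fun i => (v i : ℝ)‖ ≤ R} ×ˢ S),
    (((box_finite _).prod hS).image _).inter_of_right _, fun g hg => hg.1, fun g hg h => ?_⟩
  have key : ∀ x, Conn S (fun x => ‖fun i => (q x i : ℝ)‖ ≤ R) 1 x →
      x * (t (q x))⁻¹ ∈ Subgroup.closure ({e | q e = 0} ∩
        (fun p : (Fin b → ℤ) × Γ => t p.1 * p.2 * (t (p.1 + q p.2))⁻¹) ''
          ({v : Fin b → ℤ | ‖fun i => (v i : ℝ)‖ ≤ R} ×ˢ S)) := by
    intro x hx
    induction hx with
    | refl =>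
      rw [HAbX.add_one q hq, t0, inv_one, mul_one]
      exact one_mem _
    | @tail x y _ e ih =>
      have e0 : q x + q (x⁻¹ * y) = q y := by rw [← hq, mul_inv_cancel_left]
      have e1 : y * (t (q y))⁻¹ = x * (t (q x))⁻¹ * (t (q x) * (x⁻¹ * y) * (t (q y))⁻¹) := by
        group
      rw [e1]
      refine mul_mem ih (Subgroup.subset_closure ⟨?_, (q x, x⁻¹ * y), ⟨e.1, e.2.2⟩, ?_⟩)
      · show q _ = 0
        rw [hq, hq, HAbX.add_inv q hq, ht, ht, e0, add_neg_cancel]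
      · show t (q x) * (x⁻¹ * y) * (t (q x + q (x⁻¹ * y)))⁻¹ = _
        rw [e0]
  have := key g h
  rwa [hg, t0, inv_one, mul_one] at this

end Pool.Agent.P.MP_5c499f_an
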