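import Pool.Agent.P.MP_5c499f_an.Linear

/-! The hyperbolic splitting. TASK ANOS3-SPLIT. -/

set_option autoImplicit false

namespace Pool.Agent.P.MP_5c499f_an

open scoped Matrix

theorem NoUnit.split {b : ℕ} {A : Matrix (Fin b) (Fin b) ℝ} (h : NoUnit A) :
    ∃ (P : (Fin b → ℝ) →L[ℝ] (Fin b → ℝ)) (n : ℕ), 0 < n ∧ (∀ v, P (P v) = P v) ∧
      (∀ v, P (A *ᵥ v) = A *ᵥ P v) ∧ (∀ v, P v = v → 10 * ‖v‖ ≤ ‖(A ^ n) *ᵥ v‖) ∧
      ∀ v, P v = 0 → 10 * ‖(A ^ n) *ᵥ v‖ ≤ ‖v‖ := by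
  obtain ⟨C, h1, h2⟩ := h.solve
  have ex : ∀ v : Fin b → ℝ, ∃ x : ℤ → Fin b → ℝ,
      (∀ k, x (k + 1) = A *ᵥ x k + if k = 0 then v else 0) ∧ ∀ k, ‖x k‖ ≤ C * ‖v‖ := fun v =>
    h1 _ _ fun k => by split_ifs <;> simp
  choose x x1 x2 using ex
  have uq : ∀ (v : Fin b → ℝ) (y : ℤ → Fin b → ℝ) (R : ℝ), (∀ k, ‖y k‖ ≤ R) →
      (∀ k, y (k + 1) = A *ᵥ y k + if k = 0 then v else 0) → ∀ k, x v k = y k :=
    fun v y R y1 y2 k => by
      have := h2 (fun k => x v k - y k) 0 (C * ‖v‖ + R)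
        (fun k => (norm_sub_le _ _).trans (add_le_add (x2 v k) (y1 k)))
        (fun k => by rw [x1, y2, Matrix.mulVec_sub]; simp) k
      rwa [mul_zero, norm_le_zero_iff, sub_eq_zero] at this
  have bd : ∀ X : Matrix (Fin b) (Fin b) ℝ, ∃ L : ℝ, 0 ≤ L ∧ ∀ v, ‖X *ᵥ v‖ ≤ L * ‖v‖ := fun X =>
    ⟨_, norm_nonneg _, fun v => (Matrix.toLin' X).toContinuousLinearMap.le_opNorm v⟩
  have cm : ∀ v k, x (A *ᵥ v) k = A *ᵥ x v k := fun v => by
    obtain ⟨L, l0, l1⟩ := bd A
    refine uq _ _ (L * (C * ‖v‖)) (fun k => (l1 _).trans (mul_le_mul_of_nonneg_left (x2 v k) l0))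
      fun k => ?_
    rw [x1, Matrix.mulVec_add]
    split_ifs <;> simp
  have cp : ∀ (n : ℕ) v k, x ((A ^ n) *ᵥ v) k = (A ^ n) *ᵥ x v k := fun n v k => by
    induction n with
    | zero => simp
    | succ n ih => rw [pow_succ', ← Matrix.mulVec_mulVec, cm, ih, Matrix.mulVec_mulVec]
  let Q : (Fin b → ℝ) →ₗ[ℝ] (Fin b → ℝ) :=
    { toFun := fun v => x v 1
      map_add' := fun v w => uq (v + w) (fun k => x v k + x w k) (C * ‖v‖ + C * ‖w‖)
        (fun k => (norm_add_le _ _).trans (add_le_add (x2 v k) (x2 w k)))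
        (fun k => by rw [x1, x1, Matrix.mulVec_add]; split_ifs <;> abel) 1
      map_smul' := fun a v => uq (a • v) (fun k => a • x v k) (‖a‖ * (C * ‖v‖))
        (fun k => by rw [norm_smul]; exact mul_le_mul_of_nonneg_left (x2 v k) (norm_nonneg _))
        (fun k => by rw [x1, Matrix.mulVec_smul, smul_add]; split_ifs <;> simp) 1 }
  have dec : ∀ v (k : ℤ), (k.natAbs : ℝ) * ‖x v k‖ ≤ C * (C * ‖v‖) := fun v k => by
    set d : ℤ → ℝ := fun j => (min j.natAbs k.natAbs : ℕ) with hd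
    have d0 : ∀ j, 0 ≤ d j := fun j => Nat.cast_nonneg _
    have d1 : ∀ j, |d (j + 1) - d j| ≤ 1 := fun j => by
      have a1 : min (j + 1).natAbs k.natAbs ≤ min j.natAbs k.natAbs + 1 := by omega
      have a2 : min j.natAbs k.natAbs ≤ min (j + 1).natAbs k.natAbs + 1 := by omega
      have a3 : d (j + 1) ≤ d j + 1 := by simp only [hd]; exact_mod_cast a1
      have a4 : d j ≤ d (j + 1) + 1 := by simp only [hd]; exact_mod_cast a2
      exact abs_le.2 ⟨by linarith, by linarith⟩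
    have := h2 (fun j => d j • x v j) (C * ‖v‖) (k.natAbs * (C * ‖v‖)) (fun j => by
      rw [norm_smul, Real.norm_of_nonneg (d0 j)]
      exact mul_le_mul (by simp only [hd]; exact_mod_cast min_le_right _ _) (x2 v j)
        (norm_nonneg _) (Nat.cast_nonneg _)) (fun j => by
      have e : d (j + 1) • x v (j + 1) - A *ᵥ d j • x v j = (d (j + 1) - d j) • x v (j + 1) := by
        rw [Matrix.mulVec_smul, sub_smul]
        by_cases j0 : j = 0
        · simp [j0, hd]
        · rw [x1 v j, if_neg j0, add_zero]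
      rw [e, norm_smul]
      exact (mul_le_of_le_one_left (norm_nonneg _) (d1 j)).trans (x2 v _)) k
    simpa [hd, norm_smul] using this
  obtain ⟨n, hn⟩ := exists_nat_gt (10 * (C * C))
  have n0 : (0 : ℝ) < n := lt_of_le_of_lt (by nlinarith [mul_self_nonneg C]) hn
  have fw : ∀ v (k : ℕ), x v (k + 1) = (A ^ k) *ᵥ x v 1 := fun v k => by
    induction k with
    | zero => simp
    | succ k ih =>
      rw [Nat.cast_succ, x1, if_neg (by omega), add_zero, ih, Matrix.mulVec_mulVec, pow_succ']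
  have bw : ∀ v (k : ℕ), (A ^ k) *ᵥ x v (-k) = x v 0 := fun v k => by
    induction k with
    | zero => simp
    | succ k ih =>
      rw [← ih, show (-k : ℤ) = -(k + 1 : ℕ) + 1 by omega, x1, if_neg (by omega), add_zero,
        Matrix.mulVec_mulVec, pow_succ]
  have z0 : ∀ v, x v 1 = A *ᵥ x v 0 + v := fun v => by simpa using x1 v 0
  have hP : ∀ v, (LinearMap.id - Q).toContinuousLinearMap v = v - x v 1 := fun v => rfl
  refine ⟨(LinearMap.id - Q).toContinuousLinearMap, n + 1, n.succ_pos, fun v => ?_, fun v => ?_,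
    fun v hv => ?_, fun v hv => ?_⟩
  · rw [hP, hP, sub_eq_self]
    refine (uq _ (fun k => if k ≤ 0 then x v k else 0) (C * ‖v‖) (fun k => ?_) (fun k => ?_)
      1).trans (by simp)
    · split_ifs
      · exact x2 v k
      · exact norm_zero.trans_le ((norm_nonneg _).trans (x2 v k))
    · rcases lt_trichotomy k 0 with k0 | rfl | k0
      · rw [if_pos (by omega), if_pos k0.le, x1, if_neg k0.ne, if_neg k0.ne]
      · simp [z0]
      · rw [if_neg (by omega), if_neg (by omega), if_neg k0.ne']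
        simp
  · rw [hP, hP, cm, Matrix.mulVec_sub]
  · rw [hP, sub_eq_self, z0] at hv
    have e := dec ((A ^ (n + 1)) *ᵥ v) (-n)
    rw [cp, pow_succ', ← Matrix.mulVec_mulVec (x v (-n)), bw, eq_neg_of_add_eq_zero_left hv,
      norm_neg, ← pow_succ'] at e
    simp only [Int.natAbs_neg, Int.natAbs_natCast] at e
    refine le_of_mul_le_mul_left ?_ n0
    nlinarith [mul_le_mul_of_nonneg_right hn.le (norm_nonneg ((A ^ (n + 1)) *ᵥ v))]
  · rw [hP, sub_eq_zero] at hv
    have e := dec v ((n + 1 : ℕ) + 1)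
    rw [fw, ← hv, show (((n + 1 : ℕ) : ℤ) + 1).natAbs = n + 2 by omega] at e
    push_cast at e
    refine le_of_mul_le_mul_left ?_ n0
    nlinarith [mul_le_mul_of_nonneg_right hn.le (norm_nonneg v),
      norm_nonneg ((A ^ (n + 1)) *ᵥ v)]

end Pool.Agent.P.MP_5c499f_an
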