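import Pool.Agent.P.MP_5c499f_an.KBr
import Pool.Agent.P.MP_5c499f_an.KConn
import Pool.Agent.P.MP_5c499f_an.KPush
import Pool.Agent.P.MP_5c499f_an.KSplit

/-! Kernels are finitely generated. TASK ANOS3-FG. -/

set_option autoImplicit false

namespace Pool.Agent.P.MP_5c499f_an

open scoped Matrix

variable {Y Γ : Type*} [Group Γ] [MulAction Γ Y] {G : Equiv.Perm Y} {Φ : MulAut Γ}
  {Cl : Y → Y → Prop} {c : ℕ} {K : Set Y} {o : Y}

theorem Br.half {Γ : Type*} [Group Γ] {Φ : MulAut Γ} {κ : ℕ} (h : Br Φ c κ) [Group.FG Γ] {b : ℕ}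
    (q : Γ → Fin b → ℤ) (hq : ∀ g g', q (g * g') = q g + q g') (hs : Function.Surjective q)
    (hΦ : ∀ g, q (Φ g) = 0 ↔ q g = 0) (P : (Fin b → ℝ) →L[ℝ] (Fin b → ℝ))
    (hP : ∀ v, P (P v) = P v) (u s : Γ → ℝ) (hu : ∀ g, u g = ‖P fun i => q g i‖)
    (hs' : ∀ g, s g = ‖(fun i => (q g i : ℝ)) - P fun i => q g i‖)
    (h1 : ∀ g, 10 * u (Φ⁻¹ g) ≤ u g) (h2 : ∃ L : ℝ, ∀ g, u (Φ g) ≤ L * u g)
    (h3 : ∀ g, 10 * s (Φ g) ≤ s g) : ∃ F : Set Γ, F.Finite ∧ (∀ g ∈ F, q g = 0) ∧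
      ∀ g, q g = 0 → ∀ᶠ j : ℕ in Filter.atTop, (Φ ^ j) g ∈ Subgroup.closure F := by
  classical
  obtain ⟨S0, g0, f0⟩ := Group.fg_iff.1 ‹Group.FG Γ›
  set S : Set Γ := S0 ∪ S0⁻¹ with hSdef
  have hS : S.Finite := f0.union f0.inv
  have hi : ∀ σ ∈ S, σ⁻¹ ∈ S := by
    rintro σ (e | e)
    · exact .inr (by simpa)
    · exact .inl e
  have hg : Subgroup.closure S = ⊤ :=
    eq_top_iff.2 (g0 ▸ Subgroup.closure_mono Set.subset_union_left)
  let qh : Γ →* Multiplicative (Fin b → ℤ) :=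
    MonoidHom.mk' (fun g => Multiplicative.ofAdd (q g)) fun x y => by rw [hq]; rfl
  have hk : ∀ g, g ∈ qh.ker ↔ q g = 0 := fun g => Iff.rfl
  have qi : ∀ g, q g⁻¹ = -q g := fun g => congrArg Multiplicative.toAdd (qh.map_inv g)
  have qa : ∀ x y, (fun i => (q (x * y) i : ℝ)) = (fun i => (q x i : ℝ)) + fun i => (q y i : ℝ) :=
    fun x y => by funext i; simp [hq]
  have u0 : ∀ x, 0 ≤ u x := fun x => hu x ▸ norm_nonneg _
  have u1 : ∀ x y, u (x * y) ≤ u x + u y := fun x y => by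
    rw [hu, hu, hu, qa, map_add]
    exact norm_add_le _ _
  have s1 : ∀ x y, s (x * y) ≤ s x + s y := fun x y => by
    rw [hs', hs', hs', qa, map_add, add_sub_add_comm]
    exact norm_add_le _ _
  have u2 : ∀ x, u x⁻¹ = u x := fun x => by
    rw [hu, hu, show (fun i => (q x⁻¹ i : ℝ)) = -fun i => (q x i : ℝ) by funext i; simp [qi],
      map_neg, norm_neg]
  have u3 : ∀ x ∈ qh.ker, u x = 0 := fun x hx => by
    rw [hu, show (fun i => (q x i : ℝ)) = 0 by funext i; simp [(hk x).1 hx], map_zero, norm_zero]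
  obtain ⟨r, hr⟩ := h.conn hS hi hg qh.ker (Abelianization.commutator_subset_ker qh) hΦ u u1 u2 u3 h1
  obtain ⟨a, ra, ha⟩ := push hS hg hi q hq hs P hP u s hu hs' (r := r) hr
  obtain ⟨L, hL⟩ := h2
  have e1 : ∀ σ : Γ, ∃ n : ℕ, Conn S (fun x => u x ≤ n ∧ s x ≤ n) 1 (Φ σ) := fun σ => by
    obtain ⟨n, hn⟩ := (Conn.of_gen hi hg (Φ σ)).bound fun x => max (u x) (s x)
    exact ⟨n, hn.mono fun x hx => max_le_iff.1 hx.2⟩
  choose m hm using e1
  obtain ⟨M, hM⟩ := (hS.image m).bddAbove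
  obtain ⟨C, hC⟩ := ha (|L| * a + M)
  have step : ∀ (t : ℝ) g, q g = 0 → Conn S (fun x => u x ≤ a ∧ s x ≤ t) 1 g →
      Conn S (fun x => u x ≤ a ∧ s x ≤ t / 10 + M + C) 1 (Φ g) := fun t g hg0 e => by
    refine hC _ _ ((hΦ g).2 hg0) ?_
    clear hg0
    induction e with
    | refl => rw [map_one]; exact .refl
    | @tail x y _ e ih =>
      refine Conn.trans ih ?_
      have e2 := (hm (x⁻¹ * y)).mul (Ω' := fun z => u z ≤ |L| * a + M ∧ s z ≤ t / 10 + M) (Φ x)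
        fun z hz => by
          have b1 : (m (x⁻¹ * y) : ℝ) ≤ M := by exact_mod_cast hM ⟨_, e.2.2, rfl⟩
          have b2 : L * u x ≤ |L| * a :=
            (mul_le_mul_of_nonneg_right (le_abs_self L) (u0 x)).trans
              (mul_le_mul_of_nonneg_left e.1.1 (abs_nonneg L))
          have := u1 (Φ x) z
          have := s1 (Φ x) z
          have := hL x
          have := h3 x
          have := e.1.2
          exact ⟨by linarith [hz.1], by linarith [hz.2]⟩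
      simpa using e2
  set D : ℝ := 2 * |M + C| with hD
  have iter : ∀ (t : ℝ) g, q g = 0 → Conn S (fun x => u x ≤ a ∧ s x ≤ t) 1 g → ∀ j : ℕ,
      q ((Φ ^ j) g) = 0 ∧
        Conn S (fun x => u x ≤ a ∧ s x ≤ t * (1 / 10) ^ j + D) 1 ((Φ ^ j) g) := fun t g hg0 e j => by
    have a0 := abs_nonneg (M + C)
    have a1 := le_abs_self (M + C)
    induction j with
    | zero => exact ⟨hg0, e.mono fun x hx => ⟨hx.1, by simp only [pow_zero]; linarith [hx.2]⟩⟩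
    | succ j ih =>
      rw [pow_succ' Φ, MulAut.mul_apply]
      refine ⟨(hΦ _).2 ih.1, (step _ _ ih.1 ih.2).mono fun x hx => ⟨hx.1, hx.2.trans ?_⟩⟩
      rw [pow_succ]
      linarith
  obtain ⟨F, F1, F2, F3⟩ := schreier hS q hq (a + (1 + D))
  refine ⟨F, F1, F2, fun g hg0 => ?_⟩
  obtain ⟨t, ht⟩ := (hr g hg0).bound s
  have lim : Filter.Tendsto (fun j : ℕ => (t : ℝ) * (1 / 10) ^ j) Filter.atTop (nhds (t * 0)) :=
    (tendsto_pow_atTop_nhds_zero_of_lt_one (by norm_num) (by norm_num)).const_mul _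
  filter_upwards [lim.eventually (gt_mem_nhds (show (t : ℝ) * 0 < 1 by simp))] with j hj
  obtain ⟨i1, i2⟩ := iter t g hg0 (ht.mono fun x hx => ⟨hx.1.trans ra, hx.2⟩) j
  refine F3 _ i1 (i2.mono fun x hx => ?_)
  have := norm_add_le (P fun i => (q x i : ℝ)) ((fun i => (q x i : ℝ)) - P fun i => q x i)
  rw [add_sub_cancel, ← hu, ← hs'] at this
  linarith [hx.1, hx.2]

theorem Sys.ker_fg (h : Sys G Φ Cl c K o) [Group.FG Γ] {b : ℕ} (q : Γ → Fin b → ℤ)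
    (A : Matrix (Fin b) (Fin b) ℤ) (hq : ∀ g g', q (g * g') = q g + q g')
    (hs : Function.Surjective q) (hA : ∀ g, q (Φ g) = A *ᵥ q g) (hu : NoUnit (A.map Int.cast))
    (N : Subgroup Γ) (hN : ∀ g, g ∈ N ↔ q g = 0) : N.FG := by
  classical
  obtain ⟨P, n, n0, p1, p2, p3, p4⟩ := hu.split
  set A' : Matrix (Fin b) (Fin b) ℝ := A.map Int.cast with hA'
  let qr : Γ → Fin b → ℝ := fun g i => q g i
  have a1 : ∀ g, qr (Φ g) = A' *ᵥ qr g := fun g => by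
    funext i
    simp [qr, hA, hA', Matrix.mulVec, dotProduct]
  have a2 : ∀ (k : ℕ) g, qr ((Φ ^ k) g) = (A' ^ k) *ᵥ qr g := fun k g => by
    induction k with
    | zero => simp
    | succ k ih => rw [pow_succ' Φ, MulAut.mul_apply, a1, ih, Matrix.mulVec_mulVec, pow_succ']
  have a3 : ∀ (k : ℕ) v, P ((A' ^ k) *ᵥ v) = (A' ^ k) *ᵥ P v := fun k v => by
    induction k with
    | zero => simp
    | succ k ih => rw [pow_succ', ← Matrix.mulVec_mulVec, p2, ih, Matrix.mulVec_mulVec]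
  have a4 : IsUnit A := Matrix.mulVec_surjective_iff_isUnit.1 fun v => by
    obtain ⟨g, rfl⟩ := hs v
    exact ⟨q (Φ⁻¹ g), by rw [← hA]; simp⟩
  have a5 : IsUnit (A' ^ n) := (a4.map (Int.castRingHom ℝ).mapMatrix).pow n
  obtain ⟨E, hE⟩ := a5.exists_left_inv
  have bd : ∀ X : Matrix (Fin b) (Fin b) ℝ, ∃ L : ℝ, ∀ v, ‖X *ᵥ v‖ ≤ L * ‖v‖ := fun X =>
    ⟨_, fun v => (Matrix.toLin' X).toContinuousLinearMap.le_opNorm v⟩
  have z0 : ∀ g, q g = 0 ↔ qr g = 0 := fun g => by simp [qr, funext_iff]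
  have z1 : ∀ g, q ((Φ ^ n) g) = 0 ↔ q g = 0 := fun g => by
    rw [z0, z0, a2]
    refine ⟨fun e => ?_, fun e => by simp [e]⟩
    have := congrArg (E *ᵥ ·) e
    simpa [Matrix.mulVec_mulVec, hE] using this
  have z2 : ∀ g, q ((Φ ^ n)⁻¹ g) = 0 ↔ q g = 0 := fun g => by rw [← z1]; simp
  have b1 : ∀ g, P (qr ((Φ ^ n) g)) = (A' ^ n) *ᵥ P (qr g) := fun g => by rw [a2, a3]
  have b2 : ∀ g, qr ((Φ ^ n) g) - P (qr ((Φ ^ n) g)) = (A' ^ n) *ᵥ (qr g - P (qr g)) := fun g => by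
    rw [b1, a2, Matrix.mulVec_sub]
  have c1 : ∀ g, 10 * ‖P (qr ((Φ ^ n)⁻¹ g))‖ ≤ ‖P (qr g)‖ := fun g => by
    have := p3 _ (p1 (qr ((Φ ^ n)⁻¹ g)))
    rw [← b1] at this
    simpa using this
  have c2 : ∀ g, 10 * ‖qr ((Φ ^ n) g) - P (qr ((Φ ^ n) g))‖ ≤ ‖qr g - P (qr g)‖ := fun g => by
    rw [b2]
    exact p4 _ (by rw [map_sub, p1, sub_self])
  obtain ⟨Cl', h'⟩ := h.pow n0
  obtain ⟨κ, hκ⟩ := h'.grow
  obtain ⟨κ', hκ'⟩ := h'.rev.grow
  obtain ⟨F0, f1, f2, f3⟩ := (h'.branch hκ).half q hq hs z1 P p1 (fun g => ‖P (qr g)‖)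
    (fun g => ‖qr g - P (qr g)‖) (fun _ => rfl) (fun _ => rfl) c1
    ((bd (A' ^ n)).imp fun L hL g => by simpa only [b1] using hL _) c2
  obtain ⟨F1, g1, g2, g3⟩ := (h'.rev.branch hκ').half q hq hs z2 (ContinuousLinearMap.id ℝ _ - P)
    (fun v => by simp [p1]) (fun g => ‖qr g - P (qr g)‖) (fun g => ‖P (qr g)‖) (fun _ => rfl)
    (fun g => by simp [qr]) (by simpa only [inv_inv] using c2)
    ((bd E).imp fun L hL g => by
      have := hL (qr ((Φ ^ n) ((Φ ^ n)⁻¹ g)) - P (qr ((Φ ^ n) ((Φ ^ n)⁻¹ g))))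
      rw [b2, Matrix.mulVec_mulVec, hE, Matrix.one_mulVec, ← b2] at this
      simpa using this) c1
  refine (Subgroup.fg_iff _).2 ⟨F0, le_antisymm ?_ fun g hg => ?_, f1⟩
  · exact (Subgroup.closure_le _).2 fun g hg => (hN g).2 (f2 g hg)
  obtain ⟨j, j1, j2⟩ := (((Filter.eventually_all_finite g1).2 fun f hf => f3 f (g2 f hf)).and
    (g3 g ((hN g).1 hg))).exists
  have : Subgroup.closure F1 ≤ (Subgroup.closure F0).comap ((Φ ^ n) ^ j).toMonoidHom :=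
    (Subgroup.closure_le _).2 j1
  simpa [inv_pow] using this j2

end Pool.Agent.P.MP_5c499f_an
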