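import Pool.Agent.P.MP_5c499f_an.KBasic

/-! The uniform spectral gap. -/

set_option autoImplicit false

namespace Pool.Agent.P.MP_5c499f_an

variable {Y Γ : Type*} [Group Γ] [MulAction Γ Y] {G : Equiv.Perm Y} {Φ : MulAut Γ}
  {Cl : Y → Y → Prop} {c : ℕ} {K : Set Y} {o : Y}

lemma Pre.bound (h : Pre G Φ Cl c K) (l : Γ → ℂ) (hl : ∀ a b, l (a * b) = l a + l b) {ξ : ℂ}
    (hξ : ∀ a, l (Φ a) = ξ * l a) {μ : ℝ} (h1 : 1 ≤ μ) (h2 : ‖ξ‖ ≤ μ) :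
    ∃ C : ℝ, ∀ (n : ℕ) (y y' : Y) (g g' : Γ), g⁻¹ • y ∈ K → g'⁻¹ • y' ∈ K → Fw G⁻¹ Cl n y y' →
      ‖l (g⁻¹ * g')‖ ≤ C * ((n + 1) * μ ^ n) := by
  obtain ⟨B, b1, b2, b3⟩ := h.pos
  obtain ⟨C, hC⟩ := (b1.image l).isBounded.exists_norm_le
  have c1 : ∀ n : ℕ, ∀ b ∈ B, ‖l ((Φ ^ (n : ℤ)) b)‖ ≤ C * μ ^ n := fun n b hb => by
    induction n with
    | zero => simpa using hC _ ⟨b, hb, rfl⟩
    | succ n ih =>
      rw [Nat.cast_succ, add_comm, zpow_one_add, MulAut.mul_apply, hξ, norm_mul, pow_succ' μ,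
        mul_left_comm]
      exact mul_le_mul h2 ih (norm_nonneg _) (by linarith)
  have c2 : ∀ n : ℕ, ∀ r ∈ Rs Φ B n, ‖l ((Φ ^ (n : ℤ)) r)‖ ≤ |C| * ((n + 1) * μ ^ n) := fun n => by
    induction n with
    | zero => exact fun r hr => (c1 0 r hr).trans (by simpa using le_abs_self C)
    | succ n ih =>
      rintro _ ⟨r, hr, b, hb, rfl⟩
      have a1 := c1 (n + 1) b hb
      have a2 : (n + 1) * μ ^ n ≤ (n + 1) * μ ^ (n + 1) := by gcongr; omega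
      rw [map_mul, hl, ← MulAut.mul_apply, Nat.cast_succ, ← zpow_sub_one, add_sub_cancel_right]
      push_cast at a1 ⊢
      refine (norm_add_le _ _).trans ?_
      nlinarith [ih r hr, abs_nonneg C, le_abs_self C, pow_pos (zero_lt_one.trans_le h1) (n + 1)]
  refine ⟨3 * |C|, fun n y y' g g' e1 e2 e3 => ?_⟩
  obtain ⟨u, hu⟩ := h.sat ⟨g, e1⟩ (-n)
  obtain ⟨u', hu'⟩ := h.sat ⟨g', e2⟩ (-n)
  have a1 := c2 n _ (b3 n y g u _ e1 (by simpa using h.refl y) hu)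
  have a2 := c2 n _ (b3 n y' g' u' _ e2 (by simpa using h.refl y') hu')
  have a3 := c1 n _ (b2 _ hu' _ hu (u⁻¹ * u') (by
    simpa [mul_smul] using h.inv u⁻¹ _ _ (h.symm _ _ (Fw_inv.1 e3 _ le_rfl))))
  have a4 : g⁻¹ * g' = (Φ ^ (n : ℤ)) ((Φ ^ (-n : ℤ)) g⁻¹ * u) * (Φ ^ (n : ℤ)) (u⁻¹ * u') *
      ((Φ ^ (n : ℤ)) ((Φ ^ (-n : ℤ)) g'⁻¹ * u'))⁻¹ := by simp [mul_assoc]
  rw [a4, hl, hl, HAbX.add_inv l hl]
  refine (norm_add₃_le.trans (add_le_add (add_le_add a1 a3) ((norm_neg _).trans_le a2))).trans ?_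
  have := pow_pos (zero_lt_one.trans_le h1) n
  nlinarith [mul_nonneg (abs_nonneg C) (mul_nonneg n.cast_nonneg this.le), le_abs_self C]

theorem Sys.gap (h : Sys G Φ Cl c K o) (l : Γ → ℂ) (hl : ∀ a b, l (a * b) = l a + l b) {ξ : ℂ}
    (hξ : ∀ a, l (Φ a) = ξ * l a) {a : Γ} (ha : l a ≠ 0) : 2 ≤ ‖ξ‖ ^ c ∨ 2 ≤ ‖ξ⁻¹‖ ^ c := by
  have e : ∀ a, l a = ξ * l (Φ⁻¹ a) := fun a => by simpa using hξ (Φ⁻¹ a)
  have x0 : ξ ≠ 0 := fun e' => ha (by rw [e a, e', zero_mul])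
  set μ := max 1 (max ‖ξ‖ ‖ξ⁻¹‖)
  have m1 : 1 ≤ μ := le_max_left _ _
  obtain ⟨C, hC⟩ := h.bound l hl hξ m1 (le_max_of_le_right (le_max_left _ _))
  obtain ⟨C', hC'⟩ := h.rev.bound l hl (ξ := ξ⁻¹) (fun a => by rw [e a, inv_mul_cancel_left₀ x0])
    m1 (le_max_of_le_right (le_max_right _ _))
  rw [inv_inv] at hC'
  obtain ⟨T, hT⟩ := h.br _ (Set.finite_singleton a⁻¹)
  have key : ∀ r : ℕ, ∃ (y₀ y z z₀ : Y) (g₀ g u u₀ : Γ), g₀⁻¹ • y₀ ∈ K ∧ g⁻¹ • y ∈ K ∧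
      u⁻¹ • z ∈ K ∧ u₀⁻¹ • z₀ ∈ K ∧ Ch (Fw G⁻¹ Cl T) r y₀ y ∧ Ch (Fw G Cl T) r z z₀ ∧
      l (g₀⁻¹ * g) - l (u⁻¹ * u₀) = r * l a := fun r => by
    induction r with
    | zero =>
      have : (1 : Γ)⁻¹ • o ∈ K := by simpa using h.mem
      exact ⟨o, o, o, o, 1, 1, 1, 1, this, this, this, this, rfl, rfl, by simp⟩
    | succ r ih =>
      obtain ⟨y₀, y, z, z₀, g₀, g, u, u₀, a1, a2, a3, a4, a5, a6, a7⟩ := ih
      obtain ⟨w, ⟨v, w1⟩, w2, w3⟩ := hT _ a4 _ a2 _ rfl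
      refine ⟨(a⁻¹ * g⁻¹) • y₀, w, u₀⁻¹ • z, w, a⁻¹ * g⁻¹ * g₀, v, u₀⁻¹ * u, v,
        by simpa [mul_smul] using a1, w1, by simpa [mul_smul] using a3, w1,
        ⟨_, a5.map (f := ((a⁻¹ * g⁻¹) • ·)) fun _ _ e => h.rev.fw_smul e _,
          mul_smul a⁻¹ g⁻¹ y ▸ h.rev.fw_symm w3⟩,
        ⟨_, a6.map (f := (u₀⁻¹ • ·)) fun _ _ e => h.fw_smul e _, h.fw_symm w2⟩, ?_⟩
      simp only [hl, HAbX.add_inv l hl] at a7 ⊢
      push_cast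
      linear_combination a7
  by_contra! hc
  have m2 : μ ^ c < 2 := by
    rcases max_choice 1 (max ‖ξ‖ ‖ξ⁻¹‖) with e | e
    · simp [μ, e]
    · rcases max_choice ‖ξ‖ ‖ξ⁻¹‖ with e' | e' <;> simp only [μ, e] <;> simp only [e', hc]
  have m3 : 0 < μ ^ c := by positivity
  have m4 : 1 < 2 / μ ^ c := (one_lt_div m3).2 m2
  have p0 := norm_pos_iff.2 ha
  obtain ⟨m, k1, k2⟩ := ((((tendsto_pow_const_div_const_pow_of_one_lt 1 m4).const_mul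
    (|C + C'| * (T + c + 1) * μ ^ T)).eventually (gt_mem_nhds (a := ‖l a‖) (by rwa [mul_zero]))).and
    (Filter.eventually_ge_atTop 1)).exists
  obtain ⟨y₀, y, z, z₀, g₀, g, u, u₀, a1, a2, a3, a4, a5, a6, a7⟩ := key (2 ^ m)
  have b1 := hC (T + c * m) _ _ _ _ a1 a2 (h.rev.chain le_rfl a5)
  have b2 := hC' (T + c * m) _ _ _ _ a3 a4 (h.chain le_rfl a6)
  have b3 := (norm_sub_le _ _).trans (add_le_add b1 b2)
  rw [a7, ← add_mul, norm_mul, Complex.norm_natCast, pow_add, pow_mul] at b3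
  rw [div_pow, div_div_eq_mul_div, ← mul_div_assoc, div_lt_iff₀ (by positivity), pow_one] at k1
  have b4 : ((T + c * m : ℕ) + 1 : ℝ) ≤ (T + c + 1) * m := by
    exact_mod_cast (by nlinarith : T + c * m + 1 ≤ (T + c + 1) * m)
  have b5 := mul_le_mul (le_abs_self (C + C')) (mul_le_mul_of_nonneg_right b4
    (show 0 ≤ μ ^ T * (μ ^ c) ^ m by positivity)) (by positivity) (abs_nonneg _)
  push_cast at b3 b5
  linarith

end Pool.Agent.P.MP_5c499f_an
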