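import Pool.Agent.P.MP_5c499f_an.HMain

/-! One central layer. TASK ANOS3-LAY. -/

set_option autoImplicit false

namespace Pool.Agent.P.MP_5c499f_an

open scoped Matrix

namespace KLayX

theorem kolchin_mat {G : Type*} [Group G] {d : ℕ} (hd : 0 < d)
    (r : G →* Matrix (Fin d) (Fin d) ℂ) (h : ∀ g, (r g).trace = d) :
    ∃ x : Matrix (Fin d) (Fin d) ℂ, x ≠ 0 ∧ ∀ g, r g * x = x := by
  classical
  let R : Subalgebra ℂ (Matrix (Fin d) (Fin d) ℂ) := Algebra.adjoin ℂ (Set.range r)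
  have hR : ∀ y, y ∈ R ↔ y ∈ Submodule.span ℂ (Set.range r) := by
    intro y
    have h1 : Submonoid.closure (Set.range r) = MonoidHom.mrange r :=
      (MonoidHom.mrange r).closure_eq
    have h2 := Algebra.adjoin_eq_span ℂ (Set.range r)
    rw [h1] at h2
    exact SetLike.ext_iff.1 h2 y
  have hρ : ∀ g, r g ∈ R := fun g => Algebra.subset_adjoin ⟨g, rfl⟩
  have hN : ∀ g, ∀ y ∈ R, ((r g - 1) * y).trace = 0 := by
    intro g y hy
    rw [hR] at hy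
    induction hy using Submodule.span_induction with
    | mem y hy =>
      obtain ⟨x, rfl⟩ := hy
      rw [sub_mul, one_mul, Matrix.trace_sub, ← map_mul, h, h, sub_self]
    | zero => rw [mul_zero, Matrix.trace_zero]
    | add y z _ _ hy hz => rw [mul_add, Matrix.trace_add, hy, hz, add_zero]
    | smul c y _ hy => rw [mul_smul_comm, Matrix.trace_smul, hy, smul_zero]
  have : IsArtinianRing R := IsArtinianRing.of_finite ℂ R
  have hJ : ∀ g, r.codRestrict R hρ g - 1 ∈ Ring.jacobson R := by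
    intro g
    rw [← Ideal.jacobson_bot, Ideal.mem_jacobson_iff]
    intro y
    have hn : IsNilpotent (y * (r.codRestrict R hρ g - 1)) := by
      have h1 : IsNilpotent ((y : Matrix (Fin d) (Fin d) ℂ) * (r g - 1)) := by
        refine GUnipX.nil_of_trace R (R.mul_mem y.2 (R.sub_mem (hρ g) R.one_mem)) ?_
        intro z hz
        rw [mul_assoc, Matrix.trace_mul_comm, mul_assoc]
        exact hN g _ (R.mul_mem hz y.2)
      obtain ⟨n, hn⟩ := h1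
      exact ⟨n, Subtype.ext hn⟩
    obtain ⟨u, hu⟩ := hn.isUnit_add_one
    refine ⟨(u⁻¹ : Rˣ), ?_⟩
    rw [Ideal.mem_bot, mul_assoc, sub_eq_zero, ← mul_add_one, ← hu, Units.inv_mul]
  have hnil : IsNilpotent (Ring.jacobson R) := IsSemiprimaryRing.isNilpotent
  obtain ⟨m, hm⟩ := hnil
  have key : ∀ k : ℕ, (∀ x ∈ Ring.jacobson R ^ k, x = 0) →
      ∃ x : R, x ≠ 0 ∧ ∀ g, (r.codRestrict R hρ g - 1) * x = 0 := by
    intro k
    induction k with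
    | zero =>
      intro h0
      exfalso
      have h1 : (1 : R) = 0 := h0 1 (by
        rw [Submodule.pow_zero, Ideal.one_eq_top]
        exact Submodule.mem_top)
      have h2 : (1 : Matrix (Fin d) (Fin d) ℂ) = 0 := congrArg Subtype.val h1
      have h3 := congrFun (congrFun h2 ⟨0, hd⟩) ⟨0, hd⟩
      simp at h3
    | succ k ih =>
      intro h0
      by_cases hk : ∀ x ∈ Ring.jacobson R ^ k, x = 0
      · exact ih hk
      · push Not at hk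
        obtain ⟨x, hx, hx0⟩ := hk
        refine ⟨x, hx0, fun g => h0 _ ?_⟩
        rw [Ideal.IsTwoSided.pow_succ]
        exact Ideal.mul_mem_mul (hJ g) hx
  obtain ⟨x, hx0, hx⟩ := key m (fun x hx => by
    rw [hm] at hx
    exact hx)
  refine ⟨x, fun h0 => hx0 (Subtype.ext h0), fun g => ?_⟩
  have h1 : (r g - 1) * (x : Matrix (Fin d) (Fin d) ℂ) = 0 := congrArg Subtype.val (hx g)
  rw [sub_mul, one_mul, sub_eq_zero] at h1
  exact h1

theorem kolchin {G V : Type*} [Group G] [AddCommGroup V] [Module ℂ V] [FiniteDimensional ℂ V]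
    [Nontrivial V] (r : G →* Module.End ℂ V) (h : ∀ g, IsNilpotent (r g - 1)) :
    ∃ v : V, v ≠ 0 ∧ ∀ g, r g v = v := by
  let b := Module.finBasis ℂ V
  let e := LinearMap.toMatrixAlgEquiv b
  let r1 : G →* Matrix (Fin (Module.finrank ℂ V)) (Fin (Module.finrank ℂ V)) ℂ :=
    e.toAlgHom.toRingHom.toMonoidHom.comp r
  have h1 : ∀ g, (r1 g).trace = Module.finrank ℂ V := by
    intro g
    have h2 := (LinearMap.isNilpotent_trace_of_isNilpotent (h g)).eq_zero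
    rw [map_sub, LinearMap.trace_one, sub_eq_zero, LinearMap.trace_eq_matrix_trace ℂ b] at h2
    exact h2
  obtain ⟨x, hx0, hx⟩ := kolchin_mat Module.finrank_pos r1 h1
  have hy0 : e.symm x ≠ 0 := fun h0 => hx0 (by
    have := congrArg e h0
    rwa [AlgEquiv.apply_symm_apply, map_zero] at this)
  have hy : ∀ g, r g * e.symm x = e.symm x := by
    intro g
    apply e.injective
    rw [map_mul, AlgEquiv.apply_symm_apply]
    exact hx g
  obtain ⟨w, hw⟩ : ∃ w, e.symm x w ≠ 0 := by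
    by_contra hc
    push Not at hc
    exact hy0 (LinearMap.ext hc)
  exact ⟨_, hw, fun g => LinearMap.congr_fun (hy g) w⟩

variable {Γ : Type*} [Group Γ]

theorem on_one {Δ : Subgroup Γ} {l : Γ → ℂ} (hl : AddOn Δ l) : l 1 = 0 := by
  have h := hl 1 Δ.one_mem 1 Δ.one_mem
  rw [mul_one] at h
  exact left_eq_add.1 h

theorem on_inv {Δ : Subgroup Γ} {l : Γ → ℂ} (hl : AddOn Δ l) {a : Γ} (ha : a ∈ Δ) :
    l a⁻¹ = -l a := by
  have h := hl a ha a⁻¹ (Δ.inv_mem ha)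
  rw [mul_inv_cancel, on_one hl] at h
  exact (neg_eq_of_add_eq_zero_right h.symm).symm

theorem on_gen {S : Set Γ} {l : Γ → ℂ} (hl : AddOn (Subgroup.closure S) l)
    (h : ∀ s ∈ S, l s = 0) : ∀ a ∈ Subgroup.closure S, l a = 0 := by
  intro a ha
  induction ha using Subgroup.closure_induction with
  | mem x hx => exact h x hx
  | one => exact on_one hl
  | mul x y hx hy h1 h2 => rw [hl x hx y hy, h1, h2, add_zero]
  | inv x hx h1 => rw [on_inv hl hx, h1, neg_zero]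

/-- additive functions on `Δ`, extended by zero -/
def Wd (Δ : Subgroup Γ) : Submodule ℂ (Γ → ℂ) where
  carrier := {l | AddOn Δ l ∧ ∀ a, a ∉ Δ → l a = 0}
  zero_mem' := ⟨fun _ _ _ _ => by simp, fun _ _ => rfl⟩
  add_mem' := by
    rintro l l' ⟨h1, h2⟩ ⟨h3, h4⟩
    refine ⟨fun a ha b hb => ?_, fun a ha => ?_⟩
    · simp only [Pi.add_apply, h1 a ha b hb, h3 a ha b hb]
      ring
    · simp only [Pi.add_apply, h2 a ha, h4 a ha, add_zero]
  smul_mem' := by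
    rintro c l ⟨h1, h2⟩
    refine ⟨fun a ha b hb => ?_, fun a ha => ?_⟩
    · simp only [Pi.smul_apply, h1 a ha b hb, smul_add]
    · simp only [Pi.smul_apply, h2 a ha, smul_zero]

theorem cj_apply (g : Γ) (l : Γ → ℂ) (a : Γ) : cj g l a = l (g * a * g⁻¹) := rfl

theorem cj_mem (Δ : Subgroup Γ) [hΔ : Δ.Normal] (g : Γ) : ∀ l ∈ Wd Δ, cj g l ∈ Wd Δ := by
  rintro l ⟨h1, h2⟩
  refine ⟨fun a ha b hb => ?_, fun a ha => ?_⟩
  · rw [cj_apply, cj_apply, cj_apply, ← h1 _ (hΔ.conj_mem a ha g) _ (hΔ.conj_mem b hb g)]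
    congr 1
    group
  · rw [cj_apply]
    refine h2 _ fun hc => ha ?_
    have h3 := hΔ.conj_mem _ hc g⁻¹
    have e : g⁻¹ * (g * a * g⁻¹) * g⁻¹⁻¹ = a := by group
    rwa [e] at h3

theorem wd_fin (Δ : Subgroup Γ) (hfg : Δ.FG) : FiniteDimensional ℂ (Wd Δ) := by
  obtain ⟨S, hS, hfin⟩ := (Subgroup.fg_iff Δ).1 hfg
  have : Finite S := hfin
  let f : Wd Δ →ₗ[ℂ] (S → ℂ) := (LinearMap.funLeft ℂ ℂ Subtype.val).comp (Wd Δ).subtype
  refine FiniteDimensional.of_injective f ?_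
  rw [injective_iff_map_eq_zero]
  intro l hl
  apply Subtype.ext
  funext a
  by_cases ha : a ∈ Δ
  · have h1 : AddOn (Subgroup.closure S) l.1 := hS ▸ l.2.1
    exact on_gen h1 (fun s hs => congrFun hl ⟨s, hs⟩) a (hS ▸ ha)
  · exact l.2.2 a ha

/-- the action of `Λ` on additive functions -/
noncomputable def rep (Δ Λ : Subgroup Γ) [Δ.Normal] : Λ →* Module.End ℂ (Wd Δ) where
  toFun g := (cj (g : Γ)⁻¹).restrict (cj_mem Δ _)
  map_one' := by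
    ext l a
    show l.1 (((1 : Λ) : Γ)⁻¹ * a * ((1 : Λ) : Γ)⁻¹⁻¹) = l.1 a
    simp
  map_mul' g g' := by
    ext l a
    show l.1 (((g * g' : Λ) : Γ)⁻¹ * a * ((g * g' : Λ) : Γ)⁻¹⁻¹) =
      l.1 ((g' : Γ)⁻¹ * ((g : Γ)⁻¹ * a * (g : Γ)⁻¹⁻¹) * (g' : Γ)⁻¹⁻¹)
    rw [Subgroup.coe_mul]
    group

theorem rep_pow (Δ Λ : Subgroup Γ) [Δ.Normal] (g : Λ) (k : ℕ) (l : Wd Δ) :
    (((rep Δ Λ g - 1) ^ k) l : Γ → ℂ) = ((cj (g : Γ)⁻¹ - 1) ^ k) l := by
  induction k with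
  | zero => rfl
  | succ k ih =>
    rw [pow_succ', pow_succ', Module.End.mul_apply, Module.End.mul_apply, ← ih]
    rfl

/-- invariant additive functions -/
def Inv (Δ Λ : Subgroup Γ) : Type _ :=
  {l : Γ → ℂ // AddOn Δ l ∧ ∀ g ∈ Λ, ∀ a ∈ Δ, l (g * a * g⁻¹) = l a}

theorem char_mem (Δ : Subgroup Γ) [h : Δ.Characteristic] (φ : Γ ≃* Γ) {a : Γ} (ha : a ∈ Δ) :
    φ a ∈ Δ := Subgroup.characteristic_iff_le_comap.1 h φ ha

/-- precomposition with an automorphism -/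
def Inv.pull (Δ Λ : Subgroup Γ) [Δ.Characteristic] [Λ.Characteristic] (φ : Γ ≃* Γ)
    (l : Inv Δ Λ) : Inv Δ Λ :=
  ⟨fun a => l.1 (φ a), fun a ha b hb => by
    show l.1 (φ (a * b)) = l.1 (φ a) + l.1 (φ b)
    rw [map_mul, l.2.1 _ (char_mem Δ φ ha) _ (char_mem Δ φ hb)], fun g hg a ha => by
    show l.1 (φ (g * a * g⁻¹)) = l.1 (φ a)
    rw [map_mul, map_mul, map_inv, l.2.2 _ (char_mem Λ φ hg) _ (char_mem Δ φ ha)]⟩

/-- the common kernel -/
def Nk (Δ Λ : Subgroup Γ) : Subgroup Γ where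
  carrier := {a | a ∈ Δ ∧ ∀ l : Inv Δ Λ, l.1 a = 0}
  one_mem' := ⟨Δ.one_mem, fun l => on_one l.2.1⟩
  mul_mem' := by
    rintro a b ⟨h1, h2⟩ ⟨h3, h4⟩
    exact ⟨Δ.mul_mem h1 h3, fun l => by rw [l.2.1 a h1 b h3, h2, h4, add_zero]⟩
  inv_mem' := by
    rintro a ⟨h1, h2⟩
    exact ⟨Δ.inv_mem h1, fun l => by rw [on_inv l.2.1 h1, h2, neg_zero]⟩

/-- evaluation -/
def ev (Δ Λ : Subgroup Γ) (a : Γ) : Inv Δ Λ → ℂ := fun l => l.1 a

theorem ev_mul (Δ Λ : Subgroup Γ) {a b : Γ} (ha : a ∈ Δ) (hb : b ∈ Δ) :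
    ev Δ Λ (a * b) = ev Δ Λ a + ev Δ Λ b := funext fun l => l.2.1 a ha b hb

theorem ev_one (Δ Λ : Subgroup Γ) : ev Δ Λ 1 = 0 := funext fun l => on_one l.2.1

theorem ev_inv (Δ Λ : Subgroup Γ) {a : Γ} (ha : a ∈ Δ) : ev Δ Λ a⁻¹ = -ev Δ Λ a :=
  funext fun l => on_inv l.2.1 ha

/-- the image of evaluation -/
def Im (Δ Λ : Subgroup Γ) : AddSubgroup (Inv Δ Λ → ℂ) where
  carrier := ev Δ Λ '' Δ
  zero_mem' := ⟨1, Δ.one_mem, ev_one Δ Λ⟩
  add_mem' := by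
    rintro _ _ ⟨a, ha, rfl⟩ ⟨b, hb, rfl⟩
    exact ⟨a * b, Δ.mul_mem ha hb, ev_mul Δ Λ ha hb⟩
  neg_mem' := by
    rintro _ ⟨a, ha, rfl⟩
    exact ⟨a⁻¹, Δ.inv_mem ha, ev_inv Δ Λ ha⟩

theorem im_fin (Δ Λ : Subgroup Γ) (hfg : Δ.FG) :
    Module.Finite ℤ (Im Δ Λ).toIntSubmodule := by
  obtain ⟨S, hS, hfin⟩ := (Subgroup.fg_iff Δ).1 hfg
  rw [Module.Finite.iff_fg, Submodule.fg_def]
  refine ⟨ev Δ Λ '' S, hfin.image _, le_antisymm (Submodule.span_le.2 ?_) ?_⟩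
  · rintro _ ⟨a, ha, rfl⟩
    exact ⟨a, hS ▸ Subgroup.subset_closure ha, rfl⟩
  · rintro _ ⟨a, ha, rfl⟩
    have ha' : a ∈ Subgroup.closure S := hS ▸ ha
    clear ha
    induction ha' using Subgroup.closure_induction with
    | mem x hx => exact Submodule.subset_span ⟨x, hx, rfl⟩
    | one =>
      rw [ev_one]
      exact Submodule.zero_mem _
    | mul x y hx hy h1 h2 =>
      rw [ev_mul Δ Λ (hS ▸ hx) (hS ▸ hy)]
      exact Submodule.add_mem _ h1 h2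
    | inv x hx h1 =>
      rw [ev_inv Δ Λ (hS ▸ hx)]
      exact Submodule.neg_mem _ h1

end KLayX

theorem exists_inv_char {Γ : Type*} [Group Γ] (Δ Λ : Subgroup Γ) [Δ.Normal] (hfg : Δ.FG)
    (h : ∀ g ∈ Λ, ∃ k : ℕ, ∀ l, AddOn Δ l → ∀ a ∈ Δ, ((cj g - 1) ^ k) l a = 0)
    (h0 : ∃ l, AddOn Δ l ∧ ∃ a ∈ Δ, l a ≠ 0) :
    ∃ l, AddOn Δ l ∧ (∃ a ∈ Δ, l a ≠ 0) ∧ ∀ g ∈ Λ, ∀ a ∈ Δ, l (g * a * g⁻¹) = l a := by
  classical
  have := KLayX.wd_fin Δ hfg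
  have : Nontrivial (KLayX.Wd Δ) := by
    obtain ⟨l, hl, a, ha, hla⟩ := h0
    refine ⟨⟨⟨fun x => if x ∈ Δ then l x else 0, fun x hx y hy => ?_, fun x hx => if_neg hx⟩,
      0, fun hc => hla ?_⟩⟩
    · show (if x * y ∈ Δ then l (x * y) else 0) =
        (if x ∈ Δ then l x else 0) + (if y ∈ Δ then l y else 0)
      rw [if_pos (Δ.mul_mem hx hy), if_pos hx, if_pos hy, hl x hx y hy]
    · have h1 : (if a ∈ Δ then l a else 0) = 0 := congrFun (congrArg Subtype.val hc) a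
      rwa [if_pos ha] at h1
  obtain ⟨v, hv0, hv⟩ := KLayX.kolchin (KLayX.rep Δ Λ) (fun g => by
    obtain ⟨k, hk⟩ := h _ (Λ.inv_mem g.2)
    refine ⟨k, LinearMap.ext fun l => Subtype.ext (funext fun a => ?_)⟩
    by_cases ha : a ∈ Δ
    · rw [KLayX.rep_pow]
      exact hk l.1 l.2.1 a ha
    · exact (((KLayX.rep Δ Λ g - 1) ^ k) l).2.2 a ha)
  refine ⟨v.1, v.2.1, ?_, fun g hg a _ => ?_⟩
  · by_contra hc
    push Not at hc
    refine hv0 (Subtype.ext (funext fun a => ?_))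
    by_cases ha : a ∈ Δ
    · exact hc a ha
    · exact v.2.2 a ha
  · have h1 := congrFun (congrArg Subtype.val (hv ⟨g⁻¹, Λ.inv_mem hg⟩)) a
    have h2 : v.1 (g⁻¹⁻¹ * a * g⁻¹⁻¹⁻¹) = v.1 a := h1
    rwa [inv_inv] at h2

theorem exists_layer {Γ : Type*} [Group Γ] (Φ : MulAut Γ) (Δ Λ : Subgroup Γ) [Δ.Characteristic]
    [Λ.Characteristic] (hfg : Δ.FG)
    (h : ∃ l, AddOn Δ l ∧ (∃ a ∈ Δ, l a ≠ 0) ∧ ∀ g ∈ Λ, ∀ a ∈ Δ, l (g * a * g⁻¹) = l a) :
    ∃ N : Subgroup Γ, N.Characteristic ∧ N ≤ Δ ∧ ⁅Δ, Λ⁆ ≤ N ∧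
      ∃ (b : ℕ) (q : Δ → Fin b → ℤ) (A : Matrix (Fin b) (Fin b) ℤ), 0 < b ∧
        (∀ g g', q (g * g') = q g + q g') ∧ Function.Surjective q ∧
        (∀ g, q (MulAut.characteristic Δ Φ g) = A *ᵥ q g) ∧ ∀ g : Δ, (g : Γ) ∈ N ↔ q g = 0 := by
  classical
  have hnorm : Δ.Normal := inferInstance
  refine ⟨KLayX.Nk Δ Λ, ?_, fun a ha => ha.1, ?_, ?_⟩
  · rw [Subgroup.characteristic_iff_le_comap]
    rintro φ a ⟨h1, h2⟩
    exact ⟨KLayX.char_mem Δ φ h1, fun l => h2 (KLayX.Inv.pull Δ Λ φ l)⟩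
  · rw [Subgroup.commutator_le]
    intro a ha g hg
    have h1 : g * a⁻¹ * g⁻¹ ∈ Δ := hnorm.conj_mem _ (Δ.inv_mem ha) g
    have e : a * g * a⁻¹ * g⁻¹ = a * (g * a⁻¹ * g⁻¹) := by group
    rw [commutatorElement_def, e]
    refine ⟨Δ.mul_mem ha h1, fun l => ?_⟩
    rw [l.2.1 a ha _ h1, l.2.2 g hg _ (Δ.inv_mem ha), KLayX.on_inv l.2.1 ha, add_neg_cancel]
  · let M := (KLayX.Im Δ Λ).toIntSubmodule
    have hfin : Module.Finite ℤ M := KLayX.im_fin Δ Λ hfg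
    let ψ0 : (KLayX.Inv Δ Λ → ℂ) →ₗ[ℤ] (KLayX.Inv Δ Λ → ℂ) :=
      LinearMap.funLeft ℤ ℂ (KLayX.Inv.pull Δ Λ Φ)
    have hψ : ∀ x ∈ M, ψ0 x ∈ M := by
      rintro _ ⟨a, ha, rfl⟩
      exact ⟨Φ a, KLayX.char_mem Δ Φ ha, rfl⟩
    let ψ : M →ₗ[ℤ] M := ψ0.restrict hψ
    let b := Module.finBasis ℤ M
    let e : Δ → M := fun a => ⟨KLayX.ev Δ Λ a, a, a.2, rfl⟩
    have hker : ∀ g : Δ, (g : Γ) ∈ KLayX.Nk Δ Λ ↔ b.equivFun (e g) = 0 := by
      intro g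
      rw [LinearEquiv.map_eq_zero_iff]
      constructor
      · intro hg
        exact Subtype.ext (funext fun l => hg.2 l)
      · intro hg
        exact ⟨g.2, fun l => congrFun (congrArg Subtype.val hg) l⟩
    refine ⟨_, fun a => b.equivFun (e a), LinearMap.toMatrix b b ψ, ?_, fun g g' => ?_, ?_,
      fun g => ?_, hker⟩
    · obtain ⟨l, hl, ⟨a, ha, hla⟩, hinv⟩ := h
      rcases Nat.eq_zero_or_pos (Module.finrank ℤ M) with h0 | h0
      · exfalso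
        have h1 : b.equivFun (e ⟨a, ha⟩) = 0 := funext fun i => absurd i.2 (by omega)
        exact hla (((hker ⟨a, ha⟩).2 h1).2 ⟨l, hl, hinv⟩)
      · exact h0
    · have h1 : e (g * g') = e g + e g' := Subtype.ext (KLayX.ev_mul Δ Λ g.2 g'.2)
      show b.equivFun (e (g * g')) = b.equivFun (e g) + b.equivFun (e g')
      rw [h1, map_add]
    · intro x
      obtain ⟨⟨_, a, ha, rfl⟩, hy⟩ := b.equivFun.surjective x
      exact ⟨⟨a, ha⟩, hy⟩
    · have h1 := LinearMap.toMatrix_mulVec_repr b b ψ (e g)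
      have h2 : e (MulAut.characteristic Δ Φ g) = ψ (e g) := rfl
      show b.equivFun (e (MulAut.characteristic Δ Φ g)) = _
      rw [h2]
      exact h1.symm

end Pool.Agent.P.MP_5c499f_an
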