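import Pool.Agent.P.MP_5c499f_an.KDefs
import Pool.Agent.P.MP_5c499f_an.HJordan

/-! Group theoretic lemmas for the layers. -/

set_option autoImplicit false

namespace Pool.Agent.P.MP_5c499f_an

open Pool.Agent.Lib.Gromov
open scoped Matrix

variable {Γ : Type*} [Group Γ]

theorem exists_char_le [h : Group.FG Γ] (H : Subgroup Γ) [H.FiniteIndex] :
    ∃ Λ : Subgroup Γ, Λ.Characteristic ∧ Λ.FiniteIndex ∧ Λ ≤ H := by
  obtain ⟨S, s1, s2⟩ := Group.fg_iff.1 h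
  exact ⟨_, core_char Γ _, core_finiteIndex s2 s1 _,
    HJordanX.le_of_card H (Finite.equivFin _).toEmbedding⟩

theorem Conil.step {N N' Λ : Subgroup Γ} (h : Conil N) [Λ.FiniteIndex] (hc : ⁅N, Λ⁆ ≤ N') :
    Conil N' := by
  obtain ⟨Λ₀, _, k, hk⟩ := h
  exact ⟨Λ₀ ⊓ Λ, inferInstance, k + 1, (Subgroup.commutator_mono
    ((Subgroup.lowerCentralSeries_mono k inf_le_left).trans hk) inf_le_right).trans hc⟩

theorem Conil.index {N N' : Subgroup Γ} [N.Normal] [N'.Normal] (h : Conil N) (_ : N' ≤ N)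
    [(N'.subgroupOf N).FiniteIndex] : Conil N' := by
  set π := QuotientGroup.mk' N'
  have := Subgroup.Normal.map inferInstance π (QuotientGroup.mk'_surjective N') (H := N)
  have : Finite (N.map π) := .of_surjective (fun x : N ⧸ N'.subgroupOf N =>
      ⟨π x.out, x.out, x.out.2, rfl⟩) (by
    rintro ⟨_, a, ha, rfl⟩
    have := QuotientGroup.eq.1 (QuotientGroup.out_eq' ((⟨a, ha⟩ : N) : N ⧸ N'.subgroupOf N))
    exact ⟨(⟨a, ha⟩ : N), Subtype.ext (QuotientGroup.eq.2 this)⟩)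
  refine h.step (Λ := ((MulAut.conjNormal (H := N.map π)).comp π).ker)
    (Subgroup.commutator_le.2 fun a ha g hg => ?_)
  have : π g * π a * (π g)⁻¹ = π a :=
    congrArg (fun φ : MulAut (N.map π) => (φ ⟨π a, a, ha, rfl⟩ : Γ ⧸ N')) hg
  rw [← QuotientGroup.ker_mk' N', MonoidHom.mem_ker, map_commutatorElement,
    commutatorElement_eq_one_iff_mul_comm]
  exact (mul_inv_eq_iff_eq_mul.1 this).symm

theorem Conil.quot {N : Subgroup Γ} [N.Normal] (h : Conil N) :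
    Group.IsVirtuallyNilpotent (Γ ⧸ N) := by
  obtain ⟨Λ, h1, k, hk⟩ := h
  refine ⟨Λ.map (QuotientGroup.mk' N),
    Subgroup.isNilpotent_of_lowerCentralSeries_eq_bot (n := k) ?_,
    ⟨ne_zero_of_dvd_ne_zero h1.1 (Λ.index_map_dvd (QuotientGroup.mk'_surjective N))⟩⟩
  rwa [← Subgroup.map_lowerCentralSeries, Subgroup.map_eq_bot_iff, QuotientGroup.ker_mk']

theorem Conil.virt {N : Subgroup Γ} [N.Normal] [Finite N] (h : Conil N) :
    Group.IsVirtuallyNilpotent Γ := by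
  obtain ⟨Λ, h1, k, hk⟩ := h.index (N' := ⊥) bot_le
  exact ⟨Λ, Subgroup.isNilpotent_of_lowerCentralSeries_eq_bot (le_bot_iff.1 hk), h1⟩

theorem AddOn.ne_zero {Δ : Subgroup Γ} {l : Γ → ℂ} (hl : AddOn Δ l) (Λ : Subgroup Γ)
    [Λ.FiniteIndex] (h : ∃ a ∈ Δ, l a ≠ 0) : ∃ a ∈ Δ, a ∈ Λ ∧ l a ≠ 0 := by
  obtain ⟨a, a1, a2⟩ := h
  obtain ⟨n, n1, -, n2⟩ := Λ.exists_pow_mem_of_index_ne_zero Subgroup.FiniteIndex.index_ne_zero a
  have : ∀ n : ℕ, l (a ^ (n + 1)) = (n + 1 : ℕ) * l a := fun n => by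
    induction n with
    | zero => simp
    | succ n ih => rw [pow_succ, hl _ (pow_mem a1 _) _ a1, ih]; push_cast; ring
  obtain ⟨n, rfl⟩ := Nat.exists_eq_succ_of_ne_zero n1.ne'
  exact ⟨_, pow_mem a1 _, n2, this n ▸ mul_ne_zero (by exact_mod_cast n1.ne') a2⟩

theorem exists_ind (N : Subgroup Γ) [N.Characteristic] (hfg : N.FG) (h : VI N) :
    ∃ Δ : Subgroup Γ, Δ.Characteristic ∧ Δ ≤ N ∧ (Δ.subgroupOf N).FiniteIndex ∧ Δ.FG ∧
      ∃ l, AddOn Δ l ∧ ∃ a ∈ Δ, l a ≠ 0 := by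
  classical
  obtain ⟨H, _, χ, a, ha⟩ := h
  have : Group.FG N := (Group.fg_iff_subgroup_fg N).2 hfg
  obtain ⟨Λ, l1, l2, l3⟩ := exists_char_le H
  set l : N → ℂ := fun x => if hx : x ∈ H then ((χ ⟨x, hx⟩).toAdd : ℤ) else 0
  have hl : AddOn H l := fun x hx y hy => by
    simp only [l, dif_pos hx, dif_pos hy, dif_pos (mul_mem hx hy)]
    rw [← Int.cast_add, ← toAdd_mul, ← map_mul]
    rfl
  obtain ⟨b, -, b1, b2⟩ := hl.ne_zero Λ ⟨a, a.2, by simpa [l] using ha⟩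
  obtain ⟨F, f1, f2⟩ := (Subgroup.fg_iff _).1 ((Group.fg_iff_subgroup_fg Λ).1 inferInstance)
  refine ⟨Λ.map N.subtype, inferInstance, Subgroup.map_subtype_le _, ?_,
    (Subgroup.fg_iff _).2 ⟨N.subtype '' F, by rw [← MonoidHom.map_closure, f1], f2.image _⟩,
    fun x => if hx : x ∈ N then l ⟨x, hx⟩ else 0, ?_, b, ⟨b, b1, rfl⟩, by simpa using b2⟩
  · rwa [Subgroup.subgroupOf, Subgroup.comap_map_eq_self_of_injective N.subtype_injective]
  · rintro _ ⟨x, hx, rfl⟩ _ ⟨y, hy, rfl⟩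
    simp only [Subgroup.coe_subtype, dif_pos (mul_mem x.2 y.2), dif_pos x.2, dif_pos y.2]
    exact hl x (l3 hx) y (l3 hy)

lemma eig_char {Φ : MulAut Γ} {b : ℕ} (q : Γ → Fin b → ℤ)
    (A : Matrix (Fin b) (Fin b) ℤ) (hq : ∀ g g', q (g * g') = q g + q g')
    (hs : Function.Surjective q) (hA : ∀ g, q (Φ g) = A *ᵥ q g) {v : Fin b → ℂ} {ξ : ℂ}
    (hv : v ≠ 0) (h : v ᵥ* A.map Int.cast = ξ • v) :
    ∃ l : Γ → ℂ, (∀ g g', l (g * g') = l g + l g') ∧ (∀ g, q g = 0 → l g = 0) ∧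
      (∀ g, l (Φ g) = ξ * l g) ∧ ∃ a, l a ≠ 0 := by
  refine ⟨fun a => v ⬝ᵥ fun i => (q a i : ℂ), fun a b => ?_, fun g hg => by simp [hg, dotProduct],
    fun a => ?_, ?_⟩
  · simp [hq, dotProduct, mul_add, Finset.sum_add_distrib]
  · have e : (fun i => (q (Φ a) i : ℂ)) = A.map Int.cast *ᵥ fun i => (q a i : ℂ) := by
      ext i
      simp [hA, Matrix.mulVec, dotProduct]
    simp only [e, Matrix.dotProduct_mulVec, h, smul_dotProduct, smul_eq_mul]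
  · obtain ⟨i, hi⟩ := Function.ne_iff.1 hv
    obtain ⟨a, ha⟩ := hs (Pi.single i 1)
    exact ⟨a, by simpa [ha, dotProduct, Pi.single_apply] using hi⟩

theorem Win.noUnit {Φ : MulAut Γ} (hW : Win Φ) {b : ℕ} (q : Γ → Fin b → ℤ)
    (A : Matrix (Fin b) (Fin b) ℤ) (hq : ∀ g g', q (g * g') = q g + q g')
    (hs : Function.Surjective q) (hA : ∀ g, q (Φ g) = A *ᵥ q g) : NoUnit (A.map Int.cast) :=
  fun z v hz hv => by_contra fun e => by
    obtain ⟨l, h1, -, h2, a, h3⟩ := eig_char q A hq hs hA e (ξ := z) (by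
      rw [← hv]; congr 1)
    exact h3 (hW.no_char l h1 hz h2 a)

theorem exists_eigen {Φ : MulAut Γ} {b : ℕ} (hb : 0 < b) (q : Γ → Fin b → ℤ)
    (A : Matrix (Fin b) (Fin b) ℤ) (hq : ∀ g g', q (g * g') = q g + q g')
    (hs : Function.Surjective q) (hA : ∀ g, q (Φ g) = A *ᵥ q g) :
    ∃ (l : Γ → ℂ) (ξ : ℂ), (∀ g g', l (g * g') = l g + l g') ∧ (∀ g, q g = 0 → l g = 0) ∧
      (∀ g, l (Φ g) = ξ * l g) ∧ ∃ a, l a ≠ 0 := by
  have : Nonempty (Fin b) := ⟨⟨0, hb⟩⟩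
  obtain ⟨ξ, h⟩ := Module.End.exists_eigenvalue (Matrix.vecMulLinear (A.map (Int.cast : ℤ → ℂ)))
  obtain ⟨v, h⟩ := h.exists_hasEigenvector
  obtain ⟨l, hl⟩ := eig_char q A hq hs hA h.2 h.apply_eq_smul
  exact ⟨l, ξ, hl⟩

end Pool.Agent.P.MP_5c499f_an
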