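import Pool.Agent.P.MP_5c499f_an.HAb
import Pool.Agent.Lib.Gromov.Unitary

/-! Unbounded quasimorphisms give homomorphisms to the integers. TASK ANOS3-QM. -/

set_option autoImplicit false

namespace Pool.Agent.P.MP_5c499f_an

open Pool.Agent.Lib.Gromov

namespace KQmX

open Filter Topology

lemma one_side {Γ : Type*} [Group Γ] {Φ : MulAut Γ} {E : Set Γ} {W : ℕ → Set Γ}
    (hD : ∀ n, (W n).Finite ∧ (W n).Nonempty)
    (hwin : ∀ S : Set Γ, S.Finite → ∃ T, ∀ n ≥ T, ∀ u ∈ W n, ∀ v ∈ W n, ∀ γ ∈ S,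
      ∃ e ∈ E, ∃ e' ∈ E, ∃ u' ∈ W n, ∃ v' ∈ W n,
        u * (Φ ^ n) (γ * v) = e * u' * (Φ ^ n) (v' * (Φ ^ n) e'))
    (q : Γ → ℝ) (D M : ℝ) (hq : ∀ a b, |q (a * b) - q a - q b| ≤ D)
    (hM : ∀ (i : ℤ), ∀ e ∈ E, |q ((Φ ^ i) e)| ≤ M) (g : Γ) : q g ≤ 2 * M + 5 * D := by
  obtain ⟨T, hT⟩ := hwin {g} (Set.finite_singleton g)
  obtain ⟨u, hu, hmu⟩ := Set.exists_max_image (W T) (fun u => q ((Φ ^ T)⁻¹ u)) (hD T).1 (hD T).2
  obtain ⟨v, hv, hmv⟩ := Set.exists_max_image (W T) q (hD T).1 (hD T).2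
  obtain ⟨e, he, e', he', u', hu', v', hv', heq⟩ := hT T le_rfl u hu v hv g rfl
  have h1 := congrArg (fun x => (Φ ^ T)⁻¹ x) heq
  simp only [map_mul, MulAut.inv_apply_self] at h1
  have a1 := abs_le.1 (hq ((Φ ^ T)⁻¹ u) (g * v))
  have a2 := abs_le.1 (hq g v)
  have a3 := abs_le.1 (hq ((Φ ^ T)⁻¹ e * (Φ ^ T)⁻¹ u') (v' * (Φ ^ T) e'))
  have a4 := abs_le.1 (hq ((Φ ^ T)⁻¹ e) ((Φ ^ T)⁻¹ u'))
  have a5 := abs_le.1 (hq v' ((Φ ^ T) e'))
  have b1 := abs_le.1 (hM (-(T : ℤ)) e he)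
  have b2 := abs_le.1 (hM (T : ℤ) e' he')
  rw [zpow_neg, zpow_natCast] at b1
  rw [zpow_natCast] at b2
  have c1 := hmu u' hu'
  have c2 := hmv v' hv'
  rw [h1] at a1
  linarith [a1.1, a1.2, a2.1, a2.2, a3.1, a3.2, a4.1, a4.2, a5.1, a5.2, b1.2, b2.2]

/-- A sequence of normalised quasimorphisms with vanishing defect has an additive limit. -/
lemma limit {Γ : Type*} [Group Γ] {S U : Set Γ} (hg : Subgroup.closure S = ⊤) (hU : U.Finite)
    (f : ℕ → Γ → ℝ) (D : ℝ) (hD : 0 ≤ D)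
    (hf : ∀ k a b, |f k (a * b) - f k a - f k b| ≤ D / (k + 1)) (h1 : ∀ k, ∀ s ∈ S, |f k s| ≤ 1)
    (h2 : ∀ k, ∃ x ∈ U, |f k x| = 1) :
    ∃ l : Γ → ℝ, (∀ a b, l (a * b) = l a + l b) ∧ ∃ x, l x ≠ 0 := by
  have hf' : ∀ k a b, |f k (a * b) - f k a - f k b| ≤ D := fun k a b =>
    (hf k a b).trans (div_le_self hD (by linarith [Nat.cast_nonneg (α := ℝ) k]))
  have hone : ∀ k, |f k 1| ≤ D := fun k => by
    have := abs_le.1 (hf' k 1 1)
    rw [mul_one] at this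
    rw [abs_le]
    constructor <;> linarith [this.1, this.2]
  have hb : ∀ g, ∃ C, ∀ k, |f k g| ≤ C := by
    intro g
    induction (hg ▸ Subgroup.mem_top g : g ∈ Subgroup.closure S) using
      Subgroup.closure_induction with
    | mem x hx => exact ⟨1, fun k => h1 k x hx⟩
    | one => exact ⟨D, hone⟩
    | mul x y _ _ a b =>
      obtain ⟨C, hC⟩ := a
      obtain ⟨C', hC'⟩ := b
      refine ⟨C + C' + D, fun k => ?_⟩
      have e1 := abs_le.1 (hC k)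
      have e2 := abs_le.1 (hC' k)
      have e3 := abs_le.1 (hf' k x y)
      rw [abs_le]
      constructor <;> linarith [e1.1, e1.2, e2.1, e2.2, e3.1, e3.2]
    | inv x _ a =>
      obtain ⟨C, hC⟩ := a
      refine ⟨C + 2 * D, fun k => ?_⟩
      have e1 := abs_le.1 (hC k)
      have e2 := abs_le.1 (hone k)
      have e3 := abs_le.1 (hf' k x x⁻¹)
      rw [mul_inv_cancel] at e3
      rw [abs_le]
      constructor <;> linarith [e1.1, e1.2, e2.1, e2.2, e3.1, e3.2]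
  have hl : ∀ g, ∃ y, Tendsto (fun k => f k g) (hyperfilter ℕ) (𝓝 y) := by
    intro g
    obtain ⟨C, hC⟩ := hb g
    obtain ⟨y, -, hy⟩ := (isCompact_Icc (a := -C) (b := C)).ultrafilter_le_nhds
      ((hyperfilter ℕ).map fun k => f k g)
      (le_principal_iff.2 (mem_map.2 (univ_mem' fun k => abs_le.1 (hC k))))
    exact ⟨y, hy⟩
  choose l hl using hl
  refine ⟨l, fun a b => ?_, ?_⟩
  · have t1 := ((hl (a * b)).sub (hl a)).sub (hl b)
    have t2 : Tendsto (fun k : ℕ => D / ((k : ℝ) + 1)) atTop (𝓝 0) :=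
      tendsto_const_nhds.div_atTop (tendsto_natCast_atTop_atTop.atTop_add tendsto_const_nhds)
    have t3 : Tendsto (fun k => f k (a * b) - f k a - f k b) atTop (𝓝 0) :=
      squeeze_zero_norm (fun k => hf k a b) t2
    have t4 := tendsto_nhds_unique t1 (t3.mono_left Nat.hyperfilter_le_atTop)
    linarith
  · have e1 : ∀ᶠ k in (hyperfilter ℕ : Filter ℕ), ∃ x ∈ U, |f k x| = 1 := Eventually.of_forall h2
    obtain ⟨x, -, hx⟩ := (Ultrafilter.eventually_exists_mem_iff hU).1 e1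
    have t1 := (hl x).abs
    have t2 : Tendsto (fun k => |f k x|) (hyperfilter ℕ) (𝓝 1) :=
      tendsto_const_nhds.congr' (hx.mono fun k hk => hk.symm)
    have := tendsto_nhds_unique t1 t2
    refine ⟨x, fun h => ?_⟩
    rw [h, abs_zero] at this
    exact zero_ne_one this

lemma vi_of_add {Γ : Type*} [Group Γ] [Group.FG Γ] (l : Γ → ℝ)
    (hl : ∀ a b, l (a * b) = l a + l b) {x : Γ} (hx : l x ≠ 0) : VI Γ := by
  let ρ : Γ →* Multiplicative ℝ := MonoidHom.mk' (fun a => Multiplicative.ofAdd (l a))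
    fun a b => by rw [hl, ofAdd_add]
  have hp : ∀ n : ℕ, l (x ^ n) = n * l x := fun n => by
    induction n with
    | zero => simpa using HAbX.add_one l hl
    | succ n ih => rw [pow_succ, hl, ih]; push_cast; ring
  obtain ⟨χ, ⟨g, hg⟩, -⟩ := exists_hom_int ρ (fun g h => mul_comm _ _)
    (Set.infinite_of_injective_forall_mem (f := fun n : ℕ => ρ (x ^ n)) (fun n m h => by
      have h1 : l (x ^ n) = l (x ^ m) := h
      rw [hp, hp] at h1
      exact_mod_cast mul_right_cancel₀ hx h1) fun n => ⟨_, rfl⟩)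
  exact ⟨⊤, inferInstance, χ.comp (Subgroup.subtype ⊤), ⟨g, trivial⟩, hg⟩

end KQmX

open KQmX in
theorem Win.vi_of_qm {Γ : Type*} [Group Γ] [Group.FG Γ] {Φ : MulAut Γ} (hW : Win Φ) (q : Γ → ℝ)
    (D : ℝ) (hq : ∀ a b, |q (a * b) - q a - q b| ≤ D) (hu : ¬∃ C, ∀ a, |q a| ≤ C) : VI Γ := by
  obtain ⟨E, W, hE, hD, hwin⟩ := hW
  obtain ⟨S, hg, hS⟩ := Group.fg_iff.1 ‹Group.FG Γ›
  have hD0 : 0 ≤ D := (abs_nonneg _).trans (hq 1 1)
  have hun : ∀ k : ℕ, ∃ i : ℤ, ∃ e ∈ E, (k : ℝ) + 1 < |q ((Φ ^ i) e)| := by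
    intro k
    by_contra h
    have hM : ∀ (i : ℤ), ∀ e ∈ E, |q ((Φ ^ i) e)| ≤ k + 1 := fun i e he =>
      not_lt.1 fun h1 => h ⟨i, e, he, h1⟩
    refine hu ⟨2 * (k + 1) + 5 * D, fun a => abs_le.2 ⟨?_, one_side hD hwin q D _ hq hM a⟩⟩
    have := one_side hD hwin (fun x => -q x) D (k + 1) (fun a b => by
      have := abs_le.1 (hq a b)
      rw [abs_le]
      constructor <;> linarith [this.1, this.2]) (fun i e he => by
      rw [abs_neg]; exact hM i e he) a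
    linarith
  choose i e he hk using hun
  have hmax : ∀ k, ∃ x ∈ S ∪ E, ∀ y ∈ S ∪ E, |q ((Φ ^ i k) y)| ≤ |q ((Φ ^ i k) x)| := fun k =>
    Set.exists_max_image (S ∪ E) (fun y => |q ((Φ ^ i k) y)|) (hS.union hE) ⟨e k, Or.inr (he k)⟩
  choose x hx hm using hmax
  have hs : ∀ k : ℕ, (k : ℝ) + 1 ≤ |q ((Φ ^ i k) (x k))| := fun k =>
    (hk k).le.trans (hm k _ (Or.inr (he k)))
  have hs0 : ∀ k : ℕ, 0 < |q ((Φ ^ i k) (x k))| := fun k =>
    lt_of_lt_of_le (by positivity) (hs k)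
  obtain ⟨l, hl, y, hy⟩ := limit hg (hS.union hE)
    (fun k g => q ((Φ ^ i k) g) / |q ((Φ ^ i k) (x k))|) D hD0
    (fun k a b => by
      rw [← sub_div, ← sub_div, abs_div, abs_abs, map_mul]
      exact div_le_div₀ hD0 (hq _ _) (by positivity) (hs k))
    (fun k s hs' => by
      rw [abs_div, abs_abs, div_le_one (hs0 k)]
      exact hm k s (Or.inl hs'))
    (fun k => ⟨x k, hx k, by rw [abs_div, abs_abs, div_self (hs0 k).ne']⟩)
  exact vi_of_add l hl hy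

theorem qm_bdd {Γ : Type*} [Group Γ] (H : Subgroup Γ) [H.FiniteIndex] (q : Γ → ℝ) (D : ℝ)
    (hq : ∀ a b, |q (a * b) - q a - q b| ≤ D) (h : ∃ C, ∀ a ∈ H, |q a| ≤ C) :
    ∃ C, ∀ a, |q a| ≤ C := by
  obtain ⟨C, hC⟩ := h
  obtain ⟨M, hM⟩ := (Set.finite_range fun x : Γ ⧸ H => |q x.out|).bddAbove
  refine ⟨M + C + D, fun a => ?_⟩
  obtain ⟨k, hk⟩ := QuotientGroup.mk_out_eq_mul H a
  have e1 := abs_le.1 (hM ⟨(a : Γ ⧸ H), rfl⟩)
  have e2 := abs_le.1 (hC k k.2)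
  have e3 := abs_le.1 (hq a k)
  rw [hk] at e1
  rw [abs_le]
  constructor <;> linarith [e1.1, e1.2, e2.1, e2.2, e3.1, e3.2]

end Pool.Agent.P.MP_5c499f_an
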