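import Pool.Agent.P.MP_5c499f_an.HMain

/-! Representations with infinite image give homomorphisms to the integers. TASK ANOS3-REP. -/

set_option autoImplicit false

namespace Pool.Agent.P.MP_5c499f_an

open Pool.Agent.Lib.Gromov

theorem vi_of_solvable (Γ : Type*) [Group Γ] [Group.FG Γ] [Group.IsSolvable Γ] [Infinite Γ] : VI Γ := by
  by_contra hv
  have key : ∀ n, (derivedSeries Γ n).FiniteIndex := by
    intro n
    induction n with
    | zero => rw [derivedSeries_zero]; infer_instance
    | succ n ih =>
      set D := derivedSeries Γ n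
      have hfin : (Set.range (Abelianization.of : D →* Abelianization D)).Finite := by
        by_contra hinf
        obtain ⟨χ, hχ, -⟩ := exists_hom_int (Abelianization.of : D →* Abelianization D)
          (fun g h => mul_comm _ _) hinf
        exact hv ⟨D, ih, χ, hχ⟩
      have h1 : (commutator D).FiniteIndex := by
        rw [← Abelianization.ker_of]
        have : Finite (Abelianization.of : D →* Abelianization D).range := hfin.to_subtype
        infer_instance
      rw [derivedSeries_succ, ← D.map_subtype_commutator]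
      refine ⟨?_⟩
      rw [Subgroup.index_map_subtype]
      exact mul_ne_zero h1.1 ih.1
  obtain ⟨n, hn⟩ := Group.IsSolvable.solvable (G := Γ)
  have h := (key n).1
  rw [hn, Subgroup.index_bot] at h
  exact h Nat.card_eq_zero_of_infinite

theorem VI.of_surj {Γ Q : Type*} [Group Γ] [Group Q] (π : Γ →* Q) (hπ : Function.Surjective π)
    (h : VI Q) : VI Γ := by
  obtain ⟨H, hH, χ, k, hk⟩ := h
  obtain ⟨g, hg⟩ := π.subgroupComap_surjective_of_surjective H hπ k
  refine ⟨H.comap π, ⟨?_⟩, χ.comp (π.subgroupComap H), g, by simpa [hg] using hk⟩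
  rw [H.index_comap_of_surjective hπ]
  exact hH.1

theorem Win.vi_of_rep {Γ : Type*} [Group Γ] [Group.FG Γ] {Φ : MulAut Γ} (hW : Win Φ) {d : ℕ}
    (ρ : Γ →* GL (Fin d) ℂ) (hρ : (Set.range ρ).Infinite) : VI Γ := by
  obtain ⟨S, s2, s1⟩ := (Subgroup.fg_iff (⊤ : Subgroup Γ)).1 (Group.fg_def.1 inferInstance)
  obtain ⟨H, h1, h2, h3⟩ := hW.solv s1 s2 d
  obtain ⟨k, hk⟩ := h3 ((Units.coeHom _).comp ρ)
  set σ := ρ.comp H.subtype
  have hinf : (Set.range σ).Infinite := infinite_range_subgroup ρ H hρ
  have : Infinite σ.range := hinf.to_subtype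
  have p1 : Function.Surjective σ.rangeRestrict := σ.rangeRestrict_surjective
  have p2 : commutator σ.range = (commutator H).map σ.rangeRestrict := by
    rw [map_commutator_eq, MonoidHom.range_eq_top.2 p1, commutator_def]
  have hnil : Group.IsNilpotent (commutator σ.range) := by
    refine nilpotent_of_trace
      (((Units.coeHom _).comp σ.range.subtype).comp (commutator σ.range).subtype)
      ((Units.val_injective.comp σ.range.subtype_injective).comp
        (commutator σ.range).subtype_injective) ?_
    rintro ⟨x, hx⟩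
    rw [p2] at hx
    obtain ⟨a, ha, rfl⟩ := hx
    have ha' : (a : Γ) ∈ ⁅H, H⁆ := by
      rw [← H.map_subtype_commutator]
      exact Subgroup.mem_map_of_mem _ ha
    have hm : ((ρ a : GL (Fin d) ℂ) : Matrix (Fin d) (Fin d) ℂ) - 1 ∈
        aug ((Units.coeHom _).comp ρ) ⁅H, H⁆ := Submodule.subset_span ⟨a, ha', rfl⟩
    have hp := Submodule.pow_mem_pow _ hm k
    rw [hk, Submodule.mem_bot] at hp
    have ht := (Matrix.isNilpotent_trace_of_isNilpotent ⟨k, hp⟩).eq_zero
    rw [Matrix.trace_sub, Matrix.trace_one, Fintype.card_fin, sub_eq_zero] at ht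
    exact ht
  have : Group.IsSolvable σ.range :=
    Group.isSolvable_of_ker_le_range (commutator σ.range).subtype Abelianization.of (by
      rw [Abelianization.ker_of, Subgroup.range_subtype])
  exact VI.of_subgroup H (VI.of_surj σ.rangeRestrict p1 (vi_of_solvable _))

end Pool.Agent.P.MP_5c499f_an
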