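import Pool.Agent.P.MP_5c499f_an.KBasic

/-! Subsystems. -/

set_option autoImplicit false

namespace Pool.Agent.P.MP_5c499f_an

open scoped Matrix

namespace KSubX

lemma zpow_comm {Γ Δ : Type*} [Group Γ] [Group Δ] (ι : Δ →* Γ) {Φ : MulAut Γ} {Ψ : MulAut Δ}
    (hΨ : ∀ d, ι (Ψ d) = Φ (ι d)) (k : ℤ) (d : Δ) : (Φ ^ k) (ι d) = ι ((Ψ ^ k) d) := by
  have h' : ∀ d, ι (Ψ⁻¹ d) = Φ⁻¹ (ι d) := fun d => by
    apply Φ.injective
    rw [← hΨ]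
    simp
  induction k using Int.induction_on with
  | zero => simp
  | succ k ih => rw [add_comm, zpow_one_add, zpow_one_add, MulAut.mul_apply, MulAut.mul_apply, ih, hΨ]
  | pred k ih =>
    rw [sub_eq_neg_add, zpow_add, zpow_add, MulAut.mul_apply, MulAut.mul_apply, ih, zpow_neg_one,
      zpow_neg_one, h']

lemma add_one {Γ E : Type*} [Group Γ] [AddCommGroup E] {χ : Γ → E}
    (hχ : ∀ g g', χ (g * g') = χ g + χ g') : χ 1 = 0 := by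
  simpa using hχ 1 1

lemma add_inv {Γ E : Type*} [Group Γ] [AddCommGroup E] {χ : Γ → E}
    (hχ : ∀ g g', χ (g * g') = χ g + χ g') (g : Γ) : χ g⁻¹ = -χ g := by
  have := hχ g⁻¹ g
  rw [inv_mul_cancel, add_one hχ] at this
  exact eq_neg_of_add_eq_zero_left this.symm

end KSubX

variable {Y Γ : Type*} [Group Γ] [MulAction Γ Y] {G : Equiv.Perm Y} {Φ : MulAut Γ}
  {Cl : Y → Y → Prop} {c : ℕ} {K : Set Y} {o : Y}

theorem Sys.sub (h : Sys G Φ Cl c K o) {Δ : Type*} [Group Δ] [MulAction Δ Y] (ι : Δ →* Γ)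
    (hι : Function.Injective ι) (hact : ∀ (d : Δ) (y : Y), d • y = ι d • y) (Ψ : MulAut Δ)
    (hΨ : ∀ d, ι (Ψ d) = Φ (ι d)) {b : ℕ} (χ : Γ → Fin b → ℝ) (A : Matrix (Fin b) (Fin b) ℝ)
    (hχ : ∀ g g', χ (g * g') = χ g + χ g') (hA : ∀ g, χ (Φ g) = A *ᵥ χ g) (hu : NoUnit A)
    (h0 : ∀ d, χ (ι d) = 0)
    (hp : ∀ C : ℝ, ∃ F : Set Γ, F.Finite ∧ ∀ g, ‖χ g‖ ≤ C → ∃ f ∈ F, g * f⁻¹ ∈ ι.range) :
    ∃ K', Sys G Ψ Cl c K' o ∧ ∀ y ∈ K', Sat Γ K y := by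
  have hP := h.toPre
  obtain ⟨C₀, -, hC⟩ := hu.solve
  obtain ⟨R, hR⟩ := (((hP.fin 0).union (hP.fin 1)).image χ).isBounded.exists_norm_le
  have ci := KSubX.add_inv hχ
  have near : ∀ (x x' : Y) (g g' : Γ), g⁻¹ • x ∈ K → g'⁻¹ • x' ∈ K → Cl x x' →
      ‖χ g‖ ≤ ‖χ g'‖ + R := fun x x' g g' e e' hc => by
    have := hR _ ⟨g'⁻¹ * g, .inl ⟨_, e, _, e', by
      simpa [mul_smul] using hP.inv g'⁻¹ _ _ hc⟩, rfl⟩
    rw [hχ, ci] at this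
    have e2 : χ g = χ g' + (-χ g' + χ g) := by abel
    calc ‖χ g‖ = ‖χ g' + (-χ g' + χ g)‖ := by rw [← e2]
      _ ≤ ‖χ g'‖ + ‖-χ g' + χ g‖ := norm_add_le _ _
      _ ≤ _ := by linarith
  have step : ∀ (x : Y) (g g' : Γ), g⁻¹ • x ∈ K → g'⁻¹ • G x ∈ K →
      ‖χ g' - A *ᵥ χ g‖ ≤ R := fun x g g' e e' => by
    have := hR _ ⟨g'⁻¹ * Φ g, .inr ⟨_, e, _, e', by
      rw [zpow_one, mul_smul, ← hP.equiv, smul_inv_smul]
      exact hP.refl _⟩, rfl⟩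
    rw [hχ, ci, hA, neg_add_eq_sub, norm_sub_rev] at this
    exact this
  obtain ⟨F, f1, f2⟩ := hp (C₀ * R)
  set W : Set Y := {y | Sat Γ K y ∧ ∃ C, ∀ (k : ℤ) (g : Γ), g⁻¹ • (G ^ k) y ∈ K → ‖χ g‖ ≤ C}
    with hW
  set K' : Set Y := {y | y ∈ W ∧ ∃ f ∈ insert (1 : Γ) F, f⁻¹ • y ∈ K} with hK'
  have f3 : (insert (1 : Γ) F).Finite := f1.insert 1
  have w1 : ∀ (l : ℤ), ∀ y ∈ W, (G ^ l) y ∈ W := fun l y ⟨y1, C, y2⟩ =>
    ⟨hP.sat y1 l, C, fun k g e => y2 (k + l) g (by rwa [zp_apply] at e)⟩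
  have w2 : ∀ (d : Δ), ∀ y ∈ W, d • y ∈ W := fun d y ⟨y1, C, y2⟩ => by
    refine ⟨hact d y ▸ y1.smul _, C, fun k g e => ?_⟩
    rw [hact, hP.eqv, KSubX.zpow_comm ι hΨ] at e
    have := y2 k ((ι ((Ψ ^ k) d))⁻¹ * g) (by simpa [mul_smul] using e)
    rwa [hχ, ci, h0, neg_zero, zero_add] at this
  have w3 : ∀ y ∈ W, Sat Δ K' y := fun y hy => by
    obtain ⟨y1, C, y2⟩ := id hy
    choose p hp using fun k : ℤ => hP.sat y1 k
    have := hC (fun k => χ (p k)) R C (fun k => y2 k _ (hp k)) (fun k => step _ _ _ (hp k) (by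
      have := hp (k + 1)
      rwa [add_comm, ← zp_apply, zpow_one, add_comm] at this)) 0
    obtain ⟨f, hf, d, hd⟩ := f2 _ this
    refine ⟨d, w2 _ _ hy, f, .inr hf, ?_⟩
    rw [hact, map_inv, hd]
    simpa [mul_smul] using hp 0
  refine ⟨K', ⟨⟨hP.refl, hP.symm, fun d x y e => ?_, fun d a => ?_, hP.cs, hP.cu, fun i => ?_,
    fun i a ha => w3 _ (w1 i a ha.1), fun S hS => ?_⟩, fun k => ?_⟩, fun y hy => hy.1.1⟩
  · rw [hact, hact]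
    exact hP.inv _ _ _ e
  · rw [hact, hact, hP.equiv, hΨ]
  · refine (((f3.image2 (fun f e => f * e) (hP.fin i)).image2
      (fun e f => e * ((Φ ^ i) f)⁻¹) f3).preimage hι.injOn).subset ?_
    rintro β ⟨a, ⟨-, f, hf, ha⟩, b, ⟨-, f', hf', hb⟩, e⟩
    refine ⟨f' * (f'⁻¹ * ι β * (Φ ^ i) f), ⟨f', hf', _, ⟨_, ha, _, hb, ?_⟩, rfl⟩, f, hf, by
      simp [mul_assoc]⟩
    rw [mul_smul, ← hP.eqv, smul_inv_smul, mul_smul, ← hact]
    exact hP.inv _ _ _ e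
  · obtain ⟨T, hT⟩ := hP.br _ ((f3.image2 (fun f s => f⁻¹ * ι s) hS).image2 (fun e f => e * f) f3)
    refine ⟨T, ?_⟩
    rintro a ⟨⟨a1, Ca, a2⟩, f, hf, ha⟩ b ⟨hb0, f', hf', hb⟩ σ hσ
    obtain ⟨w, v1, v2, v3⟩ := hT _ ha _ hb (f⁻¹ * ι σ * f') ⟨_, ⟨f, hf, σ, hσ, rfl⟩, f', hf', rfl⟩
    have u2 : Fw G Cl T (f • w) a := by simpa using hP.fw_smul v2 f
    have u3 : Fw G⁻¹ Cl T (f • w) (σ • b) := by
      have := hP.rev.fw_smul v3 f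
      simpa [mul_smul, ← hact] using this
    refine ⟨f • w, w3 _ ⟨v1.smul f, ?_⟩, u2, u3⟩
    obtain ⟨b1, Cb, b2⟩ := w2 σ b hb0
    choose p hp using fun k : ℤ => hP.sat (v1.smul f) k
    obtain ⟨C', hC'⟩ := bdd_of_ends (x := fun k => χ (p k)) (T := T) (C := max Ca Cb + R)
      (fun k hk => by
        obtain ⟨g, hg⟩ := hP.sat a1 k
        linarith [near _ _ _ _ (hp k) hg (u2 k hk), a2 k g hg, le_max_left Ca Cb])
      (fun k hk => by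
        obtain ⟨g, hg⟩ := hP.sat b1 k
        linarith [near _ _ _ _ (hp k) hg (Fw_inv.1 u3 k hk), b2 k g hg, le_max_right Ca Cb])
    exact ⟨C' + R, fun k g hg => by linarith [near _ _ _ _ hg (hp k) (hP.refl _), hC' k]⟩
  · refine ⟨w1 k o ⟨.of_mem h.mem, R, fun j g hg => ?_⟩, 1, .inl rfl, by simpa using h.base k⟩
    simpa [KSubX.add_one hχ] using near _ _ g 1 hg (by simpa using h.base j) (hP.refl _)

theorem Sys.sub_index (h : Sys G Φ Cl c K o) {Δ : Type*} [Group Δ] [MulAction Δ Y] (ι : Δ →* Γ)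
    (hι : Function.Injective ι) (hact : ∀ (d : Δ) (y : Y), d • y = ι d • y) (Ψ : MulAut Δ)
    (hΨ : ∀ d, ι (Ψ d) = Φ (ι d)) [ι.range.FiniteIndex] :
    ∃ K', Sys G Ψ Cl c K' o ∧ ∀ y ∈ K', Sat Γ K y := by
  refine h.sub ι hι hact Ψ hΨ (b := 0) (fun _ => 0) 0 (fun _ _ => by simp) (fun _ => by simp)
    (fun _ _ _ _ => Subsingleton.elim _ _) (fun _ => rfl) fun _ =>
    ⟨_, Set.finite_range fun x : Γ ⧸ ι.range => x.out⁻¹, fun g _ =>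
      ⟨_, ⟨(g⁻¹ : Γ), rfl⟩, ?_⟩⟩
  simpa using QuotientGroup.eq.1 ((g⁻¹ : Γ) : Γ ⧸ ι.range).out_eq.symm

theorem Sys.sub_ker (h : Sys G Φ Cl c K o) {Δ : Type*} [Group Δ] [MulAction Δ Y] (ι : Δ →* Γ)
    (hι : Function.Injective ι) (hact : ∀ (d : Δ) (y : Y), d • y = ι d • y) (Ψ : MulAut Δ)
    (hΨ : ∀ d, ι (Ψ d) = Φ (ι d)) {b : ℕ} (q : Γ → Fin b → ℤ) (A : Matrix (Fin b) (Fin b) ℤ)
    (hq : ∀ g g', q (g * g') = q g + q g') (hA : ∀ g, q (Φ g) = A *ᵥ q g)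
    (hu : NoUnit (A.map Int.cast)) (h0 : ∀ g, g ∈ ι.range ↔ q g = 0) :
    ∃ K', Sys G Ψ Cl c K' o := by
  refine (h.sub ι hι hact Ψ hΨ (fun g i => (q g i : ℝ)) (A.map Int.cast) (fun g g' => ?_)
    (fun g => ?_) hu (fun d => ?_) fun C => ?_).imp fun _ e => e.1
  · ext i
    simp [hq]
  · ext i
    simp [hA, Matrix.mulVec, dotProduct]
  · ext i
    simp [(h0 _).1 ⟨d, rfl⟩]
  · have hf : (Set.pi Set.univ fun _ : Fin b => Set.Icc (-⌈C⌉) ⌈C⌉).Finite :=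
      Set.Finite.pi fun _ => Set.finite_Icc _ _
    refine ⟨_, hf.image (Function.invFun q), fun g hg => ⟨_, ⟨q g, fun i _ => ?_, rfl⟩, ?_⟩⟩
    · have e := (norm_le_pi_norm (fun i => (q g i : ℝ)) i).trans hg
      rw [Real.norm_eq_abs, abs_le] at e
      have e2 := Int.le_ceil C
      constructor
      · exact_mod_cast (show ((-⌈C⌉ : ℤ) : ℝ) ≤ q g i by push_cast; linarith [e.1])
      · exact_mod_cast (show (q g i : ℝ) ≤ (⌈C⌉ : ℤ) by linarith [e.2])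
    · rw [h0, hq, KSubX.add_inv hq, Function.invFun_eq (f := q) ⟨g, rfl⟩, add_neg_cancel]

theorem Grow.sub {κ : ℕ} (h : Grow Γ G Cl K o κ) {Δ : Type*} [Group Δ] [MulAction Δ Y]
    (ι : Δ →* Γ) (hι : Function.Injective ι) (hact : ∀ (d : Δ) (y : Y), d • y = ι d • y)
    {K' : Set Y} (hK : ∀ y ∈ K', Sat Γ K y) : Grow Δ G Cl K' o κ := by
  classical
  obtain ⟨C, hC⟩ := h
  refine ⟨C, fun n => ?_⟩
  obtain ⟨F, f1, f2⟩ := hC n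
  refine ⟨F.preimage ι hι.injOn, le_trans ?_ f1, fun d y ⟨e, he⟩ y2 y3 => ?_⟩
  · rw [Finset.card_preimage]
    exact Finset.card_filter_le _ _
  · rw [Finset.mem_preimage]
    refine f2 _ y ?_ y2 (hact d o ▸ y3)
    have := (hK _ he).smul (ι e)
    rwa [← hact, smul_inv_smul] at this

end Pool.Agent.P.MP_5c499f_an
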