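import Pool.Agent.P.MP_5c499f_an.KBasic

/-! The number of layers is bounded. TASK ANOS3-TERM. -/

set_option autoImplicit false

namespace Pool.Agent.P.MP_5c499f_an

variable {Γ : Type*} [Group Γ] {Φ : MulAut Γ} {c κ : ℕ}

theorem Br.term (h : Br Φ c κ) {r : ℕ} (hr : κ ^ (2 * c) < 2 ^ r) (M : ℕ → Subgroup Γ)
    (m1 : ∀ i, (M i).Normal) (m2 : ∀ i, M (i + 1) ≤ M i) (m3 : ∀ i, ∀ a ∈ M i, Φ a ∈ M i)
    (L : ℕ → Γ → ℂ) (ξ : ℕ → ℂ) (l1 : ∀ i < r, AddOn (M i) (L i))
    (l2 : ∀ i < r, ∀ a ∈ M (i + 1), L i a = 0)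
    (l3 : ∀ i < r, ∀ g, ∀ a ∈ M i, L i (g * a * g⁻¹) = L i a)
    (l4 : ∀ i < r, ∀ a ∈ M i, L i (Φ a) = ξ i * L i a) (l5 : ∀ i < r, 2 ≤ ‖ξ i‖ ^ c)
    (l6 : ∀ i < r, ∃ a ∈ M i, L i a ≠ 0) : False := by
  classical
  obtain ⟨B, C, -, hB⟩ := h
  choose! β b1 b2 using l6
  obtain ⟨T, hT⟩ := hB (insert 1 (β '' Set.Iio r)) (((Set.finite_Iio r).image β).insert 1)
  obtain ⟨l, hl⟩ := exp_beats hr (C * κ ^ (2 * T + 2 * c * r)) (κ ^ (2 * c))
  set m := 2 ^ l with hm
  have m0 : 0 < m := by positivity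
  have L1 : ∀ i < r, L i 1 = 0 := fun i hi => l2 i hi 1 (one_mem _)
  have di : ∀ j < r * m, j / m < r := fun j hj => (Nat.div_lt_iff_lt_mul m0).2 hj
  have pw : ∀ i < r, ∀ (n : ℕ) (g : Γ), ∀ a ∈ M i, (Φ ^ n) (g * a * g⁻¹) ∈ M i ∧
      L i ((Φ ^ n) (g * a * g⁻¹)) = ξ i ^ n * L i a := fun i hi n g a ha => by
    induction n with
    | zero => exact ⟨(m1 i).conj_mem a ha g, by simpa using l3 i hi g a ha⟩
    | succ n ih =>
      rw [pow_succ' Φ, MulAut.mul_apply]
      exact ⟨m3 i _ ih.1, by rw [l4 i hi _ ih.1, ih.2, pow_succ', mul_assoc]⟩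
  set n : ℕ → ℕ := fun j => T + c * (l + r) + 2 * c * (m - j % m) with hn
  set w : ℕ → ℝ := fun j => ‖ξ (j / m)‖ ^ n j * ‖L (j / m) (β (j / m))‖ with hw
  set Tl : ℕ → Set Γ := fun j => {x | x ∈ M (j / m) ∧ (j < r * m → ‖L (j / m) x‖ < 2 * w j)}
    with hTl
  have w0 : ∀ j < r * m, 0 < w j := fun j hj => by
    have x0 : 0 < ‖ξ (j / m)‖ := by
      refine (norm_nonneg _).lt_of_ne fun e => ?_
      have := l5 _ (di j hj)
      rw [← e] at this
      exact absurd (this.trans (pow_le_one₀ le_rfl zero_le_one)) (by norm_num)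
    exact mul_pos (pow_pos x0 _) (norm_pos_iff.2 (b2 _ (di j hj)))
  have key : ∀ j < r * m, ∀ t ∈ Tl (j + 1), t ∈ M (j / m) ∧ 2 * ‖L (j / m) t‖ < w j := by
    intro j hj t ht
    have j1 := Nat.mod_lt j m0
    by_cases e : j % m + 1 < m
    · have e0 : j + 1 = j % m + 1 + m * (j / m) := by have := Nat.mod_add_div j m; omega
      have e1 : (j + 1) / m = j / m := by
        rw [e0, Nat.add_mul_div_left _ _ m0, Nat.div_eq_of_lt e, zero_add]
      have e2 : (j + 1) % m = j % m + 1 := by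
        rw [e0, Nat.add_mul_mod_self_left, Nat.mod_eq_of_lt e]
      have e3 : j + 1 < r * m := (Nat.div_lt_iff_lt_mul m0).1 (e1 ▸ di j hj)
      have e4 : n j = n (j + 1) + c + c := by
        simp only [hn, e2]
        rw [show m - j % m = m - (j % m + 1) + 1 by omega]
        ring
      have e5 := ht.2 e3
      have e6 := w0 _ e3
      simp only [hw, e1] at e5 e6
      refine ⟨e1 ▸ ht.1, ?_⟩
      simp only [hw, e4, pow_add]
      have e7 := l5 _ (di j hj)
      have e8 : 4 ≤ ‖ξ (j / m)‖ ^ c * ‖ξ (j / m)‖ ^ c := by nlinarith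
      nlinarith [mul_le_mul_of_nonneg_left e8 e6.le]
    · have e0 : j + 1 = m * (j / m + 1) := by have := Nat.mod_add_div j m; rw [mul_add_one]; omega
      have e1 : (j + 1) / m = j / m + 1 := by rw [e0, Nat.mul_div_cancel_left _ m0]
      have e2 : t ∈ M (j / m + 1) := e1 ▸ ht.1
      exact ⟨m2 _ e2, by simpa [l2 _ (di j hj) t e2] using w0 j hj⟩
  have dig : ∀ j < r * m, ∀ σ ∈ ({1, β (j / m)} : Finset Γ), σ ∈ M (j / m) := fun j hj σ hσ => by
    rcases Finset.mem_insert.1 hσ with rfl | hσ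
    · exact one_mem _
    · exact Finset.mem_singleton.1 hσ ▸ b1 _ (di j hj)
  have val : ∀ j < r * m, ∀ g, ∀ σ ∈ ({1, β (j / m)} : Finset Γ), ∀ t ∈ Tl (j + 1),
      L (j / m) ((Φ ^ n j) (g * σ * g⁻¹) * t) = ξ (j / m) ^ n j * L (j / m) σ + L (j / m) t :=
    fun j hj g σ hσ t ht => by
      obtain ⟨p1, p2⟩ := pw _ (di j hj) (n j) g σ (dig j hj σ hσ)
      rw [l1 _ (di j hj) _ p1 _ (key j hj t ht).1, p2]
  have main := hT (l + r) (T + c * (l + r) + 2 * c * m) (r * m) n (fun j => {1, β (j / m)}) Tl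
    (by rw [pow_add, mul_comm]; exact Nat.mul_le_mul_left _ Nat.lt_two_pow_self.le)
    (fun j hj => ⟨Nat.le_add_right _ _,
      Nat.add_le_add_left (Nat.mul_le_mul_left _ (Nat.sub_le _ _)) _, fun σ hσ => by
        rcases Finset.mem_insert.1 hσ with rfl | hσ
        · exact .inl rfl
        · exact .inr ⟨_, di j hj, (Finset.mem_singleton.1 hσ).symm⟩⟩)
    ⟨one_mem _, fun e => absurd e (lt_irrefl _)⟩
    (fun j hj g _ σ hσ t ht => by
      refine ⟨mul_mem (pw _ (di j hj) _ g σ (dig j hj σ hσ)).1 (key j hj t ht).1, fun _ => ?_⟩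
      rw [val j hj g σ hσ t ht]
      have e1 := (key j hj t ht).2
      have e2 := w0 j hj
      have e3 : ‖ξ (j / m) ^ n j * L (j / m) σ‖ ≤ w j := by
        rcases Finset.mem_insert.1 hσ with rfl | hσ
        · simpa [L1 _ (di j hj)] using e2.le
        · rw [Finset.mem_singleton.1 hσ, norm_mul, norm_pow]
      linarith [norm_add_le (ξ (j / m) ^ n j * L (j / m) σ) (L (j / m) t)])
    (fun j hj g _ σ hσ σ' hσ' t ht t' ht' e => by
      have e1 := congrArg (L (j / m)) e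
      rw [val j hj g σ hσ t ht, val j hj g σ' hσ' t' ht'] at e1
      have e2 := (key j hj t ht).2
      have e3 := (key j hj t' ht').2
      have e4 : ‖ξ (j / m) ^ n j * L (j / m) (β (j / m))‖ = w j := by rw [norm_mul, norm_pow]
      simp only [Finset.mem_insert, Finset.mem_singleton] at hσ hσ'
      rcases hσ with rfl | rfl <;> rcases hσ' with rfl | rfl
      · rfl
      · rw [L1 _ (di j hj), mul_zero, zero_add, ← sub_eq_iff_eq_add] at e1
        linarith [norm_sub_le (L (j / m) t) (L (j / m) t'), congrArg norm e1]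
      · rw [L1 _ (di j hj), mul_zero, zero_add, ← eq_sub_iff_add_eq] at e1
        linarith [norm_sub_le (L (j / m) t') (L (j / m) t), congrArg norm e1]
      · rfl)
  have cd : ∀ j ∈ Finset.range (r * m), ({1, β (j / m)} : Finset Γ).card = 2 := fun j hj =>
    Finset.card_pair fun e => b2 _ (di j (Finset.mem_range.1 hj))
      (e ▸ L1 _ (di j (Finset.mem_range.1 hj)))
  rw [Finset.prod_congr rfl cd, Finset.prod_const, Finset.card_range, pow_mul] at main
  refine absurd (main.trans_eq ?_) (not_le.2 hl)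
  ring

end Pool.Agent.P.MP_5c499f_an
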