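import Pool.Agent.P.MP_5c499f_an.KBasic

/-! The top system. -/

set_option autoImplicit false

namespace Pool.Agent.P.MP_5c499f_an

variable {Y Γ : Type*} [MetricSpace Y] [Group Γ] [MulAction Γ Y] {G : Equiv.Perm Y}
  {Φ : MulAut Γ} {ρ : ℝ} {o : Y} (D : Gps G Φ ρ o)
include D

lemma Gps.zpow_reach (R : ℕ) (i : ℤ) : ∃ L, ∀ y, Reach ρ R o y → Reach ρ L o ((G ^ i) y) := by
  obtain ⟨n, rfl | rfl⟩ := i.eq_nat_or_neg
  · simpa using D.pow_reach R n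
  obtain ⟨R₀, h⟩ := D.cocpt
  obtain ⟨L, hL⟩ := D.pow_reach R₀ n
  obtain ⟨R', hR'⟩ := D.bdd ((D.proper (R + L)).preimage (f := (Φ ^ (n : ℤ) : MulAut Γ))
    (Φ ^ (n : ℤ)).injective.injOn)
  refine ⟨R' + R₀, fun y hy => ?_⟩
  obtain ⟨g, hg⟩ := h ((G ^ (-n : ℤ)) y)
  have := ((hL _ hg).smul D.iso ((Φ ^ (n : ℤ)) g)).symm
  rw [← zpow_natCast, ← equiv_zpow (act := (· • ·)) D.equiv, smul_inv_smul, zp_apply] at this
  exact (hR' g (hy.trans (by simpa using this))).trans (by simpa using hg.smul D.iso g)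

theorem Gps.pre : ∃ c R₀ : ℕ, (∀ a, ∃ g : Γ, Reach ρ R₀ o (g⁻¹ • a)) ∧
    ∀ R ≥ R₀, Pre G Φ (fun x y => dist x y ≤ ρ) c {y | Reach ρ R o y} := by
  obtain ⟨c, hc⟩ := D.cs
  obtain ⟨R₀, h⟩ := D.cocpt
  have cv : ∀ R ≥ R₀, ∀ a, Sat Γ {y | Reach ρ R o y} a := fun R hR a =>
    (h a).imp fun g hg => hg.mono D.pos.le hR
  refine ⟨c, R₀, h, fun R hR => ⟨fun x => by simpa using D.pos.le, fun x y e => dist_comm x y ▸ e,
    fun g x y e => by rwa [D.iso], D.equiv,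
    fun k x y z e e' => add_comm k c ▸ (hc k x z).1 (St.trans e e'),
    fun k x y z e e' => Fw_inv.2 fun j hj => (hc (-k) x z).2
      (Un.trans (Fw_inv.1 e) (Fw_inv.1 e')) j (by omega), fun i => ?_, fun i a _ => cv R hR _,
    fun S hS => ?_⟩⟩
  · obtain ⟨L, hL⟩ := D.zpow_reach R i
    exact (D.proper (R + 1 + L)).subset fun β ⟨a, ha, b, hb, e⟩ =>
      (Reach.trans hb (.single e)).trans ((hL a ha).smul D.iso β).symm
  · obtain ⟨R', hR'⟩ := D.bdd hS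
    obtain ⟨T, hT⟩ := D.br (R + R' + R)
    refine ⟨T, fun a ha b hb σ hσ => ?_⟩
    obtain ⟨w, w1, w2⟩ := hT _ _ (((Reach.smul D.iso hb σ).symm.trans (hR' σ hσ).symm).trans ha)
    exact ⟨w, cv R hR w, w1, Fw_inv.2 w2⟩

theorem Gps.sys' : ∃ (γ : Γ) (n : ℕ) (Cl : Y → Y → Prop) (c R : ℕ) (o' : Y), 0 < n ∧
    Sys (MulAction.toPerm γ * G ^ n) (MulAut.conj γ * Φ ^ n) Cl c {y | Reach ρ R o y} o' ∧
    ∀ x y, Cl x y → dist x y ≤ ρ := by
  obtain ⟨c, R₀, h0, h⟩ := D.pre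
  have P := h (R₀ + 1) (by omega)
  obtain ⟨T, hT⟩ := P.br _ (Set.finite_singleton 1)
  obtain ⟨n, hn⟩ : ∃ n : ℕ, n = T + c + 1 := ⟨_, rfl⟩
  obtain ⟨γ, hγ⟩ := h0 ((G ^ (n : ℤ)) o)
  have e1 := P.tw γ⁻¹ n
  have e2 := fun R hR => (h R hR).pow' γ⁻¹ (n := n) (by omega)
  set G' := MulAction.toPerm γ⁻¹ * G ^ n
  set Cl := fun x y : Y => dist x y ≤ ρ
  have e0 : ∀ x, G' x = γ⁻¹ • (G ^ (n : ℤ)) x := fun x => by simp [G']
  have a1 : ∀ k x y, Fw G⁻¹ Cl k x y → Fw G⁻¹ Cl (k - n) (G'⁻¹ x) (G'⁻¹ y) := fun k x y e => by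
    have := P.rev.fw_smul e γ
    rw [← G'.apply_symm_apply x, ← G'.apply_symm_apply y, e0, e0, smul_inv_smul, smul_inv_smul,
      Fw_shift'] at this
    exact this
  have a2 : ∀ z : {z // Fw G Cl T z o}, ∃ w : {z // Fw G Cl T z o}, Fw G⁻¹ Cl T w.1 (G' z) :=
    fun z => by
    obtain ⟨w, -, w1, w2⟩ := hT o ((Reach.refl ρ o).mono D.pos.le (Nat.zero_le _)) (G' z)
      (hγ.trans (.single (by rw [e0, D.iso]; exact z.2 n (by omega)))) 1 rfl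
    exact ⟨⟨w, w1⟩, by simpa using w2⟩
  choose nx hx using a2
  set z := fun m => (nx^[m] ⟨o, P.fw_refl _ _⟩)
  have a3 : ∀ j m : ℕ, Fw G⁻¹ Cl (T - n + c) ((G' ^ (-j : ℤ)) (z (m + j))) (z m) := fun j => by
    induction j with
    | zero => exact fun m => P.rev.fw_refl _ _
    | succ j ih =>
      intro m
      have b1 := a1 _ _ _ (ih (m + 1))
      have b2 := a1 _ _ _ (hx (z m))
      rw [← Function.iterate_succ_apply' nx,
        show G'⁻¹ (G' (z m)) = z m from G'.symm_apply_apply _] at b2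
      rw [← zpow_neg_one G', zp_apply, show (-1 + -j : ℤ) = -(j + 1 : ℕ) by omega,
        zpow_neg_one, add_right_comm] at b1
      exact P.cu _ _ _ _ (b1.mono (by omega)) b2
  obtain ⟨R, hR⟩ := D.conn ((G ^ (T : ℤ)) o)
  obtain ⟨L, hL⟩ := D.zpow_reach (R + 1) (-T)
  have a4 : ∀ (M : ℕ) (k : ℤ), k.natAbs ≤ M →
      Reach ρ (L + 1) o ((G' ^ k) ((G' ^ (-M : ℤ)) (z (2 * M)))) := fun M k hk => by
    have b1 := hL _ (hR.trans (.single ((z (M + k).toNat).2 T le_rfl)))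
    have b2 := a3 (M - k).toNat (M + k).toNat 0 (by omega)
    rw [show (M + k).toNat + (M - k).toNat = 2 * M by omega,
      show (-(M - k).toNat : ℤ) = k + -M by omega, ← zp_apply] at b2
    exact Reach.trans (by simpa [zp_apply] using b1) (.single b2)
  obtain ⟨K₀, k1, k2⟩ := D.cpt (L + 1)
  obtain ⟨y, -, φ, f1, f2⟩ := k1.tendsto_subseq fun M => k2 _ (a4 M 0 (by simp))
  obtain ⟨Cl', h', h''⟩ := e2 (R₀ + (L + 1 + 1)) (by omega)
  refine ⟨_, n, Cl', c, _, y, by omega, ⟨h', fun k => ?_⟩, h''⟩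
  obtain ⟨u, hu⟩ := e1 k
  obtain ⟨m, b1, b2⟩ := ((((D.cont (n * k)).tendsto y).comp f2).eventually
    (Metric.closedBall_mem_nhds _ D.pos) |>.and (Filter.eventually_ge_atTop k.natAbs)).exists
  refine ((a4 (φ m) k (b2.trans f1.le_apply)).trans (.single ?_)).mono D.pos.le (by omega)
  rw [hu, hu, D.iso, dist_comm]
  exact b1

theorem Gps.sys : ∃ (G' : Equiv.Perm Y) (Φ' : MulAut Γ) (Cl : Y → Y → Prop) (c : ℕ) (K : Set Y)
    (o' : Y), Sys G' Φ' Cl c K o' :=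
  D.sys'.elim fun _ ⟨_, _, _, _, _, _, h, _⟩ => ⟨_, _, _, _, _, _, h⟩

end Pool.Agent.P.MP_5c499f_an
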