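import Pool.Agent.P.MP_5c499f_an.KFg
import Pool.Agent.P.MP_5c499f_an.KGap
import Pool.Agent.P.MP_5c499f_an.KLay
import Pool.Agent.P.MP_5c499f_an.KNil
import Pool.Agent.P.MP_5c499f_an.KQm
import Pool.Agent.P.MP_5c499f_an.KRep
import Pool.Agent.P.MP_5c499f_an.KSub
import Pool.Agent.P.MP_5c499f_an.KTerm
import Pool.Agent.P.MP_5c499f_an.KTop

/-! The layer machine. -/

set_option autoImplicit false

namespace Pool.Agent.P.MP_5c499f_an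

open Pool.Agent.Lib.Gromov Filter

section

variable {Y Γ : Type*} [Group Γ] [MulAction Γ Y] {G : Equiv.Perm Y} {Φ : MulAut Γ}
  {Cl : Y → Y → Prop} {c : ℕ} {K : Set Y} {o : Y}

/-- A layer of the machine. -/
def Good (G : Equiv.Perm Y) (Φ : MulAut Γ) (Cl : Y → Y → Prop) (c : ℕ) (o : Y) (N : Subgroup Γ) :
    Prop :=
  ∃ _ : N.Characteristic, N.FG ∧ Conil N ∧ ∃ K, Sys G (MulAut.characteristic N Φ) Cl c K o

/-- An invariant eigencharacter. -/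
structure Eig (Φ : MulAut Γ) (Δ N Λ : Subgroup Γ) (L : Γ → ℂ) (ξ : ℂ) : Prop where
  ch : Δ.Characteristic
  ch' : Λ.Characteristic
  ind : Λ.FiniteIndex
  le : N ≤ Δ
  add : AddOn Δ L
  zero : ∀ a ∈ N, L a = 0
  conj : ∀ g ∈ Λ, ∀ a ∈ Δ, L (g * a * g⁻¹) = L a
  eig : ∀ a ∈ Δ, L (Φ a) = ξ * L a
  ne : ∃ a ∈ Δ, L a ≠ 0

lemma Eig.rev {Δ N Λ : Subgroup Γ} {L : Γ → ℂ} {ξ : ℂ} (h : Eig Φ Δ N Λ L ξ) :
    Eig Φ⁻¹ Δ N Λ L ξ⁻¹ := by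
  have := h.ch
  have e : ∀ a ∈ Δ, L a = ξ * L (Φ⁻¹ a) := fun a ha => by
    simpa using h.eig _ (char_mem Δ Φ⁻¹ ha)
  obtain ⟨b, b1, b2⟩ := h.ne
  have : ξ ≠ 0 := fun e' => b2 (by rw [e b b1, e', zero_mul])
  exact { h with eig := fun a ha => by rw [e a ha, inv_mul_cancel_left₀ this] }

theorem Sys.char (h : Sys G Φ Cl c K o) (Λ : Subgroup Γ) [Λ.Characteristic] [Λ.FiniteIndex] :
    ∃ K', Sys G (MulAut.characteristic Λ Φ) Cl c K' o ∧ ∀ y ∈ K', Sat Γ K y :=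
  have : Λ.subtype.range.FiniteIndex := by rwa [Subgroup.range_subtype]
  h.sub_index Λ.subtype Λ.subtype_injective (fun _ _ => rfl) _ fun _ => rfl

theorem Sys.step (h : Sys G Φ Cl c K o) [hΓ : Group.FG Γ] {N : Subgroup Γ}
    (hN : Good G Φ Cl c o N) (hv : VI N) : ∃ N' Δ Λ L ξ, Good G Φ Cl c o N' ∧ Δ ≤ N ∧
      Eig Φ Δ N' Λ L ξ ∧ (2 ≤ ‖ξ‖ ^ c ∨ 2 ≤ ‖ξ⁻¹‖ ^ c) := by
  classical
  obtain ⟨n1, n2, n3, K₁, n4⟩ := hN
  obtain ⟨Δ, d1, d2, d3, d4, d5⟩ := exists_ind N n2 hv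
  have : (Subgroup.inclusion d2).range.FiniteIndex := by rwa [Subgroup.inclusion_range]
  obtain ⟨K₂, hΔ, -⟩ := n4.sub_index (Subgroup.inclusion d2) (Subgroup.inclusion_injective d2)
    (fun _ _ => rfl) (MulAut.characteristic Δ Φ) fun _ => rfl
  obtain ⟨S, s1, s2⟩ := Group.fg_iff.1 hΓ
  obtain ⟨E, e1, e2⟩ := Subgroup.fg_iff Δ |>.1 d4
  obtain ⟨Λ₀, l1, l2⟩ := h.win.unip_char s2 s1 Δ e2 (e1 ▸ Subgroup.subset_closure)
    (e1 ▸ Subgroup.closure_mono fun x hx => Set.mem_iUnion.2 ⟨0, x, hx, by simp⟩)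
    fun l h1 h2 a ha => hΔ.win.no_char (fun x => l x) (fun x y => h1 _ x.2 _ y.2) norm_one
      (fun x => by rw [one_mul]; exact h2 _ x.2) ⟨a, ha⟩
  obtain ⟨Λ, l3, l4, l5⟩ := exists_char_le Λ₀
  obtain ⟨N', m1, m2, m3, b, q, A, b0, q1, q2, q3, q4⟩ := exists_layer Φ Δ Λ d4
    (exists_inv_char Δ Λ d4 (fun g hg => l2 g (l5 hg)) d5)
  have hu := hΔ.win.noUnit q A q1 q2 q3
  have : Group.FG Δ := (Group.fg_iff_subgroup_fg Δ).2 d4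
  obtain ⟨l, ξ, k1, k2, k3, a, k4⟩ := exists_eigen b0 q A q1 q2 q3
  refine ⟨N', Δ, Λ, fun x => if hx : x ∈ Δ then l ⟨x, hx⟩ else 0, ξ,
    ⟨m1, ?_, (n3.index d2).step m3, hΔ.sub_ker (Subgroup.inclusion m2)
      (Subgroup.inclusion_injective m2) (fun _ _ => rfl) (MulAut.characteristic N' Φ)
      (fun _ => rfl) q A q1 q3 hu fun g => by rw [Subgroup.inclusion_range]; exact q4 g⟩, d2,
    ⟨d1, l3, l4, m2, fun x hx y hy => ?_, fun x hx => ?_, fun g hg x hx => ?_, fun x hx => ?_,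
      a, a.2, by simpa using k4⟩, hΔ.gap l k1 k3 k4⟩
  · obtain ⟨F, f1, f2⟩ := (Subgroup.fg_iff _).1 (hΔ.ker_fg q A q1 q2 q3 hu (N'.subgroupOf Δ) q4)
    refine (Subgroup.fg_iff _).2 ⟨Δ.subtype '' F, ?_, f2.image _⟩
    rw [← MonoidHom.map_closure, f1, Subgroup.map_subgroupOf_eq_of_le m2]
  · simp only [dif_pos hx, dif_pos hy, dif_pos (mul_mem hx hy)]
    exact k1 ⟨x, hx⟩ ⟨y, hy⟩
  · simp only [dif_pos (m2 hx)]
    exact k2 _ ((q4 _).1 hx)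
  · have c1 : g * x * g⁻¹ * x⁻¹ ∈ N' :=
      m3 (Subgroup.commutator_comm Λ Δ ▸ Subgroup.commutator_mem_commutator hg hx)
    have c2 : g * x * g⁻¹ ∈ Δ := Subgroup.Normal.conj_mem inferInstance x hx g
    simp only [dif_pos hx, dif_pos c2]
    have := k1 ⟨_, m2 c1⟩ ⟨x, hx⟩
    rw [k2 ⟨_, m2 c1⟩ ((q4 _).1 c1), zero_add] at this
    simpa using this
  · simp only [dif_pos hx, dif_pos (char_mem Δ Φ hx)]
    exact k3 ⟨x, hx⟩

theorem Sys.no_seq (h : Sys G Φ Cl c K o) {Δ N Λ : ℕ → Subgroup Γ} {L : ℕ → Γ → ℂ} {ξ : ℕ → ℂ}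
    (h1 : ∀ i, Eig Φ (Δ i) (N i) (Λ i) (L i) (ξ i)) (h2 : ∀ i, Δ (i + 1) ≤ N i) :
    ¬∃ᶠ i in atTop, 2 ≤ ‖ξ i‖ ^ c := fun h3 => by
  obtain ⟨φ, f1, f2⟩ := extraction_of_frequently_atTop h3
  have an : Antitone Δ := antitone_nat_of_succ_le fun i => (h2 i).trans (h1 i).le
  obtain ⟨κ, hκ⟩ := h.grow
  set r := κ ^ (2 * c)
  have := fun i => (h1 i).ch
  have := fun i => (h1 i).ch'
  set H := ⨅ i : Fin r, Λ (φ i)
  have : H.FiniteIndex := Subgroup.finiteIndex_iInf fun i => (h1 _).ind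
  obtain ⟨K', k1, k2⟩ := h.char H
  refine (k1.branch (hκ.sub H.subtype H.subtype_injective (fun _ _ => rfl) k2)).term
    Nat.lt_two_pow_self (fun i => (Δ (φ i)).subgroupOf H) (fun _ => inferInstance)
    (fun i => Subgroup.comap_mono (an (f1.monotone i.le_succ)))
    (fun i a ha => char_mem (Δ (φ i)) Φ ha) (fun i x => L (φ i) x) (fun i => ξ (φ i))
    (fun i _ a ha b hb => (h1 _).add _ ha _ hb)
    (fun i _ a ha => (h1 _).zero _ (h2 _ (an (f1 i.lt_succ_self) ha)))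
    (fun i hi g a ha => (h1 _).conj _ (Subgroup.mem_iInf.1 g.2 ⟨i, hi⟩) _ ha)
    (fun i _ a ha => (h1 _).eig _ ha) (fun i _ => f2 i) fun i _ => ?_
  obtain ⟨a, a1, a2, a3⟩ := (h1 (φ i)).add.ne_zero H (h1 _).ne
  exact ⟨⟨a, a2⟩, a1, a3⟩

theorem Sys.machine (h : Sys G Φ Cl c K o) [hΓ : Group.FG Γ] :
    ∃ N, Good G Φ Cl c o N ∧ ¬VI N := by
  by_contra! hv
  choose nx Δ Λ L ξ h1 h2 h3 h4 using fun N : {N // Good G Φ Cl c o N} => h.step N.2 (hv _ N.2)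
  set s : ℕ → {N // Good G Φ Cl c o N} := fun n => (fun N => ⟨nx N, h1 N⟩)^[n]
    ⟨⊤, inferInstance, hΓ.out, ⟨⊤, inferInstance, 0, le_rfl⟩, (h.char ⊤).imp fun _ e => e.1⟩
  have e : ∀ i, Δ (s (i + 1)) ≤ nx (s i) := fun i => (h2 _).trans (by
    simp only [s, Function.iterate_succ_apply', le_refl])
  rcases frequently_or_distrib.1 (Frequently.of_forall (f := atTop) fun i => h4 (s i)) with k | k
  · exact h.no_seq (fun i => h3 (s i)) e k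
  · exact h.rev.no_seq (fun i => (h3 (s i)).rev) e k

theorem Sys.rigid (h : Sys G Φ Cl c K o) [Group.FG Γ] (hv : ¬VI Γ) : Rigid Γ := by
  refine ⟨fun d ρ => by_contra fun e => hv (h.win.vi_of_rep ρ e), fun H _ q D hq => ?_⟩
  obtain ⟨Λ, l1, l2, l3⟩ := exists_char_le H
  obtain ⟨K', k1, -⟩ := h.char Λ
  refine qm_bdd (Λ.subgroupOf H) q D hq (by_contra fun e => hv (VI.of_subgroup Λ
    (k1.win.vi_of_qm (fun x => q (Subgroup.inclusion l3 x)) D (fun a b => ?_) fun ⟨C, hC⟩ =>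
      e ⟨C, fun a ha => hC ⟨a, ha⟩⟩)))
  rw [map_mul]
  exact hq _ _

end

theorem Gps.rigid {Y Γ : Type*} [MetricSpace Y] [Group Γ] [MulAction Γ Y] {G : Equiv.Perm Y}
    {Φ : MulAut Γ} {ρ : ℝ} {o : Y} (D : Gps G Φ ρ o) :
    ∃ (N : Subgroup Γ) (_ : N.Characteristic), N.FG ∧ Conil N ∧ Rigid N := by
  obtain ⟨G', Φ', Cl, c, K, o', h⟩ := D.sys
  obtain ⟨S, s1, s2⟩ := D.fg
  have : Group.FG Γ := Group.fg_iff.2 ⟨S, s2, s1⟩
  obtain ⟨N, ⟨n1, n2, n3, K', n4⟩, n5⟩ := h.machine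
  have : Group.FG N := (Group.fg_iff_subgroup_fg N).2 n2
  exact ⟨N, n1, n2, n3, n4.rigid n5⟩

open Bundle
open scoped Manifold ContDiff

variable {E : Type*} [NormedAddCommGroup E] [NormedSpace ℝ E] [FiniteDimensional ℝ E]
  {M : Type*} [TopologicalSpace M] [T2Space M] [CompactSpace M]
  [ChartedSpace E M] [IsManifold 𝓘(ℝ, E) ∞ M]
  [RiemannianBundle fun x : M => TangentSpace 𝓘(ℝ, E) x]
  [IsContinuousRiemannianBundle E fun x : M => TangentSpace 𝓘(ℝ, E) x]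
  (f : Diffeomorph 𝓘(ℝ, E) 𝓘(ℝ, E) M M 1) (hf : IsAnosov E f)
  {Y Γ : Type*} [MetricSpace Y] [ConnectedSpace Y] [Group Γ] [MulAction Γ Y] [IsIsometricSMul Γ Y]
  {p : Y → M} (hp : IsQuotientCoveringMap p Γ) (F : Y ≃ₜ Y) (hF : ∀ y, p (F y) = f (p y))
include hf hp hF

theorem gps_rigid (ex : ∀ x y, ∃ w, Asym F w x ∧ Asym F.symm w y) :
    ∃ (N : Subgroup Γ) (_ : N.Characteristic), N.FG ∧ Group.IsVirtuallyNilpotent (Γ ⧸ N) ∧
      Rigid N := by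
  obtain ⟨Φ, r, o, D, -⟩ := gps_of_anosov f hf hp F hF ex
  obtain ⟨N, n1, n2, n3, n4⟩ := D.rigid
  exact ⟨N, n1, n2, n3.quot, n4⟩

theorem gps_tame (gps : ∀ x y, ∃! w, Asym F w x ∧ Asym F.symm w y)
    (H : ∀ (N : Subgroup Γ) [N.Characteristic], N.FG → Group.IsVirtuallyNilpotent (Γ ⧸ N) →
      Rigid N → Finite N) : InfranilConj f := by
  obtain ⟨Φ, r, o, D, gl⟩ := gps_of_anosov f hf hp F hF fun x y => (gps x y).exists
  obtain ⟨N, n1, n2, n3, n4⟩ := D.rigid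
  have := H N n2 n3.quot n4
  obtain ⟨S, s1, s2⟩ := D.fg
  obtain ⟨d, hd⟩ := wgd_of_virt n3.virt s1 s2
  obtain ⟨Λ, c1, c2, c3, c4, c5⟩ := exists_char s1 s2 hd
  obtain ⟨L, c, hL⟩ := exists_layers c3 c5
  obtain ⟨m, μ, lv, β, A', α, B, Fa⟩ := exists_aff Φ Λ hL
  exact D.final Fa (gl fun x y _ _ => (gps x y).unique) hp hF

end Pool.Agent.P.MP_5c499f_an
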