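import Pool.Agent.P.MP_5c499f_an.KBasic

/-! Paths in regions of a Cayley graph. -/

set_option autoImplicit false

namespace Pool.Agent.P.MP_5c499f_an

variable {Γ : Type*} [Group Γ] {S : Set Γ} {Ω Ω' : Γ → Prop} {a b : Γ}

lemma Conn.trans {d : Γ} (h : Conn S Ω a b) (h' : Conn S Ω b d) : Conn S Ω a d :=
  Relation.ReflTransGen.trans h h'

lemma Conn.mul (h : Conn S Ω a b) (g : Γ) (hΩ : ∀ x, Ω x → Ω' (g * x)) :
    Conn S Ω' (g * a) (g * b) := by
  induction h with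
  | refl => exact .refl
  | tail _ e ih => exact .tail ih ⟨hΩ _ e.1, hΩ _ e.2.1, by simpa [mul_assoc] using e.2.2⟩

lemma Conn.mono (h : Conn S Ω a b) (hΩ : ∀ x, Ω x → Ω' x) : Conn S Ω' a b := by
  simpa using h.mul (Ω' := Ω') 1 (by simpa)

lemma Conn.symm (hS : ∀ s ∈ S, s⁻¹ ∈ S) (h : Conn S Ω a b) : Conn S Ω b a := by
  induction h with
  | refl => exact .refl
  | tail _ e ih => exact .head ⟨e.2.1, e.1, by simpa using hS _ e.2.2⟩ ih

lemma Conn.bound (h : Conn S Ω a b) (u : Γ → ℝ) :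
    ∃ n : ℕ, Conn S (fun x => Ω x ∧ u x ≤ n) a b := by
  induction h with
  | refl => exact ⟨0, .refl⟩
  | @tail x y _ e ih =>
    obtain ⟨n, hn⟩ := ih
    obtain ⟨m, hm⟩ := exists_nat_ge (max (n : ℝ) (max (u x) (u y)))
    simp only [max_le_iff] at hm
    exact ⟨m, .tail (Conn.mono hn fun _ e => ⟨e.1, e.2.trans hm.1⟩)
      ⟨⟨e.1, hm.2.1⟩, ⟨e.2.1, hm.2.2⟩, e.2.2⟩⟩

lemma Conn.of_gen (hS : ∀ s ∈ S, s⁻¹ ∈ S) (hg : Subgroup.closure S = ⊤) (g : Γ) :
    Conn S (fun _ => True) 1 g := by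
  induction (hg ▸ Subgroup.mem_top g : g ∈ Subgroup.closure S) using Subgroup.closure_induction with
  | mem x hx => exact .single ⟨trivial, trivial, by simpa⟩
  | one => exact .refl
  | mul x y _ _ h1 h2 => exact h1.trans (by simpa using h2.mul x fun _ _ => trivial)
  | inv x _ h => exact Conn.symm hS (by simpa using h.mul x⁻¹ fun _ _ => trivial)

end Pool.Agent.P.MP_5c499f_an
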