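import Pool.Agent.P.MP_5c499f_an.LGain

/-! Good times and the final count. -/

set_option autoImplicit false

namespace Pool.Agent.P.MP_5c499f_an

open Classical in
theorem pliss (φ : ℕ → ℝ) {L : ℝ} (hL : 1 ≤ L) (h0 : ∀ n, 0 ≤ φ n) (h : ∀ n, φ (n + 1) ≤ L * φ n)
    (H : ℕ) : φ H ≤ L ^ ((Finset.range H).filter fun n => ∀ m, n ≤ m → m ≤ H → φ n ≤ φ m).card *
      φ 0 := by
  set p := fun n => ∀ m, n ≤ m → m ≤ H → φ n ≤ φ m with hp
  have key : ∀ k n, n + k = H → ∀ m, n ≤ m → m ≤ H →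
      φ H ≤ L ^ ((Finset.Ico n H).filter p).card * φ m := fun k => by
    induction k with
    | zero =>
      intro n hn m h1 h2
      obtain rfl : m = H := by omega
      exact le_mul_of_one_le_left (h0 _) (one_le_pow₀ hL)
    | succ k ih =>
      intro n hn m h1 h2
      have mono : ∀ m, n + 1 ≤ m → m ≤ H → φ H ≤ L ^ ((Finset.Ico n H).filter p).card * φ m :=
        fun m h1 h2 => (ih (n + 1) (by omega) m h1 h2).trans (mul_le_mul_of_nonneg_right
          (pow_le_pow_right₀ hL (Finset.card_le_card (Finset.filter_subset_filter _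
            (Finset.Ico_subset_Ico_left n.le_succ)))) (h0 _))
      rcases h1.eq_or_lt with rfl | h1
      · by_cases e : p n
        · rw [← Finset.insert_Ico_add_one_left_eq_Ico (show n < H by omega), Finset.filter_insert,
            if_pos e, Finset.card_insert_of_notMem (by simp), pow_succ, mul_assoc]
          exact (ih (n + 1) (by omega) _ le_rfl (by omega)).trans
            (mul_le_mul_of_nonneg_left (h n) (by positivity))
        · simp only [hp, not_forall, not_le] at e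
          obtain ⟨m, m1, m2, m3⟩ := e
          refine (mono m (m1.lt_of_ne ?_) m2).trans
            (mul_le_mul_of_nonneg_left m3.le (by positivity))
          rintro rfl
          exact lt_irrefl _ m3
      · exact mono m h1 h2
  rw [Finset.range_eq_Ico]
  exact key H 0 (zero_add _) 0 le_rfl H.zero_le

namespace LCountX

lemma lin_le (a b : ℕ) : ∀ᶠ l in Filter.atTop, a + b * l ≤ 2 ^ l := by
  have h : ∀ l, 4 ≤ l → l * l ≤ 2 ^ l := fun l hl => by
    induction l, hl using Nat.le_induction with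
    | base => norm_num
    | succ l hl ih => rw [pow_succ]; nlinarith
  filter_upwards [Filter.eventually_ge_atTop (a + b + 4)] with l hl
  nlinarith [h l (by omega)]

lemma exists_dec (Q : Finset ℕ) : ∃ n : ℕ → ℕ, (∀ i < Q.card, n i ∈ Q) ∧
    ∀ i, i + 1 < Q.card → n (i + 1) < n i := by
  refine ⟨fun i => if h : i < Q.card then Q.orderEmbOfFin rfl ⟨Q.card - 1 - i, by omega⟩ else 0,
    fun i hi => ?_, fun i hi => ?_⟩
  · simp [hi]
  · simp only [hi, show i < Q.card by omega, dif_pos]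
    exact (Q.orderEmbOfFin rfl).strictMono (Fin.mk_lt_mk.2 (by omega))

lemma exists_class (Q : Finset ℕ) {k : ℕ} (hk : 0 < k) : ∃ (J : ℕ) (n : ℕ → ℕ), Q.card ≤ k * J ∧
    J ≤ Q.card ∧ (∀ i < J, n i ∈ Q) ∧ ∀ i, i + 1 < J → n (i + 1) + k ≤ n i := by
  obtain ⟨ρ, -, hρ⟩ := (Finset.range k).exists_max_image
    (fun ρ => (Q.filter fun n => n % k = ρ).card) ⟨0, by simpa⟩
  obtain ⟨n, n1, n2⟩ := exists_dec (Q.filter fun n => n % k = ρ)
  refine ⟨_, n, ?_, Finset.card_filter_le _ _, fun i hi => (Finset.mem_filter.1 (n1 i hi)).1,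
    fun i hi => ?_⟩
  · rw [Finset.card_eq_sum_card_fiberwise (f := (· % k)) (t := Finset.range k)
      fun n _ => by simpa using Nat.mod_lt n hk]
    simpa using Finset.sum_le_card_nsmul _ _ _ hρ
  · have := Nat.le_of_dvd (by have := n2 i hi; omega) ((Nat.modEq_iff_dvd' (n2 i hi).le).1
      ((Finset.mem_filter.1 (n1 _ hi)).2.trans (Finset.mem_filter.1 (n1 i (by omega))).2.symm))
    have := n2 i hi
    omega

variable {Γ : Type*} [Group Γ] {Φ : MulAut Γ} {D : Γ → ℝ} {B : Finset Γ}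

lemma sg_nonneg (hD : Len D) (n : ℕ) : 0 ≤ sg D Φ B n :=
  Finset.sum_nonneg fun _ _ => Finset.sum_nonneg fun _ _ => hD.nonneg _

lemma sg_step (hD : Len D) (hB : Subgroup.closure (B : Set Γ) = ⊤) :
    ∃ e : ℕ, 0 < e ∧ ∀ n, sg D Φ B (n + 1) ≤ 2 ^ e * sg D Φ B n := by
  choose L hL using fun b => exists_word hB (Φ b)
  refine ⟨1 + ∑ b ∈ B, L b, by omega, fun n => ?_⟩
  have h1 : ∑ b ∈ B, D ((Φ ^ n) b) ≤ sg D Φ B n := Finset.single_le_sum
    (f := fun i => ∑ b ∈ B, D ((Φ ^ i) b))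
    (fun _ _ => Finset.sum_nonneg fun _ _ => hD.nonneg _) (Finset.self_mem_range_succ n)
  have h2 : ∑ b ∈ B, D ((Φ ^ (n + 1)) b) ≤ (∑ b ∈ B, L b : ℕ) * sg D Φ B n := by
    rw [Nat.cast_sum, Finset.sum_mul]
    exact Finset.sum_le_sum fun b _ => (hL b (fun g => D ((Φ ^ n) g)) ⟨by simp [hD.one],
      fun g => by simp [hD.inv], fun g k => by simpa using hD.mul _ _⟩).trans
      (mul_le_mul_of_nonneg_left h1 (by positivity))
  have h3 : ((1 + ∑ b ∈ B, L b : ℕ) : ℝ) ≤ 2 ^ (1 + ∑ b ∈ B, L b) := by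
    exact_mod_cast Nat.lt_two_pow_self.le
  rw [sg, Finset.sum_range_succ, ← sg]
  have := mul_le_mul_of_nonneg_right h3 (sg_nonneg (Φ := Φ) (B := B) hD n)
  rw [Nat.cast_add, Nat.cast_one] at this
  linarith

lemma many {a : ℕ → ℝ} {θ : ℝ} {c e : ℕ} (T : ℕ) (h0 : ∀ n, 0 ≤ a n)
    (h1 : ∀ n, a (n + 1) ≤ 2 ^ e * a n) (t1 : 1 < θ) (t2 : θ ^ (2 * (c + 1)) = 2) :
    ∃ C : ℕ, ∀ m, 2 ^ m ≤ 6 * a (T + c * m) → ∃ Q : Finset ℕ, m ≤ C + 2 * e * Q.card ∧
      ∀ n ∈ Q, n < T + c * m ∧ ∀ k, n ≤ k → k ≤ T + c * m → θ ^ (k - n) * a n ≤ a k := by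
  obtain ⟨C, hC⟩ := pow_unbounded_of_one_lt ((6 * θ ^ T * a 0) ^ 2) (one_lt_two (α := ℝ))
  refine ⟨C, fun m hm => ?_⟩
  have t0 : 0 < θ := by linarith
  obtain ⟨Q, this, hQ⟩ : ∃ Q : Finset ℕ, a (T + c * m) / θ ^ (T + c * m) ≤
      (2 ^ e) ^ Q.card * (a 0 / θ ^ 0) ∧ ∀ n ∈ Q, n ∈ Finset.range (T + c * m) ∧
        ∀ k, n ≤ k → k ≤ T + c * m → a n / θ ^ n ≤ a k / θ ^ k := by
    classical
    exact ⟨_, pliss (fun n => a n / θ ^ n) (L := 2 ^ e) (one_le_pow₀ one_le_two)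
      (fun n => div_nonneg (h0 n) (by positivity)) (fun n => by
        rw [← mul_div_assoc]
        exact div_le_div₀ (mul_nonneg (by positivity) (h0 n)) (h1 n) (by positivity)
          (pow_le_pow_right₀ t1.le n.le_succ)) (T + c * m), fun n hn => by simpa using hn⟩
  rw [div_le_iff₀ (by positivity), pow_zero, div_one, ← pow_mul, pow_add] at this
  refine ⟨Q, ?_, fun n hn => ⟨Finset.mem_range.1 (hQ n hn).1, fun k k1 k2 => ?_⟩⟩
  swap
  · have := (hQ n hn).2 k k1 k2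
    rwa [div_le_div_iff₀ (by positivity) (by positivity), ← Nat.sub_add_cancel k1, pow_add,
      ← mul_assoc, mul_le_mul_iff_left₀ (by positivity), Nat.sub_add_cancel k1, mul_comm] at this
  set g := Q.card
  have e1 : (θ ^ (c * m)) ^ 2 ≤ 2 ^ m := by
    rw [← t2, ← pow_mul, ← pow_mul]
    exact pow_le_pow_right₀ t1.le (by nlinarith)
  have e2 : ((2 : ℝ) ^ m) ^ 2 ≤ (6 * θ ^ T * a 0) ^ 2 * (2 ^ (e * g)) ^ 2 * (θ ^ (c * m)) ^ 2 := by
    rw [← mul_pow, ← mul_pow]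
    exact pow_le_pow_left₀ (by positivity) (by linarith) _
  have e3 : (2 : ℝ) ^ m * 2 ^ m ≤ 2 ^ (C + 2 * e * g) * 2 ^ m := by
    rw [← sq, pow_add, show 2 * e * g = e * g * 2 by ring, pow_mul]
    exact e2.trans (by gcongr)
  exact (pow_le_pow_iff_right₀ one_lt_two).1 (le_of_mul_le_mul_right e3 (by positivity))

lemma arith {e κ c s J C' T₀ T m l C₁ g n₀ : ℕ}
    (f1 : 16 * e * (κ + 1) * (c + 1) ^ 2 * s * J ≤ C' + κ * (T₀ + c * m + T + c * l))
    (h : m ≤ C₁ + 2 * e * g) (q1 : g ≤ 2 * (c + 1) * s * J + (n₀ + T + c * l) + n₀)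
    (l1 : 8 * e * (c + 1) * l ≤ m) (f2 : l ≤ m)
    (m3 : 4 * (C₁ + 2 * e * (2 * n₀ + T)) + (C' + κ * (T₀ + T)) < m) : False := by
  have f3 : 4 * m ≤ 4 * (C₁ + 2 * e * (2 * n₀ + T)) + 16 * e * (c + 1) * s * J + m := by
    have x1 := Nat.mul_le_mul_left (2 * e) q1
    have x2 : 8 * e * c * l ≤ 8 * e * (c + 1) * l := by gcongr; omega
    linarith
  have f4 : (κ + 1) * (c + 1) * (16 * e * (c + 1) * s * J) ≤
      (κ + 1) * (c + 1) * (C' + κ * (T₀ + T) + 2 * m) := by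
    have x2 : κ * c * l ≤ κ * c * m := Nat.mul_le_mul_left _ f2
    have x3 : κ * c * m ≤ (κ + 1) * (c + 1) * m := by gcongr <;> omega
    have x4 : C' + κ * (T₀ + T) ≤ (κ + 1) * (c + 1) * (C' + κ * (T₀ + T)) :=
      Nat.le_mul_of_pos_left _ (by positivity)
    linarith
  have := Nat.le_of_mul_le_mul_left f4 (by positivity)
  omega

end LCountX

open LCountX in
theorem Br.count {Γ : Type*} [Group Γ] [Group.FG Γ] {Φ : MulAut Γ} {c κ : ℕ} (h : Br Φ c κ)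
    {D : Γ → ℝ} (hD : Len D) {B₀ : Finset Γ} {T₀ : ℕ}
    (hg : ∃ᶠ m in Filter.atTop, 2 ^ m ≤ 6 * sg D Φ B₀ (T₀ + c * m))
    (hp : ∀ (B : Finset Γ) (θ : ℝ), 1 < θ → B₀ ⊆ B → Subgroup.closure (B : Set Γ) = ⊤ →
      ∃ C n₀ : ℕ, ∀ j : ℕ, ∃ S : Set Γ, S.Finite ∧ ∀ n H : ℕ, n₀ ≤ n → n + n₀ ≤ H →
        (∀ m, n ≤ m → m ≤ H → θ ^ (m - n) * sg D Φ B n ≤ sg D Φ B m) →
        ∃ A : Finset Γ, (∀ σ ∈ A, σ ∈ S) ∧ A.card = 2 ^ j ∧
          (∀ σ ∈ A, D ((Φ ^ n) σ) ≤ C * j * sg D Φ B n) ∧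
          ∀ σ ∈ A, ∀ σ' ∈ A, σ ≠ σ' → 4 * sg D Φ B n < D ((Φ ^ n) (σ⁻¹ * σ'))) : False := by
  classical
  obtain ⟨B₁, C', b1, hB⟩ := h
  obtain ⟨B₂, b2⟩ : (⊤ : Subgroup Γ).FG := Group.fg_def.1 inferInstance
  obtain ⟨B, s0, s1, s2⟩ : ∃ B : Finset Γ, B₀ ⊆ B ∧ B₁ ⊆ B ∧ Subgroup.closure (B : Set Γ) = ⊤ :=
    ⟨B₀ ∪ b1.toFinset ∪ B₂, fun x hx => by simp [hx], fun x hx => by simp [hx],
      top_unique (b2 ▸ Subgroup.closure_mono fun x hx => by simp [Finset.mem_coe.1 hx])⟩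
  obtain ⟨θ, t1, t2⟩ : ∃ θ : ℝ, 1 < θ ∧ θ ^ (2 * (c + 1)) = 2 :=
    ⟨2 ^ ((2 * (c + 1) : ℕ) : ℝ)⁻¹, Real.one_lt_rpow one_lt_two (by positivity),
      Real.rpow_inv_natCast_pow zero_le_two (by omega)⟩
  obtain ⟨e, e0, he⟩ := sg_step (Φ := Φ) hD s2
  have a0 := sg_nonneg (Φ := Φ) (B := B) hD
  obtain ⟨C₁, hC₁⟩ := many T₀ a0 he t1 t2
  obtain ⟨C, n₀, hp⟩ := hp B θ t1 s0 s2
  obtain ⟨s, hs, s3⟩ := ((lin_le 4 (2 * C * (16 * e * (κ + 1) * (c + 1) ^ 2))).and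
    (Filter.eventually_gt_atTop 0)).exists
  set j := 16 * e * (κ + 1) * (c + 1) ^ 2 * s with hj
  obtain ⟨S, hS, hp⟩ := hp j
  obtain ⟨T, hT⟩ := hB S hS
  have E0 : 0 < 8 * e * (c + 1) := by positivity
  obtain ⟨m, m1, m2, m3⟩ := (hg.and_eventually (((Nat.tendsto_div_const_atTop E0.ne').eventually
    (lin_le (T₀ + c * (8 * e * (c + 1))) (c * (8 * e * (c + 1))))).and (Filter.eventually_gt_atTop
      (4 * (C₁ + 2 * e * (2 * n₀ + T)) + (C' + κ * (T₀ + T)))))).exists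
  obtain ⟨Q, hC₁, hQ⟩ := hC₁ m (m1.trans (mul_le_mul_of_nonneg_left (Finset.sum_le_sum fun i _ =>
    Finset.sum_le_sum_of_subset_of_nonneg s0 fun _ _ _ => hD.nonneg _) (by norm_num)))
  have l1 := Nat.mul_div_le m (8 * e * (c + 1))
  have l2 := Nat.lt_mul_div_succ m E0
  set l := m / (8 * e * (c + 1))
  set H := T₀ + c * m with hH
  obtain ⟨J, n, j1, j2, j3, j4⟩ := exists_class (Q ∩ Finset.Icc (n₀ + T + c * l) (H - n₀))
    (show 0 < 2 * (c + 1) * s by positivity)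
  have q1 : Q.card ≤ 2 * (c + 1) * s * J + (n₀ + T + c * l) + n₀ := by
    have : Q ⊆ Q ∩ Finset.Icc (n₀ + T + c * l) (H - n₀) ∪ Finset.range (n₀ + T + c * l) ∪
        Finset.Ico (H - n₀) H := fun x hx => by
      have := (hQ x hx).1
      simp only [Finset.mem_union, Finset.mem_inter, hx, true_and, Finset.mem_Icc,
        Finset.mem_range, Finset.mem_Ico]
      omega
    refine (Finset.card_le_card this).trans ((Finset.card_union_le _ _).trans (Nat.add_le_add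
      ((Finset.card_union_le _ _).trans (Nat.add_le_add j1 (by simp))) ?_))
    rw [Nat.card_Ico]
    omega
  have q2 : J ≤ 2 ^ l := by
    have : J ≤ H := j2.trans ((Finset.card_le_card Finset.inter_subset_left).trans
      ((Finset.card_le_card fun x hx => Finset.mem_range.2 (hQ x hx).1).trans (by simp)))
    have := Nat.mul_le_mul_left c l2.le
    nlinarith
  have q3 : ∀ i < J, n₀ + T + c * l ≤ n i ∧ n i + n₀ ≤ H ∧
      ∀ k, n i ≤ k → k ≤ H → θ ^ (k - n i) * sg D Φ B (n i) ≤ sg D Φ B k := fun i hi => by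
    obtain ⟨x1, x2⟩ := Finset.mem_inter.1 (j3 i hi)
    obtain ⟨x3, x4⟩ := hQ _ x1
    rw [Finset.mem_Icc] at x2
    exact ⟨x2.1, by omega, x4⟩
  choose! A A1 A2 A3 A4 using fun i (hi : i < J) =>
    hp (n i) H (by have := (q3 i hi).1; omega) (q3 i hi).2.1 (q3 i hi).2.2
  have tl : ∀ i < J, ∀ t, (if i + 1 < J then D t ≤ 2 * (C * j + 2) * sg D Φ B (n (i + 1))
      else t = 1) → D t ≤ sg D Φ B (n i) := fun i hi t ht => by
    split_ifs at ht with h'
    · have y1 := j4 i h'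
      have y2 := (q3 i hi).2.1
      refine ht.trans (le_trans (mul_le_mul_of_nonneg_right ?_ (a0 _))
        ((q3 _ h').2.2 _ (by omega) (by omega)))
      refine le_trans ?_ (pow_le_pow_right₀ t1.le (show 2 * (c + 1) * s ≤ _ by omega))
      rw [pow_mul, t2]
      have : 2 * (C * j + 2) ≤ 2 ^ s := le_of_eq_of_le (by rw [hj]; ring) hs
      exact_mod_cast this
    · rw [ht, hD.one]
      exact a0 _
  have fin := hT l H J n A
    (fun i => {x | if i < J then D x ≤ 2 * (C * j + 2) * sg D Φ B (n i) else x = 1}) q2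
    (fun i hi => ⟨by have := (q3 i hi).1; omega, by have := (q3 i hi).2.1; omega, A1 i hi⟩)
    (by simp) (fun i hi r hr σ hσ t ht => by
      have y1 := hD.rs s1 _ r hr
      have y2 := hD.mul ((Φ ^ n i) r * (Φ ^ n i) σ * ((Φ ^ n i) r)⁻¹) t
      have y3 := hD.mul ((Φ ^ n i) r * (Φ ^ n i) σ) ((Φ ^ n i) r)⁻¹
      have y4 := hD.mul ((Φ ^ n i) r) ((Φ ^ n i) σ)
      have y5 : 0 ≤ C * j * sg D Φ B (n i) := mul_nonneg (by positivity) (a0 _)
      simp only [Set.mem_ofPred_eq, if_pos hi, map_mul, map_inv]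
      linarith [hD.inv ((Φ ^ n i) r), A3 i hi σ hσ, tl i hi t ht, a0 (n i)])
    (fun i hi r hr σ hσ σ' hσ' t ht t' ht' e => by
      by_contra ne
      have y0 := A4 i hi σ hσ σ' hσ' ne
      have y1 := hD.rs s1 _ r hr
      have y2 : (Φ ^ n i) (σ⁻¹ * σ') = ((Φ ^ n i) r)⁻¹ * (t * t'⁻¹) * (Φ ^ n i) r := by
        simp only [map_mul, map_inv] at e ⊢
        rw [eq_inv_mul_of_mul_eq e]
        group
      rw [y2] at y0
      linarith [hD.mul (((Φ ^ n i) r)⁻¹ * (t * t'⁻¹)) ((Φ ^ n i) r),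
        hD.mul ((Φ ^ n i) r)⁻¹ (t * t'⁻¹), hD.mul t t'⁻¹, hD.inv t', hD.inv ((Φ ^ n i) r),
        tl i hi t ht, tl i hi t' ht'])
  rw [Finset.prod_congr rfl fun i hi => A2 i (Finset.mem_range.1 hi), Finset.prod_const,
    Finset.card_range, ← pow_mul] at fin
  have f1 : j * J ≤ C' + κ * (H + T + c * l) := by
    refine (pow_le_pow_iff_right₀ (one_lt_two (α := ℕ))).1 (fin.trans ?_)
    rw [pow_add 2, pow_mul]
    exact Nat.mul_le_mul Nat.lt_two_pow_self.le (Nat.pow_le_pow_left Nat.lt_two_pow_self.le _)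
  exact arith f1 hC₁ q1 l1 (Nat.div_le_self _ _) m3

end Pool.Agent.P.MP_5c499f_an
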