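import Pool.Agent.P.MP_5c499f_an.KBasic

/-! Hyperbolic length functions. -/

set_option autoImplicit false

namespace Pool.Agent.P.MP_5c499f_an

variable {Γ : Type*} [Group Γ]

/-- The Gromov product of `g` and `h` at the identity. -/
noncomputable def gp (D : Γ → ℝ) (g h : Γ) : ℝ := (D g + D h - D (g⁻¹ * h)) / 2

/-- Length functions. -/
structure Len (D : Γ → ℝ) : Prop where
  one : D 1 = 0
  inv : ∀ g, D g⁻¹ = D g
  mul : ∀ g h, D (g * h) ≤ D g + D h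

/-- Hyperbolic length functions. -/
structure Hl (D : Γ → ℝ) (δ : ℝ) : Prop extends Len D where
  hyp : ∀ g h k, min (gp D g k) (gp D k h) - δ ≤ gp D g h

/-- Ping-pong pairs with margin `t`. -/
def PP (D : Γ → ℝ) (t : ℝ) (u v : Γ) : Prop :=
  ∃ p, gp D u v ≤ p ∧ 2 * p + t ≤ D u ∧ 2 * p + t ≤ D v ∧ gp D u⁻¹ u ≤ p ∧ gp D u⁻¹ v ≤ p ∧
    gp D v⁻¹ u ≤ p ∧ gp D v⁻¹ v ≤ p

/-- The gain property. -/
def Gain (D : Γ → ℝ) : Prop :=
  ∃ S : Set Γ, S.Finite ∧ ∀ g h, ∃ γ ∈ S, D g + D h + 1 ≤ D (g * γ * h)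

/-- Quasimorphisms of subgroups of finite index are bounded. -/
def NoQm (Γ : Type*) [Group Γ] : Prop :=
  ∀ H : Subgroup Γ, H.FiniteIndex → ∀ (q : H → ℝ) (D : ℝ),
    (∀ a b, |q (a * b) - q a - q b| ≤ D) → ∃ C, ∀ a, |q a| ≤ C

/-- Accumulated lengths along orbits of an automorphism. -/
noncomputable def sg (D : Γ → ℝ) (Φ : MulAut Γ) (B : Finset Γ) (n : ℕ) : ℝ :=
  ∑ i ∈ Finset.range (n + 1), ∑ b ∈ B, D ((Φ ^ i) b)

open Classical in
/-- Positive words of length `j` in two letters. -/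
noncomputable def wds (u v : Γ) : ℕ → Finset Γ
  | 0 => {1}
  | j + 1 => (wds u v j).image (u * ·) ∪ (wds u v j).image (v * ·)

variable {D : Γ → ℝ} {δ : ℝ}

lemma Len.nonneg (h : Len D) (g : Γ) : 0 ≤ D g := by
  linarith [h.mul g g⁻¹, h.inv g, h.one, congrArg D (mul_inv_cancel g)]

lemma Len.gp_comm (h : Len D) (a b : Γ) : gp D a b = gp D b a := by
  rw [gp, gp, ← h.inv (a⁻¹ * b), add_comm]
  simp

lemma Len.gp_nonneg (h : Len D) (a b : Γ) : 0 ≤ gp D a b := by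
  rw [gp]
  linarith [h.mul a⁻¹ b, h.inv a]

lemma Len.gp_le (h : Len D) (a b : Γ) : gp D a b ≤ D a := by
  rw [gp]
  linarith [h.mul a (a⁻¹ * b), congrArg D (mul_inv_cancel_left a b)]

lemma gp_mul (D : Γ → ℝ) (a b : Γ) (h : D a⁻¹ = D a) : D (a * b) = D a + D b - 2 * gp D a⁻¹ b := by
  rw [gp, inv_inv, h]
  ring

lemma Len.gp_add (h : Len D) (a b : Γ) : gp D a (a * b) + gp D a⁻¹ b = D a := by
  rw [gp, gp, inv_inv, h.inv, inv_mul_cancel_left]
  ring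

lemma Len.gp_left (h : Len D) (g a b : Γ) : gp D (g * a) (g * b) ≤ gp D a b + D g := by
  rw [gp, gp, show (g * a)⁻¹ * (g * b) = a⁻¹ * b by group]
  linarith [h.mul g a, h.mul g b]

lemma Len.gp_right (h : Len D) (a b g : Γ) : gp D a (b * g) ≤ gp D a b + D g := by
  rw [gp, gp]
  linarith [h.mul b g, h.mul (a⁻¹ * (b * g)) g⁻¹, h.inv g,
    congrArg D (show a⁻¹ * (b * g) * g⁻¹ = a⁻¹ * b by group)]

lemma Hl.nonneg' (h : Hl D δ) : 0 ≤ δ := by simpa using h.hyp 1 1 1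

/-- One step along a broken geodesic. -/
lemma Hl.step (h : Hl D δ) {x g g' : Γ} {p q : ℝ} (h1 : gp D x⁻¹ g ≤ q) (h2 : gp D g⁻¹ g' ≤ p)
    (h3 : q + p + δ < D g) : gp D (x * g)⁻¹ g' ≤ p + δ := by
  have a1 := h.gp_add g⁻¹ x⁻¹
  rw [inv_inv, h.inv, h.gp_comm g, ← mul_inv_rev] at a1
  have a2 := h.hyp g⁻¹ g' (x * g)⁻¹
  rcases min_choice (gp D g⁻¹ (x * g)⁻¹) (gp D (x * g)⁻¹ g') with e | e <;> linarith

lemma Len.comp (h : Len D) (Φ : MulAut Γ) {a : ℝ} (ha : 0 < a) : Len fun g => D (Φ g) / a :=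
  ⟨by simp [h.one], fun g => by simp [h.inv], fun g k => by
    rw [map_mul, ← add_div]; exact div_le_div_of_nonneg_right (h.mul _ _) ha.le⟩

lemma Hl.comp (h : Hl D δ) (Φ : MulAut Γ) {a : ℝ} (ha : 0 < a) :
    Hl (fun g => D (Φ g) / a) (δ / a) := by
  have e : ∀ x y, gp (fun g => D (Φ g) / a) x y = gp D (Φ x) (Φ y) / a := fun x y => by
    simp only [gp, map_mul, map_inv]
    ring
  refine ⟨h.toLen.comp Φ ha, fun x y z => ?_⟩
  rw [e, e, e, min_div_div_right ha.le, ← sub_div]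
  exact div_le_div_of_nonneg_right (h.hyp _ _ _) ha.le

lemma exists_word {B : Finset Γ} (hB : Subgroup.closure (B : Set Γ) = ⊤) (g : Γ) :
    ∃ L : ℕ, ∀ D' : Γ → ℝ, Len D' → D' g ≤ L * ∑ b ∈ B, D' b := by
  induction (hB ▸ Subgroup.mem_top g : g ∈ Subgroup.closure (B : Set Γ)) using
    Subgroup.closure_induction with
  | mem x hx => exact ⟨1, fun D' h' => by
      simpa using Finset.single_le_sum (fun b _ => h'.nonneg b) hx⟩
  | one => exact ⟨0, fun D' h' => by simp [h'.one]⟩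
  | mul x y _ _ h1 h2 =>
    obtain ⟨L, h1⟩ := h1
    obtain ⟨L', h2⟩ := h2
    exact ⟨L + L', fun D' h' => by push_cast; linarith [h'.mul x y, h1 D' h', h2 D' h']⟩
  | inv x _ h1 => exact h1.imp fun L e D' h' => h'.inv x ▸ e D' h'

end Pool.Agent.P.MP_5c499f_an
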