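import Pool.Agent.P.MP_5c499f_an.LRay

/-! Gain and ping-pong. -/

set_option autoImplicit false

namespace Pool.Agent.P.MP_5c499f_an

variable {Γ : Type*} [Group Γ] {D : Γ → ℝ} {δ : ℝ}

namespace LDichX

lemma two (h : Hl D δ) {y z : Γ} {p : ℝ} (e : gp D y z ≤ p) (x : Γ) :
    gp D x y ≤ p + δ ∨ gp D x z ≤ p + δ := by
  have a := h.hyp y z x
  rw [h.gp_comm y x] at a
  rcases min_choice (gp D x y) (gp D x z) with e' | e'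
  · left
    linarith
  · right
    linarith

lemma pick (h : Hl D δ) {y z : Fin 3 → Γ} {p : ℝ} (hy : ∀ i j, i ≠ j → gp D (y i) (y j) ≤ p)
    (hz : ∀ i j, i ≠ j → gp D (z i) (z j) ≤ p) (x x' : Γ) :
    ∃ i, gp D x (y i) ≤ p + δ ∧ gp D x' (z i) ≤ p + δ := by
  have a1 := two h (hy 0 1 (by decide)) x
  have a2 := two h (hy 0 2 (by decide)) x
  have a3 := two h (hy 1 2 (by decide)) x
  have b1 := two h (hz 0 1 (by decide)) x'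
  have b2 := two h (hz 0 2 (by decide)) x'
  have b3 := two h (hz 1 2 (by decide)) x'
  by_contra hn
  have c0 : ¬ (gp D x (y 0) ≤ p + δ ∧ gp D x' (z 0) ≤ p + δ) := fun e => hn ⟨0, e⟩
  have c1 : ¬ (gp D x (y 1) ≤ p + δ ∧ gp D x' (z 1) ≤ p + δ) := fun e => hn ⟨1, e⟩
  have c2 : ¬ (gp D x (y 2) ≤ p + δ ∧ gp D x' (z 2) ≤ p + δ) := fun e => hn ⟨2, e⟩
  tauto

lemma both (h : Len D) (x y g k : Γ) : gp D (x * g) (y * k) ≤ gp D x y + D g + D k := by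
  have a1 := h.gp_right (x * g) y k
  have a2 := h.gp_right y x g
  rw [h.gp_comm y, h.gp_comm y] at a2
  linarith

lemma big (h : Len D) {a : Γ} {η : ℝ} (hη : 0 < η)
    (e : ∀ m n : ℕ, D (a ^ m) + η * n ≤ D (a ^ (m + n))) (c : ℝ) : ∃ n : ℕ, c ≤ D (a ^ n) := by
  obtain ⟨n, hn⟩ := exists_nat_ge (c / η)
  refine ⟨n, ?_⟩
  have a1 := e 0 n
  rw [pow_zero, h.one, zero_add, zero_add] at a1
  rw [div_le_iff₀ hη] at hn
  linarith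

lemma bound (h : Len D) (g : Fin 3 → Γ) : ∃ M, 0 ≤ M ∧ ∀ i, D (g i)⁻¹ ≤ M :=
  ⟨∑ i, D (g i)⁻¹, Finset.sum_nonneg fun _ _ => h.nonneg _, fun i =>
    Finset.single_le_sum (f := fun i => D (g i)⁻¹) (fun _ _ => h.nonneg _) (Finset.mem_univ i)⟩

end LDichX

open LDichX

theorem Hl.gain (h : Hl D δ) (hq : NoQm Γ) {a : Γ} (ha : D a + 2 * δ < D (a * a)) : Gain D := by
  have ha' : D a⁻¹ + 2 * δ < D (a⁻¹ * a⁻¹) := by rwa [← mul_inv_rev, h.inv, h.inv]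
  obtain ⟨g, p₁, hg⟩ := h.three hq ha
  obtain ⟨k, p₂, hk⟩ := h.three hq ha'
  obtain ⟨-, η, hη, -, e⟩ := h.ray ha
  obtain ⟨M, hM0, hM⟩ := bound h.toLen g
  obtain ⟨N, hN0, hN⟩ := bound h.toLen k
  have hδ := h.nonneg'
  obtain ⟨p, h0, h1, h2⟩ : ∃ p, 0 ≤ p ∧ p₁ + 2 * N ≤ p ∧ p₂ + 2 * M ≤ p :=
    ⟨max 0 (max (p₁ + 2 * N) (p₂ + 2 * M)), le_max_left _ _,
      (le_max_left _ _).trans (le_max_right _ _), (le_max_right _ _).trans (le_max_right _ _)⟩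
  obtain ⟨n, hn⟩ := big h.toLen hη e (4 * p + 6 * δ + 1 + M + N)
  have e1 : ∀ i j, i ≠ j → gp D (g i * a ^ n * (k i)⁻¹) (g j * a ^ n * (k j)⁻¹) ≤ p := by
    intro i j hij
    linarith [both h.toLen (g i * a ^ n) (g j * a ^ n) (k i)⁻¹ (k j)⁻¹, hg i j hij n, hN i, hN j]
  have e2 : ∀ i j, i ≠ j → gp D (g i * a ^ n * (k i)⁻¹)⁻¹ (g j * a ^ n * (k j)⁻¹)⁻¹ ≤ p := by
    intro i j hij
    have e3 : ∀ i, (g i * a ^ n * (k i)⁻¹)⁻¹ = k i * a⁻¹ ^ n * (g i)⁻¹ := fun i => by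
      rw [inv_pow]
      group
    rw [e3, e3]
    linarith [both h.toLen (k i * a⁻¹ ^ n) (k j * a⁻¹ ^ n) (g i)⁻¹ (g j)⁻¹, hk i j hij n, hM i, hM j]
  refine ⟨Set.range fun i => g i * a ^ n * (k i)⁻¹, Set.finite_range _, fun x y => ?_⟩
  obtain ⟨i, b1, b2⟩ := pick h e1 e2 x⁻¹ y
  refine ⟨_, ⟨i, rfl⟩, ?_⟩
  have b3 : 4 * p + 6 * δ + 1 ≤ D (g i * a ^ n * (k i)⁻¹) := by
    have c1 := h.mul (g i)⁻¹ (g i * a ^ n * (k i)⁻¹ * k i)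
    have c2 := h.mul (g i * a ^ n * (k i)⁻¹) (k i)
    rw [show (g i)⁻¹ * (g i * a ^ n * (k i)⁻¹ * k i) = a ^ n by group] at c1
    linarith [hM i, hN i, h.inv (k i)]
  rw [h.gp_comm y] at b2
  have b4 := h.step b1 b2 (by linarith)
  have b5 := gp_mul D x (g i * a ^ n * (k i)⁻¹) (h.inv _)
  have b6 := gp_mul D (x * (g i * a ^ n * (k i)⁻¹)) y (h.inv _)
  linarith

theorem Hl.pp (h : Hl D δ) (hq : NoQm Γ) {a : Γ} (ha : D a + 2 * δ < D (a * a)) (t : ℝ) :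
    ∃ u v, PP D t u v := by
  obtain ⟨g, p₁, hg⟩ := h.three hq ha
  obtain ⟨p₀, η, hη, e0, e⟩ := h.ray ha
  obtain ⟨M, hM0, hM⟩ := bound h.toLen g
  obtain ⟨p, h1, h2⟩ : ∃ p, p₀ + M ≤ p ∧ p₁ + δ + M ≤ p :=
    ⟨max (p₀ + M) (p₁ + δ + M), le_max_left _ _, le_max_right _ _⟩
  obtain ⟨n, hn⟩ := big h.toLen hη e (2 * p + t + M)
  obtain ⟨i, b1, b2⟩ := pick h (y := fun i => g i * a ^ n) (z := fun i => g i * a ^ n)
    (fun i j hij => hg i j hij n) (fun i j hij => hg i j hij n) (a ^ n) (a ^ n)⁻¹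
  have c1 := h.mul (g i)⁻¹ (g i * a ^ n)
  rw [inv_mul_cancel_left] at c1
  have c2 := h.gp_right (a ^ n) (a ^ n)⁻¹ (g i)⁻¹
  have c3 := h.gp_right (g i * a ^ n) (a ^ n)⁻¹ (g i)⁻¹
  rw [← mul_inv_rev, h.gp_comm _ (a ^ n)⁻¹, h.gp_comm _ (g i * a ^ n)⁻¹] at c2 c3
  have c4 := e0 n n
  have c5 := hM i
  exact ⟨a ^ n, g i * a ^ n, p, by linarith, by linarith, by linarith, by linarith, by linarith,
    by linarith, by linarith⟩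

end Pool.Agent.P.MP_5c499f_an
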