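import Pool.Agent.P.MP_5c499f_an.LDefs

/-! Gain forces exponential growth. -/

set_option autoImplicit false

namespace Pool.Agent.P.MP_5c499f_an

variable {Y Γ : Type*} [Group Γ] [MulAction Γ Y] {G : Equiv.Perm Y} {Φ : MulAut Γ}
  {Cl : Y → Y → Prop} {c : ℕ} {K : Set Y} {o : Y}

namespace LGainX

lemma one_le_sum {D : Γ → ℝ} (h : Len D) {B : Finset Γ} (n : ℕ) {b : Γ} (hb : b ∈ B) :
    D ((Φ ^ n) b) ≤ ∑ b ∈ B, D ((Φ ^ n) b) :=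
  Finset.single_le_sum (f := fun b => D ((Φ ^ n) b)) (fun _ _ => h.nonneg _) hb

lemma le_sg {D : Γ → ℝ} (h : Len D) {B : Finset Γ} (n : ℕ) {b : Γ} (hb : b ∈ B) :
    D ((Φ ^ n) b) ≤ sg D Φ B n :=
  (one_le_sum h n hb).trans (Finset.single_le_sum (f := fun i => ∑ b ∈ B, D ((Φ ^ i) b))
    (fun _ _ => Finset.sum_nonneg fun _ _ => h.nonneg _) (Finset.self_mem_range_succ n))

end LGainX

open LGainX

lemma Len.rs {D : Γ → ℝ} (h : Len D) {B : Set Γ} {B' : Finset Γ} (hB : B ⊆ B') (n : ℕ) :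
    ∀ r ∈ Rs Φ B n, D ((Φ ^ n) r) ≤ sg D Φ B' n := by
  induction n with
  | zero => exact fun r hr => le_sg h 0 (hB hr)
  | succ n ih =>
    rintro _ ⟨r, hr, b, hb, rfl⟩
    have e : (Φ ^ (n + 1)) (Φ⁻¹ r) = (Φ ^ n) r := by
      rw [← MulAut.mul_apply, pow_succ, mul_inv_cancel_right]
    rw [map_mul, e, sg, Finset.sum_range_succ]
    exact (h.mul _ _).trans (add_le_add (ih r hr) (one_le_sum h (n + 1) (hB hb)))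

namespace LGainX

lemma bound (h : Pre G Φ Cl c K) {D : Γ → ℝ} (hD : Len D) :
    ∃ B : Set Γ, B.Finite ∧ ∀ B' : Finset Γ, B ⊆ B' → ∀ (n : ℕ) (y y' : Y) (g g' : Γ),
      g⁻¹ • y ∈ K → g'⁻¹ • y' ∈ K → Fw G⁻¹ Cl n y y' → D (g⁻¹ * g') ≤ 3 * sg D Φ B' n := by
  obtain ⟨B, b1, b2, b3⟩ := h.pos
  refine ⟨B, b1, fun B' hB n y y' g g' e1 e2 e3 => ?_⟩
  obtain ⟨u, hu⟩ := h.sat ⟨g, e1⟩ (-n)
  obtain ⟨u', hu'⟩ := h.sat ⟨g', e2⟩ (-n)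
  have a1 := hD.rs hB n _ (b3 n y g u _ e1 (by simpa using h.refl y) hu)
  have a2 := hD.rs hB n _ (b3 n y' g' u' _ e2 (by simpa using h.refl y') hu')
  have a3 := le_sg (Φ := Φ) hD n (hB (b2 _ hu' _ hu (u⁻¹ * u') (by
    simpa [mul_smul] using h.inv u⁻¹ _ _ (h.symm _ _ (Fw_inv.1 e3 _ le_rfl)))))
  have a4 : g⁻¹ * g' = (Φ ^ (n : ℤ)) ((Φ ^ (-n : ℤ)) g⁻¹ * u) * (Φ ^ (n : ℤ)) (u⁻¹ * u') *
      ((Φ ^ (n : ℤ)) ((Φ ^ (-n : ℤ)) g'⁻¹ * u'))⁻¹ := by simp [mul_assoc]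
  rw [zpow_natCast] at a4
  rw [a4]
  refine (hD.mul _ _).trans ?_
  rw [hD.inv]
  linarith [hD.mul ((Φ ^ n) ((Φ ^ (-n : ℤ)) g⁻¹ * u)) ((Φ ^ n) (u⁻¹ * u'))]

end LGainX

theorem Sys.gainp (h : Sys G Φ Cl c K o) {D : Γ → ℝ} (hD : Len D) (hG : Gain D) :
    ∃ (B : Finset Γ) (T : ℕ), (∃ᶠ m in Filter.atTop, 2 ^ m ≤ 6 * sg D Φ B (T + c * m)) ∨
      ∃ᶠ m in Filter.atTop, 2 ^ m ≤ 6 * sg D Φ⁻¹ B (T + c * m) := by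
  obtain ⟨S, hS, hG⟩ := hG
  obtain ⟨B, b1, hC⟩ := bound h.toPre hD
  obtain ⟨B', b2, hC'⟩ := bound h.toPre.rev hD
  rw [inv_inv] at hC'
  obtain ⟨T, hT⟩ := h.br _ hS.inv
  have key : ∀ r : ℕ, ∃ (y₀ y z z₀ : Y) (g₀ g u u₀ : Γ), g₀⁻¹ • y₀ ∈ K ∧ g⁻¹ • y ∈ K ∧
      u⁻¹ • z ∈ K ∧ u₀⁻¹ • z₀ ∈ K ∧ Ch (Fw G⁻¹ Cl T) r y₀ y ∧ Ch (Fw G Cl T) r z z₀ ∧
      (r : ℝ) ≤ D (g₀⁻¹ * g) + D (u⁻¹ * u₀) := fun r => by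
    induction r with
    | zero =>
      have : (1 : Γ)⁻¹ • o ∈ K := by simpa using h.mem
      exact ⟨o, o, o, o, 1, 1, 1, 1, this, this, this, this, rfl, rfl, by simp [hD.one]⟩
    | succ r ih =>
      obtain ⟨y₀, y, z, z₀, g₀, g, u, u₀, a1, a2, a3, a4, a5, a6, a7⟩ := ih
      obtain ⟨a, ha, ha'⟩ := hG (g₀⁻¹ * g) (u₀⁻¹ * u)
      obtain ⟨w, ⟨v, w1⟩, w2, w3⟩ := hT _ a4 _ a2 a⁻¹ (Set.inv_mem_inv.2 ha)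
      refine ⟨(a⁻¹ * g⁻¹) • y₀, w, u₀⁻¹ • z, w, a⁻¹ * g⁻¹ * g₀, v, u₀⁻¹ * u, v,
        by simpa [mul_smul] using a1, w1, by simpa [mul_smul] using a3, w1,
        ⟨_, a5.map (f := ((a⁻¹ * g⁻¹) • ·)) fun _ _ e => h.rev.fw_smul e _,
          mul_smul a⁻¹ g⁻¹ y ▸ h.rev.fw_symm w3⟩,
        ⟨_, a6.map (f := (u₀⁻¹ • ·)) fun _ _ e => h.fw_smul e _, h.fw_symm w2⟩, ?_⟩
      have e1 := hD.mul ((a⁻¹ * g⁻¹ * g₀)⁻¹ * v) ((u₀⁻¹ * u)⁻¹ * v)⁻¹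
      rw [hD.inv, show (a⁻¹ * g⁻¹ * g₀)⁻¹ * v * ((u₀⁻¹ * u)⁻¹ * v)⁻¹ =
        g₀⁻¹ * g * a * (u₀⁻¹ * u) by group] at e1
      have e2 := hD.inv (u₀⁻¹ * u)
      rw [mul_inv_rev, inv_inv] at e2
      push_cast
      linarith
  refine ⟨(b1.union b2).toFinset, T, Filter.frequently_or_distrib.1
    (Filter.Frequently.of_forall fun m => ?_)⟩
  obtain ⟨y₀, y, z, z₀, g₀, g, u, u₀, a1, a2, a3, a4, a5, a6, a7⟩ := key (2 ^ m)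
  have c1 := hC (b1.union b2).toFinset (by simp) (T + c * m) _ _ _ _ a1 a2 (h.rev.chain le_rfl a5)
  have c2 := hC' (b1.union b2).toFinset (by simp) (T + c * m) _ _ _ _ a3 a4 (h.chain le_rfl a6)
  push_cast at a7
  by_contra! hc
  linarith [hc.1, hc.2]

end Pool.Agent.P.MP_5c499f_an
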