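import Pool.Agent.P.MP_5c499f_an.LDefs

/-! Loxodromic elements and packings. TASK ANOS5-LOX. -/

set_option autoImplicit false

namespace Pool.Agent.P.MP_5c499f_an

open Filter Topology

variable {Γ : Type*} [Group Γ] {D : Γ → ℝ} {δ : ℝ}

theorem Len.lox (h : Len D) {g : Γ} (hg : ¬Tendsto (fun n : ℕ => D (g ^ n) / n) atTop (𝓝 0))
    {k : ℕ} (hk : 0 < k) (t : ℝ) : ∃ m : ℕ, D (g ^ (k * m)) + t < D (g ^ (k * m) * g ^ (k * m)) := by
  by_contra hn
  push Not at hn
  have h1 : ∀ i : ℕ, D (g ^ (k * 2 ^ i)) ≤ D (g ^ k) + i * t := by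
    intro i
    induction i with
    | zero => simp
    | succ i ih =>
      have := hn (2 ^ i)
      rw [← pow_add, show k * 2 ^ i + k * 2 ^ i = k * 2 ^ (i + 1) by ring] at this
      push_cast
      linarith
  have hs : Subadditive fun n : ℕ => D (g ^ n) := fun m n => by
    simp only [pow_add]; exact h.mul _ _
  have hb : BddBelow (Set.range fun n : ℕ => D (g ^ n) / n) :=
    ⟨0, by rintro _ ⟨n, rfl⟩; exact div_nonneg (h.nonneg _) (Nat.cast_nonneg _)⟩
  have ht := hs.tendsto_lim hb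
  have h0 : 0 ≤ hs.lim :=
    ge_of_tendsto' ht fun n => div_nonneg (h.nonneg _) (Nat.cast_nonneg _)
  have h2 : Tendsto (fun i : ℕ => (D (g ^ k) * ((i : ℝ) ^ 0 / 2 ^ i) + t * ((i : ℝ) ^ 1 / 2 ^ i)) / k)
      atTop (𝓝 ((D (g ^ k) * 0 + t * 0) / k)) :=
    (((tendsto_pow_const_div_const_pow_of_one_lt 0 one_lt_two).const_mul _).add
      ((tendsto_pow_const_div_const_pow_of_one_lt 1 one_lt_two).const_mul _)).div_const _
  have h3 : hs.lim ≤ (D (g ^ k) * 0 + t * 0) / k := by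
    refine ge_of_tendsto' h2 fun i => (hs.lim_le_div hb (n := k * 2 ^ i) (by positivity)).trans ?_
    have hk' : (0 : ℝ) < k := by exact_mod_cast hk
    calc D (g ^ (k * 2 ^ i)) / ((k * 2 ^ i : ℕ) : ℝ) ≤ (D (g ^ k) + i * t) / ((k * 2 ^ i : ℕ) : ℝ) :=
          div_le_div_of_nonneg_right (h1 i) (by positivity)
      _ = _ := by push_cast; field_simp
  have h4 : hs.lim = 0 := le_antisymm (by simpa using h3) h0
  exact hg (h4 ▸ ht)

theorem Hl.lox_zero (h : Hl D 0) [Group.FG Γ] (hu : ∀ t, ∃ g, t ≤ D g) :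
    ∃ a, D a < D (a * a) := by
  by_contra hn
  push Not at hn
  have ha : ∀ a, D a / 2 ≤ gp D a⁻¹ a := fun a => by
    linarith [gp_mul D a a (h.inv a), hn a]
  have key : ∀ g k, D (g * k) ≤ max (D g) (D k) := by
    intro g k
    by_contra hc
    rw [not_le, max_lt_iff] at hc
    obtain ⟨c1, c2⟩ := hc
    have e := gp_mul D g k (h.inv g)
    set p := gp D g⁻¹ k with hp
    have a1 : gp D g k ≤ p := by
      have := h.hyp g⁻¹ k g
      rcases min_choice (gp D g⁻¹ g) (gp D g k) with e' | e' <;> linarith [ha g]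
    have a2 : gp D k⁻¹ g ≤ p := by
      have := h.hyp g k k⁻¹
      rw [h.gp_comm g k⁻¹] at this
      rcases min_choice (gp D k⁻¹ g) (gp D k⁻¹ k) with e' | e' <;> linarith [ha k]
    have a3 := h.step (x := g) (g := k) (g' := g) hp.ge a2 (by linarith)
    have a4 := h.step (x := g * k) (g := g) (g' := k) a3 hp.ge (by linarith)
    have e1 := gp_mul D (g * k) g (h.inv _)
    have e2 := gp_mul D (g * k * g) k (h.inv _)
    have e3 := hn (g * k)
    rw [← mul_assoc] at e3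
    linarith
  obtain ⟨S, hS⟩ := Group.fg_def.1 ‹Group.FG Γ›
  have hb : ∀ g, D g ≤ ∑ b ∈ S, D b := by
    intro g
    induction (hS ▸ Subgroup.mem_top g : g ∈ Subgroup.closure (S : Set Γ)) using
      Subgroup.closure_induction with
    | mem x hx => exact Finset.single_le_sum (fun b _ => h.nonneg b) hx
    | one => rw [h.one]; exact Finset.sum_nonneg fun b _ => h.nonneg b
    | mul x y _ _ h1 h2 => exact (key x y).trans (max_le h1 h2)
    | inv x _ h1 => rwa [h.inv]
  obtain ⟨g, hg⟩ := hu (∑ b ∈ S, D b + 1)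
  linarith [hb g]

theorem Hl.pack (h : Hl D δ) (hδ : δ ≤ 1) {u v : Γ} (hp : PP D 15 u v) {C : ℝ} (hu : D u ≤ C)
    (hv : D v ≤ C) (j : ℕ) : (wds u v j).card = 2 ^ j ∧ (∀ w ∈ wds u v j, D w ≤ C * j) ∧
      ∀ w ∈ wds u v j, ∀ w' ∈ wds u v j, w ≠ w' → 4 < D (w⁻¹ * w') := by
  classical
  obtain ⟨p, p1, p2, p3, p4, p5, p6, p7⟩ := hp
  have hδ0 := h.nonneg'
  have hp0 : 0 ≤ p := (h.gp_nonneg u v).trans p1
  have mem : ∀ (j : ℕ) (w : Γ), w ∈ wds u v (j + 1) ↔
      ∃ w1 ∈ wds u v j, w = u * w1 ∨ w = v * w1 := by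
    intro j w
    simp only [wds, Finset.mem_union, Finset.mem_image]
    constructor
    · rintro (⟨a, h1, rfl⟩ | ⟨a, h1, rfl⟩)
      exacts [⟨a, h1, Or.inl rfl⟩, ⟨a, h1, Or.inr rfl⟩]
    · rintro ⟨a, h1, rfl | rfl⟩
      exacts [Or.inl ⟨a, h1, rfl⟩, Or.inr ⟨a, h1, rfl⟩]
  have big : ∀ y w1 : Γ, 2 * p + 15 ≤ D y → gp D y⁻¹ w1 ≤ p + δ → p + 14 ≤ gp D y (y * w1) :=
    fun y w1 a1 a2 => by linarith [h.gp_add y w1]
  have st : ∀ x y w : Γ, gp D x y ≤ p → p + 14 ≤ gp D y w → gp D x w ≤ p + δ := by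
    intro x y w a1 a2
    have := h.hyp x y w
    rw [h.gp_comm w y] at this
    rcases min_choice (gp D x w) (gp D y w) with e | e <;> linarith
  have inv : ∀ (j : ℕ), ∀ w ∈ wds u v j, gp D u⁻¹ w ≤ p + δ ∧ gp D v⁻¹ w ≤ p + δ := by
    intro j
    induction j with
    | zero =>
      intro w hw
      rw [wds, Finset.mem_singleton] at hw
      subst hw
      constructor
      · linarith [h.gp_le 1 u⁻¹, h.gp_comm 1 u⁻¹, h.one]
      · linarith [h.gp_le 1 v⁻¹, h.gp_comm 1 v⁻¹, h.one]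
    | succ j ih =>
      intro w hw
      obtain ⟨w1, h1, rfl | rfl⟩ := (mem j w).1 hw
      · exact ⟨st _ _ _ p4 (big u w1 p2 (ih w1 h1).1), st _ _ _ p6 (big u w1 p2 (ih w1 h1).1)⟩
      · exact ⟨st _ _ _ p5 (big v w1 p3 (ih w1 h1).2), st _ _ _ p7 (big v w1 p3 (ih w1 h1).2)⟩
  have cross : ∀ (j : ℕ), ∀ a ∈ wds u v j, ∀ b ∈ wds u v j, 4 < D ((u * a)⁻¹ * (v * b)) := by
    intro j a ha b hb
    have b1 := big u a p2 (inv j a ha).1
    have b2 := big v b p3 (inv j b hb).2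
    have b3 := st v u (u * a) (h.gp_comm u v ▸ p1) b1
    have b4 := h.hyp (u * a) v (v * b)
    rw [h.gp_comm (v * b) v, h.gp_comm (u * a) v] at b4
    have b5 : gp D (u * a) (v * b) ≤ p + 2 * δ := by
      rcases min_choice (gp D (u * a) (v * b)) (gp D v (v * b)) with e | e <;> linarith
    have b6 := h.gp_le (u * a) u
    have b7 := h.gp_le (v * b) v
    rw [h.gp_comm] at b6 b7
    rw [gp] at b5
    linarith
  induction j with
  | zero =>
    refine ⟨by simp [wds], fun w hw => ?_, fun w hw w' hw' hne => ?_⟩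
    · rw [wds, Finset.mem_singleton] at hw
      simp [hw, h.one]
    · rw [wds, Finset.mem_singleton] at hw hw'
      exact absurd (hw.trans hw'.symm) hne
  | succ j ih =>
    obtain ⟨i1, i2, i3⟩ := ih
    refine ⟨?_, fun w hw => ?_, fun w hw w' hw' hne => ?_⟩
    · rw [wds, Finset.card_union_of_disjoint, Finset.card_image_of_injective _ (mul_right_injective u),
        Finset.card_image_of_injective _ (mul_right_injective v), i1, pow_succ, mul_two]
      rw [Finset.disjoint_left]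
      intro w h1 h2
      obtain ⟨a, ha, rfl⟩ := Finset.mem_image.1 h1
      obtain ⟨b, hb, e⟩ := Finset.mem_image.1 h2
      have := cross j a ha b hb
      rw [e, inv_mul_cancel, h.one] at this
      linarith
    · obtain ⟨w1, h1, rfl | rfl⟩ := (mem j w).1 hw
      · push_cast; linarith [h.mul u w1, i2 w1 h1]
      · push_cast; linarith [h.mul v w1, i2 w1 h1]
    · obtain ⟨a, ha, rfl | rfl⟩ := (mem j w).1 hw <;> obtain ⟨b, hb, rfl | rfl⟩ := (mem j w').1 hw'
      · rw [show (u * a)⁻¹ * (u * b) = a⁻¹ * b by group]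
        exact i3 a ha b hb fun e => hne (by rw [e])
      · exact cross j a ha b hb
      · rw [← h.inv, show ((v * a)⁻¹ * (u * b))⁻¹ = (u * b)⁻¹ * (v * a) by group]
        exact cross j b hb a ha
      · rw [show (v * a)⁻¹ * (v * b) = a⁻¹ * b by group]
        exact i3 a ha b hb fun e => hne (by rw [e])

end Pool.Agent.P.MP_5c499f_an
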