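import Pool.Agent.P.MP_5c499f_an.LDich
import Pool.Agent.P.MP_5c499f_an.LLox

/-! Limits of hyperbolic length functions. TASK ANOS5-LIM. -/

set_option autoImplicit false

namespace Pool.Agent.P.MP_5c499f_an

open Filter Topology

theorem lim_pp {Γ : Type*} [Group Γ] [Group.FG Γ] (hq : NoQm Γ) (D : ℕ → Γ → ℝ) (δ : ℕ → ℝ)
    (h : ∀ k, Hl (D k) (δ k)) (hδ : Tendsto δ atTop (𝓝 0)) (hb : ∀ g, ∃ L, ∀ k, D k g ≤ L)
    (hu : ∀ t : ℝ, ∃ F : Set Γ, F.Finite ∧ ∀ᶠ k in atTop, ∃ g ∈ F, t ≤ D k g) :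
    ∃ u v, ∃ᶠ k in atTop, PP (D k) 15 u v := by
  let U : Ultrafilter ℕ := hyperfilter ℕ
  have hU : (U : Filter ℕ) ≤ atTop := by
    rw [← Nat.cofinite_eq_atTop]
    exact hyperfilter_le_cofinite
  have hex : ∀ g, ∃ x : ℝ, Tendsto (fun k => D k g) U (𝓝 x) := by
    intro g
    obtain ⟨L, hL⟩ := hb g
    obtain ⟨x, -, hx⟩ := (isCompact_Icc (a := (0 : ℝ)) (b := L)).ultrafilter_le_nhds
      (U.map fun k => D k g) (by
        rw [Ultrafilter.coe_map, le_principal_iff, mem_map]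
        exact Eventually.of_forall fun k => ⟨(h k).nonneg g, hL k⟩)
    exact ⟨x, hx⟩
  choose E hE using hex
  have hgp : ∀ a b, Tendsto (fun k => gp (D k) a b) U (𝓝 (gp E a b)) := fun a b =>
    (((hE a).add (hE b)).sub (hE _)).div_const 2
  have hEl : Hl E 0 := by
    refine ⟨⟨?_, fun g => ?_, fun a b => ?_⟩, fun a b c => ?_⟩
    · refine tendsto_nhds_unique (hE 1) ?_
      simp only [(h _).one]
      exact tendsto_const_nhds
    · refine tendsto_nhds_unique (hE g⁻¹) ?_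
      simp only [(h _).inv]
      exact hE g
    · exact le_of_tendsto_of_tendsto' (hE _) ((hE a).add (hE b)) fun k => (h k).mul a b
    · exact le_of_tendsto_of_tendsto' (((hgp a c).min (hgp c b)).sub (hδ.mono_left hU)) (hgp a b)
        fun k => (h k).hyp a b c
  have hun : ∀ t, ∃ g, t ≤ E g := by
    intro t
    obtain ⟨F, hF, hk⟩ := hu t
    obtain ⟨g, -, hg⟩ := (Ultrafilter.eventually_exists_mem_iff hF).1 (hU hk)
    exact ⟨g, ge_of_tendsto (hE g) hg⟩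
  obtain ⟨a, ha⟩ := hEl.lox_zero hun
  obtain ⟨u, v, p, h1, h2, h3, h4, h5, h6, h7⟩ := hEl.pp hq (a := a) (by linarith) 25
  refine ⟨u, v, Frequently.filter_mono (Eventually.frequently ?_) hU⟩
  have lt : ∀ a b, gp E a b ≤ p → ∀ᶠ k in (U : Filter ℕ), gp (D k) a b ≤ p + 2 := fun a b hab =>
    ((hgp a b).eventually (gt_mem_nhds (show gp E a b < p + 2 by linarith))).mono fun _ => le_of_lt
  have gt : ∀ a, 2 * p + 25 ≤ E a → ∀ᶠ k in (U : Filter ℕ), 2 * (p + 2) + 15 ≤ D k a :=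
    fun a ha => ((hE a).eventually
      (lt_mem_nhds (show 2 * (p + 2) + 15 < E a by linarith))).mono fun _ => le_of_lt
  filter_upwards [lt _ _ h1, gt _ h2, gt _ h3, lt _ _ h4, lt _ _ h5, lt _ _ h6, lt _ _ h7]
    with k b1 b2 b3 b4 b5 b6 b7
  exact ⟨p + 2, b1, b2, b3, b4, b5, b6, b7⟩

end Pool.Agent.P.MP_5c499f_an
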