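import Pool.Agent.P.MP_5c499f_an.KMain
import Pool.Agent.P.MP_5c499f_an.LCount
import Pool.Agent.P.MP_5c499f_an.LLim

/-! No loxodromic actions of the kernel. -/

set_option autoImplicit false

namespace Pool.Agent.P.MP_5c499f_an

open Filter Topology

universe u

/-- No isometric action on a Gromov hyperbolic space has a loxodromic element. -/
def NoLox (H : Type u) [Group H] : Prop :=
  ∀ (X : Type u) [PseudoMetricSpace X] [MulAction H X] [IsIsometricSMul H X] (δ : ℝ),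
    (∀ x y z w : X, dist x y + dist z w ≤ max (dist x z + dist y w) (dist x w + dist y z) + δ) →
    ∀ (g : H) (x : X), Tendsto (fun n : ℕ => dist x (g ^ n • x) / n) atTop (𝓝 0)

/-- All complex matrix representations have finite image, and no subgroup of finite index has a
loxodromic action on a hyperbolic space. -/
def Stiff (N : Type u) [Group N] : Prop :=
  (∀ (d : ℕ) (ρ : N →* GL (Fin d) ℂ), (Set.range ρ).Finite) ∧
    ∀ H : Subgroup N, H.FiniteIndex → NoLox H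

section

variable {Γ : Type*} [Group Γ] {Φ : MulAut Γ} {D : Γ → ℝ} {δ : ℝ}

lemma Len.sg_mono (h : Len D) (B : Finset Γ) : Monotone (sg D Φ B) :=
  monotone_nat_of_le_succ fun n => by
    rw [sg, sg, Finset.sum_range_succ _ (n + 1)]
    exact le_add_of_nonneg_right (Finset.sum_nonneg fun b _ => h.nonneg _)

lemma Len.sum_le_sg (h : Len D) (B : Finset Γ) (n : ℕ) : ∑ b ∈ B, D ((Φ ^ n) b) ≤ sg D Φ B n := by
  rw [sg, Finset.sum_range_succ]
  exact le_add_of_nonneg_left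
    (Finset.sum_nonneg fun i _ => Finset.sum_nonneg fun b _ => h.nonneg _)

lemma sg_add (D : Γ → ℝ) (Φ : MulAut Γ) (B : Finset Γ) (n i : ℕ) : sg D Φ B (n + i) =
    sg D Φ B n + ∑ j ∈ Finset.range i, ∑ b ∈ B, D ((Φ ^ n) ((Φ ^ (j + 1)) b)) := by
  induction i with
  | zero => simp
  | succ i ih =>
    rw [← add_assoc, sg, Finset.sum_range_succ, ← sg, ih, Finset.sum_range_succ, add_assoc,
      add_assoc n, pow_add]
    rfl

theorem Hl.unif [Group.FG Γ] (h : Hl D δ) (hq : NoQm Γ) {B : Finset Γ}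
    (hB : Subgroup.closure (B : Set Γ) = ⊤) (ha : Tendsto (sg D Φ B) atTop atTop) {θ : ℝ}
    (hθ : 1 < θ) : ∃ (P : Finset (Γ × Γ)) (n₀ : ℕ), ∀ n H : ℕ, n₀ ≤ n → n + n₀ ≤ H →
      (∀ m, n ≤ m → m ≤ H → θ ^ (m - n) * sg D Φ B n ≤ sg D Φ B m) →
      ∃ x ∈ P, PP (fun g => D ((Φ ^ n) g) / sg D Φ B n) 15 x.1 x.2 := by
  classical
  obtain ⟨α, _, φ, hφ⟩ := Group.fg_iff_exists_freeGroup_hom_surjective_finite.1 ‹Group.FG Γ›
  have : Countable Γ := hφ.countable
  obtain ⟨e, he⟩ := exists_surjective_nat (Γ × Γ)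
  obtain ⟨k₀, hk⟩ := eventually_atTop.1 (ha.eventually_gt_atTop 0)
  by_contra! hc
  choose n H h1 h2 h3 h4 using fun k => hc ((Finset.range k).image e) (k + k₀)
  have p : ∀ k, 0 < sg D Φ B (n k) := fun k => hk _ (le_of_add_le_right (h1 k))
  refine (lim_pp hq (fun k g => D ((Φ ^ n k) g) / sg D Φ B (n k))
    (fun k => δ / sg D Φ B (n k)) (fun k => h.comp _ (p k))
    ((ha.comp (tendsto_atTop_mono (fun k => le_of_add_le_left (h1 k)) tendsto_id)).const_div_atTop δ)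
    (fun g => (exists_word hB g).elim fun L hL => ⟨L, fun k => by
      refine (hL _ (h.toLen.comp _ (p k))).trans (mul_le_of_le_one_right L.cast_nonneg ?_)
      rw [← Finset.sum_div, div_le_one (p k)]
      exact h.sum_le_sg B _⟩) fun t => ?_).elim fun u => Exists.rec fun v huv => ?_
  · obtain ⟨i, i1, i2⟩ := (((tendsto_pow_const_div_const_pow_of_one_lt 1 hθ).const_mul
      (|t| * B.card + 1)).eventually (gt_mem_nhds (show _ * (0 : ℝ) < 1 by simp))).and
      (eventually_ge_atTop 1) |>.exists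
    refine ⟨(fun x : ℕ × Γ => (Φ ^ (x.1 + 1)) x.2) '' ↑(Finset.range i ×ˢ B),
      (Finset.finite_toSet _).image _, (eventually_ge_atTop i).mono fun k hk => ?_⟩
    by_contra! hn
    have a1 := h3 k (n k + i) (Nat.le_add_right _ _) (by have := h2 k; omega)
    rw [sg_add, Nat.add_sub_cancel_left] at a1
    have a2 : ∑ j ∈ Finset.range i, ∑ b ∈ B, D ((Φ ^ n k) ((Φ ^ (j + 1)) b)) ≤
        ∑ j ∈ Finset.range i, ∑ b ∈ B, |t| * sg D Φ B (n k) :=
      Finset.sum_le_sum fun j hj => Finset.sum_le_sum fun b hb =>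
        (div_le_iff₀ (p k)).1 ((hn _ ⟨(j, b), by simpa using ⟨Finset.mem_range.1 hj, hb⟩, rfl⟩).le.trans
          (le_abs_self t))
    simp only [Finset.sum_const, Finset.card_range, nsmul_eq_mul] at a2
    rw [pow_one, ← mul_div_assoc, div_lt_one (by positivity)] at i1
    have : (1 : ℝ) ≤ i := by exact_mod_cast i2
    nlinarith [p k, mul_lt_mul_of_pos_right i1 (p k)]
  · obtain ⟨i, hi⟩ := he (u, v)
    obtain ⟨k, k1, k2⟩ := (huv.and_eventually (eventually_gt_atTop i)).exists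
    exact h4 k (u, v) (Finset.mem_image.2 ⟨i, Finset.mem_range.2 k2, hi⟩) k1

theorem Br.noLox [Group.FG Γ] {c κ : ℕ} (hb : Br Φ c κ) (h : Hl D δ) (hq : NoQm Γ) {B₀ : Finset Γ}
    {T₀ : ℕ} : ¬∃ᶠ m in atTop, 2 ^ m ≤ 6 * sg D Φ B₀ (T₀ + c * m) := fun hg => by
  classical
  refine hb.count h.toLen hg fun B θ hθ b1 b2 => ?_
  have ha : Tendsto (sg D Φ B) atTop atTop := by
    refine tendsto_atTop_atTop_of_monotone (h.sg_mono B) fun t => ?_
    obtain ⟨m, m1, m2⟩ := (hg.and_eventually ((tendsto_pow_atTop_atTop_of_one_lt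
      (one_lt_two (α := ℝ))).eventually_ge_atTop (6 * t))).exists
    have : sg D Φ B₀ (T₀ + c * m) ≤ sg D Φ B (T₀ + c * m) := Finset.sum_le_sum fun i _ =>
      Finset.sum_le_sum_of_subset_of_nonneg b1 fun b _ _ => h.nonneg _
    exact ⟨_, by linarith⟩
  obtain ⟨P, n₀, hP⟩ := h.unif hq b2 ha hθ
  obtain ⟨k₀, hk⟩ := eventually_atTop.1 ((ha.eventually_gt_atTop 0).and (ha.eventually_ge_atTop δ))
  choose L hL using exists_word b2
  refine ⟨∑ x ∈ P, (L x.1 + L x.2), n₀ + k₀, fun j => ⟨_, (P.biUnion fun x => wds x.1 x.2 j).finite_toSet,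
    fun n H n1 n2 n3 => ?_⟩⟩
  obtain ⟨p, p'⟩ := hk n (by omega)
  obtain ⟨x, x1, x2⟩ := hP n H (by omega) (by omega) n3
  have w : ∀ g, D ((Φ ^ n) g) / sg D Φ B n ≤ L g := fun g => by
    refine (hL g _ (h.toLen.comp _ p)).trans (mul_le_of_le_one_right (L g).cast_nonneg ?_)
    rw [← Finset.sum_div, div_le_one p]
    exact h.sum_le_sg B _
  have s := Finset.single_le_sum (f := fun x : Γ × Γ => L x.1 + L x.2) (fun _ _ => Nat.zero_le _) x1
  obtain ⟨q1, q2, q3⟩ := (h.comp (Φ ^ n) p).pack ((div_le_one p).2 p') x2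
    (C := (∑ x ∈ P, (L x.1 + L x.2) : ℕ)) ((w _).trans (Nat.cast_le.2 (by omega)))
    ((w _).trans (Nat.cast_le.2 (by omega))) j
  exact ⟨_, fun σ hσ => Finset.mem_coe.2 (Finset.mem_biUnion.2 ⟨x, x1, hσ⟩), q1,
    fun σ hσ => (div_le_iff₀ p).1 (q2 σ hσ), fun σ hσ σ' hσ' e => (lt_div_iff₀ p).1 (q3 σ hσ σ' hσ' e)⟩

lemma NoQm.sub (hq : NoQm Γ) (Λ : Subgroup Γ) [Λ.FiniteIndex] : NoQm Λ := fun H _ q C hC => by
  have : (H.map Λ.subtype).FiniteIndex := ⟨by
    rw [Subgroup.index_map_subtype]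
    exact mul_ne_zero Subgroup.FiniteIndex.index_ne_zero Subgroup.FiniteIndex.index_ne_zero⟩
  set e := H.equivMapOfInjective Λ.subtype Λ.subtype_injective
  obtain ⟨C', h'⟩ := hq _ this (fun x => q (e.symm x)) C fun a b => by rw [map_mul]; exact hC _ _
  exact ⟨C', fun a => by simpa using h' (e a)⟩

variable {Y : Type*} [MulAction Γ Y] {G : Equiv.Perm Y} {Cl : Y → Y → Prop} {c : ℕ} {K : Set Y}
  {o : Y}

theorem Sys.noLox (h : Sys G Φ Cl c K o) [Group.FG Γ] (hq : NoQm Γ) (hD : Hl D δ) (a : Γ) :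
    D (a * a) ≤ D a + 2 * δ := by
  by_contra! ha
  obtain ⟨B, T, e | e⟩ := h.gainp hD.toLen (hD.gain hq ha)
  · exact h.grow.elim fun κ hκ => (h.branch hκ).noLox hD hq e
  · exact h.rev.grow.elim fun κ hκ => (h.rev.branch hκ).noLox hD hq e

theorem Sys.stiff (h : Sys G Φ Cl c K o) [Group.FG Γ] (hr : Rigid Γ) : Stiff Γ := by
  refine ⟨hr.1, fun H _ X _ _ _ δ hX g x => by_contra fun hg => ?_⟩
  obtain ⟨Λ, l1, l2, l3⟩ := exists_char_le H
  obtain ⟨K', k1, -⟩ := h.char Λ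
  have hD : Hl (fun a : H => dist x (a • x)) (δ / 2) := by
    refine ⟨⟨by simp, fun a => ?_, fun a b => ?_⟩, fun a b k => ?_⟩
    · rw [← dist_smul a, smul_inv_smul, dist_comm]
    · rw [← dist_smul a x (b • x), mul_smul]
      exact dist_triangle _ _ _
    · have e : ∀ a b : H, dist x ((a⁻¹ * b) • x) = dist (a • x) (b • x) := fun a b => by
        rw [← dist_smul a, smul_smul, mul_inv_cancel_left]
      have := hX (a • x) (b • x) (k • x) x
      simp only [gp, e]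
      rw [dist_comm (k • x) x, dist_comm (b • x) x, dist_comm (a • x) x, dist_comm (b • x)] at this
      rcases max_choice (dist (a • x) (k • x) + dist x (b • x))
        (dist x (a • x) + dist (k • x) (b • x)) with e' | e' <;> rw [e'] at this
      · linarith [min_le_left ((dist x (a • x) + dist x (k • x) - dist (a • x) (k • x)) / 2)
          ((dist x (k • x) + dist x (b • x) - dist (k • x) (b • x)) / 2)]
      · linarith [min_le_right ((dist x (a • x) + dist x (k • x) - dist (a • x) (k • x)) / 2)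
          ((dist x (k • x) + dist x (b • x) - dist (k • x) (b • x)) / 2)]
  obtain ⟨m, hm⟩ := hD.toLen.lox hg (Nat.pos_of_ne_zero (Subgroup.FiniteIndex.index_ne_zero (H := Λ)))
    (2 * (δ / 2))
  have hΛ : Hl (fun a : Λ => dist x (Subgroup.inclusion l3 a • x)) (δ / 2) :=
    ⟨⟨by simp, fun a => by simpa using hD.inv _, fun a b => by simpa using hD.mul _ _⟩,
      fun a b k => by simpa [gp] using hD.hyp _ _ _⟩
  have := k1.noLox (NoQm.sub hr.2 Λ) hΛ ⟨(g ^ (Λ.index * m) : H), by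
    rw [pow_mul]
    exact pow_mem (Λ.pow_index_mem _) m⟩
  exact hm.not_ge this

end

theorem Gps.stiff {Y Γ : Type*} [MetricSpace Y] [Group Γ] [MulAction Γ Y] {G : Equiv.Perm Y}
    {Φ : MulAut Γ} {ρ : ℝ} {o : Y} (D : Gps G Φ ρ o) :
    ∃ (N : Subgroup Γ) (_ : N.Characteristic), N.FG ∧ Conil N ∧ Stiff N := by
  obtain ⟨G', Φ', Cl, c, K, o', h⟩ := D.sys
  obtain ⟨S, s1, s2⟩ := D.fg
  have : Group.FG Γ := Group.fg_iff.2 ⟨S, s2, s1⟩
  obtain ⟨N, ⟨n1, n2, n3, K', n4⟩, n5⟩ := h.machine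
  have : Group.FG N := (Group.fg_iff_subgroup_fg N).2 n2
  exact ⟨N, n1, n2, n3, n4.stiff (n4.rigid n5)⟩

open Bundle
open scoped Manifold ContDiff

variable {E : Type*} [NormedAddCommGroup E] [NormedSpace ℝ E] [FiniteDimensional ℝ E]
  {M : Type*} [TopologicalSpace M] [T2Space M] [CompactSpace M]
  [ChartedSpace E M] [IsManifold 𝓘(ℝ, E) ∞ M]
  [RiemannianBundle fun x : M => TangentSpace 𝓘(ℝ, E) x]
  [IsContinuousRiemannianBundle E fun x : M => TangentSpace 𝓘(ℝ, E) x]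
  (f : Diffeomorph 𝓘(ℝ, E) 𝓘(ℝ, E) M M 1) (hf : IsAnosov E f)
  {Y Γ : Type*} [MetricSpace Y] [ConnectedSpace Y] [Group Γ] [MulAction Γ Y] [IsIsometricSMul Γ Y]
  {p : Y → M} (hp : IsQuotientCoveringMap p Γ) (F : Y ≃ₜ Y) (hF : ∀ y, p (F y) = f (p y))
include hf hp hF

theorem gps_stiff (ex : ∀ x y, ∃ w, Asym F w x ∧ Asym F.symm w y) :
    ∃ (N : Subgroup Γ) (_ : N.Characteristic), N.FG ∧ Group.IsVirtuallyNilpotent (Γ ⧸ N) ∧
      Stiff N := by
  obtain ⟨Φ, r, o, D, -⟩ := gps_of_anosov f hf hp F hF ex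
  obtain ⟨N, n1, n2, n3, n4⟩ := D.stiff
  exact ⟨N, n1, n2, n3.quot, n4⟩

theorem gps_tame' (gps : ∀ x y, ∃! w, Asym F w x ∧ Asym F.symm w y)
    (H : ∀ (N : Subgroup Γ) [N.Characteristic], N.FG → Group.IsVirtuallyNilpotent (Γ ⧸ N) →
      Stiff N → Finite N) : InfranilConj f := by
  obtain ⟨Φ, r, o, D, gl⟩ := gps_of_anosov f hf hp F hF fun x y => (gps x y).exists
  obtain ⟨N, n1, n2, n3, n4⟩ := D.stiff
  have := H N n2 n3.quot n4
  obtain ⟨S, s1, s2⟩ := D.fg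
  obtain ⟨d, hd⟩ := wgd_of_virt n3.virt s1 s2
  obtain ⟨Λ, c1, c2, c3, c4, c5⟩ := exists_char s1 s2 hd
  obtain ⟨L, c, hL⟩ := exists_layers c3 c5
  obtain ⟨m, μ, lv, β, A', α, B, Fa⟩ := exists_aff Φ Λ hL
  exact D.final Fa (gl fun x y _ _ => (gps x y).unique) hp hF

end Pool.Agent.P.MP_5c499f_an
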