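import Pool.Agent.P.MP_5c499f_an.LDefs

/-! The orbit of the attracting point of a loxodromic element. TASK ANOS5-RAY. -/

set_option autoImplicit false

namespace Pool.Agent.P.MP_5c499f_an

open Filter

variable {Γ : Type*} [Group Γ] {D : Γ → ℝ} {δ : ℝ}

namespace LRayX

lemma gp_one (h : Len D) (x : Γ) : gp D 1 x = 0 := by simp [gp, h.one]

lemma first (h : Hl D δ) {a : Γ} (ha : D a + 2 * δ < D (a * a)) (m : ℕ) :
    gp D (a ^ m)⁻¹ a ≤ gp D a⁻¹ a + δ := by
  have e := gp_mul D a a (h.inv a)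
  induction m with
  | zero =>
    rw [pow_zero, inv_one, gp_one h.toLen]
    linarith [h.gp_nonneg a⁻¹ a, h.nonneg']
  | succ m ih =>
    rw [pow_succ]
    exact h.step ih le_rfl (by linarith)

lemma grow (h : Hl D δ) {a : Γ} (ha : D a + 2 * δ < D (a * a)) (m n : ℕ) :
    D (a ^ m) + (D (a * a) - D a - 2 * δ) * n ≤ D (a ^ (m + n)) := by
  induction n with
  | zero => simp
  | succ n ih =>
    rw [← add_assoc, pow_succ, gp_mul D (a ^ (m + n)) a (h.inv _)]
    have e := gp_mul D a a (h.inv a)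
    have := first h ha (m + n)
    push_cast
    linarith

lemma both (h : Hl D δ) {b : Γ} (hb : D b + 3 * δ < D (b * b)) (m n : ℕ) :
    gp D (b ^ m)⁻¹ (b ^ n) ≤ gp D b⁻¹ b + 2 * δ := by
  have e := gp_mul D b b (h.inv b)
  have hδ := h.nonneg'
  cases m with
  | zero =>
    rw [pow_zero, inv_one, gp_one h.toLen]
    linarith [h.gp_nonneg b⁻¹ b]
  | succ m =>
    have h1 := first h (a := b) (by linarith) m
    have h2 := first h (a := b⁻¹) (by rw [← mul_inv_rev, h.inv, h.inv]; linarith) n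
    rw [inv_pow, inv_inv, inv_inv, h.gp_comm, h.gp_comm b] at h2
    have h3 := h.step h1 h2 (by linarith)
    rw [pow_succ]
    linarith

lemma gp_left' (h : Len D) (g a b : Γ) : gp D a b - D g ≤ gp D (g * a) (g * b) := by
  have := h.gp_left g⁻¹ (g * a) (g * b)
  rw [inv_mul_cancel_left, inv_mul_cancel_left, h.inv] at this
  linarith

lemma close (h : Hl D δ) {g y y' : Γ} (hy : D g ≤ gp D y y') : |gp D g y - gp D g y'| ≤ δ := by
  have h1 := h.hyp g y' y
  have h2 := h.hyp g y y'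
  rw [h.gp_comm y' y] at h2
  rw [min_eq_left ((h.gp_le _ _).trans hy)] at h1 h2
  rw [abs_le]
  constructor <;> linarith

lemma bus (D : Γ → ℝ) (g y : Γ) : D (g⁻¹ * y) - D y = D g - 2 * gp D g y := by
  rw [gp]
  ring

lemma pow_le (h : Len D) (a : Γ) (n : ℕ) : D (a ^ n) ≤ n * D a := by
  induction n with
  | zero => simp [h.one]
  | succ n ih =>
    rw [pow_succ]
    push_cast
    linarith [h.mul (a ^ n) a]

/-- the stabiliser of the limit point of a sequence -/
def stab (h : Hl D δ) (x : ℕ → Γ) (hx : Tendsto (fun n => D (x n)) atTop atTop) : Subgroup Γ where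
  carrier := {g | Tendsto (fun n => gp D (g * x n) (x n)) atTop atTop}
  one_mem' := by simpa [gp, h.one] using hx
  inv_mem' := by
    intro g hg
    refine tendsto_atTop_mono (fun n => ?_) (tendsto_atTop_add_const_right _ (-D g) hg)
    have := gp_left' h.toLen g⁻¹ (x n) (g * x n)
    rw [inv_mul_cancel_left, h.inv, h.gp_comm] at this
    linarith
  mul_mem' := by
    intro g k hg hk
    refine tendsto_atTop.2 fun M => ?_
    filter_upwards [tendsto_atTop.1 hg (M + δ), tendsto_atTop.1 hk (M + δ + D g)] with n h1 h2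
    have h3 := gp_left' h.toLen g (k * x n) (x n)
    have h4 := h.hyp (g * k * x n) (x n) (g * x n)
    rw [← mul_assoc] at h3
    have : M + δ ≤ min (gp D (g * k * x n) (g * x n)) (gp D (g * x n) (x n)) :=
      le_min (by linarith) h1
    linarith

end LRayX

open LRayX

theorem Hl.ray (h : Hl D δ) {a : Γ} (ha : D a + 2 * δ < D (a * a)) :
    ∃ p η : ℝ, 0 < η ∧ (∀ m n : ℕ, gp D (a ^ m)⁻¹ (a ^ n) ≤ p) ∧
      ∀ m n : ℕ, D (a ^ m) + η * n ≤ D (a ^ (m + n)) := by
  have hg := grow h ha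
  obtain ⟨η, hη⟩ : ∃ η, η = D (a * a) - D a - 2 * δ := ⟨_, rfl⟩
  rw [← hη] at hg
  have hη0 : 0 < η := by linarith
  obtain ⟨k, hk⟩ := exists_nat_gt (3 * δ / η)
  rw [div_lt_iff₀ hη0] at hk
  have hk0 : 0 < k := by
    refine Nat.pos_of_ne_zero fun e => ?_
    rw [e] at hk
    have := h.nonneg'
    push_cast at hk
    linarith
  have hb : D (a ^ k) + 3 * δ < D (a ^ k * a ^ k) := by
    rw [← pow_add]
    linarith [hg k k]
  have hr : ∀ m, D (a ^ (m % k)) ≤ D (a ^ k) := fun m => by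
    have h1 := hg (m % k) (k - m % k)
    rw [Nat.add_sub_cancel' (Nat.mod_lt m hk0).le] at h1
    have : 0 ≤ η * ((k - m % k : ℕ) : ℝ) := by positivity
    linarith
  refine ⟨gp D (a ^ k)⁻¹ (a ^ k) + 2 * δ + 2 * D (a ^ k), η, hη0, fun m n => ?_, hg⟩
  have e1 : a ^ n = (a ^ k) ^ (n / k) * a ^ (n % k) := by
    rw [← pow_mul, ← pow_add, Nat.div_add_mod]
  have e2 : (a ^ m)⁻¹ = ((a ^ k) ^ (m / k))⁻¹ * (a ^ (m % k))⁻¹ := by
    rw [← mul_inv_rev, ← pow_mul, ← pow_add, Nat.mod_add_div]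
  have h1 := h.gp_right (a ^ m)⁻¹ ((a ^ k) ^ (n / k)) (a ^ (n % k))
  have h2 := h.gp_right ((a ^ k) ^ (n / k)) ((a ^ k) ^ (m / k))⁻¹ (a ^ (m % k))⁻¹
  rw [← e1] at h1
  rw [← e2, h.inv, h.gp_comm, h.gp_comm ((a ^ k) ^ (n / k))] at h2
  linarith [both h hb (m / k) (n / k), hr m, hr n]

theorem Hl.three (h : Hl D δ) (hq : NoQm Γ) {a : Γ} (ha : D a + 2 * δ < D (a * a)) :
    ∃ (g : Fin 3 → Γ) (p : ℝ), ∀ i j, i ≠ j → ∀ n : ℕ, gp D (g i * a ^ n) (g j * a ^ n) ≤ p := by
  obtain ⟨p, η, hη, hp, hg⟩ := h.ray ha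
  have hδ := h.nonneg'
  have hD : ∀ n : ℕ, η * n ≤ D (a ^ n) := fun n => by simpa [h.one] using hg 0 n
  have hlin : Tendsto (fun n : ℕ => η * n) atTop atTop :=
    tendsto_natCast_atTop_atTop.const_mul_atTop hη
  have hG : ∀ n m : ℕ, n ≤ m → η * n - p ≤ gp D (a ^ n) (a ^ m) := fun n m hnm => by
    have h1 := h.gp_add (a ^ n) (a ^ (m - n))
    rw [← pow_add, Nat.add_sub_cancel' hnm] at h1
    linarith [hp n (m - n), hD n]
  let H := stab h (fun n => a ^ n) (tendsto_atTop_mono hD hlin)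
  have hH : ∀ g, g ∈ H ↔ Tendsto (fun n : ℕ => gp D (g * a ^ n) (a ^ n)) atTop atTop :=
    fun g => Iff.rfl
  have haH : a ∈ H := by
    refine (hH a).2 (tendsto_atTop_mono (fun n => ?_) (tendsto_atTop_add_const_right _ (-p) hlin))
    rw [← pow_succ', h.gp_comm]
    linarith [hG n (n + 1) (Nat.le_succ n)]
  have hbd : ∀ g, g ∉ H → ∃ P, ∀ n : ℕ, gp D (g * a ^ n) (a ^ n) ≤ P := by
    intro g hgH
    by_contra hc
    refine hgH ((hH g).2 (tendsto_atTop.2 fun M => ?_))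
    obtain ⟨N, hN⟩ := eventually_atTop.1 (tendsto_atTop.1 hlin (M + 2 * δ + p + D g))
    have hc' : ¬ ∀ n : ℕ, gp D (g * a ^ n) (a ^ n) ≤ max (M + 2 * δ) (N * D a) :=
      fun e => hc ⟨_, e⟩
    obtain ⟨n, hn⟩ := not_forall.1 hc'
    rw [not_le, max_lt_iff] at hn
    have hNn : N ≤ n := by
      by_contra hlt
      have h1 : (n : ℝ) ≤ N := by exact_mod_cast (not_le.1 hlt).le
      have h2 := mul_le_mul_of_nonneg_right h1 (h.nonneg a)
      have h3 := h.gp_le (a ^ n) (g * a ^ n)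
      rw [h.gp_comm] at h3
      linarith [pow_le h.toLen a n, hn.2]
    filter_upwards [eventually_ge_atTop n] with m hm
    have h1 := hN n hNn
    have h2 := hG n m hm
    have h3 := gp_left' h.toLen g (a ^ n) (a ^ m)
    have h4 := h.hyp (g * a ^ n) (a ^ m) (a ^ n)
    have h5 := h.hyp (g * a ^ m) (a ^ m) (g * a ^ n)
    have h6 := h.nonneg g
    rw [h.gp_comm (g * a ^ n)] at h3
    have h7 : M + 2 * δ ≤ min (gp D (g * a ^ n) (a ^ n)) (gp D (a ^ n) (a ^ m)) :=
      le_min hn.1.le (by linarith)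
    have h8 : M + δ ≤ min (gp D (g * a ^ m) (g * a ^ n)) (gp D (g * a ^ n) (a ^ m)) :=
      le_min (by linarith) (by linarith)
    linarith
  by_cases hfin : H.FiniteIndex
  · exfalso
    have hβ : ∀ g : Γ, ∃ β : ℝ, ∀ᶠ m : ℕ in atTop,
        |β - (D (g⁻¹ * a ^ m) - D (a ^ m))| ≤ 2 * δ := by
      intro g
      obtain ⟨N, hN⟩ := eventually_atTop.1 (tendsto_atTop.1 hlin (D g + p))
      refine ⟨D g - 2 * gp D g (a ^ N), ?_⟩
      filter_upwards [eventually_ge_atTop N] with m hm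
      have h1 := close h (g := g) (y := a ^ N) (y' := a ^ m) (by linarith [hG N m hm, hN N le_rfl])
      rw [bus D]
      rw [abs_le] at h1 ⊢
      constructor <;> linarith [h1.1, h1.2]
    choose β hβ using hβ
    obtain ⟨C, hC⟩ := hq H hfin (fun g => β g) (8 * δ) fun g k => by
      obtain ⟨m, h1, h2, h3, h4⟩ := ((hβ (g * k : H)).and ((hβ g).and ((hβ k).and
        (tendsto_atTop.1 ((hH _).1 (H.inv_mem g.2)) (D k))))).exists
      have h5 := close h h4
      have h6 := bus D k ((g : Γ)⁻¹ * a ^ m)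
      have h7 := bus D k (a ^ m)
      rw [Subgroup.coe_mul, mul_inv_rev, mul_assoc] at h1
      rw [Subgroup.coe_mul]
      rw [abs_le] at h1 h2 h3 h5 ⊢
      constructor <;> linarith [h1.1, h1.2, h2.1, h2.2, h3.1, h3.2, h5.1, h5.2]
    obtain ⟨k, hk⟩ := (tendsto_atTop.1 hlin (C + 2 * δ + 1)).exists
    obtain ⟨m, hm⟩ := (hβ (a ^ k)⁻¹).exists
    have h1 := hC ⟨(a ^ k)⁻¹, H.inv_mem (H.pow_mem haH k)⟩
    have h2 := hg m k
    rw [inv_inv, ← pow_add, add_comm k m, abs_le] at hm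
    have h3 := (abs_le.1 h1).2
    change β (a ^ k)⁻¹ ≤ C at h3
    linarith [hm.1]
  · have hinf : Infinite (Γ ⧸ H) := by
      by_contra hc
      have := not_infinite_iff_finite.1 hc
      exact hfin Subgroup.finiteIndex_of_finite_quotient
    let g : Fin 3 → Γ := fun i => (Infinite.natEmbedding (Γ ⧸ H) i).out
    have key : ∀ i j : Fin 3, ∃ P : ℝ, 0 ≤ P ∧ (i ≠ j →
        ∀ n : ℕ, gp D (g i * a ^ n) (g j * a ^ n) ≤ P) := by
      intro i j
      by_cases hij : i = j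
      · exact ⟨0, le_rfl, fun e => absurd hij e⟩
      have h1 : (g j)⁻¹ * g i ∉ H := by
        intro hm
        have h2 := QuotientGroup.eq.2 hm
        simp only [g, QuotientGroup.out_eq'] at h2
        exact hij (Fin.ext ((Infinite.natEmbedding (Γ ⧸ H)).injective h2).symm)
      obtain ⟨P, hP⟩ := hbd _ h1
      have h3 := (h.gp_nonneg _ _).trans (hP 0)
      refine ⟨P + D (g j), add_nonneg h3 (h.nonneg _), fun _ n => ?_⟩
      have h2 := h.gp_left (g j) ((g j)⁻¹ * g i * a ^ n) (a ^ n)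
      rw [← mul_assoc, mul_inv_cancel_left] at h2
      linarith [hP n]
    choose P hP0 hP using key
    refine ⟨g, ∑ q : Fin 3 × Fin 3, P q.1 q.2, fun i j hij n => (hP i j hij n).trans ?_⟩
    exact Finset.single_le_sum (f := fun q : Fin 3 × Fin 3 => P q.1 q.2) (fun q _ => hP0 _ _)
      (Finset.mem_univ (i, j))

end Pool.Agent.P.MP_5c499f_an
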