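import Pool.Agent.Lib.Gromov.Main

/-! A characteristic torsion-free nilpotent subgroup of finite index, and its layers. -/

set_option autoImplicit false

namespace Pool.Agent.P.MP_5c499f_an

open Pool.Agent.Lib.Gromov Set
open scoped commutatorElement

universe u

theorem phase3 (d : ℕ) : ∀ (G : Type u) [Group G], NoethG G → WGd G d →
    ∃ N : Subgroup G, Group.IsNilpotent N ∧ N.FiniteIndex ∧
      ∀ g ∈ N, ∀ k : ℕ, 0 < k → g ^ k = 1 → g = 1 := by
  have base : ∀ (G : Type u) [Group G], Bdd (⊥ : Subgroup G) (⊤ : Subgroup G) →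
      ∃ N : Subgroup G, Group.IsNilpotent N ∧ N.FiniteIndex ∧
        ∀ g ∈ N, ∀ k : ℕ, 0 < k → g ^ k = 1 → g = 1 :=
    fun G _ h => ⟨⊥, inferInstance, bdd_univ_iff.1 h, fun g hg _ _ _ => hg⟩
  have hbg : ∀ (G : Type u) [Group G], NoethG G → BG (⊥ : Subgroup G) ⊤ := fun G _ h => by
    obtain ⟨S, h1, h2⟩ := (Subgroup.fg_iff _).1 (h ⊤)
    exact ⟨S, bdd_of_finite h2, h1⟩
  induction d with
  | zero => exact fun G _ hN hw => base G (bdd_of_wg_zero comm_bot (hbg G hN) (wgd_iff.1 hw))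
  | succ d ih =>
    intro G _ hN hw
    by_cases hinf : Bdd (⊥ : Subgroup G) (⊤ : Subgroup G)
    · exact base G hinf
    obtain ⟨H, K, e1, e2, e3, e4, t, ht, e5, e6⟩ :=
      exists_zext comm_bot (hbg G hN) (wgd_iff.1 hw) hinf
    have hwK : WGd K d := by
      have := (((wgd_iff.1 hw).mono (le_top : H ≤ ⊤)).drop comm_bot e3.1 ht e6 e4).comap comm_bot
        K.subtype fun a => a.2
      rw [MonoidHom.comap_bot, K.ker_subtype] at this
      exact wgd_iff.2 this
    obtain ⟨z, hz1, hz2⟩ := exists_finite_cls hN hw e3 ht e5 e6 (phase2 d K (hN.subgroup K) hwK)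
    set C := Subgroup.centralizer ({z} : Set G)
    have hC : C.FiniteIndex := bdd_univ_iff.1 ((bdd_centralizer hz2).trans e2)
    set z' : C := ⟨z, Subgroup.mem_centralizer_singleton_iff.2 rfl⟩
    have hcen : Subgroup.zpowers z' ≤ Subgroup.center C := by
      rw [Subgroup.zpowers_le, Subgroup.mem_center_iff]
      exact fun g => Subtype.ext (Subgroup.mem_centralizer_singleton_iff.1 g.2)
    have : (Subgroup.zpowers z').Normal := ⟨fun a ha g => by
      rwa [Subgroup.mem_center_iff.1 (hcen ha) g, mul_inv_cancel_right]⟩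
    set π := QuotientGroup.mk' (Subgroup.zpowers z')
    have hπ : Function.Surjective π := QuotientGroup.mk'_surjective _
    obtain ⟨N, hN1, hN2, hN3⟩ := ih _ ((hN.subgroup C).of_surjective π hπ)
      ((hw.subgroup C).drop_quot π hπ (z := z')
        ((QuotientGroup.eq_one_iff _).2 (Subgroup.mem_zpowers z'))
        fun n hn => hz1 n (congrArg Subtype.val hn))
    have h1 : Group.IsNilpotent (N.comap π) :=
      Subgroup.isNilpotent_of_ker_le_center (π.subgroupComap N) fun g hg => by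
        have e : π g = 1 := congrArg Subtype.val hg
        rw [Subgroup.mem_center_iff]
        exact fun h => Subtype.ext
          (Subgroup.mem_center_iff.1 (hcen ((QuotientGroup.eq_one_iff _).1 e)) h)
    refine ⟨(N.comap π).map C.subtype, Group.nilpotent_of_mulEquiv
      ((N.comap π).equivMapOfInjective C.subtype C.subtype_injective), ⟨?_⟩, ?_⟩
    · rw [Subgroup.index_map_subtype, Subgroup.index_comap_of_surjective _ hπ]
      exact mul_ne_zero hN2.1 hC.1
    · rintro _ ⟨g, hg, rfl⟩ k hk e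
      have e1 : g ^ k = 1 := Subtype.ext e
      obtain ⟨n, rfl⟩ := (QuotientGroup.eq_one_iff _).1
        (hN3 (π g) hg k hk (by rw [← map_pow, e1, map_one]))
      have := hz1 (n * k) (by simpa [zpow_mul] using e)
      obtain rfl : n = 0 := (mul_eq_zero.1 this).resolve_right (by omega)
      simp

theorem noeth_of_wgd {Γ : Type*} [Group Γ] {d : ℕ} {S : Set Γ} (hS : S.Finite)
    (hgen : Subgroup.closure S = ⊤) (hw : WGd Γ d) : NoethG Γ := by
  obtain ⟨R, h1, h2, -, h4⟩ := phase1 comm_bot d ⊤ ⟨S, bdd_of_finite hS, hgen⟩ (wgd_iff.1 hw)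
  intro L
  have hR : (R : Set Γ).Finite := bdd_bot_iff.1 h2
  have : R.Normal := ⟨fun r hr g => h1.2 g trivial r hr⟩
  have h5 := h4.quotient
  obtain ⟨T, hT1, hT2⟩ := (Subgroup.fg_iff _).1 (h5 (L.map (QuotientGroup.mk' R)))
  have hT3 : T ⊆ QuotientGroup.mk' R '' L := by
    intro t ht
    have : t ∈ L.map (QuotientGroup.mk' R) := hT1 ▸ Subgroup.subset_closure ht
    exact this
  obtain ⟨T', hT4, hT5, hT6⟩ := Finite.exists_subset_finite_image_eq hT2 hT3
  refine (Subgroup.fg_iff _).2 ⟨T' ∪ (R ∩ L), le_antisymm ?_ fun g hg => ?_,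
    hT5.union (hR.inter_of_left _)⟩
  · rw [Subgroup.closure_le]
    exact union_subset hT4 inter_subset_right
  · have h6 : QuotientGroup.mk' R g ∈ (Subgroup.closure T').map (QuotientGroup.mk' R) := by
      rw [MonoidHom.map_closure, hT6, hT1]
      exact ⟨g, hg, rfl⟩
    obtain ⟨a, ha, hag⟩ := h6
    have h7 : a⁻¹ * g ∈ R := QuotientGroup.eq.1 hag
    have h8 : a ∈ L := (Subgroup.closure_le L).2 hT4 ha
    have h9 : a⁻¹ * g ∈ Subgroup.closure (T' ∪ (R ∩ L)) :=
      Subgroup.subset_closure (Or.inr ⟨h7, L.mul_mem (L.inv_mem h8) hg⟩)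
    simpa using Subgroup.mul_mem _ (Subgroup.closure_mono subset_union_left ha) h9

theorem exists_char {Γ : Type*} [Group Γ] {d : ℕ} {S : Set Γ} (hS : S.Finite)
    (hgen : Subgroup.closure S = ⊤) (hw : WGd Γ d) : ∃ Λ : Subgroup Γ, Λ.Characteristic ∧
      Λ.FiniteIndex ∧ NoethG Λ ∧ Group.IsNilpotent Λ ∧ ∀ (g : Λ) (k : ℕ), 0 < k → g ^ k = 1 → g = 1 := by
  have hN := noeth_of_wgd hS hgen hw
  obtain ⟨N, h1, h2, h3⟩ := phase3 d Γ hN hw
  have := hS.to_subtype
  have : Finite (Γ →* Γ ⧸ N.normalCore) :=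
    .of_injective (fun θ (s : S) => θ s) fun θ θ' e =>
      MonoidHom.eq_of_eqOn_dense hgen fun s hs => congrFun e ⟨s, hs⟩
  have hle : (⨅ θ : Γ →* Γ ⧸ N.normalCore, θ.ker) ≤ N :=
    (iInf_le_of_le (QuotientGroup.mk' _) (QuotientGroup.ker_mk' _).le).trans N.normalCore_le
  refine ⟨⨅ θ : Γ →* Γ ⧸ N.normalCore, θ.ker, Subgroup.characteristic_iff_le_comap.2 fun ϕ g hg =>
    Subgroup.mem_iInf.2 fun θ => Subgroup.mem_iInf.1 hg (θ.comp ϕ.toMonoidHom),
    Subgroup.finiteIndex_iInf fun _ => inferInstance, hN.subgroup _,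
    Group.nilpotent_of_mulEquiv (Subgroup.subgroupOfEquivOfLe hle), fun g k hk e =>
    Subtype.ext (h3 g (hle g.2) k hk (congrArg Subtype.val e))⟩

variable {G : Type*} [Group G]

/-- A characteristic central series with free abelian factors of finite rank. -/
structure Layers (L : ℕ → Subgroup G) (c : ℕ) : Prop where
  top : L 0 = ⊤
  bot : L c = ⊥
  anti : Antitone L
  char : ∀ j, (L j).Characteristic
  comm : ∀ j, ∀ g ∈ L j, ∀ y, g⁻¹ * y⁻¹ * g * y ∈ L (j + 1)
  free : ∀ j, ∃ (r : ℕ) (θ : G → Fin r → ℤ), (∀ g ∈ L j, ∀ g' ∈ L j, θ (g * g') = θ g + θ g') ∧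
    (∀ g ∈ L j, θ g = 0 ↔ g ∈ L (j + 1)) ∧ ∀ v, ∃ g ∈ L j, θ g = v

lemma exists_free (hN : NoethG G) {A B : Subgroup G} [B.Normal] (h1 : ∀ g ∈ A, ∀ y, ⁅g, y⁆ ∈ B)
    (h2 : ∀ g ∈ A, ∀ k : ℕ, 0 < k → g ^ k ∈ B → g ∈ B) :
    ∃ (r : ℕ) (θ : G → Fin r → ℤ), (∀ g ∈ A, ∀ g' ∈ A, θ (g * g') = θ g + θ g') ∧
      (∀ g ∈ A, θ g = 0 ↔ g ∈ B) ∧ ∀ v, ∃ g ∈ A, θ g = v := by
  classical
  set Q := A.map (QuotientGroup.mk' B)
  let _ : CommGroup Q := { (inferInstance : Group Q) with
    mul_comm := by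
      rintro ⟨_, a, ha, rfl⟩ ⟨_, b, hb, rfl⟩
      refine Subtype.ext (commutatorElement_eq_one_iff_mul_comm.1 ?_)
      exact (map_commutatorElement _ a b).symm.trans ((QuotientGroup.eq_one_iff _).2 (h1 a ha b)) }
  have : Group.FG Q := (Group.fg_iff_subgroup_fg _).2
    (hN.of_surjective _ (QuotientGroup.mk'_surjective B) Q)
  have : Module.Finite ℤ (Additive Q) := Module.Finite.iff_addGroup_fg.2 inferInstance
  have : IsMulTorsionFree Q := ⟨fun k hk a b e => by
    obtain ⟨⟨_, g, hg, rfl⟩, rfl⟩ : ∃ c, a = b * c := ⟨b⁻¹ * a, by simp⟩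
    simp only [mul_pow, mul_eq_left] at e ⊢
    exact Subtype.ext ((QuotientGroup.eq_one_iff _).2 (h2 g hg k (Nat.pos_of_ne_zero hk)
      ((QuotientGroup.eq_one_iff _).1 (congrArg Subtype.val e))))⟩
  set e := (Module.finBasis ℤ (Additive Q)).equivFun
  refine ⟨_, fun g => if h : g ∈ A then e (.ofMul ⟨_, g, h, rfl⟩) else 0, fun g hg g' hg' => ?_,
    fun g hg => ?_, fun v => ?_⟩
  · simp only [dif_pos hg, dif_pos hg', dif_pos (A.mul_mem hg hg'), ← map_add]
    rfl
  · simp only [dif_pos hg, map_eq_zero_iff _ e.injective, ofMul_eq_zero]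
    exact Subtype.ext_iff.trans (QuotientGroup.eq_one_iff _)
  · obtain ⟨⟨_, g, hg, rfl⟩, rfl⟩ := (Additive.ofMul.trans e.toEquiv).surjective v
    exact ⟨g, hg, dif_pos hg⟩

theorem exists_layers (hN : NoethG G) [Group.IsNilpotent G]
    (ht : ∀ (g : G) (k : ℕ), 0 < k → g ^ k = 1 → g = 1) : ∃ L c, Layers (G := G) L c := by
  have iso : ∀ i, ∀ g ∈ Subgroup.upperCentralSeries G (i + 1), ∀ k : ℕ, 0 < k →
      g ^ k ∈ Subgroup.upperCentralSeries G i → g ∈ Subgroup.upperCentralSeries G i := by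
    intro i
    induction i with
    | zero => exact fun g _ k hk e => ht g k hk e
    | succ i ih =>
      intro g hg k hk e
      rw [Subgroup.mem_upperCentralSeries_succ_iff] at hg e ⊢
      intro y
      refine ih _ (hg y) k hk ?_
      set π := QuotientGroup.mk' (Subgroup.upperCentralSeries G i)
      have c1 : ∀ z, Commute (π ⁅g, y⁆) (π z) := fun z =>
        commutatorElement_eq_one_iff_commute.1 ((map_commutatorElement _ _ _).symm.trans
          ((QuotientGroup.eq_one_iff _).2 (Subgroup.mem_upperCentralSeries_succ_iff.1 (hg y) z)))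
      have c2 : ∀ k : ℕ, π ⁅g ^ k, y⁆ = π ⁅g, y⁆ ^ k := fun k => by
        induction k with
        | zero => simp
        | succ k ih =>
          have : ⁅g ^ (k + 1), y⁆ = g ^ k * ⁅g, y⁆ * (g ^ k)⁻¹ * ⁅g ^ k, y⁆ := by
            simp only [commutatorElement_def, pow_succ]; group
          rw [this, map_mul, map_mul, map_mul, ← (c1 _).eq, map_inv, mul_inv_cancel_right, ih,
            pow_succ']
      exact (QuotientGroup.eq_one_iff _).1 ((map_pow π _ _).trans ((c2 k).symm.trans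
        ((QuotientGroup.eq_one_iff _).2 (e y))))
  set c := Group.nilpotencyClass G
  have step : ∀ j, ∀ g ∈ Subgroup.upperCentralSeries G (c - j), ∀ y,
      ⁅g, y⁆ ∈ Subgroup.upperCentralSeries G (c - (j + 1)) := fun j g hg y => by
    rcases le_or_gt c j with h | h
    · rw [Nat.sub_eq_zero_of_le h] at hg
      rw [Subgroup.mem_bot.1 hg]
      simp
    · rw [show c - j = c - (j + 1) + 1 by omega] at hg
      exact Subgroup.mem_upperCentralSeries_succ_iff.1 hg y
  refine ⟨fun j => Subgroup.upperCentralSeries G (c - j), c,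
    Subgroup.upperCentralSeries_nilpotencyClass, by simp,
    fun i j h => Subgroup.upperCentralSeries_mono G (by omega), fun _ => inferInstance,
    fun j g hg y => by simpa [commutatorElement_def] using step j _ (inv_mem hg) y⁻¹,
    fun j => exists_free hN (step j) fun g hg k hk e => ?_⟩
  rcases le_or_gt c j with h | h
  · rwa [show c - j = c - (j + 1) by omega] at hg
  · rw [show c - j = c - (j + 1) + 1 by omega] at hg
    exact iso _ g hg k hk e

end Pool.Agent.P.MP_5c499f_an
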