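import Pool.Agent.P.MP_5c499f_an.Shadow

/-! Local computations in the charts of a manifold. -/

set_option autoImplicit false

namespace Pool.Agent.P.MP_5c499f_an

open Bundle Filter Topology Metric
open scoped Manifold ContDiff

lemma unif_near {M : Type*} [MetricSpace M] [CompactSpace M] {R : M → M → M → Prop}
    (h : ∀ c, ∀ᶠ p : M × M × M in 𝓝 (c, c, c), R p.1 p.2.1 p.2.2) :
    ∃ ρ, 0 < ρ ∧ ∀ x y z, dist y x ≤ ρ → dist z x ≤ ρ → R x y z := by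
  obtain ⟨ρ, e1, e2⟩ := (isCompact_range (f := fun c : M => (c, c, c))
    (by fun_prop)).exists_cthickening_subset_open (t := interior {p | R p.1 p.2.1 p.2.2})
    isOpen_interior (by rintro _ ⟨c, rfl⟩; exact mem_interior_iff_mem_nhds.2 (h c))
  refine ⟨ρ, e1, fun x y z hy hz => ?_⟩
  have := interior_subset (e2 (mem_cthickening_of_dist_le (x, y, z) (x, x, x) ρ _ ⟨x, rfl⟩
    (by simp [Prod.dist_eq, hy, hz])))
  exact this

variable {E V : Type*} [NormedAddCommGroup E] [NormedSpace ℝ E] [NormedAddCommGroup V]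
  [NormedSpace ℝ V]

lemma lin_local {G : E → V} {u : E} (hG : ContDiffAt ℝ 1 G u) {θ : ℝ} (hθ : 0 < θ) :
    ∀ᶠ p : E × E × E in 𝓝 (u, u, u),
      ‖G p.2.1 - G p.2.2 - fderiv ℝ G p.1 (p.2.1 - p.2.2)‖ ≤ θ * ‖p.2.1 - p.2.2‖ := by
  have h1 := (hG.hasStrictFDerivAt one_ne_zero).isLittleO.def (half_pos hθ)
  have h2 : ∀ᶠ w in 𝓝 u, dist (fderiv ℝ G w) (fderiv ℝ G u) ≤ θ / 2 :=
    (hG.continuousAt_fderiv one_ne_zero).eventually (closedBall_mem_nhds _ (half_pos hθ))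
  filter_upwards [(continuous_snd.tendsto (u, u, u)).eventually h1,
    (continuous_fst.tendsto (u, u, u)).eventually h2] with p a1 a2
  rw [dist_eq_norm] at a2
  have a3 := (fderiv ℝ G p.1 - fderiv ℝ G u).le_of_opNorm_le a2 (p.2.1 - p.2.2)
  rw [sub_apply, norm_sub_rev] at a3
  linarith [norm_sub_le_norm_sub_add_norm_sub (G p.2.1 - G p.2.2) (fderiv ℝ G u (p.2.1 - p.2.2))
    (fderiv ℝ G p.1 (p.2.1 - p.2.2))]

lemma bilip_local [FiniteDimensional ℝ E] {G : E → V} {u : E} (hG : ContDiffAt ℝ 1 G u)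
    (hi : Function.Injective (fderiv ℝ G u)) : ∃ C, ∀ᶠ p : E × E in 𝓝 (u, u),
      ‖G p.1 - G p.2‖ ≤ C * ‖p.1 - p.2‖ ∧ ‖p.1 - p.2‖ ≤ C * ‖G p.1 - G p.2‖ := by
  obtain ⟨K, k1, k2⟩ := (fderiv ℝ G u : E →ₗ[ℝ] V).exists_antilipschitzWith
    (LinearMap.ker_eq_bot.2 hi)
  have k0 : (0 : ℝ) < K := k1
  refine ⟨‖fderiv ℝ G u‖ + 1 / (2 * K) + 2 * K, ?_⟩
  filter_upwards [(hG.hasStrictFDerivAt one_ne_zero).isLittleO.def
    (show 0 < 1 / (2 * (K : ℝ)) by positivity)] with p a1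
  have a2 := (fderiv ℝ G u).le_opNorm (p.1 - p.2)
  have a3 : ‖p.1 - p.2‖ ≤ K * ‖fderiv ℝ G u (p.1 - p.2)‖ := by
    simpa [dist_eq_norm] using k2.le_mul_dist p.1 p.2
  have a4 := norm_le_norm_add_norm_sub' (G p.1 - G p.2) (fderiv ℝ G u (p.1 - p.2))
  have a5 := norm_le_norm_add_norm_sub (G p.1 - G p.2) (fderiv ℝ G u (p.1 - p.2))
  have a6 : K * (1 / (2 * K) * ‖p.1 - p.2‖) = ‖p.1 - p.2‖ / 2 := by field_simp
  have a7 : 0 ≤ (‖fderiv ℝ G u‖ + 1 / (2 * K)) * ‖G p.1 - G p.2‖ := by positivity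
  constructor
  · nlinarith [norm_nonneg (p.1 - p.2)]
  · nlinarith [mul_le_mul_of_nonneg_left a1 k0.le, mul_le_mul_of_nonneg_left a5 k0.le]

variable {M : Type*} [TopologicalSpace M] [ChartedSpace E M] [IsManifold 𝓘(ℝ, E) 1 M]

variable (E) in
/-- The chart on tangent vectors. -/
noncomputable abbrev J (c x : M) : TangentSpace 𝓘(ℝ, E) x →L[ℝ] E :=
  (trivializationAt E (TangentSpace 𝓘(ℝ, E)) c).continuousLinearMapAt ℝ x

variable (E) in
/-- The inverse chart on tangent vectors. -/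
noncomputable abbrev J' (c x : M) : E →L[ℝ] TangentSpace 𝓘(ℝ, E) x :=
  (trivializationAt E (TangentSpace 𝓘(ℝ, E)) c).symmL ℝ x

lemma J'_J {c x : M} (hx : x ∈ (chartAt E c).source) (v : TangentSpace 𝓘(ℝ, E) x) :
    J' E c x (J E c x v) = v :=
  Trivialization.symmL_continuousLinearMapAt _ (by simpa) v

lemma J_J' {c x : M} (hx : x ∈ (chartAt E c).source) (v : E) : J E c x (J' E c x v) = v :=
  Trivialization.continuousLinearMapAt_symmL _ (by simpa) v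

lemma contMDiffAt_symm {c x : M} (hx : x ∈ (chartAt E c).source) :
    ContMDiffAt 𝓘(ℝ, E) 𝓘(ℝ, E) 1 (extChartAt 𝓘(ℝ, E) c).symm (extChartAt 𝓘(ℝ, E) c x) :=
  (contMDiffOn_extChartAt_symm c).contMDiffAt (extChartAt_target_mem_nhds'
    ((extChartAt 𝓘(ℝ, E) c).map_source (by simpa)))

lemma contDiffAt_chart {g : M → V} {c x : M} (hx : x ∈ (chartAt E c).source)
    (hg : ContMDiffAt 𝓘(ℝ, E) 𝓘(ℝ, V) 1 g x) :
    ContDiffAt ℝ 1 (g ∘ (extChartAt 𝓘(ℝ, E) c).symm) (extChartAt 𝓘(ℝ, E) c x) :=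
  contMDiffAt_iff_contDiffAt.1 (hg.comp_of_eq (contMDiffAt_symm hx)
    ((extChartAt 𝓘(ℝ, E) c).left_inv (by simpa)))

lemma fderiv_chart {g : M → V} {c x : M} (hx : x ∈ (chartAt E c).source)
    (hg : MDifferentiableAt 𝓘(ℝ, E) 𝓘(ℝ, V) g x) (v : E) :
    fderiv ℝ (g ∘ (extChartAt 𝓘(ℝ, E) c).symm) (extChartAt 𝓘(ℝ, E) c x) v =
      mfderiv 𝓘(ℝ, E) 𝓘(ℝ, V) g x (J' E c x v) := by
  have h1 : (extChartAt 𝓘(ℝ, E) c).symm (extChartAt 𝓘(ℝ, E) c x) = x :=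
    (extChartAt 𝓘(ℝ, E) c).left_inv (by simpa)
  rw [← mfderiv_eq_fderiv, mfderiv_comp_of_eq hg
    ((contMDiffAt_symm hx).mdifferentiableAt one_ne_zero) h1, J',
    TangentBundle.symmL_trivializationAt hx, modelWithCornersSelf_coe, Set.range_id,
    mfderivWithin_univ]
  exact congrArg (fun y : M => (mfderiv 𝓘(ℝ, E) 𝓘(ℝ, V) g y : E →L[ℝ] V) _) h1

variable (E) in
/-- The derivative read in two charts. -/
noncomputable def Bd (F : M → M) (c c' x : M) : E →L[ℝ] E :=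
  fderiv ℝ ((extChartAt 𝓘(ℝ, E) c' ∘ F) ∘ (extChartAt 𝓘(ℝ, E) c).symm) (extChartAt 𝓘(ℝ, E) c x)

lemma Bd_apply {F : M → M} {c c' x : M} (hx : x ∈ (chartAt E c).source)
    (hx' : F x ∈ (chartAt E c').source) (hF : MDifferentiableAt 𝓘(ℝ, E) 𝓘(ℝ, E) F x) (v : E) :
    Bd E F c c' x v = J E c' (F x) (mfderiv 𝓘(ℝ, E) 𝓘(ℝ, E) F x (J' E c x v)) := by
  rw [Bd, fderiv_chart hx ((mdifferentiableAt_extChartAt hx').comp x hF),
    mfderiv_comp x (mdifferentiableAt_extChartAt hx') hF, J,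
    TangentBundle.continuousLinearMapAt_trivializationAt hx']
  rfl

lemma Bd_local {F : M → M} {c c' x : M} (hx : x ∈ (chartAt E c).source)
    (hx' : F x ∈ (chartAt E c').source) (hF : ContMDiffAt 𝓘(ℝ, E) 𝓘(ℝ, E) 1 F x) {θ : ℝ}
    (hθ : 0 < θ) : ∀ᶠ p : M × M × M in 𝓝 (x, x, x),
      ‖extChartAt 𝓘(ℝ, E) c' (F p.2.1) - extChartAt 𝓘(ℝ, E) c' (F p.2.2) - Bd E F c c' p.1
        (extChartAt 𝓘(ℝ, E) c p.2.1 - extChartAt 𝓘(ℝ, E) c p.2.2)‖ ≤
        θ * ‖extChartAt 𝓘(ℝ, E) c p.2.1 - extChartAt 𝓘(ℝ, E) c p.2.2‖ := by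
  have h1 := lin_local (contDiffAt_chart hx ((contMDiffAt_extChartAt' hx').comp x hF)) hθ
  have h2 : x ∈ (extChartAt 𝓘(ℝ, E) c).source := by simpa
  have h3 := continuousAt_extChartAt' h2
  have h4 := extChartAt_source_mem_nhds' h2
  filter_upwards [(h3.prodMap (h3.prodMap h3)).eventually h1,
    (continuous_snd.fst.tendsto (x, x, x)).eventually h4,
    (continuous_snd.snd.tendsto (x, x, x)).eventually h4] with p a1 a2 a3
  simp only [Prod.map_fst, Prod.map_snd, Function.comp_apply, (extChartAt 𝓘(ℝ, E) c).left_inv a2,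
    (extChartAt 𝓘(ℝ, E) c).left_inv a3] at a1
  exact a1

variable (E) in
/-- A tangent bundle endomorphism read in a chart. -/
noncomputable def Qd (P : ∀ x : M, TangentSpace 𝓘(ℝ, E) x →L[ℝ] TangentSpace 𝓘(ℝ, E) x)
    (c x : M) : E →L[ℝ] E := J E c x ∘L P x ∘L J' E c x

lemma Qd_continuousAt [FiniteDimensional ℝ E]
    {P : ∀ x : M, TangentSpace 𝓘(ℝ, E) x →L[ℝ] TangentSpace 𝓘(ℝ, E) x}
    (hP : Continuous fun p : TangentBundle 𝓘(ℝ, E) M => (⟨p.1, P p.1 p.2⟩ : TangentBundle 𝓘(ℝ, E) M))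
    {c x : M} (hx : x ∈ (chartAt E c).source) : ContinuousAt (Qd E P c) x := by
  refine ContinuousOn.continuousAt ?_ ((chartAt E c).open_source.mem_nhds hx)
  refine continuousOn_clm_apply.2 fun v => ?_
  set e := trivializationAt E (TangentSpace 𝓘(ℝ, E)) c
  have h1 := e.continuousOn_symm.comp (f := fun x : M => (x, v)) (s := e.baseSet) (by fun_prop)
    fun x hx => ⟨hx, trivial⟩
  have h2 := continuous_snd.comp_continuousOn (e.continuousOn.comp (hP.comp_continuousOn h1)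
    fun x hx => e.mem_source.2 hx)
  refine h2.congr fun x hx => ?_
  have hx' : x ∈ e.baseSet := hx
  simp only [Qd, J, J', ContinuousLinearMap.comp_apply, Trivialization.continuousLinearMapAt_apply,
    Function.comp_apply]
  rw [Trivialization.coe_linearMapAt_of_mem _ hx', Trivialization.symmL_apply _ hx']

end Pool.Agent.P.MP_5c499f_an
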