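import Pool.Agent.P.MP_5c499f_an.Poly

/-! The Malcev completion in coordinates. -/

set_option autoImplicit false

namespace Pool.Agent.P.MP_5c499f_an

open scoped ContDiff

/-- Vector valued functions with coefficients in an algebra of real functions. -/
inductive IsP {Y W : Type*} [AddCommGroup W] [Module ℝ W] (𝒜 : Subalgebra ℝ (Y → ℝ)) :
    (Y → W) → Prop
  | base (a : Y → ℝ) (w : W) : a ∈ 𝒜 → IsP 𝒜 fun y => a y • w
  | add (f g : Y → W) : IsP 𝒜 f → IsP 𝒜 g → IsP 𝒜 fun y => f y + g y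

section IsP

variable {Y W W' A : Type*} [AddCommGroup W] [Module ℝ W] [AddCommGroup W'] [Module ℝ W'] [Ring A]
  [Algebra ℝ A] {𝒜 : Subalgebra ℝ (Y → ℝ)}

lemma IsP.const (w : W) : IsP 𝒜 fun _ : Y => w := by simpa using IsP.base 1 w 𝒜.one_mem

lemma IsP.map {f : Y → W} (h : IsP 𝒜 f) (l : W →ₗ[ℝ] W') : IsP 𝒜 fun y => l (f y) := by
  induction h with
  | base a w ha => simpa using IsP.base a (l w) ha
  | add f g _ _ h1 h2 => simpa using h1.add _ _ h2

lemma IsP.mem {f : Y → ℝ} (h : IsP 𝒜 f) : f ∈ 𝒜 := by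
  induction h with
  | base a w ha => convert 𝒜.smul_mem ha w using 1; ext; simp [mul_comm]
  | add f g _ _ h1 h2 => exact 𝒜.add_mem h1 h2

lemma IsP.of_mem {f : Y → ℝ} (h : f ∈ 𝒜) : IsP 𝒜 f := by simpa using IsP.base f (1 : ℝ) h

lemma IsP.mul {f g : Y → A} (h : IsP 𝒜 f) (h' : IsP 𝒜 g) : IsP 𝒜 fun y => f y * g y := by
  induction h with
  | add f g _ _ h1 h2 => simpa [add_mul] using h1.add _ _ h2
  | base a w ha =>
    induction h' with
    | add f g _ _ h1 h2 => simpa [mul_add] using h1.add _ _ h2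
    | base b v hb => simpa [smul_smul, mul_comm] using IsP.base (a * b) (w * v) (𝒜.mul_mem ha hb)

lemma IsP.sum {ι : Type*} {f : ι → Y → W} (s : Finset ι) (h : ∀ i, IsP 𝒜 (f i)) :
    IsP 𝒜 fun y => ∑ i ∈ s, f i y := by
  classical
  induction s using Finset.induction_on with
  | empty => simpa using IsP.const 0
  | insert i s hi ih => simpa [hi] using (h i).add _ _ ih

lemma IsP.prod {m : ℕ} {f : Fin m → Y → A} (h : ∀ i, IsP 𝒜 (f i)) :
    (IsP 𝒜 fun y => (List.ofFn fun i => f i y).prod) ∧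
      IsP 𝒜 fun y => (List.ofFn fun i => f i y).reverse.prod := by
  induction m with
  | zero => simpa using IsP.const 1
  | succ m ih =>
    obtain ⟨i1, i2⟩ := ih fun i => h i.succ
    simpa [List.ofFn_succ] using ⟨(h 0).mul i1, by simpa using i2.mul (h 0)⟩

/-- Polynomial functions. -/
noncomputable def polAlg (σ : Type*) : Subalgebra ℝ ((σ → ℝ) → ℝ) :=
  (MvPolynomial.aeval fun (i : σ) (t : σ → ℝ) => t i).range

lemma co_mem {σ : Type*} (i : σ) : (fun t : σ → ℝ => t i) ∈ polAlg σ :=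
  ⟨MvPolynomial.X i, MvPolynomial.aeval_X _ _⟩

lemma dens {σ : Type*} {f g : (σ → ℝ) → W} (hf : IsP (polAlg σ) f) (hg : IsP (polAlg σ) g)
    (h : ∀ n : σ → ℕ, f (fun i => n i) = g fun i => n i) (t : σ → ℝ) : f t = g t := by
  refine sub_eq_zero.1 ((Module.forall_dual_apply_eq_zero_iff ℝ _).1 fun l => ?_)
  obtain ⟨p, hp⟩ := (hf.map l).mem
  obtain ⟨q, hq⟩ := (hg.map l).mem
  have e : ∀ (p : MvPolynomial σ ℝ) t, (MvPolynomial.aeval fun (i : σ) (t : σ → ℝ) => t i) p t =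
      MvPolynomial.eval t p := fun p t => by
    induction p using MvPolynomial.induction_on <;> simp [*]
  have : p = q := MvPolynomial.funext_set (fun _ => Set.range ((↑) : ℕ → ℝ))
    (fun _ => Set.infinite_range_of_injective Nat.cast_injective) fun x hx => by
      choose n hn using fun i => hx i trivial
      obtain rfl : x = fun i => (n i : ℝ) := funext fun i => (hn i).symm
      rw [← e, ← e]
      exact (congrFun hp _).trans ((congrArg l (h n)).trans (congrFun hq _).symm)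
  rw [map_sub, sub_eq_zero]
  exact (congrFun hp t).symm.trans (this ▸ congrFun hq t)

/-- Smooth functions. -/
def smAlg (Y : Type*) [NormedAddCommGroup Y] [NormedSpace ℝ Y] : Subalgebra ℝ (Y → ℝ) where
  carrier := {f | ContDiff ℝ ∞ f}
  mul_mem' {a b} (h : ContDiff ℝ ∞ a) (h' : ContDiff ℝ ∞ b) := h.mul h'
  add_mem' {a b} (h : ContDiff ℝ ∞ a) (h' : ContDiff ℝ ∞ b) := h.add h'
  algebraMap_mem' r := show ContDiff ℝ ∞ (fun _ => r) from contDiff_const

lemma mem_smAlg {Y : Type*} [NormedAddCommGroup Y] [NormedSpace ℝ Y] {f : Y → ℝ}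
    (h : ContDiff ℝ ∞ f) : f ∈ smAlg Y := h

/-- Real powers of unipotent elements. -/
noncomputable def pw (D : ℕ) (u : A) (s : ℝ) : A :=
  ∑ k ∈ Finset.range D, ((descPochhammer ℝ k).eval s / k.factorial) • (u - 1) ^ k

lemma IsP.pw (D : ℕ) (u : A) {g : Y → ℝ} (hg : g ∈ 𝒜) : IsP 𝒜 fun y => pw D u (g y) := by
  refine IsP.sum _ fun k => IsP.base _ _ ?_
  convert 𝒜.smul_mem (Algebra.adjoin_le (Set.singleton_subset_iff.2 hg)
    (Polynomial.aeval_mem_adjoin_singleton ℝ (p := descPochhammer ℝ k) g)) (k.factorial : ℝ)⁻¹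
    using 1
  ext y
  simp [div_eq_inv_mul, Polynomial.aeval_fn_apply]

variable {D : ℕ} {u : A} (hu : (u - 1) ^ D = 0)
include hu

lemma pw_nat (n : ℕ) : pw D u n = u ^ n := by
  have h1 := (Commute.one_right (u - 1)).add_pow n
  rw [sub_add_cancel] at h1
  rw [h1, pw, Finset.sum_subset (Finset.range_subset_range.2 (Nat.le_add_left D (n + 1))),
    Finset.sum_subset (Finset.range_subset_range.2 (Nat.le_add_right (n + 1) D))]
  · refine Finset.sum_congr rfl fun k _ => ?_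
    rw [descPochhammer_eval_eq_descFactorial, Nat.descFactorial_eq_factorial_mul_choose,
      Nat.cast_mul, mul_div_cancel_left₀ _ (by positivity), one_pow, mul_one, Nat.cast_smul_eq_nsmul,
      nsmul_eq_mul']
  · intro k _ hk
    rw [Nat.choose_eq_zero_of_lt (by simpa using hk), Nat.cast_zero, mul_zero]
  · intro k _ hk
    rw [pow_eq_zero_of_le (by simpa using hk) hu, smul_zero]

lemma pw_add (s s' : ℝ) : pw D u (s + s') = pw D u s * pw D u s' :=
  dens (f := fun t : Fin 2 → ℝ => pw D u (t 0 + t 1)) (g := fun t => pw D u (t 0) * pw D u (t 1))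
    (IsP.pw _ _ (add_mem (co_mem 0) (co_mem 1))) ((IsP.pw _ _ (co_mem 0)).mul (IsP.pw _ _ (co_mem 1)))
    (fun n => by simp only [← Nat.cast_add, pw_nat hu, pow_add]) ![s, s']

lemma pw_neg (s : ℝ) : pw D u (-s) * pw D u s = 1 := by
  rw [← pw_add hu, neg_add_cancel, ← Nat.cast_zero, pw_nat hu, pow_zero]

end IsP

/-- A smooth group law on a coordinate space, with neutral element `0`. -/
structure Law (m : ℕ) where
  /-- multiplication -/
  mul : (Fin m → ℝ) → (Fin m → ℝ) → Fin m → ℝ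
  /-- inversion -/
  inv : (Fin m → ℝ) → Fin m → ℝ
  assoc : ∀ a b c, mul (mul a b) c = mul a (mul b c)
  zero_mul : ∀ a, mul 0 a = a
  inv_mul : ∀ a, mul (inv a) a = 0
  sm : ContDiff ℝ ∞ fun p : (Fin m → ℝ) × (Fin m → ℝ) => mul p.1 p.2
  si : ContDiff ℝ ∞ inv

/-- The group defined by a law. -/
def Law.N {m : ℕ} (_μ : Law m) : Type := Fin m → ℝ

namespace Law

variable {m : ℕ} (μ : Law m)

noncomputable instance : NormedAddCommGroup μ.N := inferInstanceAs (NormedAddCommGroup (Fin m → ℝ))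
noncomputable instance : NormedSpace ℝ μ.N := inferInstanceAs (NormedSpace ℝ (Fin m → ℝ))
instance : FiniteDimensional ℝ μ.N := inferInstanceAs (FiniteDimensional ℝ (Fin m → ℝ))
instance : Mul μ.N := ⟨μ.mul⟩
instance : Inv μ.N := ⟨μ.inv⟩
instance : One μ.N := ⟨(0 : Fin m → ℝ)⟩
instance : Group μ.N := Group.ofLeftAxioms μ.assoc μ.zero_mul μ.inv_mul

/-- Vanishing of the coordinates of level less than `j`. -/
def W (lv : Fin m → ℕ) (j : ℕ) (z : μ.N) : Prop := ∀ i, lv i < j → z i = 0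

/-- The law is triangular with respect to the levels. -/
structure Tri (lv : Fin m → ℕ) (c : ℕ) : Prop where
  lt : ∀ i, lv i < c
  add : ∀ j (n z : μ.N), μ.W lv j z → ∀ i, lv i ≤ j → (n * z) i = n i + z i
  add' : ∀ j (n z : μ.N), μ.W lv j z → ∀ i, lv i ≤ j → (z * n) i = n i + z i

/-- Smooth automorphisms preserving the filtration. -/
structure Good (lv : Fin m → ℕ) (A : MulAut μ.N) : Prop where
  sm : ContDiff ℝ ∞ A
  mem : ∀ j z, μ.W lv j z → μ.W lv j (A z)

end Law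

variable {G : Type*} [Group G]

/-- The space of polynomial functions of bounded degree. -/
def PolSp (G : Type*) [Group G] (D : ℕ) : Submodule ℝ (G → ℝ) where
  carrier := {φ | Pol ⊤ D φ}
  add_mem' := Pol.add
  zero_mem' := Pol.zero _
  smul_mem' c _ h := h.smul c

/-- Affine substitutions acting on polynomial functions. -/
def subs (D : ℕ) (f : G →* G) (y : G) : Module.End ℝ (PolSp G D) where
  toFun φ := ⟨fun g => φ.1 (f g * y), Pol.comp φ.2 f y⟩
  map_add' _ _ := rfl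
  map_smul' _ _ := rfl

/-- The regular representation. -/
def rho (D : ℕ) : G →* Module.End ℝ (PolSp G D) where
  toFun := subs D (MonoidHom.id G)
  map_one' := by ext; simp [subs]
  map_mul' a b := by ext; simp [subs, mul_assoc]

/-- The action of automorphisms. -/
def tau (D : ℕ) : MulAut G →* Module.End ℝ (PolSp G D) where
  toFun Ψ := subs D (Ψ⁻¹ : MulAut G).toMonoidHom 1
  map_one' := by ext; simp [subs]
  map_mul' a b := by ext; simp [subs]

lemma tau_rho (D : ℕ) (Ψ : MulAut G) (g : G) : tau D Ψ * rho D g * tau D Ψ⁻¹ = rho D (Ψ g) := by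
  ext; simp [subs, tau, rho]

lemma rho_nil (D : ℕ) (g : G) : (rho D g - 1) ^ D = 0 := by
  have : ∀ d (φ : PolSp G D), Pol ⊤ d φ.1 → ((rho D g - 1) ^ d) φ = 0 := fun d => by
    induction d with
    | zero => exact fun φ h => Subtype.ext h
    | succ d ih => exact fun φ h => by rw [pow_succ]; exact ih _ (h g trivial)
  exact LinearMap.ext fun φ => this D φ φ.2

lemma pw_int {A : Type*} [Ring A] [Algebra ℝ A] {D : ℕ} {ρ : G →* A} (hρ : ∀ g, (ρ g - 1) ^ D = 0)
    (g : G) (n : ℤ) : pw D (ρ g) n = ρ (g ^ n) := by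
  obtain ⟨k, rfl | rfl⟩ := n.eq_nat_or_neg
  · simp [pw_nat (hρ g)]
  · have := pw_neg (hρ g) k
    rw [pw_nat (hρ g), ← map_pow] at this
    rw [Int.cast_neg, Int.cast_natCast, ← mul_one (pw _ _ _), ← map_one ρ,
      ← mul_inv_cancel (g ^ k), map_mul, ← mul_assoc, this, one_mul, zpow_neg, zpow_natCast]

theorem malcev_aux {L : ℕ → Subgroup G} {c : ℕ} (hL : Layers L c) {m : ℕ} {x : Fin m → G}
    {lv : Fin m → ℕ} {t : G → Fin m → ℝ} {D : ℕ} (h : Bas L c 0 ⊤ x lv t D) {A : Type*} [Ring A]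
    [Algebra ℝ A] {ρ : G →* A} (hρ : ∀ g, (ρ g - 1) ^ D = 0) {T : MulAut G →* A}
    (hT : ∀ Ψ g, T Ψ * ρ g * T Ψ⁻¹ = ρ (Ψ g)) {τ : A →ₗ[ℝ] Fin m → ℝ} (t1 : ∀ g, τ (ρ g) = t g) :
    ∃ (μ : Law m) (ι : G →* μ.N) (κ : MulAut G →* MulAut μ.N),
      μ.Tri lv c ∧ Function.Injective ι ∧ (∀ g i, ∃ k : ℤ, ι g i = k) ∧
      (∀ n : Fin m → ℤ, ∃ g, ι g = fun i => (n i : ℝ)) ∧ (∀ Ψ, μ.Good lv (κ Ψ)) ∧
      (∀ Ψ g, κ Ψ (ι g) = ι (Ψ g)) ∧ ∀ g, κ (MulAut.conj g) = MulAut.conj (ι g) := by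
  set X : (Fin m → ℝ) → A := fun s => (List.ofFn fun i => pw D (ρ (x i)) (s i)).prod with hX
  set X' : (Fin m → ℝ) → A :=
    fun s => (List.ofFn fun i => pw D (ρ (x i)) (-s i)).reverse.prod with hX'
  have p1 : ∀ {Y : Type} {𝒜 : Subalgebra ℝ (Y → ℝ)} {g : Y → Fin m → ℝ},
      (∀ i, (fun y => g y i) ∈ 𝒜) → IsP 𝒜 fun y => X (g y) :=
    fun hg => (IsP.prod fun i => IsP.pw _ _ (hg i)).1
  have p2 : ∀ {Y : Type} {𝒜 : Subalgebra ℝ (Y → ℝ)} {g : Y → Fin m → ℝ},
      (∀ i, (fun y => g y i) ∈ 𝒜) → IsP 𝒜 fun y => X' (g y) :=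
    fun hg => (IsP.prod fun i => IsP.pw _ _ (neg_mem (hg i))).2
  have p3 : ∀ {Y : Type} {𝒜 : Subalgebra ℝ (Y → ℝ)} {f : Y → A},
      IsP 𝒜 f → ∀ i, (fun y => τ (f y) i) ∈ 𝒜 :=
    fun hf i => (hf.map ((LinearMap.proj i).comp τ)).mem
  have x1 : ∀ n : Fin m → ℤ, X (fun i => n i) = ρ (Pw x n) := fun n => by
    simp only [hX, Pw, map_list_prod, List.map_ofFn, pw_int hρ]; rfl
  have x1' : ∀ n : Fin m → ℕ, X (fun i => n i) = ρ (Pw x fun i => n i) := fun n => by
    simpa using x1 fun i => n i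
  have tc : ∀ n, t (Pw x n) = fun i => (n i : ℝ) := fun n => funext (h.co n)
  have x2 : ∀ g, X (t g) = ρ g := fun g => by
    obtain ⟨n, rfl⟩ := h.surj g trivial
    rw [tc, x1]
  have x3 : ∀ s, τ (X s) = s := dens ((p1 co_mem).map τ) (by
    convert IsP.sum (W := Fin m → ℝ) Finset.univ fun i =>
      (IsP.of_mem (co_mem i)).map (LinearMap.single ℝ (fun _ => ℝ) i) using 2
    exact (Finset.univ_sum_single _).symm) fun n => by
    rw [x1', t1, tc]; simp
  have inj : ∀ s s', X s = X s' → s = s' := fun s s' e => by rw [← x3 s, e, x3]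
  have key : ∀ {σ : Type} {f : (σ → ℝ) → A}, IsP (polAlg σ) f →
      (∀ n : σ → ℕ, ∃ g, f (fun i => n i) = ρ g) → ∀ s, X (τ (f s)) = f s :=
    fun hf e => dens (p1 (p3 hf)) hf fun n => by
      obtain ⟨g, hg⟩ := e n
      rw [hg, t1, x2]
  have x4 : ∀ s s', X (τ (X s * X s')) = X s * X s' := fun s s' =>
    key (f := fun p : Fin m ⊕ Fin m → ℝ => X (fun i => p (.inl i)) * X fun i => p (.inr i))
      ((p1 fun i => co_mem _).mul (p1 fun i => co_mem _))
      (fun n => ⟨_, by rw [x1', x1', ← map_mul]⟩) (Sum.elim s s')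
  have x5 : ∀ s, X' s * X s = 1 := fun s => by
    have : ∀ {k : ℕ} (a b : Fin k → A), (∀ i, a i * b i = 1) →
        (List.ofFn a).reverse.prod * (List.ofFn b).prod = 1 := fun {k} => by
      induction k with
      | zero => simp
      | succ k ih =>
        intro a b e
        simp only [List.ofFn_succ, List.reverse_cons, List.prod_append, List.prod_cons,
          List.prod_nil, mul_one]
        rw [mul_assoc, ← mul_assoc (a 0), e, one_mul]
        exact ih _ _ fun i => e _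
    exact this _ _ fun i => pw_neg (hρ _) _
  have x6 : ∀ s, X (τ (X' s)) = X' s := key (p2 co_mem) fun n => ⟨(Pw x fun i => n i)⁻¹, by
    rw [← mul_one (X' _), ← map_one ρ, ← mul_inv_cancel (Pw x fun i => n i), map_mul, ← x1',
      ← mul_assoc, x5, one_mul]⟩
  have pw0 : Pw x 0 = 1 := by simp [Pw]
  have x7 : X 0 = 1 := by simpa [pw0, ← Pi.zero_def] using x1 0
  have x8 : ∀ Ψ s, X (τ (T Ψ * X s * T Ψ⁻¹)) = T Ψ * X s * T Ψ⁻¹ := fun Ψ =>
    key (((IsP.const _).mul (p1 co_mem)).mul (IsP.const _)) fun n => ⟨_, by rw [x1', hT]⟩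
  let μ : Law m :=
    { mul := fun s s' => τ (X s * X s')
      inv := fun s => τ (X' s)
      assoc := fun a b c => by rw [x4, x4, mul_assoc]
      zero_mul := fun a => by rw [x7, one_mul, x3]
      inv_mul := fun a => by rw [x6, x5, ← x7, x3]
      sm := contDiff_pi.2 (p3 (𝒜 := smAlg _) ((p1 fun i => mem_smAlg (by fun_prop)).mul
        (p1 fun i => mem_smAlg (by fun_prop))))
      si := contDiff_pi.2 (p3 (𝒜 := smAlg _) (p2 fun i => mem_smAlg (by fun_prop))) }
  have m1 : ∀ a b : μ.N, X (a * b) = X a * X b := x4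
  have k1 : ∀ Ψ Ψ' s, τ (T Ψ * X (τ (T Ψ' * X s * T Ψ'⁻¹)) * T Ψ⁻¹) =
      τ (T (Ψ * Ψ') * X s * T (Ψ * Ψ')⁻¹) := fun Ψ Ψ' s => by
    rw [x8]
    simp only [mul_inv_rev, map_mul, mul_assoc]
  have k2 : ∀ Ψ a b, τ (T Ψ * X (τ (X a * X b)) * T Ψ⁻¹) =
      τ (X (τ (T Ψ * X a * T Ψ⁻¹)) * X (τ (T Ψ * X b * T Ψ⁻¹))) := fun Ψ a b => by
    rw [x4, x8, x8, mul_assoc _ (T Ψ⁻¹), ← mul_assoc (T Ψ⁻¹), ← mul_assoc (T Ψ⁻¹), ← map_mul T]
    simp [mul_assoc]
  let κ : MulAut G →* MulAut μ.N :=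
    { toFun := fun Ψ =>
        { toFun := fun s => τ (T Ψ * X s * T Ψ⁻¹)
          invFun := fun s => τ (T Ψ⁻¹ * X s * T Ψ⁻¹⁻¹)
          left_inv := fun s => (k1 _ _ s).trans (by simpa using x3 s)
          right_inv := fun s => (k1 _ _ s).trans (by simpa using x3 s)
          map_mul' := k2 Ψ }
      map_one' := MulEquiv.ext fun s => show τ (T 1 * X s * T 1⁻¹) = s by simpa using x3 s
      map_mul' := fun Ψ Ψ' => MulEquiv.ext fun s => (k1 Ψ Ψ' s).symm }
  let ι : G →* μ.N := MonoidHom.mk' t fun a b => inj _ _ ((x2 _).trans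
    (((m1 _ _).trans (by rw [x2, x2, map_mul])).symm))
  have pr : ∀ {σ : Type} (j : ℕ) (e : Fin m → σ) i,
      (fun p : σ → ℝ => if lv i < j then 0 else p (e i)) ∈ polAlg σ := fun j e i => by
    split_ifs
    exacts [zero_mem _, co_mem _]
  have pr' : ∀ (j : ℕ) (n : Fin m → ℕ), (fun i => if lv i < j then (0 : ℝ) else n i) =
      fun i => ((if lv i < j then 0 else n i : ℕ) : ℝ) := fun j n => by ext; simp
  have pr'' : ∀ j (z : μ.N), μ.W lv j z → (fun i => if lv i < j then (0 : ℝ) else z i) = z :=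
    fun j z hz => funext fun i => by split_ifs with e; exacts [(hz i e).symm, rfl]
  have lev : ∀ j n g, (Pw x n)⁻¹ * g ∈ L j → ∀ i, lv i < j → t g i = n i := fun j n g e i hi => by
    obtain ⟨n', rfl⟩ := h.surj g trivial
    rw [h.co, (h.lev j n n').1 e i hi]
  refine ⟨μ, ι, κ, ⟨h.lt, fun j n z hz i hi => ?_, fun j n z hz i hi => ?_⟩,
    fun a b e => ?_, fun g i => ?_, fun n => ⟨_, tc n⟩, fun Ψ => ⟨contDiff_pi.2 (p3 (𝒜 := smAlg _)
      (((IsP.const _).mul (p1 fun i => mem_smAlg (contDiff_apply ℝ ℝ i))).mul (IsP.const _))),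
      fun j z hz i hi => ?_⟩, fun Ψ g => ?_, fun g => MulEquiv.ext fun s => inj _ _ ?_⟩
  · have := dens (f := fun p : Fin m ⊕ Fin m → ℝ => τ (X (fun i => p (.inl i)) *
        X fun i => if lv i < j then 0 else p (.inr i)) i)
      (g := fun p => p (.inl i) + if lv i < j then 0 else p (.inr i))
      (.of_mem (p3 ((p1 fun i => co_mem _).mul (p1 (pr j _))) i))
      (.of_mem (add_mem (co_mem _) (pr j _ i))) (fun n => by
        rw [pr', x1', x1', ← map_mul, t1, lev _ _ _ (Bas.add hL h.mem' (j := j) _ fun i e => by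
          simp [e]).2 i (by omega)]
        simp) (Sum.elim n z)
    simp only [Sum.elim_inl, Sum.elim_inr, pr'' j z hz, congrFun (pr'' j z hz) i] at this
    exact this
  · have := dens (f := fun p : Fin m ⊕ Fin m → ℝ => τ ((X fun i => if lv i < j then 0 else
        p (.inr i)) * X fun i => p (.inl i)) i)
      (g := fun p => p (.inl i) + if lv i < j then 0 else p (.inr i))
      (.of_mem (p3 ((p1 (pr j _)).mul (p1 fun i => co_mem _)) i))
      (.of_mem (add_mem (co_mem _) (pr j _ i))) (fun n => by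
        obtain ⟨b1, b2⟩ := Bas.add hL h.mem' (j := j) (fun i => (n (.inl i) : ℕ))
          (n' := fun i => ((if lv i < j then 0 else n (.inr i) : ℕ) : ℤ)) fun i e => by simp [e]
        rw [pr', x1', x1', ← map_mul, t1, lev (j + 1) _ _ (by
          simpa [mul_assoc] using mul_mem b2 (hL.comm j _ b1 (Pw x fun i => (n (.inl i) : ℕ)))
          ) i (by omega)]
        simp) (Sum.elim n z)
    simp only [Sum.elim_inl, Sum.elim_inr, pr'' j z hz, congrFun (pr'' j z hz) i] at this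
    exact this
  · obtain ⟨n, rfl⟩ := h.surj a trivial
    obtain ⟨n', rfl⟩ := h.surj b trivial
    have : t (Pw x n) = t (Pw x n') := e
    rw [tc, tc] at this
    rw [show n = n' from funext fun i => by exact_mod_cast congrFun this i]
  · obtain ⟨n, rfl⟩ := h.surj g trivial
    exact ⟨_, h.co n i⟩
  · have := dens (f := fun p : Fin m → ℝ => τ (T Ψ *
        (X fun i => if lv i < j then 0 else p i) * T Ψ⁻¹) i) (g := fun _ => 0)
      (.of_mem (p3 (((IsP.const _).mul (p1 (pr j id))).mul (IsP.const _)) i)) (.const _)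
      (fun n => by
        rw [pr', x1', hT, t1, lev j 0 _ (by
          simpa [pw0] using Subgroup.characteristic_iff_le_comap.1 (hL.char j) Ψ
            (Bas.add hL h.mem' (j := j) 0 fun i e => by simp [e]).1) i hi]
        simp) z
    rwa [pr'' j z hz] at this
  · change τ (T Ψ * X (t g) * T Ψ⁻¹) = t (Ψ g)
    rw [x2, hT, t1]
  · rw [MulAut.conj_apply, m1, m1, ← map_inv]
    refine (x8 _ s).trans ?_
    change _ = X (t g) * X s * X (t g⁻¹)
    rw [x2, x2]
    exact dens (((IsP.const _).mul (p1 co_mem)).mul (IsP.const _))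
      (((IsP.const _).mul (p1 co_mem)).mul (IsP.const _))
      (fun n => by rw [x1', hT, ← map_mul, ← map_mul]; rfl) s

theorem malcev {L : ℕ → Subgroup G} {c : ℕ} (hL : Layers L c) :
    ∃ (m : ℕ) (lv : Fin m → ℕ) (μ : Law m) (ι : G →* μ.N) (κ : MulAut G →* MulAut μ.N),
      μ.Tri lv c ∧ Function.Injective ι ∧ (∀ g i, ∃ k : ℤ, ι g i = k) ∧
      (∀ n : Fin m → ℤ, ∃ g, ι g = fun i => (n i : ℝ)) ∧ (∀ Ψ, μ.Good lv (κ Ψ)) ∧
      (∀ Ψ g, κ Ψ (ι g) = ι (Ψ g)) ∧ ∀ g, κ (MulAut.conj g) = MulAut.conj (ι g) := by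
  obtain ⟨m, x, lv, t, D, h⟩ := hL.exists_bas
  exact ⟨m, lv, malcev_aux hL h (A := Module.End ℝ (PolSp G D)) (rho_nil D) (tau_rho D)
    (τ := { toFun := fun u i => (u ⟨_, h.pol i⟩).1 1
            map_add' := fun _ _ => rfl
            map_smul' := fun _ _ => rfl }) fun g => by ext; simp [rho, subs]⟩

end Pool.Agent.P.MP_5c499f_an
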