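import Pool.Agent.P.MP_5c499f_an.Local

/-! The uniform chart system of a compact manifold. -/

set_option autoImplicit false

namespace Pool.Agent.P.MP_5c499f_an

open Bundle Filter Topology Metric
open scoped Manifold ContDiff

variable {E V : Type*} [NormedAddCommGroup E] [NormedSpace ℝ E] [NormedAddCommGroup V]
  [NormedSpace ℝ V] [FiniteDimensional ℝ E] {M : Type*} [MetricSpace M] [ChartedSpace E M]
  [IsManifold 𝓘(ℝ, E) 1 M]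

lemma chart_local {e : M → V} (he : ∀ x y, dist x y = ‖e x - e y‖)
    (h1 : ContMDiff 𝓘(ℝ, E) 𝓘(ℝ, V) 1 e)
    (h2 : ∀ x, Function.Injective (mfderiv 𝓘(ℝ, E) 𝓘(ℝ, V) e x)) (c : M) {U : Set M}
    (hU : U ∈ 𝓝 c) : ∃ s, 0 < s ∧ ∃ C, ∀ v ∈ closedBall (extChartAt 𝓘(ℝ, E) c c) s,
      v ∈ (extChartAt 𝓘(ℝ, E) c).target ∧ (extChartAt 𝓘(ℝ, E) c).symm v ∈ U ∧
      ∀ w ∈ closedBall (extChartAt 𝓘(ℝ, E) c c) s,
        dist ((extChartAt 𝓘(ℝ, E) c).symm v) ((extChartAt 𝓘(ℝ, E) c).symm w) ≤ C * ‖v - w‖ ∧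
        ‖v - w‖ ≤ C * dist ((extChartAt 𝓘(ℝ, E) c).symm v) ((extChartAt 𝓘(ℝ, E) c).symm w) := by
  have hc := mem_chart_source E c
  obtain ⟨C, hC⟩ := bilip_local (contDiffAt_chart hc (h1 c)) fun v w h => by
    rw [fderiv_chart hc ((h1 c).mdifferentiableAt one_ne_zero),
      fderiv_chart hc ((h1 c).mdifferentiableAt one_ne_zero)] at h
    rw [← J_J' hc v, h2 c h, J_J' hc]
  rw [nhds_prod_eq] at hC
  obtain ⟨W, w1, w2⟩ := Filter.mem_prod_self_iff.1 hC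
  have h3 : (extChartAt 𝓘(ℝ, E) c).symm ⁻¹' U ∈ 𝓝 (extChartAt 𝓘(ℝ, E) c c) :=
    (continuousAt_extChartAt_symm c).preimage_mem_nhds (by simpa)
  obtain ⟨s, s1, s2⟩ := nhds_basis_closedBall.mem_iff.1
    (inter_mem (inter_mem w1 h3) (extChartAt_target_mem_nhds c))
  refine ⟨s, s1, C, fun v hv => ⟨(s2 hv).2, (s2 hv).1.2, fun w hw => ?_⟩⟩
  rw [he]
  exact w2 (Set.mk_mem_prod (s2 hv).1.1 (s2 hw).1.1)

variable [CompactSpace M] [RiemannianBundle fun x : M => TangentSpace 𝓘(ℝ, E) x]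

theorem exists_CS [IsContinuousRiemannianBundle E fun x : M => TangentSpace 𝓘(ℝ, E) x]
    {e : M → V} (he : ∀ x y, dist x y = ‖e x - e y‖) (h1 : ContMDiff 𝓘(ℝ, E) 𝓘(ℝ, V) 1 e)
    (h2 : ∀ x, Function.Injective (mfderiv 𝓘(ℝ, E) 𝓘(ℝ, V) e x)) {Q : M → M → E →L[ℝ] E}
    (hQ : ∀ c, ContinuousAt (Q c) c) : ∃ (t : Finset M) (A : t → Set M) (r C : ℝ),
      CS A (fun i => extChartAt 𝓘(ℝ, E) i.1) (fun i => (extChartAt 𝓘(ℝ, E) i.1).symm) r C ∧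
      (∀ i, IsClosed (A i)) ∧ ∀ i, ∀ x ∈ A i, x ∈ (chartAt E i.1).source ∧
        (∀ v, ‖J E i.1 x v‖ ≤ C * ‖v‖) ∧ (∀ v, ‖J' E i.1 x v‖ ≤ C * ‖v‖) ∧
        ∀ v, ‖Q i x v‖ ≤ C * ‖v‖ ∧ ‖v - Q i x v‖ ≤ C * ‖v‖ := by
  have key : ∀ c : M, ∃ C, ∀ᶠ x in 𝓝 c, x ∈ (chartAt E c).source ∧
      (∀ v, ‖J E c x v‖ ≤ C * ‖v‖) ∧ (∀ v, ‖J' E c x v‖ ≤ C * ‖v‖) ∧
        ∀ v, ‖Q c x v‖ ≤ C * ‖v‖ ∧ ‖v - Q c x v‖ ≤ C * ‖v‖ := fun c => by
    obtain ⟨C₁, a1, a2⟩ := eventually_norm_trivializationAt_lt E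
      (fun x : M => TangentSpace 𝓘(ℝ, E) x) c
    obtain ⟨C₂, a3, a4⟩ := eventually_norm_symmL_trivializationAt_lt E
      (fun x : M => TangentSpace 𝓘(ℝ, E) x) c
    refine ⟨C₁ + C₂ + (‖Q c c‖ + 2), ?_⟩
    filter_upwards [a2, a4, chart_source_mem_nhds E c,
      (hQ c).norm.eventually_lt_const (lt_add_one ‖Q c c‖)] with x b1 b2 b3 b4
    have b5 := norm_nonneg (Q c c)
    refine ⟨b3, fun v => (ContinuousLinearMap.le_of_opNorm_le _ b1.le v).trans ?_,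
      fun v => (ContinuousLinearMap.le_of_opNorm_le _ b2.le v).trans ?_, fun v => ?_⟩
    · gcongr; linarith
    · gcongr; linarith
    · have b6 := ContinuousLinearMap.le_of_opNorm_le _ b4.le v
      constructor <;> nlinarith [norm_sub_le v (Q c x v), norm_nonneg v]
  choose C₁ hC₁ using key
  choose s s0 C₂ hs using fun c => chart_local he h1 h2 c (hC₁ c)
  set A : M → Set M := fun c =>
    (extChartAt 𝓘(ℝ, E) c).symm '' closedBall (extChartAt 𝓘(ℝ, E) c c) (s c / 2) with hA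
  have a0 : ∀ c, closedBall (extChartAt 𝓘(ℝ, E) c c) (s c / 2) ⊆
      closedBall (extChartAt 𝓘(ℝ, E) c c) (s c) := fun c =>
    closedBall_subset_closedBall (by linarith [s0 c])
  have a1 : ∀ c, A c ∈ 𝓝 c := fun c => by
    filter_upwards [extChartAt_source_mem_nhds (I := 𝓘(ℝ, E)) c, (continuousAt_extChartAt
      (I := 𝓘(ℝ, E)) c).preimage_mem_nhds (closedBall_mem_nhds _ (half_pos (s0 c)))] with x b1 b2
    exact ⟨_, b2, (extChartAt 𝓘(ℝ, E) c).left_inv b1⟩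
  obtain ⟨t, -, ht⟩ := (isCompact_univ (X := M)).elim_nhds_subcover (fun c => interior (A c))
    fun c _ => interior_mem_nhds.2 (a1 c)
  obtain ⟨δ, d1, d2⟩ := lebesgue_number_lemma_of_metric (isCompact_univ (X := M))
    (c := fun i : t => interior (A i)) (fun _ => isOpen_interior) (by rwa [Set.iUnion_subtype])
  obtain ⟨C, hC⟩ := Finite.exists_le fun i : t => max (C₁ i) (C₂ i)
  obtain ⟨R, hR⟩ := Finite.exists_le fun i : t => (s i / 2)⁻¹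
  simp only [max_le_iff] at hC
  have a2 : ∀ i : t, (max R 1)⁻¹ ≤ s i / 2 := fun i =>
    inv_le_of_inv_le₀ (half_pos (s0 i)) ((hR i).trans (le_max_left _ _))
  have a3 : ∀ i : t, C₂ i ≤ max C 1 := fun i => (hC i).2.trans (le_max_left _ _)
  have a4 : ∀ i : t, C₁ i ≤ max C 1 := fun i => (hC i).1.trans (le_max_left _ _)
  refine ⟨t, fun i => A i, min (δ / 2) (max R 1)⁻¹, max C 1, ⟨by positivity, le_max_right _ _,
    fun x => ?_, ?_, ?_, ?_⟩, fun i => ?_, ?_⟩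
  · obtain ⟨i, hi⟩ := d2 x trivial
    exact ⟨i, fun y hy => interior_subset (hi (mem_ball.2 (by
      linarith [min_le_left (δ / 2) (max R 1)⁻¹])))⟩
  · rintro i _ _ ⟨v, hv, rfl⟩ ⟨w, hw, rfl⟩
    rw [(extChartAt 𝓘(ℝ, E) i.1).right_inv (hs _ _ (a0 _ hv)).1,
      (extChartAt 𝓘(ℝ, E) i.1).right_inv (hs _ _ (a0 _ hw)).1]
    exact ((hs _ _ (a0 _ hv)).2.2 _ (a0 _ hw)).2.trans (by gcongr; exact a3 i)
  · rintro i _ _ ⟨v, hv, rfl⟩ ⟨w, hw, rfl⟩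
    rw [(extChartAt 𝓘(ℝ, E) i.1).right_inv (hs _ _ (a0 _ hv)).1,
      (extChartAt 𝓘(ℝ, E) i.1).right_inv (hs _ _ (a0 _ hw)).1]
    exact ((hs _ _ (a0 _ hv)).2.2 _ (a0 _ hw)).1.trans (by gcongr; exact a3 i)
  · rintro i _ v ⟨w, hw, rfl⟩ hv
    rw [(extChartAt 𝓘(ℝ, E) i.1).right_inv (hs _ _ (a0 _ hw)).1] at hv ⊢
    have b1 : v ∈ closedBall (extChartAt 𝓘(ℝ, E) i.1 i.1) (s i) := by
      rw [mem_closedBall] at hw ⊢
      rw [← dist_eq_norm] at hv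
      linarith [dist_triangle v w (extChartAt 𝓘(ℝ, E) i.1 i.1), a2 i,
        min_le_right (δ / 2) (max R 1)⁻¹]
    exact ⟨(extChartAt 𝓘(ℝ, E) i.1).right_inv (hs _ _ b1).1,
      ((hs _ _ b1).2.2 _ (a0 _ hw)).1.trans (by gcongr; exact a3 i)⟩
  · exact ((isCompact_closedBall _ _).image_of_continuousOn ((continuousOn_extChartAt_symm
      i.1).mono fun v hv => (hs _ _ (a0 _ hv)).1)).isClosed
  · rintro i _ ⟨v, hv, rfl⟩
    obtain ⟨b1, b2, b3, b4⟩ := (hs _ _ (a0 _ hv)).2.1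
    exact ⟨b1, fun v => (b2 v).trans (by gcongr; exact a4 i),
      fun v => (b3 v).trans (by gcongr; exact a4 i), fun v =>
      ⟨(b4 v).1.trans (by gcongr; exact a4 i), (b4 v).2.trans (by gcongr; exact a4 i)⟩⟩

omit [FiniteDimensional ℝ E] [RiemannianBundle fun x : M => TangentSpace 𝓘(ℝ, E) x] in
lemma lin_chart {t : Finset M} {A : t → Set M} (h1 : ∀ i, IsClosed (A i))
    (h2 : ∀ i, ∀ x ∈ A i, x ∈ (chartAt E i.1).source) {F : M → M}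
    (hF : ContMDiff 𝓘(ℝ, E) 𝓘(ℝ, E) 1 F) :
    Lin A (fun i => extChartAt 𝓘(ℝ, E) i.1) F fun x i j => Bd E F i j x := by
  intro θ hθ
  obtain ⟨ρ, e1, e2⟩ := unif_near (R := fun x y y' => ∀ i j : t, x ∈ A i → F x ∈ A j →
    ‖extChartAt 𝓘(ℝ, E) j.1 (F y) - extChartAt 𝓘(ℝ, E) j.1 (F y') - Bd E F i j x
      (extChartAt 𝓘(ℝ, E) i.1 y - extChartAt 𝓘(ℝ, E) i.1 y')‖ ≤
      θ * ‖extChartAt 𝓘(ℝ, E) i.1 y - extChartAt 𝓘(ℝ, E) i.1 y'‖) fun c => by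
    simp only [eventually_all]
    intro i j
    by_cases c1 : c ∈ A i
    · by_cases c2 : F c ∈ A j
      · exact (Bd_local (h2 _ _ c1) (h2 _ _ c2) (hF c) hθ).mono fun p hp _ _ => hp
      · exact ((hF.continuous.comp continuous_fst).tendsto (c, c, c)).eventually
          ((h1 j).isOpen_compl.mem_nhds c2) |>.mono fun p hp _ h => absurd h hp
    · exact (continuous_fst.tendsto (c, c, c)).eventually
        ((h1 i).isOpen_compl.mem_nhds c1) |>.mono fun p hp h => absurd h hp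
  exact ⟨ρ, e1, fun x i j y y' a1 a2 a3 a4 => e2 x y y' a3 a4 i j a1 a2⟩

omit [FiniteDimensional ℝ E] [RiemannianBundle fun x : M => TangentSpace 𝓘(ℝ, E) x]
  [CompactSpace M] in
lemma Bd_inv {F G : M → M} (hF : ContMDiff 𝓘(ℝ, E) 𝓘(ℝ, E) 1 F)
    (hG : ContMDiff 𝓘(ℝ, E) 𝓘(ℝ, E) 1 G) (h : ∀ x, G (F x) = x) {c c' x : M}
    (hx : x ∈ (chartAt E c).source) (hx' : F x ∈ (chartAt E c').source) (v : E) :
    Bd E G c' c (F x) (Bd E F c c' x v) = v := by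
  have h1 := hF.mdifferentiable one_ne_zero
  have h2 := hG.mdifferentiable one_ne_zero
  rw [Bd_apply hx' (by rwa [h]) (h2 _), Bd_apply hx hx' (h1 _), J'_J hx',
    ← mfderiv_comp_apply x (h2 _) (h1 _)]
  have h3 : mfderiv 𝓘(ℝ, E) 𝓘(ℝ, E) (G ∘ F) x = ContinuousLinearMap.id ℝ E := by
    rw [show G ∘ F = id from funext h]
    exact mfderiv_id
  rw [h3]
  exact (congrArg (fun y : M => (show E →L[ℝ] E from J E c y) (J' E c x v)) (h x)).trans (J_J' hx v)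

theorem hy_chart {t : Finset M} {A : t → Set M} {C : ℝ} (hC : 1 ≤ C) (h1 : ∀ i, IsClosed (A i))
    {P : ∀ x : M, TangentSpace 𝓘(ℝ, E) x →L[ℝ] TangentSpace 𝓘(ℝ, E) x}
    (hP : Continuous fun p : TangentBundle 𝓘(ℝ, E) M => (⟨p.1, P p.1 p.2⟩ : TangentBundle 𝓘(ℝ, E) M))
    (h2 : ∀ i, ∀ x ∈ A i, x ∈ (chartAt E i.1).source ∧
      (∀ v, ‖J E i.1 x v‖ ≤ C * ‖v‖) ∧ (∀ v, ‖J' E i.1 x v‖ ≤ C * ‖v‖) ∧
      ∀ v, ‖Qd E P i x v‖ ≤ C * ‖v‖ ∧ ‖v - Qd E P i x v‖ ≤ C * ‖v‖) {F : Equiv.Perm M}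
    (hF : ContMDiff 𝓘(ℝ, E) 𝓘(ℝ, E) 1 F) (hF' : ContMDiff 𝓘(ℝ, E) 𝓘(ℝ, E) 1 (F⁻¹ : Equiv.Perm M))
    (p1 : ∀ x v, P x (P x v) = P x v)
    (p2 : ∀ x v, mfderiv 𝓘(ℝ, E) 𝓘(ℝ, E) F x (P x v) = P (F x) (mfderiv 𝓘(ℝ, E) 𝓘(ℝ, E) F x v))
    {a b Λ Λ' : ℝ} (ha : 0 < a) (hb : 0 < b) (hΛ : 1 ≤ Λ) (hΛ' : 1 ≤ Λ')
    (ha' : 20 * C ^ 2 * (C ^ 2 * a) ≤ 1) (hb' : 20 * C ^ 2 * (C ^ 2 * b) ≤ 1)
    (p3 : ∀ x v, P x v = 0 → ‖mfderiv 𝓘(ℝ, E) 𝓘(ℝ, E) F x v‖ ≤ a * ‖v‖ ∧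
      ‖v‖ ≤ Λ' * ‖mfderiv 𝓘(ℝ, E) 𝓘(ℝ, E) F x v‖)
    (p4 : ∀ x v, P x v = v → ‖v‖ ≤ b * ‖mfderiv 𝓘(ℝ, E) 𝓘(ℝ, E) F x v‖ ∧
      ‖mfderiv 𝓘(ℝ, E) 𝓘(ℝ, E) F x v‖ ≤ Λ * ‖v‖) :
    Hy A (fun i => extChartAt 𝓘(ℝ, E) i.1) F (fun x i j => Bd E F i j x)
      (fun x i j => Bd E (F⁻¹ : Equiv.Perm M) i j x) (fun x i => Qd E P i x) (C ^ 2 * a)
      (C ^ 2 * b) (C ^ 2 * Λ) (C ^ 2 * Λ') C := by
  have c1 : 1 ≤ C ^ 2 := one_le_pow₀ hC
  have d1 := hF.mdifferentiable one_ne_zero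
  have up : ∀ x (i j : t) v, x ∈ A i → F x ∈ A j → ∀ K, 0 ≤ K →
      ‖mfderiv 𝓘(ℝ, E) 𝓘(ℝ, E) F x (J' E i.1 x v)‖ ≤ K * ‖J' E i.1 x v‖ →
      ‖Bd E F i j x v‖ ≤ C ^ 2 * K * ‖v‖ := fun x i j v hx hx' K hK h => by
    rw [Bd_apply (h2 _ _ hx).1 (h2 _ _ hx').1 (d1 _)]
    refine ((h2 _ _ hx').2.1 _).trans ((mul_le_mul_of_nonneg_left (h.trans
      (mul_le_mul_of_nonneg_left ((h2 _ _ hx).2.2.1 v) hK)) (by linarith)).trans (le_of_eq ?_))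
    ring
  have lo : ∀ x (i j : t) v, x ∈ A i → F x ∈ A j → ∀ K, 0 ≤ K →
      ‖J' E i.1 x v‖ ≤ K * ‖mfderiv 𝓘(ℝ, E) 𝓘(ℝ, E) F x (J' E i.1 x v)‖ →
      ‖v‖ ≤ C ^ 2 * K * ‖Bd E F i j x v‖ := fun x i j v hx hx' K hK h => by
    have e1 := (h2 _ _ hx).2.1 (J' E i.1 x v)
    have e2 := (h2 _ _ hx').2.2.1 (Bd E F i j x v)
    rw [J_J' (h2 _ _ hx).1] at e1
    rw [Bd_apply (h2 _ _ hx).1 (h2 _ _ hx').1 (d1 _), J'_J (h2 _ _ hx').1,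
      ← Bd_apply (h2 _ _ hx).1 (h2 _ _ hx').1 (d1 _)] at e2
    refine e1.trans ((mul_le_mul_of_nonneg_left (h.trans
      (mul_le_mul_of_nonneg_left e2 hK)) (by linarith)).trans (le_of_eq ?_))
    ring
  have hq : ∀ x (i : t) v, x ∈ A i → J' E i.1 x (Qd E P i x v) = P x (J' E i.1 x v) :=
    fun x i v hx => J'_J (h2 _ _ hx).1 _
  refine ⟨by positivity, by positivity, one_le_mul_of_one_le_of_one_le c1 hΛ,
    one_le_mul_of_one_le_of_one_le c1 hΛ', hC, ha', hb', lin_chart h1 (fun i x h => (h2 i x h).1) hF,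
    lin_chart h1 (fun i x h => (h2 i x h).1) hF',
    CompactSpace.uniformContinuous_of_continuous hF.continuous,
    CompactSpace.uniformContinuous_of_continuous hF'.continuous,
    fun x i j v hx hx' => Bd_inv hF hF' (by simp) (h2 _ _ hx).1 (h2 _ _ hx').1 v,
    fun x i j v hx hx' => ?_, fun x i v hx => ?_, fun x i v hx => ((h2 _ _ hx).2.2.2 v).1,
    fun x i v hx => ((h2 _ _ hx).2.2.2 v).2, fun κ hκ => ?_, fun x i j v hx hx' => ?_,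
    fun x i j v hx hx' h => ?_, fun x i j v hx hx' h => ?_⟩
  · simpa using Bd_inv hF' hF (by simp) (h2 _ _ hx').1 (c' := i) (by simpa using (h2 _ _ hx).1) v
  · change J E i.1 x (P x (J' E i.1 x (Qd E P i x v))) = J E i.1 x (P x (J' E i.1 x v))
    rw [hq _ _ _ hx, p1]
  · obtain ⟨ρ, e1, e2⟩ := unif_near (R := fun x y _ => ∀ i : t, x ∈ A i →
      ‖Qd E P i x - Qd E P i y‖ ≤ κ) fun c => by
      simp only [eventually_all]
      intro i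
      by_cases c1 : c ∈ A i
      · have e1 := Qd_continuousAt hP (h2 _ _ c1).1
        have e2 : ContinuousAt (fun p : M × M × M => ‖Qd E P i p.1 - Qd E P i p.2.1‖) (c, c, c) :=
          ((e1.comp_of_eq continuousAt_fst rfl).sub
            (e1.comp_of_eq continuous_snd.fst.continuousAt rfl)).norm
        exact (e2.eventually_lt_const (by simpa)).mono fun p hp _ => hp.le
      · exact (continuous_fst.tendsto (c, c, c)).eventually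
          ((h1 i).isOpen_compl.mem_nhds c1) |>.mono fun p hp h => absurd h hp
    exact ⟨ρ, e1, fun i x y v hx _ h => ContinuousLinearMap.le_of_opNorm_le _
      (e2 x y x (by rwa [dist_comm]) (by simpa using e1.le) i hx) v⟩
  · rw [Bd_apply (h2 _ _ hx).1 (h2 _ _ hx').1 (d1 _), Bd_apply (h2 _ _ hx).1 (h2 _ _ hx').1 (d1 _),
      hq _ _ _ hx, p2]
    exact congrArg (fun w => J E j.1 (F x) (P (F x) w)) (J'_J (h2 _ _ hx').1 _)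
  · have := p3 x (J' E i.1 x v) (by rw [← hq _ _ _ hx, h, map_zero])
    exact ⟨up _ _ _ _ hx hx' _ ha.le this.1, lo _ _ _ _ hx hx' _ (by linarith) this.2⟩
  · have := p4 x (J' E i.1 x v) (by rw [← hq _ _ _ hx, h])
    exact ⟨lo _ _ _ _ hx hx' _ hb.le this.1, up _ _ _ _ hx hx' _ (by linarith) this.2⟩

end Pool.Agent.P.MP_5c499f_an
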