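import Pool.Agent.P.MP_5c499f_an.Affine
import Pool.Agent.P.MP_5c499f_an.Linear

/-! Shadowing for automorphisms of the Malcev completion. -/

set_option autoImplicit false

namespace Pool.Agent.P.MP_5c499f_an

open scoped ContDiff Matrix

/-- Bounded families. -/
def Bf {ι X : Type*} [SeminormedAddCommGroup X] (n : ι → X) : Prop := ∃ R, ∀ i, ‖n i‖ ≤ R

section Bf

variable {ι X X' : Type*} [SeminormedAddCommGroup X] [SeminormedAddCommGroup X'] {n : ι → X}

lemma Bf.iff : Bf n ↔ Bornology.IsBounded (Set.range n) := by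
  simp [isBounded_iff_forall_norm_le, Bf]

lemma Bf.map [ProperSpace X] (h : Bf n) {f : X → X'} (hf : Continuous f) : Bf fun i => f (n i) :=
  Bf.iff.2 ((Law.bdd_image hf (Bf.iff.1 h)).subset (Set.range_comp f n).le)

lemma Bf.prod (h : Bf n) {n' : ι → X'} (h' : Bf n') : Bf fun i => (n i, n' i) :=
  let ⟨R, h⟩ := h
  let ⟨R', h'⟩ := h'
  ⟨max R R', fun i => max_le_max (h i) (h' i)⟩

lemma Bf.comp {ι' : Type*} (h : Bf n) (f : ι' → ι) : Bf fun i => n (f i) :=
  h.imp fun _ h i => h (f i)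

lemma Bf.const (x : X) : Bf fun _ : ι => x := ⟨_, fun _ => le_rfl⟩

lemma Bf.fin {κ : Type*} {s : Set κ} (hs : s.Finite) {k : ι → κ} (hk : ∀ i, k i ∈ s)
    {f : κ → ι → X} (h : ∀ a ∈ s, Bf (f a)) : Bf fun i => f (k i) i :=
  Bf.iff.2 (((Bornology.isBounded_biUnion hs).2 fun a ha => Bf.iff.1 (h a ha)).subset <| by
    rintro _ ⟨i, rfl⟩
    exact Set.mem_biUnion (hk i) ⟨i, rfl⟩)

end Bf

namespace Law

variable {m : ℕ} {μ : Law m} {lv : Fin m → ℕ} {c j : ℕ} {ι : Type*}

lemma bd_mul {a b : ι → μ.N} (h : Bf a) (h' : Bf b) : Bf fun i => a i * b i :=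
  (h.prod h').map (f := fun p => p.1 * p.2) continuous_mul

lemma bd_inv {a : ι → μ.N} (h : Bf a) : Bf fun i => (a i)⁻¹ := h.map continuous_inv

/-- Families which are bounded modulo a term of the filtration. -/
def BL (lv : Fin m → ℕ) (j : ℕ) (n : ι → μ.N) : Prop := ∃ R, ∀ i a, lv a < j → |n i a| ≤ R

lemma bl_of_bd {n : ι → μ.N} (h : Bf n) : BL lv j n :=
  h.imp fun _ h i a _ => (norm_le_pi_norm (n i) a).trans (h i)

lemma Tri.bd (T : μ.Tri lv c) {n : ι → μ.N} (h : BL lv c n) : Bf n :=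
  let ⟨R, h⟩ := h
  ⟨max R 0, fun i => (pi_norm_le_iff_of_nonneg (le_max_right _ _)).2 fun a =>
    le_max_of_le_left (h i a (T.lt a))⟩

/-- The coordinates of level `j`. -/
def pr (lv : Fin m → ℕ) (j : ℕ) (d : Fin m → ℝ) : Fin m → ℝ := fun i => if lv i = j then d i else 0

lemma norm_pr (d : Fin m → ℝ) : ‖pr lv j d‖ ≤ ‖d‖ :=
  (pi_norm_le_iff_of_nonneg (norm_nonneg _)).2 fun i => by
    unfold pr
    split_ifs
    exacts [norm_le_pi_norm d i, by simp]

/-- The matrix of the derivative. -/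
noncomputable def dmat (B : MulAut μ.N) : Matrix (Fin m) (Fin m) ℝ :=
  LinearMap.toMatrix' (fderiv ℝ B 0).toLinearMap

/-- The diagonal blocks of the derivative. -/
noncomputable def blk (lv : Fin m → ℕ) (j : ℕ) (B : MulAut μ.N) : Matrix (Fin m) (Fin m) ℝ :=
  .of fun i i' => if lv i = j ∧ lv i' = j then dmat B i i' else 0

variable {B : MulAut μ.N}

lemma blk_zero (d : Fin m → ℝ) {i : Fin m} (hi : lv i ≠ j) : (blk lv j B *ᵥ d) i = 0 := by
  simp [blk, Matrix.mulVec, dotProduct, hi]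

lemma blk_congr {d d' : Fin m → ℝ} (h : ∀ i, lv i = j → d i = d' i) :
    blk lv j B *ᵥ d = blk lv j B *ᵥ d' := funext fun i => by
  simp only [Matrix.mulVec, dotProduct]
  refine Finset.sum_congr rfl fun i' _ => ?_
  by_cases e : lv i' = j <;> simp [blk, e, h]

namespace Tri

variable (T : μ.Tri lv c) (hB : μ.Good lv B)
include T hB

lemma dmat_zero {i i' : Fin m} (h : lv i < lv i') : dmat B i i' = 0 := by
  have e : μ.W lv (lv i') (Pi.single i' 1 : Fin m → ℝ) := fun a ha =>
    Pi.single_eq_of_ne (by rintro rfl; omega) _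
  exact ((LinearMap.toMatrix'_apply _ _ _).trans (T.lin hB e h.le).symm).trans (hB.mem _ _ e i h)

lemma blk_eq {w : μ.N} (hw : μ.W lv j w) {i : Fin m} (hi : lv i = j) :
    B w i = (blk lv j B *ᵥ w) i := by
  rw [T.lin hB hw hi.le]
  refine (congrFun (LinearMap.toMatrix'_mulVec (fderiv ℝ B 0).toLinearMap w) i).symm.trans ?_
  simp only [Matrix.mulVec, dotProduct]
  refine Finset.sum_congr rfl fun i' _ => ?_
  change dmat B i i' * _ = _
  rcases lt_trichotomy (lv i') j with e | e | e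
  · simp [hw i' e]
  · simp [blk, hi, e]
  · simp [blk, e.ne', T.dmat_zero hB (hi ▸ e)]

lemma step {a b d d' : ι → μ.N} (ha : Bf a) (hb : Bf b) (hd : BL lv j d)
    (h : ∀ i, d' i = (a i)⁻¹ * B (d i) * b i) :
    Bf fun i => pr lv j (d' i) - blk lv j B *ᵥ pr lv j (d i) := by
  obtain ⟨R, hR⟩ := hd
  let t : ι → μ.N := fun i x => if lv x < j then d i x else 0
  have t1 : Bf t := ⟨max R 0, fun i => (pi_norm_le_iff_of_nonneg (le_max_right _ _)).2 fun x => by
    simp only [t]
    split_ifs with e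
    exacts [le_max_of_le_left (hR i x e), by simp]⟩
  have t2 : ∀ i, μ.W lv j ((t i)⁻¹ * d i) := fun i => T.W_iff.2 fun x hx => if_pos hx
  refine (bd_mul (bd_mul (bd_inv ha) (t1.map hB.sm.continuous)) hb).imp fun R' h' i =>
    le_trans (le_of_eq (congrArg _ (funext fun x => ?_))) ((norm_pr (lv := lv) (j := j) _).trans (h' i))
  by_cases e : lv x = j
  · have e1 := T.mid (hB.mem _ _ (t2 i)) ((a i)⁻¹ * B (t i)) (b i) e.le
    rw [mul_assoc (a i)⁻¹, ← map_mul, mul_inv_cancel_left, ← h, T.blk_eq hB (t2 i) e,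
      blk_congr (d' := pr lv j (d i)) fun y hy => by
        have := T.add j (t i) _ (t2 i) y hy.le
        rw [mul_inv_cancel_left] at this
        simp [pr, hy, this, t]] at e1
    simp only [Pi.sub_apply, pr, if_pos e, e1, add_sub_cancel_right]
  · simp only [Pi.sub_apply, pr, if_neg e, blk_zero _ e, sub_zero]

theorem sh (H : ∀ j' < j, NoUnit (blk lv j' B)) {a b d : ι → ℤ → μ.N}
    (ha : Bf fun x : ι × ℤ => a x.1 x.2) (hb : Bf fun x : ι × ℤ => b x.1 x.2)
    (h : ∀ p k, d p (k + 1) = (a p k)⁻¹ * B (d p k) * b p k) (hd : ∀ p, BL lv j (d p)) :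
    BL lv j fun x : ι × ℤ => d x.1 x.2 := by
  induction j with
  | zero => exact ⟨0, fun _ _ h => absurd h (by omega)⟩
  | succ j ih =>
    obtain ⟨R₁, h1⟩ := ih (fun j' h => H j' (by omega))
      fun p => (hd p).imp fun _ h i a ha => h i a (by omega)
    obtain ⟨R, hR⟩ := T.step hB ha hb ⟨R₁, h1⟩ fun x => h x.1 x.2
    obtain ⟨C, -, hC⟩ := (H j (by omega)).solve
    refine ⟨max R₁ (C * R), fun x i hi => ?_⟩
    rcases Nat.lt_succ_iff_lt_or_eq.1 hi with e | e
    · exact le_max_of_le_left (h1 x i e)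
    obtain ⟨R', h'⟩ := hd x.1
    have := (norm_le_pi_norm _ i).trans (hC (fun k => pr lv j (d x.1 k)) R (max R' 0) (fun k =>
      (pi_norm_le_iff_of_nonneg (le_max_right _ _)).2 fun y => by
        unfold pr
        split_ifs with e
        exacts [le_max_of_le_left (h' k y (by omega)), by simp]) (fun k => hR (x.1, k)) x.2)
    rw [pr, if_pos e] at this
    exact le_max_of_le_right this

variable (H : ∀ j, NoUnit (blk lv j B))
include H

theorem us {a : ι → ℤ → μ.N} (ha : Bf fun x : ι × ℤ => a x.1 x.2) : ∃ d : ι → ℤ → μ.N,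
    (Bf fun x : ι × ℤ => d x.1 x.2) ∧ ∀ p k, a p k * d p (k + 1) = B (d p k) := by
  have key : ∀ j, ∃ d : ι → ℤ → μ.N, (Bf fun x : ι × ℤ => d x.1 x.2) ∧
      ∀ p k, μ.W lv j ((B (d p k))⁻¹ * (a p k * d p (k + 1))) := fun j => by
    induction j with
    | zero => exact ⟨1, Bf.const _, fun _ _ i hi => absurd hi (by omega)⟩
    | succ j ih =>
      obtain ⟨d, h1, h2⟩ := ih
      obtain ⟨R, hR⟩ := bd_mul (bd_inv (h1.map hB.sm.continuous))
        (bd_mul ha (h1.comp fun x => (x.1, x.2 + 1)))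
      obtain ⟨C, hC, -⟩ := (H j).solve
      choose x x1 x2 using fun p => hC
        (fun k => -pr lv j ((B (d p k))⁻¹ * (a p k * d p (k + 1)) : μ.N)) R
        fun k => by rw [norm_neg]; exact (norm_pr _).trans (hR (p, k))
      change ι → ℤ → μ.N at x
      have x3 : ∀ p k, μ.W lv j (x p k) := fun p k i hi => by
        have := congrFun (x1 p (k - 1)) i
        rw [sub_add_cancel] at this
        simp [this, blk_zero _ hi.ne, pr, hi.ne]
      refine ⟨fun p k => d p k * x p k, bd_mul h1 ⟨_, fun y => x2 y.1 y.2⟩, fun p k => ?_⟩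
      rw [map_mul, mul_inv_rev, mul_assoc, ← mul_assoc (a p k), ← mul_assoc (B (d p k))⁻¹]
      refine T.W_iff.2 fun i hi => ?_
      rcases Nat.lt_succ_iff_lt_or_eq.1 hi with e | e
      · rw [hB.mem _ _ (x3 p k) i e, T.W_mul (h2 p k) (x3 p _) i e]
      · rw [T.blk_eq hB (x3 p k) e, T.add j _ _ (x3 p _) i e.le, x1]
        simp [pr, e]
  obtain ⟨d, h1, h2⟩ := key c
  exact ⟨d, h1, fun p k => (inv_mul_eq_one.1 (T.eq_one (h2 p k))).symm⟩

theorem ge {d : ℤ → μ.N} (hd : Bf d) (h : ∀ k, d (k + 1) = B (d k)) (k : ℤ) : d k = 1 := by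
  have key : ∀ j k, μ.W lv j (d k) := fun j => by
    induction j with
    | zero => exact fun _ i hi => absurd hi (by omega)
    | succ j ih =>
      intro k i hi
      rcases Nat.lt_succ_iff_lt_or_eq.1 hi with e | e
      · exact ih k i e
      obtain ⟨C, -, hC⟩ := (H j).solve
      obtain ⟨R, hR⟩ := hd
      have := (norm_le_pi_norm _ i).trans (hC (fun k => pr lv j (d k)) 0 R
        (fun k => (norm_pr _).trans (hR k)) (fun k => norm_le_zero_iff.2 (funext fun y => ?_)) k)
      · simpa [pr, e] using this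
      by_cases e : lv y = j
      · rw [blk_congr (d := pr lv j (d k)) (d' := d k) fun _ h => if_pos h]
        simp [pr, e, h, T.blk_eq hB (ih k) e]
      · simp [pr, e, blk_zero _ e]
  exact T.eq_one (key c k)

theorem hyper (z : ℂ) (hz : ‖z‖ = 1) : Polynomial.aeval z (dmat B).charpoly ≠ 0 := fun e => by
  rw [← Polynomial.eval_map_algebraMap, ← Matrix.charpoly_map, Matrix.eval_charpoly,
    ← Matrix.exists_vecMul_eq_zero_iff] at e
  obtain ⟨l, l1, l2⟩ := e
  obtain ⟨i₀, i1, i2⟩ := Finset.exists_max_image (Finset.univ.filter fun i => l i ≠ 0) lv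
    ((Function.ne_iff.1 l1).imp fun i hi => by simpa using hi)
  simp only [Finset.mem_filter, Finset.mem_univ, true_and] at i1 i2
  have := congrFun (H (lv i₀) z (fun i => if lv i = lv i₀ then l i else 0) hz
    (funext fun i' => ?_)) i₀
  · exact i1 (by simpa using this)
  by_cases e : lv i' = lv i₀
  · have := congrFun l2 i'
    rw [Matrix.vecMul_sub, Pi.sub_apply, Pi.zero_apply, sub_eq_zero] at this
    refine Eq.trans ?_ (this.symm.trans (by simp [e, mul_comm]))
    simp only [Matrix.vecMul, dotProduct]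
    refine Finset.sum_congr rfl fun i _ => ?_
    rcases lt_trichotomy (lv i) (lv i₀) with e' | e' | e'
    · simp [e'.ne, T.dmat_zero hB (e ▸ e')]
    · simp [blk, e, e']
    · simp [e'.ne', not_not.1 (mt (i2 i) e'.not_ge)]
  · simp [Matrix.vecMul, dotProduct, blk, e]

end Tri

lemma Tri.nilp (T : μ.Tri lv c) : Group.IsNilpotent μ.N :=
  (Subgroup.nilpotent_iff_finite_descending_central_series _).2 ⟨c, fun j =>
    { carrier := μ.W lv j, mul_mem' := T.W_mul, one_mem' := W_one, inv_mem' := T.W_inv },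
    ⟨eq_top_iff.2 fun _ _ i hi => absurd hi (by omega), fun x j hx g => by
      have := T.W_iff.2 fun i (hi : lv i < j + 1) => T.conj hx g⁻¹ (i := i) (by omega)
      change μ.W lv (j + 1) _
      simpa [commutatorElement_def, mul_assoc] using T.W_conj this x⁻¹⟩,
    eq_bot_iff.2 fun _ => T.eq_one⟩

end Law

end Pool.Agent.P.MP_5c499f_an
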