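import Pool.Agent.P.MP_5c499f_an.Final

set_option autoImplicit false

namespace Pool.Agent.P.MP_5c499f_an.PinchedConjugacy

open Bundle Pool.Agent.P.MP_5c499f_an
open scoped Manifold ContDiff

theorem result {E : Type*} [NormedAddCommGroup E] [NormedSpace ℝ E] [FiniteDimensional ℝ E]
    {M : Type*} [TopologicalSpace M] [T2Space M] [CompactSpace M] [ConnectedSpace M]
    [ChartedSpace E M] [IsManifold 𝓘(ℝ, E) ∞ M]
    [RiemannianBundle fun x : M => TangentSpace 𝓘(ℝ, E) x]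
    [IsContinuousRiemannianBundle E fun x : M => TangentSpace 𝓘(ℝ, E) x]
    (f : Diffeomorph 𝓘(ℝ, E) 𝓘(ℝ, E) M M 1) (r₁ r₂ r₃ r₄ : ℝ) (h₁ : 0 < r₁) (h₂ : r₁ ≤ r₂)
    (h₃ : r₂ < 1) (h₄ : 1 < r₃) (h₅ : r₃ ≤ r₄) (hf : AnosovRates E f r₁ r₂ r₃ r₄)
    (h : 1 < Real.log r₂ / Real.log r₁ + Real.log r₃ / Real.log r₄) : InfranilConj f :=
  infranil f h₁ h₂ h₃ h₄ h₅ hf h

end Pool.Agent.P.MP_5c499f_an.PinchedConjugacy
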