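import Pool.Agent.P.MP_5c499f_an.Layers

/-! Polynomial functions on nilpotent groups and adapted bases. -/

set_option autoImplicit false

namespace Pool.Agent.P.MP_5c499f_an

variable {G : Type*} [Group G]

/-- Right difference operator. -/
def Df (h : G) (φ : G → ℝ) : G → ℝ := fun g => φ (g * h) - φ g

/-- Functions killed by `d` right differences along `S`. -/
def Pol (S : Subgroup G) : ℕ → (G → ℝ) → Prop
  | 0, φ => φ = 0
  | d + 1, φ => ∀ s ∈ S, Pol S d (Df s φ)

variable {S H K : Subgroup G} {d : ℕ} {φ ψ : G → ℝ}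

lemma Df_zero (h : G) : Df h 0 = 0 := by ext; simp [Df]

lemma Pol.zero : ∀ d, Pol S d 0
  | 0 => rfl
  | d + 1 => fun s _ => by rw [Df_zero]; exact Pol.zero d

lemma Pol.mono {d' : ℕ} (h : Pol S d φ) (hd : d ≤ d') : Pol S d' φ := by
  induction d generalizing d' φ with
  | zero => rw [show φ = 0 from h]; exact Pol.zero _
  | succ d ih =>
    obtain ⟨d', rfl⟩ : ∃ e, d' = e + 1 := ⟨d' - 1, by omega⟩
    exact fun s hs => ih (h s hs) (by omega)

lemma Pol.add (h : Pol S d φ) (h' : Pol S d ψ) : Pol S d (φ + ψ) := by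
  induction d generalizing φ ψ with
  | zero => rw [show φ = 0 from h, show ψ = 0 from h', add_zero]; rfl
  | succ d ih =>
    intro s hs
    convert ih (h s hs) (h' s hs) using 1
    ext; simp only [Df, Pi.add_apply]; ring

lemma Pol.smul (h : Pol S d φ) (c : ℝ) : Pol S d (c • φ) := by
  induction d generalizing φ with
  | zero => rw [show φ = 0 from h, smul_zero]; rfl
  | succ d ih =>
    intro s hs
    convert ih (h s hs) using 1
    ext; simp only [Df, Pi.smul_apply, smul_eq_mul]; ring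

lemma Pol.of_local (h : ∀ y, ∃ ψ y', Pol S d ψ ∧ ∀ k ∈ S, φ (y * k) = ψ (y' * k)) : Pol S d φ := by
  induction d generalizing φ with
  | zero =>
    funext y
    obtain ⟨ψ, y', h1, h2⟩ := h y
    simpa [show ψ = 0 from h1] using h2 1 S.one_mem
  | succ d ih =>
    refine fun s hs => ih fun y => ?_
    obtain ⟨ψ, y', h1, h2⟩ := h y
    exact ⟨_, y', h1 s hs, fun k hk => by simp only [Df, mul_assoc, h2 _ hk, h2 _ (S.mul_mem hk hs)]⟩

lemma Pol.comp (h : Pol ⊤ d φ) (f : G →* G) (y : G) : Pol ⊤ d fun g => φ (f g * y) := by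
  induction d generalizing φ with
  | zero => rw [show φ = 0 from h]; rfl
  | succ d ih =>
    intro s _
    convert ih (h (y⁻¹ * f s * y) trivial) using 1
    ext; simp [Df, mul_assoc]

/-- Weighted degree with respect to a filtration. -/
inductive Deg (C : ℕ → Subgroup G) : ℕ → (G → ℝ) → Prop
  | zero (n : ℕ) : Deg C n 0
  | step (n : ℕ) (φ : G → ℝ) : 0 < n → (∀ j, ∀ h ∈ C j, Deg C (n - (j + 1)) (Df h φ)) → Deg C n φ

variable {C : ℕ → Subgroup G} {n : ℕ}

lemma Deg.diff (h : Deg C n φ) {j : ℕ} {s : G} (hs : s ∈ C j) : Deg C (n - (j + 1)) (Df s φ) := by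
  cases h with
  | zero => rw [Df_zero]; exact .zero _
  | step _ _ _ h => exact h j s hs

lemma Deg.eq_zero (h : Deg C 0 φ) : φ = 0 := by
  cases h with
  | zero => rfl
  | step _ _ h _ => omega

lemma Deg.mono (h : Deg C n φ) {n' : ℕ} (hn : n ≤ n') : Deg C n' φ := by
  induction h generalizing n' with
  | zero => exact .zero _
  | step n φ h0 _ ih => exact .step _ _ (by omega) fun j s hs => ih j s hs (by omega)

lemma Deg.add (h : Deg C n φ) (h' : Deg C n ψ) : Deg C n (φ + ψ) := by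
  induction h generalizing ψ with
  | zero => rwa [zero_add]
  | step n φ h0 _ ih =>
    refine .step _ _ h0 fun j s hs => ?_
    convert ih j s hs (h'.diff hs) using 1
    ext; simp only [Df, Pi.add_apply]; ring

lemma Deg.shift (h : Deg C n φ) {y : G} (hy : ∀ j, ∀ s ∈ C j, y⁻¹ * s * y ∈ C j) :
    Deg C n fun g => φ (g * y) := by
  induction h with
  | zero => exact .zero _
  | step n φ h0 _ ih =>
    refine .step _ _ h0 fun j s hs => ?_
    convert ih j _ (hy j s hs) using 1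
    ext; simp [Df, mul_assoc]

theorem Pol.upgrade {c : ℕ} (hc : ∀ j, c ≤ j → C j = ⊥) (h0 : ∀ j, C j ≤ K) (h1 : K ≤ C 0)
    (hK : K ≤ H) (h2 : ∀ j, ∀ s ∈ C j, ∀ y ∈ H, s⁻¹ * y⁻¹ * s * y ∈ C (j + 1))
    (h3 : ∀ j, C (j + 1) ≤ C j) {U : (G → ℝ) → Prop} (u1 : ∀ φ, U φ → ∀ s ∈ H, U (Df s φ))
    (u2 : ∀ φ, U φ → (∀ s ∈ K, Df s φ = 0) → ∀ s ∈ H, Df s φ = 0) (h : Pol K d φ) (hφ : U φ) :
    Pol H (d * (c + 1)) φ := by
  have a1 : ∀ y ∈ H, ∀ j, ∀ s ∈ C j, y⁻¹ * s * y ∈ C j := fun y hy j s hs => by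
    simpa [mul_assoc] using (C j).mul_mem hs (h3 j (h2 j s hs y hy))
  have a2 : ∀ y ∈ H, ∀ n φ, U φ → Deg C (n + 1) φ → Deg C n (Df y φ) := by
    intro y hy n
    induction n using Nat.strong_induction_on with
    | _ n ih =>
      intro φ hφ h
      rcases Nat.eq_zero_or_pos n with rfl | hn
      · rw [u2 φ hφ (fun s hs => (h.diff (h1 hs)).eq_zero) y hy]; exact .zero _
      refine .step _ _ hn fun j s hs => ?_
      have b1 := ((h.diff (h2 j s hs y hy)).shift (a1 s (hK (h0 j hs)))).shift (a1 y hy)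
      have b2 : Deg C (n - (j + 1)) (Df y (Df s φ)) := by
        have := h.diff hs
        rcases le_or_gt (j + 1) n with e | e
        · exact ih _ (by omega) _ (u1 φ hφ s (hK (h0 j hs))) (this.mono (by omega))
        · rw [show n + 1 - (j + 1) = 0 by omega] at this
          rw [this.eq_zero, Df_zero]; exact .zero _
      convert (b1.mono (by omega)).add b2 using 1
      ext; simp only [Df, mul_assoc, Pi.add_apply, mul_inv_cancel_left]; ring
  have a3 : ∀ n φ, U φ → Deg C n φ → Pol H n φ := fun n => by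
    induction n with
    | zero => exact fun φ _ h => h.eq_zero
    | succ n ih => exact fun φ hφ h s hs => ih _ (u1 φ hφ s hs) (a2 s hs n φ hφ h)
  refine a3 _ _ hφ ?_
  clear hφ
  induction d generalizing φ with
  | zero => rw [show φ = 0 from h]; exact .zero _
  | succ d ih =>
    refine .step _ _ (by positivity) fun j s hs => ?_
    rcases le_or_gt c j with e | e
    · rw [hc j e] at hs
      rw [Subgroup.mem_bot.1 hs, show Df 1 φ = 0 by ext; simp [Df]]
      exact .zero _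
    · exact (ih (h s (h0 j hs))).mono (by rw [add_one_mul]; omega)

/-- Ordered products of powers. -/
def Pw {m : ℕ} (x : Fin m → G) (n : Fin m → ℤ) : G := (List.ofFn fun i => x i ^ n i).prod

lemma Pw_succ {m : ℕ} (x : Fin (m + 1) → G) (n : Fin (m + 1) → ℤ) :
    Pw x n = x 0 ^ n 0 * Pw (Fin.tail x) (Fin.tail n) := by
  rw [Pw, List.ofFn_succ, List.prod_cons]; rfl

/-- A basis of `H` adapted to the filtration `L`. -/
structure Bas (L : ℕ → Subgroup G) (c j₀ : ℕ) (H : Subgroup G) {m : ℕ} (x : Fin m → G)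
    (lv : Fin m → ℕ) (t : G → Fin m → ℝ) (D : ℕ) : Prop where
  mem : ∀ i, x i ∈ H
  mem' : ∀ i, x i ∈ L (lv i)
  surj : ∀ g ∈ H, ∃ n, Pw x n = g
  lev : ∀ j n n', (Pw x n)⁻¹ * Pw x n' ∈ L j ↔ ∀ i, lv i < j → n i = n' i
  ge : ∀ i, j₀ ≤ lv i
  lt : ∀ i, lv i < c
  co : ∀ n i, t (Pw x n) i = n i
  off : ∀ g, g ∉ H → t g = 0
  pol : ∀ i, Pol H D fun g => t g i

lemma Pw_mem {m : ℕ} {x : Fin m → G} (h : ∀ i, x i ∈ H) (n : Fin m → ℤ) : Pw x n ∈ H :=
  H.list_prod_mem (List.forall_mem_ofFn_iff.2 fun i => H.zpow_mem (h i) _)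

variable {L : ℕ → Subgroup G} {c : ℕ}

theorem Bas.step (hL : Layers L c) {j : ℕ} (hj : j < c) {m : ℕ} {x : Fin m → G} {lv : Fin m → ℕ}
    {t : G → Fin m → ℝ} {D : ℕ} (h : Bas L c j K x lv t D) (h1 : L (j + 1) ≤ K) (h2 : K ≤ H)
    (h3 : H ≤ L j) {χ : G → ℤ} (c1 : ∀ g ∈ H, ∀ g' ∈ H, χ (g * g') = χ g + χ g')
    (c2 : ∀ g ∈ H, χ g = 0 ↔ g ∈ K) {a : G} (ha : a ∈ H) (c3 : χ a = 1) :
    ∃ (x : Fin (m + 1) → G) (lv : _) (t : _) (D : ℕ), Bas L c j H x lv t D := by
  classical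
  have c0 : χ 1 = 0 := (c2 1 H.one_mem).2 K.one_mem
  have c4 : ∀ n : ℤ, χ (a ^ n) = n := fun n => by
    induction n using Int.induction_on with
    | zero => simpa
    | succ n ih => rw [zpow_add_one, c1 _ (H.zpow_mem ha _) _ ha, ih, c3]
    | pred n ih =>
      have := c1 _ (H.zpow_mem ha (-n - 1)) _ ha
      rw [← zpow_add_one, sub_add_cancel, ih, c3] at this
      omega
  have c5 : ∀ n : ℤ, ∀ k ∈ K, χ (a ^ n * k) = n := fun n k hk => by
    rw [c1 _ (H.zpow_mem ha _) _ (h2 hk), c4, (c2 k (h2 hk)).2 hk, add_zero]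
  have c6 : ∀ g ∈ H, a ^ (-χ g) * g ∈ K := fun g hg =>
    (c2 _ (H.mul_mem (H.zpow_mem ha _) hg)).1 (by rw [c1 _ (H.zpow_mem ha _) _ hg, c4]; simp)
  have hm := Pw_mem h.mem
  have hmem : ∀ g, ∀ s ∈ H, g * s ∈ H ↔ g ∈ H := fun g s hs => H.mul_mem_cancel_right hs
  refine ⟨Fin.cons a x, Fin.cons j lv,
    fun g => if g ∈ H then Fin.cons (χ g : ℝ) (t (a ^ (-χ g) * g)) else 0, max 2 (D * (c + 1)),
    Fin.cases ha fun i => h2 (h.mem i), Fin.cases (h3 ha) h.mem',
    fun g hg => ?_, fun j' n n' => ?_, Fin.cases le_rfl h.ge, Fin.cases hj h.lt,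
    fun n i => ?_, fun g hg => if_neg hg, fun i => ?_⟩
  · obtain ⟨n, hn⟩ := h.surj _ (c6 g hg)
    exact ⟨Fin.cons (χ g) n, by simp [Pw_succ, hn]⟩
  · simp only [Pw_succ, Fin.cons_zero, Fin.tail_cons, Fin.forall_fin_succ, Fin.cons_succ]
    rcases le_or_gt j' j with e | e
    · refine iff_of_true (hL.anti e (h3 (H.mul_mem (H.inv_mem ?_) ?_)))
        ⟨fun e' => by omega, fun i e' => by have := h.ge i; omega⟩ <;>
      exact H.mul_mem (H.zpow_mem ha _) (h2 (hm _))
    by_cases e' : n 0 = n' 0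
    · rw [e', mul_inv_rev, mul_assoc, inv_mul_cancel_left, h.lev]
      simp [Fin.tail]
    · refine iff_of_false (fun e1 => e' ?_) fun e1 => e' (e1.1 e)
      have e2 := K.mul_mem (hm (Fin.tail n)) (h1 (hL.anti e e1))
      rw [mul_inv_rev, mul_assoc, mul_inv_cancel_left, ← mul_assoc, ← zpow_neg, ← zpow_add] at e2
      have := (c2 _ (h2 e2)).2 e2
      rw [c5 _ _ (hm _)] at this
      omega
  · simp only [Pw_succ, Fin.cons_zero, Fin.tail_cons]
    rw [if_pos (H.mul_mem (H.zpow_mem ha _) (h2 (hm _))), c5 _ _ (hm _), zpow_neg,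
      inv_mul_cancel_left]
    exact Fin.cases rfl (fun i => h.co _ i) i
  refine Fin.cases (Pol.mono (d := 2) (fun s hs s' hs' => funext fun g => ?_) (le_max_left _ _))
    (fun i => Pol.mono ?_ (le_max_right _ _)) i
  · by_cases hg : g ∈ H
    · simp [Df, *]
    · simp [Df, *]
  refine Pol.upgrade (C := fun j => K ⊓ L j) (K := K) (fun j' e => ?_) (fun _ => inf_le_left)
    (by simp [hL.top]) h2 (fun j' s hs y hy => ⟨?_, hL.comm _ _ hs.2 _⟩)
    (fun j' => inf_le_inf_left _ (hL.anti (Nat.le_succ _)))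
    (U := fun φ => (∀ g, φ (a * g) = φ g) ∧ ∀ g, g ∉ H → φ g = 0) (fun φ hφ s hs => ?_)
    (fun φ hφ e s hs => funext fun g => ?_) (Pol.of_local fun y => ?_) ⟨fun g => ?_, fun g hg => ?_⟩
  · exact eq_bot_iff.2 (inf_le_right.trans ((hL.anti e).trans hL.bot.le))
  · exact h1 (hL.comm _ _ (h3 (h2 hs.1)) _)
  · exact ⟨fun g => by simp only [Df, mul_assoc, hφ.1],
      fun g hg => by simp [Df, hφ.2 g hg, hφ.2 _ (mt (hmem g s hs).1 hg)]⟩
  · have b1 : ∀ (n : ℤ) g, φ (a ^ n * g) = φ g := fun n => by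
      induction n using Int.induction_on with
      | zero => simp
      | succ n ih => intro g; rw [zpow_add_one, mul_assoc, ih, hφ.1]
      | pred n ih => intro g; rw [← hφ.1, ← mul_assoc, ← zpow_one_add, add_sub_cancel, ih]
    have b2 : ∀ g ∈ H, φ g = φ 1 := fun g hg => by
      have := congrFun (e _ (c6 g hg)) 1
      simp only [Df, one_mul, b1, Pi.zero_apply] at this
      linarith
    by_cases hg : g ∈ H
    · simp [Df, b2 g hg, b2 _ (H.mul_mem hg hs)]
    · simp [Df, hφ.2 g hg, hφ.2 _ (mt (hmem g s hs).1 hg)]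
  · by_cases hy : y ∈ H
    · refine ⟨_, a ^ (-χ y) * y, h.pol i, fun k hk => ?_⟩
      simp [H.mul_mem hy (h2 hk), c1 _ hy _ (h2 hk), (c2 k (h2 hk)).2 hk, mul_assoc]
    · exact ⟨0, 1, Pol.zero _, fun k hk => by simp [hmem _ _ (h2 hk), hy]⟩
  · by_cases hg : g ∈ H
    · simp only [if_pos hg, if_pos (H.mul_mem ha hg), c1 _ ha _ hg, c3, Fin.cons_succ]
      rw [← mul_assoc, ← zpow_add_one, neg_add_rev, neg_add_cancel_right]
    · simp [hg, H.mul_mem_cancel_left ha]
  · simp [hg]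

theorem Layers.exists_bas (hL : Layers L c) :
    ∃ (m : ℕ) (x : Fin m → G) (lv : _) (t : _) (D : ℕ), Bas L c 0 ⊤ x lv t D := by
  have key : ∀ d j, j + d = c →
      ∃ (m : ℕ) (x : Fin m → G) (lv : _) (t : _) (D : ℕ), Bas L c j (L j) x lv t D := by
    intro d
    induction d with
    | zero =>
      rintro j rfl
      exact ⟨0, Fin.elim0, Fin.elim0, 0, 0, fun i => i.elim0, fun i => i.elim0,
        fun g hg => ⟨0, (Subgroup.mem_bot.1 (hL.bot ▸ hg)).symm⟩, fun j n n' => by simp [Pw],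
        fun i => i.elim0, fun i => i.elim0, fun _ i => i.elim0, fun _ _ => rfl, fun i => i.elim0⟩
    | succ d ih =>
      intro j hj
      obtain ⟨r, θ, t1, t2, t3⟩ := hL.free j
      have t0 : θ 1 = 0 := (t2 1 (L j).one_mem).2 (one_mem _)
      let H : ℕ → Subgroup G := fun s =>
        { carrier := {g | g ∈ L j ∧ ∀ i : Fin r, s ≤ i → θ g i = 0}
          one_mem' := ⟨one_mem _, fun i _ => by simp [t0]⟩
          mul_mem' := fun ha hb => ⟨mul_mem ha.1 hb.1, fun i hi => by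
            simp [t1 _ ha.1 _ hb.1, ha.2 i hi, hb.2 i hi]⟩
          inv_mem' := fun {a} ha => ⟨inv_mem ha.1, fun i hi => by
            have := congrFun (t1 _ (inv_mem ha.1) _ ha.1) i
            simpa [t0, ha.2 i hi] using this.symm⟩ }
      have h0 : H 0 = L (j + 1) := Subgroup.ext fun g => ⟨fun hg => (t2 g hg.1).1
        (funext fun i => hg.2 i (Nat.zero_le _)), fun hg => ⟨hL.anti (Nat.le_succ j) hg,
          fun i _ => congrFun ((t2 g (hL.anti (Nat.le_succ j) hg)).2 hg) i⟩⟩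
      have h1 : H r = L j := Subgroup.ext fun g =>
        ⟨fun hg => hg.1, fun hg => ⟨hg, fun i hi => absurd i.2 (by omega)⟩⟩
      have h2 : ∀ s, s ≤ r → ∃ (m : ℕ) (x : Fin m → G) (lv : _) (t : _) (D : ℕ),
          Bas L c j (H s) x lv t D := fun s hs => by
        induction s with
        | zero =>
          obtain ⟨m, x, lv, t, D, h⟩ := ih (j + 1) (by omega)
          exact ⟨m, x, lv, t, D, h0 ▸ { h with ge := fun i => (Nat.le_succ j).trans (h.ge i) }⟩
        | succ s ih =>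
          obtain ⟨m, x, lv, t, D, h⟩ := ih (by omega)
          obtain ⟨a, a1, a2⟩ := t3 (Pi.single ⟨s, hs⟩ 1)
          exact ⟨_, h.step hL (by omega) (h0 ▸ fun g hg => ⟨hg.1, fun i _ => hg.2 i (Nat.zero_le _)⟩)
            (fun g hg => ⟨hg.1, fun i hi => hg.2 i (by omega)⟩) (fun g hg => hg.1)
            (χ := fun g => θ g ⟨s, hs⟩) (fun g hg g' hg' => congrFun (t1 g hg.1 g' hg'.1) _)
            (fun g hg => ⟨fun e => ⟨hg.1, fun i hi => hi.eq_or_lt.elim
              (fun e' => by rwa [show i = ⟨s, hs⟩ from Fin.ext e'.symm]) (hg.2 i)⟩,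
              fun e => e.2 _ le_rfl⟩)
            (a := a) ⟨a1, fun i hi => by
              rw [a2, Pi.single_eq_of_ne fun e => by simp [e] at hi]⟩ (by simp [a2])⟩
      exact h1 ▸ h2 r le_rfl
  exact hL.top ▸ key c 0 (zero_add c)

lemma Bas.add (hL : Layers L c) {m : ℕ} {x : Fin m → G} {lv : Fin m → ℕ} (hx : ∀ i, x i ∈ L (lv i))
    {j : ℕ} (n : Fin m → ℤ) {n' : Fin m → ℤ} (h : ∀ i, lv i < j → n' i = 0) :
    Pw x n' ∈ L j ∧ (Pw x (n + n'))⁻¹ * (Pw x n * Pw x n') ∈ L (j + 1) := by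
  have := hL.char
  induction m with
  | zero => simp [Pw]
  | succ m ih =>
    obtain ⟨i1, i2⟩ := ih (x := Fin.tail x) (lv := Fin.tail lv) (fun i => hx _) (Fin.tail n)
      (n' := Fin.tail n') fun i => h _
    have e : x 0 ^ n' 0 ∈ L j := by
      rcases lt_or_ge (lv 0) j with e | e
      · simp [h 0 e]
      · exact zpow_mem (hL.anti e (hx 0)) _
    simp only [Pw_succ]
    refine ⟨mul_mem e i1, ?_⟩
    have e2 := (inferInstance : (L (j + 1)).Normal).conj_mem _ (hL.comm j _ e (Pw (Fin.tail x)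
      (Fin.tail n))⁻¹) (Pw (Fin.tail x) (Fin.tail n + Fin.tail n'))⁻¹
    convert mul_mem e2 i2 using 1
    rw [show Fin.tail (n + n') = Fin.tail n + Fin.tail n' from rfl, Pi.add_apply, zpow_add]
    group

end Pool.Agent.P.MP_5c499f_an
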