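import Pool.Agent.P.MP_5c499f_an.Grid

/-! Long brackets with logarithmic levels, and the resulting counting bound. -/

set_option autoImplicit false

namespace Pool.Agent.P.MP_5c499f_an

variable {X : Type*} [MetricSpace X]

/-- Local Lipschitz bounds and interpolation of short steps. -/
structure Geo (F : Equiv.Perm X) (ρ Λ Λ' C₁ : ℝ) : Prop where
  one_le : 1 ≤ Λ
  one_le' : 1 ≤ Λ'
  C₁_nonneg : 0 ≤ C₁
  lip : ∀ x y, dist x y ≤ ρ → dist (F x) (F y) ≤ Λ * dist x y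
  lip' : ∀ x y, dist x y ≤ ρ → dist (F⁻¹ x) (F⁻¹ y) ≤ Λ' * dist x y
  interp : ∀ p q, dist p q ≤ ρ → ∀ M : ℕ, 1 ≤ M →
    ∃ c : ℕ → X, c 0 = p ∧ c M = q ∧ ∀ i, i < M → dist (c (i + 1)) (c i) ≤ C₁ / M

variable {F : Equiv.Perm X} {ε δ C a b ρ Λ Λ' C₁ : ℝ}

lemma lip_iter {G : Equiv.Perm X} (hΛ : 1 ≤ Λ)
    (h : ∀ x y, dist x y ≤ ρ → dist (G x) (G y) ≤ Λ * dist x y) {x y : X} (k : ℕ)
    (hk : Λ ^ k * dist x y ≤ ρ) : dist ((G ^ k) x) ((G ^ k) y) ≤ Λ ^ k * dist x y := by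
  induction k with
  | zero => simp
  | succ k ih =>
    have h1 : Λ ^ k * dist x y ≤ ρ := le_trans (mul_le_mul_of_nonneg_right
      (pow_le_pow_right₀ hΛ (Nat.le_succ k)) dist_nonneg) hk
    have h2 := ih h1
    rw [pow_succ', Equiv.Perm.mul_apply, Equiv.Perm.mul_apply, pow_succ', mul_assoc]
    exact (h _ _ (h2.trans h1)).trans (mul_le_mul_of_nonneg_left h2 (by linarith))

lemma Geo.fwd (g : Geo F ρ Λ Λ' C₁) {x y : X} {n : ℕ} {r : ℝ} (hr : r ≤ ρ)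
    (hk : Λ ^ n * dist x y ≤ r) {k : ℤ} (h0 : 0 ≤ k) (hn : k ≤ n) :
    dist ((F ^ k) x) ((F ^ k) y) ≤ r := by
  obtain ⟨k, rfl⟩ := Int.eq_ofNat_of_zero_le h0
  have h1 : Λ ^ k * dist x y ≤ r := le_trans (mul_le_mul_of_nonneg_right
    (pow_le_pow_right₀ g.one_le (by omega)) dist_nonneg) hk
  rw [zpow_natCast]
  exact (lip_iter g.one_le g.lip k (h1.trans hr)).trans h1

lemma Geo.bwd (g : Geo F ρ Λ Λ' C₁) {x y : X} {n : ℕ} {r : ℝ} (hr : r ≤ ρ)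
    (hk : Λ' ^ n * dist x y ≤ r) {k : ℤ} (h0 : k ≤ 0) (hn : -(n : ℤ) ≤ k) :
    dist ((F ^ k) x) ((F ^ k) y) ≤ r := by
  obtain ⟨k, rfl⟩ : ∃ j : ℕ, k = -(j : ℤ) := ⟨(-k).toNat, by omega⟩
  have h1 : Λ' ^ k * dist x y ≤ r := le_trans (mul_le_mul_of_nonneg_right
    (pow_le_pow_right₀ g.one_le' (by omega)) dist_nonneg) hk
  rw [zpow_neg, zpow_natCast, ← inv_pow]
  exact (lip_iter g.one_le' g.lip' k (h1.trans hr)).trans h1

/-- `q` can be reached from `p` in `R` steps of size at most `r`. -/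
def Reach (r : ℝ) (R : ℕ) (p q : X) : Prop :=
  ∃ c : ℕ → X, c 0 = p ∧ c R = q ∧ ∀ i, i < R → dist (c (i + 1)) (c i) ≤ r

lemma Reach.refl (r : ℝ) (p : X) : Reach r 0 p p := ⟨fun _ => p, rfl, rfl, by simp⟩

lemma Reach.single {r : ℝ} {p q : X} (h : dist q p ≤ r) : Reach r 1 p q :=
  ⟨fun i => if i = 0 then p else q, by simp, by simp, fun i hi => by
    obtain rfl : i = 0 := by omega
    simpa⟩

lemma Reach.trans {r : ℝ} {R R' : ℕ} {p q w : X} (h : Reach r R p q) (h' : Reach r R' q w) :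
    Reach r (R + R') p w := by
  obtain ⟨c, c0, c1, c2⟩ := h
  obtain ⟨d, d0, d1, d2⟩ := h'
  refine ⟨fun i => if i < R then c i else d (i - R), ?_, by simpa, fun i hi => ?_⟩
  · rcases Nat.eq_zero_or_pos R with rfl | hR
    · simp [d0, ← c1, c0]
    · simp [hR, c0]
  · by_cases h1 : i + 1 < R
    · simpa [h1, show i < R by omega] using c2 i (by omega)
    · by_cases h2 : i < R
      · obtain rfl : R = i + 1 := by omega
        simpa [d0, ← c1] using c2 i h2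
      · have := d2 (i - R) (by omega)
        simpa [h1, h2, show i + 1 - R = i - R + 1 by omega] using this

lemma Reach.mono {r : ℝ} (hr : 0 ≤ r) {R R' : ℕ} {p q : X} (h : Reach r R p q) (hR : R ≤ R') :
    Reach r R' p q := by
  induction hR with
  | refl => exact h
  | step _ ih => exact ih.trans (Reach.single (by simpa))

lemma Reach.succ {r : ℝ} {R : ℕ} {p q : X} (h : Reach r (R + 1) p q) :
    ∃ w, Reach r R p w ∧ dist q w ≤ r := by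
  obtain ⟨c, c0, c1, c2⟩ := h
  exact ⟨c R, ⟨c, c0, rfl, fun i hi => c2 i (by omega)⟩, c1 ▸ c2 R (by omega)⟩

lemma Reach.zero {r : ℝ} {p q : X} (h : Reach r 0 p q) : p = q := by
  obtain ⟨c, c0, c1, -⟩ := h
  rw [← c0, c1]

lemma Geo.refine (g : Geo F ρ Λ Λ' C₁) {M : ℕ} (hM : 1 ≤ M) {R : ℕ} {p q : X}
    (h : Reach ρ R p q) : Reach (C₁ / M) (R * M) p q := by
  induction R generalizing q with
  | zero => rw [h.zero, zero_mul]; exact Reach.refl _ _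
  | succ R ih =>
    obtain ⟨w, h1, h2⟩ := h.succ
    rw [add_mul, one_mul]
    exact (ih h1).trans (g.interp w q (by rwa [dist_comm]) M hM)

lemma dist_le_of_steps {c : ℕ → X} {N : ℕ} {η : ℝ}
    (h : ∀ i, i < N → dist (c (i + 1)) (c i) ≤ η) {i j : ℕ} (hij : i ≤ j) (hj : j ≤ N) :
    dist (c j) (c i) ≤ (j - i : ℕ) * η := by
  induction hij with
  | refl => simp
  | @step j hij ih =>
    have h1 := ih (by omega)
    have h2 := h j (by omega)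
    have hij' : i ≤ j := hij
    rw [show j.succ - i = (j - i) + 1 by omega]
    push_cast
    linarith [dist_triangle (c (j + 1)) (c j) (c i)]

theorem LH.rect' {C₀ : ℝ} (h : LH F ε δ C a b) (g : Geo F ρ Λ Λ' C₀) (hδ : δ ≤ ρ) {x y : ℕ} {q : ℝ}
    (hs : Λ' ^ x * a ^ (x + y) ≤ q) (hu : Λ ^ y * b ^ (x + y) ≤ q) {R t : ℕ} (hC₁ : 0 ≤ C₁)
    (ht : (R + 1) * (C₁ / δ + 2) * C * q ^ t ≤ δ) :
    ∃ M : ℕ, 1 ≤ M ∧ Λ ^ (y * t) * (C₁ / M) ≤ δ ∧ Λ' ^ (x * t) * (C₁ / M) ≤ δ ∧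
      ∀ c : ℕ → X, (∀ i, i < R * M → dist (c (i + 1)) (c i) ≤ C₁ / M) →
        ∃ ω, Lift F (y * t : ℕ) ε δ (R * M) c ω ∧ Un F (-(x * t : ℕ)) δ (ω (R * M)) (c 0) := by
  have hδ0 := h.δ_pos
  have hC := h.C_nonneg
  have aux : ∀ (L c : ℝ) (m n : ℕ), 1 ≤ L → 0 ≤ c → L ^ m * c ^ (m + n) ≤ q → ∃ P : ℕ, 1 ≤ P ∧
      L ^ (m * t) * (C₁ / P) ≤ δ ∧ ((R * P : ℕ) + 1) * (C * c ^ (m * t + n * t)) ≤ δ := by
    intro L c m n hL hc hq
    have hL' : 1 ≤ L ^ (m * t) := one_le_pow₀ hL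
    have e1 : C₁ * L ^ (m * t) / δ ≤ ⌈C₁ * L ^ (m * t) / δ⌉₊ := Nat.le_ceil _
    have e2 : (⌈C₁ * L ^ (m * t) / δ⌉₊ : ℝ) < C₁ * L ^ (m * t) / δ + 1 :=
      Nat.ceil_lt_add_one (by positivity)
    set P := ⌈C₁ * L ^ (m * t) / δ⌉₊
    refine ⟨P + 1, by omega, ?_, le_trans ?_ ht⟩
    · rw [div_le_iff₀ hδ0] at e1
      rw [← mul_div_assoc, div_le_iff₀ (by positivity)]
      push_cast
      nlinarith
    · have e3 : ((R * (P + 1) : ℕ) : ℝ) + 1 ≤ (R + 1) * ((C₁ / δ + 2) * L ^ (m * t)) := by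
        have : (P : ℝ) + 1 ≤ (C₁ / δ + 2) * L ^ (m * t) := by
          rw [mul_div_right_comm] at e2
          nlinarith
        push_cast
        nlinarith [(Nat.cast_nonneg R : (0 : ℝ) ≤ R), (Nat.cast_nonneg P : (0 : ℝ) ≤ P)]
      have e4 : L ^ (m * t) * c ^ (m * t + n * t) ≤ q ^ t := by
        rw [← add_mul, pow_mul, pow_mul, ← mul_pow]
        exact pow_le_pow_left₀ (by positivity) hq t
      calc _ ≤ (R + 1) * ((C₁ / δ + 2) * L ^ (m * t)) * (C * c ^ (m * t + n * t)) := by gcongr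
        _ = (R + 1) * (C₁ / δ + 2) * C * (L ^ (m * t) * c ^ (m * t + n * t)) := by ring
        _ ≤ _ := by gcongr
  obtain ⟨P, P1, P2, P3⟩ := aux Λ' a x y g.one_le' h.a_nonneg hs
  obtain ⟨Q, Q1, Q2, Q3⟩ := aux Λ b y x g.one_le h.b_nonneg (by rwa [add_comm])
  have hP : (0 : ℝ) < P := by exact_mod_cast P1
  have hQ : (0 : ℝ) < Q := by exact_mod_cast Q1
  refine ⟨P * Q, Nat.mul_pos P1 Q1, le_trans (mul_le_mul_of_nonneg_left (by
      gcongr; exact Nat.le_mul_of_pos_left Q P1) (pow_nonneg (by linarith [g.one_le]) _)) Q2,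
    le_trans (mul_le_mul_of_nonneg_left (by gcongr; exact Nat.le_mul_of_pos_right P Q1)
      (pow_nonneg (by linarith [g.one_le']) _)) P2, fun c c2 => ?_⟩
  have hs' : ∀ i j, i ≤ j → j ≤ R * (P * Q) → j ≤ i + Q → Λ' ^ (x * t) * dist (c j) (c i) ≤ δ := by
    intro i j e1 e2 e3
    refine le_trans (mul_le_mul_of_nonneg_left ((dist_le_of_steps c2 e1 e2).trans ?_)
      (pow_nonneg (by linarith [g.one_le']) _)) P2
    calc _ ≤ (Q : ℝ) * (C₁ / (P * Q : ℕ)) := by gcongr; omega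
      _ = _ := by push_cast; field_simp
  have hu' : ∀ i j, i ≤ j → j ≤ R * (P * Q) → j ≤ i + P → Λ ^ (y * t) * dist (c j) (c i) ≤ δ := by
    intro i j e1 e2 e3
    refine le_trans (mul_le_mul_of_nonneg_left ((dist_le_of_steps c2 e1 e2).trans ?_)
      (pow_nonneg (by linarith [g.one_le]) _)) Q2
    calc _ ≤ (P : ℝ) * (C₁ / (P * Q : ℕ)) := by gcongr; omega
      _ = _ := by push_cast; field_simp
  refine h.grid (A := P) (B := Q) P1 Q1 c (fun i hi k k1 k2 => ?_)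
    (fun i j e1 e2 e3 => g.bwd hδ (hs' i j e1 e2 e3) (by omega) le_rfl)
    (fun i j e1 e2 e3 => g.fwd hδ (hu' i j e1 e2 e3) (by omega) le_rfl) ?_ ?_
  · rcases le_total 0 k with hk | hk
    · exact (g.fwd hδ (hu' i (i + 1) (by omega) hi (by omega)) hk k2).trans h.δ_le
    · exact (g.bwd hδ (hs' i (i + 1) (by omega) hi (by omega)) hk k1).trans h.δ_le
  · rwa [← mul_assoc R, Nat.mul_div_cancel _ Q1]
  · rwa [mul_comm P, ← mul_assoc R, Nat.mul_div_cancel _ P1, add_comm (x * t)]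

theorem LH.rect (h : LH F ε δ C a b) (g : Geo F ρ Λ Λ' C₁) (hδ : δ ≤ ρ) {x y : ℕ} {q : ℝ}
    (hs : Λ' ^ x * a ^ (x + y) ≤ q) (hu : Λ ^ y * b ^ (x + y) ≤ q) {R t : ℕ}
    (ht : (R + 1) * (C₁ / δ + 2) * C * q ^ t ≤ δ) {p p' : X} (hp : Reach ρ R p p') :
    ∃ w, St F (y * t : ℕ) δ w p' ∧ Un F (-(x * t : ℕ)) δ w p := by
  obtain ⟨M, h1, -, -, h2⟩ := h.rect' g hδ hs hu g.C₁_nonneg ht
  obtain ⟨c, c0, c1, c2⟩ := g.refine h1 hp
  obtain ⟨ω, h3, h4⟩ := h2 c c2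
  exact ⟨_, c1 ▸ h3.2.1 _ le_rfl, c0 ▸ h4⟩

/-- Small balls are covered by exponentially many balls of radius `2⁻ᵏ`. -/
def Box (X : Type*) [MetricSpace X] (r : ℝ) (N : ℕ) : Prop :=
  ∀ (p : X) (k : ℕ), ∃ T : Finset X, T.card ≤ N ^ (k + 1) ∧
    ∀ z, dist z p ≤ r → ∃ τ ∈ T, dist z τ ≤ (1 / 2) ^ k

theorem count (g : Geo F ρ Λ Λ' C₁) (hδ : 2 * δ ≤ ρ) {N : ℕ} (hN : Box X (2 * δ) N)
    {m n k : ℕ} (h1 : Λ ^ (m + n) * (1 / 2) ^ k ≤ δ) (h2 : Λ' ^ n * (2 * (1 / 2) ^ k) ≤ δ)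
    (p : X) {Z : Set X} (hZ : ∀ z ∈ Z, ∀ z' ∈ Z, dist z z' ≤ δ → z = z')
    (hw : ∀ z ∈ Z, ∃ w, St F n δ w z ∧ Un F (-m) δ w p) :
    Z.Finite ∧ Z.ncard ≤ N ^ (k + 1) * N ^ (k + 1) := by
  classical
  have hδ0 : 0 ≤ δ := le_trans (mul_nonneg (pow_nonneg (by linarith [g.one_le]) _)
    (by positivity)) h1
  obtain ⟨T, T1, T2⟩ := hN ((F ^ (-m : ℤ)) p) k
  choose T' T3 T4 using fun τ => hN ((F ^ ((m + n : ℕ) : ℤ)) τ) k
  have key : ∀ z ∈ Z, ∃ τ' ∈ T.biUnion T', dist ((F ^ (n : ℤ)) z) τ' ≤ (1 / 2) ^ k := by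
    intro z hz
    obtain ⟨w, w1, w2⟩ := hw z hz
    obtain ⟨τ, t1, t2⟩ := T2 _ ((w2 _ le_rfl).trans (by linarith))
    have e1 := g.fwd (n := m + n) (r := δ) (by linarith) (le_trans (mul_le_mul_of_nonneg_left t2
      (pow_nonneg (by linarith [g.one_le]) _)) h1) (k := ((m + n : ℕ) : ℤ)) (by omega) le_rfl
    rw [zpow_apply_zpow, show ((m + n : ℕ) : ℤ) + -m = n by omega] at e1
    obtain ⟨τ', t3, t4⟩ := T4 τ ((F ^ (n : ℤ)) z) (by
      linarith [dist_triangle_left ((F ^ (n : ℤ)) z) ((F ^ ((m + n : ℕ) : ℤ)) τ) ((F ^ (n : ℤ)) w),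
        w1 _ le_rfl])
    exact ⟨τ', Finset.mem_biUnion.2 ⟨τ, t1, t3⟩, t4⟩
  choose! φ φ1 φ2 using key
  have hinj : Set.InjOn φ Z := by
    intro z hz z' hz' e
    refine hZ z hz z' hz' ?_
    have e1 : dist ((F ^ (n : ℤ)) z) ((F ^ (n : ℤ)) z') ≤ 2 * (1 / 2) ^ k := by
      have := φ2 z' hz'
      rw [← e] at this
      linarith [dist_triangle_right ((F ^ (n : ℤ)) z) ((F ^ (n : ℤ)) z') (φ z), φ2 z hz]
    have e2 := g.bwd (n := n) (r := δ) (by linarith) (le_trans (mul_le_mul_of_nonneg_left e1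
      (pow_nonneg (by linarith [g.one_le']) _)) h2) (k := -n) (by omega) le_rfl
    simpa [zpow_apply_zpow] using e2
  have hmap : Set.MapsTo φ Z (T.biUnion T' : Finset X) := fun z hz => φ1 z hz
  refine ⟨Set.Finite.of_injOn hmap hinj (Finset.finite_toSet _), ?_⟩
  refine (Set.ncard_le_ncard_of_injOn φ hmap hinj (Finset.finite_toSet _)).trans ?_
  rw [Set.ncard_coe_finset]
  exact (Finset.card_biUnion_le_card_mul _ _ _ fun τ _ => T3 τ).trans (Nat.mul_le_mul_right _ T1)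

/-- Polynomial bound along powers of two. -/
theorem LH.poly (h : LH F ε δ C a b) (g : Geo F ρ Λ Λ' C₁) (hδ : 2 * δ ≤ ρ) {x y : ℕ}
    (hs : Λ' ^ x * a ^ (x + y) < 1) (hu : Λ ^ y * b ^ (x + y) < 1) {N : ℕ}
    (hN : Box X (2 * δ) N) : ∃ D : ℕ, ∀ L : ℕ, ∃ K : ℕ, ∀ (j : ℕ) (p : X) (Z : Set X),
      (∀ z ∈ Z, ∀ z' ∈ Z, dist z z' ≤ δ → z = z') → (∀ z ∈ Z, Reach ρ (L * 2 ^ j) p z) →
      Z.Finite ∧ Z.ncard ≤ K * (2 ^ j) ^ D := by
  have hδ0 := h.δ_pos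
  have hC₁ := g.C₁_nonneg
  have hC := h.C_nonneg
  have hΛ := g.one_le
  have hΛ' := g.one_le'
  set q := max (Λ' ^ x * a ^ (x + y)) (Λ ^ y * b ^ (x + y))
  have hq : q < 1 := max_lt hs hu
  have hq0 : 0 ≤ q := le_max_of_le_left (mul_nonneg (by positivity) (pow_nonneg h.a_nonneg _))
  obtain ⟨c, hc⟩ := exists_pow_lt_of_lt_one (show (0 : ℝ) < 1 / 2 by norm_num) hq
  obtain ⟨e, he⟩ := pow_unbounded_of_one_lt (max Λ Λ' ^ (x + y)) (show (1 : ℝ) < 2 by norm_num)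
  obtain ⟨e', he'⟩ := exists_pow_lt_of_lt_one (show (0 : ℝ) < δ / 2 by linarith)
    (show (1 / 2 : ℝ) < 1 by norm_num)
  obtain ⟨D, hD⟩ := pow_unbounded_of_one_lt (N ^ (2 * e * c)) (show 1 < 2 by norm_num)
  refine ⟨D, fun L => ?_⟩
  obtain ⟨c', hc'⟩ := exists_pow_lt_of_lt_one
    (show 0 < δ / ((L + 1) * (C₁ / δ + 2) * C + 1) by positivity) hq
  refine ⟨N ^ (2 * (e * c' + e' + 1)), fun j p Z hZ hR => ?_⟩
  have key : ∀ (L' : ℝ) (i : ℕ), 1 ≤ L' → L' ≤ max Λ Λ' → i ≤ x + y →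
      L' ^ (i * (c * j + c')) * (2 * (1 / 2) ^ (e * (c * j + c') + e')) ≤ δ := by
    intro L' i e1 e2 e3
    have e4 : L' ^ i * (1 / 2) ^ e ≤ 1 := by
      rw [one_div, inv_pow, ← div_eq_mul_inv, div_le_one (by positivity)]
      exact le_trans ((pow_le_pow_left₀ (by linarith) e2 i).trans
        (pow_le_pow_right₀ (e1.trans e2) e3)) he.le
    have e5 := pow_le_one₀ (n := c * j + c') (by positivity) e4
    rw [mul_pow, ← pow_mul, ← pow_mul] at e5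
    rw [pow_add]
    nlinarith [pow_pos (show (0 : ℝ) < 1 / 2 by norm_num) e']
  have := count (m := x * (c * j + c')) (n := y * (c * j + c')) (k := e * (c * j + c') + e') g hδ
    hN ?_ (key Λ' y hΛ' (le_max_right _ _) (by omega)) p hZ fun z hz =>
      h.rect g (by linarith) (le_max_left _ _) (le_max_right _ _) ?_ (hR z hz)
  · refine ⟨this.1, this.2.trans ?_⟩
    rw [← pow_add, show e * (c * j + c') + e' + 1 + (e * (c * j + c') + e' + 1) =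
      2 * (e * c' + e' + 1) + 2 * e * c * j by ring, pow_add, pow_mul N (2 * e * c), ← pow_mul 2,
      mul_comm j, pow_mul 2]
    gcongr
  · have := key Λ (x + y) hΛ (le_max_left _ _) le_rfl
    rw [← add_mul]
    nlinarith [pow_pos (show (0 : ℝ) < 1 / 2 by norm_num) (e * (c * j + c') + e'),
      pow_pos (show 0 < Λ by linarith) ((x + y) * (c * j + c'))]
  · have e1 : (2 : ℝ) ^ j * (q ^ c) ^ j ≤ 1 := by
      rw [← mul_pow]
      exact pow_le_one₀ (by positivity) (by linarith)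
    have e2 : ((L * 2 ^ j : ℕ) : ℝ) + 1 ≤ (L + 1) * 2 ^ j := by
      push_cast
      nlinarith [one_le_pow₀ (show (1 : ℝ) ≤ 2 by norm_num) (n := j)]
    rw [lt_div_iff₀ (by positivity)] at hc'
    calc _ ≤ (L + 1) * 2 ^ j * (C₁ / δ + 2) * C * q ^ (c * j + c') := by gcongr
      _ = (L + 1) * (C₁ / δ + 2) * C * q ^ c' * (2 ^ j * (q ^ c) ^ j) := by
        rw [pow_add, pow_mul]; ring
      _ ≤ (L + 1) * (C₁ / δ + 2) * C * q ^ c' * 1 := by gcongr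
      _ ≤ δ := by nlinarith [pow_nonneg hq0 c']

end Pool.Agent.P.MP_5c499f_an
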