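import Pool.Agent.P.MP_5c499f_an.Coarse

/-! Hyperbolicity of the model and the conjugacy of the universal covers. -/

set_option autoImplicit false

namespace Pool.Agent.P.MP_5c499f_an

open Filter Topology Law
open scoped Matrix

lemma le_zero_of_pow {r a b : ℝ} (h : ∀ n : ℕ, 2 ^ n * r ≤ a + b * n) : r ≤ 0 := by
  have := ((tendsto_pow_const_div_const_pow_of_one_lt 0 one_lt_two).const_mul a).add
    ((tendsto_pow_const_div_const_pow_of_one_lt 1 one_lt_two).const_mul b)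
  refine ge_of_tendsto' (by simpa using this) fun n => ?_
  have := h n
  field_simp
  linarith

lemma orbit_eq {X : Type*} {α : Equiv.Perm X} {y : ℤ → X} (h : ∀ k, y (k + 1) = α (y k)) (k : ℤ) :
    y k = (α ^ k) (y 0) := by
  induction k using Int.induction_on with
  | zero => rfl
  | succ k ih => rw [h, ih, zpow_succ_apply]
  | pred k ih => exact α.injective (by rw [← h, ← zpow_succ_apply, sub_add_cancel, ih])

lemma Bf.int {X : Type*} [SeminormedAddCommGroup X] {f : ℤ → X} (s t : ℤ)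
    (h1 : Bf fun k : {k // k ≤ s} => f k) (h2 : Bf fun k : {k // t ≤ k} => f k) : Bf f := by
  obtain ⟨R₁, h1⟩ := h1
  obtain ⟨R₂, h2⟩ := h2
  obtain ⟨R₃, h3⟩ := (((Set.finite_Icc s t).image f).isBounded).exists_norm_le
  refine ⟨max R₁ (max R₂ R₃), fun k => ?_⟩
  by_cases e : k ≤ s
  · exact le_max_of_le_left (h1 ⟨k, e⟩)
  by_cases e' : t ≤ k
  · exact le_max_of_le_right (le_max_of_le_left (h2 ⟨k, e'⟩))
  · exact le_max_of_le_right (le_max_of_le_right (h3 _ ⟨k, ⟨by omega, by omega⟩, rfl⟩))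

variable {Y Γ ι : Type*} [MetricSpace Y] [Group Γ] [MulAction Γ Y] {ρ : ℝ} {m c : ℕ} {μ : Law m}
  {lv : Fin m → ℕ} {Φ : MulAut Γ} {β : Γ →* Equiv.Perm μ.N} {A : Γ →* MulAut μ.N}
  {α : Equiv.Perm μ.N} {B : MulAut μ.N} {G : Equiv.Perm Y} {o : Y} (D : Dyn G Φ ρ o)
  (F : Aff μ lv c Φ β A α B)
include D F

theorem Dyn.noUnit (j : ℕ) : NoUnit (blk lv j B) := by
  induction j using Nat.strong_induction_on with
  | _ j ih =>
  intro z l hz hl
  have l0 : ∀ i, lv i ≠ j → l i = 0 := fun i hi => by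
    have := congrFun hl i
    simpa [Matrix.vecMul, dotProduct, blk, hi, norm_ne_zero_iff.1 (hz ▸ one_ne_zero)] using this
  let L : μ.N →L[ℝ] ℂ := LinearMap.toContinuousLinearMap
    (∑ i, (LinearMap.proj (φ := fun _ : Fin m => ℝ) i).smulRight (l i))
  have L0 : ∀ v : μ.N, L v = l ⬝ᵥ fun i => (v i : ℂ) := fun v =>
    (LinearMap.sum_apply (M := Fin m → ℝ) _ _ v).trans (Finset.sum_congr rfl fun i _ => mul_comm _ _)
  have L1 : ∀ v v' : μ.N, (∀ i, lv i = j → v i = v' i) → L v = L v' := fun v v' h => by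
    rw [L0, L0]
    refine Finset.sum_congr rfl fun i _ => ?_
    by_cases e : lv i = j <;> simp [e, h, l0]
  have L2 : ∀ v : μ.N, ‖L (blk lv j B *ᵥ v :)‖ = ‖L v‖ := fun v => by
    have : (fun i => ((blk lv j B *ᵥ v) i : ℂ)) =
        (blk lv j B).map Complex.ofReal *ᵥ fun i => (v i : ℂ) := by
      ext i; simp [Matrix.mulVec, dotProduct]
    rw [L0, L0, this, Matrix.dotProduct_mulVec, hl, smul_dotProduct, norm_smul, hz, one_mul]
  refine funext fun i₀ => by_contra fun hne => ?_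
  have hj : lv i₀ = j := by_contra fun e => hne (l0 _ e)
  obtain ⟨γ, g, g1, g2⟩ := F.lat (Pi.single i₀ 1)
  have g3 : μ.W lv j g := fun i hi => by
    rw [g1, Pi.single_eq_of_ne (by rintro rfl; omega), Int.cast_zero]
  have Q : ∀ (N : ℕ) (k : ℤ), 0 ≤ k → ∃ g', μ.W lv j g' ∧ (∀ n, β ((Φ ^ k) (γ ^ N)) n = g' * n) ∧
      ‖L g'‖ = N * ‖l i₀‖ := fun N k hk => by
    induction k, hk using Int.leInduction with
    | base =>
      suffices ∃ g', μ.W lv j g' ∧ (∀ n, β (γ ^ N) n = g' * n) ∧ L g' = N * l i₀ from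
        this.imp fun g' h => ⟨h.1, h.2.1, by simp [h.2.2]⟩
      induction N with
      | zero => exact ⟨1, W_one, by simp, (map_zero L).trans (by simp)⟩
      | succ N ih =>
        obtain ⟨g', h1, h2, h3⟩ := ih
        refine ⟨g' * g, F.tri.W_mul h1 g3, fun n => by
          rw [pow_succ, map_mul, Equiv.Perm.mul_apply, h2, g2, mul_assoc], ?_⟩
        rw [L1 _ (g' + g) fun i hi => F.tri.add j _ _ g3 i hi.le, map_add, h3, L0]
        simp [g1, Pi.single_apply, dotProduct, add_mul, apply_ite]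
    | succ k hk ih =>
      obtain ⟨g', h1, h2, h3⟩ := ih
      have h4 := F.goodB.mem _ _ h1
      refine ⟨(α 1)⁻¹⁻¹ * B g' * (α 1)⁻¹, F.tri.W_conj h4 _, fun n => ?_, ?_⟩
      · obtain ⟨n, rfl⟩ := α.surjective n
        have : ∀ n, α n = α 1 * B n := fun n => by rw [← F.affB, one_mul]
        rw [add_comm, zpow_one_add, MulAut.mul_apply, ← F.equiv, h2, this, this n]
        simp [mul_assoc]
      · rw [← h3, ← L2 g', L1 _ _ fun i hi =>
          (F.tri.conj h4 _ hi.le).trans (F.tri.blk_eq F.goodB h1 hi)]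
  choose g' q1 q2 q3 using Q
  obtain ⟨c₀, hc⟩ := D.br
  obtain ⟨R₀, hR₀⟩ := D.conn (γ • o)
  have r1 : ∀ N : ℕ, Reach ρ (N * R₀) o (γ ^ N • o) := fun N => by
    induction N with
    | zero => simpa using Reach.refl ρ o
    | succ N ih => simpa [add_mul, add_comm, pow_succ', mul_smul] using hR₀.trans (ih.smul D.iso γ)
  choose w w1 w2 using fun n : ℕ => hc (n + R₀) o (γ ^ 2 ^ n • o) ((r1 _).mono D.pos.le
    (by rw [pow_add]; exact Nat.mul_le_mul_left _ Nat.lt_two_pow_self.le))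
  set T : ℕ → ℕ := fun n => c₀ * (n + R₀ + 1) with hT
  obtain ⟨x, hx⟩ := D.ex β fun k : ℤ => (G ^ k) o
  obtain ⟨y, hy⟩ := D.ex β fun y : ℕ × ℤ => (G ^ y.2) (w y.1)
  set d : ℕ → ℤ → μ.N := fun n k => (x k)⁻¹ * y (n, k) with hd
  obtain ⟨R₁, b1⟩ : Bf fun s : {y : ℕ × ℤ // y.2 ≤ -T y.1} => d s.1.1 s.1.2 :=
    (hx.comp _).bd D F ((hy.comp _).left D ⟨1, fun s => .single ((dist_comm _ _).trans_le (w2 _ _ s.2))⟩)
  obtain ⟨R₂, b2⟩ := ((hx.comp fun s : {y : ℕ × ℤ // T y.1 ≤ y.2} => s.1.2).smul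
    fun s => (Φ ^ s.1.2) (γ ^ 2 ^ s.1.1)).bd D F ((hy.comp (·.1)).left D ⟨1, fun s => .single (by
      beta_reduce
      rw [← equiv_zpow (act := (· • ·)) D.equiv, dist_comm]; exact w1 _ _ s.2)⟩)
  have b3 : ∀ n (k : ℤ) (hk : T n ≤ k) i, lv i ≤ j → d n k i = ((β ((Φ ^ k) (γ ^ 2 ^ n)) (x k))⁻¹ *
      y (n, k)) i + g' (2 ^ n) k (by omega) i := fun n k hk i hi => by
    have := F.tri.mid (q1 (2 ^ n) k (by omega)) (x k)⁻¹
      (x k * ((β ((Φ ^ k) (γ ^ 2 ^ n)) (x k))⁻¹ * y (n, k))) hi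
    rw [inv_mul_cancel_left] at this
    rw [← this, q2 _ _ (by omega)]
    simp [hd, mul_assoc]
  have j1 := Nr.jump (x := fun _ k => x k) (p := fun _ : ℕ => o) D F (hx.comp Prod.snd)
  have j2 := Nr.jump (x := fun n k => y (n, k)) D F hy
  have j3 : ∀ n k, d n (k + 1) = ((α (x k))⁻¹ * x (k + 1))⁻¹ * B (d n k) *
      ((α (y (n, k)))⁻¹ * y (n, k + 1)) := fun n k => by simp only [hd, ← F.diffB]; group
  obtain ⟨R, hR⟩ := F.tri.step F.goodB j1 j2 (F.tri.sh F.goodB ih j1 j2 j3 fun n => by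
    obtain ⟨R₃, b4⟩ := (((Set.finite_Icc (-T n : ℤ) (T n)).image (d n)).isBounded).exists_norm_le
    refine ⟨max R₁ (max R₂ R₃), fun k i hi => ?_⟩
    by_cases e : k ≤ -T n
    · exact le_max_of_le_left ((norm_le_pi_norm _ i).trans (b1 ⟨(n, k), e⟩))
    refine le_max_of_le_right ?_
    by_cases e' : T n ≤ k
    · rw [b3 n k e' i hi.le, q1 _ _ _ i hi, add_zero]
      exact le_max_of_le_left ((norm_le_pi_norm _ i).trans (b2 ⟨(n, k), e'⟩))
    · exact le_max_of_le_right ((norm_le_pi_norm _ i).trans (b4 _ ⟨k, ⟨by omega, by omega⟩, rfl⟩)))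
    fun s => j3 s.1 s.2
  have e1 : ∀ n k, ‖L (d n (k + 1))‖ ≤ ‖L (d n k)‖ + ‖L‖ * R := fun n k => by
    have := (map_sub L _ _).symm ▸ L.le_of_opNorm_le_of_le le_rfl (hR (n, k))
    rw [ blk_congr (d := pr lv j (d n k)) (d' := d n k) fun _ h => if_pos h,
      L1 (pr lv j (d n (k + 1))) (d n (k + 1)) fun _ h => if_pos h] at this
    linarith [norm_sub_norm_le (L (d n (k + 1))) (L (blk lv j B *ᵥ d n k :)), L2 (d n k)]
  have e2 : ∀ n k (t : ℕ), ‖L (d n (k + t))‖ ≤ ‖L (d n k)‖ + t * (‖L‖ * R) := fun n k t => by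
    induction t with
    | zero => simp
    | succ t ih => push_cast; rw [← add_assoc]; linarith [e1 n (k + t)]
  refine hne (norm_le_zero_iff.1 (le_zero_of_pow (b := 2 * c₀ * (‖L‖ * R))
    (a := ‖L‖ * R₁ + ‖L‖ * R₂ + 2 * c₀ * (R₀ + 1) * (‖L‖ * R)) fun n => ?_))
  have e3 := e2 n (-T n) (2 * T n)
  have e4 := L.le_of_opNorm_le_of_le le_rfl (b1 ⟨(n, -T n), le_rfl⟩)
  have e5 := L.le_of_opNorm_le_of_le le_rfl (b2 ⟨(n, T n), le_rfl⟩)
  have e6 := q3 (2 ^ n) (T n) (by omega)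
  rw [show (-T n : ℤ) + (2 * T n : ℕ) = T n by omega,
    L1 _ (_ + _) fun i hi => b3 n _ le_rfl i hi.le, map_add] at e3
  have e7 := (norm_le_add_norm_add' _ _).trans (add_le_add e3 e5)
  rw [e6, show ((2 * T n : ℕ) : ℝ) = 2 * (c₀ * (n + R₀ + 1)) by simp [hT]] at e7
  push_cast at e7
  linarith

lemma Dyn.lim (l : Filter ι) (f : ι → μ.N) (n : μ.N) (R : ℝ)
    (h : ∀ k : ℤ, ∀ᶠ i in l, ‖((α ^ k) n)⁻¹ * (α ^ k) (f i)‖ ≤ R) : Tendsto f l (𝓝 n) :=
  ((isCompact_closedBall 0 R).image (continuous_const_mul n)).tendsto_nhds_of_unique_mapClusterPt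
    ((h 0).mono fun _ hi => ⟨_, mem_closedBall_zero_iff.2 hi, mul_inv_cancel_left _ _⟩)
    fun _ _ hu => (F.uq (D.noUnit F) ⟨R, fun k => (isClosed_le ((F.contB k).const_mul _).norm
      continuous_const).mem_of_mapClusterPt hu (h k)⟩).symm

theorem Dyn.conj : ∃ h : Y → μ.N, Continuous h ∧ Function.Injective h ∧ DenseRange h ∧
    (∀ (γ : Γ) p, h (γ • p) = β γ (h p)) ∧ ∀ p, h (G p) = α (h p) := by
  have H := D.noUnit F
  obtain ⟨x, hx⟩ := D.ex β fun y : Y × ℤ => (G ^ y.2) y.1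
  obtain ⟨d, d1, d2⟩ := F.tri.us F.goodB H (a := fun p k => (α (x (p, k)))⁻¹ * x (p, k + 1))
    (Nr.jump (x := fun p k => x (p, k)) (p := id) D F hx)
  set h : Y → μ.N := fun p => x (p, 0) * d p 0
  have hN : Nr ρ o β (fun y : Y × ℤ => (G ^ y.2) y.1) fun y => (α ^ y.2) (h y.1) :=
    hx.right F (by
      have := fun p => orbit_eq (α := α) (y := fun k => x (p, k) * d p k) fun k => by
        rw [F.affB, ← d2, ← mul_assoc, mul_inv_cancel_left]
      simpa only [h, ← this, inv_mul_cancel_left] using d1)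
  have ch : ∀ p n, (Nr ρ o β (fun k : ℤ => (G ^ k) p) fun k => (α ^ k) n) → h p = n :=
    fun p n e => F.uq H ((hN.comp fun k => (p, k)).bd D F e)
  obtain ⟨R₁, nb⟩ := ((hN.comp fun s : {s : Y × Y × ℤ //
    dist ((G ^ s.2.2) s.2.1) ((G ^ s.2.2) s.1) ≤ ρ} => (s.1.1, s.1.2.2)).left D
    (q := fun s => (G ^ s.1.2.2) s.1.2.1) ⟨1, fun s => .single s.2⟩).bd D F
    (hN.comp (Prod.snd ∘ Subtype.val))
  refine ⟨h, ?_, fun p q e => ?_, fun n => ?_, fun γ p => ch _ _ ?_, fun p => ch _ _ ?_⟩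
  · exact continuous_iff_continuousAt.2 fun p => D.lim F _ _ _ R₁ fun k =>
      (Metric.tendsto_nhds.1 ((D.cont k).tendsto p) ρ D.pos).mono fun q hq => nb ⟨(p, q, k), hq.le⟩
  · obtain ⟨R, hR⟩ := (hN.comp fun k => (p, k)).by D F
      (by simpa only [e] using hN.comp fun k => (q, k))
    exact D.glob R p q hR
  · obtain ⟨p, hp⟩ := F.ex ρ o fun k : ℤ => (α ^ k) n
    obtain ⟨c₀, hc⟩ := D.br
    have br : ∀ a b : Y, ∃ w T, St G T ρ w a ∧ Un G (-T) ρ w b := fun a b => by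
      obtain ⟨R, hR⟩ := D.conn a
      obtain ⟨R', hR'⟩ := D.conn b
      obtain ⟨w, hw⟩ := hc _ b a ((hR'.symm.trans hR).mono D.pos.le Nat.lt_two_pow_self.le)
      exact ⟨w, _, hw⟩
    set a : ℤ → Y := fun k => (G ^ (-k)) (p k)
    obtain ⟨R, hR⟩ := hp.bd D F (show Nr ρ o β p fun k => (α ^ k) (h (a k)) by
      simpa [a] using hN.comp fun k => (a k, k))
    obtain ⟨R', hR'⟩ := bd_inv ⟨R, hR⟩
    choose w T w1 w2 using fun K : ℕ => br (a (K + 1)) (a (-K))
    set u : ℕ → ℤ → μ.N := fun K k =>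
      (α ^ k) (if K < k then h (a (K + 1)) else if k < -K then h (a (-K)) else n) with hu
    suffices Bf fun s : ℕ × ℤ => (u s.1 s.2)⁻¹ * (α ^ s.2) (h (w s.1)) by
      obtain ⟨R₀, h0⟩ := this
      refine mem_closure_of_tendsto (D.lim F atTop (fun K => h (w K)) n R₀ fun k => ?_)
        (.of_forall fun K => ⟨_, rfl⟩)
      filter_upwards [eventually_ge_atTop k.natAbs] with K hK
      have := h0 (K, k)
      simpa only [hu, if_neg (show ¬(K : ℤ) < k by omega), if_neg (show ¬k < -K by omega)] using this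
    refine F.tri.bd (F.tri.sh F.goodB (fun j _ => H j)
      (a := fun K k => (α (u K k))⁻¹ * u K (k + 1)) (b := fun _ _ => 1)
      (d := fun K k => (u K k)⁻¹ * (α ^ k) (h (w K))) ⟨max (max R R') 0, fun s => ?_⟩ (Bf.const _)
      (fun K k => by simp only [zpow_succ_apply, ← F.diffB]; group) fun K => bl_of_bd
        (Bf.int (min (-T K) (-K - 1)) (max (T K) (K + 1)) ?_ ?_))
    · obtain ⟨K, k⟩ := s
      simp only [hu, ← zpow_succ_apply]
      by_cases e : k = K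
      · subst e
        rw [if_neg (by omega), if_neg (by omega), if_pos (by omega)]
        exact le_max_of_le_left (le_max_of_le_left (hR _))
      by_cases e' : k + 1 = -K
      · rw [if_neg (by omega), if_pos (by omega), if_neg (by omega), if_neg (by omega), e']
        exact le_max_of_le_left (le_max_of_le_right (by
          simpa only [mul_inv_rev, inv_inv] using hR' (-K)))
      refine le_max_of_le_right (norm_le_zero_iff.2 (inv_mul_eq_one.2 (congrArg _ ?_)))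
      split_ifs <;> first | rfl | omega
    · refine ⟨R₁, fun k => ?_⟩
      have := k.2
      simp only [hu, if_neg (show ¬(K : ℤ) < k by omega), if_pos (show k.1 < -K by omega)]
      exact nb ⟨(a (-K), w K, k), w2 K k (by omega)⟩
    · refine ⟨R₁, fun k => ?_⟩
      have := k.2
      simp only [hu, if_pos (show (K : ℤ) < k by omega)]
      exact nb ⟨(a (K + 1), w K, k), w1 K k (by omega)⟩
  · simpa only [equiv_zpow (act := (· • ·)) D.equiv, equiv_zpow (act := fun g => β g) F.equiv] using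
      (hN.comp fun k => (p, k)).smul fun k => (Φ ^ k) γ
  · simpa only [zpow_add_one, Equiv.Perm.mul_apply] using hN.comp fun k => (p, k + 1)

end Pool.Agent.P.MP_5c499f_an
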