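import Pool.Agent.P.MP_5c499f_an.Charts

/-! Shadowing and exponential convergence in a uniform chart system. -/

set_option autoImplicit false

namespace Pool.Agent.P.MP_5c499f_an

variable {M E ι : Type*} [MetricSpace M] [NormedAddCommGroup E] [NormedSpace ℝ E]

/-- Uniform linearization in charts. -/
def Lin (A : ι → Set M) (φ : ι → M → E) (F : M → M) (B : M → ι → ι → E →L[ℝ] E) : Prop :=
  ∀ θ, 0 < θ → ∃ ρ, 0 < ρ ∧ ∀ x i j y y', x ∈ A i → F x ∈ A j → dist y x ≤ ρ → dist y' x ≤ ρ →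
    ‖φ j (F y) - φ j (F y') - B x i j (φ i y - φ i y')‖ ≤ θ * ‖φ i y - φ i y'‖

/-- One-step hyperbolicity in charts. -/
structure Hy (A : ι → Set M) (φ : ι → M → E) (F : Equiv.Perm M) (B B' : M → ι → ι → E →L[ℝ] E)
    (Q : M → ι → E →L[ℝ] E) (a b Λ Λ' C₀ : ℝ) : Prop where
  a_pos : 0 < a
  b_pos : 0 < b
  one_le : 1 ≤ Λ
  one_le' : 1 ≤ Λ'
  one_le_C : 1 ≤ C₀
  a_le : 20 * C₀ ^ 2 * a ≤ 1
  b_le : 20 * C₀ ^ 2 * b ≤ 1
  lin : Lin A φ F B
  lin' : Lin A φ (F⁻¹ : Equiv.Perm M) B'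
  uc : UniformContinuous F
  uc' : UniformContinuous (F⁻¹ : Equiv.Perm M)
  inv : ∀ x i j v, x ∈ A i → F x ∈ A j → B' (F x) j i (B x i j v) = v
  inv' : ∀ x i j v, x ∈ A i → F x ∈ A j → B x i j (B' (F x) j i v) = v
  idem : ∀ x i v, x ∈ A i → Q x i (Q x i v) = Q x i v
  bd : ∀ x i v, x ∈ A i → ‖Q x i v‖ ≤ C₀ * ‖v‖
  bd' : ∀ x i v, x ∈ A i → ‖v - Q x i v‖ ≤ C₀ * ‖v‖
  ucQ : ∀ κ, 0 < κ → ∃ η, 0 < η ∧ ∀ i x y v, x ∈ A i → y ∈ A i → dist x y ≤ η →
    ‖Q x i v - Q y i v‖ ≤ κ * ‖v‖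
  comm : ∀ x i j v, x ∈ A i → F x ∈ A j → Q (F x) j (B x i j v) = B x i j (Q x i v)
  st : ∀ x i j v, x ∈ A i → F x ∈ A j → Q x i v = 0 →
    ‖B x i j v‖ ≤ a * ‖v‖ ∧ ‖v‖ ≤ Λ' * ‖B x i j v‖
  un : ∀ x i j v, x ∈ A i → F x ∈ A j → Q x i v = v →
    ‖v‖ ≤ b * ‖B x i j v‖ ∧ ‖B x i j v‖ ≤ Λ * ‖v‖

variable {A : ι → Set M} {φ : ι → M → E} {ψ : ι → E → M} {r C : ℝ} {F : Equiv.Perm M}
  {B B' : M → ι → ι → E →L[ℝ] E} {Q : M → ι → E →L[ℝ] E} {a b Λ Λ' C₀ : ℝ}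

namespace Hy

variable (H : Hy A φ F B B' Q a b Λ Λ' C₀)
include H

lemma comm' {x : M} {i j : ι} (v : E) (hx : x ∈ A i) (hx' : F x ∈ A j) :
    Q x i (B' (F x) j i v) = B' (F x) j i (Q (F x) j v) := by
  have := H.comm x i j (B' (F x) j i v) hx hx'
  rw [H.inv' _ _ _ _ hx hx'] at this
  rw [this, H.inv _ _ _ _ hx hx']

theorem symm : Hy A φ F⁻¹ B' B (fun x i => 1 - Q x i) b a Λ' Λ C₀ := by
  refine ⟨H.b_pos, H.a_pos, H.one_le', H.one_le, H.one_le_C, H.b_le, H.a_le, H.lin', H.lin, H.uc',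
    H.uc, fun x i j v h1 h2 => ?_, fun x i j v h1 h2 => ?_, fun x i v h => ?_, H.bd',
    fun x i v h => by simpa using H.bd x i v h, fun κ hκ => ?_, fun x i j v h1 h2 => ?_,
    fun x i j v h1 h2 h3 => ?_, fun x i j v h1 h2 h3 => ?_⟩
  · obtain ⟨x, rfl⟩ := F.surjective x
    simp only [Equiv.Perm.inv_def, Equiv.symm_apply_apply] at h2 ⊢
    exact H.inv' _ _ _ _ h2 h1
  · obtain ⟨x, rfl⟩ := F.surjective x
    simp only [Equiv.Perm.inv_def, Equiv.symm_apply_apply] at h2 ⊢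
    exact H.inv _ _ _ _ h2 h1
  · simp [H.idem x i v h]
  · obtain ⟨η, e1, e2⟩ := H.ucQ κ hκ
    exact ⟨η, e1, fun i x y v h1 h2 h3 => by
      simpa using e2 i y x v h2 h1 (by rwa [dist_comm])⟩
  · obtain ⟨x, rfl⟩ := F.surjective x
    simp only [Equiv.Perm.inv_def, Equiv.symm_apply_apply] at h2 ⊢
    simp [H.comm' v h2 h1]
  · obtain ⟨x, rfl⟩ := F.surjective x
    simp only [Equiv.Perm.inv_def, Equiv.symm_apply_apply] at h2 ⊢
    have h4 : Q (F x) i v = v := (sub_eq_zero.1 h3).symm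
    have := H.un x j i (B' (F x) i j v) h2 h1 (by rw [H.comm' v h2 h1, h4])
    rwa [H.inv' _ _ _ _ h2 h1] at this
  · obtain ⟨x, rfl⟩ := F.surjective x
    simp only [Equiv.Perm.inv_def, Equiv.symm_apply_apply] at h2 ⊢
    have h4 : Q (F x) i v = 0 := by simpa using h3
    have := H.st x j i (B' (F x) i j v) h2 h1 (by rw [H.comm' v h2 h1, h4, map_zero])
    rw [H.inv' _ _ _ _ h2 h1] at this
    exact this

lemma small : C₀ * a ≤ 1 / 20 ∧ a ≤ 1 / 20 ∧ C₀ * b ≤ 1 / 20 ∧ b ≤ 1 / 20 := by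
  have h1 := H.one_le_C
  have h2 := H.a_pos
  have h3 := H.b_pos
  have h4 : C₀ * a ≤ 1 / 20 := by nlinarith [H.a_le, mul_pos h2 (show 0 < C₀ by linarith)]
  have h5 : C₀ * b ≤ 1 / 20 := by nlinarith [H.b_le, mul_pos h3 (show 0 < C₀ by linarith)]
  exact ⟨h4, by nlinarith, h5, by nlinarith⟩

lemma st' {x : M} {i j : ι} (v : E) (hx : x ∈ A i) (hx' : F x ∈ A j) :
    ‖B x i j v - Q (F x) j (B x i j v)‖ ≤ C₀ * a * ‖v‖ := by
  have h1 := (H.st x i j (v - Q x i v) hx hx' (by simp [H.idem x i v hx])).1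
  rw [H.comm _ _ _ _ hx hx', ← map_sub]
  nlinarith [mul_le_mul_of_nonneg_left (H.bd' x i v hx) H.a_pos.le]

lemma norm_le {x : M} {i j : ι} (v : E) (hx : x ∈ A i) (hx' : F x ∈ A j) :
    ‖B x i j v‖ ≤ 2 * C₀ * Λ * ‖v‖ := by
  have h1 := H.st' v hx hx'
  have h2 := (H.un x i j (Q x i v) hx hx' (H.idem x i v hx)).2
  have h3 := norm_le_norm_add_norm_sub' (B x i j v) (Q (F x) j (B x i j v))
  rw [H.comm _ _ _ _ hx hx'] at h1 h3
  have h4 := mul_le_mul_of_nonneg_left (H.bd x i v hx) (show 0 ≤ Λ by linarith [H.one_le])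
  have h5 : 0 ≤ C₀ * ‖v‖ := mul_nonneg (by linarith [H.one_le_C]) (norm_nonneg _)
  nlinarith [H.small.2.1, H.one_le]

theorem lip (S : CS A φ ψ r C) : ∃ ρ, 0 < ρ ∧ ∀ x y, dist x y ≤ ρ →
    dist (F x) (F y) ≤ 3 * C ^ 2 * C₀ * Λ * dist x y := by
  obtain ⟨ρ, e1, e2⟩ := H.lin 1 one_pos
  obtain ⟨η, e3, e4⟩ := Metric.uniformContinuous_iff_le.1 H.uc r S.pos
  refine ⟨min (min ρ η) r, by have := S.pos; positivity, fun x y h => ?_⟩
  simp only [le_min_iff] at h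
  obtain ⟨i, hi⟩ := S.leb y
  obtain ⟨j, hj⟩ := S.leb (F y)
  have h1 := hi y (by simpa using S.pos.le)
  have h2 := hj (F y) (by simpa using S.pos.le)
  have h3 := e2 y i j x y h1 h2 h.1.1 (by simpa using e1.le)
  have h4 := S.lo j _ _ (hj _ (e4 h.1.2)) h2
  have h5 := S.up i _ _ (hi _ h.2) h1
  have h6 := H.norm_le (φ i x - φ i y) h1 h2
  have h7 := norm_le_norm_add_norm_sub' (φ j (F x) - φ j (F y)) (B y i j (φ i x - φ i y))
  have h8 : 1 ≤ C₀ * Λ := one_le_mul_of_one_le_of_one_le H.one_le_C H.one_le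
  have h9 : ‖φ j (F x) - φ j (F y)‖ ≤ 3 * (C₀ * Λ) * ‖φ i x - φ i y‖ := by
    nlinarith [norm_nonneg (φ i x - φ i y)]
  have h0 : 0 ≤ C := by linarith [S.one_le]
  refine h4.trans ((mul_le_mul_of_nonneg_left (h9.trans (mul_le_mul_of_nonneg_left h5
    (by linarith))) h0).trans (le_of_eq (by ring)))

theorem conv (S : CS A φ ψ r C) : ∃ ε, 0 < ε ∧ ∃ C', 0 ≤ C' ∧ ∀ x y : ℕ → M,
    (∀ k, x (k + 1) = F (x k)) → (∀ k, y (k + 1) = F (y k)) → (∀ k, dist (x k) (y k) ≤ ε) →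
    ∀ k, dist (x k) (y k) ≤ C' * (2 * a) ^ k := by
  have h1 := H.one_le_C
  have h2 := H.a_pos
  have h3 := S.one_le
  have h4 := S.pos
  obtain ⟨s1, s2, s3, s4⟩ := H.small
  obtain ⟨ρ, e1, e2⟩ := H.lin (a / (2 * C₀)) (by positivity)
  refine ⟨min ρ r, by positivity, C * (2 * C₀ * (C * r)), by positivity, fun x y hx hy h k => ?_⟩
  choose i hi using fun k => S.leb (y k)
  have a1 : ∀ k, y k ∈ A (i k) := fun k => hi k _ (by simpa using h4.le)
  have a2 : ∀ k, F (y k) ∈ A (i (k + 1)) := fun k => hy k ▸ a1 (k + 1)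
  have a3 : ∀ k, x k ∈ A (i k) := fun k => hi k _ ((h k).trans (min_le_right _ _))
  have a4 : a + 2 * (C₀ * (a / (2 * C₀))) = 2 * a := by field_simp; ring
  have key := cone (fun k => Q (y k) (i k)) (fun k => B (y k) (i k) (i (k + 1)))
    (fun k => φ (i k) (x k) - φ (i k) (y k)) (R := C * r) (θ := a / (2 * C₀)) (C₀ := C₀) (a₀ := a)
    (b₀ := b) (by positivity) (by positivity) h2.le H.b_pos.le (fun k w => H.idem _ _ _ (a1 k))
    (fun k w => by rw [hy]; exact H.comm _ _ _ _ (a1 k) (a2 k))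
    (fun k w hw => (H.st _ _ _ _ (a1 k) (a2 k) hw).1)
    (fun k w hw => (H.un _ _ _ _ (a1 k) (a2 k) hw).1) (fun k w => H.bd _ _ _ (a1 k))
    (fun k w => H.bd' _ _ _ (a1 k)) (fun k => by
      rw [hx, hy]
      exact e2 _ _ _ _ _ (a1 k) (a2 k) ((h k).trans (min_le_left _ _)) (by simpa using e1.le))
    (fun k => (S.up _ _ _ (a3 k) (a1 k)).trans (by gcongr; exact (h k).trans (min_le_right _ _)))
    (by linarith) (by nlinarith [H.b_pos]) k
  rw [a4] at key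
  refine (S.lo _ _ _ (a3 k) (a1 k)).trans ?_
  rw [mul_assoc]
  gcongr

theorem shadow [CompleteSpace E] (S : CS A φ ψ r C) {ε : ℝ} (hε : 0 < ε) : ∃ η, 0 < η ∧
    ∀ p : ℤ → M, (∀ k, dist (F (p k)) (p (k + 1)) ≤ η) → ∃ z, ∀ k, dist ((F ^ k) z) (p k) ≤ ε := by
  have h1 := H.one_le_C
  have h2 := H.one_le
  have h3 := S.one_le
  have h4 := S.pos
  have h5 := H.b_pos
  obtain ⟨s1, s2, s3, s4⟩ := H.small
  obtain ⟨ρ, e1, e2⟩ := H.lin (1 / (10 * (C₀ + 1))) (by positivity)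
  obtain ⟨η₁, e3, e4⟩ := Metric.uniformContinuous_iff_le.1 H.uc (r / 2) (by positivity)
  set κ := 1 / (40 * (C₀ * Λ)) with hκ
  have k0 : 0 < κ := by positivity
  have k1 : κ * (2 * C₀ * Λ) = 1 / 20 := by rw [hκ]; field_simp; norm_num
  have k2 : κ ≤ 1 / 40 := by nlinarith [one_le_mul_of_one_le_of_one_le h1 h2]
  obtain ⟨η₂, e5, e6⟩ := H.ucQ κ k0
  obtain ⟨s, t0, t1, t2, t3, t4⟩ : ∃ s, 0 < s ∧ C * s ≤ ρ ∧ C * s ≤ η₁ ∧ C * s ≤ ε ∧ C * s ≤ r :=
    ⟨min (min ρ η₁) (min ε r) / C, by positivity, by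
      simp [mul_div_cancel₀ _ (show C ≠ 0 by positivity)]⟩
  have t5 : s ≤ r := by nlinarith
  refine ⟨min (min η₂ (r / 2)) (s / (2 * (C₀ + 1) * C)), by positivity, fun p hp => ?_⟩
  simp only [le_min_iff, forall_and] at hp
  obtain ⟨⟨p1, p2⟩, p3⟩ := hp
  choose i hi using fun k => S.leb (p k)
  have a1 : ∀ k, p k ∈ A (i k) := fun k => hi k _ (by simpa using h4.le)
  have a2 : ∀ k, F (p k) ∈ A (i (k + 1)) := fun k => hi _ _ (by linarith [p2 k])
  have a3 : ∀ k v, ‖Q (F (p k)) (i (k + 1)) v - Q (p (k + 1)) (i (k + 1)) v‖ ≤ κ * ‖v‖ :=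
    fun k v => e6 _ _ _ _ (a2 k) (a1 _) (p1 k)
  have a4 : ∀ k v, ‖Q (p k) (i k) (B' (F (p k)) (i (k + 1)) (i k) v)‖ ≤ C₀ * b * ‖v‖ := by
    intro k v
    have := H.symm.st' (x := F (p k)) (j := i k) v (a2 k) (by simpa using a1 k)
    simpa using this
  have a5 : ∀ k v, ‖v‖ ≤ s → φ (i k) (ψ (i k) (φ (i k) (p k) + v)) = φ (i k) (p k) + v ∧
      dist (ψ (i k) (φ (i k) (p k) + v)) (p k) ≤ C * s := fun k v hv => by
    obtain ⟨b1, b2⟩ := S.inv _ _ (φ (i k) (p k) + v) (a1 k) (by simpa using hv.trans t5)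
    exact ⟨b1, b2.trans (by gcongr; simpa)⟩
  obtain ⟨v, v1, v2⟩ := perron (fun k => Q (p k) (i k))
    (fun k => Q (p k) (i k) ∘L B' (F (p k)) (i (k + 1)) (i k)) (fun k => B (p k) (i k) (i (k + 1)))
    (fun k v => φ (i (k + 1)) (F (ψ (i k) (φ (i k) (p k) + v))) - φ (i (k + 1)) (p (k + 1)))
    (r := s) (θ := 1 / (10 * (C₀ + 1))) (C₀ := C₀) t0.le (by positivity)
    (fun k v => H.idem _ _ _ (a1 k)) (fun k v => H.idem _ _ _ (a1 k)) (fun k v => by
      have b1 := H.st' v (a1 k) (a2 k)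
      have b2 := (a3 k _).trans (mul_le_mul_of_nonneg_left (H.norm_le v (a1 k) (a2 k)) k0.le)
      rw [← mul_assoc, k1] at b2
      refine (norm_sub_le_norm_sub_add_norm_sub _ _ _).trans ((add_le_add b1 b2).trans ?_)
      nlinarith [norm_nonneg v])
    (fun k v => by
      refine (a4 k _).trans ((mul_le_mul_of_nonneg_left (H.bd _ _ v (a1 _))
        (by positivity)).trans ?_)
      nlinarith [norm_nonneg v, H.b_le])
    (fun k v => by
      have b1 : Q (p k) (i k) v = Q (p k) (i k) (B' (F (p k)) (i (k + 1)) (i k)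
          (Q (F (p k)) (i (k + 1)) (B (p k) (i k) (i (k + 1)) v))) := by
        rw [H.comm _ _ _ _ (a1 k) (a2 k), H.inv _ _ _ _ (a1 k) (a2 k), H.idem _ _ _ (a1 k)]
      have b2 := (a3 k _).trans (mul_le_mul_of_nonneg_left (H.norm_le v (a1 k) (a2 k)) k0.le)
      rw [← mul_assoc, k1] at b2
      rw [b1, ContinuousLinearMap.comp_apply, ← map_sub, ← map_sub]
      refine (a4 k _).trans ((mul_le_mul_of_nonneg_left b2 (by positivity)).trans ?_)
      nlinarith [norm_nonneg v])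
    (fun k v hv => by
      rw [ContinuousLinearMap.comp_apply, H.comm' _ (a1 k) (a2 k)] at hv
      have b1 := congrArg (B (p k) (i k) (i (k + 1))) hv
      rw [H.inv' _ _ _ _ (a1 k) (a2 k), map_zero] at b1
      have b2 := a3 k (Q (p (k + 1)) (i (k + 1)) v)
      rw [b1, H.idem _ _ _ (a1 _), zero_sub, norm_neg] at b2
      exact norm_le_zero_iff.1 (by nlinarith [norm_nonneg (Q (p (k + 1)) (i (k + 1)) v)]))
    (fun k v => H.bd' _ _ _ (a1 k)) (by linarith) (fun k v w hv hw => by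
      obtain ⟨b1, b2⟩ := a5 k v hv
      obtain ⟨b3, b4⟩ := a5 k w hw
      have := e2 _ _ _ _ _ (a1 k) (a2 k) (b2.trans t1) (b4.trans t1)
      rw [b1, b3, add_sub_add_left_eq_sub] at this
      rwa [sub_sub_sub_cancel_right])
    (le_of_eq (by field_simp)) (fun k => by
      have b1 := S.up _ _ _ (a2 k) (a1 (k + 1))
      have b2 := p3 k
      rw [le_div_iff₀ (by positivity)] at b2
      simp only [add_zero, S.left_inv (a1 k)]
      nlinarith [mul_le_mul_of_nonneg_left b1 (show 0 ≤ C₀ + 1 by linarith)])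
  set y : ℤ → M := fun k => ψ (i k) (φ (i k) (p k) + v k) with hy
  have c1 : ∀ k, y (k + 1) = F (y k) := fun k => by
    obtain ⟨b1, b2⟩ := a5 k _ (v1 k)
    obtain ⟨b3, b4⟩ := a5 (k + 1) _ (v1 (k + 1))
    have := S.lo _ (y (k + 1)) (F (y k)) (hi _ _ (b4.trans t4)) (hi (k + 1) _ (by
      linarith [dist_triangle (F (y k)) (F (p k)) (p (k + 1)), e4 (b2.trans t2), p2 k]))
    rw [b3, v2, add_sub_cancel, sub_self, norm_zero, mul_zero] at this
    exact dist_le_zero.1 this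
  refine ⟨y 0, fun k => ?_⟩
  have c2 : (F ^ k) (y 0) = y k := by
    induction k using Int.induction_on with
    | zero => simp
    | succ k ih => rw [c1, ← ih, add_comm, zpow_one_add, Equiv.Perm.mul_apply]
    | pred k ih =>
      have := c1 (-k - 1)
      rw [sub_add_cancel, ← ih] at this
      rw [sub_eq_neg_add, zpow_add, Equiv.Perm.mul_apply, zpow_neg_one, this, ← sub_eq_neg_add]
      simp
  rw [c2]
  exact (a5 k _ (v1 k)).2.trans t3

theorem hyp [CompleteSpace E] (S : CS A φ ψ r C) :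
    Hyp F (2 * a) (2 * b) (3 * C ^ 2 * C₀ * Λ) (3 * C ^ 2 * C₀ * Λ') := by
  have h1 : 1 ≤ 3 * C ^ 2 * C₀ := by nlinarith [one_le_pow₀ (n := 2) S.one_le, H.one_le_C]
  obtain ⟨s1, s2, s3, s4⟩ := H.small
  refine ⟨one_le_mul_of_one_le_of_one_le h1 H.one_le, one_le_mul_of_one_le_of_one_le h1 H.one_le',
    fun ε₁ hε₁ => ?_, ?_⟩
  · obtain ⟨ε₂, e1, C₂, e2, e3⟩ := H.conv S
    obtain ⟨ε₃, e4, C₃, e5, e6⟩ := H.symm.conv S
    obtain ⟨ε, t0, t1, t2, t3⟩ : ∃ ε, 0 < ε ∧ ε ≤ ε₁ ∧ 4 * ε ≤ ε₂ ∧ 4 * ε ≤ ε₃ :=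
      ⟨min ε₁ (min ε₂ ε₃ / 4), by positivity, min_le_left _ _,
        by linarith [min_le_right ε₁ (min ε₂ ε₃ / 4), min_le_left ε₂ ε₃],
        by linarith [min_le_right ε₁ (min ε₂ ε₃ / 4), min_le_right ε₂ ε₃]⟩
    obtain ⟨η, e7, e8⟩ := H.shadow S (half_pos t0)
    have ha := H.a_pos
    have hb := H.b_pos
    have d1 := min_le_left (η / 2) (ε / 4)
    have d2 := min_le_right (η / 2) (ε / 4)
    refine ⟨ε, min (η / 2) (ε / 4), C₂ + C₃, t1, by positivity, by linarith, by positivity,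
      by positivity, by linarith, by positivity, by linarith, fun x y h => ?_,
      fun x y h k => ?_, fun x y h k => ?_⟩
    · obtain ⟨z, hz⟩ := e8 (fun k => if 0 ≤ k then (F ^ k) x else (F ^ k) y) fun k => by
        have : ∀ w, (F ^ (k + 1)) w = F ((F ^ k) w) := fun w => by
          rw [add_comm, zpow_one_add, Equiv.Perm.mul_apply]
        split_ifs with c1 c2 c2
        · simpa [this] using e7.le
        · omega
        · obtain rfl : k = -1 := by omega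
          simp only [zpow_neg_one, neg_add_cancel, zpow_zero, Equiv.Perm.one_apply,
            Equiv.Perm.inv_def, Equiv.apply_symm_apply]
          rw [dist_comm]
          linarith
        · simpa [this] using e7.le
      refine ⟨z, fun k hk => ?_, fun k hk => ?_⟩
      · have := hz k
        rw [if_pos hk] at this
        linarith
      · have := hz k
        split_ifs at this with c
        · obtain rfl : k = 0 := by omega
          simp only [zpow_zero, Equiv.Perm.one_apply] at this ⊢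
          linarith [dist_triangle z x y]
        · linarith
    · have : ∀ w (k : ℕ), (F ^ ((k + 1 : ℕ) : ℤ)) w = F ((F ^ (k : ℤ)) w) := fun w k => by
        rw [Nat.cast_succ, add_comm, zpow_one_add, Equiv.Perm.mul_apply]
      exact (e3 _ _ (this x) (this y) (fun k => (h k (by omega)).trans t2) k).trans
        (by gcongr; linarith)
    · have : ∀ w (k : ℕ), (F ^ (-((k + 1 : ℕ) : ℤ))) w = F⁻¹ ((F ^ (-(k : ℤ))) w) := fun w k => by
        rw [Nat.cast_succ, neg_add_rev, zpow_add, zpow_neg_one, Equiv.Perm.mul_apply]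
      exact (e6 _ _ (this x) (this y) (fun k => (h (-k) (by omega)).trans t3) k).trans
        (by gcongr; linarith)
  · obtain ⟨ρ, e1, e2⟩ := H.lip S
    obtain ⟨ρ', e3, e4⟩ := H.symm.lip S
    exact ⟨min ρ ρ', by positivity, fun x y h => e2 x y (h.trans (min_le_left _ _)),
      fun x y h => e4 x y (h.trans (min_le_right _ _))⟩

end Hy

end Pool.Agent.P.MP_5c499f_an
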