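import Pool.Agent.P.MP_5c499f_an.TTor

/-! The dichotomy when the primitives are equivariant only up to bounded functions. -/

set_option autoImplicit false

namespace Pool.Agent.P.MP_5c499f_an.TTor

open Filter Topology Metric MeasureTheory Matrix

variable {M : Type*} [MetricSpace M] [CompactSpace M] {N u : ℕ} {e : M → VV N} {r : VV N → M}
  {U : Set (VV N)} {g : Equiv.Perm M} {Pr : M → VV N →L[ℝ] XX u} {Io : M → XX u →L[ℝ] VV N}
  {C₀ a : ℝ} {Y Γ : Type*} [MetricSpace Y] [Group Γ] [MulAction Γ Y] {F : Equiv.Perm Y}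
  {Φ : MulAut Γ} {ε δ C a' b' : ℝ} {p : Y → M}

/-- Ambient version of generation by angle forms and bounded controlled functions. -/
def CupAmbB {M : Type*} {N : ℕ} (e : M → VV N) (r : VV N → M) (U : Set (VV N)) {Y : Type*}
    [TopologicalSpace Y] (p : Y → M) (u : ℕ) : Prop :=
  ∀ w : (Fin u → Fin N) → VV N → ℝ, (∀ I, ContDiff ℝ (⊤ : ℕ∞) (w I)) → ClosedW e w →
    ∃ (m : ℕ) (c : Fin m → ℝ) (θ : Fin m → Fin u → M → ℂ) (β : Fin m → Fin u → Y → ℝ),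
      (∀ t i, ContDiffOn ℝ 1 (θ t i ∘ r) U ∧ ∀ x, θ t i x ≠ 0) ∧
      (∀ t i, Ctl (e ∘ p) u (β t i) ∧ ∃ K, ∀ y, |β t i y| ≤ K) ∧
      ∀ (τ : XX u → Y) (B : Set (XX u)), IsOpen B → ContinuousOn τ B →
        ContDiffOn ℝ 1 ((e ∘ p) ∘ τ) B → ∀ b ∈ B,
          PsiW e w (p (τ b)) (fderiv ℝ ((e ∘ p) ∘ τ) b) = ∑ t, c t * (Matrix.of fun i j =>
            (Dm e r (θ t i) (p (τ b)) (fderiv ℝ ((e ∘ p) ∘ τ) b (bas u j)) / θ t i (p (τ b))).im +
              fderiv ℝ (β t i ∘ τ) b (bas u j)).det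

theorem not_thin_b (A : Amb e r U g Pr Io C₀ a) (S : Hs F Φ ε δ C a' b') {ρ₀ : ℝ} (hc : IsCov p ρ₀)
    (hF : ∀ y, p (F y) = g (p y)) {H s C₁ : ℝ} (D : DV e r U g Pr Io C₀ a H s C₁) (o : Y) {η : ℝ}
    (e1 : 2 * η < ρ₀) (e2 : η ≤ δ) (e3 : ∀ y, ‖y - e (p o)‖ ≤ (1 + C₀) * s → dist (r y) (p o) ≤ η)
    {d : ℕ} {J G : Y → Fin d → ℝ} {A' : Γ → Fin d → ℝ} {L : ℤ → Matrix (Fin d) (Fin d) ℝ}
    {ρ : Fin d → ℝ} (ab : Ab Φ J A' L ρ) (gg : GG F ε J A' L ρ G)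
    (hJ : ∀ k, Ctl (e ∘ p) u fun y => J y k) {Ψ : M → (XX u →L[ℝ] VV N) → ℝ} (hΨ : Pos Pr Io Ψ)
    {m : ℕ} {c : Fin m → ℝ} {h : Fin m → Fin u → Y → ℝ} (h1 : ∀ t i, Ctl (e ∘ p) u (h t i))
    {l : Fin m → Fin u → Fin d → ℝ} (h2 : ∀ t i, ∃ R, ∀ y, ‖h t i y - l t i ⬝ᵥ J y‖ ≤ R)
    (h3 : ∀ (τ : XX u → Y) (B : Set (XX u)), IsOpen B → ContinuousOn τ B →
      ContDiffOn ℝ 1 ((e ∘ p) ∘ τ) B → ∀ b ∈ B, Ψ (p (τ b)) (fderiv ℝ ((e ∘ p) ∘ τ) b) =
        ∑ t, c t * dt (fun i => fderiv ℝ (h t i ∘ τ) b) (bas u)) : ¬ ThinY F ε H G := by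
  rintro ⟨q, C₂, l₀, q0, q1, l0, th⟩
  have s0 := D.s_pos
  have c0 := A.one_le
  have a1 : a < 1 := by nlinarith [A.a_le, A.a_pos, one_le_pow₀ (n := 2) c0]
  set x := p o with hx
  have n1 : ∀ b ∈ ball (0 : XX u) s, ‖e x + Io x b - e x‖ ≤ (1 + C₀) * s := fun b hb => by
    rw [add_sub_cancel_left]
    nlinarith [A.n_io x b, mem_ball_zero_iff.1 hb, norm_nonneg b]
  have n2 : ∀ b ∈ ball (0 : XX u) s, e x + Io x b ∈ U := fun b hb => D.tan.sub x _ (n1 b hb)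
  have n3 : ContDiff ℝ 1 fun b => e x + Io x b := contDiff_const.add (Io x).contDiff
  obtain ⟨τ, t1, t2⟩ := hc.lift_disc (σ := fun b => r (e x + Io x b))
    (A.cont_r.comp n3.continuous.continuousOn n2) o e1 fun b hb => e3 _ (n1 b hb)
  set τn : ℕ → XX u → Y := fun n b => (F ^ (n : ℤ)) (τ b) with hτ
  have t3 : ∀ n, ContinuousOn (τn n) (ball 0 s) := fun n =>
    (uc_zpow S.uc S.uc' n).continuous.comp_continuousOn t1
  have t4 : ∀ n, ∀ b ∈ ball (0 : XX u) s, p (τn n b) = g^[n] (r (e x + Io x b)) := fun n b hb => by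
    simp only [hτ]
    rw [semiconj_zpow hF, (t2 b hb).1, zpow_natCast, Equiv.Perm.coe_pow]
  have t5 : ∀ n, ContDiffOn ℝ 1 ((e ∘ p) ∘ τn n) (ball 0 s) := fun n =>
    ((A.c1_iter A.c1 n).comp n3.contDiffOn n2).congr fun b hb => congrArg e (t4 n b hb)
  have t6 : ∀ n, ∀ b ∈ ball (0 : XX u) s, fderiv ℝ ((e ∘ p) ∘ τn n) b =
      Dn e r g n (e x + Io x b) ∘L Io x := fun n b hb => by
    refine ((A.hasFDerivAt_disc x (e x) n (n2 b hb)).congr_of_eventuallyEq ?_).fderiv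
    filter_upwards [isOpen_ball.mem_nhds hb] with b hb using congrArg e (t4 n b hb)
  set Nn : ℕ → XX u → XX u → ℝ := fun n b v => ‖Dn e r g n (e x + Io x b) (Io x v)‖ with hN
  have ctl' : ∀ {φ : Y → ℝ}, Ctl (e ∘ p) u φ → ∃ K, ∀ n, ContDiffOn ℝ 1 (φ ∘ τn n) (ball 0 s) ∧
      ∀ b ∈ ball (0 : XX u) s, ∀ v, |fderiv ℝ (φ ∘ τn n) b v| ≤ K * Nn n b v := fun hφ => by
    obtain ⟨K, hK⟩ := hφ.2
    refine ⟨K, fun n => ⟨(hK _ _ isOpen_ball (t3 n) (t5 n)).1, fun b hb v => ?_⟩⟩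
    have := (hK _ _ isOpen_ball (t3 n) (t5 n)).2 b hb v
    rwa [t6 n b hb] at this
  choose K₁ k1 using fun k => ctl' (hJ k)
  choose K₂ k2 using fun k => ctl' ((hJ k).comp A A.cg S.uc.continuous hF)
  obtain ⟨K₃, k3⟩ := gg.bd
  obtain ⟨K₄, k4⟩ := Finite.exists_le K₁
  obtain ⟨K₅, k5⟩ := Finite.exists_le K₂
  let χ : ContDiffBump (0 : XX u) := ⟨s / 4, s / 2, by linarith, by linarith⟩
  have sub : closedBall (0 : XX u) (s / 2) ⊆ ball 0 s := closedBall_subset_ball (by linarith)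
  have cut : Cut (ball 0 s) (closedBall 0 (s / 2)) χ := ⟨isOpen_ball, isCompact_closedBall _ _, sub,
    χ.contDiff, fun b hb => χ.zero_of_le_dist (not_lt.1 fun h => hb (mem_closedBall.2 h.le))⟩
  have f0 : (0 : ℝ) < u.factorial := by exact_mod_cast u.factorial_pos
  have c1 := D.C_pos
  have H0 := D.H_pos
  obtain ⟨C₃, d0, d1, d2, d3, d4⟩ : ∃ C₃, u.factorial * C₁ ≤ C₃ ∧ C₁ ≤ C₃ ∧ K₃ ≤ C₃ ∧ K₄ ≤ C₃ ∧
      K₅ ≤ C₃ := ⟨max (max (u.factorial * C₁) C₁) (max K₃ (max K₄ K₅)), by simp, by simp, by simp,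
        by simp, by simp⟩
  have st : ∀ n b, τn (n + 1) b = F (τn n b) := fun n b => by
    simp only [hτ]; push_cast; exact zpow_succ_apply _ _ _
  have dd : DD (ball 0 s) (closedBall 0 (s / 2)) χ Nn L ρ (fun n b => J (τn n b))
      (fun b => G (τ b)) H a C₃ := by
    refine ⟨cut, ab.wt, H0, A.a_pos, a1, by linarith, fun n ξ hξ => ?_, fun n b hb v => ?_,
      fun n k => (k1 k n).1, fun n k b hb v => ?_, fun n k b hb v => ?_, fun n b _ => ?_,
      fun k hk => ?_⟩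
    · exact (D.up.volLe x s0.le n measurableSet_closedBall (closedBall_subset_closedBall
        (by linarith)) ξ hξ).trans (ENNReal.ofReal_le_ofReal (by gcongr))
    · refine (D.tan.expd x _ n v (n1 b (sub hb))).trans ?_
      have := A.a_pos
      simp only [hN]
      gcongr
    · exact ((k1 k n).2 b (sub hb) v).trans (mul_le_mul_of_nonneg_right ((k4 k).trans d3)
        (norm_nonneg _))
    · simp only [st]
      exact ((k2 k n).2 b (sub hb) v).trans (mul_le_mul_of_nonneg_right ((k5 k).trans d4)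
        (norm_nonneg _))
    · rw [st]; exact (k3 _).trans d2
    · exact ((gg.lim k hk).comp τ).tendstoUniformlyOn
  have thin : Thin (closedBall 0 (s / 2)) L (fun b => G (τ b)) H := by
    classical
    obtain ⟨R, hR⟩ := gg.osc
    refine ⟨q, max C₂ R, l₀, q0, q1, l0, fun t => ?_⟩
    obtain ⟨E, E1, E2⟩ := th o t
    refine ⟨E.image G, (Nat.cast_le.2 Finset.card_image_le).trans (E1.trans
      (mul_le_mul_of_nonneg_right (le_max_left _ _) (by positivity))), fun b hb => ?_⟩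
    obtain ⟨z, z1, z2⟩ := S.lh.br (τ b) o (by linarith [(t2 b (sub hb)).2, S.lh.δ_pos])
    obtain ⟨y', z', y1, y2, y3⟩ := E2 z z2
    refine ⟨G z', Finset.mem_image_of_mem _ y1, _, (hR _ _ y3).trans (le_max_right _ _), ?_⟩
    rw [gg.step, gg.step, ← Matrix.mulVec_sub, Matrix.mulVec_mulVec, ← ab.wt.add, neg_add_cancel,
      ab.wt.zero, Matrix.one_mulVec, y2, add_sub_cancel]
    exact (gg.st _ _ (S.lh.asym_of_st (z1.mono le_rfl (by linarith [S.lh.ε_pos])))).symm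
  obtain ⟨q', p0, p1, fam⟩ := dd.family thin
  obtain ⟨c₁, p2, p3⟩ := D.tan.dom c1 A.a_pos a1 hΨ
  obtain ⟨c₂, p4, p5⟩ := D.low (s / 4) (by linarith) (by linarith)
  choose K₆ k6 using fun t i => ctl' (h1 t i)
  refine no_small (H := H) (c := c) (h := fun t i n => h t i ∘ τn n) cut
    (convex_closedBall _ _).isPreconnected (fun b => χ.nonneg) measurableSet_closedBall
    (closedBall_subset_closedBall (show s / 4 ≤ s / 2 by linarith))
    (fun b hb => χ.one_of_mem_closedBall hb) (fun t i n => (k6 t i n).1)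
    (P := fun n b => Ψ (g^[n] (r (e x + Io x b))) (Dn e r g n (e x + Io x b) ∘L Io x))
    (fun n b hb => ?_) (p3.mono fun n hn b hb => (hn x _ (n1 b (sub hb))).1) (c₀ := c₂ / c₁)
    (by positivity) H0 p0 p1 (p3.mono fun n hn => ?_) fun t => ?_
  · rw [← t4 n b (sub hb), ← t6 n b (sub hb)]
    exact h3 _ _ isOpen_ball (t3 n) (t5 n) b (sub hb)
  · have := p5 x (e x) n _ (by simpa using s0.le) fun b hb =>
      (hn x _ (n1 b (closedBall_subset_ball (by linarith) hb))).2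
    simp only [ENNReal.ofReal_mul p2.le] at this
    rw [lintegral_const_mul' _ _ ENNReal.ofReal_ne_top] at this
    rw [div_mul_eq_mul_div, ENNReal.ofReal_div_of_pos p2]
    exact ENNReal.div_le_of_le_mul' this
  · choose R hR using h2 t
    obtain ⟨R₁, r1⟩ := Finite.exists_le R
    obtain ⟨R₂, r2⟩ := Finite.exists_le (K₆ t)
    exact fam (fun i n => h t i ∘ τn n) (l t) (max R₁ R₂) (fun i n => (k6 t i n).1)
      (fun i n b hb v => ((k6 t i n).2 b (sub hb) v).trans (mul_le_mul_of_nonneg_right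
        ((r2 i).trans (le_max_right _ _)) (norm_nonneg _)))
      fun i n b _ => (hR i _).trans ((r1 i).trans (le_max_left _ _))

theorem top_b [SimplyConnectedSpace Y] [LocallyPathConnectedSpace Y] (A : Amb e r U g Pr Io C₀ a)
    {ρ₀ : ℝ} (hc : IsCov p ρ₀) (iso : ∀ (γ : Γ) (y y' : Y), dist (γ • y) (γ • y') = dist y y')
    (hp : ∀ (γ : Γ) y, p (γ • y) = p y) (free : ∀ (γ : Γ) (y : Y), γ • y = y → γ = 1)
    (htr : ∀ y y' : Y, p y = p y' → ∃ γ : Γ, γ • y = y') (surj : Function.Surjective p)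
    (hF : ∀ y, p (F y) = g (p y)) (uc : UniformContinuous F)
    (uc' : UniformContinuous (F⁻¹ : Equiv.Perm Y)) (eqv : ∀ (γ : Γ) y, F (γ • y) = Φ γ • F y)
    {Λ Λ' : ℝ} (hy : Hyp g a' b' Λ Λ') (mix : MixM g) {T : Set Γ} (hT : T.Finite)
    (hgen : Subgroup.closure T = ⊤) {m : ℕ} {c : Fin m → M → ℝ} {f : Fin m → Fin u → M → ℝ}
    (h1 : ∀ t, ContDiffOn ℝ 1 (c t ∘ r) U) (h2 : ∀ t i, ContDiffOn ℝ 1 (f t i ∘ r) U)
    (nz : ∀ x, PsiF e r c f x (Io x) ≠ 0) (cup : CupAmbB e r U p u) :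
    (∀ x y, ∃! w, Asym F w x ∧ Asym (F⁻¹ : Equiv.Perm Y) w y) ∧ ∃ (d : ℕ) (A : Γ → Fin d → ℝ),
      (∀ γ γ', A (γ * γ') = A γ + A γ') ∧ ∀ γ, A γ = 0 → γ = 1 := by
  obtain ⟨o⟩ : Nonempty Y := inferInstance
  have : Nonempty Y := ⟨o⟩
  have r0 := hc.pos
  have c0 := A.one_le
  obtain ⟨ε₀, a1, a2⟩ := A.exists_dv
  obtain ⟨ρ₁, a3, a4⟩ := uniformContinuous_iff_le.1 uc _ (half_pos r0)
  obtain ⟨ρ₂, a5, a6⟩ := uniformContinuous_iff_le.1 uc' _ (half_pos r0)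
  obtain ⟨ε, δ, C, a7, lh⟩ := hy.lh (min (min (ε₀ / 2) (ρ₀ / 11)) (min ρ₁ ρ₂)) (by positivity)
  simp only [le_min_iff] at a7
  obtain ⟨⟨b1, b2⟩, b3, b4⟩ := a7
  obtain ⟨K, -, k1, k2, -⟩ := exists_cpt (hc.quot iso hp free htr surj)
  have S : Hs F Φ ε δ C a' b' := ⟨hc.lh (ρ₁ := ε) hF
    (fun _ _ h => (a4 (h.trans b3)).trans_lt (half_lt_self r0))
    (fun _ _ h => (a6 (h.trans b4)).trans_lt (half_lt_self r0)) lh le_rfl (by linarith), uc, uc',
    iso, eqv, fun γ y h => free γ y (hc.eq (by linarith) (hp γ y)), ⟨K, k1, k2⟩,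
    mix_lift hc hF uc' htr mix⟩
  obtain ⟨H, cnt⟩ := S.exists_cnt
  obtain ⟨s₁, s0, s1⟩ := A.near lh.δ_pos
  obtain ⟨s, C₁, s2, D⟩ := a2 H _ _ (by linarith) (ent_of_cnt S hc (by linarith) surj hF cnt)
    (s₁ / (1 + C₀)) (by positivity)
  rw [le_div_iff₀' (by positivity)] at s2
  obtain ⟨w, w1, w2, w3⟩ := exists_omega A D h1 h2 nz
  obtain ⟨m', c', θ, β, t1, t3, t2⟩ := cup w w1 w2
  choose h α g1 g2 g3 using fun t i => exists_arg A hc.continuous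
    (fun γ : Γ => (Isometry.of_dist_eq (iso γ)).continuous) hp (t1 t i).1 (t1 t i).2
  have hF' : ∀ y, p (F⁻¹ y) = g⁻¹ (p y) := fun y => by simpa using semiconj_zpow hF (-1) y
  obtain ⟨d, J, A', L, ρ, ab, j1, j2⟩ := exists_ab eqv hT hgen (ctl (e ∘ p) u) (fun _ h => h.1)
    (fun _ h => Ctl.comp A A.cg uc.continuous hF h)
    (fun _ h => Ctl.comp A A.cg' uc'.continuous hF' h) (ι := Fin m' × Fin u)
    (h := fun i => h i.1 i.2) (α := fun i => α i.1 i.2) (fun i => g1 i.1 i.2) fun i => g2 i.1 i.2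
  obtain ⟨G, gg⟩ := S.exists_gg ab
  have add : ∀ γ γ', A' (γ * γ') = A' γ + A' γ' := fun γ γ' => by
    have := ab.eqv (γ * γ') o
    rw [mul_smul, ab.eqv, ab.eqv, add_assoc, add_right_inj, add_comm] at this
    exact this.symm
  by_cases once : Once F A'
  · obtain ⟨e1, e2⟩ := S.gps gg once (by simpa using add 1 1) (S.ulight ab gg once)
    exact ⟨e1, d, A', add, e2⟩
  choose l hl using j2
  refine absurd (S.thin cnt (fun n y y' h => by rw [gg.step, gg.step, h]) (S.dup gg once))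
    (not_thin_b A S hc hF D o (η := δ) (by linarith [lh.δ_le]) le_rfl
      (fun y hy => (s1 _ y (hy.trans s2)).2) ab gg j1
      (pos_of_ne A (uf_psiW A fun I => (w1 I).continuous) w3)
      (c := c') (h := fun t i => (2 * Real.pi) • h t i + β t i)
      (fun t i => ((g1 t i).smul _).add (t3 t i).1) (l := fun t i => (2 * Real.pi) • l (t, i))
      (fun t i => ?_) fun τ B b1 b2 b3 b hb => ?_)
  · obtain ⟨R, hR⟩ := S.bdd (φ := fun y => h t i y - l (t, i) ⬝ᵥ J y)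
      ((g1 t i).1.sub (continuous_const.dotProduct ab.cont)) fun γ y => by
        simp only [g2, hl (t, i), ab.eqv, dotProduct_add]; ring
    obtain ⟨R', hR'⟩ := (t3 t i).2
    refine ⟨2 * Real.pi * R + R', fun y => ?_⟩
    have e0 : ((2 * Real.pi) • h t i + β t i) y - ((2 * Real.pi) • l (t, i)) ⬝ᵥ J y =
        2 * Real.pi * (h t i y - l (t, i) ⬝ᵥ J y) + β t i y := by
      simp only [Pi.add_apply, Pi.smul_apply, smul_dotProduct, smul_eq_mul]; ring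
    rw [e0]
    refine (norm_add_le _ _).trans (add_le_add ?_ (hR' y))
    rw [norm_mul, Real.norm_of_nonneg (by positivity)]
    exact mul_le_mul_of_nonneg_left (hR y) (by positivity)
  rw [t2 τ B b1 b2 b3 b hb]
  refine Finset.sum_congr rfl fun t _ => congrArg _ (congrArg Matrix.det ?_)
  ext i j
  obtain ⟨_, d1⟩ := (g1 t i).2
  obtain ⟨_, d2⟩ := (t3 t i).1.2
  have d3 := XCtlX.diffAt b1 (d1 τ B b1 b2 b3).1 hb
  have d4 := XCtlX.diffAt b1 (d2 τ B b1 b2 b3).1 hb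
  have e0 : ((2 * Real.pi) • h t i + β t i) ∘ τ = (2 * Real.pi) • (h t i ∘ τ) + β t i ∘ τ := rfl
  simp only [Matrix.of_apply]
  rw [e0, fderiv_add (d3.const_smul _) d4, fderiv_const_smul d3, ← g3 t i τ B b1 b2 b3 b hb]
  rfl

end Pool.Agent.P.MP_5c499f_an.TTor
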