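import Pool.Agent.P.MP_5c499f_an.XDefs

/-! Exact forms are combinations of products of angle forms; the contracted vectors of the inverse
form the unstable bundle; the identity is not Anosov. -/

set_option autoImplicit false

namespace Pool.Agent.P.MP_5c499f_an.TEx

open Bundle Filter Topology
open scoped Manifold ContDiff

variable {E : Type*} [NormedAddCommGroup E] [NormedSpace ℝ E]
  {M : Type*} [TopologicalSpace M] [ChartedSpace E M]

theorem exp_sm : ContDiff ℝ ∞ fun s : ℝ => Complex.exp (s * Complex.I) :=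
  (Complex.ofRealCLM.contDiff.mul contDiff_const).cexp

theorem ang_exp {a : M → ℝ} (ha : ContMDiff 𝓘(ℝ, E) 𝓘(ℝ, ℝ) ∞ a) (x : M)
    (v : TangentSpace 𝓘(ℝ, E) x) :
    ang E (fun y => Complex.exp (a y * Complex.I)) x v = mvfderiv 𝓘(ℝ, E) a x v := by
  have h1 : HasFDerivAt (fun s : ℝ => ((s : ℝ) : ℂ) * Complex.I) _ (a x) :=
    Complex.ofRealCLM.hasFDerivAt.mul_const Complex.I
  have h2 := h1.cexp
  have h3 := h2.hasMFDerivAt.comp x ((ha x).mdifferentiableAt (by simp)).hasMFDerivAt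
  have h4 : mvfderiv 𝓘(ℝ, E) (fun y => Complex.exp (a y * Complex.I)) x v =
      Complex.exp (a x * Complex.I) * (Complex.I * (mvfderiv 𝓘(ℝ, E) a x v : ℝ)) :=
    congrArg (fun L => L v) h3.mfderiv
  unfold ang
  rw [h4, mul_div_cancel_left₀ _ (Complex.exp_ne_zero _)]
  simp

theorem exact_gen {k : ℕ} (β : Form M k) (hβ : β.Smooth E) :
    ∃ (m : ℕ) (c : Fin m → ℝ) (θ : Fin m → Fin (k + 1) → M → ℂ),
      (∀ t i, ContMDiff 𝓘(ℝ, E) 𝓘(ℝ, ℂ) ∞ (θ t i) ∧ ∀ x, θ t i x ≠ 0) ∧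
      ∀ x v, β.d.ev E x v = ∑ t, c t * (Matrix.of fun i j => ang E (θ t i) x (v j)).det := by
  have hs : ∀ t i, ContMDiff 𝓘(ℝ, E) 𝓘(ℝ, ℝ) ∞ (β.d.a t i) := fun t i =>
    Fin.cases (hβ t).1 (hβ t).2 i
  refine ⟨β.d.n, fun _ => 1, fun t i y => Complex.exp (β.d.a t i y * Complex.I),
    fun t i => ⟨exp_sm.contMDiff.comp (hs t i), fun _ => Complex.exp_ne_zero _⟩, fun x v => ?_⟩
  simp only [ang_exp (hs _ _)]
  rfl

theorem exact_closed {k : ℕ} (β : Form M k) (x : M) (v : Fin (k + 2) → TangentSpace 𝓘(ℝ, E) x) :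
    β.d.d.ev E x v = 0 := by
  refine Finset.sum_eq_zero fun t _ => mul_eq_zero_of_right _ ?_
  refine Matrix.det_eq_zero_of_row_eq_zero 0 fun j => ?_
  show mvfderiv 𝓘(ℝ, E) (fun _ : M => (1 : ℝ)) x (v j) = 0
  rw [mvfderiv_const]; rfl

variable [IsManifold 𝓘(ℝ, E) ∞ M] [RiemannianBundle fun x : M => TangentSpace 𝓘(ℝ, E) x]

theorem anosov_id (h : IsAnosov E fun x : M => x) (x : M) (v : TangentSpace 𝓘(ℝ, E) x) :
    v = 0 := by
  obtain ⟨P, C, lam, hC, h0, h1, -, hP, -, h⟩ := h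
  obtain ⟨n, hn⟩ := exists_pow_lt_of_lt_one (inv_pos.2 hC) h1
  have hlt : C * lam ^ n < 1 := by rw [← mul_inv_cancel₀ hC.ne']; gcongr
  have e : ∀ (g : M → M) (w : TangentSpace 𝓘(ℝ, E) x), g = id →
      ‖mfderiv 𝓘(ℝ, E) 𝓘(ℝ, E) g x w‖ = ‖w‖ := by
    rintro _ w rfl
    rw [mfderiv_id]; rfl
  have key : ∀ w : TangentSpace 𝓘(ℝ, E) x, ‖w‖ ≤ C * lam ^ n * ‖w‖ → w = 0 := by
    intro w hw; by_contra hne
    have := norm_pos_iff.2 hne; nlinarith
  have hu : P x v = 0 := by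
    have := (h x n (P x v)).2 (hP x v)
    rw [e (fun x : M => x)^[n] _ (Function.iterate_id n)] at this
    exact key _ this
  have := (h x n v).1 hu
  rw [e (fun x : M => x)^[n] _ (Function.iterate_id n)] at this
  exact key _ this

omit [IsManifold 𝓘(ℝ, E) ∞ M] in
theorem decays_unstable (f : Diffeomorph 𝓘(ℝ, E) 𝓘(ℝ, E) M M 1)
    {P : ∀ x : M, TangentSpace 𝓘(ℝ, E) x →L[ℝ] TangentSpace 𝓘(ℝ, E) x} {C lam : ℝ}
    (h0 : 0 < lam) (h1 : lam < 1) (p1 : ∀ x v, P x (P x v) = P x v)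
    (p2 : ∀ x v, mfderiv 𝓘(ℝ, E) 𝓘(ℝ, E) f x (P x v) = P (f x) (mfderiv 𝓘(ℝ, E) 𝓘(ℝ, E) f x v))
    (p3 : ∀ (x : M) (n : ℕ) (v : TangentSpace 𝓘(ℝ, E) x),
      (P x v = 0 → ‖mfderiv 𝓘(ℝ, E) 𝓘(ℝ, E) f^[n] x v‖ ≤ C * lam ^ n * ‖v‖) ∧
      (P x v = v → ‖v‖ ≤ C * lam ^ n * ‖mfderiv 𝓘(ℝ, E) 𝓘(ℝ, E) f^[n] x v‖))
    (x : M) (w : TangentSpace 𝓘(ℝ, E) x) : Decays E f.symm x w ↔ P x w = w := by
  have d1 := fun n => (f.contMDiff.iterate n).mdifferentiable one_ne_zero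
  have d2 := fun n => (f.symm.contMDiff.iterate n).mdifferentiable one_ne_zero
  have c3 : ∀ n x v, mfderiv 𝓘(ℝ, E) 𝓘(ℝ, E) f^[n] x (P x v) =
      P (f^[n] x) (mfderiv 𝓘(ℝ, E) 𝓘(ℝ, E) f^[n] x v) := fun n => by
    induction n with
    | zero => intro x v; simp only [Function.iterate_zero, mfderiv_id]; rfl
    | succ n ih =>
      intro x v
      have d3 := f.contMDiff.mdifferentiable one_ne_zero
      rw [Function.iterate_succ, mfderiv_comp_apply x (d1 n _) (d3 _),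
        mfderiv_comp_apply x (d1 n _) (d3 _), p2, ih]
      rfl
  have e2 : ∀ (g : M → M) (y : M) (v : TangentSpace 𝓘(ℝ, E) y), g = id →
      (mfderiv 𝓘(ℝ, E) 𝓘(ℝ, E) g y v : E) = v := by
    rintro _ y v rfl
    rw [mfderiv_id]; rfl
  have inj : ∀ n y, Function.Injective (mfderiv 𝓘(ℝ, E) 𝓘(ℝ, E) f^[n] y) := by
    intro n y v v' hv
    have a1 := mfderiv_comp_apply y (d2 n _) (d1 n _) v
    have a2 := mfderiv_comp_apply y (d2 n _) (d1 n _) v'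
    rw [hv, ← a2] at a1
    have a3 := e2 _ y v (funext (Function.LeftInverse.iterate f.symm_apply_apply n))
    have a4 := e2 _ y v' (funext (Function.LeftInverse.iterate f.symm_apply_apply n))
    exact a3.symm.trans (a1.trans a4)
  have hx : ∀ n, f^[n] (f.symm^[n] x) = x := fun n =>
    Function.LeftInverse.iterate f.apply_symm_apply n x
  have inv : ∀ n (v : TangentSpace 𝓘(ℝ, E) x), (mfderiv 𝓘(ℝ, E) 𝓘(ℝ, E) f^[n] (f.symm^[n] x)
      (mfderiv 𝓘(ℝ, E) 𝓘(ℝ, E) f.symm^[n] x v) : E) = v := fun n v =>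
    (mfderiv_comp_apply x (d1 n _) (d2 n _) v).symm.trans
      (e2 _ x v (funext (Function.LeftInverse.iterate f.apply_symm_apply n)))
  have tn : ∀ (y : M) (a : TangentSpace 𝓘(ℝ, E) y) (b : TangentSpace 𝓘(ℝ, E) x), y = x →
      (a : E) = b → ‖a‖ = ‖b‖ ∧ (P y a : E) = P x b := by
    rintro _ a b rfl hab
    obtain rfl : a = b := hab
    exact ⟨rfl, rfl⟩
  have hlim : Tendsto (fun n : ℕ => C * lam ^ n) atTop (𝓝 0) := by
    simpa using (tendsto_pow_atTop_nhds_zero_of_lt_one h0.le h1).const_mul C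
  have un : ∀ v : TangentSpace 𝓘(ℝ, E) x, P x v = v → Decays E f.symm x v := by
    intro v hv
    refine squeeze_zero (g := fun n => C * lam ^ n * ‖v‖) (fun n => norm_nonneg _) (fun n => ?_)
      (by simpa using hlim.mul_const ‖v‖)
    obtain ⟨t1, t2⟩ := tn _ _ v (hx n) (inv n v)
    rw [← t1]
    refine (p3 _ n _).2 (inj n _ ?_)
    rw [c3]
    exact t2.trans (hv.trans (inv n v).symm)
  refine ⟨fun hw => ?_, un w⟩
  have hp : P x (w - P x w) = 0 := by rw [map_sub, p1, sub_self]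
  have hle : ∀ n, ‖w - P x w‖ ≤ C * lam ^ n * ‖mfderiv 𝓘(ℝ, E) 𝓘(ℝ, E) f.symm^[n] x (w - P x w)‖ := by
    intro n
    obtain ⟨t1, t2⟩ := tn _ _ _ (hx n) (inv n (w - P x w))
    rw [← t1]
    refine (p3 _ n _).1 (inj n _ ?_)
    rw [c3, map_zero]
    exact t2.trans hp
  have hdec : Tendsto (fun n : ℕ => ‖mfderiv 𝓘(ℝ, E) 𝓘(ℝ, E) f.symm^[n] x (w - P x w)‖) atTop
      (𝓝 0) := by
    have a1 := Tendsto.add hw (un _ (p1 x w))
    rw [add_zero] at a1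
    refine squeeze_zero (fun n => norm_nonneg _) (fun n => ?_) a1
    rw [map_sub]
    exact norm_sub_le _ _
  have a2 := hlim.mul hdec
  rw [mul_zero] at a2
  have a3 : ‖w - P x w‖ ≤ 0 := ge_of_tendsto' a2 hle
  exact (sub_eq_zero.1 (norm_le_zero_iff.1 a3)).symm

end Pool.Agent.P.MP_5c499f_an.TEx
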