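import Pool.Agent.P.MP_5c499f_an.BDefs
import Pool.Agent.P.MP_5c499f_an.TEx

/-! Cup products plus a form with a bounded primitive on the covering space have the required
shape. -/

set_option autoImplicit false

namespace Pool.Agent.P.MP_5c499f_an.TEx

open Bundle Filter Topology
open scoped Manifold ContDiff

variable {E : Type*} [NormedAddCommGroup E] [NormedSpace ℝ E]
  {M : Type*} [TopologicalSpace M] [ChartedSpace E M]
  [RiemannianBundle fun x : M => TangentSpace 𝓘(ℝ, E) x]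

theorem bdd_of_primitive {Z : Type*} [TopologicalSpace Z] (q : Z → M) {k : ℕ}
    (h : ∀ α : Form M (k + 1), α.Smooth E → (∀ x v, α.d.ev E x v = 0) →
      ∃ (m : ℕ) (c : Fin m → ℝ) (θ : Fin m → Fin (k + 1) → M → ℂ) (n : ℕ) (b : Fin n → Z → ℝ)
        (a : Fin n → Fin k → M → ℝ) (K : ℝ),
        (∀ t i, ContMDiff 𝓘(ℝ, E) 𝓘(ℝ, ℂ) ∞ (θ t i) ∧ ∀ x, θ t i x ≠ 0) ∧
        (∀ t i, ContMDiff 𝓘(ℝ, E) 𝓘(ℝ, ℝ) ∞ (a t i)) ∧ (∀ t z, |b t z| ≤ K) ∧
        ∀ (x : M) (s : M → Z), ContinuousAt s x → (∀ᶠ y in 𝓝 x, q (s y) = y) →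
          (∀ t, ContMDiffAt 𝓘(ℝ, E) 𝓘(ℝ, ℝ) 1 (b t ∘ s) x ∧
            ∀ v, |mvfderiv 𝓘(ℝ, E) (b t ∘ s) x v| ≤ K * ‖v‖) ∧
          ∀ v, α.ev E x v = ∑ t, c t * (Matrix.of fun i j => ang E (θ t i) x (v j)).det +
            (⟨n, fun t => b t ∘ s, a⟩ : Form M k).d.ev E x v) :
    CupBdd E q (k + 1) := fun α a1 a2 => by
  obtain ⟨m, c, θ, n, b, a, K, t1, t2, t3, t4⟩ := h α a1 a2
  have e0 : ∀ (s : M → Z) x v, mvfderiv 𝓘(ℝ, E) ((fun _ : Z => (0 : ℝ)) ∘ s) x v = 0 := by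
    intro s x v
    show mvfderiv 𝓘(ℝ, E) (fun _ : M => (0 : ℝ)) x v = 0
    rw [mvfderiv_const]; rfl
  have e1 : ∀ x v, ang E (fun _ : M => (1 : ℂ)) x v = 0 := by
    intro x v
    rw [ang, mvfderiv_const]; simp
  have k0 : (0 : ℝ) ≤ max K 0 := le_max_right _ _
  let θ' : Fin n → Fin (k + 1) → M → ℂ := fun t =>
    Fin.cons (fun _ => 1) fun i y => Complex.exp (a t i y * Complex.I)
  let b' : Fin n → Fin (k + 1) → Z → ℝ := fun t => Fin.cons (b t) fun _ _ => 0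
  refine ⟨m + n, Fin.append c fun _ => 1, Fin.append θ θ', Fin.append (fun _ _ _ => 0) b',
    max K 0, fun t i => ?_, fun t i z => ?_, fun x s s1 s2 => ⟨fun t i => ?_, fun v => ?_⟩⟩
  · refine Fin.addCases (fun t => ?_) (fun t => ?_) t
    · rw [Fin.append_left]; exact t1 t i
    · rw [Fin.append_right]
      exact Fin.cases ⟨contMDiff_const, fun _ => one_ne_zero⟩
        (fun i => ⟨exp_sm.contMDiff.comp (t2 t i), fun _ => Complex.exp_ne_zero _⟩) i
  · refine Fin.addCases (fun t => ?_) (fun t => ?_) t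
    · rw [Fin.append_left]; simp
    · rw [Fin.append_right]
      exact Fin.cases ((t3 t z).trans (le_max_left _ _)) (fun i => abs_zero.le.trans k0) i
  · have z0 : ContMDiffAt 𝓘(ℝ, E) 𝓘(ℝ, ℝ) 1 ((fun _ : Z => (0 : ℝ)) ∘ s) x ∧
        ∀ v, |mvfderiv 𝓘(ℝ, E) ((fun _ : Z => (0 : ℝ)) ∘ s) x v| ≤ max K 0 * ‖v‖ :=
      ⟨contMDiffAt_const (c := (0 : ℝ)), fun v => by rw [e0, abs_zero]; positivity⟩
    refine Fin.addCases (fun t => ?_) (fun t => ?_) t
    · rw [Fin.append_left]; exact z0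
    · rw [Fin.append_right]
      exact Fin.cases ⟨((t4 x s s1 s2).1 t).1, fun v => (((t4 x s s1 s2).1 t).2 v).trans
        (mul_le_mul_of_nonneg_right (le_max_left _ _) (norm_nonneg _))⟩ (fun i => z0) i
  · rw [(t4 x s s1 s2).2, Fin.sum_univ_add]
    simp only [Fin.append_left, Fin.append_right, e0, add_zero]
    refine congrArg _ (Finset.sum_congr rfl fun t _ => congrArg _ (congrArg Matrix.det ?_))
    ext i j
    refine Fin.cases ?_ (fun i => ?_) i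
    · exact ((congrArg (· + _) (e1 x (v j))).trans (zero_add _)).symm
    · exact ((congrArg₂ (· + ·) (ang_exp (t2 t i) x (v j)) (e0 s x (v j))).trans
        (add_zero _)).symm

end Pool.Agent.P.MP_5c499f_an.TEx
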