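import Pool.Agent.P.MP_5c499f_an.TTor

/-! One combination of products of angle forms that is nonzero on the unstable bundle suffices. -/

set_option autoImplicit false

namespace Pool.Agent.P.MP_5c499f_an.TTor

section

open Filter Topology Metric MeasureTheory Matrix

variable {M : Type*} [MetricSpace M] [CompactSpace M] {N u : ℕ} {e : M → VV N} {r : VV N → M}
  {U : Set (VV N)} {g : Equiv.Perm M} {Pr : M → VV N →L[ℝ] XX u} {Io : M → XX u →L[ℝ] VV N}
  {C₀ a : ℝ} {Y Γ : Type*} [MetricSpace Y] [Group Γ] [MulAction Γ Y] {F : Equiv.Perm Y}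
  {Φ : MulAut Γ} {ε δ C a' b' : ℝ} {p : Y → M}

/-- The angle form read in the ambient space. -/
noncomputable def angA (e : M → VV N) (r : VV N → M) (θ : M → ℂ) (x : M) : VV N →L[ℝ] ℝ :=
  Complex.imCLM ∘L ((θ x)⁻¹ • Dm e r θ x)

/-- A combination of products of angle forms read in the ambient space. -/
noncomputable def PsiA (e : M → VV N) (r : VV N → M) {m : ℕ} (c : Fin m → ℝ)
    (θ : Fin m → Fin u → M → ℂ) (x : M) (T : XX u →L[ℝ] VV N) : ℝ :=
  ∑ t, c t * dt (fun i => angA e r (θ t i) x) fun j => T (bas u j)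

omit [MetricSpace M] [CompactSpace M] in
lemma angA_eq (θ : M → ℂ) (x : M) (v : VV N) : angA e r θ x v = (Dm e r θ x v / θ x).im := by
  rw [div_eq_inv_mul]; rfl

omit [MetricSpace M] [CompactSpace M] in
lemma psiA_eq {m : ℕ} (c : Fin m → ℝ) (θ : Fin m → Fin u → M → ℂ) (x : M) (T : XX u →L[ℝ] VV N) :
    PsiA e r c θ x T =
      ∑ t, c t * (Matrix.of fun i j => (Dm e r (θ t i) x (T (bas u j)) / θ t i x).im).det := by
  simp only [PsiA, dt, angA_eq]

omit [CompactSpace M] in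
lemma uf_psiA (A : Amb e r U g Pr Io C₀ a) {m : ℕ} {c : Fin m → ℝ} {θ : Fin m → Fin u → M → ℂ}
    (h : ∀ t i, ContDiffOn ℝ 1 (θ t i ∘ r) U ∧ ∀ x, θ t i x ≠ 0) : UF (PsiA e r c θ) := by
  refine ⟨continuous_finsetSum _ fun t _ => ?_, fun x T S => ?_⟩
  · refine continuous_const.mul (continuousOn_univ.1 (continuousOn_dt (fun i => ?_) fun j => ?_))
    · exact ((continuous_const.clm_comp ((((A.cont_φ (h t i).1).inv₀ (h t i).2)).smul
        (A.cont_Dm (h t i).1))).comp continuous_fst).continuousOn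
    · exact (continuous_snd.clm_apply continuous_const).continuousOn
  · simp only [PsiA, XTanX.dt_comp', Finset.mul_sum]
    exact Finset.sum_congr rfl fun I _ => by ring

theorem top_cal [SimplyConnectedSpace Y] [LocallyPathConnectedSpace Y] (A : Amb e r U g Pr Io C₀ a)
    {ρ₀ : ℝ} (hc : IsCov p ρ₀) (iso : ∀ (γ : Γ) (y y' : Y), dist (γ • y) (γ • y') = dist y y')
    (hp : ∀ (γ : Γ) y, p (γ • y) = p y) (free : ∀ (γ : Γ) (y : Y), γ • y = y → γ = 1)
    (htr : ∀ y y' : Y, p y = p y' → ∃ γ : Γ, γ • y = y') (surj : Function.Surjective p)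
    (hF : ∀ y, p (F y) = g (p y)) (uc : UniformContinuous F)
    (uc' : UniformContinuous (F⁻¹ : Equiv.Perm Y)) (eqv : ∀ (γ : Γ) y, F (γ • y) = Φ γ • F y)
    {Λ Λ' : ℝ} (hy : Hyp g a' b' Λ Λ') (mix : MixM g) {T : Set Γ} (hT : T.Finite)
    (hgen : Subgroup.closure T = ⊤) {m' : ℕ} {c' : Fin m' → ℝ} {θ : Fin m' → Fin u → M → ℂ}
    (t1 : ∀ t i, ContDiffOn ℝ 1 (θ t i ∘ r) U ∧ ∀ x, θ t i x ≠ 0)
    (w3 : ∀ x, PsiA e r c' θ x (Io x) ≠ 0) :
    (∀ x y, ∃! w, Asym F w x ∧ Asym (F⁻¹ : Equiv.Perm Y) w y) ∧ ∃ (d : ℕ) (A : Γ → Fin d → ℝ),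
      (∀ γ γ', A (γ * γ') = A γ + A γ') ∧ ∀ γ, A γ = 0 → γ = 1 := by
  obtain ⟨o⟩ : Nonempty Y := inferInstance
  have : Nonempty Y := ⟨o⟩
  have r0 := hc.pos
  have c0 := A.one_le
  obtain ⟨ε₀, a1, a2⟩ := A.exists_dv
  obtain ⟨ρ₁, a3, a4⟩ := uniformContinuous_iff_le.1 uc _ (half_pos r0)
  obtain ⟨ρ₂, a5, a6⟩ := uniformContinuous_iff_le.1 uc' _ (half_pos r0)
  obtain ⟨ε, δ, C, a7, lh⟩ := hy.lh (min (min (ε₀ / 2) (ρ₀ / 11)) (min ρ₁ ρ₂)) (by positivity)
  simp only [le_min_iff] at a7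
  obtain ⟨⟨b1, b2⟩, b3, b4⟩ := a7
  obtain ⟨K, -, k1, k2, -⟩ := exists_cpt (hc.quot iso hp free htr surj)
  have S : Hs F Φ ε δ C a' b' := ⟨hc.lh (ρ₁ := ε) hF
    (fun _ _ h => (a4 (h.trans b3)).trans_lt (half_lt_self r0))
    (fun _ _ h => (a6 (h.trans b4)).trans_lt (half_lt_self r0)) lh le_rfl (by linarith), uc, uc',
    iso, eqv, fun γ y h => free γ y (hc.eq (by linarith) (hp γ y)), ⟨K, k1, k2⟩,
    mix_lift hc hF uc' htr mix⟩
  obtain ⟨H, cnt⟩ := S.exists_cnt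
  obtain ⟨s₁, s0, s1⟩ := A.near lh.δ_pos
  obtain ⟨s, C₁, s2, D⟩ := a2 H _ _ (by linarith) (ent_of_cnt S hc (by linarith) surj hF cnt)
    (s₁ / (1 + C₀)) (by positivity)
  rw [le_div_iff₀' (by positivity)] at s2
  choose h α g1 g2 g3 using fun t i => exists_arg A hc.continuous
    (fun γ : Γ => (Isometry.of_dist_eq (iso γ)).continuous) hp (t1 t i).1 (t1 t i).2
  have hF' : ∀ y, p (F⁻¹ y) = g⁻¹ (p y) := fun y => by simpa using semiconj_zpow hF (-1) y
  obtain ⟨d, J, A', L, ρ, ab, j1, j2⟩ := exists_ab eqv hT hgen (ctl (e ∘ p) u) (fun _ h => h.1)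
    (fun _ h => Ctl.comp A A.cg uc.continuous hF h)
    (fun _ h => Ctl.comp A A.cg' uc'.continuous hF' h) (ι := Fin m' × Fin u)
    (h := fun i => h i.1 i.2) (α := fun i => α i.1 i.2) (fun i => g1 i.1 i.2) fun i => g2 i.1 i.2
  obtain ⟨G, gg⟩ := S.exists_gg ab
  have add : ∀ γ γ', A' (γ * γ') = A' γ + A' γ' := fun γ γ' => by
    have := ab.eqv (γ * γ') o
    rw [mul_smul, ab.eqv, ab.eqv, add_assoc, add_right_inj, add_comm] at this
    exact this.symm
  by_cases once : Once F A'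
  · obtain ⟨e1, e2⟩ := S.gps gg once (by simpa using add 1 1) (S.ulight ab gg once)
    exact ⟨e1, d, A', add, e2⟩
  choose l hl using j2
  refine absurd (S.thin cnt (fun n y y' h => by rw [gg.step, gg.step, h]) (S.dup gg once))
    (not_thin A S hc hF D o (η := δ) (by linarith [lh.δ_le]) le_rfl
      (fun y hy => (s1 _ y (hy.trans s2)).2) ab gg j1
      (pos_of_ne A (uf_psiA A t1) w3)
      (c := fun t => c' t * (2 * Real.pi) ^ u) g1 (l := fun t i => l (t, i))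
      (fun t i γ y => by rw [g2, hl (t, i)]) fun τ B b1 b2 b3 b hb => ?_)
  rw [psiA_eq]
  refine Finset.sum_congr rfl fun t _ => ?_
  have := Matrix.det_smul (Matrix.of fun i j => fderiv ℝ (h t i ∘ τ) b (bas u j)) (2 * Real.pi)
  rw [Fintype.card_fin] at this
  rw [mul_assoc, dt, ← this]
  congr 2
  ext i j
  exact (g3 t i τ B b1 b2 b3 b hb _).symm

end

open Bundle Filter Topology
open scoped Manifold ContDiff

theorem indep {E : Type*} [NormedAddCommGroup E] [NormedSpace ℝ E] {M : Type*} [TopologicalSpace M]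
    [ChartedSpace E M] {k m : ℕ} {c : Fin m → ℝ} {θ : Fin m → Fin k → M → ℂ} {x : M}
    {v : Fin k → TangentSpace 𝓘(ℝ, E) x}
    (h : ∑ t, c t * (Matrix.of fun i j => ang E (θ t i) x (v j)).det ≠ 0) :
    LinearIndependent ℝ v := by
  by_contra hv
  obtain ⟨b, c1, j, c2⟩ := Fintype.not_linearIndependent_iff.1 hv
  refine h (Finset.sum_eq_zero fun t _ => mul_eq_zero_of_right _ ?_)
  refine Matrix.exists_mulVec_eq_zero_iff.1 ⟨b, fun e => c2 (congrFun e j), funext fun i => ?_⟩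
  have := congrArg (Complex.imCLM ∘L ((θ t i x)⁻¹ • mvfderiv 𝓘(ℝ, E) (θ t i) x)) c1
  rw [map_sum, map_zero] at this
  show ∑ j, ang E (θ t i) x (v j) * b j = 0
  refine Eq.trans (Finset.sum_congr rfl fun j _ => ?_) this
  rw [map_smul, smul_eq_mul, mul_comm, ang, div_eq_inv_mul]
  rfl

theorem ori {E : Type*} [NormedAddCommGroup E] [NormedSpace ℝ E] [FiniteDimensional ℝ E]
    {M : Type*} [MetricSpace M] [CompactSpace M] [ChartedSpace E M] [IsManifold 𝓘(ℝ, E) ∞ M]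
    {N : ℕ} {e : M → VV N} {r : VV N → M} {U : Set (VV N)} (h : Emb E e r U) {u m : ℕ}
    {c : Fin m → ℝ} {θ : Fin m → Fin u → M → ℂ}
    (h1 : ∀ t i, ContMDiff 𝓘(ℝ, E) 𝓘(ℝ, ℂ) 1 (θ t i)) {x : M}
    {v : Fin u → TangentSpace 𝓘(ℝ, E) x}
    (h2 : ∑ t, c t * (Matrix.of fun i j => ang E (θ t i) x (v j)).det ≠ 0) {T : XX u →L[ℝ] VV N}
    (h4 : ∀ j, mvfderiv 𝓘(ℝ, E) e x (v j) ∈ Set.range T) : PsiA e r c θ x T ≠ 0 := by
  choose b hb using h4
  set S : XX u →L[ℝ] XX u := ∑ j, (ContinuousLinearMap.proj j).smulRight (b j) with hS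
  have e1 : ∀ j, S (bas u j) = b j := fun j => by
    simp [hS, bas, Pi.single_apply]
  intro e0
  refine h2 (Eq.trans ?_ ((congrArg (S.det * ·) e0).trans (mul_zero _)))
  rw [PsiA, Finset.mul_sum]
  refine Finset.sum_congr rfl fun t _ => ?_
  have := dt_comp (fun i => angA e r (θ t i) x ∘L T) S
  rw [mul_left_comm]
  refine congrArg _ (Eq.trans (congrArg Matrix.det ?_) this)
  ext i j
  simp only [Matrix.of_apply, e1, ContinuousLinearMap.comp_apply, hb, angA_eq]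
  rw [h.Dm_De (h1 t i), ang]

theorem cal_torus {E : Type*} [NormedAddCommGroup E] [NormedSpace ℝ E] [FiniteDimensional ℝ E]
    {M : Type*} [TopologicalSpace M] [T2Space M] [CompactSpace M] [ConnectedSpace M]
    [ChartedSpace E M] [IsManifold 𝓘(ℝ, E) ∞ M]
    [RiemannianBundle fun x : M => TangentSpace 𝓘(ℝ, E) x]
    [IsContinuousRiemannianBundle E fun x : M => TangentSpace 𝓘(ℝ, E) x]
    (f : Diffeomorph 𝓘(ℝ, E) 𝓘(ℝ, E) M M 1) (hf : IsAnosov E f)
    (nw : ∀ U : Set M, IsOpen U → U.Nonempty → ∃ n, 0 < n ∧ (f^[n] '' U ∩ U).Nonempty)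
    {k m' : ℕ} (c : Fin m' → ℝ) (θ : Fin m' → Fin k → M → ℂ)
    (a1 : ∀ t i, ContMDiff 𝓘(ℝ, E) 𝓘(ℝ, ℂ) 1 (θ t i) ∧ ∀ x, θ t i x ≠ 0)
    (a2 : ∀ x, ∃ v : Fin k → TangentSpace 𝓘(ℝ, E) x,
      ∑ t, c t * (Matrix.of fun i j => ang E (θ t i) x (v j)).det ≠ 0 ∧
      ∀ w, Decays E f.symm x w ↔ w ∈ Submodule.span ℝ (Set.range v)) :
    ∃ (m : ℕ) (A : Matrix (Fin m) (Fin m) ℤ) (h : M ≃ₜ (Fin m → UnitAddCircle)), IsUnit A.det ∧
      (∀ z : ℂ, ‖z‖ = 1 → Polynomial.aeval z A.charpoly ≠ 0) ∧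
      ∀ x i, h (f x) i = ∑ j, A i j • h x j := by
  obtain ⟨n, e, e1, e2, e3⟩ := exists_embedding_euclidean_of_compact (I := 𝓘(ℝ, E)) (M := M)
  let _ := e2.isEmbedding.comapMetricSpace e
  have he : ∀ x y : M, dist x y = ‖e x - e y‖ := fun x y => dist_eq_norm (e x) (e y)
  obtain ⟨r, U, em⟩ := exists_emb he e1 e3
  choose v v1 v2 using a2
  obtain ⟨Pr, Io, C₀, b1, b2⟩ := exists_amb em f hf fun x => ⟨v x, indep (v1 x), v2 x⟩
  obtain ⟨⟨σ, C₁, loc⟩, b3⟩ := core'' he (e1.of_le (by simp)) e3 f hf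
  obtain ⟨K, k0, ⟨a, A⟩, a', b', Λ, Λ', hy, sh⟩ := ((eventually_gt_atTop 0).and (b2.and b3)).exists
  have := ChartedSpace.locallyPathConnectedSpace E M
  have : PathConnectedSpace M := pathConnectedSpace_iff_connectedSpace.2 inferInstance
  obtain ⟨x₀⟩ : Nonempty M := inferInstance
  obtain ⟨G, Φ, g1, g2, g3, g4⟩ := loc.lift f.toHomeomorph x₀
  have := Cov.simplyConn (h := loc) (x₀ := x₀)
  have := (Cov.isCov (h := loc) (x₀ := x₀)).locPath
  have surj : Function.Surjective (Cov.pt : Cov loc x₀ → M) := Cov.quot.surjective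
  obtain ⟨T, t1, t2⟩ := Cov.isCov.fg Cov.dist_smul Cov.smul_pt Cov.free Cov.transitive surj _
    fun _ => Cov.reach'
  obtain ⟨gps, d, A', c1, c2⟩ := top_cal (F := G ^ K) (Φ := Φ ^ K) A Cov.isCov Cov.dist_smul Cov.smul_pt
    Cov.free Cov.transitive surj
    (fun y => by simpa using semiconj_zpow (F := f.toEquiv) g1 K y)
    (by simpa using uc_zpow g2 g3 K) (by simpa using uc_zpow g2 g3 (-K))
    (fun γ y => by simpa using equiv_zpow (act := fun γ y => γ • y) g4 K γ y) hy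
    (mix_of_nw f.continuous f.symm.continuous k0 hy sh nw) t1 t2
    (fun t i => ⟨em.contDiffOn (a1 t i).1, (a1 t i).2⟩)
    (fun x => ori em (fun t i => (a1 t i).1) (v1 x) fun j =>
      (b1 x _).1 ((v2 x _).2 (Submodule.subset_span ⟨j, rfl⟩)))
  obtain ⟨m, ε, hε⟩ := exists_coord t1 t2 c1 c2
  have : IsIsometricSMul (FundamentalGroup M x₀) (Cov loc x₀) :=
    ⟨fun γ => Isometry.of_dist_eq (Cov.dist_smul γ)⟩
  have gp : ∀ x y, ∃! w, Asym G w x ∧ Asym (G⁻¹ : Equiv.Perm _) w y := fun x y => by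
    have := gps x y
    simp only [← inv_pow, Equiv.Perm.coe_pow, Asym.of_pow g2 k0, Asym.of_pow g3 k0] at this
    exact this
  obtain ⟨Ψ, ρ, o, D, gl⟩ := gps_of_anosov f hf Cov.quot ⟨G, g2.continuous, g3.continuous⟩ g1
    fun x y => (gp x y).exists
  exact ⟨m, gps_torus D (gl fun x y _ _ => (gp x y).unique) ε hε Cov.quot g1⟩

theorem not_id {M : Type*} [TopologicalSpace M] {x y : M} (hxy : x ≠ y) {m : ℕ}
    (A : Matrix (Fin m) (Fin m) ℤ) (h : M ≃ₜ (Fin m → UnitAddCircle))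
    (h1 : ∀ z : ℂ, ‖z‖ = 1 → Polynomial.aeval z A.charpoly ≠ 0) :
    ¬ ∀ x i, h x i = ∑ j, A i j • h x j := fun h2 => by
  have e : A = 1 := by
    ext i j
    by_contra ne
    have n0 : ((A i j - (1 : Matrix (Fin m) (Fin m) ℤ) i j : ℤ) : ℝ) ≠ 0 :=
      Int.cast_ne_zero.2 (sub_ne_zero.2 ne)
    set n := A i j - (1 : Matrix (Fin m) (Fin m) ℤ) i j with hn
    have h3 := h2 (h.symm (Pi.single j (((2 * n : ℝ)⁻¹ : ℝ) : UnitAddCircle))) i
    rw [h.apply_symm_apply, Finset.sum_eq_single j (fun b _ hb => by simp [hb]) (by simp),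
      Pi.single_eq_same] at h3
    have h4 : n • (((2 * n : ℝ)⁻¹ : ℝ) : UnitAddCircle) = 0 := by
      generalize (((2 * n : ℝ)⁻¹ : ℝ) : UnitAddCircle) = t at h3 ⊢
      rw [hn, sub_smul, ← h3, sub_eq_zero, Matrix.one_apply]
      by_cases hij : i = j <;> simp [hij]
    rw [← AddCircle.coe_zsmul, AddCircle.coe_eq_zero_iff] at h4
    obtain ⟨l, hl⟩ := h4
    have h5 : ((2 * l : ℤ) : ℝ) = (1 : ℤ) := by
      simp only [zsmul_eq_mul, mul_one] at hl
      push_cast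
      rw [hl]
      field_simp
    have := Int.cast_injective h5
    omega
  refine h1 1 norm_one ?_
  rcases m with _ | m
  · exact absurd (h.injective (Subsingleton.elim _ _)) hxy
  · simp [e, Matrix.charpoly_one]

end Pool.Agent.P.MP_5c499f_an.TTor
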