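import Pool.Agent.P.MP_5c499f_an.XDefs

/-! The map `(x, y) ↦ (x + y, x)` of the two-torus satisfies all hypotheses of the cup product
theorem with `k = 1`. -/

set_option autoImplicit false
set_option backward.isDefEq.respectTransparency false
set_option linter.unusedSimpArgs false

namespace Pool.Agent.P.MP_5c499f_an.TCat

open Bundle Filter Topology Set
open scoped Manifold ContDiff

abbrev T := UnitAddCircle × UnitAddCircle

noncomputable def p (z : ℂ) : T := ((z.re : UnitAddCircle), (z.im : UnitAddCircle))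

theorem p_add (z w : ℂ) : p (z + w) = p z + p w := by simp [p]
theorem p_sub (z w : ℂ) : p (z - w) = p z - p w := by simp [p]
theorem p_zero : p 0 = 0 := by simp [p]
theorem p_cont : Continuous p := by
  have : Continuous fun t : ℝ => (t : UnitAddCircle) := AddCircle.continuous_mk' 1
  unfold p; fun_prop
theorem p_surj : Function.Surjective p := by
  rintro ⟨a, b⟩
  obtain ⟨a, rfl⟩ := QuotientAddGroup.mk_surjective a
  obtain ⟨b, rfl⟩ := QuotientAddGroup.mk_surjective b
  exact ⟨⟨a, b⟩, rfl⟩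

theorem p_lh : IsLocalHomeomorph p := by
  have h : IsLocalHomeomorph ((↑) : ℝ → AddCircle (1:ℝ)) := (AddCircle.isCoveringMap_coe 1).isLocalHomeomorph
  have h2 : IsLocalHomeomorph (Prod.map ((↑) : ℝ → AddCircle (1:ℝ)) ((↑) : ℝ → AddCircle (1:ℝ))) := by
    rintro ⟨a, b⟩
    obtain ⟨e, he, he'⟩ := h a
    obtain ⟨f, hf, hf'⟩ := h b
    exact ⟨e.prod f, ⟨he, hf⟩, by funext z; simp [← he', ← hf', Prod.map]⟩
  exact h2.comp Complex.equivRealProdCLM.toHomeomorph.isLocalHomeomorph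

theorem p_eq_zero {z : ℂ} : p z = 0 ↔ ∃ a b : ℤ, z = a + b * Complex.I := by
  constructor
  · intro h
    have h1 : ((z.re : ℝ) : UnitAddCircle) = 0 := congrArg Prod.fst h
    have h2 : ((z.im : ℝ) : UnitAddCircle) = 0 := congrArg Prod.snd h
    rw [AddCircle.coe_eq_zero_iff] at h1 h2
    obtain ⟨a, ha⟩ := h1; obtain ⟨b, hb⟩ := h2
    exact ⟨a, b, by apply Complex.ext <;> simp [← ha, ← hb]⟩
  · rintro ⟨a, b, rfl⟩
    have : ∀ a : ℤ, ((a : ℝ) : UnitAddCircle) = 0 := fun a => (AddCircle.coe_eq_zero_iff _).2 ⟨a, by simp⟩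
    simp [p, this]

theorem loc {X : Type*} [TopologicalSpace X] {u v : X → ℂ} {x : X} (hu : ContinuousAt u x) (hv : ContinuousAt v x)
    (h : ∀ᶠ y in 𝓝 x, p (u y) = p (v y)) : u =ᶠ[𝓝 x] fun y => v y + (u x - v x) := by
  obtain ⟨U, hU, h0, hinj⟩ := p_lh.isLocallyInjective 0
  have hd : ContinuousAt (fun y => u y - (v y + (u x - v x))) x := hu.sub (hv.add continuousAt_const)
  have : ∀ᶠ y in 𝓝 x, u y - (v y + (u x - v x)) ∈ U := hd (hU.mem_nhds (by simpa using h0))
  filter_upwards [this, h] with y h1 h2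
  have := hinj h1 h0 (by rw [p_sub, p_add, p_sub, h2, h.self_of_nhds, p_zero]; simp)
  exact sub_eq_zero.1 this

noncomputable def sec (q : T) : ℂ := (p_surj q).choose
theorem p_sec (q : T) : p (sec q) = q := (p_surj q).choose_spec
noncomputable def ch (q : T) : OpenPartialHomeomorph T ℂ := p_lh.localInverseAt (sec q)
theorem ch_symm (q : T) : ((ch q).symm : ℂ → T) = p := p_lh.localInverseAt_symm _
theorem mem_ch (q : T) : q ∈ (ch q).source := by
  have := p_lh.apply_self_mem_localInverseAt_source (x := sec q)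
  rwa [p_sec] at this
theorem p_ch {q x : T} (h : x ∈ (ch q).source) : p (ch q x) = x := p_lh.apply_localInverseAt_of_mem h

noncomputable scoped instance chT : ChartedSpace ℂ T where
  atlas := range ch
  chartAt := ch
  mem_chart_source := mem_ch
  chart_mem_atlas q := ⟨q, rfl⟩

theorem chartAt_eq (q : T) : chartAt ℂ q = ch q := rfl

/-- chart ∘ p ∘ L is locally L + const -/
theorem key {X : Type*} [TopologicalSpace X] (q : T) {L : X → ℂ} {x : X} (hL : ContinuousAt L x) (h : p (L x) ∈ (ch q).source) :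
    (fun y => ch q (p (L y))) =ᶠ[𝓝 x] fun y => L y + (ch q (p (L x)) - L x) := by
  have hp : ContinuousAt (fun y => p (L y)) x := p_cont.continuousAt.comp hL
  refine loc (((ch q).continuousAt h).comp_of_eq hp rfl) hL ?_
  filter_upwards [hp ((ch q).open_source.mem_nhds h)] with y hy using p_ch hy

scoped instance mfT : IsManifold 𝓘(ℝ, ℂ) ∞ T := by
  refine isManifold_of_contDiffOn _ _ _ ?_
  rintro _ _ ⟨q, rfl⟩ ⟨q', rfl⟩ z hz
  have hz' : p z ∈ (ch q').source := by
    have := hz.1.2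
    simpa [ch_symm] using this
  have := key q' (L := id) (x := z) continuousAt_id hz'
  refine (ContDiffAt.congr_of_eventuallyEq (f := fun y => id y + (ch q' (p (id z)) - id z)) (by fun_prop) ?_).contDiffWithinAt
  simpa [ch_symm, Function.comp_def] using this

theorem coord {x y z : T} (hx : z ∈ (ch x).source) (hy : z ∈ (ch y).source) :
    (tangentBundleCore 𝓘(ℝ, ℂ) T).coordChange (achart ℂ x) (achart ℂ y) z = ContinuousLinearMap.id ℝ ℂ := by
  rw [tangentBundleCore_coordChange_achart]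
  have := key y (L := id) (x := ch x z) continuousAt_id (by simpa [p_ch hx] using hy)
  have h2 : HasFDerivAt (fun w => ch y (p w)) (ContinuousLinearMap.id ℝ ℂ) (ch x z) :=
    ((hasFDerivAt_id _).add_const _).congr_of_eventuallyEq this
  simpa [chartAt_eq, ch_symm, Function.comp_def] using h2.fderiv

noncomputable def metric : ContinuousRiemannianMetric ℂ (fun x : T => TangentSpace 𝓘(ℝ, ℂ) x) where
  inner _ := (innerSL ℝ (E := ℂ) : ℂ →L[ℝ] ℂ →L[ℝ] ℝ)
  symm _ v w := real_inner_comm (F := ℂ) _ _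
  pos _ v hv := (real_inner_self_pos (F := ℂ)).2 hv
  isVonNBounded _ := (riemannianMetricVectorSpace ℂ).isVonNBounded 0
  continuous := by
    rw [continuous_iff_continuousAt]
    intro x
    rw [FiberBundle.continuousAt_totalSpace]
    refine ⟨continuousAt_id, ?_⟩
    refine (continuousAt_const (y := innerSL ℝ (E := ℂ))).congr ?_
    filter_upwards [(ch x).open_source.mem_nhds (mem_ch x)] with y hy
    have h1 := TangentBundle.symmL_trivializationAt_eq_core (I := 𝓘(ℝ, ℂ)) (b₀ := x) (b := y) hy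
    rw [coord hy (mem_ch y)] at h1
    refine ContinuousLinearMap.ext fun v => ContinuousLinearMap.ext fun w => ?_
    simp only [hom_trivializationAt_apply, ContinuousLinearMap.inCoordinates, ContinuousLinearMap.comp_apply, h1]
    rw [Trivialization.continuousLinearMapAt_apply, Trivialization.coe_linearMapAt_of_mem _ (by simpa [chartAt_eq] using hy)]
    simp only [hom_trivializationAt_apply, ContinuousLinearMap.inCoordinates, ContinuousLinearMap.comp_apply, h1]
    simp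
    show _ = inner ℝ v w
    simp [Complex.inner]

noncomputable scoped instance rbT : RiemannianBundle (fun x : T => TangentSpace 𝓘(ℝ, ℂ) x) := ⟨metric.toRiemannianMetric⟩

theorem crT : IsContinuousRiemannianBundle ℂ (fun x : T => TangentSpace 𝓘(ℝ, ℂ) x) := inferInstance

theorem nT {x : T} (v : TangentSpace 𝓘(ℝ, ℂ) x) : ‖v‖ = ‖letI V : ℂ := v; V‖ := by
  rw [norm_eq_sqrt_real_inner, norm_eq_sqrt_real_inner]

theorem lin_md {f : T → T} (L : ℂ →L[ℝ] ℂ) (h : ∀ z, f (p z) = p (L z)) (hf : Continuous f) (x : T) :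
    ContMDiffAt 𝓘(ℝ, ℂ) 𝓘(ℝ, ℂ) ∞ f x ∧ HasMFDerivAt 𝓘(ℝ, ℂ) 𝓘(ℝ, ℂ) f x L := by
  have hx : p (L (ch x x)) ∈ (ch (f x)).source := by rw [← h, p_ch (mem_ch x)]; exact mem_ch _
  have k := key (f x) (L := L) (x := ch x x) L.continuous.continuousAt hx
  have e : (extChartAt 𝓘(ℝ, ℂ) (f x) ∘ f ∘ (extChartAt 𝓘(ℝ, ℂ) x).symm) = fun y => ch (f x) (p (L y)) := by
    funext y; simp [chartAt_eq, ch_symm, h]
  have e2 : extChartAt 𝓘(ℝ, ℂ) x x = ch x x := by simp [chartAt_eq]
  constructor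
  · rw [contMDiffAt_iff]
    refine ⟨hf.continuousAt, ?_⟩
    rw [e, e2]
    exact (ContDiffAt.congr_of_eventuallyEq (by fun_prop) k).contDiffWithinAt
  · refine ⟨hf.continuousAt, ?_⟩
    unfold writtenInExtChartAt
    rw [e, e2]
    exact ((L.hasFDerivAt.add_const _).congr_of_eventuallyEq k).hasFDerivWithinAt

theorem p_md : ContMDiff 𝓘(ℝ, ℂ) 𝓘(ℝ, ℂ) ∞ p := by
  intro z
  rw [contMDiffAt_iff]
  refine ⟨p_cont.continuousAt, ?_⟩
  have k := key (p z) (L := id) (x := z) continuousAt_id (mem_ch _)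
  refine (ContDiffAt.congr_of_eventuallyEq (f := fun y => id y + (ch (p z) (p (id z)) - id z)) (by fun_prop) ?_).contDiffWithinAt
  simpa [chartAt_eq, Function.comp_def] using k

variable {F : Type*} [NormedAddCommGroup F] [NormedSpace ℝ F]

theorem up {φ : T → F} (h : ContMDiff 𝓘(ℝ, ℂ) 𝓘(ℝ, F) ∞ φ) : ContDiff ℝ ∞ (φ ∘ p) := (h.comp p_md).contDiff

theorem down {φ : T → F} (h : ContDiff ℝ ∞ (φ ∘ p)) : ContMDiff 𝓘(ℝ, ℂ) 𝓘(ℝ, F) ∞ φ := by
  intro x
  have hc : Continuous φ := (p_lh.isOpenMap.isQuotientMap p_cont p_surj).continuous_iff.2 h.continuous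
  rw [contMDiffAt_iff]
  refine ⟨hc.continuousAt, ?_⟩
  simpa [chartAt_eq, ch_symm] using h.contDiffAt.contDiffWithinAt

theorem mvT {φ : T → F} (h : ContMDiff 𝓘(ℝ, ℂ) 𝓘(ℝ, F) ∞ φ) (z v : ℂ) :
    mvfderiv 𝓘(ℝ, ℂ) φ (p z) v = fderiv ℝ (φ ∘ p) z v := by
  have h1 : MDifferentiableAt 𝓘(ℝ, ℂ) 𝓘(ℝ, F) φ (p z) := (h _).mdifferentiableAt (by simp)
  have h2 : mfderiv 𝓘(ℝ, ℂ) 𝓘(ℝ, F) φ (p z) = fderiv ℝ (φ ∘ p) (ch (p z) (p z)) := by
    rw [h1.mfderiv]; simp [writtenInExtChartAt, chartAt_eq, ch_symm]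
  have h3 : fderiv ℝ (φ ∘ p) (ch (p z) (p z)) = fderiv ℝ (φ ∘ p) z := by
    set c := ch (p z) (p z) - z with hc
    have e : (φ ∘ p) = fun y => (φ ∘ p) (y + c) := by
      funext y; simp [p_add, hc, p_sub, p_ch (mem_ch _)]
    conv_rhs => rw [e]
    rw [fderiv_comp_add_right]; simp [hc]
  simp only [mvfderiv, ContinuousLinearMap.comp_apply, h2, h3]; rfl

open Real in
/-- linear maps of the plane given by a matrix -/
noncomputable def B (a b c d : ℝ) : ℂ →L[ℝ] ℂ :=
  Complex.ofRealCLM.comp (a • Complex.reCLM + b • Complex.imCLM) + (c • Complex.reCLM + d • Complex.imCLM).smulRight Complex.I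
theorem B_re (a b c d z) : (B a b c d z).re = a * z.re + b * z.im := by simp [B]
theorem B_im (a b c d z) : (B a b c d z).im = c * z.re + d * z.im := by simp [B]

def cat (x : T) : T := (x.1 + x.2, x.1)
def cat' (x : T) : T := (x.2, x.1 - x.2)
theorem cat_p (z : ℂ) : cat (p z) = p (B 1 1 1 0 z) := by simp [cat, p, B_re, B_im]
theorem cat'_p (z : ℂ) : cat' (p z) = p (B 0 1 1 (-1) z) := by simp [cat', p, B_re, B_im, sub_eq_add_neg]
theorem cat_c : Continuous cat := by unfold cat; fun_prop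
theorem cat'_c : Continuous cat' := by unfold cat'; fun_prop

noncomputable def catD : Diffeomorph 𝓘(ℝ, ℂ) 𝓘(ℝ, ℂ) T T 1 where
  toFun := cat
  invFun := cat'
  left_inv x := by simp [cat, cat']
  right_inv x := by simp [cat, cat']
  contMDiff_toFun x := (lin_md _ cat_p cat_c x).1.of_le (by simp)
  contMDiff_invFun x := (lin_md _ cat'_p cat'_c x).1.of_le (by simp)

theorem iter_md {f : T → T} (L : ℂ →L[ℝ] ℂ) (h : ∀ z, f (p z) = p (L z)) (hf : Continuous f) (n : ℕ) (x : T) (v : ℂ) :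
    ‖mfderiv 𝓘(ℝ, ℂ) 𝓘(ℝ, ℂ) f^[n] x v‖ = ‖L^[n] v‖ := by
  have cp : ∀ z, (L ^ n) z = L^[n] z := by
    intro z
    induction n with
    | zero => simp
    | succ n ih => rw [pow_succ', Function.iterate_succ_apply', ← ih]; rfl
  have h2 : ∀ z, f^[n] (p z) = p ((L ^ n) z) := by
    intro z
    rw [cp]
    exact (Function.Semiconj.iterate_right (f := p) (ga := L) (gb := f) (fun z => (h z).symm) n z).symm
  rw [nT, (lin_md (L ^ n) h2 (hf.iterate n) x).2.mfderiv, ← cp]; rfl

theorem eig (L : ℂ →L[ℝ] ℂ) (v : ℂ) (a : ℝ) (h : L v = a • v) (n : ℕ) : ‖L^[n] v‖ = |a| ^ n * ‖v‖ := by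
  have : L^[n] v = a ^ n • v := by
    induction n with
    | zero => simp
    | succ n ih => rw [Function.iterate_succ_apply', ih, map_smul, h, smul_smul, pow_succ]
  rw [this, norm_smul, norm_pow, Real.norm_eq_abs]

open scoped goldenRatio

/-- projection on the unstable line -/
noncomputable def PU : ℂ →L[ℝ] ℂ := ((√5)⁻¹ • (Complex.reCLM - ψ • Complex.imCLM)).smulRight (⟨φ, 1⟩ : ℂ)
theorem PU_re (z : ℂ) : (PU z).re = (√5)⁻¹ * (z.re - ψ * z.im) * φ := by
  rw [PU, ContinuousLinearMap.smulRight_apply, Complex.smul_re]; rfl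
theorem PU_im (z : ℂ) : (PU z).im = (√5)⁻¹ * (z.re - ψ * z.im) := by
  rw [PU, ContinuousLinearMap.smulRight_apply, Complex.smul_im, smul_eq_mul, mul_one]; rfl
theorem s5 : (√5)⁻¹ * (φ - ψ) = 1 := by rw [Real.goldenRatio_sub_goldenConj]; field_simp
theorem PU_fix {z : ℂ} : PU z = z ↔ z.re = φ * z.im := by
  constructor
  · intro h; rw [← h, PU_re, PU_im]; ring
  · intro h; apply Complex.ext
    · rw [PU_re, h]; linear_combination (z.im * φ) * s5
    · rw [PU_im, h]; linear_combination z.im * s5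
theorem PU_ker {z : ℂ} (h : PU z = 0) : z.re = ψ * z.im := by
  have := congrArg Complex.im h
  rw [PU_im] at this
  have h5 : (√5)⁻¹ ≠ 0 := by positivity
  simpa [h5, sub_eq_zero] using this
theorem PU_idem (z : ℂ) : PU (PU z) = PU z := PU_fix.2 (by rw [PU_re, PU_im]; ring)
theorem PU_comm (z : ℂ) : B 1 1 1 0 (PU z) = PU (B 1 1 1 0 z) := by
  have h1 := Real.goldenRatio_sq
  have h2 := Real.goldenRatio_add_goldenConj
  have h3 := Real.goldenRatio_mul_goldenConj
  apply Complex.ext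
  · simp only [B_re, B_im, PU_re, PU_im]
    linear_combination ((√5)⁻¹ * (-z.re + ψ * z.im)) * h1 + ((√5)⁻¹ * z.re * φ) * h2 - ((√5)⁻¹ * z.im * φ) * h3
  · simp only [B_re, B_im, PU_re, PU_im]
    linear_combination ((√5)⁻¹ * z.re) * h2 - ((√5)⁻¹ * z.im) * h3
theorem un_eig {z : ℂ} (h : z.re = φ * z.im) : B 1 1 1 0 z = φ • z := by
  have h1 := Real.goldenRatio_sq
  apply Complex.ext
  · rw [B_re, Complex.smul_re, h, smul_eq_mul]; linear_combination (-z.im) * h1
  · rw [B_im, Complex.smul_im, h, smul_eq_mul]; ring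
theorem st_eig {z : ℂ} (h : z.re = ψ * z.im) : B 1 1 1 0 z = ψ • z := by
  have h1 := Real.goldenConj_sq
  apply Complex.ext
  · rw [B_re, Complex.smul_re, h, smul_eq_mul]; linear_combination (-z.im) * h1
  · rw [B_im, Complex.smul_im, h, smul_eq_mul]; ring
theorem abs_psi : |ψ| = φ⁻¹ := by rw [Real.inv_goldenRatio, abs_of_neg Real.goldenConj_neg]

theorem triv (x : T) (q : TangentBundle 𝓘(ℝ, ℂ) T) (h : q.1 ∈ (ch x).source) :
    (trivializationAt ℂ (TangentSpace 𝓘(ℝ, ℂ)) x q).2 = q.2 := by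
  have := coord (mem_ch q.1) h
  rw [tangentBundleCore_coordChange_achart] at this
  rw [TangentBundle.trivializationAt_apply]
  exact congrArg (fun L : ℂ →L[ℝ] ℂ => L q.2) this

theorem cont_const (L : ℂ →L[ℝ] ℂ) :
    Continuous (fun q : TangentBundle 𝓘(ℝ, ℂ) T => (⟨q.1, L q.2⟩ : TangentBundle 𝓘(ℝ, ℂ) T)) := by
  rw [continuous_iff_continuousAt]
  intro q
  have hid := (FiberBundle.continuousAt_totalSpace (F := ℂ) (f := fun r : TangentBundle 𝓘(ℝ, ℂ) T => r) (x₀ := q)).1 continuousAt_id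
  rw [FiberBundle.continuousAt_totalSpace]
  refine ⟨hid.1, (L.continuous.continuousAt.comp hid.2).congr ?_⟩
  filter_upwards [hid.1 ((ch q.1).open_source.mem_nhds (mem_ch _))] with r hr
  simp only [Function.comp_apply]
  rw [triv _ _ hr, triv _ (⟨r.1, L r.2⟩ : TangentBundle 𝓘(ℝ, ℂ) T) hr]

theorem anosov_cat : IsAnosov ℂ catD := by
  refine ⟨fun _ => PU, 1, φ⁻¹, one_pos, inv_pos.2 Real.goldenRatio_pos, inv_lt_one_of_one_lt₀ Real.one_lt_goldenRatio,
    cont_const PU, fun _ v => PU_idem v, fun x v => ?_, fun x n v => ?_⟩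
  · have : mfderiv 𝓘(ℝ, ℂ) 𝓘(ℝ, ℂ) catD x = B 1 1 1 0 := (lin_md _ cat_p cat_c x).2.mfderiv
    rw [this]; exact PU_comm v
  · have := iter_md _ cat_p cat_c n x v
    rw [show (catD : T → T) = cat from rfl, this, nT]
    constructor
    · intro h; rw [eig _ _ _ (st_eig (PU_ker h)), abs_psi, one_mul]
    · intro h
      rw [eig _ _ _ (un_eig (PU_fix.1 h)), abs_of_pos Real.goldenRatio_pos, one_mul, ← mul_assoc, ← mul_pow,
        inv_mul_cancel₀ Real.goldenRatio_ne_zero, one_pow, one_mul]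

open MeasureTheory in
theorem nw_cat : ∀ U : Set T, IsOpen U → U.Nonempty → ∃ n, 0 < n ∧ ((catD : T → T)^[n] '' U ∩ U).Nonempty := by
  intro U hU hne
  let h : T →+ T := ⟨⟨cat, by simp [cat]⟩, fun x y => by simp [cat]; abel⟩
  have hm : MeasurePreserving h Measure.addHaar Measure.addHaar :=
    AddMonoidHom.measurePreserving cat_c catD.surjective rfl
  obtain ⟨x, hx, m, hm0, hxm⟩ := hm.conservative.exists_mem_iterate_mem hU.nullMeasurableSet (hU.measure_ne_zero _ hne)
  exact ⟨m, Nat.pos_of_ne_zero hm0, _, ⟨x, hx, rfl⟩, hxm⟩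

theorem un_eig' {z : ℂ} (h : z.re = φ * z.im) : B 0 1 1 (-1) z = (-ψ) • z := by
  have h2 := Real.goldenRatio_add_goldenConj
  have h3 := Real.goldenRatio_mul_goldenConj
  apply Complex.ext
  · rw [B_re, Complex.smul_re, h, smul_eq_mul]; linear_combination (z.im) * h3
  · rw [B_im, Complex.smul_im, h, smul_eq_mul]; linear_combination (z.im) * h2

theorem decays_cat (x : T) (w : ℂ) : Decays ℂ catD.symm x w ↔ w.re = φ * w.im := by
  have e0 : Decays ℂ catD.symm x w ↔ Tendsto (fun n : ℕ => ‖(B 0 1 1 (-1))^[n] w‖) atTop (𝓝 0) :=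
    tendsto_congr fun n => iter_md _ cat'_p cat'_c n x w
  rw [e0]
  have h1 := Real.goldenRatio_sq
  constructor
  · intro h
    let ℓ : ℂ →L[ℝ] ℝ := Complex.reCLM - φ • Complex.imCLM
    have hl : ∀ z, ℓ z = z.re - φ * z.im := fun z => rfl
    have h2 : ∀ n : ℕ, ℓ ((B 0 1 1 (-1))^[n] w) = (-φ) ^ n * ℓ w := by
      intro n
      induction n with
      | zero => simp
      | succ n ih =>
        rw [Function.iterate_succ_apply', pow_succ', mul_assoc, ← ih, hl, hl, B_re, B_im]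
        linear_combination (-((B 0 1 1 (-1))^[n] w).im) * h1
    have h3 : ∀ n : ℕ, |ℓ w| ≤ ‖ℓ‖ * ‖(B 0 1 1 (-1))^[n] w‖ := by
      intro n
      refine le_trans ?_ (ℓ.le_opNorm _)
      rw [h2, Real.norm_eq_abs, abs_mul, abs_pow, abs_neg, abs_of_pos Real.goldenRatio_pos]
      exact le_mul_of_one_le_left (abs_nonneg _) (one_le_pow₀ Real.one_lt_goldenRatio.le)
    have := ge_of_tendsto' (h.const_mul ‖ℓ‖) h3
    rw [mul_zero, abs_nonpos_iff, hl, sub_eq_zero] at this
    exact this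
  · intro h
    simp only [eig _ _ _ (un_eig' h), abs_neg, abs_psi]
    simpa using (tendsto_pow_atTop_nhds_zero_of_lt_one (inv_pos.2 Real.goldenRatio_pos).le
      (inv_lt_one_of_one_lt₀ Real.one_lt_goldenRatio)).mul_const ‖w‖

/-- the two circle-valued coordinates -/
noncomputable def th1 (x : T) : ℂ := AddCircle.toCircle x.1
noncomputable def th2 (x : T) : ℂ := AddCircle.toCircle x.2
theorem th1_p : th1 ∘ p = fun z => Complex.exp ((2 * Real.pi * z.re : ℝ) * Complex.I) := by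
  funext z; simp [th1, p, AddCircle.toCircle_apply_mk, Circle.coe_exp]
theorem th2_p : th2 ∘ p = fun z => Complex.exp ((2 * Real.pi * z.im : ℝ) * Complex.I) := by
  funext z; simp [th2, p, AddCircle.toCircle_apply_mk, Circle.coe_exp]
theorem cexp_sm {a : ℂ → ℝ} (h : ContDiff ℝ ∞ a) : ContDiff ℝ ∞ fun z => Complex.exp (a z * Complex.I) :=
  ((Complex.ofRealCLM.contDiff.comp h).mul contDiff_const).cexp
theorem th1_s : ContMDiff 𝓘(ℝ, ℂ) 𝓘(ℝ, ℂ) ∞ th1 := down (by
  rw [th1_p]; exact cexp_sm (contDiff_const.mul Complex.reCLM.contDiff))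
theorem th2_s : ContMDiff 𝓘(ℝ, ℂ) 𝓘(ℝ, ℂ) ∞ th2 := down (by
  rw [th2_p]; exact cexp_sm (contDiff_const.mul Complex.imCLM.contDiff))

theorem ang_T {θ : T → ℂ} (hθ : ContMDiff 𝓘(ℝ, ℂ) 𝓘(ℝ, ℂ) ∞ θ) {a : ℂ → ℝ} (h : θ ∘ p = fun z => Complex.exp (a z * Complex.I))
    {z : ℂ} {L : ℂ →L[ℝ] ℝ} (ha : HasFDerivAt a L z) (v : ℂ) : ang ℂ θ (p z) v = L v := by
  have h1 : HasFDerivAt (fun y => ((a y : ℝ) : ℂ) * Complex.I) _ z :=
    (Complex.ofRealCLM.hasFDerivAt.comp z ha).mul_const Complex.I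
  have h2 := h1.cexp
  unfold ang
  rw [mvT hθ, h, h2.fderiv, show θ (p z) = _ from congrFun h z]
  have := Complex.exp_ne_zero (a z * Complex.I)
  simp [mul_div_cancel_left₀ _ this]

theorem l7 (w : ℂ) (h : w.re = φ * w.im) : w.im • (⟨φ, 1⟩ : ℂ) = w := by
  apply Complex.ext
  · rw [Complex.smul_re, h, smul_eq_mul, mul_comm]
  · rw [Complex.smul_im, smul_eq_mul, mul_one]
theorem l8 (a : ℝ) : (a • (⟨φ, 1⟩ : ℂ)).re = φ * (a • (⟨φ, 1⟩ : ℂ)).im := by
  rw [Complex.smul_re, Complex.smul_im, smul_eq_mul, smul_eq_mul]; ring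

theorem oriented_cat : Oriented ℂ catD.symm 1 := by
  have r : ContMDiff 𝓘(ℝ, ℂ) 𝓘(ℝ, ℝ) ∞ fun x => (th2 x).re := Complex.reCLM.contDiff.contMDiff.comp th2_s
  have i : ContMDiff 𝓘(ℝ, ℂ) 𝓘(ℝ, ℝ) ∞ fun x => (th2 x).im := Complex.imCLM.contDiff.contMDiff.comp th2_s
  refine ⟨⟨2, ![fun x => (th2 x).re, fun x => -(th2 x).im], ![fun _ x => (th2 x).im, fun _ x => (th2 x).re]⟩, ?_, fun x => ⟨![(⟨φ, 1⟩ : ℂ)], ?_, fun w => ?_⟩⟩
  · intro t; fin_cases t
    · exact ⟨r, fun _ => i⟩
    · exact ⟨i.neg, fun _ => r⟩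
  · obtain ⟨z, rfl⟩ := p_surj x
    show ∑ t : Fin 2, _ ≠ _
    have e1 : (fun x => (th2 x).re) ∘ p = fun z => Real.cos (2 * Real.pi * z.im) := by
      funext z; exact (congrArg Complex.re (congrFun th2_p z)).trans (Complex.exp_ofReal_mul_I_re _)
    have e2 : (fun x => (th2 x).im) ∘ p = fun z => Real.sin (2 * Real.pi * z.im) := by
      funext z; exact (congrArg Complex.im (congrFun th2_p z)).trans (Complex.exp_ofReal_mul_I_im _)
    have d : HasFDerivAt (fun z : ℂ => 2 * Real.pi * z.im) _ z := Complex.imCLM.hasFDerivAt.const_mul (2 * Real.pi)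
    have a1 := mvT r z ⟨φ, 1⟩
    have a2 := mvT i z ⟨φ, 1⟩
    rw [e1, d.cos.fderiv] at a1
    rw [e2, d.sin.fderiv] at a2
    have b1 : (th2 (p z)).re = _ := congrFun e1 z
    have b2 : (th2 (p z)).im = _ := congrFun e2 z
    simp only [Fin.sum_univ_two, Matrix.det_unique, Matrix.of_apply, Matrix.cons_val_zero, Matrix.cons_val_one, Fin.default_eq_zero, a1, a2, b1, b2]
    simp
    have := Real.sin_sq_add_cos_sq (2 * Real.pi * z.im)
    intro h
    have h' : 2 * Real.pi = 0 := by linear_combination h - (2 * Real.pi) * this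
    exact Real.pi_ne_zero (by linarith)
  · rw [decays_cat]
    simp only [Matrix.range_cons, Matrix.range_empty, Set.union_empty, Submodule.mem_span_singleton]
    constructor
    · intro h; exact ⟨(w : ℂ).im, l7 w h⟩
    · rintro ⟨a, rfl⟩; exact l8 a

theorem cup_T : CupGen ℂ T 1 := by
  intro α hα hd
  let c : Fin α.n → ℂ → ℝ := fun t => α.c t ∘ p
  let a : Fin α.n → ℂ → ℝ := fun t => α.a t 0 ∘ p
  have hc : ∀ t, ContDiff ℝ ∞ (c t) := fun t => up (hα t).1
  have ha : ∀ t, ContDiff ℝ ∞ (a t) := fun t => up ((hα t).2 0)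
  have ha' : ∀ t, ContDiff ℝ ∞ (fderiv ℝ (a t)) := fun t => (contDiff_infty_iff_fderiv.1 (ha t)).2
  let om : ℂ → ℂ →L[ℝ] ℝ := fun z => ∑ t, c t z • fderiv ℝ (a t) z
  have hom : ContDiff ℝ ∞ om := ContDiff.sum fun t _ => (hc t).smul (ha' t)
  have ev : ∀ z (v : Fin 1 → ℂ), α.ev ℂ (p z) v = om z (v 0) := by
    intro z v
    simp only [Form.ev, Matrix.det_unique, Matrix.of_apply, Fin.default_eq_zero, om, sum_apply,
      smul_apply, smul_eq_mul]
    refine Finset.sum_congr rfl fun t _ => ?_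
    rw [mvT ((hα t).2 0)]; rfl
  have sym : ∀ z u v, fderiv ℝ om z u v = fderiv ℝ om z v u := by
    intro z u v
    have h1 : HasFDerivAt om _ z := HasFDerivAt.fun_sum fun t _ =>
      ((hc t).differentiable (by simp) z).hasFDerivAt.fun_smul ((ha' t).differentiable (by simp) z).hasFDerivAt
    have h2 := hd (p z) ![u, v]
    have h3 : α.d.ev ℂ (p z) ![u, v] = ∑ t, (fderiv ℝ (c t) z u * fderiv ℝ (a t) z v - fderiv ℝ (c t) z v * fderiv ℝ (a t) z u) := by
      show ∑ t : Fin α.n, _ = _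
      refine Finset.sum_congr rfl fun t _ => ?_
      rw [← mvT (hα t).1, ← mvT (hα t).1, ← mvT ((hα t).2 0), ← mvT ((hα t).2 0)]
      simp [Form.d, Matrix.det_fin_two]
    have h4 : ∀ t, fderiv ℝ (fderiv ℝ (a t)) z u v = fderiv ℝ (fderiv ℝ (a t)) z v u := fun t =>
      ((ha t).contDiffAt.isSymmSndFDerivAt (by simp; exact ENat.LEInfty.out)) u v
    rw [h3] at h2
    rw [h1.fderiv, ← sub_eq_zero, ← h2]
    simp only [sum_apply, ← Finset.sum_sub_distrib]
    refine Finset.sum_congr rfl fun t _ => ?_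
    simp [h4 t]
  obtain ⟨F, hF⟩ := (convex_univ (𝕜 := ℝ) (E := ℂ)).exists_forall_hasFDerivAt_of_fderiv_symmetric isOpen_univ
    (hom.differentiable (by simp)).differentiableOn fun z _ => sym z
  replace hF : ∀ z, HasFDerivAt F (om z) z := fun z => hF z trivial
  have hFs : ContDiff ℝ ∞ F := contDiff_infty_iff_fderiv.2 ⟨fun z => (hF z).differentiableAt, by
    have : fderiv ℝ F = om := funext fun z => (hF z).fderiv
    rwa [this]⟩
  have per : ∀ l, p l = 0 → ∀ z, F (z + l) = F z + (F l - F 0) := by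
    intro l hl z
    have h1 : ∀ y, HasFDerivAt (fun y => F (y + l) - F y) (0 : ℂ →L[ℝ] ℝ) y := by
      intro y
      have e : om (y + l) = om y := by
        ext1 v
        have a1 := ev (y + l) (fun _ => v)
        have a2 := ev y (fun _ => v)
        rw [← a1, ← a2]
        have : p (y + l) = p y := by rw [p_add, hl, add_zero]
        exact congrArg (fun x => α.ev ℂ x (fun _ => v)) this
      have := ((hF (y + l)).comp y ((hasFDerivAt_id y).add_const l)).sub (hF y)
      rw [e] at this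
      exact this.congr_fderiv (by simp)
    have := is_const_of_fderiv_eq_zero (𝕜 := ℝ) (fun y => (h1 y).differentiableAt) (fun y => (h1 y).fderiv) z 0
    simp at this; linarith
  let c1 := F 1 - F 0
  let c2 := F Complex.I - F 0
  let G : ℂ → ℝ := fun z => F z - c1 * z.re - c2 * z.im
  have p1 : Function.Periodic G 1 := fun z => by
    simp only [G, per 1 (p_eq_zero.2 ⟨1, 0, by simp⟩) z, c1]; simp; ring
  have p2 : Function.Periodic G Complex.I := fun z => by
    simp only [G, per Complex.I (p_eq_zero.2 ⟨0, 1, by simp⟩) z, c2]; simp; ring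
  have hG : ∀ z, G (sec (p z)) = G z := by
    intro z
    obtain ⟨m, n, h⟩ := p_eq_zero.1 (show p (sec (p z) - z) = 0 by rw [p_sub, p_sec, sub_self])
    have : sec (p z) = z + m * 1 + n * Complex.I := by linear_combination h
    rw [this, p2.int_mul n, p1.int_mul m]
  have hGd : ∀ z, HasFDerivAt G (om z - c1 • Complex.reCLM - c2 • Complex.imCLM) z := fun z =>
    ((hF z).sub (Complex.reCLM.hasFDerivAt.const_mul c1)).sub (Complex.imCLM.hasFDerivAt.const_mul c2)
  let th0 : T → ℂ := fun x => Complex.exp (G (sec x) * Complex.I)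
  have th0_p : th0 ∘ p = fun z => Complex.exp (G z * Complex.I) := by funext z; simp only [th0, Function.comp_apply, hG]
  have th0_s : ContMDiff 𝓘(ℝ, ℂ) 𝓘(ℝ, ℂ) ∞ th0 := down (by
    rw [th0_p]
    exact cexp_sm ((hFs.sub (contDiff_const.mul Complex.reCLM.contDiff)).sub (contDiff_const.mul Complex.imCLM.contDiff)))
  refine ⟨3, ![1, c1 / (2 * Real.pi), c2 / (2 * Real.pi)], ![fun _ => th0, fun _ => th1, fun _ => th2], ?_, fun x v => ?_⟩
  · intro t i; fin_cases t
    · exact ⟨th0_s, fun _ => Complex.exp_ne_zero _⟩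
    · exact ⟨th1_s, fun _ => Circle.coe_ne_zero _⟩
    · exact ⟨th2_s, fun _ => Circle.coe_ne_zero _⟩
  · obtain ⟨z, rfl⟩ := p_surj x
    have a0 := ang_T th0_s th0_p (hGd z) (v 0)
    have a1 := ang_T th1_s th1_p (Complex.reCLM.hasFDerivAt.const_mul (2 * Real.pi) : HasFDerivAt _ _ z) (v 0)
    have a2 := ang_T th2_s th2_p (Complex.imCLM.hasFDerivAt.const_mul (2 * Real.pi) : HasFDerivAt _ _ z) (v 0)
    rw [ev z v]
    simp only [Fin.sum_univ_three, Matrix.det_unique, Matrix.of_apply, Fin.default_eq_zero, Matrix.cons_val_zero, Matrix.cons_val_one,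
      Matrix.cons_val_two, Matrix.head_cons, Matrix.tail_cons, a0, a1, a2]
    generalize (show ℂ from v 0) = w
    have := Real.pi_ne_zero
    simp
    field_simp
    ring

end Pool.Agent.P.MP_5c499f_an.TCat
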