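import Pool.Agent.P.MP_5c499f_an.TCat

/-! The plane as a regular cover of the two-torus, with the linear lift of the map
`(x, y) ↦ (x + y, x)`. -/

set_option autoImplicit false
set_option backward.isDefEq.respectTransparency false

namespace Pool.Agent.P.MP_5c499f_an.TCat

open Bundle Filter Topology Set
open scoped Manifold ContDiff goldenRatio

/-- the projection as a homomorphism -/
noncomputable def pH : ℂ →+ T := ⟨⟨p, p_zero⟩, p_add⟩

/-- the deck group -/
abbrev Lat : Type := Multiplicative pH.ker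

theorem lat_iso : IsIsometricSMul Lat ℂ :=
  ⟨fun g => Isometry.of_dist_eq fun x y => dist_add_left (g.toAdd : ℂ) x y⟩

theorem p_cov : IsQuotientCoveringMap p Lat := by
  have h1 : IsQuotientMap pH := p_lh.isOpenMap.isQuotientMap p_cont p_surj
  refine (h1.isAddQuotientCoveringMap_of_isDiscrete_ker_addMonoidHom ?_).toMultiplicative
  rw [isDiscrete_iff_forall_mem_exists_isOpen]
  intro z hz
  obtain ⟨U, hU, h0, hinj⟩ := p_lh.isLocallyInjective z
  refine ⟨U, hU, subset_antisymm (fun w hw => ?_) (singleton_subset_iff.2 ⟨h0, hz⟩)⟩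
  exact hinj hw.1 h0 ((show p w = 0 from hw.2).trans (show p z = 0 from hz).symm)

/-- the linear lift -/
noncomputable def lift : ℂ ≃ₜ ℂ where
  toFun := B 1 1 1 0
  invFun := B 0 1 1 (-1)
  left_inv z := by apply Complex.ext <;> simp [B_re, B_im]
  right_inv z := by apply Complex.ext <;> simp [B_re, B_im]
  continuous_toFun := (B _ _ _ _).continuous
  continuous_invFun := (B _ _ _ _).continuous

theorem lift_p (y : ℂ) : p (lift y) = catD (p y) := (cat_p y).symm

theorem dist_iter (L : ℂ →L[ℝ] ℂ) (n : ℕ) (x y : ℂ) :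
    dist (L^[n] x) (L^[n] y) = ‖L^[n] (x - y)‖ := by
  have : L^[n] (x - y) = L^[n] x - L^[n] y := by
    induction n with
    | zero => rfl
    | succ n ih => simp only [Function.iterate_succ_apply', ih, map_sub]
  rw [this, dist_eq_norm]

theorem asym_u (x y : ℂ) : Asym lift.symm x y ↔ (x - y).re = φ * (x - y).im := by
  rw [← decays_cat 0]
  exact (tendsto_congr fun n => dist_iter (B 0 1 1 (-1)) n x y).trans
    (tendsto_congr fun n => iter_md _ cat'_p cat'_c n 0 (x - y)).symm

theorem asym_s (x y : ℂ) : Asym lift x y ↔ (x - y).re = ψ * (x - y).im := by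
  refine (tendsto_congr fun n => dist_iter (B 1 1 1 0) n x y).trans ?_
  generalize x - y = w
  have h1 := Real.goldenRatio_add_goldenConj
  have h0 := Real.goldenRatio_mul_goldenConj
  constructor
  · intro h
    let ℓ : ℂ →L[ℝ] ℝ := Complex.reCLM - ψ • Complex.imCLM
    have hl : ∀ z, ℓ z = z.re - ψ * z.im := fun z => rfl
    have h2 : ∀ n : ℕ, ℓ ((B 1 1 1 0)^[n] w) = φ ^ n * ℓ w := by
      intro n
      induction n with
      | zero => simp
      | succ n ih =>
        rw [Function.iterate_succ_apply', pow_succ', mul_assoc, ← ih, hl, hl, B_re, B_im]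
        linear_combination (-((B 1 1 1 0)^[n] w).re) * h1 + ((B 1 1 1 0)^[n] w).im * h0
    have h3 : ∀ n : ℕ, |ℓ w| ≤ ‖ℓ‖ * ‖(B 1 1 1 0)^[n] w‖ := by
      intro n
      refine le_trans ?_ (ℓ.le_opNorm _)
      rw [h2, Real.norm_eq_abs, abs_mul, abs_pow, abs_of_pos Real.goldenRatio_pos]
      exact le_mul_of_one_le_left (abs_nonneg _) (one_le_pow₀ Real.one_lt_goldenRatio.le)
    have := ge_of_tendsto' (h.const_mul ‖ℓ‖) h3
    rw [mul_zero, abs_nonpos_iff, hl, sub_eq_zero] at this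
    exact this
  · intro h
    simp only [eig _ _ _ (st_eig h), abs_psi]
    simpa using (tendsto_pow_atTop_nhds_zero_of_lt_one (inv_pos.2 Real.goldenRatio_pos).le
      (inv_lt_one_of_one_lt₀ Real.one_lt_goldenRatio)).mul_const ‖w‖

theorem gps_cat (x y : ℂ) : ∃! w, Asym lift w x ∧ Asym lift.symm w y := by
  simp only [asym_s, asym_u]
  have e1 : (y + PU (x - y) - x).re = ψ * (y + PU (x - y) - x).im := by
    refine PU_ker ?_
    rw [show y + PU (x - y) - x = PU (x - y) - (x - y) by ring, map_sub, PU_idem, sub_self]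
  have e2 : (y + PU (x - y) - y).re = φ * (y + PU (x - y) - y).im := by
    rw [add_sub_cancel_left]
    exact PU_fix.1 (PU_idem _)
  refine ⟨y + PU (x - y), ⟨e1, e2⟩, fun w hw => ?_⟩
  generalize y + PU (x - y) = w' at e1 e2
  obtain ⟨a1, a2⟩ := hw
  simp only [Complex.sub_re, Complex.sub_im] at e1 e2 a1 a2
  have h5 := s5
  have him : w.im = w'.im := by
    linear_combination (w'.im - w.im) * h5 + (√5)⁻¹ * (a1 - a2 - e1 + e2)
  apply Complex.ext
  · linear_combination a1 - e1 + ψ * him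
  · exact him

theorem ed_cat (x y : ℂ) (hne : x ≠ y) (h : Asym lift.symm x y) :
    ∃ θ : ℝ, 1 < θ ∧ ∃ᶠ n : ℕ in atTop, θ ^ n ≤ dist (lift^[n] x) (lift^[n] y) := by
  have h1 : 1 < √φ := Real.lt_sqrt_of_sq_lt (by simpa using Real.one_lt_goldenRatio)
  refine ⟨√φ, h1, Eventually.frequently ?_⟩
  have h2 : 0 < ‖x - y‖ := norm_pos_iff.2 (sub_ne_zero.2 hne)
  filter_upwards [((tendsto_pow_atTop_atTop_of_one_lt h1).atTop_mul_const h2).eventually_ge_atTop 1]
    with n hn
  have h3 : dist (lift^[n] x) (lift^[n] y) = |φ| ^ n * ‖x - y‖ :=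
    (dist_iter (B 1 1 1 0) n x y).trans (eig _ _ _ (un_eig ((asym_u x y).1 h)) n)
  have h4 : |φ| ^ n = √φ ^ n * √φ ^ n := by
    rw [← mul_pow, Real.mul_self_sqrt Real.goldenRatio_pos.le, abs_of_pos Real.goldenRatio_pos]
  rw [h3, h4, mul_assoc]
  exact le_mul_of_one_le_right (by positivity) hn

theorem char_zero {N : Type*} [Group N]
    (h : ∀ (d : ℕ) (ρ : N →* GL (Fin d) ℂ), (range ρ).Finite) (l : N → ℝ)
    (hl : ∀ a b, l (a * b) = l a + l b) (g : N) : l g = 0 := by
  have l1 : l 1 = 0 := by simpa using hl 1 1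
  have lp : ∀ k : ℕ, l (g ^ k) = k * l g := fun k => by
    induction k with
    | zero => simpa using l1
    | succ k ih => rw [pow_succ, hl, ih]; push_cast; ring
  let e : N →* ℂˣ := MonoidHom.toHomUnits
    { toFun := fun a => Complex.exp (l a)
      map_one' := by simp [l1]
      map_mul' := fun a b => by simp [hl, Complex.exp_add] }
  let ρ : N →* GL (Fin 1) ℂ := (Units.map (Matrix.scalar (Fin 1) : ℂ →+* _).toMonoidHom).comp e
  have : Finite ρ.range := h 1 ρ
  obtain ⟨k, hk, h1⟩ := (isOfFinOrder_of_finite (⟨ρ g, g, rfl⟩ : ρ.range)).exists_pow_eq_one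
  have h2 : ρ (g ^ k) = 1 := by rw [map_pow]; exact congrArg Subtype.val h1
  have h3 : Complex.exp (l (g ^ k)) = 1 := congrArg (fun A : GL (Fin 1) ℂ => A.1 0 0) h2
  have h4 : Real.exp (l (g ^ k)) = 1 := by exact_mod_cast h3
  have h5 := (Real.exp_eq_one_iff _).1 h4
  rw [lp] at h5
  exact (mul_eq_zero.1 h5).resolve_left (by exact_mod_cast hk.ne')

theorem lat_triv (N : Subgroup Lat)
    (h : ∀ (d : ℕ) (ρ : N →* GL (Fin d) ℂ), (range ρ).Finite) : Subsingleton N := by
  refine subsingleton_of_forall_eq 1 fun g => ?_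
  exact Subtype.ext (Multiplicative.toAdd.injective (Subtype.ext (Complex.ext
    (char_zero h (fun a => (a.1.toAdd : ℂ).re) (fun a b => by simp) g)
    (char_zero h (fun a => (a.1.toAdd : ℂ).im) (fun a b => by simp) g))))

theorem inner_of_finite {N : Type*} [Group N] [Finite N] (Ψ : MulAut N) :
    ∃ k, 0 < k ∧ ∃ a, Ψ ^ k = MulAut.conj a := by
  obtain ⟨k, hk, h⟩ := (isOfFinOrder_of_finite Ψ).exists_pow_eq_one
  exact ⟨k, hk, 1, by rw [h, map_one]⟩

theorem finite_of_linear {Γ : Type*} [Group Γ] {d : ℕ} (ρ : Γ →* GL (Fin d) ℂ)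
    (hρ : ∀ g, ρ g = 1 → g = 1) (N : Subgroup Γ)
    (h : ∀ (d : ℕ) (ρ : N →* GL (Fin d) ℂ), (range ρ).Finite) : Finite N :=
  (finite_range_iff (((injective_iff_map_eq_one ρ).2 hρ).comp N.subtype_injective)).1
    (h d (ρ.comp N.subtype))

theorem finite_of_indicable {Γ : Type*} [Group Γ] (N : Subgroup Γ)
    (hi : (∃ g : N, g ≠ 1) → ∃ l : N → ℝ, (∀ a b, l (a * b) = l a + l b) ∧ ∃ g, l g ≠ 0)
    (h : ∀ (d : ℕ) (ρ : N →* GL (Fin d) ℂ), (range ρ).Finite) : Finite N := by
  have : Subsingleton N := subsingleton_of_forall_eq 1 fun g => by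
    by_contra hg
    obtain ⟨l, hl, a, ha⟩ := hi ⟨g, hg⟩
    exact ha (char_zero h l hl a)
  infer_instance

end Pool.Agent.P.MP_5c499f_an.TCat
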