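import Pool.Agent.P.MP_5c499f_an.TBa

/-! Linear recurrences with roots in the closed unit disc, and the contradiction on a disc. -/

set_option autoImplicit false

namespace Pool.Agent.P.MP_5c499f_an.TTor

open Filter Topology Metric MeasureTheory Polynomial

/-- The shift of sequences. -/
def shift : Module.End ℂ (ℕ → ℂ) where
  toFun a n := a (n + 1)
  map_add' _ _ := rfl
  map_smul' _ _ := rfl

lemma shift_pow (m : ℕ) (a : ℕ → ℂ) (n : ℕ) : (shift ^ m) a n = a (n + m) := by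
  induction m generalizing n with
  | zero => rfl
  | succ m ih => rw [pow_succ', Module.End.mul_apply]; exact (ih (n + 1)).trans (by congr 1; ring)

lemma step_bd {a : ℕ → ℂ} {l : ℂ} {ρ C : ℝ} (hl : ‖l‖ ≤ 1) (hρ : 1 < ρ)
    (hb : ∀ n, ‖a (n + 1) - l * a n‖ ≤ C * ρ ^ n) : ∃ C', ∀ n, ‖a n‖ ≤ C' * ρ ^ n := by
  refine ⟨max ‖a 0‖ (C / (ρ - 1)), fun n => ?_⟩
  induction n with
  | zero => simp
  | succ n ih =>
    have h1 : ‖a (n + 1)‖ ≤ ‖a (n + 1) - l * a n‖ + ‖l * a n‖ := norm_le_norm_sub_add _ _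
    have h2 : ‖l * a n‖ ≤ ‖a n‖ := by
      rw [norm_mul]; exact mul_le_of_le_one_left (norm_nonneg _) hl
    have h3 : C ≤ max ‖a 0‖ (C / (ρ - 1)) * (ρ - 1) :=
      (div_le_iff₀ (by linarith)).1 (le_max_right _ _)
    have h4 := mul_le_mul_of_nonneg_right h3 (pow_nonneg (by linarith : 0 ≤ ρ) n)
    have := hb n
    rw [pow_succ]
    nlinarith

lemma poly_bd {ρ : ℝ} (hρ : 1 < ρ) (a : ℕ → ℂ) (d : ℕ) : ∀ Q : ℂ[X], Q.natDegree = d → Q ≠ 0 →
    (∀ z : ℂ, 1 < ‖z‖ → Q.eval z ≠ 0) → (∃ C, ∀ n, ‖aeval shift Q a n‖ ≤ C * ρ ^ n) →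
    ∃ C, ∀ n, ‖a n‖ ≤ C * ρ ^ n := by
  induction d with
  | zero =>
    rintro Q h1 h2 - ⟨C₁, h4⟩
    obtain ⟨c, rfl⟩ := natDegree_eq_zero.1 h1
    have c0 : 0 < ‖c‖ := norm_pos_iff.2 fun e => h2 (by rw [e, map_zero])
    refine ⟨C₁ / ‖c‖, fun n => ?_⟩
    have := h4 n
    rw [aeval_C, Module.algebraMap_end_apply, Pi.smul_apply, norm_smul] at this
    rw [div_mul_eq_mul_div, le_div_iff₀' c0]
    exact this
  | succ d ih =>
    rintro Q h1 h2 h3 ⟨C₁, h4⟩
    obtain ⟨z, hz⟩ := IsAlgClosed.exists_root Q (by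
      rw [degree_eq_natDegree h2, h1]; exact_mod_cast d.succ_ne_zero)
    obtain ⟨R, rfl⟩ := dvd_iff_isRoot.2 hz
    have r0 : R ≠ 0 := right_ne_zero_of_mul h2
    rw [natDegree_mul (X_sub_C_ne_zero z) r0, natDegree_X_sub_C] at h1
    refine ih R (by omega) r0 (fun w hw e => h3 w hw (by rw [eval_mul, e, mul_zero]))
      (step_bd (l := z) (C := C₁) (not_lt.1 fun h => h3 z h hz) hρ fun n => ?_)
    have := h4 n
    rw [map_mul, map_sub, aeval_X, aeval_C, Module.End.mul_apply, LinearMap.sub_apply,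
      Module.algebraMap_end_apply] at this
    exact this

lemma rec_bd {P : ℝ[X]} (p0 : P ≠ 0) (p1 : ∀ z : ℂ, 1 < ‖z‖ → aeval z P ≠ 0) {K : ℕ}
    (k0 : 0 < K) {β : ℝ} (hβ : 1 < β) {a : ℕ → ℝ}
    (h : ∀ s : Fin K, ∃ C, ∀ n, |P.sum fun m c => c * a (K * n + s + m)| ≤ C * β ^ n) :
    ∃ C, ∀ n, |a (K * n)| ≤ C * β ^ n := by
  choose C₁ h using h
  obtain ⟨C₂, h2⟩ := Finite.exists_le C₁
  set ρ := β ^ ((K : ℝ)⁻¹)
  have r1 : 1 < ρ := Real.one_lt_rpow hβ (by positivity)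
  have r2 : ρ ^ K = β := Real.rpow_inv_natCast_pow (by linarith) k0.ne'
  have inj := (algebraMap ℝ ℂ).injective
  obtain ⟨C₃, h3⟩ := poly_bd r1 (fun n => (a n : ℂ)) _ (P.map (algebraMap ℝ ℂ)) rfl
    ((Polynomial.map_ne_zero_iff inj).2 p0)
    (fun z hz => by rw [eval_map_algebraMap]; exact p1 z hz) ⟨max C₂ 0, fun n => by
      have e1 : aeval shift (P.map (algebraMap ℝ ℂ)) (fun n => (a n : ℂ)) n =
          ((P.sum fun m c => c * a (n + m) : ℝ) : ℂ) := by
        rw [aeval_endomorphism, Polynomial.sum, Polynomial.sum, support_map_of_injective _ inj,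
          Finset.sum_apply]
        push_cast
        exact Finset.sum_congr rfl fun m _ => by
          rw [Pi.smul_apply, shift_pow, coeff_map]; rfl
      have e2 := h ⟨n % K, Nat.mod_lt n k0⟩ (n / K)
      simp only [Nat.div_add_mod] at e2
      rw [e1, Complex.norm_real, Real.norm_eq_abs]
      refine e2.trans (mul_le_mul ((h2 _).trans (le_max_left _ _)) ?_ (by positivity)
        (le_max_right _ _))
      rw [← r2, ← pow_mul]
      exact pow_le_pow_right₀ r1.le (Nat.mul_div_le n K)⟩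
  refine ⟨C₃, fun n => ?_⟩
  have := h3 (K * n)
  rwa [Complex.norm_real, Real.norm_eq_abs, pow_mul, r2] at this

theorem no_small_d {u : ℕ} {B K : Set (XX u)} {χ : XX u → ℝ} {H : ℝ} (hc : Cut B K χ)
    (hK : IsPreconnected K) (h0 : ∀ b, 0 ≤ χ b) {K' : Set (XX u)}
    (h1 : MeasurableSet K') (h2 : K' ⊆ K) (h3 : ∀ b ∈ K', χ b = 1) {P : ℕ → XX u → ℝ}
    (hPc : ∀ n, ContinuousOn (P n) K)
    (h6 : ∀ᶠ n in atTop, ∀ b ∈ K, P n b ≠ 0) {c₀ q : ℝ} (hc₀ : 0 < c₀) (hH : 0 < H) (hq : 0 < q)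
    (hq' : q < 1)
    (h7 : ∀ᶠ n in atTop, ENNReal.ofReal (c₀ * H ^ n) ≤ ∫⁻ b in K', ENNReal.ofReal |P n b|)
    (h8 : ∃ C', ∀ n, |∫ b in K, χ b * P n b| ≤ C' * (q * H) ^ n) : False := by
  obtain ⟨C', hC'⟩ := h8
  have hKm : MeasurableSet K := hc.cpt.measurableSet
  have hχ : ContinuousOn χ K := hc.c1.continuous.continuousOn
  have hlim : Tendsto (fun n : ℕ => C' * q ^ n) atTop (𝓝 0) := by
    simpa using (tendsto_pow_atTop_nhds_zero_of_lt_one hq.le hq').const_mul C'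
  obtain ⟨n, ⟨a6, a7⟩, a8⟩ := ((h6.and h7).and (hlim.eventually (gt_mem_nhds hc₀))).exists
  have e2 : ∫ b in K, χ b * |P n b| ≤ |∫ b in K, χ b * P n b| := by
    rcases XFinX.sign hK (hPc n) a6 with s | s
    · refine le_trans (le_of_eq ?_) (le_abs_self _)
      exact setIntegral_congr_fun hKm fun b hb => by simp only [abs_of_nonneg (s b hb)]
    · refine le_trans (le_of_eq ?_) (neg_le_abs _)
      rw [← integral_neg]
      exact setIntegral_congr_fun hKm fun b hb => by simp only [abs_of_nonpos (s b hb), mul_neg]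
  have hint : IntegrableOn (fun b => χ b * |P n b|) K :=
    ContinuousOn.integrableOn_compact hc.cpt (hχ.mul (hPc n).abs)
  have e3 : ∫⁻ b in K', ENNReal.ofReal |P n b| ≤ ENNReal.ofReal (∫ b in K, χ b * |P n b|) := by
    rw [ofReal_integral_eq_lintegral_ofReal hint
      (Eventually.of_forall fun b => mul_nonneg (h0 b) (abs_nonneg _))]
    refine le_trans (le_of_eq ?_) (lintegral_mono_set h2)
    exact setLIntegral_congr_fun h1 fun b hb => by simp only [h3 b hb, one_mul]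
  have e4 : c₀ * H ^ n ≤ ∫ b in K, χ b * |P n b| :=
    (ENNReal.ofReal_le_ofReal_iff
      (integral_nonneg fun b => mul_nonneg (h0 b) (abs_nonneg _))).1 (a7.trans e3)
  have e5 := hC' n
  rw [mul_pow, ← mul_assoc] at e5
  have e6 := mul_lt_mul_of_pos_right a8 (pow_pos hH n)
  linarith

theorem int_comb {u : ℕ} {B K : Set (XX u)} {χ : XX u → ℝ} (hc : Cut B K χ) {ι : Type*}
    (s : Finset ι) (c : ι → ℝ) {T : ι → XX u → ℝ} (hT : ∀ t, ContinuousOn (T t) K) :
    ∑ t ∈ s, c t * ∫ b in K, χ b * T t b = ∫ b in K, χ b * ∑ t ∈ s, c t * T t b := by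
  simp only [← integral_const_mul]
  rw [← integral_finsetSum]
  · refine setIntegral_congr_fun hc.cpt.measurableSet fun b _ => ?_
    simp only [Finset.mul_sum]
    exact Finset.sum_congr rfl fun t _ => by ring
  · intro t _
    exact ContinuousOn.integrableOn_compact hc.cpt
      (continuousOn_const.mul (hc.c1.continuous.continuousOn.mul (hT t)))

end Pool.Agent.P.MP_5c499f_an.TTor
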