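import Pool.Agent.P.MP_5c499f_an.TBb
import Pool.Agent.P.MP_5c499f_an.TDb
import Pool.Agent.P.MP_5c499f_an.DDefs

/-! Pull-backs of forms by the iterates, read along discs in the universal cover. -/

set_option autoImplicit false

namespace Pool.Agent.P.MP_5c499f_an.TTor

open Bundle Filter Topology Law
open scoped Manifold ContDiff Matrix

section

variable {E : Type*} [NormedAddCommGroup E] [NormedSpace ℝ E] [FiniteDimensional ℝ E]
  {M : Type*} [MetricSpace M] [CompactSpace M] [ChartedSpace E M] [IsManifold 𝓘(ℝ, E) ∞ M]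
  {N : ℕ} {e : M → VV N} {r : VV N → M} {U : Set (VV N)}
  [RiemannianBundle fun x : M => TangentSpace 𝓘(ℝ, E) x]
  [IsContinuousRiemannianBundle E fun x : M => TangentSpace 𝓘(ℝ, E) x]

theorem cupD (h : Emb E e r U) {u : ℕ} {Z : Type*} [TopologicalSpace Z] {q : Z → M}
    (hq : IsLocalHomeomorph q) {f : M → M} (hf : ContMDiff 𝓘(ℝ, E) 𝓘(ℝ, E) 1 f)
    (hc : CupDyn E f q u) {Y : Type*} [TopologicalSpace Y] {p : Y → M}
    (hp : Continuous p) {ℓ : Y → Z} (l0 : Continuous ℓ) (l1 : ∀ y, q (ℓ y) = p y)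
    {G₀ : Y → Y} (pG : ∀ n y, p (G₀^[n] y) = f^[n] (p y)) : CupAmbD e r U p G₀ u := by
  intro w w1 w2
  set Q := (Fintype.equivFin (Fin u → Fin N)).symm
  have cr : ∀ (p : Fin N) x v, mvfderiv 𝓘(ℝ, E) (crd p ∘ e) x v =
      crd p (mvfderiv 𝓘(ℝ, E) e x v) := fun p x v => by
    rw [XFormX.comp_De h (crd p).contDiff, ContinuousLinearMap.fderiv]
  obtain ⟨P, m, c, θ, β, K, P0, P1, t1, t3, t2⟩ := hc ⟨_, fun t => w (Q t) ∘ e, fun t i => crd (Q t i) ∘ e⟩
    (fun t => ⟨(w1 _).contMDiff.comp h.smooth, fun i => (crd _).contDiff.contMDiff.comp h.smooth⟩)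
    fun x v => by
      rw [← w2 x fun j => mvfderiv 𝓘(ℝ, E) e x (v j), ← Q.sum_comp]
      refine Finset.sum_congr rfl fun t _ => (one_mul _).trans (congrArg Matrix.det ?_)
      ext i j
      refine Fin.cases ?_ (fun i => ?_) i
      · exact XFormX.comp_De h (w1 _) x _
      · exact cr _ x _
  obtain ⟨R, K', k0, -, -, r2, r3, -⟩ := h.exists_DR
  choose s s1 s2 s3 using fun y => loc_sec hq (ℓ y) (l1 y)
  have s4 : ∀ y, ∀ᶠ y' in 𝓝 y, s y (p y') = ℓ y' := fun y =>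
    (l0.continuousAt.eventually (s3 y)).mono fun y' e => by rw [← l1, e]
  have key : ∀ t i (τ : XX u → Y) (B : Set (XX u)), IsOpen B → ContinuousOn τ B →
      ContDiffOn ℝ 1 ((e ∘ p) ∘ τ) B → ∀ b ∈ B, ContDiffAt ℝ 1 ((β t i ∘ ℓ) ∘ τ) b ∧
        ∀ v, fderiv ℝ ((β t i ∘ ℓ) ∘ τ) b v = mvfderiv 𝓘(ℝ, E) (β t i ∘ s (τ b)) (p (τ b))
          (R (p (τ b)) (fderiv ℝ ((e ∘ p) ∘ τ) b v)) := by
    intro t i τ B b1 b2 b3 b hb
    obtain ⟨a1, a2⟩ := at_De h ((t2 _ _ (s1 (τ b)) (s2 (τ b))).1 t i).1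
    have d1 := b3.contDiffAt (b1.mem_nhds hb)
    have d2 := d1.differentiableAt one_ne_zero
    have e0 : (β t i ∘ ℓ) ∘ τ =ᶠ[𝓝 b] ((β t i ∘ s (τ b)) ∘ r) ∘ ((e ∘ p) ∘ τ) :=
      ((b2.continuousAt (b1.mem_nhds hb)).eventually (s4 (τ b))).mono fun b' e => by
        simp only [Function.comp_apply, h.ret, e]
    refine ⟨(a1.comp b d1).congr_of_eventuallyEq e0, fun v => ?_⟩
    rw [e0.fderiv_eq, fderiv_comp b (a1.differentiableAt one_ne_zero) d2, ← a2, r2]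
    exact congrArg _ (tangent h (σ := p ∘ τ) d2 v).symm
  refine ⟨P, m, c, θ, fun t i => β t i ∘ ℓ, P0, P1,
    fun t i => ⟨h.contDiffOn ((t1 t i).1.of_le (by simp)), (t1 t i).2⟩,
    fun t i => ⟨⟨continuous_iff_continuousAt.2 fun y => ?_, max K 0 * K', fun τ B b1 b2 b3 =>
      ⟨fun b hb => (key t i τ B b1 b2 b3 b hb).1.contDiffWithinAt, fun b hb v => ?_⟩⟩,
      K, fun y => t3 t i _⟩, fun τ B b1 b2 b3 b hb => ?_⟩
  · refine (((t2 _ _ (s1 y) (s2 y)).1 t i).1.continuousAt.comp hp.continuousAt).congr ?_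
    exact (s4 y).mono fun y' e => congrArg (β t i) e
  · rw [(key t i τ B b1 b2 b3 b hb).2, mul_assoc]
    exact (((t2 _ _ (s1 (τ b)) (s2 (τ b))).1 t i).2 _).trans
      ((mul_le_mul_of_nonneg_right (le_max_left _ _) (norm_nonneg _)).trans
        (mul_le_mul_of_nonneg_left (r3 _ _) (le_max_right _ _)))
  have d2 := (b3.contDiffAt (b1.mem_nhds hb)).differentiableAt one_ne_zero
  have e1 := fun j => (r2 _ (fderiv ℝ ((e ∘ p) ∘ τ) b (bas u j))).trans
    (tangent h (σ := p ∘ τ) d2 _)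
  refine Eq.trans ?_ (((t2 _ _ (s1 (τ b)) (s2 (τ b))).2 fun j =>
    R (p (τ b)) (fderiv ℝ ((e ∘ p) ∘ τ) b (bas u j))).trans ?_)
  · refine Finset.sum_congr rfl fun n _ => congrArg _ ?_
    have f1 : ContMDiff 𝓘(ℝ, E) 𝓘(ℝ, VV N) 1 (e ∘ f^[n]) :=
      (h.smooth.of_le (by simp)).comp (hf.iterate n)
    have f2 : (e ∘ p) ∘ (G₀^[n] ∘ τ) = ((e ∘ f^[n]) ∘ r) ∘ ((e ∘ p) ∘ τ) := funext fun b => by
      simp only [Function.comp_apply, h.ret, pG]
    have f3 : ∀ j, fderiv ℝ ((e ∘ p) ∘ (G₀^[n] ∘ τ)) b (bas u j) = mvfderiv 𝓘(ℝ, E) e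
        (f^[n] (p (τ b))) (mfderiv 𝓘(ℝ, E) 𝓘(ℝ, E) f^[n] (p (τ b))
          (R (p (τ b)) (fderiv ℝ ((e ∘ p) ∘ τ) b (bas u j)))) := fun j => by
      rw [f2, fderiv_comp b (((h.contDiffOn f1).contDiffAt
        (h.op.mem_nhds (h.sub (p (τ b))))).differentiableAt one_ne_zero) d2]
      refine Eq.trans (congrArg (Dm e r (e ∘ f^[n]) (p (τ b))) (e1 j).symm)
        ((h.Dm_De f1 _ _).trans ?_)
      exact mfderiv_comp_apply _ (h.smooth.mdifferentiable (by simp) _)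
        ((hf.iterate n).mdifferentiable one_ne_zero _) _
    rw [PsiW, ← Q.sum_comp, pG]
    refine Finset.sum_congr rfl fun t _ => congrArg _ (congrArg Matrix.det ?_)
    ext i j
    exact ((cr _ _ _).trans (congrArg _ (f3 j).symm)).symm
  · refine Finset.sum_congr rfl fun t _ => congrArg _ (congrArg Matrix.det ?_)
    ext i j
    simp only [Matrix.of_apply, ang]
    rw [(key t i τ B b1 b2 b3 b hb).2, ← h.Dm_De ((t1 t i).1.of_le (by simp))]
    exact congrArg (fun z => (Dm e r (θ t i) (p (τ b)) z / θ t i (p (τ b))).im + _) (e1 j)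

end

theorem dyn_torus {E : Type*} [NormedAddCommGroup E] [NormedSpace ℝ E] [FiniteDimensional ℝ E]
    {M : Type*} [TopologicalSpace M] [T2Space M] [CompactSpace M] [ConnectedSpace M]
    [ChartedSpace E M] [IsManifold 𝓘(ℝ, E) ∞ M]
    [RiemannianBundle fun x : M => TangentSpace 𝓘(ℝ, E) x]
    [IsContinuousRiemannianBundle E fun x : M => TangentSpace 𝓘(ℝ, E) x]
    (f : Diffeomorph 𝓘(ℝ, E) 𝓘(ℝ, E) M M 1) (hf : IsAnosov E f)
    (nw : ∀ U : Set M, IsOpen U → U.Nonempty → ∃ n, 0 < n ∧ (f^[n] '' U ∩ U).Nonempty)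
    {k : ℕ} (ho : Oriented E f.symm k) {Z : Type*} [TopologicalSpace Z] {q : Z → M}
    (hq : IsCoveringMap q) (sq : Function.Surjective q) (hc : CupDyn E f q k) :
    ∃ (m : ℕ) (A : Matrix (Fin m) (Fin m) ℤ) (h : M ≃ₜ (Fin m → UnitAddCircle)), IsUnit A.det ∧
      (∀ z : ℂ, ‖z‖ = 1 → Polynomial.aeval z A.charpoly ≠ 0) ∧
      ∀ x i, h (f x) i = ∑ j, A i j • h x j := by
  obtain ⟨n, e, e1, e2, e3⟩ := exists_embedding_euclidean_of_compact (I := 𝓘(ℝ, E)) (M := M)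
  let _ := e2.isEmbedding.comapMetricSpace e
  have he : ∀ x y : M, dist x y = ‖e x - e y‖ := fun x y => dist_eq_norm (e x) (e y)
  obtain ⟨r, U, em⟩ := exists_emb he e1 e3
  obtain ⟨α, a1, a2⟩ := ho
  choose v v1 v2 using a2
  obtain ⟨Pr, Io, C₀, b1, b2⟩ := exists_amb em f hf fun x => ⟨v x, Form.indep (v1 x), v2 x⟩
  obtain ⟨⟨σ, C₁, loc⟩, b3⟩ := core'' he (e1.of_le (by simp)) e3 f hf
  obtain ⟨K, k0, ⟨a, A⟩, a', b', Λ, Λ', hy, sh⟩ := ((eventually_gt_atTop 0).and (b2.and b3)).exists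
  have := ChartedSpace.locallyPathConnectedSpace E M
  have : PathConnectedSpace M := pathConnectedSpace_iff_connectedSpace.2 inferInstance
  obtain ⟨x₀⟩ : Nonempty M := inferInstance
  obtain ⟨G, Φ, g1, g2, g3, g4⟩ := loc.lift f.toHomeomorph x₀
  have := Cov.simplyConn (h := loc) (x₀ := x₀)
  have := (Cov.isCov (h := loc) (x₀ := x₀)).locPath
  have surj : Function.Surjective (Cov.pt : Cov loc x₀ → M) := Cov.quot.surjective
  obtain ⟨T, t1, t2⟩ := Cov.isCov.fg Cov.dist_smul Cov.smul_pt Cov.free Cov.transitive surj _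
    fun _ => Cov.reach'
  obtain ⟨y₀⟩ : Nonempty (Cov loc x₀) := inferInstance
  obtain ⟨z₀, hz⟩ := sq (Cov.pt y₀)
  obtain ⟨ℓ, ⟨-, l1⟩, -⟩ := hq.existsUnique_continuousMap_lifts
    (⟨Cov.pt, Cov.isCov.continuous⟩ : C(Cov loc x₀, M)) y₀ z₀ hz
  have pG : ∀ (n : ℕ) (y : Cov loc x₀), Cov.pt (G^[n] y) = f^[n] (Cov.pt y) := fun n =>
    Function.Semiconj.iterate_right (f := Cov.pt) g1 n
  obtain ⟨gps, d, A', c1, c2⟩ := top_d (F := G ^ K) (Φ := Φ ^ K) A Cov.isCov Cov.dist_smul Cov.smul_pt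
    Cov.free Cov.transitive surj
    (fun y => by simpa using semiconj_zpow (F := f.toEquiv) g1 K y)
    (by simpa using uc_zpow g2 g3 K) (by simpa using uc_zpow g2 g3 (-K))
    (fun γ y => by simpa using equiv_zpow (act := fun γ y => γ • y) g4 K γ y) hy
    (mix_of_nw f.continuous f.symm.continuous k0 hy sh nw) t1 t2
    (fun t => em.contDiffOn ((a1 t).1.of_le (by simp)))
    (fun t i => em.contDiffOn (((a1 t).2 i).of_le (by simp)))
    (fun x => em.ori a1 (v1 x) fun j => (b1 x _).1 ((v2 x _).2 (Submodule.subset_span ⟨j, rfl⟩)))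
    (f₀ := f) (G₀ := G) (Φ₀ := Φ) k0 (fun y => by rw [Equiv.Perm.coe_pow]) g2.continuous
    (fun n => em.contDiffOn (φ := e ∘ f^[n]) ((e1.of_le (by simp)).comp (f.contMDiff.iterate n)))
    pG (fun n γ y => by
      simpa [← Equiv.Perm.coe_pow] using equiv_zpow (act := fun γ y => γ • y) g4 n γ y)
    (cupD em hq.isLocalHomeomorph f.contMDiff hc Cov.isCov.continuous ℓ.continuous (congrFun l1) pG)
  obtain ⟨m, ε, hε⟩ := exists_coord t1 t2 c1 c2
  have : IsIsometricSMul (FundamentalGroup M x₀) (Cov loc x₀) :=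
    ⟨fun γ => Isometry.of_dist_eq (Cov.dist_smul γ)⟩
  have gp : ∀ x y, ∃! w, Asym G w x ∧ Asym (G⁻¹ : Equiv.Perm _) w y := fun x y => by
    have := gps x y
    simp only [← inv_pow, Equiv.Perm.coe_pow, Asym.of_pow g2 k0, Asym.of_pow g3 k0] at this
    exact this
  obtain ⟨Ψ, ρ, o, D, gl⟩ := gps_of_anosov f hf Cov.quot ⟨G, g2.continuous, g3.continuous⟩ g1
    fun x y => (gp x y).exists
  exact ⟨m, gps_torus D (gl fun x y _ _ => (gp x y).unique) ε hε Cov.quot g1⟩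

theorem dyn_infranil {E : Type*} [NormedAddCommGroup E] [NormedSpace ℝ E] [FiniteDimensional ℝ E]
    {M : Type*} [TopologicalSpace M] [T2Space M] [CompactSpace M] [ConnectedSpace M]
    [ChartedSpace E M] [IsManifold 𝓘(ℝ, E) ∞ M]
    [RiemannianBundle fun x : M => TangentSpace 𝓘(ℝ, E) x]
    [IsContinuousRiemannianBundle E fun x : M => TangentSpace 𝓘(ℝ, E) x]
    (f : Diffeomorph 𝓘(ℝ, E) 𝓘(ℝ, E) M M 1) (hf : IsAnosov E f)
    (nw : ∀ U : Set M, IsOpen U → U.Nonempty → ∃ n, 0 < n ∧ (f^[n] '' U ∩ U).Nonempty)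
    {k : ℕ} (ho : Oriented E f.symm k) {Z : Type*} [TopologicalSpace Z] {q : Z → M}
    (hq : IsCoveringMap q) (sq : Function.Surjective q) (hc : CupDyn E f q k) :
    InfranilConj f := by
  obtain ⟨n, e, e1, e2, e3⟩ := exists_embedding_euclidean_of_compact (I := 𝓘(ℝ, E)) (M := M)
  let _ := e2.isEmbedding.comapMetricSpace e
  have he : ∀ x y : M, dist x y = ‖e x - e y‖ := fun x y => dist_eq_norm (e x) (e y)
  obtain ⟨r, U, em⟩ := exists_emb he e1 e3
  obtain ⟨α, a1, a2⟩ := ho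
  choose v v1 v2 using a2
  obtain ⟨Pr, Io, C₀, b1, b2⟩ := exists_amb em f hf fun x => ⟨v x, Form.indep (v1 x), v2 x⟩
  obtain ⟨⟨σ, C₁, loc⟩, b3⟩ := core'' he (e1.of_le (by simp)) e3 f hf
  obtain ⟨K, k0, ⟨a, A⟩, a', b', Λ, Λ', hy, sh⟩ := ((eventually_gt_atTop 0).and (b2.and b3)).exists
  have := ChartedSpace.locallyPathConnectedSpace E M
  have : PathConnectedSpace M := pathConnectedSpace_iff_connectedSpace.2 inferInstance
  obtain ⟨x₀⟩ : Nonempty M := inferInstance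
  obtain ⟨G, Φ, g1, g2, g3, g4⟩ := loc.lift f.toHomeomorph x₀
  have := Cov.simplyConn (h := loc) (x₀ := x₀)
  have := (Cov.isCov (h := loc) (x₀ := x₀)).locPath
  have surj : Function.Surjective (Cov.pt : Cov loc x₀ → M) := Cov.quot.surjective
  obtain ⟨T, t1, t2⟩ := Cov.isCov.fg Cov.dist_smul Cov.smul_pt Cov.free Cov.transitive surj _
    fun _ => Cov.reach'
  obtain ⟨y₀⟩ : Nonempty (Cov loc x₀) := inferInstance
  obtain ⟨z₀, hz⟩ := sq (Cov.pt y₀)
  obtain ⟨ℓ, ⟨-, l1⟩, -⟩ := hq.existsUnique_continuousMap_lifts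
    (⟨Cov.pt, Cov.isCov.continuous⟩ : C(Cov loc x₀, M)) y₀ z₀ hz
  have pG : ∀ (n : ℕ) (y : Cov loc x₀), Cov.pt (G^[n] y) = f^[n] (Cov.pt y) := fun n =>
    Function.Semiconj.iterate_right (f := Cov.pt) g1 n
  obtain ⟨gps, d, A', c1, c2⟩ := top_d (F := G ^ K) (Φ := Φ ^ K) A Cov.isCov Cov.dist_smul Cov.smul_pt
    Cov.free Cov.transitive surj
    (fun y => by simpa using semiconj_zpow (F := f.toEquiv) g1 K y)
    (by simpa using uc_zpow g2 g3 K) (by simpa using uc_zpow g2 g3 (-K))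
    (fun γ y => by simpa using equiv_zpow (act := fun γ y => γ • y) g4 K γ y) hy
    (mix_of_nw f.continuous f.symm.continuous k0 hy sh nw) t1 t2
    (fun t => em.contDiffOn ((a1 t).1.of_le (by simp)))
    (fun t i => em.contDiffOn (((a1 t).2 i).of_le (by simp)))
    (fun x => em.ori a1 (v1 x) fun j => (b1 x _).1 ((v2 x _).2 (Submodule.subset_span ⟨j, rfl⟩)))
    (f₀ := f) (G₀ := G) (Φ₀ := Φ) k0 (fun y => by rw [Equiv.Perm.coe_pow]) g2.continuous
    (fun n => em.contDiffOn (φ := e ∘ f^[n]) ((e1.of_le (by simp)).comp (f.contMDiff.iterate n)))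
    pG (fun n γ y => by
      simpa [← Equiv.Perm.coe_pow] using equiv_zpow (act := fun γ y => γ • y) g4 n γ y)
    (cupD em hq.isLocalHomeomorph f.contMDiff hc Cov.isCov.continuous ℓ.continuous (congrFun l1) pG)
  obtain ⟨ρ, hρ⟩ := exists_rep c1 c2
  have : IsIsometricSMul (FundamentalGroup M x₀) (Cov loc x₀) :=
    ⟨fun γ => Isometry.of_dist_eq (Cov.dist_smul γ)⟩
  refine gps_linear_deck f hf Cov.quot ⟨G, g2.continuous, g3.continuous⟩ g1 (fun x y => ?_) ρ hρ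
  have := gps x y
  simp only [← inv_pow, Equiv.Perm.coe_pow, Asym.of_pow g2 k0, Asym.of_pow g3 k0] at this
  exact this

theorem dyn_of_bdd {E : Type*} [NormedAddCommGroup E] [NormedSpace ℝ E] {M : Type*}
    [TopologicalSpace M] [ChartedSpace E M]
    [RiemannianBundle fun x : M => TangentSpace 𝓘(ℝ, E) x] {k : ℕ} {Z : Type*}
    [TopologicalSpace Z] {q : Z → M} (hc : CupBdd E q k) (f : M → M) : CupDyn E f q k :=
  fun α a1 a2 => by
  obtain ⟨m, c, θ, b, K, t1, t2, t3⟩ := hc α a1 a2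
  refine ⟨1, m, c, θ, b, K, one_ne_zero, fun z _ => by simp, t1, t2, fun x s s1 s2 =>
    ⟨(t3 x s s1 s2).1, fun v => Eq.trans ?_ ((t3 x s s1 s2).2 v)⟩⟩
  rw [← Polynomial.C_1, Polynomial.sum_C_index (by exact zero_mul _), one_mul]
  simp only [Function.iterate_zero, mfderiv_id]
  rfl

theorem dyn_of_periodic {E : Type*} [NormedAddCommGroup E] [NormedSpace ℝ E] {M : Type*}
    [TopologicalSpace M] [ChartedSpace E M]
    [RiemannianBundle fun x : M => TangentSpace 𝓘(ℝ, E) x] {f : M → M} {N : ℕ} (hN : 0 < N)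
    (hf : f^[N] = id) {Z : Type*} [TopologicalSpace Z] (q : Z → M) (k : ℕ) : CupDyn E f q k :=
  fun α _ _ => by
  refine ⟨Polynomial.X ^ N - Polynomial.C 1, 0, 0, Fin.elim0, Fin.elim0, 0,
    Polynomial.X_pow_sub_C_ne_zero hN 1, fun z hz => ?_, fun t => t.elim0, fun t => t.elim0,
    fun x s _ _ => ⟨fun t => t.elim0, fun v => ?_⟩⟩
  · have := one_lt_pow₀ hz hN.ne'
    rw [← norm_pow] at this
    simp only [map_sub, map_pow, Polynomial.aeval_X, map_one, sub_ne_zero]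
    exact fun e => by simp [e] at this
  · have e0 : ∀ g : M → M, g = id →
        (α.ev E (g x) fun j => mfderiv 𝓘(ℝ, E) 𝓘(ℝ, E) g x (v j)) = α.ev E x v := by
      rintro _ rfl
      simp only [mfderiv_id]
      rfl
    rw [sub_eq_add_neg, ← map_neg, Polynomial.X_pow_eq_monomial,
      Polynomial.sum_add_index _ _ _ (fun _ => zero_mul _) (fun _ _ _ => add_mul _ _ _),
      Polynomial.sum_monomial_index _ _ (by exact zero_mul _),
      Polynomial.sum_C_index (by exact zero_mul _), e0 _ hf, e0 _ (Function.iterate_zero f)]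
    simp

end Pool.Agent.P.MP_5c499f_an.TTor
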