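import Pool.Agent.P.MP_5c499f_an.Defs

/-! The identity of a space with two points is not conjugate to a hyperbolic infranilmanifold
automorphism. -/

set_option autoImplicit false
set_option backward.isDefEq.respectTransparency false
set_option linter.unusedSimpArgs false

namespace Pool.Agent.P.MP_5c499f_an.TNot

open Bundle Filter Topology Set
open scoped Manifold ContDiff

theorem orb_eq {N : Type} [Group N] (Γ : Subgroup (AffGp N)) {n n' : N}
    (h : (Quot.mk _ n : OrbitSp Γ) = Quot.mk _ n') : ∃ γ ∈ Γ, n = γ.left * γ.right n' := by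
  have eqv : Equivalence fun n n' : N => ∃ γ ∈ Γ, n = γ.left * γ.right n' := by
    refine ⟨fun n => ⟨1, Γ.one_mem, by simp⟩, ?_, ?_⟩
    · rintro x y ⟨γ, hγ, rfl⟩
      exact ⟨γ⁻¹, Γ.inv_mem hγ, by simp⟩
    · rintro x y z ⟨γ, hγ, rfl⟩ ⟨δ, hδ, rfl⟩
      exact ⟨γ * δ, Γ.mul_mem hγ hδ, by simp [mul_assoc]⟩
  exact eqv.eqvGen_iff.1 (Quot.eqvGen_exact h)

theorem not_conj_id {M : Type*} [TopologicalSpace M] [Nontrivial M] : ¬ InfranilConj (id : M → M) := by
  rintro ⟨m, N, _, _, _, ⟨hL, hT, hS, hc, -, -⟩, Γ, α, ⟨C, hC, hCs, hΓ, -, hdisc, -⟩, ⟨hA, -, hyp⟩, -, h, hh⟩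
  have : IsTopologicalGroup N := topologicalGroup_of_lieGroup 𝓘(ℝ, Fin m → ℝ) ∞
  have : LocallyCompactSpace N := ChartedSpace.locallyCompactSpace (Fin m → ℝ) N
  have hcount : (Γ : Set (AffGp N)).Countable := by
    refine (countable_iUnion fun k => (hdisc _ (isCompact_compactCovering N k)).countable).mono fun γ hγ => ?_
    obtain ⟨k, hk⟩ := exists_mem_compactCovering γ.left
    exact mem_iUnion.2 ⟨k, hγ, hk⟩
  have := hcount.to_subtype
  have cov : ⋃ γ : (Γ : Set (AffGp N)), {n : N | n = γ.1.left * γ.1.right (α.left * α.right n)} = univ := by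
    refine eq_univ_of_forall fun n => ?_
    have h1 := hh (h.symm (Quot.mk _ n)) n (by simp)
    obtain ⟨γ, hγ, e⟩ := orb_eq Γ (n := n) (n' := α.left * α.right n) (by simpa using h1)
    exact mem_iUnion.2 ⟨⟨γ, hγ⟩, e⟩
  obtain ⟨γ, n0, hn0⟩ := nonempty_interior_of_iUnion_of_closed (fun γ => isClosed_eq continuous_id
    (continuous_const.mul ((hCs _ (hΓ _ γ.2)).continuous.comp (continuous_const.mul hA.continuous)))) cov
  let B : MulAut N := γ.1.right * α.right
  let H : Subgroup N := B.toMonoidHom.eqLocus (MonoidHom.id N)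
  have hH : (H : Set N) ∈ 𝓝 1 := by
    have h1 := mem_interior_iff_mem_nhds.1 hn0
    have h2 : ContinuousAt (fun n => n0 * n) 1 := by fun_prop
    have h0 : n0 = _ := (interior_subset hn0 : n0 ∈ {n : N | n = _})
    filter_upwards [h2 (by simpa using h1)] with n hn
    have hn' : n0 * n = γ.1.left * γ.1.right (α.left * α.right (n0 * n)) := by rw [map_mul]; exact hn
    have : n0 * n = n0 * B n := by
      rw [hn']; conv_rhs => rw [h0]
      simp [B, mul_assoc]
    exact (mul_left_cancel this).symm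
  have hop := H.isOpen_of_mem_nhds hH
  have hall : (H : Set N) = univ := (IsClopen.eq_univ ⟨H.isClosed_of_isOpen hop, hop⟩ ⟨1, H.one_mem⟩)
  have hB : B = 1 := by
    ext n; have : n ∈ (H : Set N) := by rw [hall]; trivial
    exact this
  have hAC : α.right ∈ C := by
    rw [eq_inv_of_mul_eq_one_right hB]; exact C.inv_mem (hΓ _ γ.2)
  obtain ⟨k, hk, hk1⟩ : ∃ k, 0 < k ∧ α.right ^ k = 1 := by
    obtain ⟨k, hk, h1⟩ := (isOfFinOrder_of_finite (⟨_, hAC⟩ : C)).exists_pow_eq_one
    exact ⟨k, hk, congrArg Subtype.val h1⟩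
  have hpow : ∀ j : ℕ, diffOne (Fin m → ℝ) (α.right ^ j) = diffOne (Fin m → ℝ) α.right ^ j := by
    intro j
    induction j with
    | zero => simp only [diffOne, pow_zero]; exact mfderiv_id
    | succ j ih =>
      rw [pow_succ, pow_succ, ← ih]
      have h1 := (hCs _ (C.pow_mem hAC j)).mdifferentiable (by simp) (α.right 1)
      have := mfderiv_comp (1 : N) h1 (hA.mdifferentiable (by simp) 1)
      simp only [diffOne]
      rw [map_one] at this
      exact this
  rcases Nat.eq_zero_or_pos m with rfl | hm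
  · have : DiscreteTopology N := ChartedSpace.discreteTopology (Fin 0 → ℝ) N
    have : Subsingleton N := PreconnectedSpace.trivial_of_discrete
    have : Subsingleton (OrbitSp Γ) := Quot.mk_surjective.subsingleton
    exact not_subsingleton M h.injective.subsingleton
  · have : Nonempty (Fin m) := ⟨⟨0, hm⟩⟩
    set D := (diffOne (Fin m → ℝ) α.right).toLinearMap with hD
    have hDk : D ^ k = 1 := by
      rw [hD, ← ContinuousLinearMap.toLinearMap_pow, ← hpow, hk1]
      have : diffOne (Fin m → ℝ) (1 : MulAut N) = 1 := mfderiv_id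
      rw [this]; rfl
    let X : Matrix (Fin m) (Fin m) ℂ := (LinearMap.toMatrix' D).map (algebraMap ℝ ℂ)
    have hX : X ^ k = 1 := by
      have : X = (algebraMap ℝ ℂ).mapMatrix (LinearMap.toMatrixAlgEquiv' D) := rfl
      rw [this, ← map_pow, ← map_pow, hDk, map_one, map_one]
    obtain ⟨z, hz⟩ := spectrum.nonempty_of_isAlgClosed_of_finiteDimensional ℂ X
    have h1 := spectrum.pow_mem_pow X k hz
    rw [hX, spectrum.one_eq] at h1
    have h2 : ‖z‖ = 1 := by
      have : ‖z‖ ^ k = 1 := by rw [← norm_pow, mem_singleton_iff.1 h1, norm_one]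
      exact (pow_eq_one_iff_of_nonneg (norm_nonneg _) hk.ne').1 this
    apply hyp z h2
    have h3 := Matrix.mem_spectrum_iff_isRoot_charpoly.1 hz
    rw [Matrix.charpoly_map, Polynomial.IsRoot, Polynomial.eval_map_algebraMap] at h3
    rw [← h3, ← LinearMap.charpoly_toMatrix D (Pi.basisFun ℝ (Fin m))]
    rfl

end Pool.Agent.P.MP_5c499f_an.TNot
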