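import Pool.Agent.K.MP_5c499f_an.C9

/-! The abelian case: conjugacy with a hyperbolic automorphism of a torus. -/

set_option autoImplicit false

namespace Pool.Agent.P.MP_5c499f_an.TTor

open Bundle Filter Topology Law
open scoped Manifold ContDiff Matrix

theorem exists_coord {Γ : Type*} [Group Γ] {S : Set Γ} (s1 : S.Finite)
    (s2 : Subgroup.closure S = ⊤) {d : ℕ} {A : Γ → Fin d → ℝ}
    (h1 : ∀ γ γ', A (γ * γ') = A γ + A γ') (h2 : ∀ γ, A γ = 0 → γ = 1) :
    ∃ (m : ℕ) (e : Γ ≃ (Fin m → ℤ)), ∀ γ γ', e (γ * γ') = e γ + e γ' := by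
  have h0 : A 1 = 0 := by simpa using h1 1 1
  have hi : ∀ γ, A γ⁻¹ = -A γ := fun γ => by
    rw [eq_neg_iff_add_eq_zero, ← h1, inv_mul_cancel, h0]
  have inj : Function.Injective A := fun a b e =>
    mul_inv_eq_one.1 (h2 _ (by rw [h1, hi, e, add_neg_cancel]))
  let P : Submodule ℤ (Fin d → ℝ) := Submodule.span ℤ (A '' S)
  have : Module.Finite ℤ P := Module.Finite.span_of_finite ℤ (s1.image A)
  have m1 : ∀ γ, A γ ∈ P := fun γ => by
    induction (s2 ▸ Subgroup.mem_top γ : γ ∈ Subgroup.closure S) using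
      Subgroup.closure_induction with
    | mem x hx => exact Submodule.subset_span ⟨x, hx, rfl⟩
    | one => rw [h0]; exact P.zero_mem
    | mul x y _ _ a b => rw [h1]; exact P.add_mem a b
    | inv x _ a => rw [hi]; exact P.neg_mem a
  let R : AddSubgroup (Fin d → ℝ) :=
    { carrier := Set.range A
      zero_mem' := ⟨1, h0⟩
      add_mem' := by rintro _ _ ⟨a, rfl⟩ ⟨b, rfl⟩; exact ⟨_, h1 a b⟩
      neg_mem' := by rintro _ ⟨a, rfl⟩; exact ⟨_, hi a⟩ }
  have m2 : P ≤ R.toIntSubmodule := Submodule.span_le.2 (Set.image_subset_range A S)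
  let e₀ : Γ ≃ P := .ofBijective (fun γ => ⟨A γ, m1 γ⟩)
    ⟨fun a b e => inj (congrArg Subtype.val e), fun v => (m2 v.2).imp fun _ e => Subtype.ext e⟩
  refine ⟨_, e₀.trans (Module.finBasis ℤ P).equivFun.toEquiv, fun a b => ?_⟩
  exact (congrArg (Module.finBasis ℤ P).equivFun (Subtype.ext (h1 a b) : e₀ (a * b) = e₀ a + e₀ b)).trans
    (map_add _ _ _)

theorem exists_mat {Γ : Type*} [Group Γ] {m : ℕ} (e : Γ ≃ (Fin m → ℤ))
    (he : ∀ γ γ', e (γ * γ') = e γ + e γ') (Φ : MulAut Γ) :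
    ∃ A : Matrix (Fin m) (Fin m) ℤ, ∀ γ, e (Φ γ) = A *ᵥ e γ := by
  let L : (Fin m → ℤ) →+ (Fin m → ℤ) := AddMonoidHom.mk' (fun v => e (Φ (e.symm v))) fun u v => by
    rw [← he, ← map_mul]
    congr 2
    apply e.injective
    simp [he]
  exact ⟨LinearMap.toMatrix' L.toIntLinearMap, fun γ => by simp [L]⟩

/-- The additive law. -/
def addLaw (m : ℕ) : Law m where
  mul := (· + ·)
  inv := Neg.neg
  assoc := add_assoc
  zero_mul := zero_add
  inv_mul := neg_add_cancel
  sm := contDiff_fst.add contDiff_snd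
  si := contDiff_neg

theorem good {m : ℕ} {B : MulAut (addLaw m).N} (X : Matrix (Fin m) (Fin m) ℝ)
    (h : ∀ v, B v = X *ᵥ v) : (addLaw m).Good (fun _ => 0) B ∧ dmat B = X := by
  have e : (B : (addLaw m).N → (addLaw m).N) = (Matrix.toLin' X).toContinuousLinearMap :=
    funext h
  refine ⟨⟨e ▸ (Matrix.toLin' X).toContinuousLinearMap.contDiff, fun j z hz i hi => ?_⟩, ?_⟩
  · obtain rfl : z = 1 := funext fun i => hz i hi
    rw [map_one]; rfl
  · have : fderiv ℝ B 0 = (Matrix.toLin' X).toContinuousLinearMap :=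
      e ▸ (Matrix.toLin' X).toContinuousLinearMap.fderiv
    rw [dmat, this]
    exact LinearMap.toMatrix'_toLin' X

theorem gps_torus {Y Γ : Type*} [MetricSpace Y] [Group Γ] [MulAction Γ Y] {ρ : ℝ}
    {Φ : MulAut Γ} {G : Equiv.Perm Y} {o : Y} (D : Gps G Φ ρ o)
    (glob : ∀ R u v, (∀ k : ℤ, Reach ρ R ((G ^ k) u) ((G ^ k) v)) → u = v)
    {m : ℕ} (e : Γ ≃ (Fin m → ℤ)) (he : ∀ γ γ', e (γ * γ') = e γ + e γ')
    {M : Type*} [TopologicalSpace M] [CompactSpace M] {pt : Y → M}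
    (hπ : IsQuotientCoveringMap pt Γ) {f : M → M} (hf : ∀ p, pt (G p) = f (pt p)) :
    ∃ (A : Matrix (Fin m) (Fin m) ℤ) (h : M ≃ₜ (Fin m → UnitAddCircle)), IsUnit A.det ∧
      (∀ z : ℂ, ‖z‖ = 1 → Polynomial.aeval z A.charpoly ≠ 0) ∧
      ∀ x i, h (f x) i = ∑ j, A i j • h x j := by
  obtain ⟨A, a1⟩ := exists_mat e he Φ
  obtain ⟨A', a2⟩ := exists_mat e he Φ⁻¹
  have a3 : A * A' = 1 := Matrix.ext_iff_mulVec.2 fun v => by
    obtain ⟨γ, rfl⟩ := e.surjective v
    rw [← Matrix.mulVec_mulVec, ← a2, ← a1, Matrix.one_mulVec]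
    simp
  have a4 : A' * A = 1 := mul_eq_one_comm.1 a3
  set c := Int.castRingHom ℝ
  have a5 : ∀ {X X' : Matrix (Fin m) (Fin m) ℤ}, X * X' = 1 →
      ∀ v : Fin m → ℝ, X.map c *ᵥ (X'.map c *ᵥ v) = v := fun h v => by
    rw [Matrix.mulVec_mulVec, ← Matrix.map_mul, h, Matrix.map_one _ c.map_zero c.map_one,
      Matrix.one_mulVec]
  let B : MulAut (addLaw m).N :=
    { toFun := fun v => A.map c *ᵥ v
      invFun := fun v => A'.map c *ᵥ v
      left_inv := a5 a4
      right_inv := a5 a3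
      map_mul' := fun u v => Matrix.mulVec_add _ u v }
  let t : Γ →* (addLaw m).N := MonoidHom.mk' (fun γ i => (e γ i : ℝ)) fun a b =>
    funext fun i => by rw [he]; exact Int.cast_add _ _
  let β : Γ →* Equiv.Perm (addLaw m).N := (MulAction.toPermHom _ _).comp t
  have b1 : ∀ γ n i, β γ n i = e γ i + n i := fun _ _ _ => rfl
  have b2 : ∀ γ, B (t γ) = t (Φ γ) := fun γ => funext fun i => by
    have := congrFun (a1 γ) i
    exact (c.map_mulVec A (e γ) i).symm.trans (congrArg c this.symm)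
  have F : Aff (addLaw m) (fun _ => 0) 1 Φ β 1 B.toEquiv B :=
    { tri := ⟨fun _ => one_pos, fun _ _ _ _ _ _ => rfl, fun _ _ _ _ _ _ => add_comm _ _⟩
      good := fun _ => ⟨contDiff_id, fun _ _ h => h⟩
      fin := by rw [MonoidHom.range_one]; infer_instance
      aff := fun γ n z => (mul_assoc (t γ) n z).symm
      goodB := (good _ fun _ => rfl).1
      goodB' := (good (A'.map c) fun _ => rfl).1
      affB := map_mul B
      equiv := fun γ n => (map_mul B (t γ) n).trans (congrArg (· * B n) (b2 γ))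
      lat := fun k => ⟨e.symm k, t (e.symm k), fun i => by simp [t], fun _ => rfl⟩
      proper := fun s hs => by
        obtain ⟨R, hR⟩ := hs.exists_norm_le
        refine ((Set.Finite.pi' fun _ : Fin m => Set.finite_Icc (-⌈R⌉) ⌈R⌉).preimage
          e.injective.injOn).subset fun γ hγ i => ?_
        have h1 : |β γ 1 i| ≤ R := (norm_le_pi_norm (β γ 1) i).trans (hR _ hγ)
        have h2 : β γ 1 i = e γ i := add_zero _
        rw [h2] at h1
        exact abs_le.1 (by exact_mod_cast h1.trans (Int.le_ceil R)) }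
  obtain ⟨h, h1, h2, h3, h4, h5⟩ := D.conj F glob
  let q : (addLaw m).N → Fin m → UnitAddCircle := fun v i => (v i : ℝ)
  have q1 : Continuous q := continuous_pi fun i =>
    (AddCircle.continuous_mk' 1).comp (continuous_apply i)
  have q2 : Function.Surjective q := fun x =>
    ⟨fun i => (x i).out, funext fun i => QuotientAddGroup.out_eq' _⟩
  have q3 : ∀ n n', q n = q n' ↔ ∃ γ, β γ n' = n := fun n n' => by
    constructor
    · intro h
      choose k hk using fun i => AddSubgroup.mem_zmultiples_iff.1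
        (QuotientAddGroup.eq_iff_sub_mem.1 (congrFun h i))
      exact ⟨e.symm k, funext fun i => by simpa [b1, eq_sub_iff_add_eq] using hk i⟩
    · rintro ⟨γ, rfl⟩
      exact funext fun i => QuotientAddGroup.eq_iff_sub_mem.2
        (AddSubgroup.mem_zmultiples_iff.2 ⟨e γ i, by simp [b1]⟩)
  have q4 : ∀ n i, q (B n) i = ∑ j, A i j • q n j := fun n i => by
    have : B n i = ∑ j, A i j • n j := by
      simp only [zsmul_eq_mul]; rfl
    exact (congrArg (QuotientAddGroup.mk' _) this).trans (by simp only [map_sum, map_zsmul]; rfl)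
  let H : M → Fin m → UnitAddCircle := fun x => q (h (Function.surjInv hπ.surjective x))
  have c1 : ∀ p, H (pt p) = q (h p) := fun p => by
    obtain ⟨γ, e⟩ := hπ.apply_eq_iff_mem_orbit.1 (Function.surjInv_eq hπ.surjective (pt p))
    exact (q3 _ _).2 ⟨γ, (h4 γ p).symm.trans (congrArg h e)⟩
  have c2 : Continuous H := hπ.toIsQuotientMap.continuous_iff.2
    ((q1.comp h1).congr fun p => (c1 p).symm)
  have c3 : Function.Surjective H := by
    have := q2.denseRange.comp h3 q1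
    rw [show q ∘ h = H ∘ pt from funext fun p => (c1 p).symm] at this
    rw [← Set.range_eq_univ, ← (isCompact_range c2).isClosed.closure_eq]
    exact this.of_comp.closure_range
  have c4 : Function.Injective H := fun x y e => by
    obtain ⟨p, rfl⟩ := hπ.surjective x
    obtain ⟨p', rfl⟩ := hπ.surjective y
    rw [c1, c1, q3] at e
    exact hπ.apply_eq_iff_mem_orbit.2 (e.imp fun γ e => h2 ((h4 γ p').trans e))
  refine ⟨A, Continuous.homeoOfEquivCompactToT2 (f := .ofBijective H ⟨c4, c3⟩) c2,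
    Matrix.isUnit_det_of_right_inverse a3, fun z hz => ?_, fun x i => ?_⟩
  · have := F.tri.hyper F.goodB (D.noUnit F) z hz
    rwa [(good (B := B) _ fun _ => rfl).2, Matrix.charpoly_map,
      show c = algebraMap ℤ ℝ from rfl, Polynomial.aeval_map_algebraMap] at this
  · obtain ⟨p, rfl⟩ := hπ.surjective x
    show H _ i = ∑ j, A i j • H _ j
    rw [← hf, c1, c1, h5]
    exact q4 _ i

theorem cup_torus {E : Type*} [NormedAddCommGroup E] [NormedSpace ℝ E] [FiniteDimensional ℝ E]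
    {M : Type*} [TopologicalSpace M] [T2Space M] [CompactSpace M] [ConnectedSpace M]
    [ChartedSpace E M] [IsManifold 𝓘(ℝ, E) ∞ M]
    [RiemannianBundle fun x : M => TangentSpace 𝓘(ℝ, E) x]
    [IsContinuousRiemannianBundle E fun x : M => TangentSpace 𝓘(ℝ, E) x]
    (f : Diffeomorph 𝓘(ℝ, E) 𝓘(ℝ, E) M M 1) (hf : IsAnosov E f)
    (nw : ∀ U : Set M, IsOpen U → U.Nonempty → ∃ n, 0 < n ∧ (f^[n] '' U ∩ U).Nonempty)
    {k : ℕ} (ho : Oriented E f.symm k) (hc : CupGen E M k) :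
    ∃ (m : ℕ) (A : Matrix (Fin m) (Fin m) ℤ) (h : M ≃ₜ (Fin m → UnitAddCircle)), IsUnit A.det ∧
      (∀ z : ℂ, ‖z‖ = 1 → Polynomial.aeval z A.charpoly ≠ 0) ∧
      ∀ x i, h (f x) i = ∑ j, A i j • h x j := by
  obtain ⟨n, e, e1, e2, e3⟩ := exists_embedding_euclidean_of_compact (I := 𝓘(ℝ, E)) (M := M)
  let _ := e2.isEmbedding.comapMetricSpace e
  have he : ∀ x y : M, dist x y = ‖e x - e y‖ := fun x y => dist_eq_norm (e x) (e y)
  obtain ⟨r, U, em⟩ := exists_emb he e1 e3
  obtain ⟨α, a1, a2⟩ := ho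
  choose v v1 v2 using a2
  obtain ⟨Pr, Io, C₀, b1, b2⟩ := exists_amb em f hf fun x => ⟨v x, Form.indep (v1 x), v2 x⟩
  obtain ⟨⟨σ, C₁, loc⟩, b3⟩ := core'' he (e1.of_le (by simp)) e3 f hf
  obtain ⟨K, k0, ⟨a, A⟩, a', b', Λ, Λ', hy, sh⟩ := ((eventually_gt_atTop 0).and (b2.and b3)).exists
  have := ChartedSpace.locallyPathConnectedSpace E M
  have : PathConnectedSpace M := pathConnectedSpace_iff_connectedSpace.2 inferInstance
  obtain ⟨x₀⟩ : Nonempty M := inferInstance
  obtain ⟨G, Φ, g1, g2, g3, g4⟩ := loc.lift f.toHomeomorph x₀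
  have := Cov.simplyConn (h := loc) (x₀ := x₀)
  have := (Cov.isCov (h := loc) (x₀ := x₀)).locPath
  have surj : Function.Surjective (Cov.pt : Cov loc x₀ → M) := Cov.quot.surjective
  obtain ⟨T, t1, t2⟩ := Cov.isCov.fg Cov.dist_smul Cov.smul_pt Cov.free Cov.transitive surj _
    fun _ => Cov.reach'
  obtain ⟨gps, d, A', c1, c2⟩ := top (F := G ^ K) (Φ := Φ ^ K) A Cov.isCov Cov.dist_smul Cov.smul_pt
    Cov.free Cov.transitive surj
    (fun y => by simpa using semiconj_zpow (F := f.toEquiv) g1 K y)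
    (by simpa using uc_zpow g2 g3 K) (by simpa using uc_zpow g2 g3 (-K))
    (fun γ y => by simpa using equiv_zpow (act := fun γ y => γ • y) g4 K γ y) hy
    (mix_of_nw f.continuous f.symm.continuous k0 hy sh nw) t1 t2
    (fun t => em.contDiffOn ((a1 t).1.of_le (by simp)))
    (fun t i => em.contDiffOn (((a1 t).2 i).of_le (by simp)))
    (fun x => em.ori a1 (v1 x) fun j => (b1 x _).1 ((v2 x _).2 (Submodule.subset_span ⟨j, rfl⟩)))
    (em.cup hc)
  obtain ⟨m, ε, hε⟩ := exists_coord t1 t2 c1 c2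
  have : IsIsometricSMul (FundamentalGroup M x₀) (Cov loc x₀) :=
    ⟨fun γ => Isometry.of_dist_eq (Cov.dist_smul γ)⟩
  have gp : ∀ x y, ∃! w, Asym G w x ∧ Asym (G⁻¹ : Equiv.Perm _) w y := fun x y => by
    have := gps x y
    simp only [← inv_pow, Equiv.Perm.coe_pow, Asym.of_pow g2 k0, Asym.of_pow g3 k0] at this
    exact this
  obtain ⟨Ψ, ρ, o, D, gl⟩ := gps_of_anosov f hf Cov.quot ⟨G, g2.continuous, g3.continuous⟩ g1
    fun x y => (gp x y).exists
  exact ⟨m, gps_torus D (gl fun x y _ _ => (gp x y).unique) ε hε Cov.quot g1⟩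

end Pool.Agent.P.MP_5c499f_an.TTor
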