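import Pool.Agent.P.MP_5c499f_an.Cover

/-! Uniqueness of long brackets on a simply connected space. -/

set_option autoImplicit false

namespace Pool.Agent.P.MP_5c499f_an

open Filter Topology

variable {X : Type*} [MetricSpace X] {F : Equiv.Perm X} {ε δ C a b σ K ρ Λ Λ' C₁ : ℝ}

/-- Local Lipschitz convex combinations. -/
def Conv (X : Type*) [MetricSpace X] (σ K : ℝ) : Prop :=
  ∃ κ : X → X → X → unitInterval → X, ∀ c p q, dist p c ≤ σ → dist q c ≤ σ →
    κ c p q 0 = p ∧ κ c p q 1 = q ∧ ∀ p' q' s s', dist p' c ≤ σ → dist q' c ≤ σ →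
      dist (κ c p q s) (κ c p' q' s') ≤ K * (dist p p' + dist q q' + dist p q * dist s s')

lemma LH.lift_eq (h : LH F ε δ C a b) {n : ℤ} {N : ℕ} {y y' ω ω' : ℕ → X}
    (h1 : Lift F n ε δ N y ω) (h2 : Lift F n ε δ N y' ω') (h0 : y 0 = y' 0) (hN : y N = y' N)
    (hc : ∀ i, i ≤ N → dist ((F ^ n) (y' i)) ((F ^ n) (y i)) ≤ δ) : ω N = ω' N := by
  have hε := h.ε_pos
  have hδ := h.δ_le
  have key : ∀ i, i ≤ N → Un F n ε (ω' i) (ω i) := fun i hi => by
    induction i with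
    | zero => rw [h1.1, h2.1, h0]; exact Un.refl _ hε.le _
    | succ i ih =>
      obtain ⟨z, z1, z2⟩ := h.br' n (x := y' (i + 1)) (y := ω (i + 1)) (by
        linarith [dist_triangle_right ((F ^ n) (y' (i + 1))) ((F ^ n) (ω (i + 1)))
          ((F ^ n) (y (i + 1))), hc _ hi, h1.2.1 _ hi n le_rfl])
      rwa [← h.eq_of_St_Un ((z1.trans (h2.2.1 _ hi).symm).mono le_rfl (by linarith))
        ((((z2.trans (h1.2.2 i hi)).trans (ih (by omega)).symm).trans (h2.2.2 i hi).symm).mono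
          le_rfl (by linarith))]
  exact h.eq_of_St_Un (((h1.2.1 N le_rfl).trans (hN ▸ h2.2.1 N le_rfl).symm).mono le_rfl
    (by linarith)) ((key N le_rfl).symm.mono le_rfl (by linarith))

lemma LH.lift_level (h : LH F ε δ C a b) {l n : ℤ} (hl : l ≤ n) {N : ℕ} {y ω : ℕ → X}
    (h1 : Lift F n ε δ N y ω) (h2 : ∀ i, i ≤ N → dist ((F ^ l) (y i)) ((F ^ l) (y 0)) ≤ 2 * δ)
    (h3 : ∀ i, i < N → ∀ k, l ≤ k → k ≤ n → dist ((F ^ k) (y (i + 1))) ((F ^ k) (y i)) ≤ δ) :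
    St F l ε (ω N) (y N) ∧ Un F l ε (ω N) (y 0) := by
  have hε := h.ε_pos
  have hδ := h.δ_le
  have key : ∀ i, i ≤ N → St F l ε (ω i) (y i) ∧ Un F l ε (ω i) (y 0) := fun i hi => by
    induction i with
    | zero => rw [h1.1]; exact ⟨St.refl _ hε.le _, Un.refl _ hε.le _⟩
    | succ i ih =>
      obtain ⟨z, z1, z2⟩ := h.br' l (h2 _ hi)
      obtain ⟨i1, i2⟩ := ih (by omega)
      have : z = ω (i + 1) := h.expansive fun k => by
        rcases le_total n k with hk | hk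
        · exact ((z1.mono hl le_rfl).trans (h1.2.1 _ hi).symm k hk).trans (by linarith)
        rcases le_total k l with hk' | hk'
        · exact ((z2.trans i2.symm).trans ((h1.2.2 i hi).symm.mono hl le_rfl) k hk').trans
            (by linarith)
        · linarith [z1 k hk', h3 i hi k hk' hk, i1.symm k hk', (h1.2.2 i hi).symm k hk,
            dist_triangle4 ((F ^ k) z) ((F ^ k) (y (i + 1))) ((F ^ k) (y i)) ((F ^ k) (ω i)),
            dist_triangle ((F ^ k) z) ((F ^ k) (ω i)) ((F ^ k) (ω (i + 1)))]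
      exact this ▸ ⟨z1, z2⟩
  exact key N le_rfl

lemma dist_le_one (s s' : unitInterval) : dist s s' ≤ 1 := by
  rw [Subtype.dist_eq, Real.dist_eq, abs_le]
  constructor <;> linarith [s.2.1, s.2.2, s'.2.1, s'.2.2]

lemma tick_of_le {n i : ℕ} (hn : 1 ≤ n) (hi : n ≤ i) : tick n i = 1 := by
  have : (0 : ℝ) < n := by positivity
  exact Set.projIcc_of_right_le _ (by rw [le_div_iff₀ this, one_mul]; exact_mod_cast hi)

lemma LH.lift_ball (h : LH F ε δ C a b) (g : Geo F ρ Λ Λ' C₁) (hδ : δ ≤ ρ) (hc : Conv X σ K)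
    (hK : 1 ≤ K) {n N : ℕ} {η : ℝ} (hex : ∀ y : ℕ → X, (∀ i, i < N → dist (y (i + 1)) (y i) ≤
      K * (η + η)) → ∃ ω, Lift F n ε δ N y ω) {y y' ω ω' : ℕ → X} (c : X)
    (h1 : Lift F n ε δ N y ω) (h2 : Lift F n ε δ N y' ω') (h0 : y 0 = y' 0) (hN : y N = y' N)
    (e1 : ∀ i, i < N → dist (y (i + 1)) (y i) ≤ η) (e2 : ∀ i, i < N → dist (y' (i + 1)) (y' i) ≤ η)
    (e3 : ∀ i, i < N → (y i = y' i ∧ y (i + 1) = y' (i + 1)) ∨
      ((dist (y i) c ≤ σ ∧ dist (y' i) c ≤ σ) ∧ dist (y (i + 1)) c ≤ σ ∧ dist (y' (i + 1)) c ≤ σ)) :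
    ω N = ω' N := by
  classical
  obtain ⟨κ, hκ⟩ := hc
  have hδ0 := h.δ_pos
  have hΛ := g.one_le
  set z : unitInterval → ℕ → X := fun s i =>
    if dist (y i) c ≤ σ ∧ dist (y' i) c ≤ σ then κ c (y i) (y' i) s else y i with hz
  have z0 : ∀ i, z 0 i = y i := fun i => by
    simp only [hz]; split_ifs with e
    exacts [(hκ _ _ _ e.1 e.2).1, rfl]
  have z1 : ∀ s s' i, dist (z s i) (z s' i) ≤ K * (dist (y i) (y' i) * dist s s') := fun s s' i => by
    simp only [hz]; split_ifs with e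
    · simpa using (hκ _ _ _ e.1 e.2).2.2 _ _ s s' e.1 e.2
    · rw [dist_self]; positivity
  have z2 : ∀ s i, y i = y' i → z s i = y i := fun s i e => by
    have := z1 s 0 i
    rwa [z0, ← e, dist_self, zero_mul, mul_zero, dist_le_zero] at this
  have z3 : ∀ i, i ≤ N → z 1 i = y' i := fun i hi => by
    by_cases e : dist (y i) c ≤ σ ∧ dist (y' i) c ≤ σ
    · simp only [hz, if_pos e]; exact (hκ _ _ _ e.1 e.2).2.1
    have : y i = y' i := by
      cases i with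
      | zero => exact h0
      | succ i => exact ((e3 i hi).resolve_right fun e' => e e'.2).2
    rw [z2 _ _ this, this]
  choose Ω hΩ using fun s => hex (z s) fun i hi => by
    have hη : 0 ≤ η := dist_nonneg.trans (e1 i hi)
    rcases e3 i hi with e | e
    · rw [z2 _ _ e.1, z2 _ _ e.2]; nlinarith [e1 i hi]
    · simp only [hz, if_pos e.1, if_pos e.2]
      refine ((hκ _ _ _ e.2.1 e.2.2).2.2 _ _ s s e.1.1 e.1.2).trans ?_
      rw [dist_self, mul_zero, add_zero]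
      gcongr
      exacts [e1 i hi, e2 i hi]
  obtain ⟨D, hD⟩ := ((Set.finite_le_nat N).image fun i => dist (y i) (y' i)).bddAbove
  obtain ⟨S, hS⟩ := exists_nat_gt (Λ ^ n * (K * D) / δ)
  have d0 : 0 ≤ D := dist_nonneg.trans (hD ⟨0, Nat.zero_le N, rfl⟩)
  have s0 : (0 : ℝ) < S := lt_of_le_of_lt (by positivity) hS
  rw [div_lt_iff₀ hδ0] at hS
  have key : ∀ j, Ω (tick S j) N = ω N := fun j => by
    induction j with
    | zero => exact h.lift_eq (hΩ _) h1 (z2 _ _ h0) (z2 _ _ hN) fun i _ => by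
                simpa [tick_zero, z0] using hδ0.le
    | succ j ih =>
      rw [← ih]
      refine h.lift_eq (hΩ _) (hΩ _) (by rw [z2 _ _ h0, z2 _ _ h0]) (by rw [z2 _ _ hN, z2 _ _ hN])
        fun i hi => g.fwd (n := n) hδ ?_ (by omega) le_rfl
      have a1 : dist (y i) (y' i) ≤ D := hD ⟨i, hi, rfl⟩
      have a2 := dist_tick S j
      rw [dist_comm] at a2
      calc _ ≤ Λ ^ n * (K * (D * (1 / S))) := by
            gcongr; exact (z1 _ _ _).trans (by gcongr)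
        _ = Λ ^ n * (K * D) / S := by ring
        _ ≤ δ := by rw [div_le_iff₀ s0]; linarith
  rw [← key S, tick_self (by exact_mod_cast s0)]
  exact h.lift_eq (hΩ _) h2 (z3 0 (by omega)) (z3 N le_rfl) fun i hi => by
    simpa [z3 i hi] using hδ0.le

/-- Refinement of a chain. -/
noncomputable def refine (κ : X → X → X → unitInterval → X) (M : ℕ) (c : ℕ → X) (k : ℕ) : X :=
  κ (c (k / M)) (c (k / M)) (c (k / M + 1)) (tick M (k % M))

section
variable {κ : X → X → X → unitInterval → X} {τ : ℝ} {M : ℕ} {c : ℕ → X}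
  (hκ : ∀ c p q, dist p c ≤ σ → dist q c ≤ σ →
    κ c p q 0 = p ∧ κ c p q 1 = q ∧ ∀ p' q' s s', dist p' c ≤ σ → dist q' c ≤ σ →
      dist (κ c p q s) (κ c p' q' s') ≤ K * (dist p p' + dist q q' + dist p q * dist s s'))
  (hK : 1 ≤ K) (hτ : τ ≤ σ) (hM : 1 ≤ M) (hc : ∀ i, dist (c (i + 1)) (c i) ≤ τ)
include hκ hτ hM hc

lemma refine_eq (i : ℕ) {j : ℕ} (hj : j ≤ M) :
    refine κ M c (i * M + j) = κ (c i) (c i) (c (i + 1)) (tick M j) := by
  have h0 : 0 ≤ σ := dist_nonneg.trans ((hc 0).trans hτ)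
  have h1 := fun i => hκ (c i) (c i) (c (i + 1)) (by simpa) ((hc i).trans hτ)
  rcases hj.eq_or_lt with rfl | hj
  · rw [refine, ← add_one_mul, Nat.mul_div_cancel _ hM, Nat.mul_mod_left, tick_zero, tick_self hM,
      (h1 _).1, (h1 _).2.1]
  · rw [refine, mul_comm, Nat.mul_add_div hM, Nat.mul_add_mod, Nat.div_eq_of_lt hj,
      Nat.mod_eq_of_lt hj, add_zero]

lemma refine_mul (i : ℕ) : refine κ M c (i * M) = c i := by
  have h0 : 0 ≤ σ := dist_nonneg.trans ((hc 0).trans hτ)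
  have := refine_eq hκ hτ hM hc i (Nat.zero_le M)
  rwa [tick_zero, (hκ _ _ _ (by simpa) ((hc i).trans hτ)).1] at this

include hK

lemma refine_dist (i : ℕ) {j j' : ℕ} (hj : j ≤ M) (hj' : j' ≤ M) :
    dist (refine κ M c (i * M + j)) (refine κ M c (i * M + j')) ≤
      K * τ * dist (tick M j) (tick M j') := by
  have h0 : 0 ≤ σ := dist_nonneg.trans ((hc 0).trans hτ)
  rw [refine_eq hκ hτ hM hc i hj, refine_eq hκ hτ hM hc i hj']
  refine ((hκ _ _ _ (by simpa) ((hc i).trans hτ)).2.2 _ _ _ _ (by simpa) ((hc i).trans hτ)).trans ?_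
  rw [dist_self, dist_self, zero_add, zero_add, mul_assoc, dist_comm]
  gcongr
  exact hc i

lemma refine_near (i : ℕ) {j : ℕ} (hj : j ≤ M) : dist (refine κ M c (i * M + j)) (c i) ≤ K * τ := by
  have := refine_dist hκ hK hτ hM hc i hj (Nat.zero_le M)
  rw [add_zero, refine_mul hκ hτ hM hc] at this
  exact this.trans (mul_le_of_le_one_right (mul_nonneg (by linarith)
    (dist_nonneg.trans (hc 0))) (dist_le_one _ _))

lemma refine_step (k : ℕ) : dist (refine κ M c (k + 1)) (refine κ M c k) ≤ K * τ / M := by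
  have h1 := Nat.mod_lt k hM
  have := refine_dist hκ hK hτ hM hc (k / M) (j := k % M + 1) (j' := k % M) h1 h1.le
  rw [← add_assoc, Nat.div_add_mod'] at this
  rw [div_eq_mul_one_div]
  exact this.trans (mul_le_mul_of_nonneg_left (dist_tick _ _) (mul_nonneg (by linarith)
    (dist_nonneg.trans (hc 0))))

end

lemma exists_small {q : ℝ} (D : ℝ) {η : ℝ} (q0 : 0 ≤ q) (q1 : q < 1) (hη : 0 < η) :
    ∀ᶠ t : ℕ in atTop, D * q ^ t < η :=
  ((tendsto_pow_atTop_nhds_zero_of_lt_one q0 q1).const_mul D).eventually_lt_const (by simpa)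

theorem LH.uniq (h : LH F ε δ C a b) (g : Geo F ρ Λ Λ' C₁) (hδ : δ ≤ ρ) (hc : Conv X σ K)
    (hK : 1 ≤ K) (hσ : 0 < σ) (hF : ∀ k : ℤ, Continuous (F ^ k))
    (hsc : ∀ (p q : X) (α β : Path p q), α.Homotopic β) {x y : ℕ} (hx : 0 < x) (hy : 0 < y)
    (hs : Λ' ^ x * a ^ (x + y) < 1) (hu : Λ ^ y * b ^ (x + y) < 1) {l₁ l₂ : ℤ} {w₁ w₂ : X}
    (h1 : Un F l₁ (4 * ε) w₂ w₁) (h2 : St F l₂ (4 * ε) w₂ w₁) : w₁ = w₂ := by
  have hδ0 := h.δ_pos
  have hδ1 := h.δ_le
  have hΛ := g.one_le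
  have hΛ' := g.one_le'
  obtain ⟨κ, hκ⟩ := id hc
  obtain ⟨δ₀, d0, d1, d2⟩ : ∃ δ₀, 0 < δ₀ ∧ δ₀ ≤ σ ∧ K * δ₀ ≤ δ :=
    ⟨min σ (δ / K), by positivity, min_le_left _ _, by
      rw [← le_div_iff₀' (by linarith)]; exact min_le_right _ _⟩
  have d3 : δ₀ ≤ δ := by nlinarith
  obtain ⟨L, l1, l2⟩ := ((exists_small C h.a_nonneg h.a_lt d0).and
    (exists_small C h.b_nonneg h.b_lt d0)).exists
  obtain ⟨L', a1, a2⟩ : ∃ L' : ℕ, -(L' : ℤ) ≤ l₁ - L ∧ l₂ + L ≤ L' :=
    ⟨(max (L - l₁) (l₂ + L)).toNat, by omega, by omega⟩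
  have u1 : Un F (-L') δ₀ w₂ w₁ := (h.cu' h1 L).mono a1 l2.le
  have u2 : St F L' δ₀ w₂ w₁ := (h.cs' h2 L).mono a2 l1.le
  have path : ∀ l : ℤ, dist ((F ^ l) w₂) ((F ^ l) w₁) ≤ δ₀ →
      ∃ α : Path w₁ w₂, ∀ s, dist ((F ^ l) (α s)) ((F ^ l) w₁) ≤ δ := fun l e => by
    obtain ⟨k0, k1, k2⟩ := hκ ((F ^ l) w₁) ((F ^ l) w₁) ((F ^ l) w₂) (by simpa using hσ.le)
      (e.trans d1)
    have k3 := fun s s' => k2 ((F ^ l) w₁) _ s s' (by simpa using hσ.le) (e.trans d1)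
    simp only [dist_self, zero_add, ← mul_assoc] at k3
    refine ⟨⟨⟨fun s => (F ^ (-l)) (κ ((F ^ l) w₁) ((F ^ l) w₁) ((F ^ l) w₂) s), (hF _).comp
      (LipschitzWith.of_dist_le' k3).continuous⟩, by simp [k0], by simp [k1]⟩, fun s => ?_⟩
    have k4 := k3 s 0
    rw [k0, dist_comm ((F ^ l) w₁)] at k4
    simp only [Path.coe_mk_mk, zpow_apply_zpow, add_neg_cancel, zpow_zero, Equiv.Perm.one_apply]
    refine k4.trans ((mul_le_of_le_one_right (by positivity) (dist_le_one _ _)).trans ?_)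
    exact le_trans (by gcongr) d2
  obtain ⟨α, hα⟩ := path _ (u1 _ le_rfl)
  obtain ⟨β, hβ⟩ := path _ (u2 _ le_rfl)
  obtain ⟨H⟩ := hsc _ _ α β
  obtain ⟨τ, t0, t1, t2, t3⟩ : ∃ τ, 0 < τ ∧ K * τ + τ ≤ σ ∧ Λ ^ L' * (K * τ) ≤ δ ∧
      Λ' ^ L' * (K * τ) ≤ δ := by
    refine ⟨min (σ / (K + 1)) (min (δ / (Λ ^ L' * K)) (δ / (Λ' ^ L' * K))), by positivity, ?_, ?_, ?_⟩
    · rw [← add_one_mul, ← le_div_iff₀' (by positivity)]; simp
    · rw [← mul_assoc, ← le_div_iff₀' (by positivity)]; simp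
    · rw [← mul_assoc, ← le_div_iff₀' (by positivity)]; simp
  have t4 : τ ≤ σ := by nlinarith
  obtain ⟨η, e1, e2⟩ := Metric.uniformContinuous_iff_le.1
    (CompactSpace.uniformContinuous_of_continuous H.continuous) τ t0
  obtain ⟨R, hR⟩ := exists_nat_one_div_lt e1
  have e3 : ∀ i j, j = i ∨ j = i + 1 ∨ i = j + 1 → dist (tick (R + 1) j) (tick (R + 1) i) ≤ η := by
    have := fun i => (dist_tick (R + 1) i).trans (by push_cast; exact hR.le)
    rintro i j (rfl | rfl | rfl)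
    · simpa using e1.le
    · exact this _
    · rw [dist_comm]; exact this _
  obtain ⟨t, ht, ht'⟩ := ((exists_small (((R + 1 : ℕ) + 1) * (K * (K * τ + K * τ) / δ + 2) * C)
    (le_max_of_le_left (mul_nonneg (pow_nonneg (by linarith) x) (pow_nonneg h.a_nonneg (x + y))))
    (max_lt hs hu) hδ0).and (eventually_ge_atTop L')).exists
  obtain ⟨M, m1, m2, m3, m4⟩ := h.rect' g hδ (le_max_left _ _) (le_max_right _ _)
    (by positivity) ht.le
  have m5 : K * (K * τ / M + K * τ / M) = K * (K * τ + K * τ) / M := by ring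
  have m6 : K * τ / M ≤ K * (K * τ + K * τ) / M := by
    gcongr; nlinarith [mul_pos (show 0 < K by linarith) t0]
  set c : ℕ → ℕ → ℕ → X := fun j l i =>
    H (tick (R + 1) (if i < l then j + 1 else j), tick (R + 1) i) with hc'
  have c1 : ∀ j l i, dist (c j l (i + 1)) (c j l i) ≤ τ := fun j l i =>
    e2 (max_le (e3 _ _ (by split_ifs <;> omega)) (e3 _ _ (by omega)))
  have c2 : ∀ j l, c j l 0 = w₁ := fun j l => by simp [hc', tick_zero]
  have c3 : ∀ j l i, R + 1 ≤ i → c j l i = w₂ := fun j l i hi => by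
    simp [hc', tick_of_le (Nat.le_add_left 1 R) hi]
  have r0 := fun j l => refine_mul hκ t4 m1 (c1 j l)
  have r1 : ∀ j l, refine κ M (c j l) 0 = w₁ := fun j l => by simpa [c2] using r0 j l 0
  have r2 := fun j l => refine_step hκ hK t4 m1 (c1 j l)
  have r3 := fun j l => @refine_near _ _ _ _ _ _ _ _ hκ hK t4 m1 (c1 j l)
  choose Ω hΩ _ using fun j l => m4 (refine κ M (c j l)) fun i _ => (r2 j l i).trans m6
  have k1 : ∀ j l, Ω j l ((R + 1) * M) = Ω j (l + 1) ((R + 1) * M) := fun j l => by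
    refine h.lift_ball g hδ hc hK (η := K * τ / M) (fun z hz => (m4 z (m5 ▸ hz)).imp fun _ e => e.1)
      (c j l l) (hΩ _ _) (hΩ _ _) (by rw [r1, r1]) (by rw [r0, r0, c3 _ _ _ le_rfl, c3 _ _ _ le_rfl])
      (fun i _ => r2 _ _ _) (fun i _ => r2 _ _ _) fun k _ => ?_
    have b1 := Nat.mod_lt k m1
    obtain ⟨i, j', b2, rfl⟩ : ∃ i j', j' < M ∧ k = i * M + j' :=
      ⟨_, _, b1, (Nat.div_add_mod' k M).symm⟩
    have b3 : ∀ i, i ≠ l → c j l i = c j (l + 1) i := fun i hi => by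
      simp only [hc', show i < l ↔ i < l + 1 by omega]
    rw [add_assoc]
    by_cases b4 : i = l ∨ i + 1 = l
    · have b5 : dist (c j l i) (c j l l) ≤ τ ∧ dist (c j (l + 1) i) (c j l l) ≤ τ := by
        rcases b4 with rfl | rfl
        · exact ⟨by simpa using t0.le, e2 (max_le (e3 _ _ (by split_ifs <;> omega))
            (e3 _ _ (by omega)))⟩
        · rw [← b3 i (by omega), dist_comm]; exact ⟨c1 _ _ _, c1 _ _ _⟩
      have b6 : ∀ j'', j'' ≤ M → dist (refine κ M (c j l) (i * M + j'')) (c j l l) ≤ σ ∧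
          dist (refine κ M (c j (l + 1)) (i * M + j'')) (c j l l) ≤ σ := fun j'' e =>
        ⟨(dist_triangle _ _ _).trans ((add_le_add (r3 _ _ _ e) b5.1).trans t1),
          (dist_triangle _ _ _).trans ((add_le_add (r3 _ _ _ e) b5.2).trans t1)⟩
      exact Or.inr ⟨b6 _ b2.le, b6 _ b2⟩
    · have b6 : ∀ j'', j'' ≤ M → refine κ M (c j l) (i * M + j'') =
          refine κ M (c j (l + 1)) (i * M + j'') := fun j'' e => by
        rw [refine_eq hκ t4 m1 (c1 _ _) _ e, refine_eq hκ t4 m1 (c1 _ _) _ e, b3 i (by omega),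
          b3 (i + 1) (by omega)]
      exact Or.inl ⟨b6 _ b2.le, b6 _ b2⟩
  have k2 : ∀ j l, Ω j l ((R + 1) * M) = Ω j 0 ((R + 1) * M) := fun j l => by
    induction l with
    | zero => rfl
    | succ l ih => rw [← k1, ih]
  have k3 : ∀ j, Ω j 0 ((R + 1) * M) = Ω 0 0 ((R + 1) * M) := fun j => by
    induction j with
    | zero => rfl
    | succ j ih =>
      have : c j (R + 1) = c (j + 1) 0 := funext fun i => by
        by_cases e : i < R + 1
        · simp [hc', e]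
        · rw [c3 _ _ _ (by omega), c3 _ _ _ (by omega)]
      rw [← ih, ← k2 j (R + 1)]
      exact h.lift_eq (hΩ _ _) (hΩ _ _) (by rw [this]) (by rw [this]) fun i _ => by
        simpa [this] using hδ0.le
  have n1 : L' ≤ y * t := ht'.trans (Nat.le_mul_of_pos_left t hy)
  have n2 : L' ≤ x * t := ht'.trans (Nat.le_mul_of_pos_left t hx)
  have lev : ∀ j (l : ℤ), -(L' : ℤ) ≤ l → l ≤ L' →
      (∀ i, dist ((F ^ l) (c j 0 i)) ((F ^ l) w₁) ≤ δ) →
      St F l ε (Ω j 0 ((R + 1) * M)) w₂ ∧ Un F l ε (Ω j 0 ((R + 1) * M)) w₁ := by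
    intro j l b1 b2 b3
    have := h.lift_level (l := l) (by omega) (hΩ j 0) (fun k _ => ?_) fun i _ k k1 k2 => ?_
    · rwa [r0, r1, c3 _ _ _ le_rfl] at this
    · have b4 := r3 j 0 (k / M) (Nat.mod_lt k m1).le
      rw [Nat.div_add_mod'] at b4
      rw [r1, two_mul]
      refine (dist_triangle _ _ _).trans (add_le_add ?_ (b3 (k / M)))
      rcases le_total 0 l with hl | hl
      · exact g.fwd hδ (le_trans (by gcongr) t2) hl b2
      · exact g.bwd hδ (le_trans (by gcongr) t3) hl b1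
    · have b4 := (r2 j 0 i).trans m6
      rcases le_total 0 k with hk | hk
      · exact g.fwd hδ (le_trans (by gcongr) m2) hk k2
      · exact g.bwd hδ (le_trans (by gcongr) m3) hk (by omega)
  obtain ⟨f1, f2⟩ := lev 0 (-L') le_rfl (by omega) fun i => by simpa [hc', tick_zero] using hα _
  obtain ⟨f3, f4⟩ := lev (R + 1) L' (by omega) le_rfl fun i => by
    simpa [hc', tick_self] using hβ _
  rw [k3] at f3 f4
  exact (h.eq_of_St_Un ((f3.trans u2).mono le_rfl (by linarith))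
    (f4.mono le_rfl (by linarith))).symm.trans (h.eq_of_St_Un (f1.mono le_rfl (by linarith))
    ((f2.trans u1.symm).mono le_rfl (by linarith)))

theorem LH.global (h : LH F ε δ C a b) (g : Geo F ρ Λ Λ' C₁) (hδ : δ ≤ ρ) {x y : ℕ}
    (hs : Λ' ^ x * a ^ (x + y) < 1) (hu : Λ ^ y * b ^ (x + y) < 1)
    (hq : ∀ (l₁ l₂ : ℤ) (w₁ w₂ : X), Un F l₁ (4 * ε) w₂ w₁ → St F l₂ (4 * ε) w₂ w₁ → w₁ = w₂)
    {R : ℕ} {p q : X} (hR : ∀ k : ℤ, Reach ρ R ((F ^ k) p) ((F ^ k) q)) : p = q := by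
  have hδ0 := h.δ_pos
  have hδ1 := h.δ_le
  obtain ⟨t, ht⟩ := (exists_small ((R + 1) * (C₁ / δ + 2) * C) (le_max_of_le_left (mul_nonneg
    (pow_nonneg (by linarith [g.one_le']) x) (pow_nonneg h.a_nonneg (x + y)))) (max_lt hs hu)
    hδ0).exists
  have key : ∀ k : ℤ, ∃ w, St F (k + (y * t : ℕ)) δ w q ∧ Un F (k - (x * t : ℕ)) δ w p := fun k => by
    obtain ⟨w, w1, w2⟩ := h.rect g hδ (le_max_left _ _) (le_max_right _ _) ht.le (hR k)
    refine ⟨(F ^ (-k)) w, fun j hj => ?_, fun j hj => ?_⟩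
    · simpa only [zpow_apply_zpow, sub_add_cancel, ← sub_eq_add_neg] using w1 (j - k) (by omega)
    · simpa only [zpow_apply_zpow, sub_add_cancel, ← sub_eq_add_neg] using w2 (j - k) (by omega)
  choose w w1 w2 using key
  have e : ∀ k, w 0 = w k := fun k => hq _ _ _ _
    ((((w2 k).mono (min_le_left _ _) le_rfl).trans ((w2 0).mono (min_le_right _ _) le_rfl).symm).mono
      le_rfl (by linarith))
    ((((w1 k).mono (le_max_left _ _) le_rfl).trans ((w1 0).mono (le_max_right _ _) le_rfl).symm).mono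
      le_rfl (by linarith))
  refine h.expansive fun k => ?_
  have e1 := w1 (k - (y * t : ℕ)) k (by omega)
  have e2 := w2 (k + (x * t : ℕ)) k (by omega)
  rw [← e] at e1 e2
  linarith [dist_triangle_left ((F ^ k) p) ((F ^ k) q) ((F ^ k) (w 0))]

end Pool.Agent.P.MP_5c499f_an
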