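import Pool.Agent.P.MP_5c499f_an.GLift
import Pool.Agent.P.MP_5c499f_an.Top
import Pool.Agent.P.MP_5c499f_an.GDefs

/-! Internal interfaces. -/

set_option autoImplicit false

namespace Pool.Agent.P.MP_5c499f_an

open Filter Topology Metric MeasureTheory Matrix

/-- Parameter space of discs. -/
abbrev XX (u : ℕ) : Type := Fin u → ℝ

/-- Ambient space. -/
abbrev VV (N : ℕ) : Type := EuclideanSpace ℝ (Fin N)

/-- The standard basis of the parameter space. -/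
def bas (u : ℕ) (j : Fin u) : XX u := Pi.single j 1

/-- The determinant of covectors evaluated on vectors. -/
noncomputable def dt {W : Type*} [NormedAddCommGroup W] [NormedSpace ℝ W] {k : ℕ}
    (ξ : Fin k → W →L[ℝ] ℝ) (w : Fin k → W) : ℝ := (Matrix.of fun i j => ξ i (w j)).det

/-- The `p`-th coordinate of the ambient space. -/
noncomputable def crd {N : ℕ} (p : Fin N) : VV N →L[ℝ] ℝ := EuclideanSpace.proj p

/-- The `p`-th basis vector of the ambient space. -/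
noncomputable def evec {N : ℕ} (p : Fin N) : VV N := EuclideanSpace.single p 1

section Analysis

variable {u : ℕ}

/-- Upper bound for the volume of the seminorm family `Nn` on `K`. -/
def VolLe (K : Set (XX u)) (Nn : XX u → XX u → ℝ) (W : ℝ) : Prop :=
  ∀ ξ : XX u → Fin u → XX u →L[ℝ] ℝ, (∀ b ∈ K, ∀ i v, |ξ b i v| ≤ Nn b v) →
    ∫⁻ b in K, ENNReal.ofReal |dt (ξ b) (bas u)| ≤ ENNReal.ofReal W

/-- The weighted Jacobian integral. -/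
noncomputable def Jac (K : Set (XX u)) (χ φ : XX u → ℝ) (g : Fin u → XX u → ℝ) : ℝ :=
  ∫ b in K, χ b * φ (fun i => g i b) * dt (fun i => fderiv ℝ (g i) b) (bas u)

/-- A cut-off function vanishing outside the compact subset `K` of the open set `B`. -/
structure Cut (B K : Set (XX u)) (χ : XX u → ℝ) : Prop where
  op : IsOpen B
  cpt : IsCompact K
  sub : K ⊆ B
  c1 : ContDiff ℝ 1 χ
  zero : ∀ b, b ∉ K → χ b = 0

/-- A one parameter group of matrices, block diagonal for the weights `ρ`. -/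
structure Wt {d : ℕ} (L : ℤ → Matrix (Fin d) (Fin d) ℝ) (ρ : Fin d → ℝ) : Prop where
  pos : ∀ k, 0 < ρ k
  zero : L 0 = 1
  add : ∀ m n, L (m + n) = L m * L n
  blk : ∀ n k j, ρ j ≠ ρ k → L n k j = 0
  bd : ∀ θ, 0 < θ → ∃ C, ∀ (n : ℤ) k j, |L n k j| ≤ C * ρ k ^ n * (1 + θ) ^ n.natAbs

/-- The data on a disc. -/
structure DD {d : ℕ} (B K : Set (XX u)) (χ : XX u → ℝ) (Nn : ℕ → XX u → XX u → ℝ)
    (L : ℤ → Matrix (Fin d) (Fin d) ℝ) (ρ : Fin d → ℝ) (j : ℕ → XX u → Fin d → ℝ)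
    (G : XX u → Fin d → ℝ) (H lam C : ℝ) : Prop where
  cut : Cut B K χ
  wt : Wt L ρ
  H_pos : 0 < H
  lam_pos : 0 < lam
  lam_lt : lam < 1
  C_pos : 0 < C
  vol : ∀ n, VolLe K (Nn n) (C * H ^ n)
  expd : ∀ n, ∀ b ∈ K, ∀ v, ‖v‖ ≤ C * lam ^ n * Nn n b v
  c1 : ∀ n k, ContDiffOn ℝ 1 (fun b => j n b k) B
  der : ∀ n k, ∀ b ∈ K, ∀ v, |fderiv ℝ (fun b => j n b k) b v| ≤ C * Nn n b v
  der' : ∀ n k, ∀ b ∈ K, ∀ v, |fderiv ℝ (fun b => j (n + 1) b k) b v| ≤ C * Nn n b v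
  step : ∀ n, ∀ b ∈ K, ‖j (n + 1) b - L 1 *ᵥ j n b‖ ≤ C
  lim : ∀ k, 1 < ρ k →
    TendstoUniformlyOn (fun (n : ℕ) b => (L (-(n : ℤ)) *ᵥ j n b) k) (fun b => G b k) atTop K

/-- The image of `K` under `G` has a small covering rate. -/
def Thin {d : ℕ} (K : Set (XX u)) (L : ℤ → Matrix (Fin d) (Fin d) ℝ) (G : XX u → Fin d → ℝ)
    (H : ℝ) : Prop :=
  ∃ (q C : ℝ) (l : ℕ), 0 < q ∧ q < 1 ∧ 0 < l ∧ ∀ t : ℕ, ∃ E : Finset (Fin d → ℝ),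
    (E.card : ℝ) ≤ C * (q * H) ^ (t * l) ∧
      ∀ b ∈ K, ∃ z ∈ E, ∃ w, ‖w‖ ≤ C ∧ G b = z + L (-((t * l : ℕ) : ℤ)) *ᵥ w

end Analysis

section Ambient

variable {M : Type*} [MetricSpace M] {N u : ℕ}

/-- The ambient derivative of the `n`-th iterate. -/
noncomputable def Dn (e : M → VV N) (r : VV N → M) (g : M → M) (n : ℕ) (y : VV N) :
    VV N →L[ℝ] VV N := fderiv ℝ (e ∘ g^[n] ∘ r) y

/-- The ambient differential of a function on `M`. -/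
noncomputable def Dm {W : Type*} [NormedAddCommGroup W] [NormedSpace ℝ W] (e : M → VV N)
    (r : VV N → M) (a : M → W) (x : M) : VV N →L[ℝ] W := fderiv ℝ (a ∘ r) (e x)

/-- An Anosov map read in an ambient Euclidean space through a retraction. -/
structure Amb (e : M → VV N) (r : VV N → M) (U : Set (VV N)) (g : Equiv.Perm M)
    (Pr : M → VV N →L[ℝ] XX u) (Io : M → XX u →L[ℝ] VV N) (C₀ a : ℝ) : Prop where
  iso : ∀ x y, dist x y = ‖e x - e y‖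
  op : IsOpen U
  sub : ∀ x, e x ∈ U
  ret : ∀ x, r (e x) = x
  c1 : ContDiffOn ℝ 1 (e ∘ r) U
  cg : ContDiffOn ℝ 1 (e ∘ g ∘ r) U
  cg' : ContDiffOn ℝ 1 (e ∘ (g⁻¹ : Equiv.Perm M) ∘ r) U
  one_le : 1 ≤ C₀
  a_pos : 0 < a
  a_le : 10 * C₀ ^ 2 * a ≤ 1
  cont : Continuous fun x => Io x ∘L Pr x
  pr_io : ∀ x b, Pr x (Io x b) = b
  n_pr : ∀ x v, ‖Pr x v‖ ≤ C₀ * ‖v‖
  n_io : ∀ x b, ‖Io x b‖ ≤ C₀ * ‖b‖
  tan : ∀ x b, Dm e r e x (Io x b) = Io x b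
  comm : ∀ x v, Io (g x) (Pr (g x) (Dm e r (e ∘ g) x v)) = Dm e r (e ∘ g) x (Io x (Pr x v))
  st : ∀ x v, Pr x v = 0 → ‖Dm e r (e ∘ g) x v‖ ≤ a * ‖v‖
  un : ∀ x b, ‖Io x b‖ ≤ a * ‖Dm e r (e ∘ g) x (Io x b)‖

/-- Spanning and separated sets grow exactly like `H ^ n`. -/
structure Ent (g : M → M) (H ε δ : ℝ) : Prop where
  one_le : 1 ≤ H
  δ_pos : 0 < δ
  up : ∃ C, ∀ x (n : ℕ), ∃ E : Finset M, (E.card : ℝ) ≤ C * H ^ n ∧
    ∀ y, dist y x ≤ δ → ∃ z ∈ E, ∀ k ≤ n, dist (g^[k] y) (g^[k] z) ≤ ε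
  low : ∃ η, 0 < η ∧ ∀ ρ, 0 < ρ → ∃ c, 0 < c ∧ ∀ x (n : ℕ), ∃ E : Finset M,
    c * H ^ n ≤ E.card ∧ (∀ z ∈ E, dist z x ≤ ρ) ∧
      (E : Set M).Pairwise fun z z' => ∃ k ≤ n, η < dist (g^[k] z) (g^[k] z')

variable (e : M → VV N) (r : VV N → M) (U : Set (VV N)) (g : M → M)
  (Pr : M → VV N →L[ℝ] XX u) (Io : M → XX u →L[ℝ] VV N)

/-- Pointwise cone estimates near the manifold. -/
structure TanE (a σ C : ℝ) : Prop where
  sub : ∀ x y, ‖y - e x‖ ≤ σ → y ∈ U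
  cone : ∀ x y (n : ℕ) b, ‖y - e x‖ ≤ σ →
    ‖Dn e r g n y (Io x b) - Io (g^[n] (r y)) (Pr (g^[n] (r y)) (Dn e r g n y (Io x b)))‖ ≤
      a ^ n * ‖Io (g^[n] (r y)) (Pr (g^[n] (r y)) (Dn e r g n y (Io x b)))‖
  expd : ∀ x y (n : ℕ) b, ‖y - e x‖ ≤ σ → ‖b‖ ≤ C * a ^ n * ‖Dn e r g n y (Io x b)‖
  dec : ∀ x y, ‖y - e x‖ ≤ σ → ∃ β : VV N →L[ℝ] XX u, (∀ w, ‖β w‖ ≤ C * ‖w‖) ∧
    ∀ (n : ℕ) w, ‖Dn e r g n y w - Dn e r g n y (Io x (β w))‖ ≤ C * a ^ n * ‖w‖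

/-- `j` is at most the volume element of `T`. -/
def Below {W : Type*} [NormedAddCommGroup W] [NormedSpace ℝ W] (T : XX u →L[ℝ] W) (j : ℝ) : Prop :=
  ∀ S : XX u →L[ℝ] XX u, (∀ v, ‖T v‖ ≤ ‖S v‖) → j ≤ |S.det|

/-- `j` is at least the volume element of `T`. -/
def Above {W : Type*} [NormedAddCommGroup W] [NormedSpace ℝ W] (T : XX u →L[ℝ] W) (j : ℝ) : Prop :=
  ∀ S : XX u →L[ℝ] XX u, (∀ v, ‖S v‖ ≤ ‖T v‖) → |S.det| ≤ j

/-- Upper bound for the volume of iterated discs. -/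
def UpE (H s C : ℝ) : Prop :=
  ∀ x y₀ (n : ℕ) (j : XX u → ℝ), ‖y₀ - e x‖ ≤ s →
    (∀ b ∈ closedBall (0 : XX u) s, Below (Dn e r g n (y₀ + Io x b) ∘L Io x) (j b)) →
    ∫⁻ b in closedBall (0 : XX u) s, ENNReal.ofReal (j b) ≤ ENNReal.ofReal (C * H ^ n)

/-- Lower bound for the volume of iterated discs. -/
def LowE (H s : ℝ) : Prop :=
  ∀ s', 0 < s' → s' ≤ s → ∃ c, 0 < c ∧ ∀ x y₀ (n : ℕ) (j : XX u → ℝ), ‖y₀ - e x‖ ≤ s →
    (∀ b ∈ closedBall (0 : XX u) s', Above (Dn e r g n (y₀ + Io x b) ∘L Io x) (j b)) →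
    ENNReal.ofReal (c * H ^ n) ≤ ∫⁻ b in closedBall (0 : XX u) s', ENNReal.ofReal (j b)

/-- All disc estimates. -/
structure DV (C₀ a H s C : ℝ) : Prop where
  s_pos : 0 < s
  C_pos : 0 < C
  H_pos : 0 < H
  tan : TanE e r U g Pr Io a ((1 + C₀) * s) C
  up : UpE e r g Io H s C
  low : LowE e r g Io H s

/-- Upper bound for ambient averages of the volume element. -/
def UpA (H s C : ℝ) : Prop :=
  ∀ x (n : ℕ) (j : VV N → ℝ), ContinuousOn j (closedBall (e x) s) →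
    (∀ y ∈ closedBall (e x) s, Below (Dn e r g n y ∘L Io x) (j y)) →
    ∫⁻ y in closedBall (e x) s, ENNReal.ofReal (j y) ≤ ENNReal.ofReal (C * H ^ n)

/-- Lower bound for ambient averages of the volume element. -/
def LowA (H s : ℝ) : Prop :=
  ∀ s', 0 < s' → s' ≤ s → ∃ c, 0 < c ∧ ∀ x (n : ℕ) (j : VV N → ℝ),
    ContinuousOn j (closedBall (e x) s') →
    (∀ y ∈ closedBall (e x) s', Above (Dn e r g n y ∘L Io x) (j y)) →
    ENNReal.ofReal (c * H ^ n) ≤ ∫⁻ y in closedBall (e x) s', ENNReal.ofReal (j y)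

/-- The normalised coefficients of the pulled back form. -/
noncomputable def cf (H : ℝ) {m : ℕ} (c : Fin m → M → ℝ) (f : Fin m → Fin u → M → ℝ) (n : ℕ)
    (I : Fin u → Fin N) (y : VV N) : ℝ :=
  (H ^ n)⁻¹ * ∑ t, c t (g^[n] (r y)) *
    dt (fun i => fderiv ℝ (f t i ∘ g^[n] ∘ r) y) fun j => evec (I j)

/-- A smoothing kernel `ρ` of radius `s` and a compact neighbourhood `K` of the manifold. -/
structure Ker (s : ℝ) (ρ : VV N → ℝ) (K : Set (VV N)) : Prop where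
  pos : 0 < s
  smooth : ContDiff ℝ (⊤ : ℕ∞) ρ
  nonneg : ∀ y, 0 ≤ ρ y
  one : ∀ y, ‖y‖ ≤ s / 2 → ρ y = 1
  zero : ∀ y, s ≤ ‖y‖ → ρ y = 0
  cpt : IsCompact K
  mem : ∀ y, y ∈ K ↔ ∃ x, ‖y - e x‖ ≤ s

/-- An ambient `u`-form along `M`. -/
structure UF (Ψ : M → (XX u →L[ℝ] VV N) → ℝ) : Prop where
  cont : Continuous fun p : M × (XX u →L[ℝ] VV N) => Ψ p.1 p.2
  comp : ∀ x T (S : XX u →L[ℝ] XX u), Ψ x (T ∘L S) = S.det * Ψ x T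

/-- The form dominates the volume element in a cone. -/
def Pos (Ψ : M → (XX u →L[ℝ] VV N) → ℝ) : Prop :=
  ∃ κ c, 0 < κ ∧ 0 < c ∧ ∀ x (T : XX u →L[ℝ] VV N),
    (∀ v, ‖T v - Io x (Pr x (T v))‖ ≤ κ * ‖Io x (Pr x (T v))‖) → Above T (c * |Ψ x T|)

/-- The ambient form with coefficient functions `w`. -/
noncomputable def PsiW (w : (Fin u → Fin N) → VV N → ℝ) (x : M) (T : XX u →L[ℝ] VV N) : ℝ :=
  ∑ I, w I (e x) * dt (fun i => crd (I i)) fun j => T (bas u j)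

/-- The ambient form with coefficient functions `w` is closed along `M`. -/
def ClosedW (w : (Fin u → Fin N) → VV N → ℝ) : Prop :=
  ∀ (x : M) (v : Fin (u + 1) → VV N),
    ∑ I, dt (Fin.cons (fderiv ℝ (w I) (e x)) fun i => crd (I i) : Fin (u + 1) → VV N →L[ℝ] ℝ) v = 0

/-- The ambient form `∑ c da₁ ∧ … ∧ da_u`. -/
noncomputable def PsiF {m : ℕ} (c : Fin m → M → ℝ) (a : Fin m → Fin u → M → ℝ) (x : M)
    (T : XX u →L[ℝ] VV N) : ℝ :=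
  ∑ t, c t x * dt (fun i => Dm e r (a t i) x) fun j => T (bas u j)

/-- Ambient version of generation by angle forms. -/
def CupAmb (u : ℕ) : Prop :=
  ∀ w : (Fin u → Fin N) → VV N → ℝ, (∀ I, ContDiff ℝ (⊤ : ℕ∞) (w I)) → ClosedW e w →
    ∃ (m : ℕ) (c : Fin m → ℝ) (θ : Fin m → Fin u → M → ℂ),
      (∀ t i, ContDiffOn ℝ 1 (θ t i ∘ r) U ∧ ∀ x, θ t i x ≠ 0) ∧
      ∀ x (T : XX u →L[ℝ] VV N), (∀ v, Dm e r e x (T v) = T v) → PsiW e w x T =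
        ∑ t, c t * (Matrix.of fun i j => (Dm e r (θ t i) x (T (bas u j)) / θ t i x).im).det

/-- Functions on the cover which are differentiable along discs, with controlled derivative. -/
def Ctl {Y : Type*} [TopologicalSpace Y] (ep : Y → VV N) (u : ℕ) (h : Y → ℝ) : Prop :=
  Continuous h ∧ ∃ K, ∀ (τ : XX u → Y) (B : Set (XX u)), IsOpen B → ContinuousOn τ B →
    ContDiffOn ℝ 1 (ep ∘ τ) B → ContDiffOn ℝ 1 (h ∘ τ) B ∧
      ∀ b ∈ B, ∀ v, |fderiv ℝ (h ∘ τ) b v| ≤ K * ‖fderiv ℝ (ep ∘ τ) b v‖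

end Ambient

section Dynamics

variable {Y Γ : Type*} [MetricSpace Y]

/-- The shadowing property. -/
def Shad (g : Equiv.Perm Y) : Prop :=
  ∀ ε, 0 < ε → ∃ η, 0 < η ∧ ∀ p : ℤ → Y, (∀ k, dist (g (p k)) (p (k + 1)) ≤ η) →
    ∃ z, ∀ k, dist ((g ^ k) z) (p k) ≤ ε

/-- Small unstable sets become uniformly dense. -/
def MixM (g : Equiv.Perm Y) : Prop :=
  ∀ ρ η, 0 < ρ → 0 < η → ∃ L₀ : ℕ, ∀ L : ℕ, L₀ ≤ L → ∀ x x', ∃ w, Un g 0 ρ w x ∧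
    dist ((g ^ (L : ℤ)) w) x' ≤ η

/-- The points of `E` are separated at some time at most `n`. -/
def Sep (F : Equiv.Perm Y) (n : ℤ) (η : ℝ) (E : Finset Y) : Prop :=
  (E : Set Y).Pairwise fun y y' => ¬ Un F n η y y'

/-- Separated subsets of unstable sets grow exactly like `H ^ n`. -/
structure Cnt (F : Equiv.Perm Y) (ε H : ℝ) : Prop where
  one_le : 1 ≤ H
  up : ∀ η, 0 < η → ∃ C, ∀ x (n : ℕ) (E : Finset Y), (∀ y ∈ E, Un F 0 (4 * ε) y x) →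
    Sep F n η E → (E.card : ℝ) ≤ C * H ^ n
  low : ∀ ρ, 0 < ρ → ∃ c, 0 < c ∧ ∀ x (n : ℕ), ∃ E : Finset Y, (∀ y ∈ E, Un F 0 ρ y x) ∧
    Sep F n ε E ∧ c * H ^ n ≤ E.card

variable [Group Γ] [MulAction Γ Y]

/-- A mixing hyperbolic system on a cocompact cover. -/
structure Hs (F : Equiv.Perm Y) (Φ : MulAut Γ) (ε δ C a b : ℝ) : Prop where
  lh : LH F ε δ C a b
  uc : UniformContinuous F
  uc' : UniformContinuous (F⁻¹ : Equiv.Perm Y)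
  iso : ∀ (g : Γ) (x y : Y), dist (g • x) (g • y) = dist x y
  eqv : ∀ (g : Γ) x, F (g • x) = Φ g • F x
  disc : ∀ (g : Γ) (x : Y), dist (g • x) x ≤ 10 * ε → g = 1
  cpt : ∃ K : Set Y, IsCompact K ∧ ∀ y, ∃ g : Γ, g⁻¹ • y ∈ K
  mix : ∀ ρ η, 0 < ρ → 0 < η → ∃ L₀ : ℕ, ∀ L : ℕ, L₀ ≤ L → ∀ x x', ∃ w, ∃ g : Γ,
    Un F 0 ρ w x ∧ dist ((F ^ (L : ℤ)) w) (g • x') ≤ η

variable {d : ℕ}

/-- An equivariant map to a vector space. -/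
structure Ab (Φ : MulAut Γ) (J : Y → Fin d → ℝ) (A : Γ → Fin d → ℝ)
    (L : ℤ → Matrix (Fin d) (Fin d) ℝ) (ρ : Fin d → ℝ) : Prop where
  wt : Wt L ρ
  cont : Continuous J
  eqv : ∀ (g : Γ) y, J (g • y) = J y + A g
  phi : ∀ g, A (Φ g) = L 1 *ᵥ A g
  cnt : ∃ (C : ℝ) (D : ℕ), ∀ R, 0 ≤ R → ∀ s : Finset (Fin d → ℝ),
    (∀ z ∈ s, z ∈ Set.range A ∧ ‖z‖ ≤ R) → (s.card : ℝ) ≤ C * (1 + R) ^ D

/-- The expanding part of the equivariant map. -/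
structure GG (F : Equiv.Perm Y) (ε : ℝ) (J : Y → Fin d → ℝ) (A : Γ → Fin d → ℝ)
    (L : ℤ → Matrix (Fin d) (Fin d) ℝ) (ρ : Fin d → ℝ) (G : Y → Fin d → ℝ) : Prop where
  cont : Continuous G
  bd : ∃ C, ∀ y, ‖J (F y) - L 1 *ᵥ J y‖ ≤ C
  lim : ∀ k, 1 < ρ k → TendstoUniformly
    (fun (n : ℕ) y => (L (-(n : ℤ)) *ᵥ J ((F ^ (n : ℤ)) y)) k) (fun y => G y k) atTop
  step : ∀ (n : ℤ) y, G ((F ^ n) y) = L n *ᵥ G y
  tr : ∀ (g : Γ) y y', G (g • y) - G (g • y') = G y - G y'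
  ker : ∀ (g : Γ) y, A g = 0 → G (g • y) = G y
  st : ∀ y y', Asym F y y' → G y = G y'
  osc : ∃ C, ∀ y y', dist y y' ≤ 4 * ε → ‖G y - G y'‖ ≤ C
  ctl : ∀ θ, 0 < θ → ∃ C, ∀ (n : ℕ) y y', dist ((F ^ (-(n : ℤ))) y) ((F ^ (-(n : ℤ))) y') ≤ 4 * ε →
    ‖J y - J y'‖ ≤ ‖G y - G y'‖ + C * (1 + θ) ^ n

/-- In the quotient by the kernel of `A` an unstable leaf meets a stable leaf at most once. -/
def Once (F : Equiv.Perm Y) (A : Γ → Fin d → ℝ) : Prop :=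
  ∀ y y' (g : Γ), A g = 0 → Asym (F⁻¹ : Equiv.Perm Y) y' y → Asym F (g • y') y → y' = y

variable (Γ) in
/-- Points near an orbit have a twin far from it on the same unstable leaf. -/
def Dup (F : Equiv.Perm Y) (ε : ℝ) (G : Y → Fin d → ℝ) : Prop :=
  ∃ (o : Y) (ρ : ℝ) (T : ℕ), 0 < ρ ∧ ∀ y, (∃ g : Γ, dist y (g • o) ≤ 2 * ρ) →
    ∃ y', G y' = G y ∧ Un F (-T) ε y' y ∧ ∀ g : Γ, 2 * ρ < dist y' (g • o)

/-- The fibres of `G` through an unstable set have a small covering rate. -/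
def ThinY (F : Equiv.Perm Y) (ε H : ℝ) (G : Y → Fin d → ℝ) : Prop :=
  ∃ (q C : ℝ) (l : ℕ), 0 < q ∧ q < 1 ∧ 0 < l ∧ ∀ x (t : ℕ), ∃ E : Finset Y,
    (E.card : ℝ) ≤ C * (q * H) ^ (t * l) ∧ ∀ y, Un F 0 ε y x → ∃ y', ∃ z ∈ E, G y' = G y ∧
      dist ((F ^ ((t * l : ℕ) : ℤ)) y') ((F ^ ((t * l : ℕ) : ℤ)) z) ≤ 4 * ε

/-- Uniform lightness of `G` on unstable leaves. -/
def ULight (F : Equiv.Perm Y) (ε : ℝ) (G : Y → Fin d → ℝ) : Prop :=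
  ∀ R : ℝ, ∃ S : ℕ, ∀ (Z : Set Y) (y : Y), (∀ c ∈ Z, ‖G c - G y‖ ≤ R) →
    ∀ c, Relation.ReflTransGen (fun p q => q ∈ Z ∧ Un F 0 ε q p) y c → Un F (-S) ε c y

end Dynamics

end Pool.Agent.P.MP_5c499f_an
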