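import Pool.Agent.P.MP_5c499f_an.XBasA

/-! Averaging over parallel discs. -/

set_option autoImplicit false

namespace Pool.Agent.P.MP_5c499f_an

open Filter Topology Metric MeasureTheory Matrix

namespace XAvgX

variable {N u : ℕ}

theorem swap {f : VV N → ENNReal} (hf : Measurable f) (T : XX u →L[ℝ] VV N) (B : Set (XX u)) :
    (∫⁻ y, f y) * volume B = ∫⁻ y, ∫⁻ b in B, f (y + T b) := by
  have h1 : Measurable (Function.uncurry fun (y : VV N) (b : XX u) => f (y + T b)) :=
    hf.comp (continuous_fst.add (T.continuous.comp continuous_snd)).measurable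
  rw [lintegral_lintegral_swap h1.aemeasurable]
  simp only [lintegral_add_right_eq_self]
  rw [setLIntegral_const]

theorem meas {K : Set (VV N)} (hK : MeasurableSet K) {j : VV N → ℝ} (hj : ContinuousOn j K) :
    Measurable fun y => ENNReal.ofReal (K.indicator j y) := by
  classical
  have h : Measurable (K.piecewise j 0) :=
    hj.measurable_piecewise continuousOn_const hK
  rw [Set.piecewise_eq_indicator] at h
  exact h.ennreal_ofReal

theorem int_eq {K : Set (VV N)} (hK : MeasurableSet K) (j : VV N → ℝ) :
    ∫⁻ y in K, ENNReal.ofReal (j y) = ∫⁻ y, ENNReal.ofReal (K.indicator j y) := by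
  rw [← lintegral_indicator hK]
  congr 1
  funext y
  by_cases h : y ∈ K <;> simp [h]

theorem volV (t : ℝ) (ht : 0 < t) : ∃ v : ℝ, 0 < v ∧ ∀ z : VV N,
    volume (closedBall z t) = ENNReal.ofReal v := by
  have h1 : volume (closedBall (0 : VV N) t) ≠ ⊤ := measure_closedBall_lt_top.ne
  have h2 : volume (closedBall (0 : VV N) t) ≠ 0 := (measure_closedBall_pos _ _ ht).ne'
  refine ⟨(volume (closedBall (0 : VV N) t)).toReal, ENNReal.toReal_pos h2 h1, fun z => ?_⟩
  rw [ENNReal.ofReal_toReal h1, Measure.addHaar_closedBall_center]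

theorem volX (t : ℝ) (ht : 0 < t) : ∃ v : ℝ, 0 < v ∧
    volume (closedBall (0 : XX u) t) = ENNReal.ofReal v := by
  have h1 : volume (closedBall (0 : XX u) t) ≠ ⊤ := measure_closedBall_lt_top.ne
  have h2 : volume (closedBall (0 : XX u) t) ≠ 0 := (measure_closedBall_pos _ _ ht).ne'
  exact ⟨_, ENNReal.toReal_pos h2 h1, (ENNReal.ofReal_toReal h1).symm⟩

end XAvgX

variable {M : Type*} [MetricSpace M] [CompactSpace M] {N u : ℕ} {e : M → VV N} {r : VV N → M}
  {U : Set (VV N)} {g : Equiv.Perm M} {Pr : M → VV N →L[ℝ] XX u} {Io : M → XX u →L[ℝ] VV N}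
  {C₀ a : ℝ}

theorem DV.avg (A : Amb e r U g Pr Io C₀ a) {H s C : ℝ} (D : DV e r U g Pr Io C₀ a H s C) :
    (∃ C', 0 < C' ∧ UpA e r g Io H (s / 2) C') ∧ LowA e r g Io H (s / 2) := by
  have hs := D.s_pos
  have hC := D.C_pos
  have hH := D.H_pos
  have h1 := A.one_le
  have hio : ∀ (t : ℝ) x (b : XX u), b ∈ closedBall (0 : XX u) (t / (2 * C₀)) →
      ‖Io x b‖ ≤ t / 2 := by
    intro t x b hb
    rw [mem_closedBall_zero_iff] at hb
    refine (A.n_io x b).trans ((mul_le_mul_of_nonneg_left hb (by linarith)).trans_eq ?_)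
    field_simp
  have hle : ∀ t : ℝ, 0 < t → t / (2 * C₀) ≤ t := fun t ht =>
    div_le_self ht.le (by linarith)
  constructor
  · obtain ⟨v, hv, hV⟩ := XAvgX.volV (N := N) s hs
    obtain ⟨w, hw, hW⟩ := XAvgX.volX (u := u) (s / (2 * C₀)) (by positivity)
    refine ⟨C * v / w, by positivity, fun x n j hj hb => ?_⟩
    have hK : MeasurableSet (closedBall (e x) (s / 2)) := measurableSet_closedBall
    have h2 := XAvgX.swap (XAvgX.meas hK hj) (Io x) (closedBall (0 : XX u) (s / (2 * C₀)))
    have h3 : ∀ y, ∫⁻ b in closedBall (0 : XX u) (s / (2 * C₀)),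
        ENNReal.ofReal ((closedBall (e x) (s / 2)).indicator j (y + Io x b)) ≤
        (closedBall (e x) s).indicator (fun _ => ENNReal.ofReal (C * H ^ n)) y := by
      intro y
      by_cases hy : y ∈ closedBall (e x) s
      · rw [Set.indicator_of_mem hy]
        refine (lintegral_mono_set (closedBall_subset_closedBall (hle s hs))).trans ?_
        refine D.up x y n _ (mem_closedBall_iff_norm.1 hy) fun b _ => ?_
        by_cases h : y + Io x b ∈ closedBall (e x) (s / 2)
        · rw [Set.indicator_of_mem h]; exact hb _ h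
        · rw [Set.indicator_of_notMem h]; exact fun S _ => abs_nonneg _
      · rw [Set.indicator_of_notMem hy]
        refine le_of_eq (setLIntegral_eq_zero measurableSet_closedBall fun b hb' => ?_)
        have h : y + Io x b ∉ closedBall (e x) (s / 2) := by
          intro h
          apply hy
          rw [mem_closedBall_iff_norm] at h ⊢
          have h4 : y - e x = (y + Io x b - e x) - Io x b := by abel
          rw [h4]
          exact (norm_sub_le _ _).trans (by linarith [hio s x b hb'])
        simp [Set.indicator_of_notMem h]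
    have h4 := h2.le.trans (lintegral_mono h3)
    rw [lintegral_indicator measurableSet_closedBall, setLIntegral_const, hV, hW,
      ← XAvgX.int_eq hK] at h4
    have h5 : ENNReal.ofReal (C * H ^ n) * ENNReal.ofReal v =
        ENNReal.ofReal (C * v / w * H ^ n) * ENNReal.ofReal w := by
      rw [← ENNReal.ofReal_mul (by positivity), ← ENNReal.ofReal_mul (by positivity)]
      congr 1
      field_simp
    rw [h5] at h4
    exact (ENNReal.mul_le_mul_iff_left (by simpa using hw) ENNReal.ofReal_ne_top).1 h4
  · intro t ht hts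
    obtain ⟨v, hv, hV⟩ := XAvgX.volV (N := N) (t / 2) (by positivity)
    obtain ⟨w, hw, hW⟩ := XAvgX.volX (u := u) (t / (2 * C₀)) (by positivity)
    obtain ⟨c, hc, hL⟩ := D.low (t / (2 * C₀)) (by positivity) ((hle t ht).trans (by linarith))
    refine ⟨c * v / w, by positivity, fun x n j hj hb => ?_⟩
    have hK : MeasurableSet (closedBall (e x) t) := measurableSet_closedBall
    have h2 := XAvgX.swap (XAvgX.meas hK hj) (Io x) (closedBall (0 : XX u) (t / (2 * C₀)))
    have h3 : ∀ y, (closedBall (e x) (t / 2)).indicator (fun _ => ENNReal.ofReal (c * H ^ n)) y ≤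
        ∫⁻ b in closedBall (0 : XX u) (t / (2 * C₀)),
          ENNReal.ofReal ((closedBall (e x) t).indicator j (y + Io x b)) := by
      intro y
      by_cases hy : y ∈ closedBall (e x) (t / 2)
      · rw [Set.indicator_of_mem hy]
        rw [mem_closedBall_iff_norm] at hy
        refine hL x y n _ (by linarith) fun b hb' => ?_
        have h : y + Io x b ∈ closedBall (e x) t := by
          rw [mem_closedBall_iff_norm]
          have h4 : y + Io x b - e x = (y - e x) + Io x b := by abel
          rw [h4]
          exact (norm_add_le _ _).trans (by linarith [hio t x b hb'])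
        rw [Set.indicator_of_mem h]
        exact hb _ h
      · rw [Set.indicator_of_notMem hy]
        exact zero_le
    have h4 := (lintegral_mono h3).trans h2.ge
    rw [lintegral_indicator measurableSet_closedBall, setLIntegral_const, hV, hW,
      ← XAvgX.int_eq hK] at h4
    have h5 : ENNReal.ofReal (c * H ^ n) * ENNReal.ofReal v =
        ENNReal.ofReal (c * v / w * H ^ n) * ENNReal.ofReal w := by
      rw [← ENNReal.ofReal_mul (by positivity), ← ENNReal.ofReal_mul (by positivity)]
      congr 1
      field_simp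
    rw [h5] at h4
    exact (ENNReal.mul_le_mul_iff_left (by simpa using hw) ENNReal.ofReal_ne_top).1 h4

end Pool.Agent.P.MP_5c499f_an
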