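import Pool.Agent.P.MP_5c499f_an.XAmb

/-! Basic facts on the ambient package and on determinants. -/

set_option autoImplicit false

namespace Pool.Agent.P.MP_5c499f_an

open Filter Topology Metric MeasureTheory Matrix

namespace XBasAX

lemma expand {u : ℕ} (v : XX u) : v = ∑ k, v k • bas u k := by
  ext i
  simp [bas, Finset.sum_apply, Pi.single_apply]

lemma apply_expand {u : ℕ} (ξ : XX u →L[ℝ] ℝ) (v : XX u) : ξ v = ∑ k, ξ (bas u k) * v k := by
  conv_lhs => rw [expand v]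
  rw [map_sum]
  exact Finset.sum_congr rfl fun k _ => by rw [map_smul, smul_eq_mul, mul_comm]

lemma det_eq {u : ℕ} (S : XX u →L[ℝ] XX u) :
    S.det = (Matrix.of fun i j => S (bas u j) i).det := by
  rw [ContinuousLinearMap.det, ← LinearMap.det_toMatrix']
  rfl

lemma norm_bas {u : ℕ} (j : Fin u) : ‖bas u j‖ = 1 := by
  simp [bas, Pi.norm_single]

end XBasAX

lemma dt_comp {u : ℕ} (ξ : Fin u → XX u →L[ℝ] ℝ) (S : XX u →L[ℝ] XX u) :
    dt ξ (fun j => S (bas u j)) = S.det * dt ξ (bas u) := by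
  rw [XBasAX.det_eq, dt, dt, mul_comm, ← Matrix.det_mul]
  refine congrArg Matrix.det ?_
  ext i j
  rw [Matrix.mul_apply]
  exact XBasAX.apply_expand _ _

lemma det_eq_dt {u : ℕ} (S : XX u →L[ℝ] XX u) :
    S.det = dt (fun i => ContinuousLinearMap.proj i ∘L S) (bas u) := by
  rw [XBasAX.det_eq, dt]
  rfl

lemma dt_le {u : ℕ} {S : XX u →L[ℝ] XX u} {ξ : Fin u → XX u →L[ℝ] ℝ} {K : ℝ} (hK : 0 ≤ K)
    (h : ∀ i v, |ξ i v| ≤ K * ‖S v‖) : |dt ξ (bas u)| ≤ u.factorial * K ^ u * |S.det| := by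
  by_cases hS : S.det = 0
  · have h0 : dt ξ (bas u) = 0 := by
      rw [XBasAX.det_eq] at hS
      obtain ⟨v, hv, hv0⟩ := Matrix.exists_mulVec_eq_zero_iff.2 hS
      have hSv : S v = 0 := by
        ext i
        have h1 := XBasAX.apply_expand (ContinuousLinearMap.proj i ∘L S) v
        have h2 := congrFun hv0 i
        exact h1.trans h2
      refine Matrix.exists_mulVec_eq_zero_iff.1 ⟨v, hv, ?_⟩
      ext i
      have h1 := h i v
      rw [hSv, norm_zero, mul_zero] at h1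
      have h2 : ξ i v = 0 := abs_nonpos_iff.1 h1
      exact (XBasAX.apply_expand (ξ i) v).symm.trans h2
    rw [h0, abs_zero]
    positivity
  · obtain ⟨T, hT1, hT2⟩ : ∃ T : XX u →L[ℝ] XX u, (∀ v, S (T v) = v) ∧ ∀ v, T (S v) = v :=
      ⟨(S.toContinuousLinearEquivOfDetNeZero hS).symm,
        fun v => (S.toContinuousLinearEquivOfDetNeZero hS).apply_symm_apply v,
        fun v => (S.toContinuousLinearEquivOfDetNeZero hS).symm_apply_apply v⟩
    have h1 : dt ξ (bas u) = S.det * dt (fun i => ξ i ∘L T) (bas u) := by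
      rw [← dt_comp, dt, dt]
      refine congrArg Matrix.det ?_
      ext i j
      simp only [Matrix.of_apply, ContinuousLinearMap.comp_apply, hT2]
    have h2 : |dt (fun i => ξ i ∘L T) (bas u)| ≤ u.factorial * K ^ u := by
      have h3 := Matrix.det_le (A := Matrix.of fun i j => (ξ i ∘L T) (bas u j))
        (abv := AbsoluteValue.abs) (x := K) (fun i j => by
          have h4 := h i (T (bas u j))
          rw [hT1, XBasAX.norm_bas, mul_one] at h4
          exact h4)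
      rw [Fintype.card_fin, nsmul_eq_mul] at h3
      exact h3
    rw [h1, abs_mul, mul_comm]
    exact mul_le_mul_of_nonneg_right h2 (abs_nonneg _)

lemma det_le_det {u : ℕ} {S S' : XX u →L[ℝ] XX u} {K : ℝ} (hK : 0 ≤ K)
    (h : ∀ v, ‖S' v‖ ≤ K * ‖S v‖) : |S'.det| ≤ u.factorial * K ^ u * |S.det| := by
  rw [det_eq_dt S']
  refine dt_le hK fun i v => le_trans ?_ (h v)
  exact norm_le_pi_norm (S' v) i

lemma continuousOn_dt {Z W : Type*} [TopologicalSpace Z] [NormedAddCommGroup W] [NormedSpace ℝ W]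
    {k : ℕ} {ξ : Z → Fin k → W →L[ℝ] ℝ} {w : Z → Fin k → W} {s : Set Z}
    (h1 : ∀ i, ContinuousOn (fun z => ξ z i) s) (h2 : ∀ i, ContinuousOn (fun z => w z i) s) :
    ContinuousOn (fun z => dt (ξ z) (w z)) s := by
  have h3 : Continuous fun A : Matrix (Fin k) (Fin k) ℝ => A.det := continuous_id.matrix_det
  have h4 : ContinuousOn (fun z => (Matrix.of fun i j => ξ z i (w z j) :
      Matrix (Fin k) (Fin k) ℝ)) s :=
    continuousOn_pi.2 fun i => continuousOn_pi.2 fun j => (h1 i).clm_apply (h2 j)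
  exact h3.comp_continuousOn h4

variable {M : Type*} [MetricSpace M] [CompactSpace M] {N u : ℕ} {e : M → VV N} {r : VV N → M}
  {U : Set (VV N)} {g : Equiv.Perm M} {Pr : M → VV N →L[ℝ] XX u} {Io : M → XX u →L[ℝ] VV N}
  {C₀ a : ℝ}
  {W : Type*} [NormedAddCommGroup W] [NormedSpace ℝ W]

namespace XBasAX

variable (A : Amb e r U g Pr Io C₀ a)
include A

omit [CompactSpace M] in
lemma isometry : Isometry e := Isometry.of_dist_eq fun x y => by rw [A.iso, dist_eq_norm]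

/-- Uniform continuity near the manifold. -/
lemma uc_near {Z : Type*} [PseudoMetricSpace Z] {f : VV N → Z} (hf : ContinuousOn f U) {θ : ℝ}
    (hθ : 0 < θ) : ∃ s, 0 < s ∧ ∀ x y, ‖y - e x‖ ≤ s → y ∈ U ∧ dist (f y) (f (e x)) ≤ θ := by
  have hc : IsCompact (Set.range e) := isCompact_range (isometry A).continuous
  obtain ⟨δ, hδ, hsub⟩ := hc.exists_cthickening_subset_open A.op
    (by rintro _ ⟨x, rfl⟩; exact A.sub x)
  have hK : IsCompact (cthickening δ (Set.range e)) := hc.cthickening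
  have huc := hK.uniformContinuousOn_of_continuous (hf.mono hsub)
  obtain ⟨η, hη, h⟩ := Metric.uniformContinuousOn_iff_le.1 huc θ hθ
  refine ⟨min δ η, lt_min hδ hη, fun x y hy => ?_⟩
  have hd : dist y (e x) ≤ min δ η := by rw [dist_eq_norm]; exact hy
  have hyK : y ∈ cthickening δ (Set.range e) :=
    mem_cthickening_of_dist_le y (e x) δ _ ⟨x, rfl⟩ (hd.trans (min_le_left _ _))
  exact ⟨hsub hyK, h y hyK (e x) (self_subset_cthickening _ ⟨x, rfl⟩)
    (hd.trans (min_le_right _ _))⟩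

omit [CompactSpace M] in
lemma diffAt {φ : VV N → W} (hφ : ContDiffOn ℝ 1 φ U) {y : VV N} (hy : y ∈ U) :
    DifferentiableAt ℝ φ y :=
  (hφ.differentiableOn one_ne_zero).differentiableAt (A.op.mem_nhds hy)

end XBasAX

namespace Amb

variable (A : Amb e r U g Pr Io C₀ a)
include A

omit [CompactSpace M] in
lemma cont_e : Continuous e := (XBasAX.isometry A).continuous

omit [CompactSpace M] in
lemma cont_r : ContinuousOn r U :=
  (XBasAX.isometry A).isEmbedding.isInducing.continuousOn_iff.2 A.c1.continuousOn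

omit [CompactSpace M] in
lemma cont_φ {φ : M → W} (hφ : ContDiffOn ℝ 1 (φ ∘ r) U) : Continuous φ := by
  have h : φ = (φ ∘ r) ∘ e := funext fun x => by simp only [Function.comp_apply, A.ret]
  rw [h]
  exact hφ.continuousOn.comp_continuous A.cont_e A.sub

omit [CompactSpace M] in
lemma cont_Dm {φ : M → W} (hφ : ContDiffOn ℝ 1 (φ ∘ r) U) : Continuous (Dm e r φ) :=
  (hφ.continuousOn_fderiv_of_isOpen A.op le_rfl).comp_continuous A.cont_e A.sub

omit [CompactSpace M] in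
lemma cont_g : Continuous g :=
  (XBasAX.isometry A).isEmbedding.isInducing.continuous_iff.2 (A.cont_φ (φ := e ∘ g) A.cg)

lemma unif {φ : VV N → W} (hφ : ContDiffOn ℝ 1 φ U) {θ : ℝ} (hθ : 0 < θ) :
    ∃ s, 0 < s ∧ ∀ x y, ‖y - e x‖ ≤ s → y ∈ U ∧ ‖fderiv ℝ φ y - fderiv ℝ φ (e x)‖ ≤ θ ∧
      ∀ y', ‖y' - e x‖ ≤ s → ‖φ y - φ y' - fderiv ℝ φ (e x) (y - y')‖ ≤ θ * ‖y - y'‖ := by
  obtain ⟨s, hs, h⟩ := XBasAX.uc_near A (hφ.continuousOn_fderiv_of_isOpen A.op le_rfl) hθ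
  refine ⟨s, hs, fun x y hy => ⟨(h x y hy).1, ?_, fun y' hy' => ?_⟩⟩
  · rw [← dist_eq_norm]; exact (h x y hy).2
  · refine Convex.norm_image_sub_le_of_norm_hasFDerivWithin_le' (f' := fderiv ℝ φ)
      (s := closedBall (e x) s) (fun z hz => ?_) (fun z hz => ?_) (convex_closedBall _ _)
      (mem_closedBall_iff_norm.2 hy') (mem_closedBall_iff_norm.2 hy)
    · exact (XBasAX.diffAt A hφ (h x z (mem_closedBall_iff_norm.1 hz)).1).hasFDerivAt.hasFDerivWithinAt
    · rw [← dist_eq_norm]; exact (h x z (mem_closedBall_iff_norm.1 hz)).2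

lemma near {η : ℝ} (hη : 0 < η) :
    ∃ s, 0 < s ∧ ∀ x y, ‖y - e x‖ ≤ s → y ∈ U ∧ dist (r y) x ≤ η := by
  obtain ⟨s, hs, h⟩ := XBasAX.uc_near A A.cont_r hη
  refine ⟨s, hs, fun x y hy => ?_⟩
  have h1 := h x y hy
  rw [A.ret] at h1
  exact h1

lemma bdd {φ : M → W} (hφ : ContDiffOn ℝ 1 (φ ∘ r) U) :
    ∃ K, 0 < K ∧ ∀ x, ‖φ x‖ ≤ K ∧ ∀ v, ‖Dm e r φ x v‖ ≤ K * ‖v‖ := by
  obtain ⟨K₁, h₁⟩ := isCompact_univ.exists_bound_of_continuousOn (A.cont_φ hφ).continuousOn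
  obtain ⟨K₂, h₂⟩ := isCompact_univ.exists_bound_of_continuousOn (A.cont_Dm hφ).continuousOn
  refine ⟨max 1 (max K₁ K₂), lt_max_of_lt_left one_pos, fun x => ⟨?_, fun v => ?_⟩⟩
  · exact (h₁ x (Set.mem_univ x)).trans ((le_max_left _ _).trans (le_max_right _ _))
  · exact (Dm e r φ x).le_of_opNorm_le
      ((h₂ x (Set.mem_univ x)).trans ((le_max_right _ _).trans (le_max_right _ _))) v

lemma ucQ {κ : ℝ} (hκ : 0 < κ) : ∃ η, 0 < η ∧ ∀ x y, dist x y ≤ η → ∀ v,
    ‖Io x (Pr x v) - Io y (Pr y v)‖ ≤ κ * ‖v‖ := by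
  obtain ⟨η, hη, h⟩ :=
    Metric.uniformContinuous_iff_le.1 (CompactSpace.uniformContinuous_of_continuous A.cont) κ hκ
  refine ⟨η, hη, fun x y hxy v => ?_⟩
  have h1 := h hxy
  rw [dist_eq_norm] at h1
  exact (Io x ∘L Pr x - Io y ∘L Pr y).le_of_opNorm_le h1 v

omit [CompactSpace M] in
lemma c1_iter {φ : M → W} (hφ : ContDiffOn ℝ 1 (φ ∘ r) U) (n : ℕ) :
    ContDiffOn ℝ 1 (φ ∘ g^[n] ∘ r) U := by
  induction n with
  | zero => exact hφ
  | succ n ih =>
    have h : φ ∘ g^[n + 1] ∘ r = (φ ∘ g^[n] ∘ r) ∘ (e ∘ g ∘ r) := funext fun y => by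
      simp only [Function.comp_apply, A.ret, Function.iterate_succ_apply]
    rw [h]
    exact ih.comp A.cg fun y _ => A.sub _

omit [CompactSpace M] in
lemma fderiv_iter {φ : M → W} (hφ : ContDiffOn ℝ 1 (φ ∘ r) U) (n : ℕ) {y : VV N} (hy : y ∈ U) :
    fderiv ℝ (φ ∘ g^[n] ∘ r) y = Dm e r φ (g^[n] (r y)) ∘L Dn e r g n y := by
  have h : φ ∘ g^[n] ∘ r = (φ ∘ r) ∘ (e ∘ g^[n] ∘ r) := funext fun y => by
    simp only [Function.comp_apply, A.ret]
  rw [h]
  exact fderiv_comp y (XBasAX.diffAt A hφ (A.sub _)) (XBasAX.diffAt A (A.c1_iter A.c1 n) hy)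

omit [CompactSpace M] in
lemma Dn_succ (n : ℕ) {y : VV N} (hy : y ∈ U) :
    Dn e r g (n + 1) y = Dm e r (e ∘ g) (g^[n] (r y)) ∘L Dn e r g n y := by
  rw [← A.fderiv_iter (φ := e ∘ g) A.cg n hy, Dn, Function.iterate_succ']
  rfl

omit [CompactSpace M] in
lemma cont_Dn (n : ℕ) : ContinuousOn (Dn e r g n) U :=
  (A.c1_iter A.c1 n).continuousOn_fderiv_of_isOpen A.op le_rfl

omit [CompactSpace M] in
lemma hasFDerivAt_disc (x : M) (y₀ : VV N) (n : ℕ) {b : XX u} (hb : y₀ + Io x b ∈ U) :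
    HasFDerivAt (fun b => e (g^[n] (r (y₀ + Io x b)))) (Dn e r g n (y₀ + Io x b) ∘L Io x) b := by
  have h1 : HasFDerivAt (fun b => y₀ + Io x b) (Io x) b := (Io x).hasFDerivAt.const_add y₀
  exact (XBasAX.diffAt A (A.c1_iter A.c1 n) hb).hasFDerivAt.comp b h1

end Amb


end Pool.Agent.P.MP_5c499f_an
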