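import Pool.Agent.P.MP_5c499f_an.XAmb

/-! Basic facts on hyperbolic systems. -/

set_option autoImplicit false

namespace Pool.Agent.P.MP_5c499f_an

open Filter Topology Metric MeasureTheory Matrix

lemma exists_max_sep {Y : Type*} {R : Y → Y → Prop} (h1 : ∀ y, R y y) (h2 : ∀ y z, R y z → R z y)
    (Z : Set Y) {n : ℝ}
    (h : ∀ E : Finset Y, ↑E ⊆ Z → (E : Set Y).Pairwise (fun y z => ¬ R y z) → (E.card : ℝ) ≤ n) :
    ∃ E : Finset Y, ↑E ⊆ Z ∧ (E : Set Y).Pairwise (fun y z => ¬ R y z) ∧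
      ∀ y ∈ Z, ∃ z ∈ E, R y z := by
  classical
  let P : ℕ → Prop := fun k => ∃ E : Finset Y, ↑E ⊆ Z ∧
    (E : Set Y).Pairwise (fun y z => ¬ R y z) ∧ E.card = k
  have h0 : P 0 := ⟨∅, by simp, by simp, rfl⟩
  obtain ⟨E, e1, e2, e3⟩ : P (Nat.findGreatest P ⌈n⌉₊) :=
    Nat.findGreatest_spec (Nat.zero_le _) h0
  refine ⟨E, e1, e2, fun y hy => ?_⟩
  by_contra hc
  push Not at hc
  have hyE : y ∉ E := fun hh => hc y hh (h1 y)
  have s1 : (↑(insert y E) : Set Y) ⊆ Z := by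
    rw [Finset.coe_insert]
    exact Set.insert_subset hy e1
  have s2 : (↑(insert y E) : Set Y).Pairwise (fun y z => ¬ R y z) := by
    rw [Finset.coe_insert, Set.pairwise_insert]
    exact ⟨e2, fun z hz _ => ⟨hc z hz, fun hh => hc z hz (h2 _ _ hh)⟩⟩
  have s3 : (insert y E).card ≤ ⌈n⌉₊ := by
    have := (h _ s1 s2).trans (Nat.le_ceil n)
    exact_mod_cast this
  have s4 := Nat.le_findGreatest (P := P) s3 ⟨_, s1, s2, rfl⟩
  rw [Finset.card_insert_of_notMem hyE] at s4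
  omega

lemma card_le_of_cover {Y : Type*} {R : Y → Y → Prop} {E E' : Finset Y} {n : ℝ}
    (h1 : ∀ y ∈ E, ∃ z ∈ E', R y z)
    (h2 : ∀ z ∈ E', ∀ D : Finset Y, D ⊆ E → (∀ y ∈ D, R y z) → (D.card : ℝ) ≤ n) :
    (E.card : ℝ) ≤ E'.card * n := by
  classical
  have s1 : E ⊆ E'.biUnion fun z => E.filter fun y => R y z := fun y hy => by
    obtain ⟨z, z1, z2⟩ := h1 y hy
    exact Finset.mem_biUnion.2 ⟨z, z1, Finset.mem_filter.2 ⟨hy, z2⟩⟩
  have s2 := (Finset.card_le_card s1).trans Finset.card_biUnion_le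
  have s3 : (E.card : ℝ) ≤ ∑ z ∈ E', ((E.filter fun y => R y z).card : ℝ) := by exact_mod_cast s2
  refine s3.trans ?_
  rw [← nsmul_eq_mul]
  exact Finset.sum_le_card_nsmul _ _ _ fun z hz =>
    h2 z hz _ (Finset.filter_subset _ _) fun y hy => (Finset.mem_filter.1 hy).2

variable {Y Γ : Type*} [MetricSpace Y] [Group Γ] [MulAction Γ Y] {F : Equiv.Perm Y}
  {Φ : MulAut Γ} {ε δ C a b : ℝ}

namespace XBasYX

lemma asym_iff {G : Equiv.Perm Y} {x y : Y} :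
    Asym G x y ↔ ∀ η, 0 < η → ∃ T : ℕ, St G T η x y := by
  simp only [Asym, ← Equiv.Perm.coe_pow, Metric.tendsto_atTop, dist_zero_right,
    Real.norm_of_nonneg dist_nonneg]
  refine ⟨fun h η hη => (h η hη).imp fun T hT k hk => ?_, fun h η hη =>
    (h _ (half_pos hη)).imp fun T hT k hk => ?_⟩
  · obtain ⟨k, rfl⟩ := Int.eq_ofNat_of_zero_le (show 0 ≤ k by omega)
    simpa using (hT k (by omega)).le
  · simpa using (hT k (by omega)).trans_lt (half_lt_self hη)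

lemma asym_iff' {G : Equiv.Perm Y} {x y : Y} :
    Asym (G⁻¹ : Equiv.Perm Y) x y ↔ ∀ η, 0 < η → ∃ T : ℕ, Un G (-T) η x y := by
  simp only [asym_iff, St, Un, _root_.inv_zpow']
  refine forall₂_congr fun η _ => exists_congr fun T => ⟨fun h k hk => ?_, fun h k hk =>
    h _ (by omega)⟩
  simpa using h (-k) (by omega)

lemma exists_pow_le {C a η : ℝ} (ha : 0 ≤ a) (ha' : a < 1) (hη : 0 < η) :
    ∃ j : ℕ, C * a ^ j ≤ η := by
  have h2 : Tendsto (fun j : ℕ => C * a ^ j) atTop (𝓝 (C * 0)) :=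
    (tendsto_pow_atTop_nhds_zero_of_lt_one ha ha').const_mul C
  rw [mul_zero] at h2
  exact (h2.eventually (ge_mem_nhds hη)).exists

lemma fin_net {K : Set Y} (hK : IsCompact K) {η : ℝ} (hη : 0 < η) :
    ∃ T : Finset Y, ∀ y ∈ K, ∃ t ∈ T, dist y t < η := by
  obtain ⟨T, -, t1, t2⟩ := finite_cover_balls_of_compact hK hη
  refine ⟨t1.toFinset, fun y hy => ?_⟩
  obtain ⟨c, c1, c2⟩ := Set.mem_iUnion₂.1 (t2 hy)
  exact ⟨c, t1.mem_toFinset.2 c1, mem_ball.1 c2⟩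

end XBasYX

open XBasYX

lemma Asym.refl (G : Y → Y) (x : Y) : Asym G x x := by
  simp [Asym]

lemma Asym.symm {G : Y → Y} {x y : Y} (h : Asym G x y) : Asym G y x := by
  unfold Asym at *
  simpa only [dist_comm] using h

lemma Asym.trans {G : Y → Y} {x y z : Y} (h : Asym G x y) (h' : Asym G y z) : Asym G x z := by
  unfold Asym at *
  have := h.add h'
  rw [add_zero] at this
  exact squeeze_zero (fun _ => dist_nonneg) (fun _ => dist_triangle _ _ _) this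

lemma Sep.mono {n n' : ℤ} {η η' : ℝ} {E E' : Finset Y} (h : Sep F n η E) (hn : n ≤ n')
    (hη : η' ≤ η) (hE : E' ⊆ E) : Sep F n' η' E' :=
  fun _ hy _ hy' hne hu => h (hE hy) (hE hy') hne (hu.mono hn hη)

lemma LH.asym_of_st (h : LH F ε δ C a b) {x y : Y} {l : ℤ} (e : St F l (4 * ε) x y) :
    Asym F x y := by
  refine XBasYX.asym_iff.2 fun η hη => ?_
  obtain ⟨j, hj⟩ := exists_pow_le (C := C) h.a_nonneg h.a_lt hη
  exact ⟨(l + j).toNat, (h.cs' e j).mono (by omega) hj⟩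

lemma LH.asym_of_un (h : LH F ε δ C a b) {x y : Y} {l : ℤ} (e : Un F l (4 * ε) x y) :
    Asym (F⁻¹ : Equiv.Perm Y) x y := by
  refine XBasYX.asym_iff'.2 fun η hη => ?_
  obtain ⟨j, hj⟩ := exists_pow_le (C := C) h.b_nonneg h.b_lt hη
  exact ⟨(j - l).toNat, (h.cu' e j).mono (by omega) hj⟩

lemma LH.asym_st (h : LH F ε δ C a b) {x y : Y} : Asym F x y ↔ ∃ T : ℕ, St F T ε x y :=
  ⟨fun e => XBasYX.asym_iff.1 e ε h.ε_pos, fun ⟨_, e⟩ =>
    h.asym_of_st (e.mono le_rfl (by linarith [h.ε_pos]))⟩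

lemma LH.asym_un (h : LH F ε δ C a b) {x y : Y} :
    Asym (F⁻¹ : Equiv.Perm Y) x y ↔ ∃ T : ℕ, Un F (-T) ε x y :=
  ⟨fun e => XBasYX.asym_iff'.1 e ε h.ε_pos, fun ⟨_, e⟩ =>
    h.asym_of_un (e.mono le_rfl (by linarith [h.ε_pos]))⟩

namespace Hs

variable (S : Hs F Φ ε δ C a b)
include S

lemma eqv_zpow (k : ℤ) (g : Γ) (x : Y) : (F ^ k) (g • x) = (Φ ^ k) g • (F ^ k) x :=
  equiv_zpow (act := fun (g : Γ) (x : Y) => g • x) S.eqv k g x

lemma st_smul (g : Γ) {k : ℤ} {r : ℝ} {x y : Y} : St F k r (g • x) (g • y) ↔ St F k r x y := by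
  simp only [St, S.eqv_zpow, S.iso]

lemma un_smul (g : Γ) {k : ℤ} {r : ℝ} {x y : Y} : Un F k r (g • x) (g • y) ↔ Un F k r x y := by
  simp only [Un, S.eqv_zpow, S.iso]

lemma asym_smul (g : Γ) {x y : Y} : Asym F (g • x) (g • y) ↔ Asym F x y := by
  simp only [XBasYX.asym_iff, S.st_smul]

lemma asym_smul' (g : Γ) {x y : Y} :
    Asym (F⁻¹ : Equiv.Perm Y) (g • x) (g • y) ↔ Asym (F⁻¹ : Equiv.Perm Y) x y := by
  simp only [XBasYX.asym_iff', S.un_smul]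

lemma free_st {g : Γ} {y : Y} (h : Asym F (g • y) y) : g = 1 := by
  obtain ⟨T, hT⟩ := S.lh.asym_st.1 h
  have h1 := hT T le_rfl
  rw [S.eqv_zpow] at h1
  have h2 := S.disc _ _ (h1.trans (by linarith [S.lh.ε_pos]))
  exact (map_eq_one_iff _ (Φ ^ (T : ℤ)).injective).1 h2

lemma free_un {g : Γ} {y : Y} (h : Asym (F⁻¹ : Equiv.Perm Y) (g • y) y) : g = 1 := by
  obtain ⟨T, hT⟩ := S.lh.asym_un.1 h
  have h1 := hT (-T) le_rfl
  rw [S.eqv_zpow] at h1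
  have h2 := S.disc _ _ (h1.trans (by linarith [S.lh.ε_pos]))
  exact (map_eq_one_iff _ (Φ ^ (-T : ℤ)).injective).1 h2

lemma net {η : ℝ} (hη : 0 < η) : ∃ T : Finset Y, ∀ y, ∃ g : Γ, ∃ t ∈ T, dist y (g • t) ≤ η := by
  obtain ⟨K, hK, hc⟩ := S.cpt
  obtain ⟨T, hT⟩ := fin_net hK hη
  refine ⟨T, fun y => ?_⟩
  obtain ⟨g, hg⟩ := hc y
  obtain ⟨t, t1, t2⟩ := hT _ hg
  refine ⟨g, t, t1, ?_⟩
  rw [← S.iso g⁻¹, inv_smul_smul]
  exact t2.le

lemma pair : ∃ K : Set Y, IsCompact K ∧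
    ∀ y, ∃ g : Γ, ∀ y', dist y' y ≤ 4 * ε → g⁻¹ • y' ∈ K := by
  have hε := S.lh.ε_pos
  obtain ⟨K, hK, hc⟩ := S.cpt
  obtain ⟨T, hT⟩ := fin_net hK (half_pos hε)
  have hsub : ∀ t t' : Y, {g : Γ | dist t (g • t') ≤ 5 * ε}.Subsingleton := fun t t' g hg g' hg' => by
    have h1 : dist ((g'⁻¹ * g) • t') t' ≤ 10 * ε := by
      rw [← S.iso g', mul_smul, smul_inv_smul]
      have := dist_triangle_left (g • t') (g' • t') t
      simp only [Set.mem_ofPred_eq] at hg hg'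
      linarith
    exact (inv_mul_eq_one.1 (S.disc _ _ h1)).symm
  have hfin : (⋃ t ∈ (T : Set Y), ⋃ t' ∈ (T : Set Y), {g : Γ | dist t (g • t') ≤ 5 * ε}).Finite :=
    T.finite_toSet.biUnion fun t _ => T.finite_toSet.biUnion fun t' _ => (hsub t t').finite
  have hcont : ∀ g : Γ, Continuous fun y : Y => g • y := fun g =>
    (Isometry.of_dist_eq (S.iso g)).continuous
  refine ⟨_, hfin.isCompact_biUnion fun g _ => hK.image (hcont g), fun y => ?_⟩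
  obtain ⟨g, hg⟩ := hc y
  refine ⟨g, fun y' hy' => ?_⟩
  obtain ⟨h, hh⟩ := hc (g⁻¹ • y')
  obtain ⟨t, t1, t2⟩ := hT _ hg
  obtain ⟨t', t1', t2'⟩ := hT _ hh
  refine Set.mem_biUnion (x := h) (Set.mem_biUnion (x := t) t1 (Set.mem_biUnion (x := t') t1' ?_))
    ⟨_, hh, smul_inv_smul _ _⟩
  have e1 : dist (g⁻¹ • y') (h • t') < ε / 2 := by
    rw [← S.iso h⁻¹, inv_smul_smul]
    exact t2'
  have e2 : dist (g⁻¹ • y) (g⁻¹ • y') ≤ 4 * ε := by rw [S.iso, dist_comm]; exact hy'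
  have e3 := dist_triangle4 t (g⁻¹ • y) (g⁻¹ • y') (h • t')
  rw [dist_comm] at t2
  show dist t (h • t') ≤ 5 * ε
  linarith

lemma bdd {W : Type*} [NormedAddCommGroup W] {φ : Y → W} (h1 : Continuous φ)
    (h2 : ∀ (g : Γ) y, φ (g • y) = φ y) : ∃ R, ∀ y, ‖φ y‖ ≤ R := by
  obtain ⟨K, hK, hc⟩ := S.cpt
  obtain ⟨R, hR⟩ := hK.exists_bound_of_continuousOn h1.continuousOn
  refine ⟨R, fun y => ?_⟩
  obtain ⟨g, hg⟩ := hc y
  rw [← h2 g⁻¹]
  exact hR _ hg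

lemma ucd {W : Type*} [NormedAddCommGroup W] {φ : Y → W} (h1 : Continuous φ)
    (h2 : ∀ (g : Γ) y y', φ (g • y) - φ (g • y') = φ y - φ y') :
    UniformContinuous φ ∧ ∃ R, ∀ y y', dist y y' ≤ 4 * ε → ‖φ y - φ y'‖ ≤ R := by
  constructor
  · obtain ⟨K, hK, hc⟩ := S.cpt
    have : IsIsometricSMul Γ Y := ⟨fun g => Isometry.of_dist_eq (S.iso g)⟩
    exact uc_of_inv (Γ := Γ) hK hc h1 fun g x y => by rw [dist_eq_norm, dist_eq_norm, h2]
  · obtain ⟨K, hK, hc⟩ := S.pair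
    obtain ⟨R, hR⟩ := hK.exists_bound_of_continuousOn h1.continuousOn
    refine ⟨R + R, fun y y' e => ?_⟩
    obtain ⟨g, hg⟩ := hc y'
    rw [← h2 g⁻¹]
    exact (norm_sub_le _ _).trans (add_le_add (hR _ (hg y e))
      (hR _ (hg y' (by rw [dist_self]; linarith [S.lh.ε_pos]))))

lemma dbl {η : ℝ} (hη : 0 < η) : ∃ n : ℕ, ∀ x (l : ℤ) (E : Finset Y),
    (∀ y ∈ E, Un F l (4 * ε) y x) → Sep F l η E → E.card ≤ n := by
  classical
  obtain ⟨j, hj⟩ := exists_pow_le (C := C) S.lh.b_nonneg S.lh.b_lt (half_pos hη)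
  obtain ⟨η', e0, e1⟩ : ∃ η', 0 < η' ∧ ∀ i : ℕ, i ≤ j → ∀ u v : Y, dist u v ≤ η' →
      dist ((F ^ (-(i : ℤ))) u) ((F ^ (-(i : ℤ))) v) ≤ η := by
    choose r r0 hr using fun s : Fin (j + 1) =>
      uniformContinuous_iff_le.1 (uc_zpow S.uc S.uc' (-((s : ℕ) : ℤ))) η hη
    obtain ⟨R, hR⟩ := Finite.exists_le fun s => (r s)⁻¹
    refine ⟨(max R 1)⁻¹, by positivity, fun i hi u v e => ?_⟩
    exact hr ⟨i, by omega⟩ (e.trans (inv_le_of_inv_le₀ (r0 _) ((hR _).trans (le_max_left _ _))))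
  obtain ⟨K, hK, hc⟩ := S.pair
  obtain ⟨T, hT⟩ := fin_net hK (half_pos e0)
  refine ⟨T.card, fun x l E hE hs => ?_⟩
  obtain ⟨g, hg⟩ := hc ((F ^ l) x)
  have hm : ∀ y, ∃ t, y ∈ E → t ∈ T ∧ dist (g⁻¹ • (F ^ l) y) t < η' / 2 := fun y => by
    by_cases hy : y ∈ E
    · obtain ⟨t, t1, t2⟩ := hT _ (hg _ (hE y hy l le_rfl))
      exact ⟨t, fun _ => ⟨t1, t2⟩⟩
    · exact ⟨x, fun h => absurd h hy⟩
  choose τ hτ using hm
  refine Finset.card_le_card_of_injOn τ (fun y hy => (hτ y hy).1) fun y hy y' hy' e => ?_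
  by_contra hne
  refine hs hy hy' hne fun k hk => ?_
  have d1 : dist ((F ^ l) y) ((F ^ l) y') ≤ η' := by
    rw [← S.iso g⁻¹]
    have a1 := (hτ y hy).2
    have a2 := (hτ y' hy').2
    rw [← e] at a2
    linarith [dist_triangle_right (g⁻¹ • (F ^ l) y) (g⁻¹ • (F ^ l) y') (τ y)]
  rcases le_total k (l - j) with hk' | hk'
  · have a1 := S.lh.cu' (hE y hy) j k hk'
    have a2 := S.lh.cu' (hE y' hy') j k hk'
    linarith [dist_triangle_right ((F ^ k) y) ((F ^ k) y') ((F ^ k) x)]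
  · obtain ⟨i, rfl⟩ : ∃ i : ℕ, k = -(i : ℤ) + l := ⟨(l - k).toNat, by omega⟩
    have := e1 i (by omega) _ _ d1
    rwa [zpow_apply_zpow, zpow_apply_zpow] at this

end Hs


end Pool.Agent.P.MP_5c499f_an
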