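import Pool.Agent.P.MP_5c499f_an.XRet

/-! The differential of the retraction and the unstable bundle. -/

set_option autoImplicit false

namespace Pool.Agent.P.MP_5c499f_an

open Bundle Filter Topology
open scoped Manifold ContDiff

variable {E : Type*} [NormedAddCommGroup E] [NormedSpace ℝ E] [FiniteDimensional ℝ E]
  {M : Type*} [MetricSpace M] [CompactSpace M] [ChartedSpace E M] [IsManifold 𝓘(ℝ, E) ∞ M]
  {N : ℕ} {e : M → VV N} {r : VV N → M} {U : Set (VV N)}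
  [RiemannianBundle fun x : M => TangentSpace 𝓘(ℝ, E) x]
  [IsContinuousRiemannianBundle E fun x : M => TangentSpace 𝓘(ℝ, E) x]

namespace XBrAX

/-- the differential of the retraction -/
noncomputable def DR (E : Type*) [NormedAddCommGroup E] [NormedSpace ℝ E] [ChartedSpace E M]
    (e : M → VV N) (r : VV N → M) (x : M) : VV N →L[ℝ] TangentSpace 𝓘(ℝ, E) x :=
  mfderiv 𝓘(ℝ, VV N) 𝓘(ℝ, E) r (e x)

omit [FiniteDimensional ℝ E] [CompactSpace M] [IsManifold 𝓘(ℝ, E) ∞ M]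
  [RiemannianBundle fun x : M => TangentSpace 𝓘(ℝ, E) x]
  [IsContinuousRiemannianBundle E fun x : M => TangentSpace 𝓘(ℝ, E) x] in
lemma mdiff_r (h : Emb E e r U) (x : M) : MDifferentiableAt 𝓘(ℝ, VV N) 𝓘(ℝ, E) r (e x) :=
  (h.c1.contMDiffAt (h.op.mem_nhds (h.sub x))).mdifferentiableAt one_ne_zero

omit [FiniteDimensional ℝ E] [CompactSpace M] [IsManifold 𝓘(ℝ, E) ∞ M]
  [RiemannianBundle fun x : M => TangentSpace 𝓘(ℝ, E) x]
  [IsContinuousRiemannianBundle E fun x : M => TangentSpace 𝓘(ℝ, E) x] in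
lemma mdiff_e (h : Emb E e r U) (x : M) : MDifferentiableAt 𝓘(ℝ, E) 𝓘(ℝ, VV N) e x :=
  (h.smooth x).mdifferentiableAt (by simp)

omit [FiniteDimensional ℝ E] [CompactSpace M] [IsManifold 𝓘(ℝ, E) ∞ M]
  [RiemannianBundle fun x : M => TangentSpace 𝓘(ℝ, E) x]
  [IsContinuousRiemannianBundle E fun x : M => TangentSpace 𝓘(ℝ, E) x] in
lemma DR_De (h : Emb E e r U) (x : M) (w : TangentSpace 𝓘(ℝ, E) x) :
    DR E e r x (mvfderiv 𝓘(ℝ, E) e x w) = w := by
  have h1 := mfderiv_comp_apply x (mdiff_r h x) (mdiff_e h x) w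
  have h2 : ∀ g : M → M, g = id → (mfderiv 𝓘(ℝ, E) 𝓘(ℝ, E) g x w : E) = w := by
    rintro _ rfl
    rw [mfderiv_id]; rfl
  exact h1.symm.trans (h2 (r ∘ e) (funext h.ret))

omit [FiniteDimensional ℝ E] [CompactSpace M] [IsManifold 𝓘(ℝ, E) ∞ M]
  [RiemannianBundle fun x : M => TangentSpace 𝓘(ℝ, E) x]
  [IsContinuousRiemannianBundle E fun x : M => TangentSpace 𝓘(ℝ, E) x] in
lemma De_DR (h : Emb E e r U) (x : M) (v : VV N) :
    mvfderiv 𝓘(ℝ, E) e x (DR E e r x v) = Dm e r e x v := by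
  have h1 := mfderiv_comp_apply_of_eq (e x) (mdiff_e h x) (mdiff_r h x) (h.ret x) v
  rw [mfderiv_eq_fderiv] at h1
  exact h1.symm

omit [FiniteDimensional ℝ E] [CompactSpace M]
  [RiemannianBundle fun x : M => TangentSpace 𝓘(ℝ, E) x]
  [IsContinuousRiemannianBundle E fun x : M => TangentSpace 𝓘(ℝ, E) x] in
lemma cont_DR (h : Emb E e r U) :
    Continuous fun p : M × VV N => (⟨p.1, DR E e r p.1 p.2⟩ : TangentBundle 𝓘(ℝ, E) M) := by
  have h1 := h.c1.continuousOn_tangentMapWithin le_rfl h.op.uniqueMDiffOn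
  have h2 : Continuous fun p : M × VV N =>
      (tangentBundleModelSpaceHomeomorph 𝓘(ℝ, VV N)).symm ((e p.1, p.2) : VV N × VV N) :=
    (tangentBundleModelSpaceHomeomorph 𝓘(ℝ, VV N)).symm.continuous.comp
      ((h.smooth.continuous.comp continuous_fst).prodMk continuous_snd)
  have h3 := h1.comp_continuous h2 fun p => h.sub p.1
  refine h3.congr fun p => ?_
  have h4 : ∀ (y x : M) (w : E), y = x →
      (⟨y, w⟩ : TangentBundle 𝓘(ℝ, E) M) = ⟨x, w⟩ := by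
    rintro y _ w rfl
    rfl
  have h5 : mfderivWithin 𝓘(ℝ, VV N) 𝓘(ℝ, E) r U (e p.1) = mfderiv 𝓘(ℝ, VV N) 𝓘(ℝ, E) r (e p.1) :=
    mfderivWithin_of_mem_nhds (h.op.mem_nhds (h.sub p.1))
  have h6 : (mfderivWithin 𝓘(ℝ, VV N) 𝓘(ℝ, E) r U (e p.1) p.2 : E) = DR E e r p.1 p.2 := by
    rw [h5]; rfl
  refine Eq.trans ?_ (h4 _ _ _ (h.ret p.1))
  rw [← h6]
  rfl

omit [FiniteDimensional ℝ E] [CompactSpace M] in
lemma cont_norm (h : Emb E e r U) : Continuous fun p : M × VV N => ‖DR E e r p.1 p.2‖ := by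
  have h1 := Continuous.inner_bundle (F := E) (E := fun x : M => TangentSpace 𝓘(ℝ, E) x)
    (b := fun p : M × VV N => p.1) (v := fun p => DR E e r p.1 p.2) (w := fun p => DR E e r p.1 p.2)
    (cont_DR h) (cont_DR h)
  refine (Real.continuous_sqrt.comp h1).congr fun p => ?_
  exact (norm_eq_sqrt_real_inner _).symm

end XBrAX

open XBrAX in
theorem Emb.exists_DR (h : Emb E e r U) :
    ∃ (R : ∀ x : M, VV N →L[ℝ] TangentSpace 𝓘(ℝ, E) x) (K : ℝ), 0 < K ∧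
      (∀ v, Continuous fun x => (⟨x, R x v⟩ : TangentBundle 𝓘(ℝ, E) M)) ∧
      (∀ x w, R x (mvfderiv 𝓘(ℝ, E) e x w) = w) ∧
      (∀ x v, mvfderiv 𝓘(ℝ, E) e x (R x v) = Dm e r e x v) ∧
      (∀ x v, ‖R x v‖ ≤ K * ‖v‖) ∧ ∀ x w, ‖mvfderiv 𝓘(ℝ, E) e x w‖ ≤ K * ‖w‖ := by
  have hn := cont_norm h
  have hc : IsCompact ((Set.univ : Set M) ×ˢ Metric.sphere (0 : VV N) 1) :=
    isCompact_univ.prod (isCompact_sphere _ _)
  obtain ⟨K₁, hK₁⟩ := hc.exists_bound_of_continuousOn hn.continuousOn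
  have hD : Continuous fun x => Dm e r e x :=
    ((h.contDiffOn (h.smooth.of_le (by simp))).continuousOn_fderiv_of_isOpen h.op
      le_rfl).comp_continuous h.smooth.continuous h.sub
  have hcl : IsClosed {p : M × VV N | Dm e r e p.1 p.2 = p.2} :=
    isClosed_eq ((hD.comp continuous_fst).clm_apply continuous_snd) continuous_snd
  obtain ⟨c, hc0, hc1⟩ := (hc.inter_right hcl).exists_forall_le' hn.continuousOn (a := 0)
    fun p hp => by
      refine norm_pos_iff.2 fun h0 => ?_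
      have h1 := De_DR h p.1 p.2
      have h2 : Dm e r e p.1 p.2 = p.2 := hp.2
      have h3 : ‖p.2‖ = 1 := mem_sphere_zero_iff_norm.1 hp.1.2
      rw [h0, map_zero, h2] at h1
      rw [← h1, norm_zero] at h3
      exact zero_ne_one h3
  have hsc : ∀ v : VV N, v ≠ 0 → ‖v‖⁻¹ • v ∈ Metric.sphere (0 : VV N) 1 := fun v hv =>
    mem_sphere_zero_iff_norm.2 (norm_smul_inv_norm hv)
  have hsm : ∀ x (v : VV N), ‖DR E e r x (‖v‖⁻¹ • v)‖ = ‖v‖⁻¹ * ‖DR E e r x v‖ := fun x v => by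
    rw [map_smul, norm_smul, norm_inv, norm_norm]
  refine ⟨DR E e r, max K₁ c⁻¹, lt_max_of_lt_right (inv_pos.2 hc0), fun v =>
    (cont_DR h).comp (continuous_id.prodMk continuous_const), DR_De h, De_DR h,
    fun x v => ?_, fun x w => ?_⟩
  · by_cases hv : v = 0
    · simp [hv]
    have h1 := hK₁ (x, ‖v‖⁻¹ • v) ⟨trivial, hsc v hv⟩
    have h2 : 0 < ‖v‖ := norm_pos_iff.2 hv
    rw [norm_norm, hsm, inv_mul_le_iff₀ h2, mul_comm] at h1
    exact h1.trans (mul_le_mul_of_nonneg_right (le_max_left _ _) h2.le)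
  · generalize hv' : mvfderiv 𝓘(ℝ, E) e x w = v
    have h0 : DR E e r x v = w := hv' ▸ DR_De h x w
    by_cases hv : v = 0
    · rw [hv, norm_zero]
      exact mul_nonneg (le_max_of_le_right (inv_pos.2 hc0).le) (norm_nonneg _)
    have h3 : Dm e r e x v = v := by rw [← De_DR h, h0, hv']
    have h1 := hc1 (x, ‖v‖⁻¹ • v) ⟨⟨trivial, hsc v hv⟩, by
      show Dm e r e x (‖v‖⁻¹ • v) = ‖v‖⁻¹ • v
      rw [map_smul, h3]⟩
    have h2 : 0 < ‖v‖ := norm_pos_iff.2 hv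
    rw [hsm, le_inv_mul_iff₀ h2, h0, ← le_div_iff₀ hc0, div_eq_inv_mul] at h1
    exact h1.trans (mul_le_mul_of_nonneg_right (le_max_right _ _) (norm_nonneg _))

omit [RiemannianBundle fun x : M => TangentSpace 𝓘(ℝ, E) x]
  [IsContinuousRiemannianBundle E fun x : M => TangentSpace 𝓘(ℝ, E) x] in
theorem Emb.cont_De (h : Emb E e r U) :
    Continuous fun p : TangentBundle 𝓘(ℝ, E) M => mvfderiv 𝓘(ℝ, E) e p.1 p.2 := by
  have h1 := h.smooth.continuous_tangentMap (by simp)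
  have h2 : Continuous fun q : ModelProd (VV N) (VV N) => q.2 := continuous_snd
  exact h2.comp ((tangentBundleModelSpaceHomeomorph 𝓘(ℝ, VV N)).continuous.comp h1)

theorem decays_iff (f : Diffeomorph 𝓘(ℝ, E) 𝓘(ℝ, E) M M 1)
    {P : ∀ x : M, TangentSpace 𝓘(ℝ, E) x →L[ℝ] TangentSpace 𝓘(ℝ, E) x} {C lam : ℝ}
    (h0 : 0 < lam) (h1 : lam < 1) (p1 : ∀ x v, P x (P x v) = P x v)
    (p2 : ∀ x v, mfderiv 𝓘(ℝ, E) 𝓘(ℝ, E) f x (P x v) = P (f x) (mfderiv 𝓘(ℝ, E) 𝓘(ℝ, E) f x v))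
    (p3 : ∀ (x : M) (n : ℕ) (v : TangentSpace 𝓘(ℝ, E) x),
      (P x v = 0 → ‖mfderiv 𝓘(ℝ, E) 𝓘(ℝ, E) f^[n] x v‖ ≤ C * lam ^ n * ‖v‖) ∧
      (P x v = v → ‖v‖ ≤ C * lam ^ n * ‖mfderiv 𝓘(ℝ, E) 𝓘(ℝ, E) f^[n] x v‖))
    (x : M) (w : TangentSpace 𝓘(ℝ, E) x) : Decays E f.symm x w ↔ P x w = w := by
  have d1 := fun n => (f.contMDiff.iterate n).mdifferentiable one_ne_zero
  have d2 := fun n => (f.symm.contMDiff.iterate n).mdifferentiable one_ne_zero
  have c3 : ∀ n x v, mfderiv 𝓘(ℝ, E) 𝓘(ℝ, E) f^[n] x (P x v) =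
      P (f^[n] x) (mfderiv 𝓘(ℝ, E) 𝓘(ℝ, E) f^[n] x v) := fun n => by
    induction n with
    | zero => intro x v; simp only [Function.iterate_zero, mfderiv_id]; rfl
    | succ n ih =>
      intro x v
      have d3 := f.contMDiff.mdifferentiable one_ne_zero
      rw [Function.iterate_succ, mfderiv_comp_apply x (d1 n _) (d3 _),
        mfderiv_comp_apply x (d1 n _) (d3 _), p2, ih]
      rfl
  have e2 : ∀ (g : M → M) (y : M) (v : TangentSpace 𝓘(ℝ, E) y), g = id →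
      (mfderiv 𝓘(ℝ, E) 𝓘(ℝ, E) g y v : E) = v := by
    rintro _ y v rfl
    rw [mfderiv_id]; rfl
  have inj : ∀ n y, Function.Injective (mfderiv 𝓘(ℝ, E) 𝓘(ℝ, E) f^[n] y) := by
    intro n y v v' hv
    have a1 := mfderiv_comp_apply y (d2 n _) (d1 n _) v
    have a2 := mfderiv_comp_apply y (d2 n _) (d1 n _) v'
    rw [hv, ← a2] at a1
    have a3 := e2 _ y v (funext (Function.LeftInverse.iterate f.symm_apply_apply n))
    have a4 := e2 _ y v' (funext (Function.LeftInverse.iterate f.symm_apply_apply n))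
    exact a3.symm.trans (a1.trans a4)
  have hx : ∀ n, f^[n] (f.symm^[n] x) = x := fun n =>
    Function.LeftInverse.iterate f.apply_symm_apply n x
  have inv : ∀ n (v : TangentSpace 𝓘(ℝ, E) x), (mfderiv 𝓘(ℝ, E) 𝓘(ℝ, E) f^[n] (f.symm^[n] x)
      (mfderiv 𝓘(ℝ, E) 𝓘(ℝ, E) f.symm^[n] x v) : E) = v := fun n v =>
    (mfderiv_comp_apply x (d1 n _) (d2 n _) v).symm.trans
      (e2 _ x v (funext (Function.LeftInverse.iterate f.apply_symm_apply n)))
  have tn : ∀ (y : M) (a : TangentSpace 𝓘(ℝ, E) y) (b : TangentSpace 𝓘(ℝ, E) x), y = x →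
      (a : E) = b → ‖a‖ = ‖b‖ ∧ (P y a : E) = P x b := by
    rintro _ a b rfl hab
    obtain rfl : a = b := hab
    exact ⟨rfl, rfl⟩
  have hlim : Tendsto (fun n : ℕ => C * lam ^ n) atTop (𝓝 0) := by
    simpa using (tendsto_pow_atTop_nhds_zero_of_lt_one h0.le h1).const_mul C
  have un : ∀ v : TangentSpace 𝓘(ℝ, E) x, P x v = v → Decays E f.symm x v := by
    intro v hv
    refine squeeze_zero (g := fun n => C * lam ^ n * ‖v‖) (fun n => norm_nonneg _) (fun n => ?_)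
      (by simpa using hlim.mul_const ‖v‖)
    obtain ⟨t1, t2⟩ := tn _ _ v (hx n) (inv n v)
    rw [← t1]
    refine (p3 _ n _).2 (inj n _ ?_)
    rw [c3]
    exact t2.trans (hv.trans (inv n v).symm)
  refine ⟨fun hw => ?_, un w⟩
  have hp : P x (w - P x w) = 0 := by rw [map_sub, p1, sub_self]
  have hle : ∀ n, ‖w - P x w‖ ≤ C * lam ^ n * ‖mfderiv 𝓘(ℝ, E) 𝓘(ℝ, E) f.symm^[n] x (w - P x w)‖ := by
    intro n
    obtain ⟨t1, t2⟩ := tn _ _ _ (hx n) (inv n (w - P x w))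
    rw [← t1]
    refine (p3 _ n _).1 (inj n _ ?_)
    rw [c3, map_zero]
    exact t2.trans hp
  have hdec : Tendsto (fun n : ℕ => ‖mfderiv 𝓘(ℝ, E) 𝓘(ℝ, E) f.symm^[n] x (w - P x w)‖) atTop
      (𝓝 0) := by
    have a1 := Tendsto.add hw (un _ (p1 x w))
    rw [add_zero] at a1
    refine squeeze_zero (fun n => norm_nonneg _) (fun n => ?_) a1
    rw [map_sub]
    exact norm_sub_le _ _
  have a2 := hlim.mul hdec
  rw [mul_zero] at a2
  have a3 : ‖w - P x w‖ ≤ 0 := ge_of_tendsto' a2 hle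
  exact (sub_eq_zero.1 (norm_le_zero_iff.1 a3)).symm

end Pool.Agent.P.MP_5c499f_an
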