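import Pool.Agent.P.MP_5c499f_an.XBrA
import Pool.Agent.P.MP_5c499f_an.GCore

/-! The ambient package of an Anosov diffeomorphism. -/

set_option autoImplicit false

namespace Pool.Agent.P.MP_5c499f_an

open Bundle Filter Topology
open scoped Manifold ContDiff

namespace XBridgeX

/-- Orthonormal coordinates on a subspace of the ambient space. -/
theorem exists_frame {N u : ℕ} (S : Submodule ℝ (VV N)) (hS : Module.finrank ℝ S = u) :
    ∃ (p : VV N →L[ℝ] XX u) (Io : XX u →L[ℝ] VV N), (∀ b, p (Io b) = b) ∧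
      (∀ y ∈ S, Io (p y) = y) ∧ (∀ b, Io b ∈ S) ∧ (∀ y, ‖p y‖ ≤ ‖y‖) ∧
      ∀ b, ‖Io b‖ ≤ u * ‖b‖ := by
  let B : OrthonormalBasis (Fin u) ℝ S := (stdOrthonormalBasis ℝ S).reindex (finCongr hS)
  have hB : Orthonormal ℝ fun j => (B j : VV N) := B.orthonormal.comp_linearIsometry S.subtypeₗᵢ
  let p : VV N →L[ℝ] XX u := ContinuousLinearMap.pi fun j => innerSL ℝ (B j : VV N)
  let Io : XX u →L[ℝ] VV N :=
    ∑ j, (ContinuousLinearMap.proj j : XX u →L[ℝ] ℝ).smulRight (B j : VV N)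
  have hp : ∀ y j, p y j = inner ℝ (B j : VV N) y := fun _ _ => rfl
  have hI : ∀ b, Io b = ∑ j, b j • (B j : VV N) := fun b => by
    simp [Io]
  refine ⟨p, Io, fun b => ?_, fun y hy => ?_, fun b => ?_, fun y => ?_, fun b => ?_⟩
  · ext j
    rw [hp, hI, hB.inner_right_fintype]
  · have := congrArg Subtype.val (B.sum_repr' ⟨y, hy⟩)
    rw [hI]
    simpa [hp] using this
  · rw [hI]
    exact S.sum_mem fun j _ => S.smul_mem _ (B j).2
  · refine (pi_norm_le_iff_of_nonneg (norm_nonneg _)).2 fun j => ?_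
    rw [hp]
    simpa [hB.1 j] using norm_inner_le_norm (𝕜 := ℝ) (B j : VV N) y
  · rw [hI]
    refine (norm_sum_le _ _).trans ?_
    have : ∀ j ∈ (Finset.univ : Finset (Fin u)), ‖b j • (B j : VV N)‖ ≤ ‖b‖ := fun j _ => by
      rw [norm_smul, hB.1 j, mul_one]
      exact norm_le_pi_norm b j
    simpa using Finset.sum_le_sum this

end XBridgeX

variable {E : Type*} [NormedAddCommGroup E] [NormedSpace ℝ E] [FiniteDimensional ℝ E]
  {M : Type*} [MetricSpace M] [CompactSpace M] [ChartedSpace E M] [IsManifold 𝓘(ℝ, E) ∞ M]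
  {N : ℕ} {e : M → VV N} {r : VV N → M} {U : Set (VV N)}
  [RiemannianBundle fun x : M => TangentSpace 𝓘(ℝ, E) x]
  [IsContinuousRiemannianBundle E fun x : M => TangentSpace 𝓘(ℝ, E) x]

namespace XBridgeX

omit [RiemannianBundle fun x : M => TangentSpace 𝓘(ℝ, E) x]
  [IsContinuousRiemannianBundle E fun x : M => TangentSpace 𝓘(ℝ, E) x] in
/-- The ambient differential only sees the tangential part of a vector. -/
theorem Dm_Dm (h : Emb E e r U) {φ : M → VV N} (hφ : ContMDiff 𝓘(ℝ, E) 𝓘(ℝ, VV N) 1 φ) (x : M)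
    (v : VV N) : Dm e r φ x (Dm e r e x v) = Dm e r φ x v := by
  have hU := h.op.mem_nhds (h.sub x)
  have d1 : DifferentiableAt ℝ (φ ∘ r) (e x) :=
    ((h.contDiffOn hφ).contDiffAt hU).differentiableAt one_ne_zero
  have d2 : DifferentiableAt ℝ (e ∘ r) (e x) :=
    ((h.contDiffOn (h.smooth.of_le (by exact_mod_cast le_top))).contDiffAt hU).differentiableAt
      one_ne_zero
  have e1 : (e ∘ r) (e x) = e x := by simp [h.ret]
  have e2 : (φ ∘ r) ∘ (e ∘ r) = φ ∘ r := by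
    ext1 y
    simp [h.ret]
  have := fderiv_comp (e x) (e1.symm ▸ d1) d2
  rw [e1, e2] at this
  unfold Dm
  conv_rhs => rw [this]
  rfl

end XBridgeX

open XBridgeX

theorem exists_amb (h : Emb E e r U) (f : Diffeomorph 𝓘(ℝ, E) 𝓘(ℝ, E) M M 1) (hf : IsAnosov E f)
    {u : ℕ} (hu : ∀ x, ∃ v : Fin u → TangentSpace 𝓘(ℝ, E) x, LinearIndependent ℝ v ∧
      ∀ w, Decays E f.symm x w ↔ w ∈ Submodule.span ℝ (Set.range v)) :
    ∃ (Pr : M → VV N →L[ℝ] XX u) (Io : M → XX u →L[ℝ] VV N) (C₀ : ℝ),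
      (∀ x w, Decays E f.symm x w ↔ mvfderiv 𝓘(ℝ, E) e x w ∈ Set.range (Io x)) ∧
      ∀ᶠ K : ℕ in atTop, ∃ a, Amb e r U ((f.toEquiv : Equiv.Perm M) ^ K) Pr Io C₀ a := by
  obtain ⟨P, D, q, hD, q0, q1, hP, p1, p2, p3⟩ := hf
  obtain ⟨R, K, hK, r1, r2, r3, r4, r5⟩ := h.exists_DR
  have hdec := decays_iff f q0 q1 p1 p2 p3
  have he1 : ContMDiff 𝓘(ℝ, E) 𝓘(ℝ, VV N) 1 e := h.smooth.of_le (by exact_mod_cast le_top)
  have hinj : ∀ x, Function.Injective (mvfderiv 𝓘(ℝ, E) e x) := fun x =>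
    Function.LeftInverse.injective (r2 x)
  have key : ∀ x, ∃ (p : VV N →L[ℝ] XX u) (Io : XX u →L[ℝ] VV N), (∀ b, p (Io b) = b) ∧
      (∀ w, P x w = w → Io (p (mvfderiv 𝓘(ℝ, E) e x w)) = mvfderiv 𝓘(ℝ, E) e x w) ∧
      (∀ b, ∃ w, P x w = w ∧ mvfderiv 𝓘(ℝ, E) e x w = Io b) ∧ (∀ y, ‖p y‖ ≤ ‖y‖) ∧
      ∀ b, ‖Io b‖ ≤ u * ‖b‖ := by
    intro x
    obtain ⟨v, hv, hw⟩ := hu x
    have hfin : Module.finrank ℝ
        ((Submodule.span ℝ (Set.range v)).map (mvfderiv 𝓘(ℝ, E) e x).toLinearMap) = u := by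
      rw [← (Submodule.equivMapOfInjective _ (hinj x) _).finrank_eq, finrank_span_eq_card hv,
        Fintype.card_fin]
    obtain ⟨p, Io, a1, a2, a3, a4, a5⟩ := exists_frame _ hfin
    refine ⟨p, Io, a1, fun w hw' => a2 _ ⟨w, (hw w).1 ((hdec x w).2 hw'), rfl⟩, fun b => ?_, a4, a5⟩
    obtain ⟨w, h1, h2⟩ := a3 b
    exact ⟨w, (hdec x w).1 ((hw w).2 h1), h2⟩
  choose p Io a1 a2 a3 a4 a5 using key
  let Q : M → VV N →L[ℝ] VV N := fun x => mvfderiv 𝓘(ℝ, E) e x ∘L P x ∘L R x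
  have hQ : ∀ x v, Q x v = mvfderiv 𝓘(ℝ, E) e x (P x (R x v)) := fun _ _ => rfl
  have cQ : Continuous Q := continuous_clm_apply.2 fun v => h.cont_De.comp (hP.comp (r1 v))
  obtain ⟨B, hB⟩ := (isCompact_range cQ.norm).bddAbove
  have hB' : ∀ x, ‖Q x‖ ≤ max B 0 := fun x => (hB ⟨x, rfl⟩).trans (le_max_left _ _)
  have hB0 : 0 ≤ max B 0 := le_max_right _ _
  have hu0 : (0 : ℝ) ≤ u := Nat.cast_nonneg u
  let Pr : M → VV N →L[ℝ] XX u := fun x => p x ∘L Q x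
  have hPr : ∀ x v, Pr x v = p x (Q x v) := fun _ _ => rfl
  have hIP : ∀ x v, Io x (Pr x v) = Q x v := fun x v => by
    rw [hPr, hQ]; exact a2 x _ (p1 x _)
  refine ⟨Pr, Io, 1 + max B 0 + u, fun x w => ?_, ?_⟩
  · rw [hdec]
    refine ⟨fun hw => ⟨_, a2 x w hw⟩, fun ⟨b, hb⟩ => ?_⟩
    obtain ⟨w', h1, h2⟩ := a3 x b
    rwa [← hinj x (h2.trans hb)]
  have hev := ((tendsto_pow_atTop_nhds_zero_of_lt_one q0.le q1).const_mul
    (10 * (1 + max B 0 + u) ^ 2 * (K ^ 2 * D))).eventually_lt_const (show _ < (1 : ℝ) by simp)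
  have c3 : ∀ n x v, mfderiv 𝓘(ℝ, E) 𝓘(ℝ, E) f^[n] x (P x v) =
      P (f^[n] x) (mfderiv 𝓘(ℝ, E) 𝓘(ℝ, E) f^[n] x v) := fun n => by
    induction n with
    | zero => intro x v; simp only [Function.iterate_zero, mfderiv_id]; rfl
    | succ n ih =>
      intro x v
      have d1 := (f.contMDiff.iterate n).mdifferentiable one_ne_zero
      have d2 := f.contMDiff.mdifferentiable one_ne_zero
      rw [Function.iterate_succ, mfderiv_comp_apply x (d1 _) (d2 _),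
        mfderiv_comp_apply x (d1 _) (d2 _), p2, ih]
      rfl
  filter_upwards [hev] with n hn
  have c1 : ⇑((f.toEquiv : Equiv.Perm M) ^ n) = f^[n] := Equiv.Perm.coe_pow _ _
  have c2 : ⇑((f.toEquiv : Equiv.Perm M) ^ n)⁻¹ = f.symm^[n] := by
    rw [← inv_pow]; exact Equiv.Perm.coe_pow _ _
  have g1 := he1.comp (f.contMDiff.iterate n)
  have g2 := he1.comp (f.symm.contMDiff.iterate n)
  have hDw : ∀ x w, Dm e r (e ∘ f^[n]) x (mvfderiv 𝓘(ℝ, E) e x w) =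
      mvfderiv 𝓘(ℝ, E) e (f^[n] x) (mfderiv 𝓘(ℝ, E) 𝓘(ℝ, E) f^[n] x w) := fun x w => by
    rw [h.Dm_De g1]
    exact mfderiv_comp_apply x (he1.mdifferentiable one_ne_zero _)
      ((f.contMDiff.iterate n).mdifferentiable one_ne_zero _) w
  have hDv : ∀ x v, Dm e r (e ∘ f^[n]) x v =
      mvfderiv 𝓘(ℝ, E) e (f^[n] x) (mfderiv 𝓘(ℝ, E) 𝓘(ℝ, E) f^[n] x (R x v)) := fun x v => by
    rw [← hDw, r3, Dm_Dm h g1]
  have hqn : 0 < q ^ n := pow_pos q0 n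
  refine ⟨K ^ 2 * D * q ^ n, h.iso, h.op, h.sub, h.ret, h.contDiffOn he1, ?_, ?_, by linarith,
    by positivity, by linarith, ?_, fun x b => ?_, fun x v => ?_, fun x b => ?_, fun x b => ?_,
    fun x v => ?_, fun x v hv => ?_, fun x b => ?_⟩
  · rw [c1]; exact h.contDiffOn g1
  · rw [c2]; exact h.contDiffOn g2
  · have : (fun x => Io x ∘L Pr x) = Q := funext fun x => ContinuousLinearMap.ext (hIP x)
    rwa [this]
  · obtain ⟨w, h1, h2⟩ := a3 x b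
    rw [hPr, hQ, ← h2, r2, h1, h2, a1]
  · rw [hPr]
    refine (a4 x _).trans (((Q x).le_opNorm v).trans ?_)
    have := hB' x
    gcongr
    linarith
  · refine (a5 x b).trans ?_
    gcongr
    linarith
  · obtain ⟨w, -, h2⟩ := a3 x b
    rw [← h2, h.Dm_De he1]
  · rw [c1, hIP, hIP, hQ, hQ, hDw, hDv, r2, c3]
  · rw [c1, hDv]
    have h1 : P x (R x v) = 0 := by
      have := hIP x v
      rw [hv, map_zero, hQ] at this
      exact hinj x (by rw [← this, map_zero])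
    calc _ ≤ K * (D * q ^ n * ‖R x v‖) :=
          (r5 _ _).trans (mul_le_mul_of_nonneg_left ((p3 x n _).1 h1) hK.le)
      _ ≤ K * (D * q ^ n * (K * ‖v‖)) := by have := r4 x v; gcongr
      _ = _ := by ring
  · obtain ⟨w, h1, h2⟩ := a3 x b
    rw [c1, ← h2, hDw]
    have h3 := r4 (f^[n] x) (mvfderiv 𝓘(ℝ, E) e (f^[n] x) (mfderiv 𝓘(ℝ, E) 𝓘(ℝ, E) f^[n] x w))
    rw [r2] at h3
    calc _ ≤ K * (D * q ^ n * ‖mfderiv 𝓘(ℝ, E) 𝓘(ℝ, E) f^[n] x w‖) :=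
          (r5 _ _).trans (mul_le_mul_of_nonneg_left ((p3 x n _).2 h1) hK.le)
      _ ≤ K * (D * q ^ n * (K * ‖mvfderiv 𝓘(ℝ, E) e (f^[n] x)
          (mfderiv 𝓘(ℝ, E) 𝓘(ℝ, E) f^[n] x w)‖)) := by gcongr
      _ = _ := by ring

end Pool.Agent.P.MP_5c499f_an
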