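import Pool.Agent.P.MP_5c499f_an.XSpec

/-! The equivariant map generated by finitely many integral characters. -/

set_option autoImplicit false

namespace Pool.Agent.P.MP_5c499f_an

open Filter Topology Metric MeasureTheory Matrix

namespace XCharX

/-- Functions on the group which have a primitive in `𝒞`. -/
def prim (Γ : Type*) {Y : Type*} [Group Γ] [MulAction Γ Y] (𝒞 : Submodule ℝ (Y → ℝ)) :
    Submodule ℝ (Γ → ℝ) where
  carrier := {a | ∃ h ∈ 𝒞, ∀ (g : Γ) y, h (g • y) = h y + a g}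
  zero_mem' := ⟨0, 𝒞.zero_mem, by simp⟩
  add_mem' := fun ⟨h, h1, h2⟩ ⟨k, k1, k2⟩ => ⟨h + k, 𝒞.add_mem h1 k1, fun g y => by
    simp only [Pi.add_apply, h2, k2]; ring⟩
  smul_mem' := fun c _ ⟨h, h1, h2⟩ => ⟨c • h, 𝒞.smul_mem c h1, fun g y => by
    simp only [Pi.smul_apply, h2, smul_eq_mul]; ring⟩

theorem vanish {Γ Y : Type*} [Nonempty Y] [Group Γ] [MulAction Γ Y] {𝒞 : Submodule ℝ (Y → ℝ)}
    {S : Set Γ} (hgen : Subgroup.closure S = ⊤) {a : Γ → ℝ} (ha : a ∈ prim Γ 𝒞)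
    (h : ∀ g ∈ S, a g = 0) : a = 0 := by
  obtain ⟨f, -, hf⟩ := ha
  obtain ⟨y⟩ := ‹Nonempty Y›
  have e : ∀ g g', a (g * g') = a g + a g' := fun g g' => by
    have := hf (g * g') y
    rw [mul_smul, hf, hf] at this
    linarith
  have e1 : a 1 = 0 := by simpa using e 1 1
  funext g
  have hg : g ∈ Subgroup.closure S := hgen ▸ Subgroup.mem_top g
  induction hg using Subgroup.closure_induction with
  | mem x hx => exact h x hx
  | one => exact e1
  | mul x z _ _ hx hz => rw [e, hx, hz]; simp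
  | inv x _ hx =>
    have := e x x⁻¹
    rw [mul_inv_cancel, e1, hx] at this
    simpa using this.symm

theorem count {Γ : Type*} {d : ℕ} {A : Γ → Fin d → ℝ} (t : Finset (Γ → ℝ))
    (h1 : ∀ a ∈ t, ∀ g, ∃ m : ℤ, a g = m) (h2 : ∀ a ∈ t, ∃ l : Fin d → ℝ, ∀ g, a g = l ⬝ᵥ A g)
    (h3 : ∀ g g', (∀ a ∈ t, a g = a g') → A g = A g') :
    ∃ (C : ℝ) (D : ℕ), ∀ R, 0 ≤ R → ∀ s : Finset (Fin d → ℝ),
      (∀ z ∈ s, z ∈ Set.range A ∧ ‖z‖ ≤ R) → (s.card : ℝ) ≤ C * (1 + R) ^ D := by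
  classical
  choose! l hl using h2
  choose! m hm using h1
  set K := ∑ a ∈ t, ∑ k, |l a k|
  have K0 : 0 ≤ K := Finset.sum_nonneg fun _ _ => Finset.sum_nonneg fun _ _ => abs_nonneg _
  refine ⟨(2 * K + 3) ^ t.card, t.card, fun R hR s hs => ?_⟩
  rcases s.eq_empty_or_nonempty with rfl | ⟨z₀, hz₀⟩
  · simp only [Finset.card_empty, Nat.cast_zero]
    positivity
  have : Nonempty Γ := ⟨(hs z₀ hz₀).1.choose⟩
  choose! γ hγ using fun z hz => (hs z hz).1
  set n := ⌈K * R⌉₊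
  have hn : (n : ℝ) ≤ K * R + 1 := (Nat.ceil_lt_add_one (by positivity)).le
  have hc : s.card ≤ (Fintype.piFinset fun _ : t => Finset.Icc (-n : ℤ) n).card := by
    refine Finset.card_le_card_of_injOn (fun z a => m a (γ z)) (fun z hz => ?_)
      fun z hz z' hz' e => ?_
    · refine Finset.mem_coe.2 (Fintype.mem_piFinset.2 fun a => Finset.mem_Icc.2 (abs_le.1 ?_))
      have : |((m a (γ z) : ℤ) : ℝ)| ≤ n := by
        rw [← hm a a.2, hl a a.2, hγ z hz]
        refine ((Finset.abs_sum_le_sum_abs _ _).trans ?_).trans (Nat.le_ceil _)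
        refine le_trans ?_ (mul_le_mul_of_nonneg_right (Finset.single_le_sum
          (f := fun a => ∑ k, |l a k|)
          (fun _ _ => Finset.sum_nonneg fun _ _ => abs_nonneg _) a.2) hR)
        rw [Finset.sum_mul]
        refine Finset.sum_le_sum fun k _ => ?_
        rw [abs_mul]
        exact mul_le_mul_of_nonneg_left ((norm_le_pi_norm z k).trans (hs z hz).2) (abs_nonneg _)
      exact_mod_cast this
    · rw [← hγ z hz, ← hγ z' hz']
      refine h3 _ _ fun a ha => ?_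
      rw [hm a ha, hm a ha]
      exact congrArg _ (congrFun e ⟨a, ha⟩)
  rw [Fintype.card_piFinset, Finset.prod_const, Finset.card_univ, Fintype.card_coe, Int.card_Icc,
    show ((n : ℤ) + 1 - -n).toNat = 2 * n + 1 by omega] at hc
  rw [← mul_pow]
  refine (Nat.cast_le.2 hc).trans ?_
  push_cast
  exact pow_le_pow_left₀ (by positivity) (by nlinarith) _

end XCharX

open XCharX in
theorem exists_ab {Y Γ : Type*} [MetricSpace Y] [Nonempty Y] [Group Γ] [MulAction Γ Y]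
    {F : Equiv.Perm Y} {Φ : MulAut Γ} (eqv : ∀ (g : Γ) x, F (g • x) = Φ g • F x)
    {S : Set Γ} (hS : S.Finite) (hgen : Subgroup.closure S = ⊤) (𝒞 : Submodule ℝ (Y → ℝ))
    (h0 : ∀ h ∈ 𝒞, Continuous h) (h1 : ∀ h ∈ 𝒞, h ∘ F ∈ 𝒞)
    (h2 : ∀ h ∈ 𝒞, h ∘ (F⁻¹ : Equiv.Perm Y) ∈ 𝒞) {ι : Type*} [Finite ι] {h : ι → Y → ℝ}
    {α : ι → Γ → ℤ} (h3 : ∀ i, h i ∈ 𝒞) (h4 : ∀ i (g : Γ) y, h i (g • y) = h i y + α i g) :
    ∃ (d : ℕ) (J : Y → Fin d → ℝ) (A : Γ → Fin d → ℝ) (L : ℤ → Matrix (Fin d) (Fin d) ℝ)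
      (ρ : Fin d → ℝ), Ab Φ J A L ρ ∧ (∀ k, (fun y => J y k) ∈ 𝒞) ∧
      ∀ i, ∃ l : Fin d → ℝ, ∀ g, (α i g : ℝ) = l ⬝ᵥ A g := by
  set Gs : Set (Γ → ℝ) := {a | a ∈ prim Γ 𝒞 ∧ ∀ g, ∃ m : ℤ, a g = m}
  set W := Submodule.span ℝ Gs with hW
  have le : W ≤ prim Γ 𝒞 := Submodule.span_le.2 fun _ ha => ha.1
  have := hS.to_subtype
  have : FiniteDimensional ℝ W := by
    refine FiniteDimensional.of_injective
      ((LinearMap.funLeft ℝ ℝ (Subtype.val : S → Γ)).comp W.subtype)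
      ((injective_iff_map_eq_zero _).2 fun a ha => Subtype.ext ?_)
    exact vanish hgen (le a.2) fun g hg => congrFun ha ⟨g, hg⟩
  have inv : ∀ a ∈ W, LinearMap.funLeft ℝ ℝ Φ a ∈ W := by
    refine fun a ha => Submodule.map_le_iff_le_comap.2 (Submodule.span_le.2 ?_)
      (Submodule.mem_map_of_mem ha)
    rintro a ⟨⟨f, f1, f2⟩, f3⟩
    exact Submodule.subset_span ⟨⟨f ∘ F, h1 f f1, fun g y => by
      simp [eqv, f2, LinearMap.funLeft_apply]⟩, fun g => f3 _⟩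
  obtain ⟨d, β, L, ρ, w1, w2, w3⟩ := exists_wt (LinearEquiv.ofInjectiveEndo
    ((LinearMap.funLeft ℝ ℝ Φ).restrict inv) fun a b e => Subtype.ext
      (LinearMap.funLeft_injective_of_surjective ℝ ℝ _ Φ.surjective (congrArg Subtype.val e)))
  choose J j1 j2 using fun k => le (β k).2
  have rep : ∀ a ∈ W, ∃ l : Fin d → ℝ, ∀ g, a g = l ⬝ᵥ fun k => (β k).1 g := fun a ha => by
    obtain ⟨l, hl⟩ := (Submodule.mem_span_range_iff_exists_fun ℝ).1
      (w2 ▸ Submodule.mem_top : (⟨a, ha⟩ : W) ∈ Submodule.span ℝ (Set.range β))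
    refine ⟨l, fun g => ?_⟩
    have := congrFun (congrArg Subtype.val hl) g
    simpa [dotProduct] using this.symm
  obtain ⟨t, t1, t2⟩ := (Submodule.fg_span_iff_fg_span_finset_subset Gs).1
    ((Submodule.fg_iff_finiteDimensional W).2 ‹_›)
  refine ⟨d, fun y k => J k y, fun g k => (β k).1 g, L, ρ, ⟨w1, continuous_pi fun k => h0 _ (j1 k),
    fun g y => funext fun k => j2 k g y, fun g => funext fun k => ?_, XCharX.count t
      (fun a ha => (t1 ha).2) (fun a ha => rep a (Submodule.subset_span (t1 ha)))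
      fun g g' e => funext fun k => ?_⟩, j1,
    fun i => rep _ (Submodule.subset_span ⟨⟨h i, h3 i, h4 i⟩, fun g => ⟨_, rfl⟩⟩)⟩
  · refine (congrFun (congrArg Subtype.val (w3 k)) g).trans ?_
    simp [mulVec, dotProduct]
  · have : ∀ a ∈ Submodule.span ℝ (t : Set (Γ → ℝ)), a g = a g' := fun a ha => by
      induction ha using Submodule.span_induction with
      | mem x hx => exact e x hx
      | zero => rfl
      | add x z _ _ hx hz => simp [hx, hz]
      | smul c x _ hx => simp [hx]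
    exact this _ (t2 ▸ (β k).2)

end Pool.Agent.P.MP_5c499f_an
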