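import Pool.Agent.P.MP_5c499f_an.XBasY

/-! Exact exponential growth of separated sets. -/

set_option autoImplicit false

namespace Pool.Agent.P.MP_5c499f_an

open Filter Topology Metric MeasureTheory Matrix

variable {Y Γ : Type*} [MetricSpace Y] [Group Γ] [MulAction Γ Y] {F : Equiv.Perm Y}
  {Φ : MulAut Γ} {ε δ C a b : ℝ}

namespace XCntX

/-- A sequence which is sub- and supermultiplicative grows exactly exponentially. -/
lemma fekete {V : ℕ → ℝ} {κ : ℝ} (hκ : 0 < κ) (h1 : ∀ n, 1 ≤ V n)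
    (h2 : ∀ n m, V (n + m) ≤ V n * V m) (h3 : ∀ n m, κ * V n * V m ≤ V (n + m)) :
    ∃ H, 1 ≤ H ∧ (∀ n, H ^ n ≤ V n) ∧ ∀ n, κ * V n ≤ H ^ n := by
  have hp : ∀ n, 0 < V n := fun n => one_pos.trans_le (h1 n)
  have e1 : ∀ n m : ℕ, (κ * V n) ^ m ≤ V (n * m) := by
    intro n m
    induction m with
    | zero => simpa using h1 0
    | succ m ih =>
      have := h3 n (n * m)
      rw [pow_succ', show n * (m + 1) = n + n * m by ring]
      exact (mul_le_mul_of_nonneg_left ih (mul_pos hκ (hp n)).le).trans this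
  have e2 : ∀ n m : ℕ, V ((n + 1) * m) ≤ V m ^ (n + 1) := by
    intro n m
    induction n with
    | zero => simp
    | succ n ih =>
      rw [show (n + 1 + 1) * m = m + (n + 1) * m by ring, pow_succ']
      exact (h2 _ _).trans (mul_le_mul_of_nonneg_left ih (hp m).le)
  have e3 : ∀ n m : ℕ, Real.log (κ * V (n + 1)) / ((n + 1 : ℕ) : ℝ) ≤
      Real.log (V (m + 1)) / ((m + 1 : ℕ) : ℝ) := by
    intro n m
    have := Real.log_le_log (pow_pos (mul_pos hκ (hp _)) _)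
      ((e1 (n + 1) (m + 1)).trans (e2 n (m + 1)))
    rw [Real.log_pow, Real.log_pow] at this
    rw [div_le_div_iff₀ (by positivity) (by positivity)]
    linarith
  obtain ⟨h, hu, hl⟩ := exists_between_of_forall_le
    (s := insert 0 (Set.range fun n : ℕ => Real.log (κ * V (n + 1)) / ((n + 1 : ℕ) : ℝ)))
    (t := Set.range fun m : ℕ => Real.log (V (m + 1)) / ((m + 1 : ℕ) : ℝ))
    (Set.insert_nonempty _ _) (Set.range_nonempty _) (by
      rintro x (rfl | ⟨n, rfl⟩) y ⟨m, rfl⟩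
      · exact div_nonneg (Real.log_nonneg (h1 _)) (by positivity)
      · exact e3 n m)
  refine ⟨Real.exp h, Real.one_le_exp (hu (Set.mem_insert _ _)), fun n => ?_, fun n => ?_⟩
  · rcases n with _ | n
    · simpa using h1 0
    · have := hl ⟨n, rfl⟩
      rw [le_div_iff₀ (by positivity)] at this
      rw [← Real.exp_nat_mul, ← Real.exp_log (hp (n + 1))]
      exact Real.exp_le_exp.2 (by linarith)
  · rcases n with _ | n
    · have := h3 0 0
      rw [pow_zero]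
      exact le_of_mul_le_mul_right (by simpa using this) (hp 0)
    · have := hu (Set.mem_insert_of_mem _ ⟨n, rfl⟩)
      rw [div_le_iff₀ (by positivity)] at this
      rw [← Real.exp_nat_mul, ← Real.exp_log (mul_pos hκ (hp (n + 1)))]
      exact Real.exp_le_exp.2 (by linarith)

/-- A maximal separated subset. -/
lemma split (E : Finset Y) (n : ℤ) {r : ℝ} (hr : 0 ≤ r) :
    ∃ E' : Finset Y, E' ⊆ E ∧ Sep F n r E' ∧ ∀ y ∈ E, ∃ z ∈ E', Un F n r y z := by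
  obtain ⟨E', e1, e2, e3⟩ := exists_max_sep (R := Un F n r) (Un.refl n hr) (fun _ _ h => h.symm)
    (E : Set Y) (n := E.card) fun D hD _ => by
      exact_mod_cast Finset.card_le_card (Finset.coe_subset.1 hD)
  exact ⟨E', Finset.coe_subset.1 e1, e2, e3⟩

lemma sep_map {n l : ℤ} {η : ℝ} {E : Finset Y} (h : Sep F (n + l) η E) :
    Sep F n η (E.map (F ^ l).toEmbedding) := by
  intro y hy y' hy' hne
  obtain ⟨v, hv, rfl⟩ := Finset.mem_map.1 (Finset.mem_coe.1 hy)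
  obtain ⟨v', hv', rfl⟩ := Finset.mem_map.1 (Finset.mem_coe.1 hy')
  have : v ≠ v' := fun e => hne (by rw [e])
  exact fun e => h hv hv' this (Un_shift.1 e)

lemma sep_image {n : ℤ} {η : ℝ} (hη : 0 ≤ η) {D : Finset Y} {φ : Y → Y}
    (h : ∀ y ∈ D, ∀ y' ∈ D, y ≠ y' → ¬ Un F n η (φ y) (φ y')) :
    ∃ B : Finset Y, (∀ v ∈ B, ∃ y ∈ D, φ y = v) ∧ Sep F n η B ∧ B.card = D.card := by
  classical
  refine ⟨D.image φ, fun v hv => Finset.mem_image.1 hv, ?_, Finset.card_image_of_injOn ?_⟩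
  · intro v hv v' hv' hne
    obtain ⟨y, hy, rfl⟩ := Finset.mem_image.1 (Finset.mem_coe.1 hv)
    obtain ⟨y', hy', rfl⟩ := Finset.mem_image.1 (Finset.mem_coe.1 hv')
    exact h y hy y' hy' fun e => hne (by rw [e])
  · intro y hy y' hy' e
    by_contra hne
    exact h y hy y' hy' hne (by rw [e]; exact Un.refl n hη _)

/-- Admissible sets. -/
def Adm (F : Equiv.Perm Y) (ε : ℝ) (n : ℕ) (E : Finset Y) : Prop :=
  (∃ x, ∀ y ∈ E, Un F 0 (4 * ε) y x) ∧ Sep F n ε E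

lemma coarse (S : Hs F Φ ε δ C a b) {η : ℝ} (hη : 0 < η) : ∃ N : ℝ, 0 < N ∧
    ∀ (n : ℤ) (r : ℝ) (E : Finset Y), 0 ≤ r → r ≤ 4 * ε → Sep F n η E →
      ∃ E' : Finset Y, E' ⊆ E ∧ Sep F n r E' ∧ (E.card : ℝ) ≤ E'.card * N := by
  obtain ⟨N, hN⟩ := S.dbl hη
  refine ⟨N + 1, by positivity, fun n r E h0 h1 h => ?_⟩
  obtain ⟨E', e1, e2, e3⟩ := split (F := F) E n h0
  refine ⟨E', e1, e2, card_le_of_cover e3 fun z _ D hD hz => ?_⟩
  have := hN z n D (fun y hy => (hz y hy).mono le_rfl h1) (h.mono le_rfl le_rfl hD)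
  exact_mod_cast this.trans (Nat.le_succ N)

lemma submult (hε : 0 < ε) {n m : ℕ} {N M : ℝ} (hM0 : 0 ≤ M)
    (hN : ∀ E, Adm F ε n E → (E.card : ℝ) ≤ N) (hM : ∀ E, Adm F ε m E → (E.card : ℝ) ≤ M)
    (E : Finset Y) (h : Adm F ε (n + m) E) : (E.card : ℝ) ≤ N * M := by
  obtain ⟨⟨x, hx⟩, hs⟩ := h
  obtain ⟨E', e1, e2, e3⟩ := split (F := F) E n hε.le
  refine (card_le_of_cover e3 fun z _ D hD hz => ?_).trans
    (mul_le_mul_of_nonneg_right (hN E' ⟨⟨x, fun y hy => hx y (e1 hy)⟩, e2⟩) hM0)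
  have := hM (D.map (F ^ (n : ℤ)).toEmbedding) ⟨⟨(F ^ (n : ℤ)) z, fun y hy => ?_⟩,
    sep_map (hs.mono (by push_cast; omega) le_rfl hD)⟩
  · rwa [Finset.card_map] at this
  · obtain ⟨v, hv, rfl⟩ := Finset.mem_map.1 hy
    exact Un_shift.2 ((hz v hv).mono (by omega) (by linarith))

lemma bounded (S : Hs F Φ ε δ C a b) (n : ℕ) :
    ∃ N : ℕ, ∀ E, Adm F ε n E → E.card ≤ N := by
  have hε := S.lh.ε_pos
  obtain ⟨η, hη, hu⟩ := Metric.uniformContinuous_iff_le.1 S.uc ε hε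
  obtain ⟨N₁, hN₁⟩ := S.dbl (lt_min hη hε)
  have h1 : ∀ E, Adm F ε 1 E → E.card ≤ N₁ := by
    rintro E ⟨⟨x, hx⟩, hs⟩
    refine hN₁ x 0 E hx fun y hy y' hy' hne e => hs hy hy' hne fun k hk => ?_
    rcases lt_or_ge k 1 with h | h
    · exact (e k (by omega)).trans (min_le_right _ _)
    · obtain rfl : k = 1 := le_antisymm (by exact_mod_cast hk) h
      have := (e 0 le_rfl).trans (min_le_left _ _)
      simp only [zpow_zero, Equiv.Perm.one_apply] at this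
      simpa using hu this
  induction n with
  | zero =>
    obtain ⟨N, hN⟩ := S.dbl hε
    exact ⟨N, fun E ⟨⟨x, hx⟩, hs⟩ => hN x 0 E hx (by simpa using hs)⟩
  | succ n ih =>
    obtain ⟨N, hN⟩ := ih
    refine ⟨N * N₁, fun E hE => ?_⟩
    have := submult hε (N := N) (M := N₁) (by positivity) (fun E h => by exact_mod_cast hN E h)
      (fun E h => by exact_mod_cast h1 E h) E hE
    exact_mod_cast this

lemma exists_V [Nonempty Y] (S : Hs F Φ ε δ C a b) : ∃ V : ℕ → ℝ, (∀ n, 1 ≤ V n) ∧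
    (∀ n E, Adm F ε n E → (E.card : ℝ) ≤ V n) ∧ ∀ n, ∃ E, Adm F ε n E ∧ (E.card : ℝ) = V n := by
  have hε := S.lh.ε_pos
  obtain ⟨x⟩ := ‹Nonempty Y›
  have h0 : ∀ n, Adm F ε n {x} := fun n => ⟨⟨x, fun y hy => by
    rw [Finset.mem_singleton.1 hy]; exact Un.refl 0 (by positivity) x⟩, by simp [Sep]⟩
  have : ∀ n : ℕ, ∃ E, Adm F ε n E ∧ ∀ E', Adm F ε n E' → E'.card ≤ E.card := by
    intro n
    obtain ⟨N, hN⟩ := bounded S n
    have hb : BddAbove {k | ∃ E, Adm F ε n E ∧ E.card = k} :=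
      ⟨N, fun k ⟨E, h, e⟩ => e ▸ hN E h⟩
    obtain ⟨E, h, e⟩ := Nat.sSup_mem (s := {k | ∃ E, Adm F ε n E ∧ E.card = k})
      ⟨_, _, h0 n, rfl⟩ hb
    exact ⟨E, h, fun E' h' => e ▸ le_csSup hb ⟨E', h', rfl⟩⟩
  choose E h1 h2 using this
  refine ⟨fun n => (E n).card, fun n => ?_, fun n D hD => ?_, fun n => ⟨E n, h1 n, rfl⟩⟩
  · have := h2 n _ (h0 n)
    rw [Finset.card_singleton] at this
    exact Nat.one_le_cast.2 this
  · exact Nat.cast_le.2 (h2 n D hD)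

/-- A large, strongly separated set of small diameter. -/
lemma core (S : Hs F Φ ε δ C a b) : ∃ c : ℝ, 0 < c ∧ ∀ (n : ℕ) (E : Finset Y), Adm F ε n E →
    1 ≤ (E.card : ℝ) → ∃ (z : Y) (D : Finset Y), (∀ y ∈ D, Un F 0 δ y z) ∧ Sep F n (3 * ε) D ∧
      c * E.card ≤ D.card := by
  have hε := S.lh.ε_pos
  obtain ⟨N₁, p1, hN₁⟩ := coarse S hε
  obtain ⟨N₂, hN₂⟩ := S.dbl S.lh.δ_pos
  refine ⟨(2 * N₁ * (N₂ + 1))⁻¹, by positivity, fun n E ⟨⟨x, hx⟩, hs⟩ h1 => ?_⟩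
  obtain ⟨E₁, e1, e2, e3⟩ := hN₁ n (3 * ε) E (by positivity) (by linarith) hs
  obtain ⟨E₂, f1, f2, f3⟩ := split (F := F) E₁ 0 S.lh.δ_pos.le
  have g1 : (E₂.card : ℝ) ≤ N₂ + 1 := by
    exact_mod_cast (hN₂ x 0 E₂ (fun y hy => hx y (e1 (f1 hy))) f2).trans (Nat.le_succ _)
  by_contra hc
  push Not at hc
  have g2 := card_le_of_cover f3 (n := (2 * N₁ * (N₂ + 1))⁻¹ * E.card)
    fun z _ D hD hz => (hc z D hz (e2.mono le_rfl le_rfl hD)).le
  have g3 : (E₁.card : ℝ) ≤ (N₂ + 1) * ((2 * N₁ * (N₂ + 1))⁻¹ * E.card) :=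
    g2.trans (mul_le_mul_of_nonneg_right g1 (by positivity))
  have g4 := e3.trans (mul_le_mul_of_nonneg_right g3 p1.le)
  have g5 : ((N₂ : ℝ) + 1) * ((2 * N₁ * (N₂ + 1))⁻¹ * E.card) * N₁ = E.card / 2 := by
    field_simp
  rw [g5] at g4
  linarith

/-- Transport of a separated set to any small unstable set. -/
lemma transport (S : Hs F Φ ε δ C a b) {ρ : ℝ} (hρ : 0 < ρ) : ∃ L : ℕ, ∀ (n : ℕ) (z : Y)
    (D : Finset Y), (∀ y ∈ D, Un F 0 δ y z) → Sep F n (3 * ε) D → ∀ (x : Y) (l : ℤ),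
      ∃ B : Finset Y, (∀ v ∈ B, Un F l ρ v x) ∧ Sep F (n + L + l) ε B ∧ B.card = D.card := by
  have hε := S.lh.ε_pos
  have hδ := S.lh.δ_le
  obtain ⟨L₀, hL₀⟩ := S.mix (ρ / 2) δ (by positivity) S.lh.δ_pos
  have h2 : Tendsto (fun j : ℕ => C * b ^ j) atTop (𝓝 (C * 0)) :=
    (tendsto_pow_atTop_nhds_zero_of_lt_one S.lh.b_nonneg S.lh.b_lt).const_mul C
  rw [mul_zero] at h2
  obtain ⟨L, hL1, hL2⟩ := ((eventually_ge_atTop L₀).and
    (h2.eventually (ge_mem_nhds (half_pos hρ)))).exists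
  refine ⟨L, fun n z D hD hs x l => ?_⟩
  obtain ⟨w, g, w1, w2⟩ := hL₀ L hL1 ((F ^ l) x) z
  have : ∀ y, y ∈ D → ∃ v, St F 0 ε v (g • y) ∧ Un F 0 ε v ((F ^ (L : ℤ)) w) := by
    intro y hy
    refine S.lh.br _ _ ?_
    have e := hD y hy 0 le_rfl
    simp only [zpow_zero, Equiv.Perm.one_apply] at e
    rw [← S.iso g] at e
    have := dist_triangle_right (g • y) ((F ^ (L : ℤ)) w) (g • z)
    linarith
  choose! φ h3 h4 using this
  obtain ⟨B, b1, b2, b3⟩ := sep_image (F := F) (n := n) hε.le (D := D) (φ := φ)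
    fun y hy y' hy' hne e => hs hy hy' hne fun k hk => by
      rcases le_total k 0 with h | h
      · exact (((hD y hy).trans (hD y' hy').symm) k h).trans (by linarith)
      · have e1 := h3 y hy k h
        have e2 := h3 y' hy' k h
        have e3 := e k hk
        have e4 := dist_triangle4 ((F ^ k) (g • y)) ((F ^ k) (φ y)) ((F ^ k) (φ y'))
          ((F ^ k) (g • y'))
        rw [dist_comm] at e1
        have e5 : dist ((F ^ k) (g • y)) ((F ^ k) (g • y')) = dist ((F ^ k) y) ((F ^ k) y') := by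
          rw [S.eqv_zpow, S.eqv_zpow, S.iso]
        linarith
  refine ⟨B.map (F ^ (-(L + l : ℤ))).toEmbedding, fun v hv => ?_,
    sep_map (b2.mono (by omega) le_rfl subset_rfl), by rw [Finset.card_map, b3]⟩
  obtain ⟨v', hv', rfl⟩ := Finset.mem_map.1 hv
  obtain ⟨y, hy, rfl⟩ := b1 v' hv'
  have e1 : Un F L (4 * ε) ((F ^ (-(L : ℤ))) (φ y)) w := by
    have := (h4 y hy).mono le_rfl (show ε ≤ 4 * ε by linarith)
    have e : φ y = (F ^ (L : ℤ)) ((F ^ (-(L : ℤ))) (φ y)) := by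
      rw [zpow_apply_zpow]; simp
    rw [e, Un_shift, zero_add] at this
    exact this
  have e2 := ((S.lh.cu' e1 L).mono (k₁ := 0) (by omega) hL2).trans w1
  rw [add_halves] at e2
  have e : (F ^ (-(L : ℤ))) (φ y) = (F ^ l) ((F ^ (-(L + l : ℤ))) (φ y)) := by
    rw [zpow_apply_zpow]; congr 2; ring
  rw [e, Un_shift, zero_add] at e2
  exact e2

/-- Gluing of separated sets. -/
lemma glue (S : Hs F Φ ε δ C a b) {n k : ℕ} (hk : n ≤ k) {z : Y} {D : Finset Y} {t : ℕ}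
    (hD : ∀ y ∈ D, Un F 0 δ y z) (hs : Sep F n (3 * ε) D)
    (h : ∀ y, ∃ B : Finset Y, (∀ v ∈ B, Un F n ε v y) ∧ Sep F k ε B ∧ B.card = t) :
    ∃ E, Adm F ε k E ∧ E.card = D.card * t := by
  classical
  have hε := S.lh.ε_pos
  have hδ := S.lh.δ_le
  choose B b1 b2 b3 using h
  have key : ∀ y ∈ D, ∀ y' ∈ D, y ≠ y' → ∀ v ∈ B y, ∀ v' ∈ B y', ¬ Un F k ε v v' :=
    fun y hy y' hy' hne v hv v' hv' e => hs hy hy' hne
      ((((b1 y v hv).symm.trans (e.mono (by exact_mod_cast hk) le_rfl)).trans (b1 y' v' hv')).mono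
        le_rfl (by linarith))
  refine ⟨D.biUnion B, ⟨⟨z, fun v hv => ?_⟩, fun v hv v' hv' hne => ?_⟩, ?_⟩
  · obtain ⟨y, hy, hv⟩ := Finset.mem_biUnion.1 hv
    exact (((b1 y v hv).mono (by omega) le_rfl).trans (hD y hy)).mono le_rfl (by linarith)
  · obtain ⟨y, hy, hv⟩ := Finset.mem_biUnion.1 (Finset.mem_coe.1 hv)
    obtain ⟨y', hy', hv'⟩ := Finset.mem_biUnion.1 (Finset.mem_coe.1 hv')
    by_cases e : y = y'
    · subst e
      exact b2 y hv hv' hne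
    · exact key y hy y' hy' e v hv v' hv'
  · rw [Finset.card_biUnion]
    · simp [b3]
    · intro y hy y' hy' hne
      exact Finset.disjoint_left.2 fun v hv hv' =>
        key y hy y' hy' hne v hv v hv' (Un.refl _ hε.le v)

end XCntX

open XCntX in
theorem Hs.exists_cnt [Nonempty Y] (S : Hs F Φ ε δ C a b) : ∃ H, Cnt F ε H := by
  have hε := S.lh.ε_pos
  obtain ⟨V, v1, v2, v3⟩ := exists_V S
  have vp : ∀ n, 0 < V n := fun n => one_pos.trans_le (v1 n)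
  obtain ⟨c, hc, hcore⟩ := core S
  have core' : ∀ n : ℕ, ∃ (z : Y) (D : Finset Y), (∀ y ∈ D, Un F 0 δ y z) ∧ Sep F n (3 * ε) D ∧
      c * V n ≤ D.card := fun n => by
    obtain ⟨E, h, e⟩ := v3 n
    rw [← e]
    exact hcore n E h (e ▸ v1 n)
  have sub : ∀ n m, V (n + m) ≤ V n * V m := fun n m => by
    obtain ⟨E, h, e⟩ := v3 (n + m)
    rw [← e]
    exact submult hε (vp m).le (v2 n) (v2 m) E h
  obtain ⟨L, hL⟩ := transport S hε
  have sup : ∀ n m, c ^ 2 / V L * V n * V m ≤ V (n + m) := fun n m => by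
    obtain ⟨z, D, d1, d2, d3⟩ := core' n
    obtain ⟨z', D', d1', d2', d3'⟩ := core' m
    obtain ⟨E, h, e⟩ := glue S (n := n) (k := n + m + L) (by omega) (t := D'.card) d1 d2
      fun y => by
        obtain ⟨B, b1, b2, b3⟩ := hL m z' D' d1' d2' y n
        exact ⟨B, b1, b2.mono (by push_cast; omega) le_rfl subset_rfl, b3⟩
    have e1 := (v2 _ E h).trans (sub (n + m) L)
    rw [e, Nat.cast_mul] at e1
    have e2 := (mul_le_mul d3 d3' (mul_pos hc (vp m)).le (Nat.cast_nonneg _)).trans e1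
    rw [div_mul_eq_mul_div, div_mul_eq_mul_div, div_le_iff₀ (vp L)]
    linarith
  obtain ⟨H, H1, H2, H3⟩ := fekete (div_pos (pow_pos hc 2) (vp L)) v1 sub sup
  have Hp : 0 < H := one_pos.trans_le H1
  refine ⟨H, H1, fun η hη => ?_, fun ρ hρ => ?_⟩
  · obtain ⟨N, hN, h⟩ := coarse S hη
    refine ⟨N / (c ^ 2 / V L), fun x n E hx hs => ?_⟩
    obtain ⟨E', e1, e2, e3⟩ := h n ε E hε.le (by linarith) hs
    have e4 := v2 n E' ⟨⟨x, fun y hy => hx y (e1 hy)⟩, e2⟩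
    have κp := div_pos (pow_pos hc 2) (vp L)
    have e5 : V n ≤ H ^ n / (c ^ 2 / V L) := by
      rw [le_div_iff₀ κp, mul_comm]; exact H3 n
    refine (e3.trans (mul_le_mul_of_nonneg_right (e4.trans e5) hN.le)).trans (le_of_eq ?_)
    ring
  · obtain ⟨L', hL'⟩ := transport S hρ
    refine ⟨min c 1 / H ^ L', div_pos (lt_min hc one_pos) (pow_pos Hp _), fun x n => ?_⟩
    rcases le_total n L' with h | h
    · refine ⟨{x}, fun y hy => ?_, by simp [Sep], ?_⟩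
      · rw [Finset.mem_singleton.1 hy]; exact Un.refl 0 hρ.le x
      · rw [Finset.card_singleton, Nat.cast_one, div_mul_eq_mul_div, div_le_one (pow_pos Hp _)]
        exact (mul_le_of_le_one_left (pow_pos Hp _).le (min_le_right _ _)).trans
          (pow_le_pow_right₀ H1 h)
    · obtain ⟨m, rfl⟩ := Nat.exists_eq_add_of_le' h
      obtain ⟨z, D, d1, d2, d3⟩ := core' m
      obtain ⟨B, b1, b2, b3⟩ := hL' m z D d1 d2 x 0
      refine ⟨B, b1, b2.mono (by push_cast; omega) le_rfl subset_rfl, ?_⟩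
      rw [b3, pow_add, show min c 1 / H ^ L' * (H ^ m * H ^ L') = min c 1 * H ^ m by field_simp]
      exact (mul_le_mul (min_le_left _ _) (H2 m) (pow_pos Hp _).le hc.le).trans d3

end Pool.Agent.P.MP_5c499f_an
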