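import Pool.Agent.P.MP_5c499f_an.XAmb
import Pool.Agent.P.MP_5c499f_an.GCore

/-! The local hyperbolic structure with shadowing, and the universal cover. -/

set_option autoImplicit false

namespace Pool.Agent.P.MP_5c499f_an

open Bundle Filter Topology
open scoped Manifold ContDiff

section

variable {E : Type*} [NormedAddCommGroup E] [NormedSpace ℝ E] {M : Type*}

theorem core'' [FiniteDimensional ℝ E] {V : Type*} [NormedAddCommGroup V] [NormedSpace ℝ V]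
    [MetricSpace M] [ChartedSpace E M] [IsManifold 𝓘(ℝ, E) 1 M] [CompactSpace M]
    [RiemannianBundle fun x : M => TangentSpace 𝓘(ℝ, E) x]
    [IsContinuousRiemannianBundle E fun x : M => TangentSpace 𝓘(ℝ, E) x]
    {e : M → V} (he : ∀ x y, dist x y = ‖e x - e y‖) (h1 : ContMDiff 𝓘(ℝ, E) 𝓘(ℝ, V) 1 e)
    (h2 : ∀ x, Function.Injective (mfderiv 𝓘(ℝ, E) 𝓘(ℝ, V) e x))
    (f : Diffeomorph 𝓘(ℝ, E) 𝓘(ℝ, E) M M 1) (hf : IsAnosov E f) :
    (∃ σ C₁, Loc M σ C₁) ∧ ∀ᶠ K : ℕ in atTop, ∃ a b Λ Λ' : ℝ,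
      Hyp ((f.toEquiv : Equiv.Perm M) ^ K) a b Λ Λ' ∧ Shad ((f.toEquiv : Equiv.Perm M) ^ K) := by
  obtain ⟨P, D, q, hD, q0, q1, hP, p1, p2, p3⟩ := hf
  obtain ⟨t, A, r, C, S, a1, a2⟩ := exists_CS he h1 h2 (Q := Qd E P)
    fun c => Qd_continuousAt hP (mem_chart_source E c)
  have hC := S.one_le
  refine ⟨⟨_, _, S.loc⟩, ?_⟩
  filter_upwards [((tendsto_pow_atTop_nhds_zero_of_lt_one q0.le q1).const_mul
    (20 * C ^ 2 * (C ^ 2 * D))).eventually_lt_const (show _ < (1 : ℝ) by simp)] with K k1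
  have c1 : ⇑((f.toEquiv : Equiv.Perm M) ^ K) = f^[K] := Equiv.Perm.coe_pow _ _
  have c2 : ⇑((f.toEquiv : Equiv.Perm M) ^ K)⁻¹ = f.symm^[K] := by
    rw [← inv_pow]; exact Equiv.Perm.coe_pow _ _
  have c3 : ∀ n x v, mfderiv 𝓘(ℝ, E) 𝓘(ℝ, E) f^[n] x (P x v) =
      P (f^[n] x) (mfderiv 𝓘(ℝ, E) 𝓘(ℝ, E) f^[n] x v) := fun n => by
    induction n with
    | zero => intro x v; simp only [Function.iterate_zero, mfderiv_id]; rfl
    | succ n ih =>
      intro x v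
      have d1 := (f.contMDiff.iterate n).mdifferentiable one_ne_zero
      have d2 := f.contMDiff.mdifferentiable one_ne_zero
      rw [Function.iterate_succ, mfderiv_comp_apply x (d1 _) (d2 _),
        mfderiv_comp_apply x (d1 _) (d2 _), p2, ih]
      rfl
  obtain ⟨Λ, l1, l2⟩ := exists_deriv_bound (f.contMDiff.iterate K)
  obtain ⟨Λ', l3, l4⟩ := exists_deriv_bound (f.symm.contMDiff.iterate K)
  have l5 : ∀ x v, ‖v‖ ≤ Λ' * ‖mfderiv 𝓘(ℝ, E) 𝓘(ℝ, E) f^[K] x v‖ := fun x v => by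
    have d1 := (f.contMDiff.iterate K).mdifferentiable one_ne_zero
    have d2 := (f.symm.contMDiff.iterate K).mdifferentiable one_ne_zero
    have e1 := l4 _ (mfderiv 𝓘(ℝ, E) 𝓘(ℝ, E) f^[K] x v)
    rw [← mfderiv_comp_apply x (d2 _) (d1 _)] at e1
    have e2 : ∀ g : M → M, g = id → ‖mfderiv 𝓘(ℝ, E) 𝓘(ℝ, E) g x v‖ = ‖v‖ := by
      rintro _ rfl
      rw [mfderiv_id]; rfl
    rwa [e2 (f.symm^[K] ∘ f^[K])
      (funext (Function.LeftInverse.iterate f.symm_apply_apply K))] at e1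
  have H := hy_chart hC a1 hP a2 (F := (f.toEquiv : Equiv.Perm M) ^ K)
    (c1 ▸ f.contMDiff.iterate K) (c2 ▸ f.symm.contMDiff.iterate K) p1 (c1 ▸ c3 K)
    (a := D * q ^ K) (b := D * q ^ K) (by positivity) (by positivity) l1 l3
    (by linarith) (by linarith) (c1 ▸ fun x v e => ⟨(p3 x K v).1 e, l5 x v⟩)
    (c1 ▸ fun x v e => ⟨(p3 x K v).2 e, l2 x v⟩)
  exact ⟨_, _, _, _, H.hyp S, fun _ => H.shadow S⟩

end

variable {M : Type*} [MetricSpace M] {σ C₁ : ℝ} {h : Loc M σ C₁} {x₀ : M}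

lemma Cov.pathConn : PathConnectedSpace (Cov h x₀) := by
  have key : ∀ a : Cov h x₀, Joined (⟨x₀, .refl _⟩ : Cov h x₀) a := by
    rintro ⟨y, γ⟩
    obtain ⟨⟨f, rfl, rfl⟩, rfl⟩ := Path.Homotopic.Quotient.mk_surjective γ
    set p : Path (f 0) (f 1) := ⟨f, rfl, rfl⟩
    have e' : p.subpath 0 1 = p := by rw [Path.subpath_zero_one]; rfl
    refine ⟨⟨⟨_, Cov.continuous_lift (h := h) p (.refl _)⟩, ?_, ?_⟩⟩
    · simp only [Path.subpath_self]
      exact congrArg _ (Path.Homotopic.Quotient.trans_refl _)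
    · simp only [e']
      exact congrArg _ (Path.Homotopic.Quotient.refl_trans _)
  exact ⟨⟨⟨x₀, .refl _⟩⟩, fun a b => (key a).symm.trans (key b)⟩

lemma Cov.simplyConn [PathConnectedSpace M] : SimplyConnectedSpace (Cov h x₀) :=
  simply_connected_iff_paths_homotopic'.2 ⟨Cov.pathConn, fun p q => Cov.homotopic _ _ p q⟩

theorem Loc.lift [CompactSpace M] [PathConnectedSpace M] (h : Loc M σ C₁) (g : M ≃ₜ M) (x₀ : M) :
    ∃ (G : Equiv.Perm (Cov h x₀)) (Φ : MulAut (FundamentalGroup M x₀)), (∀ p, (G p).pt = g p.pt) ∧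
      UniformContinuous G ∧ UniformContinuous (G⁻¹ : Equiv.Perm _) ∧
      ∀ γ a, G (γ • a) = Φ γ • G a := by
  set τ : Path.Homotopic.Quotient x₀ (g x₀) := .mk (PathConnectedSpace.somePath _ _)
  obtain ⟨ρ₁, e1, e2, e3⟩ := Cov.lift_near (h := h) g τ
  set G : Equiv.Perm (Cov h x₀) := Equiv.ofBijective _ (Cov.liftFun_bijective g τ)
  have hG : ∀ p, (G p).pt = g p.pt := fun p => rfl
  have hG' : ∀ p, (G⁻¹ p).pt = g.symm p.pt := fun p => by
    rw [Homeomorph.eq_symm_apply, ← hG]; simp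
  have u1 : UniformContinuous G := Cov.isCov.uc hG
    (CompactSpace.uniformContinuous_of_continuous g.continuous) e1 e2
  have u2 : UniformContinuous (G⁻¹ : Equiv.Perm _) := Cov.isCov.uc hG'
    (CompactSpace.uniformContinuous_of_continuous g.symm.continuous) e1 fun p q hpq => e3 _ _ (by
      have : ∀ p, Cov.liftFun g τ (G⁻¹ p) = p := G.apply_symm_apply
      rwa [this, this])
  have u3 := fun γ : FundamentalGroup M x₀ =>
    (Isometry.of_dist_eq (Cov.dist_smul (h := h) γ)).uniformContinuous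
  have key : ∀ γ γ' : FundamentalGroup M x₀, G (γ • ⟨x₀, .refl _⟩) = γ' • G ⟨x₀, .refl _⟩ →
      ∀ a, G (γ • a) = γ' • G a := fun γ γ' e =>
    preconnected_of_reach (fun _ => Cov.reach') Cov.isCov (u1.comp (u3 γ)) ((u3 γ').comp u1)
      (fun _ => rfl) e
  obtain ⟨Φ, hΦ⟩ := exists_aut (G := G) Cov.free ⟨x₀, .refl _⟩
    (fun γ => (Cov.transitive (G ⟨x₀, .refl _⟩) (G (γ • ⟨x₀, .refl _⟩)) rfl).imp
      fun γ' e => key _ _ e.symm) fun γ' => by
    obtain ⟨γ, e⟩ := Cov.transitive (h := h) ⟨x₀, .refl _⟩ (G⁻¹ (γ' • G ⟨x₀, .refl _⟩)) (by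
      rw [hG', Cov.smul_pt, hG]; simp)
    exact ⟨γ, key _ _ (by simp [e])⟩
  exact ⟨G, Φ, hG, u1, u2, hΦ⟩

lemma Asym.of_pow {Y : Type*} [MetricSpace Y] {G : Y → Y} (hG : UniformContinuous G) {K : ℕ}
    (hK : 0 < K) {x y : Y} : Asym G^[K] x y ↔ Asym G x y := by
  refine ⟨fun h => Metric.tendsto_atTop.2 fun ε hε => ?_, fun h => ?_⟩
  · have u : ∀ s : Fin K, UniformContinuous G^[s] := fun s => UniformContinuous.iterate G s hG
    choose η e1 e2 using fun s : Fin K => Metric.uniformContinuous_iff.1 (u s) ε hε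
    obtain ⟨T, hT⟩ := eventually_atTop.1
      (eventually_all.2 fun s : Fin K => h.eventually_lt_const (e1 s))
    refine ⟨K * T, fun n hn => ?_⟩
    have := e2 ⟨n % K, Nat.mod_lt _ hK⟩ (hT (n / K)
      ((Nat.le_div_iff_mul_le hK).2 (by rwa [mul_comm])) _)
    simp only [← Function.iterate_mul, ← Function.iterate_add_apply, Nat.mod_add_div] at this
    simpa
  · simp only [Asym, ← Function.iterate_mul]
    exact h.comp (tendsto_id.const_mul_atTop' hK)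

end Pool.Agent.P.MP_5c499f_an
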