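import Pool.Agent.P.MP_5c499f_an.XSec

/-! Iterated discs cross Bowen boxes. -/

set_option autoImplicit false

namespace Pool.Agent.P.MP_5c499f_an

open Filter Topology Metric MeasureTheory Matrix

variable {M : Type*} [MetricSpace M] [CompactSpace M] {N u : ℕ} {e : M → VV N} {r : VV N → M}
  {U : Set (VV N)} {g : Equiv.Perm M} {Pr : M → VV N →L[ℝ] XX u} {Io : M → XX u →L[ℝ] VV N}
  {C₀ a : ℝ}

namespace XCrossX

/-- A map close to an expanding linear map covers a ball. -/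
lemma surj {Φ : XX u → XX u} {S : XX u →L[ℝ] XX u} {m c R : ℝ} (hm : 0 < m) (hc : 0 ≤ c)
    (hR : 0 ≤ R) (hS : ∀ b, ‖b‖ ≤ m * ‖S b‖)
    (hΦ : ∀ b b', ‖b‖ ≤ R → ‖b'‖ ≤ R → ‖Φ b - Φ b' - S (b - b')‖ ≤ c * ‖b - b'‖) {w : XX u}
    (hw : ‖w - Φ 0‖ ≤ (m⁻¹ - c) * R) : ∃ b, ‖b‖ ≤ R ∧ Φ b = w := by
  have hinj : Function.Injective (S : XX u →ₗ[ℝ] XX u) := by
    rw [injective_iff_map_eq_zero]
    intro b hb
    have h := hS b
    have hb' : S b = 0 := hb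
    rw [hb', norm_zero, mul_zero] at h
    exact norm_le_zero_iff.1 h
  have hsurj : Function.Surjective S := LinearMap.injective_iff_surjective.1 hinj
  let T : S.NonlinearRightInverse :=
    { toFun := Function.surjInv hsurj
      nnnorm := ⟨m, hm.le⟩
      bound' := fun y => by
        have h := hS (Function.surjInv hsurj y)
        rw [Function.surjInv_eq hsurj] at h
        exact h
      right_inv' := fun y => Function.surjInv_eq hsurj y }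
  have hA : ApproximatesLinearOn Φ S (closedBall 0 R) ⟨c, hc⟩ := fun b hb b' hb' =>
    hΦ b b' (mem_closedBall_zero_iff.1 hb) (mem_closedBall_zero_iff.1 hb')
  obtain ⟨b, hb, hbw⟩ := hA.surjOn_closedBall_of_nonlinearRightInverse T hR subset_rfl
    (show w ∈ closedBall (Φ 0) _ from mem_closedBall_iff_norm.2 hw)
  exact ⟨b, mem_closedBall_zero_iff.1 hb, hbw⟩

omit [CompactSpace M] in
lemma pr_B (A : Amb e r U g Pr Io C₀ a) (z : M) (v : VV N) :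
    Pr (g z) (Dm e r (e ∘ g) z v) = Pr (g z) (Dm e r (e ∘ g) z (Io z (Pr z v))) := by
  rw [← A.comm, A.pr_io]

omit [CompactSpace M] in
lemma a_le (A : Amb e r U g Pr Io C₀ a) : a ≤ 1 / 10 := by
  have h1 := A.one_le
  have h2 := A.a_pos
  have h3 := A.a_le
  have h4 : 1 ≤ C₀ ^ 2 := one_le_pow₀ h1
  nlinarith

omit [CompactSpace M] in
lemma low_B (A : Amb e r U g Pr Io C₀ a) (z : M) (w : XX u) :
    ‖w‖ ≤ 1 / 10 * ‖Pr (g z) (Dm e r (e ∘ g) z (Io z w))‖ := by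
  have hC : 0 ≤ C₀ := zero_le_one.trans A.one_le
  have h1 : ‖w‖ ≤ C₀ * ‖Io z w‖ := by
    have := A.n_pr z (Io z w)
    rwa [A.pr_io] at this
  have h2 := A.un z w
  have h3 : ‖Dm e r (e ∘ g) z (Io z w)‖ ≤ C₀ * ‖Pr (g z) (Dm e r (e ∘ g) z (Io z w))‖ := by
    have := A.n_io (g z) (Pr (g z) (Dm e r (e ∘ g) z (Io z w)))
    rwa [A.comm, A.pr_io] at this
  have h4 := A.a_le
  have h5 := A.a_pos
  have h6 := norm_nonneg (Pr (g z) (Dm e r (e ∘ g) z (Io z w)))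
  calc ‖w‖ ≤ C₀ * (a * (C₀ * ‖Pr (g z) (Dm e r (e ∘ g) z (Io z w))‖)) :=
        h1.trans (mul_le_mul_of_nonneg_left
          (h2.trans (mul_le_mul_of_nonneg_left h3 h5.le)) hC)
    _ = C₀ ^ 2 * a * ‖Pr (g z) (Dm e r (e ∘ g) z (Io z w))‖ := by ring
    _ ≤ _ := mul_le_mul_of_nonneg_right (by linarith) h6

omit [CompactSpace M] in
lemma n_st (A : Amb e r U g Pr Io C₀ a) (z : M) (v : VV N) :
    ‖v - Io z (Pr z v)‖ ≤ 2 * C₀ ^ 2 * ‖v‖ := by
  have hC : 0 ≤ C₀ := zero_le_one.trans A.one_le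
  have h1 := norm_sub_le v (Io z (Pr z v))
  have h2 := (A.n_io z (Pr z v)).trans (mul_le_mul_of_nonneg_left (A.n_pr z v) hC)
  have h4 : 1 ≤ C₀ ^ 2 := one_le_pow₀ A.one_le
  nlinarith [norm_nonneg v]

omit [CompactSpace M] in
/-- One step of the graph transform. -/
lemma step (A : Amb e r U g Pr Io C₀ a) {τ : ℝ} (hτ : 0 < τ) (z : M) (γ : XX u → M)
    (hB : ∀ p q, ‖e p - e z‖ ≤ 3 * C₀ * τ → ‖e q - e z‖ ≤ 3 * C₀ * τ →
      ‖e (g p) - e (g q) - Dm e r (e ∘ g) z (e p - e q)‖ ≤ (10 * C₀ ^ 2)⁻¹ * ‖e p - e q‖)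
    (h1 : ∀ w, ‖w‖ ≤ τ → Pr z (e (γ w) - e z) = w)
    (h2 : ∀ w, ‖w‖ ≤ τ → ‖e (γ w) - e z - Io z (Pr z (e (γ w) - e z))‖ ≤ 2 * C₀ * τ)
    (h3 : ∀ w w', ‖w‖ ≤ τ → ‖w'‖ ≤ τ → Cone Pr Io z (e (γ w) - e (γ w'))) (w : XX u)
    (hw : ‖w‖ ≤ τ) : ∃ w₀, ‖w₀‖ ≤ τ ∧ Pr (g z) (e (g (γ w₀)) - e (g z)) = w ∧
      ‖e (g (γ w₀)) - e (g z) - Io (g z) (Pr (g z) (e (g (γ w₀)) - e (g z)))‖ ≤ 2 * C₀ * τ := by
  have hC1 := A.one_le
  have hC : 0 < C₀ := zero_lt_one.trans_le hC1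
  obtain ⟨θ, hθ⟩ : ∃ θ, θ = (10 * C₀ ^ 2)⁻¹ := ⟨_, rfl⟩
  rw [← hθ] at hB
  have hθ0 : 0 < θ := by rw [hθ]; positivity
  have hθ1 : C₀ ^ 2 * θ = 1 / 10 := by rw [hθ]; field_simp
  have hv : ∀ w, ‖w‖ ≤ τ → ‖e (γ w) - e z‖ ≤ 3 * C₀ * τ := by
    intro w hw
    have b1 := h2 w hw
    rw [h1 w hw] at b1
    have b2 := (A.n_io z w).trans (mul_le_mul_of_nonneg_left hw hC.le)
    have b3 := norm_add_le (e (γ w) - e z - Io z w) (Io z w)
    rw [sub_add_cancel] at b3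
    linarith
  have hz : ‖e z - e z‖ ≤ 3 * C₀ * τ := by rw [sub_self, norm_zero]; positivity
  have herr : ∀ w, ‖w‖ ≤ τ →
      ‖e (g (γ w)) - e (g z) - Dm e r (e ∘ g) z (e (γ w) - e z)‖ ≤ θ * (3 * C₀ * τ) :=
    fun w hw => (hB _ _ (hv w hw) hz).trans (mul_le_mul_of_nonneg_left (hv w hw) hθ0.le)
  obtain ⟨w₀, hw₀, hw₁⟩ := surj (Φ := fun w => Pr (g z) (e (g (γ w)) - e (g z)))
    (S := Pr (g z) ∘L Dm e r (e ∘ g) z ∘L Io z) (m := 1 / 10) (c := 1 / 5) (R := τ) (w := w)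
    (by norm_num) (by norm_num) hτ.le (fun b => low_B A z b) (fun b b' hb hb' => by
      have e1 : Pr z (e (γ b) - e (γ b')) = b - b' := by
        have : e (γ b) - e (γ b') = (e (γ b) - e z) - (e (γ b') - e z) := by abel
        rw [this, map_sub, h1 b hb, h1 b' hb']
      have c1 := h3 b b' hb hb'
      unfold Cone at c1
      rw [e1] at c1
      have c2 := A.n_io z (b - b')
      have c3 := norm_add_le (e (γ b) - e (γ b') - Io z (b - b')) (Io z (b - b'))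
      rw [sub_add_cancel] at c3
      have c4 : ‖e (γ b) - e (γ b')‖ ≤ 2 * C₀ * ‖b - b'‖ := by linarith
      have c5 := (hB _ _ (hv b hb) (hv b' hb')).trans (mul_le_mul_of_nonneg_left c4 hθ0.le)
      have e2 : Pr (g z) (e (g (γ b)) - e (g z)) - Pr (g z) (e (g (γ b')) - e (g z)) -
          (Pr (g z) ∘L Dm e r (e ∘ g) z ∘L Io z) (b - b') =
          Pr (g z) (e (g (γ b)) - e (g (γ b')) - Dm e r (e ∘ g) z (e (γ b) - e (γ b'))) := by
        have : (Pr (g z) ∘L Dm e r (e ∘ g) z ∘L Io z) (b - b') =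
            Pr (g z) (Dm e r (e ∘ g) z (e (γ b) - e (γ b'))) := by
          rw [pr_B A, e1]; rfl
        rw [this, ← map_sub, ← map_sub]
        congr 1
        abel
      rw [e2]
      refine (A.n_pr _ _).trans ((mul_le_mul_of_nonneg_left c5 hC.le).trans (le_of_eq ?_))
      linear_combination (2 * ‖b - b'‖) * hθ1) (by
      have h0 : ‖(0 : XX u)‖ ≤ τ := by rw [norm_zero]; exact hτ.le
      have e1 : Pr (g z) (e (g (γ 0)) - e (g z)) =
          Pr (g z) (e (g (γ 0)) - e (g z) - Dm e r (e ∘ g) z (e (γ 0) - e z)) := by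
        rw [map_sub (Pr (g z)) _ (Dm e r (e ∘ g) z _), pr_B A, h1 0 h0]
        simp
      have c1 := (A.n_pr (g z) _).trans (mul_le_mul_of_nonneg_left (herr 0 h0) hC.le)
      rw [← e1] at c1
      have c2 : C₀ * (θ * (3 * C₀ * τ)) = 3 / 10 * τ := by linear_combination (3 * τ) * hθ1
      have c3 := norm_sub_le w (Pr (g z) (e (g (γ 0)) - e (g z)))
      rw [show ((1 : ℝ) / 10)⁻¹ - 1 / 5 = 49 / 5 by norm_num]
      linarith)
  refine ⟨w₀, hw₀, hw₁, ?_⟩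
  obtain ⟨v, hvv⟩ : ∃ v, v = e (γ w₀) - e z := ⟨_, rfl⟩
  obtain ⟨d, hd⟩ : ∃ d, d = e (g (γ w₀)) - e (g z) - Dm e r (e ∘ g) z (e (γ w₀) - e z) := ⟨_, rfl⟩
  have c1 := herr w₀ hw₀
  have c2 := h2 w₀ hw₀
  rw [← hd] at c1
  rw [← hvv] at c2 hd
  have e1 : e (g (γ w₀)) - e (g z) = Dm e r (e ∘ g) z v + d := by rw [hd]; abel
  have e2 : e (g (γ w₀)) - e (g z) - Io (g z) (Pr (g z) (e (g (γ w₀)) - e (g z))) =
      Dm e r (e ∘ g) z (v - Io z (Pr z v)) + (d - Io (g z) (Pr (g z) d)) := by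
    rw [e1, map_add, map_add, A.comm, map_sub]
    abel
  have c3 := A.st z (v - Io z (Pr z v)) (by rw [map_sub, A.pr_io, sub_self])
  have c4 := (n_st A (g z) d).trans (mul_le_mul_of_nonneg_left c1 (by positivity))
  have c5 : 2 * C₀ ^ 2 * (θ * (3 * C₀ * τ)) = 3 / 5 * (C₀ * τ) := by
    linear_combination (6 * C₀ * τ) * hθ1
  have c6 : a * ‖v - Io z (Pr z v)‖ ≤ 1 / 10 * (2 * C₀ * τ) :=
    mul_le_mul (a_le A) c2 (norm_nonneg _) (by norm_num)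
  have c7 : 0 < C₀ * τ := mul_pos hC hτ
  rw [e2]
  refine (norm_add_le _ _).trans ?_
  linarith

omit [CompactSpace M] in
/-- The initial disc crosses the first box. -/
lemma base (A : Amb e r U g Pr Io C₀ a) {τ s : ℝ} (hτ : 0 < τ) (hs : 8 * C₀ ^ 2 * τ ≤ s) (x z : M)
    (ψ : XX u → VV N) (hQ : ∀ v, ‖Io x (Pr x v) - Io z (Pr z v)‖ ≤ 1 / 2 * ‖v‖)
    (hψ : ∀ b b', ‖b‖ ≤ s → ‖b'‖ ≤ s →
      ‖ψ b - ψ b' - Io x (b - b')‖ ≤ (4 * C₀ ^ 4)⁻¹ * ‖Io x (b - b')‖)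
    (h0 : 3 * C₀ * ‖ψ 0 - e z‖ ≤ τ) (hc : ∀ b, ‖b‖ ≤ s → Cone Pr Io z (ψ b - ψ 0)) (w : XX u)
    (hw : ‖w‖ ≤ τ) : ∃ b, ‖b‖ ≤ s ∧ Pr z (ψ b - e z) = w ∧
      ‖ψ b - e z - Io z (Pr z (ψ b - e z))‖ ≤ 2 * C₀ * τ := by
  have hC1 := A.one_le
  have hC : 0 < C₀ := zero_lt_one.trans_le hC1
  have hs0 : 0 ≤ s := le_trans (by positivity) hs
  have hd0 := norm_nonneg (ψ 0 - e z)
  have hp0 : ‖Pr z (ψ 0 - e z)‖ ≤ τ / 3 := by
    have := A.n_pr z (ψ 0 - e z)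
    linarith
  obtain ⟨b, hb, hbw⟩ := surj (Φ := fun b => Pr z (ψ b - e z)) (S := Pr z ∘L Io x)
    (m := 2 * C₀ ^ 2) (c := (4 * C₀ ^ 2)⁻¹) (R := s) (w := w) (by positivity) (by positivity) hs0
    (fun b => by
      have c1 := hQ (Io x b)
      rw [A.pr_io] at c1
      have c2 := A.n_io z (Pr z (Io x b))
      have c3 := norm_add_le (Io x b - Io z (Pr z (Io x b))) (Io z (Pr z (Io x b)))
      rw [sub_add_cancel] at c3
      have c4 : ‖Io x b‖ ≤ 2 * C₀ * ‖Pr z (Io x b)‖ := by linarith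
      have c5 := A.n_pr x (Io x b)
      rw [A.pr_io] at c5
      calc ‖b‖ ≤ C₀ * (2 * C₀ * ‖Pr z (Io x b)‖) := c5.trans (mul_le_mul_of_nonneg_left c4 hC.le)
        _ = 2 * C₀ ^ 2 * ‖(Pr z ∘L Io x) b‖ := by
          rw [ContinuousLinearMap.comp_apply]; ring)
    (fun b b' hb hb' => by
      have e2 : Pr z (ψ b - e z) - Pr z (ψ b' - e z) - (Pr z ∘L Io x) (b - b') =
          Pr z (ψ b - ψ b' - Io x (b - b')) := by
        rw [ContinuousLinearMap.comp_apply, ← map_sub, ← map_sub]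
        congr 1
        abel
      have c1 := (hψ b b' hb hb').trans
        (mul_le_mul_of_nonneg_left (A.n_io x (b - b')) (by positivity))
      rw [e2]
      refine (A.n_pr _ _).trans ((mul_le_mul_of_nonneg_left c1 hC.le).trans (le_of_eq ?_))
      field_simp)
    (by
      have c3 := norm_sub_le w (Pr z (ψ 0 - e z))
      have e1 : ((2 * C₀ ^ 2)⁻¹ - (4 * C₀ ^ 2)⁻¹) * (8 * C₀ ^ 2 * τ) = 2 * τ := by
        field_simp; ring
      have e2 : 0 ≤ (2 * C₀ ^ 2)⁻¹ - (4 * C₀ ^ 2)⁻¹ := by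
        have : (2 * C₀ ^ 2)⁻¹ - (4 * C₀ ^ 2)⁻¹ = (4 * C₀ ^ 2)⁻¹ := by field_simp; ring
        rw [this]; positivity
      have e3 := mul_le_mul_of_nonneg_left hs e2
      linarith)
  refine ⟨b, hb, hbw, ?_⟩
  have hbw' : Pr z (ψ b - e z) = w := hbw
  have c1 := hc b hb
  unfold Cone at c1
  have e1 : Pr z (ψ b - ψ 0) = w - Pr z (ψ 0 - e z) := by
    rw [← hbw', ← map_sub]
    congr 1
    abel
  have c2 : ‖Pr z (ψ b - ψ 0)‖ ≤ τ + τ / 3 := by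
    rw [e1]
    have := norm_sub_le w (Pr z (ψ 0 - e z))
    linarith
  have c3 := (A.n_io z _).trans (mul_le_mul_of_nonneg_left c2 hC.le)
  have c4 := n_st A z (ψ 0 - e z)
  have c5 : 2 * C₀ ^ 2 * ‖ψ 0 - e z‖ ≤ 2 / 3 * (C₀ * τ) := by
    nlinarith [mul_le_mul_of_nonneg_left h0 hC.le]
  have e2 : ψ b - e z - Io z (Pr z (ψ b - e z)) = (ψ b - ψ 0 - Io z (Pr z (ψ b - ψ 0))) +
      (ψ 0 - e z - Io z (Pr z (ψ 0 - e z))) := by
    simp only [map_sub]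
    abel
  rw [e2]
  refine (norm_add_le _ _).trans ?_
  linarith

end XCrossX

theorem Amb.cross (A : Amb e r U g Pr Io C₀ a) : ∃ s₀, 0 < s₀ ∧ ∀ s' η, 0 < s' → s' ≤ s₀ → 0 < η →
    ∃ τ ρ, 0 < τ ∧ 0 < ρ ∧ ∀ x y₀ z (n : ℕ), ‖y₀ - e x‖ ≤ s₀ → dist z (r y₀) ≤ ρ →
      ∀ w : XX u, ‖w‖ ≤ τ → ∃ b : XX u, ‖b‖ ≤ s' ∧
        (∀ k ≤ n, dist (g^[k] (r (y₀ + Io x b))) (g^[k] z) ≤ η) ∧
        Pr (g^[n] z) (e (g^[n] (r (y₀ + Io x b))) - e (g^[n] z)) = w := by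
  have hC1 := A.one_le
  have hC : 0 < C₀ := zero_lt_one.trans_le hC1
  obtain ⟨ε₀, hε₀, hcone⟩ := A.cone_iter
  obtain ⟨η₁, hη₁, hQ⟩ := A.ucQ (κ := 1 / 2) (by norm_num)
  obtain ⟨s₁, hs₁, hu₁⟩ := A.unif A.c1 (θ := (4 * C₀ ^ 4)⁻¹) (by positivity)
  obtain ⟨s₂, hs₂, hu₂⟩ := A.unif A.cg (θ := (10 * C₀ ^ 2)⁻¹) (by positivity)
  obtain ⟨ε, hε, hε0, hε1, hε2, hε3⟩ : ∃ ε, 0 < ε ∧ ε ≤ ε₀ ∧ ε ≤ η₁ ∧ ε ≤ s₁ ∧ ε ≤ s₂ :=
    ⟨min (min ε₀ η₁) (min s₁ s₂), by positivity, (min_le_left _ _).trans (min_le_left _ _),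
      (min_le_left _ _).trans (min_le_right _ _), (min_le_right _ _).trans (min_le_left _ _),
      (min_le_right _ _).trans (min_le_right _ _)⟩
  obtain ⟨s₃, hs₃, hn⟩ := A.near (η := ε / 2) (by positivity)
  refine ⟨min s₃ (ε / (1 + C₀)), by positivity, fun s' η hs' hs'0 hη => ?_⟩
  obtain ⟨τ, hτ, hτ1, hτ2, hτ3⟩ : ∃ τ, 0 < τ ∧ 8 * C₀ ^ 2 * τ ≤ s' ∧ 3 * C₀ * τ ≤ η ∧
      3 * C₀ * τ ≤ ε := by
    refine ⟨min (s' / (8 * C₀ ^ 2)) (min η ε / (3 * C₀)), by positivity, ?_, ?_, ?_⟩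
    · rw [mul_comm, ← le_div_iff₀ (by positivity)]
      exact min_le_left _ _
    · rw [mul_comm, ← le_div_iff₀ (by positivity)]
      exact (min_le_right _ _).trans (div_le_div_of_nonneg_right (min_le_left _ _) (by positivity))
    · rw [mul_comm, ← le_div_iff₀ (by positivity)]
      exact (min_le_right _ _).trans (div_le_div_of_nonneg_right (min_le_right _ _) (by positivity))
  refine ⟨τ, τ / (3 * C₀), hτ, by positivity, fun x y₀ z n hy hz => ?_⟩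
  have hz' : 3 * C₀ * dist z (r y₀) ≤ τ := by
    rw [mul_comm, ← le_div_iff₀ (by positivity)]; exact hz
  have hzx : dist z x ≤ ε := by
    have c1 := (hn x y₀ (hy.trans (min_le_left _ _))).2
    have c2 := dist_triangle z (r y₀) x
    have c3 : 0 ≤ dist z (r y₀) := dist_nonneg
    nlinarith
  have hball : ∀ b : XX u, ‖b‖ ≤ s' → ‖y₀ + Io x b - e x‖ ≤ ε := by
    intro b hb
    have c0 : min s₃ (ε / (1 + C₀)) * (1 + C₀) ≤ ε := by
      rw [← le_div_iff₀ (by positivity)]; exact min_le_right _ _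
    have c1 := (A.n_io x b).trans (mul_le_mul_of_nonneg_left (hb.trans hs'0) hC.le)
    have c2 := norm_add_le (y₀ - e x) (Io x b)
    rw [show y₀ - e x + Io x b = y₀ + Io x b - e x by abel] at c2
    linarith
  have hv : ∀ (p q : M) (w : XX u), ‖w‖ ≤ τ → Pr q (e p - e q) = w →
      ‖e p - e q - Io q (Pr q (e p - e q))‖ ≤ 2 * C₀ * τ → dist p q ≤ 3 * C₀ * τ := by
    intro p q w hw h1 b1
    rw [h1] at b1
    have b2 := (A.n_io q w).trans (mul_le_mul_of_nonneg_left hw hC.le)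
    have b3 := norm_add_le (e p - e q - Io q w) (Io q w)
    rw [sub_add_cancel] at b3
    rw [A.iso]
    linarith
  have key : ∀ n : ℕ, ∀ w : XX u, ‖w‖ ≤ τ → ∃ b : XX u, ‖b‖ ≤ s' ∧
      (∀ k ≤ n, dist (g^[k] (r (y₀ + Io x b))) (g^[k] z) ≤ 3 * C₀ * τ) ∧
      Pr (g^[n] z) (e (g^[n] (r (y₀ + Io x b))) - e (g^[n] z)) = w ∧
      ‖e (g^[n] (r (y₀ + Io x b))) - e (g^[n] z) - Io (g^[n] z) (Pr (g^[n] z)
        (e (g^[n] (r (y₀ + Io x b))) - e (g^[n] z)))‖ ≤ 2 * C₀ * τ := by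
    intro n
    induction n with
    | zero =>
      intro w hw
      have h0 : ‖(0 : XX u)‖ ≤ s' := by rw [norm_zero]; exact hs'.le
      obtain ⟨b, hb, h1, h2⟩ := XCrossX.base A hτ hτ1 x z (fun b => e (r (y₀ + Io x b)))
        (hQ x z (by rw [dist_comm]; exact hzx.trans hε1)) (fun b b' hb hb' => by
          have c1 := (hu₁ x _ ((hball b hb).trans hε2)).2.2 _ ((hball b' hb').trans hε2)
          have e1 : y₀ + Io x b - (y₀ + Io x b') = Io x (b - b') := by rw [map_sub]; abel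
          have e2 : fderiv ℝ (e ∘ r) (e x) (Io x (b - b')) = Io x (b - b') := A.tan x _
          rw [e1, e2] at c1
          exact c1) (by
          simp only [map_zero, add_zero]
          rw [← A.iso, dist_comm]
          exact hz') (fun b hb => (hcone x z y₀ b 0 0 (hzx.trans hε0) ((hball b hb).trans hε0)
            ((hball 0 h0).trans hε0) (fun k hk => absurd hk (Nat.not_lt_zero k))
            (fun k hk => absurd hk (Nat.not_lt_zero k))).1) w hw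
      refine ⟨b, hb, fun k hk => ?_, h1, h2⟩
      obtain rfl : k = 0 := Nat.le_zero.1 hk
      exact hv _ _ w hw h1 h2
    | succ n ih =>
      intro w hw
      choose! γ g1 g2 g3 g4 using ih
      obtain ⟨w₀, hw₀, h1, h2⟩ := XCrossX.step A hτ (g^[n] z)
        (fun w => g^[n] (r (y₀ + Io x (γ w)))) (fun p q hp hq => by
          have c1 := (hu₂ (g^[n] z) _ (hp.trans (hτ3.trans hε3))).2.2 _ (hq.trans (hτ3.trans hε3))
          simp only [Function.comp_apply, A.ret] at c1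
          exact c1) g3 g4 (fun w w' hw hw' => (hcone x z y₀ (γ w) (γ w') n (hzx.trans hε0)
            ((hball _ (g1 w hw)).trans hε0) ((hball _ (g1 w' hw')).trans hε0)
            (fun k hk => (g2 w hw k hk.le).trans (hτ3.trans hε0))
            (fun k hk => (g2 w' hw' k hk.le).trans (hτ3.trans hε0))).1) w hw
      refine ⟨γ w₀, g1 w₀ hw₀, fun k hk => ?_, ?_, ?_⟩
      · rcases Nat.lt_or_eq_of_le hk with h | rfl
        · exact g2 w₀ hw₀ k (Nat.lt_succ_iff.1 h)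
        · simp only [Function.iterate_succ_apply']
          exact hv _ _ w hw h1 h2
      · simp only [Function.iterate_succ_apply']
        exact h1
      · simp only [Function.iterate_succ_apply']
        exact h2
  intro w hw
  obtain ⟨b, hb, h1, h2, -⟩ := key n w hw
  exact ⟨b, hb, fun k hk => (h1 k hk).trans hτ2, h2⟩


end Pool.Agent.P.MP_5c499f_an
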