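import Pool.Agent.P.MP_5c499f_an.XBasA

/-! Controlled functions on the cover. -/

set_option autoImplicit false

namespace Pool.Agent.P.MP_5c499f_an

open Filter Topology Metric MeasureTheory Matrix

namespace XCtlX

lemma diffAt {X W : Type*} [NormedAddCommGroup X] [NormedSpace ℝ X] [NormedAddCommGroup W]
    [NormedSpace ℝ W] {φ : X → W} {B : Set X} (hB : IsOpen B) (h : ContDiffOn ℝ 1 φ B) {b : X}
    (hb : b ∈ B) : DifferentiableAt ℝ φ b :=
  (h.contDiffAt (hB.mem_nhds hb)).differentiableAt (by simp)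

/-- A continuous logarithm of a `C¹` function is `C¹`. -/
lemma log_c1 {X : Type*} [NormedAddCommGroup X] [NormedSpace ℝ X] {l φ : X → ℂ} {B : Set X}
    (hB : IsOpen B) (hl : ContinuousOn l B) (hφ : ContDiffOn ℝ 1 φ B)
    (he : ∀ b ∈ B, Complex.exp (l b) = φ b) {b : X} (hb : b ∈ B) : ContDiffAt ℝ 1 l b := by
  have hn := hB.mem_nhds hb
  have hc : ContinuousAt l b := hl.continuousAt hn
  have hne : φ b ≠ 0 := by rw [← he b hb]; exact Complex.exp_ne_zero _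
  have h1 : ContinuousAt (fun z => (l z - l b).im) b :=
    Complex.continuous_im.continuousAt.comp (hc.sub continuousAt_const)
  have h0 : (l b - l b).im = 0 := by simp
  have h2 : ∀ᶠ z in 𝓝 b, -Real.pi < (l z - l b).im :=
    continuousAt_const.eventually_lt h1 (by simpa using Real.pi_pos)
  have h3 : ∀ᶠ z in 𝓝 b, (l z - l b).im < Real.pi :=
    h1.eventually_lt continuousAt_const (by simpa using Real.pi_pos)
  have h4 : l =ᶠ[𝓝 b] fun z => l b + Complex.log (φ z / φ b) := by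
    filter_upwards [h2, h3, hn] with z a2 a3 a4
    rw [← he z a4, ← he b hb, ← Complex.exp_sub, Complex.log_exp a2 a3.le]
    ring
  refine ContDiffAt.congr_of_eventuallyEq ?_ h4
  have h5 : ContDiffAt ℝ 1 (fun z => φ z / φ b) b := (hφ.contDiffAt hn).div_const _
  have h6 : ContDiffAt ℝ 1 Complex.log (φ b / φ b) := by
    rw [div_self hne]
    exact (Complex.contDiffAt_log Complex.one_mem_slitPlane).restrict_scalars ℝ
  exact contDiffAt_const.add (ContDiffAt.comp b (g := Complex.log) h6 h5)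

lemma log_fderiv {X : Type*} [NormedAddCommGroup X] [NormedSpace ℝ X] {l φ : X → ℂ} {B : Set X}
    (hB : IsOpen B) (hl : ContinuousOn l B) (hφ : ContDiffOn ℝ 1 φ B)
    (he : ∀ b ∈ B, Complex.exp (l b) = φ b) {b : X} (hb : b ∈ B) (v : X) :
    fderiv ℝ l b v = fderiv ℝ φ b v / φ b := by
  have hn := hB.mem_nhds hb
  have hne : φ b ≠ 0 := by rw [← he b hb]; exact Complex.exp_ne_zero _
  have h1 : HasFDerivAt l (fderiv ℝ l b) b :=
    ((log_c1 hB hl hφ he hb).differentiableAt (by simp)).hasFDerivAt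
  have h2 := h1.cexp
  have h3 : φ =ᶠ[𝓝 b] fun z => Complex.exp (l z) := by
    filter_upwards [hn] with z a using (he z a).symm
  rw [h3.fderiv_eq, h2.fderiv, he b hb]
  simp only [_root_.smul_apply, smul_eq_mul]
  field_simp

end XCtlX

variable {M : Type*} [MetricSpace M] [CompactSpace M] {N u : ℕ} {e : M → VV N} {r : VV N → M}
  {U : Set (VV N)} {g : Equiv.Perm M} {Pr : M → VV N →L[ℝ] XX u} {Io : M → XX u →L[ℝ] VV N}
  {C₀ a : ℝ}
  {Y : Type*} [TopologicalSpace Y]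

lemma Ctl.zero (ep : Y → VV N) : Ctl ep u 0 := by
  refine ⟨continuous_const, 0, fun τ B _ _ _ => ⟨contDiffOn_const (c := (0 : ℝ)), fun b _ v => ?_⟩⟩
  have : ((0 : Y → ℝ) ∘ τ) = fun _ => (0 : ℝ) := rfl
  rw [this]
  simp

lemma Ctl.add {ep : Y → VV N} {h h' : Y → ℝ} (h1 : Ctl ep u h) (h2 : Ctl ep u h') :
    Ctl ep u (h + h') := by
  obtain ⟨c1, K, hK⟩ := h1
  obtain ⟨c2, K', hK'⟩ := h2
  refine ⟨c1.add c2, K + K', fun τ B hB hτ hc => ?_⟩
  obtain ⟨a1, a2⟩ := hK τ B hB hτ hc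
  obtain ⟨b1, b2⟩ := hK' τ B hB hτ hc
  have e0 : (h + h') ∘ τ = h ∘ τ + h' ∘ τ := rfl
  rw [e0]
  refine ⟨a1.add b1, fun b hb v => ?_⟩
  rw [fderiv_add (XCtlX.diffAt hB a1 hb) (XCtlX.diffAt hB b1 hb), _root_.add_apply,
    add_mul]
  exact (abs_add_le _ _).trans (add_le_add (a2 b hb v) (b2 b hb v))

lemma Ctl.smul {ep : Y → VV N} {h : Y → ℝ} (c : ℝ) (h1 : Ctl ep u h) : Ctl ep u (c • h) := by
  obtain ⟨c1, K, hK⟩ := h1
  refine ⟨c1.const_smul c, |c| * K, fun τ B hB hτ hc => ?_⟩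
  obtain ⟨a1, a2⟩ := hK τ B hB hτ hc
  have e0 : (c • h) ∘ τ = c • (h ∘ τ) := rfl
  rw [e0]
  refine ⟨a1.const_smul c, fun b hb v => ?_⟩
  rw [fderiv_const_smul (XCtlX.diffAt hB a1 hb), _root_.smul_apply, smul_eq_mul,
    abs_mul, mul_assoc]
  exact mul_le_mul_of_nonneg_left (a2 b hb v) (abs_nonneg c)

omit [CompactSpace M] [TopologicalSpace Y] in
/-- The chain rule along a disc. -/
lemma XCtlX.chain (A : Amb e r U g Pr Io C₀ a) {W : Type*} [NormedAddCommGroup W]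
    [NormedSpace ℝ W] {φ : M → W} (hφ : ContDiffOn ℝ 1 (φ ∘ r) U) {p : Y → M} {τ : XX u → Y}
    {B : Set (XX u)} (hB : IsOpen B) (hc : ContDiffOn ℝ 1 ((e ∘ p) ∘ τ) B) :
    ContDiffOn ℝ 1 ((φ ∘ p) ∘ τ) B ∧ ∀ b ∈ B, ∀ v, fderiv ℝ ((φ ∘ p) ∘ τ) b v =
      Dm e r φ (p (τ b)) (fderiv ℝ ((e ∘ p) ∘ τ) b v) := by
  have e0 : (φ ∘ p) ∘ τ = (φ ∘ r) ∘ ((e ∘ p) ∘ τ) := by
    funext b
    simp only [Function.comp_apply, A.ret]
  rw [e0]
  refine ⟨hφ.comp hc fun b _ => A.sub _, fun b hb v => ?_⟩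
  rw [fderiv_comp b (XCtlX.diffAt A.op hφ (A.sub _)) (XCtlX.diffAt hB hc hb)]
  rfl

/-- Composition with a lift of a map that is `C¹` along `M`. -/
lemma Ctl.comp (A : Amb e r U g Pr Io C₀ a) {p : Y → M} {f : M → M}
    (hf : ContDiffOn ℝ 1 (e ∘ f ∘ r) U) {F : Y → Y} (hF : Continuous F)
    (hp : ∀ y, p (F y) = f (p y)) {h : Y → ℝ} (h1 : Ctl (e ∘ p) u h) :
    Ctl (e ∘ p) u (h ∘ F) := by
  obtain ⟨c1, K, hK⟩ := h1
  have hf' : ContDiffOn ℝ 1 ((e ∘ f) ∘ r) U := hf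
  obtain ⟨K', -, hK'⟩ := A.bdd hf'
  refine ⟨c1.comp hF, max K 0 * K', fun τ B hB hτ hc => ?_⟩
  obtain ⟨d1, d2⟩ := XCtlX.chain A hf' hB hc
  have e0 : (e ∘ p) ∘ (F ∘ τ) = ((e ∘ f) ∘ p) ∘ τ := by
    funext b
    simp only [Function.comp_apply, hp]
  obtain ⟨a1, a2⟩ := hK (F ∘ τ) B hB (hF.comp_continuousOn hτ) (by rw [e0]; exact d1)
  refine ⟨a1, fun b hb v => ?_⟩
  have h3 := a2 b hb v
  rw [e0, d2 b hb v] at h3
  calc |fderiv ℝ ((h ∘ F) ∘ τ) b v| = |fderiv ℝ (h ∘ (F ∘ τ)) b v| := rfl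
    _ ≤ _ := h3
    _ ≤ max K 0 * ‖Dm e r (e ∘ f) (p (τ b)) (fderiv ℝ ((e ∘ p) ∘ τ) b v)‖ :=
      mul_le_mul_of_nonneg_right (le_max_left _ _) (norm_nonneg _)
    _ ≤ max K 0 * (K' * ‖fderiv ℝ ((e ∘ p) ∘ τ) b v‖) :=
      mul_le_mul_of_nonneg_left ((hK' _).2 _) (le_max_right _ _)
    _ = _ := by ring

/-- Lifting the argument of a map to the punctured plane. -/
theorem exists_arg [SimplyConnectedSpace Y] [LocallyPathConnectedSpace Y]
    (A : Amb e r U g Pr Io C₀ a) {p : Y → M} (hp : Continuous p) {Γ : Type*} [Group Γ]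
    [MulAction Γ Y] (h1 : ∀ γ : Γ, Continuous fun y : Y => γ • y) (h2 : ∀ (γ : Γ) y, p (γ • y) = p y)
    {θ : M → ℂ} (h3 : ContDiffOn ℝ 1 (θ ∘ r) U) (h4 : ∀ x, θ x ≠ 0) :
    ∃ (h : Y → ℝ) (α : Γ → ℤ), Ctl (e ∘ p) u h ∧ (∀ (γ : Γ) y, h (γ • y) = h y + α γ) ∧
      ∀ (τ : XX u → Y) (B : Set (XX u)), IsOpen B → ContinuousOn τ B →
        ContDiffOn ℝ 1 ((e ∘ p) ∘ τ) B → ∀ b ∈ B, ∀ v, 2 * Real.pi * fderiv ℝ (h ∘ τ) b v =
          (Dm e r θ (p (τ b)) (fderiv ℝ ((e ∘ p) ∘ τ) b v) / θ (p (τ b))).im := by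
  have hθ : Continuous θ := A.cont_φ h3
  obtain ⟨y₀⟩ : Nonempty Y := inferInstance
  obtain ⟨l, ⟨-, hl⟩, -⟩ := Complex.isCoveringMapOn_exp.existsUnique_continuousMap_lifts
    (⟨θ ∘ p, hθ.comp hp⟩ : C(Y, ℂ)) (a₀ := y₀) (Complex.exp_log (h4 (p y₀))) (fun y => h4 (p y))
  have hl' : ∀ y, Complex.exp (l y) = θ (p y) := fun y => congr_fun hl y
  have hlc : Continuous l := l.continuous
  have hpi : (0 : ℝ) < 2 * Real.pi := by positivity
  -- the derivative along discs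
  have key : ∀ (τ : XX u → Y) (B : Set (XX u)), IsOpen B → ContinuousOn τ B →
      ContDiffOn ℝ 1 ((e ∘ p) ∘ τ) B →
      ContDiffOn ℝ 1 ((fun y => (l y).im / (2 * Real.pi)) ∘ τ) B ∧ ∀ b ∈ B, ∀ v,
        2 * Real.pi * fderiv ℝ ((fun y => (l y).im / (2 * Real.pi)) ∘ τ) b v =
          (Dm e r θ (p (τ b)) (fderiv ℝ ((e ∘ p) ∘ τ) b v) / θ (p (τ b))).im := by
    intro τ B hB hτ hc
    obtain ⟨d1, d2⟩ := XCtlX.chain A h3 hB hc
    have c1 : ContinuousOn (l ∘ τ) B := hlc.comp_continuousOn hτ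
    have c2 : ∀ b ∈ B, Complex.exp ((l ∘ τ) b) = ((θ ∘ p) ∘ τ) b := fun b _ => hl' _
    have e0 : (fun y => (l y).im / (2 * Real.pi)) ∘ τ =
        ((2 * Real.pi)⁻¹ • Complex.imCLM : ℂ →L[ℝ] ℝ) ∘ (l ∘ τ) := by
      funext b
      simp only [Function.comp_apply, _root_.smul_apply, Complex.imCLM_apply,
        smul_eq_mul]
      ring
    rw [e0]
    refine ⟨fun b hb => ((ContinuousLinearMap.contDiff _).contDiffAt.comp b
      (XCtlX.log_c1 hB c1 d1 c2 hb)).contDiffWithinAt, fun b hb v => ?_⟩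
    rw [fderiv_comp b (ContinuousLinearMap.differentiableAt _)
      ((XCtlX.log_c1 hB c1 d1 c2 hb).differentiableAt (by simp)), ContinuousLinearMap.fderiv,
      ContinuousLinearMap.comp_apply, XCtlX.log_fderiv hB c1 d1 c2 hb, d2 b hb v]
    simp only [Function.comp_apply, _root_.smul_apply, Complex.imCLM_apply,
      smul_eq_mul]
    field_simp
  -- integrality
  have hint : ∀ (γ : Γ) y, ∃ n : ℤ, l (γ • y) = l y + n * (2 * Real.pi * Complex.I) := by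
    intro γ y
    rw [← Complex.exp_eq_exp_iff_exists_int, hl', hl', h2]
  choose n hn using hint
  have hn' : ∀ (γ : Γ) y, (l (γ • y)).im / (2 * Real.pi) = (l y).im / (2 * Real.pi) + n γ y := by
    intro γ y
    rw [hn γ y]
    simp
    field_simp
  have hnc : ∀ γ : Γ, Continuous (n γ) := by
    intro γ
    rw [Int.isClosedEmbedding_coe_real.isEmbedding.continuous_iff]
    have : ((↑) : ℤ → ℝ) ∘ n γ =
        fun y => (l (γ • y)).im / (2 * Real.pi) - (l y).im / (2 * Real.pi) := by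
      funext y
      rw [hn' γ y]
      simp
    rw [this]
    exact ((Complex.continuous_im.comp (hlc.comp (h1 γ))).div_const _).sub
      ((Complex.continuous_im.comp hlc).div_const _)
  have hconst : ∀ (γ : Γ) y, n γ y = n γ y₀ := fun γ y =>
    PreconnectedSpace.constant inferInstance (hnc γ)
  -- bounds
  obtain ⟨K, hK0, hK⟩ := A.bdd h3
  obtain ⟨x₀, -, hx₀⟩ := isCompact_univ.exists_isMinOn ⟨p y₀, Set.mem_univ _⟩
    hθ.norm.continuousOn
  have hm : 0 < ‖θ x₀‖ := norm_pos_iff.mpr (h4 x₀)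
  refine ⟨fun y => (l y).im / (2 * Real.pi), fun γ => n γ y₀,
    ⟨(Complex.continuous_im.comp hlc).div_const _, K / ‖θ x₀‖ / (2 * Real.pi),
      fun τ B hB hτ hc => ⟨(key τ B hB hτ hc).1, fun b hb v => ?_⟩⟩, fun γ y => ?_,
    fun τ B hB hτ hc => (key τ B hB hτ hc).2⟩
  · have k1 := (key τ B hB hτ hc).2 b hb v
    have k2 : ‖θ x₀‖ ≤ ‖θ (p (τ b))‖ := hx₀ (Set.mem_univ _)
    have k3 : |(Dm e r θ (p (τ b)) (fderiv ℝ ((e ∘ p) ∘ τ) b v) / θ (p (τ b))).im| ≤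
        K * ‖fderiv ℝ ((e ∘ p) ∘ τ) b v‖ / ‖θ x₀‖ := by
      refine (Complex.abs_im_le_norm _).trans ?_
      rw [norm_div]
      exact div_le_div₀ (by positivity) ((hK _).2 _) hm k2
    rw [← k1, abs_mul, abs_of_pos hpi] at k3
    rw [div_mul_eq_mul_div, le_div_iff₀ hpi, mul_comm, div_mul_eq_mul_div]
    exact k3
  · have := hn' γ y
    rw [hconst γ y] at this
    exact this


end Pool.Agent.P.MP_5c499f_an
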