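import Pool.Agent.P.MP_5c499f_an.XBasY

/-! Persistence of intersections of leaves, and twins. -/

set_option autoImplicit false

namespace Pool.Agent.P.MP_5c499f_an

open Filter Topology Metric MeasureTheory Matrix

variable {Y Γ : Type*} [MetricSpace Y] [Group Γ] [MulAction Γ Y] {F : Equiv.Perm Y}
  {Φ : MulAut Γ} {ε δ C a b : ℝ}

namespace XDupX

lemma level {G : Equiv.Perm Y} {w x : Y} (h : Asym G w x) {C b δ η : ℝ} (hb : 0 ≤ b) (hb' : b < 1)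
    (hδ : 0 < δ) (hη : 0 < η) :
    ∃ l : ℕ, dist ((G ^ (l : ℤ)) w) ((G ^ (l : ℤ)) x) ≤ δ ∧ C * b ^ l ≤ η := by
  have h2 : Tendsto (fun j : ℕ => C * b ^ j) atTop (𝓝 (C * 0)) :=
    (tendsto_pow_atTop_nhds_zero_of_lt_one hb hb').const_mul C
  obtain ⟨l, h3, h4⟩ := ((h.eventually (ge_mem_nhds hδ)).and
    (h2.eventually (ge_mem_nhds (by simpa using hη)))).exists
  exact ⟨l, by simpa [Equiv.Perm.iterate_eq_pow] using h3, h4⟩

lemma cont (S : Hs F Φ ε δ C a b) (l : ℤ) {η : ℝ} (hη : 0 < η) :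
    ∃ η', 0 < η' ∧ ∀ x x', dist x' x ≤ η' → dist ((F ^ l) x') ((F ^ l) x) ≤ η := by
  obtain ⟨η', h1, h2⟩ := Metric.uniformContinuous_iff_le.1 (uc_zpow S.uc S.uc' l) η hη
  exact ⟨η', h1, fun _ _ h3 => h2 h3⟩

end XDupX

theorem Hs.persist1 (S : Hs F Φ ε δ C a b) {w x : Y} (h : Asym F w x) {η : ℝ} (hη : 0 < η) :
    ∃ η', 0 < η' ∧ ∀ x', dist x' x ≤ η' → ∃ w', Asym F w' x' ∧ Un F 0 η w' w := by
  have hε := S.lh.ε_pos
  obtain ⟨l, h1, h2⟩ := XDupX.level (C := C) h S.lh.b_nonneg S.lh.b_lt S.lh.δ_pos hη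
  obtain ⟨η', h3, h4⟩ := XDupX.cont S l S.lh.δ_pos
  refine ⟨η', h3, fun x' hx' => ?_⟩
  obtain ⟨z, z1, z2⟩ := S.lh.br' l (x := x') (y := w) (by
    linarith [dist_triangle_right ((F ^ (l : ℤ)) x') ((F ^ (l : ℤ)) w) ((F ^ (l : ℤ)) x),
      h4 x x' hx'])
  exact ⟨z, S.lh.asym_of_st (z1.mono le_rfl (by linarith)),
    (S.lh.cu' (z2.mono le_rfl (by linarith)) l).mono (by omega) h2⟩

theorem Hs.persist (S : Hs F Φ ε δ C a b) {w x y : Y} (h : Asym F w x)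
    (h' : Asym (F⁻¹ : Equiv.Perm Y) w y) {η : ℝ} (hη : 0 < η) :
    ∃ (η' : ℝ) (T : ℕ), 0 < η' ∧ ∀ x' y', dist x' x ≤ η' → dist y' y ≤ η' →
      ∃ w', Asym F w' x' ∧ Un F (-T) ε w' y' ∧ dist w' w ≤ η := by
  have hε := S.lh.ε_pos
  have hδ := S.lh.δ_pos
  obtain ⟨η1, a1, a2⟩ := S.persist1 h (η := min δ η / 2) (by positivity)
  obtain ⟨l, h1, h2⟩ := XDupX.level (C := C) h' S.lh.a_nonneg S.lh.a_lt (half_pos hδ) (half_pos hη)
  rw [_root_.inv_zpow'] at h1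
  obtain ⟨η2, h3, h4⟩ := XDupX.cont S (-l) hδ
  refine ⟨min η1 η2, l, lt_min a1 h3, fun x' y' hx' hy' => ?_⟩
  obtain ⟨w1, b1, b2⟩ := a2 x' (hx'.trans (min_le_left _ _))
  have b3 := h4 y y' (hy'.trans (min_le_right _ _))
  have b4 := b2 (-l) (by omega)
  have b5 : dist w1 w ≤ min δ η / 2 := by simpa using b2 0 le_rfl
  have m1 := min_le_left δ η
  have m2 := min_le_right δ η
  obtain ⟨z, z1, z2⟩ := S.lh.br' (-l) (x := w1) (y := y') (by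
    linarith [dist_triangle4_right ((F ^ (-l : ℤ)) w1) ((F ^ (-l : ℤ)) y') ((F ^ (-l : ℤ)) w)
      ((F ^ (-l : ℤ)) y)])
  have z3 := z1.mono le_rfl (show ε ≤ 4 * ε by linarith)
  have z4 : dist z w1 ≤ C * a ^ l := by simpa using S.lh.cs' z3 l 0 (by omega)
  exact ⟨z, (S.lh.asym_of_st z3).trans b1, z2, by linarith [dist_triangle z w1 w]⟩

variable {d : ℕ} {J G : Y → Fin d → ℝ} {A : Γ → Fin d → ℝ} {L : ℤ → Matrix (Fin d) (Fin d) ℝ}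
  {ρ : Fin d → ℝ}

theorem Hs.dup (S : Hs F Φ ε δ C a b) (gg : GG F ε J A L ρ G) (h : ¬ Once F A) :
    Dup Γ F ε G := by
  have hε := S.lh.ε_pos
  obtain ⟨y0, y1, γ, h1, h2, h3, h4⟩ : ∃ y y', ∃ g : Γ, A g = 0 ∧
      Asym (F⁻¹ : Equiv.Perm Y) y' y ∧ Asym F (g • y') y ∧ y' ≠ y := by
    by_contra hn
    exact h fun y y' g a1 a2 a3 => by_contra fun a4 => hn ⟨y, y', g, a1, a2, a3, a4⟩
  obtain ⟨κ, hκ, hfar⟩ : ∃ κ, 0 < κ ∧ ∀ g : Γ, κ ≤ dist y1 (g • y0) := by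
    by_cases hg : ∃ g : Γ, dist y1 (g • y0) ≤ 5 * ε
    · obtain ⟨g0, hg0⟩ := hg
      refine ⟨dist y1 (g0 • y0), dist_pos.2 fun e => ?_, fun g => ?_⟩
      · rw [e] at h2
        rw [S.free_un h2, one_smul] at e
        exact h4 e
      · by_contra a1
        rw [not_le] at a1
        have a2 : g0⁻¹ * g = 1 := S.disc _ y0 (by
          rw [← S.iso g0, smul_smul, mul_inv_cancel_left]
          linarith [dist_triangle_left (g • y0) (g0 • y0) y1])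
        rw [← inv_mul_eq_one.1 a2] at a1
        exact lt_irrefl _ a1
    · exact ⟨5 * ε, by linarith, fun g => (not_le.1 fun e => hg ⟨g, e⟩).le⟩
  have h5 : Asym F y1 (γ⁻¹ • y0) := by rwa [← S.asym_smul γ, smul_inv_smul]
  obtain ⟨η', T, b1, b2⟩ := S.persist h5 h2 (half_pos hκ)
  have m1 := min_le_left (η' / 2) (κ / 8)
  have m2 := min_le_right (η' / 2) (κ / 8)
  refine ⟨y0, min (η' / 2) (κ / 8), T, by positivity, ?_⟩
  rintro y ⟨g, hg⟩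
  have c1 : dist (g⁻¹ • y) y0 ≤ η' := by
    rw [← S.iso g, smul_inv_smul]; linarith
  obtain ⟨w', c2, c3, c4⟩ := b2 (γ⁻¹ • g⁻¹ • y) (g⁻¹ • y) (by rwa [S.iso]) c1
  refine ⟨g • w', ?_, ?_, fun g' => ?_⟩
  · have d1 := gg.tr g w' (g⁻¹ • y)
    have d2 := gg.ker γ (γ⁻¹ • g⁻¹ • y) h1
    rw [smul_inv_smul] at d1 d2
    rw [gg.st _ _ c2, ← d2, sub_self] at d1
    exact sub_eq_zero.1 d1
  · rwa [← S.un_smul g, smul_inv_smul] at c3
  · have d1 := hfar (g⁻¹ * g')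
    rw [← S.iso g⁻¹, inv_smul_smul, smul_smul]
    linarith [dist_triangle_left y1 ((g⁻¹ * g') • y0) w']


end Pool.Agent.P.MP_5c499f_an
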