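import Mathlib
import Pool.Agent.P.MP_5c499f_an.XWRet
import Pool.Agent.P.MP_5c499f_an.XWIF

/-! The tubular neighbourhood theorem: nearest point retraction onto a compact submanifold. -/

open Set Filter Topology
open scoped ContDiff InnerProductSpace

namespace Pool.Agent.P.MP_5c499f_an.Wn

variable {E : Type} [NormedAddCommGroup E] [InnerProductSpace ℝ E] [FiniteDimensional ℝ E]

section Local

variable {F : Type} [NormedAddCommGroup F] [InnerProductSpace ℝ F] [FiniteDimensional ℝ F]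

/-- The adjoint as a real continuous linear map. -/
noncomputable def adjL : (E →L[ℝ] F) →L[ℝ] (F →L[ℝ] E) :=
  haveI := FiniteDimensional.complete ℝ E
  haveI := FiniteDimensional.complete ℝ F
  LinearMap.toContinuousLinearMap
    { toFun := fun A => ContinuousLinearMap.adjoint A
      map_add' := fun A B => by simp
      map_smul' := fun c A => by simp }

lemma adjL_inner (A : E →L[ℝ] F) (l : F) (v : E) : ⟪adjL A l, v⟫_ℝ = ⟪l, A v⟫_ℝ := by
  have := FiniteDimensional.complete ℝ E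
  have := FiniteDimensional.complete ℝ F
  exact ContinuousLinearMap.adjoint_inner_left A v l

lemma adjL_inj {A : E →L[ℝ] F} (hA : Function.Surjective A) {l : F} (h : adjL A l = 0) :
    l = 0 := by
  obtain ⟨v, hv⟩ := hA l
  have := adjL_inner A l v
  rw [h, hv, inner_zero_left] at this
  exact inner_self_eq_zero.mp this.symm

/-- Lagrange multipliers at a nearest point. -/
lemma tub_lagrange {N W : Set E} {f : E → F} (hW : IsOpen W) (hf : ContDiffOn ℝ ∞ f W)
    (hs : ∀ y ∈ W, Function.Surjective (fderiv ℝ f y)) (hN : ∀ y ∈ W, (y ∈ N ↔ f y = 0))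
    {u x : E} (hxW : x ∈ W) (hxN : x ∈ N) (hmin : ∀ y ∈ N, ‖u - x‖ ≤ ‖u - y‖) :
    ∃ l : F, x + adjL (fderiv ℝ f x) l - u = 0 := by
  have := FiniteDimensional.complete ℝ E
  have := FiniteDimensional.complete ℝ F
  have hfx : f x = 0 := (hN x hxW).1 hxN
  have hf' : HasStrictFDerivAt f (fderiv ℝ f x) x :=
    (hf.contDiffAt (hW.mem_nhds hxW)).hasStrictFDerivAt (by simp)
  have hφ : HasStrictFDerivAt (fun y : E => ‖y - u‖ ^ 2)
      (2 • (innerSL ℝ (x - u)).comp (ContinuousLinearMap.id ℝ E)) x :=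
    (((contDiff_id.sub contDiff_const).norm_sq ℝ (n := 1)).contDiffAt (x := x)).hasStrictFDerivAt'
      (HasFDerivAt.norm_sq ((hasFDerivAt_id x).sub_const u)) (by simp)
  have hext : IsLocalExtrOn (fun y : E => ‖y - u‖ ^ 2) {y | f y = f x} x := by
    left
    have : ∀ᶠ y in 𝓝[{y | f y = f x}] x, y ∈ W := mem_nhdsWithin_of_mem_nhds (hW.mem_nhds hxW)
    filter_upwards [this, self_mem_nhdsWithin] with y hy hy'
    have hyN : y ∈ N := (hN y hy).2 (by rw [← hfx]; exact hy')
    have := hmin y hyN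
    rw [norm_sub_rev u x, norm_sub_rev u y] at this
    exact pow_le_pow_left₀ (norm_nonneg _) this 2
  obtain ⟨Λ, c, hne, hΛ⟩ := hext.exists_linear_map_of_hasStrictFDerivAt hf' hφ
  have hc : c ≠ 0 := by
    rintro rfl
    apply hne
    have : Λ = 0 := by
      ext w
      obtain ⟨v, rfl⟩ := hs x hxW w
      simpa using hΛ v
    rw [this]; rfl
  let l0 : F := (InnerProductSpace.toDual ℝ F).symm (LinearMap.toContinuousLinearMap Λ)
  have hl0 : ∀ w, ⟪l0, w⟫_ℝ = Λ w := fun w => by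
    simp [l0, InnerProductSpace.toDual_symm_apply]
  refine ⟨(2 * c)⁻¹ • l0, ?_⟩
  apply ext_inner_right ℝ
  intro v
  have h1 := hΛ v
  have h2 : (2 • (innerSL ℝ (x - u)).comp (ContinuousLinearMap.id ℝ E)) v
      = 2 * ⟪x - u, v⟫_ℝ := by simp [inner_sub_left]
  rw [h2, smul_eq_mul] at h1
  have h3 : x + adjL (fderiv ℝ f x) ((2 * c)⁻¹ • l0) - u
      = (x - u) + adjL (fderiv ℝ f x) ((2 * c)⁻¹ • l0) := by abel
  rw [h3, inner_add_left, adjL_inner, real_inner_smul_left, hl0, inner_zero_left]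
  field_simp
  linarith

lemma tub_local {N W : Set E} {f : E → F} (hW : IsOpen W) (hf : ContDiffOn ℝ ∞ f W)
    (hs : ∀ y ∈ W, Function.Surjective (fderiv ℝ f y)) (hN : ∀ y ∈ W, (y ∈ N ↔ f y = 0))
    (r : E → E) (hr : ∀ u, r u ∈ N ∧ ∀ y ∈ N, ‖u - r u‖ ≤ ‖u - y‖)
    {x0 : E} (hxW : x0 ∈ W) (hxN : x0 ∈ N) :
    (∀ᶠ u in 𝓝 x0, ContDiffAt ℝ ∞ r u) ∧
      ∀ u v, ⟪fderiv ℝ r x0 u, v⟫_ℝ = ⟪u, fderiv ℝ r x0 v⟫_ℝ := by
  set B : E → (F →L[ℝ] E) := fun x => adjL (fderiv ℝ f x) with hB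
  have hBs : ContDiffOn ℝ ∞ B W :=
    (adjL (E := E) (F := F)).contDiff.comp_contDiffOn (hf.fderiv_of_isOpen hW (by simp))
  set G : E × (E × F) → E × F := fun z => (z.2.1 + B z.2.1 z.2.2 - z.1, f z.2.1) with hG
  set O : Set (E × (E × F)) := {z | z.2.1 ∈ W} with hO
  have hOo : IsOpen O := hW.preimage (by fun_prop)
  have h21 : ContDiffOn ℝ ∞ (fun z : E × (E × F) => z.2.1) O := by fun_prop
  have hGs : ContDiffOn ℝ ∞ G O := by
    refine ContDiffOn.prodMk (ContDiffOn.sub (h21.add ?_) (by fun_prop)) ?_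
    · exact (hBs.comp h21 (fun z hz => hz)).clm_apply (by fun_prop)
    · exact hf.comp h21 (fun z hz => hz)
  have hfx : f x0 = 0 := (hN x0 hxW).1 hxN
  have hfd : HasFDerivAt f (fderiv ℝ f x0) x0 :=
    ((hf.contDiffAt (hW.mem_nhds hxW)).differentiableAt (by simp)).hasFDerivAt
  have hBd : HasFDerivAt B (fderiv ℝ B x0) x0 :=
    ((hBs.contDiffAt (hW.mem_nhds hxW)).differentiableAt (by simp)).hasFDerivAt
  have hDG : ∀ w : E × (E × F), fderiv ℝ G (x0, (x0, 0)) w =
      (w.2.1 + B x0 w.2.2 - w.1, fderiv ℝ f x0 w.2.1) := by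
    intro w
    let z0 : E × (E × F) := (x0, (x0, 0))
    have a1 : HasFDerivAt (fun z : E × (E × F) => z.2.1)
        ((ContinuousLinearMap.fst ℝ E F).comp (ContinuousLinearMap.snd ℝ E (E × F))) z0 :=
      ((ContinuousLinearMap.fst ℝ E F).comp (ContinuousLinearMap.snd ℝ E (E × F))).hasFDerivAt
    have a2 : HasFDerivAt (fun z : E × (E × F) => z.2.2)
        ((ContinuousLinearMap.snd ℝ E F).comp (ContinuousLinearMap.snd ℝ E (E × F))) z0 :=
      ((ContinuousLinearMap.snd ℝ E F).comp (ContinuousLinearMap.snd ℝ E (E × F))).hasFDerivAt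
    have a3 : HasFDerivAt (fun z : E × (E × F) => z.1)
        (ContinuousLinearMap.fst ℝ E (E × F)) z0 := hasFDerivAt_fst
    have a4 := (HasFDerivAt.comp z0 (g := B) hBd a1).clm_apply a2
    have a5 := HasFDerivAt.comp z0 (g := f) hfd a1
    have a6 := ((a1.add a4).sub a3).prodMk a5
    have a7 : fderiv ℝ G z0 = _ := a6.fderiv
    rw [a7]
    simp [z0]
  obtain ⟨U, W', p, hU, hKU, hW', hW'O, hmem, hp, hsol, huniq⟩ :=
    implicit_compact G O hOo hGs {x0} isCompact_singleton (fun _ => (x0, 0)) continuousOn_const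
      (by rintro k rfl; exact hxW) (by rintro k rfl; simp [hG, hfx])
      (by
        rintro k rfl v hv
        rw [hDG] at hv
        have h1 : v.1 + B k v.2 = 0 := by simpa using congrArg Prod.fst hv
        have h2 : fderiv ℝ f k v.1 = 0 := by simpa using congrArg Prod.snd hv
        have h3 : ⟪v.1 + B k v.2, v.1⟫_ℝ = 0 := by rw [h1, inner_zero_left]
        rw [inner_add_left, hB, adjL_inner, h2, inner_zero_right, add_zero] at h3
        have h4 : v.1 = 0 := inner_self_eq_zero.mp h3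
        rw [h4, zero_add] at h1
        exact Prod.ext h4 (adjL_inj (hs k hxW) h1))
  have hx0U : x0 ∈ U := hKU rfl
  have hz0 : (x0, ((x0, 0) : E × F)) ∈ W' := hmem x0 rfl
  have hp0 : p x0 = (x0, 0) := ((huniq x0 (x0, 0) hz0 (by simp [hG, hfx])).2).symm
  -- lower bound for the adjoint
  obtain ⟨K, hK0, hK⟩ := LinearMap.exists_antilipschitzWith (B x0 : F →ₗ[ℝ] E)
    (LinearMap.ker_eq_bot'.mpr fun l hl => adjL_inj (hs x0 hxW) hl)
  have hK' : ∀ l, ‖l‖ ≤ K * ‖B x0 l‖ := fun l => by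
    simpa using hK.le_mul_dist l 0
  have hKp : (0 : ℝ) < K := hK0
  have hrc : Tendsto r (𝓝 x0) (𝓝 x0) := by
    rw [tendsto_iff_norm_sub_tendsto_zero]
    have : Tendsto (fun u : E => 2 * ‖u - x0‖) (𝓝 x0) (𝓝 0) := by
      have : Continuous (fun u : E => 2 * ‖u - x0‖) := by fun_prop
      simpa using this.tendsto x0
    refine squeeze_zero (fun _ => norm_nonneg _) (fun u => ?_) this
    have h1 := (hr u).2 x0 hxN
    have h2 : r u - x0 = (u - x0) - (u - r u) := by abel
    rw [h2]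
    linarith [norm_sub_le (u - x0) (u - r u)]
  have hBc : ∀ᶠ x in 𝓝 x0, ‖B x - B x0‖ < (2 * (K : ℝ))⁻¹ := by
    have := hBd.continuousAt
    rw [ContinuousAt, tendsto_iff_norm_sub_tendsto_zero] at this
    exact this.eventually (gt_mem_nhds (by positivity))
  obtain ⟨ε, hε, hball⟩ := Metric.isOpen_iff.mp hW' _ hz0
  have hsm : ∀ᶠ u in 𝓝 x0, (2 * K + 2) * ‖u - x0‖ < ε := by
    have : Continuous (fun u : E => (2 * K + 2) * ‖u - x0‖) := by fun_prop
    exact (this.tendsto x0).eventually (gt_mem_nhds (by simpa using hε))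
  have heq : ∀ᶠ u in 𝓝 x0, r u = (p u).1 := by
    filter_upwards [hrc.eventually (hW.mem_nhds hxW), hrc.eventually hBc, hsm] with u h1 h2 h3
    obtain ⟨l, hl⟩ := tub_lagrange hW hf hs hN h1 (hr u).1 (hr u).2
    have hd := (hr u).2 x0 hxN
    have hBl : B (r u) l = u - r u := by
      have : B (r u) l = (r u + B (r u) l - u) + (u - r u) := by abel
      rw [this]; change (r u + adjL (fderiv ℝ f (r u)) l - u) + _ = _
      rw [hl, zero_add]
    have hl2 : ‖l‖ ≤ 2 * K * ‖u - x0‖ := by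
      have e1 : B x0 l = B (r u) l - (B (r u) - B x0) l := by simp
      have e2 : ‖(B (r u) - B x0) l‖ ≤ (2 * (K : ℝ))⁻¹ * ‖l‖ :=
        ((B (r u) - B x0).le_opNorm l).trans (mul_le_mul_of_nonneg_right h2.le (norm_nonneg _))
      have e3 : ‖B x0 l‖ ≤ ‖u - x0‖ + (2 * (K : ℝ))⁻¹ * ‖l‖ := by
        rw [e1]
        refine (norm_sub_le _ _).trans ?_
        rw [hBl]; linarith
      have e4 := (hK' l).trans (mul_le_mul_of_nonneg_left e3 hKp.le)
      have e5 : (K : ℝ) * (‖u - x0‖ + (2 * (K : ℝ))⁻¹ * ‖l‖) = K * ‖u - x0‖ + ‖l‖ / 2 := by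
        field_simp
      rw [e5] at e4
      linarith
    have hn := norm_nonneg (u - x0)
    have hKn := mul_nonneg hKp.le hn
    have hin : (u, ((r u, l) : E × F)) ∈ W' := by
      apply hball
      rw [Metric.mem_ball, Prod.dist_eq, Prod.dist_eq]
      simp only [dist_eq_norm, sub_zero, max_lt_iff]
      have h2 : r u - x0 = (u - x0) - (u - r u) := by abel
      refine ⟨by nlinarith, ?_, by nlinarith⟩
      rw [h2]
      nlinarith [norm_sub_le (u - x0) (u - r u)]
    have := (huniq u (r u, l) hin (Prod.ext hl ((hN _ h1).1 (hr u).1))).2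
    rw [← this]
  constructor
  · filter_upwards [heq.eventually_nhds, hU.mem_nhds hx0U] with u h1 h2
    exact (hp.contDiffAt (hU.mem_nhds h2)).fst.congr_of_eventuallyEq h1
  · have hpd : HasFDerivAt p (fderiv ℝ p x0) x0 :=
      ((hp.contDiffAt (hU.mem_nhds hx0U)).differentiableAt (by simp)).hasFDerivAt
    have hrd : ∀ w, fderiv ℝ r x0 w = (fderiv ℝ p x0 w).1 := by
      intro w
      rw [(hpd.fst.congr_of_eventuallyEq heq).fderiv]
      rfl
    have hGd : HasFDerivAt G (fderiv ℝ G (x0, (x0, 0))) (x0, p x0) := by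
      rw [hp0]
      exact ((hGs.contDiffAt (hOo.mem_nhds hxW)).differentiableAt (by simp)).hasFDerivAt
    have c1 := HasFDerivAt.comp x0 (g := G) hGd ((hasFDerivAt_id x0).prodMk hpd)
    have c2 : HasFDerivAt (G ∘ fun u => (id u, p u)) (0 : E →L[ℝ] E × F) x0 := by
      refine (hasFDerivAt_const (0 : E × F) x0).congr_of_eventuallyEq ?_
      filter_upwards [hU.mem_nhds hx0U] with u hu
      exact (hsol u hu).2
    have c3 := c1.unique c2
    have c4 : ∀ w, w = fderiv ℝ r x0 w + B x0 (fderiv ℝ p x0 w).2 ∧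
        fderiv ℝ f x0 (fderiv ℝ r x0 w) = 0 := by
      intro w
      have h := congrArg (fun L => L w) c3
      simp only [ContinuousLinearMap.comp_apply, ContinuousLinearMap.prod_apply, hDG,
        ContinuousLinearMap.id_apply, zero_apply] at h
      rw [hrd]
      exact ⟨(sub_eq_zero.mp (congrArg Prod.fst h)).symm, congrArg Prod.snd h⟩
    have c5 : ∀ u v, ⟪u, fderiv ℝ r x0 v⟫_ℝ = ⟪fderiv ℝ r x0 u, fderiv ℝ r x0 v⟫_ℝ := by
      intro u v
      conv_lhs => rw [(c4 u).1]
      rw [inner_add_left, hB, adjL_inner, (c4 v).2, inner_zero_right, add_zero]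
    intro u v
    rw [c5 u v, real_inner_comm v, c5 v u, real_inner_comm]

end Local

theorem exists_ret (N : Set E) (hN : IsSubmanifold N) (hc : IsCompact N) :
    ∃ R : Ret E, R.S = N := by
  rcases N.eq_empty_or_nonempty with rfl | hne
  · exact ⟨{ S := ∅, W := ∅, r := id, smooth := contDiff_id, isOpen := isOpen_empty,
             sub := subset_rfl, maps := fun _ h => h, fix := fun _ h => h.elim,
             closed := isClosed_empty, symm := fun _ h => h.elim, compact := isCompact_empty }, rfl⟩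
  have hex : ∀ u : E, ∃ x, x ∈ N ∧ ∀ y ∈ N, ‖u - x‖ ≤ ‖u - y‖ := fun u => by
    obtain ⟨x, hx, hmin⟩ := hc.exists_isMinOn hne
      (f := fun y => ‖u - y‖) (Continuous.continuousOn (by fun_prop))
    exact ⟨x, hx, fun y hy => hmin hy⟩
  choose r hr using hex
  have hloc : ∀ x ∈ N, (∀ᶠ u in 𝓝 x, ContDiffAt ℝ ∞ r u) ∧
      ∀ u v, ⟪fderiv ℝ r x u, v⟫_ℝ = ⟪u, fderiv ℝ r x v⟫_ℝ := fun x hx => by
    obtain ⟨k, f, W, hW, hxW, hf, hs, hiff⟩ := hN x hx
    exact tub_local hW hf hs hiff r hr hxW hx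
  set O : Set E := interior {u | ContDiffAt ℝ ∞ r u} with hO
  have hNO : N ⊆ O := fun x hx => mem_interior_iff_mem_nhds.mpr (hloc x hx).1
  have hrO : ContDiffOn ℝ ∞ r O := fun u hu =>
    ContDiffAt.contDiffWithinAt (interior_subset hu : u ∈ {u | ContDiffAt ℝ ∞ r u})
  obtain ⟨χ, hχ, -, hsupp, -, h1⟩ := exists_bump N O hc isOpen_interior hNO
  have h1' : ∀ x ∈ N, ∀ᶠ u in 𝓝 x, χ u = 1 := fun x hx => eventually_nhdsSet_iff_forall.mp h1 x hx
  have hin : ∀ u ∈ interior {u | χ u = 1}, χ u • r u = r u := fun u hu => by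
    have h : u ∈ {u | χ u = 1} := interior_subset hu
    rw [show χ u = 1 from h, one_smul]
  have hsub : N ⊆ interior {u | χ u = 1} := fun x hx =>
    mem_interior_iff_mem_nhds.mpr (h1' x hx)
  refine ⟨{ S := N, W := interior {u | χ u = 1}, r := fun u => χ u • r u,
            smooth := contDiff_smul_cut O isOpen_interior χ hχ hsupp r hrO,
            isOpen := isOpen_interior, sub := hsub, maps := fun u hu => ?_,
            fix := fun x hx => ?_, closed := hc.isClosed, symm := fun x hx => ?_,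
            compact := hc }, rfl⟩
  · change χ u • r u ∈ N
    rw [hin u hu]; exact (hr u).1
  · rw [hin x (hsub hx)]
    have := (hr x).2 x hx
    rw [sub_self, norm_zero] at this
    exact (sub_eq_zero.mp (norm_le_zero_iff.mp this)).symm
  · have : (fun u => χ u • r u) =ᶠ[𝓝 x] r := by
      filter_upwards [h1' x hx] with u hu
      rw [hu, one_smul]
    rw [this.fderiv_eq]
    exact (hloc x hx).2

end Pool.Agent.P.MP_5c499f_an.Wn
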