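import Pool.Agent.P.MP_5c499f_an.XRet
import Pool.Agent.P.MP_5c499f_an.XWTub

/-! Existence of the retraction. -/

set_option autoImplicit false

namespace Pool.Agent.P.MP_5c499f_an

open Bundle Filter Topology
open scoped Manifold ContDiff

variable {E : Type*} [NormedAddCommGroup E] [NormedSpace ℝ E] [FiniteDimensional ℝ E]
  {M : Type*} [MetricSpace M] [CompactSpace M] [ChartedSpace E M] [IsManifold 𝓘(ℝ, E) ∞ M]
  {N : ℕ} {e : M → VV N} {r : VV N → M} {U : Set (VV N)}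

namespace XEmbX

omit [FiniteDimensional ℝ E] in
/-- Straightening of an immersion of an open set. -/
lemma flat {φ : E → VV N} {O : Set E} (hO : IsOpen O) (hφ : ContDiffOn ℝ ∞ φ O) {u₀ : E}
    (hu : u₀ ∈ O) (hD : Function.Injective (fderiv ℝ φ u₀)) :
    ∃ (k : ℕ) (F : VV N → EuclideanSpace ℝ (Fin k)) (G : VV N → E) (W : Set (VV N)) (O' : Set E),
      IsOpen W ∧ IsOpen O' ∧ u₀ ∈ O' ∧ ContDiffOn ℝ ∞ F W ∧ ContDiffOn ℝ ∞ G W ∧
      (∀ y ∈ W, Function.Surjective (fderiv ℝ F y)) ∧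
      (∀ y ∈ W, F y = 0 → y = φ (G y)) ∧
      ∀ u ∈ O', φ u ∈ W ∧ F (φ u) = 0 ∧ G (φ u) = u := by
  set D := fderiv ℝ φ u₀ with hDd
  obtain ⟨L₀, hL₀⟩ := LinearMap.exists_leftInverse_of_injective (D : E →ₗ[ℝ] VV N)
    (LinearMap.ker_eq_bot.2 hD)
  let L : VV N →L[ℝ] E := LinearMap.toContinuousLinearMap L₀
  have hL : ∀ u, L (D u) = u := fun u => LinearMap.congr_fun hL₀ u
  let K : Submodule ℝ (VV N) := LinearMap.range (D : E →ₗ[ℝ] VV N)
  let k := Module.finrank ℝ (VV N ⧸ K)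
  let q : (VV N ⧸ K) ≃ₗ[ℝ] EuclideanSpace ℝ (Fin k) := LinearEquiv.ofFinrankEq _ _ (by simp [k])
  let κ : VV N →L[ℝ] EuclideanSpace ℝ (Fin k) :=
    LinearMap.toContinuousLinearMap ((q : (VV N ⧸ K) →ₗ[ℝ] EuclideanSpace ℝ (Fin k)).comp K.mkQ)
  have hκs : Function.Surjective κ := q.surjective.comp K.mkQ_surjective
  have hκ0 : ∀ w, κ w = 0 ↔ w ∈ K := fun w => by
    change q (K.mkQ w) = 0 ↔ _
    rw [q.map_eq_zero_iff, Submodule.mkQ_apply, Submodule.Quotient.mk_eq_zero]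
  let f : VV N → VV N := fun v => φ (L v) + (v - D (L v))
  have hOo : IsOpen (L ⁻¹' O) := hO.preimage L.continuous
  have hf : ContDiffOn ℝ ∞ f (L ⁻¹' O) := by
    refine ContDiffOn.add (hφ.comp L.contDiff.contDiffOn fun v hv => hv) ?_
    exact (contDiff_id.sub (D.contDiff.comp L.contDiff)).contDiffOn
  have hfD : ∀ u, f (D u) = φ u := fun u => by simp [f, hL]
  have hφd : HasFDerivAt φ D (L (D u₀)) := by
    rw [hL]
    exact ((hφ.contDiffAt (hO.mem_nhds hu)).differentiableAt (by simp)).hasFDerivAt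
  have hfd : HasFDerivAt f (D.comp L + (ContinuousLinearMap.id ℝ _ - D.comp L)) (D u₀) :=
    (hφd.comp (D u₀) L.hasFDerivAt).add ((hasFDerivAt_id _).sub (D.comp L).hasFDerivAt)
  obtain ⟨W, g, hW, hKW, hWO, -, hfW, hg, hgf⟩ := Wn.inverse_compact f (L ⁻¹' O) hOo hf {D u₀}
    isCompact_singleton (by rintro _ rfl; simpa [hL] using hu) (Set.injOn_singleton _ _)
    (by
      rintro _ rfl
      rw [hfd.fderiv, add_sub_cancel]
      exact fun a b h => h)
  refine ⟨k, κ ∘ g, L ∘ g, f '' W, D ⁻¹' W, hfW, hW.preimage D.continuous, hKW rfl,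
    κ.contDiff.comp_contDiffOn hg, L.contDiff.comp_contDiffOn hg, ?_, ?_, ?_⟩
  · rintro _ ⟨w, hw, rfl⟩
    have a1 : HasFDerivAt g (fderiv ℝ g (f w)) (f w) :=
      ((hg.contDiffAt (hfW.mem_nhds ⟨w, hw, rfl⟩)).differentiableAt (by simp)).hasFDerivAt
    have a2 : HasFDerivAt f (fderiv ℝ f w) w :=
      ((hf.contDiffAt (hOo.mem_nhds (hWO hw))).differentiableAt (by simp)).hasFDerivAt
    have a3 : HasFDerivAt (g ∘ f) (ContinuousLinearMap.id ℝ _) w := by
      refine (hasFDerivAt_id w).congr_of_eventuallyEq ?_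
      filter_upwards [hW.mem_nhds hw] with v hv
      exact hgf v hv
    have a4 := (a1.comp w a2).unique a3
    rw [(κ.hasFDerivAt.comp (f w) a1).fderiv]
    intro t
    obtain ⟨v, rfl⟩ := hκs t
    refine ⟨fderiv ℝ f w v, ?_⟩
    have := congrArg (fun A : VV N →L[ℝ] VV N => κ (A v)) a4
    exact this
  · rintro _ ⟨w, hw, rfl⟩ h
    rw [Function.comp_apply, hgf w hw, hκ0] at h
    obtain ⟨u, rfl⟩ := h
    change f (D u) = φ (L (g (f (D u))))
    rw [hgf (D u) hw, hL, hfD]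
  · intro u hu'
    have b1 := hgf (D u) hu'
    rw [hfD] at b1
    refine ⟨⟨D u, hu', hfD u⟩, ?_, ?_⟩
    · rw [Function.comp_apply, b1, hκ0]
      exact ⟨u, rfl⟩
    · rw [Function.comp_apply, b1, hL]

omit [CompactSpace M] [FiniteDimensional ℝ E] in
/-- Local structure of the image of the embedding. -/
lemma loc (h1 : ∀ x y, dist x y = ‖e x - e y‖) (h2 : ContMDiff 𝓘(ℝ, E) 𝓘(ℝ, VV N) ∞ e)
    (h3 : ∀ x, Function.Injective (mfderiv 𝓘(ℝ, E) 𝓘(ℝ, VV N) e x)) (x : M) :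
    ∃ (k : ℕ) (F : VV N → EuclideanSpace ℝ (Fin k)) (G : VV N → E) (W : Set (VV N)),
      IsOpen W ∧ e x ∈ W ∧ ContDiffOn ℝ ∞ F W ∧ ContDiffOn ℝ ∞ G W ∧
      (∀ y ∈ W, Function.Surjective (fderiv ℝ F y)) ∧
      (∀ y ∈ W, (y ∈ Set.range e ↔ F y = 0)) ∧
      ∀ z, e z ∈ W → z ∈ (extChartAt 𝓘(ℝ, E) x).source ∧ G (e z) = extChartAt 𝓘(ℝ, E) x z := by
  set c := extChartAt 𝓘(ℝ, E) x with hc
  have hO : IsOpen c.target := isOpen_extChartAt_target x
  have hφ : ContDiffOn ℝ ∞ (e ∘ c.symm) c.target :=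
    contMDiffOn_iff_contDiffOn.1 (h2.comp_contMDiffOn (contMDiffOn_extChartAt_symm x))
  have hD : Function.Injective (fderiv ℝ (e ∘ c.symm) (c x)) := by
    have a := h3 x
    rw [((h2 x).mdifferentiableAt (by simp)).mfderiv] at a
    rw [modelWithCornersSelf_coe, Set.range_id, fderivWithin_univ] at a
    exact a
  obtain ⟨k, F, G, W, O', hW, hO', hu, hF, hG, hs, hz, hn⟩ :=
    flat hO hφ (mem_extChartAt_target x) hD
  have hx : x ∈ c.source := mem_extChartAt_source x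
  have hnb : ∀ᶠ z in 𝓝 x, z ∈ c.source ∧ c z ∈ O' :=
    (show ∀ᶠ z in 𝓝 x, z ∈ c.source from extChartAt_source_mem_nhds x).and
      ((continuousAt_extChartAt x).eventually (hO'.mem_nhds hu))
  obtain ⟨ε, hε, hb⟩ := Metric.eventually_nhds_iff.1 hnb
  have key : ∀ z, e z ∈ W ∩ Metric.ball (e x) ε →
      z ∈ c.source ∧ F (e z) = 0 ∧ G (e z) = c z := fun z hz' => by
    have b1 : dist z x < ε := by
      rw [h1, ← dist_eq_norm]
      exact hz'.2
    obtain ⟨b2, b3⟩ := hb b1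
    have b4 := hn _ b3
    rw [Function.comp_apply, c.left_inv b2] at b4
    exact ⟨b2, b4.2⟩
  have hxW : e x ∈ W := by
    have b4 := (hn _ hu).1
    rwa [Function.comp_apply, c.left_inv hx] at b4
  refine ⟨k, F, G, W ∩ Metric.ball (e x) ε, hW.inter Metric.isOpen_ball,
    ⟨hxW, Metric.mem_ball_self hε⟩, hF.mono Set.inter_subset_left,
    hG.mono Set.inter_subset_left, fun y hy => hs y hy.1, fun y hy => ⟨?_, fun h => ?_⟩,
    fun z hz' => ⟨(key z hz').1, (key z hz').2.2⟩⟩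
  · rintro ⟨z, rfl⟩
    exact (key z hy).2.1
  · exact ⟨_, (hz y hy.1 h).symm⟩

end XEmbX

theorem exists_emb [Nonempty M] (h1 : ∀ x y, dist x y = ‖e x - e y‖)
    (h2 : ContMDiff 𝓘(ℝ, E) 𝓘(ℝ, VV N) ∞ e)
    (h3 : ∀ x, Function.Injective (mfderiv 𝓘(ℝ, E) 𝓘(ℝ, VV N) e x)) : ∃ r U, Emb E e r U := by
  have hinj : Function.Injective e := fun x y h => by
    have := h1 x y
    rw [h, sub_self, norm_zero] at this
    exact dist_eq_zero.1 this
  have hsub : Wn.IsSubmanifold (Set.range e) := by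
    rintro _ ⟨x, rfl⟩
    obtain ⟨k, F, G, W, a1, a2, a3, -, a5, a6, -⟩ := XEmbX.loc h1 h2 h3 x
    exact ⟨k, F, W, a1, a2, a3, a5, a6⟩
  obtain ⟨R, hR⟩ := Wn.exists_ret (Set.range e) hsub (isCompact_range h2.continuous)
  have hmem : ∀ x, e x ∈ R.S := fun x => hR ▸ Set.mem_range_self x
  have her : ∀ y ∈ R.W, e (Function.invFun e (R.r y)) = R.r y := fun y hy =>
    Function.invFun_eq (show R.r y ∈ Set.range e from hR ▸ R.maps hy)
  refine ⟨Function.invFun e ∘ R.r, R.W, h1, h2, h3, R.isOpen, fun x => R.sub (hmem x),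
    fun x => ?_, fun y hy => ?_⟩
  · rw [Function.comp_apply, R.fix _ (hmem x)]
    exact Function.leftInverse_invFun hinj x
  · apply ContMDiffAt.contMDiffWithinAt
    set x := Function.invFun e (R.r y) with hx
    have hex : e x = R.r y := her y hy
    obtain ⟨k, F, G, W, a1, a2, -, a4, -, -, a7⟩ := XEmbX.loc h1 h2 h3 x
    have b1 : ContDiffAt ℝ ∞ (G ∘ R.r) y :=
      ContDiffAt.comp y (a4.contDiffAt (a1.mem_nhds (hex ▸ a2))) R.smooth.contDiffAt
    have b2 : (G ∘ R.r) y = extChartAt 𝓘(ℝ, E) x x := by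
      rw [Function.comp_apply, ← hex]
      exact (a7 x a2).2
    have b3 : ContMDiffAt 𝓘(ℝ, E) 𝓘(ℝ, E) ∞ (extChartAt 𝓘(ℝ, E) x).symm ((G ∘ R.r) y) := by
      rw [b2]
      exact (contMDiffOn_extChartAt_symm x).contMDiffAt
        ((isOpen_extChartAt_target x).mem_nhds (mem_extChartAt_target x))
    have b4 := (b3.comp y b1.contMDiffAt).of_le (show (1 : WithTop ℕ∞) ≤ ∞ by simp)
    refine b4.congr_of_eventuallyEq ?_
    have b5 : ∀ᶠ y' in 𝓝 y, R.r y' ∈ W :=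
      R.smooth.continuous.continuousAt.eventually (a1.mem_nhds (hex ▸ a2))
    filter_upwards [b5, R.isOpen.mem_nhds hy] with y' c1 c2
    have c3 := her y' c2
    obtain ⟨c4, c5⟩ := a7 _ (c3.symm ▸ c1)
    rw [c3] at c5
    simp only [Function.comp_apply]
    rw [c5, (extChartAt 𝓘(ℝ, E) x).left_inv c4]


end Pool.Agent.P.MP_5c499f_an
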