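import Pool.Agent.P.MP_5c499f_an.XBasY

/-! Transfer between the cover and the base. -/

set_option autoImplicit false

namespace Pool.Agent.P.MP_5c499f_an

open Filter Topology Metric MeasureTheory Matrix

variable {Y Γ : Type*} [MetricSpace Y] [Group Γ] [MulAction Γ Y] {F : Equiv.Perm Y}
  {Φ : MulAut Γ} {ε δ C a b : ℝ}
  {M : Type*} [MetricSpace M] {p : Y → M} {ρ₀ : ℝ} {g : Equiv.Perm M}

omit [MetricSpace Y] [MetricSpace M] in
theorem XEntX.iter (hF : ∀ y, p (F y) = g (p y)) (k : ℕ) (y : Y) :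
    g^[k] (p y) = p ((F ^ (k : ℤ)) y) := by
  rw [semiconj_zpow hF, zpow_natCast, Equiv.Perm.coe_pow]

theorem ent_of_cnt (S : Hs F Φ ε δ C a b) (hc : IsCov p ρ₀) (h0 : 10 * ε < ρ₀)
    (hs : Function.Surjective p) (hF : ∀ y, p (F y) = g (p y)) {H : ℝ} (c : Cnt F ε H) :
    Ent g H (2 * ε) δ := by
  classical
  have hε := S.lh.ε_pos
  have hδ := S.lh.δ_pos
  have hδε := S.lh.δ_le
  refine ⟨c.one_le, hδ, ?_, ?_⟩
  · obtain ⟨C', hC'⟩ := c.up ε hε
    refine ⟨C', fun x n => ?_⟩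
    obtain ⟨x, rfl⟩ := hs x
    have hb : ∀ E : Finset Y, ↑E ⊆ {y | Un F 0 ε y x} →
        (E : Set Y).Pairwise (fun y z => ¬ Un F n ε y z) → (E.card : ℝ) ≤ C' * H ^ n :=
      fun E h1 h2 => hC' x n E (fun y hy => Un.mono (h1 hy) le_rfl (by linarith)) h2
    obtain ⟨E, h1, h2, h3⟩ := exists_max_sep (R := fun y z => Un F n ε y z)
      (fun y => Un.refl _ hε.le y) (fun _ _ h => h.symm) _ hb
    refine ⟨E.image p, le_trans (Nat.cast_le.2 Finset.card_image_le) (hb E h1 h2), fun y hy => ?_⟩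
    obtain ⟨y, rfl, h4⟩ := hc.lift x y (by linarith)
    obtain ⟨w, w1, w2⟩ := S.lh.br y x (by linarith)
    obtain ⟨z, hz, w3⟩ := h3 w w2
    refine ⟨p z, Finset.mem_image_of_mem _ hz, fun k hk => ?_⟩
    have h5 : dist ((F ^ (k : ℤ)) y) ((F ^ (k : ℤ)) z) ≤ 2 * ε := by
      linarith [dist_triangle_left ((F ^ (k : ℤ)) y) ((F ^ (k : ℤ)) z) ((F ^ (k : ℤ)) w),
        w1 k (by omega), w3 k (by omega)]
    rw [XEntX.iter hF, XEntX.iter hF, hc.dist_eq _ _ (by linarith)]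
    exact h5
  · obtain ⟨η₁, hη₁, hu⟩ := Metric.uniformContinuous_iff.1 S.uc ρ₀ hc.pos
    obtain ⟨η, hη, e1, e2⟩ : ∃ η, 0 < η ∧ η ≤ ε ∧ η < η₁ :=
      ⟨min ε (η₁ / 2), lt_min hε (by linarith), min_le_left _ _,
        (min_le_right _ _).trans_lt (by linarith)⟩
    refine ⟨η, hη, fun ρ hρ => ?_⟩
    obtain ⟨c₀, hc₀, hl⟩ := c.low (min ρ (η / 2)) (lt_min hρ (by linarith))
    refine ⟨c₀, hc₀, fun x n => ?_⟩
    obtain ⟨x, rfl⟩ := hs x
    obtain ⟨E, h1, h2, h3⟩ := hl x n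
    have key : ∀ y ∈ E, ∀ y' ∈ E, y ≠ y' → ∃ k ≤ n, η < dist (g^[k] (p y)) (g^[k] (p y')) := by
      intro y hy y' hy' hne
      by_contra hcon
      have hcon' : ∀ k ≤ n, dist (g^[k] (p y)) (g^[k] (p y')) ≤ η :=
        fun k hk => not_lt.1 fun h => hcon ⟨k, hk, h⟩
      have h4 : Un F 0 η y y' := ((h1 y hy).trans (h1 y' hy').symm).mono le_rfl
        (by linarith [min_le_right ρ (η / 2)])
      have h5 : ∀ k : ℕ, k ≤ n → dist ((F ^ (k : ℤ)) y) ((F ^ (k : ℤ)) y') ≤ η := by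
        intro k
        induction k with
        | zero => exact fun _ => h4 _ (by simp)
        | succ k ih =>
          intro hk
          have h6 := hu ((ih (by omega)).trans_lt e2)
          rw [← zpow_succ_apply, ← zpow_succ_apply] at h6
          have h7 := hcon' (k + 1) hk
          rw [XEntX.iter hF, XEntX.iter hF] at h7
          push_cast at h7 ⊢
          rwa [hc.dist_eq _ _ h6] at h7
      refine h2 hy hy' hne fun k hk => le_trans ?_ e1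
      rcases le_total k 0 with h | h
      · exact h4 k h
      · obtain ⟨m, rfl⟩ := Int.eq_ofNat_of_zero_le h
        exact h5 m (by omega)
    have hinj : Set.InjOn p E := by
      intro y hy y' hy' h
      by_contra hne
      obtain ⟨k, -, hk⟩ := key y hy y' hy' hne
      rw [h, dist_self] at hk
      exact hk.not_gt hη
    refine ⟨E.image p, by rwa [Finset.card_image_of_injOn hinj], fun z hz => ?_, ?_⟩
    · obtain ⟨y, hy, rfl⟩ := Finset.mem_image.1 hz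
      have h4 : dist y x ≤ min ρ (η / 2) := by simpa using h1 y hy 0 le_rfl
      rw [hc.dist_eq _ _ (by linarith [min_le_right ρ (η / 2)])]
      exact h4.trans (min_le_left _ _)
    · intro z hz z' hz' hne
      obtain ⟨y, hy, rfl⟩ := Finset.mem_image.1 (Finset.mem_coe.1 hz)
      obtain ⟨y', hy', rfl⟩ := Finset.mem_image.1 (Finset.mem_coe.1 hz')
      exact key y hy y' hy' fun h => hne (h ▸ rfl)

theorem mix_lift (hc : IsCov p ρ₀) (hF : ∀ y, p (F y) = g (p y))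
    (uc' : UniformContinuous (F⁻¹ : Equiv.Perm Y))
    (htr : ∀ y y' : Y, p y = p y' → ∃ γ : Γ, γ • y = y') (h : MixM g) (ρ η : ℝ) (hρ : 0 < ρ)
    (hη : 0 < η) : ∃ L₀ : ℕ, ∀ L : ℕ, L₀ ≤ L → ∀ x x', ∃ w, ∃ γ : Γ,
      Un F 0 ρ w x ∧ dist ((F ^ (L : ℤ)) w) (γ • x') ≤ η := by
  have h0 := hc.pos
  obtain ⟨η₁, hη₁, hu⟩ := Metric.uniformContinuous_iff.1 uc' ρ₀ h0
  obtain ⟨ρ', hρ', e1, e2, e3⟩ : ∃ ρ', 0 < ρ' ∧ ρ' ≤ ρ ∧ ρ' < η₁ ∧ ρ' < ρ₀ :=
    ⟨min ρ (min η₁ ρ₀ / 2), lt_min hρ (by positivity), min_le_left _ _,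
      (min_le_right _ _).trans_lt (by linarith [min_le_left η₁ ρ₀]),
      (min_le_right _ _).trans_lt (by linarith [min_le_right η₁ ρ₀])⟩
  obtain ⟨L₀, hL⟩ := h ρ' (min η (ρ₀ / 2)) hρ' (lt_min hη (by linarith))
  refine ⟨L₀, fun L hL' x x' => ?_⟩
  obtain ⟨w, w1, w2⟩ := hL L hL' (p x) (p x')
  have w3 : dist w (p x) ≤ ρ' := by simpa using w1 0 le_rfl
  obtain ⟨w, rfl, w4⟩ := hc.lift x w (by linarith)
  rw [← semiconj_zpow hF, dist_comm] at w2
  obtain ⟨y, y1, y2⟩ := hc.lift ((F ^ (L : ℤ)) w) (p x')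
    (by linarith [min_le_right η (ρ₀ / 2)])
  obtain ⟨γ, rfl⟩ := htr x' y y1.symm
  refine ⟨w, γ, Un.mono (r := ρ') (fun k hk => ?_) le_rfl e1, ?_⟩
  · induction k, hk using Int.leInductionDown with
    | base => simpa [w4]
    | pred k hk ih =>
      have := hu (ih.trans_lt e2)
      rw [← Equiv.Perm.mul_apply, ← Equiv.Perm.mul_apply, ← _root_.zpow_neg_one, ← _root_.zpow_add,
        neg_add_eq_sub] at this
      rw [← hc.dist_eq _ _ this, semiconj_zpow hF, semiconj_zpow hF]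
      exact w1 _ (by omega)
  · rw [dist_comm, y2]
    exact w2.trans (min_le_left _ _)

omit [Group Γ] [MulAction Γ Y] in
theorem IsCov.lift_disc (hc : IsCov p ρ₀) {Z : Type*} [TopologicalSpace Z] {B : Set Z} {σ : Z → M}
    (hσ : ContinuousOn σ B) (o : Y) {η : ℝ} (hη : 2 * η < ρ₀) (h : ∀ b ∈ B, dist (σ b) (p o) ≤ η) :
    ∃ τ : Z → Y, ContinuousOn τ B ∧ ∀ b ∈ B, p (τ b) = σ b ∧ dist (τ b) o ≤ η := by
  have h1 : ∀ b, ∃ y, b ∈ B → p y = σ b ∧ dist y o ≤ η := fun b => by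
    by_cases hb : b ∈ B
    · have h2 := h b hb
      obtain ⟨y, y1, y2⟩ := hc.lift o (σ b) (by linarith [dist_nonneg.trans h2])
      exact ⟨y, fun _ => ⟨y1, y2 ▸ h2⟩⟩
    · exact ⟨o, fun h' => absurd h' hb⟩
  choose τ hτ using h1
  refine ⟨τ, fun b hb => ?_, hτ⟩
  refine tendsto_iff_dist_tendsto_zero.2 ((tendsto_iff_dist_tendsto_zero.1 (hσ b hb)).congr' ?_)
  filter_upwards [self_mem_nhdsWithin] with b' hb'
  rw [← (hτ b hb).1, ← (hτ b' hb').1, hc.dist_eq]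
  linarith [dist_triangle_right (τ b') (τ b) o, (hτ b hb).2, (hτ b' hb').2]

omit [Group Γ] [MulAction Γ Y] in
theorem IsCov.locPath [LocallyPathConnectedSpace M] (hc : IsCov p ρ₀) :
    LocallyPathConnectedSpace Y := by
  refine ⟨fun y => hasBasis_self.2 fun t ht => ?_⟩
  have h0 := hc.pos
  obtain ⟨r₁, hr₁, hsub⟩ := Metric.nhds_basis_closedBall.mem_iff.1 ht
  obtain ⟨r, hr, e1, e2⟩ : ∃ r, 0 < r ∧ r ≤ r₁ ∧ 2 * r < ρ₀ :=
    ⟨min r₁ (ρ₀ / 3), lt_min hr₁ (by linarith), min_le_left _ _,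
      by linarith [min_le_right r₁ (ρ₀ / 3)]⟩
  obtain ⟨V, ⟨V1, V2⟩, V3⟩ := (LocallyPathConnectedSpace.path_connected_basis (p y)).mem_iff.1
    (closedBall_mem_nhds (p y) hr)
  obtain ⟨τ, τ1, τ2⟩ := hc.lift_disc (B := V) (σ := id) continuousOn_id y e2 fun b hb => V3 hb
  refine ⟨τ '' V, ?_, V2.image' τ1, ?_⟩
  · obtain ⟨r', hr', hV⟩ := Metric.mem_nhds_iff.1 V1
    filter_upwards [ball_mem_nhds y hr', ball_mem_nhds y hr] with y' h1 h2
    rw [mem_ball] at h1 h2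
    have h3 : p y' ∈ V := hV (by rwa [mem_ball, hc.dist_eq _ _ (by linarith)])
    refine ⟨p y', h3, hc.eq ?_ (τ2 _ h3).1⟩
    linarith [dist_triangle_right (τ (p y')) y' y, (τ2 _ h3).2]
  · rintro _ ⟨b, hb, rfl⟩
    exact hsub ((τ2 b hb).2.trans e1)


end Pool.Agent.P.MP_5c499f_an
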