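import Pool.Agent.P.MP_5c499f_an.XRec

/-! The contradiction on a disc. -/

set_option autoImplicit false

namespace Pool.Agent.P.MP_5c499f_an

open Filter Topology Metric MeasureTheory Matrix

variable {u d : ℕ} {B K : Set (XX u)} {χ : XX u → ℝ} {Nn : ℕ → XX u → XX u → ℝ}
  {L : ℤ → Matrix (Fin d) (Fin d) ℝ} {ρ : Fin d → ℝ} {j : ℕ → XX u → Fin d → ℝ}
  {G : XX u → Fin d → ℝ} {H lam C : ℝ}

namespace XFinX

lemma c1_dot {m : XX u → Fin d → ℝ} (hm : ∀ k, ContDiffOn ℝ 1 (fun b => m b k) B)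
    (l : Fin d → ℝ) : ContDiffOn ℝ 1 (fun b => l ⬝ᵥ m b) B :=
  ContDiffOn.sum fun k _ => contDiffOn_const.mul (hm k)

lemma der_dot (hB : IsOpen B) {m : XX u → Fin d → ℝ}
    (hm : ∀ k, ContDiffOn ℝ 1 (fun b => m b k) B) (l : Fin d → ℝ) {b : XX u} (hb : b ∈ B)
    (v : XX u) {R : ℝ} (hR : ∀ k, |fderiv ℝ (fun b => m b k) b v| ≤ R) :
    |fderiv ℝ (fun b => l ⬝ᵥ m b) b v| ≤ (∑ k, |l k|) * R := by
  have h1 : ∀ k, HasFDerivAt (fun b => m b k) (fderiv ℝ (fun b => m b k) b) b := fun k =>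
    (((hm k).contDiffAt (hB.mem_nhds hb)).differentiableAt one_ne_zero).hasFDerivAt
  have h2 : HasFDerivAt (fun b => l ⬝ᵥ m b) (∑ k, l k • fderiv ℝ (fun b => m b k) b) b :=
    HasFDerivAt.fun_sum fun k _ => (h1 k).const_mul (l k)
  rw [h2.fderiv, _root_.sum_apply, Finset.sum_mul]
  refine (Finset.abs_sum_le_sum_abs _ _).trans (Finset.sum_le_sum fun k _ => ?_)
  rw [_root_.smul_apply, smul_eq_mul, abs_mul]
  exact mul_le_mul_of_nonneg_left (hR k) (abs_nonneg _)

lemma cont_dt (hB : IsOpen B) {g : Fin u → XX u → ℝ} (hg : ∀ i, ContDiffOn ℝ 1 (g i) B) :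
    ContinuousOn (fun b => dt (fun i => fderiv ℝ (g i) b) (bas u)) B := by
  rw [continuousOn_iff_continuous_domRestrict]
  refine Continuous.matrix_det (continuous_matrix fun i k => ?_)
  have h := ((hg i).continuousOn_fderiv_of_isOpen hB le_rfl).clm_apply
    (continuousOn_const (c := bas u k))
  exact continuousOn_iff_continuous_domRestrict.1 h

lemma sign {f : XX u → ℝ} (hK : IsPreconnected K) (hf : ContinuousOn f K)
    (h : ∀ b ∈ K, f b ≠ 0) : (∀ b ∈ K, 0 ≤ f b) ∨ ∀ b ∈ K, f b ≤ 0 := by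
  by_contra hh
  push Not at hh
  obtain ⟨⟨a, ha, ha'⟩, b, hb, hb'⟩ := hh
  obtain ⟨z, hz, hz'⟩ := hK.intermediate_value ha hb hf ⟨ha'.le, hb'.le⟩
  exact h z hz hz'

end XFinX

theorem DD.family (D : DD B K χ Nn L ρ j G H lam C) (th : Thin K L G H) :
    ∃ q, 0 < q ∧ q < 1 ∧ ∀ (h : Fin u → ℕ → XX u → ℝ) (l : Fin u → Fin d → ℝ) (C' : ℝ),
      (∀ i n, ContDiffOn ℝ 1 (h i n) B) →
      (∀ i n, ∀ b ∈ K, ∀ v, |fderiv ℝ (h i n) b v| ≤ C' * Nn n b v) →
      (∀ i n, ∀ b ∈ K, |h i n b - l i ⬝ᵥ j n b| ≤ C') →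
      ∃ C'', ∀ n, |Jac K χ (fun _ => 1) fun i => h i n| ≤ C'' * (q * H) ^ n := by
  obtain ⟨q₁, a1, a2, a3⟩ := th.null D.wt D.H_pos
  obtain ⟨q, C₁, b1, b2, b3⟩ := D.growth a1 a2 a3
  have hH := D.H_pos
  have hC := D.C_pos
  have hl := D.lam_pos
  obtain ⟨A₀, hA₀⟩ := D.cut.cpt.exists_bound_of_continuousOn
    (D.cut.c1.continuous_fderiv one_ne_zero).continuousOn
  set A := |A₀| + 1 with hA
  have hA1 : 0 < A := by positivity
  have hN : ∀ n, ∀ b ∈ K, ∀ v, 0 ≤ Nn n b v := fun n b hb v =>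
    nonneg_of_mul_nonneg_right ((norm_nonneg v).trans (D.expd n b hb v)) (by positivity)
  refine ⟨max q lam, lt_max_of_lt_left b1, max_lt b2 D.lam_lt, fun h l C' c1 c2 c3 => ?_⟩
  set S : ℝ := ∑ i, ∑ k, |l i k| with hS
  have hS0 : 0 ≤ S := by positivity
  have hSi : ∀ i, ∑ k, |l i k| ≤ S := fun i =>
    Finset.single_le_sum (f := fun i => ∑ k, |l i k|) (fun i _ => by positivity)
      (Finset.mem_univ i)
  set w : ℝ := |C'| + 1 + S * C with hw
  have hw0 : 0 < w := by positivity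
  have hw1 : C' ≤ w := by
    have := le_abs_self C'
    have := mul_nonneg hS0 hC.le
    linarith
  have hw2 : S * C ≤ w := by
    have := abs_nonneg C'
    linarith
  refine ⟨u * (A * C) * w ^ u * C + (∑ I : Fin u → Fin d, |∏ i, l i (I i)|) * |C₁|, fun n => ?_⟩
  have e1 := homot D.cut (Nn := Nn n) (W := C * H ^ n) (μ := A * C * lam ^ n) (by positivity)
    (D.vol n) (by positivity)
    (fun b hb v => by
      have h1 := (fderiv ℝ χ b).le_opNorm v
      have h2 : ‖fderiv ℝ χ b‖ ≤ A := by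
        have := hA₀ b hb
        have := le_abs_self A₀
        linarith
      have h3 := mul_le_mul h2 (D.expd n b hb v) (norm_nonneg v) hA1.le
      rw [Real.norm_eq_abs] at h1
      calc _ ≤ _ := h1
        _ ≤ _ := h3
        _ = _ := by ring)
    (φ := fun _ => 1) contDiff_const (fun _ => by simp) (g := fun i => h i n)
    (g' := fun i b => l i ⬝ᵥ j n b) (fun i => c1 i n) (fun i => XFinX.c1_dot (D.c1 n) (l i))
    (w := fun _ => w) (fun _ => hw0) (fun i b hb => (c3 i n b hb).trans hw1)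
    (fun i b hb v => (c2 i n b hb v).trans (mul_le_mul_of_nonneg_right hw1 (hN n b hb v)))
    (fun i b hb v => by
      have h0 := hN n b hb v
      refine (XFinX.der_dot D.cut.op (D.c1 n) (l i) (D.cut.sub hb) v
        fun k => D.der n k b hb v).trans ?_
      calc _ ≤ S * (C * Nn n b v) := mul_le_mul_of_nonneg_right (hSi i) (by positivity)
        _ = S * C * Nn n b v := by ring
        _ ≤ _ := mul_le_mul_of_nonneg_right hw2 h0)
  rw [Finset.prod_const, Finset.card_univ, Fintype.card_fin] at e1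
  have p1 : (lam * H) ^ n ≤ (max q lam * H) ^ n :=
    pow_le_pow_left₀ (by positivity) (mul_le_mul_of_nonneg_right (le_max_right _ _) hH.le) n
  have p2 : (q * H) ^ n ≤ (max q lam * H) ^ n :=
    pow_le_pow_left₀ (by positivity) (mul_le_mul_of_nonneg_right (le_max_left _ _) hH.le) n
  have e2 : |Jac K χ (fun _ => 1) fun i b => l i ⬝ᵥ j n b| ≤
      (∑ I : Fin u → Fin d, |∏ i, l i (I i)|) * |C₁| * (max q lam * H) ^ n := by
    rw [jac_lin D.cut (D.c1 n) l, mul_assoc, Finset.sum_mul]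
    refine (Finset.abs_sum_le_sum_abs _ _).trans (Finset.sum_le_sum fun I _ => ?_)
    rw [abs_mul]
    refine mul_le_mul_of_nonneg_left ((b3 n I).trans ?_) (abs_nonneg _)
    exact mul_le_mul (le_abs_self _) p2 (by positivity) (abs_nonneg _)
  have e3 : u * (A * C * lam ^ n) * w ^ u * (C * H ^ n) ≤
      u * (A * C) * w ^ u * C * (max q lam * H) ^ n :=
    calc _ = u * (A * C) * w ^ u * C * (lam * H) ^ n := by rw [mul_pow]; ring
      _ ≤ _ := mul_le_mul_of_nonneg_left p1 (by positivity)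
  have e4 := abs_sub_abs_le_abs_sub (Jac K χ (fun _ => 1) fun i => h i n)
    (Jac K χ (fun _ => 1) fun i b => l i ⬝ᵥ j n b)
  rw [add_mul]
  linarith

theorem no_small (hc : Cut B K χ) (hK : IsPreconnected K) (h0 : ∀ b, 0 ≤ χ b) {K' : Set (XX u)}
    (h1 : MeasurableSet K') (h2 : K' ⊆ K) (h3 : ∀ b ∈ K', χ b = 1) {m : ℕ} {c : Fin m → ℝ}
    {h : Fin m → Fin u → ℕ → XX u → ℝ} (h4 : ∀ t i n, ContDiffOn ℝ 1 (h t i n) B)
    {P : ℕ → XX u → ℝ}
    (h5 : ∀ n, ∀ b ∈ K, P n b = ∑ t, c t * dt (fun i => fderiv ℝ (h t i n) b) (bas u))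
    (h6 : ∀ᶠ n in atTop, ∀ b ∈ K, P n b ≠ 0) {c₀ q : ℝ} (hc₀ : 0 < c₀) (hH : 0 < H) (hq : 0 < q)
    (hq' : q < 1)
    (h7 : ∀ᶠ n in atTop, ENNReal.ofReal (c₀ * H ^ n) ≤ ∫⁻ b in K', ENNReal.ofReal |P n b|)
    (h8 : ∀ t, ∃ C', ∀ n, |Jac K χ (fun _ => 1) fun i => h t i n| ≤ C' * (q * H) ^ n) :
    False := by
  choose C' hC' using h8
  have hKm : MeasurableSet K := hc.cpt.measurableSet
  have hχ : ContinuousOn χ K := hc.c1.continuous.continuousOn
  have hlim : Tendsto (fun n : ℕ => (∑ t, |c t| * C' t) * q ^ n) atTop (𝓝 0) := by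
    simpa using (tendsto_pow_atTop_nhds_zero_of_lt_one hq.le hq').const_mul (∑ t, |c t| * C' t)
  obtain ⟨n, ⟨a6, a7⟩, a8⟩ := ((h6.and h7).and (hlim.eventually (gt_mem_nhds hc₀))).exists
  set T : Fin m → XX u → ℝ := fun t b => dt (fun i => fderiv ℝ (h t i n) b) (bas u) with hT
  have hTc : ∀ t, ContinuousOn (T t) K := fun t =>
    (XFinX.cont_dt hc.op fun i => h4 t i n).mono hc.sub
  have hPc : ContinuousOn (P n) K :=
    (continuousOn_finsetSum Finset.univ fun t _ => (continuousOn_const (c := c t)).mul (hTc t)).congr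
      fun b hb => h5 n b hb
  have e1 : ∫ b in K, χ b * P n b = ∑ t, c t * Jac K χ (fun _ => 1) fun i => h t i n := by
    have : ∀ t, c t * (Jac K χ (fun _ => 1) fun i => h t i n) =
        ∫ b in K, c t * (χ b * 1 * T t b) := fun t => by
      rw [integral_const_mul]
      rfl
    simp only [this]
    rw [← integral_finsetSum]
    · refine setIntegral_congr_fun hKm fun b hb => ?_
      simp only [h5 n b hb, Finset.mul_sum]
      exact Finset.sum_congr rfl fun t _ => by ring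
    · intro t _
      exact ContinuousOn.integrableOn_compact hc.cpt
        (continuousOn_const.mul ((hχ.mul continuousOn_const).mul (hTc t)))
  have e2 : ∫ b in K, χ b * |P n b| ≤ |∫ b in K, χ b * P n b| := by
    rcases XFinX.sign hK hPc a6 with s | s
    · refine le_trans (le_of_eq ?_) (le_abs_self _)
      exact setIntegral_congr_fun hKm fun b hb => by simp only [abs_of_nonneg (s b hb)]
    · refine le_trans (le_of_eq ?_) (neg_le_abs _)
      rw [← integral_neg]
      exact setIntegral_congr_fun hKm fun b hb => by simp only [abs_of_nonpos (s b hb), mul_neg]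
  have hint : IntegrableOn (fun b => χ b * |P n b|) K :=
    ContinuousOn.integrableOn_compact hc.cpt (hχ.mul hPc.abs)
  have e3 : ∫⁻ b in K', ENNReal.ofReal |P n b| ≤ ENNReal.ofReal (∫ b in K, χ b * |P n b|) := by
    rw [ofReal_integral_eq_lintegral_ofReal hint
      (Eventually.of_forall fun b => mul_nonneg (h0 b) (abs_nonneg _))]
    refine le_trans (le_of_eq ?_) (lintegral_mono_set h2)
    exact setLIntegral_congr_fun h1 fun b hb => by simp only [h3 b hb, one_mul]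
  have e4 : c₀ * H ^ n ≤ ∫ b in K, χ b * |P n b| :=
    (ENNReal.ofReal_le_ofReal_iff
      (integral_nonneg fun b => mul_nonneg (h0 b) (abs_nonneg _))).1 (a7.trans e3)
  have e5 : |∫ b in K, χ b * P n b| ≤ (∑ t, |c t| * C' t) * q ^ n * H ^ n := by
    rw [e1, mul_assoc, ← mul_pow, Finset.sum_mul]
    refine (Finset.abs_sum_le_sum_abs _ _).trans (Finset.sum_le_sum fun t _ => ?_)
    rw [abs_mul, mul_assoc]
    exact mul_le_mul_of_nonneg_left (hC' t n) (abs_nonneg _)
  have e6 := mul_lt_mul_of_pos_right a8 (pow_pos hH n)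
  linarith


end Pool.Agent.P.MP_5c499f_an
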