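import Pool.Agent.P.MP_5c499f_an.XRet
import Pool.Agent.P.MP_5c499f_an.XBasA

/-! Translation of the hypotheses on forms. -/

set_option autoImplicit false

namespace Pool.Agent.P.MP_5c499f_an

open Bundle Filter Topology
open scoped Manifold ContDiff

variable {E : Type*} [NormedAddCommGroup E] [NormedSpace ℝ E] [FiniteDimensional ℝ E]
  {M : Type*} [MetricSpace M] [CompactSpace M] [ChartedSpace E M] [IsManifold 𝓘(ℝ, E) ∞ M]
  {N : ℕ} {e : M → VV N} {r : VV N → M} {U : Set (VV N)}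

theorem Form.indep {k : ℕ} {α : Form M k} {x : M} {v : Fin k → TangentSpace 𝓘(ℝ, E) x}
    (h : α.ev E x v ≠ 0) : LinearIndependent ℝ v := by
  by_contra hv
  obtain ⟨c, c1, j, c2⟩ := Fintype.not_linearIndependent_iff.1 hv
  refine h (Finset.sum_eq_zero fun t _ => mul_eq_zero_of_right _ ?_)
  refine Matrix.exists_mulVec_eq_zero_iff.1 ⟨c, fun e => c2 (congrFun e j), funext fun i => ?_⟩
  have := congrArg (mvfderiv 𝓘(ℝ, E) (α.a t i) x) c1
  simpa [Matrix.mulVec, dotProduct, mul_comm] using this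

namespace XFormX

lemma comp_De (h : Emb E e r U) {φ : VV N → ℝ} (hφ : ContDiff ℝ ∞ φ) (x : M)
    (w : TangentSpace 𝓘(ℝ, E) x) :
    mvfderiv 𝓘(ℝ, E) (φ ∘ e) x w = fderiv ℝ φ (e x) (mvfderiv 𝓘(ℝ, E) e x w) := by
  have := mfderiv_comp_apply x (hφ.differentiable (by simp) (e x)).mdifferentiableAt
    (h.smooth.mdifferentiable (by simp) x) w
  rw [mfderiv_eq_fderiv] at this
  exact this

end XFormX

theorem Emb.cup (h : Emb E e r U) {u : ℕ} (hc : CupGen E M u) : CupAmb e r U u := by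
  intro w w1 w2
  set q := (Fintype.equivFin (Fin u → Fin N)).symm
  have cr : ∀ (p : Fin N) x v, mvfderiv 𝓘(ℝ, E) (crd p ∘ e) x v =
      crd p (mvfderiv 𝓘(ℝ, E) e x v) := fun p x v => by
    rw [XFormX.comp_De h (crd p).contDiff, ContinuousLinearMap.fderiv]
  obtain ⟨m, c, θ, t1, t2⟩ := hc ⟨_, fun t => w (q t) ∘ e, fun t i => crd (q t i) ∘ e⟩
    (fun t => ⟨(w1 _).contMDiff.comp h.smooth, fun i => (crd _).contDiff.contMDiff.comp h.smooth⟩)
    fun x v => by
      rw [← w2 x fun j => mvfderiv 𝓘(ℝ, E) e x (v j), ← q.sum_comp]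
      refine Finset.sum_congr rfl fun t _ => (one_mul _).trans (congrArg Matrix.det ?_)
      ext i j
      refine Fin.cases ?_ (fun i => ?_) i
      · exact XFormX.comp_De h (w1 _) x _
      · exact cr _ x _
  refine ⟨m, c, θ, fun t i => ⟨h.contDiffOn ((t1 t i).1.of_le (by simp)), (t1 t i).2⟩,
    fun x T hT => ?_⟩
  obtain ⟨R, -, r2⟩ := h.exists_Dr x
  have e1 := fun j => (r2 (T (bas u j))).trans (hT _)
  refine Eq.trans ?_ ((t2 x fun j => R (T (bas u j))).trans ?_)
  · rw [PsiW, ← q.sum_comp]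
    refine Finset.sum_congr rfl fun t _ => congrArg _ (congrArg Matrix.det ?_)
    ext i j
    exact ((cr _ x _).trans (congrArg _ (e1 j))).symm
  · refine Finset.sum_congr rfl fun t _ => congrArg _ (congrArg Matrix.det ?_)
    ext i j
    simp only [Matrix.of_apply, ang]
    rw [← h.Dm_De ((t1 t i).1.of_le (by simp)), e1]

theorem Emb.ori (h : Emb E e r U) {u : ℕ} {α : Form M u} (h1 : α.Smooth E) {x : M}
    {v : Fin u → TangentSpace 𝓘(ℝ, E) x} (h2 : α.ev E x v ≠ 0) {T : XX u →L[ℝ] VV N}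
    (h4 : ∀ j, mvfderiv 𝓘(ℝ, E) e x (v j) ∈ Set.range T) : PsiF e r α.c α.a x T ≠ 0 := by
  choose b hb using h4
  set S : XX u →L[ℝ] XX u := ∑ j, (ContinuousLinearMap.proj j).smulRight (b j) with hS
  have e1 : ∀ j, S (bas u j) = b j := fun j => by
    simp [hS, bas, Pi.single_apply]
  intro e0
  refine h2 (Eq.trans ?_ ((congrArg (S.det * ·) e0).trans (mul_zero _)))
  rw [PsiF, Finset.mul_sum]
  refine Finset.sum_congr rfl fun t _ => ?_
  have := dt_comp (fun i => Dm e r (α.a t i) x ∘L T) S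
  rw [mul_left_comm]
  refine congrArg _ (Eq.trans (congrArg Matrix.det ?_) this)
  ext i j
  simp only [Matrix.of_apply, e1, ContinuousLinearMap.comp_apply, hb]
  exact (h.Dm_De (((h1 t).2 i).of_le (by simp)) x _).symm


end Pool.Agent.P.MP_5c499f_an
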