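import Pool.Agent.P.MP_5c499f_an.XBasY

/-! The expanding part of an equivariant map. -/

set_option autoImplicit false

namespace Pool.Agent.P.MP_5c499f_an

open Filter Topology Metric MeasureTheory Matrix

namespace XGX

variable {d : ℕ} {L : ℤ → Matrix (Fin d) (Fin d) ℝ} {ρ : Fin d → ℝ}

lemma row_bd (w : Wt L ρ) {θ : ℝ} (hθ : 0 < θ) :
    ∃ C, 0 ≤ C ∧ ∀ (n : ℤ) (v : Fin d → ℝ) (k : Fin d) (R : ℝ), ‖v‖ ≤ R →
      |(L n *ᵥ v) k| ≤ C * R * (ρ k ^ n * (1 + θ) ^ n.natAbs) := by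
  obtain ⟨C, hC⟩ := w.bd θ hθ
  refine ⟨d * max C 0, by positivity, fun n v k R hR => ?_⟩
  have hp : 0 ≤ ρ k ^ n * (1 + θ) ^ n.natAbs := by
    have := w.pos k
    positivity
  have h1 : ∀ j, |L n k j * v j| ≤ max C 0 * R * (ρ k ^ n * (1 + θ) ^ n.natAbs) := by
    intro j
    have h2 : |v j| ≤ R := (norm_le_pi_norm v j).trans hR
    have h3 : |L n k j| ≤ max C 0 * (ρ k ^ n * (1 + θ) ^ n.natAbs) := by
      refine (hC n k j).trans ?_
      rw [mul_assoc]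
      exact mul_le_mul_of_nonneg_right (le_max_left _ _) hp
    rw [abs_mul]
    calc |L n k j| * |v j| ≤ (max C 0 * (ρ k ^ n * (1 + θ) ^ n.natAbs)) * R :=
          mul_le_mul h3 h2 (abs_nonneg _) (by positivity)
      _ = _ := by ring
  calc |(L n *ᵥ v) k| = |∑ j, L n k j * v j| := rfl
    _ ≤ ∑ j, |L n k j * v j| := Finset.abs_sum_le_sum_abs _ _
    _ ≤ ∑ _j : Fin d, max C 0 * R * (ρ k ^ n * (1 + θ) ^ n.natAbs) :=
        Finset.sum_le_sum fun j _ => h1 j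
    _ = _ := by
        rw [Finset.sum_const, Finset.card_univ, Fintype.card_fin, nsmul_eq_mul]
        ring

lemma neg_bd (w : Wt L ρ) {k : Fin d} (hk : 1 < ρ k) :
    ∃ C q : ℝ, 0 ≤ C ∧ 0 ≤ q ∧ q < 1 ∧ ∀ (n : ℕ) (v : Fin d → ℝ) (R : ℝ), ‖v‖ ≤ R →
      |(L (-(n : ℤ)) *ᵥ v) k| ≤ C * R * q ^ n := by
  have hθ : 0 < (ρ k - 1) / 2 := by linarith
  obtain ⟨C, h0, hC⟩ := row_bd w hθ
  have hp := w.pos k
  refine ⟨C, (1 + (ρ k - 1) / 2) / ρ k, h0, by positivity, ?_, fun n v R hR => ?_⟩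
  · rw [div_lt_one hp]
    linarith
  · refine (hC _ v k R hR).trans (le_of_eq ?_)
    rw [Int.natAbs_neg, Int.natAbs_natCast, _root_.zpow_neg, zpow_natCast, div_pow]
    congr 1
    exact (mul_comm _ _).trans (div_eq_mul_inv _ _).symm

lemma pos_bd (w : Wt L ρ) {θ : ℝ} (hθ : 0 < θ) :
    ∃ C, 0 ≤ C ∧ ∀ k, ρ k ≤ 1 → ∀ (n : ℕ) (v : Fin d → ℝ) (R : ℝ), ‖v‖ ≤ R →
      |(L (n : ℤ) *ᵥ v) k| ≤ C * R * (1 + θ) ^ n := by
  obtain ⟨C, h0, hC⟩ := row_bd w hθ
  refine ⟨C, h0, fun k hk n v R hR => (hC _ v k R hR).trans ?_⟩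
  have hR0 : 0 ≤ R := (norm_nonneg _).trans hR
  rw [Int.natAbs_natCast, zpow_natCast]
  refine mul_le_mul_of_nonneg_left ?_ (by positivity)
  exact mul_le_of_le_one_left (by positivity) (pow_le_one₀ (w.pos k).le hk)

variable {Y : Type*}

/-- The renormalised iterates. -/
noncomputable def mm (F : Equiv.Perm Y) (J : Y → Fin d → ℝ) (L : ℤ → Matrix (Fin d) (Fin d) ℝ)
    (z : ℤ) (y : Y) : Fin d → ℝ := L (-z) *ᵥ J ((F ^ z) y)

/-- The defect. -/
noncomputable def bb (F : Equiv.Perm Y) (J : Y → Fin d → ℝ) (L : ℤ → Matrix (Fin d) (Fin d) ℝ)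
    (y : Y) : Fin d → ℝ := J (F y) - L 1 *ᵥ J y

variable {F : Equiv.Perm Y} {J : Y → Fin d → ℝ}

lemma mm_zero (w : Wt L ρ) (y : Y) : mm F J L 0 y = J y := by
  simp [mm, w.zero]

lemma mm_succ (w : Wt L ρ) (z : ℤ) (y : Y) :
    mm F J L (z + 1) y = mm F J L z y + L (-(z + 1)) *ᵥ bb F J L ((F ^ z) y) := by
  have h1 : (F ^ (z + 1)) y = F ((F ^ z) y) := by
    rw [add_comm, _root_.zpow_one_add, Equiv.Perm.mul_apply]
  have h2 : L (-(z + 1)) * L 1 = L (-z) := by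
    rw [← w.add]
    congr 1
    ring
  unfold mm bb
  rw [h1, mulVec_sub, mulVec_mulVec, h2]
  abel

lemma mm_sum (w : Wt L ρ) (n : ℕ) (y : Y) (k : Fin d) :
    mm F J L n y k = J y k + ∑ i ∈ Finset.range n,
      (L (-((i + 1 : ℕ) : ℤ)) *ᵥ bb F J L ((F ^ (i : ℤ)) y)) k := by
  induction n with
  | zero => simp [mm_zero w]
  | succ n ih =>
    rw [Finset.sum_range_succ, ← add_assoc, ← ih, Nat.cast_succ, mm_succ w]
    rfl

lemma mm_shift (w : Wt L ρ) (n z : ℤ) (y : Y) :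
    mm F J L z ((F ^ n) y) = L n *ᵥ mm F J L (z + n) y := by
  have h2 : L n * L (-(z + n)) = L (-z) := by
    rw [← w.add]
    congr 1
    ring
  unfold mm
  rw [mulVec_mulVec, h2, zpow_apply_zpow]

/-- The limit map. -/
noncomputable def gg (F : Equiv.Perm Y) (J : Y → Fin d → ℝ) (L : ℤ → Matrix (Fin d) (Fin d) ℝ)
    (ρ : Fin d → ℝ) (y : Y) (k : Fin d) : ℝ :=
  if 1 < ρ k then
    J y k + ∑' i : ℕ, (L (-((i + 1 : ℕ) : ℤ)) *ᵥ bb F J L ((F ^ (i : ℤ)) y)) k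
  else 0

variable {R : ℝ}

lemma gg_unif (w : Wt L ρ) (hR : ∀ y, ‖bb F J L y‖ ≤ R) {k : Fin d} (hk : 1 < ρ k) :
    TendstoUniformly (fun (n : ℕ) y => mm F J L n y k) (fun y => gg F J L ρ y k) atTop := by
  obtain ⟨C, q, h0, hq0, hq1, h⟩ := neg_bd w hk
  have hs : Summable fun i : ℕ => C * R * q ^ (i + 1) :=
    ((summable_nat_add_iff 1).2 (summable_geometric_of_lt_one hq0 hq1)).mul_left _
  have h1 := tendstoUniformly_tsum_nat (f := fun (i : ℕ) (y : Y) =>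
    (L (-((i + 1 : ℕ) : ℤ)) *ᵥ bb F J L ((F ^ (i : ℤ)) y)) k) hs
    fun i y => h (i + 1) _ R (hR _)
  rw [Metric.tendstoUniformly_iff] at h1 ⊢
  intro e he
  filter_upwards [h1 e he] with n hn y
  rw [mm_sum w, gg, if_pos hk, dist_add_left]
  exact hn y

lemma gg_lim (w : Wt L ρ) (hR : ∀ y, ‖bb F J L y‖ ≤ R) {k : Fin d} (hk : 1 < ρ k) (y : Y) :
    Tendsto (fun z : ℤ => mm F J L z y k) atTop (𝓝 (gg F J L ρ y k)) := by
  rw [← Nat.map_cast_int_atTop, tendsto_map'_iff]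
  exact (gg_unif w hR hk).tendsto_at y

lemma gg_near (w : Wt L ρ) (hR : ∀ y, ‖bb F J L y‖ ≤ R) {k : Fin d} (hk : 1 < ρ k) :
    ∃ B, 0 ≤ B ∧ ∀ y, |J y k - gg F J L ρ y k| ≤ B := by
  obtain ⟨C, q, h0, hq0, hq1, h⟩ := neg_bd w hk
  have hs : Summable fun i : ℕ => C * R * q ^ (i + 1) :=
    ((summable_nat_add_iff 1).2 (summable_geometric_of_lt_one hq0 hq1)).mul_left _
  refine ⟨max (∑' i : ℕ, C * R * q ^ (i + 1)) 0, le_max_right _ _, fun y => ?_⟩
  rw [gg, if_pos hk, sub_add_cancel_left, abs_neg]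
  refine le_trans ?_ (le_max_left _ _)
  exact tsum_of_norm_bounded (f := fun i : ℕ =>
    (L (-((i + 1 : ℕ) : ℤ)) *ᵥ bb F J L ((F ^ (i : ℤ)) y)) k) hs.hasSum
    fun i => h (i + 1) _ R (hR _)

lemma gg_step (w : Wt L ρ) (hR : ∀ y, ‖bb F J L y‖ ≤ R) (n : ℤ) (y : Y) :
    gg F J L ρ ((F ^ n) y) = L n *ᵥ gg F J L ρ y := by
  funext k
  by_cases hk : 1 < ρ k
  · have h1 := gg_lim w hR hk ((F ^ n) y)
    have h2 : Tendsto (fun z : ℤ => ∑ j, L n k j * mm F J L (z + n) y j) atTop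
        (𝓝 (∑ j, L n k j * gg F J L ρ y j)) := by
      refine tendsto_finsetSum _ fun j _ => ?_
      by_cases hj : ρ j = ρ k
      · exact ((gg_lim w hR (hj ▸ hk) y).comp
          (tendsto_atTop_add_const_right _ n tendsto_id)).const_mul _
      · simp only [w.blk n k j hj, zero_mul]
        exact tendsto_const_nhds
    simp only [mm_shift w] at h1
    exact tendsto_nhds_unique h1 h2
  · have h2 : ∑ j, L n k j * gg F J L ρ y j = 0 := by
      refine Finset.sum_eq_zero fun j _ => ?_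
      by_cases hj : ρ j = ρ k
      · rw [gg, if_neg (hj ▸ hk), mul_zero]
      · rw [w.blk n k j hj, zero_mul]
    rw [gg, if_neg hk]
    exact h2.symm

lemma gg_eq (w : Wt L ρ) (hR : ∀ y, ‖bb F J L y‖ ≤ R) {y y' : Y} {R' : ℝ}
    (h : ∀ᶠ n : ℕ in atTop, ‖J ((F ^ (n : ℤ)) y) - J ((F ^ (n : ℤ)) y')‖ ≤ R') :
    gg F J L ρ y = gg F J L ρ y' := by
  funext k
  by_cases hk : 1 < ρ k
  · obtain ⟨C, q, h0, hq0, hq1, hb⟩ := neg_bd w hk
    have h1 := ((gg_unif w hR hk).tendsto_at y).sub ((gg_unif w hR hk).tendsto_at y')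
    have h2 : Tendsto (fun n : ℕ => C * R' * q ^ n) atTop (𝓝 0) := by
      simpa using (tendsto_pow_atTop_nhds_zero_of_lt_one hq0 hq1).const_mul (C * R')
    have h3 : Tendsto (fun n : ℕ => mm F J L n y k - mm F J L n y' k) atTop (𝓝 0) := by
      refine squeeze_zero_norm' ?_ h2
      filter_upwards [h] with n hn
      have h4 := hb n _ R' hn
      rw [mulVec_sub] at h4
      exact h4
    exact sub_eq_zero.1 (tendsto_nhds_unique h1 h3)
  · rw [gg, gg, if_neg hk, if_neg hk]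

lemma back (w : Wt L ρ) (hR : ∀ y, ‖bb F J L y‖ ≤ R) {θ C : ℝ} (hθ : 0 < θ) (h0 : 0 ≤ C)
    {k : Fin d} (hC : ∀ (n : ℕ) (v : Fin d → ℝ) (R : ℝ), ‖v‖ ≤ R →
      |(L (n : ℤ) *ᵥ v) k| ≤ C * R * (1 + θ) ^ n) (y : Y) (n : ℕ) :
    |J y k - mm F J L (-(n : ℤ)) y k| ≤ C * R / θ * (1 + θ) ^ n := by
  have hR0 : 0 ≤ R := (norm_nonneg _).trans (hR y)
  induction n with
  | zero =>
    simp only [Nat.cast_zero, neg_zero, mm_zero w, sub_self, abs_zero]
    positivity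
  | succ n ih =>
    have h1 := mm_succ (F := F) (J := J) w (-((n + 1 : ℕ) : ℤ)) y
    have h2 : -((n + 1 : ℕ) : ℤ) + 1 = -(n : ℤ) := by
      push_cast
      ring
    rw [h2, neg_neg] at h1
    have h3 := hC n _ R (hR ((F ^ (-((n + 1 : ℕ) : ℤ))) y))
    have h4 : J y k - mm F J L (-((n + 1 : ℕ) : ℤ)) y k = (J y k - mm F J L (-(n : ℤ)) y k) +
        (L (n : ℤ) *ᵥ bb F J L ((F ^ (-((n + 1 : ℕ) : ℤ))) y)) k := by
      rw [h1, Pi.add_apply]
      ring
    rw [h4]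
    refine (abs_add_le _ _).trans ((add_le_add ih h3).trans (le_of_eq ?_))
    field_simp
    ring

end XGX

open XGX

variable {Y Γ : Type*} [MetricSpace Y] [Group Γ] [MulAction Γ Y] {F : Equiv.Perm Y}
  {Φ : MulAut Γ} {ε δ C a b : ℝ}

theorem Hs.exists_gg (S : Hs F Φ ε δ C a b) {d : ℕ} {J : Y → Fin d → ℝ} {A : Γ → Fin d → ℝ}
    {L : ℤ → Matrix (Fin d) (Fin d) ℝ} {ρ : Fin d → ℝ} (ab : Ab Φ J A L ρ) :
    ∃ G, GG F ε J A L ρ G := by
  have w := ab.wt
  have hε : 0 < ε := S.lh.δ_pos.trans_le S.lh.δ_le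
  have hlin : ∀ n : ℤ, Continuous fun v : Fin d → ℝ => L n *ᵥ v := fun n =>
    continuous_const.matrix_mulVec continuous_id
  obtain ⟨R, hR⟩ : ∃ R, ∀ y, ‖bb F J L y‖ ≤ R := by
    refine S.bdd (φ := bb F J L) ?_ fun g y => ?_
    · exact (ab.cont.comp S.uc.continuous).sub ((hlin 1).comp ab.cont)
    · unfold bb
      rw [S.eqv, ab.eqv, ab.eqv, ab.phi, mulVec_add]
      abel
  obtain ⟨-, R', hR'⟩ := S.ucd (φ := J) ab.cont fun g y y' => by
    rw [ab.eqv, ab.eqv]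
    abel
  have hcont : Continuous (gg F J L ρ) := by
    refine continuous_pi fun k => ?_
    by_cases hk : 1 < ρ k
    · refine (gg_unif w hR hk).continuous (Eventually.frequently (Eventually.of_forall fun n => ?_))
      exact (continuous_apply k).comp ((hlin _).comp
        (ab.cont.comp (uc_zpow S.uc S.uc' (n : ℤ)).continuous))
    · simp only [gg, if_neg hk]
      exact continuous_const
  have htr : ∀ (g : Γ) y y', gg F J L ρ (g • y) - gg F J L ρ (g • y') =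
      gg F J L ρ y - gg F J L ρ y' := by
    intro g y y'
    funext k
    by_cases hk : 1 < ρ k
    · have h1 := (gg_lim w hR hk (g • y)).sub (gg_lim w hR hk (g • y'))
      have h2 := (gg_lim w hR hk y).sub (gg_lim w hR hk y')
      refine tendsto_nhds_unique h1 (h2.congr fun z => ?_)
      simp only [mm, S.eqv_zpow, ab.eqv, mulVec_add, Pi.add_apply]
      ring
    · simp only [Pi.sub_apply, gg, if_neg hk]
  refine ⟨gg F J L ρ, hcont, ⟨R, hR⟩, fun k hk => gg_unif w hR hk, gg_step w hR, htr,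
    fun g y hg => ?_, fun y y' h => ?_, (S.ucd hcont htr).2, fun θ hθ => ?_⟩
  · have h1 : ∀ n : ℕ, A ((Φ ^ (n : ℤ)) g) = 0 := by
      intro n
      induction n with
      | zero => simpa using hg
      | succ n ih =>
        rw [Nat.cast_succ, add_comm, _root_.zpow_one_add, MulAut.mul_apply, ab.phi, ih, mulVec_zero]
    refine gg_eq (R' := 0) w hR (Eventually.of_forall fun n => ?_)
    rw [S.eqv_zpow, ab.eqv, h1, add_zero, sub_self, norm_zero]
  · refine gg_eq (R' := R') w hR ?_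
    have h1 : ∀ᶠ n : ℕ in atTop, dist (F^[n] y) (F^[n] y') < 4 * ε :=
      (tendsto_order.1 h).2 _ (by linarith)
    filter_upwards [h1] with n hn
    refine hR' _ _ ?_
    rw [zpow_natCast, Equiv.Perm.coe_pow]
    exact hn.le
  · obtain ⟨C₁, h0, hC⟩ := pos_bd w hθ
    have key : ∀ k, ∃ B, 0 ≤ B ∧ ∀ (n : ℕ) y y',
        dist ((F ^ (-(n : ℤ))) y) ((F ^ (-(n : ℤ))) y') ≤ 4 * ε →
        |J y k - J y' k| ≤ ‖gg F J L ρ y - gg F J L ρ y'‖ + B * (1 + θ) ^ n := by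
      intro k
      by_cases hk : 1 < ρ k
      · obtain ⟨B, hB0, hB⟩ := gg_near w hR hk
        refine ⟨2 * B, by positivity, fun n y y' _ => ?_⟩
        have h1 : |gg F J L ρ y k - gg F J L ρ y' k| ≤ ‖gg F J L ρ y - gg F J L ρ y'‖ :=
          norm_le_pi_norm (gg F J L ρ y - gg F J L ρ y') k
        have h2 : 2 * B ≤ 2 * B * (1 + θ) ^ n :=
          le_mul_of_one_le_right (by positivity) (one_le_pow₀ (by linarith))
        have h3 := abs_le.1 (hB y)
        have h4 := abs_le.1 (hB y')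
        have h5 := abs_le.1 h1
        rw [abs_le]
        constructor <;> linarith [h3.1, h3.2, h4.1, h4.2, h5.1, h5.2]
      · refine ⟨max (2 * (C₁ * R / θ) + C₁ * R') 0, le_max_right _ _, fun n y y' h => ?_⟩
        have hk' := hC k (not_lt.1 hk)
        have h1 := abs_le.1 (back w hR hθ h0 hk' y n)
        have h2 := abs_le.1 (back w hR hθ h0 hk' y' n)
        have h3 := hk' n _ R' (hR' _ _ h)
        rw [mulVec_sub, Pi.sub_apply] at h3
        have h4 := abs_le.1 h3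
        have h5 : (2 * (C₁ * R / θ) + C₁ * R') * (1 + θ) ^ n ≤
            max (2 * (C₁ * R / θ) + C₁ * R') 0 * (1 + θ) ^ n :=
          mul_le_mul_of_nonneg_right (le_max_left _ _) (by positivity)
        have h6 := norm_nonneg (gg F J L ρ y - gg F J L ρ y')
        simp only [mm, neg_neg] at h1 h2
        rw [abs_le]
        constructor <;> linarith [h1.1, h1.2, h2.1, h2.2, h4.1, h4.2]
    choose B hB0 hB using key
    refine ⟨∑ k, B k, fun n y y' h => ?_⟩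
    have hs : 0 ≤ ∑ k, B k := Finset.sum_nonneg fun k _ => hB0 k
    refine (pi_norm_le_iff_of_nonneg (by positivity)).2 fun k => ?_
    refine (hB k n y y' h).trans (add_le_add le_rfl ?_)
    exact mul_le_mul_of_nonneg_right
      (Finset.single_le_sum (fun j _ => hB0 j) (Finset.mem_univ k)) (by positivity)


end Pool.Agent.P.MP_5c499f_an
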