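import Pool.Agent.P.MP_5c499f_an.XDup

/-! Sliding unstable paths along stable leaves. -/

set_option autoImplicit false

namespace Pool.Agent.P.MP_5c499f_an

open Filter Topology Metric MeasureTheory Matrix

variable {Y Γ : Type*} [MetricSpace Y] [Group Γ] [MulAction Γ Y] {F : Equiv.Perm Y}
  {Φ : MulAut Γ} {ε δ C a b : ℝ}
variable {d : ℕ} {J G : Y → Fin d → ℝ} {A : Γ → Fin d → ℝ} {L : ℤ → Matrix (Fin d) (Fin d) ℝ}
  {ρ : Fin d → ℝ}

namespace XGpsX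

lemma uniq (h : Once F A) (h1 : A 1 = 0) {x y w w' : Y} (a1 : Asym F w x)
    (a2 : Asym (F⁻¹ : Equiv.Perm Y) w y) (b1 : Asym F w' x)
    (b2 : Asym (F⁻¹ : Equiv.Perm Y) w' y) : w' = w :=
  h w w' 1 h1 (b2.trans a2.symm) (by rw [one_smul]; exact b1.trans a1.symm)

/-- Along a slid path the intersection points stay on a bounded piece of the unstable leaf. -/
lemma slide (S : Hs F Φ ε δ C a b) (gg : GG F ε J A L ρ G) (h : Once F A) (h1 : A 1 = 0)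
    {c : ℝ → Y} (hc : Continuous c) {R : ℝ} {T : ℕ}
    (hR : ∀ s ∈ Set.Icc (0 : ℝ) 1, ∀ t ∈ Set.Icc (0 : ℝ) 1, ‖G (c s) - G (c t)‖ ≤ R)
    (hT : ∀ (Z : Set Y) (y : Y), (∀ z ∈ Z, ‖G z - G y‖ ≤ R) →
      ∀ z, Relation.ReflTransGen (fun p q => q ∈ Z ∧ Un F 0 ε q p) y z → Un F (-T) ε z y)
    {t : ℝ} (ht : t ∈ Set.Icc (0 : ℝ) 1) {w : ℝ → Y}
    (hw : ∀ s ∈ Set.Icc t 1, Asym F (w s) (c s) ∧ Asym (F⁻¹ : Equiv.Perm Y) (w s) (c t))
    {s : ℝ} (hs : s ∈ Set.Icc t 1) : Un F (-T) ε (w s) (c t) := by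
  have htt : t ∈ Set.Icc t 1 := ⟨le_rfl, ht.2⟩
  have e0 : w t = c t :=
    uniq h h1 (Asym.refl _ _) (Asym.refl _ _) (hw t htt).1 (hw t htt).2
  refine hT (w '' Set.Icc t 1) (c t) ?_ _ ?_
  · rintro _ ⟨s', hs', rfl⟩
    rw [gg.st _ _ (hw s' hs').1]
    exact hR s' ⟨ht.1.trans hs'.1, hs'.2⟩ t ht
  · rw [← e0]
    have key := (isPreconnected_Icc (a := t) (b := 1)).induction₂'
      (fun s₁ s₂ => s₁ ∈ Set.Icc t 1 → s₂ ∈ Set.Icc t 1 →
        Relation.ReflTransGen (fun p q => q ∈ w '' Set.Icc t 1 ∧ Un F 0 ε q p) (w s₁) (w s₂))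
      (fun s₁ hs₁ => ?_) (fun x y z hx hy hz p q _ _ => (p hx hy).trans (q hy hz)) htt hs
    · exact key htt hs
    obtain ⟨η, η0, hη⟩ := S.persist1 (hw s₁ hs₁).1 S.lh.ε_pos
    have hn : ∀ᶠ s₂ in 𝓝 s₁, dist (c s₂) (c s₁) ≤ η :=
      (hc.tendsto s₁).eventually (closedBall_mem_nhds _ η0)
    filter_upwards [nhdsWithin_le_nhds hn, self_mem_nhdsWithin] with s₂ d₂ hs₂
    obtain ⟨w', b1, b2⟩ := hη _ d₂
    have b3 : Asym (F⁻¹ : Equiv.Perm Y) w' (c t) :=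
      (S.lh.asym_of_un (b2.mono le_rfl (by linarith [S.lh.ε_pos]))).trans (hw s₁ hs₁).2
    have e : w' = w s₂ := uniq h h1 (hw s₂ hs₂).1 (hw s₂ hs₂).2 b1 b3
    rw [e] at b2
    exact ⟨fun _ _ => Relation.ReflTransGen.single ⟨⟨s₂, hs₂, rfl⟩, b2⟩,
      fun _ _ => Relation.ReflTransGen.single ⟨⟨s₁, hs₁, rfl⟩, b2.symm⟩⟩

lemma exist (S : Hs F Φ ε δ C a b) (gg : GG F ε J A L ρ G) (h : Once F A) (h1 : A 1 = 0)
    (ul : ULight F ε G) {c : ℝ → Y} (hc : Continuous c) :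
    ∃ w, Asym F w (c 1) ∧ Asym (F⁻¹ : Equiv.Perm Y) w (c 0) := by
  have hε := S.lh.ε_pos
  have hδ := S.lh.δ_pos
  have : Nonempty Y := ⟨c 0⟩
  obtain ⟨R₀, hR₀⟩ := (isCompact_Icc (a := (0 : ℝ)) (b := 1)).exists_bound_of_continuousOn
    (gg.cont.comp hc).continuousOn
  have hR : ∀ s ∈ Set.Icc (0 : ℝ) 1, ∀ t ∈ Set.Icc (0 : ℝ) 1, ‖G (c s) - G (c t)‖ ≤ R₀ + R₀ :=
    fun s hs t ht => (norm_sub_le _ _).trans (add_le_add (hR₀ s hs) (hR₀ t ht))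
  obtain ⟨T, hT⟩ := ul (R₀ + R₀)
  obtain ⟨j, hj⟩ : ∃ j : ℕ, C * b ^ j ≤ δ := by
    have h2 : Tendsto (fun j : ℕ => C * b ^ j) atTop (𝓝 (C * 0)) :=
      (tendsto_pow_atTop_nhds_zero_of_lt_one S.lh.b_nonneg S.lh.b_lt).const_mul C
    rw [mul_zero] at h2
    exact (h2.eventually (ge_mem_nhds hδ)).exists
  set l : ℤ := -(T : ℤ) - j with hl
  have hcl : Continuous fun t => (F ^ l) (c t) := (uc_zpow S.uc S.uc' l).continuous.comp hc
  obtain ⟨δ₀, δ0, hδ₀⟩ := Metric.uniformContinuousOn_iff_le.1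
    ((isCompact_Icc (a := (0 : ℝ)) (b := 1)).uniformContinuousOn_of_continuous hcl.continuousOn)
    δ hδ
  have near : ∀ s ∈ Set.Icc (0 : ℝ) 1, ∀ t ∈ Set.Icc (0 : ℝ) 1, t ≤ s → s ≤ t + δ₀ →
      dist ((F ^ l) (c s)) ((F ^ l) (c t)) ≤ δ := fun s hs t ht e1 e2 =>
    hδ₀ s hs t ht (by rw [Real.dist_eq, abs_le]; constructor <;> linarith)
  have brk : ∀ x y : Y, dist ((F ^ l) x) ((F ^ l) y) ≤ 2 * δ →
      ∃ z, Asym F z x ∧ Asym (F⁻¹ : Equiv.Perm Y) z y := fun x y hxy => by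
    obtain ⟨z, z1, z2⟩ := S.lh.br' l hxy
    exact ⟨z, S.lh.asym_of_st (z1.mono le_rfl (by linarith)),
      S.lh.asym_of_un (z2.mono le_rfl (by linarith))⟩
  have main : ∀ n : ℕ, ∀ t ∈ Set.Icc (0 : ℝ) 1, 1 - n * δ₀ ≤ t → ∀ s ∈ Set.Icc t 1,
      ∃ w, Asym F w (c s) ∧ Asym (F⁻¹ : Equiv.Perm Y) w (c t) := by
    intro n
    induction n with
    | zero =>
      intro t ht e s hs
      have e1 : s = t := by
        have := hs.1
        have := hs.2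
        simp only [Nat.cast_zero, zero_mul, sub_zero] at e
        linarith
      rw [e1]
      exact ⟨c t, Asym.refl _ _, Asym.refl _ _⟩
    | succ n ih =>
      intro t' ht' e s hs
      have hs01 : s ∈ Set.Icc (0 : ℝ) 1 := ⟨ht'.1.trans hs.1, hs.2⟩
      by_cases hst : s ≤ t' + δ₀
      · exact brk _ _ ((near s hs01 t' ht' hs.1 hst).trans (by linarith))
      have hst' : t' + δ₀ ≤ s := (not_le.1 hst).le
      have ht : t' + δ₀ ∈ Set.Icc (0 : ℝ) 1 := ⟨by linarith [ht'.1], hst'.trans hs.2⟩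
      have ih' := ih (t' + δ₀) ht (by push_cast at e; linarith)
      choose! w hw using ih'
      have u1 := slide S gg h h1 hc hR hT ht hw (s := s) ⟨hst', hs.2⟩
      have u2 := S.lh.cu' (u1.mono le_rfl (by linarith)) j l le_rfl
      have u3 := near _ ht t' ht' (by linarith) le_rfl
      obtain ⟨z, z1, z2⟩ := brk (w s) (c t') ((dist_triangle _ _ _).trans
        ((add_le_add (u2.trans hj) u3).trans (by linarith)))
      exact ⟨z, z1.trans (hw s ⟨hst', hs.2⟩).1, z2⟩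
  obtain ⟨n, hn⟩ := exists_nat_ge (1 / δ₀)
  rw [div_le_iff₀ δ0] at hn
  exact main n 0 ⟨le_rfl, zero_le_one⟩ (by linarith) 1 ⟨zero_le_one, le_rfl⟩

end XGpsX

theorem Hs.gps [PathConnectedSpace Y] (S : Hs F Φ ε δ C a b) (gg : GG F ε J A L ρ G)
    (h : Once F A) (h1 : A 1 = 0) (ul : ULight F ε G) :
    (∀ x y, ∃! w, Asym F w x ∧ Asym (F⁻¹ : Equiv.Perm Y) w y) ∧ ∀ g : Γ, A g = 0 → g = 1 := by
  have ex : ∀ x y : Y, ∃ w, Asym F w x ∧ Asym (F⁻¹ : Equiv.Perm Y) w y := by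
    intro x y
    obtain ⟨γ⟩ := PathConnectedSpace.joined y x
    have := XGpsX.exist S gg h h1 ul γ.continuous_extend
    rwa [γ.extend_one, γ.extend_zero] at this
  refine ⟨fun x y => ?_, fun g hg => ?_⟩
  · obtain ⟨w, w1, w2⟩ := ex x y
    exact ⟨w, ⟨w1, w2⟩, fun w' hw' => XGpsX.uniq h h1 w1 w2 hw'.1 hw'.2⟩
  · obtain ⟨y⟩ : Nonempty Y := PathConnectedSpace.nonempty
    obtain ⟨w, w1, w2⟩ := ex (g⁻¹ • y) y
    have w3 : Asym F (g • w) y := by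
      have := (S.asym_smul g).2 w1
      rwa [smul_inv_smul] at this
    have e := h y w g hg w2 w3
    rw [e] at w3
    exact S.free_st w3

end Pool.Agent.P.MP_5c499f_an
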