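import Pool.Agent.P.MP_5c499f_an.XNull
import Pool.Agent.P.MP_5c499f_an.XBasA
import Pool.Agent.Lib.Flow.Nemytskii

/-! The homotopy estimate for weighted Jacobians. -/

set_option autoImplicit false

namespace Pool.Agent.P.MP_5c499f_an

open Filter Topology Metric MeasureTheory Matrix

namespace XHomX

/-- Integration over the unit interval. -/
noncomputable def intg : C(Set.Icc (0 : ℝ) 1, ℝ) →L[ℝ] ℝ :=
  LinearMap.mkContinuous
    { toFun := fun f => ∫ t in (0 : ℝ)..1, f (Set.projIcc 0 1 zero_le_one t)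
      map_add' := fun f g => by
        simp only [ContinuousMap.add_apply]
        exact intervalIntegral.integral_add
          ((f.continuous.comp continuous_projIcc).intervalIntegrable _ _)
          ((g.continuous.comp continuous_projIcc).intervalIntegrable _ _)
      map_smul' := fun c f => by
        simp only [ContinuousMap.smul_apply, smul_eq_mul, RingHom.id_apply]
        exact intervalIntegral.integral_const_mul _ _ } 1
    (fun f => by
      have := intervalIntegral.norm_integral_le_of_norm_le_const (a := (0 : ℝ)) (b := 1)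
        (f := fun t => f (Set.projIcc 0 1 zero_le_one t)) (C := ‖f‖)
        (fun t _ => f.norm_coe_le_norm _)
      simpa using this)

lemma intg_apply (f : C(Set.Icc (0 : ℝ) 1, ℝ)) :
    intg f = ∫ t in (0 : ℝ)..1, f (Set.projIcc 0 1 zero_le_one t) := rfl

lemma line {u : ℕ} (y : XX u) (i : Fin u) (s : ℝ) :
    y + s • bas u i = Function.update y i (y i + s) := by
  funext k
  by_cases h : k = i
  · subst h; simp [bas]
  · simp [bas, h]

lemma hasDeriv_line {u : ℕ} {Ψ : XX u → ℝ} (hΨ : ContDiff ℝ 1 Ψ) (y v : XX u) (s : ℝ) :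
    HasDerivAt (fun s : ℝ => Ψ (y + s • v)) (fderiv ℝ Ψ (y + s • v) v) s := by
  have h1 : HasDerivAt (fun s : ℝ => y + s • v) v s := by
    simpa using ((hasDerivAt_id s).smul_const v).const_add y
  exact (hΨ.differentiable one_ne_zero (y + s • v)).hasFDerivAt.comp_hasDerivAt s h1

lemma row_lin {W : Type*} [NormedAddCommGroup W] [NormedSpace ℝ W] {k : ℕ}
    (ξ : Fin k → W →L[ℝ] ℝ) (w : Fin k → W) (i : Fin k) :
    ∃ v : W, (∀ ζ, dt (Function.update ξ i ζ) w = ζ v) ∧ (∀ j, j ≠ i → ξ j v = 0) := by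
  set A : Matrix (Fin k) (Fin k) ℝ := Matrix.of fun a j => ξ a (w j) with hA
  have h1 : ∀ ζ : W →L[ℝ] ℝ, dt (Function.update ξ i ζ) w =
      (A.updateRow i fun j => ζ (w j)).det := by
    intro ζ
    unfold dt
    congr 1
    ext a j
    by_cases h : a = i
    · subst h; simp
    · simp [h, hA]
  have h2 : ∀ ζ : W →L[ℝ] ℝ, dt (Function.update ξ i ζ) w =
      ζ (∑ j, cramer Aᵀ (Pi.single j 1) i • w j) := by
    intro ζ
    rw [h1, ← cramer_transpose_apply, map_sum]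
    have h3 : (fun j => ζ (w j)) = ∑ j, ζ (w j) • (Pi.single j 1 : Fin k → ℝ) := by
      funext a
      simp [Finset.sum_apply, Pi.single_apply]
    rw [h3, map_sum, Finset.sum_apply]
    refine Finset.sum_congr rfl fun j _ => ?_
    rw [map_smul, map_smul]
    simp [mul_comm]
  refine ⟨_, h2, fun j hj => ?_⟩
  rw [← h2, h1]
  exact det_updateRow_eq_zero hj

lemma vol_bound {u : ℕ} {K : Set (XX u)} (hK : IsCompact K) {Nn : XX u → XX u → ℝ} {W : ℝ}
    (hW : 0 ≤ W) (hV : VolLe K Nn W) {η : XX u → Fin u → XX u →L[ℝ] ℝ} {a : Fin u → ℝ}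
    (ha : ∀ k, 0 < a k) (hη : ∀ b ∈ K, ∀ k v, |η b k v| ≤ a k * Nn b v) {f : XX u → ℝ} {R : ℝ}
    (hR : 0 ≤ R) (hf : ∀ b ∈ K, |f b| ≤ R) :
    |∫ b in K, f b * dt (η b) (bas u)| ≤ R * (∏ k, a k) * W := by
  have hp : 0 ≤ ∏ k, a k := Finset.prod_nonneg fun k _ => (ha k).le
  have h1 := hV (fun b k => (a k)⁻¹ • η b k) (fun b hb k v => by
    rw [_root_.smul_apply, smul_eq_mul, abs_mul, abs_of_pos (inv_pos.2 (ha k)),
      inv_mul_le_iff₀ (ha k)]
    exact hη b hb k v)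
  have h2 : ∀ b, dt (η b) (bas u) = (∏ k, a k) * dt (fun k => (a k)⁻¹ • η b k) (bas u) := by
    intro b
    unfold dt
    rw [← det_mul_column]
    congr 1
    ext k j
    simp [(ha k).ne']
  have h3 : ∫⁻ b in K, ENNReal.ofReal ‖f b * dt (η b) (bas u)‖ ≤
      ENNReal.ofReal (R * (∏ k, a k) * W) := by
    calc ∫⁻ b in K, ENNReal.ofReal ‖f b * dt (η b) (bas u)‖
        ≤ ∫⁻ b in K, ENNReal.ofReal (R * ∏ k, a k) *
            ENNReal.ofReal |dt (fun k => (a k)⁻¹ • η b k) (bas u)| := by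
          refine setLIntegral_mono' hK.measurableSet fun b hb => ?_
          rw [← ENNReal.ofReal_mul (mul_nonneg hR hp)]
          refine ENNReal.ofReal_le_ofReal ?_
          rw [h2 b, Real.norm_eq_abs, abs_mul, abs_mul, abs_of_nonneg hp, mul_assoc]
          exact mul_le_mul_of_nonneg_right (hf b hb) (mul_nonneg hp (abs_nonneg _))
      _ = ENNReal.ofReal (R * ∏ k, a k) *
            ∫⁻ b in K, ENNReal.ofReal |dt (fun k => (a k)⁻¹ • η b k) (bas u)| :=
          lintegral_const_mul' _ _ ENNReal.ofReal_ne_top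
      _ ≤ ENNReal.ofReal (R * ∏ k, a k) * ENNReal.ofReal W := by gcongr
      _ = _ := (ENNReal.ofReal_mul (mul_nonneg hR hp)).symm
  rw [← Real.norm_eq_abs]
  exact (norm_integral_le_lintegral_norm _).trans
    (ENNReal.toReal_le_of_le_ofReal (mul_nonneg (mul_nonneg hR hp) hW) h3)

lemma cont_dt {u : ℕ} {B : Set (XX u)} (hB : IsOpen B) {g : Fin u → XX u → ℝ}
    (h : ∀ i, ContDiffOn ℝ 1 (g i) B) :
    ContinuousOn (fun b => dt (fun i => fderiv ℝ (g i) b) (bas u)) B :=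
  continuousOn_dt (fun i => (h i).continuousOn_fderiv_of_isOpen hB le_rfl)
    fun _ => continuousOn_const

lemma fd_update {u : ℕ} (g : Fin u → XX u → ℝ) (i : Fin u) (D : XX u → ℝ) (b : XX u) :
    (fun k => fderiv ℝ (Function.update g i D k) b) =
      Function.update (fun k => fderiv ℝ (g k) b) i (fderiv ℝ D b) := by
  funext k
  by_cases h : k = i
  · subst h; simp
  · simp [h]

lemma c1_update {u : ℕ} {B : Set (XX u)} {g : Fin u → XX u → ℝ}
    (h : ∀ i, ContDiffOn ℝ 1 (g i) B) (i : Fin u) {D : XX u → ℝ} (hD : ContDiffOn ℝ 1 D B)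
    (k : Fin u) : ContDiffOn ℝ 1 (Function.update g i D k) B := by
  by_cases hk : k = i
  · subst hk; simpa using hD
  · simpa [hk] using h k

lemma core {u : ℕ} {B K : Set (XX u)} {χ : XX u → ℝ} (hc : Cut B K χ)
    {Nn : XX u → XX u → ℝ} {W μ : ℝ} (hW : 0 ≤ W) (hV : VolLe K Nn W) (hμ : 0 < μ)
    (hχ : ∀ b ∈ K, ∀ v, |fderiv ℝ χ b v| ≤ μ * Nn b v) {g : Fin u → XX u → ℝ}
    (h1 : ∀ i, ContDiffOn ℝ 1 (g i) B) {w : Fin u → ℝ} (hw : ∀ i, 0 < w i)
    (h4 : ∀ i, ∀ b ∈ K, ∀ v, |fderiv ℝ (g i) b v| ≤ w i * Nn b v) (i : Fin u) {D : XX u → ℝ}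
    (hD : ContDiffOn ℝ 1 D B) {R : ℝ} (hR : 0 ≤ R) (h3 : ∀ b ∈ K, |D b| ≤ R) :
    |∫ b in K, χ b * dt (Function.update (fun k => fderiv ℝ (g k) b) i (fderiv ℝ D b)) (bas u)| ≤
      R * (μ * ∏ k ∈ Finset.univ \ {i}, w k) * W := by
  have hχB : ContDiffOn ℝ 1 χ B := hc.c1.contDiffOn
  have hP : ContDiffOn ℝ 1 (fun b => χ b * D b) B := hχB.mul hD
  have n0 := null_lagr (volume : Measure (XX u)) (bas u) hc.op hc.cpt hc.sub
    (c1_update h1 i hP) i (fun x _ hx => by simp [hc.zero x hx])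
  have c1 := (cont_dt hc.op (c1_update h1 i hP)).mono hc.sub
  have c2 := (hD.continuousOn.fun_mul (cont_dt hc.op (c1_update h1 i hχB))).mono hc.sub
  simp only [fd_update] at n0 c1 c2
  have e1 : ∀ b ∈ K,
      χ b * dt (Function.update (fun k => fderiv ℝ (g k) b) i (fderiv ℝ D b)) (bas u) =
      dt (Function.update (fun k => fderiv ℝ (g k) b) i (fderiv ℝ (fun b => χ b * D b) b)) (bas u) -
        D b * dt (Function.update (fun k => fderiv ℝ (g k) b) i (fderiv ℝ χ b)) (bas u) := by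
    intro b hb
    obtain ⟨v, hv, -⟩ := row_lin (fun k => fderiv ℝ (g k) b) (bas u) i
    have d1 : DifferentiableAt ℝ χ b := hc.c1.differentiable one_ne_zero b
    have d2 : DifferentiableAt ℝ D b :=
      (hD.contDiffAt (hc.op.mem_nhds (hc.sub hb))).differentiableAt one_ne_zero
    rw [hv, hv, hv, fderiv_fun_mul d1 d2]
    simp
  rw [setIntegral_congr_fun hc.cpt.measurableSet e1,
    integral_sub (c1.integrableOn_compact hc.cpt) (c2.integrableOn_compact hc.cpt), n0,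
    zero_sub, abs_neg, ← Finset.prod_update_of_mem (Finset.mem_univ i)]
  refine vol_bound hc.cpt hW hV (fun k => ?_) (fun b hb k v => ?_) hR h3
  · by_cases hk : k = i
    · subst hk; simpa using hμ
    · simpa [hk] using hw k
  · by_cases hk : k = i
    · subst hk; simpa using hχ b hb v
    · simpa [hk] using h4 k b hb v

lemma chain {u : ℕ} {B : Set (XX u)} (hB : IsOpen B) {Ψ φ : XX u → ℝ} (hΨ : ContDiff ℝ 1 Ψ)
    {i : Fin u} (hp : ∀ y, fderiv ℝ Ψ y (bas u i) = φ y) {g : Fin u → XX u → ℝ}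
    (h1 : ∀ i, ContDiffOn ℝ 1 (g i) B) {b : XX u} (hb : b ∈ B) {v : XX u}
    (hv : ∀ j, j ≠ i → fderiv ℝ (g j) b v = 0) :
    fderiv ℝ (fun b => Ψ fun k => g k b) b v = φ (fun k => g k b) * fderiv ℝ (g i) b v := by
  have d1 : HasFDerivAt (fun b => fun k => g k b)
      (ContinuousLinearMap.pi fun k => fderiv ℝ (g k) b) b :=
    hasFDerivAt_pi.2 fun k =>
      (((h1 k).contDiffAt (hB.mem_nhds hb)).differentiableAt one_ne_zero).hasFDerivAt
  have d2 := (hΨ.differentiable one_ne_zero (fun k => g k b)).hasFDerivAt.comp b d1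
  have d3 : fderiv ℝ (fun b => Ψ fun k => g k b) b = _ := d2.fderiv
  have d4 : (ContinuousLinearMap.pi fun k => fderiv ℝ (g k) b) v =
      fderiv ℝ (g i) b v • bas u i := by
    funext k
    by_cases hk : k = i
    · subst hk; simp [bas]
    · simp [bas, hk, hv k hk]
  rw [d3, ContinuousLinearMap.comp_apply, d4, map_smul, hp, smul_eq_mul, mul_comm]

end XHomX

open XHomX

theorem exists_prim {u : ℕ} {φ : XX u → ℝ} (hφ : ContDiff ℝ 1 φ) (i : Fin u) :
    ∃ Ψ : XX u → ℝ, ContDiff ℝ 1 Ψ ∧ ∀ y, fderiv ℝ Ψ y (bas u i) = φ y := by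
  let η : Fin u → C(Set.Icc (0 : ℝ) 1, XX u) := fun j =>
    if j = i then ⟨fun t => (t : ℝ) • bas u j, by fun_prop⟩ else ⟨fun _ => bas u j, by fun_prop⟩
  let A : XX u → C(Set.Icc (0 : ℝ) 1, XX u) := fun y => ∑ j, y j • η j
  have hA : ContDiff ℝ 1 A :=
    ContDiff.sum fun j _ => (contDiff_apply ℝ ℝ j).smul contDiff_const
  have hA' : ∀ y t, A y t = Function.update y i (t * y i) := by
    intro y t
    have h1 : ∀ j, η j t = (if j = i then (t : ℝ) else 1) • bas u j := by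
      intro j
      by_cases h : j = i <;> simp [η, h]
    funext k
    simp only [A, ContinuousMap.coe_sum, Finset.sum_apply, ContinuousMap.smul_apply, h1,
      Pi.smul_apply, smul_eq_mul, bas, Pi.single_apply, mul_ite, mul_one, mul_zero,
      Finset.sum_ite_eq, Finset.mem_univ, if_true]
    by_cases h : k = i
    · subst h
      simp [mul_comm]
    · simp [h]
  let f : C(XX u, ℝ) := ⟨φ, hφ.continuous⟩
  have hf : ContDiff ℝ ((1 : ℕ∞) : WithTop ℕ∞) f := hφ
  have hΨ : ContDiff ℝ 1 fun y : XX u => y i * intg (f.comp (A y)) :=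
    (contDiff_apply ℝ ℝ i).mul
      (intg.contDiff.comp ((Pool.Agent.Lib.Flow.contDiff_postcomp f hf).comp hA))
  refine ⟨_, hΨ, fun y => ?_⟩
  have h1 := hasDeriv_line hΨ y (bas u i) 0
  rw [zero_smul, add_zero] at h1
  have hc : Continuous fun τ : ℝ => φ (Function.update y i τ) :=
    hφ.continuous.comp (continuous_const.update i continuous_id)
  have h2 : (fun s : ℝ => (y + s • bas u i) i * intg (f.comp (A (y + s • bas u i)))) =
      fun s : ℝ => ∫ τ in (0 : ℝ)..(y i + s), φ (Function.update y i τ) := by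
    funext s
    rw [line, intg_apply]
    have h3 := intervalIntegral.smul_integral_comp_mul_right (a := 0) (b := 1)
      (fun τ : ℝ => φ (Function.update y i τ)) (y i + s)
    rw [zero_mul, one_mul, smul_eq_mul] at h3
    rw [← h3, Function.update_self]
    congr 1
    refine intervalIntegral.integral_congr fun t ht => ?_
    rw [Set.uIcc_of_le zero_le_one] at ht
    simp [hA', f, Set.projIcc_of_mem zero_le_one ht]
  have h4 : HasDerivAt (fun s : ℝ => ∫ τ in (0 : ℝ)..(y i + s), φ (Function.update y i τ))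
      (φ y) 0 := by
    have h5 := (hc.integral_hasStrictDerivAt 0 (y i + 0)).hasDerivAt
    have h6 := h5.comp_const_add (y i) 0
    simpa using h6
  rw [h2] at h1
  exact h1.unique h4

namespace XHomX

lemma swap {u : ℕ} {B K : Set (XX u)} {χ : XX u → ℝ} (hc : Cut B K χ)
    {Nn : XX u → XX u → ℝ} {W μ : ℝ} (hW : 0 ≤ W) (hV : VolLe K Nn W) (hμ : 0 < μ)
    (hχ : ∀ b ∈ K, ∀ v, |fderiv ℝ χ b v| ≤ μ * Nn b v) {φ : XX u → ℝ} (hφ : ContDiff ℝ 1 φ)
    (hφ' : ∀ y, |φ y| ≤ 1) {g g' : Fin u → XX u → ℝ} (h1 : ∀ i, ContDiffOn ℝ 1 (g i) B)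
    (h2 : ∀ i, ContDiffOn ℝ 1 (g' i) B) {w : Fin u → ℝ} (hw : ∀ i, 0 < w i) (i : Fin u)
    (he : ∀ k, k ≠ i → g' k = g k) (h3 : ∀ b ∈ K, |g i b - g' i b| ≤ w i)
    (h4 : ∀ i, ∀ b ∈ K, ∀ v, |fderiv ℝ (g i) b v| ≤ w i * Nn b v) :
    |Jac K χ φ g - Jac K χ φ g'| ≤ μ * (∏ i, w i) * W := by
  obtain ⟨Ψ, hΨ, hp⟩ := exists_prim hφ i
  have c1 : ∀ {g : Fin u → XX u → ℝ}, (∀ i, ContDiffOn ℝ 1 (g i) B) →
      ContDiffOn ℝ 1 (fun b => Ψ fun k => g k b) B := fun h =>
    hΨ.comp_contDiffOn (contDiffOn_pi.2 h)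
  have c2 : ∀ {g : Fin u → XX u → ℝ}, (∀ i, ContDiffOn ℝ 1 (g i) B) →
      IntegrableOn (fun b => χ b * φ (fun i => g i b) *
        dt (fun i => fderiv ℝ (g i) b) (bas u)) K := fun h =>
    (((hc.c1.continuous.continuousOn.mul
      (hφ.comp_contDiffOn (contDiffOn_pi.2 h)).continuousOn).mul
        (cont_dt hc.op h)).mono hc.sub).integrableOn_compact hc.cpt
  have hD := (c1 h1).sub (c1 h2)
  have hb : ∀ b ∈ K, |(Ψ fun k => g k b) - Ψ fun k => g' k b| ≤ w i := by
    intro b hb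
    have e1 : (fun k => g k b) = (fun k => g' k b) + (g i b - g' i b) • bas u i := by
      funext k
      by_cases hk : k = i
      · subst hk; simp [bas]
      · simp [bas, hk, he k hk]
    have e2 := convex_univ.norm_image_sub_le_of_norm_hasDerivWithin_le
      (f := fun s : ℝ => Ψ ((fun k => g' k b) + s • bas u i)) (C := 1)
      (fun s _ => (hasDeriv_line hΨ _ _ s).hasDerivWithinAt)
      (fun s _ => by rw [hp]; exact hφ' _) (Set.mem_univ 0) (Set.mem_univ (g i b - g' i b))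
    simp only [zero_smul, add_zero, sub_zero, one_mul, Real.norm_eq_abs] at e2
    rw [e1]
    exact e2.trans (h3 b hb)
  have k1 := core hc hW hV hμ hχ h1 hw h4 i hD (hw i).le hb
  have e3 : ∀ b ∈ K, χ b * φ (fun i => g i b) * dt (fun i => fderiv ℝ (g i) b) (bas u) -
      χ b * φ (fun i => g' i b) * dt (fun i => fderiv ℝ (g' i) b) (bas u) =
      χ b * dt (Function.update (fun k => fderiv ℝ (g k) b) i
        (fderiv ℝ (fun b => (Ψ fun k => g k b) - Ψ fun k => g' k b) b)) (bas u) := by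
    intro b hb
    have hB := hc.sub hb
    obtain ⟨v, hv, hv0⟩ := row_lin (fun k => fderiv ℝ (g k) b) (bas u) i
    have a1 : dt (fun i => fderiv ℝ (g i) b) (bas u) = fderiv ℝ (g i) b v := by
      rw [← hv, Function.update_eq_self i fun k => fderiv ℝ (g k) b]
    have a2 : dt (fun i => fderiv ℝ (g' i) b) (bas u) = fderiv ℝ (g' i) b v := by
      rw [← hv]
      congr 1
      funext k
      by_cases hk : k = i
      · subst hk; simp
      · simp [hk, he k hk]
    rw [hv, fderiv_fun_sub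
      (((c1 h1).contDiffAt (hc.op.mem_nhds hB)).differentiableAt one_ne_zero)
      (((c1 h2).contDiffAt (hc.op.mem_nhds hB)).differentiableAt one_ne_zero),
      _root_.sub_apply, chain hc.op hΨ hp h1 hB hv0,
      chain hc.op hΨ hp h2 hB (fun j hj => by rw [he j hj]; exact hv0 j hj), a1, a2]
    ring
  unfold Jac
  rw [← integral_sub (c2 h1) (c2 h2), setIntegral_congr_fun hc.cpt.measurableSet e3]
  refine k1.trans (le_of_eq ?_)
  rw [Finset.prod_eq_mul_prod_sdiff_singleton_of_mem (Finset.mem_univ i) w]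
  ring

end XHomX

theorem homot {u : ℕ} {B K : Set (XX u)} {χ : XX u → ℝ} (hc : Cut B K χ)
    {Nn : XX u → XX u → ℝ} {W μ : ℝ} (hW : 0 ≤ W) (hV : VolLe K Nn W) (hμ : 0 < μ)
    (hχ : ∀ b ∈ K, ∀ v, |fderiv ℝ χ b v| ≤ μ * Nn b v) {φ : XX u → ℝ} (hφ : ContDiff ℝ 1 φ)
    (hφ' : ∀ y, |φ y| ≤ 1) {g g' : Fin u → XX u → ℝ} (h1 : ∀ i, ContDiffOn ℝ 1 (g i) B)
    (h2 : ∀ i, ContDiffOn ℝ 1 (g' i) B) {w : Fin u → ℝ} (hw : ∀ i, 0 < w i)
    (h3 : ∀ i, ∀ b ∈ K, |g i b - g' i b| ≤ w i)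
    (h4 : ∀ i, ∀ b ∈ K, ∀ v, |fderiv ℝ (g i) b v| ≤ w i * Nn b v)
    (h5 : ∀ i, ∀ b ∈ K, ∀ v, |fderiv ℝ (g' i) b v| ≤ w i * Nn b v) :
    |Jac K χ φ g - Jac K χ φ g'| ≤ u * μ * (∏ i, w i) * W := by
  let h : ℕ → Fin u → XX u → ℝ := fun m k => if k.val < m then g' k else g k
  have a1 : ∀ m k, ContDiffOn ℝ 1 (h m k) B := by
    intro m k
    simp only [h]
    split_ifs
    exacts [h2 k, h1 k]
  have a2 : ∀ m k, ∀ b ∈ K, ∀ v, |fderiv ℝ (h m k) b v| ≤ w k * Nn b v := by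
    intro m k
    simp only [h]
    split_ifs
    exacts [h5 k, h4 k]
  have key : ∀ m : ℕ, m ≤ u → |Jac K χ φ g - Jac K χ φ (h m)| ≤ m * μ * (∏ i, w i) * W := by
    intro m
    induction m with
    | zero => intro _; simp [h]
    | succ m ih =>
      intro hm
      have b1 := ih (by omega)
      have b2 := XHomX.swap hc hW hV hμ hχ hφ hφ' (a1 m) (a1 (m + 1)) hw ⟨m, by omega⟩
        (fun k hk => by
          have : k.val ≠ m := fun e => hk (Fin.ext e)
          simp only [h]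
          by_cases h0 : k.val < m
          · rw [if_pos h0, if_pos (by omega)]
          · rw [if_neg h0, if_neg (by omega)])
        (fun b hb => by simpa [h] using h3 _ b hb) (a2 m)
      have b3 := abs_sub_le (Jac K χ φ g) (Jac K χ φ (h m)) (Jac K χ φ (h (m + 1)))
      push_cast
      linarith
  have e : h u = g' := by
    funext k
    simp [h]
  simpa [e] using key u le_rfl

/-- The case where one coordinate is bounded. -/
theorem homot_one {u : ℕ} {B K : Set (XX u)} {χ : XX u → ℝ} (hc : Cut B K χ)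
    {Nn : XX u → XX u → ℝ} {W μ : ℝ} (hW : 0 ≤ W) (hV : VolLe K Nn W) (hμ : 0 < μ)
    (hχ : ∀ b ∈ K, ∀ v, |fderiv ℝ χ b v| ≤ μ * Nn b v) {g : Fin u → XX u → ℝ}
    (h1 : ∀ i, ContDiffOn ℝ 1 (g i) B) {c R : ℝ} (hc' : 1 ≤ c) (hR : 0 ≤ R) (i₀ : Fin u)
    (h3 : ∀ b ∈ K, |g i₀ b| ≤ R) (h4 : ∀ i, ∀ b ∈ K, ∀ v, |fderiv ℝ (g i) b v| ≤ c * Nn b v) :
    |Jac K χ (fun _ => 1) g| ≤ R * μ * c ^ u * W := by
  have k1 := core hc hW hV hμ hχ h1 (w := fun _ => c) (fun _ => by linarith) h4 i₀ (h1 i₀) hR h3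
  have e1 : ∀ b, Function.update (fun k => fderiv ℝ (g k) b) i₀ (fderiv ℝ (g i₀) b) =
      fun k => fderiv ℝ (g k) b := fun b => Function.update_eq_self i₀ _
  simp only [e1, Finset.prod_const] at k1
  unfold Jac
  simp only [mul_one]
  refine k1.trans ?_
  have e2 : c ^ (Finset.univ \ {i₀}).card ≤ c ^ u :=
    pow_le_pow_right₀ hc' ((Finset.card_le_univ _).trans (by simp))
  rw [← mul_assoc]
  gcongr


end Pool.Agent.P.MP_5c499f_an
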