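import Pool.Agent.P.MP_5c499f_an.XBasA

/-! Two determinant lemmas. -/

set_option autoImplicit false

namespace Pool.Agent.P.MP_5c499f_an

open Filter Topology Metric MeasureTheory Matrix

namespace XLAX

lemma block_le {u k : ℕ} {K : ℝ} {A : Matrix (Fin u) (Fin u) ℝ} {B : Matrix (Fin u) (Fin k) ℝ}
    {C : Matrix (Fin k) (Fin u) ℝ} {D : Matrix (Fin k) (Fin k) ℝ} (h1 : ∀ i j, |A i j| ≤ K)
    (h2 : ∀ i j, |B i j| ≤ K) (h3 : ∀ i j, |C i j| ≤ K) (h4 : ∀ i j, |D i j| ≤ K) :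
    |(fromBlocks A B C D).det| ≤ (u + k).factorial * K ^ (u + k) := by
  have := Matrix.det_le (A := fromBlocks A B C D) (abv := AbsoluteValue.abs) (x := K) (by
    rintro (i | i) (j | j)
    exacts [h1 i j, h2 i j, h3 i j, h4 i j])
  simpa using this

lemma block_scale {u k : ℕ} (μ : ℝ) (A : Matrix (Fin u) (Fin u) ℝ) (B : Matrix (Fin u) (Fin k) ℝ)
    (C : Matrix (Fin k) (Fin u) ℝ) (D : Matrix (Fin k) (Fin k) ℝ) :
    μ ^ u * (fromBlocks A B C (μ • D)).det = (fromBlocks (μ • A) B C D).det * μ ^ k := by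
  have e : fromBlocks (μ • (1 : Matrix (Fin u) (Fin u) ℝ)) 0 0 (1 : Matrix (Fin k) (Fin k) ℝ) *
      fromBlocks A B C (μ • D) = fromBlocks (μ • A) B C D *
      fromBlocks (1 : Matrix (Fin u) (Fin u) ℝ) 0 0 (μ • (1 : Matrix (Fin k) (Fin k) ℝ)) := by
    simp [fromBlocks_multiply]
  have := congrArg Matrix.det e
  simpa [det_mul, det_fromBlocks_zero₂₁] using this

lemma gain {u k : ℕ} {K μ : ℝ} (hK : 1 ≤ K) (h0 : 0 ≤ μ) (h1 : μ ≤ 1) (hμ : u < k → 0 < μ)
    {P Q : Matrix (Fin u) (Fin u) ℝ} (hPQ : P * Q = 1) {V : Matrix (Fin u) (Fin k) ℝ}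
    {η : Matrix (Fin k) (Fin u) ℝ} {τ : Matrix (Fin k) (Fin k) ℝ} (hQ : ∀ i j, |Q i j| ≤ μ)
    (hV : ∀ i j, |V i j| ≤ K) (hη : ∀ i j, |η i j| ≤ K) (hτ : ∀ i j, |τ i j| ≤ K * μ) :
    |(η * P * V + τ).det| ≤ (u + k).factorial * K ^ (u + k) * μ ^ (k - u) * |P.det| := by
  let _ : Invertible Q := invertibleOfLeftInverse Q P hPQ
  have e1 : (fromBlocks Q (-V) η τ).det = Q.det * (η * P * V + τ).det := by
    rw [det_fromBlocks₁₁, show ⅟Q = P from rfl, Matrix.mul_neg, sub_neg_eq_add, add_comm]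
  have e2 : (η * P * V + τ).det = (fromBlocks Q (-V) η τ).det * P.det := by
    rw [e1, mul_right_comm, mul_comm Q.det, ← det_mul, hPQ, det_one, one_mul]
  have hV' : ∀ i j, |(-V) i j| ≤ K := fun i j => by rw [neg_apply, abs_neg]; exact hV i j
  rw [e2, abs_mul]
  refine mul_le_mul_of_nonneg_right ?_ (abs_nonneg _)
  rcases le_or_gt k u with hk | hk
  · rw [Nat.sub_eq_zero_of_le hk, pow_zero, mul_one]
    exact block_le (fun i j => (hQ i j).trans (h1.trans hK)) hV' hη
      fun i j => (hτ i j).trans (by nlinarith)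
  · have hp := hμ hk
    have e3 := block_scale μ Q (-V) η (μ⁻¹ • τ)
    rw [smul_smul, mul_inv_cancel₀ hp.ne', one_smul] at e3
    have e4 : (fromBlocks Q (-V) η τ).det =
        (fromBlocks (μ • Q) (-V) η (μ⁻¹ • τ)).det * μ ^ (k - u) := by
      refine mul_left_cancel₀ (pow_pos hp u).ne' ?_
      rw [e3, mul_left_comm, ← pow_add, Nat.add_sub_cancel' hk.le]
    rw [e4, abs_mul, abs_of_nonneg (pow_nonneg h0 _)]
    refine mul_le_mul_of_nonneg_right (block_le (fun i j => ?_) hV' hη fun i j => ?_)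
      (pow_nonneg h0 _)
    · rw [Matrix.smul_apply, smul_eq_mul, abs_mul, abs_of_nonneg h0]
      nlinarith [hQ i j, abs_nonneg (Q i j)]
    · rw [Matrix.smul_apply, smul_eq_mul, abs_mul, abs_of_nonneg (inv_nonneg.2 h0), inv_mul_le_iff₀ hp,
        mul_comm]
      exact hτ i j

lemma binet {u N : ℕ} (X : Matrix (Fin u) (Fin N) ℝ) (W : Matrix (Fin N) (Fin u) ℝ) :
    ∑ I : Fin u → Fin N, (X.submatrix id I).det * (W.submatrix I id).det =
      u.factorial * (X * W).det := by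
  have e1 : (X * W).det = ∑ I : Fin u → Fin N, (X.submatrix id I).det * ∏ i, W (I i) i := by
    simp only [det_apply', mul_apply, Finset.prod_univ_sum, Finset.mul_sum, Fintype.piFinset_univ,
      Finset.sum_mul, submatrix_apply, id, Finset.prod_mul_distrib, mul_assoc]
    exact Finset.sum_comm
  have e2 : ∀ σ : Equiv.Perm (Fin u), ∑ I : Fin u → Fin N, (X.submatrix id I).det *
      ((Equiv.Perm.sign σ : ℤ) * ∏ i, W (I (σ i)) i) = (X * W).det := by
    intro σ
    rw [e1]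
    refine Fintype.sum_equiv (Equiv.arrowCongr σ.symm (Equiv.refl _)) _ _ fun I => ?_
    have e3 : X.submatrix id (Equiv.arrowCongr σ.symm (Equiv.refl _) I) =
        (X.submatrix id I).submatrix id σ := rfl
    rw [e3, det_permute']
    simp only [Equiv.arrowCongr_apply, Equiv.symm_symm, Equiv.coe_refl, Function.comp, id]
    ring
  calc ∑ I : Fin u → Fin N, (X.submatrix id I).det * (W.submatrix I id).det
      = ∑ I : Fin u → Fin N, ∑ σ : Equiv.Perm (Fin u), (X.submatrix id I).det *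
          ((Equiv.Perm.sign σ : ℤ) * ∏ i, W (I (σ i)) i) :=
        Finset.sum_congr rfl fun I _ => by
          rw [det_apply' (W.submatrix I id), Finset.mul_sum]
          rfl
    _ = ∑ _σ : Equiv.Perm (Fin u), (X * W).det := by
        rw [Finset.sum_comm]
        exact Finset.sum_congr rfl fun σ _ => e2 σ
    _ = _ := by simp [Fintype.card_perm]

lemma dt_cons {W : Type*} [NormedAddCommGroup W] [NormedSpace ℝ W] {u : ℕ} (ζ : W →L[ℝ] ℝ)
    (ξ : Fin u → W →L[ℝ] ℝ) (w : Fin (u + 1) → W) :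
    dt (Fin.cons ζ ξ : Fin (u + 1) → W →L[ℝ] ℝ) w =
      ∑ j : Fin (u + 1), (-1) ^ (j : ℕ) * ζ (w j) * dt ξ fun l => w (j.succAbove l) := by
  unfold dt
  rw [det_succ_row_zero]
  rfl

end XLAX

theorem det_gain (u k : ℕ) (K : ℝ) : ∃ C, 0 < C ∧ ∀ (S : XX u →L[ℝ] XX u) (μ : ℝ)
    (ζ : Fin k → XX u →L[ℝ] ℝ) (v : Fin k → XX u) (τ : Fin k → Fin k → ℝ), 0 ≤ μ → μ ≤ 1 →
    (∀ x, ‖x‖ ≤ μ * ‖S x‖) → (∀ i x, |ζ i x| ≤ K * ‖S x‖) → (∀ j, ‖v j‖ ≤ K) →
    (∀ i j, |τ i j| ≤ K * μ) →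
    |(Matrix.of fun i j => ζ i (v j) + τ i j).det| ≤ C * μ ^ (k - u) * |S.det| := by
  have hK : 1 ≤ max K 1 := le_max_right _ _
  have hK' : K ≤ max K 1 := le_max_left _ _
  refine ⟨(u + k).factorial * max K 1 ^ (u + k), by positivity,
    fun S μ ζ v τ h0 h1 hS hζ hv hτ => ?_⟩
  by_cases hμ : u < k → 0 < μ
  swap
  · obtain ⟨a1, a2⟩ := Classical.not_imp.1 hμ
    obtain rfl : μ = 0 := le_antisymm (not_lt.1 a2) h0
    have : Nonempty (Fin k) := ⟨⟨u, a1⟩⟩
    have e : (Matrix.of fun i j => ζ i (v j) + τ i j) = 0 := by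
      ext i j
      have b1 : v j = 0 := by simpa using hS (v j)
      have b2 : τ i j = 0 := by simpa using hτ i j
      simp [b1, b2]
    rw [e, det_zero, abs_zero]
    positivity
  have hinj : Function.Injective (S : XX u →ₗ[ℝ] XX u) := by
    refine (injective_iff_map_eq_zero _).2 fun x hx => ?_
    have a1 := hS x
    rw [show S x = 0 from hx, norm_zero, mul_zero] at a1
    exact norm_le_zero_iff.1 a1
  choose x hx using fun l => LinearMap.injective_iff_surjective.1 hinj (bas u l)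
  have hx' : ∀ l, S (x l) = bas u l := hx
  have hb : ∀ l, ‖bas u l‖ = 1 := fun l => by simp [bas, Pi.norm_single]
  have hP : ∀ y, LinearMap.toMatrix' (S : XX u →ₗ[ℝ] XX u) *ᵥ y = S y := fun y =>
    LinearMap.toMatrix'_mulVec _ y
  have hdec : ∀ y, y = ∑ l, S y l • x l := by
    intro y
    refine hinj ?_
    show S y = S _
    rw [map_sum]
    ext p
    simp [hx', bas, Pi.single_apply]
  have key := XLAX.gain (P := LinearMap.toMatrix' (S : XX u →ₗ[ℝ] XX u))
    (Q := Matrix.of fun i l => x l i) (V := Matrix.of fun i j => v j i)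
    (η := Matrix.of fun i l => ζ i (x l)) (τ := Matrix.of τ) hK h0 h1 hμ ?_ ?_ ?_ ?_ ?_
  · rw [LinearMap.det_toMatrix'] at key
    have e : (Matrix.of fun i j => ζ i (v j) + τ i j) = (Matrix.of fun i l => ζ i (x l)) *
        LinearMap.toMatrix' (S : XX u →ₗ[ℝ] XX u) * (Matrix.of fun i j => v j i) +
        Matrix.of τ := by
      ext i j
      rw [Matrix.mul_assoc, Matrix.add_apply, mul_apply, of_apply, of_apply, hdec (v j), map_sum]
      congr 1
      refine Finset.sum_congr rfl fun l _ => ?_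
      rw [map_smul, smul_eq_mul, mul_comm, ← hP]
      rfl
    rw [e]
    exact key
  · ext i l
    have := congrFun (hP (x l)) i
    rw [hx', bas, Pi.single_apply] at this
    rw [one_apply]
    exact this
  · intro i l
    have := hS (x l)
    rw [hx', hb, mul_one] at this
    exact (norm_le_pi_norm (x l) i).trans this
  · exact fun i j => (norm_le_pi_norm (v j) i).trans ((hv j).trans hK')
  · intro i l
    have := hζ i (x l)
    rw [hx', hb, mul_one] at this
    exact this.trans hK'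
  · exact fun i j => (hτ i j).trans (mul_le_mul_of_nonneg_right hK' h0)

theorem binet {N u : ℕ} (ξ : Fin u → VV N →L[ℝ] ℝ) (w : Fin u → VV N) :
    ∑ I : Fin u → Fin N, dt ξ (fun j => evec (I j)) * dt (fun i => crd (I i)) w =
      u.factorial * dt ξ w := by
  have e : (Matrix.of fun i j => ξ i (w j)) =
      (Matrix.of fun i p => ξ i (evec p)) * Matrix.of fun p j => crd p (w j) := by
    ext i j
    have e1 : w j = ∑ p, crd p (w j) • evec p := by
      ext q
      simp [crd, evec, Pi.single_apply]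
    refine (congrArg (ξ i) e1).trans ?_
    rw [mul_apply, map_sum]
    exact Finset.sum_congr rfl fun p _ => by rw [map_smul, smul_eq_mul, mul_comm]; rfl
  have := XLAX.binet (Matrix.of fun i p => ξ i (evec p)) (Matrix.of fun p j => crd p (w j))
  rw [← e] at this
  exact this

theorem binet_cons {N u : ℕ} (ζ : VV N →L[ℝ] ℝ) (ξ : Fin u → VV N →L[ℝ] ℝ)
    (w : Fin (u + 1) → VV N) :
    ∑ I : Fin u → Fin N, dt ξ (fun j => evec (I j)) *
      dt (Fin.cons ζ fun i => crd (I i) : Fin (u + 1) → VV N →L[ℝ] ℝ) w =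
      u.factorial * dt (Fin.cons ζ ξ : Fin (u + 1) → VV N →L[ℝ] ℝ) w := by
  simp only [XLAX.dt_cons, Finset.mul_sum]
  rw [Finset.sum_comm]
  refine Finset.sum_congr rfl fun j _ => ?_
  rw [mul_left_comm, ← binet, Finset.mul_sum]
  exact Finset.sum_congr rfl fun I _ => by ring

/-- Expansion along the first row. -/
theorem dt_cons {W : Type*} [NormedAddCommGroup W] [NormedSpace ℝ W] {u : ℕ}
    (ξ : Fin u → W →L[ℝ] ℝ) (w : Fin (u + 1) → W) : ∃ c : Fin (u + 1) → ℝ, ∀ ζ : W →L[ℝ] ℝ,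
      dt (Fin.cons ζ ξ : Fin (u + 1) → W →L[ℝ] ℝ) w = ∑ j, c j * ζ (w j) :=
  ⟨fun j => (-1) ^ (j : ℕ) * dt ξ fun l => w (j.succAbove l), fun ζ => by
    rw [XLAX.dt_cons]
    exact Finset.sum_congr rfl fun j _ => by ring⟩


end Pool.Agent.P.MP_5c499f_an
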