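import Pool.Agent.P.MP_5c499f_an.XAmb
import Pool.Agent.Lib.Flow.Nemytskii

/-! Smooth limits of mollified densities. -/

set_option autoImplicit false

namespace Pool.Agent.P.MP_5c499f_an

open Filter Topology Metric MeasureTheory Matrix

namespace XLimX

/-- The limit functional along an ultrafilter. -/
lemma exists_fun {X : Type} [TopologicalSpace X] [CompactSpace X] [MeasurableSpace X]
    [OpensMeasurableSpace X] (μ : Measure X) [IsFiniteMeasure μ] (c : ℕ → C(X, ℝ)) {C : ℝ}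
    (𝒰 : Ultrafilter ℕ) (hb : ∀ᶠ n in (𝒰 : Filter ℕ), ∫ z, |c n z| ∂μ ≤ C) :
    ∃ Λ : C(X, ℝ) →L[ℝ] ℝ, ∀ f : C(X, ℝ),
      Tendsto (fun n => ∫ z, f z * c n z ∂μ) 𝒰 (𝓝 (Λ f)) := by
  have hi : ∀ g : X → ℝ, Continuous g → Integrable g μ := fun g hg =>
    (BoundedContinuousFunction.mkOfCompact ⟨g, hg⟩).integrable μ
  have h1 : ∀ f : C(X, ℝ), ∀ᶠ n in (𝒰 : Filter ℕ), ‖∫ z, f z * c n z ∂μ‖ ≤ C * ‖f‖ := by
    intro f
    filter_upwards [hb] with n hn
    calc ‖∫ z, f z * c n z ∂μ‖ ≤ ∫ z, ‖f‖ * |c n z| ∂μ := by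
          refine norm_integral_le_of_norm_le (hi _ (by fun_prop)) (Eventually.of_forall fun z => ?_)
          rw [norm_mul, Real.norm_eq_abs (c n z)]
          exact mul_le_mul_of_nonneg_right (f.norm_coe_le_norm z) (abs_nonneg _)
      _ = ‖f‖ * ∫ z, |c n z| ∂μ := integral_const_mul _ _
      _ ≤ ‖f‖ * C := mul_le_mul_of_nonneg_left hn (norm_nonneg _)
      _ = C * ‖f‖ := mul_comm _ _
  have h2 : ∀ f : C(X, ℝ), ∃ l, Tendsto (fun n => ∫ z, f z * c n z ∂μ) 𝒰 (𝓝 l) := by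
    intro f
    obtain ⟨l, -, hl⟩ := (isCompact_closedBall (0 : ℝ) (C * ‖f‖)).ultrafilter_le_nhds
      (𝒰.map fun n => ∫ z, f z * c n z ∂μ) (by
        rw [Ultrafilter.coe_map, le_principal_iff, mem_map]
        filter_upwards [h1 f] with n hn
        exact mem_closedBall_zero_iff.2 hn)
    exact ⟨l, hl⟩
  choose l hl using h2
  refine ⟨LinearMap.mkContinuous ⟨⟨l, fun f g => ?_⟩, fun t f => ?_⟩ C fun f => ?_, hl⟩
  · refine tendsto_nhds_unique (hl (f + g)) (((hl f).add (hl g)).congr fun n => ?_)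
    rw [← integral_add (hi _ (by fun_prop)) (hi _ (by fun_prop))]
    simp only [ContinuousMap.add_apply, add_mul]
  · refine tendsto_nhds_unique (hl (t • f)) (((hl f).const_mul t).congr fun n => ?_)
    rw [← integral_const_mul]
    simp only [ContinuousMap.smul_apply, smul_eq_mul, mul_assoc]
  · exact le_of_tendsto (hl f).norm (h1 f)

end XLimX

open XLimX Pool.Agent.Lib.Flow in
theorem exists_lim {N : ℕ} {ι : Type*} {K : Set (VV N)} (hK : IsCompact K)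
    {c : ℕ → ι → VV N → ℝ} (hc : ∀ n i, ContinuousOn (c n i) K) {C : ℝ}
    (hb : ∀ᶠ n in atTop, ∀ i, ∫ z in K, |c n i z| ≤ C) {ρ : VV N → ℝ}
    (hρ : ContDiff ℝ (⊤ : ℕ∞) ρ) :
    ∃ (w : ι → VV N → ℝ) (𝒰 : Filter ℕ), 𝒰.NeBot ∧ 𝒰 ≤ atTop ∧ ∀ i,
      ContDiff ℝ (⊤ : ℕ∞) (w i) ∧ ∀ y,
        Tendsto (fun n => ∫ z in K, ρ (y - z) * c n i z) 𝒰 (𝓝 (w i y)) ∧ ∀ v,
        Tendsto (fun n => ∫ z in K, fderiv ℝ ρ (y - z) v * c n i z) 𝒰
          (𝓝 (fderiv ℝ (w i) y v)) := by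
  haveI : CompactSpace K := isCompact_iff_compactSpace.1 hK
  let μ : Measure K := Measure.comap Subtype.val volume
  have hm := hK.measurableSet
  haveI : IsFiniteMeasure μ := ⟨by
    rw [(MeasurableEmbedding.subtype_coe hm).comap_apply, Set.image_univ, Subtype.range_coe]
    exact hK.measure_lt_top⟩
  have hμ : ∀ g : VV N → ℝ, ∫ z : K, g z ∂μ = ∫ z in K, g z := fun g =>
    integral_subtype_comap hm g
  let 𝒰 : Ultrafilter ℕ := Ultrafilter.of atTop
  have hU : (𝒰 : Filter ℕ) ≤ atTop := Ultrafilter.of_le _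
  let c' : ι → ℕ → C(K, ℝ) := fun i n => ⟨K.restrict (c n i), (hc n i).restrict⟩
  have := fun i => exists_fun μ (c' i) (C := C) 𝒰 (by
    filter_upwards [hU hb] with n hn
    exact (hμ fun z => |c n i z|).trans_le (hn i))
  choose Λ hΛ using this
  let ρ₀ : C(VV N, ℝ) := ⟨ρ, hρ.continuous⟩
  let ρ₁ : C(VV N, VV N →L[ℝ] ℝ) := ⟨fderiv ℝ ρ, hρ.continuous_fderiv (by simp)⟩
  let T : VV N →L[ℝ] C(K, VV N) := ContinuousLinearMap.const ℝ K
  let ν : C(K, VV N) := ⟨Subtype.val, continuous_subtype_val⟩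
  have hT : ∀ y (z : K), (T y - ν) z = y - z := fun _ _ => rfl
  refine ⟨fun i y => Λ i (ρ₀.comp (T y - ν)), 𝒰, inferInstance, hU, fun i => ⟨?_, fun y => ⟨?_,
    fun v => ?_⟩⟩⟩
  · exact (Λ i).contDiff.comp ((contDiff_postcomp ρ₀ hρ).comp (T.contDiff.sub contDiff_const))
  · exact (hΛ i _).congr fun n => hμ fun z => ρ (y - z) * c n i z
  · have h1 := (Λ i).hasFDerivAt.comp y ((hasFDerivAt_postcomp ρ₀ ρ₁
      (fun x => (hρ.differentiable (by simp) x).hasFDerivAt) (T y - ν)).comp y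
        (T.hasFDerivAt.sub_const ν))
    have h2 : fderiv ℝ (fun y => Λ i (ρ₀.comp (T y - ν))) y = _ := h1.fderiv
    rw [h2]
    exact (hΛ i _).congr fun n => hμ fun z => fderiv ℝ ρ (y - z) v * c n i z

theorem exists_ker {M : Type*} [MetricSpace M] [CompactSpace M] {N : ℕ} {e : M → VV N}
    (he : Continuous e) {s : ℝ} (hs : 0 < s) : ∃ ρ K, Ker e s ρ K := by
  let f : ContDiffBump (0 : VV N) := ⟨s / 2, s, half_pos hs, half_lt_self hs⟩
  refine ⟨f, (fun p : M × VV N => e p.1 + p.2) '' (Set.univ ×ˢ closedBall 0 s), hs, f.contDiff,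
    fun y => f.nonneg, fun y hy => f.one_of_mem_closedBall (mem_closedBall_zero_iff.2 hy),
    fun y hy => f.zero_of_le_dist (by rwa [dist_zero_right]),
    (isCompact_univ.prod (isCompact_closedBall _ _)).image (by fun_prop), fun y => ⟨?_, ?_⟩⟩
  · rintro ⟨⟨x, v⟩, ⟨-, hv⟩, rfl⟩
    exact ⟨x, by simpa using hv⟩
  · rintro ⟨x, hx⟩
    exact ⟨(x, y - e x), ⟨trivial, mem_closedBall_zero_iff.2 hx⟩, by simp⟩

end Pool.Agent.P.MP_5c499f_an
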