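import Pool.Agent.P.MP_5c499f_an.XCross

/-! Lower bound for the volume of iterated discs. -/

set_option autoImplicit false

namespace Pool.Agent.P.MP_5c499f_an

open Filter Topology Metric MeasureTheory Matrix

variable {M : Type*} [MetricSpace M] [CompactSpace M] {N u : ℕ} {e : M → VV N} {r : VV N → M}
  {U : Set (VV N)} {g : Equiv.Perm M} {Pr : M → VV N →L[ℝ] XX u} {Io : M → XX u →L[ℝ] VV N}
  {C₀ a : ℝ}

namespace XLowX

/-- The parameters of the disc whose orbits follow the orbit of `z`. -/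
def box (r : VV N → M) (g : M → M) (Io : M → XX u →L[ℝ] VV N) (x : M) (y₀ : VV N) (s η : ℝ)
    (n : ℕ) (z : M) : Set (XX u) :=
  {b | b ∈ closedBall (0 : XX u) s ∧ ∀ k ≤ n, dist (g^[k] (r (y₀ + Io x b))) (g^[k] z) ≤ η}

omit [CompactSpace M] in
lemma box_closed (A : Amb e r U g Pr Io C₀ a) {x : M} {y₀ : VV N} {s η : ℝ} (n : ℕ) (z : M)
    (hU : ∀ b ∈ closedBall (0 : XX u) s, y₀ + Io x b ∈ U) :
    IsClosed (box r g Io x y₀ s η n z) := by
  have e1 : box r g Io x y₀ s η n z = ⋂ k ∈ Set.Iic n, (closedBall (0 : XX u) s ∩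
      (fun b => g^[k] (r (y₀ + Io x b))) ⁻¹' closedBall (g^[k] z) η) := by
    ext b
    simp only [box, Set.mem_ofPred_eq, Set.mem_iInter, Set.mem_inter_iff, Set.mem_preimage,
      Set.mem_Iic, mem_closedBall]
    exact ⟨fun h k hk => ⟨h.1, h.2 k hk⟩, fun h => ⟨(h 0 (Nat.zero_le n)).1, fun k hk => (h k hk).2⟩⟩
  rw [e1]
  refine isClosed_biInter fun k _ => ?_
  refine ContinuousOn.preimage_isClosed_of_isClosed ?_ isClosed_closedBall isClosed_closedBall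
  refine (A.cont_g.iterate k).comp_continuousOn (A.cont_r.comp ?_ hU)
  exact (continuous_const.add (Io x).continuous).continuousOn

omit [CompactSpace M] in
lemma box_vol (A : Amb e r U g Pr Io C₀ a) {x : M} {y₀ : VV N} {s η τ : ℝ} (n : ℕ) (z : M)
    (hU : ∀ b ∈ closedBall (0 : XX u) s, y₀ + Io x b ∈ U) {j : XX u → ℝ}
    (hj : ∀ b ∈ closedBall (0 : XX u) s, Above (Dn e r g n (y₀ + Io x b) ∘L Io x) (j b))
    (hc : ∀ w : XX u, ‖w‖ ≤ τ → ∃ b : XX u, ‖b‖ ≤ s ∧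
      (∀ k ≤ n, dist (g^[k] (r (y₀ + Io x b))) (g^[k] z) ≤ η) ∧
      Pr (g^[n] z) (e (g^[n] (r (y₀ + Io x b))) - e (g^[n] z)) = w) :
    volume (closedBall (0 : XX u) (τ / C₀)) ≤
      ∫⁻ b in box r g Io x y₀ s η n z, ENNReal.ofReal (j b) := by
  have hC : 0 < C₀ := lt_of_lt_of_le one_pos A.one_le
  have hm : MeasurableSet (box r g Io x y₀ s η n z) := (box_closed A n z hU).measurableSet
  set Θ : XX u → XX u := fun b =>
    C₀⁻¹ • Pr (g^[n] z) (e (g^[n] (r (y₀ + Io x b))) - e (g^[n] z)) with hΘ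
  set Θ' : XX u → XX u →L[ℝ] XX u := fun b =>
    C₀⁻¹ • (Pr (g^[n] z) ∘L (Dn e r g n (y₀ + Io x b) ∘L Io x)) with hΘ'
  have hd : ∀ b ∈ box r g Io x y₀ s η n z, HasFDerivWithinAt Θ (Θ' b) (box r g Io x y₀ s η n z) b :=
    fun b hb => (((Pr (g^[n] z)).hasFDerivAt.comp b
      ((A.hasFDerivAt_disc x y₀ n (hU b hb.1)).sub_const (e (g^[n] z)))).const_smul
        C₀⁻¹).hasFDerivWithinAt
  have hsub : closedBall (0 : XX u) (τ / C₀) ⊆ Θ '' box r g Io x y₀ s η n z := by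
    intro w hw
    rw [mem_closedBall_zero_iff, le_div_iff₀ hC] at hw
    obtain ⟨b, b1, b2, b3⟩ := hc (C₀ • w) (by
      rw [norm_smul, Real.norm_eq_abs, abs_of_pos hC]
      linarith)
    refine ⟨b, ⟨mem_closedBall_zero_iff.2 b1, b2⟩, ?_⟩
    simp only [hΘ]
    rw [b3, smul_smul, inv_mul_cancel₀ hC.ne', one_smul]
  refine (measure_mono hsub).trans
    ((addHaar_image_le_lintegral_abs_det_fderiv volume hm hd).trans ?_)
  refine setLIntegral_mono' hm fun b hb => ENNReal.ofReal_le_ofReal ?_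
  refine hj b hb.1 (Θ' b) fun v => ?_
  simp only [hΘ', _root_.smul_apply, ContinuousLinearMap.comp_apply]
  rw [norm_smul, Real.norm_eq_abs, abs_of_pos (inv_pos.2 hC), inv_mul_le_iff₀ hC]
  exact A.n_pr _ _

end XLowX

theorem Amb.lowE (A : Amb e r U g Pr Io C₀ a) {H ε δ : ℝ} (h : Ent g H ε δ) :
    ∃ s₀, 0 < s₀ ∧ ∀ s, 0 < s → s ≤ s₀ → LowE e r g Io H s := by
  have hC : 0 < C₀ := lt_of_lt_of_le one_pos A.one_le
  obtain ⟨η, η0, hη⟩ := h.low
  obtain ⟨s₁, s1, hs₁⟩ := A.cross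
  obtain ⟨σ, σ0, hσ⟩ := A.near one_pos
  refine ⟨min s₁ (σ / (1 + C₀)), lt_min s1 (by positivity), fun s s0 hs s' s0' hs' => ?_⟩
  have hs1 : s ≤ s₁ := hs.trans (min_le_left _ _)
  have hs2 : s * (1 + C₀) ≤ σ := (le_div_iff₀ (by positivity)).1 (hs.trans (min_le_right _ _))
  obtain ⟨τ, ρ, τ0, ρ0, hcr⟩ := hs₁ s' (η / 2) s0' (hs'.trans hs1) (by positivity)
  obtain ⟨c, c0, hc⟩ := hη ρ ρ0
  have v0 : 0 < volume (closedBall (0 : XX u) (τ / C₀)) :=
    measure_closedBall_pos _ _ (by positivity)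
  have v1 : volume (closedBall (0 : XX u) (τ / C₀)) ≠ ⊤ := measure_closedBall_lt_top.ne
  refine ⟨c * (volume (closedBall (0 : XX u) (τ / C₀))).toReal,
    mul_pos c0 (ENNReal.toReal_pos v0.ne' v1), fun x y₀ n j hy hj => ?_⟩
  obtain ⟨E, E1, E2, E3⟩ := hc (r y₀) n
  have hU : ∀ b ∈ closedBall (0 : XX u) s', y₀ + Io x b ∈ U := by
    intro b hb
    rw [mem_closedBall_zero_iff] at hb
    refine (hσ x _ ?_).1
    have e1 : y₀ + Io x b - e x = (y₀ - e x) + Io x b := by abel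
    rw [e1]
    have := A.n_io x b
    have h2 : C₀ * ‖b‖ ≤ C₀ * s := mul_le_mul_of_nonneg_left (hb.trans hs') hC.le
    linarith [norm_add_le (y₀ - e x) (Io x b)]
  have hdis : (E : Set M).PairwiseDisjoint (XLowX.box r g Io x y₀ s' (η / 2) n) := by
    intro z hz z' hz' hne
    obtain ⟨k, hk, hlt⟩ := E3 hz hz' hne
    refine Set.disjoint_left.2 fun b hb hb' => ?_
    have d1 := hb.2 k hk
    have d2 := hb'.2 k hk
    linarith [dist_triangle_left (g^[k] z) (g^[k] z') (g^[k] (r (y₀ + Io x b)))]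
  have hsub : (⋃ z ∈ E, XLowX.box r g Io x y₀ s' (η / 2) n z) ⊆ closedBall (0 : XX u) s' :=
    Set.iUnion₂_subset fun z _ b hb => hb.1
  refine le_trans ?_ (lintegral_mono_set hsub)
  rw [lintegral_biUnion_finset hdis fun z _ => (XLowX.box_closed A n z hU).measurableSet]
  have h1 : ∑ _z ∈ E, volume (closedBall (0 : XX u) (τ / C₀)) ≤
      ∑ z ∈ E, ∫⁻ b in XLowX.box r g Io x y₀ s' (η / 2) n z, ENNReal.ofReal (j b) :=
    Finset.sum_le_sum fun z hz =>
      XLowX.box_vol A n z hU hj (hcr x y₀ z n (hy.trans hs1) (E2 z hz))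
  refine le_trans ?_ h1
  have hH : 0 ≤ c * H ^ n := mul_nonneg c0.le (pow_nonneg (zero_le_one.trans h.one_le) _)
  rw [Finset.sum_const, nsmul_eq_mul, mul_right_comm, ENNReal.ofReal_mul hH,
    ENNReal.ofReal_toReal v1]
  refine mul_le_mul_left ?_ _
  rw [← ENNReal.ofReal_natCast]
  exact ENNReal.ofReal_le_ofReal E1

end Pool.Agent.P.MP_5c499f_an
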