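import Pool.Agent.P.MP_5c499f_an.XAmb

/-! A hyperbolic map without wandering points is mixing. -/

set_option autoImplicit false

namespace Pool.Agent.P.MP_5c499f_an

open Filter Topology Metric MeasureTheory Matrix

namespace XMixX

variable {M : Type*} [MetricSpace M]

lemma pseudo {f : Equiv.Perm M} (h : UniformContinuous f) (K : ℕ) : ∀ η, 0 < η → ∃ η', 0 < η' ∧
    ∀ q : ℤ → M, (∀ m, dist (f (q m)) (q (m + 1)) ≤ η') →
      ∀ m, dist ((f ^ K) (q m)) (q (m + K)) ≤ η := by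
  induction K with
  | zero => exact fun η hη => ⟨1, one_pos, fun q _ m => by simpa using hη.le⟩
  | succ K ih =>
    intro η hη
    obtain ⟨θ, hθ, h1⟩ := Metric.uniformContinuous_iff_le.1 h (η / 2) (by positivity)
    obtain ⟨η', hη', h2⟩ := ih θ hθ
    refine ⟨min η' (η / 2), by positivity, fun q hq m => ?_⟩
    have h3 := h1 (h2 q (fun m => (hq m).trans (min_le_left _ _)) m)
    have h4 := (hq (m + K)).trans (min_le_right _ _)
    rw [pow_succ', Equiv.Perm.mul_apply, Nat.cast_succ, ← add_assoc]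
    linarith [dist_triangle (f ((f ^ K) (q m))) (f (q (m + K))) (q (m + K + 1))]

/-- periodic points -/
def Per (g : Equiv.Perm M) : Set M := {z | ∃ n : ℕ, 0 < n ∧ (g ^ (n : ℤ)) z = z}

omit [MetricSpace M] in
lemma per_mul {g : Equiv.Perm M} {z : M} {n : ℤ} (h : (g ^ n) z = z) (t : ℤ) :
    (g ^ (n * t)) z = z := by
  rw [_root_.zpow_mul]
  exact Equiv.Perm.zpow_apply_eq_self_of_apply_eq_self h t

lemma dense_per {f : Equiv.Perm M} (h : UniformContinuous f) {K : ℕ} {ε δ C a b : ℝ}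
    (lh : LH (f ^ K) ε δ C a b) (sh : Shad (f ^ K))
    (nw : ∀ U : Set M, IsOpen U → U.Nonempty → ∃ n, 0 < n ∧ (f^[n] '' U ∩ U).Nonempty) :
    Dense (Per (f ^ K)) := by
  rw [Metric.dense_iff]
  intro x r hr
  have hε := lh.ε_pos
  obtain ⟨η, hη, h1⟩ := sh (min (r / 2) (2 * ε)) (by positivity)
  obtain ⟨η', hη', h2⟩ := pseudo h K η hη
  obtain ⟨n, hn, _, ⟨y, hy, rfl⟩, hy'⟩ := nw (ball x (min (r / 2) (η' / 2))) isOpen_ball
    (nonempty_ball.2 (by positivity))
  rw [mem_ball, lt_min_iff] at hy hy'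
  have hn' : (0 : ℤ) < n := by exact_mod_cast hn
  let q : ℤ → M := fun m => (f ^ (m % n)) y
  have hq : ∀ m, dist (f (q m)) (q (m + 1)) ≤ η' := by
    intro m
    have e1 := Int.emod_nonneg m hn'.ne'
    have e2 := Int.emod_lt_of_pos m hn'
    have e3 : (m + 1) % n = (m % n + 1) % n := (Int.emod_add_emod m n 1).symm
    simp only [q, ← zpow_succ_apply, e3]
    rcases (Int.add_one_le_of_lt e2).eq_or_lt with e | e
    · rw [e, Int.emod_self, zpow_zero, zpow_natCast, Equiv.Perm.coe_pow]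
      simp only [Equiv.Perm.coe_one, id]
      linarith [dist_triangle_right (f^[n] y) y x, hy.2, hy'.2]
    · rw [Int.emod_eq_of_lt (by omega) e, dist_self]
      exact hη'.le
  obtain ⟨z, hz⟩ := h1 (fun k => q (k * K)) fun k => by
    rw [add_mul, one_mul]; exact h2 q hq _
  refine ⟨z, ?_, n, hn, lh.expansive fun k => ?_⟩
  · have := (hz 0).trans (min_le_left _ _)
    simp only [zpow_zero, Equiv.Perm.coe_one, id, zero_mul, q, Int.zero_emod] at this
    rw [mem_ball]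
    linarith [dist_triangle z y x, hy.1]
  · have e : q ((k + n) * K) = q (k * K) := by
      simp only [q, add_mul, Int.add_mul_emod_self_left]
    have t1 := (hz (k + n)).trans (min_le_right _ _)
    have t2 := (hz k).trans (min_le_right _ _)
    rw [zpow_apply_zpow]
    simp only [e] at t1
    linarith [dist_triangle_right (((f ^ K) ^ (k + n)) z) (((f ^ K) ^ k) z) (q (k * K))]

/-- the unstable set -/
def WU (g : Equiv.Perm M) (p : M) : Set M := {w | ∀ r, 0 < r → ∃ T : ℕ, Un g (-T) r w p}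

lemma small {C a : ℝ} (h0 : 0 ≤ a) (h1 : a < 1) {r : ℝ} (hr : 0 < r) :
    ∀ᶠ j : ℕ in atTop, C * a ^ j < r := by
  have : Tendsto (fun j : ℕ => C * a ^ j) atTop (𝓝 (C * 0)) :=
    (tendsto_pow_atTop_nhds_zero_of_lt_one h0 h1).const_mul C
  exact this.eventually_lt_const (by simpa using hr)

lemma dense_WU [ConnectedSpace M] {g : Equiv.Perm M} {ε δ C a b : ℝ} (lh : LH g ε δ C a b)
    (hd : Dense (Per g)) {p : M} (hp : p ∈ Per g) : Dense (WU g p) := by
  obtain ⟨n, hn, hp⟩ := hp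
  have hε := lh.ε_pos
  have key : ∀ x ∈ closure (WU g p), ball x δ ⊆ closure (WU g p) := by
    intro x hx
    refine (hd.open_subset_closure_inter isOpen_ball).trans (closure_minimal ?_ isClosed_closure)
    rintro q ⟨hq, m, hm, hq'⟩
    obtain ⟨w, hw, hw'⟩ := Metric.mem_closure_iff.1 hx δ lh.δ_pos
    obtain ⟨z, h1, h2⟩ := lh.br q w (by linarith [dist_triangle q x w, mem_ball.1 hq])
    rw [Metric.mem_closure_iff]
    intro s hs
    obtain ⟨t, ht⟩ := (small (C := C) lh.a_nonneg lh.a_lt hs).exists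
    refine ⟨(g ^ ((m : ℤ) * (n * t))) z, fun r hr => ?_, ?_⟩
    · obtain ⟨T, hT⟩ := hw (r / 2) (by positivity)
      obtain ⟨j, hj⟩ := (small (C := C) lh.b_nonneg lh.b_lt (half_pos hr)).exists
      have e1 := (lh.cu' (h2.mono le_rfl (by linarith)) j).mono
        (k₁ := -((T + j : ℕ) : ℤ)) (by push_cast; omega) hj.le
      have e2 := e1.trans (hT.mono (k₁ := -((T + j : ℕ) : ℤ)) (by push_cast; omega) le_rfl)
      refine ⟨T + j + m * (n * t), ?_⟩
      have e3 : (g ^ ((m : ℤ) * (n * t))) p = p := by rw [mul_left_comm]; exact per_mul hp _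
      rw [← e3, Un_shift]
      exact e2.mono (by push_cast; omega) (by linarith)
    · have e1 := lh.cs' (h1.mono le_rfl (by linarith)) t ((m : ℤ) * (n * t)) (by
        have : t ≤ m * (n * t) := Nat.le_mul_of_pos_left _ hn |>.trans (Nat.le_mul_of_pos_left _ hm)
        rw [zero_add]
        exact_mod_cast this)
      rw [per_mul hq'] at e1
      rw [dist_comm]
      exact e1.trans_lt ht
  have hop : IsOpen (closure (WU g p)) := Metric.isOpen_iff.2 fun x hx => ⟨δ, lh.δ_pos, key x hx⟩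
  exact dense_iff_closure_eq.2 (IsClopen.eq_univ ⟨isClosed_closure, hop⟩
    ⟨p, subset_closure fun r hr => ⟨0, Un.refl _ hr.le p⟩⟩)

lemma net [CompactSpace M] {D : Set M} (hd : Dense D) {r : ℝ} (hr : 0 < r) :
    ∃ P : Finset D, ∀ x : M, ∃ q ∈ P, dist x (q : M) < r := by
  obtain ⟨P, hP⟩ := isCompact_univ.elim_finite_subcover (fun q : D => ball (q : M) r)
    (fun _ => isOpen_ball) fun x _ => by
      obtain ⟨q, h1, h2⟩ := hd.exists_dist_lt x hr
      exact Set.mem_iUnion.2 ⟨⟨q, h1⟩, h2⟩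
  refine ⟨P, fun x => ?_⟩
  simpa using hP (Set.mem_univ x)

end XMixX

open XMixX in
theorem mix_of_nw {M : Type*} [MetricSpace M] [CompactSpace M] [ConnectedSpace M]
    {f : Equiv.Perm M} (h1 : Continuous f) (h2 : Continuous (f⁻¹ : Equiv.Perm M)) {K : ℕ}
    (hK : 0 < K) {a b Λ Λ' : ℝ} (hy : Hyp (f ^ K) a b Λ Λ') (sh : Shad (f ^ K))
    (nw : ∀ U : Set M, IsOpen U → U.Nonempty → ∃ n, 0 < n ∧ (f^[n] '' U ∩ U).Nonempty) :
    MixM (f ^ K) := by
  have _ := h2
  have _ := hK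
  intro ρ η hρ hη
  obtain ⟨ε, δ, C, hε, lh⟩ := hy.lh (min ρ (η / 2)) (by positivity)
  rw [le_min_iff] at hε
  have hd := dense_per (CompactSpace.uniformContinuous_of_continuous h1) lh sh nw
  set g := f ^ K
  obtain ⟨P, hP⟩ := net hd lh.δ_pos
  obtain ⟨N, hN⟩ := net (dense_univ (X := M)) (show 0 < η / 4 by positivity)
  have key : ∀ q ∈ Per g, ∀ᶠ L : ℕ in atTop, ∀ x', ∃ v, Un g 0 δ v q ∧
      dist ((g ^ (L : ℤ)) v) x' ≤ η / 2 := by
    rintro q ⟨n, hn, hq⟩
    have h3 : ∀ (i : ℕ) (y : M), ∀ᶠ L : ℕ in atTop, ∃ w, Un g (-L) δ w ((g ^ (i : ℤ)) q) ∧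
        dist y w < η / 4 := by
      intro i y
      obtain ⟨w, h4, h5⟩ := (dense_WU lh hd (p := (g ^ (i : ℤ)) q) ⟨n, hn, by
        rw [zpow_apply_zpow, add_comm, ← zpow_apply_zpow, hq]⟩).exists_dist_lt y
        (show 0 < η / 4 by positivity)
      obtain ⟨T, hT⟩ := h4 δ lh.δ_pos
      filter_upwards [eventually_ge_atTop T] with L hL
      exact ⟨w, hT.mono (by omega) le_rfl, h5⟩
    filter_upwards [(eventually_all_finset (Finset.range n)).2 fun i _ =>
      (eventually_all_finset N).2 fun y _ => h3 i y] with L hL x'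
    obtain ⟨y, hy1, hy2⟩ := hN x'
    obtain ⟨w, h4, h5⟩ := hL (L % n) (Finset.mem_range.2 (Nat.mod_lt _ hn)) y hy1
    have e1 : (g ^ (L : ℤ)) ((g ^ (-L : ℤ)) w) = w := by rw [zpow_apply_zpow]; simp
    have e2 : (g ^ ((L % n : ℕ) : ℤ)) q = (g ^ (L : ℤ)) q := by
      conv_rhs => rw [← Nat.mod_add_div L n, Nat.cast_add, ← zpow_apply_zpow, Nat.cast_mul,
        per_mul hq]
    refine ⟨(g ^ (-L : ℤ)) w, ?_, ?_⟩
    · rw [e2, ← e1, Un_shift, neg_add_cancel] at h4
      exact h4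
    · rw [e1]
      linarith [dist_triangle x' y w, dist_comm w x']
  obtain ⟨L₀, hL⟩ := eventually_atTop.1 ((eventually_all_finset P).2 fun q _ => key q q.2)
  refine ⟨L₀, fun L h x x' => ?_⟩
  obtain ⟨q, h3, h4⟩ := hP x
  obtain ⟨v, h5, h6⟩ := hL L h q h3 x'
  have h7 : dist v q ≤ δ := by simpa using h5 0 le_rfl
  obtain ⟨w, h8, h9⟩ := lh.br v x (by linarith [dist_triangle_right v x q])
  refine ⟨w, h9.mono le_rfl hε.1, ?_⟩
  linarith [dist_triangle ((g ^ (L : ℤ)) w) ((g ^ (L : ℤ)) v) x', h8 L (by omega), hε.2]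


end Pool.Agent.P.MP_5c499f_an
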