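import Pool.Agent.P.MP_5c499f_an.XTop
import Pool.Agent.P.MP_5c499f_an.XCore
import Pool.Agent.P.MP_5c499f_an.XEmb
import Pool.Agent.P.MP_5c499f_an.XBridge
import Pool.Agent.P.MP_5c499f_an.XForm
import Pool.Agent.P.MP_5c499f_an.XMix
import Pool.Agent.P.MP_5c499f_an.HMain

/-! Assembly. -/

set_option autoImplicit false

namespace Pool.Agent.P.MP_5c499f_an

open Bundle Filter Topology
open scoped Manifold ContDiff

lemma exists_rep {Γ : Type*} [Group Γ] {d : ℕ} {A : Γ → Fin d → ℝ}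
    (h1 : ∀ γ γ', A (γ * γ') = A γ + A γ') (h2 : ∀ γ, A γ = 0 → γ = 1) :
    ∃ ρ : Γ →* GL (Fin d) ℂ, Function.Injective ρ := by
  have h0 : A 1 = 0 := by simpa using h1 1 1
  let φ : Γ →* Matrix (Fin d) (Fin d) ℂ :=
    { toFun := fun γ => Matrix.diagonal fun k => (Real.exp (A γ k) : ℂ)
      map_one' := by simp [h0]
      map_mul' := fun γ γ' => by
        simp only [h1, Matrix.diagonal_mul_diagonal, Pi.add_apply, Real.exp_add, Complex.ofReal_mul] }
  refine ⟨φ.toHomUnits, (injective_iff_map_eq_one _).2 fun γ e => h2 γ (funext fun k => ?_)⟩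
  have e1 : (Matrix.diagonal fun k => (Real.exp (A γ k) : ℂ)) = 1 := congrArg Units.val e
  have e2 := congrFun (congrFun e1 k) k
  rw [Matrix.diagonal_apply_eq, Matrix.one_apply_eq, Complex.ofReal_eq_one, Real.exp_eq_one_iff] at e2
  exact e2

theorem cup_infranil {E : Type*} [NormedAddCommGroup E] [NormedSpace ℝ E] [FiniteDimensional ℝ E]
    {M : Type*} [TopologicalSpace M] [T2Space M] [CompactSpace M] [ConnectedSpace M]
    [ChartedSpace E M] [IsManifold 𝓘(ℝ, E) ∞ M]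
    [RiemannianBundle fun x : M => TangentSpace 𝓘(ℝ, E) x]
    [IsContinuousRiemannianBundle E fun x : M => TangentSpace 𝓘(ℝ, E) x]
    (f : Diffeomorph 𝓘(ℝ, E) 𝓘(ℝ, E) M M 1) (hf : IsAnosov E f)
    (nw : ∀ U : Set M, IsOpen U → U.Nonempty → ∃ n, 0 < n ∧ (f^[n] '' U ∩ U).Nonempty)
    {k : ℕ} (ho : Oriented E f.symm k) (hc : CupGen E M k) : InfranilConj f := by
  obtain ⟨n, e, e1, e2, e3⟩ := exists_embedding_euclidean_of_compact (I := 𝓘(ℝ, E)) (M := M)
  let _ := e2.isEmbedding.comapMetricSpace e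
  have he : ∀ x y : M, dist x y = ‖e x - e y‖ := fun x y => dist_eq_norm (e x) (e y)
  obtain ⟨r, U, em⟩ := exists_emb he e1 e3
  obtain ⟨α, a1, a2⟩ := ho
  choose v v1 v2 using a2
  obtain ⟨Pr, Io, C₀, b1, b2⟩ := exists_amb em f hf fun x => ⟨v x, Form.indep (v1 x), v2 x⟩
  obtain ⟨⟨σ, C₁, loc⟩, b3⟩ := core'' he (e1.of_le (by simp)) e3 f hf
  obtain ⟨K, k0, ⟨a, A⟩, a', b', Λ, Λ', hy, sh⟩ := ((eventually_gt_atTop 0).and (b2.and b3)).exists
  have := ChartedSpace.locallyPathConnectedSpace E M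
  have : PathConnectedSpace M := pathConnectedSpace_iff_connectedSpace.2 inferInstance
  obtain ⟨x₀⟩ : Nonempty M := inferInstance
  obtain ⟨G, Φ, g1, g2, g3, g4⟩ := loc.lift f.toHomeomorph x₀
  have := Cov.simplyConn (h := loc) (x₀ := x₀)
  have := (Cov.isCov (h := loc) (x₀ := x₀)).locPath
  have surj : Function.Surjective (Cov.pt : Cov loc x₀ → M) := Cov.quot.surjective
  obtain ⟨T, t1, t2⟩ := Cov.isCov.fg Cov.dist_smul Cov.smul_pt Cov.free Cov.transitive surj _
    fun _ => Cov.reach'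
  obtain ⟨gps, d, A', c1, c2⟩ := top (F := G ^ K) (Φ := Φ ^ K) A Cov.isCov Cov.dist_smul Cov.smul_pt
    Cov.free Cov.transitive surj
    (fun y => by simpa using semiconj_zpow (F := f.toEquiv) g1 K y)
    (by simpa using uc_zpow g2 g3 K) (by simpa using uc_zpow g2 g3 (-K))
    (fun γ y => by simpa using equiv_zpow (act := fun γ y => γ • y) g4 K γ y) hy
    (mix_of_nw f.continuous f.symm.continuous k0 hy sh nw) t1 t2
    (fun t => em.contDiffOn ((a1 t).1.of_le (by simp)))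
    (fun t i => em.contDiffOn (((a1 t).2 i).of_le (by simp)))
    (fun x => em.ori a1 (v1 x) fun j => (b1 x _).1 ((v2 x _).2 (Submodule.subset_span ⟨j, rfl⟩)))
    (em.cup hc)
  obtain ⟨ρ, hρ⟩ := exists_rep c1 c2
  have : IsIsometricSMul (FundamentalGroup M x₀) (Cov loc x₀) :=
    ⟨fun γ => Isometry.of_dist_eq (Cov.dist_smul γ)⟩
  refine gps_linear_deck f hf Cov.quot ⟨G, g2.continuous, g3.continuous⟩ g1 (fun x y => ?_) ρ hρ
  have := gps x y
  simp only [← inv_pow, Equiv.Perm.coe_pow, Asym.of_pow g2 k0, Asym.of_pow g3 k0] at this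
  exact this

end Pool.Agent.P.MP_5c499f_an
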