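import Mathlib

set_option autoImplicit false

noncomputable section

open MeasureTheory Set Module Filter Topology

namespace Pool.Agent.P.MP_5c499f_an.Wn

namespace Stk

theorem integral_fderiv_zero {X 𝕜 : Type} [NormedAddCommGroup X] [NormedSpace ℝ X]
    [FiniteDimensional ℝ X] [MeasurableSpace X] [BorelSpace X] (μ : Measure X)
    [μ.IsAddHaarMeasure] [RCLike 𝕜] {f : X → 𝕜} (hf : ContDiff ℝ 1 f) (hc : HasCompactSupport f)
    (v : X) : Integrable (fun x => fderiv ℝ f x v) μ ∧ ∫ x, fderiv ℝ f x v ∂μ = 0 := by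
  have hi : Integrable (fun x => fderiv ℝ f x v) μ := by
    have h1 : Continuous (fun x => fderiv ℝ f x v) :=
      (hf.continuous_fderiv one_ne_zero).clm_apply continuous_const
    exact h1.integrable_of_hasCompactSupport (hc.fderiv_apply ℝ v)
  refine ⟨hi, ?_⟩
  have := integral_mul_fderiv_eq_neg_fderiv_mul_of_integrable (μ := μ) (f := fun _ : X => (1 : 𝕜))
    (g := f) (v := v) (by simp) (by simpa using hi)
    (by simpa using hf.continuous.integrable_of_hasCompactSupport hc)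
    (fun x _ => differentiableAt_const _) (fun x _ => hf.differentiable one_ne_zero x)
  simpa using this

/-- the algebraic cancellation -/
theorem piola {ρ R : Type} [Fintype ρ] [DecidableEq ρ] [CommRing R] [NoZeroDivisors R]
    [CharZero R] (M : ρ → ρ → R) (S : ρ → ρ → R) (hS : ∀ b c, S b c = S c b) {a₀ a₁ : ρ}
    (h : a₁ ≠ a₀) :
    ∑ σ : Equiv.Perm ρ, ((Equiv.Perm.sign σ : ℤ) : R) *
      ((∏ a ∈ (Finset.univ.erase a₀).erase a₁, M a (σ a)) * S (σ a₀) (σ a₁)) = 0 := by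
  set t : Equiv.Perm ρ → R := fun σ => ((Equiv.Perm.sign σ : ℤ) : R) *
      ((∏ a ∈ (Finset.univ.erase a₀).erase a₁, M a (σ a)) * S (σ a₀) (σ a₁)) with ht
  have h1 : ∀ σ, t (σ * Equiv.swap a₀ a₁) = - t σ := by
    intro σ
    have hp : ∏ a ∈ (Finset.univ.erase a₀).erase a₁, M a ((σ * Equiv.swap a₀ a₁) a) =
        ∏ a ∈ (Finset.univ.erase a₀).erase a₁, M a (σ a) := by
      refine Finset.prod_congr rfl fun a ha => ?_
      simp only [Finset.mem_erase] at ha
      rw [Equiv.Perm.mul_apply, Equiv.swap_apply_of_ne_of_ne ha.2.1 ha.1]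
    simp only [ht]
    rw [hp]
    simp only [Equiv.Perm.sign_mul, Equiv.Perm.sign_swap h.symm, Equiv.Perm.mul_apply,
      Equiv.swap_apply_left, Equiv.swap_apply_right]
    rw [hS (σ a₁) (σ a₀)]
    simp
  have h2 : ∑ σ, t σ = ∑ σ, t (σ * Equiv.swap a₀ a₁) :=
    (Equiv.sum_comp (Equiv.mulRight (Equiv.swap a₀ a₁)) t).symm
  simp only [h1, Finset.sum_neg_distrib] at h2
  have h3 : (2 : R) * ∑ σ, t σ = 0 := by linear_combination h2
  exact (mul_eq_zero.1 h3).resolve_left two_ne_zero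

theorem exists_cutoff {X : Type} [NormedAddCommGroup X] [NormedSpace ℝ X]
    [FiniteDimensional ℝ X] {K O : Set X} (hK : IsCompact K) (hO : IsOpen O) (hKO : K ⊆ O) :
    ∃ χ : X → ℝ, ContDiff ℝ 2 χ ∧ IsCompact (tsupport χ) ∧ tsupport χ ⊆ O ∧
      (∀ᶠ x in 𝓝ˢ K, χ x = 1) ∧ ∀ x, χ x ∈ Icc (0 : ℝ) 1 := by
  obtain ⟨L, hL, hKL, hLO⟩ := exists_compact_between hK hO hKO
  obtain ⟨f, h1, h0, h01⟩ := exists_contMDiffMap_one_nhds_of_subset_interior (n := 2)
    (modelWithCornersSelf ℝ X) hK.isClosed hKL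
  have hs : tsupport f ⊆ L :=
    closure_minimal (s := Function.support f) (fun x hx => by_contra fun h => hx (h0 x h))
      hL.isClosed
  exact ⟨f, f.contMDiff.contDiff, hL.of_isClosed_subset (isClosed_tsupport _) hs, hs.trans hLO,
    h1, h01⟩

theorem det_rows {X ρ : Type} [NormedAddCommGroup X] [NormedSpace ℝ X] [Fintype ρ]
    [DecidableEq ρ] (ε : Basis ρ ℝ X) (r : ρ → X →L[ℝ] ℝ) :
    (∑ a, (r a).smulRight (ε a)).det = (Matrix.of fun a b => r a (ε b)).det := by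
  rw [ContinuousLinearMap.det, ← LinearMap.det_toMatrix ε]
  congr 1
  ext a b
  simp [LinearMap.toMatrix_apply, Finsupp.single_apply]

end Stk

open Stk in
/-- null Lagrangian with values in `ℝ` or `ℂ` -/
theorem integral_det_eq_zero' {X ρ 𝕜 : Type} [NormedAddCommGroup X] [NormedSpace ℝ X]
    [FiniteDimensional ℝ X] [MeasurableSpace X] [BorelSpace X] (μ : Measure X)
    [μ.IsAddHaarMeasure] [Fintype ρ] [DecidableEq ρ] [RCLike 𝕜] (ε : ρ → X) {U : Set X}
    (hU : IsOpen U) (g : ρ → X → 𝕜) (hg : ∀ a, ContDiffOn ℝ 2 (g a) U) (a₀ : ρ) {K : Set X}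
    (hK : IsCompact K) (hKU : K ⊆ U) (h0 : ∀ x ∈ U \ K, g a₀ x = 0) :
    IntegrableOn (fun x => (Matrix.of fun a b => fderiv ℝ (g a) x (ε b)).det) U μ ∧
    ∫ x in U, (Matrix.of fun a b => fderiv ℝ (g a) x (ε b)).det ∂μ = 0 := by
  classical
  have hga : ∀ a, ∀ x ∈ U, ContDiffAt ℝ 2 (g a) x := fun a x hx =>
    (hg a x hx).contDiffAt (hU.mem_nhds hx)
  have hd : ∀ a (v : X), ∀ x ∈ U, ContDiffAt ℝ 1 (fun y => fderiv ℝ (g a) y v) x :=
    fun a v x hx => ((hga a x hx).fderiv_right (m := 1) (by norm_num)).clm_apply contDiffAt_const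
  let p : Equiv.Perm ρ → X → 𝕜 := fun σ x =>
    g a₀ x * ∏ a ∈ Finset.univ.erase a₀, fderiv ℝ (g a) x (ε (σ a))
  let f : Equiv.Perm ρ → X → 𝕜 := fun σ => U.indicator (p σ)
  have hfU : ∀ σ, ∀ x ∈ U, f σ =ᶠ[𝓝 x] p σ := fun σ x hx => by
    filter_upwards [hU.mem_nhds hx] with y hy using indicator_of_mem hy _
  have hf0 : ∀ σ, ∀ x ∉ K, f σ x = 0 := fun σ x hx => by
    by_cases hxU : x ∈ U
    · simp [f, p, indicator_of_mem hxU, h0 x ⟨hxU, hx⟩]
    · simp [f, indicator_of_notMem hxU]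
  have hfK : ∀ σ, ∀ x ∉ K, f σ =ᶠ[𝓝 x] fun _ => 0 := fun σ x hx => by
    filter_upwards [hK.isClosed.isOpen_compl.mem_nhds hx] with y hy using hf0 σ y hy
  have hfc : ∀ σ, ContDiff ℝ 1 (f σ) := fun σ => by
    rw [contDiff_iff_contDiffAt]
    intro x
    by_cases hx : x ∈ U
    · refine ContDiffAt.congr_of_eventuallyEq ?_ (hfU σ x hx)
      exact ((hga a₀ x hx).of_le (by norm_num)).mul (contDiffAt_prod fun a _ => hd a _ x hx)
    · exact contDiffAt_const.congr_of_eventuallyEq (hfK σ x fun h => hx (hKU h))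
  have hfs : ∀ σ, HasCompactSupport (f σ) := fun σ => HasCompactSupport.intro hK (hf0 σ)
  have key : ∀ x ∈ U, (Matrix.of fun a b => fderiv ℝ (g a) x (ε b)).det =
      ∑ σ : Equiv.Perm ρ, ((Equiv.Perm.sign σ : ℤ) : 𝕜) * fderiv ℝ (f σ) x (ε (σ a₀)) := by
    intro x hx
    have hD : ∀ a (v w : X), fderiv ℝ (fun y => fderiv ℝ (g a) y v) x w =
        fderiv ℝ (fderiv ℝ (g a)) x w v := by
      intro a v w
      have h1 : DifferentiableAt ℝ (fderiv ℝ (g a)) x :=
        ((hga a x hx).fderiv_right (m := 1) (by norm_num)).differentiableAt one_ne_zero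
      rw [fderiv_clm_apply h1 (differentiableAt_const v)]
      simp
    have hp : ∀ σ : Equiv.Perm ρ, fderiv ℝ (f σ) x (ε (σ a₀)) =
        (∏ a, fderiv ℝ (g a) x (ε (σ a))) + g a₀ x * ∑ a₁ ∈ Finset.univ.erase a₀,
          (∏ a ∈ (Finset.univ.erase a₀).erase a₁, fderiv ℝ (g a) x (ε (σ a))) *
            fderiv ℝ (fderiv ℝ (g a₁)) x (ε (σ a₀)) (ε (σ a₁)) := by
      intro σ
      rw [(hfU σ x hx).fderiv_eq]
      have h1 := HasFDerivAt.finsetProd (u := Finset.univ.erase a₀)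
        (g := fun a y => fderiv ℝ (g a) y (ε (σ a)))
        (fun a _ => ((hd a (ε (σ a)) x hx).differentiableAt one_ne_zero).hasFDerivAt)
      have h2 := (((hga a₀ x hx).differentiableAt two_ne_zero).hasFDerivAt).mul h1
      have h3 : p σ = g a₀ * fun y => ∏ a ∈ Finset.univ.erase a₀, fderiv ℝ (g a) y (ε (σ a)) :=
        rfl
      rw [h3, h2.fderiv, ← Finset.mul_prod_erase Finset.univ _ (Finset.mem_univ a₀)]
      simp only [add_apply, smul_apply, smul_eq_mul, sum_apply, hD]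
      ring
    simp only [hp, mul_add, Finset.sum_add_distrib]
    have h4 : ∑ σ : Equiv.Perm ρ, ((Equiv.Perm.sign σ : ℤ) : 𝕜) * (g a₀ x *
        ∑ a₁ ∈ Finset.univ.erase a₀,
          (∏ a ∈ (Finset.univ.erase a₀).erase a₁, fderiv ℝ (g a) x (ε (σ a))) *
            fderiv ℝ (fderiv ℝ (g a₁)) x (ε (σ a₀)) (ε (σ a₁))) = 0 := by
      simp only [mul_left_comm _ (g a₀ x), ← Finset.mul_sum]
      simp only [Finset.mul_sum (s := Finset.univ.erase a₀)]
      rw [Finset.sum_comm, Finset.sum_eq_zero, mul_zero]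
      intro a₁ ha₁
      exact piola (fun a b => fderiv ℝ (g a) x (ε b))
        (fun b c => fderiv ℝ (fderiv ℝ (g a₁)) x (ε b) (ε c))
        (fun b c => (hga a₁ x hx).isSymmSndFDerivAt (by simp) _ _) (Finset.ne_of_mem_erase ha₁)
    rw [h4, add_zero, ← Matrix.det_transpose, Matrix.det_apply']
    rfl
  have hI := fun σ => integral_fderiv_zero μ (hfc σ) (hfs σ) (ε (σ a₀))
  have hint : Integrable (fun x => ∑ σ : Equiv.Perm ρ,
      ((Equiv.Perm.sign σ : ℤ) : 𝕜) * fderiv ℝ (f σ) x (ε (σ a₀))) μ :=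
    integrable_finsetSum _ fun σ _ => (hI σ).1.const_mul _
  refine ⟨hint.integrableOn.congr_fun (fun x hx => (key x hx).symm) hU.measurableSet, ?_⟩
  rw [setIntegral_congr_fun hU.measurableSet key,
    setIntegral_eq_integral_of_forall_compl_eq_zero, integral_finsetSum _
      fun σ _ => (hI σ).1.const_mul _]
  · simp only [integral_const_mul, (hI _).2, mul_zero, Finset.sum_const_zero]
  · intro x hx
    refine Finset.sum_eq_zero fun σ _ => ?_
    rw [(hfK σ x fun h => hx (hKU h)).fderiv_eq]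
    simp

/-- null Lagrangian: `∫ det (dh, dg_2, …, dg_n) = 0` for `h` compactly supported in the open set
`U` on which everything is smooth -/
theorem integral_det_eq_zero {X ρ : Type} [NormedAddCommGroup X] [NormedSpace ℝ X]
    [FiniteDimensional ℝ X] [MeasurableSpace X] [BorelSpace X] (μ : Measure X)
    [μ.IsAddHaarMeasure] [Fintype ρ] [DecidableEq ρ] (ε : Basis ρ ℝ X) {U : Set X} (hU : IsOpen U)
    (g : ρ → X → ℝ) (hg : ∀ a, ContDiffOn ℝ 2 (g a) U) (a₀ : ρ) {K : Set X} (hK : IsCompact K)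
    (hKU : K ⊆ U) (h0 : ∀ x ∈ U \ K, g a₀ x = 0) :
    ∫ x in U, (Matrix.of fun a b => fderiv ℝ (g a) x (ε b)).det ∂μ = 0 :=
  (integral_det_eq_zero' μ ε hU g hg a₀ hK hKU h0).2

end Pool.Agent.P.MP_5c499f_an.Wn
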