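import Pool.Agent.P.MP_5c499f_an.XAmb
import Pool.Agent.P.MP_5c499f_an.XWStk

/-! The determinant is a null Lagrangian for `C¹` maps. -/

set_option autoImplicit false

namespace Pool.Agent.P.MP_5c499f_an

open Filter Topology Metric MeasureTheory Matrix
open scoped Convolution

namespace XNullX

variable {X : Type} [NormedAddCommGroup X] [NormedSpace ℝ X] [FiniteDimensional ℝ X]
  [MeasurableSpace X] [BorelSpace X] (μ : Measure X) [μ.IsAddHaarMeasure]

/-- Bump functions with radii tending to zero. -/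
noncomputable def bump (n : ℕ) : ContDiffBump (0 : X) :=
  ⟨1 / ((n : ℝ) + 1) / 2, 1 / ((n : ℝ) + 1), by positivity, half_lt_self (by positivity)⟩

/-- The mollified function. -/
noncomputable def mol (n : ℕ) (g : X → ℝ) : X → ℝ :=
  (bump n : ContDiffBump (0 : X)).normed μ ⋆[ContinuousLinearMap.lsmul ℝ ℝ, μ] g

lemma mol_smooth (n : ℕ) {g : X → ℝ} (hg : Continuous g) : ContDiff ℝ 2 (mol μ n g) :=
  (bump n : ContDiffBump (0 : X)).hasCompactSupport_normed.contDiff_convolution_left (n := 2) _
    (bump n : ContDiffBump (0 : X)).contDiff_normed hg.locallyIntegrable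

lemma mol_fderiv (n : ℕ) {g : X → ℝ} (hg : ContDiff ℝ 1 g) (hc : HasCompactSupport g) (x v : X) :
    fderiv ℝ (mol μ n g) x v = mol μ n (fun y => fderiv ℝ g y v) x := by
  have hl : LocallyIntegrable ((bump n : ContDiffBump (0 : X)).normed μ) μ :=
    (bump n : ContDiffBump (0 : X)).continuous_normed.locallyIntegrable
  unfold mol
  rw [(hc.hasFDerivAt_convolution_right _ hl hg x).fderiv,
    convolution_precompR_apply _ hl (hc.fderiv ℝ) (hg.continuous_fderiv one_ne_zero)]

lemma mol_dist (n : ℕ) {g : X → ℝ} (hg : Continuous g) {x : X} {r : ℝ}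
    (h : ∀ y ∈ ball x 1, dist (g y) (g x) ≤ r) : dist (mol μ n g x) (g x) ≤ r :=
  ContDiffBump.dist_normed_convolution_le hg.aestronglyMeasurable fun y hy => h y
    (ball_subset_ball (show 1 / ((n : ℝ) + 1) ≤ 1 from
      div_le_one_of_le₀ (by linarith [n.cast_nonneg (α := ℝ)]) (by positivity)) hy)

lemma mol_lim {g : X → ℝ} (hg : Continuous g) (x : X) :
    Tendsto (fun n => mol μ n g x) atTop (𝓝 (g x)) :=
  ContDiffBump.convolution_tendsto_right_of_continuous
    (show Tendsto (fun n : ℕ => 1 / ((n : ℝ) + 1)) atTop (𝓝 0) from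
      tendsto_one_div_add_atTop_nhds_zero_nat) hg x

lemma mol_zero (n : ℕ) {g : X → ℝ} (hg : Continuous g) {K : Set X} (h0 : ∀ x ∉ K, g x = 0)
    {x : X} (hx : x ∉ cthickening 1 K) : mol μ n g x = 0 := by
  have h1 : ∀ y ∈ ball x 1, g y = 0 := fun y hy => h0 y fun h =>
    hx (mem_cthickening_of_dist_le x y 1 K h (by rw [dist_comm]; exact (mem_ball.1 hy).le))
  have := mol_dist μ n hg (x := x) (r := 0) fun y hy => by
    rw [h1 y hy, h1 x (mem_ball_self one_pos), dist_self]
  rwa [h1 x (mem_ball_self one_pos), dist_le_zero] at this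

omit [FiniteDimensional ℝ X] [MeasurableSpace X] [BorelSpace X] in
lemma dt_zero {k : ℕ} (w : Fin k → X) {g : Fin k → X → ℝ} {L : Set X} (hL : IsClosed L)
    (i₀ : Fin k) (h0 : ∀ x ∉ L, g i₀ x = 0) {x : X} (hx : x ∉ L) :
    dt (fun i => fderiv ℝ (g i) x) w = 0 := by
  have : g i₀ =ᶠ[𝓝 x] fun _ => 0 := by
    filter_upwards [hL.isOpen_compl.mem_nhds hx] with y hy using h0 y hy
  exact Matrix.det_eq_zero_of_row_eq_zero i₀ fun j => by simp [this.fderiv_eq]

lemma glob {k : ℕ} (w : Fin k → X) {K : Set X} (hK : IsCompact K) {g : Fin k → X → ℝ}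
    (hg : ∀ i, ContDiff ℝ 1 (g i)) (hc : ∀ i, HasCompactSupport (g i)) (i₀ : Fin k)
    (h0 : ∀ x ∉ K, g i₀ x = 0) : ∫ x in K, dt (fun i => fderiv ℝ (g i) x) w ∂μ = 0 := by
  have hL : IsCompact (cthickening 1 K) := hK.cthickening
  have hd : ∀ i j, Continuous fun y => fderiv ℝ (g i) y (w j) := fun i j =>
    ((hg i).continuous_fderiv one_ne_zero).clm_apply continuous_const
  obtain ⟨B, hB⟩ : ∃ B, ∀ i j y, |fderiv ℝ (g i) y (w j)| ≤ B := by
    choose B hB using fun p : Fin k × Fin k =>
      (hd p.1 p.2).bounded_above_of_compact_support ((hc p.1).fderiv_apply ℝ (w p.2))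
    obtain ⟨M, hM⟩ := (Set.finite_range B).bddAbove
    exact ⟨M, fun i j y => (hB (i, j) y).trans (hM ⟨_, rfl⟩)⟩
  have e0 : ∀ n, ∫ x in cthickening 1 K, dt (fun i => fderiv ℝ (mol μ n (g i)) x) w ∂μ = 0 :=
    fun n => by
      have hz : ∀ x ∉ cthickening 1 K, mol μ n (g i₀) x = 0 := fun x hx =>
        mol_zero μ n (hg i₀).continuous h0 hx
      rw [setIntegral_eq_integral_of_forall_compl_eq_zero fun x hx =>
        dt_zero w (g := fun i => mol μ n (g i)) hL.isClosed i₀ hz hx]
      have := (Wn.integral_det_eq_zero' μ w isOpen_univ (fun i => mol μ n (g i))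
        (fun i => (mol_smooth μ n (hg i).continuous).contDiffOn) i₀ hL (Set.subset_univ _)
        fun x hx => hz x hx.2).2
      rwa [Measure.restrict_univ] at this
  have : IsFiniteMeasure (μ.restrict (cthickening 1 K)) := ⟨by simpa using hL.measure_lt_top⟩
  have e1 := tendsto_integral_of_dominated_convergence (μ := μ.restrict (cthickening 1 K))
    (F := fun n x => dt (fun i => fderiv ℝ (mol μ n (g i)) x) w)
    (f := fun x => dt (fun i => fderiv ℝ (g i) x) w)
    (fun _ => (Fintype.card (Fin k)).factorial • (3 * B) ^ Fintype.card (Fin k))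
    (fun n => (Continuous.matrix_det (continuous_matrix fun i j =>
      ((mol_smooth μ n (hg i).continuous).continuous_fderiv two_ne_zero).clm_apply
        continuous_const)).aestronglyMeasurable) (integrable_const _)
    (fun n => Eventually.of_forall fun x => Matrix.det_le (abv := AbsoluteValue.abs) fun i j => by
      have h1 := mol_dist μ n (hd i j) (x := x) (r := 2 * B) fun y _ => by
        rw [Real.dist_eq]
        linarith [abs_sub (fderiv ℝ (g i) y (w j)) (fderiv ℝ (g i) x (w j)), hB i j x, hB i j y]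
      rw [Real.dist_eq] at h1
      simp only [Matrix.of_apply, AbsoluteValue.abs_apply, mol_fderiv μ n (hg i) (hc i)]
      linarith [abs_sub_abs_le_abs_sub (mol μ n (fun y => fderiv ℝ (g i) y (w j)) x)
        (fderiv ℝ (g i) x (w j)), hB i j x])
    (Eventually.of_forall fun x => by
      refine (continuous_id.matrix_det.tendsto _).comp (tendsto_pi_nhds.2 fun i =>
        tendsto_pi_nhds.2 fun j => ?_)
      simp only [Matrix.of_apply, mol_fderiv μ _ (hg i) (hc i)]
      exact mol_lim μ (hd i j) x)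
  simp only [e0] at e1
  have hz := fun x hx => dt_zero w (g := g) hK.isClosed i₀ h0 (x := x) hx
  rw [setIntegral_eq_integral_of_forall_compl_eq_zero hz,
    ← setIntegral_eq_integral_of_forall_compl_eq_zero (s := cthickening 1 K) fun x hx =>
      hz x fun h => hx (self_subset_cthickening K h)]
  exact (tendsto_const_nhds_iff.1 e1).symm

end XNullX

theorem null_lagr {X : Type} [NormedAddCommGroup X] [NormedSpace ℝ X] [FiniteDimensional ℝ X]
    [MeasurableSpace X] [BorelSpace X] (μ : Measure X) [μ.IsAddHaarMeasure] {k : ℕ}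
    (w : Fin k → X) {U K : Set X} (hU : IsOpen U) (hK : IsCompact K) (hKU : K ⊆ U)
    {φ : Fin k → X → ℝ} (hφ : ∀ i, ContDiffOn ℝ 1 (φ i) U) (i₀ : Fin k)
    (h0 : ∀ x ∈ U, x ∉ K → φ i₀ x = 0) :
    ∫ x in K, dt (fun i => fderiv ℝ (φ i) x) w ∂μ = 0 := by
  obtain ⟨χ, c1, c2, c3, c4, -⟩ := Wn.Stk.exists_cutoff hK hU hKU
  have hz : ∀ x ∉ tsupport χ, χ x = 0 := fun x hx => image_eq_zero_of_notMem_tsupport hx
  rw [← XNullX.glob μ w hK (g := fun i x => χ x * φ i x) (fun i => ?_) (fun i => ?_) i₀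
    fun x hx => ?_]
  · refine setIntegral_congr_fun hK.measurableSet fun x hx => ?_
    have : ∀ i, (fun x => χ x * φ i x) =ᶠ[𝓝 x] φ i := fun i => by
      filter_upwards [eventually_nhdsSet_iff_forall.1 c4 x hx] with y hy
      rw [hy, one_mul]
    exact congrArg (fun ξ => dt ξ w) (funext fun i => ((this i).fderiv_eq).symm)
  · rw [contDiff_iff_contDiffAt]
    intro x
    by_cases hx : x ∈ U
    · exact (c1.of_le (by norm_num)).contDiffAt.mul ((hφ i x hx).contDiffAt (hU.mem_nhds hx))
    · refine (contDiffAt_const (c := 0)).congr_of_eventuallyEq ?_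
      filter_upwards [(isClosed_tsupport χ).isOpen_compl.mem_nhds fun h => hx (c3 h)] with y hy
      rw [hz y hy, zero_mul]
  · exact HasCompactSupport.intro c2 fun x hx => by rw [hz x hx, zero_mul]
  · by_cases hU' : x ∈ U
    · rw [h0 x hU' hx, mul_zero]
    · rw [hz x fun h => hU' (c3 h), zero_mul]

end Pool.Agent.P.MP_5c499f_an
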