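import Pool.Agent.P.MP_5c499f_an.XLA
import Pool.Agent.P.MP_5c499f_an.XAvg

/-! Integral bounds for pulled back forms. -/

set_option autoImplicit false

namespace Pool.Agent.P.MP_5c499f_an

open Filter Topology Metric MeasureTheory Matrix

variable {M : Type*} [MetricSpace M] [CompactSpace M] {N u : ℕ} {e : M → VV N} {r : VV N → M}
  {U : Set (VV N)} {g : Equiv.Perm M} {Pr : M → VV N →L[ℝ] XX u} {Io : M → XX u →L[ℝ] VV N}
  {C₀ a : ℝ}
  {H s C : ℝ} {m : ℕ} {c : Fin m → M → ℝ} {f : Fin m → Fin u → M → ℝ} {ρ : VV N → ℝ}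
  {K : Set (VV N)}

omit [CompactSpace M] in
lemma XOmAX.cont_dt (A : Amb e r U g Pr Io C₀ a) {k : ℕ} {φ : Fin k → M → ℝ}
    (hφ : ∀ i, ContDiffOn ℝ 1 (φ i ∘ r) U) (w : Fin k → VV N) (n : ℕ) :
    ContinuousOn (fun y => dt (fun i => fderiv ℝ (φ i ∘ g^[n] ∘ r) y) w) U :=
  continuousOn_dt (fun i => (A.c1_iter (hφ i) n).continuousOn_fderiv_of_isOpen A.op le_rfl)
    fun _ => continuousOn_const

theorem DV.minor (A : Amb e r U g Pr Io C₀ a) (D : DV e r U g Pr Io C₀ a H s C) {k : ℕ}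
    {φ : Fin k → M → ℝ} (hφ : ∀ i, ContDiffOn ℝ 1 (φ i ∘ r) U) (w : Fin k → VV N) :
    ∃ C', ∀ᶠ n in atTop, ∀ x, ∫ y in closedBall (e x) (s / 2),
      |dt (fun i => fderiv ℝ (φ i ∘ g^[n] ∘ r) y) w| ≤ C' * (a ^ n) ^ (k - u) * H ^ n := by
  have hs := D.s_pos
  have hC := D.C_pos
  have hH := D.H_pos
  have ha := A.a_pos
  have h1 := A.one_le
  have ha1 : a < 1 := by nlinarith [A.a_le, mul_le_mul_of_nonneg_right (one_le_pow₀ (n := 2) h1) ha.le]
  choose Kφ hK0 hK using fun i => A.bdd (hφ i)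
  obtain ⟨K₁, hK₁, hK₁'⟩ : ∃ K₁, 0 ≤ K₁ ∧ ∀ i x v, |Dm e r (φ i) x v| ≤ K₁ * ‖v‖ :=
    ⟨∑ i, Kφ i, Finset.sum_nonneg fun i _ => (hK0 i).le, fun i x v => ((hK i x).2 v).trans
      (mul_le_mul_of_nonneg_right (Finset.single_le_sum (fun i _ => (hK0 i).le)
        (Finset.mem_univ i)) (norm_nonneg _))⟩
  obtain ⟨C₁, hC₁, hg⟩ := det_gain u k (K₁ + C * ‖w‖ + K₁ * ‖w‖)
  obtain ⟨C₂, hC₂, hup⟩ := (D.avg A).1
  refine ⟨C₁ * C ^ (k - u) * C₂, ?_⟩
  have hlim : Tendsto (fun n : ℕ => C * a ^ n) atTop (𝓝 (C * 0)) :=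
    (tendsto_pow_atTop_nhds_zero_of_lt_one ha.le ha1).const_mul C
  filter_upwards [hlim.eventually_le_const (show C * 0 < 1 by simp)] with n hn x
  have hball : ∀ y ∈ closedBall (e x) (s / 2), ‖y - e x‖ ≤ (1 + C₀) * s := fun y hy =>
    (mem_closedBall_iff_norm.1 hy).trans (by nlinarith)
  have hc := ((XOmAX.cont_dt A hφ w n).mono fun y hy => D.tan.sub x y (hball y hy)).abs
  have hμ : 0 < C₁ * (C * a ^ n) ^ (k - u) := by positivity
  have hpt : ∀ y ∈ closedBall (e x) (s / 2), ∀ S : XX u →L[ℝ] XX u,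
      (∀ v, ‖(Dn e r g n y ∘L Io x) v‖ ≤ ‖S v‖) →
      |dt (fun i => fderiv ℝ (φ i ∘ g^[n] ∘ r) y) w| ≤ C₁ * (C * a ^ n) ^ (k - u) * |S.det| := by
    intro y hy S hS
    obtain ⟨β, hβ, hβ'⟩ := D.tan.dec x y (hball y hy)
    have t0 : 0 ≤ C * ‖w‖ := by positivity
    have t1 : 0 ≤ K₁ * ‖w‖ := by positivity
    have t2 : 0 ≤ C * a ^ n := by positivity
    have t3 : 0 ≤ (K₁ + C * ‖w‖) * (C * a ^ n) := by positivity
    have hS' : ∀ v, ‖Dn e r g n y (Io x v)‖ ≤ ‖S v‖ := hS
    refine le_of_eq_of_le ?_ (hg S (C * a ^ n)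
      (fun i => Dm e r (φ i) (g^[n] (r y)) ∘L (Dn e r g n y ∘L Io x))
      (fun j => β (w j)) (fun i j => Dm e r (φ i) (g^[n] (r y))
        (Dn e r g n y (w j) - Dn e r g n y (Io x (β (w j))))) t2 hn (fun b => ?_) (fun i b => ?_)
      (fun j => ?_) fun i j => ?_)
    · simp only [dt, A.fderiv_iter (hφ _) n (D.tan.sub x y (hball y hy)),
        ContinuousLinearMap.comp_apply, map_sub, add_sub_cancel]
    · exact (D.tan.expd x y n b (hball y hy)).trans (mul_le_mul_of_nonneg_left (hS' b) t2)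
    · exact (hK₁' i _ (Dn e r g n y (Io x b))).trans
        (mul_le_mul (by linarith) (hS' b) (norm_nonneg _) (by linarith))
    · have := mul_le_mul_of_nonneg_left (norm_le_pi_norm w j) hC.le
      linarith [hβ (w j)]
    · have := mul_le_mul_of_nonneg_left ((hβ' n (w j)).trans
        (mul_le_mul_of_nonneg_left (norm_le_pi_norm w j) t2)) hK₁
      refine (hK₁' i _ _).trans (this.trans ?_)
      linarith
  have key := hup x n (fun y => |dt (fun i => fderiv ℝ (φ i ∘ g^[n] ∘ r) y) w| /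
    (C₁ * (C * a ^ n) ^ (k - u))) (hc.div_const _) fun y hy S hS => by
      rw [div_le_iff₀ hμ, mul_comm]
      exact hpt y hy S hS
  have h2 := ENNReal.toReal_le_of_le_ofReal (by positivity) key
  rw [← integral_eq_lintegral_of_nonneg_ae (Eventually.of_forall fun y => by positivity)
    ((hc.div_const _).aestronglyMeasurable measurableSet_closedBall), integral_div,
    div_le_iff₀ hμ] at h2
  refine h2.trans_eq ?_
  rw [mul_pow]
  ring

theorem cf_cont (A : Amb e r U g Pr Io C₀ a) (hc : ∀ t, ContDiffOn ℝ 1 (c t ∘ r) U)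
    (hf : ∀ t i, ContDiffOn ℝ 1 (f t i ∘ r) U) (n : ℕ) (I : Fin u → Fin N) :
    ContinuousOn (cf r g H c f n I) U := by
  refine continuousOn_const.mul (continuousOn_finsetSum _ fun t _ =>
    ContinuousOn.mul (A.c1_iter (hc t) n).continuousOn ?_)
  exact XOmAX.cont_dt A (hf t) _ n

theorem cf_bdd (A : Amb e r U g Pr Io C₀ a) (D : DV e r U g Pr Io C₀ a H s C)
    (hc : ∀ t, ContDiffOn ℝ 1 (c t ∘ r) U) (hf : ∀ t i, ContDiffOn ℝ 1 (f t i ∘ r) U)
    (k : Ker e (s / 4) ρ K) :
    K ⊆ U ∧ ∃ C', ∀ᶠ n in atTop, ∀ I, ∫ z in K, |cf r g H c f n I z| ≤ C' := by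
  have hs := D.s_pos
  have hH := D.H_pos
  have h1 := A.one_le
  have hKU : K ⊆ U := fun y hy => by
    obtain ⟨x, hx⟩ := (k.mem y).1 hy
    exact D.tan.sub x y (hx.trans (by nlinarith))
  have hBU : ∀ x, closedBall (e x) (s / 2) ⊆ U := fun x y hy =>
    D.tan.sub x y ((mem_closedBall_iff_norm.1 hy).trans (by nlinarith))
  refine ⟨hKU, ?_⟩
  obtain ⟨P, -, hP⟩ := isCompact_univ.elim_nhds_subcover (fun x : M => ball x (s / 4))
    fun x _ => ball_mem_nhds x (by positivity)
  have hcov : ∀ y ∈ K, ∃ x ∈ P, y ∈ closedBall (e x) (s / 2) := fun y hy => by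
    obtain ⟨x, hx⟩ := (k.mem y).1 hy
    obtain ⟨x', h2, h3⟩ := Set.mem_iUnion₂.1 (hP (Set.mem_univ x))
    refine ⟨x', h2, mem_closedBall_iff_norm.2 ?_⟩
    rw [mem_ball, A.iso] at h3
    linarith [norm_sub_le_norm_sub_add_norm_sub y (e x) (e x')]
  choose Kc hK0 hK using fun t => A.bdd (hc t)
  choose C' hC' using fun (I : Fin u → Fin N) t => D.minor A (hf t) fun j => evec (I j)
  refine ⟨∑ I, |∑ _x ∈ P, ∑ t, Kc t * C' I t|, ?_⟩
  filter_upwards [eventually_all.2 fun I => eventually_all.2 fun t => hC' I t] with n hn I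
  refine le_trans ?_ ((le_abs_self _).trans (Finset.single_le_sum
    (f := fun I => |∑ _x ∈ P, ∑ t, Kc t * C' I t|) (fun _ _ => abs_nonneg _) (Finset.mem_univ I)))
  have hcf := (cf_cont (H := H) A hc hf n I).abs
  have i1 : ∀ x, IntegrableOn (fun z => |cf r g H c f n I z|) (closedBall (e x) (s / 2)) := fun x =>
    (hcf.mono (hBU x)).integrableOn_compact (isCompact_closedBall _ _)
  have i2 := fun x => (integrable_indicator_iff measurableSet_closedBall).2 (i1 x)
  calc ∫ z in K, |cf r g H c f n I z|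
      ≤ ∫ z, ∑ x ∈ P, (closedBall (e x) (s / 2)).indicator (fun z => |cf r g H c f n I z|) z := by
        rw [← integral_indicator k.cpt.measurableSet]
        refine integral_mono ((integrable_indicator_iff k.cpt.measurableSet).2
          ((hcf.mono hKU).integrableOn_compact k.cpt)) (integrable_finsetSum _ fun x _ => i2 x)
          fun y => ?_
        have h0 : ∀ x ∈ P, 0 ≤ (closedBall (e x) (s / 2)).indicator
            (fun z => |cf r g H c f n I z|) y := fun x _ =>
          Set.indicator_nonneg (fun _ _ => abs_nonneg _) y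
        by_cases hy : y ∈ K
        · obtain ⟨x, h2, h3⟩ := hcov y hy
          refine le_trans ?_ (Finset.single_le_sum h0 h2)
          rw [Set.indicator_of_mem hy, Set.indicator_of_mem h3]
        · rw [Set.indicator_of_notMem hy]
          exact Finset.sum_nonneg h0
    _ = ∑ x ∈ P, ∫ z in closedBall (e x) (s / 2), |cf r g H c f n I z| := by
        rw [integral_finsetSum _ fun x _ => i2 x]
        exact Finset.sum_congr rfl fun x _ => integral_indicator measurableSet_closedBall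
    _ ≤ _ := by
        refine Finset.sum_le_sum fun x _ => ?_
        have i3 : ∀ t, IntegrableOn (fun y => (H ^ n)⁻¹ * (Kc t *
            |dt (fun i => fderiv ℝ (f t i ∘ g^[n] ∘ r) y) fun j => evec (I j)|))
            (closedBall (e x) (s / 2)) := fun t => by
          have i4 := ((XOmAX.cont_dt A (hf t) (fun j => evec (I j)) n).abs.mono
            (hBU x)).integrableOn_compact (μ := volume) (isCompact_closedBall _ _)
          exact (i4.const_mul _).const_mul _
        refine (integral_mono (i1 x) (integrable_finsetSum Finset.univ fun t _ => i3 t)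
          fun y => ?_).trans ?_
        · simp only [cf, ← Finset.mul_sum]
          rw [abs_mul, abs_of_pos (by positivity)]
          refine mul_le_mul_of_nonneg_left ((Finset.abs_sum_le_sum_abs _ _).trans
            (Finset.sum_le_sum fun t _ => ?_)) (by positivity)
          rw [abs_mul]
          exact mul_le_mul_of_nonneg_right (hK t _).1 (abs_nonneg _)
        · rw [integral_finsetSum _ fun t _ => i3 t]
          refine Finset.sum_le_sum fun t _ => ?_
          rw [integral_const_mul, integral_const_mul, inv_mul_le_iff₀ (by positivity)]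
          have := mul_le_mul_of_nonneg_left (hn I t x) (hK0 t).le
          rw [Nat.sub_self, pow_zero, mul_one] at this
          linarith


end Pool.Agent.P.MP_5c499f_an
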