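import Pool.Agent.P.MP_5c499f_an.XOmA
import Pool.Agent.P.MP_5c499f_an.XNull

/-! Closedness of the limit form. -/

set_option autoImplicit false

namespace Pool.Agent.P.MP_5c499f_an

open Filter Topology Metric MeasureTheory Matrix

namespace XOmCX

variable {N u : ℕ} {U K : Set (VV N)} {ρ : VV N → ℝ}

lemma cont_cons {ζ : VV N → VV N →L[ℝ] ℝ} {ξ : Fin u → VV N → VV N →L[ℝ] ℝ}
    (h1 : ContinuousOn ζ U) (h2 : ∀ i, ContinuousOn (ξ i) U) (v : Fin (u + 1) → VV N) :
    ContinuousOn (fun z => dt (Fin.cons (ζ z) fun i => ξ i z : Fin (u + 1) → VV N →L[ℝ] ℝ) v) U :=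
  continuousOn_dt (w := fun _ => v) (fun i => Fin.cases h1 h2 i) fun _ => continuousOn_const

/-- Integration by parts through the null Lagrangian. -/
lemma parts (hU : IsOpen U) (hK : IsCompact K) (hKU : K ⊆ U) (hρ : ContDiff ℝ 1 ρ) (p : VV N)
    (h0 : ∀ z ∉ K, ρ (p - z) = 0) {A₀ : VV N → ℝ} {A : Fin u → VV N → ℝ}
    (h1 : ContDiffOn ℝ 1 A₀ U) (h2 : ∀ i, ContDiffOn ℝ 1 (A i) U) (v : Fin (u + 1) → VV N) :
    ∫ z in K, A₀ z * dt (Fin.cons (fderiv ℝ ρ (p - z)) fun i => fderiv ℝ (A i) z :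
        Fin (u + 1) → VV N →L[ℝ] ℝ) v =
      ∫ z in K, ρ (p - z) * dt (Fin.cons (fderiv ℝ A₀ z) fun i => fderiv ℝ (A i) z :
        Fin (u + 1) → VV N →L[ℝ] ℝ) v := by
  have hρ' : ContDiff ℝ 1 fun z => ρ (p - z) := hρ.comp (contDiff_const.sub contDiff_id)
  have hd : ∀ i, ContinuousOn (fderiv ℝ (A i)) U := fun i =>
    (h2 i).continuousOn_fderiv_of_isOpen hU le_rfl
  have i1 := ((h1.continuousOn.mul (cont_cons (ζ := fun z => fderiv ℝ ρ (p - z))
    (((hρ.continuous_fderiv one_ne_zero).comp (continuous_const.sub continuous_id)).continuousOn)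
    hd v)).mono hKU).integrableOn_compact (μ := volume) hK
  have i2 := ((hρ'.continuous.continuousOn.mul (cont_cons
    (h1.continuousOn_fderiv_of_isOpen hU le_rfl) hd v)).mono hKU).integrableOn_compact
    (μ := volume) hK
  have := null_lagr volume v hU hK hKU
    (φ := (Fin.cons (fun z => ρ (p - z) * A₀ z) A : Fin (u + 1) → VV N → ℝ))
    (fun i => Fin.cases (hρ'.contDiffOn.mul h1) h2 i) 0 fun z _ hz => by simp [h0 z hz]
  symm
  refine sub_eq_zero.1 ((integral_sub i2 i1).symm.trans (Eq.trans ?_ this))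
  refine setIntegral_congr_fun hK.measurableSet fun z hz => ?_
  obtain ⟨d, hd⟩ := dt_cons (fun i => fderiv ℝ (A i) z) v
  have e1 : HasFDerivAt (fun z => ρ (p - z)) (-fderiv ℝ ρ (p - z)) z := by
    have := ((hρ.differentiable one_ne_zero (p - z)).hasFDerivAt).comp z
      ((hasFDerivAt_id z).const_sub p)
    exact this.congr_fderiv (by ext; simp)
  have e2 := (e1.mul ((h1.differentiableOn one_ne_zero z (hKU hz)).differentiableAt
    (hU.mem_nhds (hKU hz))).hasFDerivAt).fderiv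
  have e3 : (fun i => fderiv ℝ ((Fin.cons (fun z => ρ (p - z) * A₀ z) A :
      Fin (u + 1) → VV N → ℝ) i) z) = (Fin.cons (ρ (p - z) • fderiv ℝ A₀ z +
        A₀ z • -fderiv ℝ ρ (p - z)) fun i => fderiv ℝ (A i) z : Fin (u + 1) → VV N →L[ℝ] ℝ) :=
    funext fun i => Fin.cases e2 (fun _ => rfl) i
  simp only [Pi.mul_apply, e3, hd, Finset.mul_sum, ← Finset.sum_sub_distrib]
  refine Finset.sum_congr rfl fun j _ => ?_
  simp only [_root_.add_apply, _root_.smul_apply, _root_.neg_apply, smul_eq_mul]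
  ring

/-- Localisation of an integral against the kernel. -/
lemma loc {s R : ℝ} (hs : 0 < s) (hK : IsCompact K) (p : VV N) (hρ : Continuous ρ)
    (h0 : ∀ y, s / 4 ≤ ‖y‖ → ρ y = 0) (h1 : closedBall p (s / 4) ⊆ K)
    (hR : ∀ z ∈ closedBall p (s / 2), |ρ (p - z)| ≤ R) {Q : VV N → ℝ}
    (hQ : ContinuousOn Q (closedBall p (s / 2))) :
    |∫ z in K, ρ (p - z) * Q z| ≤ R * ∫ z in closedBall p (s / 2), |Q z| := by
  have hz : ∀ z ∉ closedBall p (s / 4), ρ (p - z) * Q z = 0 := fun z hz => by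
    rw [h0 _ (by rw [← dist_eq_norm, dist_comm]; exact (not_le.1 hz).le), zero_mul]
  have hB := isCompact_closedBall p (s / 2)
  rw [setIntegral_eq_of_subset_of_forall_sdiff_eq_zero hK.measurableSet h1 fun z h => hz z h.2,
    ← setIntegral_eq_of_subset_of_forall_sdiff_eq_zero hB.measurableSet
      (closedBall_subset_closedBall (by linarith)) fun z h => hz z h.2, ← integral_const_mul]
  refine abs_integral_le_integral_abs.trans (setIntegral_mono_on
    (((hρ.comp (continuous_const.sub continuous_id)).continuousOn.mul hQ).abs.integrableOn_compact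
      hB) ((continuousOn_const.mul hQ.abs).integrableOn_compact hB) hB.measurableSet
    fun z hz => ?_)
  rw [abs_mul]
  exact mul_le_mul_of_nonneg_right (hR z hz) (abs_nonneg _)

end XOmCX

variable {M : Type*} [MetricSpace M] [CompactSpace M] {N u : ℕ} {e : M → VV N} {r : VV N → M}
  {U : Set (VV N)} {g : Equiv.Perm M} {Pr : M → VV N →L[ℝ] XX u} {Io : M → XX u →L[ℝ] VV N}
  {C₀ a : ℝ}
  {H s C : ℝ} {m : ℕ} {c : Fin m → M → ℝ} {f : Fin m → Fin u → M → ℝ} {ρ : VV N → ℝ}
  {K : Set (VV N)}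

open XOmCX in
theorem cf_closed (A : Amb e r U g Pr Io C₀ a) (D : DV e r U g Pr Io C₀ a H s C)
    (hc : ∀ t, ContDiffOn ℝ 1 (c t ∘ r) U) (hf : ∀ t i, ContDiffOn ℝ 1 (f t i ∘ r) U)
    (k : Ker e (s / 4) ρ K) (x : M) (v : Fin (u + 1) → VV N) :
    Tendsto (fun n => ∑ I, ∫ z in K, cf r g H c f n I z *
      dt (Fin.cons (fderiv ℝ ρ (e x - z)) fun i => crd (I i) : Fin (u + 1) → VV N →L[ℝ] ℝ) v)
      atTop (𝓝 0) := by
  have hKU := (cf_bdd A D hc hf k).1
  have hs := D.s_pos
  have hρ : ContDiff ℝ 1 ρ := k.smooth.of_le (by exact_mod_cast le_top)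
  have hζ : Continuous fun z => fderiv ℝ ρ (e x - z) :=
    (hρ.continuous_fderiv one_ne_zero).comp (continuous_const.sub continuous_id)
  have hBK : closedBall (e x) (s / 4) ⊆ K := fun z hz =>
    (k.mem z).2 ⟨x, by rwa [← dist_eq_norm]⟩
  have hBU : closedBall (e x) (s / 2) ⊆ U := fun z hz => D.tan.sub x z (by
    rw [← dist_eq_norm]; nlinarith [mem_closedBall.1 hz, A.one_le])
  have h0 : ∀ z ∉ K, ρ (e x - z) = 0 := fun z hz => k.zero _ (by
    rw [← dist_eq_norm, dist_comm]; exact (not_le.1 fun h => hz (hBK h)).le)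
  have d0 := fun t n => (A.c1_iter (hc t) n).continuousOn_fderiv_of_isOpen A.op le_rfl
  have d1 := fun t n i => (A.c1_iter (hf t i) n).continuousOn_fderiv_of_isOpen A.op le_rfl
  have e1 : ∀ n, ∑ I, ∫ z in K, cf r g H c f n I z *
      dt (Fin.cons (fderiv ℝ ρ (e x - z)) fun i => crd (I i) : Fin (u + 1) → VV N →L[ℝ] ℝ) v =
      ∑ t, (H ^ n)⁻¹ * u.factorial * ∫ z in K, ρ (e x - z) *
        dt (Fin.cons (fderiv ℝ (c t ∘ g^[n] ∘ r) z) fun i => fderiv ℝ (f t i ∘ g^[n] ∘ r) z :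
          Fin (u + 1) → VV N →L[ℝ] ℝ) v := fun n => by
    simp only [fun t => (parts A.op k.cpt hKU hρ (e x) h0 (A.c1_iter (hc t) n)
      (fun i => A.c1_iter (hf t i) n) v).symm, ← integral_const_mul]
    rw [← integral_finsetSum, ← integral_finsetSum]
    rotate_left
    · exact fun t _ => ((continuousOn_const.mul
        ((A.c1_iter (hc t) n).continuousOn.mul (cont_cons hζ.continuousOn (d1 t n) v))).mono
          hKU).integrableOn_compact k.cpt
    · exact fun I _ => (((cf_cont A hc hf n I).mul (cont_cons hζ.continuousOn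
        (fun _ => continuousOn_const) v)).mono hKU).integrableOn_compact k.cpt
    refine integral_congr_ae (Eventually.of_forall fun z => ?_)
    simp only [cf, Finset.mul_sum, Finset.sum_mul]
    rw [Finset.sum_comm]
    refine Finset.sum_congr rfl fun t _ => ?_
    have := binet_cons (fderiv ℝ ρ (e x - z)) (fun i => fderiv ℝ (f t i ∘ g^[n] ∘ r) z) v
    calc _ = (H ^ n)⁻¹ * c t (g^[n] (r z)) * ∑ I : Fin u → Fin N,
          dt (fun i => fderiv ℝ (f t i ∘ g^[n] ∘ r) z) (fun j => evec (I j)) *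
          dt (Fin.cons (fderiv ℝ ρ (e x - z)) fun i => crd (I i) :
            Fin (u + 1) → VV N →L[ℝ] ℝ) v := by
          rw [Finset.mul_sum]; exact Finset.sum_congr rfl fun I _ => by ring
      _ = _ := by rw [this]; simp only [Function.comp_apply]; ring
  simp only [e1]
  rw [← Finset.sum_const_zero (s := (Finset.univ : Finset (Fin m)))]
  refine tendsto_finsetSum _ fun t _ => ?_
  obtain ⟨R, hR⟩ := (isCompact_closedBall (e x) (s / 2)).exists_bound_of_continuousOn
    (f := fun z => ρ (e x - z))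
    (hρ.continuous.comp (continuous_const.sub continuous_id)).continuousOn
  have R0 : 0 ≤ R := (norm_nonneg _).trans (hR (e x) (mem_closedBall_self (by linarith)))
  obtain ⟨C', hC⟩ := D.minor A (φ := (Fin.cons (c t) (f t) : Fin (u + 1) → M → ℝ))
    (fun i => Fin.cases (hc t) (hf t) i) v
  have ha : a < 1 := by nlinarith [A.a_le, A.one_le, A.a_pos]
  have lim : Tendsto (fun n : ℕ => u.factorial * R * C' * a ^ n) atTop (𝓝 0) := by
    simpa using (tendsto_pow_atTop_nhds_zero_of_lt_one A.a_pos.le ha).const_mul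
      (u.factorial * R * C')
  refine squeeze_zero_norm' ?_ lim
  filter_upwards [hC] with n hn
  have e2 : ∀ y, (fun i => fderiv ℝ ((Fin.cons (c t) (f t) : Fin (u + 1) → M → ℝ) i ∘ g^[n] ∘ r) y)
      = (Fin.cons (fderiv ℝ (c t ∘ g^[n] ∘ r) y) fun i => fderiv ℝ (f t i ∘ g^[n] ∘ r) y :
        Fin (u + 1) → VV N →L[ℝ] ℝ) := fun y => funext fun i => Fin.cases rfl (fun _ => rfl) i
  have g1 := hn x
  simp only [e2, Nat.add_sub_cancel_left, pow_one] at g1
  have g2 := (loc hs k.cpt (e x) hρ.continuous k.zero hBK hR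
    ((cont_cons (d0 t n) (d1 t n) v).mono hBU)).trans (mul_le_mul_of_nonneg_left g1 R0)
  have hH : 0 < H ^ n := pow_pos D.H_pos n
  rw [Real.norm_eq_abs, abs_mul, abs_of_nonneg (by positivity)]
  refine (mul_le_mul_of_nonneg_left g2 (by positivity)).trans (le_of_eq ?_)
  field_simp

end Pool.Agent.P.MP_5c499f_an
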