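import Pool.Agent.P.MP_5c499f_an.XBasA

/-! Cone estimates. -/

set_option autoImplicit false

namespace Pool.Agent.P.MP_5c499f_an

open Filter Topology Metric MeasureTheory Matrix

variable {M : Type*} [MetricSpace M] [CompactSpace M] {N u : ℕ} {e : M → VV N} {r : VV N → M}
  {U : Set (VV N)} {g : Equiv.Perm M} {Pr : M → VV N →L[ℝ] XX u} {Io : M → XX u →L[ℝ] VV N}
  {C₀ a : ℝ}

namespace XTanX

omit [CompactSpace M] in
lemma a_le_one (A : Amb e r U g Pr Io C₀ a) : a ≤ 1 := by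
  have h1 := A.one_le
  have h2 := A.a_le
  have h3 := A.a_pos
  have h4 : 1 ≤ C₀ ^ 2 := one_le_pow₀ h1
  nlinarith

omit [CompactSpace M] in
lemma nQ (A : Amb e r U g Pr Io C₀ a) (x : M) (v : VV N) : ‖Io x (Pr x v)‖ ≤ C₀ ^ 2 * ‖v‖ := by
  have h0 : 0 ≤ C₀ := le_trans zero_le_one A.one_le
  calc ‖Io x (Pr x v)‖ ≤ C₀ * ‖Pr x v‖ := A.n_io _ _
    _ ≤ C₀ * (C₀ * ‖v‖) := mul_le_mul_of_nonneg_left (A.n_pr _ _) h0
    _ = C₀ ^ 2 * ‖v‖ := by ring

omit [CompactSpace M] in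
lemma iter (A : Amb e r U g Pr Io C₀ a) {y : VV N} (hy : y ∈ U) (w : VV N) (n : ℕ) :
    ‖Dn e r g n y w - Io (g^[n] (r y)) (Pr (g^[n] (r y)) (Dn e r g n y w))‖ ≤
        a ^ n * ‖Dn e r g 0 y w - Io (r y) (Pr (r y) (Dn e r g 0 y w))‖ ∧
      ‖Io (r y) (Pr (r y) (Dn e r g 0 y w))‖ ≤
        a ^ n * ‖Io (g^[n] (r y)) (Pr (g^[n] (r y)) (Dn e r g n y w))‖ ∧
      (Pr (r y) (Dn e r g 0 y w) = 0 →
        Io (g^[n] (r y)) (Pr (g^[n] (r y)) (Dn e r g n y w)) = 0) := by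
  have ha := A.a_pos
  induction n with
  | zero =>
    refine ⟨by simp, by simp, fun h => ?_⟩
    simp only [Function.iterate_zero, id_eq, h, map_zero]
  | succ n ih =>
    obtain ⟨h1, h2, h3⟩ := ih
    rw [A.Dn_succ n hy, Function.iterate_succ_apply', ContinuousLinearMap.comp_apply, A.comm]
    generalize g^[n] (r y) = z at h1 h2 h3 ⊢
    generalize Dn e r g n y w = v at h1 h2 h3 ⊢
    refine ⟨?_, ?_, fun h => ?_⟩
    · rw [← map_sub]
      have h4 : Pr z (v - Io z (Pr z v)) = 0 := by rw [map_sub, A.pr_io, sub_self]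
      calc _ ≤ a * ‖v - Io z (Pr z v)‖ := A.st _ _ h4
        _ ≤ a * (a ^ n * ‖Dn e r g 0 y w - Io (r y) (Pr (r y) (Dn e r g 0 y w))‖) :=
          mul_le_mul_of_nonneg_left h1 ha.le
        _ = _ := by ring
    · calc _ ≤ a ^ n * ‖Io z (Pr z v)‖ := h2
        _ ≤ a ^ n * (a * ‖Dm e r (e ∘ g) z (Io z (Pr z v))‖) :=
          mul_le_mul_of_nonneg_left (A.un _ _) (pow_pos ha n).le
        _ = _ := by ring
    · rw [h3 h, map_zero]

lemma start (A : Amb e r U g Pr Io C₀ a) : ∃ σ K, 0 < σ ∧ 0 < K ∧ ∀ x y, ‖y - e x‖ ≤ σ →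
    y ∈ U ∧ (∀ w, ‖Dn e r g 0 y w‖ ≤ K * ‖w‖) ∧ ∀ b,
      ‖Dn e r g 0 y (Io x b) - Io (r y) (Pr (r y) (Dn e r g 0 y (Io x b)))‖ ≤
        ‖Io (r y) (Pr (r y) (Dn e r g 0 y (Io x b)))‖ ∧
      ‖b‖ ≤ 2 * C₀ * ‖Io (r y) (Pr (r y) (Dn e r g 0 y (Io x b)))‖ := by
  have h1 := A.one_le
  have hC : 0 < C₀ := lt_of_lt_of_le zero_lt_one h1
  have h4 : 1 ≤ C₀ ^ 2 := one_le_pow₀ h1
  have hθ : 0 < 1 / (10 * C₀ ^ 2) := by positivity
  have hθ1 : 1 / (10 * C₀ ^ 2) ≤ 1 / 10 :=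
    one_div_le_one_div_of_le (by norm_num) (by linarith)
  obtain ⟨s, hs, hu⟩ := A.unif A.c1 hθ
  obtain ⟨η, hη, hq⟩ := A.ucQ (κ := 1 / 10) (by norm_num)
  obtain ⟨s', hs', hn⟩ := A.near hη
  obtain ⟨K, hK, hb⟩ := A.bdd (φ := e) A.c1
  refine ⟨min s s', K + 1, lt_min hs hs', by linarith, fun x y hy => ?_⟩
  obtain ⟨hyU, hd, -⟩ := hu x y (hy.trans (min_le_left _ _))
  obtain ⟨-, hnear⟩ := hn x y (hy.trans (min_le_right _ _))
  have hR : ∀ w, ‖Dn e r g 0 y w - Dm e r e x w‖ ≤ 1 / (10 * C₀ ^ 2) * ‖w‖ := fun w =>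
    ((fderiv ℝ (e ∘ r) y - fderiv ℝ (e ∘ r) (e x)).le_opNorm w).trans
      (mul_le_mul_of_nonneg_right hd (norm_nonneg _))
  refine ⟨hyU, fun w => ?_, fun b => ?_⟩
  · have h5 := hR w
    have h6 := (hb x).2 w
    have h7 := norm_sub_norm_le (Dn e r g 0 y w) (Dm e r e x w)
    have h8 : 1 / (10 * C₀ ^ 2) * ‖w‖ ≤ 1 / 10 * ‖w‖ :=
      mul_le_mul_of_nonneg_right hθ1 (norm_nonneg _)
    have h9 := norm_nonneg w
    nlinarith
  · have h5 := hR (Io x b)
    rw [A.tan] at h5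
    have h6 := hq (r y) x hnear (Io x b)
    rw [A.pr_io] at h6
    have h7 : ‖b‖ ≤ C₀ * ‖Io x b‖ := by
      have := A.n_pr x (Io x b)
      rwa [A.pr_io] at this
    generalize Io x b = w at h5 h6 h7
    generalize Dn e r g 0 y w = v at h5 ⊢
    have h8 := nQ A (r y) (v - w)
    have h9 : C₀ ^ 2 * ‖v - w‖ ≤ 1 / 10 * ‖w‖ := by
      calc C₀ ^ 2 * ‖v - w‖ ≤ C₀ ^ 2 * (1 / (10 * C₀ ^ 2) * ‖w‖) :=
            mul_le_mul_of_nonneg_left h5 (by positivity)
        _ = 1 / 10 * ‖w‖ := by field_simp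
    have h10 : ‖v - w‖ ≤ 1 / 10 * ‖w‖ :=
      h5.trans (mul_le_mul_of_nonneg_right hθ1 (norm_nonneg _))
    rw [map_sub, map_sub] at h8
    have h11 : ‖Io (r y) (Pr (r y) v) - w‖ ≤ 1 / 5 * ‖w‖ := by
      have := norm_sub_le_norm_sub_add_norm_sub (Io (r y) (Pr (r y) v)) (Io (r y) (Pr (r y) w)) w
      linarith
    have h12 := norm_sub_norm_le w (Io (r y) (Pr (r y) v))
    rw [norm_sub_rev] at h12
    have h13 := norm_sub_le_norm_sub_add_norm_sub v w (Io (r y) (Pr (r y) v))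
    rw [norm_sub_rev w] at h13
    have h14 := norm_nonneg w
    refine ⟨by linarith, h7.trans ?_⟩
    rw [mul_comm 2 C₀, mul_assoc]
    exact mul_le_mul_of_nonneg_left (by linarith) hC.le

lemma exists_inv {S : XX u →L[ℝ] XX u} (h : Function.Injective S) :
    ∃ S' : XX u →L[ℝ] XX u, (∀ v, S (S' v) = v) ∧ ∀ v, S' (S v) = v := by
  have hs : Function.Surjective (S : XX u →ₗ[ℝ] XX u) :=
    LinearMap.injective_iff_surjective.1 h
  let E := LinearEquiv.ofBijective (S : XX u →ₗ[ℝ] XX u) ⟨h, hs⟩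
  refine ⟨LinearMap.toContinuousLinearMap (E.symm : XX u →ₗ[ℝ] XX u), fun v => ?_, fun v => ?_⟩
  · exact E.apply_symm_apply v
  · exact E.symm_apply_apply v

lemma inj_of_le {W : Type*} [NormedAddCommGroup W] [NormedSpace ℝ W] {S : XX u →L[ℝ] W} {K : ℝ}
    (h : ∀ v, ‖v‖ ≤ K * ‖S v‖) : Function.Injective S := by
  refine (injective_iff_map_eq_zero S).2 fun v hv => ?_
  have := h v
  rw [hv, norm_zero, mul_zero] at this
  exact norm_le_zero_iff.1 this

lemma det_ne_zero_iff {S : XX u →L[ℝ] XX u} : S.det ≠ 0 ↔ Function.Injective S := by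
  have h := LinearMap.det_eq_zero_iff_ker_ne_bot (f := (S : XX u →ₗ[ℝ] XX u))
  rw [ContinuousLinearMap.det, Ne, h, not_not, LinearMap.ker_eq_bot]
  rfl

lemma dt_comp' (ξ : Fin u → VV N →L[ℝ] ℝ) (T : XX u →L[ℝ] VV N) (S : XX u →L[ℝ] XX u) :
    dt ξ (fun j => (T ∘L S) (bas u j)) = S.det * dt ξ (fun j => T (bas u j)) :=
  dt_comp (fun i => ξ i ∘L T) S

end XTanX

open XTanX

theorem Amb.tanE (A : Amb e r U g Pr Io C₀ a) : ∃ σ C, 0 < σ ∧ 0 < C ∧ TanE e r U g Pr Io a σ C := by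
  obtain ⟨σ, K, hσ, hK, h⟩ := start A
  have h1 := A.one_le
  have hC : 0 < C₀ := lt_of_lt_of_le zero_lt_one h1
  have ha := A.a_pos
  have ha1 := a_le_one A
  have p1 : 0 < 2 * C₀ ^ 3 := by positivity
  have p2 : 0 < 2 * C₀ ^ 3 * K := by positivity
  have p3 : 0 < K * (1 + C₀ * (2 * C₀ ^ 3 * K)) := by positivity
  refine ⟨σ, 2 * C₀ ^ 3 + 2 * C₀ ^ 3 * K + K * (1 + C₀ * (2 * C₀ ^ 3 * K)), hσ, by positivity,
    fun x y hy => (h x y hy).1, fun x y n b hy => ?_, fun x y n b hy => ?_, fun x y hy => ?_⟩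
  · obtain ⟨hU, -, hb⟩ := h x y hy
    obtain ⟨i1, i2, -⟩ := iter A hU (Io x b) n
    have han : a ^ n ≤ 1 := pow_le_one₀ ha.le ha1
    refine i1.trans (mul_le_mul_of_nonneg_left ((hb b).1.trans (i2.trans ?_)) (pow_pos ha n).le)
    exact mul_le_of_le_one_left (norm_nonneg _) han
  · obtain ⟨hU, -, hb⟩ := h x y hy
    obtain ⟨-, i2, -⟩ := iter A hU (Io x b) n
    have han := pow_pos ha n
    calc ‖b‖ ≤ _ := (hb b).2
      _ ≤ 2 * C₀ * (a ^ n * (C₀ ^ 2 * ‖Dn e r g n y (Io x b)‖)) :=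
        mul_le_mul_of_nonneg_left (i2.trans (mul_le_mul_of_nonneg_left (nQ A _ _) han.le))
          (by positivity)
      _ = 2 * C₀ ^ 3 * a ^ n * ‖Dn e r g n y (Io x b)‖ := by ring
      _ ≤ _ := by gcongr; linarith
  · obtain ⟨hU, hR, hb⟩ := h x y hy
    have hS : ∀ b, ‖b‖ ≤ 2 * C₀ ^ 2 * ‖(Pr (r y) ∘L Dn e r g 0 y ∘L Io x) b‖ := fun b => by
      calc ‖b‖ ≤ _ := (hb b).2
        _ ≤ 2 * C₀ * (C₀ * ‖Pr (r y) (Dn e r g 0 y (Io x b))‖) :=
          mul_le_mul_of_nonneg_left (A.n_io _ _) (by positivity)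
        _ = _ := by
          simp only [ContinuousLinearMap.comp_apply]
          ring
    obtain ⟨S', hS1, -⟩ := exists_inv (inj_of_le hS)
    have hβ : ∀ w, ‖S' (Pr (r y) (Dn e r g 0 y w))‖ ≤ 2 * C₀ ^ 3 * K * ‖w‖ := fun w => by
      calc _ ≤ _ := hS _
        _ = 2 * C₀ ^ 2 * ‖Pr (r y) (Dn e r g 0 y w)‖ := by rw [hS1]
        _ ≤ 2 * C₀ ^ 2 * (C₀ * (K * ‖w‖)) :=
          mul_le_mul_of_nonneg_left ((A.n_pr _ _).trans (mul_le_mul_of_nonneg_left (hR w) hC.le))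
            (by positivity)
        _ = _ := by ring
    refine ⟨S' ∘L Pr (r y) ∘L Dn e r g 0 y, fun w => (hβ w).trans ?_, fun n w => ?_⟩
    · gcongr
      linarith
    · simp only [ContinuousLinearMap.comp_apply]
      have hβw := hβ w
      have h0 := hS1 (Pr (r y) (Dn e r g 0 y w))
      simp only [ContinuousLinearMap.comp_apply] at h0
      generalize S' (Pr (r y) (Dn e r g 0 y w)) = b at hβw h0 ⊢
      have h2 : Pr (r y) (Dn e r g 0 y (w - Io x b)) = 0 := by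
        rw [map_sub, map_sub, h0, sub_self]
      obtain ⟨i1, -, i3⟩ := iter A hU (w - Io x b) n
      rw [i3 h2, h2, map_zero, sub_zero, sub_zero] at i1
      rw [← map_sub]
      have han := pow_pos ha n
      have h3 : ‖w - Io x b‖ ≤ (1 + C₀ * (2 * C₀ ^ 3 * K)) * ‖w‖ := by
        have h4 := norm_sub_le w (Io x b)
        have h5 := A.n_io x b
        have h6 := mul_le_mul_of_nonneg_left hβw hC.le
        nlinarith
      calc _ ≤ _ := i1
        _ ≤ a ^ n * (K * ((1 + C₀ * (2 * C₀ ^ 3 * K)) * ‖w‖)) :=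
          mul_le_mul_of_nonneg_left ((hR _).trans (mul_le_mul_of_nonneg_left h3 hK.le)) han.le
        _ = K * (1 + C₀ * (2 * C₀ ^ 3 * K)) * a ^ n * ‖w‖ := by ring
        _ ≤ _ := by gcongr; linarith

theorem pos_of_ne (A : Amb e r U g Pr Io C₀ a) {Ψ : M → (XX u →L[ℝ] VV N) → ℝ} (h : UF Ψ)
    (h0 : ∀ x, Ψ x (Io x) ≠ 0) : Pos Pr Io Ψ := by
  have h1 := A.one_le
  have hC : 0 < C₀ := lt_of_lt_of_le zero_lt_one h1
  let Z : Set (M × (XX u →L[ℝ] VV N)) :=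
    (Set.univ ×ˢ closedBall 0 C₀) ∩
      ({p | (Io p.1 ∘L Pr p.1) ∘L p.2 = p.2} ∩ ⋂ b, {p | ‖b‖ ≤ C₀ * ‖p.2 b‖})
  have hZ : IsCompact Z := by
    refine (isCompact_univ.prod (isCompact_closedBall 0 C₀)).inter_right (IsClosed.inter ?_ ?_)
    · exact isClosed_eq ((A.cont.comp continuous_fst).clm_comp continuous_snd) continuous_snd
    · refine isClosed_iInter fun b => isClosed_le continuous_const ?_
      exact continuous_const.mul (continuous_snd.clm_apply continuous_const).norm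
  have hmem : ∀ x, (x, Io x) ∈ Z := fun x => by
    refine ⟨⟨trivial, ?_⟩, ?_, Set.mem_iInter.2 fun b => ?_⟩
    · exact mem_closedBall_zero_iff.2
        (ContinuousLinearMap.opNorm_le_bound _ hC.le (A.n_io x))
    · refine ContinuousLinearMap.ext fun b => ?_
      simp only [ContinuousLinearMap.comp_apply, A.pr_io]
    · have := A.n_pr x (Io x b)
      rwa [A.pr_io] at this
  have hsub : Z ⊆ {p | Ψ p.1 p.2 ≠ 0} := by
    rintro ⟨x, T⟩ ⟨-, h2, h3⟩
    have h4 : Io x ∘L (Pr x ∘L T) = T := h2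
    have h5 : ∀ b, ‖b‖ ≤ C₀ * ‖T b‖ := fun b => Set.mem_iInter.1 h3 b
    have h6 : Function.Injective (Pr x ∘L T) := by
      intro b b' hb
      refine inj_of_le h5 ?_
      rw [← h4, ContinuousLinearMap.comp_apply, hb]
      rfl
    show Ψ x T ≠ 0
    rw [← h4, h.comp]
    exact mul_ne_zero (det_ne_zero_iff.2 h6) (h0 x)
  obtain ⟨δ, hδ, hth⟩ := hZ.exists_cthickening_subset_open
    (isOpen_ne_fun h.cont continuous_const) hsub
  obtain ⟨c, hc, hlow⟩ := (hZ.cthickening (r := δ)).exists_forall_le'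
    (f := fun p => |Ψ p.1 p.2|) (a := 0) h.cont.abs.continuousOn
    fun p hp => abs_pos.2 (show Ψ p.1 p.2 ≠ 0 from hth hp)
  have hf : (0 : ℝ) < u.factorial * (2 * C₀) ^ u := by positivity
  refine ⟨min 1 (δ / C₀), u.factorial * (2 * C₀) ^ u / c, lt_min one_pos (div_pos hδ hC),
    div_pos hf hc, fun x T hT S hS => ?_⟩
  have h2 : ∀ v, ‖S v‖ ≤ 2 * C₀ * ‖(Pr x ∘L T) v‖ := fun v => by
    have h3 := (hT v).trans (mul_le_mul_of_nonneg_right (min_le_left _ _) (norm_nonneg _))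
    have h4 := norm_sub_norm_le (T v) (Io x (Pr x (T v)))
    have h5 := A.n_io x (Pr x (T v))
    have h6 := hS v
    rw [ContinuousLinearMap.comp_apply]
    linarith
  have h3 := det_le_det (by positivity) h2
  by_cases hd : (Pr x ∘L T).det = 0
  · rw [hd, abs_zero, mul_zero] at h3
    exact h3.trans (by positivity)
  · obtain ⟨S', hS1, hS2⟩ := exists_inv (det_ne_zero_iff.1 hd)
    have h4 : (T ∘L S') ∘L (Pr x ∘L T) = T := by
      refine ContinuousLinearMap.ext fun v => ?_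
      rw [ContinuousLinearMap.comp_apply, ContinuousLinearMap.comp_apply, hS2]
    have h5 : ‖T ∘L S' - Io x‖ ≤ δ := by
      refine ContinuousLinearMap.opNorm_le_bound _ hδ.le fun v => ?_
      have h6 := (hT (S' v)).trans (mul_le_mul_of_nonneg_right (min_le_right _ _) (norm_nonneg _))
      have h7 : Pr x (T (S' v)) = v := hS1 v
      rw [h7] at h6
      calc _ ≤ _ := h6
        _ ≤ δ / C₀ * (C₀ * ‖v‖) := mul_le_mul_of_nonneg_left (A.n_io x v) (div_pos hδ hC).le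
        _ = δ * ‖v‖ := by field_simp
    have h6 : c ≤ |Ψ x (T ∘L S')| := by
      refine hlow (x, T ∘L S') (mem_cthickening_of_dist_le _ (x, Io x) _ _ (hmem x) ?_)
      rw [Prod.dist_eq, dist_self, dist_eq_norm]
      exact max_le hδ.le h5
    have h7 : |Ψ x T| = |(Pr x ∘L T).det| * |Ψ x (T ∘L S')| := by
      rw [← abs_mul, ← h.comp, h4]
    rw [h7]
    calc _ ≤ _ := h3
      _ = u.factorial * (2 * C₀) ^ u / c * (|(Pr x ∘L T).det| * c) := by field_simp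
      _ ≤ _ := by gcongr

theorem uf_psiW (A : Amb e r U g Pr Io C₀ a) {w : (Fin u → Fin N) → VV N → ℝ}
    (hw : ∀ I, Continuous (w I)) : UF (PsiW e w) := by
  refine ⟨continuous_finsetSum _ fun I _ => ?_, fun x T S => ?_⟩
  · refine ((hw I).comp (A.cont_e.comp continuous_fst)).mul ?_
    refine continuousOn_univ.1 (continuousOn_dt (fun i => continuousOn_const) fun j => ?_)
    exact (continuous_snd.clm_apply continuous_const).continuousOn
  · simp only [PsiW, dt_comp', Finset.mul_sum]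
    exact Finset.sum_congr rfl fun I _ => by ring

theorem uf_psiF (A : Amb e r U g Pr Io C₀ a) {m : ℕ} {c : Fin m → M → ℝ}
    {f : Fin m → Fin u → M → ℝ} (hc : ∀ t, ContDiffOn ℝ 1 (c t ∘ r) U)
    (hf : ∀ t i, ContDiffOn ℝ 1 (f t i ∘ r) U) : UF (PsiF e r c f) := by
  refine ⟨continuous_finsetSum _ fun t _ => ?_, fun x T S => ?_⟩
  · refine ((A.cont_φ (hc t)).comp continuous_fst).mul ?_
    refine continuousOn_univ.1 (continuousOn_dt (fun i => ?_) fun j => ?_)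
    · exact ((A.cont_Dm (hf t i)).comp continuous_fst).continuousOn
    · exact (continuous_snd.clm_apply continuous_const).continuousOn
  · simp only [PsiF, dt_comp', Finset.mul_sum]
    exact Finset.sum_congr rfl fun I _ => by ring

/-- For large `n` a positive form dominates the volume element of the iterated discs and does not
vanish. -/
theorem TanE.dom {σ C : ℝ} (T : TanE e r U g Pr Io a σ C) (hC : 0 < C) (h1 : 0 < a) (h2 : a < 1)
    {Ψ : M → (XX u →L[ℝ] VV N) → ℝ} (h : Pos Pr Io Ψ) : ∃ c, 0 < c ∧ ∀ᶠ n in atTop, ∀ x y,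
      ‖y - e x‖ ≤ σ → Ψ (g^[n] (r y)) (Dn e r g n y ∘L Io x) ≠ 0 ∧
        Above (Dn e r g n y ∘L Io x) (c * |Ψ (g^[n] (r y)) (Dn e r g n y ∘L Io x)|) := by
  obtain ⟨κ, c, hκ, hc, hp⟩ := h
  refine ⟨c, hc, ?_⟩
  have he : ∀ᶠ n : ℕ in atTop, a ^ n ≤ κ :=
    (tendsto_pow_atTop_nhds_zero_of_lt_one h1.le h2).eventually (ge_mem_nhds hκ)
  filter_upwards [he] with n hn x y hy
  have hab := hp (g^[n] (r y)) (Dn e r g n y ∘L Io x) fun v =>
    (T.cone x y n v hy).trans (mul_le_mul_of_nonneg_right hn (norm_nonneg _))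
  refine ⟨fun h0 => ?_, hab⟩
  have hq : 0 < C * a ^ n := by positivity
  have h3 := hab ((C * a ^ n)⁻¹ • ContinuousLinearMap.id ℝ (XX u)) fun v => by
    rw [_root_.smul_apply, ContinuousLinearMap.id_apply, norm_smul, norm_inv,
      Real.norm_of_nonneg hq.le, inv_mul_le_iff₀ hq]
    exact T.expd x y n v hy
  rw [h0, abs_zero, mul_zero, abs_nonpos_iff] at h3
  refine det_ne_zero_iff.2 (inj_of_le (K := C * a ^ n) fun v => ?_) h3
  rw [_root_.smul_apply, ContinuousLinearMap.id_apply, norm_smul, norm_inv,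
    Real.norm_of_nonneg hq.le, ← mul_assoc, mul_inv_cancel₀ hq.ne', one_mul]


end Pool.Agent.P.MP_5c499f_an
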