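import Pool.Agent.P.MP_5c499f_an.XOmA
import Pool.Agent.P.MP_5c499f_an.XTan

/-! Positivity of the limit form. -/

set_option autoImplicit false

namespace Pool.Agent.P.MP_5c499f_an

open Filter Topology Metric MeasureTheory Matrix

variable {M : Type*} [MetricSpace M] [CompactSpace M] {N u : ℕ} {e : M → VV N} {r : VV N → M}
  {U : Set (VV N)} {g : Equiv.Perm M} {Pr : M → VV N →L[ℝ] XX u} {Io : M → XX u →L[ℝ] VV N}
  {C₀ a : ℝ}
  {H s C : ℝ} {m : ℕ} {c : Fin m → M → ℝ} {f : Fin m → Fin u → M → ℝ} {ρ : VV N → ℝ}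
  {K : Set (VV N)}

namespace XOmPX

omit [CompactSpace M] in
lemma sum_cf (A : Amb e r U g Pr Io C₀ a) (hf : ∀ t i, ContDiffOn ℝ 1 (f t i ∘ r) U) (n : ℕ)
    (x : M) {z : VV N} (hz : z ∈ U) :
    ∑ I, cf r g H c f n I z * dt (fun i => crd (I i)) (fun j => Io x (bas u j)) =
      (H ^ n)⁻¹ * u.factorial * PsiF e r c f (g^[n] (r z)) (Dn e r g n z ∘L Io x) := by
  have h1 : ∀ t, ∑ I : Fin u → Fin N,
      dt (fun i => fderiv ℝ (f t i ∘ g^[n] ∘ r) z) (fun j => evec (I j)) *
        dt (fun i => crd (I i)) (fun j => Io x (bas u j)) = u.factorial *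
      dt (fun i => Dm e r (f t i) (g^[n] (r z))) fun j => (Dn e r g n z ∘L Io x) (bas u j) := by
    intro t
    rw [binet]
    simp only [A.fderiv_iter (hf t _) n hz]
    rfl
  simp only [cf, PsiF, Finset.mul_sum, Finset.sum_mul]
  rw [Finset.sum_comm]
  refine Finset.sum_congr rfl fun t _ => ?_
  have h2 := congrArg (fun y => (H ^ n)⁻¹ * c t (g^[n] (r z)) * y) (h1 t)
  simp only [Finset.mul_sum] at h2
  refine Eq.trans (Finset.sum_congr rfl fun I _ => by ring) (h2.trans (by ring))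

lemma sign {B : Set (VV N)} (hB : IsPreconnected B) {P : VV N → ℝ} (hP : ContinuousOn P B)
    (h0 : ∀ z ∈ B, P z ≠ 0) : ∃ σ : ℝ, |σ| = 1 ∧ ∀ z ∈ B, P z = σ * |P z| := by
  by_cases h : ∀ z ∈ B, 0 < P z
  · exact ⟨1, abs_one, fun z hz => by rw [one_mul, abs_of_pos (h z hz)]⟩
  · push Not at h
    obtain ⟨y, hy, hy0⟩ := h
    refine ⟨-1, by simp, fun z hz => ?_⟩
    have : P z ≤ 0 := by
      by_contra hz0
      obtain ⟨w, hw, hw0⟩ := hB.intermediate_value hy hz hP ⟨hy0, (not_le.1 hz0).le⟩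
      exact h0 w hw hw0
    rw [abs_of_nonpos this]; ring

/-- Lower bound for the weighted integral of a function of constant sign. -/
lemma low {p : VV N} {t : ℝ} (ht : 0 < t) {P κ : VV N → ℝ} (hκ : Continuous κ)
    (hκ0 : ∀ z, 0 ≤ κ z) (hκ1 : ∀ z ∈ closedBall p (t / 2), κ z = 1)
    (hP : ContinuousOn P (closedBall p t)) (h0 : ∀ z ∈ closedBall p t, P z ≠ 0) :
    ∫ z in closedBall p (t / 2), |P z| ≤ |∫ z in closedBall p t, κ z * P z| := by
  obtain ⟨σ, hσ, hs⟩ := sign (convex_closedBall p t).isPreconnected hP h0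
  have e1 : ∫ z in closedBall p t, κ z * P z = σ * ∫ z in closedBall p t, κ z * |P z| := by
    rw [← integral_const_mul]
    refine setIntegral_congr_fun measurableSet_closedBall fun z hz => ?_
    have := hs z hz
    show κ z * P z = σ * (κ z * |P z|)
    linear_combination κ z * this
  have e2 : ∫ z in closedBall p (t / 2), |P z| = ∫ z in closedBall p (t / 2), κ z * |P z| :=
    setIntegral_congr_fun measurableSet_closedBall fun z hz => by
      show |P z| = κ z * |P z|
      rw [hκ1 z hz, one_mul]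
  rw [e1, abs_mul, hσ, one_mul, e2]
  refine le_trans ?_ (le_abs_self _)
  refine setIntegral_mono_set
    ((hκ.continuousOn.mul hP.abs).integrableOn_compact (isCompact_closedBall p t))
    (Eventually.of_forall fun z => mul_nonneg (hκ0 z) (abs_nonneg _)) ?_
  exact (closedBall_subset_closedBall (by linarith)).eventuallyLE

end XOmPX

theorem cf_pos (A : Amb e r U g Pr Io C₀ a) (D : DV e r U g Pr Io C₀ a H s C)
    (hc : ∀ t, ContDiffOn ℝ 1 (c t ∘ r) U) (hf : ∀ t i, ContDiffOn ℝ 1 (f t i ∘ r) U)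
    (k : Ker e (s / 4) ρ K) (nz : ∀ x, PsiF e r c f x (Io x) ≠ 0) :
    ∃ c₀, 0 < c₀ ∧ ∀ᶠ n in atTop, ∀ x, c₀ ≤ |∑ I, (∫ z in K, ρ (e x - z) * cf r g H c f n I z) *
      dt (fun i => crd (I i)) fun j => Io x (bas u j)| := by
  have hs := D.s_pos
  have hH := D.H_pos
  have hC1 := A.one_le
  have ha1 : a < 1 := by
    have h2 := A.a_pos
    have h3 := A.a_le
    have h4 : 1 ≤ C₀ ^ 2 := one_le_pow₀ hC1
    nlinarith
  have hU := uf_psiF A hc hf
  obtain ⟨c₁, hc₁, hdom⟩ := D.tan.dom D.C_pos A.a_pos ha1 (pos_of_ne A hU nz)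
  obtain ⟨c₂, hc₂, hlow⟩ := (D.avg A).2 (s / 4 / 2) (by positivity) (by linarith)
  have hKU := (cf_bdd A D hc hf k).1
  refine ⟨c₂ / c₁, by positivity, hdom.mono fun n hn x => ?_⟩
  obtain ⟨P, hP⟩ : ∃ P : VV N → ℝ,
      P = fun z => PsiF e r c f (g^[n] (r z)) (Dn e r g n z ∘L Io x) := ⟨_, rfl⟩
  have hκ : Continuous fun z => ρ (e x - z) :=
    k.smooth.continuous.comp (continuous_const.sub continuous_id)
  have hBK : closedBall (e x) (s / 4) ⊆ K := fun z hz =>
    (k.mem z).2 ⟨x, mem_closedBall_iff_norm.1 hz⟩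
  have hσ : ∀ z ∈ closedBall (e x) (s / 4), ‖z - e x‖ ≤ (1 + C₀) * s := fun z hz =>
    (mem_closedBall_iff_norm.1 hz).trans (by nlinarith)
  have hPc : ContinuousOn P U := by
    rw [hP]
    exact hU.cont.comp_continuousOn
      (((A.cont_g.iterate n).comp_continuousOn A.cont_r).prodMk
        ((A.cont_Dn n).clm_comp continuousOn_const))
  have hint : ∀ I, IntegrableOn (fun z => ρ (e x - z) * cf r g H c f n I z) K := fun I =>
    (hκ.continuousOn.mul ((cf_cont A hc hf n I).mono hKU)).integrableOn_compact k.cpt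
  have e1 : ∑ I, (∫ z in K, ρ (e x - z) * cf r g H c f n I z) *
      dt (fun i => crd (I i)) (fun j => Io x (bas u j)) =
      (H ^ n)⁻¹ * u.factorial * ∫ z in closedBall (e x) (s / 4), ρ (e x - z) * P z := by
    simp only [← integral_mul_const]
    rw [← integral_finsetSum _ fun I _ => (hint I).mul_const _,
      ← setIntegral_eq_of_subset_of_forall_sdiff_eq_zero k.cpt.measurableSet hBK,
      ← integral_const_mul]
    · refine setIntegral_congr_fun k.cpt.measurableSet fun z hz => ?_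
      have h := XOmPX.sum_cf (H := H) (c := c) A hf n x (hKU hz)
      have h2 := congrArg (fun y => ρ (e x - z) * y) h
      simp only [Finset.mul_sum] at h2
      simp only [hP]
      exact Eq.trans (Finset.sum_congr rfl fun I _ => by ring) (h2.trans (by ring))
    · intro z hz
      have h := hz.2
      rw [mem_closedBall_iff_norm', not_le] at h
      rw [k.zero _ h.le, zero_mul]
  have e2 := XOmPX.low (p := e x) (t := s / 4) (by positivity) hκ (fun z => k.nonneg _)
    (fun z hz => k.one _ (mem_closedBall_iff_norm'.1 hz)) (hPc.mono (hBK.trans hKU))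
    (fun z hz => by rw [hP]; exact (hn x z (hσ z hz)).1)
  have hsub : closedBall (e x) (s / 4 / 2) ⊆ closedBall (e x) (s / 4) :=
    closedBall_subset_closedBall (by linarith)
  have hj : ContinuousOn (fun z => c₁ * |P z|) (closedBall (e x) (s / 4 / 2)) :=
    continuousOn_const.mul (hPc.mono (hsub.trans (hBK.trans hKU))).abs
  have e3 := hlow x n (fun z => c₁ * |P z|) hj
    (fun z hz => by rw [hP]; exact (hn x z (hσ z (hsub hz))).2)
  rw [← ofReal_integral_eq_lintegral_ofReal (hj.integrableOn_compact (isCompact_closedBall _ _))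
    (Eventually.of_forall fun z => mul_nonneg hc₁.le (abs_nonneg _)),
    ENNReal.ofReal_le_ofReal_iff (integral_nonneg fun z => mul_nonneg hc₁.le (abs_nonneg _)),
    integral_const_mul] at e3
  have hHn : 0 < H ^ n := pow_pos hH n
  have hfa : (1 : ℝ) ≤ u.factorial := Nat.one_le_cast.2 u.factorial_pos
  rw [e1, abs_mul, abs_of_pos (by positivity : (0 : ℝ) < (H ^ n)⁻¹ * u.factorial),
    div_le_iff₀ hc₁]
  obtain ⟨J, hJ⟩ : ∃ J, J = |∫ z in closedBall (e x) (s / 4), ρ (e x - z) * P z| := ⟨_, rfl⟩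
  rw [← hJ] at e2 ⊢
  have hJ0 : 0 ≤ J := hJ ▸ abs_nonneg _
  have e4 : c₂ * H ^ n ≤ c₁ * J := e3.trans (mul_le_mul_of_nonneg_left e2 hc₁.le)
  calc c₂ = (H ^ n)⁻¹ * (c₂ * H ^ n) := by field_simp
    _ ≤ (H ^ n)⁻¹ * (u.factorial * (c₁ * J)) :=
      mul_le_mul_of_nonneg_left (e4.trans (le_mul_of_one_le_left (by positivity) hfa))
        (by positivity)
    _ = _ := by ring


end Pool.Agent.P.MP_5c499f_an
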