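import Pool.Agent.P.MP_5c499f_an.XBasA

/-! Secant cones. -/

set_option autoImplicit false

namespace Pool.Agent.P.MP_5c499f_an

open Filter Topology Metric MeasureTheory Matrix

variable {M : Type*} [MetricSpace M] [CompactSpace M] {N u : ℕ} {e : M → VV N} {r : VV N → M}
  {U : Set (VV N)} {g : Equiv.Perm M} {Pr : M → VV N →L[ℝ] XX u} {Io : M → XX u →L[ℝ] VV N}
  {C₀ a : ℝ}

/-- The vector `v` lies in the unstable cone at `z`. -/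
def Cone (Pr : M → VV N →L[ℝ] XX u) (Io : M → XX u →L[ℝ] VV N) (z : M) (v : VV N) : Prop :=
  ‖v - Io z (Pr z v)‖ ≤ ‖Io z (Pr z v)‖

theorem Amb.cone_step (A : Amb e r U g Pr Io C₀ a) : ∃ ε₀, 0 < ε₀ ∧ ∀ z p q, dist p z ≤ ε₀ →
    dist q z ≤ ε₀ → Cone Pr Io z (e p - e q) → Cone Pr Io (g z) (e (g p) - e (g q)) ∧
      ‖Io z (Pr z (e p - e q))‖ ≤ ‖Io (g z) (Pr (g z) (e (g p) - e (g q)))‖ := by
  have c0 := A.one_le
  have c1 : 1 ≤ C₀ ^ 2 := one_le_pow₀ c0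
  have a0 := A.a_pos
  have a1 : a ≤ 1 / 10 := by nlinarith [A.a_le]
  obtain ⟨s, s0, hs⟩ := A.unif A.cg (θ := 1 / (10 * C₀ ^ 2)) (by positivity)
  refine ⟨s, s0, fun z p q hp hq hc => ?_⟩
  have e1 := (hs z (e p) (by rwa [← A.iso])).2.2 (e q) (by rwa [← A.iso])
  simp only [Function.comp_apply, A.ret] at e1
  change ‖_ - Dm e r (e ∘ g) z _‖ ≤ _ at e1
  unfold Cone at hc ⊢
  generalize e p - e q = v at *
  generalize e (g p) - e (g q) = v' at *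
  set w := v' - Dm e r (e ∘ g) z v with hw
  have e2 : ‖v‖ ≤ 2 * ‖Io z (Pr z v)‖ := by linarith [norm_le_norm_sub_add v (Io z (Pr z v))]
  have e3 : C₀ ^ 2 * ‖w‖ ≤ ‖Io z (Pr z v)‖ / 5 := by
    rw [div_mul_eq_mul_div, le_div_iff₀ (by positivity)] at e1
    linarith
  have e4 : ‖Io (g z) (Pr (g z) w)‖ ≤ C₀ ^ 2 * ‖w‖ := by
    nlinarith [A.n_io (g z) (Pr (g z) w), A.n_pr (g z) w]
  have e5 : Io (g z) (Pr (g z) v') = Dm e r (e ∘ g) z (Io z (Pr z v)) + Io (g z) (Pr (g z) w) := by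
    rw [← A.comm, hw, map_sub, map_sub]; abel
  have e6 : v' - Io (g z) (Pr (g z) v') =
      Dm e r (e ∘ g) z (v - Io z (Pr z v)) + (w - Io (g z) (Pr (g z) w)) := by
    rw [e5, map_sub (Dm e r (e ∘ g) z), hw]; abel
  have e7 := A.st z (v - Io z (Pr z v)) (by rw [map_sub, A.pr_io, sub_self])
  have e8 := A.un z (Pr z v)
  have e9 := norm_le_add_norm_add (Dm e r (e ∘ g) z (Io z (Pr z v))) (Io (g z) (Pr (g z) w))
  rw [← e5] at e9
  have f1 := norm_add_le (Dm e r (e ∘ g) z (v - Io z (Pr z v))) (w - Io (g z) (Pr (g z) w))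
  rw [← e6] at f1
  have f2 := norm_sub_le w (Io (g z) (Pr (g z) w))
  have f3 : ‖w‖ ≤ C₀ ^ 2 * ‖w‖ := le_mul_of_one_le_left (norm_nonneg _) c1
  have f4 := mul_le_mul_of_nonneg_right a1 (norm_nonneg (v - Io z (Pr z v)))
  have f5 := mul_le_mul_of_nonneg_right a1 (norm_nonneg (Dm e r (e ∘ g) z (Io z (Pr z v))))
  constructor <;> linarith [norm_nonneg (Io z (Pr z v))]

theorem Amb.cone_zero (A : Amb e r U g Pr Io C₀ a) : ∃ ε₀, 0 < ε₀ ∧ ∀ x z y₀ b b',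
    dist z x ≤ ε₀ → ‖y₀ + Io x b - e x‖ ≤ ε₀ → ‖y₀ + Io x b' - e x‖ ≤ ε₀ →
    Cone Pr Io z (e (r (y₀ + Io x b)) - e (r (y₀ + Io x b'))) ∧
      ‖b - b'‖ ≤ 4 * C₀ * ‖Io z (Pr z (e (r (y₀ + Io x b)) - e (r (y₀ + Io x b'))))‖ := by
  have c0 := A.one_le
  have c1 : 1 ≤ C₀ ^ 2 := one_le_pow₀ c0
  obtain ⟨s, s0, hs⟩ := A.unif A.c1 (θ := 1 / (10 * C₀ ^ 2)) (by positivity)
  obtain ⟨η, h0, h1⟩ := A.ucQ (κ := 1 / 10) (by norm_num)
  refine ⟨min s η, by positivity, fun x z y₀ b b' hz hb hb' => ?_⟩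
  have e1 := (hs x _ (hb.trans (min_le_left _ _))).2.2 _ (hb'.trans (min_le_left _ _))
  rw [add_sub_add_left_eq_sub, ← map_sub] at e1
  change ‖e _ - e _ - Dm e r e x _‖ ≤ _ at e1
  rw [A.tan] at e1
  have e2 := h1 z x (hz.trans (min_le_right _ _)) (Io x (b - b'))
  have e0 := A.n_pr x (Io x (b - b'))
  rw [A.pr_io] at e2 e0
  unfold Cone
  set v := e (r (y₀ + Io x b)) - e (r (y₀ + Io x b'))
  set w := Io x (b - b')
  have e3 : C₀ ^ 2 * ‖v - w‖ ≤ ‖w‖ / 10 := by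
    rw [div_mul_eq_mul_div, le_div_iff₀ (by positivity)] at e1
    linarith
  have e4 : ‖Io z (Pr z (v - w))‖ ≤ C₀ ^ 2 * ‖v - w‖ := by
    nlinarith [A.n_io z (Pr z (v - w)), A.n_pr z (v - w)]
  rw [map_sub, map_sub] at e4
  have f3 : ‖v - w‖ ≤ C₀ ^ 2 * ‖v - w‖ := le_mul_of_one_le_left (norm_nonneg _) c1
  have f1 := norm_sub_le_norm_sub_add_norm_sub (Io z (Pr z v)) (Io z (Pr z w)) w
  have f2 := norm_sub_le_norm_sub_add_norm_sub v w (Io z (Pr z v))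
  have f4 := norm_le_norm_sub_add w (Io z (Pr z v))
  rw [norm_sub_rev w] at f2 f4
  have f5 : ‖w‖ ≤ 4 * ‖Io z (Pr z v)‖ := by linarith [norm_nonneg w]
  exact ⟨by linarith [norm_nonneg w], e0.trans (by nlinarith)⟩

/-- Two points of a disc whose orbits stay near the orbit of `z` are distinguished by the unstable
coordinate. -/
theorem Amb.cone_iter (A : Amb e r U g Pr Io C₀ a) : ∃ ε₀, 0 < ε₀ ∧ ∀ x z y₀ b b' (n : ℕ),
    dist z x ≤ ε₀ → ‖y₀ + Io x b - e x‖ ≤ ε₀ → ‖y₀ + Io x b' - e x‖ ≤ ε₀ →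
    (∀ k < n, dist (g^[k] (r (y₀ + Io x b))) (g^[k] z) ≤ ε₀) →
    (∀ k < n, dist (g^[k] (r (y₀ + Io x b'))) (g^[k] z) ≤ ε₀) →
    Cone Pr Io (g^[n] z) (e (g^[n] (r (y₀ + Io x b))) - e (g^[n] (r (y₀ + Io x b')))) ∧
      ‖b - b'‖ ≤ 4 * C₀ ^ 2 *
        ‖Pr (g^[n] z) (e (g^[n] (r (y₀ + Io x b))) - e (g^[n] (r (y₀ + Io x b'))))‖ := by
  have c0 := A.one_le
  obtain ⟨ε₁, a1, a2⟩ := A.cone_step
  obtain ⟨ε₂, a3, a4⟩ := A.cone_zero
  refine ⟨min ε₁ ε₂, by positivity, fun x z y₀ b b' n h1 h2 h3 h4 h5 => ?_⟩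
  suffices h : Cone Pr Io (g^[n] z) (e (g^[n] (r (y₀ + Io x b))) - e (g^[n] (r (y₀ + Io x b')))) ∧
      ‖b - b'‖ ≤ 4 * C₀ * ‖Io (g^[n] z) (Pr (g^[n] z)
        (e (g^[n] (r (y₀ + Io x b))) - e (g^[n] (r (y₀ + Io x b')))))‖ from
    ⟨h.1, h.2.trans ((mul_le_mul_of_nonneg_left (A.n_io _ _) (by positivity)).trans_eq (by ring))⟩
  induction n with
  | zero =>
    exact a4 x z y₀ b b' (h1.trans (min_le_right _ _)) (h2.trans (min_le_right _ _))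
      (h3.trans (min_le_right _ _))
  | succ n ih =>
    obtain ⟨i1, i2⟩ := ih (fun k hk => h4 k (by omega)) fun k hk => h5 k (by omega)
    obtain ⟨i3, i4⟩ := a2 _ _ _ ((h4 n (by omega)).trans (min_le_left _ _))
      ((h5 n (by omega)).trans (min_le_left _ _)) i1
    simp only [Function.iterate_succ_apply']
    exact ⟨i3, i2.trans (by gcongr)⟩


end Pool.Agent.P.MP_5c499f_an
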