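import Pool.Agent.P.MP_5c499f_an.XTan
import Pool.Agent.P.MP_5c499f_an.XSec

/-! Upper bound for the volume of iterated discs. -/

set_option autoImplicit false

namespace Pool.Agent.P.MP_5c499f_an

open Filter Topology Metric MeasureTheory Matrix

namespace XUpX

lemma lint_cover {X ι : Type*} [MeasurableSpace X] (μ : Measure X) (E : Finset ι) (P : ι → Set X)
    (B : Set X) (f : X → ENNReal) (K : ENNReal) (hB : ∀ b ∈ B, ∃ z ∈ E, b ∈ P z)
    (hK : ∀ z ∈ E, ∫⁻ b in P z, f b ∂μ ≤ K) : ∫⁻ b in B, f b ∂μ ≤ E.card * K := by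
  have h1 : B ⊆ ⋃ z : E, P z := fun b hb => by
    obtain ⟨z, hz, hb'⟩ := hB b hb
    exact Set.mem_iUnion.2 ⟨⟨z, hz⟩, hb'⟩
  refine (lintegral_mono_set h1).trans ((lintegral_iUnion_le _ _).trans ?_)
  rw [tsum_fintype]
  refine (Finset.sum_le_sum fun (z : E) _ => hK z z.2).trans ?_
  simp

lemma det_smul' {u : ℕ} (c : ℝ) (S : XX u →L[ℝ] XX u) : (c • S).det = c ^ u * S.det := by
  have := LinearMap.det_smul c (S : XX u →ₗ[ℝ] XX u)
  rw [Module.finrank_fin_fun] at this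
  exact this

lemma area {u : ℕ} {P : Set (XX u)} (hP : MeasurableSet P) {Θ : XX u → XX u}
    {D : XX u → XX u →L[ℝ] XX u} (hD : ∀ b ∈ P, HasFDerivAt Θ (D b) b) (hi : Set.InjOn Θ P)
    {R c : ℝ} (hR : 0 ≤ R) (hc : 0 ≤ c) (him : ∀ b ∈ P, ‖Θ b‖ ≤ R) {j : XX u → ℝ}
    (hj : ∀ b ∈ P, j b ≤ c * |(D b).det|) :
    ∫⁻ b in P, ENNReal.ofReal (j b) ≤ ENNReal.ofReal (c * (2 * R) ^ u) := by
  have h1 : ∫⁻ b in P, ENNReal.ofReal (j b) ≤
      ∫⁻ b in P, ENNReal.ofReal c * ENNReal.ofReal |(D b).det| := by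
    refine setLIntegral_mono' hP fun b hb => ?_
    rw [← ENNReal.ofReal_mul hc]
    exact ENNReal.ofReal_le_ofReal (hj b hb)
  refine h1.trans ?_
  rw [lintegral_const_mul' _ _ ENNReal.ofReal_ne_top,
    lintegral_abs_det_fderiv_eq_addHaar_image volume hP (fun b hb => (hD b hb).hasFDerivWithinAt) hi,
    ENNReal.ofReal_mul hc]
  have h2 : Θ '' P ⊆ closedBall 0 R := by
    rintro _ ⟨b, hb, rfl⟩
    exact mem_closedBall_zero_iff.2 (him b hb)
  have h3 := measure_mono (μ := volume) h2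
  rw [Real.volume_pi_closedBall _ hR, Fintype.card_fin] at h3
  gcongr

end XUpX

variable {M : Type*} [MetricSpace M] [CompactSpace M] {N u : ℕ} {e : M → VV N} {r : VV N → M}
  {U : Set (VV N)} {g : Equiv.Perm M} {Pr : M → VV N →L[ℝ] XX u} {Io : M → XX u →L[ℝ] VV N}
  {C₀ a : ℝ}

theorem Amb.upE (A : Amb e r U g Pr Io C₀ a) : ∃ ε₀, 0 < ε₀ ∧ ∀ H ε δ, ε ≤ ε₀ → Ent g H ε δ →
    ∃ s₀, 0 < s₀ ∧ ∃ C, 0 < C ∧ ∀ s, 0 < s → s ≤ s₀ → UpE e r g Io H s C := by
  obtain ⟨ε₁, hε₁, hit⟩ := A.cone_iter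
  obtain ⟨η, hη, hQ⟩ := A.ucQ (κ := 1 / 4) (by norm_num)
  obtain ⟨σ, C₁, hσ, -, hT⟩ := A.tanE
  obtain ⟨ε₀, hε₀, e1, e2⟩ : ∃ ε₀ : ℝ, 0 < ε₀ ∧ ε₀ ≤ ε₁ / 2 ∧ ε₀ ≤ η :=
    ⟨min (ε₁ / 2) η, by positivity, min_le_left _ _, min_le_right _ _⟩
  have hC₀ := A.one_le
  have ha0 := A.a_pos
  have ha1 : a ≤ 1 := by
    have h1 := A.a_le
    have h2 : 1 ≤ C₀ ^ 2 := one_le_pow₀ hC₀
    nlinarith
  refine ⟨ε₀, hε₀, fun H ε δ hε hE => ?_⟩
  have hδ := hE.δ_pos
  obtain ⟨s₁, hs₁, hnear⟩ := A.near (η := min δ (ε₁ / 2)) (by positivity)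
  obtain ⟨C₂, hup⟩ := hE.up
  obtain ⟨m, hm, m1, m2, m3⟩ : ∃ m : ℝ, 0 < m ∧ m ≤ s₁ ∧ m ≤ σ ∧ m ≤ ε₁ :=
    ⟨min s₁ (min σ ε₁), by positivity, min_le_left _ _, (min_le_right _ _).trans (min_le_left _ _),
      (min_le_right _ _).trans (min_le_right _ _)⟩
  refine ⟨m / (1 + C₀), by positivity, (|C₂| + 1) * ((4 * C₀) ^ u * (2 * (C₀ * ε₀)) ^ u),
    by positivity, fun s hs hs0 x y₀ n j hy₀ hj => ?_⟩
  have hclose : ∀ b ∈ closedBall (0 : XX u) s, ‖y₀ + Io x b - e x‖ ≤ m := by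
    intro b hb
    have h1 : ‖b‖ ≤ s := mem_closedBall_zero_iff.1 hb
    have h2 : ‖Io x b‖ ≤ C₀ * s := (A.n_io x b).trans (mul_le_mul_of_nonneg_left h1 (by linarith))
    have h3 : y₀ + Io x b - e x = (y₀ - e x) + Io x b := by abel
    have h4 : s * (1 + C₀) ≤ m := (le_div_iff₀ (by positivity)).1 hs0
    rw [h3]
    refine (norm_add_le _ _).trans ?_
    linarith
  obtain ⟨E, hcard, hE'⟩ := hup x n
  have hU : ∀ b ∈ closedBall (0 : XX u) s, y₀ + Io x b ∈ U := fun b hb =>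
    (hnear x _ ((hclose b hb).trans m1)).1
  have hd : ∀ b ∈ closedBall (0 : XX u) s, dist (r (y₀ + Io x b)) x ≤ min δ (ε₁ / 2) := fun b hb =>
    (hnear x _ ((hclose b hb).trans m1)).2
  have hcont : ContinuousOn (fun b : XX u => r (y₀ + Io x b)) (closedBall 0 s) :=
    A.cont_r.comp (continuous_const.add (Io x).continuous).continuousOn hU
  let P : M → Set (XX u) := fun z => closedBall 0 s ∩ (fun b : XX u => r (y₀ + Io x b)) ⁻¹'
    {y | ∀ k ≤ n, dist (g^[k] y) (g^[k] z) ≤ ε₀}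
  have hPc : ∀ z, IsClosed (P z) := by
    intro z
    refine hcont.preimage_isClosed_of_isClosed isClosed_closedBall ?_
    have : {y : M | ∀ k ≤ n, dist (g^[k] y) (g^[k] z) ≤ ε₀} =
        ⋂ k : ℕ, ⋂ _ : k ≤ n, {y : M | dist (g^[k] y) (g^[k] z) ≤ ε₀} := by
      ext y
      simp
    rw [this]
    exact isClosed_iInter fun k => isClosed_iInter fun _ =>
      isClosed_le ((A.cont_g.iterate k).dist continuous_const) continuous_const
  have key : ∀ z ∈ E, ∫⁻ b in P z, ENNReal.ofReal (j b) ≤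
      ENNReal.ofReal ((4 * C₀) ^ u * (2 * (C₀ * ε₀)) ^ u) := by
    intro z _
    refine XUpX.area (hPc z).measurableSet
      (Θ := fun b => Pr (g^[n] z) (e (g^[n] (r (y₀ + Io x b))) - e (g^[n] z)))
      (D := fun b => Pr (g^[n] z) ∘L (Dn e r g n (y₀ + Io x b) ∘L Io x)) (fun b hb => ?_)
      (fun b hb b' hb' hbb => ?_) (by positivity) (by positivity) (fun b hb => ?_) fun b hb => ?_
    · exact (Pr (g^[n] z)).hasFDerivAt.comp b ((A.hasFDerivAt_disc x y₀ n (hU b hb.1)).sub_const _)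
    · have hz : dist z x ≤ ε₁ := by
        have h1 : dist (r (y₀ + Io x b)) z ≤ ε₀ := hb.2 0 (Nat.zero_le _)
        have h2 := (hd b hb.1).trans (min_le_right _ _)
        have h3 := dist_triangle_left z x (r (y₀ + Io x b))
        linarith
      have h4 := (hit x z y₀ b b' n hz ((hclose b hb.1).trans m3) ((hclose b' hb'.1).trans m3)
        (fun k hk => (hb.2 k hk.le).trans (by linarith))
        (fun k hk => (hb'.2 k hk.le).trans (by linarith))).2
      have h5 : Pr (g^[n] z) (e (g^[n] (r (y₀ + Io x b))) - e (g^[n] (r (y₀ + Io x b')))) = 0 := by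
        have h6 : e (g^[n] (r (y₀ + Io x b))) - e (g^[n] (r (y₀ + Io x b'))) =
            (e (g^[n] (r (y₀ + Io x b))) - e (g^[n] z)) -
              (e (g^[n] (r (y₀ + Io x b'))) - e (g^[n] z)) := by abel
        rw [h6, map_sub]
        exact sub_eq_zero.2 hbb
      rw [h5, norm_zero, mul_zero] at h4
      exact sub_eq_zero.1 (norm_le_zero_iff.1 h4)
    · refine (A.n_pr _ _).trans (mul_le_mul_of_nonneg_left ?_ (by linarith))
      rw [← A.iso]
      exact hb.2 n le_rfl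
    · have h1 := hj b hb.1 ((4 * C₀) • (Pr (g^[n] z) ∘L (Dn e r g n (y₀ + Io x b) ∘L Io x)))
        fun v => by
          have h2 := hT.cone x (y₀ + Io x b) n v ((hclose b hb.1).trans m2)
          have h3 := hQ _ _ ((hb.2 n le_rfl).trans e2) (Dn e r g n (y₀ + Io x b) (Io x v))
          have h4 := A.n_io (g^[n] z) (Pr (g^[n] z) (Dn e r g n (y₀ + Io x b) (Io x v)))
          have h5 : a ^ n ≤ 1 := pow_le_one₀ ha0.le ha1
          simp only [_root_.smul_apply, ContinuousLinearMap.comp_apply, norm_smul,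
            Real.norm_eq_abs]
          rw [abs_of_nonneg (by positivity : (0 : ℝ) ≤ 4 * C₀)]
          generalize Dn e r g n (y₀ + Io x b) (Io x v) = w at *
          generalize Io (g^[n] (r (y₀ + Io x b))) (Pr (g^[n] (r (y₀ + Io x b))) w) = q at *
          generalize Io (g^[n] z) (Pr (g^[n] z) w) = q' at *
          have h6 : ‖w‖ ≤ ‖w - q‖ + ‖q‖ := by simpa using norm_add_le (w - q) q
          have h7 : ‖q‖ ≤ ‖q - q'‖ + ‖q'‖ := by simpa using norm_add_le (q - q') q'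
          have h8 : a ^ n * ‖q‖ ≤ 1 * ‖q‖ := mul_le_mul_of_nonneg_right h5 (norm_nonneg _)
          linarith
      rwa [XUpX.det_smul', abs_mul, abs_of_nonneg (by positivity : (0 : ℝ) ≤ (4 * C₀) ^ u)] at h1
  refine (XUpX.lint_cover volume E P _ _ _ (fun b hb => ?_) key).trans ?_
  · obtain ⟨z, hz, hk⟩ := hE' _ ((hd b hb).trans (min_le_left _ _))
    exact ⟨z, hz, hb, fun k hk' => (hk k hk').trans hε⟩
  · rw [← ENNReal.ofReal_natCast, ← ENNReal.ofReal_mul (Nat.cast_nonneg _)]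
    refine ENNReal.ofReal_le_ofReal ?_
    have hH : 0 ≤ H ^ n := pow_nonneg (zero_le_one.trans hE.one_le) n
    have h1 : (E.card : ℝ) ≤ (|C₂| + 1) * H ^ n :=
      hcard.trans (mul_le_mul_of_nonneg_right (by linarith [le_abs_self C₂]) hH)
    calc (E.card : ℝ) * ((4 * C₀) ^ u * (2 * (C₀ * ε₀)) ^ u)
        ≤ (|C₂| + 1) * H ^ n * ((4 * C₀) ^ u * (2 * (C₀ * ε₀)) ^ u) :=
          mul_le_mul_of_nonneg_right h1 (by positivity)
      _ = _ := by ring


end Pool.Agent.P.MP_5c499f_an
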