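import Pool.Agent.P.MP_5c499f_an.XOmP
import Pool.Agent.P.MP_5c499f_an.XOmC
import Pool.Agent.P.MP_5c499f_an.XLim
import Pool.Agent.P.MP_5c499f_an.XUp
import Pool.Agent.P.MP_5c499f_an.XLow

/-! A closed form which is positive on the unstable bundle. -/

set_option autoImplicit false

namespace Pool.Agent.P.MP_5c499f_an

open Filter Topology Metric MeasureTheory Matrix

variable {M : Type*} [MetricSpace M] [CompactSpace M] {N u : ℕ} {e : M → VV N} {r : VV N → M}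
  {U : Set (VV N)} {g : Equiv.Perm M} {Pr : M → VV N →L[ℝ] XX u} {Io : M → XX u →L[ℝ] VV N}
  {C₀ a : ℝ}
  {H s C : ℝ} {m : ℕ} {c : Fin m → M → ℝ} {f : Fin m → Fin u → M → ℝ} {ρ : VV N → ℝ}
  {K : Set (VV N)}

theorem Amb.exists_dv (A : Amb e r U g Pr Io C₀ a) : ∃ ε₀, 0 < ε₀ ∧ ∀ H ε δ, ε ≤ ε₀ →
    Ent g H ε δ → ∀ s₁, 0 < s₁ → ∃ s C, s ≤ s₁ ∧ DV e r U g Pr Io C₀ a H s C := by
  obtain ⟨ε₀, e0, e1⟩ := A.upE
  refine ⟨ε₀, e0, fun H ε δ h1 h2 s₁ h3 => ?_⟩
  obtain ⟨s₂, a1, C₁, a2, a3⟩ := e1 H ε δ h1 h2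
  obtain ⟨s₃, a4, a5⟩ := A.lowE h2
  obtain ⟨σ, C₂, a6, a7, T⟩ := A.tanE
  have c0 := A.one_le
  have a0 := A.a_pos
  have H0 : 0 < H := by linarith [h2.one_le]
  obtain ⟨s, s0, s1, s2, s3, s4⟩ : ∃ s, 0 < s ∧ s ≤ s₁ ∧ s ≤ s₂ ∧ s ≤ s₃ ∧ s ≤ σ / (1 + C₀) :=
    ⟨min (min s₁ s₂) (min s₃ (σ / (1 + C₀))), by positivity, by simp, by simp, by simp, by simp⟩
  rw [le_div_iff₀' (by positivity)] at s4
  refine ⟨s, max C₁ C₂, s1, s0, by positivity, H0, ⟨fun x y h => T.sub x y (h.trans s4),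
    fun x y n b h => T.cone x y n b (h.trans s4), fun x y n b h =>
      (T.expd x y n b (h.trans s4)).trans (by gcongr; exact le_max_right _ _), fun x y h => ?_⟩,
    fun x y₀ n j h h' => (a3 s s0 s2 x y₀ n j h h').trans
      (ENNReal.ofReal_le_ofReal (by gcongr; exact le_max_left _ _)), a5 s s0 s3⟩
  obtain ⟨β, b1, b2⟩ := T.dec x y (h.trans s4)
  exact ⟨β, fun w => (b1 w).trans (by gcongr; exact le_max_right _ _),
    fun n w => (b2 n w).trans (by gcongr; exact le_max_right _ _)⟩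

theorem exists_omega (A : Amb e r U g Pr Io C₀ a) (D : DV e r U g Pr Io C₀ a H s C)
    (hc : ∀ t, ContDiffOn ℝ 1 (c t ∘ r) U) (hf : ∀ t i, ContDiffOn ℝ 1 (f t i ∘ r) U)
    (nz : ∀ x, PsiF e r c f x (Io x) ≠ 0) :
    ∃ w : (Fin u → Fin N) → VV N → ℝ, (∀ I, ContDiff ℝ (⊤ : ℕ∞) (w I)) ∧ ClosedW e w ∧
      ∀ x, PsiW e w x (Io x) ≠ 0 := by
  obtain ⟨ρ, K, k⟩ := exists_ker A.cont_e (show 0 < s / 4 by linarith [D.s_pos])
  obtain ⟨k1, C', k2⟩ := cf_bdd A D hc hf k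
  obtain ⟨w, 𝒰, u1, u2, u3⟩ := exists_lim k.cpt (c := fun n I => cf r g H c f n I)
    (fun n I => (cf_cont A hc hf n I).mono k1) k2 k.smooth
  refine ⟨w, fun I => (u3 I).1, fun x v => ?_, fun x => ?_⟩
  · choose γ hγ using fun I : Fin u → Fin N => dt_cons (fun i => crd (I i)) v
    refine tendsto_nhds_unique (l := 𝒰) ?_ ((cf_closed A D hc hf k x v).mono_left u2)
    refine tendsto_finsetSum _ fun I _ => ?_
    simp only [hγ]
    refine (tendsto_finsetSum _ fun j _ =>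
      (((u3 I).2 (e x)).2 (v j)).const_mul (γ I j)).congr fun n => ?_
    simp only [← integral_const_mul]
    rw [← integral_finsetSum]
    · refine integral_congr_ae (Eventually.of_forall fun z => ?_)
      simp only [Finset.mul_sum]
      exact Finset.sum_congr rfl fun j _ => by ring
    · refine fun j _ => ContinuousOn.integrableOn_compact k.cpt (continuousOn_const.mul
        (ContinuousOn.mul (Continuous.continuousOn ?_) ((cf_cont A hc hf n I).mono k1)))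
      exact ((k.smooth.continuous_fderiv (by simp)).comp
        (continuous_const.sub continuous_id)).clm_apply continuous_const
  · obtain ⟨c₀, p0, p1⟩ := cf_pos A D hc hf k nz
    have := ge_of_tendsto (tendsto_finsetSum Finset.univ fun I _ => ((u3 I).2 (e x)).1.mul_const
      (dt (fun i => crd (I i)) fun j => Io x (bas u j))).abs (u2 (p1.mono fun n h => h x))
    exact abs_pos.1 (p0.trans_le this)


end Pool.Agent.P.MP_5c499f_an
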