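import Pool.Agent.P.MP_5c499f_an.XBasY

/-! Twins give a smaller covering rate. -/

set_option autoImplicit false

namespace Pool.Agent.P.MP_5c499f_an

open Filter Topology Metric MeasureTheory Matrix

variable {Y Γ : Type*} [MetricSpace Y] [Group Γ] [MulAction Γ Y] {F : Equiv.Perm Y}
  {Φ : MulAut Γ} {ε δ C a b : ℝ}

namespace XPorX

variable (Γ) in
/-- The point is far from the orbit of `o`. -/
def far (o : Y) (ρ : ℝ) (y : Y) : Prop := ∀ g : Γ, ρ < dist y (g • o)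

variable (Γ) in
/-- Points of the unstable set which avoid the orbit at the times `l, 2l, …, tl`. -/
def AA (F : Equiv.Perm Y) (ε : ℝ) (o : Y) (ρ : ℝ) (l t : ℕ) (x : Y) : Set Y :=
  {y | Un F 0 (2 * ε) y x ∧ ∀ i : ℕ, 1 ≤ i → i ≤ t → far Γ o ρ ((F ^ ((i * l : ℕ) : ℤ)) y)}

variable (Γ) in
/-- `N` bounds the separated subsets at level `t`. -/
def Bd (F : Equiv.Perm Y) (ε : ℝ) (o : Y) (ρ : ℝ) (l t : ℕ) (N : ℝ) : Prop :=
  ∀ x (E : Finset Y), ↑E ⊆ AA Γ F ε o ρ l t x → Sep F ((t * l : ℕ) : ℤ) (2 * ε) E →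
    (E.card : ℝ) ≤ N

omit [MetricSpace Y] in
lemma cancel (k : ℤ) (y : Y) : (F ^ k) ((F ^ (-k)) y) = y := by
  rw [zpow_apply_zpow]; simp

omit [MetricSpace Y] in
lemma cancel' (k : ℤ) (y : Y) : (F ^ (-k)) ((F ^ k) y) = y := by
  rw [zpow_apply_zpow]; simp

lemma cast_le (l : ℕ) {i j : ℕ} (h : i ≤ j) : ((i * l : ℕ) : ℤ) ≤ ((j * l : ℕ) : ℤ) := by
  exact_mod_cast Nat.mul_le_mul_right l h

lemma repl (h : LH F ε δ C a b) {d : ℕ} {G : Y → Fin d → ℝ}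
    (hG : ∀ (n : ℤ) y y', G y = G y' → G ((F ^ n) y) = G ((F ^ n) y')) {o : Y} {ρ : ℝ} {T l : ℕ}
    (hρ : 0 < ρ) (hρε : ρ ≤ ε) (hT : T ≤ l) (hb : C * b ^ (l - T) ≤ ρ)
    (hd : ∀ y, (∃ g : Γ, dist y (g • o) ≤ 2 * ρ) →
      ∃ y', G y' = G y ∧ Un F (-T) ε y' y ∧ ∀ g : Γ, 2 * ρ < dist y' (g • o)) (t : ℕ) :
    ∀ y, ∃ y', G y' = G y ∧ Un F 0 ρ y' y ∧
      ∀ i : ℕ, 1 ≤ i → i ≤ t → far Γ o ρ ((F ^ ((i * l : ℕ) : ℤ)) y') := by
  induction t with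
  | zero => exact fun y => ⟨y, rfl, Un.refl _ hρ.le _, fun i h1 h2 => by omega⟩
  | succ t ih =>
    intro y
    obtain ⟨y1, e1, e2, e3⟩ : ∃ y1, G y1 = G y ∧ Un F (-T + l) ε y1 y ∧
        ∀ g : Γ, 2 * ρ < dist ((F ^ (l : ℤ)) y1) (g • o) := by
      by_cases hy : ∃ g : Γ, dist ((F ^ (l : ℤ)) y) (g • o) ≤ 2 * ρ
      · obtain ⟨w, w1, w2, w3⟩ := hd _ hy
        refine ⟨(F ^ (-(l : ℤ))) w, ?_, ?_, ?_⟩
        · rw [hG _ _ _ w1, cancel']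
        · rw [← Un_shift, cancel]; exact w2
        · rw [cancel]; exact w3
      · push Not at hy
        exact ⟨y, rfl, Un.refl _ h.ε_pos.le _, hy⟩
    obtain ⟨y2, f1, f2, f3⟩ := ih ((F ^ (l : ℤ)) y1)
    refine ⟨(F ^ (-(l : ℤ))) y2, ?_, ?_, fun i h1 h2 => ?_⟩
    · rw [hG _ _ _ f1, cancel', e1]
    · have g1 : Un F (0 + l) ρ ((F ^ (-(l : ℤ))) y2) y1 := by
        rw [← Un_shift, cancel]; exact f2
      have g2 := h.cu' (((g1.mono (k₁ := -T + l) (by omega) le_rfl).trans e2).mono le_rfl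
        (by linarith [h.ε_pos])) (l - T)
      exact g2.mono (by omega) hb
    · rw [zpow_apply_zpow]
      obtain ⟨j, rfl⟩ : ∃ j, i = j + 1 := ⟨i - 1, by omega⟩
      have : (((j + 1) * l : ℕ) : ℤ) + -(l : ℤ) = ((j * l : ℕ) : ℤ) := by push_cast; ring
      rw [this]
      rcases Nat.eq_zero_or_pos j with rfl | hj
      · intro g
        have g1 := f2 0 le_rfl
        have g2 := e3 g
        have g3 := dist_triangle ((F ^ (l : ℤ)) y1) y2 (g • o)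
        simp only [zpow_zero, Equiv.Perm.coe_one, id_eq, zero_mul, Nat.cast_zero] at g1 ⊢
        rw [dist_comm] at g1
        linarith
      · exact f3 j hj (by omega)

lemma split {r : ℝ} (hr : 0 ≤ r) (m : ℤ) (E : Finset Y) :
    ∃ E' : Finset Y, E' ⊆ E ∧ Sep F m r E' ∧ ∀ y ∈ E, ∃ z ∈ E', Un F m r y z := by
  obtain ⟨E', h1, h2, h3⟩ := exists_max_sep (R := Un F m r) (Un.refl m hr) (fun _ _ => Un.symm)
    (E : Set Y) (n := E.card) fun E' h _ => by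
      exact_mod_cast Finset.card_le_card (Finset.coe_subset.1 h)
  exact ⟨E', Finset.coe_subset.1 h1, h2, h3⟩

lemma sep_map {m n : ℤ} {η : ℝ} {D : Finset Y} (h : Sep F (n + m) η D) :
    Sep F n η (D.map (F ^ m).toEmbedding) := by
  intro u hu v hv huv
  obtain ⟨y, hy, rfl⟩ := Finset.mem_map.1 hu
  obtain ⟨y', hy', rfl⟩ := Finset.mem_map.1 hv
  have := h hy hy' fun e => huv (by rw [e])
  simpa [Un_shift] using this

lemma Bd.nonneg {o : Y} {ρ : ℝ} {l t : ℕ} {N : ℝ} (h : Bd Γ F ε o ρ l t N) : 0 ≤ N := by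
  simpa using h o ∅ (by simp) (by simp [Sep])

lemma Bd.mul (hε : 0 < ε) {o : Y} {ρ : ℝ} {l i j : ℕ} {N N' : ℝ} (h : Bd Γ F ε o ρ l i N)
    (h' : Bd Γ F ε o ρ l j N') : Bd Γ F ε o ρ l (i + j) (N * N') := by
  intro x E hE hS
  obtain ⟨E', e1, e2, e3⟩ := split (F := F) (r := 2 * ε) (by linarith) ((i * l : ℕ) : ℤ) E
  have c1 : (E'.card : ℝ) ≤ N := h x E' (fun y hy =>
    ⟨(hE (e1 hy)).1, fun k k1 k2 => (hE (e1 hy)).2 k k1 (by omega)⟩) e2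
  have c2 : (E.card : ℝ) ≤ E'.card * N' := card_le_of_cover e3 fun z _ D hD hz => by
    rw [← Finset.card_map (F ^ ((i * l : ℕ) : ℤ)).toEmbedding]
    refine h' ((F ^ ((i * l : ℕ) : ℤ)) z) _ (fun u hu => ?_)
      (sep_map (hS.mono (le_of_eq (by push_cast; ring)) le_rfl hD))
    obtain ⟨y, hy, rfl⟩ := Finset.mem_map.1 hu
    refine ⟨Un_shift.2 (by simpa using hz y hy), fun k k1 k2 => ?_⟩
    have := (hE (hD hy)).2 (k + i) (by omega) (by omega)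
    simp only [Equiv.coe_toEmbedding, zpow_apply_zpow]
    convert this using 3
    push_cast; ring
  exact c2.trans (mul_le_mul_of_nonneg_right c1 h'.nonneg)

lemma block {H c ρ : ℝ} {o : Y} {l : ℕ}
    (hm : ∀ x, ∃ w, ∃ g : Γ, Un F 0 (ρ / 8) w x ∧ dist ((F ^ (l : ℤ)) w) (g • o) ≤ ρ / 8)
    (hc : ∀ x (n : ℕ), ∃ E : Finset Y, (∀ y ∈ E, Un F 0 (ρ / 8) y x) ∧
      Sep F n ε E ∧ c * H ^ n ≤ E.card) (I i : ℕ) (z : Y) :
    ∃ B : Finset Y, i < I → (∀ v ∈ B, Un F ((i * l : ℕ) : ℤ) (ρ / 4) v z ∧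
      ∃ g : Γ, dist ((F ^ (((i + 1) * l : ℕ) : ℤ)) v) (g • o) ≤ ρ / 4) ∧
      Sep F ((I * l : ℕ) : ℤ) ε B ∧ c * H ^ ((I - i - 1) * l) ≤ B.card := by
  obtain ⟨w, g, w1, w2⟩ := hm ((F ^ ((i * l : ℕ) : ℤ)) z)
  obtain ⟨B, b1, b2, b3⟩ := hc ((F ^ (l : ℤ)) w) ((I - i - 1) * l)
  refine ⟨B.map (F ^ (-(((i + 1) * l : ℕ) : ℤ))).toEmbedding, fun hi => ⟨fun v hv => ?_, ?_, ?_⟩⟩
  · obtain ⟨y, hy, rfl⟩ := Finset.mem_map.1 hv
    simp only [Equiv.coe_toEmbedding]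
    refine ⟨?_, g, ?_⟩
    · have g1 : Un F (0 + l) (ρ / 8) ((F ^ (-(l : ℤ))) y) w := by
        rw [← Un_shift, cancel]; exact b1 y hy
      have g2 := (g1.mono (k₁ := 0) (by omega) le_rfl).trans w1
      have g3 : (F ^ (-(l : ℤ))) y =
          (F ^ ((i * l : ℕ) : ℤ)) ((F ^ (-(((i + 1) * l : ℕ) : ℤ))) y) := by
        rw [zpow_apply_zpow]; congr 2; push_cast; ring
      rw [g3, Un_shift] at g2
      exact g2.mono (by omega) (by linarith)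
    · rw [cancel]
      have g1 := b1 y hy 0 le_rfl
      simp only [zpow_zero, Equiv.Perm.coe_one, id_eq] at g1
      linarith [dist_triangle y ((F ^ (l : ℤ)) w) (g • o)]
  · refine sep_map (b2.mono (le_of_eq ?_) le_rfl subset_rfl)
    obtain ⟨k, rfl⟩ : ∃ k, I = i + 1 + k := ⟨I - i - 1, by omega⟩
    have : i + 1 + k - i - 1 = k := by omega
    rw [this]; push_cast; ring
  · rwa [Finset.card_map]

lemma gain {H c C₁ C₂ ρ : ℝ} {o : Y} {l : ℕ} (hρ : 0 < ρ) (hρε : ρ ≤ ε) (hH : 1 ≤ H)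
    (hc0 : 0 < c) (hC : 0 ≤ C₁)
    (hm : ∀ x, ∃ w, ∃ g : Γ, Un F 0 (ρ / 8) w x ∧ dist ((F ^ (l : ℤ)) w) (g • o) ≤ ρ / 8)
    (hc : ∀ x (n : ℕ), ∃ E : Finset Y, (∀ y ∈ E, Un F 0 (ρ / 8) y x) ∧
      Sep F n ε E ∧ c * H ^ n ≤ E.card)
    (h1 : ∀ x (n : ℕ) (E : Finset Y), (∀ y ∈ E, Un F 0 (4 * ε) y x) →
      Sep F n (2 * ε) E → (E.card : ℝ) ≤ C₁ * H ^ n)
    (h2 : ∀ x (n : ℕ) (E : Finset Y), (∀ y ∈ E, Un F 0 (4 * ε) y x) →
      Sep F n (ρ / 4) E → (E.card : ℝ) ≤ C₂ * H ^ n) (I : ℕ) (x : Y) (E : Finset Y)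
    (hE : ↑E ⊆ AA Γ F ε o ρ l I x) (hS : Sep F ((I * l : ℕ) : ℤ) (2 * ε) E) :
    I * c * E.card ≤ C₁ * H ^ l * (C₂ * H ^ (I * l)) := by
  classical
  choose Es e1 e2 e3 using fun i : ℕ =>
    split (F := F) (r := 2 * ε) (by linarith) ((i * l : ℕ) : ℤ) E
  choose B hB using block (Γ := Γ) hm hc I
  have hcov : ∀ i < I, (E.card : ℝ) ≤ (Es i).card * (C₁ * H ^ ((I - i) * l)) := fun i hi =>
    card_le_of_cover (e3 i) fun z _ D hD hz => by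
      rw [← Finset.card_map (F ^ ((i * l : ℕ) : ℤ)).toEmbedding]
      refine h1 ((F ^ ((i * l : ℕ) : ℤ)) z) _ _ (fun u hu => ?_)
        (sep_map (hS.mono (le_of_eq ?_) le_rfl hD))
      · obtain ⟨y, hy, rfl⟩ := Finset.mem_map.1 hu
        exact Un_shift.2 ((hz y hy).mono (by omega) (by linarith))
      · obtain ⟨k, rfl⟩ : ∃ k, I = i + k := ⟨I - i, by omega⟩
        rw [Nat.add_sub_cancel_left]; push_cast; ring
  set P := (Finset.range I).sigma Es with hP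
  have hlt : ∀ p ∈ P, p.1 < I ∧ p.2 ∈ Es p.1 := fun p hp => by
    simpa [hP] using hp
  have key0 : ∀ i i' z z', i < i' → i' < I → z' ∈ E → ∀ v ∈ B i z, ∀ v' ∈ B i' z',
      ¬ Un F ((I * l : ℕ) : ℤ) (ρ / 4) v v' := by
    intro i i' z z' hi hi' hz' v hv v' hv' hU
    obtain ⟨g, hg⟩ := ((hB i z (by omega)).1 v hv).2
    have g1 := hU _ (cast_le l (by omega : i + 1 ≤ I))
    have g2 := ((hB i' z' hi').1 v' hv').1 _ (cast_le l (by omega : i + 1 ≤ i'))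
    have g3 := (hE hz').2 (i + 1) (by omega) (by omega) g
    have g4 := dist_triangle4 ((F ^ (((i + 1) * l : ℕ) : ℤ)) z')
      ((F ^ (((i + 1) * l : ℕ) : ℤ)) v') ((F ^ (((i + 1) * l : ℕ) : ℤ)) v) (g • o)
    rw [dist_comm] at g1 g2
    linarith
  have key : ∀ p ∈ P, ∀ p' ∈ P, p ≠ p' → ∀ v ∈ B p.1 p.2, ∀ v' ∈ B p'.1 p'.2,
      ¬ Un F ((I * l : ℕ) : ℤ) (ρ / 4) v v' := by
    rintro ⟨i, z⟩ hp ⟨i', z'⟩ hp' hne v hv v' hv' hU
    obtain ⟨hi, hz⟩ := hlt _ hp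
    obtain ⟨hi', hz'⟩ := hlt _ hp'
    rcases lt_trichotomy i i' with h | rfl | h
    · exact key0 i i' z z' h hi' (e1 _ hz') v hv v' hv' hU
    · refine e2 i hz hz' (fun e => hne (by simp only at e; rw [e])) ?_
      exact ((((hB i z hi).1 v hv).1.symm.trans (hU.mono (cast_le l hi.le) le_rfl)).trans
        ((hB i z' hi).1 v' hv').1).mono le_rfl (by linarith)
    · exact key0 i' i z' z h hi (e1 _ hz) v' hv' v hv hU.symm
  have hU := h2 x (I * l) (P.biUnion fun p => B p.1 p.2) (fun v hv => by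
    obtain ⟨p, hp, hv⟩ := Finset.mem_biUnion.1 hv
    exact ((((hB _ _ (hlt p hp).1).1 v hv).1.mono (k₁ := 0) (by omega) le_rfl).trans
      (hE (e1 _ (hlt p hp).2)).1).mono le_rfl (by linarith)) (fun v hv v' hv' hne => by
    obtain ⟨p, hp, hv⟩ := Finset.mem_biUnion.1 hv
    obtain ⟨p', hp', hv'⟩ := Finset.mem_biUnion.1 hv'
    by_cases e : p = p'
    · subst e
      exact fun hU => (hB _ _ (hlt p hp).1).2.1 hv hv' hne (hU.mono le_rfl (by linarith))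
    · exact key p hp p' hp' e v hv v' hv')
  rw [Finset.card_biUnion fun p hp p' hp' hne => Finset.disjoint_left.2 fun v hv hv' =>
    key p hp p' hp' hne v hv v hv' (Un.refl _ (by linarith) _), Nat.cast_sum, hP,
    Finset.sum_sigma] at hU
  have hH0 : 0 ≤ C₁ * H ^ l := by positivity
  refine le_trans ?_ (mul_le_mul_of_nonneg_left hU hH0)
  rw [Finset.mul_sum]
  have : (I : ℝ) * c * E.card = ∑ _i ∈ Finset.range I, c * (E.card : ℝ) := by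
    simp [mul_assoc]
  rw [this]
  refine Finset.sum_le_sum fun i hi => ?_
  have hi := Finset.mem_range.1 hi
  have g1 : ((Es i).card : ℝ) * (c * H ^ ((I - i - 1) * l)) ≤ ∑ z ∈ Es i, ((B i z).card : ℝ) := by
    rw [← nsmul_eq_mul]
    exact Finset.card_nsmul_le_sum _ _ _ fun z _ => (hB i z hi).2.2
  have g2 : H ^ ((I - i) * l) = H ^ l * H ^ ((I - i - 1) * l) := by
    rw [← pow_add]; congr 1
    obtain ⟨k, hk⟩ : ∃ k, I - i = k + 1 := ⟨I - i - 1, by omega⟩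
    rw [hk, Nat.add_sub_cancel]; ring
  have g3 := mul_le_mul_of_nonneg_left (hcov i hi) hc0.le
  have g4 := mul_le_mul_of_nonneg_left g1 hH0
  rw [g2] at g3
  refine le_trans (g3.trans (le_of_eq ?_)) g4
  ring

end XPorX

open XPorX in
theorem Hs.thin (S : Hs F Φ ε δ C a b) {H : ℝ} (c : Cnt F ε H) {d : ℕ} {G : Y → Fin d → ℝ}
    (hG : ∀ (n : ℤ) y y', G y = G y' → G ((F ^ n) y) = G ((F ^ n) y')) (hd : Dup Γ F ε G) :
    ThinY F ε H G := by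
  obtain ⟨o, ρ₀, T, hρ₀, hd⟩ := hd
  have hε := S.lh.ε_pos
  obtain ⟨ρ, hρ, hρε, hρ1⟩ : ∃ ρ, 0 < ρ ∧ ρ ≤ ε ∧ ρ ≤ ρ₀ :=
    ⟨min ε ρ₀, lt_min hε hρ₀, min_le_left _ _, min_le_right _ _⟩
  have hd' : ∀ y, (∃ g : Γ, dist y (g • o) ≤ 2 * ρ) →
      ∃ y', G y' = G y ∧ Un F (-T) ε y' y ∧ ∀ g : Γ, 2 * ρ < dist y' (g • o) := by
    rintro y ⟨g, hg⟩
    obtain ⟨y', h1, h2, h3⟩ := hd y ⟨g, by linarith⟩
    exact ⟨y', h1, h2, fun g => by linarith [h3 g]⟩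
  obtain ⟨L₀, hL⟩ := S.mix (ρ / 8) (ρ / 8) (by linarith) (by linarith)
  obtain ⟨j₀, hj⟩ : ∃ j₀ : ℕ, ∀ j ≥ j₀, C * b ^ j ≤ ρ := by
    have h2 : Tendsto (fun j : ℕ => C * b ^ j) atTop (𝓝 (C * 0)) :=
      (tendsto_pow_atTop_nhds_zero_of_lt_one S.lh.b_nonneg S.lh.b_lt).const_mul C
    rw [mul_zero] at h2
    exact eventually_atTop.1 (h2.eventually (ge_mem_nhds hρ))
  obtain ⟨l, l0, lT, lL, lb⟩ : ∃ l : ℕ, 0 < l ∧ T ≤ l ∧ L₀ ≤ l ∧ C * b ^ (l - T) ≤ ρ :=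
    ⟨T + L₀ + j₀ + 1, by omega, by omega, by omega, hj _ (by omega)⟩
  obtain ⟨c₀, hc₀, hlow⟩ := c.low (ρ / 8) (by linarith)
  obtain ⟨C₁, hC₁⟩ := c.up (2 * ε) (by linarith)
  obtain ⟨C₂, hC₂⟩ := c.up (ρ / 4) (by linarith)
  have hH := c.one_le
  have hg := gain (Γ := Γ) (C₁ := max C₁ 0) hρ hρε hH hc₀ (le_max_right _ _)
    (fun x => hL l lL x o) hlow (fun x n E h1 h2 => (hC₁ x n E h1 h2).trans
      (mul_le_mul_of_nonneg_right (le_max_left _ _) (by positivity))) hC₂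
  obtain ⟨I, hI⟩ := exists_nat_gt (max 0 (2 * (max C₁ 0 * H ^ l * C₂) / c₀))
  have I0 : (0 : ℝ) < I := (le_max_left _ _).trans_lt hI
  have I1 : 2 * (max C₁ 0 * H ^ l * C₂) < I * c₀ :=
    (div_lt_iff₀ hc₀).1 ((le_max_right _ _).trans_lt hI)
  have hB1 : Bd Γ F ε o ρ l I (H ^ (I * l) / 2) := fun x E h1 h2 => by
    have g1 := hg I x E h1 h2
    have g2 : (0 : ℝ) < H ^ (I * l) := by positivity
    have g3 : 0 < I * c₀ := by positivity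
    refine le_of_mul_le_mul_left ?_ g3
    nlinarith
  obtain ⟨N₀, hN⟩ := S.dbl (η := 2 * ε) (by linarith)
  have hBt : ∀ t : ℕ, Bd Γ F ε o ρ l (t * I) (N₀ * (H ^ (I * l) / 2) ^ t) := fun t => by
    induction t with
    | zero =>
      intro x E h1 h2
      simpa using hN x 0 E (fun y hy => (h1 hy).1.mono le_rfl (by linarith)) (by simpa using h2)
    | succ t ih =>
      rw [Nat.succ_mul, pow_succ, ← mul_assoc]
      exact ih.mul hε hB1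
  have I2 : 0 < I * l := Nat.mul_pos (by exact_mod_cast I0) l0
  refine ⟨(1 / 2) ^ (((I * l : ℕ) : ℝ))⁻¹, N₀, I * l, by positivity,
    Real.rpow_lt_one (by norm_num) (by norm_num) (by positivity), I2, fun x t => ?_⟩
  obtain ⟨E, h1, h2, h3⟩ := exists_max_sep (R := Un F ((t * I * l : ℕ) : ℤ) (2 * ε))
    (Un.refl _ (by linarith)) (fun _ _ => Un.symm) (AA Γ F ε o ρ l (t * I) x) (hBt t x)
  refine ⟨E, (hBt t x E h1 h2).trans (le_of_eq ?_), fun y hy => ?_⟩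
  · rw [mul_comm t, pow_mul _ (I * l) t, mul_pow,
      Real.rpow_inv_natCast_pow (by norm_num) I2.ne']
    ring
  · obtain ⟨y', g1, g2, g3⟩ := repl S.lh hG hρ hρε lT lb hd' (t * I) y
    obtain ⟨z, hz, g4⟩ := h3 y' ⟨(g2.trans hy).mono le_rfl (by linarith), g3⟩
    refine ⟨y', z, hz, g1, (g4 _ (le_of_eq (by rw [mul_assoc]))).trans (by linarith)⟩

end Pool.Agent.P.MP_5c499f_an
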