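import Pool.Agent.P.MP_5c499f_an.XBasA

/-! Null sets do not carry Jacobian mass. -/

set_option autoImplicit false

namespace Pool.Agent.P.MP_5c499f_an

open Filter Topology Metric MeasureTheory Matrix
open scoped Manifold

namespace XZeroX

variable {u : ℕ}

theorem pre_null {B Z : Set (XX u)} (hB : IsOpen B) {M : XX u → XX u} (hM : ContDiffOn ℝ 1 M B)
    (h0 : volume Z = 0) : volume {b | b ∈ B ∧ (fderiv ℝ M b).det ≠ 0 ∧ M b ∈ Z} = 0 := by
  refine measure_null_of_locally_null _ ?_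
  rintro x ⟨hx, hd, -⟩
  have h1 : ContDiffAt ℝ 1 M x := hM.contDiffAt (hB.mem_nhds hx)
  have h2 : HasFDerivAt M (((fderiv ℝ M x).toContinuousLinearEquivOfDetNeZero hd :
      XX u ≃L[ℝ] XX u) : XX u →L[ℝ] XX u) x := by
    rw [ContinuousLinearMap.coe_toContinuousLinearEquivOfDetNeZero]
    exact (h1.differentiableAt one_ne_zero).hasFDerivAt
  have h3 := (h1.to_localInverse h2 one_ne_zero).eventually (by simp)
  have h4 := (h1.hasStrictFDerivAt' h2 one_ne_zero).eventually_left_inverse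
  set g := h1.localInverse h2 one_ne_zero
  have h5 := h1.continuousAt.eventually h3
  refine ⟨_, inter_mem_nhdsWithin _ (h4.and h5), measure_mono_null (t := g '' (Z ∩
    {y | ContDiffAt ℝ 1 g y})) ?_ ?_⟩
  · rintro b ⟨⟨-, -, hz⟩, e1, e2⟩
    exact ⟨M b, ⟨hz, e2⟩, e1⟩
  · exact addHaar_image_eq_zero_of_differentiableOn_of_addHaar_eq_zero _
      (fun y hy => (ContDiffAt.differentiableAt (n := 1) (show ContDiffAt ℝ 1 g y from hy.2)
        one_ne_zero).differentiableWithinAt)
      (measure_mono_null Set.inter_subset_left h0)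

theorem cont_dt {B : Set (XX u)} (hB : IsOpen B) {m : Fin u → XX u → ℝ}
    (hm : ∀ i, ContDiffOn ℝ 1 (m i) B) :
    ContinuousOn (fun b => dt (fun i => fderiv ℝ (m i) b) (bas u)) B :=
  continuousOn_dt (fun i => (hm i).continuousOn_fderiv_of_isOpen hB le_rfl)
    fun _ => continuousOn_const

theorem exists_bump {Z : Set (XX u)} {δ : ℝ} (hδ : 0 < δ) :
    ∃ φ : XX u → ℝ, ContDiff ℝ 1 φ ∧ (∀ y, |φ y| ≤ 1) ∧ (∀ y ∈ thickening δ Z, φ y = 1) ∧
      ∀ y, y ∉ thickening (2 * δ) Z → φ y = 0 := by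
  obtain ⟨f, f0, f1, f2⟩ := exists_contMDiffMap_zero_one_of_isClosed (n := 1) 𝓘(ℝ, XX u)
    (s := (thickening (2 * δ) Z)ᶜ) (t := cthickening δ Z) isOpen_thickening.isClosed_compl
    isClosed_cthickening (Set.disjoint_compl_left_iff_subset.2
      (cthickening_subset_thickening' (by positivity) (by linarith) Z))
  refine ⟨f, contMDiff_iff_contDiff.1 f.contMDiff, fun y => ?_,
    fun y hy => f1 (thickening_subset_cthickening _ _ hy), fun y hy => f0 hy⟩
  rw [abs_of_nonneg (f2 y).1]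
  exact (f2 y).2

theorem dt_lin {d : ℕ} (l : Fin u → Fin d → ℝ) (ξ : Fin d → XX u →L[ℝ] ℝ) :
    dt (fun i => ∑ k, l i k • ξ k) (bas u) =
      ∑ I : Fin u → Fin d, (∏ i, l i (I i)) * dt (fun i => ξ (I i)) (bas u) := by
  have h := (Matrix.detRowAlternating (n := Fin u) (R := ℝ)).toMultilinearMap.map_sum
    (fun i k => l i k • fun j => ξ k (bas u j))
  have e : (Matrix.of fun i j => (∑ k, l i k • ξ k) (bas u j)) =
      fun i => ∑ k, l i k • fun j => ξ k (bas u j) := by
    ext i j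
    simp [Finset.sum_apply]
  unfold dt
  rw [e]
  refine h.trans (Finset.sum_congr rfl fun I _ => ?_)
  rw [MultilinearMap.map_smul_univ]
  rfl

end XZeroX

open XZeroX

theorem exists_cut_null {u : ℕ} {B K : Set (XX u)} {χ : XX u → ℝ} (hc : Cut B K χ)
    {m : Fin u → XX u → ℝ} (hm : ∀ i, ContDiffOn ℝ 1 (m i) B) {Z : Set (XX u)} (hZ : IsCompact Z)
    (h0 : volume Z = 0) {η : ℝ} (hη : 0 < η) :
    ∃ (φ : XX u → ℝ) (δ : ℝ), ContDiff ℝ 1 φ ∧ (∀ y, |φ y| ≤ 1) ∧ 0 < δ ∧
      (∀ y ∈ thickening δ Z, φ y = 1) ∧ |Jac K χ φ m| ≤ η := by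
  have hp : ∀ n : ℕ, (0 : ℝ) < 1 / (n + 1) := fun n => by positivity
  choose φ p1 p2 p3 p4 using fun n => exists_bump (Z := Z) (hp n)
  have hM : ContDiffOn ℝ 1 (fun b i => m i b) B := contDiffOn_pi.2 hm
  have hK := hc.cpt.measurableSet
  have hD := (cont_dt hc.op hm).mono hc.sub
  have hχ : ContinuousOn χ K := hc.c1.continuous.continuousOn
  have hN := pre_null hc.op hM h0
  have key : Tendsto (fun n => Jac K χ (φ n) m) atTop (𝓝 (∫ _ in K, (0 : ℝ))) := by
    refine tendsto_integral_of_dominated_convergence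
      (fun b => |χ b * dt (fun i => fderiv ℝ (m i) b) (bas u)|) (fun n => ?_) ?_
      (fun n => Eventually.of_forall fun b => ?_) ?_
    · exact ((hχ.mul ((p1 n).continuous.comp_continuousOn (hM.continuousOn.mono hc.sub))).mul
        hD).aestronglyMeasurable hK
    · exact (hχ.mul hD).abs.integrableOn_compact hc.cpt
    · rw [Real.norm_eq_abs, mul_right_comm, abs_mul]
      exact mul_le_of_le_one_right (abs_nonneg _) (p2 _ _)
    · filter_upwards [ae_restrict_mem hK, ae_restrict_of_ae (measure_eq_zero_iff_ae_notMem.1 hN)]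
        with b hb hb'
      by_cases hd : dt (fun i => fderiv ℝ (m i) b) (bas u) = 0
      · simp [hd]
      have hB := hc.op.mem_nhds (hc.sub hb)
      have hz : (fun i => m i b) ∉ Z := fun hz => hb' ⟨hc.sub hb, by
        rw [det_eq_dt, fderiv_pi fun i => ((hm i).contDiffAt hB).differentiableAt one_ne_zero]
        exact hd, hz⟩
      obtain ⟨r, hr, hr'⟩ := Metric.isOpen_iff.1 hZ.isClosed.isOpen_compl _ hz
      refine tendsto_const_nhds.congr' ?_
      filter_upwards [(tendsto_one_div_add_atTop_nhds_zero_nat (𝕜 := ℝ)).eventually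
        (gt_mem_nhds (half_pos hr))] with n hn
      rw [p4 n, mul_zero, zero_mul]
      intro h
      obtain ⟨z, hz1, hz2⟩ := mem_thickening_iff.1 h
      exact hr' (mem_ball'.2 (by linarith)) hz1
  rw [integral_zero] at key
  obtain ⟨n, hn⟩ := (key.abs.eventually (gt_mem_nhds (by simpa using hη))).exists
  exact ⟨φ n, _, p1 n, p2 n, hp n, p3 n, hn.le⟩

theorem Thin.null {u d : ℕ} {K : Set (XX u)} {L : ℤ → Matrix (Fin d) (Fin d) ℝ} {ρ : Fin d → ℝ}
    {G : XX u → Fin d → ℝ} {H : ℝ} (th : Thin K L G H) (wt : Wt L ρ) (hH : 0 < H) :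
    ∃ q, 0 < q ∧ q < 1 ∧ ∀ I : Fin u → Fin d, q * H ≤ ∏ i, ρ (I i) →
      volume ((fun b i => G b (I i)) '' K : Set (XX u)) = 0 := by
  obtain ⟨q, C, l, q0, q1, l0, th⟩ := th
  obtain ⟨θ, θ1, θ0⟩ : ∃ θ : ℝ, q * (1 + θ) ^ u < (q + 1) / 2 ∧ 0 < θ := by
    have h : ContinuousAt (fun θ : ℝ => q * (1 + θ) ^ u) 0 := by fun_prop
    have h1 := h.eventually (gt_mem_nhds (show q * (1 + 0) ^ u < (q + 1) / 2 by simp; linarith))
    exact ((h1.filter_mono nhdsWithin_le_nhds).and self_mem_nhdsWithin (f := 𝓝[>] 0)).exists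
  obtain ⟨D, hD⟩ := wt.bd θ θ0
  refine ⟨(q + 1) / 2, by linarith, by linarith, fun I hI => ?_⟩
  set s := q * (1 + θ) ^ u / ((q + 1) / 2) with hs
  have s0 : 0 ≤ s := by positivity
  have s1 : s < 1 := (div_lt_one (by linarith)).2 θ1
  set A := |C| * (2 * (d * |D| * |C|)) ^ u with hA
  have lim : Tendsto (fun t : ℕ => ENNReal.ofReal (A * (s ^ l) ^ t)) atTop
      (𝓝 (ENNReal.ofReal (A * 0))) := ENNReal.tendsto_ofReal
    ((tendsto_pow_atTop_nhds_zero_of_lt_one (by positivity)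
      (pow_lt_one₀ s0 s1 l0.ne')).const_mul A)
  rw [mul_zero, ENNReal.ofReal_zero] at lim
  refine nonpos_iff_eq_zero.1 (ge_of_tendsto' lim fun t => ?_)
  obtain ⟨E, e1, e2⟩ := th t
  set n := t * l with hn
  have hρ := wt.pos
  let R : Fin u → ℝ := fun i => d * |D| * |C| * ((1 + θ) / ρ (I i)) ^ n
  have R0 : ∀ i, 0 ≤ R i := fun i => by
    have := hρ (I i)
    positivity
  have cov : ((fun b i => G b (I i)) '' K : Set (XX u)) ⊆
      ⋃ z ∈ E, Set.Icc (fun i => z (I i) - R i) fun i => z (I i) + R i := by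
    rintro _ ⟨b, hb, rfl⟩
    obtain ⟨z, hz, w, hw, e⟩ := e2 b hb
    have key : ∀ i, |G b (I i) - z (I i)| ≤ R i := by
      intro i
      have := hρ (I i)
      rw [e, Pi.add_apply, add_sub_cancel_left, mulVec, dotProduct]
      refine (Finset.abs_sum_le_sum_abs _ _).trans ((Finset.sum_le_card_nsmul _ _
        (|D| * |C| * ((1 + θ) / ρ (I i)) ^ n) fun j _ => ?_).trans_eq (by simp [R, mul_assoc]))
      have h1 := hD (-(n : ℤ)) (I i) j
      rw [Int.natAbs_neg, Int.natAbs_natCast, _root_.zpow_neg, zpow_natCast] at h1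
      have h2 : |w j| ≤ |C| := ((norm_le_pi_norm w j).trans hw).trans (le_abs_self C)
      rw [abs_mul, div_pow, mul_right_comm]
      refine mul_le_mul (h1.trans ?_) h2 (abs_nonneg _) (by positivity)
      rw [mul_assoc, inv_mul_eq_div]
      exact mul_le_mul_of_nonneg_right (le_abs_self D) (by positivity)
    exact Set.mem_biUnion hz ⟨fun i => by linarith [(abs_le.1 (key i)).1],
      fun i => by linarith [(abs_le.1 (key i)).2]⟩
  refine (measure_mono cov).trans ((measure_biUnion_finset_le _ _).trans ?_)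
  have e3 : ∀ z ∈ E, volume (Set.Icc (fun i => z (I i) - R i) fun i => z (I i) + R i) =
      ENNReal.ofReal (∏ i, 2 * R i) := by
    intro z _
    rw [Real.volume_Icc_pi, ENNReal.ofReal_prod_of_nonneg fun i _ => by linarith [R0 i]]
    exact Finset.prod_congr rfl fun i _ => congrArg _ (by ring)
  rw [Finset.sum_congr rfl e3, Finset.sum_const, nsmul_eq_mul, ← ENNReal.ofReal_natCast,
    ← ENNReal.ofReal_mul (Nat.cast_nonneg _)]
  refine ENNReal.ofReal_le_ofReal ?_
  have e4 : ∏ i, 2 * R i =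
      (2 * (d * |D| * |C|)) ^ u * ((1 + θ) ^ u / ∏ i, ρ (I i)) ^ n := by
    simp only [R, ← mul_assoc]
    rw [Finset.prod_mul_distrib, Finset.prod_pow, Finset.prod_div_distrib]
    simp
  have e5 : (1 + θ) ^ u / ∏ i, ρ (I i) ≤ (1 + θ) ^ u / ((q + 1) / 2 * H) :=
    div_le_div_of_nonneg_left (by positivity) (by positivity) hI
  have e6 : q * H * ((1 + θ) ^ u / ((q + 1) / 2 * H)) = s := by
    rw [hs]
    field_simp
  have e7 : 0 < ∏ i, ρ (I i) := Finset.prod_pos fun i _ => hρ _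
  rw [e4, ← pow_mul, mul_comm l t, ← hn, ← e6, mul_pow (q * H), hA]
  calc _ ≤ |C| * (q * H) ^ n * ((2 * (d * |D| * |C|)) ^ u *
        ((1 + θ) ^ u / ((q + 1) / 2 * H)) ^ n) := by
        refine mul_le_mul (e1.trans ?_) ?_ (by positivity) (by positivity)
        · exact mul_le_mul_of_nonneg_right (le_abs_self C) (by positivity)
        · gcongr
    _ = _ := by ring

/-- Multilinearity. -/
theorem jac_lin {u d : ℕ} {B K : Set (XX u)} {χ : XX u → ℝ} (hc : Cut B K χ)
    {m : XX u → Fin d → ℝ}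
    (hm : ∀ k, ContDiffOn ℝ 1 (fun b => m b k) B) (l : Fin u → Fin d → ℝ) :
    Jac K χ (fun _ => 1) (fun i b => l i ⬝ᵥ m b) =
      ∑ I : Fin u → Fin d, (∏ i, l i (I i)) * Jac K χ (fun _ => 1) fun i b => m b (I i) := by
  have hχ : ContinuousOn χ K := hc.c1.continuous.continuousOn
  simp only [Jac, ← integral_const_mul]
  rw [← integral_finsetSum]
  · refine setIntegral_congr_fun hc.cpt.measurableSet fun b hb => ?_
    have hB := hc.op.mem_nhds (hc.sub hb)
    have e : (fun i => fderiv ℝ (fun b => l i ⬝ᵥ m b) b) =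
        fun i => ∑ k, l i k • fderiv ℝ (fun b => m b k) b := by
      funext i
      refine HasFDerivAt.fderiv ?_
      simp only [dotProduct]
      exact HasFDerivAt.fun_sum fun k _ =>
        (((hm k).contDiffAt hB).differentiableAt one_ne_zero).hasFDerivAt.const_mul _
    simp only [e, dt_lin, Finset.mul_sum]
    exact Finset.sum_congr rfl fun I _ => by ring
  · intro I _
    exact (continuousOn_const.mul ((hχ.mul continuousOn_const).mul
      ((cont_dt hc.op fun i => hm (I i)).mono hc.sub))).integrableOn_compact hc.cpt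

end Pool.Agent.P.MP_5c499f_an
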