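import Pool.Agent.P.MP_5c499f_an.XRecA
import Pool.Agent.P.MP_5c499f_an.XZero

/-! Growth of the Jacobian integrals. -/

set_option autoImplicit false

namespace Pool.Agent.P.MP_5c499f_an

open Filter Topology Metric MeasureTheory Matrix

variable {u d : ℕ} {B K : Set (XX u)} {χ : XX u → ℝ} {Nn : ℕ → XX u → XX u → ℝ}
  {L : ℤ → Matrix (Fin d) (Fin d) ℝ} {ρ : Fin d → ℝ} {j : ℕ → XX u → Fin d → ℝ}
  {G : XX u → Fin d → ℝ} {H lam C : ℝ}

namespace XRecX

theorem exists_theta {μ : ℝ} (h : μ < 1) (m : ℕ) : ∃ θ : ℝ, 0 < θ ∧ μ * (1 + θ) ^ m < 1 := by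
  have hc : ContinuousAt (fun θ : ℝ => μ * (1 + θ) ^ m) 0 := by fun_prop
  have h1 : ∀ᶠ θ in 𝓝 (0 : ℝ), μ * (1 + θ) ^ m < 1 :=
    hc.eventually_lt continuousAt_const (by simpa using h)
  obtain ⟨θ, h2, h3⟩ := ((h1.filter_mono nhdsWithin_le_nhds).and
    (self_mem_nhdsWithin (a := (0 : ℝ)) (s := Set.Ioi 0))).exists
  exact ⟨θ, h3, h2⟩

theorem up {x : ℕ → ℝ} {c R : ℝ} (hc : 0 ≤ c) (hR : 1 < R)
    (h : ∀ n, |x (n + 1) - x n| ≤ c * R ^ n) : ∃ C', 0 ≤ C' ∧ ∀ n, |x n| ≤ C' * R ^ n := by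
  have h1 : 0 < R - 1 := sub_pos.2 hR
  refine ⟨|x 0| + c / (R - 1), by positivity, fun n => ?_⟩
  induction n with
  | zero =>
    have : 0 ≤ c / (R - 1) := by positivity
    simpa using this
  | succ n ih =>
    have h2 : |x (n + 1)| ≤ |x n| + |x (n + 1) - x n| := by
      have := abs_add_le (x n) (x (n + 1) - x n)
      rwa [add_sub_cancel] at this
    have h3 : 0 ≤ R ^ n := by positivity
    have h4 : c / (R - 1) * (R - 1) = c := div_mul_cancel₀ _ h1.ne'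
    have h5 : 0 ≤ |x 0| * (R - 1) * R ^ n := by positivity
    calc _ ≤ (|x 0| + c / (R - 1)) * R ^ n + c * R ^ n := h2.trans (add_le_add ih (h n))
      _ = (|x 0| + c / (R - 1)) * R ^ n + c / (R - 1) * (R - 1) * R ^ n := by rw [h4]
      _ ≤ _ := by rw [pow_succ]; nlinarith

theorem tail {x : ℕ → ℝ} {c r : ℝ} (hc : 0 ≤ c) (h0 : 0 ≤ r) (hr : r < 1)
    (h : ∀ n, |x (n + 1) - x n| ≤ c * r ^ n) {n N : ℕ} (hN : n ≤ N) :
    |x N - x n| ≤ c / (1 - r) * r ^ n := by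
  have h1 : 0 < 1 - r := sub_pos.2 hr
  have key : |x N - x n| ≤ c / (1 - r) * r ^ n - c / (1 - r) * r ^ N := by
    induction N, hN using Nat.le_induction with
    | base => simp
    | succ N _ ih =>
      have h2 := abs_sub_le (x (N + 1)) (x N) (x n)
      have h4 : c / (1 - r) * (1 - r) = c := div_mul_cancel₀ _ h1.ne'
      have h5 : c / (1 - r) * r ^ (N + 1) = c / (1 - r) * r ^ N - c * r ^ N := by
        rw [pow_succ]
        linear_combination (-r ^ N) * h4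
      linarith [h N]
  have : 0 ≤ c / (1 - r) * r ^ N := by positivity
  linarith

theorem c1 (D : DD B K χ Nn L ρ j G H lam C) (A : Matrix (Fin d) (Fin d) ℝ) (n : ℕ) (k : Fin d) :
    ContDiffOn ℝ 1 (fun b => (A *ᵥ j n b) k) B := by
  simp only [mulVec, dotProduct]
  exact ContDiffOn.sum fun l _ => contDiffOn_const.mul (D.c1 n l)

theorem small (D : DD B K χ Nn L ρ j G H lam C) {I : Fin u → Fin d} (hI : ∀ i, 1 < ρ (I i))
    (null : volume ((fun b i => G b (I i)) '' K : Set (XX u)) = 0) (n : ℕ) {t : ℝ}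
    (ht : ∀ φ : XX u → ℝ, ContDiff ℝ 1 φ → (∀ y, |φ y| ≤ 1) → ∀ N : ℕ, n ≤ N →
      |Jac K χ φ (fun i b => (L (-(N : ℤ)) *ᵥ j N b) (I i)) -
        Jac K χ φ fun i b => (L (-(n : ℤ)) *ᵥ j n b) (I i)| ≤ t) :
    |Jac K χ (fun _ => 1) fun i b => (L (-(n : ℤ)) *ᵥ j n b) (I i)| ≤ 2 * t := by
  have hG : ContinuousOn (fun b i => G b (I i)) K :=
    continuousOn_pi.2 fun i => (D.lim _ (hI i)).continuousOn
      (Frequently.of_forall fun N => (c1 D _ N _).continuousOn.mono D.cut.sub)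
  have hZ := D.cut.cpt.image_of_continuousOn hG
  refine le_of_forall_pos_le_add fun η hη => ?_
  obtain ⟨φ, δ, hφ, hφ1, hδ, hone, hsm⟩ := exists_cut_null D.cut
    (m := fun i b => (L (-(n : ℤ)) *ᵥ j n b) (I i)) (fun i => c1 D _ n _) hZ null hη
  have hev : ∀ᶠ N : ℕ in atTop, ∀ i, ∀ b ∈ K,
      dist (G b (I i)) ((L (-(N : ℤ)) *ᵥ j N b) (I i)) < δ :=
    eventually_all.2 fun i => Metric.tendstoUniformlyOn_iff.1 (D.lim _ (hI i)) δ hδ
  obtain ⟨N, hN, hnN⟩ := (hev.and (eventually_ge_atTop n)).exists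
  have heq : Jac K χ φ (fun i b => (L (-(N : ℤ)) *ᵥ j N b) (I i)) =
      Jac K χ (fun _ => 1) fun i b => (L (-(N : ℤ)) *ᵥ j N b) (I i) := by
    refine setIntegral_congr_fun D.cut.cpt.measurableSet fun b hb => ?_
    have : φ (fun i => (L (-(N : ℤ)) *ᵥ j N b) (I i)) = 1 := by
      refine hone _ (mem_thickening_iff.2 ⟨_, ⟨b, hb, rfl⟩, ?_⟩)
      rw [dist_comm]
      exact (dist_pi_lt_iff hδ).2 fun i => hN i b hb
    simp only [this]
  have h1 := ht φ hφ hφ1 N hnN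
  have h2 := ht (fun _ => 1) contDiff_const (fun _ => by simp) N hnN
  rw [heq] at h1
  rw [abs_le] at h1 h2 hsm ⊢
  constructor <;> linarith [h1.1, h1.2, h2.1, h2.2, hsm.1, hsm.2]

theorem claim (D : DD B K χ Nn L ρ j G H lam C) {μ θ : ℝ} (hθ : 0 < θ) (hμ : lam ≤ μ)
    {I : Fin u → Fin d} (hI : ∀ i, 1 < ρ (I i))
    (null : μ * H ≤ ∏ i, ρ (I i) → volume ((fun b i => G b (I i)) '' K : Set (XX u)) = 0) :
    ∃ C', 0 ≤ C' ∧ ∀ n : ℕ, |Jac K χ (fun _ => 1) fun i b => (L (-(n : ℤ)) *ᵥ j n b) (I i)| ≤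
      C' * (μ * H * (1 + θ) ^ (u + 1) / ∏ i, ρ (I i)) ^ n := by
  obtain ⟨c, hc, hinc⟩ := D.inc hθ
  have hP : 0 < ∏ i, ρ (I i) := Finset.prod_pos fun i _ => D.wt.pos _
  have hH := D.H_pos
  have hl := D.lam_pos
  have hμ0 : 0 < μ := hl.trans_le hμ
  set r := μ * H * (1 + θ) ^ u / ∏ i, ρ (I i) with hr
  set R := μ * H * (1 + θ) ^ (u + 1) / ∏ i, ρ (I i) with hR
  have hr0 : 0 < r := by positivity
  have hRr : R = r * (1 + θ) := by rw [hR, hr, pow_succ]; ring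
  have hrR : r < R := by rw [hRr]; nlinarith
  have hinc' : ∀ (φ : XX u → ℝ), ContDiff ℝ 1 φ → (∀ y, |φ y| ≤ 1) → ∀ n : ℕ,
      |Jac K χ φ (fun i b => (L (-((n + 1 : ℕ) : ℤ)) *ᵥ j (n + 1) b) (I i)) -
        Jac K χ φ fun i b => (L (-(n : ℤ)) *ᵥ j n b) (I i)| ≤ c * r ^ n := by
    intro φ h1 h2 n
    refine (hinc n I φ h1 h2).trans ?_
    rw [hr]
    gcongr
  rcases lt_or_ge 1 R with h1 | h1
  · refine up (x := fun n : ℕ => Jac K χ (fun _ => 1) fun i b => (L (-(n : ℤ)) *ᵥ j n b) (I i))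
      hc.le h1 fun n => (hinc' _ contDiff_const (fun _ => by simp) n).trans ?_
    gcongr
  · have hr1 : r < 1 := hrR.trans_le h1
    have h2 : μ * H ≤ ∏ i, ρ (I i) := by
      have h3 : μ * H * (1 + θ) ^ u ≤ ∏ i, ρ (I i) := (div_le_one hP).1 hr1.le
      refine le_trans ?_ h3
      exact le_mul_of_one_le_right (by positivity) (one_le_pow₀ (by linarith))
    have h4 : 0 < 1 - r := sub_pos.2 hr1
    refine ⟨2 * (c / (1 - r)), by positivity, fun n => ?_⟩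
    refine (small D hI (null h2) n (t := c / (1 - r) * r ^ n) fun φ hφ hφ1 N hN => ?_).trans ?_
    · exact tail (x := fun n : ℕ => Jac K χ φ fun i b => (L (-(n : ℤ)) *ᵥ j n b) (I i))
        hc.le hr0.le hr1 (hinc' φ hφ hφ1) hN
    · rw [mul_assoc]
      gcongr

end XRecX

theorem DD.growth (D : DD B K χ Nn L ρ j G H lam C) {q₁ : ℝ} (h1 : 0 < q₁) (h2 : q₁ < 1)
    (null : ∀ I : Fin u → Fin d, q₁ * H ≤ ∏ i, ρ (I i) →
      volume ((fun b i => G b (I i)) '' K : Set (XX u)) = 0) :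
    ∃ q C', 0 < q ∧ q < 1 ∧ ∀ (n : ℕ) (I : Fin u → Fin d),
      |Jac K χ (fun _ => 1) fun i b => j n b (I i)| ≤ C' * (q * H) ^ n := by
  have hH := D.H_pos
  have hl := D.lam_pos
  obtain ⟨μ, hμl, hμq, hμ1⟩ : ∃ μ, lam ≤ μ ∧ q₁ ≤ μ ∧ μ < 1 :=
    ⟨max lam q₁, le_max_left _ _, le_max_right _ _, max_lt D.lam_lt h2⟩
  have hμ0 : 0 < μ := h1.trans_le hμq
  obtain ⟨θ, hθ, hq⟩ := XRecX.exists_theta hμ1 (2 * u + 1)
  have hτ : (1 : ℝ) ≤ 1 + θ := by linarith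
  obtain ⟨Cs, hCs, hs⟩ := D.slow hθ
  obtain ⟨C₀, hC₀⟩ := D.wt.bd θ hθ
  have hcl : ∀ I : Fin u → Fin d, ∃ C', 0 ≤ C' ∧ ((∀ i, 1 < ρ (I i)) → ∀ n : ℕ,
      |Jac K χ (fun _ => 1) fun i b => (L (-(n : ℤ)) *ᵥ j n b) (I i)| ≤
        C' * (μ * H * (1 + θ) ^ (u + 1) / ∏ i, ρ (I i)) ^ n) := by
    intro I
    by_cases hI : ∀ i, 1 < ρ (I i)
    · obtain ⟨C', h3, h4⟩ := XRecX.claim D hθ hμl hI fun h =>
        null I ((mul_le_mul_of_nonneg_right hμq hH.le).trans h)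
      exact ⟨C', h3, fun _ => h4⟩
    · exact ⟨0, le_rfl, fun h => absurd h hI⟩
  choose CI hCI0 hCI using hcl
  have hS : 0 ≤ ∑ I, |C₀| ^ u * CI I :=
    Finset.sum_nonneg fun I _ => mul_nonneg (by positivity) (hCI0 I)
  refine ⟨μ * (1 + θ) ^ (2 * u + 1), Cs + ∑ I, |C₀| ^ u * CI I, by positivity, hq, fun n I => ?_⟩
  have hpow : 0 ≤ (μ * (1 + θ) ^ (2 * u + 1) * H) ^ n := by positivity
  by_cases hI : ∀ i, 1 < ρ (I i)
  · have hj : (fun (i : Fin u) (b : XX u) => j n b (I i)) =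
        fun i b => L n (I i) ⬝ᵥ (L (-(n : ℤ)) *ᵥ j n b) := by
      funext i b
      change _ = (L n *ᵥ (L (-(n : ℤ)) *ᵥ j n b)) (I i)
      rw [mulVec_mulVec, ← D.wt.add, add_neg_cancel, D.wt.zero, one_mulVec]
    rw [hj, jac_lin D.cut (fun k => XRecX.c1 D _ n k)]
    refine (Finset.abs_sum_le_sum_abs _ _).trans ?_
    refine le_trans ?_ (mul_le_mul_of_nonneg_right (le_add_of_nonneg_left hCs.le) hpow)
    rw [Finset.sum_mul]
    refine Finset.sum_le_sum fun I' _ => ?_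
    by_cases hw : ∀ i, ρ (I' i) = ρ (I i)
    · have hP : 0 < ∏ i, ρ (I i) := Finset.prod_pos fun i _ => D.wt.pos _
      have h3 := hCI I' (fun i => hw i ▸ hI i) n
      simp only [hw] at h3
      have h4 : |∏ i, L n (I i) (I' i)| ≤ |C₀| ^ u * ((∏ i, ρ (I i)) * (1 + θ) ^ u) ^ n := by
        rw [Finset.abs_prod]
        calc _ ≤ ∏ i : Fin u, |C₀| * ρ (I i) ^ n * (1 + θ) ^ n := by
              refine Finset.prod_le_prod (fun i _ => abs_nonneg _) fun i _ => ?_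
              have h5 := hC₀ n (I i) (I' i)
              rw [zpow_natCast, Int.natAbs_natCast] at h5
              have h6 := D.wt.pos (I i)
              refine h5.trans ?_
              gcongr
              exact le_abs_self _
          _ = _ := by
              rw [Finset.prod_mul_distrib, Finset.prod_mul_distrib, Finset.prod_pow,
                Finset.prod_const, Finset.prod_const, Finset.card_univ, Fintype.card_fin, mul_pow,
                mul_assoc, ← pow_mul, ← pow_mul, mul_comm n u]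
      rw [abs_mul]
      refine (mul_le_mul h4 h3 (abs_nonneg _) (by positivity)).trans_eq ?_
      have h7 : μ * (1 + θ) ^ (2 * u + 1) * H = (∏ i, ρ (I i)) * (1 + θ) ^ u *
          (μ * H * (1 + θ) ^ (u + 1) / ∏ i, ρ (I i)) := by
        field_simp
        ring
      rw [h7, mul_pow ((∏ i, ρ (I i)) * (1 + θ) ^ u)]
      ring
    · obtain ⟨i, hi⟩ := not_forall.1 hw
      rw [Finset.prod_eq_zero (Finset.mem_univ i) (D.wt.blk n _ _ hi), zero_mul, abs_zero]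
      exact mul_nonneg (mul_nonneg (by positivity) (hCI0 I')) hpow
  · obtain ⟨i, hi⟩ := not_forall.1 hI
    refine (hs n I i (not_lt.1 hi)).trans ?_
    have h3 : lam * H * (1 + θ) ≤ μ * (1 + θ) ^ (2 * u + 1) * H := by
      rw [mul_right_comm]
      have h4 : 1 + θ ≤ (1 + θ) ^ (2 * u + 1) := le_self_pow₀ hτ (by omega)
      gcongr
    exact mul_le_mul (le_add_of_nonneg_right hS) (pow_le_pow_left₀ (by positivity) h3 n)
      (by positivity) (by positivity)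


end Pool.Agent.P.MP_5c499f_an
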