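import Pool.Agent.P.MP_5c499f_an.XHom

/-! One step estimates for the Jacobian integrals. -/

set_option autoImplicit false

namespace Pool.Agent.P.MP_5c499f_an

open Filter Topology Metric MeasureTheory Matrix

namespace XRecAX

theorem mv_le {d : ℕ} (M : Matrix (Fin d) (Fin d) ℝ) (k : Fin d) {e c : ℝ}
    (hM : ∀ l, |M k l| ≤ e) (x : Fin d → ℝ) (hx : ∀ l, |x l| ≤ c) :
    |(M *ᵥ x) k| ≤ d * e * c := by
  have h1 : (M *ᵥ x) k = ∑ l, M k l * x l := rfl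
  rw [h1]
  calc |∑ l, M k l * x l| ≤ ∑ l, |M k l * x l| := Finset.abs_sum_le_sum_abs _ _
    _ ≤ ∑ _l : Fin d, e * c := by
        refine Finset.sum_le_sum fun l _ => ?_
        rw [abs_mul]
        exact mul_le_mul (hM l) (hx l) (abs_nonneg _) ((abs_nonneg _).trans (hM l))
    _ = d * e * c := by simp [mul_assoc]

theorem mv_le_norm {d : ℕ} (M : Matrix (Fin d) (Fin d) ℝ) (k : Fin d) {e c : ℝ}
    (hM : ∀ l, |M k l| ≤ e) (x : Fin d → ℝ) (hx : ‖x‖ ≤ c) :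
    |(M *ᵥ x) k| ≤ d * e * c :=
  mv_le M k hM x fun l => by
    rw [← Real.norm_eq_abs]; exact (norm_le_pi_norm x l).trans hx

theorem mv_c1 {u d : ℕ} (M : Matrix (Fin d) (Fin d) ℝ) (k : Fin d) {B : Set (XX u)}
    {m : XX u → Fin d → ℝ} (hm : ∀ l, ContDiffOn ℝ 1 (fun b => m b l) B) :
    ContDiffOn ℝ 1 (fun b => (M *ᵥ m b) k) B := by
  have h1 : (fun b => (M *ᵥ m b) k) = fun b => ∑ l, M k l * m b l := rfl
  rw [h1]
  exact ContDiffOn.sum fun l _ => contDiffOn_const.mul (hm l)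

theorem mv_der {u d : ℕ} (M : Matrix (Fin d) (Fin d) ℝ) (k : Fin d) {B : Set (XX u)}
    (hB : IsOpen B) {m : XX u → Fin d → ℝ} (hm : ∀ l, ContDiffOn ℝ 1 (fun b => m b l) B)
    {b : XX u} (hb : b ∈ B) (v : XX u) :
    fderiv ℝ (fun b => (M *ᵥ m b) k) b v =
      (M *ᵥ fun l => fderiv ℝ (fun b => m b l) b v) k := by
  have h1 : (fun b => (M *ᵥ m b) k) = fun b => ∑ l, M k l * m b l := rfl
  have h2 : ∀ l, HasFDerivAt (fun b => m b l) (fderiv ℝ (fun b => m b l) b) b := fun l =>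
    (((hm l).contDiffAt (hB.mem_nhds hb)).differentiableAt one_ne_zero).hasFDerivAt
  have h3 : HasFDerivAt (fun b => ∑ l, M k l * m b l)
      (∑ l, M k l • fderiv ℝ (fun b => m b l) b) b :=
    HasFDerivAt.fun_sum fun l _ => (h2 l).const_mul (M k l)
  rw [h1, h3.fderiv]
  simp [Matrix.mulVec, dotProduct]

variable {u d : ℕ} {B K : Set (XX u)} {χ : XX u → ℝ} {Nn : ℕ → XX u → XX u → ℝ}
  {L : ℤ → Matrix (Fin d) (Fin d) ℝ} {ρ : Fin d → ℝ} {j : ℕ → XX u → Fin d → ℝ}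
  {G : XX u → Fin d → ℝ} {H lam C : ℝ}

theorem nn_nonneg (D : DD B K χ Nn L ρ j G H lam C) (n : ℕ) {b : XX u} (hb : b ∈ K) (v : XX u) :
    0 ≤ Nn n b v := by
  have h1 := (norm_nonneg v).trans (D.expd n b hb v)
  have h2 : 0 < C * lam ^ n := mul_pos D.C_pos (pow_pos D.lam_pos n)
  by_contra hneg
  push Not at hneg
  have := mul_neg_of_pos_of_neg h2 hneg
  linarith

theorem chi_der (D : DD B K χ Nn L ρ j G H lam C) :
    ∃ K₁, 0 < K₁ ∧ ∀ n, ∀ b ∈ K, ∀ v, |fderiv ℝ χ b v| ≤ K₁ * lam ^ n * Nn n b v := by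
  have hc : Continuous fun b => fderiv ℝ χ b := D.cut.c1.continuous_fderiv one_ne_zero
  obtain ⟨K₀, hK₀⟩ := D.cut.cpt.exists_bound_of_continuousOn hc.continuousOn
  refine ⟨max K₀ 1 * C, mul_pos (lt_of_lt_of_le one_pos (le_max_right _ _)) D.C_pos, ?_⟩
  intro n b hb v
  have h1 : |fderiv ℝ χ b v| ≤ max K₀ 1 * ‖v‖ := by
    rw [← Real.norm_eq_abs]
    exact ((fderiv ℝ χ b).le_opNorm v).trans
      (mul_le_mul_of_nonneg_right ((hK₀ b hb).trans (le_max_left _ _)) (norm_nonneg _))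
  have h2 := mul_le_mul_of_nonneg_left (D.expd n b hb v)
    (le_trans zero_le_one (le_max_right K₀ 1))
  calc |fderiv ℝ χ b v| ≤ max K₀ 1 * (C * lam ^ n * Nn n b v) := h1.trans h2
    _ = max K₀ 1 * C * lam ^ n * Nn n b v := by ring

theorem ent_neg (wt : Wt L ρ) {θ : ℝ} (hθ : 0 < θ) :
    ∃ E, 0 < E ∧ ∀ (n : ℕ) k l, |L (-(n : ℤ)) k l| ≤ E * ((1 + θ) / ρ k) ^ n ∧
      |L (-((n + 1 : ℕ) : ℤ)) k l| ≤ E * ((1 + θ) / ρ k) ^ n := by
  obtain ⟨Cb, hCb⟩ := wt.bd θ hθ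
  have h0 : ∀ (n : ℕ) k l, |L (-(n : ℤ)) k l| ≤ max Cb 1 * ((1 + θ) / ρ k) ^ n := by
    intro n k l
    have h1 := hCb (-(n : ℤ)) k l
    have h2 : (-(n : ℤ)).natAbs = n := by simp
    rw [h2, _root_.zpow_neg, _root_.zpow_natCast] at h1
    have hρ := wt.pos k
    calc |L (-(n : ℤ)) k l| ≤ Cb * (ρ k ^ n)⁻¹ * (1 + θ) ^ n := h1
      _ = Cb * ((1 + θ) / ρ k) ^ n := by rw [div_pow]; ring
      _ ≤ max Cb 1 * ((1 + θ) / ρ k) ^ n :=
        mul_le_mul_of_nonneg_right (le_max_left _ _) (by positivity)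
  have hS : 0 ≤ ∑ k, (1 + θ) / ρ k :=
    Finset.sum_nonneg fun k _ => by have := wt.pos k; positivity
  have hm : 0 < max Cb 1 := lt_of_lt_of_le one_pos (le_max_right _ _)
  refine ⟨max Cb 1 * (1 + ∑ k, (1 + θ) / ρ k), by positivity, fun n k l => ⟨?_, ?_⟩⟩
  · refine (h0 n k l).trans (mul_le_mul_of_nonneg_right ?_ ?_)
    · nlinarith
    · have := wt.pos k; positivity
  · refine (h0 (n + 1) k l).trans ?_
    have hρ := wt.pos k
    have h1 : (1 + θ) / ρ k ≤ 1 + ∑ k, (1 + θ) / ρ k := by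
      have := Finset.single_le_sum (f := fun k => (1 + θ) / ρ k)
        (fun k _ => by have := wt.pos k; positivity) (Finset.mem_univ k)
      linarith
    calc max Cb 1 * ((1 + θ) / ρ k) ^ (n + 1)
        = max Cb 1 * ((1 + θ) / ρ k) * ((1 + θ) / ρ k) ^ n := by ring
      _ ≤ max Cb 1 * (1 + ∑ k, (1 + θ) / ρ k) * ((1 + θ) / ρ k) ^ n :=
        mul_le_mul_of_nonneg_right (mul_le_mul_of_nonneg_left h1 hm.le) (by positivity)

theorem geo {θ : ℝ} (hθ : 0 < θ) (n : ℕ) :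
    ∑ m ∈ Finset.range n, (1 + θ) ^ m ≤ θ⁻¹ * (1 + θ) ^ n := by
  induction n with
  | zero => simp; positivity
  | succ n ih =>
    rw [Finset.sum_range_succ]
    have h : θ⁻¹ * (1 + θ) ^ (n + 1) = θ⁻¹ * (1 + θ) ^ n + (1 + θ) ^ n := by
      field_simp
      ring
    rw [h]; linarith

theorem slow_bd (D : DD B K χ Nn L ρ j G H lam C) {θ : ℝ} (hθ : 0 < θ) :
    ∃ R, 0 < R ∧ ∀ (n : ℕ) k, ρ k ≤ 1 → ∀ b ∈ K, |j n b k| ≤ R * (1 + θ) ^ n := by
  obtain ⟨Cb, hCb⟩ := D.wt.bd θ hθ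
  have hm : 0 < max Cb 1 := lt_of_lt_of_le one_pos (le_max_right _ _)
  have h0 : ∀ (n : ℕ) k l, ρ k ≤ 1 → |L (n : ℤ) k l| ≤ max Cb 1 * (1 + θ) ^ n := by
    intro n k l hk
    have h1 := hCb (n : ℤ) k l
    have h2 : (n : ℤ).natAbs = n := by simp
    rw [h2, _root_.zpow_natCast] at h1
    have hρ := D.wt.pos k
    have h3 : ρ k ^ n ≤ 1 := pow_le_one₀ hρ.le hk
    have h4 : Cb * ρ k ^ n ≤ max Cb 1 :=
      calc Cb * ρ k ^ n ≤ max Cb 1 * ρ k ^ n :=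
            mul_le_mul_of_nonneg_right (le_max_left _ _) (by positivity)
        _ ≤ max Cb 1 * 1 := mul_le_mul_of_nonneg_left h3 hm.le
        _ = max Cb 1 := mul_one _
    exact h1.trans (mul_le_mul_of_nonneg_right h4 (by positivity))
  have hc : ContinuousOn (fun b => j 0 b) K :=
    continuousOn_pi.2 fun k => (D.c1 0 k).continuousOn.mono D.cut.sub
  obtain ⟨K₀, hK₀⟩ := D.cut.cpt.exists_bound_of_continuousOn hc
  have hC := D.C_pos
  have hK : 0 < max K₀ 1 := lt_of_lt_of_le one_pos (le_max_right _ _)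
  refine ⟨d * max Cb 1 * max K₀ 1 + d * max Cb 1 * C * θ⁻¹ + 1, by positivity, ?_⟩
  intro n k hk b hb
  set s : ℕ → ℝ := fun i => (L ((n : ℤ) - i) *ᵥ j i b) k with hs
  have htel := Finset.sum_range_sub s n
  have hsn : s n = j n b k := by simp [hs, D.wt.zero]
  have hs0 : |s 0| ≤ d * (max Cb 1 * (1 + θ) ^ n) * max K₀ 1 := by
    have : s 0 = (L (n : ℤ) *ᵥ j 0 b) k := by simp [hs]
    rw [this]
    exact mv_le_norm _ k (fun l => h0 n k l hk) _ ((hK₀ b hb).trans (le_max_left _ _))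
  have hstep : ∀ i ∈ Finset.range n,
      |s (i + 1) - s i| ≤ d * max Cb 1 * C * (1 + θ) ^ (n - 1 - i) := by
    intro i hi
    rw [Finset.mem_range] at hi
    have e1 : (n : ℤ) - ((i + 1 : ℕ) : ℤ) = ((n - 1 - i : ℕ) : ℤ) := by omega
    have e2 : (n : ℤ) - (i : ℤ) = ((n - 1 - i : ℕ) : ℤ) + 1 := by omega
    have e3 : s (i + 1) - s i =
        (L ((n - 1 - i : ℕ) : ℤ) *ᵥ (j (i + 1) b - L 1 *ᵥ j i b)) k := by
      simp only [hs]
      rw [e1, e2, D.wt.add, Matrix.mulVec_sub, Matrix.mulVec_mulVec]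
      rfl
    rw [e3]
    calc _ ≤ d * (max Cb 1 * (1 + θ) ^ (n - 1 - i)) * C :=
          mv_le_norm _ k (fun l => h0 _ k l hk) _ (D.step i b hb)
      _ = _ := by ring
  have hsum : |∑ i ∈ Finset.range n, (s (i + 1) - s i)| ≤
      d * max Cb 1 * C * (θ⁻¹ * (1 + θ) ^ n) :=
    calc _ ≤ ∑ i ∈ Finset.range n, |s (i + 1) - s i| := Finset.abs_sum_le_sum_abs _ _
      _ ≤ ∑ i ∈ Finset.range n, d * max Cb 1 * C * (1 + θ) ^ (n - 1 - i) :=
          Finset.sum_le_sum hstep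
      _ = d * max Cb 1 * C * ∑ i ∈ Finset.range n, (1 + θ) ^ i := by
          rw [← Finset.mul_sum, Finset.sum_range_reflect (fun m => (1 + θ) ^ m) n]
      _ ≤ _ := mul_le_mul_of_nonneg_left (geo hθ n) (by positivity)
  have e4 : j n b k = s 0 + ∑ i ∈ Finset.range n, (s (i + 1) - s i) := by
    rw [htel, hsn]; ring
  have hp : 0 < (1 + θ) ^ n := by positivity
  rw [e4]
  calc _ ≤ |s 0| + |∑ i ∈ Finset.range n, (s (i + 1) - s i)| := abs_add_le _ _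
    _ ≤ d * (max Cb 1 * (1 + θ) ^ n) * max K₀ 1 + d * max Cb 1 * C * (θ⁻¹ * (1 + θ) ^ n) :=
        add_le_add hs0 hsum
    _ ≤ _ := by nlinarith

end XRecAX

open XRecAX

variable {u d : ℕ} {B K : Set (XX u)} {χ : XX u → ℝ} {Nn : ℕ → XX u → XX u → ℝ}
  {L : ℤ → Matrix (Fin d) (Fin d) ℝ} {ρ : Fin d → ℝ} {j : ℕ → XX u → Fin d → ℝ}
  {G : XX u → Fin d → ℝ} {H lam C : ℝ}

theorem DD.inc (D : DD B K χ Nn L ρ j G H lam C) {θ : ℝ} (hθ : 0 < θ) :
    ∃ C', 0 < C' ∧ ∀ (n : ℕ) (I : Fin u → Fin d) (φ : XX u → ℝ), ContDiff ℝ 1 φ →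
      (∀ y, |φ y| ≤ 1) →
      |Jac K χ φ (fun i b => (L (-((n + 1 : ℕ) : ℤ)) *ᵥ j (n + 1) b) (I i)) -
        Jac K χ φ fun i b => (L (-(n : ℤ)) *ᵥ j n b) (I i)| ≤
        C' * (lam * H * (1 + θ) ^ u / ∏ i, ρ (I i)) ^ n := by
  obtain ⟨K₁, hK₁, hχ⟩ := chi_der D
  obtain ⟨E, hE, hL⟩ := ent_neg D.wt hθ
  have hC := D.C_pos
  have hH := D.H_pos
  have hl := D.lam_pos
  refine ⟨u * K₁ * (d * E * C + 1) ^ u * C + 1, by positivity, ?_⟩
  intro n I φ hφ hφ'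
  have ht : ∀ k, 0 < ((1 + θ) / ρ k) ^ n := fun k => by have := D.wt.pos k; positivity
  have key := homot D.cut (W := C * H ^ n) (μ := K₁ * lam ^ n) (by positivity) (D.vol n)
    (by positivity) (hχ n) hφ hφ'
    (g := fun i b => (L (-((n + 1 : ℕ) : ℤ)) *ᵥ j (n + 1) b) (I i))
    (g' := fun i b => (L (-(n : ℤ)) *ᵥ j n b) (I i))
    (fun i => mv_c1 _ _ (D.c1 (n + 1))) (fun i => mv_c1 _ _ (D.c1 n))
    (w := fun i => (d * E * C + 1) * ((1 + θ) / ρ (I i)) ^ n)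
    (fun i => mul_pos (by positivity) (ht _)) ?_ ?_ ?_
  · refine key.trans ?_
    have hP : 0 < ∏ i, ρ (I i) := Finset.prod_pos fun i _ => D.wt.pos _
    have e1 : ∏ i, (d * E * C + 1) * ((1 + θ) / ρ (I i)) ^ n =
        (d * E * C + 1) ^ u * ((1 + θ) ^ u / ∏ i, ρ (I i)) ^ n := by
      rw [Finset.prod_mul_distrib, Finset.prod_pow, Finset.prod_div_distrib]
      simp
    rw [e1]
    have e2 : (lam * H * (1 + θ) ^ u / ∏ i, ρ (I i)) ^ n =
        lam ^ n * H ^ n * ((1 + θ) ^ u / ∏ i, ρ (I i)) ^ n := by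
      rw [← mul_pow, ← mul_pow, mul_div_assoc]
    rw [e2]
    have hq : 0 ≤ lam ^ n * H ^ n * ((1 + θ) ^ u / ∏ i, ρ (I i)) ^ n := by positivity
    calc _ = u * K₁ * (d * E * C + 1) ^ u * C *
          (lam ^ n * H ^ n * ((1 + θ) ^ u / ∏ i, ρ (I i)) ^ n) := by ring
      _ ≤ _ := mul_le_mul_of_nonneg_right (by linarith) hq
  · intro i b hb
    have e2 : (-(n : ℤ)) = -((n + 1 : ℕ) : ℤ) + 1 := by push_cast; ring
    have e3 : (L (-((n + 1 : ℕ) : ℤ)) *ᵥ j (n + 1) b) (I i) - (L (-(n : ℤ)) *ᵥ j n b) (I i) =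
        (L (-((n + 1 : ℕ) : ℤ)) *ᵥ (j (n + 1) b - L 1 *ᵥ j n b)) (I i) := by
      rw [e2, D.wt.add, Matrix.mulVec_sub, Matrix.mulVec_mulVec]
      rfl
    have h1 := mv_le_norm _ (I i) (fun l => (hL n (I i) l).2) _ (D.step n b hb)
    have := ht (I i)
    rw [e3]
    nlinarith
  · intro i b hb v
    have h1 := mv_le _ (I i) (fun l => (hL n (I i) l).2) _ fun l => D.der' n l b hb v
    have h2 := mul_nonneg (ht (I i)).le (nn_nonneg D n hb v)
    rw [mv_der _ _ D.cut.op (D.c1 (n + 1)) (D.cut.sub hb)]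
    nlinarith
  · intro i b hb v
    have h1 := mv_le _ (I i) (fun l => (hL n (I i) l).1) _ fun l => D.der n l b hb v
    have h2 := mul_nonneg (ht (I i)).le (nn_nonneg D n hb v)
    rw [mv_der _ _ D.cut.op (D.c1 n) (D.cut.sub hb)]
    nlinarith

theorem DD.slow (D : DD B K χ Nn L ρ j G H lam C) {θ : ℝ} (hθ : 0 < θ) :
    ∃ C', 0 < C' ∧ ∀ (n : ℕ) (I : Fin u → Fin d) (i₀ : Fin u), ρ (I i₀) ≤ 1 →
      |Jac K χ (fun _ => 1) fun i b => j n b (I i)| ≤ C' * (lam * H * (1 + θ)) ^ n := by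
  obtain ⟨K₁, hK₁, hχ⟩ := chi_der D
  obtain ⟨R, hR, hj⟩ := slow_bd D hθ
  have hC := D.C_pos
  have hH := D.H_pos
  have hl := D.lam_pos
  have hm : 0 < max C 1 := lt_of_lt_of_le one_pos (le_max_right _ _)
  refine ⟨R * K₁ * max C 1 ^ u * C, by positivity, ?_⟩
  intro n I i₀ hi
  have key := homot_one D.cut (W := C * H ^ n) (μ := K₁ * lam ^ n) (by positivity) (D.vol n)
    (by positivity) (hχ n) (g := fun i b => j n b (I i)) (fun i => D.c1 n (I i))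
    (c := max C 1) (R := R * (1 + θ) ^ n) (le_max_right _ _) (by positivity) i₀
    (hj n (I i₀) hi) fun i b hb v => (D.der n (I i) b hb v).trans
      (mul_le_mul_of_nonneg_right (le_max_left _ _) (nn_nonneg D n hb v))
  refine key.trans (le_of_eq ?_)
  rw [mul_pow, mul_pow]
  ring


end Pool.Agent.P.MP_5c499f_an
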