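import Pool.Agent.P.MP_5c499f_an.XAmb
import Pool.Agent.P.MP_5c499f_an.XDefs

/-! A retraction onto an embedded compact manifold. -/

set_option autoImplicit false

namespace Pool.Agent.P.MP_5c499f_an

open Bundle Filter Topology
open scoped Manifold ContDiff

variable {E : Type*} [NormedAddCommGroup E] [NormedSpace ℝ E] [FiniteDimensional ℝ E]
  {M : Type*} [MetricSpace M] [CompactSpace M] [ChartedSpace E M] [IsManifold 𝓘(ℝ, E) ∞ M]
  {N : ℕ} {e : M → VV N} {r : VV N → M} {U : Set (VV N)}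

variable (E) in
/-- An isometric smooth embedding together with a `C¹` retraction. -/
structure Emb (e : M → VV N) (r : VV N → M) (U : Set (VV N)) : Prop where
  iso : ∀ x y, dist x y = ‖e x - e y‖
  smooth : ContMDiff 𝓘(ℝ, E) 𝓘(ℝ, VV N) ∞ e
  inj : ∀ x, Function.Injective (mfderiv 𝓘(ℝ, E) 𝓘(ℝ, VV N) e x)
  op : IsOpen U
  sub : ∀ x, e x ∈ U
  ret : ∀ x, r (e x) = x
  c1 : ContMDiffOn 𝓘(ℝ, VV N) 𝓘(ℝ, E) 1 r U

variable {W : Type*} [NormedAddCommGroup W] [NormedSpace ℝ W]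

lemma Emb.contDiffOn (h : Emb E e r U) {φ : M → W} (hφ : ContMDiff 𝓘(ℝ, E) 𝓘(ℝ, W) 1 φ) :
    ContDiffOn ℝ 1 (φ ∘ r) U :=
  contMDiffOn_iff_contDiffOn.1 (hφ.comp_contMDiffOn h.c1)

lemma Emb.Dm_De (h : Emb E e r U) {φ : M → W} (hφ : ContMDiff 𝓘(ℝ, E) 𝓘(ℝ, W) 1 φ) (x : M)
    (w : TangentSpace 𝓘(ℝ, E) x) :
    Dm e r φ x (mvfderiv 𝓘(ℝ, E) e x w) = mvfderiv 𝓘(ℝ, E) φ x w := by
  have d1 := (((h.contDiffOn hφ).contDiffAt (h.op.mem_nhds (h.sub x))).differentiableAt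
    one_ne_zero).mdifferentiableAt
  have d2 := h.smooth.mdifferentiable (by simp) x
  have := mfderiv_comp_apply x d1 d2 w
  rw [show (φ ∘ r) ∘ e = φ from funext fun x => congrArg φ (h.ret x), mfderiv_eq_fderiv] at this
  exact this.symm

/-- The differential of the retraction. -/
lemma Emb.exists_Dr (h : Emb E e r U) (x : M) : ∃ R : VV N →L[ℝ] TangentSpace 𝓘(ℝ, E) x,
    (∀ w, R (mvfderiv 𝓘(ℝ, E) e x w) = w) ∧ ∀ v, mvfderiv 𝓘(ℝ, E) e x (R v) = Dm e r e x v := by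
  have d1 := (h.c1.contMDiffAt (h.op.mem_nhds (h.sub x))).mdifferentiableAt one_ne_zero
  have d2 := h.smooth.mdifferentiable (by simp)
  refine ⟨(mfderiv 𝓘(ℝ, VV N) 𝓘(ℝ, E) r (e x) : VV N →L[ℝ] E), fun w => ?_, fun v => ?_⟩
  · have := mfderiv_comp_apply x d1 (d2 x) w
    rw [show r ∘ e = id from funext h.ret, mfderiv_id] at this
    exact this.symm
  · have := mfderiv_comp_apply (e x) (d2 _) d1 v
    rw [mfderiv_eq_fderiv] at this
    have e1 : ∀ y, y = x → ∀ w : E, (mfderiv 𝓘(ℝ, E) 𝓘(ℝ, VV N) e y w : VV N) =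
        mvfderiv 𝓘(ℝ, E) e x w := by rintro _ rfl w; rfl
    exact (e1 _ (h.ret x) _).symm.trans this.symm


end Pool.Agent.P.MP_5c499f_an
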