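import Pool.Agent.P.MP_5c499f_an.XAmb

/-! Weights of a linear automorphism. -/

set_option autoImplicit false

namespace Pool.Agent.P.MP_5c499f_an

open Filter Topology Metric MeasureTheory Matrix

namespace XSpecX

lemma seq_bd {U : Type*} [NormedAddCommGroup U] {a : ℤ → U} {θ C : ℝ} (hθ : 0 < θ) (hC : 0 ≤ C)
    (h : ∀ n : ℤ, ‖a (n + 1) - a n‖ ≤ C * (1 + θ) ^ n.natAbs) :
    ∃ D : ℝ, 0 ≤ D ∧ ∀ n : ℤ, ‖a n‖ ≤ D * (1 + θ) ^ n.natAbs := by
  obtain ⟨D, hD0, hD1, hD2⟩ : ∃ D : ℝ, 0 ≤ D ∧ ‖a 0‖ ≤ D ∧ C * (1 + θ) ≤ D * θ := by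
    have h1 : 0 ≤ C * (1 + θ) / θ := by positivity
    refine ⟨‖a 0‖ + C * (1 + θ) / θ, by positivity, by linarith, ?_⟩
    rw [add_mul, div_mul_cancel₀ _ hθ.ne']
    have := mul_nonneg (norm_nonneg (a 0)) hθ.le
    linarith
  refine ⟨D, hD0, fun n => ?_⟩
  induction n using Int.induction_on with
  | zero => simpa using hD1
  | succ n ih =>
    have h1 := h n
    have e : ((n : ℤ) + 1).natAbs = n + 1 := by omega
    rw [Int.natAbs_natCast] at ih h1
    rw [e, pow_succ]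
    have h2 := norm_le_norm_add_norm_sub' (a (n + 1)) (a n)
    have h3 : 0 ≤ (1 + θ) ^ n := by positivity
    have h4 : C ≤ D * θ := by nlinarith
    have h5 := mul_le_mul_of_nonneg_right h4 h3
    nlinarith
  | pred n ih =>
    have h1 := h (-(n : ℤ) - 1)
    have e : (-(n : ℤ) - 1).natAbs = n + 1 := by omega
    have e' : (-(n : ℤ)).natAbs = n := by omega
    rw [e, sub_add_cancel, pow_succ, norm_sub_rev] at h1
    rw [e'] at ih
    rw [e, pow_succ]
    have h2 := norm_le_norm_add_norm_sub' (a (-(n : ℤ) - 1)) (a (-(n : ℤ)))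
    have h3 : 0 ≤ (1 + θ) ^ n := by positivity
    have h5 := mul_le_mul_of_nonneg_right hD2 h3
    nlinarith

variable {U : Type*} [NormedAddCommGroup U] [NormedSpace ℂ U]

lemma growth (S : U ≃ₗ[ℂ] U) {μ : ℂ} (hμ : μ ≠ 0) {θ : ℝ} (hθ : 0 < θ) (k : ℕ) :
    ∀ v : U, (((S : U →ₗ[ℂ] U) - μ • (1 : Module.End ℂ U)) ^ k) v = 0 →
      ∃ D : ℝ, 0 ≤ D ∧ ∀ n : ℤ, ‖(μ ^ n)⁻¹ • (S ^ n) v‖ ≤ D * (1 + θ) ^ n.natAbs := by
  induction k with
  | zero =>
    intro v hv
    have : v = 0 := by simpa using hv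
    subst this
    exact ⟨0, le_rfl, fun n => by simp⟩
  | succ k ih =>
    intro v hv
    rw [pow_succ, Module.End.mul_apply] at hv
    obtain ⟨C, hC, H⟩ := ih _ hv
    refine seq_bd (C := ‖μ⁻¹‖ * C) hθ (by positivity) fun n => ?_
    have e : (μ ^ (n + 1))⁻¹ • (S ^ (n + 1)) v - (μ ^ n)⁻¹ • (S ^ n) v =
        μ⁻¹ • (μ ^ n)⁻¹ • (S ^ n) (((S : U →ₗ[ℂ] U) - μ • (1 : Module.End ℂ U)) v) := by
      have hn : μ ^ n ≠ 0 := zpow_ne_zero n hμ
      rw [zpow_add_one S, LinearEquiv.mul_apply, zpow_add_one₀ hμ]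
      simp only [LinearMap.sub_apply, LinearMap.smul_apply, Module.End.one_apply,
        LinearEquiv.coe_coe, map_sub, map_smul, smul_sub, smul_smul]
      have e1 : (μ ^ n * μ)⁻¹ = μ⁻¹ * (μ ^ n)⁻¹ := by field_simp
      have e2 : μ⁻¹ * ((μ ^ n)⁻¹ * μ) = (μ ^ n)⁻¹ := by field_simp
      rw [e1, e2]
    rw [e, norm_smul, mul_assoc]
    exact mul_le_mul_of_nonneg_left (H n) (norm_nonneg _)

lemma growth' (S : U ≃ₗ[ℂ] U) {μ : ℂ} (hμ : μ ≠ 0) {θ : ℝ} (hθ : 0 < θ) {v : U}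
    (hv : v ∈ Module.End.maxGenEigenspace (S : U →ₗ[ℂ] U) μ) :
    ∃ D : ℝ, 0 ≤ D ∧ ∀ n : ℤ, ‖(S ^ n) v‖ ≤ D * ‖μ‖ ^ n * (1 + θ) ^ n.natAbs := by
  obtain ⟨k, hk⟩ := (Module.End.mem_maxGenEigenspace _ _ _).1 hv
  obtain ⟨D, hD, H⟩ := growth S hμ hθ k v hk
  refine ⟨D, hD, fun n => ?_⟩
  have h := H n
  have hp : 0 < ‖μ‖ ^ n := zpow_pos (norm_pos_iff.2 hμ) n
  rw [norm_smul, norm_inv, norm_zpow, inv_mul_le_iff₀ hp] at h
  linarith

lemma inv_zpow (S : U ≃ₗ[ℂ] U) (μ : ℂ) (n : ℤ) {v : U}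
    (hv : v ∈ Module.End.maxGenEigenspace (S : U →ₗ[ℂ] U) μ) :
    (S ^ n) v ∈ Module.End.maxGenEigenspace (S : U →ₗ[ℂ] U) μ := by
  have hc : Commute (S : Module.End ℂ U) ((S ^ n : U ≃ₗ[ℂ] U) : Module.End ℂ U) := by
    have h := (Commute.refl S).zpow_right n
    ext x
    have := congrArg (fun T : U ≃ₗ[ℂ] U => T x) h.eq
    simpa using this
  exact Module.End.mapsTo_maxGenEigenspace_of_comm hc μ hv

/-- the block statement over an arbitrary finite index type -/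
lemma blocks {V : Type*} [NormedAddCommGroup V] [NormedSpace ℝ V] [FiniteDimensional ℝ V]
    {ι : Type*} [Fintype ι] (R : ℤ → V →ₗ[ℝ] V) (h0 : ∀ x, R 0 x = x)
    (hadd : ∀ m n x, R (m + n) x = R n (R m x)) (P : ι → Submodule ℝ V) (r : ι → ℝ)
    (hr : ∀ i, 0 < r i) (hinv : ∀ i n, ∀ x ∈ P i, R n x ∈ P i)
    (hbd : ∀ i, ∀ x ∈ P i, ∀ θ : ℝ, 0 < θ →
      ∃ D : ℝ, 0 ≤ D ∧ ∀ n : ℤ, ‖R n x‖ ≤ D * r i ^ n * (1 + θ) ^ n.natAbs) :
    ∃ (d : ℕ) (β : Fin d → V) (L : ℤ → Matrix (Fin d) (Fin d) ℝ) (ρ : Fin d → ℝ), Wt L ρ ∧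
      (∀ i, P i ≤ Submodule.span ℝ (Set.range β)) ∧ ∀ k, R 1 (β k) = ∑ j, L 1 k j • β j := by
  classical
  let κ : Type _ := Σ i : ι, Fin (Module.finrank ℝ (P i))
  let b := fun i => Module.finBasis ℝ (P i)
  let B : ℤ → ∀ i, Matrix (Fin (Module.finrank ℝ (P i))) (Fin (Module.finrank ℝ (P i))) ℝ :=
    fun n i => (LinearMap.toMatrix (b i) (b i) ((R n).restrict (hinv i n)))ᵀ
  let e : κ ≃ Fin (Fintype.card κ) := Fintype.equivFin κ
  let β : κ → V := fun k => (b k.1 k.2 : V)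
  have hB : ∀ n i a c, B n i a c = (b i).repr ((R n).restrict (hinv i n) (b i a)) c := by
    intro n i a c
    simp only [B, transpose_apply, LinearMap.toMatrix_apply]
  refine ⟨Fintype.card κ, fun k => β (e.symm k),
    fun n => (blockDiagonal' (B n)).submatrix e.symm e.symm, fun k => r (e.symm k).1,
    ⟨fun k => hr _, ?_, fun m n => ?_, fun n k j hne => ?_, fun θ hθ => ?_⟩, fun i => ?_,
    fun k => ?_⟩
  · have : B 0 = 1 := by
      funext i
      have : (R 0).restrict (hinv i 0) = LinearMap.id := by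
        ext x
        simp [LinearMap.restrict_apply, h0]
      simp only [B, this, LinearMap.toMatrix_id, transpose_one, Pi.one_apply]
    rw [this, blockDiagonal'_one, submatrix_one_equiv]
  · have : B (m + n) = fun i => B m i * B n i := by
      funext i
      have : (R (m + n)).restrict (hinv i (m + n)) =
          ((R n).restrict (hinv i n)).comp ((R m).restrict (hinv i m)) := by
        ext x
        simp [LinearMap.restrict_apply, hadd]
      simp only [B, this, LinearMap.toMatrix_comp _ (b i), transpose_mul]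
    rw [this, blockDiagonal'_mul, submatrix_mul_equiv]
  · have : (e.symm k).1 ≠ (e.symm j).1 := fun h => hne (by simp only [h])
    exact blockDiagonal'_apply_ne (B n) (e.symm k).2 (e.symm j).2 this
  · have key : ∀ k j : κ, ∃ D : ℝ, 0 ≤ D ∧ ∀ n : ℤ,
        |blockDiagonal' (B n) k j| ≤ D * r k.1 ^ n * (1 + θ) ^ n.natAbs := by
      rintro ⟨i, a⟩ ⟨i', c⟩
      by_cases h : i = i'
      · subst h
        obtain ⟨D, hD, H⟩ := hbd i _ (b i a).2 θ hθ
        let φ := LinearMap.toContinuousLinearMap ((b i).coord c)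
        refine ⟨‖φ‖ * D, by positivity, fun n => ?_⟩
        rw [blockDiagonal'_apply_eq, hB]
        have h1 := φ.le_opNorm ((R n).restrict (hinv i n) (b i a))
        have h2 := mul_le_mul_of_nonneg_left (H n) (norm_nonneg φ)
        have h3 : ‖(R n).restrict (hinv i n) (b i a)‖ = ‖R n (b i a)‖ := rfl
        have h4 : φ ((R n).restrict (hinv i n) (b i a)) =
          (b i).repr ((R n).restrict (hinv i n) (b i a)) c := rfl
        rw [h3, h4, Real.norm_eq_abs] at h1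
        linarith
      · exact ⟨0, le_rfl, fun n => by rw [blockDiagonal'_apply_ne _ _ _ h]; simp⟩
    choose D hD H using key
    refine ⟨∑ p : κ × κ, D p.1 p.2, fun n k j => (H _ _ n).trans ?_⟩
    have h1 : D (e.symm k) (e.symm j) ≤ ∑ p : κ × κ, D p.1 p.2 :=
      Finset.single_le_sum (f := fun p : κ × κ => D p.1 p.2) (fun p _ => hD _ _)
        (Finset.mem_univ (e.symm k, e.symm j))
    have h2 := zpow_pos (hr (e.symm k).1) n
    exact mul_le_mul_of_nonneg_right (mul_le_mul_of_nonneg_right h1 h2.le) (by positivity)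
  · intro x hx
    have h1 := congrArg (P i).subtype ((b i).sum_repr ⟨x, hx⟩)
    rw [map_sum] at h1
    change _ = x at h1
    rw [← h1]
    refine Submodule.sum_mem _ fun a _ => ?_
    rw [map_smul]
    exact Submodule.smul_mem _ _ (Submodule.subset_span ⟨e ⟨i, a⟩, by simp [β]⟩)
  · simp only [submatrix_apply]
    rw [Equiv.sum_comp e.symm (fun j => blockDiagonal' (B 1) (e.symm k) j • β j)]
    generalize e.symm k = k'
    obtain ⟨i, a⟩ := k'
    rw [Fintype.sum_sigma, Fintype.sum_eq_single i]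
    · have h1 := congrArg (P i).subtype ((b i).sum_repr ((R 1).restrict (hinv i 1) (b i a)))
      rw [map_sum] at h1
      change _ = R 1 (b i a) at h1
      change R 1 (b i a) = _
      rw [← h1]
      refine Finset.sum_congr rfl fun c _ => ?_
      rw [blockDiagonal'_apply_eq, hB, map_smul]
      rfl
    · intro i' hi'
      refine Finset.sum_eq_zero fun c _ => ?_
      rw [blockDiagonal'_apply_ne _ _ _ (Ne.symm hi'), zero_smul]

lemma cplx {m : ℕ} (S : (Fin m → ℂ) ≃ₗ[ℂ] (Fin m → ℂ)) :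
    ∃ (d : ℕ) (β : Fin d → Fin m → ℂ) (L : ℤ → Matrix (Fin d) (Fin d) ℝ) (ρ : Fin d → ℝ),
      Wt L ρ ∧ Submodule.span ℝ (Set.range β) = ⊤ ∧ ∀ k, S (β k) = ∑ j, L 1 k j • β j := by
  have hne : ∀ μ : Module.End.Eigenvalues (S : Module.End ℂ (Fin m → ℂ)), μ.1 ≠ 0 := by
    rintro ⟨μ, hμ⟩ (rfl : μ = 0)
    obtain ⟨v, hv⟩ := Module.End.HasEigenvalue.exists_hasEigenvector hμ
    have h1 := hv.apply_eq_smul
    rw [zero_smul, LinearEquiv.coe_coe, LinearEquiv.map_eq_zero_iff] at h1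
    exact hv.2 h1
  obtain ⟨d, β, L, ρ, hW, hP, hS⟩ := blocks
    (ι := Module.End.Eigenvalues (S : Module.End ℂ (Fin m → ℂ)))
    (fun n => ((S ^ n : (Fin m → ℂ) ≃ₗ[ℂ] (Fin m → ℂ)) :
      (Fin m → ℂ) →ₗ[ℂ] (Fin m → ℂ)).restrictScalars ℝ) (fun x => by simp)
    (fun a n x => by simp [add_comm a n, _root_.zpow_add])
    (fun μ => (Module.End.maxGenEigenspace (S : Module.End ℂ (Fin m → ℂ)) μ.1).restrictScalars ℝ)
    (fun μ => ‖μ.1‖) (fun μ => norm_pos_iff.2 (hne μ))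
    (fun μ n x hx => inv_zpow S μ.1 n hx) (fun μ x hx θ hθ => growth' S (hne μ) hθ hx)
  refine ⟨d, β, L, ρ, hW, ?_, fun k => by simpa using hS k⟩
  rw [eq_top_iff]
  intro x _
  have hx : x ∈ ⨆ μ, Module.End.maxGenEigenspace (S : Module.End ℂ (Fin m → ℂ)) μ := by
    rw [Module.End.iSup_maxGenEigenspace_eq_top]
    trivial
  refine Submodule.iSup_induction _ (motive := fun x => x ∈ Submodule.span ℝ (Set.range β)) hx
    (fun μ y hy => ?_) (Submodule.zero_mem _) fun y z => Submodule.add_mem _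
  by_cases h : Module.End.maxGenEigenspace (S : Module.End ℂ (Fin m → ℂ)) μ = ⊥
  · rw [h, Submodule.mem_bot] at hy
    rw [hy]
    exact Submodule.zero_mem _
  · exact hP ⟨μ, Module.End.HasUnifEigenvalue.lt zero_lt_one h⟩ hy

end XSpecX

theorem exists_wt {W : Type*} [AddCommGroup W] [Module ℝ W] [FiniteDimensional ℝ W]
    (T : W ≃ₗ[ℝ] W) : ∃ (d : ℕ) (β : Fin d → W) (L : ℤ → Matrix (Fin d) (Fin d) ℝ)
      (ρ : Fin d → ℝ), Wt L ρ ∧ Submodule.span ℝ (Set.range β) = ⊤ ∧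
      ∀ k, T (β k) = ∑ j, L 1 k j • β j := by
  let b := Module.finBasis ℝ W
  let M := LinearMap.toMatrix b b (T : W →ₗ[ℝ] W)
  let M' := LinearMap.toMatrix b b (T.symm : W →ₗ[ℝ] W)
  have h1 : M * M' = 1 := by
    simp only [M, M']
    rw [← LinearMap.toMatrix_comp, LinearEquiv.comp_symm, LinearMap.toMatrix_id]
  have h2 : M' * M = 1 := mul_eq_one_comm.1 h1
  have h3 : M.map Complex.ofRealHom * M'.map Complex.ofRealHom = 1 := by
    rw [← Matrix.map_mul, h1, Matrix.map_one _ (map_zero _) (map_one _)]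
  have h4 : M'.map Complex.ofRealHom * M.map Complex.ofRealHom = 1 := mul_eq_one_comm.1 h3
  obtain ⟨d, β, L, ρ, hW, hP, hS⟩ := XSpecX.cplx (Matrix.toLin'OfInv h4 h3)
  let π : (Fin (Module.finrank ℝ W) → ℂ) →ₗ[ℝ] W :=
    b.equivFun.symm.toLinearMap ∘ₗ Complex.reLm.compLeft _
  have hπ : ∀ v i, b.repr (π v) i = (v i).re := by
    intro v i
    have : b.equivFun (π v) = fun i => (v i).re := by
      simp only [π, LinearMap.comp_apply, LinearEquiv.coe_coe, LinearEquiv.apply_symm_apply]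
      rfl
    exact congrFun this i
  have hT : ∀ v, π (M.map Complex.ofRealHom *ᵥ v) = T (π v) := by
    intro v
    refine b.ext_elem fun i => ?_
    have h5 := congrFun (LinearMap.toMatrix_mulVec_repr b b (T : W →ₗ[ℝ] W) (π v)) i
    rw [LinearEquiv.coe_coe] at h5
    rw [hπ, ← h5]
    simp [mulVec, dotProduct, hπ, M]
  have hsurj : LinearMap.range π = ⊤ := by
    rw [LinearMap.range_eq_top]
    intro w
    exact ⟨fun i => (b.repr w i : ℂ), b.ext_elem fun i => by simp [hπ]⟩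
  refine ⟨d, fun k => π (β k), L, ρ, hW, ?_, fun k => ?_⟩
  · rw [show (Set.range fun k => π (β k)) = π '' Set.range β from Set.range_comp π β,
      ← Submodule.map_span, hP, Submodule.map_top, hsurj]
  · rw [← hT]
    have h5 : M.map Complex.ofRealHom *ᵥ β k = ∑ j, L 1 k j • β j := hS k
    rw [h5, map_sum]
    simp only [map_smul]


end Pool.Agent.P.MP_5c499f_an
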