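import Pool.Agent.P.MP_5c499f_an.XBasY

/-! Uniform lightness by the pigeonhole principle. -/

set_option autoImplicit false

namespace Pool.Agent.P.MP_5c499f_an

open Filter Topology Metric MeasureTheory Matrix

namespace XULX

lemma ivt {Y : Type*} {r : Y → Y → Prop} {φ : Y → ℝ} {σ : ℝ} {y c : Y} (hσ : 0 ≤ σ) (h0 : φ y = 0)
    (h1 : ∀ p q, r p q → φ q ≤ φ p + σ) (h : Relation.ReflTransGen r y c) :
    ∀ s, 0 ≤ s → s ≤ φ c → ∃ z, Relation.ReflTransGen r y z ∧ s - σ ≤ φ z ∧ φ z ≤ s := by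
  induction h with
  | refl => exact fun s a1 a2 => ⟨y, .refl, by linarith, by linarith⟩
  | @tail p q hp hpq ih =>
    intro s a1 a2
    by_cases a3 : s ≤ φ p
    · exact ih s a1 a3
    · exact ⟨p, hp, by linarith [h1 p q hpq], (not_le.1 a3).le⟩

lemma exists_theta {β : ℝ} (h : β < 1) (D : ℕ) : ∃ θ, 0 < θ ∧ β * (1 + θ) ^ D < 1 := by
  have h1 : Tendsto (fun θ : ℝ => β * (1 + θ) ^ D) (𝓝 0) (𝓝 (β * (1 + 0) ^ D)) :=
    (by fun_prop : Continuous fun θ : ℝ => β * (1 + θ) ^ D).tendsto 0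
  have h2 : ∀ᶠ θ : ℝ in 𝓝[>] 0, β * (1 + θ) ^ D < 1 :=
    (h1.eventually (gt_mem_nhds (by simpa using h))).filter_mono nhdsWithin_le_nhds
  exact (eventually_mem_nhdsWithin.and h2).exists

end XULX

variable {Y Γ : Type*} [MetricSpace Y] [Group Γ] [MulAction Γ Y] {F : Equiv.Perm Y}
  {Φ : MulAut Γ} {ε δ C a b : ℝ}
variable {d : ℕ} {J G : Y → Fin d → ℝ} {A : Γ → Fin d → ℝ} {L : ℤ → Matrix (Fin d) (Fin d) ℝ}
  {ρ : Fin d → ℝ}

namespace XULX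

lemma sub_eq (ab : Ab Φ J A L ρ) (y : Y) (g g' : Γ) : A (g * g'⁻¹) = A g - A g' := by
  have h1 := ab.eqv (g * g'⁻¹) (g' • y)
  rw [smul_smul, inv_mul_cancel_right, ab.eqv, ab.eqv, add_assoc] at h1
  rw [add_left_cancel h1]
  abel

lemma near (S : Hs F Φ ε δ C a b) (ab : Ab Φ J A L ρ) (h : Once F A) {z z' t : Y} {g g' : Γ}
    (h1 : dist z (g • t) ≤ δ) (h2 : dist z' (g' • t) ≤ δ) (h3 : A g = A g')
    (h4 : Asym (F⁻¹ : Equiv.Perm Y) z z') : Un F 0 ε z' z := by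
  have hε := S.lh.ε_pos
  have a1 : dist ((g * g'⁻¹) • z') z ≤ 2 * δ := by
    have a2 : dist ((g * g'⁻¹) • z') (g • t) ≤ δ := by
      rwa [← S.iso (g * g'⁻¹), smul_smul _ g', inv_mul_cancel_right] at h2
    linarith [dist_triangle_right ((g * g'⁻¹) • z') z (g • t)]
  obtain ⟨v, v1, v2⟩ := S.lh.br _ _ a1
  have a3 : v = z' := by
    refine h z' v (g * g'⁻¹)⁻¹ ?_ ((S.lh.asym_of_un (v2.mono le_rfl (by linarith))).trans h4) ?_
    · rw [_root_.mul_inv_rev, inv_inv, sub_eq ab z, h3, sub_self]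
    · rw [← S.asym_smul (g * g'⁻¹), smul_inv_smul]
      exact S.lh.asym_of_st (v1.mono le_rfl (by linarith))
  exact a3 ▸ v2

lemma labels (S : Hs F Φ ε δ C a b) (ab : Ab Φ J A L ρ) : ∃ (T : Finset Y) (R : ℝ), 0 ≤ R ∧
    ∀ z, ∃ g : Γ, ∃ t ∈ T, dist z (g • t) ≤ δ ∧ ‖J z - A g‖ ≤ R := by
  obtain ⟨T, hT⟩ := S.net S.lh.δ_pos
  obtain ⟨-, R0, h0⟩ := S.ucd ab.cont fun g y y' => by rw [ab.eqv, ab.eqv]; abel
  obtain ⟨R1, h1⟩ := (T.finite_toSet.image fun t => ‖J t‖).bddAbove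
  have hε := S.lh.ε_pos
  have hδ := S.lh.δ_le
  refine ⟨T, |R0| + |R1|, by positivity, fun z => ?_⟩
  obtain ⟨g, t, ht, h2⟩ := hT z
  refine ⟨g, t, ht, h2, ?_⟩
  have h3 := h0 z (g • t) (by linarith)
  have h4 : ‖J t‖ ≤ R1 := h1 ⟨t, ht, rfl⟩
  have h5 : J z - A g = (J z - J (g • t)) + J t := by rw [ab.eqv]; abel
  rw [h5]
  exact (norm_add_le _ _).trans (add_le_add (h3.trans (le_abs_self _)) (h4.trans (le_abs_self _)))

end XULX

theorem Hs.ulight (S : Hs F Φ ε δ C a b) (ab : Ab Φ J A L ρ) (gg : GG F ε J A L ρ G)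
    (h : Once F A) : ULight F ε G := by
  classical
  intro R
  have hε := S.lh.ε_pos
  have hC := S.lh.C_nonneg
  have hb0 := S.lh.b_nonneg
  have hb1 := S.lh.b_lt
  obtain ⟨β, hβ⟩ : ∃ β : ℝ, β = (b + 1) / 2 := ⟨_, rfl⟩
  have hβ0 : 0 < β := by linarith
  obtain ⟨C1, D, hcnt⟩ := ab.cnt
  have hC1 : 0 ≤ C1 := by simpa using hcnt 0 le_rfl ∅ (by simp)
  obtain ⟨θ, hθ, hq⟩ := XULX.exists_theta (show β < 1 by linarith) D
  obtain ⟨C2, hctl⟩ := gg.ctl θ hθ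
  obtain ⟨T, R2, hR2, hT⟩ := XULX.labels S ab
  obtain ⟨K, hK⟩ : ∃ K : ℝ, K = 1 + 2 * |R| + 2 * |C2| + 2 * R2 := ⟨_, rfl⟩
  have hlim : Tendsto (fun k : ℕ => 3 * (C + 1) * T.card * C1 * K ^ D * (β * (1 + θ) ^ D) ^ k)
      atTop (𝓝 (3 * (C + 1) * T.card * C1 * K ^ D * 0)) :=
    (tendsto_pow_atTop_nhds_zero_of_lt_one (by positivity) hq).const_mul _
  obtain ⟨N, hN⟩ := eventually_atTop.1 (hlim.eventually (gt_mem_nhds (by simpa using hε)))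
  refine ⟨N, fun Z y hZ c hc k' hk' => ?_⟩
  obtain ⟨k, rfl⟩ : ∃ k : ℕ, k' = -(k : ℤ) := ⟨(-k').toNat, by omega⟩
  by_contra hne
  rw [not_le] at hne
  obtain ⟨σ, hσ⟩ : ∃ σ : ℝ, σ = (C + 1) * β ^ k := ⟨_, rfl⟩
  have hσ0 : 0 < σ := by rw [hσ]; positivity
  obtain ⟨φ, hφ⟩ : ∃ φ : Y → ℝ, ∀ z, φ z = dist ((F ^ (-(k : ℤ))) z) ((F ^ (-(k : ℤ))) y) :=
    ⟨_, fun _ => rfl⟩
  have hstep : ∀ p q, Un F 0 ε q p → φ q ≤ φ p + σ := by
    intro p q hpq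
    have a1 := S.lh.cu q p (hpq.mono le_rfl (by linarith)) k
    have a2 : C * b ^ k ≤ σ := by
      rw [hσ]; gcongr <;> linarith
    rw [hφ, hφ]
    linarith [dist_triangle ((F ^ (-(k : ℤ))) q) ((F ^ (-(k : ℤ))) p) ((F ^ (-(k : ℤ))) y)]
  have hch : ∀ z, Relation.ReflTransGen (fun p q => q ∈ Z ∧ Un F 0 ε q p) y z →
      Asym (F⁻¹ : Equiv.Perm Y) z y ∧ ‖G z - G y‖ ≤ |R| := by
    intro z hz
    induction hz with
    | refl => exact ⟨Asym.refl _ _, by simp⟩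
    | tail _ hpq ih => exact ⟨(S.lh.asym_of_un (hpq.2.mono le_rfl (by linarith))).trans ih.1,
        (hZ _ hpq.1).trans (le_abs_self _)⟩
  have hivt := XULX.ivt (φ := φ) hσ0.le (by rw [hφ, dist_self]) (fun p q e => hstep p q e.2) hc
  obtain ⟨m, hm⟩ : ∃ m : ℕ, m = ⌊ε / (3 * σ)⌋₊ + 1 := ⟨_, rfl⟩
  have hm1 : ε < m * (3 * σ) := by
    rw [← div_lt_iff₀ (by positivity), hm]
    push_cast
    exact Nat.lt_floor_add_one _
  have hm2 : ∀ j < m, (j : ℝ) * (3 * σ) ≤ ε := by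
    intro j hj
    rw [← le_div_iff₀ (by positivity), ← Nat.le_floor_iff (by positivity)]
    omega
  have hz : ∀ j : ℕ, ∃ z, j < m → (Asym (F⁻¹ : Equiv.Perm Y) z y ∧ ‖G z - G y‖ ≤ |R|) ∧
      j * (3 * σ) - σ ≤ φ z ∧ φ z ≤ j * (3 * σ) := by
    intro j
    by_cases hj : j < m
    · obtain ⟨z, a1, a2⟩ := hivt (j * (3 * σ)) (by positivity)
        ((hm2 j hj).trans (by rw [hφ]; exact hne.le))
      exact ⟨z, fun _ => ⟨hch z a1, a2⟩⟩
    · exact ⟨y, fun e => (hj e).elim⟩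
  choose z hz using hz
  choose g t ht hd hJ using fun j => hT (z j)
  have hθk : 1 ≤ (1 + θ) ^ k := one_le_pow₀ (by linarith)
  have hJy : ∀ j < m, ‖J (z j) - J y‖ ≤ |R| + |C2| * (1 + θ) ^ k := by
    intro j hj
    obtain ⟨⟨-, a1⟩, -, a2⟩ := hz j hj
    have a3 := hctl k (z j) y (by rw [← hφ]; linarith [hm2 j hj])
    have a4 : C2 * (1 + θ) ^ k ≤ |C2| * (1 + θ) ^ k := by gcongr; exact le_abs_self _
    linarith
  obtain ⟨s, hs⟩ : ∃ s, s = (Finset.range m).image fun j => A (g j) - A (g 0) := ⟨_, rfl⟩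
  obtain ⟨Rk, hRk⟩ : ∃ Rk : ℝ, Rk = 2 * (|R| + |C2| * (1 + θ) ^ k) + 2 * R2 := ⟨_, rfl⟩
  have hRk0 : 0 ≤ Rk := by rw [hRk]; positivity
  have c1 : (s.card : ℝ) ≤ C1 * (1 + Rk) ^ D := by
    refine hcnt Rk hRk0 s fun w hw => ?_
    rw [hs] at hw
    obtain ⟨j, hj, rfl⟩ := Finset.mem_image.1 hw
    refine ⟨⟨_, XULX.sub_eq ab y _ _⟩, ?_⟩
    have a1 := hJy j (Finset.mem_range.1 hj)
    have a2 := hJy 0 (by omega)
    have a3 : A (g j) - A (g 0) = ((J (z j) - J y) - (J (z 0) - J y)) -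
        ((J (z j) - A (g j)) - (J (z 0) - A (g 0))) := by abel
    rw [a3]
    refine (norm_sub_le _ _).trans ((add_le_add (norm_sub_le _ _) (norm_sub_le _ _)).trans ?_)
    linarith [hJ j, hJ 0]
  have key : ∀ j < m, ∀ j' < m, t j = t j' → A (g j) = A (g j') → j' ≤ j := by
    intro j hj j' hj' e1 e2
    have a1 := hstep _ _ (XULX.near S ab h (hd j) (e1 ▸ hd j') e2
      ((hz j hj).1.1.trans (hz j' hj').1.1.symm))
    by_contra a2
    have a3 : (j : ℝ) + 1 ≤ j' := by exact_mod_cast not_le.1 a2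
    nlinarith [(hz j hj).2.2, (hz j' hj').2.1]
  have c2 : (Finset.range m).card ≤ (T ×ˢ s).card := by
    refine Finset.card_le_card_of_injOn (fun j => (t j, A (g j) - A (g 0)))
      (fun j hj => Finset.mem_coe.2 (Finset.mem_product.2 ⟨ht j, hs ▸ Finset.mem_image_of_mem _
        (Finset.mem_coe.1 hj)⟩)) fun j hj j' hj' e => ?_
    have a1 := Finset.mem_range.1 (Finset.mem_coe.1 hj)
    have a2 := Finset.mem_range.1 (Finset.mem_coe.1 hj')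
    have e1 : t j = t j' := congrArg Prod.fst e
    have e2 : A (g j) = A (g j') := sub_left_injective (congrArg Prod.snd e)
    exact le_antisymm (key j' a2 j a1 e1.symm e2.symm) (key j a1 j' a2 e1 e2)
  rw [Finset.card_range, Finset.card_product] at c2
  have c3 : (m : ℝ) ≤ T.card * s.card := by exact_mod_cast c2
  have c4 : 1 + Rk ≤ K * (1 + θ) ^ k := by
    rw [hRk, hK]
    nlinarith [abs_nonneg R, abs_nonneg C2]
  have c5 : (m : ℝ) ≤ T.card * (C1 * (K * (1 + θ) ^ k) ^ D) :=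
    c3.trans (by gcongr; exact c1.trans (by gcongr))
  have c6 := hN k (by omega)
  have c7 : 3 * (C + 1) * T.card * C1 * K ^ D * (β * (1 + θ) ^ D) ^ k =
      T.card * (C1 * (K * (1 + θ) ^ k) ^ D) * (3 * σ) := by
    rw [hσ, mul_pow, mul_pow, ← pow_mul, ← pow_mul, mul_comm D k]
    ring
  have c8 := mul_le_mul_of_nonneg_right c5 (by positivity : 0 ≤ 3 * σ)
  linarith


end Pool.Agent.P.MP_5c499f_an
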