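import Pool.Agent.P.MP_5c499f_an.LDefs

/-! Random walks on homogeneous metric measure spaces. -/

set_option autoImplicit false

namespace Pool.Agent.P.MP_5c499f_an.Cw

open MeasureTheory Metric

variable {Q : Type*} [MetricSpace Q] [MeasurableSpace Q]

/-- Unbounded chain connected homogeneous spaces of polynomial growth. -/
structure Hmg (m : Measure Q) (o : Q) : Prop where
  inv : ∀ g : Q ≃ᵢ Q, MeasurePreserving g m m
  trans : ∀ x y : Q, ∃ g : Q ≃ᵢ Q, g x = y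
  chain : ∀ R : ℝ, ∃ M : ℕ, ∀ x y : Q, dist x y ≤ R → Reach 2 M x y
  grow : ∃ (C : ℝ) (d : ℕ), ∀ n : ℕ, m.real (closedBall o n) ≤ C * (n + 1) ^ d
  unb : ∀ R : ℝ, ∃ x, R ≤ dist o x

/-- Invariant symmetric positive Markov kernels of finite range. -/
structure Ker (m : Measure Q) (k : Q → Q → ℝ) : Prop where
  cont : Continuous (Function.uncurry k)
  nonneg : ∀ x y, 0 ≤ k x y
  symm : ∀ x y, k x y = k y x
  int : ∀ x, ∫ y, k x y ∂m = 1
  supp : ∀ x y, 6 ≤ dist x y → k x y = 0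
  low : ∃ κ : ℝ, 0 < κ ∧ ∀ x y, dist x y ≤ 5 / 2 → κ ≤ k x y
  inv : ∀ (g : Q ≃ᵢ Q) x y, k (g x) (g y) = k x y
  lip : ∃ L : ℝ, ∀ x y z, |k x z - k y z| ≤ L * dist x y
  psd : ∀ f : Q → ℝ, Continuous f → HasCompactSupport f → 0 ≤ ∫ x, f x * ∫ y, k x y * f y ∂m ∂m

/-- The Markov operator. -/
noncomputable def Pk (m : Measure Q) (k : Q → Q → ℝ) (f : Q → ℝ) (x : Q) : ℝ :=
  ∫ y, k x y * f y ∂m

/-- The density after `n + 1` steps. -/
noncomputable def pn (m : Measure Q) (k : Q → Q → ℝ) : ℕ → Q → Q → ℝ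
  | 0 => k
  | n + 1 => fun x z => ∫ y, k x y * pn m k n y z ∂m

/-- The expectation after `n + 1` steps. -/
noncomputable def En (m : Measure Q) (k : Q → Q → ℝ) (n : ℕ) (f : Q → ℝ) (x : Q) : ℝ :=
  ∫ z, pn m k n x z * f z ∂m

/-- The entropy after `n + 1` steps. -/
noncomputable def Hn (m : Measure Q) (k : Q → Q → ℝ) (n : ℕ) (x : Q) : ℝ :=
  ∫ z, Real.negMulLog (pn m k n x z) ∂m

/-- Coarsely Lipschitz continuous harmonic functions vanishing at the base point. -/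
def IsLH (m : Measure Q) (k : Q → Q → ℝ) (o : Q) (h : Q → ℝ) : Prop :=
  h o = 0 ∧ Continuous h ∧ Pk m k h = h ∧ ∃ L : ℝ, ∀ x y, dist x y ≤ 2 → |h x - h y| ≤ L

omit [MeasurableSpace Q] in
lemma reach_le {h : Q → ℝ} {L : ℝ} (hL : ∀ x y, dist x y ≤ 2 → |h x - h y| ≤ L) {M : ℕ} {x y : Q}
    (e : Reach 2 M x y) : |h x - h y| ≤ M * L := by
  obtain ⟨c, rfl, rfl, hc⟩ := e
  induction M with
  | zero => simp
  | succ M ih =>
    have := abs_sub_le (h (c 0)) (h (c M)) (h (c (M + 1)))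
    push_cast
    linarith [ih fun i hi => hc i (by omega), hL _ _ (dist_comm (c M) _ ▸ hc M M.lt_succ_self)]

end Pool.Agent.P.MP_5c499f_an.Cw
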