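import Pool.Agent.P.MP_5c499f_an.ZWalk
import Pool.Agent.Lib.Gromov.Entropy

/-! Entropy estimates. TASK ANOS6-ENT. -/

set_option autoImplicit false

namespace Pool.Agent.P.MP_5c499f_an.Cw

open MeasureTheory Metric Filter Topology

variable {Q : Type*} [MetricSpace Q] [ProperSpace Q] [MeasurableSpace Q] [BorelSpace Q]
  {m : Measure Q} [IsFiniteMeasureOnCompacts m] [m.IsOpenPosMeasure] {k : Q → Q → ℝ} {o : Q}

namespace ZEntX

lemma quad {G D E : ℝ} (hG : 0 ≤ G) (hE : 0 ≤ E)
    (h : ∀ t : ℝ, 0 < t → G ≤ t / 2 * D + 2 * E / t) : G ^ 2 ≤ 4 * D * E := by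
  have h1 : ∀ t : ℝ, 0 < t → G * t ≤ D / 2 * (t * t) + 2 * E := by
    intro t ht
    have := mul_le_mul_of_nonneg_right (h t ht) ht.le
    have e : (t / 2 * D + 2 * E / t) * t = D / 2 * (t * t) + 2 * E := by field_simp
    linarith
  have hD : 0 ≤ D := by
    by_contra hD
    push Not at hD
    have hp : 0 < (2 * E + 1) / (-(D / 2)) := div_pos (by linarith) (by linarith)
    have h2 := h1 _ (Real.sqrt_pos.2 hp)
    rw [Real.mul_self_sqrt hp.le] at h2
    have e : D / 2 * ((2 * E + 1) / (-(D / 2))) = -(2 * E + 1) := by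
      have : D ≠ 0 := hD.ne
      field_simp
    have := mul_nonneg hG (Real.sqrt_nonneg ((2 * E + 1) / (-(D / 2))))
    linarith
  have h3 : discrim (D / 2) (-G) (2 * E) ≤ 0 := by
    refine discrim_le_zero fun t => ?_
    rcases lt_or_ge 0 t with ht | ht
    · have := h1 t ht
      linarith
    · have := mul_nonneg hG (neg_nonneg.2 ht)
      have := mul_nonneg hD (mul_self_nonneg t)
      nlinarith
  unfold discrim at h3
  nlinarith

lemma pt {p q u t : ℝ} (hp : 0 ≤ p) (hq : 0 ≤ q) (h : q = 0 → p = 0) (ht : 0 < t) :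
    |(p - q) * u| ≤ t / 2 * (-Real.negMulLog p - p * Real.log q - p + q) + (p + q) * u ^ 2 / t := by
  have h1 := Lib.Gromov.hell_pt hp hq h
  obtain ⟨a, ha, rfl⟩ : ∃ a, 0 ≤ a ∧ p = a ^ 2 := ⟨√p, Real.sqrt_nonneg _, (Real.sq_sqrt hp).symm⟩
  obtain ⟨b, hb, rfl⟩ : ∃ b, 0 ≤ b ∧ q = b ^ 2 := ⟨√q, Real.sqrt_nonneg _, (Real.sq_sqrt hq).symm⟩
  rw [Real.sqrt_sq ha, Real.sqrt_sq hb] at h1
  have h2 : |(a ^ 2 - b ^ 2) * u| ≤ t / 2 * (a - b) ^ 2 + (a ^ 2 + b ^ 2) * u ^ 2 / t := by
    obtain ⟨v, rfl⟩ : ∃ v, u = t * v := ⟨u / t, by field_simp⟩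
    have e : (a ^ 2 + b ^ 2) * (t * v) ^ 2 / t = t * ((a ^ 2 + b ^ 2) * v ^ 2) := by field_simp
    have e2 : (a ^ 2 - b ^ 2) * (t * v) = t * ((a - b) * ((a + b) * v)) := by ring
    rw [e, e2, abs_mul, abs_of_pos ht]
    have h3 : |(a - b) * ((a + b) * v)| ≤ 1 / 2 * (a - b) ^ 2 + (a ^ 2 + b ^ 2) * v ^ 2 := by
      rw [abs_le]
      constructor
      · nlinarith [sq_nonneg ((a - b) + (a + b) * v), sq_nonneg ((a - b) * v)]
      · nlinarith [sq_nonneg ((a - b) - (a + b) * v), sq_nonneg ((a - b) * v)]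
    have := mul_le_mul_of_nonneg_left h3 ht.le
    linarith
  have := mul_le_mul_of_nonneg_left h1 (by positivity : 0 ≤ t / 2)
  linarith

lemma seq {H : ℕ → ℝ} {A d : ℝ} (hH : ∀ n : ℕ, H n ≤ A + d * Real.log (n + 2)) (hd : 0 ≤ d) :
    ∃ᶠ n : ℕ in atTop, (n + 2) * (H (n + 1) - H n) ≤ d + 1 := by
  rw [frequently_atTop]
  intro N
  by_contra hcon
  push Not at hcon
  have h1 : ∀ j : ℕ, H N + (d + 1) * (Real.log (N + j + 2) - Real.log (N + 2)) ≤ H (N + j) := by
    intro j
    induction j with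
    | zero => simp
    | succ j ih =>
      have h2 := hcon (N + j) (by omega)
      have hpos : (0 : ℝ) < N + j + 2 := by positivity
      have h3 : Real.log ((N + j + 1 + 2) / (N + j + 2)) ≤ (N + j + 1 + 2) / (N + j + 2) - 1 :=
        Real.log_le_sub_one_of_pos (by positivity)
      rw [Real.log_div (by positivity) hpos.ne'] at h3
      have h4 : ((N : ℝ) + j + 1 + 2) / (N + j + 2) - 1 = 1 / (N + j + 2) := by field_simp; ring
      push_cast at h2 ⊢
      have h5 : (d + 1) * (1 / ((N : ℝ) + j + 2)) ≤ H (N + j + 1) - H (N + j) := by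
        rw [mul_one_div, div_le_iff₀ hpos]; linarith
      have h6 : (d + 1) * (Real.log (N + j + 1 + 2) - Real.log (N + j + 2)) ≤
          (d + 1) * (1 / ((N : ℝ) + j + 2)) :=
        mul_le_mul_of_nonneg_left (h4 ▸ h3) (by positivity)
      rw [← add_assoc, ← add_assoc]
      linarith
  obtain ⟨M, hM⟩ := exists_nat_gt (Real.exp (A + (d + 1) * Real.log (N + 2) - H N))
  have hpos : (0 : ℝ) < N + M + 2 := by positivity
  have h4 : Real.log (N + M + 2) ≤ A + (d + 1) * Real.log (N + 2) - H N := by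
    have h7 := (h1 M).trans (hH (N + M))
    push_cast at h7
    linarith
  have h5 := (Real.log_le_iff_le_exp hpos).1 h4
  have h7 : (0 : ℝ) ≤ N := by positivity
  linarith

omit [ProperSpace Q] [IsFiniteMeasureOnCompacts m] [m.IsOpenPosMeasure] in
lemma ball_eq (hm : Hmg m o) (x : Q) (r : ℝ) :
    m.real (closedBall x r) = m.real (closedBall o r) := by
  obtain ⟨g, rfl⟩ := hm.trans o x
  have := (hm.inv g).measure_preimage
    (measurableSet_closedBall (x := g o) (ε := r)).nullMeasurableSet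
  rw [g.preimage_closedBall, g.symm_apply_apply] at this
  simp only [Measure.real, this]

omit [BorelSpace Q] in
lemma ball_pos (x : Q) {r : ℝ} (hr : 0 < r) : 0 < m.real (closedBall x r) :=
  ENNReal.toReal_pos (measure_closedBall_pos m x hr).ne' (isCompact_closedBall x r).measure_lt_top.ne

lemma H_eq (h : Ker m k) (hm : Hmg m o) (n : ℕ) (x : Q) : Hn m k n x = Hn m k n o := by
  obtain ⟨g, rfl⟩ := hm.trans o x
  have := (hm.inv g).integral_comp g.toHomeomorph.measurableEmbedding
    (fun z => Real.negMulLog (pn m k n (g o) z))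
  simp only [h.p_inv hm] at this
  exact this.symm

lemma p_cont1 (h : Ker m k) (n : ℕ) (x : Q) : Continuous (pn m k n x) :=
  (h.p_cont n).uncurry_left x

lemma p_cont2 (h : Ker m k) (n : ℕ) (z : Q) : Continuous fun y => pn m k n y z :=
  (h.p_cont n).uncurry_right z

lemma H_int (h : Ker m k) (n : ℕ) (x : Q) :
    Integrable (fun z => Real.negMulLog (pn m k n x z)) m := by
  refine (Real.continuous_negMulLog.comp (p_cont1 h n x)).integrable_of_hasCompactSupport ?_
  refine HasCompactSupport.intro (isCompact_closedBall x (6 * (n + 1 : ℝ))) fun z hz => ?_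
  rw [mem_closedBall, not_le, dist_comm] at hz
  simp [h.p_supp n hz.le]

lemma H_le (h : Ker m k) (n : ℕ) (x : Q) :
    Hn m k n x ≤ Real.log (m.real (closedBall x (6 * (n + 1 : ℝ)))) := by
  set B := closedBall x (6 * (n + 1 : ℝ)) with hB
  have hN : 0 < m.real B := ball_pos x (by positivity)
  have hBm : MeasurableSet B := measurableSet_closedBall
  have hfin : m B ≠ ⊤ := (isCompact_closedBall x _).measure_lt_top.ne
  have i1 : Integrable (fun z => pn m k n x z * (Real.log (m.real B) - 1)) m :=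
    h.p_int_mul n continuous_const x
  have i2 : Integrable (B.indicator fun _ => 1 / m.real B) m :=
    (integrableOn_const hfin).integrable_indicator hBm
  have h1 : Hn m k n x ≤ ∫ z, (pn m k n x z * (Real.log (m.real B) - 1) +
      B.indicator (fun _ => 1 / m.real B) z) ∂m := by
    refine integral_mono (H_int h n x) (i1.add i2) fun z => ?_
    by_cases hz : z ∈ B
    · have := Lib.Gromov.negMulLog_le (h.p_nonneg n x z) hN
      simp only [Set.indicator_of_mem hz]
      linarith
    · have hz' := hz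
      rw [hB, mem_closedBall, not_le, dist_comm] at hz'
      simp [Set.indicator_of_notMem hz, h.p_supp n hz'.le]
  rw [integral_add i1 i2, integral_mul_const, h.p_int, integral_indicator_const _ hBm,
    smul_eq_mul, mul_one_div, div_self hN.ne'] at h1
  linarith

omit [m.IsOpenPosMeasure] in
lemma prod_int (h : Ker m k) (x : Q) {G : Q → Q → ℝ} (hG : Continuous (Function.uncurry G)) (R : ℝ)
    (hz : ∀ y z, dist x y < 6 → R ≤ dist x z → G y z = 0) :
    Integrable (Function.uncurry fun y z => k x y * G y z) (m.prod m) := by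
  have hc : Continuous (Function.uncurry fun y z => k x y * G y z) :=
    ((h.cont.uncurry_left x).comp continuous_fst).mul hG
  refine hc.integrable_of_hasCompactSupport ?_
  refine HasCompactSupport.intro
    ((isCompact_closedBall x 6).prod (isCompact_closedBall x R)) fun w hw => ?_
  obtain ⟨y, z⟩ := w
  simp only [Function.uncurry_apply_pair]
  rcases le_or_gt 6 (dist x y) with h1 | h1
  · rw [h.supp x y h1, zero_mul]
  · rw [hz y z h1, mul_zero]
    by_contra h2
    exact hw ⟨mem_closedBall'.2 h1.le, mem_closedBall'.2 (not_le.1 h2).le⟩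

lemma p_zero (h : Ker m k) (n : ℕ) {x y z : Q} (h1 : dist x y < 6)
    (h2 : 6 * (n + 2 : ℝ) ≤ dist x z) : pn m k n y z = 0 :=
  h.p_supp n (by linarith [dist_triangle x y z])

lemma q_zero (h : Ker m k) (n : ℕ) {x z : Q} (h2 : 6 * (n + 2 : ℝ) ≤ dist x z) :
    pn m k (n + 1) x z = 0 :=
  h.p_supp (n + 1) (by push_cast; linarith)

lemma slice (h : Ker m k) (n : ℕ) (x z : Q) (u : ℝ) {t : ℝ} (ht : 0 < t) :
    ∫ y, k x y * |(pn m k n y z - pn m k (n + 1) x z) * u| ∂m ≤
      t / 2 * (Real.negMulLog (pn m k (n + 1) x z) -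
        ∫ y, k x y * Real.negMulLog (pn m k n y z) ∂m) + 2 / t * (pn m k (n + 1) x z * u ^ 2) := by
  set q := pn m k (n + 1) x z with hq
  have hq' : ∫ y, k x y * pn m k n y z ∂m = q := rfl
  have hc := p_cont2 h n z
  have i1 := h.int_mul hc x
  have i2 := h.int_mul (Real.continuous_negMulLog.comp hc) x
  have i3 := h.int_mul (f := fun _ => (1 : ℝ)) continuous_const x
  simp only [mul_one, Function.comp] at i2 i3
  have h0 : q = 0 → ∀ y, k x y * pn m k n y z = 0 := by
    intro e y
    have h3 := (integral_eq_zero_iff_of_nonneg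
      (fun y => mul_nonneg (h.nonneg x y) (h.p_nonneg n y z)) i1).1 (hq'.trans e)
    have h4 : Continuous fun y => k x y * pn m k n y z := (h.cont.uncurry_left x).mul hc
    exact congrFun ((h4.ae_eq_iff_eq m continuous_zero).1 h3) y
  have h1 : ∫ y, k x y * |(pn m k n y z - q) * u| ∂m ≤
      ∫ y, ((-(t / 2)) * (k x y * Real.negMulLog (pn m k n y z)) +
        (u ^ 2 / t - t / 2 * (Real.log q + 1)) * (k x y * pn m k n y z) +
        (t / 2 * q + q * u ^ 2 / t) * k x y) ∂m := by
    refine integral_mono (h.int_mul ((hc.sub continuous_const).mul continuous_const).abs x)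
      (((i2.const_mul _).add (i1.const_mul _)).add (i3.const_mul _)) fun y => ?_
    rcases (h.nonneg x y).eq_or_lt with e | e
    · simp [← e]
    · have h2 := pt (u := u) (h.p_nonneg n y z) (h.p_nonneg (n + 1) x z)
        (fun e' => (mul_eq_zero.1 (h0 e' y)).resolve_left e.ne') ht
      refine (mul_le_mul_of_nonneg_left h2 e.le).trans (le_of_eq ?_)
      rw [← hq]
      ring
  rw [integral_add (by exact (i2.const_mul _).add (i1.const_mul _)) (i3.const_mul _),
    integral_add (i2.const_mul _) (i1.const_mul _), integral_const_mul, integral_const_mul,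
    integral_const_mul, hq', h.int] at h1
  refine h1.trans (le_of_eq ?_)
  rw [Real.negMulLog]
  ring

end ZEntX

open ZEntX

theorem Ker.grad (h : Ker m k) (hm : Hmg m o) {f : Q → ℝ} (hf : Continuous f) (e : Pk m k f = f)
    (n : ℕ) (c : ℝ) (x : Q) : (∫ z, k x z * |f z - f x| ∂m) ^ 2 ≤
      4 * (Hn m k (n + 1) o - Hn m k n o) * En m k (n + 1) (fun z => (f z - c) ^ 2) x := by
  have hu : Continuous fun z => f z - c := hf.sub continuous_const
  have hE : ∀ (j : ℕ) (y : Q), ∫ z, pn m k j y z * (f z - c) ∂m = f y - c := by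
    intro j y
    simp only [mul_sub]
    rw [integral_sub (h.p_int_mul j hf y) (h.p_int_mul j continuous_const y), integral_mul_const,
      h.p_int, one_mul]
    exact congrArg (· - c) (congrFun (h.E_harm j hf e) y)
  refine quad (integral_nonneg fun z => mul_nonneg (h.nonneg x z) (abs_nonneg _))
    (integral_nonneg fun z => mul_nonneg (h.p_nonneg _ x z) (sq_nonneg _)) fun t ht => ?_
  have I1 := prod_int h x
    (G := fun y z => |(pn m k n y z - pn m k (n + 1) x z) * (f z - c)|)
    ((((h.p_cont n).sub ((p_cont1 h (n + 1) x).comp continuous_snd)).mul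
      (hu.comp continuous_snd)).abs) (6 * (n + 2 : ℝ))
    (fun y z h1 h2 => by simp [p_zero h n h1 h2, q_zero h n h2])
  have I2 := prod_int h x (G := fun y z => Real.negMulLog (pn m k n y z))
    (Real.continuous_negMulLog.comp (h.p_cont n)) (6 * (n + 2 : ℝ))
    (fun y z h1 h2 => by simp [p_zero h n h1 h2])
  have J1 : Integrable (fun z => ∫ y, k x y *
      |(pn m k n y z - pn m k (n + 1) x z) * (f z - c)| ∂m) m := I1.integral_prod_right
  have J1' : Integrable (fun y => ∫ z, k x y *
      |(pn m k n y z - pn m k (n + 1) x z) * (f z - c)| ∂m) m := I1.integral_prod_left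
  have J2 : Integrable (fun z => ∫ y, k x y * Real.negMulLog (pn m k n y z) ∂m) m :=
    I2.integral_prod_right
  have J3 := H_int h (n + 1) x
  have J4 : Integrable (fun z => pn m k (n + 1) x z * (f z - c) ^ 2) m :=
    h.p_int_mul (n + 1) (hu.pow 2) x
  have s1 : ∫ y, k x y * |f y - f x| ∂m ≤ ∫ y, ∫ z, k x y *
      |(pn m k n y z - pn m k (n + 1) x z) * (f z - c)| ∂m ∂m := by
    refine integral_mono (h.int_mul (hf.sub continuous_const).abs x) J1' fun y => ?_
    simp only
    rw [integral_const_mul]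
    refine mul_le_mul_of_nonneg_left ?_ (h.nonneg x y)
    have e1 : f y - f x = ∫ z, (pn m k n y z - pn m k (n + 1) x z) * (f z - c) ∂m := by
      simp only [sub_mul]
      rw [integral_sub (h.p_int_mul n hu y) (h.p_int_mul (n + 1) hu x), hE, hE]
      ring
    rw [e1]
    exact abs_integral_le_integral_abs
  rw [integral_integral_swap I1] at s1
  have s2 := integral_mono J1 (((J3.sub J2).const_mul (t / 2)).add (J4.const_mul (2 / t)))
    fun z => slice h n x z (f z - c) ht
  have s3 : ∫ z, ∫ y, k x y * Real.negMulLog (pn m k n y z) ∂m ∂m = Hn m k n o := by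
    rw [← integral_integral_swap I2]
    have : ∀ y, ∫ z, k x y * Real.negMulLog (pn m k n y z) ∂m = k x y * Hn m k n o := by
      intro y
      rw [integral_const_mul, ← H_eq h hm n y, Hn]
    simp only [this]
    rw [integral_mul_const, h.int, one_mul]
  simp only [Pi.add_apply, Pi.sub_apply] at s2
  rw [integral_add (by exact (J3.sub J2).const_mul (t / 2)) (J4.const_mul (2 / t)),
    integral_const_mul,
    integral_const_mul, integral_sub J3 J2, s3] at s2
  refine (s1.trans s2).trans (le_of_eq ?_)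
  rw [← H_eq h hm (n + 1) x]
  change t / 2 * (Hn m k (n + 1) x - Hn m k n o) +
    2 / t * En m k (n + 1) (fun z => (f z - c) ^ 2) x = _
  rw [div_mul_eq_mul_div 2 t]

theorem Ker.good (h : Ker m k) (hm : Hmg m o) :
    ∃ d : ℝ, 0 ≤ d ∧ ∃ᶠ n : ℕ in atTop, (n + 2) * (Hn m k (n + 1) o - Hn m k n o) ≤ d := by
  obtain ⟨C, d, hC⟩ := hm.grow
  refine ⟨d + 1, by positivity, seq (H := fun n => Hn m k n o)
    (A := Real.log C + d * Real.log 7) (fun n => ?_) (by positivity)⟩
  have h1 := hC (6 * (n + 1))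
  push_cast at h1
  have hN : 0 < m.real (closedBall o (6 * (n + 1 : ℝ))) := ball_pos o (by positivity)
  have hp : (0 : ℝ) < (6 * (n + 1 : ℝ) + 1) ^ d := by positivity
  have hC0 : 0 < C := by
    by_contra h0
    nlinarith [not_lt.1 h0]
  have h2 := Real.log_le_log hN h1
  rw [Real.log_mul hC0.ne' hp.ne', Real.log_pow] at h2
  have h3 : Real.log (6 * (n + 1 : ℝ) + 1) ≤ Real.log 7 + Real.log (n + 2) := by
    rw [← Real.log_mul (by norm_num) (by positivity)]
    refine Real.log_le_log (by positivity) ?_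
    have : (0 : ℝ) ≤ n := by positivity
    linarith
  have h4 := mul_le_mul_of_nonneg_left h3 (by positivity : (0 : ℝ) ≤ d)
  have h5 := H_le h n o
  linarith

theorem Ker.edge (h : Ker m k) (hm : Hmg m o) : ∃ c : ℝ, 0 ≤ c ∧ ∀ f : Q → ℝ, Continuous f →
    ∀ A : ℝ, (∀ x, ∫ z, k x z * |f z - f x| ∂m ≤ A) → ∀ x y, dist x y ≤ 2 → |f x - f y| ≤ c * A := by
  obtain ⟨κ, hκ, hl⟩ := h.low
  have hv : 0 < m.real (closedBall o (1 / 2)) := ball_pos o (by norm_num)
  refine ⟨2 / (m.real (closedBall o (1 / 2)) * κ), by positivity, fun f hf A hA x y hxy => ?_⟩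
  have hBm : MeasurableSet (closedBall x (1 / 2)) := measurableSet_closedBall
  have i1 : ∀ w, Integrable (fun z => k w z * |f z - f w|) m := fun w =>
    h.int_mul (hf.sub continuous_const).abs w
  have h1 : ∫ z, (closedBall x (1 / 2)).indicator (fun _ => κ * |f x - f y|) z ∂m ≤
      ∫ z, (k x z * |f z - f x| + k y z * |f z - f y|) ∂m := by
    refine integral_mono ((integrableOn_const
      (isCompact_closedBall x _).measure_lt_top.ne).integrable_indicator hBm)
      ((i1 x).add (i1 y)) fun z => ?_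
    by_cases hz : z ∈ closedBall x (1 / 2)
    · simp only [Set.indicator_of_mem hz]
      have h2 := mem_closedBall'.1 hz
      have h3 := hl x z (by linarith)
      have h4 := hl y z (by linarith [dist_triangle y x z, dist_comm x y])
      have h5 := abs_sub_le (f x) (f z) (f y)
      rw [abs_sub_comm (f x) (f z)] at h5
      nlinarith [abs_nonneg (f z - f x), abs_nonneg (f z - f y)]
    · simp only [Set.indicator_of_notMem hz]
      exact add_nonneg (mul_nonneg (h.nonneg _ _) (abs_nonneg _))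
        (mul_nonneg (h.nonneg _ _) (abs_nonneg _))
  rw [integral_indicator_const _ hBm, integral_add (i1 x) (i1 y), ball_eq hm, smul_eq_mul] at h1
  rw [div_mul_eq_mul_div, le_div_iff₀ (by positivity)]
  linarith [hA x, hA y]

theorem Ker.liouville (h : Ker m k) (hm : Hmg m o) {f : Q → ℝ} (hf : Continuous f)
    (e : Pk m k f = f) {M : ℝ} (hM : ∀ z, |f z| ≤ M) (x y : Q) : f x = f y := by
  obtain ⟨d, hd, hg⟩ := h.good hm
  obtain ⟨c, -, hc⟩ := h.edge hm
  have h1 : ∀ w, ∫ z, k w z * |f z - f w| ∂m ≤ 0 := by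
    intro w
    by_contra hne
    have hpos := pow_pos (not_le.1 hne) 2
    obtain ⟨N, hN⟩ := exists_nat_gt (4 * d * M ^ 2 / (∫ z, k w z * |f z - f w| ∂m) ^ 2)
    obtain ⟨n, hn, hn'⟩ := frequently_atTop.1 hg N
    have h2 := h.grad hm hf e n 0 w
    have h3 : 0 ≤ En m k (n + 1) (fun z => (f z - 0) ^ 2) w :=
      integral_nonneg fun z => mul_nonneg (h.p_nonneg _ w z) (sq_nonneg _)
    have h4 : En m k (n + 1) (fun z => (f z - 0) ^ 2) w ≤ M ^ 2 := by
      refine (le_abs_self _).trans (h.E_le (n + 1) (f := fun z => (f z - 0) ^ 2)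
        ((hf.sub continuous_const).pow 2) (fun z => ?_) w)
      rw [sub_zero, abs_pow]
      exact pow_le_pow_left₀ (abs_nonneg _) (hM z) 2
    rw [div_lt_iff₀ hpos] at hN
    have h5 : (N : ℝ) ≤ n := by exact_mod_cast hn
    have h6 := mul_le_mul_of_nonneg_left h2 (by positivity : (0 : ℝ) ≤ n + 2)
    have h7 := mul_le_mul_of_nonneg_right hn' h3
    have h8 := mul_le_mul_of_nonneg_left h4 hd
    nlinarith
  obtain ⟨R, hR⟩ := hm.chain (dist x y)
  have := reach_le (hc f hf 0 h1) (hR x y le_rfl)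
  rw [mul_zero, mul_zero] at this
  exact sub_eq_zero.1 (abs_nonpos_iff.1 this)

end Pool.Agent.P.MP_5c499f_an.Cw
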