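import Pool.Agent.P.MP_5c499f_an.ZEnt

/-! Finite dimensionality. -/

set_option autoImplicit false

namespace Pool.Agent.P.MP_5c499f_an.Cw

open MeasureTheory Metric Filter Topology

namespace ZFinX

lemma fd_of_form {E : Type*} [AddCommGroup E] [Module ℝ E] (B : LinearMap.BilinForm ℝ E)
    (hs : ∀ u v, B u v = B v u) (hp : ∀ u, u ≠ 0 → 0 < B u u) (C : ℝ)
    (h : ∀ (n : ℕ) (v : Fin n → E), (∀ i j, B (v i) (v j) = if i = j then 1 else 0) →
      (n : ℝ) ≤ C) : FiniteDimensional ℝ E := by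
  by_contra hcon
  obtain ⟨n, hn⟩ := exists_nat_gt C
  have h1 : (n : Cardinal) ≤ Module.rank ℝ E := by
    by_contra h2
    exact hcon (Module.rank_lt_aleph0_iff.1 ((not_le.1 h2).trans Cardinal.natCast_lt_aleph0))
  obtain ⟨f, hf⟩ := exists_linearIndependent_of_le_rank h1
  let W := Submodule.span ℝ (Set.range f)
  have : FiniteDimensional ℝ W := FiniteDimensional.span_of_finite ℝ (Set.finite_range f)
  have h2 : Module.finrank ℝ W = n := by simpa using finrank_span_eq_card hf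
  obtain ⟨v, hv⟩ := LinearMap.BilinForm.exists_orthogonal_basis (B := B.restrict W)
    ⟨fun u w => hs _ _⟩
  have h3 : ∀ i, 0 < B (v i) (v i) := fun i =>
    hp _ fun h3 => v.ne_zero i (Subtype.ext h3)
  refine absurd (h _ (fun i => (Real.sqrt (B (v i) (v i)))⁻¹ • (v i : E)) fun i j => ?_)
    (not_le.2 (h2 ▸ hn))
  simp only [map_smul, LinearMap.smul_apply, smul_eq_mul]
  split_ifs with hij
  · subst hij
    have h4 := Real.sqrt_pos.2 (h3 i)
    have h5 := Real.mul_self_sqrt (h3 i).le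
    field_simp
    nlinarith
  · have h4 : B (v i) (v j) = 0 := hv hij
    simp [h4]

lemma bessel {E : Type*} [AddCommGroup E] [Module ℝ E] (B : LinearMap.BilinForm ℝ E)
    (l : E →ₗ[ℝ] ℝ) {C : ℝ} (hC : 0 ≤ C) (hl : ∀ u, l u ^ 2 ≤ C * B u u) {n : ℕ} {v : Fin n → E}
    (hv : ∀ i j, B (v i) (v j) = if i = j then 1 else 0) : ∑ i, l (v i) ^ 2 ≤ C := by
  have h0 : 0 ≤ ∑ i, l (v i) ^ 2 := Finset.sum_nonneg fun i _ => sq_nonneg _
  have h1 := hl (∑ i, l (v i) • v i)
  simp only [map_sum, map_smul, LinearMap.sum_apply, LinearMap.smul_apply, smul_eq_mul, hv,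
    mul_ite, mul_one, mul_zero, Finset.sum_ite_eq', Finset.mem_univ, if_true, ← sq] at h1
  rcases h0.eq_or_lt with h2 | h2
  · exact h2 ▸ hC
  · nlinarith

variable {Q : Type*} [MetricSpace Q] [ProperSpace Q] [MeasurableSpace Q] [BorelSpace Q]
  {m : Measure Q} [IsFiniteMeasureOnCompacts m] [m.IsOpenPosMeasure] {k : Q → Q → ℝ} {o : Q}

/-- Bounded continuous functions. -/
def BC (φ : Q → ℝ) : Prop := Continuous φ ∧ ∃ M, ∀ z, |φ z| ≤ M

/-- Cesaro means. -/
noncomputable def S (m : Measure Q) (k : Q → Q → ℝ) (n : ℕ) (φ : Q → ℝ) (x : Q) : ℝ :=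
  (∑ j ∈ Finset.range (n + 1), En m k j φ x) / (n + 2)

/-- The limit of the means. -/
noncomputable def T (m : Measure Q) (k : Q → Q → ℝ) (U : Ultrafilter ℕ) (φ : Q → ℝ) (x : Q) : ℝ :=
  limUnder (U : Filter ℕ) fun n => S m k n φ x

/-- The local energy. -/
noncomputable def Gam (m : Measure Q) (k : Q → Q → ℝ) (f g : Q → ℝ) (x : Q) : ℝ :=
  Pk m k (fun y => (f y - f x) * (g y - g x)) x

omit [ProperSpace Q] [MeasurableSpace Q] [BorelSpace Q] in
lemma BC.add {φ ψ : Q → ℝ} (h1 : BC φ) (h2 : BC ψ) : BC fun z => φ z + ψ z := by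
  obtain ⟨c1, M, h1⟩ := h1
  obtain ⟨c2, N, h2⟩ := h2
  exact ⟨c1.add c2, M + N, fun z => (abs_add_le _ _).trans (add_le_add (h1 z) (h2 z))⟩

lemma avg_le {a : ℕ → ℝ} {M : ℝ} (h : ∀ j, |a j| ≤ M) (n : ℕ) :
    |(∑ j ∈ Finset.range (n + 1), a j) / (n + 2)| ≤ M := by
  have h0 : 0 ≤ M := (abs_nonneg _).trans (h 0)
  have h1 : (0 : ℝ) < n + 2 := by positivity
  rw [abs_div, abs_of_pos h1, div_le_iff₀ h1]
  refine (Finset.abs_sum_le_sum_abs _ _).trans ((Finset.sum_le_sum fun j _ => h j).trans ?_)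
  simp only [Finset.sum_const, Finset.card_range, nsmul_eq_mul]
  push_cast
  nlinarith

lemma E_add (h : Ker m k) (n : ℕ) {φ ψ : Q → ℝ} (h1 : Continuous φ) (h2 : Continuous ψ) (x : Q) :
    En m k n (fun z => φ z + ψ z) x = En m k n φ x + En m k n ψ x := by
  simp only [En, mul_add]
  exact integral_add (h.p_int_mul n h1 x) (h.p_int_mul n h2 x)

omit [MetricSpace Q] [ProperSpace Q] [BorelSpace Q] [IsFiniteMeasureOnCompacts m]
  [m.IsOpenPosMeasure] in
lemma E_mul (n : ℕ) (c : ℝ) (φ : Q → ℝ) (x : Q) :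
    En m k n (fun z => c * φ z) x = c * En m k n φ x := by
  simp only [En, mul_left_comm _ c]
  exact integral_const_mul _ _

lemma E_nonneg (h : Ker m k) (n : ℕ) {φ : Q → ℝ} (h1 : ∀ z, 0 ≤ φ z) (x : Q) :
    0 ≤ En m k n φ x :=
  integral_nonneg fun z => mul_nonneg (h.p_nonneg n x z) (h1 z)

lemma tendsto_T (h : Ker m k) (U : Ultrafilter ℕ) {φ : Q → ℝ} (h1 : BC φ) (x : Q) :
    Tendsto (fun n => S m k n φ x) U (𝓝 (T m k U φ x)) := by
  obtain ⟨c1, M, h1⟩ := h1
  obtain ⟨c, -, hc⟩ := (isCompact_Icc (a := -M) (b := M)).ultrafilter_le_nhds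
    (U.map fun n => S m k n φ x) (by
      rw [le_principal_iff, Ultrafilter.mem_coe, Ultrafilter.mem_map]
      exact univ_mem' fun n => abs_le.1 (avg_le (fun j => h.E_le j c1 h1 x) n))
  exact tendsto_nhds_limUnder ⟨c, hc⟩

lemma T_le (h : Ker m k) (U : Ultrafilter ℕ) {φ : Q → ℝ} (c1 : Continuous φ) {M : ℝ}
    (h1 : ∀ z, |φ z| ≤ M) (x : Q) : |T m k U φ x| ≤ M :=
  le_of_tendsto' (tendsto_T h U ⟨c1, M, h1⟩ x).abs fun n => avg_le (fun j => h.E_le j c1 h1 x) n

lemma T_add (h : Ker m k) (U : Ultrafilter ℕ) {φ ψ : Q → ℝ} (h1 : BC φ) (h2 : BC ψ) (x : Q) :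
    T m k U (fun z => φ z + ψ z) x = T m k U φ x + T m k U ψ x := by
  refine tendsto_nhds_unique (tendsto_T h U (h1.add h2) x) ?_
  simp only [S, E_add h _ h1.1 h2.1, Finset.sum_add_distrib, add_div]
  exact (tendsto_T h U h1 x).add (tendsto_T h U h2 x)

lemma T_mul (h : Ker m k) (U : Ultrafilter ℕ) (c : ℝ) {φ : Q → ℝ} (h1 : BC φ) (x : Q) :
    T m k U (fun z => c * φ z) x = c * T m k U φ x := by
  refine Tendsto.limUnder_eq ?_
  simp only [S, E_mul, ← Finset.mul_sum, mul_div_assoc]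
  exact (tendsto_T h U h1 x).const_mul c

lemma T_sum (h : Ker m k) (U : Ultrafilter ℕ) {ι : Type*} (s : Finset ι) {φ : ι → Q → ℝ}
    (h1 : ∀ i, BC (φ i)) (x : Q) : BC (fun z => ∑ i ∈ s, φ i z) ∧
      T m k U (fun z => ∑ i ∈ s, φ i z) x = ∑ i ∈ s, T m k U (φ i) x := by
  classical
  induction s using Finset.induction_on with
  | empty =>
    refine ⟨⟨continuous_const, 0, by simp⟩, ?_⟩
    simpa using T_le h U (φ := fun _ => 0) continuous_const (M := 0) (by simp) x
  | insert i s hi ih =>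
    simp only [Finset.sum_insert hi]
    exact ⟨(h1 i).add ih.1, by rw [T_add h U (h1 i) ih.1, ih.2]⟩

lemma T_const (h : Ker m k) (hm : Hmg m o) {U : Ultrafilter ℕ} (hU : (U : Filter ℕ) ≤ atTop)
    {φ : Q → ℝ} (h1 : BC φ) (x y : Q) : T m k U φ x = T m k U φ y := by
  obtain ⟨c1, M, h2⟩ := id h1
  obtain ⟨L, -, hL⟩ := h.P_lip hm
  have h3 : ∀ j x y, dist x y ≤ 1 → |En m k j φ x - En m k j φ y| ≤ L * M * dist x y := by
    intro j x y hxy
    cases j with
    | zero => exact hL φ c1 x y 0 M hxy fun z _ => by simpa using h2 z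
    | succ j =>
      rw [h.E_succ j c1]
      exact hL _ (h.E_cont j c1) x y 0 M hxy fun z _ => by simpa using h.E_le j c1 h2 z
  obtain ⟨h4, h5⟩ := h.P_lim (l := U) (f := fun n => S m k n φ) (g := T m k U φ) (L := L * M)
    (fun n x y hxy => by
      simp only [S, ← sub_div, ← Finset.sum_sub_distrib]
      exact avg_le (fun j => h3 j x y hxy) n) (tendsto_T h U h1)
  refine h.liouville hm h4 (funext fun z => ?_) (T_le h U c1 h2) x y
  have h6 : ∀ n : ℕ, Pk m k (S m k n φ) z - S m k n φ z =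
      (En m k (n + 1) φ z - En m k 0 φ z) / (n + 2) := by
    intro n
    rw [← Finset.sum_range_sub (fun j => En m k j φ z), Finset.sum_sub_distrib, sub_div]
    congr 1
    simp only [Pk, S, ← mul_div_assoc, Finset.mul_sum, h.E_succ _ c1]
    rw [integral_div, integral_finsetSum _ fun j _ => h.int_mul (h.E_cont j c1) z]
  have h7 : Tendsto (fun n : ℕ => Pk m k (S m k n φ) z - S m k n φ z) U (𝓝 0) := by
    refine Tendsto.mono_left (squeeze_zero_norm (a := fun n : ℕ => (M + M) / (n + 2))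
      (fun n => ?_) ?_) hU
    · rw [h6, Real.norm_eq_abs, abs_div, abs_of_pos (by positivity : (0 : ℝ) < n + 2)]
      exact div_le_div_of_nonneg_right ((abs_sub _ _).trans
        (add_le_add (h.E_le _ c1 h2 z) (h.E_le _ c1 h2 z))) (by positivity)
    · exact tendsto_const_nhds.div_atTop
        (tendsto_atTop_add_const_right _ _ tendsto_natCast_atTop_atTop)
  exact sub_eq_zero.1 (tendsto_nhds_unique ((h5 z).sub (tendsto_T h U h1 z)) h7)

lemma Gam_eq (h : Ker m k) {f g : Q → ℝ} (hf : IsLH m k o f) (hg : IsLH m k o g) (c d : ℝ)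
    (x : Q) :
    Pk m k (fun y => (f y - c) * (g y - d)) x = (f x - c) * (g x - d) + Gam m k f g x := by
  have c1 : Continuous fun y => f y - f x := hf.2.1.sub continuous_const
  have c2 : Continuous fun y => g y - g x := hg.2.1.sub continuous_const
  have h1 : ∫ y, k x y * (f y - f x) ∂m = 0 :=
    (h.P_sub_const hf.2.1 (f x) x).trans (by rw [hf.2.2.1, sub_self])
  have h2 : ∫ y, k x y * (g y - g x) ∂m = 0 :=
    (h.P_sub_const hg.2.1 (g x) x).trans (by rw [hg.2.2.1, sub_self])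
  have i0 : Integrable (fun y => (f x - c) * (g x - d) * k x y) m := by
    simpa [mul_comm] using h.int_mul (f := fun _ => (f x - c) * (g x - d)) continuous_const x
  have i1 := (h.int_mul c1 x).const_mul (g x - d)
  have i2 := (h.int_mul c2 x).const_mul (f x - c)
  have i3 := h.int_mul (c1.mul c2) x
  have h3 : ∀ y, k x y * ((f y - c) * (g y - d)) = (f x - c) * (g x - d) * k x y +
      ((g x - d) * (k x y * (f y - f x)) + ((f x - c) * (k x y * (g y - g x)) +
        k x y * ((f y - f x) * (g y - g x)))) := fun y => by ring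
  simp only [Gam, Pk, h3]
  refine (integral_add i0 (i1.add (i2.add i3))).trans (congrArg₂ (· + ·) ?_
    ((integral_add i1 (i2.add i3)).trans ?_))
  · rw [integral_const_mul, h.int x, mul_one]
  · rw [integral_const_mul, h1, mul_zero, zero_add]
    refine (integral_add i2 i3).trans ?_
    rw [integral_const_mul, h2, mul_zero, zero_add]
    rfl

lemma Gam_BC (h : Ker m k) (hm : Hmg m o) {f g : Q → ℝ} (hf : IsLH m k o f)
    (hg : IsLH m k o g) : BC (Gam m k f g) := by
  refine ⟨?_, ?_⟩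
  · have h1 : Gam m k f g = fun x => Pk m k (fun y => (f y - 0) * (g y - 0)) x -
        (f x - 0) * (g x - 0) := funext fun x => by rw [Gam_eq h hf hg]; ring
    have c1 := (hf.2.1.sub continuous_const (g := fun _ => (0 : ℝ))).mul
      (hg.2.1.sub continuous_const (g := fun _ => (0 : ℝ)))
    exact h1 ▸ (h.P_cont c1).sub c1
  · obtain ⟨N, hN⟩ := hm.chain 6
    obtain ⟨L, hL⟩ := hf.2.2.2
    obtain ⟨L', hL'⟩ := hg.2.2.2
    refine ⟨N * L * (N * L'), fun x => ?_⟩
    have h1 := h.P_le (c := 0) (M := N * L * (N * L')) (x := x)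
      ((hf.2.1.sub continuous_const (g := fun _ => f x)).mul
        (hg.2.1.sub continuous_const (g := fun _ => g x))) fun z hz => by
        have h2 := reach_le hL (hN z x (dist_comm x z ▸ hz))
        have h3 := reach_le hL' (hN z x (dist_comm x z ▸ hz))
        rw [sub_zero, Pi.mul_apply, abs_mul]
        exact mul_le_mul h2 h3 (abs_nonneg _) ((abs_nonneg _).trans h2)
    rwa [sub_zero] at h1

omit [ProperSpace Q] [BorelSpace Q] [IsFiniteMeasureOnCompacts m] [m.IsOpenPosMeasure] in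
lemma Gam_nonneg (h : Ker m k) (f : Q → ℝ) (x : Q) : 0 ≤ Gam m k f f x :=
  integral_nonneg fun y => mul_nonneg (h.nonneg x y) (mul_self_nonneg _)

lemma E_sq (h : Ker m k) (hm : Hmg m o) {f : Q → ℝ} (hf : IsLH m k o f) (n : ℕ) (x : Q) :
    En m k n (fun z => (f z - f x) ^ 2) x =
      Gam m k f f x + ∑ j ∈ Finset.range n, En m k j (Gam m k f f) x := by
  have c1 : Continuous fun z => (f z - f x) ^ 2 := (hf.2.1.sub continuous_const).pow 2
  have h1 : Pk m k (fun z => (f z - f x) ^ 2) = fun z => (f z - f x) ^ 2 + Gam m k f f z :=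
    funext fun z => by simpa only [sq] using Gam_eq h hf hf (f x) (f x) z
  induction n with
  | zero => exact (congrFun h1 x).trans (by simp)
  | succ n ih =>
    rw [h.E_succ' n c1, h1, E_add h n c1 (Gam_BC h hm hf hf).1, ih, Finset.sum_range_succ,
      add_assoc]

lemma grad_le (h : Ker m k) (hm : Hmg m o) {U : Ultrafilter ℕ} (hU : (U : Filter ℕ) ≤ atTop)
    {d : ℝ} (hd : ∀ᶠ n : ℕ in U, (n + 2) * (Hn m k (n + 1) o - Hn m k n o) ≤ d) {f : Q → ℝ}
    (hf : IsLH m k o f) (x : Q) :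
    (∫ z, k x z * |f z - f x| ∂m) ^ 2 ≤ 4 * d * T m k U (Gam m k f f) o := by
  have h1 : Tendsto (fun n : ℕ => 4 * d * (Gam m k f f x / (n + 2) + S m k n (Gam m k f f) x)) U
      (𝓝 (4 * d * (0 + T m k U (Gam m k f f) x))) :=
    (((tendsto_const_nhds.div_atTop (tendsto_atTop_add_const_right _ _
      tendsto_natCast_atTop_atTop)).mono_left hU).add
        (tendsto_T h U (Gam_BC h hm hf hf) x)).const_mul _
  rw [zero_add, T_const h hm hU (Gam_BC h hm hf hf) x o] at h1
  refine ge_of_tendsto h1 (hd.mono fun n hn => (h.grad hm hf.2.1 hf.2.2.1 n (f x) x).trans ?_)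
  have h2 := E_nonneg h (n + 1) (φ := fun z => (f z - f x) ^ 2) (fun z => sq_nonneg _) x
  have h3 : (0 : ℝ) < n + 2 := by positivity
  rw [S, ← add_div, ← E_sq h hm hf]
  have h4 := mul_le_mul_of_nonneg_right hn (div_nonneg h2 h3.le)
  have h5 := mul_div_cancel₀ (En m k (n + 1) (fun z => (f z - f x) ^ 2) x) h3.ne'
  rw [mul_right_comm, h5] at h4
  linarith

end ZFinX

open ZFinX

variable {Q : Type*} [MetricSpace Q] [ProperSpace Q] [MeasurableSpace Q] [BorelSpace Q]
  {m : Measure Q} [IsFiniteMeasureOnCompacts m] [m.IsOpenPosMeasure] {k : Q → Q → ℝ} {o : Q}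

theorem Ker.fin_dim (h : Ker m k) (hm : Hmg m o) (V : Submodule ℝ (Q → ℝ))
    (hV : ∀ f ∈ V, IsLH m k o f) : FiniteDimensional ℝ V := by
  obtain ⟨d, hd0, hd⟩ := h.good hm
  obtain ⟨c, hc0, hc⟩ := h.edge hm
  obtain ⟨N, hN⟩ := hm.chain 6
  have := frequently_iff_neBot.1 hd
  let U := Ultrafilter.of
    (atTop ⊓ 𝓟 {n : ℕ | (n + 2) * (Hn m k (n + 1) o - Hn m k n o) ≤ d})
  have hU : (U : Filter ℕ) ≤ atTop := (Ultrafilter.of_le _).trans inf_le_left
  have hU' : ∀ᶠ n : ℕ in U, (n + 2) * (Hn m k (n + 1) o - Hn m k n o) ≤ d :=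
    le_principal_iff.1 ((Ultrafilter.of_le _).trans inf_le_right)
  have bc := fun u v : V => Gam_BC h hm (hV u u.2) (hV v v.2)
  have sy : ∀ f g : Q → ℝ, Gam m k f g = Gam m k g f := fun f g =>
    funext fun x => by simp only [Gam, mul_comm]
  have ad : ∀ u v w : V, T m k U (Gam m k (u + v : V) w) o =
      T m k U (Gam m k u w) o + T m k U (Gam m k v w) o := by
    intro u v w
    rw [← T_add h U (bc u w) (bc v w)]
    congr 1
    funext x
    have c1 := fun u : V => h.int_mul (((hV u u.2).2.1.sub continuous_const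
      (g := fun _ => u.1 x)).mul ((hV w w.2).2.1.sub continuous_const (g := fun _ => w.1 x))) x
    refine Eq.trans ?_ (integral_add (c1 u) (c1 v))
    refine integral_congr_ae (Eventually.of_forall fun y => ?_)
    simp only [Submodule.coe_add, Pi.add_apply]
    ring
  have sm : ∀ (a : ℝ) (u w : V), T m k U (Gam m k (a • u : V) w) o =
      a • T m k U (Gam m k u w) o := by
    intro a u w
    rw [smul_eq_mul, ← T_mul h U a (bc u w)]
    congr 1
    funext x
    refine Eq.trans ?_ (integral_const_mul _ _)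
    refine integral_congr_ae (Eventually.of_forall fun y => ?_)
    simp only [Submodule.coe_smul, Pi.smul_apply, smul_eq_mul]
    ring
  let B : LinearMap.BilinForm ℝ V := LinearMap.mk₂ ℝ (fun u v => T m k U (Gam m k u v) o) ad sm
    (fun u v w => by rw [sy, ad, sy v, sy w]) fun a u w => by rw [sy, sm, sy]
  have hB : ∀ u v : V, B u v = T m k U (Gam m k u v) o := fun _ _ => rfl
  have h0 : ∀ u : V, 0 ≤ B u u := fun u => ge_of_tendsto' (tendsto_T h U (bc u u) o) fun n =>
    div_nonneg (Finset.sum_nonneg fun j _ => E_nonneg h j (Gam_nonneg h _) o) (by positivity)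
  have h1 : ∀ (u : V) x y, dist x y ≤ 2 → |u.1 x - u.1 y| ≤ c * Real.sqrt (4 * d * B u u) :=
    fun u => hc u (hV u u.2).2.1 _ fun x =>
      Real.le_sqrt_of_sq_le (grad_le h hm hU hU' (hV u u.2) x)
  have h2 : ∀ (u : V) x y, dist x y ≤ 6 → (u.1 x - u.1 y) ^ 2 ≤ (N * c) ^ 2 * (4 * d) * B u u := by
    intro u x y hxy
    have h2 := pow_le_pow_left₀ (abs_nonneg _) (reach_le (h1 u) (hN x y hxy)) 2
    rw [sq_abs, ← mul_assoc, mul_pow, Real.sq_sqrt (mul_nonneg (by positivity) (h0 u))] at h2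
    linarith
  refine fd_of_form B (fun u v => by rw [hB, hB, sy]) (fun u hu => (h0 u).lt_of_ne fun h3 => hu ?_)
    ((N * c) ^ 2 * (4 * d)) fun n v hv => ?_
  · ext x
    obtain ⟨M, hM⟩ := hm.chain (dist x o)
    have h4 := reach_le (h1 u) (hM x o le_rfl)
    simpa [← h3, (hV u u.2).1] using h4
  · obtain ⟨h3, h4⟩ := T_sum h U Finset.univ (fun i => bc (v i) (v i)) o
    have h5 : ∑ i, T m k U (Gam m k (v i) (v i)) o = n := by simp [← hB, hv]
    rw [← h5, ← h4]
    refine (le_abs_self _).trans (T_le h U h3.1 (fun z => ?_) o)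
    have c1 := fun i => ((hV _ (v i).2).2.1.sub continuous_const (g := fun _ => (v i).1 z)).mul
      ((hV _ (v i).2).2.1.sub continuous_const (g := fun _ => (v i).1 z))
    have h6 := h.P_le (c := 0) (x := z) (M := (N * c) ^ 2 * (4 * d))
      (continuous_finsetSum Finset.univ fun i _ => c1 i) fun y hy => by
        have h6 := bessel B (((LinearMap.proj y : (Q → ℝ) →ₗ[ℝ] ℝ) - LinearMap.proj z) ∘ₗ V.subtype)
          (C := (N * c) ^ 2 * (4 * d)) (by positivity)
          (fun u => by simpa using h2 u y z (dist_comm z y ▸ hy)) hv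
        rw [sub_zero, abs_of_nonneg (Finset.sum_nonneg fun i _ => mul_self_nonneg _)]
        simpa [sq] using h6
    simp only [sub_zero, Pk, Finset.mul_sum] at h6
    rwa [integral_finsetSum _ fun i _ => h.int_mul (c1 i) z] at h6

end Pool.Agent.P.MP_5c499f_an.Cw
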