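import Pool.Agent.P.MP_5c499f_an.ZEnt

/-! A nonconstant harmonic function. TASK ANOS6-HARM. -/

set_option autoImplicit false

namespace Pool.Agent.P.MP_5c499f_an.Cw

open MeasureTheory Metric Filter Topology

variable {Q : Type*} [MetricSpace Q] [ProperSpace Q] [MeasurableSpace Q] [BorelSpace Q]
  {m : Measure Q} [IsFiniteMeasureOnCompacts m] [m.IsOpenPosMeasure] {k : Q → Q → ℝ} {o : Q}

namespace ZHarmX

omit [MetricSpace Q] [ProperSpace Q] [BorelSpace Q] [IsFiniteMeasureOnCompacts m]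
  [m.IsOpenPosMeasure] in
theorem cs {u v : Q → ℝ} (h1 : Integrable (fun z => u z * u z) m)
    (h2 : Integrable (fun z => u z * v z) m) (h3 : Integrable (fun z => v z * v z) m) :
    (∫ z, u z * v z ∂m) ^ 2 ≤ (∫ z, u z * u z ∂m) * ∫ z, v z * v z ∂m := by
  have key : ∀ t : ℝ, 0 ≤ (∫ z, v z * v z ∂m) * (t * t) + (2 * ∫ z, u z * v z ∂m) * t +
      ∫ z, u z * u z ∂m := by
    intro t
    have e : ∫ z, (v z * v z * (t * t) + u z * v z * (2 * t) + u z * u z) ∂m =
        (∫ z, v z * v z ∂m) * (t * t) + (2 * ∫ z, u z * v z ∂m) * t + ∫ z, u z * u z ∂m := by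
      have i1 : Integrable (fun z => v z * v z * (t * t) + u z * v z * (2 * t)) m :=
        (h3.mul_const _).add (h2.mul_const _)
      rw [integral_add i1 h1,
        integral_add (h3.mul_const _) (h2.mul_const _), integral_mul_const, integral_mul_const]
      ring
    rw [← e]
    exact integral_nonneg fun z => by
      have := sq_nonneg (u z + t * v z)
      show (0 : ℝ) ≤ v z * v z * (t * t) + u z * v z * (2 * t) + u z * u z
      nlinarith
  have := discrim_le_zero key
  unfold discrim at this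
  nlinarith

variable (h : Ker m k)
include h

theorem pc (n : ℕ) (x : Q) : Continuous (pn m k n x) :=
  (h.p_cont n).uncurry_left x

theorem ip (n j : ℕ) (x y : Q) :
    ∫ z, pn m k n x z * pn m k j y z ∂m = pn m k (n + j + 1) x y := by
  rw [← h.p_add n j x y]
  exact integral_congr_ae (Eventually.of_forall fun z => by simp only [h.p_symm j y z])

theorem int2 (n n' : ℕ) (x x' : Q) {f : Q → ℝ} (hf : Continuous f) :
    Integrable (fun z => (pn m k n x z - pn m k n' x' z) * f z) m := by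
  simp only [sub_mul]
  exact (h.p_int_mul n hf x).sub (h.p_int_mul n' hf x')

theorem ip2 (n n' j : ℕ) (x x' y : Q) :
    ∫ z, (pn m k n x z - pn m k n' x' z) * pn m k j y z ∂m =
      pn m k (n + j + 1) x y - pn m k (n' + j + 1) x' y := by
  simp only [sub_mul]
  rw [integral_sub (h.p_int_mul n (pc h j y) x) (h.p_int_mul n' (pc h j y) x'), ip h, ip h]

theorem ip4 (n n' j j' : ℕ) (x x' y y' : Q) :
    ∫ z, (pn m k n x z - pn m k n' x' z) * (pn m k j y z - pn m k j' y' z) ∂m =
      pn m k (n + j + 1) x y - pn m k (n' + j + 1) x' y -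
        (pn m k (n + j' + 1) x y' - pn m k (n' + j' + 1) x' y') := by
  simp only [mul_sub]
  rw [integral_sub (int2 h n n' x x' (pc h j y)) (int2 h n n' x x' (pc h j' y')), ip2 h, ip2 h]

theorem diag (hm : Hmg m o) (n : ℕ) (x : Q) : pn m k n x x = pn m k n o o := by
  obtain ⟨g, rfl⟩ := hm.trans o x
  exact h.p_inv hm n g o o

theorem P_p (n : ℕ) (x y : Q) : Pk m k (pn m k n x) y = pn m k (n + 1) x y := by
  rw [h.p_symm (n + 1) x y]
  show ∫ z, k y z * pn m k n x z ∂m = ∫ z, k y z * pn m k n z x ∂m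
  simp only [h.p_symm n x]

theorem P_sub {f g : Q → ℝ} (hf : Continuous f) (hg : Continuous g) (x : Q) :
    Pk m k (fun z => f z - g z) x = Pk m k f x - Pk m k g x := by
  unfold Pk
  simp only [mul_sub]
  exact integral_sub (h.int_mul hf x) (h.int_mul hg x)

theorem le_diag (hm : Hmg m o) (n : ℕ) (x y : Q) :
    pn m k (n + n + 1) x y ≤ pn m k (n + n + 1) o o := by
  have h0 : 0 ≤ ∫ z, (pn m k n x z - pn m k n y z) * (pn m k n x z - pn m k n y z) ∂m :=
    integral_nonneg fun z => mul_self_nonneg _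
  rw [ip4 h, diag h hm _ x, diag h hm _ y, h.p_symm _ y x] at h0
  linarith

omit h in
/-- The first difference of return densities. -/
noncomputable def aa (m : Measure Q) (k : Q → Q → ℝ) (o : Q) (n : ℕ) : ℝ :=
  pn m k (n + n + 1) o o - pn m k (n + n + 2) o o

theorem aa_nonneg (hm : Hmg m o) (n : ℕ) : 0 ≤ aa m k o n := by
  have := h.P_le (pc h (n + n + 1) o) (x := o) (c := 0) (M := pn m k (n + n + 1) o o)
    fun z _ => by
      rw [sub_zero, abs_of_nonneg (h.p_nonneg _ _ _)]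
      exact le_diag h hm n o z
  rw [P_p h, sub_zero] at this
  have := (abs_le.1 this).2
  unfold aa
  linarith

theorem bb_le (hm : Hmg m o) (n : ℕ) (x : Q) :
    ∫ z, (pn m k n x z - pn m k (n + 1) x z) * (pn m k n x z - pn m k (n + 1) x z) ∂m ≤
      aa m k o n - aa m k o (n + 1) := by
  have hc : Continuous fun z => pn m k n o z - pn m k (n + 1) o z := (pc h n o).sub (pc h _ o)
  have hs : HasCompactSupport fun z => pn m k n o z - pn m k (n + 1) o z := by
    refine HasCompactSupport.intro (isCompact_closedBall o (6 * (n + 2 : ℝ))) fun z hz => ?_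
    have hz' : 6 * (n + 2 : ℝ) < dist o z := by
      rw [mem_closedBall, dist_comm] at hz
      exact not_le.1 hz
    rw [h.p_supp n (by linarith), h.p_supp (n + 1) (by push_cast; linarith), sub_zero]
  have h0 := h.psd _ hc hs
  have e : ∀ x, ∫ y, k x y * (pn m k n o y - pn m k (n + 1) o y) ∂m =
      pn m k (n + 1) o x - pn m k (n + 2) o x := fun x => by
    have := P_sub h (pc h n o) (pc h (n + 1) o) x
    rw [P_p h, P_p h] at this
    exact this
  simp only [e] at h0
  rw [ip4 h] at h0 ⊢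
  simp only [diag h hm _ x]
  unfold aa
  simp only [show n + (n + 1) + 1 = n + n + 2 by ring, show n + 1 + n + 1 = n + n + 2 by ring,
    show n + 1 + (n + 1) + 1 = n + n + 3 by ring, show n + (n + 2) + 1 = n + n + 3 by ring,
    show n + 1 + (n + 2) + 1 = n + n + 4 by ring, show n + 1 + (n + 1) + 2 = n + n + 4 by ring]
    at h0 ⊢
  linarith

theorem p_bdd : ∃ M : ℝ, ∀ n y, |pn m k n o y| ≤ M := by
  have hs : HasCompactSupport (pn m k 0 o) := by
    refine HasCompactSupport.intro (isCompact_closedBall o 6) fun z hz => ?_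
    rw [mem_closedBall, dist_comm] at hz
    exact h.supp o z (not_le.1 hz).le
  obtain ⟨M, hM⟩ := (pc h 0 o).bounded_above_of_compact_support hs
  refine ⟨M, fun n => ?_⟩
  induction n with
  | zero => exact hM
  | succ n ih =>
    intro y
    have := h.P_le (pc h n o) (x := y) (c := 0) (M := M) fun z _ => by simpa using ih z
    rwa [P_p h, sub_zero] at this

theorem slow (hm : Hmg m o) {r : ℝ} (h0 : 0 ≤ r) (h1 : r < 1) :
    ∃ n, 0 < aa m k o n ∧ r ^ 2 * aa m k o n ≤ aa m k o (n + 1) := by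
  by_contra hc
  have hb : ∀ n x, 0 ≤ ∫ z, (pn m k n x z - pn m k (n + 1) x z) *
      (pn m k n x z - pn m k (n + 1) x z) ∂m := fun n x => integral_nonneg fun z => mul_self_nonneg _
  have step : ∀ n, aa m k o (n + 1) ≤ r ^ 2 * aa m k o n := fun n => by
    rcases (aa_nonneg h hm n).eq_or_lt with e | e
    · have := (hb n o).trans (bb_le h hm n o)
      rw [← e] at this ⊢
      linarith
    · exact (not_le.1 fun e' => hc ⟨n, e, e'⟩).le
  have geo : ∀ n, aa m k o n ≤ aa m k o 0 * (r ^ n) ^ 2 := fun n => by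
    induction n with
    | zero => simp
    | succ n ih =>
      refine (step n).trans ((mul_le_mul_of_nonneg_left ih (sq_nonneg r)).trans (le_of_eq ?_))
      ring
  set C := Real.sqrt (aa m k o 0 * pn m k 1 o o) with hC
  have hq : 0 ≤ pn m k 1 o o := h.p_nonneg _ _ _
  have hd : ∀ y n, dist (pn m k (n + 1) o y) (pn m k (n + 1 + 1) o y) ≤ C * r ^ n := fun y n => by
    have c1 := cs (m := m) (u := fun z => pn m k n o z - pn m k (n + 1) o z) (v := pn m k 0 y)
      (int2 h _ _ _ _ ((pc h n o).sub (pc h _ o))) (int2 h _ _ _ _ (pc h 0 y))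
      (h.p_int_mul 0 (pc h 0 y) y)
    rw [ip2 h, ip h, diag h hm _ y] at c1
    have c2 : ∫ z, (pn m k n o z - pn m k (n + 1) o z) * (pn m k n o z - pn m k (n + 1) o z) ∂m ≤
        aa m k o 0 * (r ^ n) ^ 2 := by
      linarith [bb_le h hm n o, aa_nonneg h hm (n + 1), geo n]
    rw [Real.dist_eq]
    refine abs_le_of_sq_le_sq' ?_ (by positivity) |> abs_le.2
    rw [mul_pow, hC, Real.sq_sqrt (mul_nonneg (aa_nonneg h hm 0) hq)]
    refine c1.trans ((mul_le_mul_of_nonneg_right c2 hq).trans (le_of_eq ?_))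
    ring
  have hl : ∀ y, ∃ c, Tendsto (fun n => pn m k (n + 1) o y) atTop (𝓝 c) := fun y =>
    cauchySeq_tendsto_of_complete (cauchySeq_of_le_geometric r C h1 (hd y))
  choose u hu using hl
  have hdu : ∀ y n, |pn m k (n + 1) o y - u y| ≤ C * r ^ n / (1 - r) := fun y n =>
    dist_le_of_le_geometric_of_tendsto r C h1 (hd y) (hu y) n
  obtain ⟨M, hM⟩ := p_bdd h (o := o)
  obtain ⟨L, -, hL⟩ := h.P_lip hm
  obtain ⟨uc, ul⟩ := h.P_lim (l := atTop) (f := fun n => pn m k (n + 1) o) (g := u) (L := L * M)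
    (fun n x y e => by
      rw [← P_p h, ← P_p h]
      exact hL _ (pc h n o) x y 0 M e fun z _ => by simpa using hM n z) hu
  have uh : Pk m k u = u := funext fun x => by
    have := ul x
    simp only [P_p h] at this
    exact tendsto_nhds_unique this ((hu x).comp (tendsto_add_atTop_nat 1))
  have ub : ∀ z, |u z| ≤ M := fun z =>
    le_of_tendsto' (hu z).abs fun n => hM _ z
  have small : ∀ n y, |pn m k (n + 1) o y| ≤ 2 * (C * r ^ n / (1 - r)) := fun n y => by
    obtain ⟨x, hx⟩ := hm.unb (6 * ((n + 1 : ℕ) + 1 : ℝ))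
    have e1 := hdu x n
    rw [h.p_supp (n + 1) hx, h.liouville hm uc uh ub x y] at e1
    have e2 := hdu y n
    rw [abs_le] at e1 e2 ⊢
    constructor <;> linarith [e1.1, e1.2, e2.1, e2.2]
  obtain ⟨C', d, hg⟩ := hm.grow
  have one : ∀ n : ℕ, (1 : ℝ) ≤ 2 * (C * r ^ n / (1 - r)) * (C' * ((6 * (n + 2) : ℕ) + 1) ^ d) :=
    fun n => by
    have e1 : ∫ z in closedBall o ((6 * (n + 2) : ℕ) : ℝ), pn m k (n + 1) o z ∂m = 1 := by
      rw [setIntegral_eq_integral_of_forall_compl_eq_zero, h.p_int]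
      intro z hz
      rw [mem_closedBall, dist_comm] at hz
      refine h.p_supp _ ?_
      push_cast at hz ⊢
      linarith [not_le.1 hz]
    have e2 := norm_setIntegral_le_of_norm_le_const (μ := m)
      (s := closedBall o ((6 * (n + 2) : ℕ) : ℝ)) (f := pn m k (n + 1) o)
      (isCompact_closedBall _ _).measure_lt_top fun z _ => small n z
    rw [e1, norm_one] at e2
    exact e2.trans (mul_le_mul_of_nonneg_left (hg _) ((abs_nonneg _).trans (small n o)))
  have lim : Tendsto (fun n : ℕ => 2 * (C / (1 - r)) * |C'| * 19 ^ d * ((n : ℝ) ^ d * r ^ n))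
      atTop (𝓝 (2 * (C / (1 - r)) * |C'| * 19 ^ d * 0)) :=
    (tendsto_pow_const_mul_const_pow_of_abs_lt_one d (by rwa [abs_of_nonneg h0])).const_mul _
  rw [mul_zero] at lim
  have hC0 : 0 ≤ C := Real.sqrt_nonneg _
  have h1' : 0 < 1 - r := by linarith
  refine absurd (ge_of_tendsto lim ((eventually_ge_atTop 1).mono fun n hn => (one n).trans ?_))
    (by norm_num)
  have hn' : (1 : ℝ) ≤ n := by exact_mod_cast hn
  have e3 : (((6 * (n + 2) : ℕ) : ℝ) + 1) ^ d ≤ (19 * n) ^ d :=
    pow_le_pow_left₀ (by positivity) (by push_cast; linarith) d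
  have e4 : C' * (((6 * (n + 2) : ℕ) : ℝ) + 1) ^ d ≤ |C'| * (19 * n) ^ d :=
    mul_le_mul (le_abs_self _) e3 (by positivity) (abs_nonneg _)
  refine (mul_le_mul_of_nonneg_left e4 (by positivity)).trans (le_of_eq ?_)
  rw [mul_pow]
  ring

theorem approx0 (hm : Hmg m o) {δ : ℝ} (h0 : 0 < δ) (h1 : δ ≤ 1) :
    ∃ (F : Q → ℝ) (y : Q), Continuous F ∧ dist o y ≤ 6 ∧ F y - F o = 1 ∧
      (∀ x x', dist x x' ≤ 6 → |F x - F x'| ≤ 1) ∧ ∀ x, |F x - Pk m k F x| ≤ δ := by
  have hδ : 0 ≤ 1 - δ ^ 2 := by nlinarith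
  obtain ⟨n, a0, a1⟩ := slow h hm (Real.sqrt_nonneg (1 - δ ^ 2))
    ((Real.sqrt_lt' one_pos).2 (by nlinarith))
  rw [Real.sq_sqrt hδ] at a1
  obtain ⟨y, hy, hmin⟩ := (isCompact_closedBall o 6).exists_isMinOn
    ⟨o, mem_closedBall_self (by norm_num)⟩ (pc h (n + n + 1) o).continuousOn
  set s := 2 * (pn m k (n + n + 1) o o - pn m k (n + n + 1) o y) with hs
  have near : ∀ x x', dist x x' ≤ 6 → pn m k (n + n + 1) o y ≤ pn m k (n + n + 1) x x' := by
    intro x x' e
    obtain ⟨g, hg⟩ := hm.trans x o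
    rw [← h.p_inv hm _ g x x', hg]
    refine hmin ?_
    show dist (g x') o ≤ 6
    rw [← hg, g.dist_eq, dist_comm]
    exact e
  have as : 2 * aa m k o n ≤ s := by
    have := h.P_le (pc h (n + n + 1) o) (x := o) (c := pn m k (n + n + 1) o o) (M := s / 2)
      fun z e => abs_le.2 ⟨by linarith [near o z e], by
        linarith [le_diag h hm n o z, le_diag h hm n o y]⟩
    rw [P_p h] at this
    have := (abs_le.1 this).1
    unfold aa
    linarith
  have s0 : 0 < s := by linarith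
  have cv : Continuous fun z => pn m k n y z - pn m k n o z := (pc h n y).sub (pc h n o)
  have vv : ∫ z, (pn m k n y z - pn m k n o z) * (pn m k n y z - pn m k n o z) ∂m = s := by
    rw [ip4 h, diag h hm _ y, h.p_symm _ y o, hs]
    ring
  have cF : Continuous fun x => pn m k (n + n + 1) y x - pn m k (n + n + 1) o x :=
    (pc h _ y).sub (pc h _ o)
  refine ⟨fun x => (pn m k (n + n + 1) y x - pn m k (n + n + 1) o x) / s, y, cF.div_const s,
    by rwa [mem_closedBall, dist_comm] at hy, ?_, fun x x' e => ?_, fun x => ?_⟩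
  · rw [← sub_div, div_eq_one_iff_eq s0.ne', diag h hm _ y, h.p_symm _ y o, hs]
    ring
  · have c1 := cs (m := m) (u := fun z => pn m k n y z - pn m k n o z)
      (v := fun z => pn m k n x z - pn m k n x' z) (int2 h _ _ _ _ cv)
      (int2 h _ _ _ _ ((pc h n x).sub (pc h n x'))) (int2 h _ _ _ _ ((pc h n x).sub (pc h n x')))
    rw [vv, ip4 h, ip4 h, diag h hm _ x, diag h hm _ x', h.p_symm _ x' x] at c1
    rw [← sub_div, abs_div, abs_of_pos s0, div_le_one s0]
    refine abs_le.2 (abs_le_of_sq_le_sq' (c1.trans ?_) s0.le)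
    rw [sq]
    exact mul_le_mul_of_nonneg_left (by linarith [near x x' e]) s0.le
  · have eP : Pk m k (fun x => (pn m k (n + n + 1) y x - pn m k (n + n + 1) o x) / s) x =
        (pn m k (n + n + 2) y x - pn m k (n + n + 2) o x) / s := by
      rw [← P_p h (n + n + 1) y x, ← P_p h (n + n + 1) o x, ← P_sub h (pc h _ y) (pc h _ o)]
      unfold Pk
      rw [← integral_div]
      simp only [mul_div_assoc]
    have cw : Continuous fun z => pn m k n x z - pn m k (n + 1) x z := (pc h n x).sub (pc h _ x)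
    have c1 := cs (m := m) (u := fun z => pn m k n y z - pn m k n o z)
      (v := fun z => pn m k n x z - pn m k (n + 1) x z) (int2 h _ _ _ _ cv)
      (int2 h _ _ _ _ cw) (int2 h _ _ _ _ cw)
    rw [vv, ip4 h, show n + (n + 1) + 1 = n + n + 2 by ring] at c1
    rw [eP, ← sub_div, abs_div, abs_of_pos s0, div_le_iff₀ s0]
    refine abs_le.2 (abs_le_of_sq_le_sq' (c1.trans ?_) (by positivity))
    have b1 := bb_le h hm n x
    have b2 : δ ^ 2 * (2 * aa m k o n) ≤ δ ^ 2 * s := mul_le_mul_of_nonneg_left as (sq_nonneg δ)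
    have b3 : 0 ≤ δ ^ 2 * aa m k o n := by positivity
    rw [show (δ * s) ^ 2 = s * (δ ^ 2 * s) by ring]
    exact mul_le_mul_of_nonneg_left (by nlinarith) s0.le

theorem approx (hm : Hmg m o) : ∃ L : ℝ, ∀ δ : ℝ, 0 < δ → δ ≤ 1 →
    ∃ (g : Q → ℝ) (y : Q), dist o y ≤ 6 ∧ g o = 0 ∧ 1 - 2 * δ ≤ g y ∧
      (∀ x x', dist x x' ≤ 1 → |g x - g x'| ≤ L * dist x x') ∧
      (∀ x x', dist x x' ≤ 2 → |g x - g x'| ≤ 3) ∧ ∀ x, |Pk m k g x - g x| ≤ δ := by
  obtain ⟨L, -, hL⟩ := h.P_lip hm
  obtain ⟨M, hM⟩ := hm.chain 7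
  refine ⟨L * (M * 1), fun δ h0 h1 => ?_⟩
  obtain ⟨F, y, cF, hy, e1, e2, e3⟩ := approx0 h hm h0 h1
  refine ⟨fun x => Pk m k F x - Pk m k F o, y, hy, sub_self _, ?_, fun x x' e => ?_,
    fun x x' e => ?_, fun x => ?_⟩
  · linarith [abs_le.1 (e3 y), abs_le.1 (e3 o)]
  · rw [sub_sub_sub_cancel_right]
    refine hL F cF x x' (F x) _ e fun z hz => ?_
    rw [abs_sub_comm]
    exact reach_le (fun a b e => e2 a b (by linarith)) (hM x z hz)
  · rw [sub_sub_sub_cancel_right, abs_le]
    constructor <;>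
      linarith [abs_le.1 (e3 x), abs_le.1 (e3 x'), abs_le.1 (e2 x x' (by linarith))]
  · rw [h.P_sub_const (h.P_cont cF), sub_sub_sub_cancel_right, ← P_sub h (h.P_cont cF) cF]
    have := h.P_le (f := fun z => Pk m k F z - F z) ((h.P_cont cF).sub cF) (x := x) (c := 0)
      (M := δ) fun z _ => by
      rw [sub_zero, abs_sub_comm]
      exact e3 z
    rwa [sub_zero] at this

end ZHarmX

theorem Ker.exists_harmonic (h : Ker m k) (hm : Hmg m o) : ∃ f, IsLH m k o f ∧ f ≠ 0 := by
  obtain ⟨L, hL⟩ := ZHarmX.approx h hm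
  have hδ : ∀ j : ℕ, 0 < 1 / ((j : ℝ) + 1) ∧ 1 / ((j : ℝ) + 1) ≤ 1 := fun j =>
    ⟨Nat.one_div_pos_of_nat, (div_le_one (by positivity)).2 (by linarith [Nat.cast_nonneg (α := ℝ) j])⟩
  choose g y hy g0 g1 g2 g3 g4 using fun j : ℕ => hL _ (hδ j).1 (hδ j).2
  have hU : ((hyperfilter ℕ : Ultrafilter ℕ) : Filter ℕ) ≤ atTop := Nat.hyperfilter_le_atTop
  have t0 : Tendsto (fun j : ℕ => 1 / ((j : ℝ) + 1)) (hyperfilter ℕ) (𝓝 0) :=
    tendsto_one_div_add_atTop_nhds_zero_nat.mono_left hU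
  have ex : ∀ x, ∃ c, Tendsto (fun j => g j x) (hyperfilter ℕ) (𝓝 c) := fun x => by
    obtain ⟨M, hM⟩ := hm.chain (dist x o)
    obtain ⟨c, -, hc⟩ := (isCompact_Icc (a := -((M : ℝ) * 3)) (b := (M : ℝ) * 3)).ultrafilter_le_nhds
      ((hyperfilter ℕ).map fun j => g j x) (le_principal_iff.2 (by
        rw [Ultrafilter.coe_map, mem_map]
        refine univ_mem' fun j => ?_
        have := reach_le (g3 j) (hM x o le_rfl)
        rw [g0 j, sub_zero] at this
        exact abs_le.1 this))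
    exact ⟨c, hc⟩
  choose G hG using ex
  obtain ⟨cG, lG⟩ := h.P_lim g2 hG
  obtain ⟨y0, -, hy0⟩ := (isCompact_closedBall o 6).ultrafilter_le_nhds ((hyperfilter ℕ).map y)
    (le_principal_iff.2 (by
      rw [Ultrafilter.coe_map, mem_map]
      refine univ_mem' fun j => ?_
      show dist (y j) o ≤ 6
      rw [dist_comm]
      exact hy j))
  have ty : Tendsto (fun j => dist (y j) y0) (hyperfilter ℕ) (𝓝 0) :=
    tendsto_iff_dist_tendsto_zero.1 hy0
  refine ⟨G, ⟨?_, cG, funext fun x => ?_, 3, fun x x' e => ?_⟩, fun e => ?_⟩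
  · have := hG o
    simp only [g0] at this
    exact tendsto_nhds_unique this tendsto_const_nhds
  · have : |Pk m k G x - G x| ≤ 0 :=
      le_of_tendsto_of_tendsto' ((lG x).sub (hG x)).abs t0 fun j => g4 j x
    exact sub_eq_zero.1 (abs_nonpos_iff.1 this)
  · exact le_of_tendsto' ((hG x).sub (hG x')).abs fun j => g3 j x x' e
  · have t1 : Tendsto (fun j : ℕ => 1 - 2 * (1 / ((j : ℝ) + 1)) - L * dist (y j) y0)
        (hyperfilter ℕ) (𝓝 (1 - 2 * 0 - L * 0)) :=
      (tendsto_const_nhds.sub (t0.const_mul 2)).sub (ty.const_mul L)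
    have := le_of_tendsto_of_tendsto t1 (hG y0)
      ((ty.eventually (ge_mem_nhds one_pos)).mono fun j hj => by
        linarith [g1 j, abs_le.1 (g2 j (y j) y0 hj)])
    rw [e] at this
    norm_num at this

end Pool.Agent.P.MP_5c499f_an.Cw
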