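import Pool.Agent.P.MP_5c499f_an.ZDefs

/-! The kernel and the growth bound. TASK ANOS6-KER. -/

set_option autoImplicit false

namespace Pool.Agent.P.MP_5c499f_an.Cw

open MeasureTheory Metric Filter Topology

variable {Q : Type*} [MetricSpace Q] [ProperSpace Q] [MeasurableSpace Q] [BorelSpace Q]
  {m : Measure Q} [IsFiniteMeasureOnCompacts m] [m.IsOpenPosMeasure] {k : Q → Q → ℝ} {o : Q}

namespace ZKerX

/-- The tent function of radius three. -/
noncomputable def b {Q : Type*} [MetricSpace Q] (x y : Q) : ℝ := max (3 - dist x y) 0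

section basic

omit [ProperSpace Q] [MeasurableSpace Q] [BorelSpace Q]

lemma b_nonneg (x y : Q) : 0 ≤ b x y := le_max_right _ _

lemma b_symm (x y : Q) : b x y = b y x := by rw [b, b, dist_comm]

lemma b_zero {x y : Q} (h : 3 ≤ dist x y) : b x y = 0 := max_eq_right (by linarith)

lemma b_lt {x y : Q} (h : b x y ≠ 0) : dist x y < 3 := by
  by_contra h'
  exact h (b_zero (not_lt.1 h'))

lemma b_inv (g : Q ≃ᵢ Q) (x y : Q) : b (g x) (g y) = b x y := by rw [b, b, g.dist_eq]

lemma b_lip (x y z : Q) : |b x z - b y z| ≤ dist x y := by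
  refine (abs_max_sub_max_le_abs _ _ _).trans ?_
  rw [show 3 - dist x z - (3 - dist y z) = -(dist x z - dist y z) by ring, abs_neg]
  exact abs_dist_sub_le x y z

lemma b_cont {X : Type*} [TopologicalSpace X] {f g : X → Q} (hf : Continuous f)
    (hg : Continuous g) : Continuous fun x => b (f x) (g x) :=
  (continuous_const.sub (hf.dist hg)).max continuous_const

end basic

omit [MeasurableSpace Q] [BorelSpace Q] in
lemma b_cs (x : Q) : HasCompactSupport (b x) :=
  HasCompactSupport.intro (isCompact_closedBall x 3) fun y hy => by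
    rw [mem_closedBall, not_le, dist_comm] at hy
    exact b_zero hy.le

omit [m.IsOpenPosMeasure] in
lemma b_int (x : Q) {u : Q → ℝ} (hu : Continuous u) : Integrable (fun y => b x y * u y) m :=
  ((b_cont continuous_const continuous_id).mul hu).integrable_of_hasCompactSupport
    (b_cs x).mul_right

omit [m.IsOpenPosMeasure] in
lemma conv_lip {u : Q → ℝ} (hu : Continuous u) (hc : HasCompactSupport u) (x y : Q) :
    |∫ z, b x z * u z ∂m - ∫ z, b y z * u z ∂m| ≤ (∫ z, |u z| ∂m) * dist x y := by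
  rw [← integral_sub (b_int x hu) (b_int y hu), ← integral_mul_const]
  refine abs_integral_le_integral_abs.trans (integral_mono ((b_int x hu).sub (b_int y hu)).abs
    ((hu.integrable_of_hasCompactSupport hc).abs.mul_const _) fun z => ?_)
  show |b x z * u z - b y z * u z| ≤ |u z| * dist x y
  rw [← sub_mul, abs_mul, mul_comm]
  exact mul_le_mul_of_nonneg_left (b_lip x y z) (abs_nonneg _)

omit [m.IsOpenPosMeasure] in
lemma conv_cont {u : Q → ℝ} (hu : Continuous u) (hc : HasCompactSupport u) :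
    Continuous fun x => ∫ z, b x z * u z ∂m := by
  refine (LipschitzWith.of_dist_le_mul (K := Real.toNNReal (∫ z, |u z| ∂m)) fun x y => ?_).continuous
  rw [Real.coe_toNNReal _ (integral_nonneg fun z => abs_nonneg _), Real.dist_eq]
  exact conv_lip hu hc x y

omit [m.IsOpenPosMeasure] in
lemma swap {F : Q → Q → ℝ} (hF : Continuous (Function.uncurry F)) (o : Q) (R : ℝ)
    (h : ∀ x y, F x y ≠ 0 → dist x o ≤ R ∧ dist y o ≤ R) :
    ∫ x, ∫ y, F x y ∂m ∂m = ∫ y, ∫ x, F x y ∂m ∂m := by
  refine integral_integral_swap_of_hasCompactSupport hF ?_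
  refine HasCompactSupport.intro ((isCompact_closedBall o R).prod (isCompact_closedBall o R))
    fun p hp => ?_
  by_contra h'
  exact hp ⟨(h p.1 p.2 h').1, (h p.1 p.2 h').2⟩

omit [ProperSpace Q] [IsFiniteMeasureOnCompacts m] [m.IsOpenPosMeasure] in
lemma int_inv {g : Q ≃ᵢ Q} (hg : MeasurePreserving g m m) (f : Q → ℝ) :
    ∫ x, f (g x) ∂m = ∫ x, f x ∂m :=
  hg.integral_comp g.toHomeomorph.measurableEmbedding f

omit [ProperSpace Q] [IsFiniteMeasureOnCompacts m] [m.IsOpenPosMeasure] in
lemma ball_inv {g : Q ≃ᵢ Q} (hg : MeasurePreserving g m m) (x : Q) (r : ℝ) :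
    m.real (closedBall (g x) r) = m.real (closedBall x r) := by
  rw [← hg.measureReal_preimage measurableSet_closedBall.nullMeasurableSet]
  congr 1
  ext y
  simp

omit [ProperSpace Q] [IsFiniteMeasureOnCompacts m] [m.IsOpenPosMeasure] in
lemma Z_eq (hm : Hmg m o) (x : Q) : ∫ y, b x y ∂m = ∫ y, b o y ∂m := by
  obtain ⟨g, rfl⟩ := hm.trans o x
  rw [← int_inv (hm.inv g)]
  simp only [b_inv]

lemma Z_pos (o : Q) : 0 < ∫ y, b o y ∂m :=
  (b_cont continuous_const continuous_id).integral_pos_of_hasCompactSupport_nonneg_nonzero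
    (x := o) (b_cs o) (b_nonneg o) (by simp [b])

/-- The unnormalised kernel. -/
noncomputable def K {Q : Type*} [MetricSpace Q] [MeasurableSpace Q] (m : Measure Q) (x y : Q) : ℝ :=
  ∫ z, b x z * b y z ∂m

omit [ProperSpace Q] [BorelSpace Q] [IsFiniteMeasureOnCompacts m] [m.IsOpenPosMeasure] in
lemma K_symm (x y : Q) : K m x y = K m y x := by simp only [K, mul_comm]

omit [m.IsOpenPosMeasure] in
lemma K_lip (hm : Hmg m o) (x y z : Q) :
    |K m x z - K m y z| ≤ (∫ y, b o y ∂m) * dist x y := by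
  have := conv_lip (m := m) (b_cont continuous_const continuous_id) (b_cs z) x y
  simp only [id, abs_of_nonneg (b_nonneg _ _), Z_eq hm] at this
  exact this

lemma K_cont (hm : Hmg m o) : Continuous (Function.uncurry (K m)) := by
  have hZ := (Z_pos (m := m) o).le
  refine (LipschitzWith.of_dist_le_mul (K := Real.toNNReal (2 * ∫ y, b o y ∂m))
    fun p q => ?_).continuous
  rw [Real.coe_toNNReal _ (by positivity), Real.dist_eq]
  have h1 := K_lip hm p.1 q.1 p.2
  have h2 := K_lip hm p.2 q.2 q.1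
  rw [K_symm p.2, K_symm q.2] at h2
  have h3 := abs_sub_le (K m p.1 p.2) (K m q.1 p.2) (K m q.1 q.2)
  have h4 : dist p.1 q.1 ≤ dist p q := by rw [Prod.dist_eq]; exact le_max_left _ _
  have h5 : dist p.2 q.2 ≤ dist p q := by rw [Prod.dist_eq]; exact le_max_right _ _
  have h6 := mul_le_mul_of_nonneg_left h4 hZ
  have h7 := mul_le_mul_of_nonneg_left h5 hZ
  show |K m p.1 p.2 - K m q.1 q.2| ≤ _
  linarith

omit [m.IsOpenPosMeasure] in
lemma K_conv {f : Q → ℝ} (hf : Continuous f) (x : Q) :
    ∫ y, K m x y * f y ∂m = ∫ z, b x z * ∫ y, b z y * f y ∂m ∂m := by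
  simp only [K, ← integral_mul_const, ← integral_const_mul]
  rw [swap (F := fun y z => b x z * b y z * f y) ?_ x 6 ?_]
  · simp only [mul_assoc, b_symm (Q := Q) _ _]
  · exact ((b_cont continuous_const continuous_snd).mul
      (b_cont continuous_fst continuous_snd)).mul (hf.comp continuous_fst)
  · intro y z h
    have h1 := b_lt (left_ne_zero_of_mul (left_ne_zero_of_mul h))
    have h2 := b_lt (right_ne_zero_of_mul (left_ne_zero_of_mul h))
    have h3 := dist_triangle y z x
    rw [dist_comm x z] at h1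
    constructor <;> linarith

omit [m.IsOpenPosMeasure] in
lemma K_int (hm : Hmg m o) (x : Q) : ∫ y, K m x y ∂m = (∫ y, b o y ∂m) ^ 2 := by
  have := K_conv (m := m) (f := fun _ => 1) continuous_const x
  simp only [mul_one, Z_eq hm, integral_mul_const] at this
  rw [this, sq]

omit [m.IsOpenPosMeasure] in
lemma K_psd {f : Q → ℝ} (hf : Continuous f) (hc : HasCompactSupport f) (o : Q) :
    0 ≤ ∫ x, f x * ∫ y, K m x y * f y ∂m ∂m := by
  obtain ⟨R, hR⟩ := hc.isCompact.isBounded.subset_closedBall o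
  have hh := conv_cont (m := m) hf hc
  simp only [K_conv hf]
  set h : Q → ℝ := fun z => ∫ y, b z y * f y ∂m with hdef
  have e : ∀ x, f x * ∫ z, b x z * h z ∂m = ∫ z, f x * (b x z * h z) ∂m := fun x =>
    (integral_const_mul _ _).symm
  show 0 ≤ ∫ x, f x * ∫ z, b x z * h z ∂m ∂m
  simp only [e]
  rw [swap (F := fun x z => f x * (b x z * h z)) ?_ o (R + 3) ?_]
  · refine integral_nonneg fun z => ?_
    have : ∫ x, f x * (b x z * h z) ∂m = h z * h z := by
      conv_rhs => rw [hdef]
      rw [← integral_mul_const]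
      refine integral_congr_ae (Eventually.of_forall fun x => ?_)
      simp only [b_symm z x]
      ring
    show 0 ≤ ∫ x, f x * (b x z * h z) ∂m
    rw [this]
    exact mul_self_nonneg _
  · exact (hf.comp continuous_fst).mul
      ((b_cont continuous_fst continuous_snd).mul (hh.comp continuous_snd))
  · intro x z hxz
    have h1 : dist x o ≤ R := hR (subset_tsupport f (left_ne_zero_of_mul hxz))
    have h2 := b_lt (left_ne_zero_of_mul (right_ne_zero_of_mul hxz))
    have h3 := dist_triangle z x o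
    rw [dist_comm z x] at h3
    constructor <;> linarith

omit [m.IsOpenPosMeasure] in
lemma K_low (hm : Hmg m o) {x y : Q} (h : dist x y ≤ 5 / 2) :
    m.real (closedBall o (1 / 4)) * (1 / 2) ≤ K m x y := by
  obtain ⟨g, rfl⟩ := hm.trans o x
  rw [← ball_inv (hm.inv g), ← smul_eq_mul, ← setIntegral_const,
    ← integral_indicator measurableSet_closedBall]
  refine integral_mono_of_nonneg (Eventually.of_forall fun z => ?_)
    (b_int _ (b_cont continuous_const continuous_id)) (Eventually.of_forall fun z => ?_)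
  · exact Set.indicator_nonneg (fun _ _ => by norm_num) z
  · by_cases hz : z ∈ closedBall (g o) (1 / 4)
    · rw [Set.indicator_of_mem hz]
      rw [mem_closedBall, dist_comm] at hz
      have h1 : (2 : ℝ) ≤ b (g o) z := le_max_of_le_left (by linarith)
      have h3 := dist_triangle y (g o) z
      rw [dist_comm y (g o)] at h3
      have h2 : (1 / 4 : ℝ) ≤ b y z := le_max_of_le_left (by linarith)
      show (1 / 2 : ℝ) ≤ b (g o) z * b y z
      nlinarith
    · rw [Set.indicator_of_notMem hz]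
      exact mul_nonneg (b_nonneg _ _) (b_nonneg _ _)

end ZKerX

open ZKerX in
theorem exists_ker (hm : Hmg m o) : ∃ k, Ker m k := by
  have hZ := Z_pos (m := m) o
  set Z := ∫ y, b o y ∂m with hZd
  refine ⟨fun x y => (Z ^ 2)⁻¹ * K m x y,
    (continuous_const (y := (Z ^ 2)⁻¹)).mul (K_cont hm), fun x y => ?_,
    fun x y => by rw [K_symm], fun x => ?_, fun x y h => ?_, ?_, fun g x y => ?_, ?_,
    fun f hf hc => ?_⟩
  · exact mul_nonneg (by positivity)
      (integral_nonneg fun z => mul_nonneg (b_nonneg _ _) (b_nonneg _ _))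
  · rw [integral_const_mul, K_int hm, inv_mul_cancel₀ (by positivity)]
  · have : K m x y = 0 := by
      refine integral_eq_zero_of_ae (Eventually.of_forall fun z => ?_)
      by_contra h'
      have h1 := b_lt (left_ne_zero_of_mul h')
      have h2 := b_lt (right_ne_zero_of_mul h')
      linarith [dist_triangle_right x y z]
    rw [this, mul_zero]
  · have hp : 0 < m.real (closedBall o (1 / 4)) :=
      ENNReal.toReal_pos (measure_closedBall_pos m o (by norm_num)).ne'
        measure_closedBall_lt_top.ne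
    exact ⟨(Z ^ 2)⁻¹ * (m.real (closedBall o (1 / 4)) * (1 / 2)), by positivity, fun x y h =>
      mul_le_mul_of_nonneg_left (K_low hm h) (by positivity)⟩
  · congr 1
    rw [K, ← int_inv (hm.inv g)]
    simp only [b_inv, K]
  · refine ⟨(Z ^ 2)⁻¹ * Z, fun x y z => ?_⟩
    rw [← mul_sub, abs_mul, abs_of_nonneg (by positivity : 0 ≤ (Z ^ 2)⁻¹), mul_assoc]
    exact mul_le_mul_of_nonneg_left (K_lip hm x y z) (by positivity)
  · have e : ∀ x, f x * ∫ y, (Z ^ 2)⁻¹ * K m x y * f y ∂m =
        (Z ^ 2)⁻¹ * (f x * ∫ y, K m x y * f y ∂m) := fun x => by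
      simp only [mul_assoc, integral_const_mul]
      ring
    simp only [e, integral_const_mul]
    exact mul_nonneg (by positivity) (K_psd hf hc o)

theorem grow_of_pack {Γ : Type*} [Group Γ] (φ : Γ →* (Q ≃ᵢ Q)) (hd : DenseRange fun g => φ g o)
    (hi : ∀ g : Q ≃ᵢ Q, MeasurePreserving g m m) {C₀ : ℝ} {C e : ℕ}
    (hp : ∀ (R : ℕ) (A : Finset Γ), (∀ a ∈ A, dist o (φ a o) ≤ R) →
      (∀ a ∈ A, ∀ b ∈ A, a ≠ b → C₀ < dist o (φ (a⁻¹ * b) o)) → A.card ≤ C * (R + 1) ^ e) :
    ∃ (C' : ℝ) (d : ℕ), ∀ n : ℕ, m.real (closedBall o n) ≤ C' * (n + 1) ^ d := by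
  classical
  have hdist : ∀ a b : Γ, dist o (φ (a⁻¹ * b) o) = dist (φ a o) (φ b o) := fun a b => by
    rw [← (φ a).dist_eq, ← IsometryEquiv.mul_apply, ← map_mul, mul_inv_cancel_left]
  simp only [hdist] at hp
  refine ⟨C * 2 ^ e * m.real (closedBall o (|C₀| + 1)), e, fun n => ?_⟩
  let P : ℕ → Prop := fun j => ∃ A : Finset Γ, (∀ a ∈ A, dist o (φ a o) ≤ (n + 1 : ℕ)) ∧
    (∀ a ∈ A, ∀ b ∈ A, a ≠ b → C₀ < dist (φ a o) (φ b o)) ∧ A.card = j
  have h0 : P 0 := ⟨∅, by simp, by simp, rfl⟩
  obtain ⟨A, hA1, hA2, hA3⟩ : P (Nat.findGreatest P (C * (n + 1 + 1) ^ e)) :=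
    Nat.findGreatest_spec (Nat.zero_le _) h0
  have hcov : closedBall o n ⊆ ⋃ a ∈ A, closedBall (φ a o) (|C₀| + 1) := by
    intro x hx
    obtain ⟨g, hg⟩ := hd.exists_dist_lt x one_pos
    rw [mem_closedBall] at hx
    by_contra hn
    simp only [Set.mem_iUnion, mem_closedBall, not_exists, not_le] at hn
    have hfar : ∀ a ∈ A, C₀ < dist (φ a o) (φ g o) := fun a ha => by
      have := hn a ha
      linarith [dist_triangle_right x (φ a o) (φ g o), le_abs_self C₀]
    have hgA : g ∉ A := fun h => by linarith [hn g h, abs_nonneg C₀]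
    have h1 : ∀ a ∈ insert g A, dist o (φ a o) ≤ (n + 1 : ℕ) := fun a ha => by
      rcases Finset.mem_insert.1 ha with rfl | ha
      · push_cast
        linarith [dist_triangle_left o (φ a o) x]
      · exact hA1 a ha
    have h2 : ∀ a ∈ insert g A, ∀ b ∈ insert g A, a ≠ b → C₀ < dist (φ a o) (φ b o) := by
      intro a ha b hb hab
      rcases Finset.mem_insert.1 ha with ha' | ha' <;> rcases Finset.mem_insert.1 hb with hb' | hb'
      · exact absurd (ha'.trans hb'.symm) hab
      · rw [ha', dist_comm]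
        exact hfar b hb'
      · rw [hb']
        exact hfar a ha'
      · exact hA2 a ha' b hb' hab
    have h3 := Nat.le_findGreatest (P := P) (hp (n + 1) _ h1 h2) ⟨_, h1, h2, rfl⟩
    rw [Finset.card_insert_of_notMem hgA] at h3
    omega
  have hfin : m (⋃ a ∈ A, closedBall (φ a o) (|C₀| + 1)) ≠ ⊤ :=
    (A.isCompact_biUnion fun a _ => isCompact_closedBall _ _).measure_lt_top.ne
  refine (measureReal_mono hcov hfin).trans ((measureReal_biUnion_finset_le _ _).trans ?_)
  simp only [ZKerX.ball_inv (hi _), Finset.sum_const, nsmul_eq_mul]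
  have h4 : (A.card : ℝ) ≤ C * 2 ^ e * (n + 1) ^ e := by
    have h5 : (A.card : ℝ) ≤ C * (n + 1 + 1) ^ e := by exact_mod_cast hp (n + 1) A hA1 hA2
    refine h5.trans ?_
    rw [mul_assoc, ← mul_pow]
    gcongr
    linarith [(Nat.cast_nonneg n : (0 : ℝ) ≤ n)]
  have h6 := mul_le_mul_of_nonneg_right h4
    (measureReal_nonneg (μ := m) (s := closedBall o (|C₀| + 1)))
  linarith

end Pool.Agent.P.MP_5c499f_an.Cw
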