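import Pool.Agent.P.MP_5c499f_an.ZDefs

/-! The invariant measure of a proper homogeneous space. TASK ANOS6-MEAS. -/

set_option autoImplicit false

namespace Pool.Agent.P.MP_5c499f_an.Cw

open MeasureTheory

namespace ZMeasX

open Metric Set Filter Topology TopologicalSpace
open scoped NNReal ENNReal

variable {Q : Type*} [MetricSpace Q]

/-- The least number of open balls of radius `e` covering a set. -/
noncomputable def N (K : Set Q) (e : ℝ) : ℕ :=
  sInf {n | ∃ s : Finset Q, s.card = n ∧ K ⊆ ⋃ x ∈ s, ball x e}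

lemma N_le {K : Set Q} {e : ℝ} (s : Finset Q) (h : K ⊆ ⋃ x ∈ s, ball x e) : N K e ≤ s.card :=
  Nat.sInf_le ⟨s, rfl, h⟩

lemma cover {K : Set Q} (hK : IsCompact K) {e : ℝ} (he : 0 < e) :
    ∃ s : Finset Q, K ⊆ ⋃ x ∈ s, ball x e := by
  obtain ⟨t, -, ht, h⟩ := finite_cover_balls_of_compact hK he
  exact ⟨ht.toFinset, by simpa using h⟩

lemma N_spec {K : Set Q} (hK : IsCompact K) {e : ℝ} (he : 0 < e) :
    ∃ s : Finset Q, s.card = N K e ∧ K ⊆ ⋃ x ∈ s, ball x e := by
  obtain ⟨s, hs⟩ := cover hK he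
  exact Nat.sInf_mem (s := {n | ∃ s : Finset Q, s.card = n ∧ K ⊆ ⋃ x ∈ s, ball x e})
    ⟨_, s, rfl, hs⟩

lemma N_mono {K K' : Set Q} (hK : IsCompact K') (h : K ⊆ K') {e : ℝ} (he : 0 < e) :
    N K e ≤ N K' e := by
  obtain ⟨s, hs, hc⟩ := N_spec hK he
  exact hs ▸ N_le s (h.trans hc)

lemma N_union_le {K K' : Set Q} (hK : IsCompact K) (hK' : IsCompact K') {e : ℝ} (he : 0 < e) :
    N (K ∪ K') e ≤ N K e + N K' e := by
  classical
  obtain ⟨s, hs, hc⟩ := N_spec hK he
  obtain ⟨s', hs', hc'⟩ := N_spec hK' he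
  refine (N_le (s ∪ s') ?_).trans (hs ▸ hs' ▸ Finset.card_union_le s s')
  rintro y (hy | hy)
  · obtain ⟨x, hx, hxy⟩ := mem_iUnion₂.1 (hc hy)
    exact mem_iUnion₂.2 ⟨x, Finset.mem_union_left _ hx, hxy⟩
  · obtain ⟨x, hx, hxy⟩ := mem_iUnion₂.1 (hc' hy)
    exact mem_iUnion₂.2 ⟨x, Finset.mem_union_right _ hx, hxy⟩

lemma N_union_ge {K K' : Set Q} (hK : IsCompact K) (hK' : IsCompact K') {e : ℝ} (he : 0 < e)
    (hd : ∀ x ∈ K, ∀ y ∈ K', 2 * e ≤ dist x y) : N K e + N K' e ≤ N (K ∪ K') e := by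
  classical
  obtain ⟨s, hs, hc⟩ := N_spec (hK.union hK') he
  rw [← hs, ← Finset.card_filter_add_card_filter_not (s := s) (fun x => ∃ y ∈ K, y ∈ ball x e)]
  refine add_le_add (N_le _ fun y hy => ?_) (N_le _ fun y hy => ?_)
  · obtain ⟨x, hx, hxy⟩ := mem_iUnion₂.1 (hc (Or.inl hy))
    exact mem_iUnion₂.2 ⟨x, Finset.mem_filter.2 ⟨hx, y, hy, hxy⟩, hxy⟩
  · obtain ⟨x, hx, hxy⟩ := mem_iUnion₂.1 (hc (Or.inr hy))
    refine mem_iUnion₂.2 ⟨x, Finset.mem_filter.2 ⟨hx, ?_⟩, hxy⟩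
    rintro ⟨z, hz, hzx⟩
    have := hd z hz y hy
    have h2 := dist_triangle_right z y x
    rw [mem_ball] at hzx hxy
    linarith

lemma N_image_le {K : Set Q} (hK : IsCompact K) (g : Q ≃ᵢ Q) {e : ℝ} (he : 0 < e) :
    N (g '' K) e ≤ N K e := by
  classical
  obtain ⟨s, hs, hc⟩ := N_spec hK he
  refine (N_le (s.image g) ?_).trans (hs ▸ Finset.card_image_le)
  rintro _ ⟨y, hy, rfl⟩
  obtain ⟨x, hx, hxy⟩ := mem_iUnion₂.1 (hc hy)
  refine mem_iUnion₂.2 ⟨g x, Finset.mem_image_of_mem _ hx, ?_⟩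
  rwa [mem_ball, g.dist_eq]

lemma N_image {K : Set Q} (hK : IsCompact K) (g : Q ≃ᵢ Q) {e : ℝ} (he : 0 < e) :
    N (g '' K) e = N K e := by
  refine le_antisymm (N_image_le hK g he) ?_
  have := N_image_le (hK.image g.continuous) g.symm he
  rwa [image_image, show (fun x => g.symm (g x)) = id from funext fun x => g.symm_apply_apply x,
    image_id] at this

lemma N_pos {K : Set Q} (hK : IsCompact K) (hne : K.Nonempty) {e : ℝ} (he : 0 < e) :
    1 ≤ N K e := by
  obtain ⟨s, hs, hc⟩ := N_spec hK he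
  obtain ⟨y, hy⟩ := hne
  obtain ⟨x, hx, -⟩ := mem_iUnion₂.1 (hc hy)
  exact hs ▸ Finset.card_pos.2 ⟨x, hx⟩

variable [ProperSpace Q]

lemma N_balls (h : ∀ x y : Q, ∃ g : Q ≃ᵢ Q, g x = y) (o : Q) (r : ℝ) {e : ℝ} (he : 0 < e)
    (t : Finset Q) : N (⋃ x ∈ t, closedBall x r) e ≤ t.card * N (closedBall o r) e := by
  classical
  induction t using Finset.induction_on with
  | empty => simpa using N_le (K := (∅ : Set Q)) (e := e) ∅ (empty_subset _)
  | insert a t ha ih =>
    rw [Finset.set_biUnion_insert, Finset.card_insert_of_notMem ha]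
    refine (N_union_le (isCompact_closedBall a r)
      (t.isCompact_biUnion fun x _ => isCompact_closedBall x r) he).trans ?_
    obtain ⟨g, rfl⟩ := h o a
    rw [← g.image_closedBall, N_image (isCompact_closedBall o r) g he]
    linarith

lemma N_bound (h : ∀ x y : Q, ∃ g : Q ≃ᵢ Q, g x = y) (o : Q) {r : ℝ} (hr : 0 < r) {K : Set Q}
    (hK : IsCompact K) : ∃ M : ℕ, ∀ e, 0 < e → N K e ≤ M * N (closedBall o r) e := by
  obtain ⟨t, ht⟩ := cover hK hr
  refine ⟨t.card, fun e he => le_trans (N_mono ?_ ?_ he) (N_balls h o r he t)⟩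
  · exact t.isCompact_biUnion fun x _ => isCompact_closedBall x r
  · exact ht.trans (iUnion₂_mono fun x _ => ball_subset_closedBall)

/-- The normalised covering numbers. -/
noncomputable def q (o : Q) (K : Set Q) (n : ℕ) : ℝ≥0 :=
  (N K (1 / (n + 1 : ℝ)) : ℝ≥0) / N (closedBall o 1) (1 / (n + 1 : ℝ))

lemma den_pos (o : Q) (n : ℕ) : (0 : ℝ≥0) < N (closedBall o 1) (1 / (n + 1 : ℝ)) := by
  have := N_pos (isCompact_closedBall o 1) ⟨o, mem_closedBall_self zero_le_one⟩
    (Nat.one_div_pos_of_nat (n := n) (α := ℝ))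
  exact_mod_cast this

lemma q_lim (h : ∀ x y : Q, ∃ g : Q ≃ᵢ Q, g x = y) (o : Q) (K : Compacts Q) :
    ∃ c : ℝ≥0, Tendsto (q o K) (hyperfilter ℕ) (𝓝 c) := by
  obtain ⟨M, hM⟩ := N_bound h o one_pos K.isCompact
  have hb : ∀ n, q o K n ∈ Icc (0 : ℝ≥0) M := fun n => by
    refine ⟨zero_le, ?_⟩
    rw [q, div_le_iff₀ (den_pos o n)]
    exact_mod_cast hM _ Nat.one_div_pos_of_nat
  obtain ⟨c, -, hc⟩ := (isCompact_Icc (a := (0 : ℝ≥0)) (b := M)).ultrafilter_le_nhds
    ((hyperfilter ℕ).map (q o K)) (by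
      rw [Ultrafilter.coe_map, le_principal_iff, mem_map]
      exact Eventually.of_forall hb)
  exact ⟨c, hc⟩

omit [ProperSpace Q] in
lemma sep {K K' : Set Q} (hK : IsCompact K) (hK' : IsCompact K') (hd : Disjoint K K') :
    ∀ᶠ n : ℕ in hyperfilter ℕ, ∀ x ∈ K, ∀ y ∈ K', 2 * (1 / (n + 1 : ℝ)) ≤ dist x y := by
  obtain ⟨d, hd0, hd⟩ := hd.exists_thickenings hK hK'.isClosed
  have h1 : ∀ᶠ n : ℕ in atTop, 1 / (n + 1 : ℝ) < d / 2 :=
    (tendsto_one_div_add_atTop_nhds_zero_nat (𝕜 := ℝ)).eventually (gt_mem_nhds (by linarith))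
  refine (h1.filter_mono Nat.hyperfilter_le_atTop).mono fun n hn x hx y hy => ?_
  by_contra hc
  refine disjoint_right.1 hd (self_subset_thickening hd0 _ hy) ?_
  rw [mem_thickening_iff]
  exact ⟨x, hx, by rw [dist_comm]; linarith [not_le.1 hc]⟩

/-- The invariant content. -/
noncomputable def content (h : ∀ x y : Q, ∃ g : Q ≃ᵢ Q, g x = y) (o : Q) : Content Q where
  toFun K := (q_lim h o K).choose
  mono' K K' hK := by
    refine le_of_tendsto_of_tendsto' (q_lim h o K).choose_spec (q_lim h o K').choose_spec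
      fun n => ?_
    refine div_le_div_of_nonneg_right ?_ zero_le
    exact_mod_cast N_mono K'.isCompact hK Nat.one_div_pos_of_nat
  sup_disjoint' K K' hd _ _ := by
    refine tendsto_nhds_unique (q_lim h o (K ⊔ K')).choose_spec
      (((q_lim h o K).choose_spec.add (q_lim h o K').choose_spec).congr' ?_)
    refine (sep K.isCompact K'.isCompact hd).mono fun n hn => ?_
    simp only [q, Compacts.coe_sup]
    rw [← add_div, ← Nat.cast_add,
      le_antisymm (N_union_le K.isCompact K'.isCompact Nat.one_div_pos_of_nat)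
        (N_union_ge K.isCompact K'.isCompact Nat.one_div_pos_of_nat hn)]
  sup_le' K K' := by
    refine le_of_tendsto_of_tendsto' (q_lim h o (K ⊔ K')).choose_spec
      ((q_lim h o K).choose_spec.add (q_lim h o K').choose_spec) fun n => ?_
    simp only [q, Compacts.coe_sup]
    rw [← add_div]
    refine div_le_div_of_nonneg_right ?_ zero_le
    exact_mod_cast N_union_le K.isCompact K'.isCompact Nat.one_div_pos_of_nat

lemma content_inv (h : ∀ x y : Q, ∃ g : Q ≃ᵢ Q, g x = y) (o : Q) (g : Q ≃ᵢ Q) (K : Compacts Q) :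
    content h o (K.map g.toHomeomorph g.toHomeomorph.continuous) = content h o K := by
  have : (content h o).toFun (K.map g.toHomeomorph g.toHomeomorph.continuous) =
      (content h o).toFun K := by
    refine tendsto_nhds_unique (q_lim h o _).choose_spec
      ((q_lim h o K).choose_spec.congr fun n => ?_)
    simp only [q, Compacts.coe_map, IsometryEquiv.coe_toHomeomorph]
    rw [N_image K.isCompact g Nat.one_div_pos_of_nat]
  exact congrArg (fun x : ℝ≥0 => (x : ℝ≥0∞)) this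

lemma content_pos (h : ∀ x y : Q, ∃ g : Q ≃ᵢ Q, g x = y) (o x : Q) {r : ℝ} (hr : 0 < r) :
    content h o ⟨closedBall x r, isCompact_closedBall x r⟩ ≠ 0 := by
  obtain ⟨M, hM⟩ := N_bound h x hr (isCompact_closedBall o 1)
  have h1 : (1 : ℝ≥0) ≤ M * (content h o).toFun ⟨closedBall x r, isCompact_closedBall x r⟩ := by
    refine ge_of_tendsto' ((q_lim h o _).choose_spec.const_mul (M : ℝ≥0)) fun n => ?_
    simp only [q, Compacts.coe_mk]
    rw [← mul_div_assoc, le_div_iff₀ (den_pos o n), one_mul]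
    exact_mod_cast hM _ Nat.one_div_pos_of_nat
  intro h0
  have h2 : (content h o).toFun ⟨closedBall x r, isCompact_closedBall x r⟩ = 0 :=
    ENNReal.coe_eq_zero.1 h0
  rw [h2, mul_zero] at h1
  exact absurd h1 (by simp)

end ZMeasX

open ZMeasX in
theorem exists_measure {Q : Type*} [MetricSpace Q] [ProperSpace Q] [MeasurableSpace Q]
    [BorelSpace Q] (h : ∀ x y : Q, ∃ g : Q ≃ᵢ Q, g x = y) :
    ∃ m : Measure Q, IsFiniteMeasureOnCompacts m ∧ m.IsOpenPosMeasure ∧
      ∀ g : Q ≃ᵢ Q, MeasurePreserving g m m := by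
  rcases isEmpty_or_nonempty Q with hQ | ⟨⟨o⟩⟩
  · refine ⟨0, inferInstance, ⟨fun U _ hU => (hU.elim fun x _ => hQ.elim x)⟩, fun g => ?_⟩
    exact ⟨g.continuous.measurable, by simp⟩
  refine ⟨(content h o).measure, inferInstance, ⟨fun U hU hne => ?_⟩, fun g => ?_⟩
  · obtain ⟨x, hx⟩ := hne
    obtain ⟨r, hr, hrU⟩ := Metric.nhds_basis_closedBall.mem_iff.1 (hU.mem_nhds hx)
    rw [Content.measure_apply _ hU.measurableSet]
    intro h0
    refine content_pos h o x hr (le_antisymm ?_ zero_le)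
    refine ((content h o).le_outerMeasure_compacts _).trans ?_
    rw [← h0]
    exact (content h o).outerMeasure.mono hrU
  · refine ⟨g.continuous.measurable, Measure.ext fun s hs => ?_⟩
    rw [Measure.map_apply g.continuous.measurable hs,
      Content.measure_apply _ (g.continuous.measurable hs), Content.measure_apply _ hs]
    exact (content h o).outerMeasure_preimage g.toHomeomorph (fun K => content_inv h o g K) s

end Pool.Agent.P.MP_5c499f_an.Cw
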