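import Pool.Agent.P.MP_5c499f_an.LDefs

/-! Polynomial packing for a similarity. TASK ANOS6-PACK. -/

set_option autoImplicit false

namespace Pool.Agent.P.MP_5c499f_an

theorem Br.pack {Γ : Type*} [Group Γ] {Φ : MulAut Γ} {c κ : ℕ} (h : Br Φ c κ) {δ : Γ → ℝ}
    (hδ : Len δ) {lam : ℝ} (hl : 1 < lam) (hs : ∀ g, δ (Φ g) = lam * δ g) :
    ∃ (C₀ : ℝ) (C e : ℕ), ∀ (R : ℕ) (A : Finset Γ), (∀ a ∈ A, δ a ≤ R) →
      (∀ a ∈ A, ∀ b ∈ A, a ≠ b → C₀ < δ (a⁻¹ * b)) → A.card ≤ C * (R + 1) ^ e := by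
  obtain ⟨B, C, hB, h⟩ := h
  have hl0 : 0 < lam := by linarith
  obtain ⟨b₀, hb₀⟩ := (hB.image δ).bddAbove
  obtain ⟨b, b0, hb⟩ : ∃ b : ℝ, 0 ≤ b ∧ ∀ x ∈ B, δ x ≤ b :=
    ⟨max b₀ 0, le_max_right _ _, fun x hx => (hb₀ ⟨x, hx, rfl⟩).trans (le_max_left _ _)⟩
  obtain ⟨D, D0, hD⟩ : ∃ D : ℝ, 0 ≤ D ∧ lam * D = D + b :=
    ⟨b / (lam - 1), div_nonneg b0 (by linarith), by
      have : lam - 1 ≠ 0 := by linarith
      field_simp
      ring⟩
  have hR : ∀ n, ∀ r ∈ Rs Φ B n, δ r ≤ D + b := fun n => by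
    induction n with
    | zero => exact fun r hr => (hb r hr).trans (by linarith)
    | succ n ih =>
      rintro _ ⟨r, hr, x, hx, rfl⟩
      have e1 := hs (Φ⁻¹ r)
      rw [MulAut.apply_inv_self] at e1
      have e2 : δ (Φ⁻¹ r) ≤ D := le_of_mul_le_mul_left (by linarith [ih r hr]) hl0
      linarith [hδ.mul (Φ⁻¹ r) x, hb x hx]
  have hP : ∀ n g, δ ((Φ ^ n) g) = lam ^ n * δ g := fun n => by
    induction n with
    | zero => simp
    | succ n ih => exact fun g => by rw [pow_succ, MulAut.mul_apply, ih, hs, pow_succ, mul_assoc]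
  obtain ⟨e, he⟩ := pow_unbounded_of_one_lt (κ : ℝ) hl
  refine ⟨2 + 2 * (D + b), ⌈(2 * lam * (2 * (D + b) + 1)) ^ e⌉₊, e, fun R A A1 A2 => ?_⟩
  obtain ⟨K, hK⟩ : ∃ K : ℝ, K = R + 2 * (D + b) + 1 := ⟨_, rfl⟩
  have R0 : (0 : ℝ) ≤ R := R.cast_nonneg
  have K1 : 1 ≤ K := by linarith
  obtain ⟨t, t1, t2⟩ := exists_nat_pow_near (show 1 ≤ 2 * K by linarith) hl
  have key : A.card ≤ κ ^ (t + 1) := by
    by_contra hn
    obtain ⟨T, hT⟩ := h _ A.finite_toSet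
    obtain ⟨l, hl'⟩ := exp_beats (not_le.1 hn) (C * κ ^ (2 * T)) (κ ^ (2 * c))
    let n : ℕ → ℕ := fun j => T + c * l + (t + 1) * (2 ^ l - j)
    have hn : ∀ j < 2 ^ l, ∀ x, δ x ≤ 2 * K * lam ^ n (j + 1) → δ x ≤ lam ^ n j :=
      fun j hj x hx => by
        have e1 : n j = t + 1 + n (j + 1) := by
          simp only [n]
          rw [show 2 ^ l - j = 2 ^ l - (j + 1) + 1 by omega]
          ring
        rw [e1, pow_add]
        exact hx.trans (mul_le_mul_of_nonneg_right t2.le (by positivity))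
    have := hT l (T + c * l + (t + 1) * 2 ^ l) (2 ^ l) n (fun _ => A)
      (fun j => {x | δ x ≤ 2 * K * lam ^ n j}) le_rfl
      (fun j hj => ⟨Nat.le_add_right _ _,
        Nat.add_le_add_left (Nat.mul_le_mul_left _ (Nat.sub_le _ _)) _, fun _ h => h⟩) ?_
      (fun j hj r hr σ hσ x hx => ?_) (fun j hj r hr σ hσ σ' hσ' x hx x' hx' e => ?_)
    · rw [Finset.prod_const, Finset.card_range] at this
      refine (this.trans_eq ?_).not_gt hl'
      ring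
    · show δ 1 ≤ _
      rw [hδ.one]
      positivity
    · show δ _ ≤ _
      have e1 := hn j hj x hx
      have e2 : δ (r * σ * r⁻¹) ≤ R + 2 * (D + b) := by
        linarith [hδ.mul (r * σ) r⁻¹, hδ.mul r σ, hδ.inv r, hR _ r hr, A1 σ hσ]
      have e3 := hδ.mul ((Φ ^ n j) (r * σ * r⁻¹)) x
      have e4 : 0 < lam ^ n j := by positivity
      rw [hP] at e3
      nlinarith [mul_le_mul_of_nonneg_left e2 e4.le]
    · by_contra hne
      have e1 := hn j hj x hx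
      have e2 := hn j hj x' hx'
      have e3 : (Φ ^ n j) (r * (σ⁻¹ * σ') * r⁻¹) = x * x'⁻¹ := by
        rw [show r * (σ⁻¹ * σ') * r⁻¹ = (r * σ * r⁻¹)⁻¹ * (r * σ' * r⁻¹) by group, map_mul,
          map_inv, eq_mul_inv_iff_mul_eq, mul_assoc, ← e, inv_mul_cancel_left]
      have e4 := hδ.mul x x'⁻¹
      rw [← e3, hP, hδ.inv] at e4
      have e5 : δ (r * (σ⁻¹ * σ') * r⁻¹) ≤ 2 :=
        le_of_mul_le_mul_left (by linarith) (show 0 < lam ^ n j by positivity)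
      have e6 := hδ.mul (r⁻¹ * (r * (σ⁻¹ * σ') * r⁻¹)) r
      rw [show r⁻¹ * (r * (σ⁻¹ * σ') * r⁻¹) * r = σ⁻¹ * σ' by group] at e6
      linarith [A2 σ hσ σ' hσ' hne, hδ.mul r⁻¹ (r * (σ⁻¹ * σ') * r⁻¹), hδ.inv r, hR _ r hr]
  have f1 : lam ^ (t + 1) ≤ 2 * lam * (2 * (D + b) + 1) * (R + 1) := by
    have : K ≤ (2 * (D + b) + 1) * (R + 1) := by nlinarith [mul_nonneg (add_nonneg D0 b0) R0]
    rw [pow_succ]
    nlinarith [mul_le_mul_of_nonneg_left t1 hl0.le, mul_le_mul_of_nonneg_left this hl0.le]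
  have f2 : ((κ ^ (t + 1) : ℕ) : ℝ) ≤ ⌈(2 * lam * (2 * (D + b) + 1)) ^ e⌉₊ * (R + 1) ^ e := by
    push_cast
    calc (κ : ℝ) ^ (t + 1) ≤ (lam ^ e) ^ (t + 1) := pow_le_pow_left₀ κ.cast_nonneg he.le _
      _ = (lam ^ (t + 1)) ^ e := by rw [← pow_mul, mul_comm, pow_mul]
      _ ≤ (2 * lam * (2 * (D + b) + 1) * (R + 1)) ^ e := pow_le_pow_left₀ (by positivity) f1 _
      _ ≤ _ := by
        rw [mul_pow]
        exact mul_le_mul_of_nonneg_right (Nat.le_ceil _) (by positivity)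
  exact key.trans (by exact_mod_cast f2)

end Pool.Agent.P.MP_5c499f_an
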