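import Pool.Agent.P.MP_5c499f_an.ZFin
import Pool.Agent.P.MP_5c499f_an.ZHarm
import Pool.Agent.P.MP_5c499f_an.ZKer

/-! Rigid groups do not act with a dense orbit. TASK ANOS6-REP. -/

set_option autoImplicit false

namespace Pool.Agent.P.MP_5c499f_an.Cw

open MeasureTheory Metric Filter Topology

variable {Q : Type*} [MetricSpace Q] [ProperSpace Q] [MeasurableSpace Q] [BorelSpace Q]
  {m : Measure Q} [IsFiniteMeasureOnCompacts m] [m.IsOpenPosMeasure] {k : Q → Q → ℝ} {o : Q}

namespace ZRepX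

/-- The space of coarsely Lipschitz harmonic functions. -/
def sp (h : Ker m k) (o : Q) : Submodule ℝ (Q → ℝ) where
  carrier := {f | IsLH m k o f}
  zero_mem' := ⟨rfl, continuous_const, funext fun x => by simp [Pk], 0, fun x y _ => by simp⟩
  add_mem' := by
    rintro f g ⟨f0, fc, fh, L, hL⟩ ⟨g0, gc, gh, L', hL'⟩
    refine ⟨by simp [f0, g0], fc.add gc, funext fun x => ?_, L + L', fun x y e => ?_⟩
    · have a := congrFun fh x
      have b := congrFun gh x
      simp only [Pk, Pi.add_apply, mul_add] at a b ⊢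
      rw [integral_add (h.int_mul fc x) (h.int_mul gc x), a, b]
    · have := abs_add_le (f x - f y) (g x - g y)
      have e2 : (f + g) x - (f + g) y = (f x - f y) + (g x - g y) := by
        simp only [Pi.add_apply]; ring
      rw [e2]
      linarith [hL x y e, hL' x y e]
  smul_mem' := by
    rintro c f ⟨f0, fc, fh, L, hL⟩
    refine ⟨by simp [f0], fc.const_smul c, funext fun x => ?_, |c| * L, fun x y e => ?_⟩
    · have a := congrFun fh x
      simp only [Pk, Pi.smul_apply, smul_eq_mul, mul_left_comm _ c] at a ⊢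
      rw [integral_const_mul, a]
    · simp only [Pi.smul_apply, smul_eq_mul]
      rw [← mul_sub, abs_mul]
      exact mul_le_mul_of_nonneg_left (hL x y e) (abs_nonneg c)

theorem act_mem (h : Ker m k) (hm : Hmg m o) (e : Q ≃ᵢ Q) {f : Q → ℝ} (hf : IsLH m k o f) :
    IsLH m k o fun x => f (e x) - f (e o) := by
  obtain ⟨-, fc, fh, L, hL⟩ := hf
  refine ⟨sub_self _, (fc.comp e.continuous).sub continuous_const, funext fun x => ?_, L,
    fun x y d => ?_⟩
  · rw [h.P_sub_const (f := fun z => f (e z)) (fc.comp e.continuous)]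
    have a := congrFun fh (e x)
    have b := (hm.inv e).integral_comp e.toHomeomorph.measurableEmbedding
      fun y => k (e x) y * f y
    simp only [h.inv] at b
    simp only [Pk] at a ⊢
    rw [b, a]
  · rw [sub_sub_sub_cancel_right]
    exact hL _ _ (by rw [e.dist_eq]; exact d)

/-- The representation on harmonic functions. -/
def rep (h : Ker m k) (hm : Hmg m o) {Γ : Type*} [Group Γ] (φ : Γ →* (Q ≃ᵢ Q)) :
    Γ →* Module.End ℝ (sp h o) where
  toFun g :=
    { toFun := fun f => ⟨fun x => f.1 (φ g⁻¹ x) - f.1 (φ g⁻¹ o), act_mem h hm _ f.2⟩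
      map_add' := fun f f' => Subtype.ext (funext fun x => by
        simp only [Submodule.coe_add, Pi.add_apply]; ring)
      map_smul' := fun c f => Subtype.ext (funext fun x => by
        simp only [Submodule.coe_smul, Pi.smul_apply, smul_eq_mul, RingHom.id_apply]; ring) }
  map_one' := LinearMap.ext fun f => Subtype.ext (funext fun x => by
    have : f.1 o = 0 := f.2.1
    simp [this])
  map_mul' g g' := LinearMap.ext fun f => Subtype.ext (funext fun x => by simp)

end ZRepX

theorem Hmg.not_rigid (hm : Hmg m o) {Γ : Type*} [Group Γ] (φ : Γ →* (Q ≃ᵢ Q))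
    (hd : DenseRange fun g => φ g o) : ¬Rigid Γ := by
  rintro ⟨h1, h2⟩
  obtain ⟨k, h⟩ := exists_ker hm
  obtain ⟨f, hf, f0⟩ := h.exists_harmonic hm
  have := h.fin_dim hm (ZRepX.sp h o) fun _ e => e
  let b := Module.finBasis ℝ (ZRepX.sp h o)
  let σ := (Complex.ofRealHom.mapMatrix.toMonoidHom.comp
    ((LinearMap.toMatrixAlgEquiv b).toRingEquiv.toRingHom.toMonoidHom.comp
      (ZRepX.rep h hm φ))).toHomUnits
  have : Finite σ.range := (h1 _ σ).to_subtype
  have hk : ∀ g ∈ σ.ker, ∀ x, f (φ g x) = f x + f (φ g o) := fun g hg x => by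
    have e1 := congrArg Units.val (MonoidHom.mem_ker.1 (σ.ker.inv_mem hg))
    have e2 : LinearMap.toMatrixAlgEquiv b (ZRepX.rep h hm φ g⁻¹) = 1 := by
      refine Matrix.map_injective Complex.ofReal_injective ?_
      exact Eq.trans e1 (Matrix.map_one _ Complex.ofReal_zero Complex.ofReal_one).symm
    rw [map_eq_one_iff _ (LinearMap.toMatrixAlgEquiv b).injective] at e2
    have e3 : f (φ g⁻¹⁻¹ x) - f (φ g⁻¹⁻¹ o) = f x :=
      congrFun (congrArg Subtype.val (LinearMap.congr_fun e2 ⟨f, hf⟩)) x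
    rw [inv_inv] at e3
    linarith
  obtain ⟨C, hC⟩ := h2 σ.ker inferInstance (fun a => f (φ a o)) 0 fun a a' => by
    have := hk a a.2 (φ a' o)
    simp only [Subgroup.coe_mul, map_mul, IsometryEquiv.mul_apply, this]
    simp
  obtain ⟨C', hC'⟩ := (Set.finite_range fun t : Γ ⧸ σ.ker => |f (φ t.out⁻¹ o)|).bddAbove
  have hb : ∀ g, |f (φ g o)| ≤ C' + C := fun g => by
    obtain ⟨a, ha⟩ := QuotientGroup.mk_out_eq_mul σ.ker g⁻¹
    have e1 : g = a * (QuotientGroup.mk g⁻¹ : Γ ⧸ σ.ker).out⁻¹ := by rw [ha]; group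
    have e2 := hk a a.2 (φ (QuotientGroup.mk g⁻¹ : Γ ⧸ σ.ker).out⁻¹ o)
    rw [← IsometryEquiv.mul_apply, ← map_mul, ← e1] at e2
    rw [e2]
    exact (abs_add_le _ _).trans (add_le_add (hC' ⟨_, rfl⟩) (hC a))
  have hb' : ∀ z, |f z| ≤ C' + C := fun z =>
    hd.induction_on z (isClosed_le hf.2.1.abs continuous_const) hb
  exact f0 (funext fun x => (h.liouville hm hf.2.1 hf.2.2.1 hb' x o).trans hf.1)

end Pool.Agent.P.MP_5c499f_an.Cw
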