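import Pool.Agent.P.MP_5c499f_an.LDefs

/-! Exponential growth gives a similarity. TASK ANOS6-SIM. -/

set_option autoImplicit false

namespace Pool.Agent.P.MP_5c499f_an

open Filter Topology

namespace ZSimX

lemma sub_pow_le {a : ℕ → ℝ} (h0 : ∀ n, 0 ≤ a n) (hs : ∀ n k, a (n + k) ≤ a n * a k) (r m q : ℕ) :
    a (r + q * m) ≤ a r * a m ^ q := by
  induction q with
  | zero => simp
  | succ q ih =>
    rw [show r + (q + 1) * m = r + q * m + m by ring, pow_succ, ← mul_assoc]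
    exact (hs _ _).trans (mul_le_mul_of_nonneg_right ih (h0 m))

lemma sub_tendsto {a : ℕ → ℝ} (h0 : ∀ n, 0 ≤ a n) (hs : ∀ n k, a (n + k) ≤ a n * a k) {m : ℕ}
    (hm : a m < 1) : Tendsto a atTop (𝓝 0) := by
  rcases Nat.eq_zero_or_pos m with rfl | hpos
  · have : a = fun _ => 0 := funext fun n => by
      have h1 := hs n 0
      rw [add_zero] at h1
      nlinarith [h0 n]
    rw [this]
    exact tendsto_const_nhds
  · have hq : Tendsto (fun n => n / m) atTop atTop := Nat.tendsto_div_const_atTop hpos.ne'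
    have ht : Tendsto (fun n => (∑ r ∈ Finset.range m, a r) * a m ^ (n / m)) atTop (𝓝 0) := by
      simpa using ((tendsto_pow_atTop_nhds_zero_of_lt_one (h0 m) hm).comp hq).const_mul
        (∑ r ∈ Finset.range m, a r)
    refine squeeze_zero h0 (fun n => ?_) ht
    have h1 := sub_pow_le h0 hs (n % m) m (n / m)
    rw [Nat.mod_add_div'] at h1
    exact h1.trans (mul_le_mul_of_nonneg_right
      (Finset.single_le_sum (fun r _ => h0 r) (Finset.mem_range.2 (Nat.mod_lt n hpos)))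
      (pow_nonneg (h0 m) _))

lemma div_tendsto {S : ℕ → ℝ} (h0 : ∀ n, 0 ≤ S n) (hs : ∀ n k, S (n + k) ≤ S n * S k) {s : ℝ}
    (hs0 : 0 < s) {m : ℕ} (hm : S m < s ^ m) : Tendsto (fun n => S n / s ^ n) atTop (𝓝 0) :=
  sub_tendsto (m := m) (fun n => div_nonneg (h0 n) (pow_nonneg hs0.le n))
    (fun n k => by
      rw [div_mul_div_comm, ← pow_add]
      exact div_le_div_of_nonneg_right (hs n k) (pow_nonneg hs0.le _))
    ((div_lt_one (pow_pos hs0 m)).2 hm)

lemma exists_rate {S : ℕ → ℝ} (h0 : ∀ n, 0 ≤ S n) (hs : ∀ n k, S (n + k) ≤ S n * S k) {θ K : ℝ}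
    (hθ : 1 < θ) (hg : ∃ᶠ n : ℕ in atTop, θ ^ n ≤ K * S n) :
    ∃ lam : ℝ, 1 < lam ∧ (∀ n, lam ^ n ≤ S n) ∧
      ∀ s, lam < s → Tendsto (fun n => S n / s ^ n) atTop (𝓝 0) := by
  have hθ0 : 0 < θ := by linarith
  have hT : ∀ n, θ ^ n ≤ S n := fun m => by
    by_contra hm
    have h1 := (div_tendsto h0 hs hθ0 (not_le.1 hm)).const_mul K
    rw [mul_zero] at h1
    obtain ⟨n, e1, e2⟩ := (hg.and_eventually (h1.eventually (gt_mem_nhds one_pos))).exists
    rw [← mul_div_assoc, div_lt_one (pow_pos hθ0 n)] at e2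
    exact absurd e1 (not_le.2 e2)
  have hc : IsClosed {s : ℝ | ∀ n, s ^ n ≤ S n} := by
    rw [Set.ofPred_forall]
    exact isClosed_iInter fun n => isClosed_le (continuous_pow n) continuous_const
  have hb : BddAbove {s : ℝ | ∀ n, s ^ n ≤ S n} := ⟨S 1, fun s e => by simpa using e 1⟩
  have hl : θ ≤ sSup {s : ℝ | ∀ n, s ^ n ≤ S n} := le_csSup hb hT
  refine ⟨_, hθ.trans_le hl, hc.csSup_mem ⟨θ, hT⟩ hb, fun s e => ?_⟩
  have : ¬∀ n, s ^ n ≤ S n := fun h => absurd (le_csSup hb h) (not_le.2 e)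
  obtain ⟨m, hm⟩ := not_forall.1 this
  exact div_tendsto h0 hs (by linarith) (not_le.1 hm)

lemma exists_time {a : ℕ → ℝ} (h1 : ∀ n, 1 ≤ a n) {ε : ℝ} (hε : 0 < ε)
    (ht : Tendsto (fun n => a n / (1 + ε) ^ n) atTop (𝓝 0)) (j : ℕ) :
    ∃ M, j + 1 ≤ M ∧ a M ≤ ε * ∑ n ∈ Finset.range M, a n := by
  by_contra hn
  push Not at hn
  have hz : ∀ k, (1 + ε) ^ k ≤ ∑ n ∈ Finset.range (j + 1 + k), a n := fun k => by
    induction k with
    | zero =>
      rw [pow_zero, add_zero, Finset.sum_range_succ]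
      linarith [h1 j, Finset.sum_nonneg (s := Finset.range j) fun n _ => zero_le_one.trans (h1 n)]
    | succ k ih =>
      rw [← add_assoc, Finset.sum_range_succ, pow_succ]
      nlinarith [hn (j + 1 + k) (by omega)]
  have hp : 0 < ε / (1 + ε) ^ (j + 1) := by positivity
  obtain ⟨M, e1, e2⟩ := ((eventually_ge_atTop (j + 1)).and (ht.eventually (gt_mem_nhds hp))).exists
  obtain ⟨k, rfl⟩ := Nat.exists_eq_add_of_le e1
  rw [div_lt_div_iff₀ (by positivity) (by positivity), pow_add (1 + ε) (j + 1) k] at e2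
  have h3 : ε * (1 + ε) ^ k < a (j + 1 + k) :=
    (mul_le_mul_of_nonneg_left (hz k) hε.le).trans_lt (hn _ e1)
  have h4 : 0 < (1 + ε) ^ (j + 1) := by positivity
  nlinarith

variable {Γ : Type*} [Group Γ]

lemma exists_wl {B : Finset Γ} (hB : Subgroup.closure (B : Set Γ) = ⊤) :
    ∃ w : Γ → ℝ, Len w ∧ (∀ b ∈ B, w b ≤ 1) ∧
      ∀ D' : Γ → ℝ, Len D' → ∀ g, D' g ≤ w g * ∑ b ∈ B, D' b := by
  classical
  refine ⟨fun g => (Nat.find (exists_word hB g) : ℝ), ⟨?_, fun g => ?_, fun g h => ?_⟩,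
    fun b hb => ?_, fun D' h' g => Nat.find_spec (exists_word hB g) D' h'⟩
  · rw [Nat.cast_eq_zero, Nat.find_eq_zero]
    exact fun D' h' => by simp [h'.one]
  · refine congrArg _ (le_antisymm (Nat.find_min' _ fun D' h' => ?_)
      (Nat.find_min' _ fun D' h' => ?_))
    · exact h'.inv g ▸ Nat.find_spec (exists_word hB g) D' h'
    · exact h'.inv g ▸ Nat.find_spec (exists_word hB g⁻¹) D' h'
  · rw [← Nat.cast_add, Nat.cast_le]
    refine Nat.find_min' _ fun D' h' => ?_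
    push_cast
    linarith [h'.mul g h, Nat.find_spec (exists_word hB g) D' h',
      Nat.find_spec (exists_word hB h) D' h']
  · rw [← Nat.cast_one, Nat.cast_le]
    exact Nat.find_min' _ fun D' h' => by
      simpa using Finset.single_le_sum (fun b _ => h'.nonneg b) hb

end ZSimX

open ZSimX in
theorem exists_sim {Γ : Type*} [Group Γ] [Group.FG Γ] (Φ : MulAut Γ) {D : Γ → ℝ} (hD : Len D)
    {θ : ℝ} (hθ : 1 < θ) {g : Γ} (hg : ∃ᶠ n : ℕ in atTop, θ ^ n ≤ D ((Φ ^ n) g)) :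
    ∃ (δ : Γ → ℝ) (lam : ℝ), Len δ ∧ 1 < lam ∧ (∀ g, δ (Φ g) = lam * δ g) ∧ (∃ g, 0 < δ g) ∧
      Subgroup.closure {g | δ g ≤ 1} = ⊤ := by
  obtain ⟨B, hB⟩ : ∃ B : Finset Γ, Subgroup.closure (B : Set Γ) = ⊤ := Group.fg_def.1 ‹_›
  obtain ⟨w, hw, hw1, hwD⟩ := exists_wl hB
  set S : ℕ → ℝ := fun n => ∑ b ∈ B, w ((Φ ^ n) b) with hS
  have hle : ∀ n x, w ((Φ ^ n) x) ≤ w x * S n := fun n x =>
    hwD (fun x => w ((Φ ^ n) x)) (by simpa using hw.comp (Φ ^ n) one_pos) x
  have h0 : ∀ n, 0 ≤ S n := fun n => Finset.sum_nonneg fun b _ => hw.nonneg _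
  have hs : ∀ n k, S (n + k) ≤ S n * S k := fun n k => by
    rw [mul_comm, hS, Finset.sum_mul]
    exact Finset.sum_le_sum fun b _ => by
      rw [pow_add, MulAut.mul_apply]
      exact hle n _
  obtain ⟨lam, hl, hlS, hlt⟩ := exists_rate h0 hs (K := w g * ∑ b ∈ B, D b) hθ
    (hg.mono fun n e => e.trans ((hwD D hD _).trans (by
      rw [mul_right_comm]
      exact mul_le_mul_of_nonneg_right (hle n g) (Finset.sum_nonneg fun b _ => hD.nonneg b))))
  have hl0 : 0 < lam := by linarith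
  have ha : ∀ n, 1 ≤ S n / lam ^ n := fun n => (one_le_div (pow_pos hl0 n)).2 (hlS n)
  have hM : ∀ j : ℕ, ∃ M, j + 1 ≤ M ∧
      S M / lam ^ M ≤ 1 / (j + 1 : ℝ) * ∑ n ∈ Finset.range M, S n / lam ^ n := fun j => by
    have hε : 0 < 1 / (j + 1 : ℝ) := by positivity
    refine exists_time (a := fun n => S n / lam ^ n) ha hε ?_ j
    simpa only [div_div, ← mul_pow] using hlt (lam * (1 + 1 / (j + 1 : ℝ))) (by nlinarith)
  choose M hM1 hM2 using hM
  set Z : ℕ → ℝ := fun j => ∑ n ∈ Finset.range (M j), S n / lam ^ n with hZ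
  have hZ1 : ∀ j : ℕ, (j + 1 : ℝ) ≤ Z j := fun j => by
    have h1 : ((M j : ℕ) : ℝ) ≤ Z j := by
      simpa using Finset.sum_le_sum (s := Finset.range (M j)) fun n _ => ha n
    exact le_trans (by exact_mod_cast hM1 j) h1
  have hZ0 : ∀ j : ℕ, 0 < Z j := fun j => lt_of_lt_of_le (by positivity) (hZ1 j)
  set d : ℕ → Γ → ℝ := fun j x => (∑ n ∈ Finset.range (M j), w ((Φ ^ n) x) / lam ^ n) / Z j with hd
  have hd0 : ∀ j x, d j x ∈ Set.Icc 0 (w x) := fun j x => by
    refine ⟨div_nonneg (Finset.sum_nonneg fun n _ => div_nonneg (hw.nonneg _) (by positivity))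
      (hZ0 j).le, (div_le_iff₀ (hZ0 j)).2 ?_⟩
    rw [hZ, Finset.mul_sum]
    exact Finset.sum_le_sum fun n _ => by
      rw [← mul_div_assoc]
      exact div_le_div_of_nonneg_right (hle n x) (by positivity)
  have hlim : ∀ x, ∃ y ∈ Set.Icc 0 (w x), Tendsto (fun j => d j x) (hyperfilter ℕ) (𝓝 y) :=
    fun x => isCompact_Icc.ultrafilter_le_nhds ((hyperfilter ℕ).map fun j => d j x)
      (le_principal_iff.2 (mem_map.2 (univ_mem' fun j => hd0 j x)))
  choose δ hδ0 hδ using hlim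
  refine ⟨δ, lam, ⟨?_, fun x => ?_, fun x y => ?_⟩, hl, fun x => ?_, ?_, ?_⟩
  · exact le_antisymm (hw.one ▸ (hδ0 1).2) (hδ0 1).1
  · refine tendsto_nhds_unique (hδ x⁻¹) ((hδ x).congr fun j => ?_)
    simp only [hd, map_inv, hw.inv]
  · refine le_of_tendsto_of_tendsto' (hδ _) ((hδ x).add (hδ y)) fun j => ?_
    simp only [hd, ← add_div, ← Finset.sum_add_distrib]
    exact div_le_div_of_nonneg_right (Finset.sum_le_sum fun n _ =>
      div_le_div_of_nonneg_right (by rw [map_mul]; exact hw.mul _ _) (by positivity)) (hZ0 j).le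
  · have ht : Tendsto (fun j : ℕ => w x * (1 / (j + 1 : ℝ))) atTop (𝓝 0) := by
      simpa using tendsto_one_div_add_atTop_nhds_zero_nat.const_mul (w x)
    have e1 : Tendsto (fun j => w ((Φ ^ M j) x) / lam ^ M j / Z j) atTop (𝓝 0) := by
      refine squeeze_zero (fun j => div_nonneg (div_nonneg (hw.nonneg _) (by positivity))
        (hZ0 j).le) (fun j => (div_le_iff₀ (hZ0 j)).2 ?_) ht
      rw [mul_assoc]
      refine le_trans ?_ (mul_le_mul_of_nonneg_left (hM2 j) (hw.nonneg x))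
      rw [← mul_div_assoc]
      exact div_le_div_of_nonneg_right (hle _ x) (by positivity)
    have e2 : Tendsto (fun j => w x / Z j) atTop (𝓝 0) := by
      refine squeeze_zero (fun j => div_nonneg (hw.nonneg _) (hZ0 j).le) (fun j => ?_) ht
      rw [mul_one_div]
      exact div_le_div_of_nonneg_left (hw.nonneg x) (by positivity) (hZ1 j)
    have e3 := (((hδ x).add ((e1.sub e2).mono_left Nat.hyperfilter_le_atTop))).const_mul lam
    rw [sub_zero, add_zero] at e3
    refine tendsto_nhds_unique (hδ _) (e3.congr fun j => ?_)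
    have e4 := Finset.sum_range_succ' (fun n => w ((Φ ^ n) x) / lam ^ n) (M j)
    rw [Finset.sum_range_succ] at e4
    simp only [pow_zero, MulAut.one_apply, div_one] at e4
    have e5 : ∑ n ∈ Finset.range (M j), w ((Φ ^ n) (Φ x)) / lam ^ n =
        lam * ∑ n ∈ Finset.range (M j), w ((Φ ^ (n + 1)) x) / lam ^ (n + 1) := by
      rw [Finset.mul_sum]
      refine Finset.sum_congr rfl fun n _ => ?_
      rw [pow_succ Φ, MulAut.mul_apply, pow_succ]
      field_simp
    simp only [hd]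
    rw [e5, ← sub_div, ← add_div, mul_div_assoc, ← add_sub_assoc, e4, add_sub_cancel_right]
  · have e1 : ∑ b ∈ B, δ b = 1 := by
      refine tendsto_nhds_unique (tendsto_finsetSum B fun b _ => hδ b)
        (tendsto_const_nhds.congr fun j => ?_)
      simp only [hd]
      rw [← Finset.sum_div, Finset.sum_comm, eq_div_iff (hZ0 j).ne', one_mul]
      exact Finset.sum_congr rfl fun n _ => Finset.sum_div _ _ _
    by_contra hn
    push Not at hn
    linarith [Finset.sum_nonpos (s := B) fun b _ => hn b]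
  · exact top_le_iff.1 (hB ▸ Subgroup.closure_mono fun b hb => (hδ0 b).2.trans (hw1 b hb))

end Pool.Agent.P.MP_5c499f_an
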