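import Pool.Agent.P.MP_5c499f_an.ZDefs

/-! The completion of a length function with finite packing numbers. -/

set_option autoImplicit false

namespace Pool.Agent.P.MP_5c499f_an.Cw

universe u

namespace ZSpaceX

open Filter Topology Metric

/-- A copy of the group carrying the pseudometric of a length function. -/
def Cp {Γ : Type u} [Group Γ] {δ : Γ → ℝ} (_ : Len δ) : Type u := Γ

variable {Γ : Type u} [Group Γ] {δ : Γ → ℝ}

/-- The identity map to the copy. -/
def toCp (h : Len δ) (g : Γ) : Cp h := g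

/-- The identity map from the copy. -/
def ofCp (h : Len δ) (g : Cp h) : Γ := g

noncomputable instance (h : Len δ) : PseudoMetricSpace (Cp h) where
  dist a b := δ ((ofCp h a)⁻¹ * ofCp h b)
  dist_self a := by simp [h.one]
  dist_comm a b := by
    rw [← h.inv]
    simp
  dist_triangle a b c := by
    have := h.mul ((ofCp h a)⁻¹ * ofCp h b) ((ofCp h b)⁻¹ * ofCp h c)
    rwa [show (ofCp h a)⁻¹ * ofCp h b * ((ofCp h b)⁻¹ * ofCp h c) =
      (ofCp h a)⁻¹ * ofCp h c by group] at this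

lemma dist_cp (h : Len δ) (a b : Cp h) : dist a b = δ ((ofCp h a)⁻¹ * ofCp h b) := rfl

/-- Left multiplication on the copy. -/
def lm (h : Len δ) (g : Γ) (a : Cp h) : Cp h := toCp h (g * ofCp h a)

lemma lm_iso (h : Len δ) (g : Γ) : Isometry (lm h g) := by
  refine Isometry.of_dist_eq fun a b => ?_
  rw [dist_cp, dist_cp]
  congr 1
  show (g * ofCp h a)⁻¹ * (g * ofCp h b) = _
  group

lemma lm_comp (h : Len δ) (g g' : Γ) : lm h g ∘ lm h g' = lm h (g * g') := by
  funext a
  show toCp h (g * (g' * ofCp h a)) = toCp h (g * g' * ofCp h a)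
  rw [mul_assoc]

lemma lm_one (h : Len δ) : lm h 1 = id := by
  funext a
  show toCp h (1 * ofCp h a) = a
  rw [one_mul]
  rfl

lemma map_mul' (h : Len δ) (g g' : Γ) (x : UniformSpace.Completion (Cp h)) :
    UniformSpace.Completion.map (lm h g) (UniformSpace.Completion.map (lm h g') x) =
      UniformSpace.Completion.map (lm h (g * g')) x := by
  have := UniformSpace.Completion.map_comp (lm_iso h g).uniformContinuous
    (lm_iso h g').uniformContinuous
  rw [lm_comp] at this
  exact congrFun this x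

lemma map_one' (h : Len δ) (x : UniformSpace.Completion (Cp h)) :
    UniformSpace.Completion.map (lm h 1) x = x := by
  rw [lm_one, UniformSpace.Completion.map_id]
  rfl

/-- The extension of left multiplication to the completion. -/
noncomputable def ext (h : Len δ) (g : Γ) :
    UniformSpace.Completion (Cp h) ≃ᵢ UniformSpace.Completion (Cp h) where
  toFun := UniformSpace.Completion.map (lm h g)
  invFun := UniformSpace.Completion.map (lm h g⁻¹)
  left_inv x := by rw [map_mul', inv_mul_cancel, map_one']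
  right_inv x := by rw [map_mul', mul_inv_cancel, map_one']
  isometry_toFun := (lm_iso h g).completion_map

/-- The action on the completion. -/
noncomputable def act (h : Len δ) :
    Γ →* (UniformSpace.Completion (Cp h) ≃ᵢ UniformSpace.Completion (Cp h)) where
  toFun := ext h
  map_one' := IsometryEquiv.ext fun x => map_one' h x
  map_mul' g g' := IsometryEquiv.ext fun x => (map_mul' h g g' x).symm

lemma act_coe (h : Len δ) (g : Γ) :
    act h g (toCp h 1 : UniformSpace.Completion (Cp h)) =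
      (toCp h g : UniformSpace.Completion (Cp h)) := by
  show UniformSpace.Completion.map (lm h g) _ = _
  rw [UniformSpace.Completion.map_coe (lm_iso h g).uniformContinuous]
  congr 1
  show toCp h (g * 1) = toCp h g
  rw [mul_one]

section Abs

variable {Q : Type u} [MetricSpace Q] {φ : Γ →* (Q ≃ᵢ Q)} {o : Q}

lemma dist_orb (hd : ∀ g, dist o (φ g o) = δ g) (a b : Γ) :
    dist (φ a o) (φ b o) = δ (a⁻¹ * b) := by
  rw [← hd, ← (φ a).dist_eq o, ← IsometryEquiv.mul_apply, ← map_mul, mul_inv_cancel_left]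

lemma net (hd : ∀ g, dist o (φ g o) = δ g) (hr : DenseRange fun g => φ g o)
    (hp : ∀ R ε : ℝ, 0 < ε → ∃ C : ℕ, ∀ A : Finset Γ, (∀ a ∈ A, δ a ≤ R) →
      (∀ a ∈ A, ∀ b ∈ A, a ≠ b → ε < δ (a⁻¹ * b)) → A.card ≤ C) (R ε : ℝ) (hε : 0 < ε) :
    ∃ A : Finset Γ, ∀ x : Q, dist o x ≤ R → ∃ a ∈ A, dist x (φ a o) < ε := by
  classical
  obtain ⟨C, hC⟩ := hp (R + 1) (ε / 2) (by positivity)
  have hne : ({n : ℕ | ∃ A : Finset Γ, A.card = n ∧ (∀ a ∈ A, δ a ≤ R + 1) ∧
      ∀ a ∈ A, ∀ b ∈ A, a ≠ b → ε / 2 < δ (a⁻¹ * b)}).Nonempty := ⟨0, ∅, by simp⟩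
  have hbd : BddAbove {n : ℕ | ∃ A : Finset Γ, A.card = n ∧ (∀ a ∈ A, δ a ≤ R + 1) ∧
      ∀ a ∈ A, ∀ b ∈ A, a ≠ b → ε / 2 < δ (a⁻¹ * b)} := by
    refine ⟨C, ?_⟩
    rintro n ⟨A, rfl, h1, h2⟩
    exact hC A h1 h2
  obtain ⟨A, hA, h1, h2⟩ := Nat.sSup_mem hne hbd
  refine ⟨A, fun x hx => ?_⟩
  obtain ⟨g, hg⟩ := hr.exists_dist_lt x (show 0 < min 1 (ε / 2) by positivity)
  have hg1 : dist x (φ g o) < 1 := hg.trans_le (min_le_left _ _)
  have hg2 : dist x (φ g o) < ε / 2 := hg.trans_le (min_le_right _ _)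
  have hgR : δ g ≤ R + 1 := by
    rw [← hd]
    linarith [dist_triangle o x (φ g o)]
  by_contra hcon
  push Not at hcon
  have far : ∀ a ∈ A, ε / 2 < dist (φ g o) (φ a o) := fun a ha => by
    linarith [hcon a ha, dist_triangle x (φ g o) (φ a o)]
  have hgA : g ∉ A := fun hg' => by
    have := far g hg'
    rw [dist_self] at this
    linarith
  have hmem : (insert g A).card ∈ {n : ℕ | ∃ A : Finset Γ, A.card = n ∧ (∀ a ∈ A, δ a ≤ R + 1) ∧
      ∀ a ∈ A, ∀ b ∈ A, a ≠ b → ε / 2 < δ (a⁻¹ * b)} := by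
    refine ⟨insert g A, rfl, fun a ha => ?_, fun a ha b hb hab => ?_⟩
    · rcases Finset.mem_insert.1 ha with rfl | ha
      · exact hgR
      · exact h1 a ha
    · rcases Finset.mem_insert.1 ha with rfl | ha'
      · rcases Finset.mem_insert.1 hb with rfl | hb'
        · exact absurd rfl hab
        · rw [← dist_orb hd]
          exact far b hb'
      · rcases Finset.mem_insert.1 hb with rfl | hb'
        · rw [← dist_orb hd, dist_comm]
          exact far a ha'
        · exact h2 a ha' b hb' hab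
  have := le_csSup hbd hmem
  rw [Finset.card_insert_of_notMem hgA, hA] at this
  omega

lemma proper [CompleteSpace Q]
    (hn : ∀ R ε : ℝ, 0 < ε →
      ∃ A : Finset Γ, ∀ x : Q, dist o x ≤ R → ∃ a ∈ A, dist x (φ a o) < ε) :
    ProperSpace Q := by
  refine ⟨fun x r => TotallyBounded.isCompact_of_isClosed ?_ isClosed_closedBall⟩
  rw [Metric.totallyBounded_iff]
  intro ε hε
  obtain ⟨A, hA⟩ := hn (dist o x + r) ε hε
  refine ⟨(fun a => φ a o) '' (A : Set Γ), A.finite_toSet.image _, fun y hy => ?_⟩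
  rw [mem_closedBall] at hy
  obtain ⟨a, ha, h1⟩ := hA y (by linarith [dist_triangle o x y, dist_comm x y])
  simp only [Set.mem_iUnion]
  exact ⟨φ a o, ⟨a, ha, rfl⟩, h1⟩

lemma ulim [ProperSpace Q] (u : ℕ → Q) (x : Q) (r : ℝ) (hu : ∀ n, dist (u n) x ≤ r) :
    ∃ y, Tendsto u (hyperfilter ℕ : Filter ℕ) (𝓝 y) := by
  obtain ⟨y, -, hy⟩ := (isCompact_closedBall x r).ultrafilter_le_nhds ((hyperfilter ℕ).map u) (by
    rw [Ultrafilter.coe_map, le_principal_iff, mem_map]
    exact Eventually.of_forall fun n => hu n)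
  exact ⟨y, hy⟩

lemma trans_o [ProperSpace Q] (hr : DenseRange fun g => φ g o) (x : Q) :
    ∃ g : Q ≃ᵢ Q, g o = x := by
  choose g hg using fun n : ℕ => hr.exists_dist_lt x (show (0 : ℝ) < 1 / (n + 1) by positivity)
  have hg1 : ∀ n, dist (φ (g n) o) x ≤ 1 := fun n => by
    rw [dist_comm]
    refine (hg n).le.trans ?_
    rw [div_le_one (by positivity)]
    linarith [Nat.cast_nonneg (α := ℝ) n]
  choose F hF using fun y : Q => ulim (fun n => φ (g n) y) x (dist y o + 1) fun n => by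
    have := dist_triangle (φ (g n) y) (φ (g n) o) x
    rw [(φ (g n)).dist_eq] at this
    linarith [hg1 n]
  choose G hG using fun y : Q => ulim (fun n => (φ (g n)).symm y) o (dist y x + 1) fun n => by
    rw [← (φ (g n)).dist_eq, IsometryEquiv.apply_symm_apply]
    linarith [dist_triangle y x (φ (g n) o), hg1 n, dist_comm x (φ (g n) o)]
  have iso : Isometry F := Isometry.of_dist_eq fun y y' => by
    have h1 := (hF y).dist (hF y')
    simp only [IsometryEquiv.dist_eq] at h1
    exact tendsto_nhds_unique h1 tendsto_const_nhds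
  have li : ∀ y, G (F y) = y := fun y => by
    refine tendsto_nhds_unique (hG (F y)) ?_
    rw [tendsto_iff_dist_tendsto_zero]
    have h1 := tendsto_iff_dist_tendsto_zero.1 (hF y)
    refine h1.congr fun n => ?_
    rw [← (φ (g n)).dist_eq ((φ (g n)).symm (F y)), IsometryEquiv.apply_symm_apply, dist_comm]
  have ri : ∀ y, F (G y) = y := fun y => by
    refine tendsto_nhds_unique (hF (G y)) ?_
    rw [tendsto_iff_dist_tendsto_zero]
    have h1 := tendsto_iff_dist_tendsto_zero.1 (hG y)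
    refine h1.congr fun n => ?_
    rw [← (φ (g n)).dist_eq ((φ (g n)).symm y), IsometryEquiv.apply_symm_apply, dist_comm]
  refine ⟨⟨⟨F, G, li, ri⟩, iso⟩, ?_⟩
  show F o = x
  refine tendsto_nhds_unique (hF o) ?_
  refine Tendsto.mono_left ?_ Nat.hyperfilter_le_atTop
  rw [tendsto_iff_dist_tendsto_zero]
  refine squeeze_zero (fun n => dist_nonneg) (fun n => ?_) tendsto_one_div_add_atTop_nhds_zero_nat
  rw [dist_comm]
  exact (hg n).le

lemma reach_map {r : ℝ} {M : ℕ} {x y : Q} (g : Q ≃ᵢ Q) (e : Reach r M x y) :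
    Reach r M (g x) (g y) := by
  obtain ⟨c, rfl, rfl, hc⟩ := e
  exact ⟨fun i => g (c i), rfl, rfl, fun i hi => by rw [g.dist_eq]; exact hc i hi⟩

lemma reach_symm {r : ℝ} {M : ℕ} {x y : Q} (e : Reach r M x y) : Reach r M y x := by
  obtain ⟨c, rfl, rfl, hc⟩ := e
  refine ⟨fun i => c (M - i), by simp, by simp, fun i hi => ?_⟩
  have := hc (M - (i + 1)) (by omega)
  rw [show M - (i + 1) + 1 = M - i by omega, dist_comm] at this
  exact this

lemma reach_orb (hd : ∀ g, dist o (φ g o) = δ g) (hB : Subgroup.closure {g | δ g ≤ 1} = ⊤)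
    (g : Γ) : ∃ L : ℕ, Reach 2 L o (φ g o) := by
  induction (hB ▸ Subgroup.mem_top g : g ∈ Subgroup.closure {g | δ g ≤ 1}) using
    Subgroup.closure_induction with
  | mem x hx =>
    refine ⟨1, Reach.single ?_⟩
    have hx' : δ x ≤ 1 := hx
    rw [dist_comm, hd]
    linarith
  | one => exact ⟨0, by simpa using Reach.refl 2 o⟩
  | mul x y _ _ h1 h2 =>
    obtain ⟨L, h1⟩ := h1
    obtain ⟨L', h2⟩ := h2
    refine ⟨L + L', h1.trans ?_⟩
    rw [map_mul, IsometryEquiv.mul_apply]
    exact reach_map _ h2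
  | inv x _ h1 =>
    obtain ⟨L, h1⟩ := h1
    refine ⟨L, reach_symm ?_⟩
    have := reach_map (φ x⁻¹) h1
    rwa [← IsometryEquiv.mul_apply, ← map_mul, inv_mul_cancel, map_one] at this

end Abs

end ZSpaceX

open ZSpaceX in
theorem exists_space {Γ : Type u} [Group Γ] {δ : Γ → ℝ} (h : Len δ)
    (hB : Subgroup.closure {g | δ g ≤ 1} = ⊤)
    (hp : ∀ R ε : ℝ, 0 < ε → ∃ C : ℕ, ∀ A : Finset Γ, (∀ a ∈ A, δ a ≤ R) →
      (∀ a ∈ A, ∀ b ∈ A, a ≠ b → ε < δ (a⁻¹ * b)) → A.card ≤ C) :
    ∃ (Q : Type u) (_ : MetricSpace Q) (_ : ProperSpace Q) (φ : Γ →* (Q ≃ᵢ Q)) (o : Q),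
      (∀ g, dist o (φ g o) = δ g) ∧ (DenseRange fun g => φ g o) ∧
      (∀ x y : Q, ∃ g : Q ≃ᵢ Q, g x = y) ∧
      ∀ R : ℝ, ∃ M : ℕ, ∀ x y : Q, dist x y ≤ R → Reach 2 M x y := by
  have hd : ∀ g, dist (toCp h 1 : UniformSpace.Completion (Cp h))
      (act h g (toCp h 1 : UniformSpace.Completion (Cp h))) = δ g := fun g => by
    rw [act_coe, UniformSpace.Completion.dist_eq, dist_cp]
    show δ (1⁻¹ * g) = δ g
    simp
  have hr : DenseRange fun g => act h g (toCp h 1 : UniformSpace.Completion (Cp h)) := by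
    simp only [act_coe]
    exact UniformSpace.Completion.denseRange_coe (α := Cp h)
  have hn := net hd hr hp
  have hP := proper hn
  have ht : ∀ x y : UniformSpace.Completion (Cp h),
      ∃ g : UniformSpace.Completion (Cp h) ≃ᵢ UniformSpace.Completion (Cp h), g x = y := by
    intro x y
    obtain ⟨g, rfl⟩ := trans_o hr x
    obtain ⟨g', rfl⟩ := trans_o hr y
    exact ⟨g.symm.trans g', by simp⟩
  refine ⟨UniformSpace.Completion (Cp h), inferInstance, hP, act h, toCp h 1, hd, hr, ht,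
    fun R => ?_⟩
  obtain ⟨A, hA⟩ := hn R 1 one_pos
  choose L hL using reach_orb hd hB
  refine ⟨A.sup L + 1, fun x y hxy => ?_⟩
  obtain ⟨g, hg⟩ := ht x (toCp h 1)
  obtain ⟨a, ha, h1⟩ := hA (g y) (by rw [← hg, g.dist_eq]; exact hxy)
  have h2 := (((hL a).mono (by norm_num) (Finset.le_sup (f := L) ha)).trans
    (Reach.single (r := 2) (q := g y) (by linarith)))
  have h3 := reach_map g.symm h2
  rwa [← hg, g.symm_apply_apply, g.symm_apply_apply] at h3

end Pool.Agent.P.MP_5c499f_an.Cw
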