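import Pool.Agent.P.MP_5c499f_an.LMain
import Pool.Agent.P.MP_5c499f_an.ZMeas
import Pool.Agent.P.MP_5c499f_an.ZPack
import Pool.Agent.P.MP_5c499f_an.ZRep
import Pool.Agent.P.MP_5c499f_an.ZSim
import Pool.Agent.P.MP_5c499f_an.ZSpace

/-! Subexponential growth on the kernel. -/

set_option autoImplicit false

namespace Pool.Agent.P.MP_5c499f_an

open Filter Topology

universe u

/-- The automorphism `Ψ` has subexponential growth. -/
def Slow {N : Type u} [Group N] (Ψ : MulAut N) : Prop :=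
  ∀ (X : Type u) [PseudoMetricSpace X] [MulAction N X] [IsIsometricSMul N X] (x : X) (g : N)
    (θ : ℝ), 1 < θ → ∀ᶠ n : ℕ in atTop, dist x ((Ψ ^ n) g • x) ≤ θ ^ n

lemma len_dist {Γ X : Type*} [Group Γ] [PseudoMetricSpace X] [MulAction Γ X] [IsIsometricSMul Γ X]
    (x : X) : Len fun a : Γ => dist x (a • x) :=
  ⟨by simp, fun a => by rw [← dist_smul a, smul_inv_smul, dist_comm], fun a b => by
    rw [← dist_smul a x (b • x), mul_smul]
    exact dist_triangle _ _ _⟩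

section

variable {Y Γ : Type*} [Group Γ] [MulAction Γ Y] {G : Equiv.Perm Y} {Φ : MulAut Γ}
  {Cl : Y → Y → Prop} {c : ℕ} {K : Set Y} {o : Y}

theorem Sys.slow' (h : Sys G Φ Cl c K o) [Group.FG Γ] (hr : Rigid Γ) {D : Γ → ℝ} (hD : Len D)
    (g : Γ) {θ : ℝ} (hθ : 1 < θ) : ∀ᶠ n : ℕ in atTop, D ((Φ ^ n) g) < θ ^ n := by
  classical
  by_contra! hg
  obtain ⟨δ, lam, d1, d2, d3, ⟨b, d4⟩, d5⟩ := exists_sim Φ hD hθ hg
  obtain ⟨κ, hκ⟩ := h.grow
  obtain ⟨C₀, C, e, hp⟩ := (h.branch hκ).pack d1 d2 d3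
  have pw : ∀ (j : ℕ) g, δ ((Φ ^ j) g) = lam ^ j * δ g := fun j g => by
    induction j with
    | zero => simp
    | succ j ih => rw [pow_succ', MulAut.mul_apply, d3, ih, pow_succ', mul_assoc]
  have big : ∀ t r : ℝ, 0 < r → ∃ j : ℕ, t ≤ lam ^ j * r := fun t r hr =>
    (((tendsto_pow_atTop_atTop_of_one_lt d2).atTop_mul_const hr).eventually_ge_atTop t).exists
  obtain ⟨Q, _, _, φ, q, q1, q2, q3, q4⟩ := Cw.exists_space d1 d5 fun R ε hε => by
    obtain ⟨j, hj⟩ := big C₀ ε hε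
    have p : 0 < lam ^ j := by positivity
    refine ⟨_, fun A a1 a2 => (Finset.card_image_of_injective A (Φ ^ j).injective).ge.trans
      (hp ⌈lam ^ j * R⌉₊ _ ?_ ?_)⟩
    · simp only [Finset.forall_mem_image, pw]
      exact fun a ha => (mul_le_mul_of_nonneg_left (a1 a ha) p.le).trans (Nat.le_ceil _)
    · simp only [Finset.forall_mem_image, ← map_inv, ← map_mul, pw]
      exact fun a ha b hb e => hj.trans_lt (mul_lt_mul_of_pos_left (a2 a ha b hb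
        fun e' => e (e' ▸ rfl)) p)
  borelize Q
  obtain ⟨m, _, _, hm⟩ := Cw.exists_measure q3
  exact Cw.Hmg.not_rigid (o := q) ⟨hm, q3, q4, Cw.grow_of_pack φ q2 hm (by simpa only [q1] using hp),
    fun R => (big R _ d4).elim fun j hj => ⟨_, by rwa [q1, pw]⟩⟩ φ q2 hr

theorem Sys.slow (h : Sys G Φ Cl c K o) [Group.FG Γ] (hr : Rigid Γ) : Slow Φ :=
  fun _ _ _ _ x g _ hθ => (h.slow' hr (len_dist x) g hθ).mono fun _ => le_of_lt

theorem Sys.inner (h : Sys G Φ Cl c K o)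
    (uq : ∀ k x y, Fw G Cl k x y → Fw G⁻¹ Cl k x y → x = y) {k : ℕ} (hk : 0 < k) {a : Γ}
    (e : Φ ^ k = MulAut.conj a) : Finite Γ := by
  have tw := h.tw a⁻¹ k
  obtain ⟨Cl', h'⟩ := h.toPre.pow a⁻¹ hk
  rw [e, ← map_mul, inv_mul_cancel, map_one] at h'
  set G' := MulAction.toPerm a⁻¹ * G ^ k with hG'
  have e0 : ∀ x, G' x = a⁻¹ • (G ^ (k : ℤ)) x := fun x => by simp [G']
  have sh : ∀ (m T : ℤ) x y, (Fw G Cl T ((G' ^ m) x) ((G' ^ m) y) → Fw G Cl (T + k * m) x y) ∧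
      (Fw G⁻¹ Cl T ((G' ^ m) x) ((G' ^ m) y) → Fw G⁻¹ Cl (T - k * m) x y) := fun m T x y => by
    obtain ⟨u, hu⟩ := tw m
    rw [hu, hu]
    exact ⟨fun e => Fw_shift.1 (by simpa using h.fw_smul e u⁻¹),
      fun e => Fw_shift'.1 (by simpa using h.toPre.rev.fw_smul e u⁻¹)⟩
  have eq1 : ∀ (T : ℤ) x y, (∀ m : ℤ, Fw G Cl (T + k * m) x y) → x = y := fun T x y e =>
    have : ∀ j : ℤ, Cl ((G ^ j) x) ((G ^ j) y) := fun j =>
      e (-|T - j|) j (by nlinarith [le_abs_self (T - j), abs_nonneg (T - j)])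
    uq 0 x y (fun j _ => this j) (Fw_inv.2 fun j _ => this j)
  have eq2 : ∀ (T : ℤ) x y, (∀ m : ℤ, Fw G⁻¹ Cl (T - k * m) x y) → x = y := fun T x y e =>
    have : ∀ j : ℤ, Cl ((G ^ j) x) ((G ^ j) y) := fun j =>
      Fw_inv.1 (e |T + j|) j (by nlinarith [le_abs_self (T + j), abs_nonneg (T + j)])
    uq 0 x y (fun j _ => this j) (Fw_inv.2 fun j _ => this j)
  obtain ⟨T, hT⟩ := h.br _ ((h.fin k).image fun β => a⁻¹ * β⁻¹)
  have A : ∀ y, Sat Γ K y → ∃ w, Fw G Cl T w y ∧ Fw G⁻¹ Cl T w (G' y) := fun y ⟨g, hg⟩ => by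
    obtain ⟨u, hu⟩ := h.cov k _ hg
    obtain ⟨w, -, w1, w2⟩ := hT _ hg _ hu _ ⟨u⁻¹, ⟨_, hg, _, hu, h.refl _⟩, rfl⟩
    refine ⟨g • w, by simpa using h.fw_smul w1 g, ?_⟩
    have := h.toPre.rev.fw_smul w2 g
    simp only [inv_inv, mul_smul, smul_inv_smul] at this
    rwa [← e0, h'.equiv, MulAut.one_apply, smul_inv_smul] at this
  have B : ∀ y, Sat Γ K y → G' y = y := fun y hy => by
    obtain ⟨w, w1, w2⟩ := A y hy
    have : ∀ m : ℤ, Fw G Cl (T + k * m) w y ∧ Fw G⁻¹ Cl (T - k * m) w (G' y) := fun m => by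
      obtain ⟨v, v1, v2⟩ := A _ (h'.sat hy m)
      obtain ⟨v, rfl⟩ := (G' ^ m).surjective v
      rw [← Equiv.Perm.mul_apply, ← zpow_one_add, add_comm, zpow_add_one, Equiv.Perm.mul_apply] at v2
      have a1 := (sh _ _ _ _).1 v1
      have a2 := (sh _ _ _ _).2 v2
      rw [uq (T + |k * m| + c) w v
        (h.cs _ _ _ _ (w1.mono (by linarith [abs_nonneg (k * m)]))
          (h.fw_symm (a1.mono (by linarith [le_abs_self (k * m)]))))
        (h.cu _ _ _ _ (w2.mono (by linarith [abs_nonneg (k * m)]))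
          (h.toPre.rev.fw_symm (a2.mono (by linarith [neg_abs_le (k * m)]))))]
      exact ⟨a1, a2⟩
    rw [← eq2 T _ _ fun m => (this m).2, eq1 T _ _ fun m => (this m).1]
  have C : ∀ y, Sat Γ K y → ∀ m : ℤ, (G' ^ m) y = y := fun y hy m =>
    Equiv.Perm.zpow_apply_eq_self_of_apply_eq_self (B y hy) m
  refine Set.finite_univ_iff.1 ((h.fin 0).subset fun σ _ => ⟨o, h.mem, o, h.mem, ?_⟩)
  obtain ⟨T', hT'⟩ := h.br _ (Set.finite_singleton σ)
  obtain ⟨w, w0, w1, w2⟩ := hT' o h.mem o h.mem σ rfl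
  have s := Sat.of_mem (Γ := Γ) h.mem
  rw [zpow_zero, Equiv.Perm.one_apply, ← eq2 T' w (σ • o) fun m => (sh m _ _ _).2 (by
    rwa [C _ w0, C _ (s.smul σ)]), eq1 T' w o fun m => (sh m _ _ _).1 (by rwa [C _ w0, C _ s])]
  exact h.refl _

end

section

variable {Y Γ : Type*} [MetricSpace Y] [Group Γ] [MulAction Γ Y] {G : Equiv.Perm Y}
  {Φ : MulAut Γ} {ρ : ℝ} {o : Y} (D : Gps G Φ ρ o)
include D

lemma Gps.steps (n : ℕ) : ∃ L, ∀ i ≤ n, ∀ a b, dist a b ≤ ρ →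
    Reach ρ L ((G ^ i) a) ((G ^ i) b) := by
  induction n with
  | zero => exact ⟨1, fun i hi a b e => by simpa [Nat.le_zero.1 hi] using (Reach.single e).symm⟩
  | succ n ih =>
    obtain ⟨L, hL⟩ := ih
    obtain ⟨L', hL'⟩ := D.step L
    refine ⟨L + L', fun i hi a b e => ?_⟩
    rcases hi.eq_or_lt with rfl | hi
    · rw [pow_succ']
      exact (hL' _ _ (hL n le_rfl a b e)).mono D.pos.le (by omega)
    · exact (hL i (by omega) a b e).mono D.pos.le (by omega)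

theorem Gps.kernel : ∃ (γ : Γ) (n R : ℕ) (Cl : Y → Y → Prop) (c : ℕ) (K : Set Y) (o' : Y)
    (N : Subgroup Γ) (_ : N.Characteristic), 0 < n ∧ (∀ x y, Cl x y → dist x y ≤ ρ) ∧
    (∀ k : ℤ, Reach ρ R o (((MulAction.toPerm γ * G ^ n) ^ k : Equiv.Perm Y) o')) ∧ N.FG ∧
    Conil N ∧ Rigid N ∧ Sys (MulAction.toPerm γ * G ^ n)
      (MulAut.characteristic N (MulAut.conj γ * Φ ^ n)) Cl c K o' := by
  obtain ⟨γ, n, Cl, c, R, o', n0, h, hc⟩ := D.sys'
  obtain ⟨S, s1, s2⟩ := D.fg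
  have : Group.FG Γ := Group.fg_iff.2 ⟨S, s2, s1⟩
  obtain ⟨N, ⟨n1, n2, n3, K', n4⟩, n5⟩ := h.machine
  have : Group.FG N := (Group.fg_iff_subgroup_fg N).2 n2
  exact ⟨γ, n, R, Cl, c, K', o', N, n1, n0, hc, h.base, n2, n3, n4.rigid n5, n4⟩

lemma Gps.uq (gl : ∀ R u v, (∀ k : ℤ, Reach ρ R ((G ^ k) u) ((G ^ k) v)) → u = v) (γ : Γ) {n : ℕ}
    (n0 : 0 < n) {Cl : Y → Y → Prop} (hc : ∀ x y, Cl x y → dist x y ≤ ρ) (k : ℤ) (x y : Y)
    (h1 : Fw (MulAction.toPerm γ * G ^ n) Cl k x y)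
    (h2 : Fw (MulAction.toPerm γ * G ^ n)⁻¹ Cl k x y) : x = y := by
  obtain ⟨c, R₀, -, h⟩ := D.pre
  obtain ⟨L, hL⟩ := D.steps n
  choose R hR using D.conn
  obtain ⟨L', hL'⟩ := ((Set.finite_Icc (-(n * |k|)) (n * |k|)).image fun i : ℤ =>
    R ((G ^ i) x) + R ((G ^ i) y)).bddAbove
  have hn : (0 : ℤ) < n := by omega
  refine gl (L + L') x y fun i => ?_
  by_cases hi : i ∈ Set.Icc (-(n * |k|)) (n * |k|)
  · exact ((hR _).symm.trans (hR _)).mono D.pos.le (le_add_left (hL' ⟨i, hi, rfl⟩))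
  obtain ⟨u, hu⟩ := (h R₀ le_rfl).tw γ n (i / n)
  have e1 := Int.mul_ediv_self_le (x := i) hn.ne'
  have e2 := Int.lt_mul_ediv_self_add (x := i) hn
  have : Cl _ _ := (not_and_or.1 hi).elim
    (fun e => Fw_inv.1 h2 (i / n) (by nlinarith [le_abs_self k]))
    fun e => h1 (i / n) (by nlinarith [le_abs_self k])
  have := hL (i - n * (i / n)).toNat (by omega) _ _ (hc _ _ this)
  rw [hu, hu, ← zpow_natCast, (h R₀ le_rfl).eqv, (h R₀ le_rfl).eqv, zp_apply, zp_apply,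
    show ((i - n * (i / n)).toNat : ℤ) + n * (i / n) = i by omega] at this
  simpa using (this.smul D.iso ((Φ ^ ((i - n * (i / n)).toNat : ℤ)) u)⁻¹).mono D.pos.le
    (Nat.le_add_right L L')

end

open Bundle
open scoped Manifold ContDiff

variable {E : Type*} [NormedAddCommGroup E] [NormedSpace ℝ E] [FiniteDimensional ℝ E]
  {M : Type*} [TopologicalSpace M] [T2Space M] [CompactSpace M]
  [ChartedSpace E M] [IsManifold 𝓘(ℝ, E) ∞ M]
  [RiemannianBundle fun x : M => TangentSpace 𝓘(ℝ, E) x]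
  [IsContinuousRiemannianBundle E fun x : M => TangentSpace 𝓘(ℝ, E) x]
  (f : Diffeomorph 𝓘(ℝ, E) 𝓘(ℝ, E) M M 1) (hf : IsAnosov E f)
  {Y Γ : Type*} [MetricSpace Y] [ConnectedSpace Y] [Group Γ] [MulAction Γ Y] [IsIsometricSMul Γ Y]
  {p : Y → M} (hp : IsQuotientCoveringMap p Γ) (F : Y ≃ₜ Y) (hF : ∀ y, p (F y) = f (p y))
include hf hp hF

set_option linter.unusedSectionVars false in
omit hf in
lemma gps_fin {Φ : MulAut Γ} {r : ℝ} {o : Y} (D : Gps F.toEquiv Φ r o)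
    (gl : ∀ R u v, (∀ k : ℤ, Reach r R (((F.toEquiv : Equiv.Perm Y) ^ k) u)
      (((F.toEquiv : Equiv.Perm Y) ^ k) v)) → u = v) {N : Subgroup Γ} [N.Normal] [Finite N]
    (n3 : Conil N) : InfranilConj f := by
  obtain ⟨S, s1, s2⟩ := D.fg
  obtain ⟨d, hd⟩ := wgd_of_virt n3.virt s1 s2
  obtain ⟨Λ, c1, c2, c3, c4, c5⟩ := exists_char s1 s2 hd
  obtain ⟨L, c, hL⟩ := exists_layers c3 c5
  obtain ⟨m, μ, lv, β, A', α, B, Fa⟩ := exists_aff Φ Λ hL
  exact D.final Fa gl hp hF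

theorem gps_outer (gps : ∀ x y, ∃! w, Asym F w x ∧ Asym F.symm w y)
    (H : ∀ (N : Subgroup Γ) [N.Characteristic] (Ψ : MulAut N), N.FG →
      Group.IsVirtuallyNilpotent (Γ ⧸ N) → Stiff N → Slow Ψ → Slow Ψ⁻¹ →
      ∃ k, 0 < k ∧ ∃ a, Ψ ^ k = MulAut.conj a) : InfranilConj f := by
  obtain ⟨Φ, r, o, D, gl⟩ := gps_of_anosov f hf hp F hF fun x y => (gps x y).exists
  replace gl := gl fun x y _ _ => (gps x y).unique
  obtain ⟨γ, n, R, Cl, c, K, o', N, n1, n0, hc, -, n2, n3, n4, h⟩ := D.kernel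
  have : Group.FG N := (Group.fg_iff_subgroup_fg N).2 n2
  obtain ⟨k, k0, a, e⟩ := H N _ n2 n3.quot (h.stiff n4) (h.slow n4) (h.rev.slow n4)
  have := h.inner (D.uq gl γ n0 hc) k0 e
  exact gps_fin f hp F hF D gl n3

theorem gps_exp (ex : ∀ x y, ∃ w, Asym F w x ∧ Asym F.symm w y)
    (ed : ∀ x y, x ≠ y → Asym F.symm x y →
      ∃ θ : ℝ, 1 < θ ∧ ∃ᶠ n : ℕ in atTop, θ ^ n ≤ dist (F^[n] x) (F^[n] y)) : InfranilConj f := by
  have tr : ∀ (T : Y → Y) x y z, Asym T x z → Asym T y z → Asym T x y := fun T x y z a b =>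
    squeeze_zero (fun _ => dist_nonneg) (fun _ => dist_triangle_right _ _ _) (by simpa using a.add b)
  obtain ⟨Φ, r, o, D, gl⟩ := gps_of_anosov f hf hp F hF ex
  replace gl := gl fun x y w w' a b => by_contra fun e => by
    obtain ⟨θ, h1, h2⟩ := ed w w' e (tr _ _ _ _ a.2 b.2)
    obtain ⟨n, n1, n2⟩ := (h2.and_eventually ((tr _ _ _ _ a.1 b.1).eventually
      (gt_mem_nhds one_pos))).exists
    exact (one_le_pow₀ h1.le).not_gt (n1.trans_lt n2)
  obtain ⟨γ, n, R, Cl, c, K, o', N, n1, n0, -, hb, n2, n3, n4, h⟩ := D.kernel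
  have : Group.FG N := (Group.fg_iff_subgroup_fg N).2 n2
  obtain ⟨_, e, -, e2, -⟩ := exists_embedding_euclidean_of_compact (I := 𝓘(ℝ, E)) (M := M)
  let _ := e2.isEmbedding.comapMetricSpace e
  obtain ⟨C, -, k1, k2, -⟩ := exists_cpt hp
  obtain ⟨η, η0, hη⟩ := unif_sep hp k1 k2
  set G : Equiv.Perm Y := F.toEquiv
  have it : ∀ (j : ℕ) x, F^[j] x = (G ^ (j : ℤ)) x := fun j x => by
    rw [zpow_natCast, Equiv.Perm.coe_pow]
    rfl
  have eqv := equiv_zpow (act := (· • ·)) D.equiv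
  have : Subsingleton N := subsingleton_of_forall_eq 1 fun σ => by
    obtain ⟨w, w1, w2⟩ := ex (σ • o') o'
    rcases eq_or_ne w o' with rfl | hw
    · obtain ⟨j, hj⟩ := (w1.eventually (ge_mem_nhds (show 0 < 2 * η by positivity))).exists
      have := hη _ _ hj (by rw [it, it, Subgroup.smul_def, eqv, hp.map_smul])
      exact Subtype.ext (D.free _ _ (F.injective.iterate j this).symm)
    obtain ⟨θ, t1, t2⟩ := ed w o' hw w2
    obtain ⟨θ', t3, t4⟩ := exists_between t1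
    obtain ⟨K₀, c1, c2⟩ := D.cpt R
    have a1 : ∀ᶠ m : ℕ in atTop, ∀ i ∈ Finset.range n, ∀ a ∈ K₀, 1 + dist ((G ^ (i : ℤ)) a)
        ((G ^ (i : ℤ)) ((MulAut.characteristic N (MulAut.conj γ * Φ ^ n) ^ m) σ • a)) < θ ^ m := by
      refine (eventually_all_finset _).2 fun i _ => ?_
      obtain ⟨L, hL⟩ := (Metric.isBounded_iff_subset_closedBall ((G ^ (i : ℤ)) o)).1
        (c1.image (D.cont i)).isBounded
      have a2 := h.slow' n4 (D := fun g : N => dist ((G ^ (i : ℤ)) o)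
        ((Φ ^ (i : ℤ)) g • (G ^ (i : ℤ)) o)) ⟨by simp, fun g => by simpa using (len_dist _).inv _,
          fun g g' => by simpa using (len_dist _).mul _ _⟩ σ t3
      have a3 : ∀ᶠ m : ℕ in atTop, (1 + 2 * L) / θ ^ m + (θ' / θ) ^ m < 1 :=
        (((tendsto_pow_atTop_atTop_of_one_lt t1).const_div_atTop _).add
          (tendsto_pow_atTop_nhds_zero_of_lt_one (by positivity)
            ((div_lt_one (by positivity)).2 t4))).eventually (gt_mem_nhds (by simp))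
      filter_upwards [a2, a3] with m b1 b2 a ha
      rw [div_pow, ← add_div, div_lt_one (by positivity)] at b2
      have b3 := Metric.mem_closedBall.1 (hL ⟨a, ha, rfl⟩)
      rw [Subgroup.smul_def, eqv]
      have b4 := dist_triangle4 ((G ^ (i : ℤ)) a) ((G ^ (i : ℤ)) o)
        ((Φ ^ (i : ℤ)) ((MulAut.characteristic N (MulAut.conj γ * Φ ^ n) ^ m) σ) • (G ^ (i : ℤ)) o)
        ((Φ ^ (i : ℤ)) ((MulAut.characteristic N (MulAut.conj γ * Φ ^ n) ^ m) σ) • (G ^ (i : ℤ)) a)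
      rw [dist_smul, dist_comm ((G ^ (i : ℤ)) o) ((G ^ (i : ℤ)) a)] at b4
      linarith
    obtain ⟨j, j1, j2, j3⟩ := (t2.and_eventually ((w1.eventually (ge_mem_nhds one_pos)).and
      ((Nat.tendsto_div_const_atTop n0.ne').eventually a1))).exists
    obtain ⟨c', R₀, -, P⟩ := D.pre
    obtain ⟨u, hu⟩ := (P R₀ le_rfl).tw γ n (j / n : ℕ)
    have b1 := j3 _ (Finset.mem_range.2 (Nat.mod_lt j n0)) _ (c2 _ (hb (j / n : ℕ)))
    rw [← zpow_natCast _ (j / n), ← h.eqv, hu, hu, eqv, eqv, dist_smul, zp_apply, zp_apply,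
      show ((j % n : ℕ) : ℤ) + n * (j / n : ℕ) = j by exact_mod_cast Nat.mod_add_div j n, ← it,
      ← it] at b1
    have b2 := pow_le_pow_right₀ t1.le (Nat.div_le_self j n)
    linarith [dist_triangle (F^[j] w) (F^[j] (σ • o')) (F^[j] o'), dist_comm (F^[j] o') (F^[j] (σ • o'))]
  exact gps_fin f hp F hF D gl n3

end Pool.Agent.P.MP_5c499f_an
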