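import Pool.Agent.P.MP_5c499f_an.ZDefs

/-! Calculus of the walk. TASK ANOS6-WALK. -/

set_option autoImplicit false
set_option linter.unusedSectionVars false

namespace Pool.Agent.P.MP_5c499f_an.Cw

open MeasureTheory Metric Filter Topology

variable {Q : Type*} [MetricSpace Q] [ProperSpace Q] [MeasurableSpace Q] [BorelSpace Q]
  {m : Measure Q} [IsFiniteMeasureOnCompacts m] [m.IsOpenPosMeasure] {k : Q → Q → ℝ} {o : Q}

namespace ZWalkX

omit [m.IsOpenPosMeasure] in
theorem integ {F : Q → ℝ} (hF : Continuous F) (x : Q) (R : ℝ) (hs : ∀ y, R ≤ dist x y → F y = 0) :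
    Integrable F m :=
  hF.integrable_of_hasCompactSupport
    (HasCompactSupport.intro (isCompact_closedBall x R) fun y hy =>
      hs y (by rw [mem_closedBall', not_le] at hy; exact hy.le))

omit [m.IsOpenPosMeasure] in
theorem cont_int {X : Type*} [TopologicalSpace X] {c : X → Q} (hc : Continuous c) {F : X → Q → ℝ}
    (hF : Continuous (Function.uncurry F)) (R : ℝ) (hs : ∀ x y, R ≤ dist (c x) y → F x y = 0) :
    Continuous fun x => ∫ y, F x y ∂m := by
  refine continuous_iff_continuousAt.2 fun x0 => ?_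
  have ho : IsOpen (c ⁻¹' ball (c x0) 1) := isOpen_ball.preimage hc
  refine (continuousOn_integral_of_compact_support (s := c ⁻¹' ball (c x0) 1)
    (isCompact_closedBall (c x0) (R + 1)) hF.continuousOn ?_).continuousAt
    (ho.mem_nhds (mem_ball_self one_pos))
  intro p y hp hy
  rw [mem_closedBall', not_le] at hy
  have h1 : dist (c p) (c x0) < 1 := hp
  have h2 := dist_triangle (c x0) (c p) y
  rw [dist_comm] at h1
  exact hs p y (by linarith)

omit [m.IsOpenPosMeasure] in
theorem fub {a : Q → ℝ} (ha : Continuous a) {x : Q} {R : ℝ} (has : ∀ y, R ≤ dist x y → a y = 0)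
    {b : Q → Q → ℝ} (hb : Continuous (Function.uncurry b)) {R' : ℝ}
    (hbs : ∀ y z, R' ≤ dist y z → b y z = 0) {f : Q → ℝ} (hf : Continuous f) :
    ∫ z, (∫ y, a y * b y z ∂m) * f z ∂m = ∫ y, a y * ∫ z, b y z * f z ∂m ∂m := by
  have h := integral_integral_swap_of_hasCompactSupport (μ := m) (ν := m)
    (f := fun y z => a y * b y z * f z)
    (((ha.comp continuous_fst).mul hb).mul (hf.comp continuous_snd))
    (HasCompactSupport.intro ((isCompact_closedBall x R).prod (isCompact_closedBall x (R + R')))
      fun p hp => by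
        show a p.1 * b p.1 p.2 * f p.2 = 0
        by_cases h1 : R ≤ dist x p.1
        · rw [has _ h1, zero_mul, zero_mul]
        · have h2 : ¬ p.2 ∈ closedBall x (R + R') := fun h2 =>
            hp ⟨mem_closedBall'.2 (not_le.1 h1).le, h2⟩
          rw [mem_closedBall', not_le] at h2
          have h3 := dist_triangle x p.1 p.2
          rw [hbs _ _ (by linarith [not_le.1 h1]), mul_zero, zero_mul])
  simp only [← integral_mul_const, ← integral_const_mul, ← mul_assoc]
  exact h.symm

omit [ProperSpace Q] [MeasurableSpace Q] [BorelSpace Q] in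
theorem cont_of_lip {g : Q → ℝ} {L : ℝ} (hg : ∀ x y, dist x y ≤ 1 → |g x - g y| ≤ L * dist x y) :
    Continuous g := by
  refine Metric.continuous_iff.2 fun b ε hε => ⟨min 1 (ε / (|L| + 1)), by positivity, fun a ha => ?_⟩
  have h1 := hg a b (ha.le.trans (min_le_left _ _))
  have h2 : dist a b < ε / (|L| + 1) := ha.trans_le (min_le_right _ _)
  rw [lt_div_iff₀ (by positivity)] at h2
  have h3 := mul_le_mul_of_nonneg_right (le_abs_self L) (dist_nonneg (x := a) (y := b))
  have h4 := dist_nonneg (x := a) (y := b)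
  rw [Real.dist_eq]
  nlinarith

omit [m.IsOpenPosMeasure] in
theorem abs_le {p : Q → ℝ} (hp : Integrable p m) (h0 : ∀ z, 0 ≤ p z) (h1 : ∫ z, p z ∂m = 1)
    {f : Q → ℝ} {M : ℝ} (e : ∀ z, p z = 0 ∨ |f z| ≤ M) : |∫ z, p z * f z ∂m| ≤ M := by
  have h := norm_integral_le_of_norm_le (μ := m) (f := fun z => p z * f z) (hp.mul_const M)
    (Eventually.of_forall fun z => by
      rw [Real.norm_eq_abs, abs_mul, abs_of_nonneg (h0 z)]
      rcases e z with h | h
      · rw [h, zero_mul, zero_mul]
      · exact mul_le_mul_of_nonneg_left h (h0 z))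
  rwa [integral_mul_const, h1, one_mul, Real.norm_eq_abs] at h

end ZWalkX

open ZWalkX

namespace Ker

variable (h : Ker m k)
include h

theorem int_mul {f : Q → ℝ} (hf : Continuous f) (x : Q) : Integrable (fun y => k x y * f y) m :=
  integ ((h.cont.comp (Continuous.prodMk_right x)).mul hf) x 6 fun y hy => by
    rw [h.supp x y hy, zero_mul]

theorem P_cont {f : Q → ℝ} (hf : Continuous f) : Continuous (Pk m k f) :=
  cont_int (c := id) continuous_id (F := fun x y => k x y * f y)
    (h.cont.mul (hf.comp continuous_snd)) 6 fun x y hy => by rw [h.supp x y hy, zero_mul]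

theorem p_cont (n : ℕ) : Continuous (Function.uncurry (pn m k n)) := by
  induction n with
  | zero => exact h.cont
  | succ n ih =>
    exact cont_int (X := Q × Q) (c := Prod.fst) continuous_fst
      (F := fun p y => k p.1 y * pn m k n y p.2)
      ((h.cont.comp (continuous_fst.fst.prodMk continuous_snd)).mul
        (ih.comp (continuous_snd.prodMk continuous_fst.snd))) 6
      fun p y hy => by rw [h.supp _ y hy, zero_mul]

theorem p_nonneg (n : ℕ) (x y : Q) : 0 ≤ pn m k n x y := by
  induction n generalizing x with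
  | zero => exact h.nonneg x y
  | succ n ih => exact integral_nonneg fun w => mul_nonneg (h.nonneg x w) (ih w)

theorem p_supp (n : ℕ) {x y : Q} (e : 6 * (n + 1 : ℝ) ≤ dist x y) : pn m k n x y = 0 := by
  induction n generalizing x with
  | zero => exact h.supp x y (by simpa using e)
  | succ n ih =>
    have h1 : (fun w => k x w * pn m k n w y) = fun _ => 0 := by
      funext w
      by_cases h2 : 6 ≤ dist x w
      · rw [h.supp x w h2, zero_mul]
      · have h3 := dist_triangle x w y
        push_cast at e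
        rw [ih (by linarith [not_le.1 h2]), mul_zero]
    show ∫ w, k x w * pn m k n w y ∂m = 0
    rw [h1, integral_zero]

theorem p_int_mul (n : ℕ) {f : Q → ℝ} (hf : Continuous f) (x : Q) :
    Integrable (fun y => pn m k n x y * f y) m :=
  integ (((h.p_cont n).comp (Continuous.prodMk_right x)).mul hf) x (6 * (n + 1 : ℝ)) fun y hy => by
    rw [h.p_supp n hy, zero_mul]

theorem walk_succ (n : ℕ) {f : Q → ℝ} (hf : Continuous f) :
    En m k (n + 1) f = Pk m k (En m k n f) :=
  funext fun x => fub (h.cont.comp (Continuous.prodMk_right x)) (h.supp x) (h.p_cont n)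
    (fun _ _ e => h.p_supp n e) hf

theorem walk_harm (n : ℕ) {f : Q → ℝ} (hf : Continuous f) (e : Pk m k f = f) : En m k n f = f := by
  induction n with
  | zero => exact e
  | succ n ih => rw [h.walk_succ n hf, ih, e]

theorem p_int (n : ℕ) (x : Q) : ∫ z, pn m k n x z ∂m = 1 := by
  have h1 := congrFun (h.walk_harm n (f := fun _ => (1 : ℝ)) continuous_const
    (funext fun y => by simpa [Pk] using h.int y)) x
  simpa [En] using h1

theorem p_inv (hm : Hmg m o) (n : ℕ) (g : Q ≃ᵢ Q) (x y : Q) :
    pn m k n (g x) (g y) = pn m k n x y := by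
  induction n generalizing x with
  | zero => exact h.inv g x y
  | succ n ih =>
    have h1 := (hm.inv g).integral_comp g.toHomeomorph.measurableEmbedding
      (fun w => k (g x) w * pn m k n w (g y))
    show ∫ w, k (g x) w * pn m k n w (g y) ∂m = ∫ w, k x w * pn m k n w y ∂m
    rw [← h1]
    simp only [h.inv, ih]

theorem p_add (n j : ℕ) (x z : Q) :
    ∫ y, pn m k n x y * pn m k j y z ∂m = pn m k (n + j + 1) x z := by
  induction n generalizing x with
  | zero => rw [zero_add]; rfl
  | succ n ih =>
    have h1 := congrFun (h.walk_succ n (f := fun y => pn m k j y z)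
      ((h.p_cont j).comp (Continuous.prodMk_left z))) x
    have h2 : En m k n (fun y => pn m k j y z) = fun w => pn m k (n + j + 1) w z := funext ih
    rw [h2] at h1
    rw [show n + 1 + j + 1 = n + j + 1 + 1 by omega]
    exact h1

theorem p_symm (n : ℕ) (x y : Q) : pn m k n x y = pn m k n y x := by
  induction n generalizing x with
  | zero => exact h.symm x y
  | succ n ih =>
    rw [← h.p_add n 0 y x]
    show ∫ w, k x w * pn m k n w y ∂m = ∫ w, pn m k n y w * k w x ∂m
    simp only [ih, h.symm x, mul_comm]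

theorem E_cont (n : ℕ) {f : Q → ℝ} (hf : Continuous f) : Continuous (En m k n f) :=
  cont_int (c := id) continuous_id (F := fun x y => pn m k n x y * f y)
    ((h.p_cont n).mul (hf.comp continuous_snd)) (6 * (n + 1 : ℝ))
    fun x y hy => by rw [h.p_supp n (x := x) (y := y) hy, zero_mul]

theorem E_succ (n : ℕ) {f : Q → ℝ} (hf : Continuous f) :
    En m k (n + 1) f = Pk m k (En m k n f) := h.walk_succ n hf

theorem E_succ' (n : ℕ) {f : Q → ℝ} (hf : Continuous f) :
    En m k (n + 1) f = En m k n (Pk m k f) := by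
  funext x
  have h1 := fub (m := m) ((h.p_cont n).comp (Continuous.prodMk_right x))
    (fun _ e => h.p_supp n e) h.cont h.supp hf
  refine Eq.trans ?_ h1
  show ∫ z, pn m k (n + 1) x z * f z ∂m = _
  simp only [← h.p_add n 0 x]
  rfl

theorem E_harm (n : ℕ) {f : Q → ℝ} (hf : Continuous f) (e : Pk m k f = f) : En m k n f = f :=
  h.walk_harm n hf e

theorem E_le (n : ℕ) {f : Q → ℝ} (hf : Continuous f) {M : ℝ} (e : ∀ z, |f z| ≤ M) (x : Q) :
    |En m k n f x| ≤ M := by
  have _ := hf
  exact ZWalkX.abs_le (by simpa using h.p_int_mul n (f := fun _ => (1 : ℝ)) continuous_const x)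
    (h.p_nonneg n x) (h.p_int n x) fun z => Or.inr (e z)

theorem P_sub_const {f : Q → ℝ} (hf : Continuous f) (c : ℝ) (x : Q) :
    Pk m k (fun z => f z - c) x = Pk m k f x - c := by
  simp only [Pk, mul_sub]
  rw [integral_sub (h.int_mul hf x) (h.int_mul continuous_const x), integral_mul_const, h.int,
    one_mul]

theorem P_le {f : Q → ℝ} (hf : Continuous f) {x : Q} {c M : ℝ}
    (e : ∀ z, dist x z ≤ 6 → |f z - c| ≤ M) : |Pk m k f x - c| ≤ M := by
  rw [← h.P_sub_const hf c x]
  exact ZWalkX.abs_le (by simpa using h.int_mul (f := fun _ => (1 : ℝ)) continuous_const x)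
    (h.nonneg x) (h.int x) fun z => (le_total 6 (dist x z)).imp (h.supp x z) (e z)

theorem P_lip (hm : Hmg m o) : ∃ L : ℝ, 0 ≤ L ∧ ∀ f : Q → ℝ, Continuous f → ∀ (x y : Q) (c M : ℝ),
    dist x y ≤ 1 → (∀ z, dist x z ≤ 7 → |f z - c| ≤ M) →
      |Pk m k f x - Pk m k f y| ≤ L * M * dist x y := by
  obtain ⟨L, hL⟩ := h.lip
  refine ⟨|L| * m.real (closedBall o 7), mul_nonneg (abs_nonneg _) measureReal_nonneg,
    fun f hf x y c M hxy e => ?_⟩
  have hc : Continuous fun z => f z - c := hf.sub continuous_const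
  have h1 : Pk m k f x - Pk m k f y = ∫ z in closedBall x 7, (k x z - k y z) * (f z - c) ∂m := by
    rw [setIntegral_eq_integral_of_forall_compl_eq_zero]
    · simp only [sub_mul]
      rw [integral_sub (h.int_mul hc x) (h.int_mul hc y)]
      have h2 := h.P_sub_const hf c x
      have h3 := h.P_sub_const hf c y
      simp only [Pk] at h2 h3 ⊢
      linarith
    · intro z hz
      rw [mem_closedBall', not_le] at hz
      have h2 := dist_triangle x y z
      rw [h.supp x z (by linarith), h.supp y z (by linarith), sub_zero, zero_mul]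
  have h2 : m.real (closedBall x 7) = m.real (closedBall o 7) := by
    obtain ⟨g, rfl⟩ := hm.trans x o
    rw [← g.isometry.preimage_closedBall x 7,
      (hm.inv g).measureReal_preimage measurableSet_closedBall.nullMeasurableSet]
  have h3 := norm_setIntegral_le_of_norm_le_const (μ := m) (s := closedBall x 7)
    (f := fun z => (k x z - k y z) * (f z - c)) (C := |L| * dist x y * M)
    (isCompact_closedBall x 7).measure_lt_top fun z hz => by
      rw [Real.norm_eq_abs, abs_mul]
      exact mul_le_mul ((hL x y z).trans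
        (mul_le_mul_of_nonneg_right (le_abs_self L) dist_nonneg)) (e z (mem_closedBall'.1 hz))
        (abs_nonneg _) (by positivity)
  rw [h1, ← Real.norm_eq_abs]
  refine h3.trans (le_of_eq ?_)
  rw [h2]
  ring

theorem P_lim {ι : Type*} {l : Filter ι} [l.NeBot] {f : ι → Q → ℝ} {g : Q → ℝ} {L : ℝ}
    (hf : ∀ i x y, dist x y ≤ 1 → |f i x - f i y| ≤ L * dist x y)
    (hg : ∀ x, Tendsto (fun i => f i x) l (𝓝 (g x))) :
    Continuous g ∧ ∀ x, Tendsto (fun i => Pk m k (f i) x) l (𝓝 (Pk m k g x)) := by
  have hgl : ∀ x y, dist x y ≤ 1 → |g x - g y| ≤ L * dist x y := fun x y e =>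
    le_of_tendsto' ((hg x).sub (hg y)).abs fun i => hf i x y e
  have hgc := cont_of_lip hgl
  refine ⟨hgc, fun x => Metric.tendsto_nhds.2 fun ε hε => ?_⟩
  obtain ⟨t, -, htf, hcov⟩ := (isCompact_closedBall x 6).finite_cover_balls
    (e := min 1 (ε / (4 * (|L| + 1)))) (by positivity)
  have hev : ∀ᶠ i in l, ∀ a ∈ t, dist (f i a) (g a) < ε / 4 :=
    (eventually_all_finite htf).2 fun a _ => Metric.tendsto_nhds.1 (hg a) _ (by positivity)
  refine hev.mono fun i hi => ?_
  have hfc := cont_of_lip (hf i)
  have h1 : Pk m k (f i) x - Pk m k g x = Pk m k (fun z => f i z - g z) x - 0 := by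
    simp only [Pk, mul_sub]
    rw [integral_sub (h.int_mul hfc x) (h.int_mul hgc x), sub_zero]
  rw [Real.dist_eq, h1]
  refine lt_of_le_of_lt (h.P_le (f := fun z => f i z - g z) (M := 3 * ε / 4) (hfc.sub hgc) fun z hz => ?_) (by linarith)
  obtain ⟨a, ha, hza⟩ := Set.mem_iUnion₂.1 (hcov (mem_closedBall'.2 hz))
  have h2 : dist z a ≤ 1 := (mem_ball.1 hza).le.trans (min_le_left _ _)
  have h3 : dist z a < ε / (4 * (|L| + 1)) := (mem_ball.1 hza).trans_le (min_le_right _ _)
  rw [lt_div_iff₀ (by positivity)] at h3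
  have h4 := mul_le_mul_of_nonneg_right (le_abs_self L) (dist_nonneg (x := z) (y := a))
  have h5 := dist_nonneg (x := z) (y := a)
  have h6 : L * dist z a ≤ ε / 4 := by nlinarith
  have h7 := _root_.abs_le.1 ((hf i z a h2).trans h6)
  have h8 := _root_.abs_le.1 ((hgl z a h2).trans h6)
  have h9 := hi a ha
  rw [Real.dist_eq, abs_lt] at h9
  rw [sub_zero, _root_.abs_le]
  constructor <;> linarith [h7.1, h7.2, h8.1, h8.2, h9.1, h9.2]

end Ker

end Pool.Agent.P.MP_5c499f_an.Cw
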